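import Mathlib

/-!
ES-BArith: the elementary inequalities used in the block theorem (file `BBlock`), stated with a
minimal context so that they are fast to check.
-/

namespace ES

theorem ba_gx {g x : ℝ} (hg : 0 ≤ g) (hx0 : 0 ≤ x) (hx : x ≤ 1 / 5) :
    g * (1 + x) * (1 + 4 * (x * (1 + x) / 2)) ≤ g * (1 + 4 * x) := by
  have e : (1 + x) * (1 + 4 * (x * (1 + x) / 2)) ≤ 1 + 4 * x := by
    have e1 : x ^ 2 ≤ x * (1 / 5) := by rw [sq]; exact mul_le_mul_of_nonneg_left hx hx0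
    have e2 : x ^ 3 ≤ x * (1 / 25) := by
      have h3 : x ^ 3 = x ^ 2 * x := by ring
      have h4 : x ^ 2 * x ≤ x * (1 / 5) * x := mul_le_mul_of_nonneg_right e1 hx0
      have h5 : x * (1 / 5) * x = x ^ 2 * (1 / 5) := by ring
      rw [h3]
      linarith
    have h6 : (1 + x) * (1 + 4 * (x * (1 + x) / 2)) = 1 + 3 * x + 4 * x ^ 2 + 2 * x ^ 3 := by ring
    rw [h6]
    linarith
  calc g * (1 + x) * (1 + 4 * (x * (1 + x) / 2))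
      = g * ((1 + x) * (1 + 4 * (x * (1 + x) / 2))) := by ring
    _ ≤ g * (1 + 4 * x) := mul_le_mul_of_nonneg_left e hg

theorem ba_nu {ν x : ℝ} (hν : 0 ≤ ν) (hν4 : ν ≤ 1 / 4) (hx0 : 0 ≤ x) (hx : x ≤ 1 / 5) :
    ν * (1 + x) ≤ 3 / 10 := by
  have : ν * (1 + x) ≤ 1 / 4 * (1 + 1 / 5) :=
    mul_le_mul hν4 (by linarith) (by linarith) (by norm_num)
  linarith

theorem ba_Y {g w ℓr ν x : ℝ} (hg : 0 ≤ g) (hw : 0 ≤ w) (hℓ : 0 < ℓr) (hν : 0 ≤ ν)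
    (hν4 : ν ≤ 1 / 4) (hx0 : 0 ≤ x) (hx : x ≤ 1 / 5) :
    g * (1 + x) * (ν * w) + ν * w / ℓr ≤ 3 / 10 * (g * w + w / ℓr) := by
  have e3 := ba_nu hν hν4 hx0 hx
  have e4 : 0 ≤ g * w := mul_nonneg hg hw
  have e5 : 0 ≤ w / ℓr := div_nonneg hw hℓ.le
  have e1 : g * (1 + x) * (ν * w) = (g * w) * (ν * (1 + x)) := by ring
  have e2 : ν * w / ℓr = (w / ℓr) * ν := by ring
  have e6 : (g * w) * (ν * (1 + x)) ≤ (g * w) * (3 / 10) := mul_le_mul_of_nonneg_left e3 e4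
  have e7 : (w / ℓr) * ν ≤ (w / ℓr) * (3 / 10) := mul_le_mul_of_nonneg_left (by linarith) e5
  rw [e1, e2]
  linarith

theorem ba_AA {A C K Y Y' : ℝ} (hC : 0 ≤ C) (hK : 0 ≤ K) (hY : Y' ≤ 3 / 10 * Y) (hY0 : 0 ≤ Y) :
    A + C * K * Y + 4 * C * K * Y' ≤ A + 4 * C * K * Y := by
  have h1 : C * K * Y' ≤ C * K * (3 / 10 * Y) := mul_le_mul_of_nonneg_left hY (mul_nonneg hC hK)
  have h2 : 0 ≤ C * K * Y := mul_nonneg (mul_nonneg hC hK) hY0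
  have h3 : C * K * (3 / 10 * Y) = 3 / 10 * (C * K * Y) := by ring
  have h4 : 4 * C * K * Y' = 4 * (C * K * Y') := by ring
  have h5 : 4 * C * K * Y = 4 * (C * K * Y) := by ring
  rw [h4, h5]
  linarith

theorem ba_A1 {A C K Y : ℝ} (hC : 0 ≤ C) (hK : 0 ≤ K) (hY0 : 0 ≤ Y) :
    A + C * K * Y ≤ A + 4 * C * K * Y := by
  have h2 : 0 ≤ C * K * Y := mul_nonneg (mul_nonneg hC hK) hY0
  have h5 : 4 * C * K * Y = 4 * (C * K * Y) := by ring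
  rw [h5]
  linarith

theorem ba_gF1 {C K L w g x : ℝ} (hC : 0 ≤ C) (hK : 0 ≤ K) (hL : 0 ≤ L) (hw : 0 ≤ w) (hg : 0 ≤ g)
    (hx0 : 0 ≤ x) : C * (L * w + K * g) ≤ 4 * C * (L * w + K * g * (1 + 4 * x)) := by
  have e1 : 0 ≤ L * w := mul_nonneg hL hw
  have e2 : 0 ≤ K * g := mul_nonneg hK hg
  have e4 : 0 ≤ K * g * x := mul_nonneg e2 hx0
  have e5 : 4 * (L * w + K * g * (1 + 4 * x)) = 4 * (L * w) + 4 * (K * g) + 16 * (K * g * x) := by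
    ring
  have e3 : L * w + K * g ≤ 4 * (L * w + K * g * (1 + 4 * x)) := by
    rw [e5]
    linarith
  calc C * (L * w + K * g) ≤ C * (4 * (L * w + K * g * (1 + 4 * x))) :=
        mul_le_mul_of_nonneg_left e3 hC
    _ = _ := by ring

theorem ba_gF2 {C K L w g x ν : ℝ} (hC : 0 ≤ C) (hK : 0 ≤ K) (hL : 0 ≤ L) (hw : 0 ≤ w) (hg : 0 ≤ g)
    (hx0 : 0 ≤ x) (hx : x ≤ 1 / 5) (hν4 : ν ≤ 1 / 4) :
    4 * C * (L * (ν * w) + K * (g * (1 + x)) * (1 + 4 * (x * (1 + x) / 2)))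
      ≤ 4 * C * (L * w + K * g * (1 + 4 * x)) := by
  have e1 : L * (ν * w) ≤ L * w := by
    have h1 : ν * w ≤ 1 * w := mul_le_mul_of_nonneg_right (by linarith) hw
    rw [one_mul] at h1
    exact mul_le_mul_of_nonneg_left h1 hL
  have e2 : K * (g * (1 + x)) * (1 + 4 * (x * (1 + x) / 2)) ≤ K * g * (1 + 4 * x) := by
    calc K * (g * (1 + x)) * (1 + 4 * (x * (1 + x) / 2))
        = K * (g * (1 + x) * (1 + 4 * (x * (1 + x) / 2))) := by ring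
      _ ≤ K * (g * (1 + 4 * x)) := mul_le_mul_of_nonneg_left (ba_gx hg hx0 hx) hK
      _ = _ := by ring
  exact mul_le_mul_of_nonneg_left (add_le_add e1 e2) (by linarith)

theorem ba_S1 {C K L Z : ℝ} (hC : 0 ≤ C) (hK : 0 ≤ K) (hL : 0 < L) (hZ : 0 ≤ Z) :
    C * K / L * Z ≤ 4 * C * K / L * Z := by
  apply mul_le_mul_of_nonneg_right _ hZ
  apply div_le_div_of_nonneg_right _ hL.le
  have h1 : 0 ≤ C * K := mul_nonneg hC hK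
  have h2 : 4 * C * K = 4 * (C * K) := by ring
  rw [h2]
  linarith

theorem ba_S2 {C K L w ℓr g x ν : ℝ} (hC : 0 ≤ C) (hK : 0 ≤ K) (hL : 0 < L) (hg : 0 ≤ g)
    (hw : 0 ≤ w) (hℓ : 0 < ℓr) (hν : 0 ≤ ν) (hν4 : ν ≤ 1 / 4) (hx0 : 0 ≤ x) (hx : x ≤ 1 / 5) :
    4 * C * K / L * (ν * w / ℓr + g * (1 + x) * (ν * w)) ≤ 4 * C * K / L * (w / ℓr + g * w) := by
  have h1 := ba_Y hg hw hℓ hν hν4 hx0 hx
  have h2 : 0 ≤ g * w := mul_nonneg hg hw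
  have h3 : 0 ≤ w / ℓr := div_nonneg hw hℓ.le
  have h4 : 0 ≤ 4 * C * K := by
    have : 0 ≤ C * K := mul_nonneg hC hK
    have h2 : 4 * C * K = 4 * (C * K) := by ring
    rw [h2]
    linarith
  apply mul_le_mul_of_nonneg_left _ (div_nonneg h4 hL.le)
  linarith

theorem ba_h24 {ℓr h : ℝ} {P : ℕ} (hℓ : 0 < ℓr) (hℓ2 : 12 * ℓr * 2 ^ (P + 1) ≤ h) :
    24 * ℓr ≤ h := by
  have h2P : (1:ℝ) ≤ 2 ^ P := one_le_pow₀ (by norm_num)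
  have e : 12 * ℓr * 2 ^ (P + 1) = 24 * ℓr * 2 ^ P := by rw [pow_succ]; ring
  rw [e] at hℓ2
  have h1 : 24 * ℓr * 1 ≤ 24 * ℓr * 2 ^ P := mul_le_mul_of_nonneg_left h2P (by linarith)
  linarith

theorem ba_sig {σ w ν : ℝ} (hσ : 1600 * σ ≤ w ^ 2) : 1600 * (ν ^ 2 * σ) ≤ (ν * w) ^ 2 := by
  have h1 : ν ^ 2 * (1600 * σ) ≤ ν ^ 2 * w ^ 2 := mul_le_mul_of_nonneg_left hσ (sq_nonneg ν)
  have h2 : (ν * w) ^ 2 = ν ^ 2 * w ^ 2 := by ring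
  have h3 : 1600 * (ν ^ 2 * σ) = ν ^ 2 * (1600 * σ) := by ring
  rw [h2, h3]
  exact h1

theorem ba_lw {lam w g x ν : ℝ} (hlam : 0 ≤ lam) (hw : 0 ≤ w) (hg : 0 ≤ g) (hx0 : 0 ≤ x)
    (hν4 : ν ≤ 1 / 4) (hlw : lam * w ≤ g) : lam * (ν * w) ≤ g * (1 + x) := by
  have h1 : 0 ≤ lam * w := mul_nonneg hlam hw
  have h2 : lam * (ν * w) = (lam * w) * ν := by ring
  have h3 : (lam * w) * ν ≤ (lam * w) * 1 := mul_le_mul_of_nonneg_left (by linarith) h1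
  have h4 : 0 ≤ g * x := mul_nonneg hg hx0
  have h5 : g * (1 + x) = g + g * x := by ring
  rw [h2, h5]
  linarith

theorem ba_x1 {x : ℝ} (hx0 : 0 ≤ x) (hx : x ≤ 1 / 5) : x * (1 + x) / 2 ≤ 3 / 5 * x := by
  have h1 : x * (1 + x) ≤ x * (6 / 5) := mul_le_mul_of_nonneg_left (by linarith) hx0
  linarith

theorem ba_half {C K ν w h g x lam L σ : ℝ} (hC : 0 ≤ C) (hK : 0 ≤ K) (hh : 0 ≤ h) (hg : 0 ≤ g)
    (hx : x ≤ 1 / 5)
    (hs : C * K * w ^ 2 * (h * g + (lam / L) ^ 2) ≤ ν ^ 2 * σ) :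
    C * K * (ν * w) ^ 2 * (h / 2 * (g * (1 + x)) + (lam / L) ^ 2) ≤ ν ^ 2 * (ν ^ 2 * σ) := by
  have h0 : 0 ≤ h * g := mul_nonneg hh hg
  have e1 : h / 2 * (g * (1 + x)) ≤ h * g := by
    have h1 : h / 2 * (g * (1 + x)) = h * g * ((1 + x) / 2) := by ring
    have h2 : h * g * ((1 + x) / 2) ≤ h * g * 1 := mul_le_mul_of_nonneg_left (by linarith) h0
    rw [h1]
    linarith
  have hCK : 0 ≤ C * K * (ν * w) ^ 2 := mul_nonneg (mul_nonneg hC hK) (sq_nonneg _)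
  have e2 : C * K * (ν * w) ^ 2 * (h / 2 * (g * (1 + x)) + (lam / L) ^ 2)
      ≤ C * K * (ν * w) ^ 2 * (h * g + (lam / L) ^ 2) :=
    mul_le_mul_of_nonneg_left (by linarith) hCK
  have e3 : C * K * (ν * w) ^ 2 * (h * g + (lam / L) ^ 2)
      = ν ^ 2 * (C * K * w ^ 2 * (h * g + (lam / L) ^ 2)) := by ring
  rw [e3] at e2
  exact e2.trans (mul_le_mul_of_nonneg_left hs (sq_nonneg ν))

theorem ba_pow {ℓr h : ℝ} {P : ℕ} (hℓ2 : 12 * ℓr * 2 ^ (P + 1) ≤ h) :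
    12 * ℓr * 2 ^ P ≤ h / 2 := by
  have e : 12 * ℓr * 2 ^ (P + 1) = 2 * (12 * ℓr * 2 ^ P) := by rw [pow_succ]; ring
  rw [e] at hℓ2
  linarith

theorem ba_dist {a b C w ν : ℝ} (hC : 0 ≤ C) (hw : 0 ≤ w) (hν4 : ν ≤ 1 / 4)
    (ha : a ≤ 4 * C * (ν * w)) (hb : b ≤ C * w) : a + b ≤ 4 * C * w := by
  have h0 : 0 ≤ C * w := mul_nonneg hC hw
  have h1 : 4 * C * (ν * w) = 4 * (C * w * ν) := by ring
  have h2 : C * w * ν ≤ C * w * (1 / 4) := mul_le_mul_of_nonneg_left hν4 h0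
  have h3 : 4 * C * w = 4 * (C * w) := by ring
  rw [h1] at ha
  rw [h3]
  linarith

theorem ba_z1 {c C K h g P : ℝ} (hx0 : 0 ≤ C * K * h * g) : c ≤ c + 4 * (C * K * h * g) := by
  linarith

theorem ba_gz {g x : ℝ} (hg : 0 ≤ g) (hx0 : 0 ≤ x) : g ≤ g * (1 + 4 * x) := by
  have h1 : 0 ≤ g * x := mul_nonneg hg hx0
  have h2 : g * (1 + 4 * x) = g + 4 * (g * x) := by ring
  rw [h2]
  linarith

theorem ba_Az {A C K Y : ℝ} (hC : 0 ≤ C) (hK : 0 ≤ K) (hY : 0 ≤ Y) : A ≤ A + 4 * C * K * Y := by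
  have h2 : 0 ≤ C * K * Y := mul_nonneg (mul_nonneg hC hK) hY
  have h5 : 4 * C * K * Y = 4 * (C * K * Y) := by ring
  rw [h5]
  linarith

theorem ba_fF {C K L w g y : ℝ} (hC : 0 ≤ C) (hK : 0 ≤ K) (hL : 0 ≤ L) (hw : 0 ≤ w) (hg : 0 ≤ g)
    (hy0 : 0 ≤ y) (hy : 4 * y ≤ 1) :
    4 * C * (L * w + K * g * (1 + 4 * y)) ≤ 2000 * C * (L * w + K * g) := by
  have e1 : 0 ≤ L * w := mul_nonneg hL hw
  have e2 : 0 ≤ K * g := mul_nonneg hK hg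
  have e4 : K * g * (4 * y) ≤ K * g * 1 := mul_le_mul_of_nonneg_left hy e2
  have e3 : 4 * (L * w + K * g * (1 + 4 * y)) ≤ 2000 * (L * w + K * g) := by
    have e5 : 4 * (L * w + K * g * (1 + 4 * y)) = 4 * (L * w) + 4 * (K * g) + 4 * (K * g * (4 * y)) :=
      by ring
    rw [e5]
    linarith
  calc 4 * C * (L * w + K * g * (1 + 4 * y))
      = C * (4 * (L * w + K * g * (1 + 4 * y))) := by ring
    _ ≤ C * (2000 * (L * w + K * g)) := mul_le_mul_of_nonneg_left e3 hC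
    _ = _ := by ring

theorem ba_AF {A C K Y : ℝ} (hC : 0 ≤ C) (hK : 0 ≤ K) (hY : 0 ≤ Y) :
    A + 4 * C * K * Y ≤ A + 2000 * C * K * Y := by
  have h2 : 0 ≤ C * K * Y := mul_nonneg (mul_nonneg hC hK) hY
  have h5 : 4 * C * K * Y = 4 * (C * K * Y) := by ring
  have h6 : 2000 * C * K * Y = 2000 * (C * K * Y) := by ring
  rw [h5, h6]
  linarith

theorem ba_SF {C K L Z : ℝ} (hC : 0 ≤ C) (hK : 0 ≤ K) (hL : 0 < L) (hZ : 0 ≤ Z) :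
    4 * C * K / L * Z ≤ 2000 * C * K / L * Z := by
  apply mul_le_mul_of_nonneg_right _ hZ
  apply div_le_div_of_nonneg_right _ hL.le
  have h1 : 0 ≤ C * K := mul_nonneg hC hK
  have h2 : 4 * C * K = 4 * (C * K) := by ring
  have h3 : 2000 * C * K = 2000 * (C * K) := by ring
  rw [h2, h3]
  linarith

theorem ba_sF {C K w Z V : ℝ} (hC : 0 ≤ C) (hK : 0 ≤ K) (hZ : 0 ≤ Z)
    (h : 2000 * C * K * w ^ 2 * Z ≤ V) : C * K * w ^ 2 * Z ≤ V := by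
  have e1 : 0 ≤ C * K * w ^ 2 * Z := mul_nonneg (mul_nonneg (mul_nonneg hC hK) (sq_nonneg w)) hZ
  have e2 : 2000 * C * K * w ^ 2 * Z = 2000 * (C * K * w ^ 2 * Z) := by ring
  rw [e2] at h
  linarith

theorem ba_lF {ℓr C h : ℝ} {P : ℕ} (hC : 1 ≤ C) (hℓ : 0 < ℓr) (h1 : ℓr * (2000 * C * 2 ^ P) ≤ h) :
    12 * ℓr * 2 ^ P ≤ h := by
  have e2 : 0 < ℓr * 2 ^ P := by positivity
  have e1 : ℓr * (2000 * C * 2 ^ P) = 2000 * C * (ℓr * 2 ^ P) := by ring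
  have e3 : 12 * (ℓr * 2 ^ P) ≤ 2000 * C * (ℓr * 2 ^ P) :=
    mul_le_mul_of_nonneg_right (by linarith) e2.le
  rw [e1] at h1
  linarith

theorem ba_sC {C σ V : ℝ} (hC : 1 ≤ C) (hσ : 0 ≤ σ) (h : 2000 * C * σ ≤ V) : 1600 * σ ≤ V := by
  have h1 : 1 * σ ≤ C * σ := mul_le_mul_of_nonneg_right hC hσ
  have h2 : 2000 * C * σ = 2000 * (C * σ) := by ring
  rw [h2] at h
  linarith

end ES
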