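import Pool.Agent.ES.Ifp
import Pool.Agent.ES.BArith

/-!
ES-BBlock: the block theorem from the pass theorem (EW 4, Prop. 4.5): `P` passes, each on the final
interval of the previous one.  Induction on `P` (backwards: one pass, then `P` passes on the final
interval), with `x = C1 K^p (t1-t0) g`: the final interval has `h' = h/2`, `g' = g (1+x)`,
`x' = x (1+x) / 2`, `w' = ν w`, `σ' = ν² σ`.
-/

namespace ES

theorem prt_lt {G B1 B2 : ℝ → ℝ → Prop} {s t : ℝ} {n m : ℕ} (h : Prt G B1 B2 s t n m) : s < t := by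
  induction h with
  | good h _ => exact h
  | fast h _ => exact h
  | tail h _ => exact h
  | cat _ _ h1 h2 => exact h1.trans h2

theorem prt_mono {G B1 B2 G' B1' B2' : ℝ → ℝ → Prop} {s t : ℝ} {n m : ℕ}
    (h : Prt G B1 B2 s t n m)
    (hG : ∀ a b, s ≤ a → a < b → b ≤ t → G a b → G' a b)
    (h1 : ∀ a b, s ≤ a → a < b → b ≤ t → B1 a b → B1' a b)
    (h2 : ∀ a b, s ≤ a → a < b → b ≤ t → B2 a b → B2' a b) : Prt G' B1' B2' s t n m := by
  induction h with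
  | good h hh => exact Prt.good h (hG _ _ le_rfl h le_rfl hh)
  | fast h hh => exact Prt.fast h (h1 _ _ le_rfl h le_rfl hh)
  | tail h hh => exact Prt.tail h (h2 _ _ le_rfl h le_rfl hh)
  | cat ha hb iha ihb =>
    have la := prt_lt ha
    have lb := prt_lt hb
    exact Prt.cat
      (iha (fun a b x y z => hG a b x y (z.trans lb.le)) (fun a b x y z => h1 a b x y (z.trans lb.le))
        (fun a b x y z => h2 a b x y (z.trans lb.le)))
      (ihb (fun a b x y z => hG a b (la.le.trans x) y z) (fun a b x y z => h1 a b (la.le.trans x) y z)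
        (fun a b x y z => h2 a b (la.le.trans x) y z))

/-- The induction step. -/
theorem block_step {C1 : ℝ} {p : ℕ} (hC1 : 1 ≤ C1) (hP : PassStatement C1 p) (hF : BIFacts)
    (lam m ℓr ν : ℝ) (L : ℕ) (hm : 0 < m) (hm1 : m ≤ 1) (hlam : 1 ≤ lam)
    (hL : (1 + 1 / m) * lam ≤ L) (hexp : Real.exp (-(m * L / (4 * lam))) ≤ 1 / L)
    (hν : 0 < ν) (hν4 : ν ≤ 1 / 4) (hℓ : 0 < ℓr) (P : ℕ) (K : ℝ) (hK : K = (1 + 1 / m) ^ p)
    (ih : ∀ (V : Fld) (t0 t1 g σ ρ c A w : ℝ),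
      BI V t0 t1 lam g σ ρ c A → ρ ≤ 2 → 8 * m * P + 2 * m ≤ ρ → 0 < w → 0 ≤ σ →
      1600 * σ ≤ w ^ 2 → lam * w ≤ g → 0 ≤ c →
      c + 4 * (C1 * K * (t1 - t0) * g) ≤ 1 / 100 →
      C1 * K * (t1 - t0) * g ≤ 1 / 5 →
      C1 * K * w ^ 2 * ((t1 - t0) * g + (lam / L) ^ 2) ≤ ν ^ 2 * σ →
      12 * ℓr * 2 ^ P ≤ t1 - t0 →
      ∃ V' : Fld,
        (∀ x t, t ∉ Set.Ioo t0 t1 → V' x t = V x t) ∧
        (∀ x t a, |V' x t a - V x t a| ≤ 4 * C1 * w) ∧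
        Prt (fun s t => BI V' s t (2 * L)
              (4 * C1 * (L * w + K * g *
                (1 + 4 * (C1 * K * (t1 - t0) * g)))) 0 (ρ - 8 * m * P)
              (c + 4 * (C1 * K * (t1 - t0) * g))
              (A + 4 * C1 * K * (g * w + w / ℓr)))
            (fun s t => t - s = ℓr ∧ BI V' s t (2 * L)
              (4 * C1 * (L * w + K * g *
                (1 + 4 * (C1 * K * (t1 - t0) * g))))
              (4 * C1 * K / L * (w / ℓr + g * w)) (ρ - 8 * m * P)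
              (c + 4 * (C1 * K * (t1 - t0) * g))
              (A + 4 * C1 * K * (g * w + w / ℓr)))
            (fun s t => t - s = (t1 - t0) / 2 ^ P ∧
              BI V' s t lam (g * (1 + 4 * (C1 * K * (t1 - t0) * g)))
              (σ * ν ^ (2 * P)) (ρ - 8 * m * P)
              (c + 4 * (C1 * K * (t1 - t0) * g))
              (A + 4 * C1 * K * (g * w + w / ℓr)))
            t0 t1 (6 * P) 1) :
    ∀ (V : Fld) (t0 t1 g σ ρ c A w : ℝ),
      BI V t0 t1 lam g σ ρ c A → ρ ≤ 2 → 8 * m * ((P + 1 : ℕ) : ℝ) + 2 * m ≤ ρ → 0 < w → 0 ≤ σ →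
      1600 * σ ≤ w ^ 2 → lam * w ≤ g → 0 ≤ c →
      c + 4 * (C1 * K * (t1 - t0) * g) ≤ 1 / 100 →
      C1 * K * (t1 - t0) * g ≤ 1 / 5 →
      C1 * K * w ^ 2 * ((t1 - t0) * g + (lam / L) ^ 2) ≤ ν ^ 2 * σ →
      12 * ℓr * 2 ^ (P + 1) ≤ t1 - t0 →
      ∃ V' : Fld,
        (∀ x t, t ∉ Set.Ioo t0 t1 → V' x t = V x t) ∧
        (∀ x t a, |V' x t a - V x t a| ≤ 4 * C1 * w) ∧
        Prt (fun s t => BI V' s t (2 * L)
              (4 * C1 * (L * w + K * g *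
                (1 + 4 * (C1 * K * (t1 - t0) * g)))) 0 (ρ - 8 * m * ((P + 1 : ℕ) : ℝ))
              (c + 4 * (C1 * K * (t1 - t0) * g))
              (A + 4 * C1 * K * (g * w + w / ℓr)))
            (fun s t => t - s = ℓr ∧ BI V' s t (2 * L)
              (4 * C1 * (L * w + K * g *
                (1 + 4 * (C1 * K * (t1 - t0) * g))))
              (4 * C1 * K / L * (w / ℓr + g * w)) (ρ - 8 * m * ((P + 1 : ℕ) : ℝ))
              (c + 4 * (C1 * K * (t1 - t0) * g))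
              (A + 4 * C1 * K * (g * w + w / ℓr)))
            (fun s t => t - s = (t1 - t0) / 2 ^ (P + 1) ∧
              BI V' s t lam (g * (1 + 4 * (C1 * K * (t1 - t0) * g)))
              (σ * ν ^ (2 * (P + 1))) (ρ - 8 * m * ((P + 1 : ℕ) : ℝ))
              (c + 4 * (C1 * K * (t1 - t0) * g))
              (A + 4 * C1 * K * (g * w + w / ℓr)))
            t0 t1 (6 * (P + 1)) 1 := by
  intro V t0 t1 g σ ρ c A w hB hρ2 hρ hw hσ0 hσ hlw hc0 hc hx hs hℓ2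
  have hlam0 : 0 < lam := lt_of_lt_of_le one_pos hlam
  have hK0 : 0 < K := by rw [hK]; positivity
  have hC0 : 0 < C1 := lt_of_lt_of_le one_pos hC1
  have hLpos : (0:ℝ) < L := lt_of_lt_of_le (by positivity) hL
  have hlt : t0 < t1 := by obtain ⟨d, hd, _⟩ := hB; exact hd.ht
  have hh0 : 0 < t1 - t0 := sub_pos.2 hlt
  have hg0 : 0 < g := lt_of_lt_of_le (mul_pos hlam0 hw) hlw
  have hx0 : 0 ≤ C1 * K * (t1 - t0) * g := by positivity
  have hP0 : (0:ℝ) ≤ P := Nat.cast_nonneg P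
  have hmP : 0 ≤ 8 * m * P := mul_nonneg (mul_nonneg (by norm_num) hm.le) hP0
  have hPc : ((P + 1 : ℕ) : ℝ) = (P : ℝ) + 1 := by push_cast; ring
  have hρP : ρ - 8 * m * ((P + 1 : ℕ) : ℝ) = ρ - 8 * m - 8 * m * P := by rw [hPc]; ring
  have hρ' : 8 * m * P + 2 * m ≤ ρ - 8 * m := by
    rw [hPc] at hρ
    linarith
  have h24 : 24 * ℓr ≤ t1 - t0 := ba_h24 hℓ hℓ2
  obtain ⟨V1, hV1, hV1d, hPrt1, hB1⟩ := hP V t0 t1 lam g σ ρ c A m w ℓr L hB hm hm1 hρ2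
    (by linarith) hlam hw hσ0 hσ hlw hc0 (by linarith) hL hexp
    (by rw [← hK]; linarith) hℓ h24
  rw [← hK] at hPrt1 hB1
  -- new parameters
  obtain ⟨h, hh⟩ : ∃ h : ℝ, h = t1 - t0 := ⟨_, rfl⟩
  obtain ⟨x, hxd⟩ : ∃ x : ℝ, x = C1 * K * h * g := ⟨_, rfl⟩
  rw [← hh, ← hxd] at hx0 hPrt1 hB1 hc hx
  rw [← hh] at h24 hs hℓ2 hh0
  rw [← hh, ← hxd, hρP]
  obtain ⟨tm, htm⟩ : ∃ tm : ℝ, tm = t0 + h / 2 := ⟨_, rfl⟩
  rw [← htm] at hPrt1 hB1
  have htm1 : t1 - tm = h / 2 := by rw [htm, hh]; ring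
  -- weaken the stress of the final interval to ν² σ
  have hB1' : BI V1 tm t1 lam (g * (1 + x)) (ν ^ 2 * σ) (ρ - 8 * m) (c + x)
      (A + C1 * K * (g * w + w / ℓr)) :=
    hF.mono V1 tm t1 lam _ _ _ _ _ lam _ _ _ _ _ hB1 hlam0 le_rfl le_rfl le_rfl hs le_rfl
      (by linarith) le_rfl le_rfl
  have hx' : C1 * K * (t1 - tm) * (g * (1 + x)) = x * (1 + x) / 2 := by
    rw [htm1, hxd]; ring
  have hw' : 0 < ν * w := mul_pos hν hw
  have hx1 : x * (1 + x) / 2 ≤ 3 / 5 * x := ba_x1 hx0 hx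
  obtain ⟨V', hV', hV'd, hPrt2⟩ := ih V1 tm t1 (g * (1 + x)) (ν ^ 2 * σ) (ρ - 8 * m) (c + x)
    (A + C1 * K * (g * w + w / ℓr)) (ν * w) hB1' (by linarith) hρ' hw'
    (mul_nonneg (sq_nonneg ν) hσ0)
    (ba_sig hσ) (ba_lw hlam0.le hw.le hg0.le hx0 hν4 hlw) (add_nonneg hc0 hx0)
    (by rw [hx']; linarith) (by rw [hx']; linarith)
    (by
      rw [htm1]
      exact ba_half hC0.le hK0.le hh0.le hg0.le hx hs)
    (by
      rw [htm1]
      exact ba_pow hℓ2)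
  rw [hx'] at hPrt2
  -- comparison of the constants
  have hgx := ba_gx hg0.le hx0 hx
  have hY0 : 0 ≤ g * w + w / ℓr := add_nonneg (mul_nonneg hg0.le hw.le) (div_nonneg hw.le hℓ.le)
  have hY1 : 0 ≤ w / ℓr + g * w := add_nonneg (div_nonneg hw.le hℓ.le) (mul_nonneg hg0.le hw.le)
  have hY' := ba_Y hg0.le hw.le hℓ hν.le hν4 hx0 hx
  have hAA := ba_AA (A := A) hC0.le hK0.le hY' hY0
  have hA1 := ba_A1 (A := A) hC0.le hK0.le hY0
  have hcc : c + x + 4 * (x * (1 + x) / 2) ≤ c + 4 * x := by linarith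
  have hcx : c + x ≤ c + 4 * x := by linarith
  have hgF1 : C1 * (L * w + K * g) ≤ 4 * C1 * (L * w + K * g * (1 + 4 * x)) :=
    ba_gF1 hC0.le hK0.le hLpos.le hw.le hg0.le hx0
  have hgF2 : 4 * C1 * (L * (ν * w) + K * (g * (1 + x)) * (1 + 4 * (x * (1 + x) / 2)))
      ≤ 4 * C1 * (L * w + K * g * (1 + 4 * x)) :=
    ba_gF2 hC0.le hK0.le hLpos.le hw.le hg0.le hx0 hx hν4
  have hS1 : C1 * K / L * (w / ℓr + g * w) ≤ 4 * C1 * K / L * (w / ℓr + g * w) :=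
    ba_S1 hC0.le hK0.le hLpos hY1
  have hS2 : 4 * C1 * K / L * (ν * w / ℓr + g * (1 + x) * (ν * w))
      ≤ 4 * C1 * K / L * (w / ℓr + g * w) :=
    ba_S2 hC0.le hK0.le hLpos hg0.le hw.le hℓ hν.le hν4 hx0 hx
  have h2L : (0:ℝ) < 2 * L := mul_pos two_pos hLpos
  have hρP0 : 0 ≤ ρ - 8 * m - 8 * m * P := by linarith
  have hρPl : ρ - 8 * m - 8 * m * P ≤ ρ - 8 * m := by linarith
  have htm0 : t0 < tm := by rw [htm]; linarith
  have hσe : ν ^ 2 * σ * ν ^ (2 * P) = σ * ν ^ (2 * (P + 1)) := by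
    rw [show 2 * (P + 1) = 2 * P + 2 by ring, pow_add]; ring
  have hhe : h / 2 / 2 ^ P = h / 2 ^ (P + 1) := by rw [pow_succ]; field_simp
  clear ih hP hB hB1' hs hx' hσ hlw hexp hL hc hℓ2 h24 hB1
  refine ⟨V', ?_, ?_, ?_⟩
  · intro y t ht
    have ht2 : t ∉ Set.Ioo tm t1 := fun h' => ht ⟨htm0.trans h'.1, h'.2⟩
    rw [hV' y t ht2, hV1 y t ht]
  · intro y t a
    exact (abs_sub_le _ _ _).trans (ba_dist hC0.le hw.le hν4 (hV'd y t a) (hV1d y t a))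
  · have hPrt3 := prt_mono (G' := fun s t => BI V' s t (2 * L)
        (4 * C1 * (L * w + K * g * (1 + 4 * x))) 0 (ρ - 8 * m - 8 * m * P) (c + 4 * x)
        (A + 4 * C1 * K * (g * w + w / ℓr)))
      (B1' := fun s t => t - s = ℓr ∧ BI V' s t (2 * L)
        (4 * C1 * (L * w + K * g * (1 + 4 * x)))
        (4 * C1 * K / L * (w / ℓr + g * w)) (ρ - 8 * m - 8 * m * P) (c + 4 * x)
        (A + 4 * C1 * K * (g * w + w / ℓr)))
      (B2' := fun s t => t - s = h / 2 ^ (P + 1) ∧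
        BI V' s t lam (g * (1 + 4 * x)) (σ * ν ^ (2 * (P + 1))) (ρ - 8 * m - 8 * m * P)
        (c + 4 * x) (A + 4 * C1 * K * (g * w + w / ℓr))) hPrt1
      (by
        intro a b _ _ hb hbi
        have h1 := hF.congr V1 V' a b _ _ _ _ _ _ hbi (fun y t ht => hV' y t fun h' =>
          absurd (ht.2.trans hb) (not_le.2 h'.1))
        exact hF.mono V' a b _ _ _ _ _ _ _ _ _ _ _ _ h1 h2L le_rfl hgF1
          (div_le_div_of_nonneg_right hgF1 h2L.le) le_rfl hρPl hρP0 hcx hA1)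
      (by
        intro a b _ _ hb hbi
        refine ⟨hbi.1, ?_⟩
        have h1 := hF.congr V1 V' a b _ _ _ _ _ _ hbi.2 (fun y t ht => hV' y t fun h' =>
          absurd (ht.2.trans hb) (not_le.2 h'.1))
        exact hF.mono V' a b _ _ _ _ _ _ _ _ _ _ _ _ h1 h2L le_rfl hgF1
          (div_le_div_of_nonneg_right hgF1 h2L.le) hS1 hρPl hρP0 hcx hA1)
      (fun _ _ _ _ _ hff => hff.elim)
    have hPrt4 := prt_mono (G' := fun s t => BI V' s t (2 * L)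
        (4 * C1 * (L * w + K * g * (1 + 4 * x))) 0 (ρ - 8 * m - 8 * m * P) (c + 4 * x)
        (A + 4 * C1 * K * (g * w + w / ℓr)))
      (B1' := fun s t => t - s = ℓr ∧ BI V' s t (2 * L)
        (4 * C1 * (L * w + K * g * (1 + 4 * x)))
        (4 * C1 * K / L * (w / ℓr + g * w)) (ρ - 8 * m - 8 * m * P) (c + 4 * x)
        (A + 4 * C1 * K * (g * w + w / ℓr)))
      (B2' := fun s t => t - s = h / 2 ^ (P + 1) ∧
        BI V' s t lam (g * (1 + 4 * x)) (σ * ν ^ (2 * (P + 1))) (ρ - 8 * m - 8 * m * P)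
        (c + 4 * x) (A + 4 * C1 * K * (g * w + w / ℓr))) hPrt2
      (by
        intro a b _ _ hb hbi
        exact hF.mono V' a b _ _ _ _ _ _ _ _ _ _ _ _ hbi h2L le_rfl hgF2
          (div_le_div_of_nonneg_right hgF2 h2L.le) le_rfl le_rfl hρP0 hcc hAA)
      (by
        intro a b _ _ hb hbi
        refine ⟨hbi.1, ?_⟩
        exact hF.mono V' a b _ _ _ _ _ _ _ _ _ _ _ _ hbi.2 h2L le_rfl hgF2
          (div_le_div_of_nonneg_right hgF2 h2L.le) hS2 le_rfl hρP0 hcc hAA)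
      (by
        intro a b _ _ hb hbi
        refine ⟨by rw [hbi.1, htm1, hhe], ?_⟩
        exact hF.mono V' a b _ _ _ _ _ _ _ _ _ _ _ _ hbi.2 hlam0 le_rfl hgx
          (div_le_div_of_nonneg_right hgx hlam0.le)
          (le_of_eq hσe) le_rfl hρP0
          hcc hAA)
    have hfin := Prt.cat hPrt3 hPrt4
    rw [show 6 * (P + 1) = 6 + 6 * P by ring]
    rw [Nat.zero_add] at hfin
    exact hfin

/-- The induction. -/
theorem block_ind {C1 : ℝ} {p : ℕ} (hC1 : 1 ≤ C1) (hP : PassStatement C1 p) (hF : BIFacts)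
    (lam m ℓr ν : ℝ) (L : ℕ) (hm : 0 < m) (hm1 : m ≤ 1) (hlam : 1 ≤ lam)
    (hL : (1 + 1 / m) * lam ≤ L) (hexp : Real.exp (-(m * L / (4 * lam))) ≤ 1 / L)
    (hν : 0 < ν) (hν4 : ν ≤ 1 / 4) (hℓ : 0 < ℓr) (P : ℕ) :
    ∀ (V : Fld) (t0 t1 g σ ρ c A w : ℝ),
      BI V t0 t1 lam g σ ρ c A → ρ ≤ 2 → 8 * m * P + 2 * m ≤ ρ → 0 < w → 0 ≤ σ →
      1600 * σ ≤ w ^ 2 → lam * w ≤ g → 0 ≤ c →
      c + 4 * (C1 * (1 + 1 / m) ^ p * (t1 - t0) * g) ≤ 1 / 100 →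
      C1 * (1 + 1 / m) ^ p * (t1 - t0) * g ≤ 1 / 5 →
      C1 * (1 + 1 / m) ^ p * w ^ 2 * ((t1 - t0) * g + (lam / L) ^ 2) ≤ ν ^ 2 * σ →
      12 * ℓr * 2 ^ P ≤ t1 - t0 →
      ∃ V' : Fld,
        (∀ x t, t ∉ Set.Ioo t0 t1 → V' x t = V x t) ∧
        (∀ x t a, |V' x t a - V x t a| ≤ 4 * C1 * w) ∧
        Prt (fun s t => BI V' s t (2 * L)
              (4 * C1 * (L * w + (1 + 1 / m) ^ p * g *
                (1 + 4 * (C1 * (1 + 1 / m) ^ p * (t1 - t0) * g)))) 0 (ρ - 8 * m * P)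
              (c + 4 * (C1 * (1 + 1 / m) ^ p * (t1 - t0) * g))
              (A + 4 * C1 * (1 + 1 / m) ^ p * (g * w + w / ℓr)))
            (fun s t => t - s = ℓr ∧ BI V' s t (2 * L)
              (4 * C1 * (L * w + (1 + 1 / m) ^ p * g *
                (1 + 4 * (C1 * (1 + 1 / m) ^ p * (t1 - t0) * g))))
              (4 * C1 * (1 + 1 / m) ^ p / L * (w / ℓr + g * w)) (ρ - 8 * m * P)
              (c + 4 * (C1 * (1 + 1 / m) ^ p * (t1 - t0) * g))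
              (A + 4 * C1 * (1 + 1 / m) ^ p * (g * w + w / ℓr)))
            (fun s t => t - s = (t1 - t0) / 2 ^ P ∧
              BI V' s t lam (g * (1 + 4 * (C1 * (1 + 1 / m) ^ p * (t1 - t0) * g)))
              (σ * ν ^ (2 * P)) (ρ - 8 * m * P)
              (c + 4 * (C1 * (1 + 1 / m) ^ p * (t1 - t0) * g))
              (A + 4 * C1 * (1 + 1 / m) ^ p * (g * w + w / ℓr)))
            t0 t1 (6 * P) 1 := by
  have hlam0 : 0 < lam := lt_of_lt_of_le one_pos hlam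
  have hK0 : 0 < (1 + 1 / m) ^ p := by positivity
  have hC0 : 0 < C1 := lt_of_lt_of_le one_pos hC1
  have hLpos : (0:ℝ) < L := lt_of_lt_of_le (by positivity) hL
  obtain ⟨K, hK⟩ : ∃ K : ℝ, K = (1 + 1 / m) ^ p := ⟨_, rfl⟩
  rw [← hK] at hK0
  rw [← hK]
  induction P with
  | zero =>
    intro V t0 t1 g σ ρ c A w hB hρ2 hρ hw hσ0 hσ hlw hc0 hc hx hs hℓ2
    have hlt : t0 < t1 := by obtain ⟨d, hd, _⟩ := hB; exact hd.ht
    have hg : 0 ≤ g := le_trans (mul_pos hlam0 hw).le hlw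
    have hx0 : 0 ≤ C1 * K * (t1 - t0) * g :=
      mul_nonneg (mul_nonneg (mul_nonneg hC0.le hK0.le) (sub_pos.2 hlt).le) hg
    refine ⟨V, fun _ _ _ => rfl, fun x t a => by
      rw [sub_self, abs_zero]
      exact mul_nonneg (mul_nonneg (by norm_num) hC0.le) hw.le, ?_⟩
    refine Prt.tail hlt ⟨by rw [pow_zero, div_one], ?_⟩
    have hY : 0 ≤ g * w + w / ℓr := add_nonneg (mul_nonneg hg hw.le) (div_nonneg hw.le hℓ.le)
    have hg' : g ≤ g * (1 + 4 * (C1 * K * (t1 - t0) * g)) := ba_gz hg hx0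
    have hρ0 : 0 ≤ ρ := by
      rw [Nat.cast_zero, mul_zero, zero_add] at hρ
      linarith
    refine hF.mono V t0 t1 lam g σ ρ c A lam _ _ _ _ _ hB hlam0 le_rfl hg'
      (div_le_div_of_nonneg_right hg' hlam0.le) (by rw [mul_zero, pow_zero, mul_one])
      (by rw [Nat.cast_zero, mul_zero, sub_zero]) (by rw [Nat.cast_zero, mul_zero, sub_zero]; exact hρ0)
      (by linarith) (ba_Az hC0.le hK0.le hY)
  | succ P ih =>
    intro V t0 t1 g σ ρ c A w hB hρ2 hρ hw hσ0 hσ hlw hc0 hc hx hs hℓ2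
    exact block_step hC1 hP hF lam m ℓr ν L hm hm1 hlam hL hexp hν hν4 hℓ P K hK ih V t0 t1 g σ ρ c A w
      hB hρ2 hρ hw hσ0 hσ hlw hc0 hc hx hs hℓ2

/-- The block theorem. -/
theorem block_of_pass {C1 : ℝ} {p : ℕ} (hC1 : 1 ≤ C1) (hP : PassStatement C1 p) (hF : BIFacts) :
    BlockStatement (2000 * C1) p := by
  intro V t0 t1 lam g σ ρ c A m w ℓr ν L P hB hm hm1 hρ2 hρ hlam hw hσ0 hσ hlw hc0 hc hL hexp hh
    hν hν4 hs hℓ hℓ2
  have hC0 : 0 < C1 := by linarith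
  have hlt : t0 < t1 := by obtain ⟨d, hd, _⟩ := hB; exact hd.ht
  have hh0 : 0 < t1 - t0 := by linarith
  have hg0 : 0 < g := lt_of_lt_of_le (by positivity) hlw
  have hK0 : 0 < (1 + 1 / m) ^ p := by positivity
  set K := (1 + 1 / m) ^ p with hK
  have hLpos : (0:ℝ) < L := by
    have h1 : 0 < (1 + 1 / m) * lam := by positivity
    linarith
  have e0 : 2000 * C1 * K * (t1 - t0) * g = 2000 * (C1 * K * (t1 - t0) * g) := by ring
  have hx0 : 0 ≤ C1 * K * (t1 - t0) * g := by positivity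
  have h2P : (0:ℝ) < 2 ^ P := by positivity
  obtain ⟨V', h1, h2, h3⟩ := block_ind hC1 hP hF lam m ℓr ν L hm hm1 hlam hL hexp hν hν4 hℓ P
    V t0 t1 g σ ρ c A w hB hρ2 hρ hw hσ0.le (ba_sC hC1 hσ0.le hσ) hlw hc0
    (by rw [← hK]; linarith) (by rw [← hK]; linarith)
    (by
      rw [← hK]
      exact ba_sF hC0.le hK0.le (add_nonneg (mul_nonneg hh0.le hg0.le) (sq_nonneg _)) hs)
    (ba_lF hC1 hℓ hℓ2)
  rw [← hK] at h3
  have hx1 : 4 * (C1 * K * (t1 - t0) * g) ≤ 1 := by linarith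
  have hgF : 4 * C1 * (L * w + K * g * (1 + 4 * (C1 * K * (t1 - t0) * g)))
      ≤ 2000 * C1 * (L * w + K * g) := by
    exact ba_fF hC0.le hK0.le hLpos.le hw.le hg0.le hx0 hx1
  have hcF : c + 4 * (C1 * K * (t1 - t0) * g) ≤ c + 2000 * C1 * K * (t1 - t0) * g := by
    rw [e0]; linarith
  have hAF : A + 4 * C1 * K * (g * w + w / ℓr) ≤ A + 2000 * C1 * K * (g * w + w / ℓr) := by
    exact ba_AF hC0.le hK0.le (add_nonneg (mul_nonneg hg0.le hw.le) (div_nonneg hw.le hℓ.le))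
  have hSF : 4 * C1 * K / L * (w / ℓr + g * w) ≤ 2000 * C1 * K / L * (w / ℓr + g * w) := by
    exact ba_SF hC0.le hK0.le hLpos (add_nonneg (div_nonneg hw.le hℓ.le) (mul_nonneg hg0.le hw.le))
  have hgT : g * (1 + 4 * (C1 * K * (t1 - t0) * g)) ≤ g * (1 + 2000 * C1 * K * (t1 - t0) * g) := by
    apply mul_le_mul_of_nonneg_left _ hg0.le
    rw [e0]; linarith
  have h2L : (0:ℝ) < 2 * L := by positivity
  have hlam0 : 0 < lam := by linarith
  have hρ0 : 0 ≤ ρ - 8 * m * P := by linarith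
  refine ⟨V', h1, fun x t a => (h2 x t a).trans (by
    have : 0 < C1 * w := by positivity
    nlinarith), ?_⟩
  refine prt_mono h3 ?_ ?_ ?_
  · intro a b _ _ _ hbi
    exact hF.mono V' a b _ _ _ _ _ _ _ _ _ _ _ _ hbi h2L le_rfl hgF
      (div_le_div_of_nonneg_right hgF h2L.le) le_rfl le_rfl hρ0 hcF hAF
  · intro a b _ _ _ hbi
    exact ⟨hbi.1, hF.mono V' a b _ _ _ _ _ _ _ _ _ _ _ _ hbi.2 h2L le_rfl hgF
      (div_le_div_of_nonneg_right hgF h2L.le) hSF le_rfl hρ0 hcF hAF⟩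
  · intro a b _ _ _ hbi
    exact ⟨hbi.1, hF.mono V' a b _ _ _ _ _ _ _ _ _ _ _ _ hbi.2 hlam0 le_rfl hgT
      (div_le_div_of_nonneg_right hgT hlam0.le) le_rfl le_rfl hρ0 hcF hAF⟩

end ES
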