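import Pool.Agent.ES.XStep

/-!
ES-BCore: the four steps of a pass and the potential at the end (EW 4, Lemma 4.3, Prop. 4.4).
-/

open scoped BoundedContinuousFunction

namespace ES

/-- Division points of the block. -/
noncomputable def tau (t0 t1 : ℝ) (j : ℕ) : ℝ :=
  if j ≤ 3 then t0 + j * ((t1 - t0) / 6) else t1

/-- Directions. -/
def kd (j : ℕ) : Fin 2 → ℤ := fun a =>
  if j = 0 then (if a = 0 then 1 else -2) else if j = 1 then (if a = 0 then 1 else 2)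
  else (if a = 0 then 1 else 0)

/-- Value of the previous sub-block at the junction. -/
noncomputable def pv (t : ℝ) (x : ℕ → Vec) : ℕ → Vec
  | 0 => 0
  | j + 1 => fun k => frz t (x j k)

/-- The sub-block number `j` of the pass. -/
noncomputable def PS (d : Dat) (t0 t1 ℓr : ℝ) (L : ℕ) (b : ℕ → WT) (ζ E : ℕ → Vec) (j : ℕ) : SB :=
  mkSB d (tau t0 t1 j) (tau t0 t1 (j + 1)) ℓr L (kd j) (b j)
    (pv (tau t0 t1 j) ζ j) (pv (tau t0 t1 j) E j)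

/-- The solution of the pass. -/
structure Pass (d : Dat) (t0 t1 lam g σ ρ c A m w ℓr : ℝ) (L : ℕ) (b : ℕ → WT)
    (ζ E W a q : ℕ → Vec) (Ψ1 : WT) : Prop where
  b3 : b 3 = 0
  H : ∀ j < 4, ∃ η, SBH (PS d t0 t1 ℓr L b ζ E j) lam g σ ρ c A (ρ - (j + 2) * m) m w η ∧
    SB0 (PS d t0 t1 ℓr L b ζ E j) lam g (ρ - (j + 2) * m) m w (ζ j) (E j) (W j) (a j) (q j) ∧
    SBR (PS d t0 t1 ℓr L b ζ E j) (10 ^ 7) lam g (ρ - (j + 2) * m) m w η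
      (ζ j) (E j) (W j) (a j) (q j)
  P : ∀ j < 4, det2 (Pm (PS d t0 t1 ℓr L b ζ E j).d (ζ j)) = 1
  y : ∀ j < 4, ∀ k, Bd 1 ((PS d t0 t1 ℓr L b ζ E j).r (ρ - (j + 2) * m) m) (ζ j k)
    (10 ^ 8 * (1 + 1 / m) ^ 2 * (t1 - t0) * g / lam)
  e : ∀ j < 4, ∀ k, Bd 1 ((PS d t0 t1 ℓr L b ζ E j).r (ρ - (j + 2) * m) m) (E j k)
    (10 ^ 8 * (1 + 1 / m) ^ 4 * (t1 - t0) * lam * w ^ 2)
  Ψ : ∀ k, frz t1 (E 3 k) = dp d.κ k Ψ1
  bΨ : Bd 0 (cr (ρ - 6 * m)) Ψ1 (8 * (t1 - t0) * w ^ 2 *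
    (10 ^ 11 * (1 + 1 / m) ^ 4 * (t1 - t0) * g + 10 * (1 + 1 / m) ^ 2 * (lam / L) ^ 2))
  lΨ : Lev d.i Ψ1
  rΨ : IsR Ψ1
  tΨ : ∀ t₀, frz t₀ Ψ1 = Ψ1

private theorem BCore_mono {d : Dat} {t0 ρ0 y e ψ δ t : ℝ} {ζa Ea : Vec} {Ψa : WT}
    (h : StA d t0 ρ0 y e ψ δ t ζa Ea Ψa) {y' e' ψ' δ' : ℝ} (hy : y ≤ y') (he : e ≤ e')
    (hψ : ψ ≤ ψ') (hδ : δ ≤ δ') : StA d t0 ρ0 y' e' ψ' δ' t ζa Ea Ψa where
  zb j := (h.zb j).mono hy
  zl := h.zl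
  zr := h.zr
  zt := h.zt
  zd := h.zd
  eb j := (h.eb j).mono he
  el := h.el
  er := h.er
  et := h.et
  eΨ := h.eΨ
  zΨ := h.zΨ
  bΨ := h.bΨ.mono hψ
  lΨ := h.lΨ
  rΨ := h.rΨ
  tΨ := h.tΨ
  hδ k l := (h.hδ k l).mono hδ

private theorem BCore_tau0 (t0 t1 : ℝ) : tau t0 t1 0 = t0 := by simp [tau]

private theorem BCore_tau1 (t0 t1 : ℝ) : tau t0 t1 1 = t0 + 1 * ((t1 - t0) / 6) := by simp [tau]

private theorem BCore_tau2 (t0 t1 : ℝ) : tau t0 t1 2 = t0 + 2 * ((t1 - t0) / 6) := by simp [tau]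

private theorem BCore_tau3 (t0 t1 : ℝ) : tau t0 t1 3 = t0 + 3 * ((t1 - t0) / 6) := by simp [tau]

private theorem BCore_tau4 (t0 t1 : ℝ) : tau t0 t1 4 = t1 := by simp [tau]

private theorem BCore_tau {t0 t1 : ℝ} (h : t0 < t1) {j : ℕ} (hj : j < 4) :
    t0 ≤ tau t0 t1 j ∧ tau t0 t1 j - t0 ≤ (t1 - t0) / 2 ∧ tau t0 t1 (j + 1) ≤ t1 ∧
      (t1 - t0) / 6 ≤ tau t0 t1 (j + 1) - tau t0 t1 j := by
  interval_cases j
  · show t0 ≤ tau t0 t1 0 ∧ tau t0 t1 0 - t0 ≤ (t1 - t0) / 2 ∧ tau t0 t1 1 ≤ t1 ∧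
      (t1 - t0) / 6 ≤ tau t0 t1 1 - tau t0 t1 0
    rw [BCore_tau0, BCore_tau1]
    refine ⟨?_, ?_, ?_, ?_⟩ <;> linarith
  · show t0 ≤ tau t0 t1 1 ∧ tau t0 t1 1 - t0 ≤ (t1 - t0) / 2 ∧ tau t0 t1 2 ≤ t1 ∧
      (t1 - t0) / 6 ≤ tau t0 t1 2 - tau t0 t1 1
    rw [BCore_tau1, BCore_tau2]
    refine ⟨?_, ?_, ?_, ?_⟩ <;> linarith
  · show t0 ≤ tau t0 t1 2 ∧ tau t0 t1 2 - t0 ≤ (t1 - t0) / 2 ∧ tau t0 t1 3 ≤ t1 ∧
      (t1 - t0) / 6 ≤ tau t0 t1 3 - tau t0 t1 2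
    rw [BCore_tau2, BCore_tau3]
    refine ⟨?_, ?_, ?_, ?_⟩ <;> linarith
  · show t0 ≤ tau t0 t1 3 ∧ tau t0 t1 3 - t0 ≤ (t1 - t0) / 2 ∧ tau t0 t1 4 ≤ t1 ∧
      (t1 - t0) / 6 ≤ tau t0 t1 4 - tau t0 t1 3
    rw [BCore_tau3, BCore_tau4]
    refine ⟨?_, ?_, ?_, ?_⟩ <;> linarith

private theorem BCore_kd (j : ℕ) (a : Fin 2) : |kd j a| ≤ 2 := by
  unfold kd
  split_ifs <;> norm_num

/-- The state at the beginning of the sub-block number `j`. -/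
private def BCore_ST (d : Dat) (t0 t1 lam g ρ m w : ℝ) (j : ℕ) (ζa Ea : Vec) (Ψa : WT) : Prop :=
  StA d t0 (ρ - ((j : ℝ) + 2) * m) (10 ^ 7 * (1 + 1 / m) ^ 2 * (tau t0 t1 j - t0) * g / lam)
    (2 ^ j * (10 ^ 7 * (1 + 1 / m) ^ 4 * (tau t0 t1 j - t0) * lam * w ^ 2))
    (2 ^ j * (18000 * (tau t0 t1 j - t0) * w ^ 2)) (14 * (1 + 1 / m) * (tau t0 t1 j - t0) * g)
    (tau t0 t1 j) ζa Ea Ψa

/-- One sub-block. -/
private theorem BCore_one {d : Dat} {t0 t1 lam g σ ρ c A m w ℓr : ℝ} {L : ℕ}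
    (G : Good d t0 t1 lam g σ ρ c A)
    (hm : 0 < m) (hm1 : m ≤ 1) (hρ : ρ ≤ 2) (hρ0 : 10 * m ≤ ρ)
    (hlam : 1 ≤ lam) (hw : 0 < w) (hlw : lam * w ≤ g) (hσ0 : 0 ≤ σ) (hσ : 1600 * σ ≤ w ^ 2)
    (hc : c ≤ 1 / 100) (hL : lam * (1 + 1 / m) ≤ L)
    (hh : 10 ^ 13 * (1 + 1 / m) ^ 5 * (t1 - t0) * g ≤ 1)
    (hℓ : 0 < ℓr) (hℓ2 : 24 * ℓr ≤ t1 - t0) {j : ℕ} (hj : j < 4) {b : WT}
    (bb : Bd 0 (cr ρ) b w) (bl : Lev d.i b) (br : IsR b) (bt : ∀ t₀, ES.frz t₀ b = b)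
    {ζa Ea : Vec} {Ψa : WT} (St : BCore_ST d t0 t1 lam g ρ m w j ζa Ea Ψa) :
    ∃ (ζ E W a q : Vec) (Ψb πb : WT) (Er : Mat),
      (∃ η, SBH (mkSB d (tau t0 t1 j) (tau t0 t1 (j + 1)) ℓr L (kd j) b ζa Ea)
        lam g σ ρ c A (ρ - ((j : ℝ) + 2) * m) m w η ∧
      SB0 (mkSB d (tau t0 t1 j) (tau t0 t1 (j + 1)) ℓr L (kd j) b ζa Ea)
        lam g (ρ - ((j : ℝ) + 2) * m) m w ζ E W a q ∧
      SBR (mkSB d (tau t0 t1 j) (tau t0 t1 (j + 1)) ℓr L (kd j) b ζa Ea)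
        (10 ^ 7) lam g (ρ - ((j : ℝ) + 2) * m) m w η ζ E W a q) ∧
      det2 (Pm (d.tcl (tau t0 t1 j) (tau t0 t1 (j + 1))) ζ) = 1 ∧
      (∀ k, Bd 1 ((mkSB d (tau t0 t1 j) (tau t0 t1 (j + 1)) ℓr L (kd j) b ζa Ea).r
        (ρ - ((j : ℝ) + 2) * m) m) (ζ k) (10 ^ 8 * (1 + 1 / m) ^ 2 * (t1 - t0) * g / lam)) ∧
      (∀ k, Bd 1 ((mkSB d (tau t0 t1 j) (tau t0 t1 (j + 1)) ℓr L (kd j) b ζa Ea).r
        (ρ - ((j : ℝ) + 2) * m) m) (E k) (10 ^ 8 * (1 + 1 / m) ^ 4 * (t1 - t0) * lam * w ^ 2)) ∧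
      BCore_ST d t0 t1 lam g ρ m w (j + 1) (fun k => ES.frz (tau t0 t1 (j + 1)) (ζ k))
        (fun k => ES.frz (tau t0 t1 (j + 1)) (E k)) Ψb ∧
      (∀ k l, Bd 0 (cr (ρ - 6 * m)) (Er k l) ((tau t0 t1 (j + 1) - tau t0 t1 j) * (w ^ 2 *
        (10 ^ 11 * (1 + 1 / m) ^ 4 * (t1 - t0) * g + 10 * (1 + 1 / m) ^ 2 * (lam / L) ^ 2)))) ∧
      Pnz d.κ πb = πb ∧ Fin0 (ρ - 6 * m) πb ∧
      ∀ i, mulv (F0 d t0) (fun k => dp d.κ k (Ψb - Ψa)) i + gradT d.κ (adj (F0 d t0)) πb i =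
        dvm d.κ (fun k l => mainS (mkSB d (tau t0 t1 j) (tau t0 t1 (j + 1)) ℓr L (kd j) b ζa Ea)
          (F0 d t0) k l + Er k l) i := by
  obtain ⟨f1, f2, f3, f4⟩ := BCore_tau G.ht hj
  have hT : 0 < t1 - t0 := by linarith [G.ht]
  have hj3 : (j : ℝ) ≤ 3 := by exact_mod_cast Nat.lt_succ_iff.1 hj
  have hj0 : (0 : ℝ) ≤ j := Nat.cast_nonneg j
  have hjm : (j : ℝ) * m ≤ 3 * m := mul_le_mul_of_nonneg_right hj3 hm.le
  have hjm0 : 0 ≤ (j : ℝ) * m := by positivity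
  have hg : 0 ≤ g := le_trans (by positivity) hlw
  have h2j : (2 : ℝ) ^ j ≤ 8 := by
    calc (2 : ℝ) ^ j ≤ 2 ^ 3 := pow_le_pow_right₀ (by norm_num) (Nat.lt_succ_iff.1 hj)
      _ = 8 := by norm_num
  have h2j1 : (1 : ℝ) ≤ 2 ^ j := one_le_pow₀ (by norm_num)
  have hs0 : 0 ≤ tau t0 t1 j - t0 := by linarith
  have hs1 : 0 ≤ tau t0 t1 (j + 1) - tau t0 t1 j := by linarith
  have hs2 : tau t0 t1 (j + 1) - t0 ≤ t1 - t0 := by linarith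
  have hs3 : 0 ≤ tau t0 t1 (j + 1) - t0 := by linarith
  have h4 : (2 : ℝ) ^ j * (tau t0 t1 j - t0) ≤ 4 * (t1 - t0) := by
    calc (2 : ℝ) ^ j * (tau t0 t1 j - t0) ≤ 8 * ((t1 - t0) / 2) :=
          mul_le_mul h2j f2 hs0 (by norm_num)
      _ = 4 * (t1 - t0) := by ring
  have hK : 0 ≤ 1 + 1 / m := by positivity
  have hlam0 : 0 < lam := by linarith
  -- bounds
  have hy : 10 ^ 7 * (1 + 1 / m) ^ 2 * (tau t0 t1 j - t0) * g / lam ≤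
      10 ^ 8 * (1 + 1 / m) ^ 2 * (t1 - t0) * g / lam := by
    apply div_le_div_of_nonneg_right _ hlam0.le
    apply mul_le_mul_of_nonneg_right _ hg
    have h5 : 0 ≤ (1 + 1 / m) ^ 2 := by positivity
    calc 10 ^ 7 * (1 + 1 / m) ^ 2 * (tau t0 t1 j - t0)
        = (1 + 1 / m) ^ 2 * (10 ^ 7 * (tau t0 t1 j - t0)) := by ring
      _ ≤ (1 + 1 / m) ^ 2 * (10 ^ 8 * (t1 - t0)) :=
          mul_le_mul_of_nonneg_left (by linarith) h5
      _ = _ := by ring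
  have hy' : 10 ^ 7 * (1 + 1 / m) ^ 2 * (tau t0 t1 j - t0) * g / lam +
      10 ^ 7 * (1 + 1 / m) ^ 2 * (tau t0 t1 (j + 1) - tau t0 t1 j) * g / lam ≤
      10 ^ 8 * (1 + 1 / m) ^ 2 * (t1 - t0) * g / lam := by
    rw [← add_div]
    apply div_le_div_of_nonneg_right _ hlam0.le
    rw [← add_mul]
    apply mul_le_mul_of_nonneg_right _ hg
    have h5 : 0 ≤ (1 + 1 / m) ^ 2 := by positivity
    calc 10 ^ 7 * (1 + 1 / m) ^ 2 * (tau t0 t1 j - t0) +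
          10 ^ 7 * (1 + 1 / m) ^ 2 * (tau t0 t1 (j + 1) - tau t0 t1 j)
        = (1 + 1 / m) ^ 2 * (10 ^ 7 * (tau t0 t1 (j + 1) - t0)) := by ring
      _ ≤ (1 + 1 / m) ^ 2 * (10 ^ 8 * (t1 - t0)) :=
          mul_le_mul_of_nonneg_left (by linarith) h5
      _ = _ := by ring
  have hZ : 0 ≤ (1 + 1 / m) ^ 4 * lam * w ^ 2 := by positivity
  have he : 2 ^ j * (10 ^ 7 * (1 + 1 / m) ^ 4 * (tau t0 t1 j - t0) * lam * w ^ 2) ≤
      10 ^ 8 * (1 + 1 / m) ^ 4 * (t1 - t0) * lam * w ^ 2 := by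
    calc 2 ^ j * (10 ^ 7 * (1 + 1 / m) ^ 4 * (tau t0 t1 j - t0) * lam * w ^ 2)
        = ((1 + 1 / m) ^ 4 * lam * w ^ 2) * (10 ^ 7 * (2 ^ j * (tau t0 t1 j - t0))) := by ring
      _ ≤ ((1 + 1 / m) ^ 4 * lam * w ^ 2) * (10 ^ 8 * (t1 - t0)) :=
          mul_le_mul_of_nonneg_left (by linarith) hZ
      _ = _ := by ring
  have he' : 2 * (2 ^ j * (10 ^ 7 * (1 + 1 / m) ^ 4 * (tau t0 t1 j - t0) * lam * w ^ 2)) +
      10 ^ 7 * (1 + 1 / m) ^ 4 * (tau t0 t1 (j + 1) - tau t0 t1 j) * lam * w ^ 2 ≤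
      10 ^ 8 * (1 + 1 / m) ^ 4 * (t1 - t0) * lam * w ^ 2 := by
    calc 2 * (2 ^ j * (10 ^ 7 * (1 + 1 / m) ^ 4 * (tau t0 t1 j - t0) * lam * w ^ 2)) +
          10 ^ 7 * (1 + 1 / m) ^ 4 * (tau t0 t1 (j + 1) - tau t0 t1 j) * lam * w ^ 2
        = ((1 + 1 / m) ^ 4 * lam * w ^ 2) * (10 ^ 7 * (2 * (2 ^ j * (tau t0 t1 j - t0)) +
            (tau t0 t1 (j + 1) - tau t0 t1 j))) := by ring
      _ ≤ ((1 + 1 / m) ^ 4 * lam * w ^ 2) * (10 ^ 8 * (t1 - t0)) :=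
          mul_le_mul_of_nonneg_left (by linarith) hZ
      _ = _ := by ring
  have hψ : 2 ^ j * (18000 * (tau t0 t1 j - t0) * w ^ 2) ≤ 10 ^ 6 * (t1 - t0) * w ^ 2 := by
    calc 2 ^ j * (18000 * (tau t0 t1 j - t0) * w ^ 2)
        = (18000 * (2 ^ j * (tau t0 t1 j - t0))) * w ^ 2 := by ring
      _ ≤ (10 ^ 6 * (t1 - t0)) * w ^ 2 :=
          mul_le_mul_of_nonneg_right (by linarith) (by positivity)
      _ = _ := by ring
  have hδ : 14 * (1 + 1 / m) * (tau t0 t1 j - t0) * g ≤ 100 * (1 + 1 / m) * (t1 - t0) * g := by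
    apply mul_le_mul_of_nonneg_right _ hg
    calc 14 * (1 + 1 / m) * (tau t0 t1 j - t0) = (1 + 1 / m) * (14 * (tau t0 t1 j - t0)) := by ring
      _ ≤ (1 + 1 / m) * (100 * (t1 - t0)) := mul_le_mul_of_nonneg_left (by linarith) hK
      _ = _ := by ring
  have hw2 : 0 < w ^ 2 := by positivity
  obtain ⟨ζ, E, W, a, q, Ψb, πb, Er, r1, r2, r3, r4, r5, r6, r7, r8, r9, r10, r11⟩ :=
    step G (ta := tau t0 t1 j) (tb := tau t0 t1 (j + 1)) (ℓr := ℓr)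
      (ρ0 := ρ - ((j : ℝ) + 2) * m) (m := m) (w := w) (L := L) (k0 := kd j) (b := b)
      f1 f3 hℓ (by linarith) hm hm1 hρ (by linarith) (by linarith) hlam hw hlw hσ0
      (by linarith) hc hL (BCore_kd j) (bb.weaken (le_refl 0) (fun _ => by
        show ρ - ((j : ℝ) + 2) * m + m ≤ ρ
        linarith)) bl br bt hh St hy (by positivity) he hψ hδ
  have hrad : ρ - ((j : ℝ) + 2) * m - m = ρ - (((j + 1 : ℕ) : ℝ) + 2) * m := by
    push_cast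
    ring
  have hrad6 : ρ - 6 * m ≤ ρ - ((j : ℝ) + 2) * m - m := by linarith
  refine ⟨ζ, E, W, a, q, Ψb, πb, Er, ⟨_, r1, r2, r3⟩, r4, fun k => (r5 k).mono hy',
    fun k => (r6 k).mono he', ?_, fun k l => ?_, r9, ?_, r11⟩
  · unfold BCore_ST
    rw [hrad] at r7
    refine BCore_mono r7 (le_of_eq ?_) ?_ ?_ (le_of_eq ?_)
    · ring
    · have h5 : 0 ≤ ((1 + 1 / m) ^ 4 * lam * w ^ 2) *
          (10 ^ 7 * ((2 * 2 ^ j - 1) * (tau t0 t1 (j + 1) - tau t0 t1 j))) :=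
        mul_nonneg hZ (mul_nonneg (by norm_num) (mul_nonneg (by linarith) hs1))
      have h6 : 2 ^ (j + 1) * (10 ^ 7 * (1 + 1 / m) ^ 4 * (tau t0 t1 (j + 1) - t0) * lam * w ^ 2) -
          (2 * (2 ^ j * (10 ^ 7 * (1 + 1 / m) ^ 4 * (tau t0 t1 j - t0) * lam * w ^ 2)) +
          10 ^ 7 * (1 + 1 / m) ^ 4 * (tau t0 t1 (j + 1) - tau t0 t1 j) * lam * w ^ 2) =
          ((1 + 1 / m) ^ 4 * lam * w ^ 2) *
          (10 ^ 7 * ((2 * 2 ^ j - 1) * (tau t0 t1 (j + 1) - tau t0 t1 j))) := by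
        rw [pow_succ]
        ring
      linarith
    · have h5 : 0 ≤ w ^ 2 *
          (18000 * ((2 * 2 ^ j - 1) * (tau t0 t1 (j + 1) - tau t0 t1 j))) :=
        mul_nonneg hw2.le (mul_nonneg (by norm_num) (mul_nonneg (by linarith) hs1))
      have h6 : 2 ^ (j + 1) * (18000 * (tau t0 t1 (j + 1) - t0) * w ^ 2) -
          (2 * (2 ^ j * (18000 * (tau t0 t1 j - t0) * w ^ 2)) +
          18000 * (tau t0 t1 (j + 1) - tau t0 t1 j) * w ^ 2) =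
          w ^ 2 * (18000 * ((2 * 2 ^ j - 1) * (tau t0 t1 (j + 1) - tau t0 t1 j))) := by
        rw [pow_succ]
        ring
      linarith
    · ring
  · refine ((r8 k l).weaken (le_refl 0) (fun _ => hrad6)).mono (le_of_eq ?_)
    ring
  · obtain ⟨c', hc'⟩ := r10
    exact ⟨c', hc'.weaken (le_refl 0) (fun _ => hrad6)⟩

/-- The integral of `χ²`. -/
private theorem BCore_om (d : Dat) {ta tb ℓr : ℝ} (L : ℕ) (k0 : Fin 2 → ℤ) (b : WT)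
    (ζa Ea : Vec) (hℓ : 0 < ℓr) (hℓ2 : 2 * ℓr < tb - ta) :
    om (mkSB d ta tb ℓr L k0 b ζa Ea) = (tb - ta) - 4 * ℓr / 3 := by
  have h := om_eq (mkSB d ta tb ℓr L k0 b ζa Ea)
    (show ta < ta + ℓr by linarith) (show ta + ℓr < tb - ℓr by linarith)
    (show tb - ℓr < tb by linarith)
  rw [h]
  show (tb - ℓr - (ta + ℓr)) + (ta + ℓr - ta) / 3 + (tb - (tb - ℓr)) / 3 = _
  ring

/-- The integral over a sub-block. -/
private theorem BCore_int {ta tb : ℝ} (h : ta ≤ tb) (f : WT) (ν : Gx) (t : ℝ) :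
    (frz tb (intg ta tb (tcl ta tb f))).co ν t = ∫ s in ta..tb, f.co ν s := by
  rw [frz_right_intg h]
  apply intervalIntegral.integral_congr
  intro s hs
  rw [Set.uIcc_of_le h] at hs
  show f.co ν (clp ta tb s) = f.co ν s
  rw [clp_of_mem hs]

private theorem BCore_addint {t0 t1 : ℝ} (ht : t0 < t1) (f : WT) :
    frz (tau t0 t1 1) (intg (tau t0 t1 0) (tau t0 t1 1) (tcl (tau t0 t1 0) (tau t0 t1 1) f)) +
      frz (tau t0 t1 2) (intg (tau t0 t1 1) (tau t0 t1 2) (tcl (tau t0 t1 1) (tau t0 t1 2) f)) +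
      frz (tau t0 t1 3) (intg (tau t0 t1 2) (tau t0 t1 3) (tcl (tau t0 t1 2) (tau t0 t1 3) f)) +
      frz (tau t0 t1 4) (intg (tau t0 t1 3) (tau t0 t1 4) (tcl (tau t0 t1 3) (tau t0 t1 4) f)) =
      frz t1 (intg t0 t1 f) := by
  have h0 : tau t0 t1 0 ≤ tau t0 t1 1 := by
    have := (BCore_tau ht (show 0 < 4 by norm_num)).2.2.2
    linarith
  have h1 : tau t0 t1 1 ≤ tau t0 t1 2 := by
    have := (BCore_tau ht (show 1 < 4 by norm_num)).2.2.2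
    linarith
  have h2 : tau t0 t1 2 ≤ tau t0 t1 3 := by
    have := (BCore_tau ht (show 2 < 4 by norm_num)).2.2.2
    linarith
  have h3 : tau t0 t1 3 ≤ tau t0 t1 4 := by
    have := (BCore_tau ht (show 3 < 4 by norm_num)).2.2.2
    linarith
  apply WT.ext
  funext ν
  ext t
  show ((frz (tau t0 t1 1) (intg (tau t0 t1 0) (tau t0 t1 1)
      (tcl (tau t0 t1 0) (tau t0 t1 1) f))).co ν t +
    (frz (tau t0 t1 2) (intg (tau t0 t1 1) (tau t0 t1 2)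
      (tcl (tau t0 t1 1) (tau t0 t1 2) f))).co ν t) +
    (frz (tau t0 t1 3) (intg (tau t0 t1 2) (tau t0 t1 3)
      (tcl (tau t0 t1 2) (tau t0 t1 3) f))).co ν t +
    (frz (tau t0 t1 4) (intg (tau t0 t1 3) (tau t0 t1 4)
      (tcl (tau t0 t1 3) (tau t0 t1 4) f))).co ν t = _
  rw [BCore_int h0, BCore_int h1, BCore_int h2, BCore_int h3, frz_right_intg ht.le]
  have hi : ∀ a b : ℝ, IntervalIntegrable (fun s => f.co ν s) MeasureTheory.volume a b :=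
    fun a b => (f.co ν).continuous.intervalIntegrable a b
  rw [intervalIntegral.integral_add_adjacent_intervals (hi _ _) (hi _ _),
    intervalIntegral.integral_add_adjacent_intervals (hi _ _) (hi _ _),
    intervalIntegral.integral_add_adjacent_intervals (hi _ _) (hi _ _), BCore_tau0, BCore_tau4]

/-- Choice between four objects. -/
private def BCore_sel {α : Type*} (x0 x1 x2 x3 : α) : ℕ → α
  | 0 => x0
  | 1 => x1
  | 2 => x2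
  | _ => x3

private theorem BCore_frz_idm (t₀ : ℝ) (a b : Fin 2) : frz t₀ (idm a b) = idm a b := by
  unfold idm frz
  split_ifs
  · exact tcomp_one _
  · exact tcomp_zero _

private theorem BCore_kd0 : kd 0 = kdir 0 := by decide
private theorem BCore_kd1 : kd 1 = kdir 1 := by decide
private theorem BCore_kd2 : kd 2 = kdir 2 := by decide

/-- Existence.  `exists_amp` with `ω = om` (the same for `j = 0,1,2`: length `(t1-t0)/6`, ramps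
`ℓr ≤ (t1-t0)/24`), `Ri = frz t1 (intg t0 t1 R)`; then `step` for `j = 0,1,2` (amplitudes `b j`) and
`j = 3` (`b = 0`, time length `(t1-t0)/2`); the radii `ρ - (j+2) m`.  Sum of the four identities:
the integrals of `R` over the sub-blocks add up to `Ri`, the wave parts cancel against `Ri` up to
`Hb w²/16 • M0ᵀ`, whose divergence vanishes (`piola`); then `pot_bd` with `ξ0 = frz t0 ξ`. -/
theorem pass_exists {d : Dat} {t0 t1 lam g σ ρ c A m w ℓr : ℝ} {L : ℕ}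
    (G : Good d t0 t1 lam g σ ρ c A)
    (hm : 0 < m) (hm1 : m ≤ 1) (hρ : ρ ≤ 2) (hρ0 : 10 * m ≤ ρ)
    (hlam : 1 ≤ lam) (hw : 0 < w) (hlw : lam * w ≤ g) (hσ0 : 0 ≤ σ) (hσ : 1600 * σ ≤ w ^ 2)
    (hc : c ≤ 1 / 100) (hL : lam * (1 + 1 / m) ≤ L)
    (hh : 10 ^ 13 * (1 + 1 / m) ^ 5 * (t1 - t0) * g ≤ 1)
    (hℓ : 0 < ℓr) (hℓ2 : 24 * ℓr ≤ t1 - t0) :
    ∃ (b : ℕ → WT) (ζ E W a q : ℕ → Vec) (Ψ1 : WT),
      Pass d t0 t1 lam g σ ρ c A m w ℓr L b ζ E W a q Ψ1 := by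
  have hT : 0 < t1 - t0 := by linarith [G.ht]
  have hρpos : 0 < ρ := by linarith
  have hw2 : 0 < w ^ 2 := by positivity
  -- the frozen deformation
  set ξ0 : Vec := fun j => frz t0 (d.ξ j) with hξ0
  have tξ : ∀ k t₀, frz t₀ (ξ0 k) = ξ0 k := fun k t₀ => frz_frz t₀ t0 (d.ξ k)
  have hFb : ∀ k l, Bd 0 (cr ρ) (Fm d.κ ξ0 k l - idm k l) (1 / 100) := by
    intro k l
    have h1 : Fm d.κ ξ0 k l - idm k l = frz t0 (grad d.κ d.ξ k l) := by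
      show idm k l + D d.κ l (frz t0 (d.ξ k)) - idm k l = frz t0 (D d.κ l (d.ξ k))
      have h2 : frz t0 (D d.κ l (d.ξ k)) = D d.κ l (frz t0 (d.ξ k)) := tcomp_D _ _ _ _
      rw [h2]
      ring
    rw [h1]
    exact ((G.bF k l).frz t0).mono hc
  have hfF : ∀ k l, frz t0 (d.F k l) = Fm d.κ ξ0 k l := by
    intro k l
    have h1 : frz t0 (d.F k l) = frz t0 (idm k l) + frz t0 (D d.κ l (d.ξ k)) := tcomp_add _ _ _
    have h2 : frz t0 (D d.κ l (d.ξ k)) = D d.κ l (frz t0 (d.ξ k)) := tcomp_D _ _ _ _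
    rw [h1, h2, BCore_frz_idm]
    rfl
  have hdet : det2 (Fm d.κ ξ0) = 1 := by
    have h1 : frz t0 (det2 d.F) = frz t0 (d.F 0 0) * frz t0 (d.F 1 1) -
        frz t0 (d.F 0 1) * frz t0 (d.F 1 0) := by
      show tcomp _ (d.F 0 0 * d.F 1 1 - d.F 0 1 * d.F 1 0) = _
      rw [tcomp_sub, tcomp_mul, tcomp_mul]
      rfl
    rw [G.det, hfF, hfF, hfF, hfF] at h1
    have h2 : frz t0 (1 : WT) = 1 := tcomp_one _
    rw [h2] at h1
    exact h1.symm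
  have lF : ∀ k, Lev d.i (ξ0 k) := fun k => (G.levξ k).tcomp _
  have rF : ∀ k, IsR (ξ0 k) := fun k => (G.rξ k).frz
  -- the integral of the stress
  set Ri : Mat := fun k l => frz t1 (intg t0 t1 (d.R k l)) with hRi
  have hR : ∀ k l, Bd 0 (cr ρ) (Ri k l) ((t1 - t0) * σ) := fun k l =>
    (Bd.intg G.ht.le (fun _ _ _ => le_refl _) (G.bR k l)).frz t1
  have sR : ∀ k l, Ri k l = Ri l k := by
    intro k l
    simp only [hRi]
    rw [G.symm k l]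
  have lR : ∀ k l, Lev d.i (Ri k l) := fun k l => ((G.levR k l).intg t0 t1).tcomp _
  have rR : ∀ k l, IsR (Ri k l) := fun k l => (G.rR k l).intg.frz
  have tR : ∀ k l t₀, frz t₀ (Ri k l) = Ri k l := fun k l t₀ => frz_frz t₀ t1 _
  set ω : ℝ := (t1 - t0) / 6 - 4 * ℓr / 3 with hω
  obtain ⟨bf, hb1, hb2, hb3, hb4, hb5⟩ := exists_amp (κ := d.κ) (ρ := ρ) (w := w) (σ := σ)
    (ω := ω) (Hb := t1 - t0) hρpos hw hσ0 hσ (by rw [hω]; linarith) (by rw [hω]; linarith)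
    (by rw [hω]; linarith) (i := d.i) (ξ0 := ξ0) hFb hdet lF rF tξ (Ri := Ri) hR sR lR rR tR
  -- the four steps
  have St0 : BCore_ST d t0 t1 lam g ρ m w 0 0 0 0 := by
    have h1 := StA.start G (ρ0 := ρ - (((0 : ℕ) : ℝ) + 2) * m) (by
      push_cast
      linarith)
    unfold BCore_ST
    rw [BCore_tau0, sub_self]
    simp only [mul_zero, zero_mul, zero_div]
    exact h1
  obtain ⟨ζ0, E0, W0, a0, q0, Ψ1, π0, Er0, H0, P0, y0, e0, S1, er0, z0, f0, i0⟩ :=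
    BCore_one G hm hm1 hρ hρ0 hlam hw hlw hσ0 hσ hc hL hh hℓ hℓ2 (j := 0) (by norm_num)
      (hb1 0) (hb2 0) (hb3 0) (hb4 0) St0
  obtain ⟨ζ1, E1, W1, a1, q1, Ψ2, π1, Er1, H1, P1, y1, e1, S2, er1, z1, f1, i1⟩ :=
    BCore_one G hm hm1 hρ hρ0 hlam hw hlw hσ0 hσ hc hL hh hℓ hℓ2 (j := 1) (by norm_num)
      (hb1 1) (hb2 1) (hb3 1) (hb4 1) S1
  obtain ⟨ζ2, E2, W2, a2, q2, Ψ3, π2, Er2, H2, P2, y2, e2, S3, er2, z2, f2, i2⟩ :=
    BCore_one G hm hm1 hρ hρ0 hlam hw hlw hσ0 hσ hc hL hh hℓ hℓ2 (j := 2) (by norm_num)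
      (hb1 2) (hb2 2) (hb3 2) (hb4 2) S2
  obtain ⟨ζ3, E3, W3, a3, q3, Ψ4, π3, Er3, H3, P3, y3, e3, S4, er3, z3, f3, i3⟩ :=
    BCore_one G hm hm1 hρ hρ0 hlam hw hlw hσ0 hσ hc hL hh hℓ hℓ2 (j := 3) (by norm_num)
      (b := 0) (Bd.zero 0 (cr ρ) hw.le) (Lev.zero _) IsR.zero (fun t₀ => tcomp_zero _) S3
  -- the potential at the end
  set cc : ℂ := (((t1 - t0) * (w ^ 2 / 16) : ℝ) : ℂ) with hcc
  have hlen : ∀ {j : ℕ}, j < 3 → tau t0 t1 (j + 1) - tau t0 t1 j = (t1 - t0) / 6 := by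
    intro j hj
    interval_cases j
    · show tau t0 t1 1 - tau t0 t1 0 = _
      rw [BCore_tau0, BCore_tau1]
      ring
    · show tau t0 t1 2 - tau t0 t1 1 = _
      rw [BCore_tau1, BCore_tau2]
      ring
    · show tau t0 t1 3 - tau t0 t1 2 = _
      rw [BCore_tau2, BCore_tau3]
      ring
  have hom : ∀ {j : ℕ}, j < 3 → ∀ (k0 : Fin 2 → ℤ) (b : WT) (ζa Ea : Vec),
      om (mkSB d (tau t0 t1 j) (tau t0 t1 (j + 1)) ℓr L k0 b ζa Ea) = ω := by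
    intro j hj k0 b ζa Ea
    have h1 := hlen hj
    rw [BCore_om d L k0 b ζa Ea hℓ (by linarith), h1, hω]
  have hM : ∀ k l,
      mainS (mkSB d (tau t0 t1 0) (tau t0 t1 (0 + 1)) ℓr L (kd 0) (bf 0) 0 0) (F0 d t0) k l +
      mainS (mkSB d (tau t0 t1 1) (tau t0 t1 (1 + 1)) ℓr L (kd 1) (bf 1)
        (fun k => frz (tau t0 t1 (0 + 1)) (ζ0 k)) (fun k => frz (tau t0 t1 (0 + 1)) (E0 k)))
        (F0 d t0) k l +
      mainS (mkSB d (tau t0 t1 2) (tau t0 t1 (2 + 1)) ℓr L (kd 2) (bf 2)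
        (fun k => frz (tau t0 t1 (1 + 1)) (ζ1 k)) (fun k => frz (tau t0 t1 (1 + 1)) (E1 k)))
        (F0 d t0) k l +
      mainS (mkSB d (tau t0 t1 3) (tau t0 t1 (3 + 1)) ℓr L (kd 3) 0
        (fun k => frz (tau t0 t1 (2 + 1)) (ζ2 k)) (fun k => frz (tau t0 t1 (2 + 1)) (E2 k)))
        (F0 d t0) k l = -(cc • adj (Fm d.κ ξ0) l k) := by
    intro k l
    have h5 := hb5 k l
    rw [Fin.sum_univ_three] at h5
    have hadd : ∀ e, Ri k e =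
        frz (tau t0 t1 1) (intg (tau t0 t1 0) (tau t0 t1 1)
          (tcl (tau t0 t1 0) (tau t0 t1 1) (d.R k e))) +
        frz (tau t0 t1 2) (intg (tau t0 t1 1) (tau t0 t1 2)
          (tcl (tau t0 t1 1) (tau t0 t1 2) (d.R k e))) +
        frz (tau t0 t1 3) (intg (tau t0 t1 2) (tau t0 t1 3)
          (tcl (tau t0 t1 2) (tau t0 t1 3) (d.R k e))) +
        frz (tau t0 t1 4) (intg (tau t0 t1 3) (tau t0 t1 4)
          (tcl (tau t0 t1 3) (tau t0 t1 4) (d.R k e))) := fun e =>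
      (BCore_addint G.ht (d.R k e)).symm
    have hmul : mulT Ri (adj (Fm d.κ ξ0)) k l =
        Ri k 0 * adj (Fm d.κ ξ0) l 0 + Ri k 1 * adj (Fm d.κ ξ0) l 1 := by
      show ∑ e, Ri k e * adj (Fm d.κ ξ0) l e = _
      rw [Fin.sum_univ_two]
    rw [hmul, hadd 0, hadd 1] at h5
    have m0 : mainS (mkSB d (tau t0 t1 0) (tau t0 t1 (0 + 1)) ℓr L (kd 0) (bf 0) 0 0)
        (F0 d t0) k l =
        -(((ω : ℂ) * kp (kdir 0) l) • (bf 0 * bf 0 * ∑ e, kp (kdir 0) e • Fm d.κ ξ0 k e)) -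
        (frz (tau t0 t1 1) (intg (tau t0 t1 0) (tau t0 t1 1)
          (tcl (tau t0 t1 0) (tau t0 t1 1) (d.R k 0))) * adj (Fm d.κ ξ0) l 0 +
        frz (tau t0 t1 1) (intg (tau t0 t1 0) (tau t0 t1 1)
          (tcl (tau t0 t1 0) (tau t0 t1 1) (d.R k 1))) * adj (Fm d.κ ξ0) l 1) := by
      unfold mainS mulT
      rw [hom (show 0 < 3 by norm_num), Fin.sum_univ_two (fun e => _ * _), ← BCore_kd0]
      rfl
    have m1 : mainS (mkSB d (tau t0 t1 1) (tau t0 t1 (1 + 1)) ℓr L (kd 1) (bf 1)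
        (fun k => frz (tau t0 t1 (0 + 1)) (ζ0 k)) (fun k => frz (tau t0 t1 (0 + 1)) (E0 k)))
        (F0 d t0) k l =
        -(((ω : ℂ) * kp (kdir 1) l) • (bf 1 * bf 1 * ∑ e, kp (kdir 1) e • Fm d.κ ξ0 k e)) -
        (frz (tau t0 t1 2) (intg (tau t0 t1 1) (tau t0 t1 2)
          (tcl (tau t0 t1 1) (tau t0 t1 2) (d.R k 0))) * adj (Fm d.κ ξ0) l 0 +
        frz (tau t0 t1 2) (intg (tau t0 t1 1) (tau t0 t1 2)
          (tcl (tau t0 t1 1) (tau t0 t1 2) (d.R k 1))) * adj (Fm d.κ ξ0) l 1) := by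
      unfold mainS mulT
      rw [hom (show 1 < 3 by norm_num), Fin.sum_univ_two (fun e => _ * _), ← BCore_kd1]
      rfl
    have m2 : mainS (mkSB d (tau t0 t1 2) (tau t0 t1 (2 + 1)) ℓr L (kd 2) (bf 2)
        (fun k => frz (tau t0 t1 (1 + 1)) (ζ1 k)) (fun k => frz (tau t0 t1 (1 + 1)) (E1 k)))
        (F0 d t0) k l =
        -(((ω : ℂ) * kp (kdir 2) l) • (bf 2 * bf 2 * ∑ e, kp (kdir 2) e • Fm d.κ ξ0 k e)) -
        (frz (tau t0 t1 3) (intg (tau t0 t1 2) (tau t0 t1 3)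
          (tcl (tau t0 t1 2) (tau t0 t1 3) (d.R k 0))) * adj (Fm d.κ ξ0) l 0 +
        frz (tau t0 t1 3) (intg (tau t0 t1 2) (tau t0 t1 3)
          (tcl (tau t0 t1 2) (tau t0 t1 3) (d.R k 1))) * adj (Fm d.κ ξ0) l 1) := by
      unfold mainS mulT
      rw [hom (show 2 < 3 by norm_num), Fin.sum_univ_two (fun e => _ * _), ← BCore_kd2]
      rfl
    have m3 : mainS (mkSB d (tau t0 t1 3) (tau t0 t1 (3 + 1)) ℓr L (kd 3) 0
        (fun k => frz (tau t0 t1 (2 + 1)) (ζ2 k)) (fun k => frz (tau t0 t1 (2 + 1)) (E2 k)))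
        (F0 d t0) k l =
        -(frz (tau t0 t1 4) (intg (tau t0 t1 3) (tau t0 t1 4)
          (tcl (tau t0 t1 3) (tau t0 t1 4) (d.R k 0))) * adj (Fm d.κ ξ0) l 0 +
        frz (tau t0 t1 4) (intg (tau t0 t1 3) (tau t0 t1 4)
          (tcl (tau t0 t1 3) (tau t0 t1 4) (d.R k 1))) * adj (Fm d.κ ξ0) l 1) := by
      unfold mainS mulT
      rw [Fin.sum_univ_two (fun e => _ * _)]
      show -(_ • ((0 : WT) * 0 * _)) - _ = _
      rw [zero_mul, zero_mul, smul_zero, neg_zero, zero_sub]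
      rfl
    rw [m0, m1, m2, m3]
    linear_combination -h5
  -- the sum of the identities
  have hsum : ∀ i, mulv (Fm d.κ ξ0) (fun k => dp d.κ k Ψ4) i +
      gradT d.κ (adj (Fm d.κ ξ0)) (π0 + π1 + π2 + π3) i =
      dvm d.κ (fun k l => Er0 k l + Er1 k l + Er2 k l + Er3 k l) i := by
    intro i
    have j0 := i0 i
    have j1 := i1 i
    have j2 := i2 i
    have j3 := i3 i
    have hp := piola d.κ ξ0 i
    have hF0 : F0 d t0 = Fm d.κ ξ0 := rfl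
    have hm0 := congrArg (D d.κ 0) (hM i 0)
    have hm1' := congrArg (D d.κ 1) (hM i 1)
    rw [Fin.sum_univ_two] at hp
    simp only [map_add, map_neg, map_smul] at hm0 hm1'
    have hs : cc • D d.κ 0 (adj (Fm d.κ ξ0) 0 i) + cc • D d.κ 1 (adj (Fm d.κ ξ0) 1 i) = 0 := by
      rw [← smul_add, hp, smul_zero]
    simp only [mulv, gradT, mulvT, dvm, Fin.sum_univ_two, map_add, map_sub, map_zero] at j0 j1 j2 j3 ⊢
    rw [hF0] at j0 j1 j2 j3 hm0 hm1'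
    linear_combination j0 + j1 + j2 + j3 + hm0 + hm1' - hs
  have hS4 : StA d t0 (ρ - (((3 + 1 : ℕ) : ℝ) + 2) * m) _ _ _ _ (tau t0 t1 (3 + 1)) _ _ Ψ4 := S4
  have hr6 : ρ - (((3 + 1 : ℕ) : ℝ) + 2) * m = ρ - 6 * m := by
    push_cast
    ring
  rw [hr6] at hS4
  have hr0 : ∀ _t : ℝ, (0 : ℝ) ≤ ρ - 6 * m := fun _ => by linarith
  obtain ⟨c0, g0⟩ := f0
  obtain ⟨c1, g1⟩ := f1
  obtain ⟨c2, g2⟩ := f2
  obtain ⟨c3, g3⟩ := f3
  have hpot := pot_bd d.κ ξ0 (r := cr (ρ - 6 * m)) hr0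
    (fun k l => ((hFb k l).weaken (le_refl 0) (fun _ => by
      show ρ - 6 * m ≤ ρ
      linarith)).mono (by norm_num)) (φ := Ψ4) (π := π0 + π1 + π2 + π3) hS4.zΨ
    (by rw [map_add, map_add, map_add, z0, z1, z2, z3])
    (hS4.bΨ.mono (le_max_left _ (c0 + c1 + c2 + c3)))
    ((((g0.add g1).add g2).add g3).mono (le_max_right _ (c0 + c1 + c2 + c3)))
    (S := fun k l => Er0 k l + Er1 k l + Er2 k l + Er3 k l)
    (fun k l => (((er0 k l).add (er1 k l)).add (er2 k l)).add (er3 k l)) hsum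
  refine ⟨BCore_sel (bf 0) (bf 1) (bf 2) 0, BCore_sel ζ0 ζ1 ζ2 ζ3, BCore_sel E0 E1 E2 E3,
    BCore_sel W0 W1 W2 W3, BCore_sel a0 a1 a2 a3, BCore_sel q0 q1 q2 q3, Ψ4, ?_⟩
  refine ⟨rfl, ?_, ?_, ?_, ?_, ?_, ?_, hS4.lΨ, hS4.rΨ, hS4.tΨ⟩
  · intro j hj
    interval_cases j
    · exact H0
    · exact H1
    · exact H2
    · exact H3
  · intro j hj
    interval_cases j
    · exact P0
    · exact P1
    · exact P2
    · exact P3
  · intro j hj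
    interval_cases j
    · exact y0
    · exact y1
    · exact y2
    · exact y3
  · intro j hj
    interval_cases j
    · exact e0
    · exact e1
    · exact e2
    · exact e3
  · intro k
    have h1 := hS4.eΨ k
    have h2 : tau t0 t1 (3 + 1) = t1 := BCore_tau4 t0 t1
    rw [h2] at h1
    exact h1
  · refine hpot.1.mono (le_of_eq ?_)
    show 8 * ((tau t0 t1 1 - tau t0 t1 0) * _ + (tau t0 t1 2 - tau t0 t1 1) * _ +
      (tau t0 t1 3 - tau t0 t1 2) * _ + (tau t0 t1 4 - tau t0 t1 3) * _) = _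
    rw [BCore_tau0, BCore_tau4]
    ring

end ES
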