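import Pool.Agent.ES.V03

/-!
ES-V04 (Part II, helper27): the coordinate maps are bijective with a Lipschitz inverse.

If `|∂_b ξ_a| ≤ c ≤ 1/10` then `|ξ_a(z) - ξ_a(z')| ≤ 2 c ‖z-z'‖ ≤ ‖z-z'‖/5` (mean value inequality,
e.g. `Convex.norm_image_sub_le_of_norm_hasFDerivWithin_le` with `hasFDerivAt_evR` and
`abs_evR_le`; the norm of `∑_b x_b • proj b` on `Fin 2 → ℝ` (sup norm) is at most `|x_0| + |x_1|`).
Injective: `‖X z - X z'‖ ≥ (4/5) ‖z - z'‖`.  Surjective: `z ↦ y - ξ(z)` is a contraction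
(`ContractingWith` with constant `1/5`, `ContractingWith.fixedPoint`).
-/

namespace ES

theorem xi_lip {κ : Kp} {ξ : Vec} {ρ c : ℝ} (hρ : 0 ≤ ρ) (hc : c ≤ 1 / 10)
    (hb : ∀ a b, Bd 0 (cr ρ) (grad κ ξ a b) c) (t : ℝ) (z z' : Fin 2 → ℝ) (a : Fin 2) :
    |evR κ (ξ a) z t - evR κ (ξ a) z' t| ≤ 1 / 5 * ‖z - z'‖ := by
  have h1 : ∀ x ∈ (Set.univ : Set (Fin 2 → ℝ)),
      HasFDerivWithinAt (fun z => evR κ (ξ a) z t)
        (∑ b : Fin 2, evR κ (D κ b (ξ a)) x t •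
          (ContinuousLinearMap.proj b : (Fin 2 → ℝ) →L[ℝ] ℝ)) Set.univ x :=
    fun x _ => (hasFDerivAt_evR κ (ξ a) x t).hasFDerivWithinAt
  have h2 : ∀ x ∈ (Set.univ : Set (Fin 2 → ℝ)),
      ‖(∑ b : Fin 2, evR κ (D κ b (ξ a)) x t •
          (ContinuousLinearMap.proj b : (Fin 2 → ℝ) →L[ℝ] ℝ))‖ ≤ 1 / 5 := by
    intro x _
    refine ContinuousLinearMap.opNorm_le_bound _ (by norm_num) fun w => ?_
    have h3 : ∀ b, |evR κ (D κ b (ξ a)) x t| ≤ 1 / 10 := fun b =>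
      (abs_evR_le (fun _ => hρ) (hb a b) x t).trans hc
    have h4 : ∀ b, |w b| ≤ ‖w‖ := fun b => norm_le_pi_norm w b
    have h5 : ∀ b, |evR κ (D κ b (ξ a)) x t * w b| ≤ 1 / 10 * ‖w‖ := fun b => by
      rw [abs_mul]
      exact mul_le_mul (h3 b) (h4 b) (abs_nonneg _) (by norm_num)
    simp only [Fin.sum_univ_two, ContinuousLinearMap.add_apply, ContinuousLinearMap.smul_apply,
      ContinuousLinearMap.proj_apply, smul_eq_mul, Real.norm_eq_abs]
    calc |evR κ (D κ 0 (ξ a)) x t * w 0 + evR κ (D κ 1 (ξ a)) x t * w 1|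
        ≤ |evR κ (D κ 0 (ξ a)) x t * w 0| + |evR κ (D κ 1 (ξ a)) x t * w 1| := abs_add_le _ _
      _ ≤ 1 / 10 * ‖w‖ + 1 / 10 * ‖w‖ := add_le_add (h5 0) (h5 1)
      _ = 1 / 5 * ‖w‖ := by ring
  have h3 := Convex.norm_image_sub_le_of_norm_hasFDerivWithin_le h1 h2 convex_univ
    (Set.mem_univ z') (Set.mem_univ z)
  simpa only [Real.norm_eq_abs] using h3

private theorem v04_lip {κ : Kp} {ξ : Vec} {ρ c : ℝ} (hρ : 0 ≤ ρ) (hc : c ≤ 1 / 10)
    (hb : ∀ a b, Bd 0 (cr ρ) (grad κ ξ a b) c) (t : ℝ) (z z' : Fin 2 → ℝ) :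
    ‖(fun a => evR κ (ξ a) z t) - (fun a => evR κ (ξ a) z' t)‖ ≤ 1 / 5 * ‖z - z'‖ := by
  rw [pi_norm_le_iff_of_nonneg (by positivity)]
  intro a
  exact xi_lip hρ hc hb t z z' a

private theorem v04_inv {κ : Kp} {ξ : Vec} {ρ c : ℝ} (hρ : 0 ≤ ρ) (hc : c ≤ 1 / 10)
    (hb : ∀ a b, Bd 0 (cr ρ) (grad κ ξ a b) c) (t : ℝ) (z z' : Fin 2 → ℝ) :
    ‖z - z'‖ ≤ 2 * ‖(fun a => z a + evR κ (ξ a) z t) - (fun a => z' a + evR κ (ξ a) z' t)‖ := by
  have h1 := v04_lip hρ hc hb t z z'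
  have h2 : z - z' = ((fun a => z a + evR κ (ξ a) z t) - (fun a => z' a + evR κ (ξ a) z' t))
      - ((fun a => evR κ (ξ a) z t) - (fun a => evR κ (ξ a) z' t)) := by
    funext a
    simp only [Pi.sub_apply]
    ring
  have h3 : ‖z - z'‖ ≤ ‖(fun a => z a + evR κ (ξ a) z t) - (fun a => z' a + evR κ (ξ a) z' t)‖
      + ‖(fun a => evR κ (ξ a) z t) - (fun a => evR κ (ξ a) z' t)‖ := by
    calc ‖z - z'‖ = ‖((fun a => z a + evR κ (ξ a) z t) - (fun a => z' a + evR κ (ξ a) z' t))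
      - ((fun a => evR κ (ξ a) z t) - (fun a => evR κ (ξ a) z' t))‖ := by rw [← h2]
      _ ≤ _ := norm_sub_le _ _
  have h4 : 0 ≤ ‖z - z'‖ := norm_nonneg _
  linarith

theorem bij_of_grad {κ : Kp} {ξ : Vec} {ρ c : ℝ} (hρ : 0 ≤ ρ) (hc : c ≤ 1 / 10)
    (hb : ∀ a b, Bd 0 (cr ρ) (grad κ ξ a b) c) (t : ℝ) :
    Function.Bijective (fun (z : Fin 2 → ℝ) (a : Fin 2) => z a + evR κ (ξ a) z t) := by
  constructor
  · intro z z' h
    have h1 := v04_inv hρ hc hb t z z'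
    have h2 : (fun a => z a + evR κ (ξ a) z t) = (fun a => z' a + evR κ (ξ a) z' t) := h
    rw [h2, sub_self, norm_zero, mul_zero] at h1
    exact sub_eq_zero.mp (norm_le_zero_iff.mp h1)
  · intro y
    have hK : ContractingWith (1 / 5 : NNReal)
        (fun z : Fin 2 → ℝ => y - fun a => evR κ (ξ a) z t) := by
      refine ⟨?_, LipschitzWith.of_dist_le_mul fun z z' => ?_⟩
      · rw [← NNReal.coe_lt_coe]
        push_cast
        norm_num
      · rw [dist_eq_norm, dist_eq_norm, sub_sub_sub_cancel_left, norm_sub_rev]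
        have h := v04_lip hρ hc hb t z z'
        have h5 : ((1 / 5 : NNReal) : ℝ) = 1 / 5 := by push_cast; rfl
        rw [h5]
        exact h
    have hfix := hK.fixedPoint_isFixedPt
    refine ⟨ContractingWith.fixedPoint _ hK, ?_⟩
    funext a
    have h := congrFun hfix a
    simp only [Pi.sub_apply] at h
    linarith

namespace Good

variable {d : Dat} {t0 t1 lam g σ ρ c A : ℝ}

/-- In particular `Rep` always has its first half. -/
theorem bij (h : Good d t0 t1 lam g σ ρ c A) (hρ : 0 ≤ ρ) (hc : c ≤ 1 / 10) (t : ℝ) :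
    Function.Bijective (Xm d t) := bij_of_grad hρ hc h.bF t

theorem inv_lip (h : Good d t0 t1 lam g σ ρ c A) (hρ : 0 ≤ ρ) (hc : c ≤ 1 / 10) (t : ℝ)
    (z z' : Fin 2 → ℝ) : ‖z - z'‖ ≤ 2 * ‖Xm d t z - Xm d t z'‖ :=
  v04_inv hρ hc h.bF t z z'

/-- The inverse map, jointly continuous. -/
theorem exists_inv (h : Good d t0 t1 lam g σ ρ c A) (hρ : 0 ≤ ρ) (hc : c ≤ 1 / 10) :
    ∃ Y : ℝ → (Fin 2 → ℝ) → (Fin 2 → ℝ), (∀ t x, Xm d t (Y t x) = x) ∧
      (∀ t z, Y t (Xm d t z) = z) ∧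
      Continuous fun p : (Fin 2 → ℝ) × ℝ => Y p.2 p.1 := by
  refine ⟨fun t => (Equiv.ofBijective _ (h.bij hρ hc t)).symm, fun t x => ?_, fun t z => ?_, ?_⟩
  · exact (Equiv.ofBijective _ (h.bij hρ hc t)).apply_symm_apply x
  · exact (Equiv.ofBijective _ (h.bij hρ hc t)).symm_apply_apply z
  · rw [continuous_iff_continuousAt]
    rintro ⟨x₀, s₀⟩
    have hX : ∀ t x, Xm d t ((Equiv.ofBijective _ (h.bij hρ hc t)).symm x) = x := fun t x =>
      (Equiv.ofBijective _ (h.bij hρ hc t)).apply_symm_apply x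
    rw [ContinuousAt, tendsto_iff_norm_sub_tendsto_zero]
    have hcont : Continuous fun p : (Fin 2 → ℝ) × ℝ =>
        2 * ‖p.1 - Xm d p.2 ((Equiv.ofBijective _ (h.bij hρ hc s₀)).symm x₀)‖ := by
      refine continuous_const.mul (continuous_fst.sub ?_).norm
      exact (continuous_Xm d).comp (continuous_const.prodMk continuous_snd)
    have hlim : Filter.Tendsto (fun p : (Fin 2 → ℝ) × ℝ =>
        2 * ‖p.1 - Xm d p.2 ((Equiv.ofBijective _ (h.bij hρ hc s₀)).symm x₀)‖)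
        (nhds (x₀, s₀)) (nhds 0) := by
      have h1 := hcont.tendsto (x₀, s₀)
      simp only [hX, sub_self, norm_zero, mul_zero] at h1
      exact h1
    refine squeeze_zero (fun p => norm_nonneg _) (fun p => ?_) hlim
    have h2 := h.inv_lip hρ hc p.2 ((Equiv.ofBijective _ (h.bij hρ hc p.2)).symm p.1)
      ((Equiv.ofBijective _ (h.bij hρ hc s₀)).symm x₀)
    rw [hX] at h2
    exact h2

end Good

end ES
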