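import Pool.Agent.ES.SDef

/-! ES-XDef: definitions for the exactness part and the new data (EW 2, EW 3). -/

open scoped BoundedContinuousFunction

namespace ES

/-- `(TF F Ψ)`: `F D^⊥Ψ = D·(TF F Ψ)`. -/
noncomputable def TF (F : Mat) (Ψ : WT) : Mat := fun a j => if j = 0 then F a 1 * Ψ else -(F a 0 * Ψ)

/-- `(TA κ Ψ y)`: `(D^⊥Ψ · D) y = D·(TA κ Ψ y)`. -/
noncomputable def TA (κ : Kp) (Ψ : WT) (y : Vec) : Mat :=
  fun a j => if j = 0 then Ψ * D κ 1 (y a) else -(Ψ * D κ 0 (y a))

/-- `Mᵀ D π = D·(TM M π)`. -/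
noncomputable def TM (M : Mat) (π : WT) : Mat := fun a j => M j a * π

/-- Product of matrices. -/
noncomputable def mulM (F P : Mat) : Mat := fun a b => ∑ c, F a c * P c b

/-- New coordinates `ξ' = ζ + ξ^ζ`. -/
noncomputable def nX (d : Dat) (ζ : Vec) : Vec := fun a => ζ a + comp d.κ ζ (d.ξ a)

/-- New coordinate velocity `V = v^ζ + F' E`. -/
noncomputable def nV (d : Dat) (ζ E : Vec) : Vec := fun a => vz d ζ a + mulv (FF d ζ) E a

/-- New velocity `u = V + F' W`. -/
noncomputable def nu' (d : Dat) (ζ E W : Vec) : Vec := fun a => nV d ζ E a + mulv (FF d ζ) W a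

/-- The time derivative of `ζ`. -/
noncomputable def dz (d : Dat) (ζ E : Vec) : Vec := fun j => comp d.κ ζ (d.B j) + mulv (Pm d ζ) E j

/-- Pressure potential of a vector. -/
noncomputable def pot (κ : Kp) (q : Vec) : WT := Lin κ (dvg κ q)

/-- Stream function of a vector. -/
noncomputable def strm (κ : Kp) (x : Vec) : WT := Lin κ (∑ b, dp κ b (x b))

/-- The data on the gap `[s1,s2]`. -/
noncomputable def SB.gapD (P : SB) (ζ E W q : Vec) : Dat :=
  Dat.tcl
    { κ := P.κ'
      i := P.d.i + 1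
      ξ := nX P.d ζ
      U := nV P.d ζ E
      v := nu' P.d ζ E W
      p := comp P.d.κ ζ P.d.p + pot P.κ' q
      R := 0 } P.s1 P.s2

/-- The data on a ramp `[s,t]`, with stress `Q`. -/
noncomputable def SB.rampD (P : SB) (ζ E W q : Vec) (Q : Mat) (s t : ℝ) : Dat :=
  Dat.tcl
    { κ := P.κ'
      i := P.d.i + 1
      ξ := nX P.d ζ
      U := nV P.d ζ E
      v := nu' P.d ζ E W
      p := comp P.d.κ ζ P.d.p + pot P.d.κ (fun j => mean P.d.i (q j))
      R := Q } s t

/-- Force on a ramp: `h = F' Wt - {f}`. -/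
noncomputable def SB.force (P : SB) (ζ E W Wt : Vec) : Vec :=
  fun a => mulv (FF P.d ζ) Wt a - osc P.d.i (P.f ζ E W a)

/-- Linear function of time from `0` at `a` to `1` at `b`, clamped. -/
noncomputable def lin01 (a b : ℝ) : Ct :=
  BoundedContinuousFunction.ofNormedAddCommGroup
    (fun t => (((clp a b t - a) / (b - a) : ℝ) : ℂ))
    (Complex.continuous_ofReal.comp (((clp_continuous a b).sub continuous_const).div_const _))
    (|(b - a)| / |(b - a)|) (by
      intro t
      rw [Complex.norm_real, Real.norm_eq_abs, abs_div]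
      refine div_le_div_of_nonneg_right ?_ (abs_nonneg _)
      unfold clp
      rcases le_total a (min b t) with h | h
      · rw [max_eq_right h, abs_of_nonneg (by linarith)]
        exact (by linarith [min_le_left b t] : min b t - a ≤ b - a).trans (le_abs_self _)
      · rw [max_eq_left h]; simp)

/-- The data on the final interval (no wave), `E1 = E(tb)`. -/
noncomputable def SB.finD (P : SB) (ζ E q : Vec) (Q : Mat) : Dat where
  κ := P.d.κ
  i := P.d.i
  ξ := nX P.d ζ
  U := nV P.d ζ E
  v := fun a => nV P.d ζ E a - cst (lin01 P.ta P.tb) * mulv (FF P.d ζ) (fun j => frz P.tb (E j)) a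
  p := comp P.d.κ ζ P.d.p + pot P.d.κ q
  R := Q

end ES
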