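import Pool.Agent.ES.Ifc
import Pool.Agent.ES.V04
import Pool.Agent.ES.XDef

/-!
ES-BRep: representations of fields: evaluation at frozen/clamped times, gluing.
-/

open scoped BoundedContinuousFunction

namespace ES

theorem evR_frz (κ : Kp) (f : WT) (z : Fin 2 → ℝ) (t t' : ℝ) :
    evR κ (frz t f) z t' = evR κ f z t := rfl

private theorem brep_clp {s t' t : ℝ} (ht : t ∈ Set.Icc s t') : clp s t' t = t := by
  unfold clp
  rw [min_eq_right ht.2, max_eq_right ht.1]

theorem evR_tcl (κ : Kp) (f : WT) (z : Fin 2 → ℝ) {s t' t : ℝ} (ht : t ∈ Set.Icc s t') :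
    evR κ (tcl s t' f) z t = evR κ f z t := by
  have h1 : evR κ (tcl s t' f) z t = evR κ f z (clp s t' t) := rfl
  rw [h1, brep_clp ht]

private theorem brep_kap (κ : Kp) (i : ℕ) (k : Fin 2 → ℤ) (a : Fin 2) {ν : Gx} (h : ν i = 0) :
    kap (upd κ i k) a ν = kap κ a ν := by
  unfold kap Finsupp.sum
  refine Finset.sum_congr rfl fun j hj => ?_
  have hji : j ≠ i := by
    rintro rfl
    exact (Finsupp.mem_support_iff.mp hj) h
  change ν j * Function.update (κ.k a) i (k a) j = ν j * κ.k a j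
  rw [Function.update_of_ne hji]

/-- The frequency of a variable which does not occur is irrelevant. -/
theorem evR_upd (κ : Kp) (i : ℕ) (k : Fin 2 → ℤ) (hκ : ∀ a, κ.k a i = 0) {f : WT}
    (hf : osc i f = 0) (z : Fin 2 → ℝ) (t : ℝ) : evR (upd κ i k) f z t = evR κ f z t := by
  have h0 : ∀ ν : Gx, ν i ≠ 0 → f.co ν = 0 := by
    intro ν hν
    have h1 : (osc i f).co ν = 0 := by rw [hf]; rfl
    have h2 : (osc i f).co ν = (if ν i = 0 then (0 : ℂ) else 1) • f.co ν := rfl
    rw [h2, if_neg hν, one_smul] at h1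
    exact h1
  unfold evR ev
  congr 1
  refine tsum_congr fun ν => ?_
  by_cases hν : ν i = 0
  · rw [brep_kap κ i k 0 hν, brep_kap κ i k 1 hν]
  · rw [h0 ν hν]
    simp

theorem Rep.tcl {d : Dat} {V : Fld} {t0 t1 s t : ℝ} (h : Rep d V t0 t1) (h0 : t0 ≤ s)
    (h1 : t ≤ t1) : Rep (d.tcl s t) V s t := by
  intro u hu
  have hX : Xm (d.tcl s t) u = Xm d u := by
    funext z a
    change z a + evR d.κ (ES.tcl s t (d.ξ a)) z u = z a + evR d.κ (d.ξ a) z u
    rw [evR_tcl d.κ (d.ξ a) z hu]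
  have h2 := h u ⟨h0.trans hu.1, hu.2.trans h1⟩
  refine ⟨by rw [hX]; exact h2.1, fun z a => ?_⟩
  rw [hX, h2.2 z a]
  change _ = evR d.κ (ES.tcl s t (d.v a)) z u
  rw [evR_tcl d.κ (d.v a) z hu]

/-- `Rep` only depends on `κ`, `ξ`, `v`. -/
theorem Rep.congr_dat {d d' : Dat} {V : Fld} {t0 t1 : ℝ} (h : Rep d V t0 t1) (hκ : d'.κ = d.κ)
    (hξ : d'.ξ = d.ξ) (hv : d'.v = d.v) : Rep d' V t0 t1 := by
  intro t ht
  have hX : Xm d' t = Xm d t := by
    funext z a
    change z a + evR d'.κ (d'.ξ a) z t = z a + evR d.κ (d.ξ a) z t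
    rw [hκ, hξ]
  have h2 := h t ht
  refine ⟨by rw [hX]; exact h2.1, fun z a => ?_⟩
  rw [hX, h2.2 z a, hκ, hv]

/-- Two data with the same values at time `t`. -/
def EqAt (d d' : Dat) (t : ℝ) : Prop :=
  (∀ z a, evR d.κ (d.ξ a) z t = evR d'.κ (d'.ξ a) z t) ∧
    ∀ z a, evR d.κ (d.v a) z t = evR d'.κ (d'.v a) z t

private theorem brep_eqX {d d' : Dat} {t : ℝ} (h : EqAt d d' t) : Xm d t = Xm d' t := by
  funext z a
  change z a + evR d.κ (d.ξ a) z t = z a + evR d'.κ (d'.ξ a) z t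
  rw [h.1 z a]

/-- The field carried by the data `d` at time `t`. -/
private noncomputable def brepW (d : Dat) (x : Fin 2 → ℝ) (t : ℝ) : Fin 2 → ℝ :=
  fun a => evR d.κ (d.v a) (Function.invFun (Xm d t) x) t

private theorem brepW_apply {d : Dat} {t : ℝ} (h : Function.Bijective (Xm d t)) (z : Fin 2 → ℝ)
    (a : Fin 2) : brepW d (Xm d t z) t a = evR d.κ (d.v a) z t := by
  have h1 : Function.invFun (Xm d t) (Xm d t z) = z :=
    Function.leftInverse_invFun h.injective z
  unfold brepW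
  rw [h1]

/-- Gluing: four consecutive intervals. -/
theorem glue4 (V : Fld) (τ : ℕ → ℝ) (hτ : ∀ j < 4, τ j < τ (j + 1)) (D : ℕ → Dat)
    (hb : ∀ j < 4, ∀ t ∈ Set.Icc (τ j) (τ (j + 1)), Function.Bijective (Xm (D j) t))
    (hj : ∀ j < 3, EqAt (D j) (D (j + 1)) (τ (j + 1)))
    (h0 : ∀ z a, V (Xm (D 0) (τ 0) z) (τ 0) a = evR (D 0).κ ((D 0).v a) z (τ 0))
    (h1 : ∀ z a, V (Xm (D 3) (τ 4) z) (τ 4) a = evR (D 3).κ ((D 3).v a) z (τ 4)) :
    ∃ V' : Fld, (∀ x t, t ∉ Set.Ioo (τ 0) (τ 4) → V' x t = V x t) ∧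
      ∀ j < 4, Rep (D j) V' (τ j) (τ (j + 1)) := by
  classical
  have a0 : τ 0 < τ 1 := hτ 0 (by norm_num)
  have a1 : τ 1 < τ 2 := hτ 1 (by norm_num)
  have a2 : τ 2 < τ 3 := hτ 2 (by norm_num)
  have a3 : τ 3 < τ 4 := hτ 3 (by norm_num)
  let V' : Fld := fun x t =>
    if t ≤ τ 0 then V x t else if τ 4 ≤ t then V x t else
      if t ≤ τ 1 then brepW (D 0) x t else if t ≤ τ 2 then brepW (D 1) x t else
        if t ≤ τ 3 then brepW (D 2) x t else brepW (D 3) x t
  have v0 : ∀ x t, t ≤ τ 0 → V' x t = V x t := fun x t h => if_pos h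
  have v5 : ∀ x t, τ 4 ≤ t → V' x t = V x t := fun x t h => by
    change (if t ≤ τ 0 then V x t else if τ 4 ≤ t then V x t else _) = V x t
    rw [if_pos h]
    split_ifs <;> rfl
  have v1 : ∀ x t, τ 0 < t → t ≤ τ 1 → V' x t = brepW (D 0) x t := fun x t h h' => by
    change (if t ≤ τ 0 then V x t else if τ 4 ≤ t then V x t else
      if t ≤ τ 1 then brepW (D 0) x t else _) = _
    rw [if_neg (not_le.2 h), if_neg (not_le.2 (by linarith)), if_pos h']
  have v2 : ∀ x t, τ 1 < t → t ≤ τ 2 → V' x t = brepW (D 1) x t := fun x t h h' => by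
    change (if t ≤ τ 0 then V x t else if τ 4 ≤ t then V x t else
      if t ≤ τ 1 then brepW (D 0) x t else if t ≤ τ 2 then brepW (D 1) x t else _) = _
    rw [if_neg (not_le.2 (by linarith)), if_neg (not_le.2 (by linarith)), if_neg (not_le.2 h),
      if_pos h']
  have v3 : ∀ x t, τ 2 < t → t ≤ τ 3 → V' x t = brepW (D 2) x t := fun x t h h' => by
    change (if t ≤ τ 0 then V x t else if τ 4 ≤ t then V x t else
      if t ≤ τ 1 then brepW (D 0) x t else if t ≤ τ 2 then brepW (D 1) x t else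
        if t ≤ τ 3 then brepW (D 2) x t else _) = _
    rw [if_neg (not_le.2 (by linarith)), if_neg (not_le.2 (by linarith)),
      if_neg (not_le.2 (by linarith)), if_neg (not_le.2 h), if_pos h']
  have v4 : ∀ x t, τ 3 < t → t < τ 4 → V' x t = brepW (D 3) x t := fun x t h h' => by
    change (if t ≤ τ 0 then V x t else if τ 4 ≤ t then V x t else
      if t ≤ τ 1 then brepW (D 0) x t else if t ≤ τ 2 then brepW (D 1) x t else
        if t ≤ τ 3 then brepW (D 2) x t else brepW (D 3) x t) = _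
    rw [if_neg (not_le.2 (by linarith)), if_neg (not_le.2 h'),
      if_neg (not_le.2 (by linarith)), if_neg (not_le.2 (by linarith)), if_neg (not_le.2 h)]
  -- passing through a junction
  have key : ∀ j < 3, (∀ x, V' x (τ (j + 1)) = brepW (D j) x (τ (j + 1))) →
      ∀ z a, V' (Xm (D (j + 1)) (τ (j + 1)) z) (τ (j + 1)) a =
        evR (D (j + 1)).κ ((D (j + 1)).v a) z (τ (j + 1)) := by
    intro j hj3 hV z a
    have hE := hj j hj3
    have hlt : τ j < τ (j + 1) := hτ j (by omega)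
    rw [hV, ← brep_eqX hE, brepW_apply (hb j (by omega) _ ⟨hlt.le, le_refl _⟩), hE.2 z a]
  refine ⟨V', fun x t ht => ?_, fun j hj4 t ht => ⟨hb j hj4 t ht, fun z a => ?_⟩⟩
  · rcases le_or_gt t (τ 0) with h | h
    · exact v0 x t h
    · refine v5 x t ?_
      by_contra h2
      exact ht ⟨h, not_le.1 h2⟩
  · have hB := hb j hj4 t ht
    interval_cases j
    · rcases eq_or_lt_of_le ht.1 with h | h
      · subst h
        rw [v0 _ _ (le_refl _)]
        exact h0 z a
      · rw [v1 _ _ h ht.2]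
        exact brepW_apply hB z a
    · rcases eq_or_lt_of_le ht.1 with h | h
      · subst h
        exact key 0 (by norm_num) (fun x => v1 _ _ a0 (le_refl _)) z a
      · rw [v2 _ _ h ht.2]
        exact brepW_apply hB z a
    · rcases eq_or_lt_of_le ht.1 with h | h
      · subst h
        exact key 1 (by norm_num) (fun x => v2 _ _ a1 (le_refl _)) z a
      · rw [v3 _ _ h ht.2]
        exact brepW_apply hB z a
    · rcases eq_or_lt_of_le ht.1 with h | h
      · subst h
        exact key 2 (by norm_num) (fun x => v3 _ _ a2 (le_refl _)) z a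
      · rcases eq_or_lt_of_le ht.2 with h' | h'
        · have h4 : t = τ 4 := h'
          subst h4
          rw [v5 _ _ (le_refl _)]
          exact h1 z a
        · rw [v4 _ _ h h']
          exact brepW_apply hB z a

end ES
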