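import Pool.Agent.ES.Ifc

/-!
Project ES: one pass on a block (EW 4, Prop. 4.4), statement.
`BBlock` proves `PassStatement C1 p → BIFacts → ∃ C0, BlockStatement C0 p`.
-/

namespace ES

/-- One pass on `[t0,t1]`: three sub-blocks of length `(t1-t0)/6` (each: ramp, gap, ramp), then the
final interval `[t0+(t1-t0)/2, t1]`. -/
def PassStatement (C1 : ℝ) (p : ℕ) : Prop :=
  ∀ (V : Fld) (t0 t1 lam g σ ρ c A m w ℓr : ℝ) (L : ℕ),
    BI V t0 t1 lam g σ ρ c A →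
    0 < m → m ≤ 1 → ρ ≤ 2 → 10 * m ≤ ρ →
    1 ≤ lam → 0 < w → 0 ≤ σ → 1600 * σ ≤ w ^ 2 → lam * w ≤ g → 0 ≤ c → c ≤ 1 / 100 →
    (1 + 1 / m) * lam ≤ L → Real.exp (-(m * L / (4 * lam))) ≤ 1 / L →
    C1 * (1 + 1 / m) ^ p * (t1 - t0) * g ≤ 1 →
    0 < ℓr → 24 * ℓr ≤ t1 - t0 →
    ∃ V' : Fld,
      (∀ x t, t ∉ Set.Ioo t0 t1 → V' x t = V x t) ∧
      (∀ x t a, |V' x t a - V x t a| ≤ C1 * w) ∧
      Prt (fun s t => BI V' s t (2 * L) (C1 * (L * w + (1 + 1 / m) ^ p * g)) 0 (ρ - 8 * m)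
            (c + C1 * (1 + 1 / m) ^ p * (t1 - t0) * g)
            (A + C1 * (1 + 1 / m) ^ p * (g * w + w / ℓr)))
          (fun s t => t - s = ℓr ∧
            BI V' s t (2 * L) (C1 * (L * w + (1 + 1 / m) ^ p * g))
            (C1 * (1 + 1 / m) ^ p / L * (w / ℓr + g * w)) (ρ - 8 * m)
            (c + C1 * (1 + 1 / m) ^ p * (t1 - t0) * g)
            (A + C1 * (1 + 1 / m) ^ p * (g * w + w / ℓr)))
          (fun _ _ => False) t0 (t0 + (t1 - t0) / 2) 6 0 ∧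
      BI V' (t0 + (t1 - t0) / 2) t1 lam (g * (1 + C1 * (1 + 1 / m) ^ p * (t1 - t0) * g))
        (C1 * (1 + 1 / m) ^ p * w ^ 2 * ((t1 - t0) * g + (lam / L) ^ 2))
        (ρ - 8 * m) (c + C1 * (1 + 1 / m) ^ p * (t1 - t0) * g)
        (A + C1 * (1 + 1 / m) ^ p * (g * w + w / ℓr))

end ES
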