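import Pool.Agent.ES.V03

/-!
ES-V10 (Part II, helper27): the elementary facts `mono`, `restrict`, `congr`.

`mono`: same data; `Bd.mono`, `Bd.weaken` (constant radii, `ρ' ≤ ρ`), `KB` monotone.
`restrict`: data `d.tcl s0 s1`.  All derived quantities commute with `tcl` (`tcomp_*` lemmas of
LTime): `(d.tcl s0 s1).F a b = tcl s0 s1 (d.F a b)` etc.  `TD`: `TD.mono` and `TD.congr` (on the open
interval the clamp is the identity).  `Cl.tcl`.  Bounds `Bd.tcomp`.  `Rep`: `evR_tcomp`, `clp_of_mem`.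
-/

namespace ES

theorem fact_mono (V : Fld) (t0 t1 lam g σ ρ c A lam' g' σ' ρ' c' A' : ℝ)
    (h : BI V t0 t1 lam g σ ρ c A) (h0 : 0 < lam) (h1 : lam ≤ lam') (h2 : g ≤ g')
    (h3 : g / lam ≤ g' / lam') (h4 : σ ≤ σ') (h5 : ρ' ≤ ρ) (h6 : 0 ≤ ρ') (h7 : c ≤ c')
    (h8 : A ≤ A') : BI V t0 t1 lam' g' σ' ρ' c' A' := by
  obtain ⟨d, hd, hr⟩ := h
  have hw : ∀ {f : WT} {x y : ℝ}, Bd 0 (cr ρ) f x → x ≤ y → Bd 0 (cr ρ') f y := by
    intro f x y hf hxy
    exact (hf.weaken le_rfl fun _ => h5).mono hxy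
  have hfin : ∀ {f : WT}, Fin0 ρ f → Fin0 ρ' f := by
    rintro f ⟨y, hy⟩
    exact ⟨y, hw hy le_rfl⟩
  refine ⟨d, ?_, hr⟩
  exact
    { ht := hd.ht
      kb := fun a j => (hd.kb a j).trans h1
      k0 := hd.k0
      levξ := hd.levξ
      levU := hd.levU
      levv := hd.levv
      levp := hd.levp
      levR := hd.levR
      rξ := hd.rξ
      rU := hd.rU
      rv := hd.rv
      rp := hd.rp
      rR := hd.rR
      cξ := hd.cξ
      cU := hd.cU
      cv := hd.cv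
      cp := hd.cp
      cR := hd.cR
      fξ := fun a => hfin (hd.fξ a)
      fU := fun a => hfin (hd.fU a)
      fv := fun a => hfin (hd.fv a)
      fp := hfin hd.fp
      symm := hd.symm
      tdξ := hd.tdξ
      tdv := hd.tdv
      det := hd.det
      div := hd.div
      bF := fun a b => hw (hd.bF a b) h7
      bB := fun a => hw (hd.bB a) h3
      bG := fun a b => hw (hd.bG a b) h2
      bR := fun a b => hw (hd.bR a b) h4
      bA := fun a => hw (hd.bA a) h8 }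

theorem fact_congr (V V' : Fld) (t0 t1 lam g σ ρ c A : ℝ) (h : BI V t0 t1 lam g σ ρ c A)
    (h' : ∀ x, ∀ t ∈ Set.Icc t0 t1, V' x t = V x t) : BI V' t0 t1 lam g σ ρ c A := by
  obtain ⟨d, hd, hr⟩ := h
  refine ⟨d, hd, fun t ht => ⟨(hr t ht).1, fun z a => ?_⟩⟩
  rw [h' _ t ht]
  exact (hr t ht).2 z a

private theorem v10_add (a b : ℝ) (f h : WT) :
    ES.tcl a b (f + h) = ES.tcl a b f + ES.tcl a b h := tcomp_add _ f h

private theorem v10_neg (a b : ℝ) (f : WT) : ES.tcl a b (-f) = -ES.tcl a b f := tcomp_neg _ f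

private theorem v10_sub (a b : ℝ) (f h : WT) :
    ES.tcl a b (f - h) = ES.tcl a b f - ES.tcl a b h := tcomp_sub _ f h

private theorem v10_mul (a b : ℝ) (f h : WT) :
    ES.tcl a b (f * h) = ES.tcl a b f * ES.tcl a b h := tcomp_mul _ f h

private theorem v10_one (a b : ℝ) : ES.tcl a b 1 = 1 := tcomp_one _

private theorem v10_zero (a b : ℝ) : ES.tcl a b 0 = 0 := tcomp_zero _

private theorem v10_sum (a b : ℝ) (f : Fin 2 → WT) :
    ES.tcl a b (∑ j, f j) = ∑ j, ES.tcl a b (f j) := tcomp_sum _ _ f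

private theorem v10_D (a b : ℝ) (κ : Kp) (c : Fin 2) (f : WT) :
    ES.tcl a b (D κ c f) = D κ c (ES.tcl a b f) := tcomp_D _ κ c f

private theorem v10_F (d : Dat) (s0 s1 : ℝ) (a b : Fin 2) :
    (d.tcl s0 s1).F a b = ES.tcl s0 s1 (d.F a b) := by
  show idm a b + D d.κ b (ES.tcl s0 s1 (d.ξ a)) = ES.tcl s0 s1 (idm a b + D d.κ b (d.ξ a))
  rw [v10_add, v10_D]
  congr 1
  unfold idm
  split_ifs
  · rw [v10_one]
  · rw [v10_zero]

private theorem v10_adj (F F' : Mat) (s0 s1 : ℝ) (h : ∀ a b, F' a b = ES.tcl s0 s1 (F a b))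
    (a b : Fin 2) : adj F' a b = ES.tcl s0 s1 (adj F a b) := by
  unfold adj
  split_ifs
  · exact h _ _
  · rw [v10_neg, h]
  · rw [v10_neg, h]
  · exact h _ _

private theorem v10_M (d : Dat) (s0 s1 : ℝ) (a b : Fin 2) :
    (d.tcl s0 s1).M a b = ES.tcl s0 s1 (d.M a b) :=
  v10_adj _ _ _ _ (v10_F d s0 s1) a b

private theorem v10_B (d : Dat) (s0 s1 : ℝ) (a : Fin 2) :
    (d.tcl s0 s1).B a = ES.tcl s0 s1 (d.B a) := by
  show ∑ b, (d.tcl s0 s1).M a b * (ES.tcl s0 s1 (d.v b) - ES.tcl s0 s1 (d.U b)) =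
    ES.tcl s0 s1 (∑ b, d.M a b * (d.v b - d.U b))
  rw [v10_sum]
  refine Finset.sum_congr rfl fun b _ => ?_
  rw [v10_mul, v10_sub, v10_M]

private theorem v10_G (d : Dat) (s0 s1 : ℝ) (a b : Fin 2) :
    (d.tcl s0 s1).G a b = ES.tcl s0 s1 (d.G a b) := (v10_D s0 s1 d.κ b (d.v a)).symm

private theorem v10_acc (d : Dat) (s0 s1 : ℝ) (a : Fin 2) :
    (d.tcl s0 s1).acc a = ES.tcl s0 s1 (d.acc a) := by
  show -(∑ j, (d.tcl s0 s1).M j a * D d.κ j (ES.tcl s0 s1 d.p)) +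
      ∑ j, D d.κ j (∑ k, ES.tcl s0 s1 (d.R a k) * (d.tcl s0 s1).M j k) =
    ES.tcl s0 s1 (-(∑ j, d.M j a * D d.κ j d.p) + ∑ j, D d.κ j (∑ k, d.R a k * d.M j k))
  rw [v10_add, v10_neg, v10_sum, v10_sum]
  congr 1
  · congr 1
    refine Finset.sum_congr rfl fun j _ => ?_
    rw [v10_mul, v10_D, v10_M]
  · refine Finset.sum_congr rfl fun j _ => ?_
    rw [v10_D, v10_sum]
    congr 1
    refine Finset.sum_congr rfl fun k _ => ?_
    rw [v10_mul, v10_M]

private theorem v10_rhs (d : Dat) (s0 s1 : ℝ) (a : Fin 2) :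
    (d.tcl s0 s1).rhs a = ES.tcl s0 s1 (d.rhs a) := by
  show (d.tcl s0 s1).acc a - ∑ b, (d.tcl s0 s1).B b * D d.κ b (ES.tcl s0 s1 (d.v a)) =
    ES.tcl s0 s1 (d.acc a - ∑ b, d.B b * D d.κ b (d.v a))
  rw [v10_sub, v10_sum, v10_acc]
  congr 1
  refine Finset.sum_congr rfl fun b _ => ?_
  rw [v10_mul, v10_D, v10_B]

private theorem v10_TD {t0 t1 s0 s1 : ℝ} (h0 : t0 ≤ s0) (h2 : s1 ≤ t1) {f f' : WT}
    (h : TD t0 t1 f f') : TD s0 s1 (ES.tcl s0 s1 f) (ES.tcl s0 s1 f') := by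
  refine (h.mono h0 h2).congr (fun ν t ht => ?_) (fun ν t ht => ?_)
  · show f.co ν (clp s0 s1 t) = f.co ν t
    rw [clp_of_mem (Set.Ioo_subset_Icc_self ht)]
  · show f'.co ν (clp s0 s1 t) = f'.co ν t
    rw [clp_of_mem (Set.Ioo_subset_Icc_self ht)]

private theorem v10_lev {i : ℕ} {f : WT} (s0 s1 : ℝ) (h : Lev i f) : Lev i (ES.tcl s0 s1 f) :=
  h.tcomp _

private theorem v10_bd {ρ c : ℝ} {f : WT} (s0 s1 : ℝ) (h : Bd 0 (cr ρ) f c) :
    Bd 0 (cr ρ) (ES.tcl s0 s1 f) c := h.tcomp _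

private theorem v10_fin {ρ : ℝ} {f : WT} (s0 s1 : ℝ) (h : Fin0 ρ f) :
    Fin0 ρ (ES.tcl s0 s1 f) := by
  obtain ⟨y, hy⟩ := h
  exact ⟨y, v10_bd s0 s1 hy⟩

/-- Restriction of good data to a subinterval. -/
theorem Good.tclV {d : Dat} {t0 t1 lam g σ ρ c A : ℝ} (h : Good d t0 t1 lam g σ ρ c A) {s0 s1 : ℝ}
    (h0 : t0 ≤ s0) (h1 : s0 < s1) (h2 : s1 ≤ t1) : Good (d.tcl s0 s1) s0 s1 lam g σ ρ c A := by
  exact
    { ht := h1
      kb := h.kb
      k0 := h.k0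
      levξ := fun a => v10_lev s0 s1 (h.levξ a)
      levU := fun a => v10_lev s0 s1 (h.levU a)
      levv := fun a => v10_lev s0 s1 (h.levv a)
      levp := v10_lev s0 s1 h.levp
      levR := fun a b => v10_lev s0 s1 (h.levR a b)
      rξ := fun a => (h.rξ a).tcl
      rU := fun a => (h.rU a).tcl
      rv := fun a => (h.rv a).tcl
      rp := h.rp.tcl
      rR := fun a b => (h.rR a b).tcl
      cξ := fun a => Cl.tcl h1.le (d.ξ a)
      cU := fun a => Cl.tcl h1.le (d.U a)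
      cv := fun a => Cl.tcl h1.le (d.v a)
      cp := Cl.tcl h1.le d.p
      cR := fun a b => Cl.tcl h1.le (d.R a b)
      fξ := fun a => v10_fin s0 s1 (h.fξ a)
      fU := fun a => v10_fin s0 s1 (h.fU a)
      fv := fun a => v10_fin s0 s1 (h.fv a)
      fp := v10_fin s0 s1 h.fp
      symm := fun a b => congrArg (ES.tcl s0 s1) (h.symm a b)
      tdξ := fun a => v10_TD h0 h2 (h.tdξ a)
      tdv := fun a => by
        rw [v10_rhs]
        exact v10_TD h0 h2 (h.tdv a)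
      det := by
        have h3 := congrArg (ES.tcl s0 s1) h.det
        unfold det2 at h3 ⊢
        rw [v10_sub, v10_mul, v10_mul, v10_one] at h3
        rw [v10_F, v10_F, v10_F, v10_F]
        exact h3
      div := by
        have h3 := congrArg (ES.tcl s0 s1) h.div
        unfold dvg at h3 ⊢
        rw [v10_sum, v10_zero] at h3
        rw [← h3]
        refine Finset.sum_congr rfl fun a _ => ?_
        rw [v10_D, v10_B]
        rfl
      bF := fun a b => by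
        have h3 := v10_bd s0 s1 (h.bF a b)
        have e : grad (d.tcl s0 s1).κ (d.tcl s0 s1).ξ a b = ES.tcl s0 s1 (grad d.κ d.ξ a b) :=
          (v10_D s0 s1 d.κ b (d.ξ a)).symm
        rw [e]
        exact h3
      bB := fun a => by
        rw [v10_B]
        exact v10_bd s0 s1 (h.bB a)
      bG := fun a b => by
        rw [v10_G]
        exact v10_bd s0 s1 (h.bG a b)
      bR := fun a b => v10_bd s0 s1 (h.bR a b)
      bA := fun a => by
        rw [v10_acc]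
        exact v10_bd s0 s1 (h.bA a) }

private theorem v10_evR (κ : Kp) (f : WT) (z : Fin 2 → ℝ) {s0 s1 t : ℝ}
    (ht : t ∈ Set.Icc s0 s1) : evR κ (ES.tcl s0 s1 f) z t = evR κ f z t := by
  have h : evR κ (ES.tcl s0 s1 f) z t = evR κ f z (clp s0 s1 t) :=
    congrArg Complex.re (ev_tcomp κ ⟨clp s0 s1, clp_continuous s0 s1⟩ f z t)
  rw [h, clp_of_mem ht]

theorem fact_restrict (V : Fld) (t0 t1 s0 s1 lam g σ ρ c A : ℝ)
    (h : BI V t0 t1 lam g σ ρ c A) (h0 : t0 ≤ s0) (h1 : s0 < s1) (h2 : s1 ≤ t1) :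
    BI V s0 s1 lam g σ ρ c A := by
  obtain ⟨d, hd, hr⟩ := h
  refine ⟨d.tcl s0 s1, hd.tclV h0 h1 h2, fun t ht => ?_⟩
  have ht' : t ∈ Set.Icc t0 t1 := ⟨h0.trans ht.1, ht.2.trans h2⟩
  have e : Xm (d.tcl s0 s1) t = Xm d t := by
    funext z a
    show z a + evR d.κ (ES.tcl s0 s1 (d.ξ a)) z t = z a + evR d.κ (d.ξ a) z t
    rw [v10_evR _ _ _ ht]
  refine ⟨by rw [e]; exact (hr t ht').1, fun z a => ?_⟩
  rw [e, (hr t ht').2 z a]
  exact (v10_evR d.κ (d.v a) z ht).symm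

end ES
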