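import Pool.Agent.ES.BCore
import Pool.Agent.ES.BRep
import Pool.Agent.ES.Ifp
import Pool.Agent.ES.V10

/-!
ES-BPa: master data of a pass and their values at the junctions (EW 4, Prop. 4.4).
-/

open scoped BoundedContinuousFunction

namespace ES

/-- Master data of the pass: coordinates `nX`, velocity `nu'` (`j < 3`), final interval (`j = 3`). -/
noncomputable def DM (d : Dat) (t0 t1 ℓr : ℝ) (L : ℕ) (b : ℕ → WT) (ζ E W : ℕ → Vec) (j : ℕ) : Dat :=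
  if j < 3 then
    { κ := (PS d t0 t1 ℓr L b ζ E j).κ'
      i := d.i + 1
      ξ := nX (PS d t0 t1 ℓr L b ζ E j).d (ζ j)
      U := nV (PS d t0 t1 ℓr L b ζ E j).d (ζ j) (E j)
      v := nu' (PS d t0 t1 ℓr L b ζ E j).d (ζ j) (E j) (W j)
      p := 0
      R := 0 }
  else
    { κ := d.κ
      i := d.i
      ξ := nX (PS d t0 t1 ℓr L b ζ E j).d (ζ j)
      U := nV (PS d t0 t1 ℓr L b ζ E j).d (ζ j) (E j)
      v := fun a => nV (PS d t0 t1 ℓr L b ζ E j).d (ζ j) (E j) a -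
        cst (lin01 (tau t0 t1 j) (tau t0 t1 (j + 1))) *
          mulv (FF (PS d t0 t1 ℓr L b ζ E j).d (ζ j))
            (fun k => frz (tau t0 t1 (j + 1)) (E j k)) a
      p := 0
      R := 0 }

/-! ### auxiliary facts -/

private theorem BPa_tau0 (t0 t1 : ℝ) : tau t0 t1 0 = t0 := by
  unfold tau
  rw [if_pos (by norm_num)]
  simp

private theorem BPa_tau4 (t0 t1 : ℝ) : tau t0 t1 (3 + 1) = t1 := by
  unfold tau
  rw [if_neg (by norm_num)]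

private theorem BPa_tau_le (t0 t1 : ℝ) (h : t0 ≤ t1) (j : ℕ) :
    t0 ≤ tau t0 t1 j ∧ tau t0 t1 j ≤ t1 := by
  unfold tau
  split_ifs with hj
  · have h1 : (0 : ℝ) ≤ j := Nat.cast_nonneg j
    have h2 : (j : ℝ) ≤ 3 := by exact_mod_cast hj
    constructor
    · nlinarith
    · nlinarith
  · exact ⟨h, le_rfl⟩

private theorem BPa_frz_cst_zero {φ : Ct} {t : ℝ} (h : φ t = 0) (f : WT) :
    ES.frz t (cst φ * f) = 0 := by
  apply WT.ext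
  funext ν
  ext s
  rw [frz_co, cst_mul_co]
  show φ t * f.co ν t = 0
  rw [h, zero_mul]

private theorem BPa_frz_cst_one {φ : Ct} {t : ℝ} (h : φ t = 1) (f : WT) :
    ES.frz t (cst φ * f) = ES.frz t f := by
  apply WT.ext
  funext ν
  ext s
  rw [frz_co, cst_mul_co, frz_co]
  show φ t * f.co ν t = f.co ν t
  rw [h, one_mul]

private theorem BPa_frz_tcl {s t τ : ℝ} (h : τ ∈ Set.Icc s t) (f : WT) :
    ES.frz τ (ES.tcl s t f) = ES.frz τ f := by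
  apply WT.ext
  funext ν
  ext x
  rw [frz_co, frz_co]
  show f.co ν (clp s t τ) = f.co ν τ
  rw [clp_of_mem h]

private theorem BPa_frz_add (τ : ℝ) (f g : WT) : ES.frz τ (f + g) = ES.frz τ f + ES.frz τ g :=
  tcomp_add _ f g

private theorem BPa_frz_sub (τ : ℝ) (f g : WT) : ES.frz τ (f - g) = ES.frz τ f - ES.frz τ g :=
  tcomp_sub _ f g

private theorem BPa_frz_mul (τ : ℝ) (f g : WT) : ES.frz τ (f * g) = ES.frz τ f * ES.frz τ g :=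
  tcomp_mul _ f g

private theorem BPa_frz_mulv (τ : ℝ) (F : Mat) (x : Vec) (a : Fin 2) :
    ES.frz τ (mulv F x a) = ∑ b, ES.frz τ (F a b) * ES.frz τ (x b) := by
  unfold mulv
  rw [show ES.frz τ (∑ b, F a b * x b) = ∑ b, ES.frz τ (F a b * x b) from tcomp_sum _ _ _]
  exact Finset.sum_congr rfl fun b _ => BPa_frz_mul τ _ _

private theorem BPa_trap_left (ta s1 s2 tb : ℝ) : trap ta s1 s2 tb ta = 0 := by
  rw [trap_apply]
  unfold trapR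
  rw [sub_self, zero_div, max_eq_left]
  · simp
  · exact (min_le_right _ _).trans (min_le_left _ _)

private theorem BPa_trap_right (ta s1 s2 tb : ℝ) : trap ta s1 s2 tb tb = 0 := by
  rw [trap_apply]
  unfold trapR
  rw [sub_self, zero_div, max_eq_left]
  · simp
  · exact (min_le_right _ _).trans (min_le_right _ _)

private theorem BPa_lin_left {ta tb : ℝ} (h : ta ≤ tb) : lin01 ta tb ta = 0 := by
  show (((clp ta tb ta - ta) / (tb - ta) : ℝ) : ℂ) = 0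
  rw [clp_of_mem ⟨le_rfl, h⟩, sub_self, zero_div]
  simp

private theorem BPa_lin_right {ta tb : ℝ} (h : ta < tb) : lin01 ta tb tb = 1 := by
  show (((clp ta tb tb - ta) / (tb - ta) : ℝ) : ℂ) = 1
  rw [clp_of_mem ⟨h.le, le_rfl⟩, div_self (by linarith)]
  simp

private theorem BPa_lin_norm {ta tb : ℝ} (h : ta < tb) (t : ℝ) : ‖lin01 ta tb t‖ ≤ 1 := by
  show ‖(((clp ta tb t - ta) / (tb - ta) : ℝ) : ℂ)‖ ≤ 1
  obtain ⟨h1, h2⟩ := clp_mem h.le t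
  have h3 : 0 < tb - ta := by linarith
  rw [Complex.norm_real, Real.norm_eq_abs, abs_of_nonneg (div_nonneg (by linarith) h3.le),
    div_le_one h3]
  linarith

section
variable {d : Dat} {V : Fld} {t0 t1 lam g σ ρ c A m w ℓr : ℝ} {L : ℕ} {b : ℕ → WT}
  {ζ E W a q : ℕ → Vec} {Ψ1 : WT}

/-- radius -/
private theorem BPa_Bd {P : SB} {ρ0 η : ℝ} (HS : SBH P lam g σ ρ c A ρ0 m w η) {f : WT} {e : ℝ}
    (hf : Bd 0 (cr ρ) f e) : Bd 0 (fun t => P.r ρ0 m t + m) f e := by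
  refine Bd.of_cr hf fun t => ?_
  have h1 : P.r ρ0 m t ≤ ρ0 := rad_le HS.good.ht HS.hm.le t
  linarith [HS.hρ1, HS.hm]

private theorem BPa_frz_comp {P : SB} {ρ0 η : ℝ} {ζ' E' W' a' q' : Vec}
    (HS : SBH P lam g σ ρ c A ρ0 m w η) (S : SB0 P lam g ρ0 m w ζ' E' W' a' q') {f : WT}
    (hf : Fin0 ρ f) (τ : ℝ) :
    ES.frz τ (comp P.d.κ ζ' f) = comp P.d.κ (fun a => ES.frz τ (ζ' a)) (ES.frz τ f) := by
  obtain ⟨e, he⟩ := hf
  exact tcomp_comp (HS.dh.ch (SB0.bh HS S).z) (BPa_Bd HS he) _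

private theorem BPa_frz_nX (H : Pass d t0 t1 lam g σ ρ c A m w ℓr L b ζ E W a q Ψ1) {j : ℕ}
    (hj : j < 4) {τ : ℝ} (hτ : τ ∈ Set.Icc (tau t0 t1 j) (tau t0 t1 (j + 1))) (k : Fin 2) :
    ES.frz τ (nX (PS d t0 t1 ℓr L b ζ E j).d (ζ j) k) = ES.frz τ (ζ j k) +
      comp d.κ (fun a => ES.frz τ (ζ j a)) (ES.frz τ (d.ξ k)) := by
  obtain ⟨η, HS, S, -⟩ := H.H j hj
  have h1 := BPa_frz_comp HS S (HS.good.fξ k) τ
  have h2 : ES.frz τ ((PS d t0 t1 ℓr L b ζ E j).d.ξ k) = ES.frz τ (d.ξ k) := BPa_frz_tcl hτ _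
  rw [h2] at h1
  unfold nX
  rw [BPa_frz_add, h1]
  rfl

private theorem BPa_frz_vz (H : Pass d t0 t1 lam g σ ρ c A m w ℓr L b ζ E W a q Ψ1) {j : ℕ}
    (hj : j < 4) {τ : ℝ} (hτ : τ ∈ Set.Icc (tau t0 t1 j) (tau t0 t1 (j + 1))) (k : Fin 2) :
    ES.frz τ (vz (PS d t0 t1 ℓr L b ζ E j).d (ζ j) k) =
      comp d.κ (fun a => ES.frz τ (ζ j a)) (ES.frz τ (d.v k)) := by
  obtain ⟨η, HS, S, -⟩ := H.H j hj
  have h1 := BPa_frz_comp HS S (HS.good.fv k) τ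
  have h2 : ES.frz τ ((PS d t0 t1 ℓr L b ζ E j).d.v k) = ES.frz τ (d.v k) := BPa_frz_tcl hτ _
  rw [h2] at h1
  exact h1

private theorem BPa_zeta_left (H : Pass d t0 t1 lam g σ ρ c A m w ℓr L b ζ E W a q Ψ1) {j : ℕ}
    (hj : j < 4) (k : Fin 2) :
    ES.frz (tau t0 t1 j) (ζ j k) = pv (tau t0 t1 j) ζ j k := by
  obtain ⟨η, HS, S, -⟩ := H.H j hj
  rw [S.sol.hζ k, BPa_frz_add, HS.zt k]
  have h : ES.frz (tau t0 t1 j) (intg (PS d t0 t1 ℓr L b ζ E j).ta (PS d t0 t1 ℓr L b ζ E j).tb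
      (comp (PS d t0 t1 ℓr L b ζ E j).d.κ (ζ j) ((PS d t0 t1 ℓr L b ζ E j).d.B k) +
        mulv (Pm (PS d t0 t1 ℓr L b ζ E j).d (ζ j)) (E j) k)) = 0 :=
    intg_at_left HS.good.ht.le _
  rw [h, add_zero]
  rfl

private theorem BPa_E_left (H : Pass d t0 t1 lam g σ ρ c A m w ℓr L b ζ E W a q Ψ1) {j : ℕ}
    (hj : j < 4) (k : Fin 2) :
    ES.frz (tau t0 t1 j) (E j k) = pv (tau t0 t1 j) E j k := by
  obtain ⟨η, HS, S, -⟩ := H.H j hj
  rw [S.sol.hE k, BPa_frz_add, HS.et k]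
  have h : ES.frz (tau t0 t1 j) (intg (PS d t0 t1 ℓr L b ζ E j).ta (PS d t0 t1 ℓr L b ζ E j).tb
      (mean (PS d t0 t1 ℓr L b ζ E j).d.i (a j k))) = 0 :=
    intg_at_left HS.good.ht.le _
  rw [h, add_zero]
  rfl

private theorem BPa_W_left (H : Pass d t0 t1 lam g σ ρ c A m w ℓr L b ζ E W a q Ψ1) {j : ℕ}
    (hj : j < 4) (k : Fin 2) : ES.frz (tau t0 t1 j) (W j k) = 0 := by
  obtain ⟨η, HS, S, -⟩ := H.H j hj
  rw [S.sol.hW k]
  exact BPa_frz_cst_zero (BPa_trap_left _ _ _ _) _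

private theorem BPa_W_right (H : Pass d t0 t1 lam g σ ρ c A m w ℓr L b ζ E W a q Ψ1) {j : ℕ}
    (hj : j < 4) (k : Fin 2) : ES.frz (tau t0 t1 (j + 1)) (W j k) = 0 := by
  obtain ⟨η, HS, S, -⟩ := H.H j hj
  rw [S.sol.hW k]
  exact BPa_frz_cst_zero (BPa_trap_right _ _ _ _) _

private theorem BPa_mulv_zero {τ : ℝ} (F : Mat) {x : Vec} (hx : ∀ k, ES.frz τ (x k) = 0)
    (k : Fin 2) : ES.frz τ (mulv F x k) = 0 := by
  rw [BPa_frz_mulv]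
  refine Finset.sum_eq_zero fun b _ => ?_
  rw [hx b, mul_zero]

/-- Left value of the master velocity. -/
private theorem BPa_v_left (H : Pass d t0 t1 lam g σ ρ c A m w ℓr L b ζ E W a q Ψ1) {j : ℕ}
    (hj : j < 4) (k : Fin 2) :
    ES.frz (tau t0 t1 j) ((DM d t0 t1 ℓr L b ζ E W j).v k) =
      ES.frz (tau t0 t1 j) (nV (PS d t0 t1 ℓr L b ζ E j).d (ζ j) (E j) k) := by
  unfold DM
  split_ifs with h3
  · show ES.frz (tau t0 t1 j) (nV (PS d t0 t1 ℓr L b ζ E j).d (ζ j) (E j) k +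
      mulv (FF (PS d t0 t1 ℓr L b ζ E j).d (ζ j)) (W j) k) = _
    rw [BPa_frz_add, BPa_mulv_zero _ (BPa_W_left H hj), add_zero]
  · obtain ⟨η, HS, S, -⟩ := H.H j hj
    have ht : tau t0 t1 j < tau t0 t1 (j + 1) := HS.good.ht
    show ES.frz (tau t0 t1 j) (nV (PS d t0 t1 ℓr L b ζ E j).d (ζ j) (E j) k -
        cst (lin01 (tau t0 t1 j) (tau t0 t1 (j + 1))) *
          mulv (FF (PS d t0 t1 ℓr L b ζ E j).d (ζ j))
            (fun k => ES.frz (tau t0 t1 (j + 1)) (E j k)) k) = _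
    rw [BPa_frz_sub, BPa_frz_cst_zero (BPa_lin_left ht.le), sub_zero]

/-- Right value of the master velocity. -/
private theorem BPa_v_right (H : Pass d t0 t1 lam g σ ρ c A m w ℓr L b ζ E W a q Ψ1) {j : ℕ}
    (hj : j < 3) (k : Fin 2) :
    ES.frz (tau t0 t1 (j + 1)) ((DM d t0 t1 ℓr L b ζ E W j).v k) =
      ES.frz (tau t0 t1 (j + 1)) (nV (PS d t0 t1 ℓr L b ζ E j).d (ζ j) (E j) k) := by
  unfold DM
  rw [if_pos hj]
  show ES.frz (tau t0 t1 (j + 1)) (nV (PS d t0 t1 ℓr L b ζ E j).d (ζ j) (E j) k +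
      mulv (FF (PS d t0 t1 ℓr L b ζ E j).d (ζ j)) (W j) k) = _
  rw [BPa_frz_add, BPa_mulv_zero _ (BPa_W_right H (by omega)), add_zero]

private theorem BPa_xi (j : ℕ) (k : Fin 2) :
    (DM d t0 t1 ℓr L b ζ E W j).ξ k = nX (PS d t0 t1 ℓr L b ζ E j).d (ζ j) k := by
  unfold DM
  split_ifs <;> rfl

/-- The frequency of the new variable is not seen by elements of level `i`. -/
private theorem BPa_evR (G : Good d t0 t1 lam g σ ρ c A) (j : ℕ) {f : WT} (hf : Lev d.i f)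
    (z : Fin 2 → ℝ) (t : ℝ) : evR (DM d t0 t1 ℓr L b ζ E W j).κ f z t = evR d.κ f z t := by
  unfold DM
  split_ifs
  · exact evR_upd d.κ d.i _ (fun a => G.k0 a d.i le_rfl) (hf.osc le_rfl) z t
  · rfl

private theorem BPa_lev (H : Pass d t0 t1 lam g σ ρ c A m w ℓr L b ζ E W a q Ψ1) {j : ℕ}
    (hj : j < 4) (k : Fin 2) : Lev d.i (nX (PS d t0 t1 ℓr L b ζ E j).d (ζ j) k) ∧
      Lev d.i (nV (PS d t0 t1 ℓr L b ζ E j).d (ζ j) (E j) k) ∧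
      Lev d.i (vz (PS d t0 t1 ℓr L b ζ E j).d (ζ j) k) := by
  obtain ⟨η, HS, S, -⟩ := H.H j hj
  obtain ⟨h1, h2, -, -, h3, -⟩ := new_lev HS S k
  refine ⟨h1, h2, ?_⟩
  have h4 : vz (PS d t0 t1 ℓr L b ζ E j).d (ζ j) k =
      nV (PS d t0 t1 ℓr L b ζ E j).d (ζ j) (E j) k -
        mulv (FF (PS d t0 t1 ℓr L b ζ E j).d (ζ j)) (E j) k := by
    unfold nV
    ring
  rw [h4]
  refine Lev.sub h2 ?_
  unfold mulv
  exact Lev.sum _ fun l _ => Lev.mul (h3 l).1 (S.lE l)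

private theorem BPa_evR_frz (G : Good d t0 t1 lam g σ ρ c A) (j : ℕ) {f h : WT} {τ : ℝ}
    (hf : Lev d.i h) (e : ES.frz τ f = ES.frz τ h) (z : Fin 2 → ℝ) :
    evR (DM d t0 t1 ℓr L b ζ E W j).κ f z τ = evR d.κ (ES.frz τ h) z τ := by
  have h1 : Lev d.i (ES.frz τ h) := hf.tcomp _
  rw [← evR_frz (DM d t0 t1 ℓr L b ζ E W j).κ f z τ τ, e]
  exact BPa_evR G j h1 z τ

/-- The coordinate map and the old velocity along it. -/
private theorem BPa_comp_ev (H : Pass d t0 t1 lam g σ ρ c A m w ℓr L b ζ E W a q Ψ1) {j : ℕ}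
    (hj : j < 4) {f : WT} (hf : Fin0 ρ (ES.tcl (tau t0 t1 j) (tau t0 t1 (j + 1)) f)) {t : ℝ}
    (ht : t ∈ Set.Icc (tau t0 t1 j) (tau t0 t1 (j + 1))) (z : Fin 2 → ℝ) :
    evR d.κ (comp d.κ (ζ j) (ES.tcl (tau t0 t1 j) (tau t0 t1 (j + 1)) f)) z t =
      evR d.κ f (fun a => z a + evR d.κ (ζ j a) z t) t := by
  obtain ⟨η, HS, S, -⟩ := H.H j hj
  obtain ⟨e, he⟩ := hf
  have h1 := ev_comp (HS.dh.ch (SB0.bh HS S).z) S.rζ (BPa_Bd HS he) z t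
  have h2 := congrArg Complex.re h1
  exact h2.trans (evR_tcl d.κ f _ ht)

private theorem BPa_Xm (G : Good d t0 t1 lam g σ ρ c A)
    (H : Pass d t0 t1 lam g σ ρ c A m w ℓr L b ζ E W a q Ψ1) {j : ℕ} (hj : j < 4) {t : ℝ}
    (ht : t ∈ Set.Icc (tau t0 t1 j) (tau t0 t1 (j + 1))) (z : Fin 2 → ℝ) :
    Xm (DM d t0 t1 ℓr L b ζ E W j) t z = Xm d t (fun a => z a + evR d.κ (ζ j a) z t) := by
  obtain ⟨η, HS, S, -⟩ := H.H j hj
  funext k
  show z k + evR (DM d t0 t1 ℓr L b ζ E W j).κ ((DM d t0 t1 ℓr L b ζ E W j).ξ k) z t =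
    (z k + evR d.κ (ζ j k) z t) + evR d.κ (d.ξ k) (fun a => z a + evR d.κ (ζ j a) z t) t
  rw [BPa_xi, BPa_evR G j (BPa_lev H hj k).1]
  have h1 : evR d.κ (nX (PS d t0 t1 ℓr L b ζ E j).d (ζ j) k) z t = evR d.κ (ζ j k) z t +
      evR d.κ (comp d.κ (ζ j) (ES.tcl (tau t0 t1 j) (tau t0 t1 (j + 1)) (d.ξ k))) z t :=
    evR_add d.κ _ _ z t
  rw [h1, BPa_comp_ev H hj (HS.good.fξ k) ht z]
  ring

private theorem BPa_V (G : Good d t0 t1 lam g σ ρ c A) (hR : Rep d V t0 t1)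
    (H : Pass d t0 t1 lam g σ ρ c A m w ℓr L b ζ E W a q Ψ1) {j : ℕ} (hj : j < 4) {t : ℝ}
    (ht : t ∈ Set.Icc (tau t0 t1 j) (tau t0 t1 (j + 1))) (z : Fin 2 → ℝ) (k : Fin 2) :
    V (Xm (DM d t0 t1 ℓr L b ζ E W j) t z) t k =
      evR (DM d t0 t1 ℓr L b ζ E W j).κ (vz (PS d t0 t1 ℓr L b ζ E j).d (ζ j) k) z t := by
  have ht' : t ∈ Set.Icc t0 t1 :=
    ⟨(BPa_tau_le t0 t1 G.ht.le j).1.trans ht.1, ht.2.trans (BPa_tau_le t0 t1 G.ht.le (j + 1)).2⟩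
  obtain ⟨η, HS, S, -⟩ := H.H j hj
  rw [BPa_Xm G H hj ht, (hR t ht').2, BPa_evR G j (BPa_lev H hj k).2.2]
  exact (BPa_comp_ev H hj (HS.good.fv k) ht z).symm

private theorem BPa_small {m g t0 t1 K : ℝ} (hK : K = 1 + 1 / m) (hm : 0 < m) (hg : 0 ≤ g)
    (hT : 0 ≤ t1 - t0) (hh : 10 ^ 15 * (1 + 1 / m) ^ 5 * (t1 - t0) * g ≤ 1) :
    10 ^ 8 * K ^ 2 * (t1 - t0) * g ≤ 1 / 10 ^ 7 ∧ 0 ≤ 10 ^ 8 * K ^ 2 * (t1 - t0) * g := by
  have hK1 : 1 ≤ K := by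
    rw [hK]
    have : 0 < 1 / m := by positivity
    linarith
  rw [← hK] at hh
  obtain ⟨x, hx⟩ : ∃ x : ℝ, x = (t1 - t0) * g := ⟨_, rfl⟩
  have hx0 : 0 ≤ x := by
    rw [hx]
    exact mul_nonneg hT hg
  have h1 : K ^ 2 ≤ K ^ 5 := pow_le_pow_right₀ hK1 (by norm_num)
  have h3 : K ^ 2 * x ≤ K ^ 5 * x := mul_le_mul_of_nonneg_right h1 hx0
  have h4 : 10 ^ 15 * K ^ 5 * (t1 - t0) * g = 10 ^ 15 * (K ^ 5 * x) := by
    rw [hx]
    ring
  have h5 : 10 ^ 8 * K ^ 2 * (t1 - t0) * g = 10 ^ 8 * (K ^ 2 * x) := by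
    rw [hx]
    ring
  rw [h4] at hh
  rw [h5]
  constructor
  · linarith
  · have h6 : 0 ≤ K ^ 2 * x := by positivity
    linarith

private theorem BPa_small2 {u c : ℝ} (h1 : u ≤ 1 / 10 ^ 7) (h2 : 0 ≤ u) (h3 : 0 ≤ c)
    (h4 : c ≤ 1 / 100) : c + u * (1 + 2 * c) ≤ 1 / 10 := by
  have h5 : u * (1 + 2 * c) ≤ u * 2 := mul_le_mul_of_nonneg_left (by linarith) h2
  have h6 : (1 : ℝ) / 10 ^ 7 ≤ 1 / 100 := by norm_num
  linarith

private theorem BPa_xiF (j : ℕ) :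
    (DM d t0 t1 ℓr L b ζ E W j).ξ = nX (PS d t0 t1 ℓr L b ζ E j).d (ζ j) :=
  funext fun k => BPa_xi j k

private theorem BPa_kapA {j : ℕ} (hj : j < 3) :
    (DM d t0 t1 ℓr L b ζ E W j).κ = (PS d t0 t1 ℓr L b ζ E j).κ' := by
  unfold DM
  rw [if_pos hj]

private theorem BPa_kapB {j : ℕ} (hj : ¬ j < 3) :
    (DM d t0 t1 ℓr L b ζ E W j).κ = (PS d t0 t1 ℓr L b ζ E j).d.κ := by
  unfold DM
  rw [if_neg hj]
  rfl

private theorem BPa_gradbd (hm : 0 < m)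
    (H : Pass d t0 t1 lam g σ ρ c A m w ℓr L b ζ E W a q Ψ1) {j : ℕ} (hj : j < 4) {y : ℝ}
    (hY : ∀ k, Bd 1 ((PS d t0 t1 ℓr L b ζ E j).r (ρ - (j + 2) * m) m) (ζ j k) y)
    (k l : Fin 2) : Bd 0 (cr (ρ - (j + 2) * m - m))
      (grad (DM d t0 t1 ℓr L b ζ E W j).κ (DM d t0 t1 ℓr L b ζ E W j).ξ k l)
      (c + lam * y * (1 + 2 * c)) := by
  obtain ⟨η, HS, S, -⟩ := H.H j hj
  have h1 := new_bF HS S hY k l
  rw [BPa_xiF]
  by_cases h3 : j < 3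
  · rw [BPa_kapA h3]
    exact Bd.to_cr h1.2 fun t => le_rad HS.good.ht hm.le t
  · rw [BPa_kapB h3]
    exact Bd.to_cr h1.1 fun t => le_rad HS.good.ht hm.le t

/-- Smallness used everywhere: `y (1+2c) lam ≤ 10^-6`. -/
theorem DM_bij (G : Good d t0 t1 lam g σ ρ c A) (hm : 0 < m) (hρ0 : 10 * m ≤ ρ) (hc : c ≤ 1 / 100)
    (hh : 10 ^ 15 * (1 + 1 / m) ^ 5 * (t1 - t0) * g ≤ 1)
    (H : Pass d t0 t1 lam g σ ρ c A m w ℓr L b ζ E W a q Ψ1) (j : ℕ) (hj : j < 4) (t : ℝ) :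
    Function.Bijective (Xm (DM d t0 t1 ℓr L b ζ E W j) t) := by
  obtain ⟨η, HS, S, -⟩ := H.H j hj
  have hjr : (j : ℝ) ≤ 3 := by exact_mod_cast Nat.lt_succ_iff.1 hj
  have hjm : (j : ℝ) * m ≤ 3 * m := mul_le_mul_of_nonneg_right hjr hm.le
  have hrad : 0 ≤ ρ - (j + 2) * m - m := by linarith
  have hlam : 0 < lam := by linarith [HS.hlam]
  have hg : 0 ≤ g := HS.dh.hg
  have hc0 : 0 ≤ c := HS.dh.hc0
  have hT : 0 ≤ t1 - t0 := by linarith [G.ht]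
  obtain ⟨y, hy⟩ : ∃ y : ℝ, y = 10 ^ 8 * (1 + 1 / m) ^ 2 * (t1 - t0) * g / lam := ⟨_, rfl⟩
  have hly : lam * y = 10 ^ 8 * (1 + 1 / m) ^ 2 * (t1 - t0) * g := by
    rw [hy, mul_div_cancel₀ _ hlam.ne']
  have hsm := BPa_small rfl hm hg hT hh
  rw [← hly] at hsm
  have hc' : c + lam * y * (1 + 2 * c) ≤ 1 / 10 := BPa_small2 hsm.1 hsm.2 hc0 hc
  have hY : ∀ k, Bd 1 ((PS d t0 t1 ℓr L b ζ E j).r (ρ - (j + 2) * m) m) (ζ j k) y := by
    intro k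
    rw [hy]
    exact H.y j hj k
  exact bij_of_grad hrad hc' (BPa_gradbd hm H hj hY) t

private theorem BPa_jz (H : Pass d t0 t1 lam g σ ρ c A m w ℓr L b ζ E W a q Ψ1) {j : ℕ}
    (hj : j + 1 < 4) (k : Fin 2) :
    ES.frz (tau t0 t1 (j + 1)) (ζ (j + 1) k) = ES.frz (tau t0 t1 (j + 1)) (ζ j k) :=
  BPa_zeta_left H hj k

private theorem BPa_jE (H : Pass d t0 t1 lam g σ ρ c A m w ℓr L b ζ E W a q Ψ1) {j : ℕ}
    (hj : j + 1 < 4) (k : Fin 2) :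
    ES.frz (tau t0 t1 (j + 1)) (E (j + 1) k) = ES.frz (tau t0 t1 (j + 1)) (E j k) :=
  BPa_E_left H hj k

private theorem BPa_jm (H : Pass d t0 t1 lam g σ ρ c A m w ℓr L b ζ E W a q Ψ1) {j : ℕ}
    (hj : j < 4) : tau t0 t1 (j + 1) ∈ Set.Icc (tau t0 t1 j) (tau t0 t1 (j + 1)) ∧
      tau t0 t1 j ∈ Set.Icc (tau t0 t1 j) (tau t0 t1 (j + 1)) := by
  obtain ⟨η, HS, S, -⟩ := H.H j hj
  have ht : tau t0 t1 j < tau t0 t1 (j + 1) := HS.good.ht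
  exact ⟨⟨ht.le, le_rfl⟩, ⟨le_rfl, ht.le⟩⟩

private theorem BPa_jX (H : Pass d t0 t1 lam g σ ρ c A m w ℓr L b ζ E W a q Ψ1) {j : ℕ}
    (hj : j + 1 < 4) (k : Fin 2) :
    ES.frz (tau t0 t1 (j + 1)) (nX (PS d t0 t1 ℓr L b ζ E j).d (ζ j) k) =
      ES.frz (tau t0 t1 (j + 1)) (nX (PS d t0 t1 ℓr L b ζ E (j + 1)).d (ζ (j + 1)) k) := by
  have hj4 : j < 4 := by omega
  have hz' : (fun k => ES.frz (tau t0 t1 (j + 1)) (ζ (j + 1) k)) =
      fun k => ES.frz (tau t0 t1 (j + 1)) (ζ j k) := funext (BPa_jz H hj)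
  have h1 := BPa_frz_nX H hj4 (BPa_jm H hj4).1 k
  have h2 := BPa_frz_nX H hj (BPa_jm H hj).2 k
  rw [hz', BPa_jz H hj k] at h2
  exact h1.trans h2.symm

private theorem BPa_jvz (H : Pass d t0 t1 lam g σ ρ c A m w ℓr L b ζ E W a q Ψ1) {j : ℕ}
    (hj : j + 1 < 4) (k : Fin 2) :
    ES.frz (tau t0 t1 (j + 1)) (vz (PS d t0 t1 ℓr L b ζ E j).d (ζ j) k) =
      ES.frz (tau t0 t1 (j + 1)) (vz (PS d t0 t1 ℓr L b ζ E (j + 1)).d (ζ (j + 1)) k) := by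
  have hj4 : j < 4 := by omega
  have hz' : (fun k => ES.frz (tau t0 t1 (j + 1)) (ζ (j + 1) k)) =
      fun k => ES.frz (tau t0 t1 (j + 1)) (ζ j k) := funext (BPa_jz H hj)
  have h1 := BPa_frz_vz H hj4 (BPa_jm H hj4).1 k
  have h2 := BPa_frz_vz H hj (BPa_jm H hj).2 k
  rw [hz'] at h2
  exact h1.trans h2.symm

private theorem BPa_jFF (G : Good d t0 t1 lam g σ ρ c A)
    (H : Pass d t0 t1 lam g σ ρ c A m w ℓr L b ζ E W a q Ψ1) {j : ℕ}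
    (hj : j + 1 < 4) (k l : Fin 2) :
    ES.frz (tau t0 t1 (j + 1)) (FF (PS d t0 t1 ℓr L b ζ E j).d (ζ j) k l) =
      ES.frz (tau t0 t1 (j + 1)) (FF (PS d t0 t1 ℓr L b ζ E (j + 1)).d (ζ (j + 1)) k l) := by
  have hj4 : j < 4 := by omega
  obtain ⟨η, HS, S, -⟩ := H.H j hj4
  obtain ⟨η', HS', S', -⟩ := H.H (j + 1) hj
  have h1 := frz_FF_right G HS S k l
  have h2 := frz_FF_left G HS' S' k l
  exact h1.trans h2.symm

private theorem BPa_jV (G : Good d t0 t1 lam g σ ρ c A)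
    (H : Pass d t0 t1 lam g σ ρ c A m w ℓr L b ζ E W a q Ψ1) {j : ℕ}
    (hj : j + 1 < 4) (k : Fin 2) :
    ES.frz (tau t0 t1 (j + 1)) (nV (PS d t0 t1 ℓr L b ζ E j).d (ζ j) (E j) k) =
      ES.frz (tau t0 t1 (j + 1))
        (nV (PS d t0 t1 ℓr L b ζ E (j + 1)).d (ζ (j + 1)) (E (j + 1)) k) := by
  have h1 : ES.frz (tau t0 t1 (j + 1)) (mulv (FF (PS d t0 t1 ℓr L b ζ E j).d (ζ j)) (E j) k) =
      ES.frz (tau t0 t1 (j + 1))
        (mulv (FF (PS d t0 t1 ℓr L b ζ E (j + 1)).d (ζ (j + 1))) (E (j + 1)) k) := by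
    rw [BPa_frz_mulv, BPa_frz_mulv, Fin.sum_univ_two, Fin.sum_univ_two, BPa_jFF G H hj k 0,
      BPa_jFF G H hj k 1, BPa_jE H hj 0, BPa_jE H hj 1]
  unfold nV
  rw [BPa_frz_add, BPa_frz_add, BPa_jvz H hj k, h1]

private theorem BPa_jA (G : Good d t0 t1 lam g σ ρ c A)
    (H : Pass d t0 t1 lam g σ ρ c A m w ℓr L b ζ E W a q Ψ1) {j : ℕ}
    (hj : j + 1 < 4) (z : Fin 2 → ℝ) (k : Fin 2) :
    evR (DM d t0 t1 ℓr L b ζ E W j).κ ((DM d t0 t1 ℓr L b ζ E W j).ξ k) z (tau t0 t1 (j + 1)) =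
      evR (DM d t0 t1 ℓr L b ζ E W (j + 1)).κ ((DM d t0 t1 ℓr L b ζ E W (j + 1)).ξ k) z
        (tau t0 t1 (j + 1)) := by
  have h1 := BPa_evR_frz (ℓr := ℓr) (L := L) (b := b) (ζ := ζ) (E := E) (W := W) G j
    (BPa_lev H hj k).1 (BPa_jX H hj k) z
  have h2 := BPa_evR_frz (ℓr := ℓr) (L := L) (b := b) (ζ := ζ) (E := E) (W := W)
    (h := nX (PS d t0 t1 ℓr L b ζ E (j + 1)).d (ζ (j + 1)) k)
    (τ := tau t0 t1 (j + 1)) G (j + 1) (BPa_lev H hj k).1 rfl z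
  rw [BPa_xi, BPa_xi]
  exact h1.trans h2.symm

private theorem BPa_jB (G : Good d t0 t1 lam g σ ρ c A)
    (H : Pass d t0 t1 lam g σ ρ c A m w ℓr L b ζ E W a q Ψ1) {j : ℕ}
    (hj : j + 1 < 4) (hj3 : j < 3) (z : Fin 2 → ℝ) (k : Fin 2) :
    evR (DM d t0 t1 ℓr L b ζ E W j).κ ((DM d t0 t1 ℓr L b ζ E W j).v k) z (tau t0 t1 (j + 1)) =
      evR (DM d t0 t1 ℓr L b ζ E W (j + 1)).κ ((DM d t0 t1 ℓr L b ζ E W (j + 1)).v k) z
        (tau t0 t1 (j + 1)) := by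
  have h1 := BPa_evR_frz (ℓr := ℓr) (L := L) (b := b) (ζ := ζ) (E := E) (W := W) G j
    (BPa_lev H hj k).2.1 ((BPa_v_right H hj3 k).trans (BPa_jV G H hj k)) z
  have h2 := BPa_evR_frz (ℓr := ℓr) (L := L) (b := b) (ζ := ζ) (E := E) (W := W) G (j + 1)
    (BPa_lev H hj k).2.1 (BPa_v_left H hj k) z
  exact h1.trans h2.symm

/-- Junctions: `W` vanishes at both ends of its interval (`trapR = 0`), `lin01` vanishes at the left
end; the values of `ζ`, `E` agree by definition of `pv`; elements of level `i` do not see the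
frequency of the new variable (`evR_upd`); `frz` commutes with `comp` (`tcomp_comp`). -/
theorem DM_junction (G : Good d t0 t1 lam g σ ρ c A) (hm : 0 < m) (hρ0 : 10 * m ≤ ρ)
    (H : Pass d t0 t1 lam g σ ρ c A m w ℓr L b ζ E W a q Ψ1) (j : ℕ) (hj : j < 3) :
    EqAt (DM d t0 t1 ℓr L b ζ E W j) (DM d t0 t1 ℓr L b ζ E W (j + 1)) (tau t0 t1 (j + 1)) := by
  have hj4' : j + 1 < 4 := by omega
  exact ⟨fun z k => BPa_jA G H hj4' z k, fun z k => BPa_jB G H hj4' hj z k⟩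

/-- At `t0` the new data coincide with the old ones. -/
theorem DM_start (G : Good d t0 t1 lam g σ ρ c A) (hm : 0 < m) (hρ0 : 10 * m ≤ ρ)
    (H : Pass d t0 t1 lam g σ ρ c A m w ℓr L b ζ E W a q Ψ1) :
    EqAt (DM d t0 t1 ℓr L b ζ E W 0) d t0 := by
  have hj : 0 < 4 := by norm_num
  obtain ⟨η, HS, S, -⟩ := H.H 0 hj
  have ht : tau t0 t1 0 < tau t0 t1 (0 + 1) := HS.good.ht
  have m1 : tau t0 t1 0 ∈ Set.Icc (tau t0 t1 0) (tau t0 t1 (0 + 1)) := ⟨le_rfl, ht.le⟩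
  have hz : ∀ k, ES.frz (tau t0 t1 0) (ζ 0 k) = 0 := fun k => BPa_zeta_left H hj k
  have hE : ∀ k, ES.frz (tau t0 t1 0) (E 0 k) = 0 := fun k => BPa_E_left H hj k
  have hz' : (fun k => ES.frz (tau t0 t1 0) (ζ 0 k)) = (0 : Fin 2 → WT) := funext hz
  have hX : ∀ k, ES.frz (tau t0 t1 0) (nX (PS d t0 t1 ℓr L b ζ E 0).d (ζ 0) k) =
      ES.frz (tau t0 t1 0) (d.ξ k) := by
    intro k
    rw [BPa_frz_nX H hj m1 k, hz', hz k, zero_add, comp_id]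
  have hV : ∀ k, ES.frz (tau t0 t1 0) (nV (PS d t0 t1 ℓr L b ζ E 0).d (ζ 0) (E 0) k) =
      ES.frz (tau t0 t1 0) (d.v k) := by
    intro k
    unfold nV
    rw [BPa_frz_add, BPa_frz_vz H hj m1 k, hz', comp_id, BPa_mulv_zero _ hE, add_zero]
  have e0 : tau t0 t1 0 = t0 := BPa_tau0 t0 t1
  constructor
  · intro z k
    have h1 := BPa_evR_frz (ℓr := ℓr) (L := L) (b := b) (ζ := ζ) (E := E) (W := W) G 0
      (G.levξ k) (hX k) z
    rw [← BPa_xi (W := W) 0 k, evR_frz, e0] at h1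
    exact h1
  · intro z k
    have h1 := BPa_evR_frz (ℓr := ℓr) (L := L) (b := b) (ζ := ζ) (E := E) (W := W) G 0
      (G.levv k) ((BPa_v_left H hj k).trans (hV k)) z
    rw [evR_frz, e0] at h1
    exact h1

/-- The master velocity minus the transported old velocity. -/
private theorem BPa_rest (hm : 0 < m)
    (H : Pass d t0 t1 lam g σ ρ c A m w ℓr L b ζ E W a q Ψ1) {j : ℕ} (hj : j < 4) (k : Fin 2) :
    Bd 0 (cr (ρ - (j + 2) * m - m)) ((DM d t0 t1 ℓr L b ζ E W j).v k -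
      vz (PS d t0 t1 ℓr L b ζ E j).d (ζ j) k) (10 ^ 8 * w) := by
  obtain ⟨η, HS, S, -⟩ := H.H j hj
  have HB := SB0.bh HS S
  have hw := HS.hw
  have hrad : ∀ t, ρ - (j + 2) * m - m ≤ (PS d t0 t1 ℓr L b ζ E j).r (ρ - (j + 2) * m) m t :=
    fun t => le_rad HS.good.ht hm.le t
  have hE0 : ∀ j', Bd 0 ((PS d t0 t1 ℓr L b ζ E j).r (ρ - (j + 2) * m) m) (E j j') (2 * w) :=
    fun j' => (HB.e j').weaken (Nat.zero_le 1) fun _ => le_rfl
  have h1 := HS.dh.mulv_F0 HB.z hE0 k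
  have h2 := HS.dh.mulv_F0 HB.z HB.w0 k
  unfold DM
  split_ifs
  · have e : nu' (PS d t0 t1 ℓr L b ζ E j).d (ζ j) (E j) (W j) k -
        vz (PS d t0 t1 ℓr L b ζ E j).d (ζ j) k =
        mulv (FF (PS d t0 t1 ℓr L b ζ E j).d (ζ j)) (E j) k +
          mulv (FF (PS d t0 t1 ℓr L b ζ E j).d (ζ j)) (W j) k := by
      unfold nu' nV
      ring
    show Bd 0 (cr (ρ - (j + 2) * m - m)) (nu' (PS d t0 t1 ℓr L b ζ E j).d (ζ j) (E j) (W j) k -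
        vz (PS d t0 t1 ℓr L b ζ E j).d (ζ j) k) (10 ^ 8 * w)
    rw [e]
    exact (Bd.to_cr (h1.add h2) hrad).mono (by linarith)
  · have ht : tau t0 t1 j < tau t0 t1 (j + 1) := HS.good.ht
    have hE1 : ∀ j', Bd 0 (cr (ρ - (j + 2) * m - m))
        (ES.frz (tau t0 t1 (j + 1)) (E j j')) (2 * w) := by
      intro j'
      exact Bd.frz _ (Bd.to_cr (hE0 j') hrad)
    have h3 : Bd 0 (cr (ρ - (j + 2) * m - m)) (mulv (FF (PS d t0 t1 ℓr L b ζ E j).d (ζ j))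
        (fun k => ES.frz (tau t0 t1 (j + 1)) (E j k)) k) (10 * w) := by
      have hrad0 : ∀ t, 0 ≤ cr (ρ - (j + 2) * m - m) t := by
        intro t
        have h5 := HS.hρ0
        show 0 ≤ ρ - (j + 2) * m - m
        linarith
      have hF : ∀ l, Bd 0 (cr (ρ - (j + 2) * m - m))
          (FF (PS d t0 t1 ℓr L b ζ E j).d (ζ j) k l) 2 := by
        intro l
        have h6 := Bd.to_cr (HS.dh.bd_FF' HB.z
          (fun j' => (HB.z j').weaken (by norm_num : 1 ≤ 2) fun _ => le_rfl) k l) hrad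
        have h7 : Bd 0 (cr (ρ - (j + 2) * m - m)) (idm k l) 1 := by
          unfold idm
          split_ifs
          · exact Bd.one _ _
          · exact Bd.zero _ _ (by norm_num)
        have h8 := h6.add h7
        rw [sub_add_cancel] at h8
        refine h8.mono ?_
        have hlam : 0 < lam := by linarith [HS.hlam]
        have hc1 := HS.hc
        have hc0 := HS.dh.hc0
        have hK : 0 < 1 + 1 / m := by positivity
        have hK1 : 1 ≤ 1 + 1 / m := by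
          have : 0 < 1 / m := by positivity
          linarith
        have e9 : lam * (1 / (256 * lam * (1 + 1 / m))) = 1 / (256 * (1 + 1 / m)) := by
          field_simp
        have e10 : 1 / (256 * (1 + 1 / m)) ≤ 1 / 256 := by
          apply one_div_le_one_div_of_le (by norm_num)
          linarith
        have e11 : 0 ≤ 1 / (256 * (1 + 1 / m)) := by positivity
        rw [e9]
        nlinarith
      unfold mulv
      rw [Fin.sum_univ_two]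
      exact ((Bd.mul hrad0 (hF 0) (hE1 0)).add (Bd.mul hrad0 (hF 1) (hE1 1))).mono
        (by linarith)
    have h4 := Bd.cst_mul (BPa_lin_norm ht) h3
    have e : ∀ X Y Z : WT, (X + Y) - Z - X = Y - Z := by intros; ring
    show Bd 0 (cr (ρ - (j + 2) * m - m)) (vz (PS d t0 t1 ℓr L b ζ E j).d (ζ j) k +
        mulv (FF (PS d t0 t1 ℓr L b ζ E j).d (ζ j)) (E j) k -
        cst (lin01 (tau t0 t1 j) (tau t0 t1 (j + 1))) *
          mulv (FF (PS d t0 t1 ℓr L b ζ E j).d (ζ j))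
            (fun k => ES.frz (tau t0 t1 (j + 1)) (E j k)) k -
        vz (PS d t0 t1 ℓr L b ζ E j).d (ζ j) k) (10 ^ 8 * w)
    rw [e]
    exact ((Bd.to_cr h1 hrad).sub h4).mono (by linarith)

/-- New velocity minus old velocity along the new coordinates, on each sub-interval:
`V(X'(z),t) = v^ζ(z,t)` (`Xm' = Xm ∘ (id + ζ)`, `ev_comp`), so the difference is `F'(E+W)`, resp.
`F'(E - χ E1)`; it vanishes at `t1`. -/
theorem DM_diff (G : Good d t0 t1 lam g σ ρ c A) (hR : Rep d V t0 t1) (hm : 0 < m)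
    (hρ0 : 10 * m ≤ ρ) (hw : 0 < w)
    (H : Pass d t0 t1 lam g σ ρ c A m w ℓr L b ζ E W a q Ψ1) (j : ℕ) (hj : j < 4) {t : ℝ}
    (ht : t ∈ Set.Icc (tau t0 t1 j) (tau t0 t1 (j + 1))) (z : Fin 2 → ℝ) (k : Fin 2) :
    |evR (DM d t0 t1 ℓr L b ζ E W j).κ ((DM d t0 t1 ℓr L b ζ E W j).v k) z t -
      V (Xm (DM d t0 t1 ℓr L b ζ E W j) t z) t k| ≤ 10 ^ 8 * w := by
  rw [BPa_V G hR H hj ht z k, ← evR_sub]
  have hjr : (j : ℝ) ≤ 3 := by exact_mod_cast Nat.lt_succ_iff.1 hj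
  refine abs_evR_le (fun _ => ?_) (BPa_rest hm H hj k) z t
  show 0 ≤ ρ - (j + 2) * m - m
  nlinarith

theorem DM_end (G : Good d t0 t1 lam g σ ρ c A) (hR : Rep d V t0 t1) (hm : 0 < m)
    (hρ0 : 10 * m ≤ ρ)
    (H : Pass d t0 t1 lam g σ ρ c A m w ℓr L b ζ E W a q Ψ1) (z : Fin 2 → ℝ) (k : Fin 2) :
    V (Xm (DM d t0 t1 ℓr L b ζ E W 3) t1 z) t1 k =
      evR (DM d t0 t1 ℓr L b ζ E W 3).κ ((DM d t0 t1 ℓr L b ζ E W 3).v k) z t1 := by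
  have hj : 3 < 4 := by norm_num
  obtain ⟨η, HS, S, -⟩ := H.H 3 hj
  have ht : tau t0 t1 3 < tau t0 t1 (3 + 1) := HS.good.ht
  have e4 : tau t0 t1 (3 + 1) = t1 := BPa_tau4 t0 t1
  have m1 : t1 ∈ Set.Icc (tau t0 t1 3) (tau t0 t1 (3 + 1)) := by
    rw [e4] at ht ⊢
    exact ⟨ht.le, le_rfl⟩
  rw [BPa_V G hR H hj m1 z k]
  have h1 : ES.frz t1 ((DM d t0 t1 ℓr L b ζ E W 3).v k) =
      ES.frz t1 (vz (PS d t0 t1 ℓr L b ζ E 3).d (ζ 3) k) := by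
    unfold DM
    rw [if_neg (by norm_num)]
    show ES.frz t1 (vz (PS d t0 t1 ℓr L b ζ E 3).d (ζ 3) k +
        mulv (FF (PS d t0 t1 ℓr L b ζ E 3).d (ζ 3)) (E 3) k -
        cst (lin01 (tau t0 t1 3) (tau t0 t1 (3 + 1))) *
          mulv (FF (PS d t0 t1 ℓr L b ζ E 3).d (ζ 3))
            (fun k => ES.frz (tau t0 t1 (3 + 1)) (E 3 k)) k) = _
    have h2 := BPa_lin_right ht
    rw [e4] at h2 ⊢
    rw [BPa_frz_sub, BPa_frz_add, BPa_frz_cst_one h2, BPa_frz_mulv, BPa_frz_mulv]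
    have h3 : ∀ l, ES.frz t1 (ES.frz t1 (E 3 l)) = ES.frz t1 (E 3 l) := fun l => frz_frz _ _ _
    simp only [h3]
    ring
  rw [← evR_frz (DM d t0 t1 ℓr L b ζ E W 3).κ _ z t1 t1, ← h1, evR_frz]

end

end ES
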