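import Pool.Agent.ES.BPb

/-!
ES-BPass: one pass on a block (EW 4, Prop. 4.4): from `pass_exists`, `glue4`, the junctions (BPa)
and the pieces (BPb) to `PassStatement`.  Constants: `C1 = 10^15`, `p = 5`.
-/

namespace ES

private theorem bPass_tau_lt {t0 t1 : ℝ} (h : t0 < t1) : ∀ j < 4, tau t0 t1 j < tau t0 t1 (j + 1) := by
  intro j hj
  have hd : 0 < t1 - t0 := by linarith
  interval_cases j <;> simp [tau] <;> linarith

private theorem bPass_tau0 (t0 t1 : ℝ) : tau t0 t1 0 = t0 := by simp [tau]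

private theorem bPass_tau3 (t0 t1 : ℝ) : tau t0 t1 3 = t0 + (t1 - t0) / 2 := by
  simp [tau]; ring

private theorem bPass_tau4 (t0 t1 : ℝ) : tau t0 t1 4 = t1 := by simp [tau]

private theorem bPass_find {t0 t1 t : ℝ} (h : t0 < t1) (ht : t ∈ Set.Icc t0 t1) :
    ∃ j < 4, t ∈ Set.Icc (tau t0 t1 j) (tau t0 t1 (j + 1)) := by
  have h0 := bPass_tau0 t0 t1
  have h4 := bPass_tau4 t0 t1
  rcases le_total t (tau t0 t1 1) with h1 | h1
  · exact ⟨0, by norm_num, by rw [h0]; exact ⟨ht.1, h1⟩⟩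
  rcases le_total t (tau t0 t1 2) with h2 | h2
  · exact ⟨1, by norm_num, h1, h2⟩
  rcases le_total t (tau t0 t1 3) with h3 | h3
  · exact ⟨2, by norm_num, h2, h3⟩
  · exact ⟨3, by norm_num, h3, by rw [h4]; exact ht.2⟩

/-- The pass theorem. -/
theorem pass_thm : PassStatement (10 ^ 15) 5 := by
  intro V t0 t1 lam g σ ρ c A m w ℓr L hBI hm hm1 hρ2 hρ0 hlam hw hσ0 hσ hlw hc0 hc hL hexp hh hℓ hℓ2
  obtain ⟨d, G, hR⟩ := hBI
  have hlt := G.ht
  have hg : 0 ≤ g := le_trans (by positivity) hlw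
  have hK : 0 < (1 + 1 / m) ^ 5 := by positivity
  have hX : 0 ≤ (1 + 1 / m) ^ 5 * (t1 - t0) * g :=
    mul_nonneg (mul_nonneg hK.le (by linarith)) hg
  have hh13 : 10 ^ 13 * (1 + 1 / m) ^ 5 * (t1 - t0) * g ≤ 1 := by
    have e1 : 10 ^ 15 * (1 + 1 / m) ^ 5 * (t1 - t0) * g
      = 10 ^ 15 * ((1 + 1 / m) ^ 5 * (t1 - t0) * g) := by ring
    have e2 : 10 ^ 13 * (1 + 1 / m) ^ 5 * (t1 - t0) * g
      = 10 ^ 13 * ((1 + 1 / m) ^ 5 * (t1 - t0) * g) := by ring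
    rw [e1] at hh
    rw [e2]
    linarith
  have hL' : lam * (1 + 1 / m) ≤ L := by rw [mul_comm]; exact hL
  obtain ⟨b, ζ, E, W, a, q, Ψ1, H⟩ := pass_exists G hm hm1 hρ2 hρ0 hlam hw hlw hσ0 hσ hc hL' hh13 hℓ hℓ2
  set DD := DM d t0 t1 ℓr L b ζ E W with hDD
  have hbij : ∀ j < 4, ∀ t, Function.Bijective (Xm (DD j) t) := fun j hj t =>
    DM_bij G hm hρ0 hc hh H j hj t
  have hst := DM_start G hm hρ0 H
  obtain ⟨V', hV'1, hV'2⟩ := glue4 V (tau t0 t1) (bPass_tau_lt hlt) DD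
    (fun j hj t _ => hbij j hj t) (fun j hj => DM_junction G hm hρ0 H j hj)
    (by
      intro z k
      rw [bPass_tau0]
      have h1 : Xm (DD 0) t0 z = Xm d t0 z := by
        funext k
        unfold Xm
        rw [hst.1 z k]
      rw [h1, (hR t0 (Set.left_mem_Icc.2 hlt.le)).2 z k]
      exact (hst.2 z k).symm)
    (by
      intro z k
      rw [bPass_tau4]
      exact DM_end G hR hm hρ0 H z k)
  rw [bPass_tau0, bPass_tau4] at hV'1
  refine ⟨V', hV'1, ?_, ?_, ?_⟩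
  · intro x t k
    by_cases ht : t ∈ Set.Ioo t0 t1
    · obtain ⟨j, hj, hjt⟩ := bPass_find hlt (Set.Ioo_subset_Icc_self ht)
      obtain ⟨z, rfl⟩ := (hbij j hj t).2 x
      rw [(hV'2 j hj t hjt).2 z k]
      refine (DM_diff G hR hm hρ0 hw H j hj hjt z k).trans ?_
      nlinarith
    · rw [hV'1 x t ht, sub_self, abs_zero]
      positivity
  · have hpc : ∀ j < 3, Prt (fun s t => BI V' s t (2 * L) (10 ^ 15 * (L * w + (1 + 1 / m) ^ 5 * g)) 0
          (ρ - 8 * m) (c + 10 ^ 15 * (1 + 1 / m) ^ 5 * (t1 - t0) * g)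
          (A + 10 ^ 15 * (1 + 1 / m) ^ 5 * (g * w + w / ℓr)))
        (fun s t => t - s = ℓr ∧
          BI V' s t (2 * L) (10 ^ 15 * (L * w + (1 + 1 / m) ^ 5 * g))
          (10 ^ 15 * (1 + 1 / m) ^ 5 / L * (w / ℓr + g * w)) (ρ - 8 * m)
          (c + 10 ^ 15 * (1 + 1 / m) ^ 5 * (t1 - t0) * g)
          (A + 10 ^ 15 * (1 + 1 / m) ^ 5 * (g * w + w / ℓr)))
        (fun _ _ => False) (tau t0 t1 j) (tau t0 t1 (j + 1)) 2 0 := by
      intro j hj
      have hRj := hV'2 j (by omega)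
      have hlen : tau t0 t1 (j + 1) - tau t0 t1 j = (t1 - t0) / 6 := by
        interval_cases j <;> simp [tau] <;> ring
      have hp1 := piece_left G hm hρ0 hρ2 hlam hw hlw hc0 hc hh hℓ hexp H j hj hRj
      have hp2 := piece_gap G hm hρ0 hρ2 hlam hw hlw hc0 hc hh hℓ H j hj hRj
      have hp3 := piece_right G hm hρ0 hρ2 hlam hw hlw hc0 hc hh hℓ hexp H j hj hRj
      have l1 : tau t0 t1 j < tau t0 t1 j + ℓr := by linarith
      have l2 : tau t0 t1 j + ℓr < tau t0 t1 (j + 1) - ℓr := by linarith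
      have l3 : tau t0 t1 (j + 1) - ℓr < tau t0 t1 (j + 1) := by linarith
      exact Prt.cat (Prt.cat (Prt.fast l1 ⟨by ring, hp1⟩) (Prt.good l2 hp2))
        (Prt.fast l3 ⟨by ring, hp3⟩)
    have hall := Prt.cat (Prt.cat (hpc 0 (by norm_num)) (hpc 1 (by norm_num))) (hpc 2 (by norm_num))
    rw [bPass_tau0] at hall
    have h3 : tau t0 t1 (2 + 1) = t0 + (t1 - t0) / 2 := bPass_tau3 t0 t1
    rw [h3] at hall
    exact hall
  · have hf := piece_final G hm hρ0 hρ2 hlam hw hlw hc0 hc hh hℓ H (hV'2 3 (by norm_num))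
    rw [bPass_tau3, bPass_tau4] at hf
    exact hf

end ES
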