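import Pool.Agent.ES.BPa

/-!
ES-BPb: the pieces of a pass are good (EW 4, Prop. 4.4).  From `gap_good`, `ramp_left`,
`ramp_right`, `fin_good` applied to the sub-blocks `PS .. j` (`Pass.H`, `Pass.y`, `Pass.e`, `Pass.Ψ`,
`Pass.bΨ`), `Rep.tcl`, `Rep.congr_dat`, `fact_mono`.
Final interval: `y = 10^8 K² H g/lam`, `e = 10^8 K⁴ H lam w²`, `ψ = 8 H w² (10^11 K⁴ H g + 10 K² (lam/L)²)`,
`tb - ta = H/2`, `H = t1 - t0`: `(25/(H/2) + 1000 K g) ψ ≤ 10^15 K^5 w² (H g + (lam/L)²)`.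
-/

open scoped BoundedContinuousFunction

namespace ES

private theorem BPb_tau {t0 t1 : ℝ} {j : ℕ} (hj : j ≤ 3) :
    tau t0 t1 j = t0 + j * ((t1 - t0) / 6) := if_pos hj

private theorem BPb_tau4 {t0 t1 : ℝ} : tau t0 t1 4 = t1 := if_neg (by norm_num)

private theorem BPb_kd (j : ℕ) : kd j 0 ≠ 0 := by
  unfold kd
  split_ifs <;> simp_all

/-- `K ^ a ≤ K ^ 5` -/
private theorem BPb_pow {K : ℝ} (hK : 1 ≤ K) {a : ℕ} (ha : a ≤ 5) : K ^ a ≤ K ^ 5 :=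
  pow_le_pow_right₀ hK ha

private theorem BPb_c {K h g lam c : ℝ} (hK : 1 ≤ K) (hh : 0 ≤ h) (hg : 0 ≤ g) (hlam : 0 < lam)
    (hc0 : 0 ≤ c) (hc : c ≤ 1 / 100) :
    c + lam * (10 ^ 8 * K ^ 2 * h * g / lam) * (1 + 2 * c) ≤ c + 10 ^ 15 * K ^ 5 * h * g := by
  have h1 : lam * (10 ^ 8 * K ^ 2 * h * g / lam) = 10 ^ 8 * K ^ 2 * h * g := by
    field_simp
  rw [h1]
  have h2 : K ^ 2 * (h * g) ≤ K ^ 5 * (h * g) :=
    mul_le_mul_of_nonneg_right (BPb_pow hK (by norm_num)) (mul_nonneg hh hg)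
  have h3 : 0 ≤ K ^ 2 * (h * g) := by positivity
  have h4 : 10 ^ 8 * K ^ 2 * h * g * (1 + 2 * c) = (K ^ 2 * (h * g)) * (10 ^ 8 * (1 + 2 * c)) := by
    ring
  have h5 : (K ^ 2 * (h * g)) * (10 ^ 8 * (1 + 2 * c)) ≤ (K ^ 2 * (h * g)) * 10 ^ 15 :=
    mul_le_mul_of_nonneg_left (by linarith) h3
  have h6 : 10 ^ 15 * K ^ 5 * h * g = (K ^ 5 * (h * g)) * 10 ^ 15 := by ring
  rw [h4, h6]
  have h7 : (K ^ 2 * (h * g)) * 10 ^ 15 ≤ (K ^ 5 * (h * g)) * 10 ^ 15 :=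
    mul_le_mul_of_nonneg_right h2 (by norm_num)
  linarith

private theorem BPb_g {K x g : ℝ} (hK : 1 ≤ K) (hx : 0 ≤ x) (hg : 0 ≤ g) :
    10 ^ 8 * (x + K ^ 2 * g) ≤ 10 ^ 15 * (x + K ^ 5 * g) := by
  have h2 : K ^ 2 * g ≤ K ^ 5 * g := mul_le_mul_of_nonneg_right (BPb_pow hK (by norm_num)) hg
  have h3 : 0 ≤ K ^ 2 * g := by positivity
  linarith

private theorem BPb_A {K x y : ℝ} (hK : 1 ≤ K) (hx : 0 ≤ x) (hy : 0 ≤ y) :
    10 ^ 8 * K ^ 4 * x + 100 * y ≤ 10 ^ 15 * K ^ 5 * (x + y) := by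
  have h2 : K ^ 4 * x ≤ K ^ 5 * x := mul_le_mul_of_nonneg_right (BPb_pow hK (by norm_num)) hx
  have h3 : 0 ≤ K ^ 4 * x := by positivity
  have h4 : 1 ≤ K ^ 5 := one_le_pow₀ hK
  have h5 : y ≤ K ^ 5 * y := le_mul_of_one_le_left hy h4
  have h6 : 10 ^ 15 * K ^ 5 * (x + y) = 10 ^ 15 * (K ^ 5 * x) + 10 ^ 15 * (K ^ 5 * y) := by ring
  rw [h6]
  have h7 : 10 ^ 8 * K ^ 4 * x = 10 ^ 8 * (K ^ 4 * x) := by ring
  rw [h7]
  linarith

private theorem BPb_S {K x y Li : ℝ} (hK : 1 ≤ K) (hx : 0 ≤ x) (hy : 0 ≤ y) (hL : 0 < Li) :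
    10 ^ 8 / Li * (y + K ^ 2 * x) ≤ 10 ^ 15 * K ^ 5 / Li * (y + x) := by
  have h2 : K ^ 2 * x ≤ K ^ 5 * x := mul_le_mul_of_nonneg_right (BPb_pow hK (by norm_num)) hx
  have h3 : 0 ≤ K ^ 2 * x := by positivity
  have h4 : 1 ≤ K ^ 5 := one_le_pow₀ hK
  have h5 : y ≤ K ^ 5 * y := le_mul_of_one_le_left hy h4
  have h6 : 10 ^ 15 * K ^ 5 / Li * (y + x) = (10 ^ 15 * (K ^ 5 * x) + 10 ^ 15 * (K ^ 5 * y)) / Li := by
    ring
  have h7 : 10 ^ 8 / Li * (y + K ^ 2 * x) = (10 ^ 8 * y + 10 ^ 8 * (K ^ 2 * x)) / Li := by ring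
  rw [h6, h7]
  exact div_le_div_of_nonneg_right (by linarith) hL.le

section
variable {d : Dat} {V : Fld} {t0 t1 lam g σ ρ c A m w ℓr : ℝ} {L : ℕ} {b : ℕ → WT}
  {ζ E W a q : ℕ → Vec} {Ψ1 : WT}

/-- Pieces: gap and ramps of the sub-block `j < 3`, final interval. -/
theorem piece_gap (G : Good d t0 t1 lam g σ ρ c A) (hm : 0 < m) (hρ0 : 10 * m ≤ ρ) (hρ : ρ ≤ 2)
    (hlam : 1 ≤ lam) (hw : 0 < w) (hlw : lam * w ≤ g) (hc0 : 0 ≤ c) (hc : c ≤ 1 / 100)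
    (hh : 10 ^ 15 * (1 + 1 / m) ^ 5 * (t1 - t0) * g ≤ 1) (hℓ : 0 < ℓr)
    (H : Pass d t0 t1 lam g σ ρ c A m w ℓr L b ζ E W a q Ψ1) {V' : Fld} (j : ℕ) (hj : j < 3)
    (hR : Rep (DM d t0 t1 ℓr L b ζ E W j) V' (tau t0 t1 j) (tau t0 t1 (j + 1))) :
    BI V' (tau t0 t1 j + ℓr) (tau t0 t1 (j + 1) - ℓr) (2 * L)
      (10 ^ 15 * (L * w + (1 + 1 / m) ^ 5 * g)) 0 (ρ - 8 * m)
      (c + 10 ^ 15 * (1 + 1 / m) ^ 5 * (t1 - t0) * g)
      (A + 10 ^ 15 * (1 + 1 / m) ^ 5 * (g * w + w / ℓr)) := by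
  obtain ⟨η, HH, S, R⟩ := H.H j (by omega)
  have hlam0 : 0 < lam := by linarith
  have hg0 : 0 < g := lt_of_lt_of_le (mul_pos hlam0 hw) hlw
  have hK : 1 ≤ 1 + 1 / m := by
    have : 0 < 1 / m := by positivity
    linarith
  set K := 1 + 1 / m with hKdef
  have hht : 0 < t1 - t0 := by linarith [G.ht]
  have hj3 : (j : ℝ) ≤ 2 := by
    have : j ≤ 2 := by omega
    exact_mod_cast this
  have hlen : tau t0 t1 (j + 1) - tau t0 t1 j = (t1 - t0) / 6 := by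
    rw [BPb_tau (by omega : j + 1 ≤ 3), BPb_tau (by omega : j ≤ 3)]
    push_cast
    ring
  have hhj : 10 ^ 8 * K ^ 5 * (tau t0 t1 (j + 1) - tau t0 t1 j) * g ≤ 1 := by
    rw [hlen]
    have h1 : 0 ≤ K ^ 5 * (t1 - t0) * g := by positivity
    linarith
  have hgood := gap_good HH hhj S R (H.y j (by omega))
  have hL0 : (0 : ℝ) < L := by
    have h1 := HH.hL
    have h2 : 0 < lam * (1 + 1 / m) := by positivity
    exact lt_of_lt_of_le h2 h1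
  have hrep : Rep ((PS d t0 t1 ℓr L b ζ E j).gapD (ζ j) (E j) (W j) (q j)) V'
      (tau t0 t1 j + ℓr) (tau t0 t1 (j + 1) - ℓr) := by
    have hs1 : tau t0 t1 j ≤ (PS d t0 t1 ℓr L b ζ E j).s1 := by
      show tau t0 t1 j ≤ tau t0 t1 j + ℓr
      linarith
    have hs2 : (PS d t0 t1 ℓr L b ζ E j).s2 ≤ tau t0 t1 (j + 1) := by
      show tau t0 t1 (j + 1) - ℓr ≤ tau t0 t1 (j + 1)
      linarith
    unfold SB.gapD
    refine Rep.tcl (t0 := tau t0 t1 j) (t1 := tau t0 t1 (j + 1)) ?_ hs1 hs2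
    refine hR.congr_dat ?_ ?_ ?_
    · unfold DM; rw [if_pos hj]
    · unfold DM; rw [if_pos hj]
    · unfold DM; rw [if_pos hj]
  refine fact_mono V' _ _ _ _ _ _ _ _ _ _ _ _ _ _ ⟨_, hgood, hrep⟩ (by positivity) le_rfl
    (BPb_g hK (by positivity) hg0.le) ?_ le_rfl ?_ (by linarith)
    (BPb_c hK hht.le hg0.le hlam0 hc0 hc) ?_
  · exact div_le_div_of_nonneg_right (BPb_g hK (by positivity) hg0.le) (by positivity)
  · nlinarith
  · have h1 := BPb_A hK (x := g * w) (y := w / ℓr) (by positivity) (by positivity)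
    have h2 : 0 ≤ 100 * (w / ℓr) := by positivity
    have h3 : 10 ^ 8 * K ^ 4 * g * w = 10 ^ 8 * K ^ 4 * (g * w) := by ring
    rw [h3]
    linarith

theorem piece_left (G : Good d t0 t1 lam g σ ρ c A) (hm : 0 < m) (hρ0 : 10 * m ≤ ρ) (hρ : ρ ≤ 2)
    (hlam : 1 ≤ lam) (hw : 0 < w) (hlw : lam * w ≤ g) (hc0 : 0 ≤ c) (hc : c ≤ 1 / 100)
    (hh : 10 ^ 15 * (1 + 1 / m) ^ 5 * (t1 - t0) * g ≤ 1) (hℓ : 0 < ℓr)
    (hexp : Real.exp (-(m * L / (4 * lam))) ≤ 1 / L)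
    (H : Pass d t0 t1 lam g σ ρ c A m w ℓr L b ζ E W a q Ψ1) {V' : Fld} (j : ℕ) (hj : j < 3)
    (hR : Rep (DM d t0 t1 ℓr L b ζ E W j) V' (tau t0 t1 j) (tau t0 t1 (j + 1))) :
    BI V' (tau t0 t1 j) (tau t0 t1 j + ℓr) (2 * L)
      (10 ^ 15 * (L * w + (1 + 1 / m) ^ 5 * g))
      (10 ^ 15 * (1 + 1 / m) ^ 5 / L * (w / ℓr + g * w)) (ρ - 8 * m)
      (c + 10 ^ 15 * (1 + 1 / m) ^ 5 * (t1 - t0) * g)
      (A + 10 ^ 15 * (1 + 1 / m) ^ 5 * (g * w + w / ℓr)) := by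
  obtain ⟨η, HH, S, R⟩ := H.H j (by omega)
  have hlam0 : 0 < lam := by linarith
  have hg0 : 0 < g := lt_of_lt_of_le (mul_pos hlam0 hw) hlw
  have hK : 1 ≤ 1 + 1 / m := by
    have : 0 < 1 / m := by positivity
    linarith
  set K := 1 + 1 / m with hKdef
  have hht : 0 < t1 - t0 := by linarith [G.ht]
  have hj3 : (j : ℝ) ≤ 2 := by
    have : j ≤ 2 := by omega
    exact_mod_cast this
  have hlen : tau t0 t1 (j + 1) - tau t0 t1 j = (t1 - t0) / 6 := by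
    rw [BPb_tau (by omega : j + 1 ≤ 3), BPb_tau (by omega : j ≤ 3)]
    push_cast
    ring
  have hhj : 10 ^ 8 * K ^ 5 * (tau t0 t1 (j + 1) - tau t0 t1 j) * g ≤ 1 := by
    rw [hlen]
    have h1 : 0 ≤ K ^ 5 * (t1 - t0) * g := by positivity
    linarith
  have hjm : (j : ℝ) * m ≤ 2 * m := mul_le_mul_of_nonneg_right hj3 hm.le
  have hs12 : tau t0 t1 j + ℓr < tau t0 t1 (j + 1) - ℓr := HH.h2
  obtain ⟨Q, hgood⟩ := ramp_left HH hhj (by linarith) (Or.inl (BPb_kd j)) hexp S R (H.y j (by omega))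
  have hL0 : (0 : ℝ) < L := by
    have h1 := HH.hL
    have h2 : 0 < lam * (1 + 1 / m) := by positivity
    exact lt_of_lt_of_le h2 h1
  have hlr : (PS d t0 t1 ℓr L b ζ E j).s1 - (PS d t0 t1 ℓr L b ζ E j).ta = ℓr := by
    show tau t0 t1 j + ℓr - tau t0 t1 j = ℓr
    ring
  rw [hlr] at hgood
  have hrep : Rep ((PS d t0 t1 ℓr L b ζ E j).rampD (ζ j) (E j) (W j) (q j) Q
      (tau t0 t1 j) (tau t0 t1 j + ℓr)) V' (tau t0 t1 j) (tau t0 t1 j + ℓr) := by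
    unfold SB.rampD
    refine Rep.tcl (t0 := tau t0 t1 j) (t1 := tau t0 t1 (j + 1)) ?_ le_rfl (by linarith)
    refine hR.congr_dat ?_ ?_ ?_
    · unfold DM; rw [if_pos hj]
    · unfold DM; rw [if_pos hj]
    · unfold DM; rw [if_pos hj]
  have hBI : BI V' (tau t0 t1 j) (tau t0 t1 j + ℓr) (2 * L) (10 ^ 8 * (L * w + K ^ 2 * g))
      (10 ^ 8 / L * (w / ℓr + K ^ 2 * g * w)) (ρ - (j + 2) * m - 2 * m)
      (c + lam * (10 ^ 8 * K ^ 2 * (t1 - t0) * g / lam) * (1 + 2 * c))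
      (A + 10 ^ 8 * K ^ 4 * g * w + 100 * w / ℓr) := ⟨_, hgood, hrep⟩
  refine fact_mono V' _ _ _ _ _ _ _ _ _ _ _ _ _ _ hBI (by positivity) le_rfl
    (BPb_g hK (by positivity) hg0.le) ?_ ?_ ?_ (by linarith)
    (BPb_c hK hht.le hg0.le hlam0 hc0 hc) ?_
  · exact div_le_div_of_nonneg_right (BPb_g hK (by positivity) hg0.le) (by positivity)
  · have h1 := BPb_S hK (x := g * w) (y := w / ℓr) (by positivity) (by positivity) hL0
    rwa [mul_assoc (K ^ 2) g w]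
  · linarith
  · have h1 := BPb_A hK (x := g * w) (y := w / ℓr) (by positivity) (by positivity)
    have h3 : 10 ^ 8 * K ^ 4 * g * w = 10 ^ 8 * K ^ 4 * (g * w) := by ring
    have h4 : 100 * w / ℓr = 100 * (w / ℓr) := by ring
    rw [h3, h4]
    linarith

theorem piece_right (G : Good d t0 t1 lam g σ ρ c A) (hm : 0 < m) (hρ0 : 10 * m ≤ ρ) (hρ : ρ ≤ 2)
    (hlam : 1 ≤ lam) (hw : 0 < w) (hlw : lam * w ≤ g) (hc0 : 0 ≤ c) (hc : c ≤ 1 / 100)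
    (hh : 10 ^ 15 * (1 + 1 / m) ^ 5 * (t1 - t0) * g ≤ 1) (hℓ : 0 < ℓr)
    (hexp : Real.exp (-(m * L / (4 * lam))) ≤ 1 / L)
    (H : Pass d t0 t1 lam g σ ρ c A m w ℓr L b ζ E W a q Ψ1) {V' : Fld} (j : ℕ) (hj : j < 3)
    (hR : Rep (DM d t0 t1 ℓr L b ζ E W j) V' (tau t0 t1 j) (tau t0 t1 (j + 1))) :
    BI V' (tau t0 t1 (j + 1) - ℓr) (tau t0 t1 (j + 1)) (2 * L)
      (10 ^ 15 * (L * w + (1 + 1 / m) ^ 5 * g))
      (10 ^ 15 * (1 + 1 / m) ^ 5 / L * (w / ℓr + g * w)) (ρ - 8 * m)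
      (c + 10 ^ 15 * (1 + 1 / m) ^ 5 * (t1 - t0) * g)
      (A + 10 ^ 15 * (1 + 1 / m) ^ 5 * (g * w + w / ℓr)) := by
  obtain ⟨η, HH, S, R⟩ := H.H j (by omega)
  have hlam0 : 0 < lam := by linarith
  have hg0 : 0 < g := lt_of_lt_of_le (mul_pos hlam0 hw) hlw
  have hK : 1 ≤ 1 + 1 / m := by
    have : 0 < 1 / m := by positivity
    linarith
  set K := 1 + 1 / m with hKdef
  have hht : 0 < t1 - t0 := by linarith [G.ht]
  have hj3 : (j : ℝ) ≤ 2 := by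
    have : j ≤ 2 := by omega
    exact_mod_cast this
  have hlen : tau t0 t1 (j + 1) - tau t0 t1 j = (t1 - t0) / 6 := by
    rw [BPb_tau (by omega : j + 1 ≤ 3), BPb_tau (by omega : j ≤ 3)]
    push_cast
    ring
  have hhj : 10 ^ 8 * K ^ 5 * (tau t0 t1 (j + 1) - tau t0 t1 j) * g ≤ 1 := by
    rw [hlen]
    have h1 : 0 ≤ K ^ 5 * (t1 - t0) * g := by positivity
    linarith
  have hjm : (j : ℝ) * m ≤ 2 * m := mul_le_mul_of_nonneg_right hj3 hm.le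
  have hs12 : tau t0 t1 j + ℓr < tau t0 t1 (j + 1) - ℓr := HH.h2
  obtain ⟨Q, hgood⟩ := ramp_right HH hhj (by linarith) (Or.inl (BPb_kd j)) hexp S R (H.y j (by omega))
  have hL0 : (0 : ℝ) < L := by
    have h1 := HH.hL
    have h2 : 0 < lam * (1 + 1 / m) := by positivity
    exact lt_of_lt_of_le h2 h1
  have hlr : (PS d t0 t1 ℓr L b ζ E j).tb - (PS d t0 t1 ℓr L b ζ E j).s2 = ℓr := by
    show tau t0 t1 (j + 1) - (tau t0 t1 (j + 1) - ℓr) = ℓr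
    ring
  rw [hlr] at hgood
  have hrep : Rep ((PS d t0 t1 ℓr L b ζ E j).rampD (ζ j) (E j) (W j) (q j) Q
      (tau t0 t1 (j + 1) - ℓr) (tau t0 t1 (j + 1))) V'
      (tau t0 t1 (j + 1) - ℓr) (tau t0 t1 (j + 1)) := by
    unfold SB.rampD
    refine Rep.tcl (t0 := tau t0 t1 j) (t1 := tau t0 t1 (j + 1)) ?_ (by linarith) le_rfl
    refine hR.congr_dat ?_ ?_ ?_
    · unfold DM; rw [if_pos hj]
    · unfold DM; rw [if_pos hj]
    · unfold DM; rw [if_pos hj]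
  have hBI : BI V' (tau t0 t1 (j + 1) - ℓr) (tau t0 t1 (j + 1)) (2 * L)
      (10 ^ 8 * (L * w + K ^ 2 * g))
      (10 ^ 8 / L * (w / ℓr + K ^ 2 * g * w)) (ρ - (j + 2) * m - 2 * m)
      (c + lam * (10 ^ 8 * K ^ 2 * (t1 - t0) * g / lam) * (1 + 2 * c))
      (A + 10 ^ 8 * K ^ 4 * g * w + 100 * w / ℓr) := ⟨_, hgood, hrep⟩
  refine fact_mono V' _ _ _ _ _ _ _ _ _ _ _ _ _ _ hBI (by positivity) le_rfl
    (BPb_g hK (by positivity) hg0.le) ?_ ?_ ?_ (by linarith)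
    (BPb_c hK hht.le hg0.le hlam0 hc0 hc) ?_
  · exact div_le_div_of_nonneg_right (BPb_g hK (by positivity) hg0.le) (by positivity)
  · have h1 := BPb_S hK (x := g * w) (y := w / ℓr) (by positivity) (by positivity) hL0
    rwa [← mul_assoc (K ^ 2) g w] at h1
  · linarith
  · have h1 := BPb_A hK (x := g * w) (y := w / ℓr) (by positivity) (by positivity)
    have h3 : 10 ^ 8 * K ^ 4 * g * w = 10 ^ 8 * K ^ 4 * (g * w) := by ring
    have h4 : 100 * w / ℓr = 100 * (w / ℓr) := by ring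
    rw [h3, h4]
    linarith

theorem piece_final (G : Good d t0 t1 lam g σ ρ c A) (hm : 0 < m) (hρ0 : 10 * m ≤ ρ) (hρ : ρ ≤ 2)
    (hlam : 1 ≤ lam) (hw : 0 < w) (hlw : lam * w ≤ g) (hc0 : 0 ≤ c) (hc : c ≤ 1 / 100)
    (hh : 10 ^ 15 * (1 + 1 / m) ^ 5 * (t1 - t0) * g ≤ 1) (hℓ : 0 < ℓr)
    (H : Pass d t0 t1 lam g σ ρ c A m w ℓr L b ζ E W a q Ψ1) {V' : Fld}
    (hR : Rep (DM d t0 t1 ℓr L b ζ E W 3) V' (tau t0 t1 3) (tau t0 t1 4)) :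
    BI V' (tau t0 t1 3) (tau t0 t1 4) lam
      (g * (1 + 10 ^ 15 * (1 + 1 / m) ^ 5 * (t1 - t0) * g))
      (10 ^ 15 * (1 + 1 / m) ^ 5 * w ^ 2 * ((t1 - t0) * g + (lam / L) ^ 2)) (ρ - 8 * m)
      (c + 10 ^ 15 * (1 + 1 / m) ^ 5 * (t1 - t0) * g)
      (A + 10 ^ 15 * (1 + 1 / m) ^ 5 * (g * w + w / ℓr)) := by
  obtain ⟨η, HH, S, R⟩ := H.H 3 (by omega)
  have hlam0 : 0 < lam := by linarith
  have hg0 : 0 < g := lt_of_lt_of_le (mul_pos hlam0 hw) hlw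
  have hK : 1 ≤ 1 + 1 / m := by
    have : 0 < 1 / m := by positivity
    linarith
  have hL0 : (0 : ℝ) < L := by
    have h1 := HH.hL
    have h2 : 0 < lam * (1 + 1 / m) := by positivity
    exact lt_of_lt_of_le h2 h1
  have hht : 0 < t1 - t0 := by linarith [G.ht]
  have hlen : tau t0 t1 4 - tau t0 t1 3 = (t1 - t0) / 2 := by
    rw [BPb_tau4, BPb_tau (le_refl 3)]
    push_cast
    ring
  have hy := H.y 3 (by omega)
  have he := H.e 3 (by omega)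
  have hbΨ := H.bΨ
  set K := 1 + 1 / m with hKdef
  set h := t1 - t0 with hdef
  have hK0 : 0 < K := by linarith
  -- smallness
  have hs : 10 ^ 15 * (K ^ 5 * (h * g)) ≤ 1 := by
    have : 10 ^ 15 * (K ^ 5 * (h * g)) = 10 ^ 15 * K ^ 5 * h * g := by ring
    rw [this]
    exact hh
  have hpow : ∀ a : ℕ, a ≤ 5 → K ^ a * (h * g) ≤ K ^ 5 * (h * g) := fun a ha =>
    mul_le_mul_of_nonneg_right (BPb_pow hK ha) (by positivity)
  have hhj : 10 ^ 8 * K ^ 5 * (tau t0 t1 4 - tau t0 t1 3) * g ≤ 1 := by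
    rw [hlen]
    have h1 : 0 ≤ K ^ 5 * (h * g) := by positivity
    have h2 : 10 ^ 8 * K ^ 5 * (h / 2) * g = 10 ^ 8 / 2 * (K ^ 5 * (h * g)) := by ring
    rw [h2]
    linarith
  have hlw2 : lam ^ 2 * w ^ 2 ≤ g * g := by
    have : lam ^ 2 * w ^ 2 = (lam * w) * (lam * w) := by ring
    rw [this]
    exact mul_le_mul hlw hlw (by positivity) hg0.le
  have hlww : lam * w ^ 2 ≤ g * w := by
    have : lam * w ^ 2 = (lam * w) * w := by ring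
    rw [this]
    exact mul_le_mul_of_nonneg_right hlw hw.le
  have he' : lam * (10 ^ 8 * K ^ 4 * h * lam * w ^ 2) ≤ g := by
    have h1 : lam * (10 ^ 8 * K ^ 4 * h * lam * w ^ 2) = 10 ^ 8 * K ^ 4 * h * (lam ^ 2 * w ^ 2) := by
      ring
    rw [h1]
    have h2 : 10 ^ 8 * K ^ 4 * h * (lam ^ 2 * w ^ 2) ≤ 10 ^ 8 * K ^ 4 * h * (g * g) :=
      mul_le_mul_of_nonneg_left hlw2 (by positivity)
    have h3 : 10 ^ 8 * K ^ 4 * h * (g * g) = (10 ^ 8 * (K ^ 4 * (h * g))) * g := by ring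
    have h4 : 10 ^ 8 * (K ^ 4 * (h * g)) ≤ 1 := by
      have := hpow 4 (by norm_num)
      have h5 : 0 ≤ K ^ 5 * (h * g) := by positivity
      linarith
    have h5 : (10 ^ 8 * (K ^ 4 * (h * g))) * g ≤ 1 * g := mul_le_mul_of_nonneg_right h4 hg0.le
    linarith
  have hρ6 : ρ - (((3 : ℕ) : ℝ) + 2) * m - m = ρ - 6 * m := by push_cast; ring
  have hΨ : Bd 0 (cr (ρ - (((3 : ℕ) : ℝ) + 2) * m - m)) Ψ1
      (8 * h * w ^ 2 * (10 ^ 11 * K ^ 4 * h * g + 10 * K ^ 2 * (lam / L) ^ 2)) := by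
    rw [hρ6]
    exact hbΨ
  have hP4 : (PS d t0 t1 ℓr L b ζ E 3).tb = t1 := BPb_tau4 (t0 := t0) (t1 := t1)
  have hΨ1 : ∀ k, frz (PS d t0 t1 ℓr L b ζ E 3).tb (E 3 k) = dp (PS d t0 t1 ℓr L b ζ E 3).d.κ k Ψ1 := by
    intro k
    rw [hP4]
    exact H.Ψ k
  have hb0 : (PS d t0 t1 ℓr L b ζ E 3).b = 0 := H.b3
  obtain ⟨Q, hgood⟩ := fin_good HH hhj S R hb0 hy he he' hΨ1 hΨ H.lΨ H.rΨ (H.tΨ _)
  have hrep : Rep ((PS d t0 t1 ℓr L b ζ E 3).finD (ζ 3) (E 3) (q 3) Q) V'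
      (tau t0 t1 3) (tau t0 t1 4) := by
    refine hR.congr_dat ?_ ?_ ?_
    · unfold DM; rw [if_neg (lt_irrefl 3)]; rfl
    · unfold DM; rw [if_neg (lt_irrefl 3)]; rfl
    · unfold DM; rw [if_neg (lt_irrefl 3)]; rfl
  have hlen' : (PS d t0 t1 ℓr L b ζ E 3).tb - (PS d t0 t1 ℓr L b ζ E 3).ta = h / 2 := hlen
  rw [hlen'] at hgood
  have hhg : 0 < K ^ 5 * (h * g) := by positivity
  have eg : g * (1 + 2 * (lam * (10 ^ 8 * K ^ 2 * h * g / lam))) +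
      12 * K * lam * (10 ^ 8 * K ^ 4 * h * lam * w ^ 2) ≤ g * (1 + 10 ^ 15 * K ^ 5 * h * g) := by
    have h1 : lam * (10 ^ 8 * K ^ 2 * h * g / lam) = 10 ^ 8 * (K ^ 2 * (h * g)) := by
      field_simp
    rw [h1]
    have h2 : 12 * K * lam * (10 ^ 8 * K ^ 4 * h * lam * w ^ 2) =
        (12 * 10 ^ 8 * K ^ 5 * h) * (lam ^ 2 * w ^ 2) := by ring
    rw [h2]
    have h3 : (12 * 10 ^ 8 * K ^ 5 * h) * (lam ^ 2 * w ^ 2) ≤ (12 * 10 ^ 8 * K ^ 5 * h) * (g * g) :=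
      mul_le_mul_of_nonneg_left hlw2 (by positivity)
    have h4 : (12 * 10 ^ 8 * K ^ 5 * h) * (g * g) = g * (12 * 10 ^ 8 * (K ^ 5 * (h * g))) := by ring
    have h5 : g * (1 + 2 * (10 ^ 8 * (K ^ 2 * (h * g)))) =
        g * 1 + g * (2 * 10 ^ 8 * (K ^ 2 * (h * g))) := by ring
    have h6 : g * (1 + 10 ^ 15 * K ^ 5 * h * g) = g * 1 + g * (10 ^ 15 * (K ^ 5 * (h * g))) := by
      ring
    have h7 : g * (2 * 10 ^ 8 * (K ^ 2 * (h * g))) ≤ g * (2 * 10 ^ 8 * (K ^ 5 * (h * g))) := by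
      refine mul_le_mul_of_nonneg_left ?_ hg0.le
      have := hpow 2 (by norm_num)
      linarith
    have h8 : g * (2 * 10 ^ 8 * (K ^ 5 * (h * g))) + g * (12 * 10 ^ 8 * (K ^ 5 * (h * g))) ≤
        g * (10 ^ 15 * (K ^ 5 * (h * g))) := by
      rw [← mul_add]
      refine mul_le_mul_of_nonneg_left ?_ hg0.le
      linarith
    rw [h5, h6]
    linarith
  refine fact_mono V' _ _ _ _ _ _ _ _ _ _ _ _ _ _ ⟨_, hgood, hrep⟩ hlam0 le_rfl eg ?_ ?_ ?_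
    (by linarith) (BPb_c hK hht.le hg0.le hlam0 hc0 hc) ?_
  · exact div_le_div_of_nonneg_right eg hlam0.le
  · -- stress
    set X := K ^ 4 * (h * g) with hX
    set Y := K ^ 2 * (lam / L) ^ 2 with hY
    have hX0 : 0 ≤ X := by positivity
    have hY0 : 0 ≤ Y := by positivity
    have h1 : (25 / (h / 2) + 1000 * K * g) *
        (8 * h * w ^ 2 * (10 ^ 11 * K ^ 4 * h * g + 10 * K ^ 2 * (lam / L) ^ 2)) =
        (400 + 8000 * (K * (h * g))) * (w ^ 2 * (10 ^ 11 * X + 10 * Y)) := by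
      rw [hX, hY]
      field_simp
      ring
    rw [h1]
    have h2 : K * (h * g) ≤ K ^ 5 * (h * g) := by
      have := hpow 1 (by norm_num)
      rwa [pow_one] at this
    have h3 : 400 + 8000 * (K * (h * g)) ≤ 401 := by linarith
    have h4 : (400 + 8000 * (K * (h * g))) * (w ^ 2 * (10 ^ 11 * X + 10 * Y)) ≤
        401 * (w ^ 2 * (10 ^ 11 * X + 10 * Y)) :=
      mul_le_mul_of_nonneg_right h3 (by positivity)
    refine h4.trans ?_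
    have h5 : X ≤ K ^ 5 * (h * g) := hpow 4 (by norm_num)
    have h6 : Y ≤ K ^ 5 * (lam / L) ^ 2 :=
      mul_le_mul_of_nonneg_right (BPb_pow hK (by norm_num)) (by positivity)
    have h7 : 10 ^ 15 * K ^ 5 * w ^ 2 * (h * g + (lam / L) ^ 2) =
        w ^ 2 * (10 ^ 15 * (K ^ 5 * (h * g)) + 10 ^ 15 * (K ^ 5 * (lam / L) ^ 2)) := by ring
    have h8 : 401 * (w ^ 2 * (10 ^ 11 * X + 10 * Y)) =
        w ^ 2 * (401 * 10 ^ 11 * X + 4010 * Y) := by ring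
    rw [h7, h8]
    refine mul_le_mul_of_nonneg_left ?_ (by positivity)
    linarith
  · push_cast
    linarith
  · -- acceleration
    have h1 : 2 * (10 ^ 8 * K ^ 4 * h * lam * w ^ 2) / (h / 2) = 4 * 10 ^ 8 * K ^ 4 * (lam * w ^ 2) := by
      field_simp
      ring
    have h2 : 100 * K * g * (10 ^ 8 * K ^ 4 * h * lam * w ^ 2) =
        (10 ^ 10 * (K ^ 5 * (h * g))) * (lam * w ^ 2) := by ring
    rw [h1, h2]
    have h3 : 4 * 10 ^ 8 * K ^ 4 * (lam * w ^ 2) ≤ 4 * 10 ^ 8 * K ^ 4 * (g * w) :=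
      mul_le_mul_of_nonneg_left hlww (by positivity)
    have h4 : (10 ^ 10 * (K ^ 5 * (h * g))) * (lam * w ^ 2) ≤ 1 * (g * w) :=
      mul_le_mul (by linarith) hlww (by positivity) zero_le_one
    have h5 : K ^ 4 * (g * w) ≤ K ^ 5 * (g * w) :=
      mul_le_mul_of_nonneg_right (BPb_pow hK (by norm_num)) (by positivity)
    have h6 : 1 * (g * w) ≤ K ^ 5 * (g * w) :=
      mul_le_mul_of_nonneg_right (one_le_pow₀ hK) (by positivity)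
    have h7 : 0 ≤ 10 ^ 15 * K ^ 5 * (w / ℓr) := by positivity
    have h8 : 10 ^ 15 * K ^ 5 * (g * w + w / ℓr) = 10 ^ 15 * (K ^ 5 * (g * w)) +
        10 ^ 15 * K ^ 5 * (w / ℓr) := by ring
    have h9 : 10 ^ 8 * K ^ 4 * g * w = 10 ^ 8 * (K ^ 4 * (g * w)) := by ring
    have h10 : 4 * 10 ^ 8 * K ^ 4 * (g * w) = 4 * 10 ^ 8 * (K ^ 4 * (g * w)) := by ring
    rw [h8, h9]
    rw [h10] at h3
    have h11 : 0 ≤ K ^ 5 * (g * w) := by positivity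
    linarith

end

end ES
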