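import Pool.Agent.ES.Sys

/-!
Project ES: interface between the parts.

Part I (analysis) proves `block_thm` (statement below, `BlockStatement`).
Part II (Eulerian) proves the facts about `BI` listed below.
Part III (recursion) uses `BlockStatement` and the facts about `BI` only.
-/

open scoped BoundedContinuousFunction

namespace ES

/-- Eulerian velocity fields on the plane. -/
abbrev Fld := (Fin 2 → ℝ) → ℝ → (Fin 2 → ℝ)

/-- Coordinate map at time `t`. -/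
noncomputable def Xm (d : Dat) (t : ℝ) (z : Fin 2 → ℝ) : Fin 2 → ℝ :=
  fun a => z a + evR d.κ (d.ξ a) z t

/-- `d` represents `V` on `[t0,t1]`. -/
def Rep (d : Dat) (V : Fld) (t0 t1 : ℝ) : Prop :=
  ∀ t ∈ Set.Icc t0 t1, Function.Bijective (Xm d t) ∧
    ∀ z a, V (Xm d t z) t a = evR d.κ (d.v a) z t

/-- `V` is represented on `[t0,t1]` by good data with the given bounds (`lam` frequency, `g`
gradient, `σ` Reynolds stress, `ρ` analyticity radius, `c` deformation, `A` acceleration). -/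
def BI (V : Fld) (t0 t1 lam g σ ρ c A : ℝ) : Prop :=
  ∃ d : Dat, Good d t0 t1 lam g σ ρ c A ∧ Rep d V t0 t1

/-- Partitions of `[s,t]` into consecutive pieces of three kinds (exact pieces `G`, pieces of kind
1 and 2), with the numbers of pieces of kind 1 and 2. -/
inductive Prt (G B1 B2 : ℝ → ℝ → Prop) : ℝ → ℝ → ℕ → ℕ → Prop
  | good {s t : ℝ} : s < t → G s t → Prt G B1 B2 s t 0 0
  | fast {s t : ℝ} : s < t → B1 s t → Prt G B1 B2 s t 1 0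
  | tail {s t : ℝ} : s < t → B2 s t → Prt G B1 B2 s t 0 1
  | cat {s t u : ℝ} {n m n' m' : ℕ} : Prt G B1 B2 s t n m → Prt G B1 B2 t u n' m' →
      Prt G B1 B2 s u (n + n') (m + m')

/-- The statement of the block theorem (proved in Part I), with constants `C0`, `p`. -/
def BlockStatement (C0 : ℝ) (p : ℕ) : Prop :=
  ∀ (V : Fld) (t0 t1 lam g σ ρ c A m w ℓr ν : ℝ) (L P : ℕ),
    BI V t0 t1 lam g σ ρ c A →
    0 < m → m ≤ 1 → ρ ≤ 2 → 8 * m * P + 2 * m ≤ ρ →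
    1 ≤ lam → 0 < w → 0 < σ → C0 * σ ≤ w ^ 2 → lam * w ≤ g → 0 ≤ c → c ≤ 1 / 200 →
    (1 + 1 / m) * lam ≤ L → Real.exp (-(m * L / (4 * lam))) ≤ 1 / L →
    C0 * (1 + 1 / m) ^ p * (t1 - t0) * g ≤ 1 →
    0 < ν → ν ≤ 1 / 4 → C0 * (1 + 1 / m) ^ p * w ^ 2 * ((t1 - t0) * g + (lam / L) ^ 2) ≤ ν ^ 2 * σ →
    0 < ℓr → ℓr * (C0 * 2 ^ P) ≤ t1 - t0 →
    ∃ V' : Fld,
      (∀ x t, t ∉ Set.Ioo t0 t1 → V' x t = V x t) ∧
      (∀ x t a, |V' x t a - V x t a| ≤ C0 * w) ∧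
      Prt (fun s t => BI V' s t (2 * L) (C0 * (L * w + (1 + 1 / m) ^ p * g)) 0 (ρ - 8 * m * P)
            (c + C0 * (1 + 1 / m) ^ p * (t1 - t0) * g)
            (A + C0 * (1 + 1 / m) ^ p * (g * w + w / ℓr)))
          (fun s t => t - s = ℓr ∧
            BI V' s t (2 * L) (C0 * (L * w + (1 + 1 / m) ^ p * g))
            (C0 * (1 + 1 / m) ^ p / L * (w / ℓr + g * w)) (ρ - 8 * m * P)
            (c + C0 * (1 + 1 / m) ^ p * (t1 - t0) * g)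
            (A + C0 * (1 + 1 / m) ^ p * (g * w + w / ℓr)))
          (fun s t => t - s = (t1 - t0) / 2 ^ P ∧
            BI V' s t lam (g * (1 + C0 * (1 + 1 / m) ^ p * (t1 - t0) * g)) (σ * ν ^ (2 * P))
            (ρ - 8 * m * P) (c + C0 * (1 + 1 / m) ^ p * (t1 - t0) * g)
            (A + C0 * (1 + 1 / m) ^ p * (g * w + w / ℓr)))
          t0 t1 (6 * P) 1

/-! ### Facts about `BI` (Part II) -/

/-- Test functions: smooth, `2π`-periodic, divergence free. -/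
structure Tst (φ : Fld) : Prop where
  smooth : ContDiff ℝ 2 (fun x : (Fin 2 → ℝ) × ℝ => φ x.1 x.2)
  per : ∀ x (n : Fin 2 → ℤ) t, φ (fun a => x a + 2 * Real.pi * n a) t = φ x t
  div : ∀ x t, ∑ a : Fin 2, fderiv ℝ (fun y => φ y t a) x (Pi.single a 1) = 0

/-- The box `[0,2π]^2`. -/
def Bx : Set (Fin 2 → ℝ) := Set.Icc 0 (fun _ => 2 * Real.pi)

/-- Spatial pairing at time `t`. -/
noncomputable def pr (V φ : Fld) (t : ℝ) : ℝ := ∫ x in Bx, ∑ a, V x t a * φ x t a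

/-- The integrand of the weak formulation, integrated in space at time `t`. -/
noncomputable def wf (V φ : Fld) (t : ℝ) : ℝ :=
  ∫ x in Bx, ((∑ a, V x t a * deriv (fun s => φ x s a) t) +
    ∑ a, ∑ b, V x t a * V x t b * fderiv ℝ (fun y => φ y t a) x (Pi.single b 1))

/-- Weak formulation on `[s,t]` with error `ε (t-s) Λ`, `Λ` a bound of the gradient of the test
function. -/
def WE (V : Fld) (s t ε : ℝ) : Prop :=
  ∀ φ : Fld, Tst φ → ∀ Λ : ℝ,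
    (∀ x τ a b, |fderiv ℝ (fun y => φ y τ a) x (Pi.single b 1)| ≤ Λ) →
    |(∫ τ in s..t, wf V φ τ) - (pr V φ t - pr V φ s)| ≤ ε * (t - s) * Λ

/-- Weakly divergence free at time `t`. -/
def DF (V : Fld) (t : ℝ) : Prop :=
  ∀ ψ : (Fin 2 → ℝ) → ℝ, ContDiff ℝ 2 ψ → (∀ x (n : Fin 2 → ℤ), ψ (fun a => x a + 2 * Real.pi * n a) = ψ x) →
    ∫ x in Bx, ∑ a, V x t a * fderiv ℝ ψ x (Pi.single a 1) = 0

/-- Periodic at time `t`. -/
def PerF (V : Fld) (t : ℝ) : Prop :=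
  ∀ x (n : Fin 2 → ℤ), V (fun a => x a + 2 * Real.pi * n a) t = V x t

/-- Lipschitz in space-time on the time interval `[s,t]`. -/
def Lp (V : Fld) (s t Λ : ℝ) : Prop :=
  ∀ τ ∈ Set.Icc s t, ∀ τ' ∈ Set.Icc s t, ∀ x y : Fin 2 → ℝ, ∀ a,
    |V x τ a - V y τ' a| ≤ Λ * (‖x - y‖ + |τ - τ'|)

/-- The list of facts of Part II. -/
structure BIFacts : Prop where
  mono : ∀ (V : Fld) (t0 t1 lam g σ ρ c A lam' g' σ' ρ' c' A' : ℝ),
    BI V t0 t1 lam g σ ρ c A → 0 < lam → lam ≤ lam' → g ≤ g' → g / lam ≤ g' / lam' → σ ≤ σ' →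
    ρ' ≤ ρ → 0 ≤ ρ' → c ≤ c' → A ≤ A' → BI V t0 t1 lam' g' σ' ρ' c' A'
  restrict : ∀ (V : Fld) (t0 t1 s0 s1 lam g σ ρ c A : ℝ),
    BI V t0 t1 lam g σ ρ c A → t0 ≤ s0 → s0 < s1 → s1 ≤ t1 → BI V s0 s1 lam g σ ρ c A
  congr : ∀ (V V' : Fld) (t0 t1 lam g σ ρ c A : ℝ),
    BI V t0 t1 lam g σ ρ c A → (∀ x, ∀ t ∈ Set.Icc t0 t1, V' x t = V x t) →
    BI V' t0 t1 lam g σ ρ c A
  lip : ∀ (V : Fld) (t0 t1 lam g σ ρ c A v0 : ℝ),
    BI V t0 t1 lam g σ ρ c A → 0 < ρ → 0 ≤ c → c ≤ 1 / 10 →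
    (∀ x, ∀ t ∈ Set.Icc t0 t1, ∀ a, |V x t a| ≤ v0) →
    Lp V t0 t1 (A + 8 * g * (1 + v0))
  per : ∀ (V : Fld) (t0 t1 lam g σ ρ c A : ℝ), BI V t0 t1 lam g σ ρ c A →
    ∀ t ∈ Set.Icc t0 t1, PerF V t
  divf : ∀ (V : Fld) (t0 t1 lam g σ ρ c A : ℝ), BI V t0 t1 lam g σ ρ c A → 0 < ρ → 0 ≤ c →
    c ≤ 1 / 10 → ∀ t ∈ Set.Icc t0 t1, DF V t
  weak : ∀ (V : Fld) (t0 t1 lam g σ ρ c A : ℝ), BI V t0 t1 lam g σ ρ c A → 0 < ρ → 0 ≤ c →
    c ≤ 1 / 10 → WE V t0 t1 (4 * (2 * Real.pi) ^ 2 * σ)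
  smooth : ∀ (V : Fld) (t0 t1 lam g ρ c A : ℝ), BI V t0 t1 lam g 0 ρ c A → 0 < ρ → 0 ≤ c →
    c ≤ 1 / 10 → ∀ n : ℕ,
    ContDiffOn ℝ n (fun x : (Fin 2 → ℝ) × ℝ => V x.1 x.2) (Set.univ ×ˢ Set.Ioo t0 t1)

end ES

namespace ES

/-- Union of a finite family of closed intervals. -/
def UI (S : Finset (ℝ × ℝ)) : Set ℝ := ⋃ I ∈ S, Set.Icc I.1 I.2

/-- Output of the recursion (Part III), input of the final part (Part IV).
`S q` contains the bad intervals of stage `q` and the end points of all pieces (as degenerate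
intervals `(a,a)`). -/
structure Stages (β T e C : ℝ) (V : ℕ → Fld) (S : ℕ → Finset (ℝ × ℝ)) (lam del ep : ℕ → ℝ) :
    Prop where
  he : 0 < e
  hC : 0 ≤ C
  per : ∀ q t, PerF (V q) t
  divf : ∀ q t, DF (V q) t
  weak : ∀ q, WE (V q) 0 T (ep q)
  ep0 : Filter.Tendsto ep Filter.atTop (nhds 0)
  lip : ∀ q, Lp (V q) 0 T (C * lam q * Real.sqrt (del q))
  inc : ∀ q x t a, |V (q + 1) x t a - V q x t a| ≤ C * Real.sqrt (del (q + 1))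
  left : ∀ q x t, t ≤ T / 3 → V q x t = 0
  right : ∀ q x t, 2 * T / 3 ≤ t → V q x t = fun a => if a = 0 then e * Real.sin (x 1) else 0
  mem : ∀ q, ∀ I ∈ S q, T / 3 ≤ I.1 ∧ I.1 ≤ I.2 ∧ I.2 ≤ 2 * T / 3
  nest : ∀ q, UI (S (q + 1)) ⊆ UI (S q)
  stay : ∀ q x t, t ∉ UI (S q) → V (q + 1) x t = V q x t
  smooth : ∀ q, ∀ n : ℕ, ContDiffOn ℝ n (fun x : (Fin 2 → ℝ) × ℝ => V q x.1 x.2)
    (Set.univ ×ˢ (UI (S q))ᶜ)
  cover : ∀ s : ℝ, 2 * β / (1 - β) < s →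
    Filter.Tendsto (fun q => ∑ I ∈ S q, (I.2 - I.1) ^ s) Filter.atTop (nhds 0)
  hlam : ∃ q0 : ℕ, 1 ≤ q0 ∧ ∀ q, lam q = 2 ^ ((q + q0) ^ 4) ∧
    del q = (lam q) ^ (-2 * β) * ((2 : ℝ) ^ (2 * (q + q0)))⁻¹

/-- Statement of Part III. -/
def RecursionStatement : Prop :=
  ∀ β T : ℝ, 0 ≤ β → β < 1 / 3 → 0 < T →
    ∃ (e C : ℝ) (V : ℕ → Fld) (S : ℕ → Finset (ℝ × ℝ)) (lam del ep : ℕ → ℝ),
      Stages β T e C V S lam del ep

end ES
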