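import Pool.Agent.ES.Defs

/-!
ES-LTime: time operations (`tcomp`, `tcl`, `frz`, `cst`, `intg`), clamped elements `Cl`, and the
time derivative `TD`.
Everything is coefficientwise, except the product rule `TD.mul`: there use
`hasDerivAt_tsum_of_isPreconnected` on `Set.Ioo a b` with the summable bound
`‖f.co μ‖ * ‖g'.co (ν-μ)‖ + ‖f'.co μ‖ * ‖g.co (ν-μ)‖` (cf. `conv_summable`, `summable_prod_shift`).
-/

open scoped BoundedContinuousFunction

namespace ES


private theorem LTime_ext {f g : WT} (h : ∀ ν t, f.co ν t = g.co ν t) : f = g := by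
  apply WT.ext
  funext ν
  ext t
  exact h ν t

private theorem LTime_cst_co (φ : Ct) (ν : Gx) : (cst φ).co ν = if ν = 0 then φ else 0 := by
  change (Pi.single 0 φ : Gx → Ct) ν = _
  rw [Pi.single_apply]

private theorem LTime_one_co (ν : Gx) : (1 : WT).co ν = if ν = 0 then 1 else 0 := by
  rw [WT.co_one, Pi.single_apply]

/-! products with functions of time -/

theorem cst_mul_co (φ : Ct) (f : WT) (ν : Gx) : (cst φ * f).co ν = φ * f.co ν := by
  rw [WT.mul_co, tsum_eq_single 0]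
  · rw [LTime_cst_co, if_pos rfl, sub_zero]
  · intro μ hμ
    rw [LTime_cst_co, if_neg hμ, zero_mul]

theorem cst_one : cst 1 = 1 := by
  exact WT.ext rfl

theorem cst_mul (φ ψ : Ct) : cst (φ * ψ) = cst φ * cst ψ := by
  apply WT.ext
  funext ν
  rw [cst_mul_co, LTime_cst_co, LTime_cst_co]
  split_ifs
  · rfl
  · rw [mul_zero]

theorem cst_add (φ ψ : Ct) : cst (φ + ψ) = cst φ + cst ψ := by
  apply WT.ext
  funext ν
  rw [WT.co_add, Pi.add_apply, LTime_cst_co, LTime_cst_co, LTime_cst_co]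
  split_ifs
  · rfl
  · rw [add_zero]

theorem cst_neg (φ : Ct) : cst (-φ) = -cst φ := by
  apply WT.ext
  funext ν
  rw [WT.co_neg, Pi.neg_apply, LTime_cst_co, LTime_cst_co]
  split_ifs
  · rfl
  · rw [neg_zero]

theorem cst_const (c : ℂ) : cst (BoundedContinuousFunction.const ℝ c) = c • (1 : WT) := by
  apply LTime_ext
  intro ν t
  rw [WT.co_smul, Pi.smul_apply, LTime_cst_co, LTime_one_co]
  split_ifs
  · simp
  · simp

theorem mlt_cst_mul {s : Gx → ℂ} (hs : PG s) (φ : Ct) (f : WT) :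
    mlt s hs (cst φ * f) = cst φ * mlt s hs f := by
  apply WT.ext
  funext ν
  rw [mlt_co, cst_mul_co, cst_mul_co, mlt_co, mul_smul_comm]

/-! `tcomp` is a ring homomorphism commuting with multipliers -/

theorem tcomp_co (g : C(ℝ, ℝ)) (f : WT) (ν : Gx) (t : ℝ) :
    (tcomp g f).co ν t = f.co ν (g t) := rfl

theorem tcomp_add (g : C(ℝ, ℝ)) (f h : WT) : tcomp g (f + h) = tcomp g f + tcomp g h := by
  exact LTime_ext fun ν t => rfl

theorem tcomp_neg (g : C(ℝ, ℝ)) (f : WT) : tcomp g (-f) = -tcomp g f := by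
  exact LTime_ext fun ν t => rfl

theorem tcomp_sub (g : C(ℝ, ℝ)) (f h : WT) : tcomp g (f - h) = tcomp g f - tcomp g h := by
  rw [sub_eq_add_neg, sub_eq_add_neg, tcomp_add, tcomp_neg]

theorem tcomp_mul (g : C(ℝ, ℝ)) (f h : WT) : tcomp g (f * h) = tcomp g f * tcomp g h := by
  apply LTime_ext
  intro ν t
  rw [tcomp_co, WT.mul_co_apply, WT.mul_co_apply]
  rfl

theorem tcomp_one (g : C(ℝ, ℝ)) : tcomp g 1 = 1 := by
  apply LTime_ext
  intro ν t
  rw [tcomp_co, LTime_one_co]
  split_ifs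
  · rfl
  · rfl

theorem tcomp_zero (g : C(ℝ, ℝ)) : tcomp g 0 = 0 := by
  exact LTime_ext fun ν t => rfl

theorem tcomp_smul (g : C(ℝ, ℝ)) (c : ℂ) (f : WT) : tcomp g (c • f) = c • tcomp g f := by
  exact LTime_ext fun ν t => rfl

theorem tcomp_sum (g : C(ℝ, ℝ)) {ι : Type*} (s : Finset ι) (f : ι → WT) :
    tcomp g (∑ j ∈ s, f j) = ∑ j ∈ s, tcomp g (f j) := by
  classical
  induction s using Finset.induction_on with
  | empty => rw [Finset.sum_empty, Finset.sum_empty, tcomp_zero]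
  | insert j s hj ih => rw [Finset.sum_insert hj, Finset.sum_insert hj, tcomp_add, ih]

theorem tcomp_mlt (g : C(ℝ, ℝ)) {s : Gx → ℂ} (hs : PG s) (f : WT) :
    tcomp g (mlt s hs f) = mlt s hs (tcomp g f) := by
  exact LTime_ext fun ν t => rfl

theorem tcomp_D (g : C(ℝ, ℝ)) (κ : Kp) (a : Fin 2) (f : WT) :
    tcomp g (D κ a f) = D κ a (tcomp g f) := by
  exact tcomp_mlt g _ f

theorem tcomp_cst (g : C(ℝ, ℝ)) (φ : Ct) : tcomp g (cst φ) = cst (φ.compContinuous g) := by
  apply LTime_ext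
  intro ν t
  rw [tcomp_co, LTime_cst_co, LTime_cst_co]
  split_ifs
  · rfl
  · rfl

theorem tcomp_tcomp (g h : C(ℝ, ℝ)) (f : WT) : tcomp g (tcomp h f) = tcomp (h.comp g) f := by
  exact LTime_ext fun ν t => rfl

theorem tcomp_pow (g : C(ℝ, ℝ)) (f : WT) (n : ℕ) : tcomp g (f ^ n) = tcomp g f ^ n := by
  induction n with
  | zero => rw [pow_zero, pow_zero, tcomp_one]
  | succ n ih => rw [pow_succ, pow_succ, tcomp_mul, ih]

/-! clamped elements -/

theorem clp_of_mem {a b t : ℝ} (h : t ∈ Set.Icc a b) : clp a b t = t := by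
  unfold clp
  rw [min_eq_right h.2, max_eq_right h.1]

theorem clp_mem {a b : ℝ} (hab : a ≤ b) (t : ℝ) : clp a b t ∈ Set.Icc a b := by
  unfold clp
  exact ⟨le_max_left _ _, max_le hab (min_le_left _ _)⟩

theorem clp_clp {a b : ℝ} (hab : a ≤ b) (t : ℝ) : clp a b (clp a b t) = clp a b t := by
  exact clp_of_mem (clp_mem hab t)

theorem Cl_iff {a b : ℝ} (f : WT) : Cl a b f ↔ ∀ ν t, f.co ν (clp a b t) = f.co ν t := by
  constructor
  · intro h ν t
    have h1 := congrArg (fun g : WT => g.co ν t) h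
    exact h1
  · intro h
    exact LTime_ext fun ν t => h ν t

theorem Cl.tcl {a b : ℝ} (hab : a ≤ b) (f : WT) : Cl a b (ES.tcl a b f) := by
  rw [Cl_iff]
  intro ν t
  change f.co ν (clp a b (clp a b t)) = f.co ν (clp a b t)
  rw [clp_clp hab]

/-- A clamped element is determined by its values on `[a,b]`. -/
theorem Cl.ext {a b : ℝ} (hab : a ≤ b) {f g : WT} (hf : Cl a b f) (hg : Cl a b g)
    (h : ∀ ν, ∀ t ∈ Set.Icc a b, f.co ν t = g.co ν t) : f = g := by
  apply LTime_ext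
  intro ν t
  rw [← (Cl_iff f).1 hf ν t, ← (Cl_iff g).1 hg ν t]
  exact h ν _ (clp_mem hab t)

/-- By continuity the open interval suffices. -/
theorem Cl.ext' {a b : ℝ} (hab : a < b) {f g : WT} (hf : Cl a b f) (hg : Cl a b g)
    (h : ∀ ν, ∀ t ∈ Set.Ioo a b, f.co ν t = g.co ν t) : f = g := by
  refine Cl.ext hab.le hf hg fun ν t ht => ?_
  have h1 : Set.EqOn (f.co ν) (g.co ν) (Set.Ioo a b) := fun t ht => h ν t ht
  have h2 := h1.closure (f.co ν).continuous (g.co ν).continuous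
  rw [closure_Ioo hab.ne] at h2
  exact h2 ht

theorem Cl.zero (a b : ℝ) : Cl a b 0 := by
  exact tcomp_zero _

theorem Cl.one (a b : ℝ) : Cl a b 1 := by
  exact tcomp_one _

theorem Cl.add {a b : ℝ} {f g : WT} (hf : Cl a b f) (hg : Cl a b g) : Cl a b (f + g) := by
  have hf' : ES.tcl a b f = f := hf
  have hg' : ES.tcl a b g = g := hg
  unfold Cl ES.tcl
  rw [tcomp_add]
  change ES.tcl a b f + ES.tcl a b g = f + g
  rw [hf', hg']

theorem Cl.neg {a b : ℝ} {f : WT} (hf : Cl a b f) : Cl a b (-f) := by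
  have hf' : ES.tcl a b f = f := hf
  unfold Cl ES.tcl
  rw [tcomp_neg]
  change -ES.tcl a b f = -f
  rw [hf']

theorem Cl.sub {a b : ℝ} {f g : WT} (hf : Cl a b f) (hg : Cl a b g) : Cl a b (f - g) := by
  rw [sub_eq_add_neg]
  exact hf.add hg.neg

theorem Cl.mul {a b : ℝ} {f g : WT} (hf : Cl a b f) (hg : Cl a b g) : Cl a b (f * g) := by
  have hf' : ES.tcl a b f = f := hf
  have hg' : ES.tcl a b g = g := hg
  unfold Cl ES.tcl
  rw [tcomp_mul]
  change ES.tcl a b f * ES.tcl a b g = f * g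
  rw [hf', hg']

theorem Cl.smul {a b : ℝ} (c : ℂ) {f : WT} (hf : Cl a b f) : Cl a b (c • f) := by
  have hf' : ES.tcl a b f = f := hf
  unfold Cl ES.tcl
  rw [tcomp_smul]
  change c • ES.tcl a b f = c • f
  rw [hf']

theorem Cl.mlt {a b : ℝ} {s : Gx → ℂ} (hs : PG s) {f : WT} (hf : Cl a b f) :
    Cl a b (ES.mlt s hs f) := by
  have hf' : ES.tcl a b f = f := hf
  unfold Cl ES.tcl
  rw [tcomp_mlt]
  change ES.mlt s hs (ES.tcl a b f) = ES.mlt s hs f
  rw [hf']

theorem Cl.D {a b : ℝ} (κ : Kp) (c : Fin 2) {f : WT} (hf : Cl a b f) : Cl a b (ES.D κ c f) := by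
  exact Cl.mlt _ hf

theorem Cl.sum {a b : ℝ} {ι : Type*} (s : Finset ι) {f : ι → WT} (hf : ∀ j ∈ s, Cl a b (f j)) :
    Cl a b (∑ j ∈ s, f j) := by
  unfold Cl ES.tcl
  rw [tcomp_sum]
  exact Finset.sum_congr rfl fun j hj => hf j hj

theorem Cl.intg {a b : ℝ} (hab : a ≤ b) (f : WT) : Cl a b (ES.intg a b f) := by
  rw [Cl_iff]
  intro ν t
  rw [intg_co, intg_co, clp_clp hab]

/-- Integrals over a subinterval are clamped to the larger interval. -/
theorem Cl.intg_sub {a b s₁ s₂ : ℝ} (h1 : a ≤ s₁) (h2 : s₁ ≤ s₂) (h3 : s₂ ≤ b) (f : WT) :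
    Cl a b (ES.intg s₁ s₂ f) := by
  rw [Cl_iff]
  intro ν t
  have e : clp s₁ s₂ (clp a b t) = clp s₁ s₂ t := by
    unfold clp
    rcases le_total t a with h | h
    · have e1 : max a (min b t) = a := by
        rw [min_eq_right (by linarith), max_eq_left h]
      rw [e1, min_eq_right (by linarith), max_eq_left h1, min_eq_right (by linarith),
        max_eq_left (by linarith)]
    · rcases le_total t b with h' | h'
      · rw [min_eq_right h', max_eq_right h]
      · have e1 : max a (min b t) = b := by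
          rw [min_eq_left h', max_eq_right (by linarith)]
        rw [e1, min_eq_left h3, min_eq_left (by linarith)]
  rw [intg_co, intg_co, e]

/-- Time independent elements are clamped. -/
theorem Cl.frz (a b t₀ : ℝ) (f : WT) : Cl a b (ES.frz t₀ f) := by
  rw [Cl_iff]
  intro ν t
  rfl

theorem frz_frz (t₀ t₁ : ℝ) (f : WT) : frz t₀ (frz t₁ f) = frz t₁ f := by
  exact LTime_ext fun ν t => rfl

theorem frz_co (t₀ : ℝ) (f : WT) (ν : Gx) (t : ℝ) : (frz t₀ f).co ν t = f.co ν t₀ := rfl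

theorem Lev.tcomp {i : ℕ} (g : C(ℝ, ℝ)) {f : WT} (hf : Lev i f) : Lev i (ES.tcomp g f) := by
  intro ν hν
  ext t
  rw [tcomp_co, hf ν hν]
  rfl

theorem Lev.intg {i : ℕ} (a b : ℝ) {f : WT} (hf : Lev i f) : Lev i (ES.intg a b f) := by
  intro ν hν
  ext t
  rw [intg_co, hf ν hν]
  simp

theorem intg_mlt (a b : ℝ) {s : Gx → ℂ} (hs : PG s) (f : WT) :
    intg a b (mlt s hs f) = mlt s hs (intg a b f) := by
  apply LTime_ext
  intro ν t
  rw [intg_co, mlt_co, mlt_co, BoundedContinuousFunction.coe_smul]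
  change _ = s ν • (ES.intg a b f).co ν t
  rw [intg_co]
  exact intervalIntegral.integral_smul (s ν) _

theorem intg_D (a b : ℝ) (κ : Kp) (c : Fin 2) (f : WT) :
    intg a b (D κ c f) = D κ c (intg a b f) := by
  exact intg_mlt a b _ f

theorem intg_mean (a b : ℝ) (i : ℕ) (f : WT) : intg a b (mean i f) = mean i (intg a b f) := by
  exact intg_mlt a b _ f

theorem intg_osc (a b : ℝ) (i : ℕ) (f : WT) : intg a b (osc i f) = osc i (intg a b f) := by
  exact intg_mlt a b _ f

private theorem LTime_intc_cont (a b : ℝ) :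
    ∃ T : Ct →L[ℂ] Ct, ∀ φ, T φ = intc a b φ := by
  refine ⟨LinearMap.mkContinuous
    { toFun := intc a b
      map_add' := fun φ ψ => by
        ext t
        rw [intc_apply, BoundedContinuousFunction.coe_add]
        exact intervalIntegral.integral_add (φ.continuous.intervalIntegrable _ _)
          (ψ.continuous.intervalIntegrable _ _)
      map_smul' := fun c φ => by
        ext t
        rw [intc_apply, BoundedContinuousFunction.coe_smul]
        exact intervalIntegral.integral_smul c _ } |b - a| (fun φ => ?_), fun φ => rfl⟩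
  rw [mul_comm]
  exact norm_intc_le a b φ

theorem intg_frz_mul (a b t₀ : ℝ) (f g : WT) :
    intg a b (frz t₀ f * g) = frz t₀ f * intg a b g := by
  apply WT.ext
  funext ν
  obtain ⟨T, hT⟩ := LTime_intc_cont a b
  have h := conv_summable (frz t₀ f).rapid g.rapid ν
  have h1 : T ((frz t₀ f * g).co ν) = ∑' μ, T ((frz t₀ f).co μ * g.co (ν - μ)) := by
    rw [WT.mul_co]
    exact T.map_tsum h
  have h2 : (intg a b (frz t₀ f * g)).co ν = T ((frz t₀ f * g).co ν) := by
    rw [hT]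
    rfl
  rw [h2, h1, WT.mul_co]
  refine tsum_congr fun μ => ?_
  rw [hT]
  ext t
  rw [intc_apply, BoundedContinuousFunction.mul_apply, intg_co, frz_co]
  have e : ∀ s, ((frz t₀ f).co μ * g.co (ν - μ)) s = f.co μ t₀ * g.co (ν - μ) s := fun s => rfl
  simp only [e]
  rw [intervalIntegral.integral_const_mul]

theorem intg_at_left {a b : ℝ} (hab : a ≤ b) (f : WT) : frz a (intg a b f) = 0 := by
  apply LTime_ext
  intro ν t
  rw [frz_co, intg_co, clp_of_mem (Set.left_mem_Icc.2 hab)]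
  simp

/-! time derivative -/

theorem TD.mono {a b a' b' : ℝ} (h1 : a ≤ a') (h2 : b' ≤ b) {f g : WT} (h : TD a b f g) :
    TD a' b' f g := by
  intro ν t ht
  exact h ν t ⟨lt_of_le_of_lt h1 ht.1, lt_of_lt_of_le ht.2 h2⟩

theorem TD.zero (a b : ℝ) : TD a b 0 0 := by
  intro ν t ht
  exact hasDerivAt_const t _

theorem TD.one (a b : ℝ) : TD a b 1 0 := by
  intro ν t ht
  rw [LTime_one_co]
  split_ifs
  · exact hasDerivAt_const t _
  · exact hasDerivAt_const t _

theorem TD.frz (a b t₀ : ℝ) (f : WT) : TD a b (ES.frz t₀ f) 0 := by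
  intro ν t ht
  exact hasDerivAt_const t (f.co ν t₀)

theorem TD.add {a b : ℝ} {f f' g g' : WT} (hf : TD a b f f') (hg : TD a b g g') :
    TD a b (f + g) (f' + g') := by
  intro ν t ht
  exact (hf ν t ht).add (hg ν t ht)

theorem TD.neg {a b : ℝ} {f f' : WT} (hf : TD a b f f') : TD a b (-f) (-f') := by
  intro ν t ht
  exact (hf ν t ht).neg

theorem TD.sub {a b : ℝ} {f f' g g' : WT} (hf : TD a b f f') (hg : TD a b g g') :
    TD a b (f - g) (f' - g') := by
  rw [sub_eq_add_neg, sub_eq_add_neg]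
  exact hf.add hg.neg

theorem TD.smul {a b : ℝ} (c : ℂ) {f f' : WT} (hf : TD a b f f') : TD a b (c • f) (c • f') := by
  intro ν t ht
  exact (hf ν t ht).const_smul c

theorem TD.sum {a b : ℝ} {ι : Type*} (s : Finset ι) {f f' : ι → WT}
    (hf : ∀ j ∈ s, TD a b (f j) (f' j)) : TD a b (∑ j ∈ s, f j) (∑ j ∈ s, f' j) := by
  classical
  induction s using Finset.induction_on with
  | empty =>
    rw [Finset.sum_empty, Finset.sum_empty]
    exact TD.zero a b
  | insert j s hj ih =>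
    rw [Finset.sum_insert hj, Finset.sum_insert hj]
    exact (hf j (Finset.mem_insert_self j s)).add
      (ih fun i hi => hf i (Finset.mem_insert_of_mem hi))

theorem TD.mul {a b : ℝ} {f f' g g' : WT} (hf : TD a b f f') (hg : TD a b g g') :
    TD a b (f * g) (f' * g + f * g') := by
  intro ν t ht
  have e : (fun s => (f * g).co ν s) = fun s => ∑' μ, f.co μ s * g.co (ν - μ) s := by
    funext s
    exact WT.mul_co_apply f g ν s
  have s1 : Summable fun μ => ‖f'.co μ‖ * ‖g.co (ν - μ)‖ :=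
    (summable_prod_shift (rapid_norm f'.rapid) (rapid_norm g.rapid) (fun _ => norm_nonneg _)
      (fun _ => norm_nonneg _)).prod_factor ν
  have s2 : Summable fun μ => ‖f.co μ‖ * ‖g'.co (ν - μ)‖ :=
    (summable_prod_shift (rapid_norm f.rapid) (rapid_norm g'.rapid) (fun _ => norm_nonneg _)
      (fun _ => norm_nonneg _)).prod_factor ν
  have s0 : Summable fun μ => ‖f.co μ‖ * ‖g.co (ν - μ)‖ :=
    (summable_prod_shift (rapid_norm f.rapid) (rapid_norm g.rapid) (fun _ => norm_nonneg _)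
      (fun _ => norm_nonneg _)).prod_factor ν
  have hb : ∀ (u v : WT) (μ : Gx) (s : ℝ),
      ‖u.co μ s * v.co (ν - μ) s‖ ≤ ‖u.co μ‖ * ‖v.co (ν - μ)‖ := by
    intro u v μ s
    rw [norm_mul]
    exact mul_le_mul ((u.co μ).norm_coe_le_norm s) ((v.co (ν - μ)).norm_coe_le_norm s)
      (norm_nonneg _) (norm_nonneg _)
  have h1 : HasDerivAt (fun s => ∑' μ, f.co μ s * g.co (ν - μ) s)
      (∑' μ, (f'.co μ t * g.co (ν - μ) t + f.co μ t * g'.co (ν - μ) t)) t := by
    refine hasDerivAt_tsum_of_isPreconnected (s1.add s2) isOpen_Ioo isPreconnected_Ioo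
      (g' := fun μ s => f'.co μ s * g.co (ν - μ) s + f.co μ s * g'.co (ν - μ) s)
      (fun μ s hs => (hf μ s hs).mul (hg (ν - μ) s hs)) (fun μ s hs => ?_) ht
      (Summable.of_norm_bounded s0 fun μ => hb f g μ t) ht
    exact (norm_add_le _ _).trans (add_le_add (hb f' g μ s) (hb f g' μ s))
  have e2 : (f' * g + f * g').co ν t =
      ∑' μ, (f'.co μ t * g.co (ν - μ) t + f.co μ t * g'.co (ν - μ) t) := by
    rw [(Summable.of_norm_bounded s1 fun μ => hb f' g μ t).tsum_add
      (Summable.of_norm_bounded s2 fun μ => hb f g' μ t), WT.co_add]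
    change (f' * g).co ν t + (f * g').co ν t = _
    rw [WT.mul_co_apply, WT.mul_co_apply]
  rw [e, e2]
  exact h1

theorem TD.mlt {a b : ℝ} {s : Gx → ℂ} (hs : PG s) {f f' : WT} (hf : TD a b f f') :
    TD a b (ES.mlt s hs f) (ES.mlt s hs f') := by
  intro ν t ht
  exact (hf ν t ht).const_smul (s ν)

theorem TD.D {a b : ℝ} (κ : Kp) (c : Fin 2) {f f' : WT} (hf : TD a b f f') :
    TD a b (ES.D κ c f) (ES.D κ c f') := by
  exact TD.mlt _ hf

theorem TD.cst {a b : ℝ} {φ φ' : Ct} (h : ∀ t ∈ Set.Ioo a b, HasDerivAt φ (φ' t) t) :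
    TD a b (ES.cst φ) (ES.cst φ') := by
  intro ν t ht
  rw [LTime_cst_co, LTime_cst_co]
  split_ifs
  · exact h t ht
  · exact hasDerivAt_const t _

theorem TD.intg {a b : ℝ} (f : WT) : TD a b (ES.intg a b f) f := by
  intro ν t ht
  have h1 : HasDerivAt (fun s => ∫ x in a..s, f.co ν x) (f.co ν t) t :=
    ((f.co ν).continuous.integral_hasStrictDerivAt a t).hasDerivAt
  refine h1.congr_of_eventuallyEq ?_
  filter_upwards [Ioo_mem_nhds ht.1 ht.2] with s hs
  rw [intg_co, clp_of_mem (Set.Ioo_subset_Icc_self hs)]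

/-- On a subinterval of `(s₁,s₂)`. -/
theorem TD.intg_sub {a b s₁ s₂ : ℝ} (h1 : s₁ ≤ a) (h2 : b ≤ s₂) (f : WT) :
    TD a b (ES.intg s₁ s₂ f) f := by
  exact (TD.intg f).mono h1 h2

/-- Uniqueness of the derivative, up to clamping. -/
theorem TD.unique {a b : ℝ} (hab : a < b) {f g g' : WT} (h : TD a b f g) (h' : TD a b f g')
    (hg : Cl a b g) (hg' : Cl a b g') : g = g' := by
  exact Cl.ext' hab hg hg' fun ν t ht => (h ν t ht).unique (h' ν t ht)

/-- Change of the derivative on the open interval. -/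
theorem TD.congr {a b : ℝ} {f f₁ g g₁ : WT} (h : TD a b f g)
    (h1 : ∀ ν, ∀ t ∈ Set.Ioo a b, f₁.co ν t = f.co ν t)
    (h2 : ∀ ν, ∀ t ∈ Set.Ioo a b, g₁.co ν t = g.co ν t) : TD a b f₁ g₁ := by
  intro ν t ht
  rw [h2 ν t ht]
  refine (h ν t ht).congr_of_eventuallyEq ?_
  filter_upwards [Ioo_mem_nhds ht.1 ht.2] with s hs
  exact h1 ν s hs

/-- Fundamental theorem. -/
theorem TD.eq_intg {a b : ℝ} (hab : a ≤ b) {f g : WT} (h : TD a b f g) (hf : Cl a b f) :
    f = ES.frz a f + ES.intg a b g := by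
  apply LTime_ext
  intro ν t
  have hc := clp_mem hab t
  have h1 : ∫ s in a..clp a b t, g.co ν s = f.co ν (clp a b t) - f.co ν a :=
    intervalIntegral.integral_eq_sub_of_hasDerivAt_of_le hc.1 (f.co ν).continuous.continuousOn
      (fun s hs => h ν s ⟨hs.1, lt_of_lt_of_le hs.2 hc.2⟩)
      ((g.co ν).continuous.intervalIntegrable _ _)
  rw [(Cl_iff f).1 hf ν t] at h1
  change f.co ν t = f.co ν a + (ES.intg a b g).co ν t
  rw [intg_co, h1]
  ring

/-- Value at the right end. -/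
theorem frz_right_intg {a b : ℝ} (hab : a ≤ b) (f : WT) (ν : Gx) (t : ℝ) :
    (frz b (intg a b f)).co ν t = ∫ s in a..b, f.co ν s := by
  rw [frz_co, intg_co, clp_of_mem (Set.right_mem_Icc.2 hab)]

end ES
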