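import Pool.Agent.ES.LBd
import Pool.Agent.ES.LTime

/-!
ES-LAbs: absorption and closure of the bounds.
The set of `c` with `Bd k r f c` is `[N, ∞)` (if nonempty): the minimal majorant is
`m ν = sup_t (1+|ν|)^k e^{r(t)|ν|} ‖f_ν(t)‖`.
-/

open scoped BoundedContinuousFunction

namespace ES

/-- Closure. -/
theorem Bd.closed {k : ℕ} {r : ℝ → ℝ} {f : WT} {c : ℝ} (h : ∀ e > 0, Bd k r f (c + e)) :
    Bd k r f c := by
  obtain ⟨M1, hM10, hM1, _, hM1b⟩ := h 1 one_pos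
  have hbdd : ∀ ν, BddAbove (Set.range fun t : ℝ =>
      (1 + (len ν : ℝ)) ^ k * Real.exp (r t * len ν) * ‖f.co ν t‖) := by
    intro ν
    refine ⟨M1 ν, ?_⟩
    rintro _ ⟨t, rfl⟩
    exact hM1b ν t
  have h0 : ∀ ν, 0 ≤ ⨆ t : ℝ, (1 + (len ν : ℝ)) ^ k * Real.exp (r t * len ν) * ‖f.co ν t‖ := by
    intro ν
    exact Real.iSup_nonneg fun t => by positivity
  have hle : ∀ M : Gx → ℝ, (∀ ν t, (1 + (len ν : ℝ)) ^ k * Real.exp (r t * len ν) * ‖f.co ν t‖
      ≤ M ν) → ∀ ν, (⨆ t : ℝ, (1 + (len ν : ℝ)) ^ k * Real.exp (r t * len ν) * ‖f.co ν t‖)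
      ≤ M ν := fun M hM ν => ciSup_le fun t => hM ν t
  have hs : Summable fun ν => ⨆ t : ℝ,
      (1 + (len ν : ℝ)) ^ k * Real.exp (r t * len ν) * ‖f.co ν t‖ :=
    Summable.of_nonneg_of_le h0 (hle M1 hM1b) hM1
  refine ⟨fun ν => ⨆ t : ℝ, (1 + (len ν : ℝ)) ^ k * Real.exp (r t * len ν) * ‖f.co ν t‖,
    h0, hs, ?_, fun ν t => le_ciSup (hbdd ν) t⟩
  refine le_of_forall_pos_le_add fun e he => ?_
  obtain ⟨M, _, hM, hMc, hMb⟩ := h e he
  exact (hs.tsum_le_tsum (hle M hMb) hM).trans hMc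

/-- Absorption for a family. -/
theorem Bd.absorbV {ι : Type*} {k : ℕ} {r : ℝ → ℝ} {f : ι → WT} {c0 a : ℝ}
    (h0 : ∀ j, Bd k r (f j) c0)
    (h : ∀ c, 0 ≤ c → (∀ j, Bd k r (f j) c) → ∀ j, Bd k r (f j) (a + c / 2)) (j : ι) :
    Bd k r (f j) (2 * a) := by
  have hn : ∀ n : ℕ, ∀ i, Bd k r (f i) (2 * a + (c0 - 2 * a) * (1 / 2) ^ n) := by
    intro n
    induction n with
    | zero =>
      intro i
      simpa using h0 i
    | succ n ih =>
      intro i
      have h1 := h _ (ih i).nonneg ih i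
      refine h1.mono (le_of_eq ?_)
      rw [pow_succ]
      ring
  refine Bd.closed fun e he => ?_
  have ht : Filter.Tendsto (fun n : ℕ => (c0 - 2 * a) * (1 / 2 : ℝ) ^ n) Filter.atTop
      (nhds ((c0 - 2 * a) * 0)) :=
    (tendsto_pow_atTop_nhds_zero_of_lt_one (by norm_num) (by norm_num)).const_mul _
  rw [mul_zero] at ht
  obtain ⟨n, hn'⟩ := (ht.eventually (gt_mem_nhds he)).exists
  exact (hn n j).mono (by linarith)

/-- A family with contraction property vanishes. -/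
theorem Bd.absorb0 {ι : Type*} {k : ℕ} {r : ℝ → ℝ} {f : ι → WT} {c0 : ℝ}
    (h0 : ∀ j, Bd k r (f j) c0)
    (h : ∀ c, 0 ≤ c → (∀ j, Bd k r (f j) c) → ∀ j, Bd k r (f j) (c / 2)) (j : ι) :
    f j = 0 := by
  have h1 : Bd k r (f j) (2 * 0) := by
    refine Bd.absorbV (a := 0) h0 (fun c hc hj i => ?_) j
    simpa using h c hc hj i
  exact Bd.eq_zero fun c hc => h1.mono (by linarith)

/-- Bounds with a small radius from a bound at a constant positive radius; every element with a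
bound at a positive radius has all powers at smaller radii. -/
theorem Bd.of_cr {k : ℕ} {ρ : ℝ} {r : ℝ → ℝ} {f : WT} {c : ℝ} (h : Bd k (cr ρ) f c)
    (hr : ∀ t, r t ≤ ρ) : Bd k r f c := h.weaken le_rfl hr

/-- Constant radius bounds from a radius bounded below. -/
theorem Bd.to_cr {k : ℕ} {ρ : ℝ} {r : ℝ → ℝ} {f : WT} {c : ℝ} (h : Bd k r f c)
    (hr : ∀ t, ρ ≤ r t) : Bd k (cr ρ) f c := h.weaken le_rfl hr

/-- Time average: if `Cl t0 t1 f` and `t0 < t1` then the frozen average is bounded. -/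
theorem Bd.avg {k : ℕ} {ρ : ℝ} {f : WT} {c t0 t1 : ℝ} (ht : t0 < t1) (h : Bd k (cr ρ) f c) :
    Bd k (cr ρ) (((t1 - t0 : ℝ) : ℂ)⁻¹ • ES.frz t1 (ES.intg t0 t1 f)) c := by
  have h1 : Bd k (cr ρ) (ES.intg t0 t1 f) ((t1 - t0) * c) :=
    Bd.intg ht.le (fun _ _ _ => le_rfl) h
  have h2 : Bd k (cr ρ) (ES.frz t1 (ES.intg t0 t1 f)) ((t1 - t0) * c) := Bd.frz t1 h1
  refine (Bd.smul (((t1 - t0 : ℝ) : ℂ)⁻¹) h2).mono (le_of_eq ?_)
  have h3 : 0 < t1 - t0 := by linarith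
  rw [norm_inv, Complex.norm_real, Real.norm_eq_abs, abs_of_pos h3]
  field_simp

/-- Difference of an element and its value at a time, from a bound of the derivative. -/
theorem Bd.sub_frz {k : ℕ} {ρ : ℝ} {f f' : WT} {c t0 t1 : ℝ} (ht : t0 < t1) (hTD : TD t0 t1 f f')
    (hCl : Cl t0 t1 f) (h : Bd k (cr ρ) f' c) (s : ℝ) :
    Bd k (cr ρ) (f - ES.frz s f) ((t1 - t0) * c) := by
  obtain ⟨M, hM0, hM, hMc, hMb⟩ := h
  have hd : 0 < t1 - t0 := by linarith
  refine ⟨fun ν => (t1 - t0) * M ν, fun ν => mul_nonneg hd.le (hM0 ν), hM.mul_left _, ?_,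
    fun ν t => ?_⟩
  · rw [tsum_mul_left]
    exact mul_le_mul_of_nonneg_left hMc hd.le
  · rw [Cl_iff] at hCl
    obtain ⟨W, hW⟩ : ∃ W, W = (1 + (len ν : ℝ)) ^ k * Real.exp (cr ρ t * len ν) := ⟨_, rfl⟩
    have hWpos : 0 < W := by rw [hW]; positivity
    have hf' : ∀ y, ‖f'.co ν y‖ ≤ M ν / W := by
      intro y
      rw [le_div_iff₀ hWpos, mul_comm, hW]
      exact hMb ν y
    have hC0 : 0 ≤ M ν / W := (norm_nonneg _).trans (hf' 0)
    -- increments on the closed interval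
    have key : ∀ x y, t0 ≤ x → x ≤ y → y ≤ t1 →
        ‖f.co ν y - f.co ν x‖ ≤ (M ν / W) * (t1 - t0) := by
      intro x y hx hxy hy
      have h1 : ∫ z in x..y, f'.co ν z = f.co ν y - f.co ν x := by
        refine intervalIntegral.integral_eq_sub_of_hasDerivAt_of_le hxy
          (f.co ν).continuous.continuousOn (fun z hz => ?_)
          ((f'.co ν).continuous.intervalIntegrable _ _)
        exact hTD ν z ⟨lt_of_le_of_lt hx hz.1, lt_of_lt_of_le hz.2 hy⟩
      rw [← h1]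
      refine (intervalIntegral.norm_integral_le_of_norm_le_const fun z _ => hf' z).trans ?_
      rw [abs_of_nonneg (by linarith)]
      exact mul_le_mul_of_nonneg_left (by linarith) hC0
    have hcl := fun u : ℝ => clp_mem ht.le u
    have hfin : ‖f.co ν t - f.co ν s‖ ≤ (M ν / W) * (t1 - t0) := by
      rw [← hCl ν t, ← hCl ν s]
      rcases le_total (clp t0 t1 s) (clp t0 t1 t) with hst | hst
      · exact key _ _ (hcl s).1 hst (hcl t).2
      · rw [norm_sub_rev]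
        exact key _ _ (hcl t).1 hst (hcl s).2
    have e1 : (f - ES.frz s f).co ν t = f.co ν t - f.co ν s := by
      rw [WT.co_sub]
      rfl
    rw [e1, ← hW]
    calc W * ‖f.co ν t - f.co ν s‖ ≤ W * ((M ν / W) * (t1 - t0)) :=
          mul_le_mul_of_nonneg_left hfin hWpos.le
      _ = (t1 - t0) * M ν := by field_simp

end ES
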