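import Pool.Agent.ES.Defs

/-!
ES-LAlg: algebra of the operators on `WT`.
Proof plan: everything is coefficientwise.  For products use `WT.mul_co` (or `WT.mul_co_apply`),
`conv_summable`, `kap_add`/`kap_sub` (the symbol of a derivation is additive in the index) and
`tsum` manipulations.  `mean_mul_left`: if `osc i g = 0` then `g.co μ = 0` for `μ i ≠ 0`, so in
`∑' μ, g.co μ * f.co (ν - μ)` only indices with `(ν - μ) i = ν i` contribute.
-/

namespace ES

private theorem LAlg_der {s : Gx → ℂ} (hs : PG s) (hadd : ∀ μ ν, s (μ + ν) = s μ + s ν)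
    (f g : WT) : mlt s hs (f * g) = mlt s hs f * g + f * mlt s hs g := by
  apply WT.ext
  funext ν
  rw [mlt_co, WT.co_add, Pi.add_apply, WT.mul_co, WT.mul_co, WT.mul_co]
  have h1 := conv_summable f.rapid g.rapid ν
  have h2 := conv_summable (mlt s hs f).rapid g.rapid ν
  have h3 := conv_summable f.rapid (mlt s hs g).rapid ν
  rw [← h1.tsum_const_smul, ← h2.tsum_add h3]
  refine tsum_congr fun μ => ?_
  have h4 : s ν = s μ + s (ν - μ) := by
    rw [← hadd]
    congr 1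
    abel
  rw [mlt_co, mlt_co, h4, add_smul, smul_mul_assoc, mul_smul_comm]

private theorem LAlg_cst {s : Gx → ℂ} (hs : PG s) (h0 : s 0 = 0) (φ : Ct) :
    mlt s hs (cst φ) = 0 := by
  apply WT.ext
  funext ν
  rw [mlt_co]
  by_cases h : ν = 0
  · subst h
    rw [h0]
    simp
  · have : (cst φ).co ν = 0 := by
      unfold cst
      simp [h]
    rw [this]
    simp

private theorem LAlg_one : (1 : WT) = cst 1 := rfl

private theorem LAlg_comm {s s' : Gx → ℂ} (hs : PG s) (hs' : PG s') (f : WT) :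
    mlt s hs (mlt s' hs' f) = mlt s' hs' (mlt s hs f) := by
  apply WT.ext
  funext ν
  rw [mlt_co, mlt_co, mlt_co, mlt_co, smul_comm]

private theorem LAlg_mm {s s' s'' : Gx → ℂ} (hs : PG s) (hs' : PG s') (hs'' : PG s'')
    (h : ∀ ν, s ν * s' ν = s'' ν) (f : WT) :
    mlt s hs (mlt s' hs' f) = mlt s'' hs'' f := by
  apply WT.ext
  funext ν
  rw [mlt_co, mlt_co, mlt_co, smul_smul, h]

private theorem LAlg_mz {s s' : Gx → ℂ} (hs : PG s) (hs' : PG s')
    (h : ∀ ν, s ν * s' ν = 0) (f : WT) :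
    mlt s hs (mlt s' hs' f) = 0 := by
  apply WT.ext
  funext ν
  rw [mlt_co, mlt_co, smul_smul, h, zero_smul]
  rfl

theorem D_mul (κ : Kp) (a : Fin 2) (f g : WT) : D κ a (f * g) = D κ a f * g + f * D κ a g :=
  LAlg_der _ (fun μ ν => by rw [kap_add]; push_cast; ring) f g

theorem D_one (κ : Kp) (a : Fin 2) : D κ a 1 = 0 := by
  rw [LAlg_one]
  exact LAlg_cst _ (by simp) 1

theorem D_cst (κ : Kp) (a : Fin 2) (φ : Ct) : D κ a (cst φ) = 0 :=
  LAlg_cst _ (by simp) φ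

theorem D_comm (κ κ' : Kp) (a b : Fin 2) (f : WT) : D κ a (D κ' b f) = D κ' b (D κ a f) :=
  LAlg_comm _ _ f

theorem dth_mul (i : ℕ) (f g : WT) : dth i (f * g) = dth i f * g + f * dth i g :=
  LAlg_der _ (fun μ ν => by rw [Finsupp.add_apply]; push_cast; ring) f g

theorem dth_one (i : ℕ) : dth i 1 = 0 := by
  rw [LAlg_one]
  exact LAlg_cst _ (by simp) 1

theorem dth_cst (i : ℕ) (φ : Ct) : dth i (cst φ) = 0 :=
  LAlg_cst _ (by simp) φ

theorem dth_D (i : ℕ) (κ : Kp) (a : Fin 2) (f : WT) : dth i (D κ a f) = D κ a (dth i f) :=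
  LAlg_comm _ _ f

theorem mean_add_osc (i : ℕ) (f : WT) : mean i f + osc i f = f := by
  apply WT.ext
  funext ν
  rw [WT.co_add, Pi.add_apply]
  unfold mean osc
  rw [mlt_co, mlt_co]
  split_ifs <;> simp

theorem mean_mean (i : ℕ) (f : WT) : mean i (mean i f) = mean i f :=
  LAlg_mm _ _ _ (fun ν => by split_ifs <;> simp) f

theorem osc_osc (i : ℕ) (f : WT) : osc i (osc i f) = osc i f :=
  LAlg_mm _ _ _ (fun ν => by split_ifs <;> simp) f

theorem mean_osc (i : ℕ) (f : WT) : mean i (osc i f) = 0 :=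
  LAlg_mz _ _ (fun ν => by split_ifs <;> simp) f

theorem osc_mean (i : ℕ) (f : WT) : osc i (mean i f) = 0 :=
  LAlg_mz _ _ (fun ν => by split_ifs <;> simp) f

theorem mean_D (i : ℕ) (κ : Kp) (a : Fin 2) (f : WT) : mean i (D κ a f) = D κ a (mean i f) :=
  LAlg_comm _ _ f

theorem osc_D (i : ℕ) (κ : Kp) (a : Fin 2) (f : WT) : osc i (D κ a f) = D κ a (osc i f) :=
  LAlg_comm _ _ f

theorem mean_dth (i : ℕ) (f : WT) : mean i (dth i f) = 0 :=
  LAlg_mz _ _ (fun ν => by split_ifs with h <;> simp [h]) f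

theorem dth_mean (i : ℕ) (f : WT) : dth i (mean i f) = 0 :=
  LAlg_mz _ _ (fun ν => by split_ifs with h <;> simp [h]) f

theorem osc_dth (i : ℕ) (f : WT) : osc i (dth i f) = dth i f :=
  LAlg_mm _ _ _ (fun ν => by split_ifs with h <;> simp [h]) f

theorem dth_osc (i : ℕ) (f : WT) : dth i (osc i f) = dth i f :=
  LAlg_mm _ _ _ (fun ν => by split_ifs with h <;> simp [h]) f

theorem dth_ith (i : ℕ) (f : WT) : dth i (ith i f) = osc i f :=
  LAlg_mm _ _ _ (fun ν => by
    split_ifs with h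
    · simp
    · have h1 : ((ν i : ℤ) : ℂ) ≠ 0 := by exact_mod_cast h
      have h2 : Complex.I * ((ν i : ℤ) : ℂ) ≠ 0 := mul_ne_zero Complex.I_ne_zero h1
      exact mul_inv_cancel₀ h2) f

theorem ith_dth (i : ℕ) (f : WT) : ith i (dth i f) = osc i f := by
  rw [← dth_ith]
  exact LAlg_comm _ _ f

theorem ith_D (i : ℕ) (κ : Kp) (a : Fin 2) (f : WT) : ith i (D κ a f) = D κ a (ith i f) :=
  LAlg_comm _ _ f

theorem mean_ith (i : ℕ) (f : WT) : mean i (ith i f) = 0 :=
  LAlg_mz _ _ (fun ν => by split_ifs <;> simp) f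

theorem osc_ith (i : ℕ) (f : WT) : osc i (ith i f) = ith i f :=
  LAlg_mm _ _ _ (fun ν => by split_ifs <;> simp) f

/-- `f` does not depend on the variable `i` iff `osc i f = 0`. -/
theorem osc_eq_zero_iff (i : ℕ) (f : WT) : osc i f = 0 ↔ ∀ ν : Gx, ν i ≠ 0 → f.co ν = 0 := by
  constructor
  · intro h ν hν
    have h1 := congrArg (fun g : WT => g.co ν) h
    beta_reduce at h1
    unfold osc at h1
    rw [mlt_co, if_neg hν, one_smul] at h1
    rw [h1]
    rfl
  · intro h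
    apply WT.ext
    funext ν
    unfold osc
    rw [mlt_co]
    split_ifs with h1
    · simp
    · rw [h ν h1, smul_zero]
      rfl

private theorem LAlg_left {s : Gx → ℂ} (hs : PG s) (i : ℕ)
    (h : ∀ μ ν : Gx, μ i = 0 → s (ν - μ) = s ν) {g : WT} (hg : osc i g = 0) (f : WT) :
    mlt s hs (g * f) = g * mlt s hs f := by
  apply WT.ext
  funext ν
  rw [mlt_co, WT.mul_co, WT.mul_co]
  have h1 := conv_summable g.rapid f.rapid ν
  rw [← h1.tsum_const_smul]
  refine tsum_congr fun μ => ?_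
  by_cases h2 : μ i = 0
  · rw [mlt_co, h μ ν h2, mul_smul_comm]
  · rw [(osc_eq_zero_iff i g).1 hg μ h2]
    simp

theorem mean_mul_left (i : ℕ) {g : WT} (hg : osc i g = 0) (f : WT) :
    mean i (g * f) = g * mean i f :=
  LAlg_left _ i (fun μ ν h => by rw [Finsupp.sub_apply, h, sub_zero]) hg f

theorem osc_mul_left (i : ℕ) {g : WT} (hg : osc i g = 0) (f : WT) :
    osc i (g * f) = g * osc i f :=
  LAlg_left _ i (fun μ ν h => by rw [Finsupp.sub_apply, h, sub_zero]) hg f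

theorem osc_mul_zero (i : ℕ) {f g : WT} (hf : osc i f = 0) (hg : osc i g = 0) :
    osc i (f * g) = 0 := by
  rw [osc_mul_left i hf, hg, mul_zero]

theorem osc_one (i : ℕ) : osc i 1 = 0 := by
  rw [LAlg_one]
  exact LAlg_cst _ (by simp) 1

theorem osc_cst (i : ℕ) (φ : Ct) : osc i (cst φ) = 0 :=
  LAlg_cst _ (by simp) φ

theorem dth_of_osc {i : ℕ} {f : WT} (hf : osc i f = 0) : dth i f = 0 := by
  rw [← dth_osc, hf, map_zero]

theorem mean_of_osc {i : ℕ} {f : WT} (hf : osc i f = 0) : mean i f = f := by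
  have h := mean_add_osc i f
  rw [hf, add_zero] at h
  exact h

/-! levels -/

theorem Lev.osc {i j : ℕ} (hij : i ≤ j) {f : WT} (hf : Lev i f) : ES.osc j f = 0 :=
  (osc_eq_zero_iff j f).2 fun ν hν => hf ν ⟨j, hij, hν⟩

theorem Lev.mono {i j : ℕ} (hij : i ≤ j) {f : WT} (hf : Lev i f) : Lev j f :=
  fun ν ⟨l, hl, hν⟩ => hf ν ⟨l, hij.trans hl, hν⟩

theorem Lev.zero (i : ℕ) : Lev i 0 := fun _ _ => rfl

theorem Lev.one (i : ℕ) : Lev i 1 := by
  rintro ν ⟨j, -, hj⟩
  have h : ν ≠ 0 := by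
    rintro rfl
    exact hj rfl
  rw [WT.co_one]
  simp [h]

theorem Lev.cst (i : ℕ) (φ : Ct) : Lev i (ES.cst φ) := by
  rintro ν ⟨j, -, hj⟩
  have h : ν ≠ 0 := by
    rintro rfl
    exact hj rfl
  unfold ES.cst
  simp [h]

theorem Lev.add {i : ℕ} {f g : WT} (hf : Lev i f) (hg : Lev i g) : Lev i (f + g) := by
  intro ν h
  rw [WT.co_add, Pi.add_apply, hf ν h, hg ν h, add_zero]

theorem Lev.neg {i : ℕ} {f : WT} (hf : Lev i f) : Lev i (-f) := by
  intro ν h
  rw [WT.co_neg, Pi.neg_apply, hf ν h, neg_zero]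

theorem Lev.sub {i : ℕ} {f g : WT} (hf : Lev i f) (hg : Lev i g) : Lev i (f - g) := by
  intro ν h
  rw [WT.co_sub, Pi.sub_apply, hf ν h, hg ν h, sub_zero]

theorem Lev.mul {i : ℕ} {f g : WT} (hf : Lev i f) (hg : Lev i g) : Lev i (f * g) := by
  rintro ν ⟨j, hj, hν⟩
  rw [WT.mul_co]
  have h : ∀ μ : Gx, f.co μ * g.co (ν - μ) = 0 := by
    intro μ
    by_cases h1 : μ j = 0
    · have h2 : (ν - μ) j ≠ 0 := by
        rw [Finsupp.sub_apply, h1, sub_zero]
        exact hν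
      rw [hg _ ⟨j, hj, h2⟩, mul_zero]
    · rw [hf _ ⟨j, hj, h1⟩, zero_mul]
  simp only [h, tsum_zero]

theorem Lev.smul {i : ℕ} (c : ℂ) {f : WT} (hf : Lev i f) : Lev i (c • f) := by
  intro ν h
  rw [WT.co_smul, Pi.smul_apply, hf ν h, smul_zero]

theorem Lev.mlt {i : ℕ} {s : Gx → ℂ} (hs : PG s) {f : WT} (hf : Lev i f) :
    Lev i (ES.mlt s hs f) := by
  intro ν h
  rw [mlt_co, hf ν h, smul_zero]

theorem Lev.D {i : ℕ} (κ : Kp) (a : Fin 2) {f : WT} (hf : Lev i f) : Lev i (ES.D κ a f) :=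
  Lev.mlt _ hf

theorem Lev.sum {i : ℕ} {ι : Type*} (s : Finset ι) {f : ι → WT} (hf : ∀ j ∈ s, Lev i (f j)) :
    Lev i (∑ j ∈ s, f j) := by
  classical
  induction s using Finset.induction_on with
  | empty => simpa using Lev.zero i
  | insert a s ha ih =>
    rw [Finset.sum_insert ha]
    exact Lev.add (hf a (Finset.mem_insert_self _ _))
      (ih fun j hj => hf j (Finset.mem_insert_of_mem hj))

theorem Lev.mean {i : ℕ} {f : WT} (hf : Lev (i + 1) f) : Lev i (ES.mean i f) := by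
  rintro ν ⟨j, hj, hν⟩
  unfold ES.mean
  rw [mlt_co]
  split_ifs with h
  · have h1 : j ≠ i := by
      rintro rfl
      exact hν h
    rw [hf ν ⟨j, by omega, hν⟩, smul_zero]
  · rw [zero_smul]

end ES
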