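import Pool.Agent.ES.LAlg

/-!
ES-LBd: calculus of the bounds `Bd k r f c` (see `Defs`), i.e. of the weighted norms
`∑_ν sup_t (1+|ν|)^k e^{r(t)|ν|} |f_ν(t)| ≤ c` in the majorant form.
Products: the majorants are convolved (`one_add_len_le`, `len_add`, `summable_prod_shift`).
-/

open scoped BoundedContinuousFunction

namespace ES

private theorem wt_pos (k : ℕ) (r : ℝ) (ν : Gx) :
    0 < (1 + (len ν : ℝ)) ^ k * Real.exp (r * len ν) := by positivity

private theorem one_le_one_add (ν : Gx) : (1 : ℝ) ≤ 1 + (len ν : ℝ) := by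
  have : (0 : ℝ) ≤ (len ν : ℝ) := Nat.cast_nonneg _
  linarith

theorem Bd.nonneg {k : ℕ} {r : ℝ → ℝ} {f : WT} {c : ℝ} (h : Bd k r f c) : 0 ≤ c := by
  obtain ⟨m, hm0, _, hc, _⟩ := h
  exact (tsum_nonneg hm0).trans hc

theorem Bd.mono {k : ℕ} {r : ℝ → ℝ} {f : WT} {c c' : ℝ} (h : Bd k r f c) (hc : c ≤ c') :
    Bd k r f c' := by
  obtain ⟨m, hm0, hm, hc', hb⟩ := h
  exact ⟨m, hm0, hm, hc'.trans hc, hb⟩

/-- Smaller weights. -/
theorem Bd.weaken {k k' : ℕ} {r r' : ℝ → ℝ} {f : WT} {c : ℝ} (h : Bd k r f c) (hk : k' ≤ k)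
    (hr : ∀ t, r' t ≤ r t) : Bd k' r' f c := by
  obtain ⟨m, hm0, hm, hc', hb⟩ := h
  refine ⟨m, hm0, hm, hc', fun ν t => le_trans ?_ (hb ν t)⟩
  refine mul_le_mul_of_nonneg_right ?_ (norm_nonneg _)
  refine mul_le_mul (pow_le_pow_right₀ (one_le_one_add ν) hk) ?_ (by positivity) (by positivity)
  exact Real.exp_le_exp.mpr (mul_le_mul_of_nonneg_right (hr t) (Nat.cast_nonneg _))

theorem Bd.zero (k : ℕ) (r : ℝ → ℝ) {c : ℝ} (hc : 0 ≤ c) : Bd k r 0 c := by
  refine ⟨0, fun _ => le_rfl, summable_zero, ?_, fun ν t => ?_⟩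
  · simpa using hc
  · simp

theorem Bd.cst (k : ℕ) (r : ℝ → ℝ) {φ : Ct} {c : ℝ} (h : ∀ t, ‖φ t‖ ≤ c) :
    Bd k r (ES.cst φ) c := by
  classical
  have hc : 0 ≤ c := (norm_nonneg _).trans (h 0)
  refine ⟨fun ν => if ν = 0 then c else 0, fun ν => ?_, ?_, ?_, fun ν t => ?_⟩
  · dsimp only
    split_ifs
    · exact hc
    · exact le_rfl
  · refine summable_of_ne_finset_zero (s := {0}) fun ν hν => ?_
    have : ν ≠ 0 := by simpa using hν
    simp [this]
  · rw [tsum_ite_eq]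
  · unfold ES.cst
    by_cases hν : ν = 0
    · subst hν
      simp only [Pi.single_eq_same, len_zero, Nat.cast_zero, add_zero, one_pow, mul_zero,
        Real.exp_zero, one_mul, if_true]
      exact h t
    · simp only [Pi.single_apply, hν, if_false]
      simp

theorem Bd.one (k : ℕ) (r : ℝ → ℝ) : Bd k r 1 1 := by
  have h := Bd.cst k r (φ := 1) (c := 1) (fun t => by simp)
  have e : ES.cst 1 = 1 := WT.ext rfl
  rwa [e] at h

theorem Bd.add {k : ℕ} {r : ℝ → ℝ} {f g : WT} {c d : ℝ} (hf : Bd k r f c) (hg : Bd k r g d) :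
    Bd k r (f + g) (c + d) := by
  obtain ⟨m, hm0, hm, hmc, hmb⟩ := hf
  obtain ⟨n, hn0, hn, hnc, hnb⟩ := hg
  refine ⟨fun ν => m ν + n ν, fun ν => add_nonneg (hm0 ν) (hn0 ν), hm.add hn, ?_, fun ν t => ?_⟩
  · rw [hm.tsum_add hn]
    exact add_le_add hmc hnc
  · refine le_trans ?_ (add_le_add (hmb ν t) (hnb ν t))
    rw [← mul_add]
    refine mul_le_mul_of_nonneg_left ?_ (wt_pos k _ ν).le
    exact norm_add_le _ _

theorem Bd.neg {k : ℕ} {r : ℝ → ℝ} {f : WT} {c : ℝ} (hf : Bd k r f c) : Bd k r (-f) c := by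
  obtain ⟨m, hm0, hm, hmc, hmb⟩ := hf
  refine ⟨m, hm0, hm, hmc, fun ν t => ?_⟩
  have : ‖(-f).co ν t‖ = ‖f.co ν t‖ := by
    simp
  rw [this]
  exact hmb ν t

theorem Bd.sub {k : ℕ} {r : ℝ → ℝ} {f g : WT} {c d : ℝ} (hf : Bd k r f c) (hg : Bd k r g d) :
    Bd k r (f - g) (c + d) := by
  rw [sub_eq_add_neg]
  exact hf.add hg.neg

theorem Bd.smul {k : ℕ} {r : ℝ → ℝ} {f : WT} {c : ℝ} (a : ℂ) (hf : Bd k r f c) :
    Bd k r (a • f) (‖a‖ * c) := by
  obtain ⟨m, hm0, hm, hmc, hmb⟩ := hf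
  refine ⟨fun ν => ‖a‖ * m ν, fun ν => mul_nonneg (norm_nonneg _) (hm0 ν), hm.mul_left _, ?_,
    fun ν t => ?_⟩
  · rw [tsum_mul_left]
    exact mul_le_mul_of_nonneg_left hmc (norm_nonneg _)
  · have : ‖(a • f).co ν t‖ = ‖a‖ * ‖f.co ν t‖ := by
      simp
    rw [this]
    calc (1 + (len ν : ℝ)) ^ k * Real.exp (r t * len ν) * (‖a‖ * ‖f.co ν t‖)
        = ‖a‖ * ((1 + (len ν : ℝ)) ^ k * Real.exp (r t * len ν) * ‖f.co ν t‖) := by ring
      _ ≤ _ := mul_le_mul_of_nonneg_left (hmb ν t) (norm_nonneg _)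

/-- total mass of a convolution -/
private theorem tsum_conv_real {a b : Gx → ℝ} (ha : Summable a) (hb : Summable b)
    (ha0 : ∀ ν, 0 ≤ a ν) (hb0 : ∀ ν, 0 ≤ b ν) :
    ∑' ν, ∑' μ, a μ * b (ν - μ) = (∑' ν, a ν) * ∑' ν, b ν := by
  have hs := summable_prod_shift ha hb ha0 hb0
  have h := ha.mul_of_nonneg hb ha0 hb0
  let e : Gx × Gx ≃ Gx × Gx :=
    { toFun := fun p => (p.2, p.1 - p.2)
      invFun := fun p => (p.1 + p.2, p.1)
      left_inv := fun p => by ext <;> simp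
      right_inv := fun p => by ext <;> simp }
  have h1 : ∑' ν, ∑' μ, a μ * b (ν - μ) = ∑' p : Gx × Gx, a p.2 * b (p.1 - p.2) :=
    (hs.tsum_prod).symm
  have h2 : ∑' p : Gx × Gx, a p.2 * b (p.1 - p.2) = ∑' p : Gx × Gx, a p.1 * b p.2 :=
    e.tsum_eq (fun p : Gx × Gx => a p.1 * b p.2)
  rw [h1, h2]
  exact (ha.tsum_mul_tsum hb h).symm

theorem Bd.mul {k : ℕ} {r : ℝ → ℝ} (hr0 : ∀ t, 0 ≤ r t) {f g : WT} {c d : ℝ}
    (hf : Bd k r f c) (hg : Bd k r g d) :
    Bd k r (f * g) (c * d) := by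
  have hc0 := hf.nonneg
  obtain ⟨m, hm0, hm, hmc, hmb⟩ := hf
  obtain ⟨n, hn0, hn, hnc, hnb⟩ := hg
  have hs := summable_prod_shift hm hn hm0 hn0
  refine ⟨fun ν => ∑' μ, m μ * n (ν - μ), fun ν => tsum_nonneg fun μ =>
    mul_nonneg (hm0 _) (hn0 _), hs.prod, ?_, fun ν t => ?_⟩
  · rw [tsum_conv_real hm hn hm0 hn0]
    exact mul_le_mul hmc hnc (tsum_nonneg hn0) hc0
  · have hs' : Summable fun μ => m μ * n (ν - μ) := hs.prod_factor ν
    have h2 : Summable fun μ => ‖f.co μ t * g.co (ν - μ) t‖ := by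
      have h3 : Summable fun μ => ‖f.co μ‖ * ‖g.co (ν - μ)‖ :=
        (summable_prod_shift (rapid_norm f.rapid) (rapid_norm g.rapid) (fun _ => norm_nonneg _)
          (fun _ => norm_nonneg _)).prod_factor ν
      refine Summable.of_nonneg_of_le (fun _ => norm_nonneg _) (fun μ => ?_) h3
      rw [norm_mul]
      exact mul_le_mul ((f.co μ).norm_coe_le_norm t) ((g.co (ν - μ)).norm_coe_le_norm t)
        (norm_nonneg _) (norm_nonneg _)
    rw [WT.mul_co_apply]
    calc (1 + (len ν : ℝ)) ^ k * Real.exp (r t * len ν) * ‖∑' μ, f.co μ t * g.co (ν - μ) t‖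
        ≤ (1 + (len ν : ℝ)) ^ k * Real.exp (r t * len ν) * ∑' μ, ‖f.co μ t * g.co (ν - μ) t‖ :=
          mul_le_mul_of_nonneg_left (norm_tsum_le_tsum_norm h2) (wt_pos k _ ν).le
      _ = ∑' μ, (1 + (len ν : ℝ)) ^ k * Real.exp (r t * len ν) *
            ‖f.co μ t * g.co (ν - μ) t‖ := by rw [tsum_mul_left]
      _ ≤ ∑' μ, m μ * n (ν - μ) := by
        refine Summable.tsum_le_tsum (fun μ => ?_) (h2.mul_left _) hs'
        have e1 : (1 + (len ν : ℝ)) ^ k ≤
            (1 + (len μ : ℝ)) ^ k * (1 + (len (ν - μ) : ℝ)) ^ k := by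
          rw [← mul_pow]
          exact pow_le_pow_left₀ (by positivity) (one_add_len_le ν μ) k
        have e2 : Real.exp (r t * len ν) ≤
            Real.exp (r t * len μ) * Real.exp (r t * len (ν - μ)) := by
          rw [← Real.exp_add, ← mul_add]
          refine Real.exp_le_exp.mpr (mul_le_mul_of_nonneg_left ?_ (hr0 t))
          have h := len_add μ (ν - μ)
          have h' : μ + (ν - μ) = ν := by abel
          rw [h'] at h
          exact_mod_cast h
        rw [norm_mul]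
        calc (1 + (len ν : ℝ)) ^ k * Real.exp (r t * len ν) * (‖f.co μ t‖ * ‖g.co (ν - μ) t‖)
            ≤ ((1 + (len μ : ℝ)) ^ k * (1 + (len (ν - μ) : ℝ)) ^ k) *
              (Real.exp (r t * len μ) * Real.exp (r t * len (ν - μ))) *
              (‖f.co μ t‖ * ‖g.co (ν - μ) t‖) := by
                refine mul_le_mul_of_nonneg_right ?_ (by positivity)
                exact mul_le_mul e1 e2 (by positivity) (by positivity)
          _ = ((1 + (len μ : ℝ)) ^ k * Real.exp (r t * len μ) * ‖f.co μ t‖) *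
              ((1 + (len (ν - μ) : ℝ)) ^ k * Real.exp (r t * len (ν - μ)) *
                ‖g.co (ν - μ) t‖) := by ring
          _ ≤ m μ * n (ν - μ) := mul_le_mul (hmb μ t) (hnb (ν - μ) t) (by positivity) (hm0 μ)

theorem Bd.pow {k : ℕ} {r : ℝ → ℝ} (hr0 : ∀ t, 0 ≤ r t) {f : WT} {c : ℝ} (hf : Bd k r f c)
    (n : ℕ) : Bd k r (f ^ n) (c ^ n) := by
  induction n with
  | zero => simpa using Bd.one k r
  | succ n ih =>
    rw [pow_succ, pow_succ]
    exact Bd.mul hr0 ih hf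

theorem Bd.sum {k : ℕ} {r : ℝ → ℝ} {ι : Type*} (s : Finset ι) {f : ι → WT} {c : ι → ℝ}
    (hf : ∀ j ∈ s, Bd k r (f j) (c j)) : Bd k r (∑ j ∈ s, f j) (∑ j ∈ s, c j) := by
  classical
  induction s using Finset.induction_on with
  | empty => simpa using Bd.zero k r le_rfl
  | insert j s hj ih =>
    rw [Finset.sum_insert hj, Finset.sum_insert hj]
    exact (hf j (Finset.mem_insert_self _ _)).add
      (ih fun i hi => hf i (Finset.mem_insert_of_mem hi))

/-- Multipliers with a bound `A (1+|ν|)^n`. -/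
theorem Bd.mlt {k n : ℕ} {r : ℝ → ℝ} {f : WT} {c A : ℝ} {s : Gx → ℂ} (hs : PG s)
    (hA : ∀ ν, ‖s ν‖ ≤ A * (1 + (len ν : ℝ)) ^ n) (hf : Bd (k + n) r f c) :
    Bd k r (ES.mlt s hs f) (A * c) := by
  have hA0 : 0 ≤ A := by
    have h := (norm_nonneg _).trans (hA 0)
    simpa [len_zero] using h
  obtain ⟨m, hm0, hm, hmc, hmb⟩ := hf
  refine ⟨fun ν => A * m ν, fun ν => mul_nonneg hA0 (hm0 ν), hm.mul_left _, ?_, fun ν t => ?_⟩
  · rw [tsum_mul_left]
    exact mul_le_mul_of_nonneg_left hmc hA0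
  · have : ‖(ES.mlt s hs f).co ν t‖ = ‖s ν‖ * ‖f.co ν t‖ := by
      simp
    rw [this]
    calc (1 + (len ν : ℝ)) ^ k * Real.exp (r t * len ν) * (‖s ν‖ * ‖f.co ν t‖)
        ≤ (1 + (len ν : ℝ)) ^ k * Real.exp (r t * len ν) *
          ((A * (1 + (len ν : ℝ)) ^ n) * ‖f.co ν t‖) := by
            refine mul_le_mul_of_nonneg_left ?_ (wt_pos k _ ν).le
            exact mul_le_mul_of_nonneg_right (hA ν) (norm_nonneg _)
      _ = A * ((1 + (len ν : ℝ)) ^ (k + n) * Real.exp (r t * len ν) * ‖f.co ν t‖) := by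
            rw [pow_add]; ring
      _ ≤ _ := mul_le_mul_of_nonneg_left (hmb ν t) hA0

private theorem Bd.mlt0 {k : ℕ} {r : ℝ → ℝ} {f : WT} {c : ℝ} {s : Gx → ℂ} (hs : PG s)
    (hA : ∀ ν, ‖s ν‖ ≤ 1) (hf : Bd k r f c) : Bd k r (ES.mlt s hs f) c := by
  have h := Bd.mlt (k := k) (n := 0) (A := 1) hs (fun ν => by simpa using hA ν) hf
  rwa [one_mul] at h

private theorem norm_Ikap (κ : Kp) (a : Fin 2) (ν : Gx) :
    ‖Complex.I * (kap κ a ν : ℂ)‖ = |(kap κ a ν : ℝ)| := by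
  rw [norm_mul, Complex.norm_I, one_mul]
  rw [← Complex.ofReal_intCast, Complex.norm_real, Real.norm_eq_abs]

private theorem KB_nonneg {κ : Kp} {lam : ℝ} (h : KB κ lam) : 0 ≤ lam :=
  (abs_nonneg _).trans (h 0 0)

theorem Bd.D {k : ℕ} {r : ℝ → ℝ} {f : WT} {c lam : ℝ} {κ : Kp} (hκ : KB κ lam) (a : Fin 2)
    (hf : Bd (k + 1) r f c) : Bd k r (ES.D κ a f) (lam * c) := by
  refine Bd.mlt (n := 1) (kap_pg κ a) (fun ν => ?_) hf
  rw [norm_Ikap, pow_one]
  exact (kap_le hκ a ν).trans (mul_le_mul_of_nonneg_left (by linarith) (KB_nonneg hκ))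

theorem Bd.dp {k : ℕ} {r : ℝ → ℝ} {f : WT} {c lam : ℝ} {κ : Kp} (hκ : KB κ lam) (a : Fin 2)
    (hf : Bd (k + 1) r f c) : Bd k r (ES.dp κ a f) (lam * c) := by
  unfold ES.dp
  split_ifs
  · exact (Bd.D hκ 1 hf).neg
  · exact Bd.D hκ 0 hf

theorem Bd.dth {k : ℕ} {r : ℝ → ℝ} {f : WT} {c : ℝ} (i : ℕ) (hf : Bd (k + 1) r f c) :
    Bd k r (ES.dth i f) c := by
  have h := Bd.mlt (k := k) (n := 1) (A := 1) (dth_pg i) (fun ν => ?_) hf
  · rwa [one_mul] at h
  · have h1 : ‖Complex.I * (ν i : ℂ)‖ = |((ν i : ℤ) : ℝ)| := by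
      rw [norm_mul, Complex.norm_I, one_mul]
      rw [← Complex.ofReal_intCast, Complex.norm_real, Real.norm_eq_abs]
    rw [h1, pow_one, one_mul]
    linarith [abs_apply_le_len ν i]

theorem Bd.mean {k : ℕ} {r : ℝ → ℝ} {f : WT} {c : ℝ} (i : ℕ) (hf : Bd k r f c) :
    Bd k r (ES.mean i f) c :=
  Bd.mlt0 (mean_pg i) (fun ν => by split_ifs <;> simp) hf

theorem Bd.osc {k : ℕ} {r : ℝ → ℝ} {f : WT} {c : ℝ} (i : ℕ) (hf : Bd k r f c) :
    Bd k r (ES.osc i f) c :=
  Bd.mlt0 (osc_pg i) (fun ν => by split_ifs <;> simp) hf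

theorem Bd.ith {k : ℕ} {r : ℝ → ℝ} {f : WT} {c : ℝ} (i : ℕ) (hf : Bd k r f c) :
    Bd k r (ES.ith i f) c :=
  Bd.mlt0 (ith_pg i) (fun ν => by
    split_ifs with h
    · simp
    · rw [norm_inv, norm_mul, Complex.norm_I, one_mul, ← Complex.ofReal_intCast,
        Complex.norm_real, Real.norm_eq_abs]
      exact inv_le_one_of_one_le₀ (one_le_abs_int h)) hf

theorem Bd.Pg {k : ℕ} {r : ℝ → ℝ} {f : WT} {c : ℝ} (κ : Kp) (a b : Fin 2) (hf : Bd k r f c) :
    Bd k r (ES.Pg κ a b f) c :=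
  Bd.mlt0 (pg_of_bounded (norm_kk_div κ a b)) (norm_kk_div κ a b) hf

theorem Bd.Pnz {k : ℕ} {r : ℝ → ℝ} {f : WT} {c : ℝ} (κ : Kp) (hf : Bd k r f c) :
    Bd k r (ES.Pnz κ f) c :=
  Bd.mlt0 _ (fun ν => by split_ifs <;> simp) hf

private theorem ps_symbol (κ : Kp) (a b : Fin 2) (ν : Gx) :
    ‖(if a = b then (if ksq κ ν = 0 then (0 : ℂ) else 1) else 0)
      - ((kap κ a ν : ℂ) * (kap κ b ν : ℂ)) / (ksq κ ν : ℂ)‖ ≤ 1 := by
  by_cases h0 : ksq κ ν = 0
  · simp [h0]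
  · by_cases hab : a = b
    · subst hab
      simp only [if_true, h0, if_false]
      have hc : ((ksq κ ν : ℝ) : ℂ) ≠ 0 := by exact_mod_cast h0
      have e : (1 : ℂ) - ((kap κ a ν : ℂ) * (kap κ a ν : ℂ)) / (ksq κ ν : ℂ)
          = (((ksq κ ν - (kap κ a ν : ℝ) ^ 2) / ksq κ ν : ℝ) : ℂ) := by
        push_cast
        field_simp
      rw [e, Complex.norm_real, Real.norm_eq_abs, abs_div, abs_of_nonneg (ksq_nonneg κ ν)]
      refine div_le_one_of_le₀ ?_ (ksq_nonneg κ ν)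
      rw [abs_of_nonneg (by linarith [kap_sq_le κ a ν])]
      nlinarith [sq_nonneg ((kap κ a ν : ℝ))]
    · simp only [hab, if_false, zero_sub, norm_neg]
      exact norm_kk_div κ a b ν

/-- The symbol of `Ps` is `κ^⊥_a κ^⊥_b / |κ|²`, bounded by one. -/
theorem Bd.Ps {k : ℕ} {r : ℝ → ℝ} {f : WT} {c : ℝ} (κ : Kp) (a b : Fin 2) (hf : Bd k r f c) :
    Bd k r (ES.Ps κ a b f) c := by
  have e : ES.Ps κ a b f = ES.mlt (fun ν =>
      (if a = b then (if ksq κ ν = 0 then (0 : ℂ) else 1) else 0)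
      - ((kap κ a ν : ℂ) * (kap κ b ν : ℂ)) / (ksq κ ν : ℂ))
      (pg_of_bounded (ps_symbol κ a b)) f := by
    apply WT.ext
    funext ν
    unfold ES.Ps
    by_cases hab : a = b
    · simp only [hab, if_true, LinearMap.sub_apply]
      show (ES.Pnz κ f - ES.Pg κ b b f).co ν = _
      rw [WT.co_sub]
      show (ES.Pnz κ f).co ν - (ES.Pg κ b b f).co ν = _
      unfold ES.Pnz ES.Pg
      rw [mlt_co, mlt_co, mlt_co, sub_smul]
    · simp only [hab, if_false, LinearMap.sub_apply]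
      show ((0 : WT) - ES.Pg κ a b f).co ν = _
      rw [WT.co_sub]
      show (0 : WT).co ν - (ES.Pg κ a b f).co ν = _
      unfold ES.Pg
      rw [mlt_co, mlt_co, sub_smul, zero_smul]
      rfl
  rw [e]
  exact Bd.mlt0 _ (ps_symbol κ a b) hf

private theorem norm_ksq_inv (κ : Kp) (ν : Gx) : ‖-((ksq κ ν : ℂ))⁻¹‖ ≤ 1 := by
  rw [norm_neg, norm_inv, Complex.norm_real, Real.norm_eq_abs, abs_of_nonneg (ksq_nonneg κ ν)]
  by_cases h : ksq κ ν = 0
  · simp [h]
  · exact inv_le_one_of_one_le₀ (one_le_ksq h)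

theorem Bd.Lin {k : ℕ} {r : ℝ → ℝ} {f : WT} {c : ℝ} (κ : Kp) (hf : Bd k r f c) :
    Bd k r (ES.Lin κ f) c :=
  Bd.mlt0 (lin_pg κ) (norm_ksq_inv κ) hf

private theorem abs_int_le_sq (n : ℤ) : |(n : ℝ)| ≤ (n : ℝ) ^ 2 := by
  by_cases h : n = 0
  · simp [h]
  · have h1 := one_le_abs_int h
    have h2 : (n : ℝ) ^ 2 = |(n : ℝ)| * |(n : ℝ)| := by rw [← pow_two, sq_abs]
    rw [h2]
    nlinarith

/-- One derivative gains: `|κ_a| / |κ|² ≤ 1`. -/
theorem Bd.D_Lin {k : ℕ} {r : ℝ → ℝ} {f : WT} {c : ℝ} (κ : Kp) (a : Fin 2) (hf : Bd k r f c) :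
    Bd k r (ES.D κ a (ES.Lin κ f)) c := by
  have hb : ∀ ν, ‖(Complex.I * (kap κ a ν : ℂ)) * (-((ksq κ ν : ℂ))⁻¹)‖ ≤ 1 := by
    intro ν
    rw [norm_mul, norm_Ikap, norm_neg, norm_inv, Complex.norm_real, Real.norm_eq_abs,
      abs_of_nonneg (ksq_nonneg κ ν)]
    by_cases h : ksq κ ν = 0
    · simp [h]
    · have h1 := one_le_ksq h
      rw [← div_eq_mul_inv]
      refine div_le_one_of_le₀ ?_ (ksq_nonneg κ ν)
      exact (abs_int_le_sq _).trans (kap_sq_le κ a ν)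
  have e : ES.D κ a (ES.Lin κ f) = ES.mlt (fun ν =>
      (Complex.I * (kap κ a ν : ℂ)) * (-((ksq κ ν : ℂ))⁻¹)) (pg_of_bounded hb) f := by
    apply WT.ext
    funext ν
    unfold ES.D ES.Lin
    rw [mlt_co, mlt_co, mlt_co, smul_smul]
  rw [e]
  exact Bd.mlt0 _ hb hf

/-- A margin in the radius controls one power of `1+|ν|`: `(1+x) e^{-m x} ≤ 1 + 1/m`. -/
theorem Bd.margin {k : ℕ} {r r₁ : ℝ → ℝ} {f : WT} {c m : ℝ} (hm : 0 < m)
    (hr : ∀ t, r t + m ≤ r₁ t) (hf : Bd k r₁ f c) : Bd (k + 1) r f ((1 + 1 / m) * c) := by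
  obtain ⟨M, hM0, hM, hMc, hMb⟩ := hf
  have h1m : 0 ≤ 1 + 1 / m := by positivity
  refine ⟨fun ν => (1 + 1 / m) * M ν, fun ν => mul_nonneg h1m (hM0 ν), hM.mul_left _, ?_,
    fun ν t => ?_⟩
  · rw [tsum_mul_left]
    exact mul_le_mul_of_nonneg_left hMc h1m
  · have hx : (0 : ℝ) ≤ (len ν : ℝ) := Nat.cast_nonneg _
    have e1 : (1 + (len ν : ℝ)) * Real.exp (r t * len ν) ≤
        (1 + 1 / m) * Real.exp (r₁ t * len ν) := by
      have h2 : Real.exp (r t * len ν) * Real.exp (m * len ν) ≤ Real.exp (r₁ t * len ν) := by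
        rw [← Real.exp_add, ← add_mul]
        exact Real.exp_le_exp.mpr (mul_le_mul_of_nonneg_right (hr t) hx)
      have h3 : 1 + (len ν : ℝ) ≤ (1 + 1 / m) * Real.exp (m * len ν) := by
        have h4 := Real.add_one_le_exp (m * len ν)
        have h5 : (1 + 1 / m) * (m * len ν + 1) = 1 + (len ν : ℝ) + (m * len ν + 1 / m) := by
          field_simp
          ring
        have h6 : 0 ≤ m * len ν + 1 / m := by positivity
        have h7 := mul_le_mul_of_nonneg_left h4 h1m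
        linarith
      calc (1 + (len ν : ℝ)) * Real.exp (r t * len ν)
          ≤ ((1 + 1 / m) * Real.exp (m * len ν)) * Real.exp (r t * len ν) :=
            mul_le_mul_of_nonneg_right h3 (Real.exp_nonneg _)
        _ = (1 + 1 / m) * (Real.exp (r t * len ν) * Real.exp (m * len ν)) := by ring
        _ ≤ _ := mul_le_mul_of_nonneg_left h2 h1m
    calc (1 + (len ν : ℝ)) ^ (k + 1) * Real.exp (r t * len ν) * ‖f.co ν t‖
        = (1 + (len ν : ℝ)) ^ k * ((1 + (len ν : ℝ)) * Real.exp (r t * len ν)) *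
          ‖f.co ν t‖ := by rw [pow_succ]; ring
      _ ≤ (1 + (len ν : ℝ)) ^ k * ((1 + 1 / m) * Real.exp (r₁ t * len ν)) * ‖f.co ν t‖ := by
          refine mul_le_mul_of_nonneg_right ?_ (norm_nonneg _)
          exact mul_le_mul_of_nonneg_left e1 (by positivity)
      _ = (1 + 1 / m) * ((1 + (len ν : ℝ)) ^ k * Real.exp (r₁ t * len ν) * ‖f.co ν t‖) := by
          ring
      _ ≤ _ := mul_le_mul_of_nonneg_left (hMb ν t) h1m

private theorem pow_exp_bound (n : ℕ) {m : ℝ} (hm : 0 < m) :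
    ∃ C : ℝ, 0 ≤ C ∧ ∀ x : ℝ, 0 ≤ x → (1 + x) ^ n ≤ C * Real.exp (m * x) := by
  refine ⟨n.factorial / m ^ n * Real.exp m, by positivity, fun x hx => ?_⟩
  have h1 := Real.pow_div_factorial_le_exp (m * (1 + x)) (by positivity) n
  have h2 : Real.exp (m * (1 + x)) = Real.exp m * Real.exp (m * x) := by
    rw [← Real.exp_add]
    ring_nf
  rw [h2, div_le_iff₀ (by positivity), mul_pow] at h1
  have h3 : (1 + x) ^ n ≤ (Real.exp m * Real.exp (m * x) * n.factorial) / m ^ n := by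
    rw [le_div_iff₀ (by positivity)]
    linarith
  refine h3.trans (le_of_eq ?_)
  ring

/-- A positive margin controls all powers. -/
theorem Bd.margin_all {k n : ℕ} {r r₁ : ℝ → ℝ} {f : WT} {c m : ℝ} (hm : 0 < m)
    (hr : ∀ t, r t + m ≤ r₁ t) (hf : Bd k r₁ f c) : ∃ c', Bd n r f c' := by
  obtain ⟨C, hC0, hC⟩ := pow_exp_bound n hm
  obtain ⟨M, hM0, hM, hMc, hMb⟩ := hf
  refine ⟨C * c, fun ν => C * M ν, fun ν => mul_nonneg hC0 (hM0 ν), hM.mul_left _, ?_,
    fun ν t => ?_⟩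
  · rw [tsum_mul_left]
    exact mul_le_mul_of_nonneg_left hMc hC0
  · have hx : (0 : ℝ) ≤ (len ν : ℝ) := Nat.cast_nonneg _
    have h2 : Real.exp (r t * len ν) * Real.exp (m * len ν) ≤ Real.exp (r₁ t * len ν) := by
      rw [← Real.exp_add, ← add_mul]
      exact Real.exp_le_exp.mpr (mul_le_mul_of_nonneg_right (hr t) hx)
    calc (1 + (len ν : ℝ)) ^ n * Real.exp (r t * len ν) * ‖f.co ν t‖
        ≤ (C * Real.exp (m * len ν)) * Real.exp (r t * len ν) * ‖f.co ν t‖ := by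
          have := hC (len ν : ℝ) hx
          gcongr
      _ = C * (Real.exp (r t * len ν) * Real.exp (m * len ν)) * ‖f.co ν t‖ := by ring
      _ ≤ C * Real.exp (r₁ t * len ν) * ‖f.co ν t‖ := by gcongr
      _ ≤ C * ((1 + (len ν : ℝ)) ^ k * Real.exp (r₁ t * len ν) * ‖f.co ν t‖) := by
          rw [mul_assoc]
          refine mul_le_mul_of_nonneg_left ?_ hC0
          refine mul_le_mul_of_nonneg_right ?_ (norm_nonneg _)
          exact le_mul_of_one_le_left (Real.exp_nonneg _) (one_le_pow₀ (one_le_one_add ν))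
      _ ≤ _ := mul_le_mul_of_nonneg_left (hMb ν t) hC0

/-- Time changes (constant radius). -/
theorem Bd.tcomp {k : ℕ} {ρ : ℝ} {f : WT} {c : ℝ} (g : C(ℝ, ℝ)) (hf : Bd k (cr ρ) f c) :
    Bd k (cr ρ) (ES.tcomp g f) c := by
  obtain ⟨M, hM0, hM, hMc, hMb⟩ := hf
  exact ⟨M, hM0, hM, hMc, fun ν t => hMb ν (g t)⟩

/-- Freezing at time `t₀`. -/
theorem Bd.frz {k : ℕ} {r : ℝ → ℝ} {f : WT} {c : ℝ} (t₀ : ℝ) (hf : Bd k r f c) :
    Bd k (cr (r t₀)) (ES.frz t₀ f) c := by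
  obtain ⟨M, hM0, hM, hMc, hMb⟩ := hf
  exact ⟨M, hM0, hM, hMc, fun ν t => hMb ν t₀⟩

private theorem clp_mem' {a b : ℝ} (hab : a ≤ b) (t : ℝ) : a ≤ clp a b t ∧ clp a b t ≤ b := by
  unfold clp
  exact ⟨le_max_left _ _, max_le hab (min_le_left _ _)⟩

private theorem clp_left {a b : ℝ} {t : ℝ} (ht : t ≤ a) : clp a b t = a := by
  unfold clp
  exact max_eq_left ((min_le_right _ _).trans ht)

private theorem clp_le {a b : ℝ} {t : ℝ} (ht : a ≤ t) : clp a b t ≤ t := by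
  unfold clp
  exact max_le ht (min_le_right _ _)

/-- Norm of a time integral without gain. -/
theorem Bd.intg {k : ℕ} {r : ℝ → ℝ} {f : WT} {c a b : ℝ} (hab : a ≤ b)
    (hr : ∀ s t, s ≤ t → r t ≤ r s) (hf : Bd k r f c) :
    Bd k r (ES.intg a b f) ((b - a) * c) := by
  obtain ⟨M, hM0, hM, hMc, hMb⟩ := hf
  have hba : 0 ≤ b - a := by linarith
  refine ⟨fun ν => (b - a) * M ν, fun ν => mul_nonneg hba (hM0 ν), hM.mul_left _, ?_,
    fun ν t => ?_⟩
  · rw [tsum_mul_left]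
    exact mul_le_mul_of_nonneg_left hMc hba
  · rw [intg_co]
    rcases le_total t a with hta | hta
    · rw [clp_left hta]
      simp only [intervalIntegral.integral_same, norm_zero, mul_zero]
      exact mul_nonneg hba (hM0 ν)
    · obtain ⟨h1, h2⟩ := clp_mem' hab t
      have h3 := clp_le (b := b) hta
      set W := (1 + (len ν : ℝ)) ^ k * Real.exp (r t * len ν) with hW
      have hWpos : 0 < W := wt_pos k _ ν
      have h4 : ‖∫ s in a..clp a b t, f.co ν s‖ ≤ (M ν / W) * |clp a b t - a| := by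
        refine intervalIntegral.norm_integral_le_of_norm_le_const fun s hs => ?_
        rw [Set.uIoc_of_le h1] at hs
        rw [le_div_iff₀ hWpos]
        have h5 : r t ≤ r s := hr s t (hs.2.trans h3)
        calc ‖f.co ν s‖ * W = W * ‖f.co ν s‖ := mul_comm _ _
          _ ≤ (1 + (len ν : ℝ)) ^ k * Real.exp (r s * len ν) * ‖f.co ν s‖ := by
            rw [hW]
            gcongr
          _ ≤ M ν := hMb ν s
      rw [abs_of_nonneg (by linarith)] at h4
      calc W * ‖∫ s in a..clp a b t, f.co ν s‖ ≤ W * ((M ν / W) * (clp a b t - a)) :=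
            mul_le_mul_of_nonneg_left h4 hWpos.le
        _ = (clp a b t - a) * M ν := by field_simp
        _ ≤ (b - a) * M ν := mul_le_mul_of_nonneg_right (by linarith) (hM0 ν)

theorem rad_anti {ρ m a b : ℝ} (hab : a < b) (hm : 0 ≤ m) :
    ∀ s t, s ≤ t → rad ρ m a b t ≤ rad ρ m a b s := by
  intro s t hst
  unfold rad
  have h1 : clp a b s ≤ clp a b t := by
    unfold clp
    exact max_le_max le_rfl (min_le_min le_rfl hst)
  have h2 : 0 < b - a := by linarith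
  have h3 : (clp a b s - a) / (b - a) ≤ (clp a b t - a) / (b - a) :=
    div_le_div_of_nonneg_right (by linarith) h2.le
  have h4 := mul_le_mul_of_nonneg_left h3 hm
  linarith

theorem rad_le {ρ m a b : ℝ} (hab : a < b) (hm : 0 ≤ m) (t : ℝ) : rad ρ m a b t ≤ ρ := by
  unfold rad
  have h1 := (clp_mem' hab.le t).1
  have h2 : 0 < b - a := by linarith
  have h3 : 0 ≤ (clp a b t - a) / (b - a) := div_nonneg (by linarith) h2.le
  have h4 := mul_nonneg hm h3
  linarith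

theorem le_rad {ρ m a b : ℝ} (hab : a < b) (hm : 0 ≤ m) (t : ℝ) : ρ - m ≤ rad ρ m a b t := by
  unfold rad
  have h1 := (clp_mem' hab.le t).2
  have h2 : 0 < b - a := by linarith
  have h3 : (clp a b t - a) / (b - a) ≤ 1 := by
    rw [div_le_one h2]
    linarith
  have h4 := mul_le_mul_of_nonneg_left h3 hm
  linarith

theorem rad_left {ρ m a b : ℝ} (hab : a < b) : rad ρ m a b a = ρ := by
  unfold rad
  rw [clp_left le_rfl]
  simp

theorem rad_right {ρ m a b : ℝ} (hab : a < b) : rad ρ m a b b = ρ - m := by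
  unfold rad
  have h1 : clp a b b = b := by
    unfold clp
    rw [min_self, max_eq_right hab.le]
  have h2 : b - a ≠ 0 := by
    have : 0 < b - a := by linarith
    exact this.ne'
  rw [h1, div_self h2, mul_one]

/-- the elementary integral -/
private theorem exp_integral {a T α : ℝ} (hT : a ≤ T) (hα : 0 ≤ α) :
    (∫ s in a..T, Real.exp (-(α * (T - s)))) ≤ T - a ∧
      α * (∫ s in a..T, Real.exp (-(α * (T - s)))) ≤ 1 := by
  have hcont : Continuous fun s : ℝ => Real.exp (-(α * (T - s))) := by fun_prop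
  constructor
  · have h1 : (∫ s in a..T, Real.exp (-(α * (T - s)))) ≤ ∫ s in a..T, (1 : ℝ) := by
      refine intervalIntegral.integral_mono_on hT (hcont.intervalIntegrable _ _)
        (continuous_const.intervalIntegrable _ _) fun s hs => ?_
      rw [Real.exp_le_one_iff]
      have : 0 ≤ α * (T - s) := mul_nonneg hα (by linarith [hs.2])
      linarith
    simpa using h1
  · have h2 : ∀ s ∈ Set.uIcc a T, HasDerivAt (fun s : ℝ => Real.exp (-(α * (T - s))))
        (α * Real.exp (-(α * (T - s)))) s := by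
      intro s _
      have h3 : HasDerivAt (fun s : ℝ => -(α * (T - s))) α s := by
        have h4 := (((hasDerivAt_id s).const_sub T).const_mul α).neg
        have h4' : HasDerivAt (fun s : ℝ => -(α * (T - s))) (-(α * -1)) s := h4
        exact h4'.congr_deriv (by ring)
      have h5 := h3.exp
      rwa [mul_comm] at h5
    have h6 := intervalIntegral.integral_eq_sub_of_hasDerivAt h2
      ((hcont.const_mul α).intervalIntegrable _ _)
    rw [← intervalIntegral.integral_const_mul, h6]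
    simp only [sub_self, mul_zero, neg_zero, Real.exp_zero]
    have := Real.exp_nonneg (-(α * (T - a)))
    linarith

/-- Norm of a time integral with gain of one power, for the radius `rad ρ m t₀ t₁` which decreases
linearly on `[t₀,t₁] ⊇ [a,b]`:
`(1+x) ∫_a^t e^{-(r(s)-r(t))x} ds ≤ (t₁-t₀)(1+1/m)`. -/
theorem Bd.intg_gain {k : ℕ} {f : WT} {c a b t₀ t₁ ρ m : ℝ} (h1 : t₀ ≤ a) (h2 : a ≤ b)
    (h3 : b ≤ t₁) (h4 : t₀ < t₁) (hm : 0 < m) (hf : Bd k (rad ρ m t₀ t₁) f c) :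
    Bd (k + 1) (rad ρ m t₀ t₁) (ES.intg a b f) ((t₁ - t₀) * (1 + 1 / m) * c) := by
  obtain ⟨M, hM0, hM, hMc, hMb⟩ := hf
  have h10 : 0 < t₁ - t₀ := by linarith
  have hK : 0 ≤ (t₁ - t₀) * (1 + 1 / m) := by positivity
  refine ⟨fun ν => (t₁ - t₀) * (1 + 1 / m) * M ν, fun ν => mul_nonneg hK (hM0 ν),
    hM.mul_left _, ?_, fun ν t => ?_⟩
  · rw [tsum_mul_left]
    exact mul_le_mul_of_nonneg_left hMc hK
  · rw [intg_co]
    rcases le_total t a with hta | hta
    · rw [clp_left hta]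
      simp only [intervalIntegral.integral_same, norm_zero, mul_zero]
      exact mul_nonneg hK (hM0 ν)
    · obtain ⟨c1, c2⟩ := clp_mem' h2 t
      have c3 := clp_le (b := b) hta
      obtain ⟨T, hT⟩ : ∃ T, T = clp a b t := ⟨_, rfl⟩
      rw [← hT] at c1 c2 c3 ⊢
      obtain ⟨x, hx⟩ : ∃ x : ℝ, x = (len ν : ℝ) := ⟨_, rfl⟩
      have hx0 : 0 ≤ x := by rw [hx]; exact Nat.cast_nonneg _
      obtain ⟨α, hα⟩ : ∃ α : ℝ, α = m * x / (t₁ - t₀) := ⟨_, rfl⟩
      have hα0 : 0 ≤ α := by rw [hα]; positivity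
      obtain ⟨W, hW⟩ : ∃ W, W = (1 + x) ^ k * Real.exp (rad ρ m t₀ t₁ t * x) := ⟨_, rfl⟩
      have hWpos : 0 < W := by rw [hW]; positivity
      have hclp : ∀ s, t₀ ≤ s → s ≤ t₁ → clp t₀ t₁ s = s := by
        intro s hs1 hs2
        unfold clp
        rw [min_eq_right hs2, max_eq_right hs1]
      have hbound : ∀ s ∈ Set.Ioc a T, ‖f.co ν s‖ ≤ (M ν / W) * Real.exp (-(α * (T - s))) := by
        intro s hs
        have hs1 : t₀ ≤ s := h1.trans hs.1.le
        have hs2 : s ≤ t₁ := hs.2.trans (c2.trans h3)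
        have e1 : rad ρ m t₀ t₁ t ≤ rad ρ m t₀ t₁ T := rad_anti h4 hm.le T t c3
        have e2 : rad ρ m t₀ t₁ s = rad ρ m t₀ t₁ T + m * (T - s) / (t₁ - t₀) := by
          unfold rad
          rw [hclp s hs1 hs2, hclp T (h1.trans c1) (c2.trans h3)]
          field_simp
          ring
        have e3 : rad ρ m t₀ t₁ t * x + α * (T - s) ≤ rad ρ m t₀ t₁ s * x := by
          rw [e2, hα]
          have e4 := mul_le_mul_of_nonneg_right e1 hx0
          have e5 : (rad ρ m t₀ t₁ T + m * (T - s) / (t₁ - t₀)) * x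
              = rad ρ m t₀ t₁ T * x + m * x / (t₁ - t₀) * (T - s) := by ring
          rw [e5]
          linarith
        have e6 := hMb ν s
        rw [← hx] at e6
        have e7 : W * Real.exp (α * (T - s)) ≤
            (1 + x) ^ k * Real.exp (rad ρ m t₀ t₁ s * x) := by
          rw [hW, mul_assoc, ← Real.exp_add]
          exact mul_le_mul_of_nonneg_left (Real.exp_le_exp.mpr e3) (by positivity)
        have e8 : W * Real.exp (α * (T - s)) * ‖f.co ν s‖ ≤ M ν :=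
          (mul_le_mul_of_nonneg_right e7 (norm_nonneg _)).trans e6
        rw [Real.exp_neg, ← div_eq_mul_inv, div_div, le_div_iff₀ (by positivity)]
        linarith
      have hcont : Continuous fun s : ℝ => (M ν / W) * Real.exp (-(α * (T - s))) := by fun_prop
      have hint : ‖∫ s in a..T, f.co ν s‖ ≤
          ∫ s in a..T, (M ν / W) * Real.exp (-(α * (T - s))) :=
        intervalIntegral.norm_integral_le_of_norm_le c1
          (Filter.Eventually.of_forall hbound) (hcont.intervalIntegrable _ _)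
      rw [intervalIntegral.integral_const_mul] at hint
      obtain ⟨i1, i2⟩ := exp_integral c1 hα0
      obtain ⟨J, hJ⟩ : ∃ J, J = ∫ s in a..T, Real.exp (-(α * (T - s))) := ⟨_, rfl⟩
      rw [← hJ] at hint i1 i2
      -- `(1+x) J ≤ (t₁-t₀)(1+1/m)`
      have i3 : x * J ≤ (t₁ - t₀) / m := by
        rw [hα] at i2
        rw [le_div_iff₀ hm]
        rw [div_mul_eq_mul_div, div_le_one h10] at i2
        linarith
      have i4 : (1 + x) * J ≤ (t₁ - t₀) * (1 + 1 / m) := by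
        have : (t₁ - t₀) * (1 + 1 / m) = (t₁ - t₀) + (t₁ - t₀) / m := by ring
        rw [this]
        have : T - a ≤ t₁ - t₀ := by linarith
        linarith
      have hMW : 0 ≤ M ν / W := div_nonneg (hM0 ν) hWpos.le
      rw [← hx]
      calc (1 + x) ^ (k + 1) * Real.exp (rad ρ m t₀ t₁ t * x) * ‖∫ s in a..T, f.co ν s‖
          = W * (1 + x) * ‖∫ s in a..T, f.co ν s‖ := by rw [hW, pow_succ]; ring
        _ ≤ W * (1 + x) * ((M ν / W) * J) :=
            mul_le_mul_of_nonneg_left hint (by positivity)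
        _ = ((1 + x) * J) * M ν := by field_simp
        _ ≤ _ := mul_le_mul_of_nonneg_right i4 (hM0 ν)

/-- Multiplication by a bounded function of time. -/
theorem Bd.cst_mul {k : ℕ} {r : ℝ → ℝ} {f : WT} {c A : ℝ} {φ : Ct} (h : ∀ t, ‖φ t‖ ≤ A)
    (hf : Bd k r f c) : Bd k r (ES.cst φ * f) (A * c) := by
  have hA0 : 0 ≤ A := (norm_nonneg _).trans (h 0)
  obtain ⟨M, hM0, hM, hMc, hMb⟩ := hf
  refine ⟨fun ν => A * M ν, fun ν => mul_nonneg hA0 (hM0 ν), hM.mul_left _, ?_, fun ν t => ?_⟩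
  · rw [tsum_mul_left]
    exact mul_le_mul_of_nonneg_left hMc hA0
  · have e : (ES.cst φ * f).co ν t = φ t * f.co ν t := by
      rw [WT.mul_co_apply, tsum_eq_single 0]
      · unfold ES.cst
        simp
      · intro μ hμ
        unfold ES.cst
        simp [hμ]
    rw [e, norm_mul]
    calc (1 + (len ν : ℝ)) ^ k * Real.exp (r t * len ν) * (‖φ t‖ * ‖f.co ν t‖)
        = ‖φ t‖ * ((1 + (len ν : ℝ)) ^ k * Real.exp (r t * len ν) * ‖f.co ν t‖) := by ring
      _ ≤ A * M ν := mul_le_mul (h t) (hMb ν t) (by positivity) hA0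

/-- An element with arbitrarily small norm is zero. -/
theorem Bd.eq_zero {k : ℕ} {r : ℝ → ℝ} {f : WT} (h : ∀ c > 0, Bd k r f c) : f = 0 := by
  apply WT.ext
  funext ν
  ext t
  have h1 : ∀ c > 0, (1 + (len ν : ℝ)) ^ k * Real.exp (r t * len ν) * ‖f.co ν t‖ ≤ c := by
    intro c hc
    obtain ⟨M, hM0, hM, hMc, hMb⟩ := h c hc
    exact (hMb ν t).trans ((hM.le_tsum ν fun _ _ => hM0 _).trans hMc)
  have h2 : (1 + (len ν : ℝ)) ^ k * Real.exp (r t * len ν) * ‖f.co ν t‖ ≤ 0 :=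
    le_of_forall_pos_le_add fun ε hε => by simpa using h1 ε hε
  have h3 := wt_pos k (r t) ν
  have h4 : ‖f.co ν t‖ ≤ 0 := by
    by_contra hcon
    push Not at hcon
    have := mul_pos h3 hcon
    linarith
  have h5 : f.co ν t = 0 := norm_le_zero_iff.mp h4
  rw [h5]
  rfl

theorem Bd.eq_zero' {k : ℕ} {r : ℝ → ℝ} {f : WT} {q c : ℝ} (hq : q < 1)
    (hf : Bd k r f c) (h : ∀ c, Bd k r f c → Bd k r f (q * c)) : f = 0 := by
  apply Bd.eq_zero (k := k) (r := r)
  intro e he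
  have hc0 := hf.nonneg
  rcases lt_or_ge q 0 with hq0 | hq0
  · have h1 := (h c hf).nonneg
    have h2 : c ≤ 0 := by
      by_contra hcon
      push Not at hcon
      have := mul_neg_of_neg_of_pos hq0 hcon
      linarith
    exact hf.mono (h2.trans he.le)
  · have h1 : ∀ n : ℕ, Bd k r f (q ^ n * c) := by
      intro n
      induction n with
      | zero => simpa using hf
      | succ n ih =>
        have := h _ ih
        rwa [← mul_assoc, ← pow_succ'] at this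
    have h2 : Filter.Tendsto (fun n : ℕ => q ^ n * c) Filter.atTop (nhds (0 * c)) :=
      (tendsto_pow_atTop_nhds_zero_of_lt_one hq0 hq).mul_const c
    rw [zero_mul] at h2
    obtain ⟨n, hn⟩ := (h2.eventually (gt_mem_nhds he)).exists
    exact (h1 n).mono hn.le

/-- Every element with a norm at a positive radius; constructor: coefficients with a summable
majorant at a radius bounded below by a positive number. -/
theorem exists_WT_of_bd {k : ℕ} {r : ℝ → ℝ} {r0 : ℝ} (hr0 : 0 < r0) (hr : ∀ t, r0 ≤ r t)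
    (φ : Gx → Ct) (m : Gx → ℝ) (hm : Summable m)
    (h : ∀ ν t, (1 + (len ν : ℝ)) ^ k * Real.exp (r t * len ν) * ‖φ ν t‖ ≤ m ν) :
    ∃ f : WT, f.co = φ ∧ Bd k r f (∑' ν, m ν) := by
  have hm0 : ∀ ν, 0 ≤ m ν := fun ν => le_trans (by positivity) (h ν 0)
  have hφ : Rapid φ := by
    intro j
    obtain ⟨C, hC0, hC⟩ := pow_exp_bound j hr0
    refine Summable.of_nonneg_of_le (fun ν => by positivity) (fun ν => ?_) (hm.mul_left C)
    have hx : (0 : ℝ) ≤ (len ν : ℝ) := Nat.cast_nonneg _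
    have hj : 0 < (1 + (len ν : ℝ)) ^ j := by positivity
    have h1 : ‖φ ν‖ ≤ C * m ν / (1 + (len ν : ℝ)) ^ j := by
      rw [BoundedContinuousFunction.norm_le (by
        have := hm0 ν
        positivity)]
      intro t
      rw [le_div_iff₀ hj]
      calc ‖φ ν t‖ * (1 + (len ν : ℝ)) ^ j ≤ ‖φ ν t‖ * (C * Real.exp (r0 * len ν)) :=
            mul_le_mul_of_nonneg_left (hC _ hx) (norm_nonneg _)
        _ ≤ ‖φ ν t‖ * (C * Real.exp (r t * len ν)) := by
            have := hr t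
            gcongr
        _ = C * (Real.exp (r t * len ν) * ‖φ ν t‖) := by ring
        _ ≤ C * ((1 + (len ν : ℝ)) ^ k * Real.exp (r t * len ν) * ‖φ ν t‖) := by
            refine mul_le_mul_of_nonneg_left ?_ hC0
            refine mul_le_mul_of_nonneg_right ?_ (norm_nonneg _)
            exact le_mul_of_one_le_left (Real.exp_nonneg _) (one_le_pow₀ (one_le_one_add ν))
        _ ≤ C * m ν := mul_le_mul_of_nonneg_left (h ν t) hC0
    calc (1 + (len ν : ℝ)) ^ j * ‖φ ν‖ ≤ (1 + (len ν : ℝ)) ^ j *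
          (C * m ν / (1 + (len ν : ℝ)) ^ j) := mul_le_mul_of_nonneg_left h1 hj.le
      _ = C * m ν := by field_simp
  exact ⟨⟨φ, hφ⟩, rfl, m, hm0, hm, le_rfl, h⟩

end ES
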