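import Pool.Agent.ES.LExp
import Pool.Agent.ES.LBd
import Pool.Agent.ES.LAlg

/-!
ES-LCompA: composition with `id + ζ`:
`comp κ ζ f = ∑_ν f_ν e_ν exp(i κ_0(ν) ζ_0 + i κ_1(ν) ζ_1)`.
Hypotheses `CH κ lam r0 z r ζ` (see Defs): `|κ| ≤ lam`, `r ≥ r0 > 0`, `Bd 0 r (ζ a) y`, `2 lam y ≤ z`;
then `exp(ikz ν)` has norm `≤ exp(z |ν|)`, and `comp κ ζ f` is fine as soon as `f` has a finite norm
at the radius `r + z`.
The derivative rules need one more power: `Bd 1 (r+z) f c`.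
-/

open scoped BoundedContinuousFunction

namespace ES

/-! ### auxiliary results -/

private theorem cA_le_nat (μ ν : Gx) : (len μ : ℝ) ≤ len ν + len (μ - ν) := by
  have h := len_add ν (μ - ν)
  rw [add_sub_cancel] at h
  exact_mod_cast h

private theorem cA_weight {k : ℕ} {ρ : ℝ} (hρ : 0 ≤ ρ) (μ ν : Gx) :
    (1 + (len μ : ℝ)) ^ k * Real.exp (ρ * len μ) ≤
      ((1 + (len ν : ℝ)) ^ k * Real.exp (ρ * len ν)) *
        ((1 + (len (μ - ν) : ℝ)) ^ k * Real.exp (ρ * len (μ - ν))) := by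
  have h1 : (1 + (len μ : ℝ)) ^ k ≤ ((1 + (len ν : ℝ)) * (1 + (len (μ - ν) : ℝ))) ^ k :=
    pow_le_pow_left₀ (by positivity) (one_add_len_le μ ν) k
  have h2 : Real.exp (ρ * len μ) ≤ Real.exp (ρ * len ν) * Real.exp (ρ * len (μ - ν)) := by
    rw [← Real.exp_add]
    apply Real.exp_le_exp.2
    nlinarith [cA_le_nat μ ν]
  calc (1 + (len μ : ℝ)) ^ k * Real.exp (ρ * len μ)
      ≤ ((1 + (len ν : ℝ)) * (1 + (len (μ - ν) : ℝ))) ^ k *
        (Real.exp (ρ * len ν) * Real.exp (ρ * len (μ - ν))) :=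
        mul_le_mul h1 h2 (Real.exp_nonneg _) (by positivity)
    _ = _ := by rw [mul_pow]; ring

private theorem cA_one_le {k : ℕ} {ρ : ℝ} (hρ : 0 ≤ ρ) (μ : Gx) :
    1 ≤ (1 + (len μ : ℝ)) ^ k * Real.exp (ρ * len μ) := by
  have h1 : (1 : ℝ) ≤ (1 + (len μ : ℝ)) ^ k := one_le_pow₀ (by linarith [Nat.cast_nonneg (α := ℝ) (len μ)])
  have h2 : (1 : ℝ) ≤ Real.exp (ρ * len μ) := Real.one_le_exp (by positivity)
  nlinarith

private noncomputable def cA_equiv : Gx × Gx ≃ Gx × Gx where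
  toFun p := (p.2, p.1 - p.2)
  invFun p := (p.1 + p.2, p.1)
  left_inv p := by ext <;> simp
  right_inv p := by ext <;> simp

/-- Superposition of the shifted elements `G ν` with the coefficients of `f`. -/
private theorem cA_super {k : ℕ} {r : ℝ → ℝ} {r0 : ℝ} (hr0 : 0 < r0) (hr : ∀ t, r0 ≤ r t) {z : ℝ}
    {f : WT} {c : ℝ} (hf : Bd k (fun t => r t + z) f c) {G : Gx → WT}
    (hG : ∀ ν, Bd k r (G ν) (Real.exp (z * len ν))) :
    (Summable fun p : Gx × Gx => ‖f.co p.2 * (G p.2).co (p.1 - p.2)‖) ∧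
      ∃ g : WT, (g.co = fun μ => ∑' ν, f.co ν * (G ν).co (μ - ν)) ∧ Bd k r g c := by
  obtain ⟨m, hm0, hms, hmc, hmb⟩ := hf
  choose n hn0 hns hnc hnb using hG
  have hexp : ∀ ν : Gx, Real.exp (-(z * len ν)) * Real.exp (z * len ν) = 1 := by
    intro ν
    rw [← Real.exp_add, neg_add_cancel, Real.exp_zero]
  set A : Gx × Gx → ℝ := fun p => m p.1 * Real.exp (-(z * len p.1)) * n p.1 p.2 with hA
  have hA0 : ∀ p, 0 ≤ A p := fun p => mul_nonneg (mul_nonneg (hm0 _) (Real.exp_nonneg _)) (hn0 _ _)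
  have hAin : ∀ ν, ∑' lam, A (ν, lam) ≤ m ν := by
    intro ν
    have e : ∑' lam, A (ν, lam) = m ν * Real.exp (-(z * len ν)) * ∑' lam, n ν lam := by
      rw [← tsum_mul_left]
    rw [e]
    calc m ν * Real.exp (-(z * len ν)) * ∑' lam, n ν lam
        ≤ m ν * Real.exp (-(z * len ν)) * Real.exp (z * len ν) :=
          mul_le_mul_of_nonneg_left (hnc ν) (mul_nonneg (hm0 _) (Real.exp_nonneg _))
      _ = m ν := by rw [mul_assoc, hexp, mul_one]
  have hAs : Summable A := by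
    rw [summable_prod_of_nonneg hA0]
    refine ⟨fun ν => ((hns ν).mul_left (m ν * Real.exp (-(z * len ν))) :), ?_⟩
    exact Summable.of_nonneg_of_le (fun ν => tsum_nonneg fun lam => hA0 _) hAin hms
  have hBs : Summable fun p : Gx × Gx => A (p.2, p.1 - p.2) := by
    have := (cA_equiv.summable_iff (f := A)).2 hAs
    exact this
  have hBt : ∑' p : Gx × Gx, A (p.2, p.1 - p.2) ≤ c := by
    have e : ∑' p : Gx × Gx, A (p.2, p.1 - p.2) = ∑' p, A p := cA_equiv.tsum_eq A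
    rw [e, hAs.tsum_prod]
    refine le_trans ?_ hmc
    exact Summable.tsum_le_tsum hAin hAs.prod hms
  have hpt : ∀ (p : Gx × Gx) (t : ℝ), (1 + (len p.1 : ℝ)) ^ k * Real.exp (r t * len p.1) *
      ‖f.co p.2 t * (G p.2).co (p.1 - p.2) t‖ ≤ A (p.2, p.1 - p.2) := by
    intro p t
    have hrt : 0 ≤ r t := hr0.le.trans (hr t)
    have h1 := cA_weight (k := k) hrt p.1 p.2
    have h2 := hmb p.2 t
    have h3 := hnb p.2 (p.1 - p.2) t
    have h2' : (1 + (len p.2 : ℝ)) ^ k * Real.exp (r t * len p.2) * ‖f.co p.2 t‖ ≤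
        m p.2 * Real.exp (-(z * len p.2)) := by
      have e : (1 + (len p.2 : ℝ)) ^ k * Real.exp (r t * len p.2) * ‖f.co p.2 t‖ =
          (1 + (len p.2 : ℝ)) ^ k * Real.exp ((r t + z) * len p.2) * ‖f.co p.2 t‖ *
            Real.exp (-(z * len p.2)) := by
        rw [show (r t + z) * (len p.2 : ℝ) = r t * len p.2 + z * len p.2 by ring, Real.exp_add]
        calc (1 + (len p.2 : ℝ)) ^ k * Real.exp (r t * len p.2) * ‖f.co p.2 t‖ =
            (1 + (len p.2 : ℝ)) ^ k * Real.exp (r t * len p.2) * ‖f.co p.2 t‖ *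
              (Real.exp (-(z * len p.2)) * Real.exp (z * len p.2)) := by rw [hexp, mul_one]
          _ = _ := by ring
      rw [e]
      exact mul_le_mul_of_nonneg_right h2 (Real.exp_nonneg _)
    rw [norm_mul]
    calc (1 + (len p.1 : ℝ)) ^ k * Real.exp (r t * len p.1) *
          (‖f.co p.2 t‖ * ‖(G p.2).co (p.1 - p.2) t‖)
        ≤ (((1 + (len p.2 : ℝ)) ^ k * Real.exp (r t * len p.2)) *
          ((1 + (len (p.1 - p.2) : ℝ)) ^ k * Real.exp (r t * len (p.1 - p.2)))) *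
          (‖f.co p.2 t‖ * ‖(G p.2).co (p.1 - p.2) t‖) :=
          mul_le_mul_of_nonneg_right h1 (by positivity)
      _ = ((1 + (len p.2 : ℝ)) ^ k * Real.exp (r t * len p.2) * ‖f.co p.2 t‖) *
          ((1 + (len (p.1 - p.2) : ℝ)) ^ k * Real.exp (r t * len (p.1 - p.2)) *
            ‖(G p.2).co (p.1 - p.2) t‖) := by ring
      _ ≤ (m p.2 * Real.exp (-(z * len p.2))) * n p.2 (p.1 - p.2) :=
          mul_le_mul h2' h3 (by positivity) (mul_nonneg (hm0 _) (Real.exp_nonneg _))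
  have hnorm : ∀ p : Gx × Gx, ‖f.co p.2 * (G p.2).co (p.1 - p.2)‖ ≤ A (p.2, p.1 - p.2) := by
    intro p
    rw [BoundedContinuousFunction.norm_le (hA0 _)]
    intro t
    have hrt : 0 ≤ r t := hr0.le.trans (hr t)
    have h1 := cA_one_le (k := k) hrt p.1
    have h2 := hpt p t
    refine le_trans ?_ h2
    rw [BoundedContinuousFunction.mul_apply]
    exact le_mul_of_one_le_left (norm_nonneg _) h1
  have hsum : Summable fun p : Gx × Gx => ‖f.co p.2 * (G p.2).co (p.1 - p.2)‖ :=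
    Summable.of_nonneg_of_le (fun _ => norm_nonneg _) hnorm hBs
  refine ⟨hsum, ?_⟩
  have hfac : ∀ μ, Summable fun ν => f.co ν * (G ν).co (μ - ν) := fun μ =>
    (hsum.prod_factor μ).of_norm
  obtain ⟨g, hg, hgb⟩ := exists_WT_of_bd (k := k) hr0 hr
    (fun μ => ∑' ν, f.co ν * (G ν).co (μ - ν)) (fun μ => ∑' ν, A (ν, μ - ν)) hBs.prod (by
      intro μ t
      have h1 : (∑' ν, f.co ν * (G ν).co (μ - ν)) t =
          ∑' ν, f.co ν t * (G ν).co (μ - ν) t := by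
        have h2 := ((hfac μ).hasSum.map (BoundedContinuousFunction.evalCLM ℂ t)
          (BoundedContinuousFunction.evalCLM ℂ t).continuous).tsum_eq
        simpa using h2.symm
      have hW : 0 ≤ (1 + (len μ : ℝ)) ^ k * Real.exp (r t * len μ) := by positivity
      have h3 : Summable fun ν => (1 + (len μ : ℝ)) ^ k * Real.exp (r t * len μ) *
          ‖f.co ν t * (G ν).co (μ - ν) t‖ :=
        Summable.of_nonneg_of_le (fun ν => by positivity) (fun ν => hpt (μ, ν) t)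
          (hBs.prod_factor μ)
      have h4 : Summable fun ν => ‖f.co ν t * (G ν).co (μ - ν) t‖ := by
        refine Summable.of_nonneg_of_le (fun ν => norm_nonneg _) (fun ν => ?_) (hBs.prod_factor μ)
        refine le_trans ?_ (hnorm (μ, ν))
        exact BoundedContinuousFunction.norm_coe_le_norm (f.co ν * (G ν).co (μ - ν)) t
      rw [h1]
      calc (1 + (len μ : ℝ)) ^ k * Real.exp (r t * len μ) *
            ‖∑' ν, f.co ν t * (G ν).co (μ - ν) t‖
          ≤ (1 + (len μ : ℝ)) ^ k * Real.exp (r t * len μ) *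
            ∑' ν, ‖f.co ν t * (G ν).co (μ - ν) t‖ :=
            mul_le_mul_of_nonneg_left (norm_tsum_le_tsum_norm h4) hW
        _ = ∑' ν, (1 + (len μ : ℝ)) ^ k * Real.exp (r t * len μ) *
            ‖f.co ν t * (G ν).co (μ - ν) t‖ := by rw [tsum_mul_left]
        _ ≤ ∑' ν, A (ν, μ - ν) :=
            Summable.tsum_le_tsum (fun ν => hpt (μ, ν) t) h3 (hBs.prod_factor μ))
  refine ⟨g, hg, hgb.mono ?_⟩
  rw [← hBs.tsum_prod]
  exact hBt

private theorem cA_G {κ : Kp} {lam z : ℝ} {r : ℝ → ℝ} {ζ : Fin 2 → WT} (hr0 : ∀ t, 0 ≤ r t)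
    (hk : KB κ lam) {k : ℕ} {y : ℝ} (hζ : ∀ a, Bd k r (ζ a) y) (hy : 2 * lam * y ≤ z) (ν : Gx) :
    Bd k r (texp (ikz κ ζ ν)) (Real.exp (z * len ν)) := by
  apply Bd.texp hr0
  have hn : ∀ a, ‖Complex.I * (kap κ a ν : ℂ)‖ ≤ lam * len ν := by
    intro a
    have h1 : ‖Complex.I * (kap κ a ν : ℂ)‖ = |(kap κ a ν : ℝ)| := by
      rw [norm_mul, Complex.norm_I, one_mul, ← Complex.ofReal_intCast, Complex.norm_real,
        Real.norm_eq_abs]
    rw [h1]
    exact kap_le hk a ν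
  have hy0 : 0 ≤ y := (hζ 0).nonneg
  refine ((Bd.smul (Complex.I * (kap κ 0 ν : ℂ)) (hζ 0)).add
    (Bd.smul (Complex.I * (kap κ 1 ν : ℂ)) (hζ 1))).mono ?_
  have h0 := mul_le_mul_of_nonneg_right (hn 0) hy0
  have h1 := mul_le_mul_of_nonneg_right (hn 1) hy0
  have h2 : 2 * lam * y * (len ν : ℝ) ≤ z * len ν :=
    mul_le_mul_of_nonneg_right hy (Nat.cast_nonneg _)
  nlinarith

/-- all facts about the composition at the order `k` -/
private theorem cA_main {κ : Kp} {lam r0 z : ℝ} {r : ℝ → ℝ} {ζ : Fin 2 → WT}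
    (H : CH κ lam r0 z r ζ) {k : ℕ} {y : ℝ} (hζ : ∀ a, Bd k r (ζ a) y) (hy : 2 * lam * y ≤ z)
    {f : WT} {c : ℝ} (hf : Bd k (fun t => r t + z) f c) :
    (Summable fun p : Gx × Gx => ‖f.co p.2 * (texp (ikz κ ζ p.2)).co (p.1 - p.2)‖) ∧
      (comp κ ζ f).co = compc κ ζ f ∧ Bd k r (comp κ ζ f) c := by
  obtain ⟨hs, g, hg, hgb⟩ := cA_super H.r00 H.hr hf (cA_G (fun t => H.r00.le.trans (H.hr t)) H.kb hζ hy)
  have hgc : g.co = compc κ ζ f := by
    rw [hg]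
    rfl
  have hR : Rapid (compc κ ζ f) := by
    rw [← hgc]
    exact g.rapid
  have hco : (comp κ ζ f).co = compc κ ζ f := by
    unfold comp
    rw [dif_pos hR]
  have hgg : g = comp κ ζ f := WT.ext (hgc.trans hco.symm)
  exact ⟨hs, hco, hgg ▸ hgb⟩

theorem comp_co {κ : Kp} {lam r0 z : ℝ} {r : ℝ → ℝ} {ζ : Fin 2 → WT} (H : CH κ lam r0 z r ζ)
    {f : WT} {c : ℝ} (hf : Bd 0 (fun t => r t + z) f c) :
    (comp κ ζ f).co = compc κ ζ f := by
  obtain ⟨y, hζ, hy⟩ := H.hζ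
  exact (cA_main H hζ hy hf).2.1

private theorem cA_sum {κ : Kp} {lam r0 z : ℝ} {r : ℝ → ℝ} {ζ : Fin 2 → WT} (H : CH κ lam r0 z r ζ)
    {f : WT} {c : ℝ} (hf : Bd 0 (fun t => r t + z) f c) :
    Summable fun p : Gx × Gx => ‖f.co p.2 * (texp (ikz κ ζ p.2)).co (p.1 - p.2)‖ := by
  obtain ⟨y, hζ, hy⟩ := H.hζ
  exact (cA_main H hζ hy hf).1

/-- `comp` as a convergent sum, pointwise. -/
theorem comp_hasSum {κ : Kp} {lam r0 z : ℝ} {r : ℝ → ℝ} {ζ : Fin 2 → WT} (H : CH κ lam r0 z r ζ)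
    {f : WT} {c : ℝ} (hf : Bd 0 (fun t => r t + z) f c) (μ : Gx) :
    HasSum (fun ν => f.co ν * (texp (ikz κ ζ ν)).co (μ - ν)) ((comp κ ζ f).co μ) := by
  rw [comp_co H hf]
  have h : Summable fun ν => f.co ν * (texp (ikz κ ζ ν)).co (μ - ν) :=
    ((cA_sum H hf).prod_factor μ).of_norm
  exact h.hasSum

theorem comp_bd {κ : Kp} {lam r0 z : ℝ} {r : ℝ → ℝ} {ζ : Fin 2 → WT} (H : CH κ lam r0 z r ζ)
    {k : ℕ} {y : ℝ} (hζ : ∀ a, Bd k r (ζ a) y) (hy : 2 * lam * y ≤ z)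
    {f : WT} {c : ℝ} (hf : Bd k (fun t => r t + z) f c) : Bd k r (comp κ ζ f) c :=
  (cA_main H hζ hy hf).2.2

private theorem cA_smul {κ : Kp} {lam r0 z : ℝ} {r : ℝ → ℝ} {ζ : Fin 2 → WT} (H : CH κ lam r0 z r ζ)
    {f : WT} {c : ℝ} (a : ℂ) (hf : Bd 0 (fun t => r t + z) f c) :
    comp κ ζ (a • f) = a • comp κ ζ f := by
  apply WT.ext
  funext μ
  have h1 := comp_hasSum H (Bd.smul a hf) μ
  have h2 := (comp_hasSum H hf μ).const_smul a
  have e : (fun ν => (a • f).co ν * (texp (ikz κ ζ ν)).co (μ - ν)) =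
      fun ν => a • (f.co ν * (texp (ikz κ ζ ν)).co (μ - ν)) := by
    funext ν
    rw [WT.co_smul, Pi.smul_apply, smul_mul_assoc]
  rw [e] at h1
  exact h1.unique h2

theorem comp_add {κ : Kp} {lam r0 z : ℝ} {r : ℝ → ℝ} {ζ : Fin 2 → WT} (H : CH κ lam r0 z r ζ)
    {f g : WT} {c d : ℝ} (hf : Bd 0 (fun t => r t + z) f c) (hg : Bd 0 (fun t => r t + z) g d) :
    comp κ ζ (f + g) = comp κ ζ f + comp κ ζ g := by
  apply WT.ext
  funext μ
  have h1 := comp_hasSum H (hf.add hg) μ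
  have h2 := (comp_hasSum H hf μ).add (comp_hasSum H hg μ)
  have e : (fun ν => (f + g).co ν * (texp (ikz κ ζ ν)).co (μ - ν)) =
      fun ν => f.co ν * (texp (ikz κ ζ ν)).co (μ - ν) + g.co ν * (texp (ikz κ ζ ν)).co (μ - ν) := by
    funext ν
    rw [WT.co_add, Pi.add_apply, add_mul]
  rw [e] at h1
  exact h1.unique h2

theorem comp_sub {κ : Kp} {lam r0 z : ℝ} {r : ℝ → ℝ} {ζ : Fin 2 → WT} (H : CH κ lam r0 z r ζ)
    {f g : WT} {c d : ℝ} (hf : Bd 0 (fun t => r t + z) f c) (hg : Bd 0 (fun t => r t + z) g d) :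
    comp κ ζ (f - g) = comp κ ζ f - comp κ ζ g := by
  apply WT.ext
  funext μ
  have h1 := comp_hasSum H (hf.sub hg) μ
  have h2 := (comp_hasSum H hf μ).sub (comp_hasSum H hg μ)
  have e : (fun ν => (f - g).co ν * (texp (ikz κ ζ ν)).co (μ - ν)) =
      fun ν => f.co ν * (texp (ikz κ ζ ν)).co (μ - ν) - g.co ν * (texp (ikz κ ζ ν)).co (μ - ν) := by
    funext ν
    rw [WT.co_sub, Pi.sub_apply, sub_mul]
  rw [e] at h1
  rw [WT.co_sub, Pi.sub_apply]
  exact h1.unique h2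

theorem comp_neg {κ : Kp} {lam r0 z : ℝ} {r : ℝ → ℝ} {ζ : Fin 2 → WT} (H : CH κ lam r0 z r ζ)
    {f : WT} {c : ℝ} (hf : Bd 0 (fun t => r t + z) f c) :
    comp κ ζ (-f) = -comp κ ζ f := by
  have h := cA_smul H (-1) hf
  rwa [neg_one_smul, neg_one_smul] at h

theorem comp_smul {κ : Kp} {lam r0 z : ℝ} {r : ℝ → ℝ} {ζ : Fin 2 → WT} (H : CH κ lam r0 z r ζ)
    {f : WT} {c : ℝ} (a : ℂ) (hf : Bd 0 (fun t => r t + z) f c) :
    comp κ ζ (a • f) = a • comp κ ζ f := cA_smul H a hf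

private theorem cA_zero {κ : Kp} {lam r0 z : ℝ} {r : ℝ → ℝ} {ζ : Fin 2 → WT}
    (H : CH κ lam r0 z r ζ) : comp κ ζ 0 = 0 := by
  apply WT.ext
  funext μ
  have h1 := comp_hasSum H (Bd.zero 0 (fun t => r t + z) le_rfl) μ
  have e : (fun ν => (0 : WT).co ν * (texp (ikz κ ζ ν)).co (μ - ν)) = fun _ => 0 := by
    funext ν
    rw [WT.co_zero, Pi.zero_apply, zero_mul]
  rw [e] at h1
  exact h1.unique hasSum_zero

theorem comp_sum {κ : Kp} {lam r0 z : ℝ} {r : ℝ → ℝ} {ζ : Fin 2 → WT} (H : CH κ lam r0 z r ζ)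
    {ι : Type*} (s : Finset ι) {f : ι → WT}
    (hf : ∀ j ∈ s, ∃ c, Bd 0 (fun t => r t + z) (f j) c) :
    comp κ ζ (∑ j ∈ s, f j) = ∑ j ∈ s, comp κ ζ (f j) := by
  classical
  suffices h : (∃ c, Bd 0 (fun t => r t + z) (∑ j ∈ s, f j) c) ∧
      comp κ ζ (∑ j ∈ s, f j) = ∑ j ∈ s, comp κ ζ (f j) from h.2
  induction s using Finset.induction_on with
  | empty =>
    rw [Finset.sum_empty, Finset.sum_empty]
    exact ⟨⟨0, Bd.zero 0 _ le_rfl⟩, cA_zero H⟩
  | insert i s hi ih =>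
    obtain ⟨⟨c, hc⟩, h2⟩ := ih (fun j hj => hf j (Finset.mem_insert_of_mem hj))
    obtain ⟨d, hd⟩ := hf i (Finset.mem_insert_self i s)
    rw [Finset.sum_insert hi, Finset.sum_insert hi]
    exact ⟨⟨d + c, hd.add hc⟩, by rw [comp_add H hd hc, h2]⟩

private theorem cA_ikz_zero (κ : Kp) (ζ : Fin 2 → WT) : ikz κ ζ 0 = 0 := by
  unfold ikz
  rw [kap_zero, kap_zero]
  simp

private theorem cA_cst {κ : Kp} {lam r0 z : ℝ} {r : ℝ → ℝ} {ζ : Fin 2 → WT} (H : CH κ lam r0 z r ζ)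
    (φ : Ct) : comp κ ζ (cst φ) = cst φ := by
  apply WT.ext
  funext μ
  have h1 := comp_hasSum H (Bd.cst 0 (fun t => r t + z) (c := ‖φ‖)
    (fun t => φ.norm_coe_le_norm t)) μ
  have h2 : HasSum (fun ν => (cst φ).co ν * (texp (ikz κ ζ ν)).co (μ - ν))
      ((cst φ).co 0 * (texp (ikz κ ζ 0)).co (μ - 0)) := by
    apply hasSum_single
    intro ν hν
    have : (cst φ).co ν = 0 := by
      change (Pi.single 0 φ : Gx → Ct) ν = 0
      rw [Pi.single_eq_of_ne hν]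
    rw [this, zero_mul]
  rw [h1.unique h2, cA_ikz_zero, texp_zero, sub_zero, WT.co_one]
  change (Pi.single 0 φ : Gx → Ct) 0 * (Pi.single 0 1 : Gx → Ct) μ = (Pi.single 0 φ : Gx → Ct) μ
  rw [Pi.single_eq_same]
  by_cases hμ : μ = 0
  · subst hμ
    rw [Pi.single_eq_same, Pi.single_eq_same, mul_one]
  · rw [Pi.single_eq_of_ne hμ, Pi.single_eq_of_ne hμ, mul_zero]

private theorem cA_cst_one : cst 1 = (1 : WT) := rfl

theorem comp_one {κ : Kp} {lam r0 z : ℝ} {r : ℝ → ℝ} {ζ : Fin 2 → WT} (H : CH κ lam r0 z r ζ) :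
    comp κ ζ 1 = 1 := by
  rw [← cA_cst_one]
  exact cA_cst H 1

theorem comp_zero {κ : Kp} {lam r0 z : ℝ} {r : ℝ → ℝ} {ζ : Fin 2 → WT} (H : CH κ lam r0 z r ζ) :
    comp κ ζ 0 = 0 := cA_zero H

theorem comp_cst {κ : Kp} {lam r0 z : ℝ} {r : ℝ → ℝ} {ζ : Fin 2 → WT} (H : CH κ lam r0 z r ζ)
    (φ : Ct) : comp κ ζ (cst φ) = cst φ := cA_cst H φ

/-! product -/

private theorem cA_eb_mul_co (ν : Gx) (g : WT) (μ : Gx) : (eb ν * g).co μ = g.co (μ - ν) := by
  rw [WT.mul_co, tsum_eq_single ν]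
  · change (Pi.single ν 1 : Gx → Ct) ν * g.co (μ - ν) = _
    rw [Pi.single_eq_same, one_mul]
  · intro lam hlam
    change (Pi.single ν 1 : Gx → Ct) lam * g.co (μ - lam) = 0
    rw [Pi.single_eq_of_ne hlam, zero_mul]

private theorem cA_eb_add (α β : Gx) : eb (α + β) = eb α * eb β := by
  apply WT.ext
  funext μ
  rw [cA_eb_mul_co]
  change (Pi.single (α + β) 1 : Gx → Ct) μ = (Pi.single β 1 : Gx → Ct) (μ - α)
  by_cases h : μ = α + β
  · subst h
    rw [Pi.single_eq_same, add_sub_cancel_left, Pi.single_eq_same]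
  · rw [Pi.single_eq_of_ne h, Pi.single_eq_of_ne]
    intro h'
    apply h
    rw [← h']
    abel

private theorem cA_ikz_add (κ : Kp) (ζ : Fin 2 → WT) (α β : Gx) :
    ikz κ ζ (α + β) = ikz κ ζ α + ikz κ ζ β := by
  unfold ikz
  rw [kap_add, kap_add]
  push_cast
  rw [mul_add, mul_add, add_smul, add_smul]
  abel

/-- the image of the term with the index `ν` -/
private noncomputable def cA_term (κ : Kp) (ζ : Fin 2 → WT) (f : WT) (ν : Gx) : WT :=
  cst (f.co ν) * (eb ν * texp (ikz κ ζ ν))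

private theorem cA_term_co (κ : Kp) (ζ : Fin 2 → WT) (f : WT) (ν μ : Gx) :
    (cA_term κ ζ f ν).co μ = f.co ν * (texp (ikz κ ζ ν)).co (μ - ν) := by
  unfold cA_term
  rw [cst_mul_co, cA_eb_mul_co]

private theorem cA_term_mul (κ : Kp) (ζ : Fin 2 → WT) (f g : WT) (α β μ : Gx) :
    (cA_term κ ζ f α * cA_term κ ζ g β).co μ =
      f.co α * g.co β * (texp (ikz κ ζ (α + β))).co (μ - (α + β)) := by
  have e : cA_term κ ζ f α * cA_term κ ζ g β =
      cst (f.co α * g.co β) * (eb (α + β) * texp (ikz κ ζ (α + β))) := by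
    unfold cA_term
    rw [cst_mul, cA_eb_add, cA_ikz_add, texp_add]
    ring
  rw [e, cst_mul_co, cA_eb_mul_co]

/-- termwise multiplication of a sum -/
private theorem cA_mul_hasSum {x : Gx → WT} {X : WT}
    (hs : Summable fun p : Gx × Gx => ‖(x p.2).co p.1‖)
    (hX : ∀ lam, HasSum (fun ν => (x ν).co lam) (X.co lam)) (y : WT) (μ : Gx) :
    HasSum (fun ν => (x ν * y).co μ) ((X * y).co μ) := by
  obtain ⟨C, hC⟩ : ∃ C, ∀ lam, ‖y.co lam‖ ≤ C := by
    refine ⟨∑' lam, ‖y.co lam‖, fun lam => ?_⟩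
    exact (rapid_norm y.rapid).le_tsum lam (fun _ _ => norm_nonneg _)
  have hΦ : Summable fun p : Gx × Gx => (x p.2).co p.1 * y.co (μ - p.1) := by
    refine Summable.of_norm_bounded (hs.mul_right C) fun p => ?_
    exact (norm_mul_le _ _).trans (mul_le_mul_of_nonneg_left (hC _) (norm_nonneg _))
  have hΦ' : Summable fun p : Gx × Gx => (x p.1).co p.2 * y.co (μ - p.2) :=
    (Equiv.prodComm Gx Gx).summable_iff.1 hΦ
  have h1 : HasSum (fun ν => ∑' lam, (x ν).co lam * y.co (μ - lam))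
      (∑' p : Gx × Gx, (x p.1).co p.2 * y.co (μ - p.2)) :=
    hΦ'.hasSum.prod_fiberwise fun ν => (hΦ'.prod_factor ν).hasSum
  have h2 : ∑' p : Gx × Gx, (x p.1).co p.2 * y.co (μ - p.2) =
      ∑' p : Gx × Gx, (x p.2).co p.1 * y.co (μ - p.1) :=
    (Equiv.prodComm Gx Gx).tsum_eq (fun p : Gx × Gx => (x p.2).co p.1 * y.co (μ - p.1))
  have h3 : ∑' p : Gx × Gx, (x p.2).co p.1 * y.co (μ - p.1) = (X * y).co μ := by
    rw [hΦ.tsum_prod, WT.mul_co]
    refine tsum_congr fun lam => ?_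
    rw [← (hX lam).tsum_eq]
    exact (hX lam).summable.tsum_mul_right (y.co (μ - lam))
  rw [h2, h3] at h1
  exact h1

theorem comp_mul {κ : Kp} {lam r0 z : ℝ} {r : ℝ → ℝ} {ζ : Fin 2 → WT} (H : CH κ lam r0 z r ζ)
    {f g : WT} {c d : ℝ} (hf : Bd 0 (fun t => r t + z) f c) (hg : Bd 0 (fun t => r t + z) g d) :
    comp κ ζ (f * g) = comp κ ζ f * comp κ ζ g := by
  apply WT.ext
  funext μ
  have hsf : Summable fun p : Gx × Gx => ‖(cA_term κ ζ f p.2).co p.1‖ := by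
    simp only [cA_term_co]
    exact cA_sum H hf
  have hsg : Summable fun p : Gx × Gx => ‖(cA_term κ ζ g p.2).co p.1‖ := by
    simp only [cA_term_co]
    exact cA_sum H hg
  have hXf : ∀ lam, HasSum (fun ν => (cA_term κ ζ f ν).co lam) ((comp κ ζ f).co lam) := by
    intro lam
    simp only [cA_term_co]
    exact comp_hasSum H hf lam
  have hXg : ∀ lam, HasSum (fun ν => (cA_term κ ζ g ν).co lam) ((comp κ ζ g).co lam) := by
    intro lam
    simp only [cA_term_co]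
    exact comp_hasSum H hg lam
  have h1 := (cA_mul_hasSum hsf hXf (comp κ ζ g) μ).tsum_eq
  have h2 : ∀ α, (cA_term κ ζ f α * comp κ ζ g).co μ =
      ∑' β, f.co α * g.co β * (texp (ikz κ ζ (α + β))).co (μ - (α + β)) := by
    intro α
    have h3 := (cA_mul_hasSum hsg hXg (cA_term κ ζ f α) μ).tsum_eq
    rw [mul_comm (cA_term κ ζ f α), ← h3]
    refine tsum_congr fun β => ?_
    rw [mul_comm (cA_term κ ζ g β), cA_term_mul]
  -- the other side
  obtain ⟨y, hζ, hy⟩ := H.hζ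
  obtain ⟨m, hm0, hms, -, hmb⟩ := hf
  obtain ⟨m', hm0', hms', -, hmb'⟩ := hg
  have hEb : ∀ ν lam, ‖(texp (ikz κ ζ ν)).co lam‖ ≤ Real.exp (z * len ν) := by
    intro ν lam
    obtain ⟨n, hn0, hns, hnc, hnb⟩ := cA_G (k := 0) (fun t => H.r00.le.trans (H.hr t)) H.kb hζ hy ν
    have h3 : ‖(texp (ikz κ ζ ν)).co lam‖ ≤ n lam := by
      rw [BoundedContinuousFunction.norm_le (hn0 _)]
      intro t
      have hrt : 0 ≤ r t := H.r00.le.trans (H.hr t)
      exact (le_mul_of_one_le_left (norm_nonneg _) (cA_one_le (k := 0) hrt lam)).trans (hnb lam t)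
    exact h3.trans ((hns.le_tsum lam fun _ _ => hn0 _).trans hnc)
  have hz : 0 ≤ z := by
    have := (hζ 0).nonneg
    have := H.lam0
    nlinarith [mul_nonneg (mul_nonneg (by norm_num : (0 : ℝ) ≤ 2) H.lam0) ((hζ 0).nonneg)]
  have hfb : ∀ {f : WT} {m : Gx → ℝ}, (∀ ν, 0 ≤ m ν) → (∀ ν t, (1 + (len ν : ℝ)) ^ 0 *
      Real.exp ((fun t => r t + z) t * len ν) * ‖f.co ν t‖ ≤ m ν) →
      ∀ ν, ‖f.co ν‖ * Real.exp (z * len ν) ≤ m ν := by
    intro f m hm0 hmb ν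
    have h3 : ‖f.co ν‖ ≤ m ν * Real.exp (-(z * len ν)) := by
      rw [BoundedContinuousFunction.norm_le (mul_nonneg (hm0 _) (Real.exp_nonneg _))]
      intro t
      have hrt : 0 ≤ r t := H.r00.le.trans (H.hr t)
      have h4 := hmb ν t
      have h5 : Real.exp (z * len ν) ≤ Real.exp ((r t + z) * len ν) := by
        apply Real.exp_le_exp.2
        have : 0 ≤ r t * (len ν : ℝ) := by positivity
        linarith
      rw [Real.exp_neg, ← div_eq_mul_inv, le_div_iff₀ (Real.exp_pos _)]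
      calc ‖f.co ν t‖ * Real.exp (z * len ν) ≤ ‖f.co ν t‖ * Real.exp ((r t + z) * len ν) :=
            mul_le_mul_of_nonneg_left h5 (norm_nonneg _)
        _ = (1 + (len ν : ℝ)) ^ 0 * Real.exp ((fun t => r t + z) t * len ν) * ‖f.co ν t‖ := by
            simp only [pow_zero, one_mul]
            ring
        _ ≤ m ν := h4
    calc ‖f.co ν‖ * Real.exp (z * len ν) ≤ m ν * Real.exp (-(z * len ν)) * Real.exp (z * len ν) :=
          mul_le_mul_of_nonneg_right h3 (Real.exp_nonneg _)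
      _ = m ν := by rw [mul_assoc, ← Real.exp_add, neg_add_cancel, Real.exp_zero, mul_one]
  have hΘ : Summable fun p : Gx × Gx =>
      f.co p.2 * g.co (p.1 - p.2) * (texp (ikz κ ζ p.1)).co (μ - p.1) := by
    refine Summable.of_norm_bounded (summable_prod_shift hms hms' hm0 hm0') fun p => ?_
    have h3 := hfb hm0 hmb p.2
    have h4 := hfb hm0' hmb' (p.1 - p.2)
    have h5 := hEb p.1 (μ - p.1)
    have h6 : Real.exp (z * len p.1) ≤ Real.exp (z * len p.2) * Real.exp (z * len (p.1 - p.2)) := by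
      rw [← Real.exp_add]
      apply Real.exp_le_exp.2
      nlinarith [cA_le_nat p.1 p.2]
    calc ‖f.co p.2 * g.co (p.1 - p.2) * (texp (ikz κ ζ p.1)).co (μ - p.1)‖
        ≤ ‖f.co p.2‖ * ‖g.co (p.1 - p.2)‖ * ‖(texp (ikz κ ζ p.1)).co (μ - p.1)‖ :=
          (norm_mul_le _ _).trans (mul_le_mul_of_nonneg_right (norm_mul_le _ _) (norm_nonneg _))
      _ ≤ ‖f.co p.2‖ * ‖g.co (p.1 - p.2)‖ *
          (Real.exp (z * len p.2) * Real.exp (z * len (p.1 - p.2))) :=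
          mul_le_mul_of_nonneg_left (h5.trans h6) (by positivity)
      _ = (‖f.co p.2‖ * Real.exp (z * len p.2)) *
          (‖g.co (p.1 - p.2)‖ * Real.exp (z * len (p.1 - p.2))) := by ring
      _ ≤ m p.2 * m' (p.1 - p.2) := mul_le_mul h3 h4 (by positivity) (hm0 _)
  have hΘ' : Summable fun p : Gx × Gx =>
      f.co p.1 * g.co (p.2 - p.1) * (texp (ikz κ ζ p.2)).co (μ - p.2) :=
    (Equiv.prodComm Gx Gx).summable_iff.1 hΘ
  have h4 : (comp κ ζ (f * g)).co μ = ∑' ν, (f * g).co ν * (texp (ikz κ ζ ν)).co (μ - ν) :=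
    (comp_hasSum H (Bd.mul (fun t => add_nonneg (H.r00.le.trans (H.hr t)) hz)
      ⟨m, hm0, hms, le_rfl, hmb⟩ ⟨m', hm0', hms', le_rfl, hmb'⟩) μ).tsum_eq.symm
  have h5 : ∑' ν, (f * g).co ν * (texp (ikz κ ζ ν)).co (μ - ν) =
      ∑' p : Gx × Gx, f.co p.2 * g.co (p.1 - p.2) * (texp (ikz κ ζ p.1)).co (μ - p.1) := by
    rw [hΘ.tsum_prod]
    refine tsum_congr fun ν => ?_
    rw [WT.mul_co]
    exact ((conv_summable f.rapid g.rapid ν).tsum_mul_right _).symm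
  have h6 : ∑' p : Gx × Gx, f.co p.2 * g.co (p.1 - p.2) * (texp (ikz κ ζ p.1)).co (μ - p.1) =
      ∑' p : Gx × Gx, f.co p.1 * g.co (p.2 - p.1) * (texp (ikz κ ζ p.2)).co (μ - p.2) :=
    (Equiv.prodComm Gx Gx).tsum_eq (fun p : Gx × Gx =>
      f.co p.1 * g.co (p.2 - p.1) * (texp (ikz κ ζ p.2)).co (μ - p.2))
  rw [h4, h5, h6, hΘ'.tsum_prod, ← h1]
  refine tsum_congr fun α => ?_
  rw [h2 α, ← (Equiv.addLeft α).tsum_eq
    (fun ν => f.co α * g.co (ν - α) * (texp (ikz κ ζ ν)).co (μ - ν))]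
  refine tsum_congr fun β => ?_
  rw [Equiv.coe_addLeft, add_sub_cancel_left]

/-- Composition with the identity. -/
theorem comp_id (κ : Kp) (f : WT) : comp κ 0 f = f := by
  have h1 : ∀ ν, ikz κ 0 ν = 0 := by
    intro ν
    unfold ikz
    simp
  have h2 : compc κ 0 f = f.co := by
    funext μ
    unfold compc
    rw [tsum_eq_single μ]
    · rw [h1, texp_zero, sub_self, WT.co_one, Pi.single_eq_same, mul_one]
    · intro ν hν
      rw [h1, texp_zero, WT.co_one, Pi.single_eq_of_ne (sub_ne_zero.2 (Ne.symm hν)), mul_zero]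
  have hR : Rapid (compc κ 0 f) := by
    rw [h2]
    exact f.rapid
  unfold comp
  rw [dif_pos hR]
  exact WT.ext h2

end ES
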