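import Pool.Agent.ES.LCompA
import Pool.Agent.ES.LTime

/-!
ES-LCompB: composition with `id + ζ`:
`comp κ ζ f = ∑_ν f_ν e_ν exp(i κ_0(ν) ζ_0 + i κ_1(ν) ζ_1)`.
Hypotheses `CH κ lam r0 z r ζ` (see Defs): `|κ| ≤ lam`, `r ≥ r0 > 0`, `Bd 0 r (ζ a) y`, `2 lam y ≤ z`;
then `exp(ikz ν)` has norm `≤ exp(z |ν|)`, and `comp κ ζ f` is fine as soon as `f` has a finite norm
at the radius `r + z`.
The derivative rules need one more power: `Bd 1 (r+z) f c`.
-/

open scoped BoundedContinuousFunction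

namespace ES

private lemma norm_Ik (κ : Kp) (a : Fin 2) (ν : Gx) :
    ‖Complex.I * (kap κ a ν : ℂ)‖ = |(kap κ a ν : ℝ)| := by
  rw [norm_mul, Complex.norm_I, one_mul, ← Complex.ofReal_intCast, Complex.norm_real,
    Real.norm_eq_abs]

private lemma ikz_bd {κ : Kp} {lam : ℝ} (hκ : KB κ lam) {k : ℕ} {r : ℝ → ℝ} {ζ : Fin 2 → WT}
    {y : ℝ} (hζ : ∀ a, Bd k r (ζ a) y) (ν : Gx) :
    Bd k r (ikz κ ζ ν) (2 * lam * y * len ν) := by
  have hy : 0 ≤ y := (hζ 0).nonneg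
  have h := ((hζ 0).smul (Complex.I * (kap κ 0 ν : ℂ))).add
    ((hζ 1).smul (Complex.I * (kap κ 1 ν : ℂ)))
  refine Bd.mono h ?_
  rw [norm_Ik, norm_Ik]
  have h0 := kap_le hκ 0 ν
  have h1 := kap_le hκ 1 ν
  nlinarith [mul_le_mul_of_nonneg_right h0 hy, mul_le_mul_of_nonneg_right h1 hy]

private lemma texp_ikz_bd {κ : Kp} {lam z : ℝ} (hκ : KB κ lam) {k : ℕ} {r : ℝ → ℝ}
    (hr0 : ∀ t, 0 ≤ r t) {ζ : Fin 2 → WT} {y : ℝ} (hζ : ∀ a, Bd k r (ζ a) y)
    (hy : 2 * lam * y ≤ z) (ν : Gx) : Bd k r (texp (ikz κ ζ ν)) (Real.exp (z * len ν)) := by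
  refine Bd.mono (Bd.texp hr0 (ikz_bd hκ hζ ν)) (Real.exp_le_exp.2 ?_)
  exact mul_le_mul_of_nonneg_right hy (Nat.cast_nonneg _)

/-- Weighted norms of the coefficients. -/
private lemma expz_norm {k : ℕ} {r : ℝ → ℝ} {z : ℝ} (hr : ∀ t, 0 ≤ r t) {f : WT} {c : ℝ}
    (hf : Bd k (fun t => r t + z) f c) :
    Summable fun ν => (1 + (len ν : ℝ)) ^ k * ‖f.co ν‖ * Real.exp (z * len ν) := by
  obtain ⟨m, hm0, hms, -, hm⟩ := hf
  refine Summable.of_nonneg_of_le (fun ν => by positivity) (fun ν => ?_) hms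
  have hw : 0 < (1 + (len ν : ℝ)) ^ k * Real.exp (z * len ν) := by positivity
  have h1 : ‖f.co ν‖ ≤ m ν / ((1 + (len ν : ℝ)) ^ k * Real.exp (z * len ν)) := by
    refine (BoundedContinuousFunction.norm_le (div_nonneg (hm0 ν) hw.le)).2 fun t => ?_
    rw [le_div_iff₀ hw]
    refine le_trans ?_ (hm ν t)
    have h2 : Real.exp (z * len ν) ≤ Real.exp ((r t + z) * len ν) := by
      refine Real.exp_le_exp.2 (mul_le_mul_of_nonneg_right ?_ (Nat.cast_nonneg _))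
      linarith [hr t]
    calc ‖f.co ν t‖ * ((1 + (len ν : ℝ)) ^ k * Real.exp (z * len ν))
        = (1 + (len ν : ℝ)) ^ k * Real.exp (z * len ν) * ‖f.co ν t‖ := by ring
      _ ≤ _ := by gcongr
  rw [le_div_iff₀ hw] at h1
  calc (1 + (len ν : ℝ)) ^ k * ‖f.co ν‖ * Real.exp (z * len ν)
      = ‖f.co ν‖ * ((1 + (len ν : ℝ)) ^ k * Real.exp (z * len ν)) := by ring
    _ ≤ m ν := h1

private lemma norm_sum_le {r : ℝ → ℝ} (hr : ∀ t, 0 ≤ r t) {g : WT} {c : ℝ}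
    (hg : Bd 0 r g c) : ∑' μ, ‖g.co μ‖ ≤ c := by
  obtain ⟨m, hm0, hms, hmc, hm⟩ := hg
  refine le_trans ((rapid_norm g.rapid).tsum_le_tsum (fun μ => ?_) hms) hmc
  refine (BoundedContinuousFunction.norm_le (hm0 μ)).2 fun t => ?_
  refine le_trans ?_ (hm μ t)
  rw [pow_zero, one_mul]
  have : (1 : ℝ) ≤ Real.exp (r t * len μ) :=
    Real.one_le_exp (mul_nonneg (hr t) (Nat.cast_nonneg _))
  exact le_mul_of_one_le_left (norm_nonneg _) this

/-- Summability of a twisted double series. -/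
private lemma summable_twist {A : Gx → ℝ} {d : Gx → Gx → ℝ} {D : Gx → ℝ} (hA : ∀ ν, 0 ≤ A ν)
    (hd : ∀ ν μ, 0 ≤ d ν μ) (hds : ∀ ν, Summable (d ν)) (hdD : ∀ ν, ∑' μ, d ν μ ≤ D ν)
    (hAD : Summable fun ν => A ν * D ν) :
    Summable (fun p : Gx × Gx => A p.1 * d p.1 p.2) ∧
      ∑' p : Gx × Gx, A p.1 * d p.1 p.2 ≤ ∑' ν, A ν * D ν := by
  have h1 : ∀ ν, Summable fun μ => A ν * d ν μ := fun ν => (hds ν).mul_left _
  have h2 : ∀ ν, ∑' μ, A ν * d ν μ ≤ A ν * D ν := fun ν => by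
    rw [tsum_mul_left]; exact mul_le_mul_of_nonneg_left (hdD ν) (hA ν)
  have h3 : Summable fun ν => ∑' μ, A ν * d ν μ :=
    Summable.of_nonneg_of_le (fun ν => tsum_nonneg fun μ => mul_nonneg (hA ν) (hd ν μ)) h2 hAD
  have h4 : Summable (fun p : Gx × Gx => A p.1 * d p.1 p.2) :=
    (summable_prod_of_nonneg (fun p => mul_nonneg (hA p.1) (hd p.1 p.2))).2 ⟨h1, h3⟩
  refine ⟨h4, ?_⟩
  rw [h4.tsum_prod]
  exact h3.tsum_le_tsum h2 hAD

/-- The shear `(μ, ν) ↦ (ν, μ - ν)`. -/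
private noncomputable def shr : Gx × Gx ≃ Gx × Gx :=
  { toFun := fun p => (p.2, p.1 - p.2)
    invFun := fun p => (p.1 + p.2, p.1)
    left_inv := fun p => by ext <;> simp
    right_inv := fun p => by ext <;> simp }

/-- Multiplication by `h` inside the twisted sum. -/
private lemma twist_mul {f F h : WT} {T : Gx → WT} {z : ℝ}
    (hf : Summable fun ν => ‖f.co ν‖ * Real.exp (z * len ν))
    (hT : ∀ ν, ∑' μ, ‖(T ν).co μ‖ ≤ Real.exp (z * len ν))
    (hF : ∀ μ, HasSum (fun ν => f.co ν * (T ν).co (μ - ν)) (F.co μ)) (μ : Gx) :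
    HasSum (fun ν => f.co ν * (h * T ν).co (μ - ν)) ((F * h).co μ) := by
  obtain ⟨C, hC⟩ : ∃ C, ∀ μ, ‖h.co μ‖ ≤ C := by
    refine ⟨∑' μ, ‖h.co μ‖, fun μ => ?_⟩
    exact (rapid_norm h.rapid).le_tsum μ (fun _ _ => norm_nonneg _)
  have h1 := (summable_twist (A := fun ν => ‖f.co ν‖) (d := fun ν μ => ‖(T ν).co μ‖)
    (D := fun ν => Real.exp (z * len ν)) (fun _ => norm_nonneg _) (fun _ _ => norm_nonneg _)
    (fun ν => rapid_norm (T ν).rapid) hT hf).1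
  -- the double series, indexed by `(lam, ν)`
  have h2 : Summable fun p : Gx × Gx => f.co p.2 * (T p.2).co (p.1 - p.2) * h.co (μ - p.1) := by
    have h3 : Summable fun p : Gx × Gx => ‖f.co p.2‖ * ‖(T p.2).co (p.1 - p.2)‖ :=
      (shr.summable_iff (f := fun p : Gx × Gx => ‖f.co p.1‖ * ‖(T p.1).co p.2‖)).2 h1
    refine Summable.of_norm_bounded (h3.mul_right C) fun p => ?_
    calc ‖f.co p.2 * (T p.2).co (p.1 - p.2) * h.co (μ - p.1)‖
        ≤ ‖f.co p.2 * (T p.2).co (p.1 - p.2)‖ * ‖h.co (μ - p.1)‖ := norm_mul_le _ _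
      _ ≤ (‖f.co p.2‖ * ‖(T p.2).co (p.1 - p.2)‖) * C :=
          mul_le_mul (norm_mul_le _ _) (hC _) (norm_nonneg _) (by positivity)
  have e1 : ∑' p : Gx × Gx, f.co p.2 * (T p.2).co (p.1 - p.2) * h.co (μ - p.1) =
      (F * h).co μ := by
    rw [h2.tsum_prod, WT.mul_co]
    refine tsum_congr fun lam => ?_
    exact ((hF lam).mul_right (h.co (μ - lam))).tsum_eq
  have h4 : HasSum (fun p : Gx × Gx => f.co p.2 * (T p.2).co (p.1 - p.2) * h.co (μ - p.1))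
      ((F * h).co μ) := by rw [← e1]; exact h2.hasSum
  have h5 : HasSum (fun p : Gx × Gx => f.co p.1 * (T p.1).co (p.2 - p.1) * h.co (μ - p.2))
      ((F * h).co μ) := ((Equiv.prodComm Gx Gx).hasSum_iff
        (f := fun p : Gx × Gx => f.co p.2 * (T p.2).co (p.1 - p.2) * h.co (μ - p.1))).2 h4
  refine h5.prod_fiberwise fun ν => ?_
  have h6 : HasSum (fun lam => (T ν).co lam * h.co (μ - ν - lam)) ((h * T ν).co (μ - ν)) := by
    rw [mul_comm h (T ν), WT.mul_co]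
    exact (conv_summable (T ν).rapid h.rapid (μ - ν)).hasSum
  have h7 := h6.mul_left (f.co ν)
  have h8 := ((Equiv.subRight ν).hasSum_iff
    (f := fun lam => f.co ν * ((T ν).co lam * h.co (μ - ν - lam)))).2 h7
  convert h8 using 1
  funext lam
  simp only [Function.comp_apply, Equiv.subRight_apply]
  rw [mul_assoc]
  congr 3
  abel

private lemma conv_norm_le {h T : WT} {C : ℝ} (hC : ∀ μ, ‖h.co μ‖ ≤ C) (μ : Gx) :
    ‖(h * T).co μ‖ ≤ C * ∑' lam, ‖T.co lam‖ := by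
  rw [mul_comm h T, WT.mul_co, ← tsum_mul_left]
  refine tsum_of_norm_bounded ((rapid_norm T.rapid).mul_left C).hasSum fun lam => ?_
  refine (norm_mul_le _ _).trans ?_
  rw [mul_comm]
  exact mul_le_mul_of_nonneg_right (hC _) (norm_nonneg _)

private lemma exists_norm_bound (h : WT) : ∃ C, 0 ≤ C ∧ ∀ μ, ‖h.co μ‖ ≤ C :=
  ⟨∑' μ, ‖h.co μ‖, tsum_nonneg fun _ => norm_nonneg _, fun μ =>
    (rapid_norm h.rapid).le_tsum μ (fun _ _ => norm_nonneg _)⟩

/-- Majorant of a twisted sum. -/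
private lemma twist_bd {k : ℕ} {r : ℝ → ℝ} {f F : WT} {T : Gx → WT} {A : Gx → ℝ}
    {d : Gx → Gx → ℝ} {D : Gx → ℝ} {c : ℝ} (hr : ∀ t, 0 ≤ r t)
    (hA : ∀ ν, 0 ≤ A ν)
    (hfA : ∀ ν t, (1 + (len ν : ℝ)) ^ k * Real.exp (r t * len ν) * ‖f.co ν t‖ ≤ A ν)
    (hd : ∀ ν μ, 0 ≤ d ν μ) (hds : ∀ ν, Summable (d ν)) (hdD : ∀ ν, ∑' μ, d ν μ ≤ D ν)
    (hTd : ∀ ν μ t, (1 + (len μ : ℝ)) ^ k * Real.exp (r t * len μ) * ‖(T ν).co μ t‖ ≤ d ν μ)
    (hAD : Summable fun ν => A ν * D ν) (hc : ∑' ν, A ν * D ν ≤ c)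
    (hF : ∀ μ, HasSum (fun ν => f.co ν * (T ν).co (μ - ν)) (F.co μ)) : Bd k r F c := by
  obtain ⟨h1, h2⟩ := summable_twist hA hd hds hdD hAD
  have h3 : Summable fun p : Gx × Gx => A p.2 * d p.2 (p.1 - p.2) :=
    (shr.summable_iff (f := fun p : Gx × Gx => A p.1 * d p.1 p.2)).2 h1
  have e3 : ∑' p : Gx × Gx, A p.2 * d p.2 (p.1 - p.2) = ∑' p : Gx × Gx, A p.1 * d p.1 p.2 :=
    shr.tsum_eq (fun p : Gx × Gx => A p.1 * d p.1 p.2)
  refine ⟨fun μ => ∑' ν, A ν * d ν (μ - ν), fun μ => tsum_nonneg fun ν =>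
    mul_nonneg (hA ν) (hd _ _), h3.prod, ?_, fun μ t => ?_⟩
  · rw [← h3.tsum_prod, e3]
    exact h2.trans hc
  · have h4 : Summable fun ν => A ν * d ν (μ - ν) := h3.prod_factor μ
    have h5 : HasSum (fun ν => f.co ν t * (T ν).co (μ - ν) t) (F.co μ t) := by
      have := (hF μ).map (BoundedContinuousFunction.evalCLM ℂ t)
        (BoundedContinuousFunction.evalCLM ℂ t).continuous
      simpa [Function.comp_def] using this
    have hw : 0 < (1 + (len μ : ℝ)) ^ k * Real.exp (r t * len μ) := by positivity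
    have h6 : ‖F.co μ t‖ ≤ ((1 + (len μ : ℝ)) ^ k * Real.exp (r t * len μ))⁻¹ *
        ∑' ν, A ν * d ν (μ - ν) := by
      rw [← h5.tsum_eq, ← tsum_mul_left]
      refine tsum_of_norm_bounded (h4.mul_left _).hasSum fun ν => ?_
      rw [inv_mul_eq_div, le_div_iff₀ hw]
      have a1 : (1 + (len μ : ℝ)) ^ k ≤ (1 + (len ν : ℝ)) ^ k * (1 + (len (μ - ν) : ℝ)) ^ k := by
        rw [← mul_pow]
        exact pow_le_pow_left₀ (by positivity) (one_add_len_le μ ν) k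
      have a2 : Real.exp (r t * len μ) ≤
          Real.exp (r t * len ν) * Real.exp (r t * len (μ - ν)) := by
        rw [← Real.exp_add, ← mul_add]
        refine Real.exp_le_exp.2 (mul_le_mul_of_nonneg_left ?_ (hr t))
        have := len_add ν (μ - ν)
        rw [add_sub_cancel] at this
        exact_mod_cast this
      calc ‖f.co ν t * (T ν).co (μ - ν) t‖ * ((1 + (len μ : ℝ)) ^ k * Real.exp (r t * len μ))
          = ((1 + (len μ : ℝ)) ^ k * Real.exp (r t * len μ)) *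
            (‖f.co ν t‖ * ‖(T ν).co (μ - ν) t‖) := by rw [norm_mul]; ring
        _ ≤ (((1 + (len ν : ℝ)) ^ k * (1 + (len (μ - ν) : ℝ)) ^ k) *
            (Real.exp (r t * len ν) * Real.exp (r t * len (μ - ν)))) *
            (‖f.co ν t‖ * ‖(T ν).co (μ - ν) t‖) := by
              refine mul_le_mul_of_nonneg_right ?_ (by positivity)
              exact mul_le_mul a1 a2 (by positivity) (by positivity)
        _ = ((1 + (len ν : ℝ)) ^ k * Real.exp (r t * len ν) * ‖f.co ν t‖) *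
            ((1 + (len (μ - ν) : ℝ)) ^ k * Real.exp (r t * len (μ - ν)) *
              ‖(T ν).co (μ - ν) t‖) := by ring
        _ ≤ A ν * d ν (μ - ν) := by
              exact mul_le_mul (hfA ν t) (hTd ν (μ - ν) t) (by positivity) (hA ν)
    rw [inv_mul_eq_div, le_div_iff₀ hw] at h6
    rw [mul_comm]
    exact h6

private lemma CH.r0 {κ : Kp} {lam r0 z : ℝ} {r : ℝ → ℝ} {ζ : Fin 2 → WT} (H : CH κ lam r0 z r ζ)
    (t : ℝ) : 0 ≤ r t := H.r00.le.trans (H.hr t)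

private lemma CH.texp_norm {κ : Kp} {lam r0 z : ℝ} {r : ℝ → ℝ} {ζ : Fin 2 → WT}
    (H : CH κ lam r0 z r ζ) (ν : Gx) :
    ∑' μ, ‖(texp (ikz κ ζ ν)).co μ‖ ≤ Real.exp (z * len ν) := by
  obtain ⟨y, hy, hz⟩ := H.hζ
  exact norm_sum_le (CH.r0 H) (texp_ikz_bd H.kb (CH.r0 H) hy hz ν)

/-- Chain rule. -/
theorem D_comp {κ : Kp} {lam r0 z : ℝ} {r : ℝ → ℝ} {ζ : Fin 2 → WT} (H : CH κ lam r0 z r ζ)
    {f : WT} {c : ℝ} (hf : Bd 1 (fun t => r t + z) f c) (b : Fin 2) :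
    D κ b (comp κ ζ f) = comp κ ζ (D κ b f) + ∑ a, comp κ ζ (D κ a f) * D κ b (ζ a) := by
  have hf0 : Bd 0 (fun t => r t + z) f c := hf.weaken (Nat.zero_le _) (fun _ => le_rfl)
  have hD : ∀ a, Bd 0 (fun t => r t + z) (D κ a f) (lam * c) := fun a => Bd.D H.kb a hf
  refine WT.ext (funext fun μ => ?_)
  have h1 := (comp_hasSum H hf0 μ).const_smul (Complex.I * (kap κ b μ : ℂ))
  have h2 := comp_hasSum H (hD b) μ
  have h3 : ∀ a, HasSum (fun ν => (D κ a f).co ν *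
      (D κ b (ζ a) * texp (ikz κ ζ ν)).co (μ - ν))
      ((comp κ ζ (D κ a f) * D κ b (ζ a)).co μ) := by
    intro a
    refine twist_mul (z := z) ?_ (CH.texp_norm H) (fun μ => comp_hasSum H (hD a) μ) μ
    have := expz_norm (CH.r0 H) (hD a)
    simpa using this
  have h4 := h2.add ((h3 0).add (h3 1))
  have e1 : (D κ b (comp κ ζ f)).co μ = (Complex.I * (kap κ b μ : ℂ)) • (comp κ ζ f).co μ := rfl
  rw [e1, WT.co_add, Pi.add_apply, Fin.sum_univ_two, WT.co_add, Pi.add_apply]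
  refine h1.unique ?_
  convert h4 using 1
  funext ν
  have e2 : (Complex.I * (kap κ b μ : ℂ)) =
      Complex.I * (kap κ b ν : ℂ) + Complex.I * (kap κ b (μ - ν) : ℂ) := by
    rw [kap_sub]; push_cast; ring
  have e3 : (Complex.I * (kap κ b (μ - ν) : ℂ)) • (texp (ikz κ ζ ν)).co (μ - ν) =
      (D κ b (texp (ikz κ ζ ν))).co (μ - ν) := rfl
  have e4 : D κ b (texp (ikz κ ζ ν)) = (Complex.I * (kap κ 0 ν : ℂ)) •
      (D κ b (ζ 0) * texp (ikz κ ζ ν)) +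
      (Complex.I * (kap κ 1 ν : ℂ)) • (D κ b (ζ 1) * texp (ikz κ ζ ν)) := by
    rw [D_texp]
    unfold ikz
    rw [map_add, map_smul, map_smul, add_mul, smul_mul_assoc, smul_mul_assoc]
  have e5 : ∀ a, (D κ a f).co ν = (Complex.I * (kap κ a ν : ℂ)) • f.co ν := fun a => rfl
  rw [e2, add_smul, ← mul_smul_comm (Complex.I * (kap κ b (μ - ν) : ℂ)), e3, e4, e5, e5, e5,
    WT.co_add, Pi.add_apply, WT.co_smul, WT.co_smul, Pi.smul_apply, Pi.smul_apply, mul_add,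
    mul_smul_comm, mul_smul_comm, smul_mul_assoc, smul_mul_assoc, smul_mul_assoc]

private lemma ikz_TD (κ : Kp) {a b : ℝ} {ζ ζ' : Fin 2 → WT} (hζ : ∀ j, TD a b (ζ j) (ζ' j))
    (ν : Gx) : TD a b (ikz κ ζ ν) (ikz κ ζ' ν) := by
  unfold ikz
  exact TD.add (TD.smul _ (hζ 0)) (TD.smul _ (hζ 1))

/-- Time derivative of a composition. -/
theorem TD.comp {κ : Kp} {lam r0 z : ℝ} {r : ℝ → ℝ} {ζ : Fin 2 → WT} (H : CH κ lam r0 z r ζ)
    {a b : ℝ} {f f' : WT} {c c' : ℝ} (hf : Bd 1 (fun t => r t + z) f c)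
    (hf' : Bd 0 (fun t => r t + z) f' c')
    {ζ' : Fin 2 → WT} (hζ : ∀ j, TD a b (ζ j) (ζ' j)) (h : TD a b f f') :
    TD a b (ES.comp κ ζ f) (ES.comp κ ζ f' + ∑ j, ES.comp κ ζ (ES.D κ j f) * ζ' j) := by
  intro μ t ht
  have hf0 : Bd 0 (fun t => r t + z) f c := hf.weaken (Nat.zero_le _) (fun _ => le_rfl)
  have hD : ∀ a, Bd 0 (fun t => r t + z) (ES.D κ a f) (lam * c) := fun a => Bd.D H.kb a hf
  -- the sum of the derivatives
  have h3 : ∀ a, HasSum (fun ν => (ES.D κ a f).co ν *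
      (ζ' a * ES.texp (ikz κ ζ ν)).co (μ - ν))
      ((ES.comp κ ζ (ES.D κ a f) * ζ' a).co μ) := by
    intro a
    refine twist_mul (z := z) ?_ (CH.texp_norm H) (fun μ => comp_hasSum H (hD a) μ) μ
    have := expz_norm (CH.r0 H) (hD a)
    simpa using this
  have h4 := (comp_hasSum H hf' μ).add ((h3 0).add (h3 1))
  have h5 : HasSum (fun ν => f'.co ν * (ES.texp (ikz κ ζ ν)).co (μ - ν) +
      f.co ν * (ikz κ ζ' ν * ES.texp (ikz κ ζ ν)).co (μ - ν))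
      ((ES.comp κ ζ f' + ∑ j, ES.comp κ ζ (ES.D κ j f) * ζ' j).co μ) := by
    rw [WT.co_add, Pi.add_apply, Fin.sum_univ_two, WT.co_add, Pi.add_apply]
    convert h4 using 1
    funext ν
    have e5 : ∀ a, (ES.D κ a f).co ν = (Complex.I * (kap κ a ν : ℂ)) • f.co ν := fun a => rfl
    have e4 : ikz κ ζ' ν * ES.texp (ikz κ ζ ν) = (Complex.I * (kap κ 0 ν : ℂ)) •
        (ζ' 0 * ES.texp (ikz κ ζ ν)) +
        (Complex.I * (kap κ 1 ν : ℂ)) • (ζ' 1 * ES.texp (ikz κ ζ ν)) := by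
      unfold ikz
      rw [add_mul, smul_mul_assoc, smul_mul_assoc]
    rw [e4, e5, e5, WT.co_add, Pi.add_apply, WT.co_smul, WT.co_smul, Pi.smul_apply,
      Pi.smul_apply, mul_add, mul_smul_comm, mul_smul_comm, smul_mul_assoc, smul_mul_assoc]
  have h6 : HasSum (fun ν => f'.co ν t * (ES.texp (ikz κ ζ ν)).co (μ - ν) t +
      f.co ν t * (ikz κ ζ' ν * ES.texp (ikz κ ζ ν)).co (μ - ν) t)
      ((ES.comp κ ζ f' + ∑ j, ES.comp κ ζ (ES.D κ j f) * ζ' j).co μ t) := by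
    have := h5.map (BoundedContinuousFunction.evalCLM ℂ t)
      (BoundedContinuousFunction.evalCLM ℂ t).continuous
    simpa [Function.comp_def] using this
  have h7 : ∀ s, HasSum (fun ν => f.co ν s * (ES.texp (ikz κ ζ ν)).co (μ - ν) s)
      ((ES.comp κ ζ f).co μ s) := by
    intro s
    have := (comp_hasSum H hf0 μ).map (BoundedContinuousFunction.evalCLM ℂ s)
      (BoundedContinuousFunction.evalCLM ℂ s).continuous
    simpa [Function.comp_def] using this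
  have h8 : (fun s => (ES.comp κ ζ f).co μ s) =
      fun s => ∑' ν, f.co ν s * (ES.texp (ikz κ ζ ν)).co (μ - ν) s :=
    funext fun s => (h7 s).tsum_eq.symm
  rw [h8, ← h6.tsum_eq]
  obtain ⟨C0, hC0, hC0'⟩ := exists_norm_bound (ζ' 0)
  obtain ⟨C1, hC1, hC1'⟩ := exists_norm_bound (ζ' 1)
  have hexpf := expz_norm (CH.r0 H) hf
  have hexpf' := expz_norm (CH.r0 H) hf'
  refine hasDerivAt_tsum_of_isPreconnected
    (u := fun ν => (1 + (len ν : ℝ)) ^ 0 * ‖f'.co ν‖ * Real.exp (z * len ν) +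
      (lam * (C0 + C1)) * ((1 + (len ν : ℝ)) ^ 1 * ‖f.co ν‖ * Real.exp (z * len ν)))
    (hexpf'.add (hexpf.mul_left _)) isOpen_Ioo isPreconnected_Ioo
    (g := fun ν s => f.co ν s * (ES.texp (ikz κ ζ ν)).co (μ - ν) s)
    (g' := fun ν s => f'.co ν s * (ES.texp (ikz κ ζ ν)).co (μ - ν) s +
      f.co ν s * (ikz κ ζ' ν * ES.texp (ikz κ ζ ν)).co (μ - ν) s)
    (fun ν s hs => ?_) (fun ν s hs => ?_) ht (h7 t).summable ht
  · exact (h ν s hs).mul (TD.texp (ikz_TD κ hζ ν) (μ - ν) s hs)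
  · have a0 : ‖(ES.texp (ikz κ ζ ν)).co (μ - ν) s‖ ≤ Real.exp (z * len ν) := by
      refine (((ES.texp (ikz κ ζ ν)).co (μ - ν)).norm_coe_le_norm s).trans ?_
      refine le_trans ?_ (CH.texp_norm H ν)
      exact (rapid_norm (ES.texp (ikz κ ζ ν)).rapid).le_tsum _ (fun _ _ => norm_nonneg _)
    have a1 : ∀ lam', ‖(ikz κ ζ' ν).co lam'‖ ≤ lam * len ν * (C0 + C1) := by
      intro lam'
      have e : (ikz κ ζ' ν).co lam' = (Complex.I * (kap κ 0 ν : ℂ)) • (ζ' 0).co lam' +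
        (Complex.I * (kap κ 1 ν : ℂ)) • (ζ' 1).co lam' := rfl
      rw [e]
      refine (norm_add_le _ _).trans ?_
      rw [norm_smul, norm_smul, norm_Ik, norm_Ik, mul_add]
      have k0 := kap_le H.kb 0 ν
      have k1 := kap_le H.kb 1 ν
      exact add_le_add (mul_le_mul k0 (hC0' _) (norm_nonneg _) ((abs_nonneg _).trans k0))
        (mul_le_mul k1 (hC1' _) (norm_nonneg _) ((abs_nonneg _).trans k1))
    have a2 : ‖(ikz κ ζ' ν * ES.texp (ikz κ ζ ν)).co (μ - ν) s‖ ≤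
        lam * len ν * (C0 + C1) * Real.exp (z * len ν) := by
      refine ((((ikz κ ζ' ν * ES.texp (ikz κ ζ ν))).co (μ - ν)).norm_coe_le_norm s).trans ?_
      refine (conv_norm_le a1 _).trans ?_
      refine mul_le_mul_of_nonneg_left (CH.texp_norm H ν) ?_
      have := H.lam0
      positivity
    have b1 : ‖f'.co ν s‖ ≤ ‖f'.co ν‖ := (f'.co ν).norm_coe_le_norm s
    have b2 : ‖f.co ν s‖ ≤ ‖f.co ν‖ := (f.co ν).norm_coe_le_norm s
    refine (norm_add_le _ _).trans ?_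
    rw [norm_mul, norm_mul]
    have hlam := H.lam0
    refine add_le_add ?_ ?_
    · rw [pow_zero, one_mul]
      exact mul_le_mul b1 a0 (norm_nonneg _) (norm_nonneg _)
    · calc ‖f.co ν s‖ * ‖(ikz κ ζ' ν * ES.texp (ikz κ ζ ν)).co (μ - ν) s‖
          ≤ ‖f.co ν‖ * (lam * len ν * (C0 + C1) * Real.exp (z * len ν)) :=
            mul_le_mul b2 a2 (norm_nonneg _) (norm_nonneg _)
        _ = (lam * (C0 + C1)) * ((len ν : ℝ) * ‖f.co ν‖ * Real.exp (z * len ν)) := by ring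
        _ ≤ (lam * (C0 + C1)) * ((1 + (len ν : ℝ)) ^ 1 * ‖f.co ν‖ * Real.exp (z * len ν)) := by
            rw [pow_one]
            gcongr
            linarith

/-- Lipschitz dependence on `ζ`. -/
theorem comp_sub_bd {κ : Kp} {lam r0 z : ℝ} {r : ℝ → ℝ} {ζ ζ' : Fin 2 → WT}
    (H : CH κ lam r0 z r ζ) (H' : CH κ lam r0 z r ζ')
    {k : ℕ} {y e : ℝ} (hζ : ∀ a, Bd k r (ζ a) y) (hζ' : ∀ a, Bd k r (ζ' a) y) (hy : 2 * lam * y ≤ z)
    (he : ∀ a, Bd k r (ζ a - ζ' a) e)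
    {f : WT} {c : ℝ} (hf : Bd (k + 1) (fun t => r t + z) f c) :
    Bd k r (comp κ ζ f - comp κ ζ' f) (2 * lam * e * c) := by
  have hf0 : Bd 0 (fun t => r t + z) f c := hf.weaken (Nat.zero_le _) (fun _ => le_rfl)
  have hlam := H.lam0
  have he0 : 0 ≤ e := (he 0).nonneg
  have hc0 : 0 ≤ c := hf.nonneg
  have hr := CH.r0 H
  -- bound of the difference of the exponentials
  have hT : ∀ ν, Bd k r (texp (ikz κ ζ ν) - texp (ikz κ ζ' ν))
      (2 * lam * e * len ν * Real.exp (z * len ν)) := by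
    intro ν
    have h1 : Bd k r (ikz κ ζ ν - ikz κ ζ' ν) (2 * lam * e * len ν) := by
      have h2 := ikz_bd H.kb he ν
      have h3 : ikz κ (fun a => ζ a - ζ' a) ν = ikz κ ζ ν - ikz κ ζ' ν := by
        unfold ikz
        rw [smul_sub, smul_sub]; abel
      rw [← h3]; exact h2
    refine Bd.mono (Bd.texp_sub hr (ikz_bd H.kb hζ ν) (ikz_bd H.kb hζ' ν) h1) ?_
    refine mul_le_mul_of_nonneg_left (Real.exp_le_exp.2 ?_) (by positivity)
    exact mul_le_mul_of_nonneg_right hy (Nat.cast_nonneg _)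
  choose d hd hds hdD hTd using hT
  obtain ⟨m, hm0, hms, hmc, hm⟩ := hf
  have hw : ∀ ν : Gx, 0 < (1 + (len ν : ℝ)) * Real.exp (z * len ν) := fun ν => by positivity
  have key : ∀ ν, m ν / ((1 + (len ν : ℝ)) * Real.exp (z * len ν)) *
      (2 * lam * e * len ν * Real.exp (z * len ν)) ≤ 2 * lam * e * m ν := by
    intro ν
    rw [div_mul_eq_mul_div, div_le_iff₀ (hw ν)]
    have : 0 ≤ 2 * lam * e * m ν * Real.exp (z * len ν) := by
      have := hm0 ν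
      positivity
    nlinarith [this]
  have key0 : ∀ ν, 0 ≤ m ν / ((1 + (len ν : ℝ)) * Real.exp (z * len ν)) *
      (2 * lam * e * len ν * Real.exp (z * len ν)) := fun ν =>
    mul_nonneg (div_nonneg (hm0 ν) (hw ν).le) (by positivity)
  have hsum : Summable fun ν => m ν / ((1 + (len ν : ℝ)) * Real.exp (z * len ν)) *
      (2 * lam * e * len ν * Real.exp (z * len ν)) :=
    Summable.of_nonneg_of_le key0 key (hms.mul_left _)
  refine twist_bd (f := f) (T := fun ν => texp (ikz κ ζ ν) - texp (ikz κ ζ' ν))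
    (A := fun ν => m ν / ((1 + (len ν : ℝ)) * Real.exp (z * len ν)))
    (d := d) (D := fun ν => 2 * lam * e * len ν * Real.exp (z * len ν)) hr
    (fun ν => div_nonneg (hm0 ν) (hw ν).le) (fun ν t => ?_) hd hds hdD hTd hsum ?_ (fun μ => ?_)
  · rw [le_div_iff₀ (hw ν)]
    refine le_trans (le_of_eq ?_) (hm ν t)
    have e1 : Real.exp ((r t + z) * len ν) = Real.exp (r t * len ν) * Real.exp (z * len ν) := by
      rw [add_mul, Real.exp_add]
    change _ = (1 + (len ν : ℝ)) ^ (k + 1) * Real.exp ((r t + z) * len ν) * ‖f.co ν t‖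
    rw [e1, pow_succ]
    ring
  · refine (hsum.tsum_le_tsum key (hms.mul_left _)).trans ?_
    rw [tsum_mul_left]
    exact mul_le_mul_of_nonneg_left hmc (by positivity)
  · have h1 := (comp_hasSum H hf0 μ).sub (comp_hasSum H' hf0 μ)
    have e2 : (fun ν => f.co ν * (texp (ikz κ ζ ν) - texp (ikz κ ζ' ν)).co (μ - ν)) =
        fun ν => f.co ν * (texp (ikz κ ζ ν)).co (μ - ν) -
          f.co ν * (texp (ikz κ ζ' ν)).co (μ - ν) := by
      funext ν
      rw [WT.co_sub, Pi.sub_apply, mul_sub]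
    rw [WT.co_sub, Pi.sub_apply, e2]
    exact h1

end ES
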