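import Pool.Agent.ES.LTime
import Pool.Agent.ES.LAlg
import Pool.Agent.ES.LBd

/-!
ES-LEv: evaluation of elements of `WT` at points of the plane.
`ev κ f z t = ∑' ν, f_ν(t) exp(i (κ_0(ν) z_0 + κ_1(ν) z_1))`, absolutely convergent, with all
derivatives in `z` (rapid decrease); use `hasFDerivAt_tsum`, `contDiff_tsum`, `continuous_tsum`.
-/

open scoped BoundedContinuousFunction

namespace ES

/-! ### the characters -/

/-- The character attached to the index `ν`. -/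
private noncomputable def lEv_ch (κ : Kp) (ν : Gx) (z : Fin 2 → ℝ) : ℂ :=
  Complex.exp (Complex.I * ((kap κ 0 ν : ℂ) * (z 0 : ℂ) + (kap κ 1 ν : ℂ) * (z 1 : ℂ)))

private theorem lEv_norm (κ : Kp) (ν : Gx) (z : Fin 2 → ℝ) : ‖lEv_ch κ ν z‖ = 1 := by
  unfold lEv_ch
  have h : Complex.I * ((kap κ 0 ν : ℂ) * (z 0 : ℂ) + (kap κ 1 ν : ℂ) * (z 1 : ℂ))
      = ((((kap κ 0 ν : ℝ) * z 0 + (kap κ 1 ν : ℝ) * z 1 : ℝ)) : ℂ) * Complex.I := by
    push_cast; ring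
  rw [h, Complex.norm_exp_ofReal_mul_I]

private theorem lEv_ch_zero (κ : Kp) (z : Fin 2 → ℝ) : lEv_ch κ 0 z = 1 := by
  simp [lEv_ch]

private theorem lEv_ch_add (κ : Kp) (μ ν : Gx) (z : Fin 2 → ℝ) :
    lEv_ch κ (μ + ν) z = lEv_ch κ μ z * lEv_ch κ ν z := by
  unfold lEv_ch
  rw [← Complex.exp_add, kap_add, kap_add]
  congr 1
  push_cast; ring

private theorem lEv_ch_neg (κ : Kp) (ν : Gx) (z : Fin 2 → ℝ) :
    lEv_ch κ (-ν) z = (starRingEnd ℂ) (lEv_ch κ ν z) := by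
  unfold lEv_ch
  rw [← Complex.exp_conj, kap_neg, kap_neg]
  congr 1
  simp only [map_mul, map_add, Complex.conj_I, Complex.conj_ofReal, map_intCast]
  push_cast; ring

private theorem lEv_ev (κ : Kp) (f : WT) (z : Fin 2 → ℝ) (t : ℝ) :
    ev κ f z t = ∑' ν, f.co ν t * lEv_ch κ ν z := rfl

private theorem lEv_sum (κ : Kp) (f : WT) (z : Fin 2 → ℝ) (t : ℝ) :
    Summable fun ν => f.co ν t * lEv_ch κ ν z := by
  refine Summable.of_norm_bounded (rapid_norm f.rapid) fun ν => ?_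
  rw [norm_mul, lEv_norm, mul_one]
  exact (f.co ν).norm_coe_le_norm t

theorem ev_summable (κ : Kp) (f : WT) (z : Fin 2 → ℝ) (t : ℝ) :
    Summable fun ν => f.co ν t *
      Complex.exp (Complex.I * ((kap κ 0 ν : ℂ) * (z 0 : ℂ) + (kap κ 1 ν : ℂ) * (z 1 : ℂ))) :=
  lEv_sum κ f z t

theorem ev_zero (κ : Kp) (z : Fin 2 → ℝ) (t : ℝ) : ev κ 0 z t = 0 := by
  simp [lEv_ev]

theorem ev_cst (κ : Kp) (φ : Ct) (z : Fin 2 → ℝ) (t : ℝ) : ev κ (cst φ) z t = φ t := by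
  rw [lEv_ev, tsum_eq_single 0]
  · simp [cst, lEv_ch_zero]
  · intro ν hν
    simp [cst, hν]

theorem ev_one (κ : Kp) (z : Fin 2 → ℝ) (t : ℝ) : ev κ 1 z t = 1 := by
  rw [lEv_ev, tsum_eq_single 0]
  · simp [WT.co_one, lEv_ch_zero]
  · intro ν hν
    simp [WT.co_one, hν]

theorem ev_add (κ : Kp) (f g : WT) (z : Fin 2 → ℝ) (t : ℝ) :
    ev κ (f + g) z t = ev κ f z t + ev κ g z t := by
  rw [lEv_ev, lEv_ev, lEv_ev, ← (lEv_sum κ f z t).tsum_add (lEv_sum κ g z t)]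
  refine tsum_congr fun ν => ?_
  simp only [WT.co_add, Pi.add_apply, BoundedContinuousFunction.coe_add]
  ring

theorem ev_smul (κ : Kp) (c : ℂ) (f : WT) (z : Fin 2 → ℝ) (t : ℝ) :
    ev κ (c • f) z t = c * ev κ f z t := by
  rw [lEv_ev, lEv_ev, ← tsum_mul_left]
  refine tsum_congr fun ν => ?_
  simp only [WT.co_smul, Pi.smul_apply, BoundedContinuousFunction.coe_smul, smul_eq_mul]
  ring

theorem ev_neg (κ : Kp) (f : WT) (z : Fin 2 → ℝ) (t : ℝ) : ev κ (-f) z t = -ev κ f z t := by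
  rw [lEv_ev, lEv_ev, ← tsum_neg]
  refine tsum_congr fun ν => ?_
  simp

theorem ev_sub (κ : Kp) (f g : WT) (z : Fin 2 → ℝ) (t : ℝ) :
    ev κ (f - g) z t = ev κ f z t - ev κ g z t := by
  rw [sub_eq_add_neg, ev_add, ev_neg, sub_eq_add_neg]

theorem ev_mul (κ : Kp) (f g : WT) (z : Fin 2 → ℝ) (t : ℝ) :
    ev κ (f * g) z t = ev κ f z t * ev κ g z t := by
  have hF : Summable fun ν => ‖f.co ν t * lEv_ch κ ν z‖ := by
    refine Summable.of_nonneg_of_le (fun _ => norm_nonneg _) (fun ν => ?_) (rapid_norm f.rapid)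
    rw [norm_mul, lEv_norm, mul_one]
    exact (f.co ν).norm_coe_le_norm t
  have hG : Summable fun ν => ‖g.co ν t * lEv_ch κ ν z‖ := by
    refine Summable.of_nonneg_of_le (fun _ => norm_nonneg _) (fun ν => ?_) (rapid_norm g.rapid)
    rw [norm_mul, lEv_norm, mul_one]
    exact (g.co ν).norm_coe_le_norm t
  have hFG := summable_mul_of_summable_norm hF hG
  rw [lEv_ev κ f, lEv_ev κ g, tsum_mul_tsum_of_summable_norm hF hG]
  let e : Gx × Gx ≃ Gx × Gx :=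
    { toFun := fun p => (p.2, p.1 - p.2)
      invFun := fun p => (p.1 + p.2, p.1)
      left_inv := fun p => by ext <;> simp
      right_inv := fun p => by ext <;> simp }
  have hs : Summable fun p : Gx × Gx =>
      (f.co p.2 t * lEv_ch κ p.2 z) * (g.co (p.1 - p.2) t * lEv_ch κ (p.1 - p.2) z) :=
    (e.summable_iff (f := fun p : Gx × Gx =>
      (f.co p.1 t * lEv_ch κ p.1 z) * (g.co p.2 t * lEv_ch κ p.2 z))).2 hFG
  rw [← e.tsum_eq (fun p : Gx × Gx =>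
      (f.co p.1 t * lEv_ch κ p.1 z) * (g.co p.2 t * lEv_ch κ p.2 z))]
  change _ = ∑' p : Gx × Gx,
      (f.co p.2 t * lEv_ch κ p.2 z) * (g.co (p.1 - p.2) t * lEv_ch κ (p.1 - p.2) z)
  rw [hs.tsum_prod, lEv_ev]
  refine tsum_congr fun ν => ?_
  rw [WT.mul_co_apply, ← tsum_mul_right]
  refine tsum_congr fun μ => ?_
  have h : lEv_ch κ ν z = lEv_ch κ μ z * lEv_ch κ (ν - μ) z := by
    rw [← lEv_ch_add]; congr 1; abel
  rw [h]; ring

theorem ev_sum (κ : Kp) {ι : Type*} (s : Finset ι) (f : ι → WT) (z : Fin 2 → ℝ) (t : ℝ) :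
    ev κ (∑ j ∈ s, f j) z t = ∑ j ∈ s, ev κ (f j) z t := by
  classical
  induction s using Finset.induction_on with
  | empty => simp [ev_zero]
  | insert a s ha ih => rw [Finset.sum_insert ha, Finset.sum_insert ha, ev_add, ih]

theorem ev_tcomp (κ : Kp) (g : C(ℝ, ℝ)) (f : WT) (z : Fin 2 → ℝ) (t : ℝ) :
    ev κ (tcomp g f) z t = ev κ f z (g t) := rfl

theorem norm_ev_le {κ : Kp} {f : WT} {r : ℝ → ℝ} (hr : ∀ t, 0 ≤ r t) {c : ℝ} (hf : Bd 0 r f c)
    (z : Fin 2 → ℝ) (t : ℝ) : ‖ev κ f z t‖ ≤ c := by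
  obtain ⟨m, hm0, hms, hmc, hm⟩ := hf
  refine le_trans ?_ hmc
  rw [lEv_ev]
  refine tsum_of_norm_bounded hms.hasSum fun ν => ?_
  rw [norm_mul, lEv_norm, mul_one]
  refine le_trans ?_ (hm ν t)
  rw [pow_zero, one_mul]
  have h : (1 : ℝ) ≤ Real.exp (r t * len ν) :=
    Real.one_le_exp (mul_nonneg (hr t) (Nat.cast_nonneg _))
  nlinarith [norm_nonneg (f.co ν t)]

/-- Real elements have real values. -/
theorem ev_real {κ : Kp} {f : WT} (hf : IsR f) (z : Fin 2 → ℝ) (t : ℝ) :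
    ev κ f z t = (evR κ f z t : ℂ) := by
  have h : (starRingEnd ℂ) (ev κ f z t) = ev κ f z t := by
    rw [lEv_ev, Complex.conj_tsum, ← (Equiv.neg Gx).tsum_eq]
    refine tsum_congr fun ν => ?_
    rw [Equiv.neg_apply, map_mul, ← lEv_ch_neg, neg_neg, ← hf (-ν) t, neg_neg]
  unfold evR
  exact (Complex.conj_eq_iff_re.1 h).symm

theorem evR_add (κ : Kp) (f g : WT) (z : Fin 2 → ℝ) (t : ℝ) :
    evR κ (f + g) z t = evR κ f z t + evR κ g z t := by
  unfold evR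
  rw [ev_add, Complex.add_re]

theorem evR_mul {κ : Kp} {f g : WT} (hf : IsR f) (hg : IsR g) (z : Fin 2 → ℝ) (t : ℝ) :
    evR κ (f * g) z t = evR κ f z t * evR κ g z t := by
  have h : evR κ (f * g) z t = (ev κ (f * g) z t).re := rfl
  rw [h, ev_mul, ev_real hf, ev_real hg, ← Complex.ofReal_mul, Complex.ofReal_re]

theorem abs_evR_le {κ : Kp} {f : WT} {r : ℝ → ℝ} (hr : ∀ t, 0 ≤ r t) {c : ℝ} (hf : Bd 0 r f c)
    (z : Fin 2 → ℝ) (t : ℝ) : |evR κ f z t| ≤ c :=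
  (Complex.abs_re_le_norm _).trans (norm_ev_le hr hf z t)

/-- Periodicity. -/
theorem ev_periodic (κ : Kp) (f : WT) (z : Fin 2 → ℝ) (n : Fin 2 → ℤ) (t : ℝ) :
    ev κ f (fun a => z a + 2 * Real.pi * n a) t = ev κ f z t := by
  rw [lEv_ev, lEv_ev]
  refine tsum_congr fun ν => ?_
  congr 1
  unfold lEv_ch
  have h : Complex.I * ((kap κ 0 ν : ℂ) * ((z 0 + 2 * Real.pi * n 0 : ℝ) : ℂ)
      + (kap κ 1 ν : ℂ) * ((z 1 + 2 * Real.pi * n 1 : ℝ) : ℂ))
      = Complex.I * ((kap κ 0 ν : ℂ) * (z 0 : ℂ) + (kap κ 1 ν : ℂ) * (z 1 : ℂ))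
        + ((kap κ 0 ν * n 0 + kap κ 1 ν * n 1 : ℤ) : ℂ) * (2 * Real.pi * Complex.I) := by
    push_cast; ring
  rw [h, Complex.exp_add, Complex.exp_int_mul_two_pi_mul_I, mul_one]

theorem evR_periodic (κ : Kp) (f : WT) (z : Fin 2 → ℝ) (n : Fin 2 → ℤ) (t : ℝ) :
    evR κ f (fun a => z a + 2 * Real.pi * n a) t = evR κ f z t := by
  unfold evR
  rw [ev_periodic]

private theorem lEv_continuous_ch (κ : Kp) (ν : Gx) : Continuous (lEv_ch κ ν) := by
  unfold lEv_ch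
  fun_prop

/-- Joint continuity. -/
theorem continuous_ev (κ : Kp) (f : WT) :
    Continuous fun p : (Fin 2 → ℝ) × ℝ => ev κ f p.1 p.2 := by
  simp only [lEv_ev]
  refine continuous_tsum (fun ν => ?_) (rapid_norm f.rapid) fun ν p => ?_
  · exact ((f.co ν).continuous.comp continuous_snd).mul
      ((lEv_continuous_ch κ ν).comp continuous_fst)
  · rw [norm_mul, lEv_norm, mul_one]
    exact (f.co ν).norm_coe_le_norm _

theorem continuous_evR (κ : Kp) (f : WT) :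
    Continuous fun p : (Fin 2 → ℝ) × ℝ => evR κ f p.1 p.2 :=
  Complex.continuous_re.comp (continuous_ev κ f)

/-! ### differentiability -/

/-- The linear form `z ↦ i (κ_0 z_0 + κ_1 z_1)`. -/
private noncomputable def lEv_l (κ : Kp) (ν : Gx) : (Fin 2 → ℝ) →L[ℝ] ℂ :=
  ∑ a : Fin 2, (Complex.I * (kap κ a ν : ℂ)) •
    (Complex.ofRealCLM.comp (ContinuousLinearMap.proj a : (Fin 2 → ℝ) →L[ℝ] ℝ))

private theorem lEv_l_apply (κ : Kp) (ν : Gx) (v : Fin 2 → ℝ) :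
    lEv_l κ ν v = ∑ a : Fin 2, (Complex.I * (kap κ a ν : ℂ)) * (v a : ℂ) := by
  simp [lEv_l]

private theorem lEv_ch_eq (κ : Kp) (ν : Gx) (z : Fin 2 → ℝ) :
    lEv_ch κ ν z = Complex.exp (lEv_l κ ν z) := by
  rw [lEv_l_apply, Fin.sum_univ_two]
  unfold lEv_ch
  congr 1; ring

private theorem lEv_ch_hasFDerivAt (κ : Kp) (ν : Gx) (z : Fin 2 → ℝ) :
    HasFDerivAt (lEv_ch κ ν) (lEv_ch κ ν z • lEv_l κ ν) z := by
  have h : HasFDerivAt (fun z => Complex.exp (lEv_l κ ν z))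
      (Complex.exp (lEv_l κ ν z) • lEv_l κ ν) z :=
    (lEv_l κ ν).hasFDerivAt.cexp
  have h2 : lEv_ch κ ν = fun z => Complex.exp (lEv_l κ ν z) := funext fun z => lEv_ch_eq κ ν z
  rw [h2]
  exact h

private theorem lEv_norm_l (κ : Kp) (ν : Gx) :
    ‖lEv_l κ ν‖ ≤ ∑ a : Fin 2, ‖Complex.I * (kap κ a ν : ℂ)‖ := by
  refine ContinuousLinearMap.opNorm_le_bound _ (Finset.sum_nonneg fun _ _ => norm_nonneg _) ?_
  intro v
  rw [lEv_l_apply, Finset.sum_mul]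
  refine (norm_sum_le _ _).trans (Finset.sum_le_sum fun a _ => ?_)
  rw [norm_mul]
  refine mul_le_mul_of_nonneg_left ?_ (norm_nonneg _)
  rw [Complex.norm_real]
  exact norm_le_pi_norm v a

/-- Bound of the derivative of a term. -/
private noncomputable def lEv_u (κ : Kp) (f : WT) (ν : Gx) : ℝ := ∑ a : Fin 2, ‖(D κ a f).co ν‖

private theorem lEv_u_summable (κ : Kp) (f : WT) : Summable (lEv_u κ f) :=
  summable_sum fun a _ => rapid_norm (D κ a f).rapid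

private theorem lEv_l_mul_le (κ : Kp) (f : WT) (ν : Gx) (t : ℝ) :
    ‖f.co ν t‖ * ‖lEv_l κ ν‖ ≤ lEv_u κ f ν := by
  unfold lEv_u
  calc ‖f.co ν t‖ * ‖lEv_l κ ν‖
      ≤ ‖f.co ν‖ * ∑ a : Fin 2, ‖Complex.I * (kap κ a ν : ℂ)‖ :=
        mul_le_mul ((f.co ν).norm_coe_le_norm t) (lEv_norm_l κ ν) (norm_nonneg _) (norm_nonneg _)
    _ = ∑ a : Fin 2, ‖(D κ a f).co ν‖ := by
        rw [Finset.mul_sum]
        refine Finset.sum_congr rfl fun a _ => ?_
        rw [D_co, norm_smul, mul_comm]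

/-- Value on a vector of the termwise derivative. -/
private theorem lEv_tsum_l (κ : Kp) (f : WT) (z v : Fin 2 → ℝ) (t : ℝ) :
    ∑' ν, f.co ν t * (lEv_ch κ ν z * lEv_l κ ν v)
      = ∑ a : Fin 2, ev κ (D κ a f) z t * (v a : ℂ) := by
  have h : ∀ a : Fin 2, Summable fun ν => (D κ a f).co ν t * lEv_ch κ ν z * (v a : ℂ) :=
    fun a => (lEv_sum κ (D κ a f) z t).mul_right _
  have h2 : ∀ ν, f.co ν t * (lEv_ch κ ν z * lEv_l κ ν v)
      = ∑ a : Fin 2, (D κ a f).co ν t * lEv_ch κ ν z * (v a : ℂ) := by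
    intro ν
    rw [lEv_l_apply, Finset.mul_sum, Finset.mul_sum]
    refine Finset.sum_congr rfl fun a _ => ?_
    have hD : (D κ a f).co ν t = (Complex.I * (kap κ a ν : ℂ)) * f.co ν t := by
      rw [D_co]; rfl
    rw [hD]
    ring
  rw [tsum_congr h2, Summable.tsum_finsetSum fun a _ => h a]
  refine Finset.sum_congr rfl fun a _ => ?_
  rw [lEv_ev, tsum_mul_right]

/-- The derivative in `z` of `evR κ f` is given by `evR κ (D κ a f)`. -/
theorem hasFDerivAt_evR (κ : Kp) (f : WT) (z : Fin 2 → ℝ) (t : ℝ) :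
    HasFDerivAt (fun z => evR κ f z t)
      (∑ a : Fin 2, evR κ (D κ a f) z t • (ContinuousLinearMap.proj a : (Fin 2 → ℝ) →L[ℝ] ℝ)) z := by
  have hb : ∀ ν (z : Fin 2 → ℝ), ‖(f.co ν t) • (lEv_ch κ ν z • lEv_l κ ν)‖ ≤ lEv_u κ f ν := by
    intro ν z
    rw [norm_smul, norm_smul, lEv_norm, one_mul]
    exact lEv_l_mul_le κ f ν t
  have h : HasFDerivAt (fun z => ∑' ν, f.co ν t * lEv_ch κ ν z)
      (∑' ν, (f.co ν t) • (lEv_ch κ ν z • lEv_l κ ν)) z :=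
    hasFDerivAt_tsum (lEv_u_summable κ f)
      (fun ν z => by
        have := (lEv_ch_hasFDerivAt κ ν z).const_smul (f.co ν t)
        exact this) hb (lEv_sum κ f z t) z
  have h3 := (Complex.reCLM.hasFDerivAt (x := ∑' ν, f.co ν t * lEv_ch κ ν z)).comp z h
  refine h3.congr_fderiv ?_
  ext v
  have hsum : Summable fun ν => (f.co ν t) • (lEv_ch κ ν z • lEv_l κ ν) :=
    Summable.of_norm_bounded (lEv_u_summable κ f) fun ν => hb ν z
  have e1 : (∑' ν, (f.co ν t) • (lEv_ch κ ν z • lEv_l κ ν)) v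
      = ∑' ν, f.co ν t * (lEv_ch κ ν z * lEv_l κ ν v) := by
    have := (hsum.hasSum.map (ContinuousLinearMap.apply ℝ ℂ v)
      (ContinuousLinearMap.apply ℝ ℂ v).continuous).tsum_eq
    simpa [Function.comp_def] using this.symm
  rw [ContinuousLinearMap.comp_apply, e1, lEv_tsum_l]
  simp [evR]

/-- The derivative in `t`. -/
theorem hasDerivAt_evR {a b : ℝ} (κ : Kp) {f f' : WT} (h : TD a b f f') (z : Fin 2 → ℝ) {t : ℝ}
    (ht : t ∈ Set.Ioo a b) : HasDerivAt (fun s => evR κ f z s) (evR κ f' z t) t := by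
  have h1 : HasDerivAt (fun s => ∑' ν, f.co ν s * lEv_ch κ ν z)
      (∑' ν, f'.co ν t * lEv_ch κ ν z) t := by
    refine hasDerivAt_tsum_of_isPreconnected (rapid_norm f'.rapid) isOpen_Ioo
      isPreconnected_Ioo (fun ν s hs => (h ν s hs).mul_const _) (fun ν s _ => ?_) ht
      (lEv_sum κ f z t) ht
    rw [norm_mul, lEv_norm, mul_one]
    exact (f'.co ν).norm_coe_le_norm s
  have h2 := (Complex.reCLM.hasFDerivAt
    (x := ∑' ν, f.co ν t * lEv_ch κ ν z)).comp_hasDerivAt t h1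
  exact h2

/-- Joint differentiability on the open time interval. -/
private theorem lEv_hasFDerivAt_joint {a b : ℝ} (κ : Kp) {f f' : WT} (h : TD a b f f')
    {q : (Fin 2 → ℝ) × ℝ} (hq : q ∈ (Set.univ : Set (Fin 2 → ℝ)) ×ˢ Set.Ioo a b) :
    HasFDerivAt (fun p : (Fin 2 → ℝ) × ℝ => evR κ f p.1 p.2)
      ((∑ a : Fin 2, evR κ (D κ a f) q.1 q.2 •
          ((ContinuousLinearMap.proj a : (Fin 2 → ℝ) →L[ℝ] ℝ).comp
            (ContinuousLinearMap.fst ℝ (Fin 2 → ℝ) ℝ))) +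
        evR κ f' q.1 q.2 • ContinuousLinearMap.snd ℝ (Fin 2 → ℝ) ℝ) q := by
  let S : Set ((Fin 2 → ℝ) × ℝ) := (Set.univ : Set (Fin 2 → ℝ)) ×ˢ Set.Ioo a b
  have hSo : IsOpen S := isOpen_univ.prod isOpen_Ioo
  have hSc : IsPreconnected S := isPreconnected_univ.prod isPreconnected_Ioo
  let T : Gx → (Fin 2 → ℝ) × ℝ → ((Fin 2 → ℝ) × ℝ →L[ℝ] ℂ) := fun ν p =>
    (f.co ν p.2) • ((lEv_ch κ ν p.1 • lEv_l κ ν).comp
        (ContinuousLinearMap.fst ℝ (Fin 2 → ℝ) ℝ))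
      + (lEv_ch κ ν p.1) • ((ContinuousLinearMap.toSpanSingleton ℝ (f'.co ν p.2)).comp
        (ContinuousLinearMap.snd ℝ (Fin 2 → ℝ) ℝ))
  let u : Gx → ℝ := fun ν => lEv_u κ f ν + ‖f'.co ν‖
  have hu : Summable u := (lEv_u_summable κ f).add (rapid_norm f'.rapid)
  have hT : ∀ ν, ∀ p ∈ S, HasFDerivAt
      (fun p : (Fin 2 → ℝ) × ℝ => f.co ν p.2 * lEv_ch κ ν p.1) (T ν p) p := by
    intro ν p hp
    have h1 : HasFDerivAt (fun p : (Fin 2 → ℝ) × ℝ => f.co ν p.2)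
        ((ContinuousLinearMap.toSpanSingleton ℝ (f'.co ν p.2)).comp
          (ContinuousLinearMap.snd ℝ (Fin 2 → ℝ) ℝ)) p :=
      (h ν p.2 hp.2).hasFDerivAt.comp p hasFDerivAt_snd
    have h2 : HasFDerivAt (fun p : (Fin 2 → ℝ) × ℝ => lEv_ch κ ν p.1)
        ((lEv_ch κ ν p.1 • lEv_l κ ν).comp (ContinuousLinearMap.fst ℝ (Fin 2 → ℝ) ℝ)) p :=
      (lEv_ch_hasFDerivAt κ ν p.1).comp p hasFDerivAt_fst
    exact h1.mul h2
  have hb : ∀ ν, ∀ p ∈ S, ‖T ν p‖ ≤ u ν := by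
    intro ν p hp
    refine (norm_add_le _ _).trans (add_le_add ?_ ?_)
    · rw [norm_smul]
      refine (mul_le_mul_of_nonneg_left ((ContinuousLinearMap.opNorm_comp_le _ _).trans
        (mul_le_mul_of_nonneg_left (ContinuousLinearMap.norm_fst_le ℝ _ _) (norm_nonneg _)))
        (norm_nonneg _)).trans ?_
      rw [mul_one, norm_smul, lEv_norm, one_mul]
      exact lEv_l_mul_le κ f ν p.2
    · rw [norm_smul, lEv_norm, one_mul]
      refine (ContinuousLinearMap.opNorm_comp_le _ _).trans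
        ((mul_le_mul_of_nonneg_left (ContinuousLinearMap.norm_snd_le ℝ _ _)
          (norm_nonneg _)).trans ?_)
      rw [mul_one, ContinuousLinearMap.norm_toSpanSingleton]
      exact (f'.co ν).norm_coe_le_norm _
  have hF : HasFDerivAt (fun p : (Fin 2 → ℝ) × ℝ => ∑' ν, f.co ν p.2 * lEv_ch κ ν p.1)
      (∑' ν, T ν q) q :=
    hasFDerivAt_tsum_of_isPreconnected hu hSo hSc hT hb hq (lEv_sum κ f q.1 q.2) hq
  have h3 := (Complex.reCLM.hasFDerivAt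
    (x := ∑' ν, f.co ν q.2 * lEv_ch κ ν q.1)).comp q hF
  refine h3.congr_fderiv ?_
  have hsum : Summable fun ν => T ν q := Summable.of_norm_bounded hu fun ν => hb ν q hq
  refine ContinuousLinearMap.ext fun v => ?_
  have e1 : (∑' ν, T ν q) v = ∑' ν, T ν q v :=
    ((hsum.hasSum.map (ContinuousLinearMap.apply ℝ ℂ v)
      (ContinuousLinearMap.apply ℝ ℂ v).continuous).tsum_eq).symm
  have e2 : ∀ ν, T ν q v = f.co ν q.2 * (lEv_ch κ ν q.1 * lEv_l κ ν v.1)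
      + (f'.co ν q.2 * lEv_ch κ ν q.1) * (v.2 : ℂ) := by
    intro ν
    simp [T]
    ring
  have hs2 : Summable fun ν => (f'.co ν q.2 * lEv_ch κ ν q.1) * (v.2 : ℂ) :=
    (lEv_sum κ f' q.1 q.2).mul_right _
  have hs1 : Summable fun ν => f.co ν q.2 * (lEv_ch κ ν q.1 * lEv_l κ ν v.1) := by
    have hs : Summable fun ν => T ν q v :=
      (hsum.hasSum.map (ContinuousLinearMap.apply ℝ ℂ v)
        (ContinuousLinearMap.apply ℝ ℂ v).continuous).summable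
    have := hs.sub hs2
    refine this.congr fun ν => ?_
    rw [e2]; ring
  have e3 : (∑' ν, T ν q) v = (∑ a : Fin 2, ev κ (D κ a f) q.1 q.2 * (v.1 a : ℂ))
      + ev κ f' q.1 q.2 * (v.2 : ℂ) := by
    rw [e1, tsum_congr e2, hs1.tsum_add hs2, lEv_tsum_l, tsum_mul_right, ← lEv_ev]
  rw [ContinuousLinearMap.comp_apply, e3]
  simp [evR]

/-- Joint strict differentiability on the open time interval. -/
theorem hasStrictFDerivAt_evR {a b : ℝ} (κ : Kp) {f f' : WT} (h : TD a b f f')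
    (z : Fin 2 → ℝ) {t : ℝ} (ht : t ∈ Set.Ioo a b) :
    HasStrictFDerivAt (fun p : (Fin 2 → ℝ) × ℝ => evR κ f p.1 p.2)
      ((∑ a : Fin 2, evR κ (D κ a f) z t •
          ((ContinuousLinearMap.proj a : (Fin 2 → ℝ) →L[ℝ] ℝ).comp
            (ContinuousLinearMap.fst ℝ (Fin 2 → ℝ) ℝ))) +
        evR κ f' z t • ContinuousLinearMap.snd ℝ (Fin 2 → ℝ) ℝ) (z, t) := by
  have hmem : (Set.univ : Set (Fin 2 → ℝ)) ×ˢ Set.Ioo a b ∈ nhds (z, t) :=
    (isOpen_univ.prod isOpen_Ioo).mem_nhds ⟨Set.mem_univ _, ht⟩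
  let G : (Fin 2 → ℝ) × ℝ → ((Fin 2 → ℝ) × ℝ →L[ℝ] ℝ) := fun q =>
    (∑ a : Fin 2, evR κ (D κ a f) q.1 q.2 •
          ((ContinuousLinearMap.proj a : (Fin 2 → ℝ) →L[ℝ] ℝ).comp
            (ContinuousLinearMap.fst ℝ (Fin 2 → ℝ) ℝ))) +
        evR κ f' q.1 q.2 • ContinuousLinearMap.snd ℝ (Fin 2 → ℝ) ℝ
  have h1 : ∀ᶠ q in nhds (z, t),
      HasFDerivAt (fun p : (Fin 2 → ℝ) × ℝ => evR κ f p.1 p.2) (G q) q := by
    filter_upwards [hmem] with q hq
    exact lEv_hasFDerivAt_joint κ h hq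
  have h2 : Continuous G :=
    (continuous_finsetSum _ fun a _ =>
      (continuous_evR κ (D κ a f)).smul continuous_const).add
      ((continuous_evR κ f').smul continuous_const)
  exact hasStrictFDerivAt_of_hasFDerivAt_of_continuousAt h1 h2.continuousAt

end ES
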