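import Pool.Agent.ES.LTime
import Pool.Agent.ES.LAlg

/-!
ES-LReal: closure properties of real elements `IsR` (all coefficientwise; for products use
`WT.mul_co_apply` and the change of variable `μ ↦ -μ`; for derivations `kap_neg`).
-/

open scoped BoundedContinuousFunction

namespace ES

theorem IsR.zero : IsR 0 := by
  intro ν t
  simp

private theorem lreal_cst {φ : Ct} (h : ∀ t, (starRingEnd ℂ) (φ t) = φ t) : IsR (ES.cst φ) := by
  intro ν t
  unfold ES.cst
  by_cases hν : ν = 0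
  · subst hν
    rw [neg_zero]
    simp only [Pi.single_eq_same]
    exact (h t).symm
  · have hν' : -ν ≠ 0 := neg_ne_zero.2 hν
    simp only [Pi.single_eq_of_ne hν, Pi.single_eq_of_ne hν']
    simp

theorem IsR.one : IsR 1 := by
  have h : IsR (ES.cst 1) := lreal_cst (fun t => by simp)
  exact h

theorem IsR.cst {φ : Ct} (h : ∀ t, (starRingEnd ℂ) (φ t) = φ t) : IsR (ES.cst φ) := lreal_cst h

theorem IsR.add {f g : WT} (hf : IsR f) (hg : IsR g) : IsR (f + g) := by
  intro ν t
  simp only [WT.co_add, Pi.add_apply, BoundedContinuousFunction.add_apply, map_add, hf ν t, hg ν t]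

theorem IsR.neg {f : WT} (hf : IsR f) : IsR (-f) := by
  intro ν t
  simp only [WT.co_neg, Pi.neg_apply, BoundedContinuousFunction.neg_apply, map_neg, hf ν t]

theorem IsR.sub {f g : WT} (hf : IsR f) (hg : IsR g) : IsR (f - g) := by
  rw [sub_eq_add_neg]
  exact hf.add hg.neg

theorem IsR.mul {f g : WT} (hf : IsR f) (hg : IsR g) : IsR (f * g) := by
  intro ν t
  rw [WT.mul_co_apply, WT.mul_co_apply, Complex.conj_tsum,
    ← (Equiv.neg Gx).tsum_eq (fun μ => f.co μ t * g.co (-ν - μ) t)]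
  refine tsum_congr fun μ => ?_
  rw [Equiv.neg_apply, map_mul, hf μ t, show -ν - -μ = -(ν - μ) by abel, hg (ν - μ) t]

theorem IsR.smul {c : ℝ} {f : WT} (hf : IsR f) : IsR ((c : ℂ) • f) := by
  intro ν t
  simp only [WT.co_smul, Pi.smul_apply, BoundedContinuousFunction.smul_apply, smul_eq_mul,
    map_mul, Complex.conj_ofReal, hf ν t]

theorem IsR.sum {ι : Type*} (s : Finset ι) {f : ι → WT} (hf : ∀ j ∈ s, IsR (f j)) :
    IsR (∑ j ∈ s, f j) := by
  classical
  induction s using Finset.induction_on with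
  | empty =>
    rw [Finset.sum_empty]
    exact IsR.zero
  | insert a s ha ih =>
    rw [Finset.sum_insert ha]
    exact (hf a (Finset.mem_insert_self a s)).add
      (ih fun j hj => hf j (Finset.mem_insert_of_mem hj))

/-- Multipliers with a conjugation symmetric symbol. -/
theorem IsR.mlt {s : Gx → ℂ} (hs : PG s) (h : ∀ ν, s (-ν) = (starRingEnd ℂ) (s ν)) {f : WT}
    (hf : IsR f) : IsR (ES.mlt s hs f) := by
  intro ν t
  simp only [mlt_co, BoundedContinuousFunction.smul_apply, smul_eq_mul, map_mul, h ν, hf ν t]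

private theorem lreal_ksq (κ : Kp) (ν : Gx) : ksq κ (-ν) = ksq κ ν := by
  unfold ksq
  rw [kap_neg, kap_neg]
  push_cast
  ring

theorem IsR.D {κ : Kp} {a : Fin 2} {f : WT} (hf : IsR f) : IsR (ES.D κ a f) := by
  refine IsR.mlt _ (fun ν => ?_) hf
  rw [kap_neg, map_mul, Complex.conj_I, map_intCast]
  push_cast
  ring

theorem IsR.dp {κ : Kp} {a : Fin 2} {f : WT} (hf : IsR f) : IsR (ES.dp κ a f) := by
  unfold ES.dp
  split_ifs
  · rw [LinearMap.neg_apply]
    exact hf.D.neg
  · exact hf.D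

theorem IsR.dth {i : ℕ} {f : WT} (hf : IsR f) : IsR (ES.dth i f) := by
  refine IsR.mlt _ (fun ν => ?_) hf
  rw [Finsupp.neg_apply, map_mul, Complex.conj_I, map_intCast]
  push_cast
  ring

theorem IsR.mean {i : ℕ} {f : WT} (hf : IsR f) : IsR (ES.mean i f) := by
  refine IsR.mlt _ (fun ν => ?_) hf
  simp only [Finsupp.neg_apply, neg_eq_zero]
  split_ifs <;> simp

theorem IsR.osc {i : ℕ} {f : WT} (hf : IsR f) : IsR (ES.osc i f) := by
  refine IsR.mlt _ (fun ν => ?_) hf
  simp only [Finsupp.neg_apply, neg_eq_zero]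
  split_ifs <;> simp

theorem IsR.ith {i : ℕ} {f : WT} (hf : IsR f) : IsR (ES.ith i f) := by
  refine IsR.mlt _ (fun ν => ?_) hf
  simp only [Finsupp.neg_apply, neg_eq_zero]
  split_ifs
  · simp
  · rw [map_inv₀, map_mul, Complex.conj_I, map_intCast]
    push_cast
    congr 1
    ring

theorem IsR.Pg {κ : Kp} {a b : Fin 2} {f : WT} (hf : IsR f) : IsR (ES.Pg κ a b f) := by
  refine IsR.mlt _ (fun ν => ?_) hf
  rw [kap_neg, kap_neg, lreal_ksq, map_div₀, map_mul, map_intCast, map_intCast,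
    Complex.conj_ofReal]
  push_cast
  ring

private theorem lreal_pnz {κ : Kp} {f : WT} (hf : IsR f) : IsR (ES.Pnz κ f) := by
  refine IsR.mlt _ (fun ν => ?_) hf
  rw [lreal_ksq]
  split_ifs <;> simp

theorem IsR.Ps {κ : Kp} {a b : Fin 2} {f : WT} (hf : IsR f) : IsR (ES.Ps κ a b f) := by
  unfold ES.Ps
  rw [LinearMap.sub_apply]
  refine IsR.sub ?_ hf.Pg
  split_ifs
  · exact lreal_pnz hf
  · exact IsR.zero

theorem IsR.Pnz {κ : Kp} {f : WT} (hf : IsR f) : IsR (ES.Pnz κ f) := lreal_pnz hf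

theorem IsR.Lin {κ : Kp} {f : WT} (hf : IsR f) : IsR (ES.Lin κ f) := by
  refine IsR.mlt _ (fun ν => ?_) hf
  rw [lreal_ksq, map_neg, map_inv₀, Complex.conj_ofReal]

theorem IsR.tcomp {g : C(ℝ, ℝ)} {f : WT} (hf : IsR f) : IsR (ES.tcomp g f) := by
  intro ν t
  exact hf ν (g t)

theorem IsR.tcl {a b : ℝ} {f : WT} (hf : IsR f) : IsR (ES.tcl a b f) := hf.tcomp

theorem IsR.frz {t₀ : ℝ} {f : WT} (hf : IsR f) : IsR (ES.frz t₀ f) := hf.tcomp

theorem IsR.intg {a b : ℝ} {f : WT} (hf : IsR f) : IsR (ES.intg a b f) := by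
  intro ν t
  rw [intg_co, intg_co]
  have h : (fun s => f.co (-ν) s) = fun s => (starRingEnd ℂ) (f.co ν s) := by
    funext s
    exact hf ν s
  rw [h]
  exact intervalIntegral.intervalIntegral_conj

end ES
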