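import Pool.Agent.ES.LCompA
import Pool.Agent.ES.LTime
import Pool.Agent.ES.LReal
import Pool.Agent.ES.LEv
import Pool.Agent.ES.LMul

/-!
ES-LCompC: composition with `id + ζ`:
`comp κ ζ f = ∑_ν f_ν e_ν exp(i κ_0(ν) ζ_0 + i κ_1(ν) ζ_1)`.
Hypotheses `CH κ lam r0 z r ζ` (see Defs): `|κ| ≤ lam`, `r ≥ r0 > 0`, `Bd 0 r (ζ a) y`, `2 lam y ≤ z`;
then `exp(ikz ν)` has norm `≤ exp(z |ν|)`, and `comp κ ζ f` is fine as soon as `f` has a finite norm
at the radius `r + z`.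
The derivative rules need one more power: `Bd 1 (r+z) f c`.
-/

open scoped BoundedContinuousFunction

namespace ES

private theorem LCompC_of_co {κ : Kp} {ζ : Fin 2 → WT} {f h : WT} (hc : compc κ ζ f = h.co) :
    comp κ ζ f = h := by
  unfold comp
  have hr : Rapid (compc κ ζ f) := by
    rw [hc]
    exact h.rapid
  rw [dif_pos hr]
  exact WT.ext hc

/-- Composition with a continuous map, as a homomorphism. -/
private noncomputable def LCompC_hom (g : C(ℝ, ℝ)) : Ct →+ Ct where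
  toFun φ := φ.compContinuous g
  map_zero' := rfl
  map_add' _ _ := rfl

private theorem LCompC_ikz_tcomp (g : C(ℝ, ℝ)) (κ : Kp) (ζ : Fin 2 → WT) (ν : Gx) :
    ikz κ (fun a => tcomp g (ζ a)) ν = tcomp g (ikz κ ζ ν) := by
  unfold ikz
  rw [tcomp_add, tcomp_smul, tcomp_smul]

theorem tcomp_comp {κ : Kp} {lam r0 z : ℝ} {r : ℝ → ℝ} {ζ : Fin 2 → WT} (H : CH κ lam r0 z r ζ)
    {f : WT} {c : ℝ} (hf : Bd 0 (fun t => r t + z) f c) (g : C(ℝ, ℝ)) :
    tcomp g (comp κ ζ f) = comp κ (fun a => tcomp g (ζ a)) (tcomp g f) := by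
  symm
  apply LCompC_of_co
  funext μ
  have h := comp_hasSum H hf μ
  have h2 := h.map (LCompC_hom g) (BoundedContinuousFunction.continuous_compContinuous g)
  have h3 : (fun ν => (tcomp g f).co ν *
      (texp (ikz κ (fun a => tcomp g (ζ a)) ν)).co (μ - ν)) =
      (LCompC_hom g) ∘ (fun ν => f.co ν * (texp (ikz κ ζ ν)).co (μ - ν)) := by
    funext ν
    rw [LCompC_ikz_tcomp, ← tcomp_texp]
    rfl
  unfold compc
  rw [h3, h2.tsum_eq]
  rfl

theorem Cl.comp {κ : Kp} {lam r0 z : ℝ} {r : ℝ → ℝ} {ζ : Fin 2 → WT} (H : CH κ lam r0 z r ζ)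
    {a b : ℝ} (hζ : ∀ j, Cl a b (ζ j)) {f : WT} {c : ℝ} (hf : Bd 0 (fun t => r t + z) f c)
    (hfc : Cl a b f) : Cl a b (ES.comp κ ζ f) := by
  unfold Cl ES.tcl
  rw [tcomp_comp H hf]
  have h1 : (fun j => tcomp ⟨clp a b, clp_continuous a b⟩ (ζ j)) = ζ := by
    funext j
    exact hζ j
  have h2 : tcomp ⟨clp a b, clp_continuous a b⟩ f = f := hfc
  rw [h1, h2]

theorem Lev.comp {κ : Kp} {lam r0 z : ℝ} {r : ℝ → ℝ} {ζ : Fin 2 → WT} (H : CH κ lam r0 z r ζ)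
    {i : ℕ} (hζ : ∀ j, Lev i (ζ j)) {f : WT} {c : ℝ} (hf : Bd 0 (fun t => r t + z) f c)
    (hfl : Lev i f) : Lev i (ES.comp κ ζ f) := by
  rintro μ ⟨j, hj, hμ⟩
  have h := comp_hasSum H hf μ
  have h0 : (fun ν => f.co ν * (ES.texp (ikz κ ζ ν)).co (μ - ν)) = fun _ => 0 := by
    funext ν
    by_cases hν : ν j = 0
    · have h1 : Lev i (ES.texp (ikz κ ζ ν)) := by
        apply Lev.texp
        unfold ikz
        exact Lev.add (Lev.smul _ (hζ 0)) (Lev.smul _ (hζ 1))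
      rw [h1 (μ - ν) ⟨j, hj, by rw [Finsupp.sub_apply, hν, sub_zero]; exact hμ⟩, mul_zero]
    · rw [hfl ν ⟨j, hj, hν⟩, zero_mul]
  rw [h0] at h
  exact h.unique hasSum_zero

private theorem LCompC_ikz_conj {κ : Kp} {ζ : Fin 2 → WT} (hζ : ∀ j, IsR (ζ j)) (ν ρ : Gx)
    (t : ℝ) : (ikz κ ζ (-ν)).co (-ρ) t = (starRingEnd ℂ) ((ikz κ ζ ν).co ρ t) := by
  unfold ikz
  simp only [WT.co_add, WT.co_smul, Pi.add_apply, Pi.smul_apply,
    BoundedContinuousFunction.coe_add, BoundedContinuousFunction.coe_smul, kap_neg, smul_eq_mul,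
    map_add, map_mul, Complex.conj_I, hζ 0 ρ t, hζ 1 ρ t]
  have h0 : (starRingEnd ℂ) ((kap κ 0 ν : ℂ)) = (kap κ 0 ν : ℂ) := map_intCast (starRingEnd ℂ) _
  have h1 : (starRingEnd ℂ) ((kap κ 1 ν : ℂ)) = (kap κ 1 ν : ℂ) := map_intCast (starRingEnd ℂ) _
  rw [h0, h1]
  push_cast
  ring

private theorem LCompC_at {κ : Kp} {lam r0 z : ℝ} {r : ℝ → ℝ} {ζ : Fin 2 → WT}
    (H : CH κ lam r0 z r ζ) {f : WT} {c : ℝ} (hf : Bd 0 (fun t => r t + z) f c) (μ : Gx) (t : ℝ) :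
    HasSum (fun ν => f.co ν t * (texp (ikz κ ζ ν)).co (μ - ν) t) ((comp κ ζ f).co μ t) := by
  have h := comp_hasSum H hf μ
  have h2 := h.map (BoundedContinuousFunction.evalCLM ℂ t)
    (BoundedContinuousFunction.evalCLM ℂ t).continuous
  exact h2

theorem IsR.comp {κ : Kp} {lam r0 z : ℝ} {r : ℝ → ℝ} {ζ : Fin 2 → WT} (H : CH κ lam r0 z r ζ)
    (hζ : ∀ j, IsR (ζ j)) {f : WT} {c : ℝ} (hf : Bd 0 (fun t => r t + z) f c)
    (hfr : IsR f) : IsR (ES.comp κ ζ f) := by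
  intro μ t
  have h1 := LCompC_at H hf (-μ) t
  have h2 := LCompC_at H hf μ t
  rw [← (Equiv.neg Gx).hasSum_iff] at h1
  have h3 := h2.map (starRingEnd ℂ) Complex.continuous_conj
  have h4 : ((fun ν => f.co ν t * (texp (ikz κ ζ ν)).co (-μ - ν) t) ∘ (Equiv.neg Gx)) =
      (starRingEnd ℂ) ∘ (fun ν => f.co ν t * (texp (ikz κ ζ ν)).co (μ - ν) t) := by
    funext ν
    simp only [Function.comp_apply, Equiv.neg_apply, map_mul]
    rw [hfr ν t, show -μ - -ν = -(μ - ν) by abel,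
      texp_conj (LCompC_ikz_conj hζ ν) (μ - ν) t]
  rw [h4] at h1
  exact h1.unique h3

/-- The characters. -/
private noncomputable def LCompC_E (κ : Kp) (x : Fin 2 → ℝ) (ν : Gx) : ℂ :=
  Complex.exp (Complex.I * ((kap κ 0 ν : ℂ) * (x 0 : ℂ) + (kap κ 1 ν : ℂ) * (x 1 : ℂ)))

private theorem LCompC_E_norm (κ : Kp) (x : Fin 2 → ℝ) (ν : Gx) : ‖LCompC_E κ x ν‖ = 1 := by
  unfold LCompC_E
  have h : Complex.I * ((kap κ 0 ν : ℂ) * (x 0 : ℂ) + (kap κ 1 ν : ℂ) * (x 1 : ℂ)) =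
      (((kap κ 0 ν : ℝ) * x 0 + (kap κ 1 ν : ℝ) * x 1 : ℝ) : ℂ) * Complex.I := by
    push_cast
    ring
  rw [h, Complex.norm_exp_ofReal_mul_I]

private theorem LCompC_E_add (κ : Kp) (x : Fin 2 → ℝ) (μ ν : Gx) :
    LCompC_E κ x (μ + ν) = LCompC_E κ x μ * LCompC_E κ x ν := by
  unfold LCompC_E
  rw [← Complex.exp_add, kap_add, kap_add]
  congr 1
  push_cast
  ring

private theorem LCompC_ev (κ : Kp) (f : WT) (x : Fin 2 → ℝ) (t : ℝ) :
    ev κ f x t = ∑' ν, f.co ν t * LCompC_E κ x ν := rfl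

/-- Pointwise absolute summability. -/
private theorem LCompC_sum {r : ℝ → ℝ} {f : WT} {c : ℝ} (hf : Bd 0 r f c) (t : ℝ)
    (hr : 0 ≤ r t) : Summable (fun ν => ‖f.co ν t‖) ∧ ∑' ν, ‖f.co ν t‖ ≤ c := by
  obtain ⟨m, hm0, hm, hmc, hb⟩ := hf
  have h1 : ∀ ν, ‖f.co ν t‖ ≤ m ν := by
    intro ν
    refine le_trans ?_ (hb ν t)
    rw [pow_zero, one_mul]
    have : 1 ≤ Real.exp (r t * len ν) := Real.one_le_exp (by positivity)
    nlinarith [norm_nonneg (f.co ν t)]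
  have hs : Summable (fun ν => ‖f.co ν t‖) :=
    Summable.of_nonneg_of_le (fun ν => norm_nonneg _) h1 hm
  exact ⟨hs, (hs.tsum_le_tsum h1 hm).trans hmc⟩

private theorem LCompC_ev_pow (κ : Kp) (f : WT) (x : Fin 2 → ℝ) (t : ℝ) (n : ℕ) :
    ev κ (f ^ n) x t = ev κ f x t ^ n := by
  induction n with
  | zero => rw [pow_zero, pow_zero, ev_one]
  | succ n ih => rw [pow_succ, pow_succ, ev_mul, ih]

private theorem LCompC_ev_texp (κ : Kp) {F : WT} {c : ℝ} (hF : Bd 0 (fun _ => 0) F c)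
    (x : Fin 2 → ℝ) (t : ℝ) : ev κ (texp F) x t = Complex.exp (ev κ F x t) := by
  have hc0 : 0 ≤ c := hF.nonneg
  have hs : Summable (fun p : ℕ × Gx => ((p.1.factorial : ℂ)⁻¹) * (F ^ p.1).co p.2 t *
      LCompC_E κ x p.2) := by
    apply Summable.of_norm
    rw [summable_prod_of_nonneg (fun p => norm_nonneg _)]
    have h1 : ∀ n : ℕ, (fun ν : Gx => ‖((n.factorial : ℂ)⁻¹) * (F ^ n).co ν t *
        LCompC_E κ x ν‖) = fun ν => ((n.factorial : ℝ)⁻¹) * ‖(F ^ n).co ν t‖ := by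
      intro n
      funext ν
      rw [norm_mul, norm_mul, LCompC_E_norm, mul_one, norm_inv, Complex.norm_natCast]
    have h2 : ∀ n : ℕ, Summable (fun ν => ‖(F ^ n).co ν t‖) ∧
        ∑' ν, ‖(F ^ n).co ν t‖ ≤ c ^ n := fun n => LCompC_sum (hF.pow (fun _ => le_rfl) n) t le_rfl
    constructor
    · intro n
      simp only
      rw [h1 n]
      exact (h2 n).1.mul_left _
    · refine Summable.of_nonneg_of_le (fun n => tsum_nonneg fun ν => norm_nonneg _) (fun n => ?_)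
        (Real.summable_pow_div_factorial c)
      simp only
      rw [h1 n, tsum_mul_left, div_eq_inv_mul]
      exact mul_le_mul_of_nonneg_left (h2 n).2 (by positivity)
  have h3 : ev κ (texp F) x t = ∑' ν : Gx, ∑' n : ℕ, ((n.factorial : ℂ)⁻¹) * (F ^ n).co ν t *
      LCompC_E κ x ν := by
    rw [LCompC_ev]
    refine tsum_congr fun ν => ?_
    rw [texp_co, tsum_mul_right]
  have h4 : ∑' ν : Gx, ∑' n : ℕ, ((n.factorial : ℂ)⁻¹) * (F ^ n).co ν t * LCompC_E κ x ν =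
      ∑' n : ℕ, ∑' ν : Gx, ((n.factorial : ℂ)⁻¹) * (F ^ n).co ν t * LCompC_E κ x ν := by
    exact (Summable.tsum_comm (f := fun (n : ℕ) (ν : Gx) =>
      ((n.factorial : ℂ)⁻¹) * (F ^ n).co ν t * LCompC_E κ x ν) hs)
  rw [h3, h4]
  have h5 : ∀ n : ℕ, ∑' ν : Gx, ((n.factorial : ℂ)⁻¹) * (F ^ n).co ν t * LCompC_E κ x ν =
      ((n.factorial : ℂ)⁻¹) * ev κ F x t ^ n := by
    intro n
    rw [← LCompC_ev_pow, LCompC_ev, ← tsum_mul_left]
    refine tsum_congr fun ν => ?_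
    ring
  rw [tsum_congr h5]
  have h6 := NormedSpace.expSeries_div_hasSum_exp (𝔸 := ℂ) (ev κ F x t)
  rw [← Complex.exp_eq_exp_ℂ] at h6
  rw [← h6.tsum_eq]
  refine tsum_congr fun n => ?_
  rw [div_eq_inv_mul]

private theorem LCompC_kap_norm {κ : Kp} {lam : ℝ} (h : KB κ lam) (a : Fin 2) (ν : Gx) :
    ‖Complex.I * (kap κ a ν : ℂ)‖ ≤ lam * len ν := by
  have h1 : ‖Complex.I * (kap κ a ν : ℂ)‖ = |(kap κ a ν : ℝ)| := by
    rw [norm_mul, Complex.norm_I, one_mul]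
    rw [← Complex.ofReal_intCast, Complex.norm_real, Real.norm_eq_abs]
  rw [h1]
  exact kap_le h a ν

private theorem LCompC_ikz_bd {κ : Kp} {lam r0 z : ℝ} {r : ℝ → ℝ} {ζ : Fin 2 → WT}
    (H : CH κ lam r0 z r ζ) (ν : Gx) : Bd 0 r (ikz κ ζ ν) (z * len ν) := by
  obtain ⟨y, hy, hz⟩ := H.hζ
  have hy0 : 0 ≤ y := (hy 0).nonneg
  unfold ikz
  refine ((hy 0).smul _ |>.add ((hy 1).smul _)).mono ?_
  have h0 := LCompC_kap_norm H.kb 0 ν
  have h1 := LCompC_kap_norm H.kb 1 ν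
  have hl : (0 : ℝ) ≤ len ν := Nat.cast_nonneg _
  have h2 := mul_le_mul_of_nonneg_right h0 hy0
  have h3 := mul_le_mul_of_nonneg_right h1 hy0
  have h4 := mul_le_mul_of_nonneg_right hz hl
  nlinarith

private theorem LCompC_ev_ikz {κ : Kp} {ζ : Fin 2 → WT} (hζ : ∀ j, IsR (ζ j)) (ν : Gx)
    (x : Fin 2 → ℝ) (t : ℝ) : ev κ (ikz κ ζ ν) x t =
      Complex.I * ((kap κ 0 ν : ℂ) * (evR κ (ζ 0) x t : ℂ) +
        (kap κ 1 ν : ℂ) * (evR κ (ζ 1) x t : ℂ)) := by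
  unfold ikz
  rw [ev_add, ev_smul, ev_smul, ev_real (hζ 0), ev_real (hζ 1)]
  ring

/-- Evaluation of a composition. -/
theorem ev_comp {κ : Kp} {lam r0 z : ℝ} {r : ℝ → ℝ} {ζ : Fin 2 → WT} (H : CH κ lam r0 z r ζ)
    (hζ : ∀ j, IsR (ζ j)) {f : WT} {c : ℝ} (hf : Bd 0 (fun t => r t + z) f c)
    (x : Fin 2 → ℝ) (t : ℝ) :
    ev κ (comp κ ζ f) x t = ev κ f (fun a => x a + evR κ (ζ a) x t) t := by
  have hrt : 0 < r t := H.r00.trans_le (H.hr t)
  have hG : ∀ ν, Bd 0 r (texp (ikz κ ζ ν)) (Real.exp (z * len ν)) := fun ν =>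
    (LCompC_ikz_bd H ν).texp (fun s => H.r00.le.trans (H.hr s))
  have hGt : ∀ ν, Summable (fun ρ => ‖(texp (ikz κ ζ ν)).co ρ t‖) ∧
      ∑' ρ, ‖(texp (ikz κ ζ ν)).co ρ t‖ ≤ Real.exp (z * len ν) := fun ν =>
    LCompC_sum (hG ν) t hrt.le
  -- summability of the double series
  have hs : Summable (fun p : Gx × Gx => f.co p.1 t * (texp (ikz κ ζ p.1)).co p.2 t *
      LCompC_E κ x (p.2 + p.1)) := by
    apply Summable.of_norm
    rw [summable_prod_of_nonneg (fun p => norm_nonneg _)]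
    have h1 : ∀ ν : Gx, (fun ρ : Gx => ‖f.co ν t * (texp (ikz κ ζ ν)).co ρ t *
        LCompC_E κ x (ρ + ν)‖) = fun ρ => ‖f.co ν t‖ * ‖(texp (ikz κ ζ ν)).co ρ t‖ := by
      intro ν
      funext ρ
      rw [norm_mul, norm_mul, LCompC_E_norm, mul_one]
    obtain ⟨m, hm0, hm, hmc, hb⟩ := hf
    constructor
    · intro ν
      simp only
      rw [h1 ν]
      exact (hGt ν).1.mul_left _
    · refine Summable.of_nonneg_of_le (fun n => tsum_nonneg fun ν => norm_nonneg _) (fun ν => ?_) hm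
      simp only
      rw [h1 ν, tsum_mul_left]
      refine le_trans (mul_le_mul_of_nonneg_left (hGt ν).2 (norm_nonneg _)) ?_
      refine le_trans ?_ (hb ν t)
      rw [pow_zero, one_mul, mul_comm]
      refine mul_le_mul_of_nonneg_right ?_ (norm_nonneg _)
      apply Real.exp_le_exp.mpr
      have hl : (0 : ℝ) ≤ len ν := Nat.cast_nonneg _
      nlinarith
  -- the same in the variables `(μ, ν)`
  let e : Gx × Gx ≃ Gx × Gx :=
    { toFun := fun p => (p.2, p.1 - p.2)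
      invFun := fun p => (p.1 + p.2, p.1)
      left_inv := fun p => by ext <;> simp
      right_inv := fun p => by ext <;> simp }
  have hs2 : Summable (fun p : Gx × Gx => f.co p.2 t * (texp (ikz κ ζ p.2)).co (p.1 - p.2) t *
      LCompC_E κ x p.1) := by
    have h2 := (e.summable_iff (f := fun p : Gx × Gx => f.co p.1 t *
      (texp (ikz κ ζ p.1)).co p.2 t * LCompC_E κ x (p.2 + p.1))).2 hs
    refine h2.congr fun p => ?_
    change f.co p.2 t * (texp (ikz κ ζ p.2)).co (p.1 - p.2) t *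
      LCompC_E κ x (p.1 - p.2 + p.2) = _
    rw [sub_add_cancel]
  have h3 : ev κ (comp κ ζ f) x t = ∑' μ : Gx, ∑' ν : Gx, f.co ν t *
      (texp (ikz κ ζ ν)).co (μ - ν) t * LCompC_E κ x μ := by
    rw [LCompC_ev]
    refine tsum_congr fun μ => ?_
    rw [← (LCompC_at H hf μ t).tsum_eq, tsum_mul_right]
  have h4 : ∑' μ : Gx, ∑' ν : Gx, f.co ν t *
      (texp (ikz κ ζ ν)).co (μ - ν) t * LCompC_E κ x μ =
      ∑' ν : Gx, ∑' μ : Gx, f.co ν t * (texp (ikz κ ζ ν)).co (μ - ν) t * LCompC_E κ x μ :=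
    (Summable.tsum_comm (f := fun (μ ν : Gx) =>
      f.co ν t * (texp (ikz κ ζ ν)).co (μ - ν) t * LCompC_E κ x μ) hs2).symm
  rw [h3, h4, LCompC_ev]
  refine tsum_congr fun ν => ?_
  rw [← (Equiv.addRight ν).tsum_eq]
  have h5 : ∀ ρ : Gx, f.co ν t * (texp (ikz κ ζ ν)).co ((Equiv.addRight ν) ρ - ν) t *
      LCompC_E κ x ((Equiv.addRight ν) ρ) =
      f.co ν t * LCompC_E κ x ν * ((texp (ikz κ ζ ν)).co ρ t * LCompC_E κ x ρ) := by
    intro ρ
    rw [Equiv.coe_addRight, add_sub_cancel_right, LCompC_E_add]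
    ring
  rw [tsum_congr h5, tsum_mul_left, ← LCompC_ev]
  have hB : Bd 0 (fun _ => 0) (ikz κ ζ ν) (z * len ν) :=
    (LCompC_ikz_bd H ν).weaken le_rfl (fun s => (H.r00.trans_le (H.hr s)).le)
  rw [LCompC_ev_texp κ hB, LCompC_ev_ikz hζ, mul_assoc]
  congr 1
  unfold LCompC_E
  rw [← Complex.exp_add]
  congr 1
  push_cast
  ring

/-- The composition depends on the frequencies only through the variables that occur. -/
theorem comp_upd {κ : Kp} {lam r0 z : ℝ} {r : ℝ → ℝ} {ζ : Fin 2 → WT} (H : CH κ lam r0 z r ζ)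
    {i : ℕ} (k : Fin 2 → ℤ) (hκ : ∀ a, κ.k a i = 0) {f : WT} (hf : osc i f = 0) :
    comp (upd κ i k) ζ f = comp κ ζ f := by
  have h1 : compc (upd κ i k) ζ f = compc κ ζ f := by
    funext μ
    unfold compc
    refine tsum_congr fun ν => ?_
    by_cases hν : ν i = 0
    · have h2 : ikz (upd κ i k) ζ ν = ikz κ ζ ν := by
        unfold ikz
        rw [kap_upd κ i k hκ, kap_upd κ i k hκ, hν, mul_zero, mul_zero, add_zero, add_zero]
      rw [h2]
    · rw [(osc_eq_zero_iff i f).1 hf ν hν, zero_mul, zero_mul]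
  unfold comp
  rw [h1]

end ES
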