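import Pool.Agent.ES.LBd
import Pool.Agent.ES.LTime
import Pool.Agent.ES.LAlg

/-!
ES-LExp: the exponential in `WT`.
`texpc f ν = ∑' n, (f^n).co ν / n!`.  With `N_k(f) = ∑ (1+|ν|)^k ‖f_ν‖` one has
`N_k(f^n) ≤ N_k(f)^n`, so the family is rapidly decreasing for every `f`.
Useful device: for a bound `Bd k r f c` the partial sums of the exponential satisfy `Bd k r _ (exp c)`
and the series of differences is dominated by `c^n/n!`.
Additivity: Cauchy product (`tsum_mul_tsum_eq_tsum_sum_antidiagonal_of_summable_norm` in the complete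
ring `Ct`, after exchanging sums), or uniqueness.  Derivations: `∂ (f^n) = n f^(n-1) ∂ f`.
-/

open scoped BoundedContinuousFunction

namespace ES

/-! ### norms and absolutely convergent series -/

/-- weighted norm with constant weights -/
private noncomputable def Nk (k : ℕ) (f : WT) : ℝ := ∑' ν, (1 + (len ν : ℝ)) ^ k * ‖f.co ν‖

private theorem Nk_nonneg (k : ℕ) (f : WT) : 0 ≤ Nk k f := tsum_nonneg fun _ => by positivity

private theorem le_Nk (k : ℕ) (f : WT) (ν : Gx) :
    (1 + (len ν : ℝ)) ^ k * ‖f.co ν‖ ≤ Nk k f :=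
  (f.rapid k).le_tsum ν fun _ _ => by positivity

private theorem norm_co_le (f : WT) (ν : Gx) : ‖f.co ν‖ ≤ Nk 0 f := by
  simpa using le_Nk 0 f ν

private theorem tsum_conv_real' {a b : Gx → ℝ} (ha : Summable a) (hb : Summable b)
    (ha0 : ∀ ν, 0 ≤ a ν) (hb0 : ∀ ν, 0 ≤ b ν) :
    ∑' ν, ∑' μ, a μ * b (ν - μ) = (∑' ν, a ν) * ∑' ν, b ν := by
  have hs := summable_prod_shift ha hb ha0 hb0
  have h := ha.mul_of_nonneg hb ha0 hb0
  let e : Gx × Gx ≃ Gx × Gx :=
    { toFun := fun p => (p.2, p.1 - p.2)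
      invFun := fun p => (p.1 + p.2, p.1)
      left_inv := fun p => by ext <;> simp
      right_inv := fun p => by ext <;> simp }
  have h1 : ∑' ν, ∑' μ, a μ * b (ν - μ) = ∑' p : Gx × Gx, a p.2 * b (p.1 - p.2) :=
    (hs.tsum_prod).symm
  have h2 : ∑' p : Gx × Gx, a p.2 * b (p.1 - p.2) = ∑' p : Gx × Gx, a p.1 * b p.2 :=
    e.tsum_eq (fun p : Gx × Gx => a p.1 * b p.2)
  rw [h1, h2]
  exact (ha.tsum_mul_tsum hb h).symm

private theorem Nk_mul_le (k : ℕ) (f g : WT) : Nk k (f * g) ≤ Nk k f * Nk k g := by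
  have h := (summable_prod_shift (f.rapid k) (g.rapid k) (fun _ => by positivity)
    (fun _ => by positivity))
  unfold Nk
  rw [← tsum_conv_real' (f.rapid k) (g.rapid k) (fun _ => by positivity)
    (fun _ => by positivity)]
  refine Summable.tsum_le_tsum (fun ν => ?_) ((f * g).rapid k) h.prod
  have h2 : Summable fun μ => ‖f.co μ‖ * ‖g.co (ν - μ)‖ :=
    (summable_prod_shift (rapid_norm f.rapid) (rapid_norm g.rapid) (fun _ => norm_nonneg _)
      (fun _ => norm_nonneg _)).prod_factor ν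
  have h3 : ‖(f * g).co ν‖ ≤ ∑' μ, ‖f.co μ‖ * ‖g.co (ν - μ)‖ :=
    tsum_of_norm_bounded h2.hasSum fun μ => norm_mul_le _ _
  have h4 := h.prod_factor ν
  calc (1 + (len ν : ℝ)) ^ k * ‖(f * g).co ν‖
      ≤ (1 + (len ν : ℝ)) ^ k * ∑' μ, ‖f.co μ‖ * ‖g.co (ν - μ)‖ :=
        mul_le_mul_of_nonneg_left h3 (by positivity)
    _ = ∑' μ, (1 + (len ν : ℝ)) ^ k * (‖f.co μ‖ * ‖g.co (ν - μ)‖) := by rw [tsum_mul_left]
    _ ≤ _ := by
        refine Summable.tsum_le_tsum (fun μ => ?_) (h2.mul_left _) h4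
        have h5 : (1 + (len ν : ℝ)) ^ k ≤ ((1 + (len μ : ℝ)) * (1 + (len (ν - μ) : ℝ))) ^ k :=
          pow_le_pow_left₀ (by positivity) (one_add_len_le ν μ) k
        calc (1 + (len ν : ℝ)) ^ k * (‖f.co μ‖ * ‖g.co (ν - μ)‖)
            ≤ ((1 + (len μ : ℝ)) * (1 + (len (ν - μ) : ℝ))) ^ k *
                (‖f.co μ‖ * ‖g.co (ν - μ)‖) :=
              mul_le_mul_of_nonneg_right h5 (by positivity)
          _ = _ := by rw [mul_pow]; ring

private theorem Nk_one (k : ℕ) : Nk k 1 = 1 := by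
  unfold Nk
  rw [tsum_eq_single 0]
  · rw [WT.co_one]
    simp [len_zero]
  · intro ν hν
    rw [WT.co_one]
    simp [hν]

private theorem Nk_pow_le (k : ℕ) (f : WT) (n : ℕ) : Nk k (f ^ n) ≤ Nk k f ^ n := by
  induction n with
  | zero => simp [Nk_one]
  | succ n ih =>
    rw [pow_succ, pow_succ]
    exact (Nk_mul_le k _ _).trans (mul_le_mul_of_nonneg_right ih (Nk_nonneg k f))

private theorem Nk_smul (k : ℕ) (c : ℂ) (f : WT) : Nk k (c • f) = ‖c‖ * Nk k f := by
  unfold Nk
  rw [← tsum_mul_left]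
  refine tsum_congr fun ν => ?_
  rw [WT.co_smul, Pi.smul_apply, norm_smul]
  ring

/-- the terms of the exponential series -/
private noncomputable def et (f : WT) (n : ℕ) : WT := ((n.factorial : ℂ)⁻¹) • f ^ n

private theorem norm_fact (n : ℕ) : ‖((n.factorial : ℂ)⁻¹)‖ = (n.factorial : ℝ)⁻¹ := by
  rw [norm_inv, Complex.norm_natCast]

private theorem Nk_et_le (k : ℕ) (f : WT) (n : ℕ) :
    Nk k (et f n) ≤ Nk k f ^ n / n.factorial := by
  unfold et
  rw [Nk_smul, norm_fact, inv_mul_eq_div]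
  exact div_le_div_of_nonneg_right (Nk_pow_le k f n) (by positivity)

private theorem summable_Nk_et (k : ℕ) (f : WT) : Summable fun n => Nk k (et f n) :=
  Summable.of_nonneg_of_le (fun n => Nk_nonneg k _) (Nk_et_le k f)
    (Real.summable_pow_div_factorial _)

private theorem summable_co {a : ℕ → WT} (h : Summable fun n => Nk 0 (a n)) (ν : Gx) :
    Summable fun n => (a n).co ν :=
  Summable.of_norm_bounded h fun n => norm_co_le (a n) ν

private theorem summable_prod_Nk {k : ℕ} {a : ℕ → WT} (h : Summable fun n => Nk k (a n)) :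
    Summable fun p : ℕ × Gx => (1 + (len p.2 : ℝ)) ^ k * ‖(a p.1).co p.2‖ := by
  rw [summable_prod_of_nonneg (fun p => by positivity)]
  exact ⟨fun n => (a n).rapid k, h⟩

/-- coefficientwise sum of a series -/
private def HS (a : ℕ → WT) (A : WT) : Prop := ∀ ν, HasSum (fun n => (a n).co ν) (A.co ν)

private theorem rapid_tsum {a : ℕ → WT} (h : ∀ k, Summable fun n => Nk k (a n)) :
    Rapid fun ν => ∑' n, (a n).co ν := by
  intro k
  have h1 := summable_prod_Nk (h k)
  have h2 : Summable fun p : Gx × ℕ => (1 + (len p.1 : ℝ)) ^ k * ‖(a p.2).co p.1‖ :=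
    (Equiv.prodComm Gx ℕ).summable_iff.mpr h1
  refine Summable.of_nonneg_of_le (fun ν => by positivity) (fun ν => ?_) h2.prod
  have h3 : Summable fun n => ‖(a n).co ν‖ :=
    Summable.of_nonneg_of_le (fun _ => norm_nonneg _) (fun n => norm_co_le (a n) ν) (h 0)
  show (1 + (len ν : ℝ)) ^ k * ‖∑' n, (a n).co ν‖ ≤ ∑' n, (1 + (len ν : ℝ)) ^ k * ‖(a n).co ν‖
  rw [tsum_mul_left]
  exact mul_le_mul_of_nonneg_left (norm_tsum_le_tsum_norm h3) (by positivity)

theorem rapid_texpc (f : WT) : Rapid (texpc f) := by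
  have h := rapid_tsum (a := et f) (fun k => summable_Nk_et k f)
  exact h

private theorem texp_eq (f : WT) : (texp f).co = texpc f := by
  unfold texp
  rw [dif_pos (rapid_texpc f)]

theorem texp_hasSum (f : WT) (ν : Gx) :
    HasSum (fun n : ℕ => ((n.factorial : ℂ)⁻¹) • (f ^ n).co ν) ((texp f).co ν) := by
  rw [texp_eq]
  exact (summable_co (a := et f) (summable_Nk_et 0 f) ν).hasSum

private theorem texp_HS (f : WT) : HS (et f) (texp f) := fun ν => texp_hasSum f ν

private theorem HS_apply {a : ℕ → WT} {A : WT} (h : HS a A) (ν : Gx) (t : ℝ) :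
    HasSum (fun n => (a n).co ν t) (A.co ν t) :=
  (h ν).map (BoundedContinuousFunction.evalCLM ℂ t)
    (BoundedContinuousFunction.evalCLM ℂ t).continuous

theorem texp_co (f : WT) (ν : Gx) (t : ℝ) :
    (texp f).co ν t = ∑' n : ℕ, ((n.factorial : ℂ)⁻¹) * (f ^ n).co ν t :=
  (HS_apply (texp_HS f) ν t).tsum_eq.symm

theorem texp_zero : texp 0 = 1 := by
  apply WT.ext
  funext ν
  refine (texp_hasSum 0 ν).unique ?_
  have h : HasSum (fun n : ℕ => ((n.factorial : ℂ)⁻¹) • ((0 : WT) ^ n).co ν)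
      (((Nat.factorial 0 : ℂ)⁻¹) • ((0 : WT) ^ 0).co ν) := by
    refine hasSum_single 0 fun n hn => ?_
    rw [zero_pow hn, WT.co_zero]
    simp
  simpa using h

/-- multiplication by a fixed element -/
private theorem HS_mul_left {a : ℕ → WT} {A : WT} (hA : HS a A)
    (h : Summable fun n => Nk 0 (a n)) (g : WT) : HS (fun n => g * a n) (g * A) := by
  intro ν
  have hS : Summable fun p : ℕ × Gx => g.co p.2 * (a p.1).co (ν - p.2) := by
    have h1 : Summable fun p : ℕ × Gx => ‖g.co p.2‖ * ‖(a p.1).co (ν - p.2)‖ := by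
      rw [summable_prod_of_nonneg (fun p => by positivity)]
      have h2 : ∀ n, Summable fun μ => ‖g.co μ‖ * ‖(a n).co (ν - μ)‖ := fun n =>
        (summable_prod_shift (rapid_norm g.rapid) (rapid_norm (a n).rapid)
          (fun _ => norm_nonneg _) (fun _ => norm_nonneg _)).prod_factor ν
      refine ⟨h2, ?_⟩
      refine Summable.of_nonneg_of_le (fun n => tsum_nonneg fun _ => by positivity)
        (fun n => ?_) (h.mul_left (Nk 0 g))
      have h3 : Nk 0 g * Nk 0 (a n) = ∑' μ, ‖g.co μ‖ * Nk 0 (a n) := by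
        rw [tsum_mul_right]
        unfold Nk
        simp
      rw [h3]
      refine Summable.tsum_le_tsum (fun μ => ?_) (h2 n) ((rapid_norm g.rapid).mul_right _)
      exact mul_le_mul_of_nonneg_left (norm_co_le _ _) (norm_nonneg _)
    exact Summable.of_norm_bounded h1 fun p => norm_mul_le _ _
  have e1 : HasSum (fun n => (g * a n).co ν)
      (∑' p : ℕ × Gx, g.co p.2 * (a p.1).co (ν - p.2)) :=
    hS.hasSum.prod_fiberwise fun n => (conv_summable g.rapid (a n).rapid ν).hasSum
  have hS' : Summable fun p : Gx × ℕ => g.co p.1 * (a p.2).co (ν - p.1) :=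
    (Equiv.prodComm Gx ℕ).summable_iff.mpr hS
  have e2 : ∑' p : ℕ × Gx, g.co p.2 * (a p.1).co (ν - p.2) = (g * A).co ν := by
    rw [← (Equiv.prodComm Gx ℕ).tsum_eq]
    show ∑' p : Gx × ℕ, g.co p.1 * (a p.2).co (ν - p.1) = (g * A).co ν
    rw [hS'.tsum_prod, WT.mul_co]
    refine tsum_congr fun μ => ?_
    exact ((hA (ν - μ)).mul_left (g.co μ)).tsum_eq
  rwa [e2] at e1

private theorem tsum_antidiag (F : ℕ × ℕ → Ct) (hS : Summable F) :
    ∑' p : ℕ × ℕ, F p = ∑' N : ℕ, ∑ p ∈ Finset.HasAntidiagonal.antidiagonal N, F p := by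
  rw [← Finset.HasAntidiagonal.sigmaAntidiagonalEquivProd.tsum_eq]
  have hS2 : Summable fun q : (Σ n : ℕ, Finset.HasAntidiagonal.antidiagonal n) =>
      F (Finset.HasAntidiagonal.sigmaAntidiagonalEquivProd q) :=
    Finset.HasAntidiagonal.sigmaAntidiagonalEquivProd.summable_iff.mpr hS
  rw [hS2.tsum_sigma]
  refine tsum_congr fun N => ?_
  rw [← Finset.tsum_subtype (Finset.HasAntidiagonal.antidiagonal N) F]
  rfl

theorem texp_add (f g : WT) : texp (f + g) = texp f * texp g := by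
  apply WT.ext
  funext ν
  -- double series
  have h1 : HS (fun m => texp g * et f m) (texp g * texp f) :=
    HS_mul_left (texp_HS f) (summable_Nk_et 0 f) _
  have h2 : ∀ m, HS (fun n => et f m * et g n) (et f m * texp g) := fun m =>
    HS_mul_left (texp_HS g) (summable_Nk_et 0 g) _
  have hS : Summable fun p : ℕ × ℕ => (et f p.1 * et g p.2).co ν := by
    have h3 : Summable fun p : ℕ × ℕ => Nk 0 (et f p.1) * Nk 0 (et g p.2) :=
      (summable_Nk_et 0 f).mul_of_nonneg (summable_Nk_et 0 g) (fun _ => Nk_nonneg _ _)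
        (fun _ => Nk_nonneg _ _)
    refine Summable.of_norm_bounded h3 fun p => ?_
    exact (norm_co_le _ _).trans (Nk_mul_le 0 _ _)
  have e1 : (texp f * texp g).co ν = ∑' p : ℕ × ℕ, (et f p.1 * et g p.2).co ν := by
    rw [hS.tsum_prod, mul_comm (texp f), ← (h1 ν).tsum_eq]
    refine tsum_congr fun m => ?_
    show (texp g * et f m).co ν = ∑' n, (et f m * et g n).co ν
    rw [mul_comm (texp g)]
    exact ((h2 m) ν).tsum_eq.symm
  have e2 := tsum_antidiag (fun p : ℕ × ℕ => (et f p.1 * et g p.2).co ν) hS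
  have e3 : ∀ N : ℕ, ∑ p ∈ Finset.HasAntidiagonal.antidiagonal N, (et f p.1 * et g p.2).co ν
      = (et (f + g) N).co ν := by
    intro N
    have hco : ∑ p ∈ Finset.HasAntidiagonal.antidiagonal N, (et f p.1 * et g p.2).co ν
        = (∑ p ∈ Finset.HasAntidiagonal.antidiagonal N, et f p.1 * et g p.2).co ν := by
      classical
      have : ∀ s : Finset (ℕ × ℕ), ∑ p ∈ s, (et f p.1 * et g p.2).co ν
          = (∑ p ∈ s, et f p.1 * et g p.2).co ν := by
        intro s
        induction s using Finset.induction_on with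
        | empty => simp
        | insert p s hp ih => rw [Finset.sum_insert hp, Finset.sum_insert hp, WT.co_add, ih]; rfl
      exact this _
    rw [hco]
    congr 2
    unfold et
    rw [(Commute.all f g).add_pow', Finset.smul_sum]
    refine Finset.sum_congr rfl fun p hp => ?_
    have hp' : p.1 + p.2 = N := Finset.HasAntidiagonal.mem_antidiagonal.mp hp
    rw [smul_mul_smul_comm, ← Nat.cast_smul_eq_nsmul ℂ, smul_smul]
    congr 1
    have h5 : (N.choose p.1 : ℂ) * (p.1.factorial * p.2.factorial) = N.factorial := by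
      have h6 := Nat.choose_mul_factorial_mul_factorial (n := N) (k := p.1) (by omega)
      have h7 : N - p.1 = p.2 := by omega
      rw [h7] at h6
      rw [← mul_assoc]
      exact_mod_cast h6
    have n1 : (p.1.factorial : ℂ) ≠ 0 := by exact_mod_cast p.1.factorial_ne_zero
    have n2 : (p.2.factorial : ℂ) ≠ 0 := by exact_mod_cast p.2.factorial_ne_zero
    have n3 : (N.factorial : ℂ) ≠ 0 := by exact_mod_cast N.factorial_ne_zero
    rw [← h5] at n3 ⊢
    have n4 : (N.choose p.1 : ℂ) ≠ 0 := left_ne_zero_of_mul n3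
    field_simp
  rw [e1, e2]
  exact ((texp_HS (f + g) ν).tsum_eq.symm.trans (tsum_congr fun N => (e3 N).symm))

/-- derivations -/
private theorem deriv_pow {δ : WT →ₗ[ℂ] WT} (hδ : ∀ f g, δ (f * g) = δ f * g + f * δ g)
    (h1 : δ 1 = 0) (f : WT) (n : ℕ) : δ (f ^ (n + 1)) = ((n + 1 : ℕ) : ℂ) • (δ f * f ^ n) := by
  induction n with
  | zero => simp
  | succ n ih =>
    rw [pow_succ f (n + 1), hδ, ih]
    rw [smul_mul_assoc]
    have e : δ f * f ^ n * f = δ f * f ^ (n + 1) := by rw [pow_succ]; ring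
    have e' : f ^ (n + 1) * δ f = δ f * f ^ (n + 1) := mul_comm _ _
    rw [e, e']
    push_cast
    rw [add_smul (((n : ℂ) + 1)) 1, one_smul]

private theorem et_succ_deriv {δ : WT →ₗ[ℂ] WT} (hδ : ∀ f g, δ (f * g) = δ f * g + f * δ g)
    (h1 : δ 1 = 0) (f : WT) (n : ℕ) : δ (et f (n + 1)) = δ f * et f n := by
  unfold et
  rw [map_smul, deriv_pow hδ h1, smul_smul, mul_smul_comm]
  congr 1
  have n1 : ((n + 1 : ℕ) : ℂ) ≠ 0 := by exact_mod_cast Nat.succ_ne_zero n
  rw [Nat.factorial_succ]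
  push_cast at n1 ⊢
  have n2 : (n.factorial : ℂ) ≠ 0 := by exact_mod_cast n.factorial_ne_zero
  field_simp

private theorem mlt_texp {s : Gx → ℂ} (hs : PG s)
    (hδ : ∀ f g, mlt s hs (f * g) = mlt s hs f * g + f * mlt s hs g)
    (h1 : mlt s hs 1 = 0) (f : WT) : mlt s hs (texp f) = mlt s hs f * texp f := by
  apply WT.ext
  funext ν
  have a1 : HasSum (fun n => (mlt s hs (et f n)).co ν) ((mlt s hs (texp f)).co ν) := by
    have := (texp_HS f ν).const_smul (s ν)
    exact this
  have a2 : HasSum (fun n => (mlt s hs f * et f n).co ν) ((mlt s hs f * texp f).co ν) :=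
    HS_mul_left (texp_HS f) (summable_Nk_et 0 f) _ ν
  have a3 : HasSum (fun n => (mlt s hs (et f (n + 1))).co ν) ((mlt s hs (texp f)).co ν) := by
    rw [hasSum_nat_add_iff (f := fun n => (mlt s hs (et f n)).co ν) 1]
    have h0 : (mlt s hs (et f 0)).co ν = 0 := by
      have : mlt s hs (et f 0) = 0 := by
        unfold et
        rw [pow_zero, map_smul, h1, smul_zero]
      rw [this]
      rfl
    rw [Finset.sum_range_one, h0, add_zero]
    exact a1
  refine a3.unique ?_
  have a4 : (fun n => (mlt s hs (et f (n + 1))).co ν) = fun n => (mlt s hs f * et f n).co ν := by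
    funext n
    rw [et_succ_deriv hδ h1]
  rw [a4]
  exact a2

theorem D_texp (κ : Kp) (a : Fin 2) (f : WT) : D κ a (texp f) = D κ a f * texp f :=
  mlt_texp (kap_pg κ a) (fun f g => D_mul κ a f g) (D_one κ a) f

theorem dth_texp (i : ℕ) (f : WT) : dth i (texp f) = dth i f * texp f :=
  mlt_texp (dth_pg i) (fun f g => dth_mul i f g) (dth_one i) f

/-- bound of a series -/
private theorem Bd_series {k : ℕ} {r : ℝ → ℝ} {a : ℕ → WT} {A : WT} {e : ℕ → ℝ}
    (h : ∀ n, Bd k r (a n) (e n)) (he : Summable e)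
    (hA : ∀ ν t, HasSum (fun n => (a n).co ν t) (A.co ν t)) : Bd k r A (∑' n, e n) := by
  choose m hm0 hm hmc hmb using h
  have he0 : ∀ n, 0 ≤ e n := fun n => (tsum_nonneg (hm0 n)).trans (hmc n)
  have hs : Summable fun n => ∑' ν, m n ν :=
    Summable.of_nonneg_of_le (fun n => tsum_nonneg (hm0 n)) hmc he
  have h1 : Summable fun p : ℕ × Gx => m p.1 p.2 := by
    rw [summable_prod_of_nonneg (fun p => hm0 p.1 p.2)]
    exact ⟨hm, hs⟩
  have h2 : Summable fun p : Gx × ℕ => m p.2 p.1 :=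
    (Equiv.prodComm Gx ℕ).summable_iff.mpr h1
  refine ⟨fun ν => ∑' n, m n ν, fun ν => tsum_nonneg fun n => hm0 n ν, h2.prod, ?_,
    fun ν t => ?_⟩
  · have e1 : ∑' ν, ∑' n, m n ν = ∑' n, ∑' ν, m n ν := by
      rw [← h2.tsum_prod, ← h1.tsum_prod]
      exact (Equiv.prodComm Gx ℕ).tsum_eq (fun p : ℕ × Gx => m p.1 p.2)
    rw [e1]
    exact Summable.tsum_le_tsum hmc hs he
  · have hW : 0 < (1 + (len ν : ℝ)) ^ k * Real.exp (r t * len ν) := by positivity
    have h3 : Summable fun n => m n ν := h2.prod_factor ν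
    have h4 : ∀ n, ‖(a n).co ν t‖ ≤
        ((1 + (len ν : ℝ)) ^ k * Real.exp (r t * len ν))⁻¹ * m n ν := by
      intro n
      rw [inv_mul_eq_div, le_div_iff₀ hW, mul_comm]
      exact hmb n ν t
    have h5 : ‖A.co ν t‖ ≤
        ∑' n, ((1 + (len ν : ℝ)) ^ k * Real.exp (r t * len ν))⁻¹ * m n ν := by
      rw [← (hA ν t).tsum_eq]
      exact tsum_of_norm_bounded (h3.mul_left _).hasSum h4
    rw [tsum_mul_left, inv_mul_eq_div, le_div_iff₀ hW, mul_comm] at h5
    exact h5

private theorem exp_tsum (c : ℝ) : Real.exp c = ∑' n : ℕ, c ^ n / n.factorial := by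
  rw [Real.exp_eq_exp_ℝ, NormedSpace.exp_eq_tsum_div]

theorem Bd.texp {k : ℕ} {r : ℝ → ℝ} (hr0 : ∀ t, 0 ≤ r t) {f : WT} {c : ℝ} (hf : Bd k r f c) :
    Bd k r (ES.texp f) (Real.exp c) := by
  have h1 : ∀ n, Bd k r (et f n) (c ^ n / n.factorial) := by
    intro n
    unfold et
    have h2 := Bd.smul ((n.factorial : ℂ)⁻¹) (Bd.pow hr0 hf n)
    rwa [norm_fact, inv_mul_eq_div] at h2
  have h3 := Bd_series h1 (Real.summable_pow_div_factorial c) (HS_apply (texp_HS f))
  rwa [← exp_tsum] at h3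

/-- Lipschitz bound. -/
theorem Bd.texp_sub {k : ℕ} {r : ℝ → ℝ} (hr0 : ∀ t, 0 ≤ r t) {f g : WT} {c e : ℝ}
    (hf : Bd k r f c) (hg : Bd k r g c) (hfg : Bd k r (f - g) e) :
    Bd k r (ES.texp f - ES.texp g) (e * Real.exp c) := by
  have h1 : ∀ n, Bd k r (et f (n + 1) - et g (n + 1)) (c ^ n / n.factorial * e) := by
    intro n
    have e1 : et f (n + 1) - et g (n + 1) = (((n + 1).factorial : ℂ)⁻¹) •
        ((∑ i ∈ Finset.range (n + 1), f ^ i * g ^ (n + 1 - 1 - i)) * (f - g)) := by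
      rw [(Commute.all f g).geom_sum₂_mul]
      unfold et
      rw [smul_sub]
    rw [e1]
    have h2 : Bd k r (∑ i ∈ Finset.range (n + 1), f ^ i * g ^ (n + 1 - 1 - i))
        (∑ i ∈ Finset.range (n + 1), c ^ n) := by
      refine Bd.sum _ fun i hi => ?_
      have hi' : i ≤ n := Nat.lt_succ_iff.mp (Finset.mem_range.mp hi)
      have h3 := Bd.mul hr0 (Bd.pow hr0 hf i) (Bd.pow hr0 hg (n + 1 - 1 - i))
      rw [← pow_add] at h3
      have h4 : i + (n + 1 - 1 - i) = n := by omega
      rwa [h4] at h3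
    rw [Finset.sum_const, Finset.card_range, nsmul_eq_mul] at h2
    have h5 := Bd.smul (((n + 1).factorial : ℂ)⁻¹) (Bd.mul hr0 h2 hfg)
    rw [norm_fact] at h5
    refine h5.mono (le_of_eq ?_)
    rw [Nat.factorial_succ]
    push_cast
    have n1 : (n.factorial : ℝ) ≠ 0 := by exact_mod_cast n.factorial_ne_zero
    have n2 : (n : ℝ) + 1 ≠ 0 := by positivity
    field_simp
  have h2 : ∀ ν t, HasSum (fun n => (et f (n + 1) - et g (n + 1)).co ν t)
      ((ES.texp f - ES.texp g).co ν t) := by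
    intro ν t
    have h3 := (HS_apply (texp_HS f) ν t).sub (HS_apply (texp_HS g) ν t)
    have h4 : HasSum (fun n => (et f n - et g n).co ν t) ((ES.texp f - ES.texp g).co ν t) := by
      simpa using h3
    rw [hasSum_nat_add_iff (f := fun n => (et f n - et g n).co ν t) 1]
    have h0 : (et f 0 - et g 0).co ν t = 0 := by
      unfold et
      simp
    rw [Finset.sum_range_one, h0, add_zero]
    exact h4
  have h3 := Bd_series h1 ((Real.summable_pow_div_factorial c).mul_right e) h2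
  rw [tsum_mul_right, ← exp_tsum, mul_comm] at h3
  exact h3

private noncomputable def etd (f f' : WT) : ℕ → WT
  | 0 => 0
  | n + 1 => f' * et f n

private theorem TD_et {a b : ℝ} {f f' : WT} (hf : TD a b f f') (n : ℕ) :
    TD a b (et f n) (etd f f' n) := by
  cases n with
  | zero =>
    unfold et etd
    rw [pow_zero]
    have h := TD.smul ((Nat.factorial 0 : ℂ)⁻¹) (TD.one a b)
    rwa [smul_zero] at h
  | succ n =>
    have h1 : ∀ m : ℕ, TD a b (f ^ (m + 1)) (((m + 1 : ℕ) : ℂ) • (f' * f ^ m)) := by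
      intro m
      induction m with
      | zero => simpa using hf
      | succ m ih =>
        have h2 := TD.mul ih hf
        rw [pow_succ f (m + 1)]
        have e : ((m + 1 : ℕ) : ℂ) • (f' * f ^ m) * f + f ^ (m + 1) * f'
            = ((m + 1 + 1 : ℕ) : ℂ) • (f' * f ^ (m + 1)) := by
          rw [smul_mul_assoc]
          have e1 : f' * f ^ m * f = f' * f ^ (m + 1) := by rw [pow_succ]; ring
          have e2 : f ^ (m + 1) * f' = f' * f ^ (m + 1) := mul_comm _ _
          rw [e1, e2]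
          push_cast
          rw [add_smul ((m : ℂ) + 1) 1, one_smul]
        rwa [e] at h2
    have h3 := TD.smul (((n + 1).factorial : ℂ)⁻¹) (h1 n)
    have e : (((n + 1).factorial : ℂ)⁻¹) • (((n + 1 : ℕ) : ℂ) • (f' * f ^ n))
        = etd f f' (n + 1) := by
      show _ = f' * et f n
      unfold et
      rw [smul_smul, mul_smul_comm]
      congr 1
      have n1 : ((n + 1 : ℕ) : ℂ) ≠ 0 := by exact_mod_cast Nat.succ_ne_zero n
      rw [Nat.factorial_succ]
      push_cast at n1 ⊢
      have n2 : (n.factorial : ℂ) ≠ 0 := by exact_mod_cast n.factorial_ne_zero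
      field_simp
    rw [e] at h3
    exact h3

theorem TD.texp {a b : ℝ} {f f' : WT} (hf : TD a b f f') :
    TD a b (ES.texp f) (f' * ES.texp f) := by
  intro ν t ht
  have h1 : (fun s => (ES.texp f).co ν s) = fun s => ∑' n, (et f n).co ν s := by
    funext s
    exact (HS_apply (texp_HS f) ν s).tsum_eq.symm
  have hsum : Summable fun n => Nk 0 (etd f f' n) := by
    rw [← summable_nat_add_iff 1]
    refine Summable.of_nonneg_of_le (fun n => Nk_nonneg _ _) (fun n => ?_)
      ((summable_Nk_et 0 f).mul_left (Nk 0 f'))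
    exact Nk_mul_le 0 _ _
  have h2 : (f' * ES.texp f).co ν t = ∑' n, (etd f f' n).co ν t := by
    have h3 : HasSum (fun n => (etd f f' (n + 1)).co ν t) ((f' * ES.texp f).co ν t) :=
      HS_apply (HS_mul_left (texp_HS f) (summable_Nk_et 0 f) f') ν t
    rw [hasSum_nat_add_iff (f := fun n => (etd f f' n).co ν t) 1] at h3
    have h0 : (etd f f' 0).co ν t = 0 := rfl
    rw [Finset.sum_range_one, h0, add_zero] at h3
    exact h3.tsum_eq.symm
  rw [h1, h2]
  refine hasDerivAt_tsum_of_isPreconnected (u := fun n => Nk 0 (etd f f' n)) hsum isOpen_Ioo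
    isPreconnected_Ioo (fun n y hy => TD_et hf n ν y hy) (fun n y hy => ?_) ht
    (HS_apply (texp_HS f) ν t).summable ht
  exact ((etd f f' n).co ν).norm_coe_le_norm y |>.trans (norm_co_le _ _)

theorem tcomp_texp (g : C(ℝ, ℝ)) (f : WT) : tcomp g (texp f) = texp (tcomp g f) := by
  apply WT.ext
  funext ν
  ext t
  rw [tcomp_co, texp_co, texp_co]
  refine tsum_congr fun n => ?_
  rw [← tcomp_pow, tcomp_co]

theorem Lev.texp {i : ℕ} {f : WT} (hf : Lev i f) : Lev i (ES.texp f) := by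
  intro ν hν
  have h1 : ∀ n : ℕ, Lev i (f ^ n) := by
    intro n
    induction n with
    | zero => rw [pow_zero]; exact Lev.one i
    | succ n ih => rw [pow_succ]; exact Lev.mul ih hf
  refine (texp_hasSum f ν).unique ?_
  have : (fun n : ℕ => ((n.factorial : ℂ)⁻¹) • (f ^ n).co ν) = fun _ => 0 := by
    funext n
    rw [h1 n ν hν, smul_zero]
  rw [this]
  exact hasSum_zero

/-- Conjugation symmetry. -/
theorem texp_conj {f g : WT} (h : ∀ ν t, g.co (-ν) t = (starRingEnd ℂ) (f.co ν t)) (ν : Gx)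
    (t : ℝ) : (texp g).co (-ν) t = (starRingEnd ℂ) ((texp f).co ν t) := by
  have h1 : ∀ n : ℕ, ∀ ν t, (g ^ n).co (-ν) t = (starRingEnd ℂ) ((f ^ n).co ν t) := by
    intro n
    induction n with
    | zero =>
      intro ν t
      rw [pow_zero, pow_zero, WT.co_one]
      by_cases hν : ν = 0
      · subst hν
        simp
      · have : -ν ≠ 0 := neg_ne_zero.mpr hν
        simp [hν]
    | succ n ih =>
      intro ν t
      rw [pow_succ, pow_succ, WT.mul_co_apply, WT.mul_co_apply, Complex.conj_tsum,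
        ← (Equiv.neg Gx).tsum_eq]
      refine tsum_congr fun μ => ?_
      rw [Equiv.neg_apply, map_mul, ← ih μ t, ← h (ν - μ) t]
      congr 3
      abel
  rw [texp_co, texp_co, Complex.conj_tsum]
  refine tsum_congr fun n => ?_
  rw [map_mul, h1 n ν t, map_inv₀, Complex.conj_natCast]

end ES
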