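import Pool.Agent.ES.LBd
import Pool.Agent.ES.LTime
import Pool.Agent.ES.LReal

/-!
ES-LPic: completeness of the bounds and the contraction principle for finite families of elements
of `WT` with the weighted norms `Bd (k j) r (x j) (s * w j)`.
-/

open scoped BoundedContinuousFunction

namespace ES

private theorem pic_norm_le {k : ℕ} {r : ℝ → ℝ} {f : WT} {m : Gx → ℝ} (ν : Gx) (t : ℝ)
    (hrt : 0 ≤ r t) (h : (1 + (len ν : ℝ)) ^ k * Real.exp (r t * len ν) * ‖f.co ν t‖ ≤ m ν) :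
    ‖f.co ν t‖ ≤ m ν := by
  have h1 : (1 : ℝ) ≤ (1 + (len ν : ℝ)) ^ k :=
    one_le_pow₀ (by linarith [(Nat.cast_nonneg (len ν) : (0 : ℝ) ≤ _)])
  have h2 : (1 : ℝ) ≤ Real.exp (r t * len ν) :=
    Real.one_le_exp (mul_nonneg hrt (Nat.cast_nonneg _))
  have h3 : (1 : ℝ) ≤ (1 + (len ν : ℝ)) ^ k * Real.exp (r t * len ν) :=
    one_le_mul_of_one_le_of_one_le h1 h2
  calc ‖f.co ν t‖ = 1 * ‖f.co ν t‖ := (one_mul _).symm
    _ ≤ (1 + (len ν : ℝ)) ^ k * Real.exp (r t * len ν) * ‖f.co ν t‖ :=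
        mul_le_mul_of_nonneg_right h3 (norm_nonneg _)
    _ ≤ m ν := h

private theorem pic_co_le {k : ℕ} {r : ℝ → ℝ} {f : WT} {c : ℝ} (hf : Bd k r f c) (ν : Gx) (t : ℝ)
    (hrt : 0 ≤ r t) : ‖f.co ν t‖ ≤ c := by
  obtain ⟨m, hm0, hms, hmc, hmb⟩ := hf
  exact ((pic_norm_le ν t hrt (hmb ν t)).trans
    (hms.le_tsum ν fun j _ => hm0 j)).trans hmc

private theorem pic_sum {k : ℕ} {r : ℝ → ℝ} {r0 : ℝ} (hr0 : 0 < r0) (hr : ∀ t, r0 ≤ r t)
    (d : ℕ → WT) (e : ℕ → ℝ) (he : Summable e) (h : ∀ n, Bd k r (d n) (e n)) :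
    (∀ ν, Summable fun n => (d n).co ν) ∧
      ∃ g : WT, (g.co = fun ν => ∑' n, (d n).co ν) ∧ Bd k r g (∑' n, e n) := by
  choose m hm0 hms hmt hmb using h
  have hP : Summable fun p : ℕ × Gx => m p.1 p.2 := by
    rw [summable_prod_of_nonneg (fun p => hm0 p.1 p.2)]
    exact ⟨fun n => hms n, Summable.of_nonneg_of_le (fun n => tsum_nonneg (hm0 n)) hmt he⟩
  have hP' : Summable fun p : Gx × ℕ => m p.2 p.1 := hP.prod_symm
  have hM : ∀ ν, Summable fun n => m n ν := fun ν => hP'.prod_factor ν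
  have hM2 : Summable fun ν => ∑' n, m n ν := hP'.prod
  have hc : ∀ n ν, ‖(d n).co ν‖ ≤ m n ν := by
    intro n ν
    rw [BoundedContinuousFunction.norm_le (hm0 n ν)]
    intro t
    exact pic_norm_le ν t (hr0.le.trans (hr t)) (hmb n ν t)
  have hS : ∀ ν, Summable fun n => (d n).co ν := fun ν =>
    Summable.of_norm_bounded (hM ν) fun n => hc n ν
  refine ⟨hS, ?_⟩
  obtain ⟨g, hg, hgb⟩ := exists_WT_of_bd (k := k) hr0 hr (fun ν => ∑' n, (d n).co ν)
    (fun ν => ∑' n, m n ν) hM2 (by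
      intro ν t
      have h1 : HasSum (fun n => (d n).co ν t) ((∑' n, (d n).co ν : Ct) t) :=
        (hS ν).hasSum.map (BoundedContinuousFunction.evalCLM ℂ t)
          (BoundedContinuousFunction.evalCLM ℂ t).continuous
      have hW0 : (0 : ℝ) ≤ (1 + (len ν : ℝ)) ^ k * Real.exp (r t * len ν) := by positivity
      have h2 : HasSum (fun n => (((1 + (len ν : ℝ)) ^ k * Real.exp (r t * len ν) : ℝ) : ℂ)
          * (d n).co ν t) ((((1 + (len ν : ℝ)) ^ k * Real.exp (r t * len ν) : ℝ) : ℂ)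
          * ((∑' n, (d n).co ν : Ct) t)) := h1.mul_left _
      have h3 : ‖(((1 + (len ν : ℝ)) ^ k * Real.exp (r t * len ν) : ℝ) : ℂ)
          * ((∑' n, (d n).co ν : Ct) t)‖ ≤ ∑' n, m n ν := by
        refine HasSum.norm_le_of_bounded h2 (hM ν).hasSum fun n => ?_
        rw [norm_mul, Complex.norm_real, Real.norm_eq_abs, abs_of_nonneg hW0]
        exact hmb n ν t
      rwa [norm_mul, Complex.norm_real, Real.norm_eq_abs, abs_of_nonneg hW0] at h3)
  refine ⟨g, hg, hgb.mono ?_⟩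
  have h4 : ∑' ν, ∑' n, m n ν = ∑' n, ∑' ν, m n ν := Summable.tsum_comm hP
  rw [h4]
  exact Summable.tsum_le_tsum hmt
    (Summable.of_nonneg_of_le (fun n => tsum_nonneg (hm0 n)) hmt he) he

/-- Limit of a sequence with summable increments. -/
theorem exists_limit {k : ℕ} {r : ℝ → ℝ} {r0 : ℝ} (hr0 : 0 < r0) (hr : ∀ t, r0 ≤ r t)
    (x : ℕ → WT) (e : ℕ → ℝ) (he : Summable e) (h : ∀ n, Bd k r (x (n + 1) - x n) (e n)) :
    ∃ f : WT, ∀ n, Bd k r (f - x n) (∑' j, e (j + n)) := by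
  have hsh : ∀ n, Summable fun j => e (j + n) := fun n => (summable_nat_add_iff n).2 he
  have H := fun n => pic_sum hr0 hr (fun j => x (j + n + 1) - x (j + n)) (fun j => e (j + n))
    (hsh n) (fun j => h (j + n))
  choose hS g hg hgb using H
  refine ⟨x 0 + g 0, fun n => ?_⟩
  have h1 : x 0 + g 0 - x n = g n := by
    apply WT.ext
    funext ν
    have hS0 : Summable fun j => (x (j + 1) - x j).co ν := by simpa using hS 0 ν
    have h2 := hS0.sum_add_tsum_nat_add n
    have h3 : ∑ j ∈ Finset.range n, (x (j + 1) - x j).co ν = (x n).co ν - (x 0).co ν := by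
      have := Finset.sum_range_sub (fun j => (x j).co ν) n
      simpa using this
    have h4 : (g 0).co ν = ∑' j, (x (j + 1) - x j).co ν := by rw [hg 0]; simp
    have h5 : (g n).co ν = ∑' j, (x (j + n + 1) - x (j + n)).co ν := by rw [hg n]
    rw [WT.co_sub, WT.co_add, Pi.sub_apply, Pi.add_apply, h4, ← h2, h3, h5]
    abel
  rw [h1]
  exact hgb n

/-- Weighted bounds for a family. -/
def BdV {ι : Type*} (k : ι → ℕ) (w : ι → ℝ) (r : ℝ → ℝ) (x : ι → WT) (s : ℝ) : Prop :=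
  ∀ j, Bd (k j) r (x j) (s * w j)

private theorem pic_limV {ι : Type*} [Fintype ι] {k : ι → ℕ} {w : ι → ℝ} {r : ℝ → ℝ}
    {r0 : ℝ} (hr0 : 0 < r0) (hr : ∀ t, r0 ≤ r t) (xs : ℕ → ι → WT) {s : ℝ}
    (h : ∀ n, BdV k w r (xs (n + 1) - xs n) ((1 / 2) ^ n * s)) :
    ∃ y : ι → WT, (∀ n, BdV k w r (y - xs n) ((1 / 2) ^ n * (2 * s))) ∧
      ∀ j ν t, Filter.Tendsto (fun n => (xs n j).co ν t) Filter.atTop (nhds ((y j).co ν t)) := by
  have hgeo : Summable fun n : ℕ => ((1 : ℝ) / 2) ^ n := summable_geometric_two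
  have hex : ∀ j, ∃ f : WT, ∀ n, Bd (k j) r (f - xs n j)
      (∑' i, ((1 / 2 : ℝ) ^ (i + n) * s * w j)) := by
    intro j
    exact exists_limit hr0 hr (fun n => xs n j) (fun n => (1 / 2 : ℝ) ^ n * s * w j)
      ((hgeo.mul_right s).mul_right (w j)) (fun n => h n j)
  choose y hy using hex
  have hval : ∀ (j : ι) (n : ℕ), ∑' i, ((1 / 2 : ℝ) ^ (i + n) * s * w j)
      = (1 / 2) ^ n * (2 * s) * w j := by
    intro j n
    have h1 : ∀ i : ℕ, (1 / 2 : ℝ) ^ (i + n) * s * w j = (1 / 2 : ℝ) ^ i * ((1 / 2) ^ n * s * w j) :=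
      fun i => by rw [pow_add]; ring
    simp_rw [h1]
    rw [tsum_mul_right, tsum_geometric_two]
    ring
  have hB : ∀ n, BdV k w r (y - xs n) ((1 / 2) ^ n * (2 * s)) := by
    intro n j
    have := hy j n
    rw [hval j n] at this
    exact this
  refine ⟨y, hB, fun j ν t => ?_⟩
  rw [tendsto_iff_norm_sub_tendsto_zero]
  have hz : Filter.Tendsto (fun n : ℕ => (1 / 2 : ℝ) ^ n * (2 * s) * w j) Filter.atTop (nhds 0) := by
    have h0 : Filter.Tendsto (fun n : ℕ => (1 / 2 : ℝ) ^ n) Filter.atTop (nhds 0) :=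
      tendsto_pow_atTop_nhds_zero_of_lt_one (by norm_num) (by norm_num)
    have := (h0.mul_const (2 * s)).mul_const (w j)
    simpa using this
  refine squeeze_zero (fun _ => norm_nonneg _) (fun n => ?_) hz
  have h1 := pic_co_le (hB n j) ν t (hr0.le.trans (hr t))
  rw [norm_sub_rev]
  exact h1

private theorem pic_zero_of_small {ι : Type*} {k : ι → ℕ} {w : ι → ℝ} {r : ℝ → ℝ} {z : ι → WT}
    {s : ℝ} (h : ∀ n : ℕ, BdV k w r z ((1 / 2) ^ n * s)) : z = 0 := by
  funext j
  refine Bd.eq_zero (k := k j) (r := r) fun c hc => ?_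
  have h0 : Filter.Tendsto (fun n : ℕ => (1 / 2 : ℝ) ^ n * s * w j) Filter.atTop (nhds 0) := by
    have h0 : Filter.Tendsto (fun n : ℕ => (1 / 2 : ℝ) ^ n) Filter.atTop (nhds 0) :=
      tendsto_pow_atTop_nhds_zero_of_lt_one (by norm_num) (by norm_num)
    have := (h0.mul_const s).mul_const (w j)
    simpa using this
  obtain ⟨n, hn⟩ := ((tendsto_order.1 h0).2 c hc).exists
  exact (h n j).mono hn.le

/-- Contraction principle with a closed constraint `Q`. -/
theorem fixpt {ι : Type*} [Fintype ι] (k : ι → ℕ) (w : ι → ℝ) (hw : ∀ j, 0 < w j) {r : ℝ → ℝ}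
    {r0 : ℝ} (hr0 : 0 < r0) (hr : ∀ t, r0 ≤ r t) (T : (ι → WT) → (ι → WT)) (x0 : ι → WT)
    (Q : (ι → WT) → Prop) (hQ0 : Q x0)
    (hQT : ∀ x, BdV k w r (x - x0) 1 → Q x → Q (T x))
    (hQcl : ∀ (x : ℕ → ι → WT) (y : ι → WT), (∀ n, Q (x n)) →
      (∀ j ν t, Filter.Tendsto (fun n => (x n j).co ν t) Filter.atTop (nhds ((y j).co ν t))) → Q y)
    (hT0 : BdV k w r (T x0 - x0) (1 / 2))
    (hL : ∀ x y s, Q x → Q y → 0 ≤ s → BdV k w r (x - x0) 1 → BdV k w r (y - x0) 1 →
      BdV k w r (x - y) s → BdV k w r (T x - T y) (s / 2)) :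
    ∃ x, T x = x ∧ Q x ∧ BdV k w r (x - x0) 1 := by
  set xs : ℕ → ι → WT := fun n => T^[n] x0 with hxs
  have hsucc : ∀ n, xs (n + 1) = T (xs n) := fun n => Function.iterate_succ_apply' T n x0
  have hx0 : xs 0 = x0 := rfl
  have key : ∀ n, Q (xs n) ∧ BdV k w r (xs n - x0) (1 - (1 / 2) ^ n) ∧
      BdV k w r (xs (n + 1) - xs n) ((1 / 2) ^ n * (1 / 2)) := by
    intro n
    induction n with
    | zero =>
      refine ⟨hQ0, fun j => ?_, fun j => ?_⟩
      · have : (xs 0 - x0) j = 0 := by rw [hx0]; simp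
        rw [this]
        exact Bd.zero _ _ (by simp)
      · rw [hsucc, hx0]
        have := hT0 j
        simpa using this
    | succ n ih =>
      obtain ⟨h1, h2, h3⟩ := ih
      have hle : BdV k w r (xs n - x0) 1 := fun j =>
        (h2 j).mono (mul_le_mul_of_nonneg_right (by
          have : (0 : ℝ) ≤ (1 / 2) ^ n := by positivity
          linarith) (hw j).le)
      have h4 : Q (xs (n + 1)) := by rw [hsucc]; exact hQT _ hle h1
      have h5 : BdV k w r (xs (n + 1) - x0) (1 - (1 / 2) ^ (n + 1)) := by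
        intro j
        have e1 : (xs (n + 1) - x0) j = (xs (n + 1) - xs n) j + (xs n - x0) j := by
          simp only [Pi.sub_apply]; ring
        rw [e1]
        refine ((h3 j).add (h2 j)).mono (le_of_eq ?_)
        rw [pow_succ]; ring
      have hle' : BdV k w r (xs (n + 1) - x0) 1 := fun j =>
        (h5 j).mono (mul_le_mul_of_nonneg_right (by
          have : (0 : ℝ) ≤ (1 / 2) ^ (n + 1) := by positivity
          linarith) (hw j).le)
      refine ⟨h4, h5, ?_⟩
      have h6 := hL (xs (n + 1)) (xs n) ((1 / 2) ^ n * (1 / 2)) h4 h1 (by positivity) hle' hle h3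
      rw [hsucc (n + 1), hsucc n]
      rw [hsucc n] at h6
      intro j
      have h7 := h6 j
      refine h7.mono (le_of_eq ?_)
      rw [pow_succ]; ring
  obtain ⟨y, hy, hyt⟩ := pic_limV hr0 hr xs (fun n => (key n).2.2)
  have hQy : Q y := hQcl xs y (fun n => (key n).1) hyt
  have hy1 : BdV k w r (y - x0) 1 := by
    have := hy 0
    rw [hx0] at this
    simpa using this
  have hle : ∀ n, BdV k w r (xs n - x0) 1 := fun n j =>
    ((key n).2.1 j).mono (mul_le_mul_of_nonneg_right (by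
      have : (0 : ℝ) ≤ (1 / 2) ^ n := by positivity
      linarith) (hw j).le)
  refine ⟨y, ?_, hQy, hy1⟩
  have hz : T y - y = 0 := by
    refine pic_zero_of_small (k := k) (w := w) (r := r) (s := 1) fun n => ?_
    have h1 := hL y (xs n) ((1 / 2) ^ n * (2 * (1 / 2))) hQy (key n).1 (by positivity) hy1 (hle n)
      (hy n)
    have h2 := hy (n + 1)
    intro j
    have e1 : (T y - y) j = (T y - T (xs n)) j - (y - xs (n + 1)) j := by
      rw [hsucc]
      simp only [Pi.sub_apply]; ring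
    rw [e1]
    refine ((h1 j).sub (h2 j)).mono (le_of_eq ?_)
    rw [pow_succ]; ring
  exact sub_eq_zero.1 hz

/-! closedness of the standard constraints under coefficientwise pointwise limits -/

theorem Cl_of_tendsto {a b : ℝ} {x : ℕ → WT} {y : WT} (hx : ∀ n, Cl a b (x n))
    (h : ∀ ν t, Filter.Tendsto (fun n => (x n).co ν t) Filter.atTop (nhds (y.co ν t))) :
    Cl a b y := by
  have hcl : ∀ (f : WT), Cl a b f ↔ ∀ ν t, f.co ν (clp a b t) = f.co ν t := by
    intro f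
    constructor
    · intro hf ν t
      have h1 : (tcl a b f).co ν t = f.co ν t := by rw [show tcl a b f = f from hf]
      exact h1
    · intro hf
      apply WT.ext
      funext ν
      ext t
      exact hf ν t
  rw [hcl]
  intro ν t
  have h1 := h ν (clp a b t)
  have h2 := h ν t
  have h3 : (fun n => (x n).co ν (clp a b t)) = fun n => (x n).co ν t := by
    funext n
    exact (hcl (x n)).1 (hx n) ν t
  rw [h3] at h1
  exact tendsto_nhds_unique h1 h2

theorem Lev_of_tendsto {i : ℕ} {x : ℕ → WT} {y : WT} (hx : ∀ n, Lev i (x n))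
    (h : ∀ ν t, Filter.Tendsto (fun n => (x n).co ν t) Filter.atTop (nhds (y.co ν t))) :
    Lev i y := by
  intro ν hν
  ext t
  have h1 := h ν t
  have h2 : (fun n => (x n).co ν t) = fun _ => (0 : ℂ) := by
    funext n
    rw [hx n ν hν]
    rfl
  rw [h2] at h1
  exact tendsto_nhds_unique h1 tendsto_const_nhds

theorem IsR_of_tendsto {x : ℕ → WT} {y : WT} (hx : ∀ n, IsR (x n))
    (h : ∀ ν t, Filter.Tendsto (fun n => (x n).co ν t) Filter.atTop (nhds (y.co ν t))) :
    IsR y := by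
  intro ν t
  have h1 := h (-ν) t
  have h2 : Filter.Tendsto (fun n => (starRingEnd ℂ) ((x n).co ν t)) Filter.atTop
      (nhds ((starRingEnd ℂ) (y.co ν t))) :=
    (Complex.continuous_conj.tendsto _).comp (h ν t)
  have h3 : (fun n => (x n).co (-ν) t) = fun n => (starRingEnd ℂ) ((x n).co ν t) := by
    funext n
    exact hx n ν t
  rw [h3] at h1
  exact tendsto_nhds_unique h1 h2

/-- Vanishing of a multiplier combination is closed. -/
theorem mlt_sum_of_tendsto {ι : Type*} [Fintype ι] {x : ℕ → ι → WT} {y : ι → WT}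
    (s : ι → Gx → ℂ) (hs : ∀ j, PG (s j)) (hx : ∀ n, ∑ j, mlt (s j) (hs j) (x n j) = 0)
    (h : ∀ j ν t, Filter.Tendsto (fun n => (x n j).co ν t) Filter.atTop (nhds ((y j).co ν t))) :
    ∑ j, mlt (s j) (hs j) (y j) = 0 := by
  apply WT.ext
  funext ν
  ext t
  let L : WT →+ ℂ :=
    { toFun := fun f => f.co ν t
      map_zero' := rfl
      map_add' := fun _ _ => rfl }
  have hsum : ∀ z : ι → WT, (∑ j, mlt (s j) (hs j) (z j)).co ν t = ∑ j, s j ν * (z j).co ν t := by
    intro z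
    have h1 : L (∑ j, mlt (s j) (hs j) (z j)) = ∑ j, L (mlt (s j) (hs j) (z j)) := map_sum L _ _
    exact h1
  rw [hsum]
  have h1 : Filter.Tendsto (fun n => ∑ j, s j ν * (x n j).co ν t) Filter.atTop
      (nhds (∑ j, s j ν * (y j).co ν t)) :=
    tendsto_finsetSum _ fun j _ => (h j ν t).const_mul (s j ν)
  have h2 : (fun n => ∑ j, s j ν * (x n j).co ν t) = fun _ => (0 : ℂ) := by
    funext n
    rw [← hsum, hx n]
    rfl
  rw [h2] at h1
  exact tendsto_nhds_unique h1 tendsto_const_nhds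

/-- Banach fixed point for a linear system, version without constraint and unbounded domain:
if `T` is a contraction for differences (at every size), it has a fixed point. -/
theorem fixpt_global {ι : Type*} [Fintype ι] (k : ι → ℕ) (w : ι → ℝ) (hw : ∀ j, 0 < w j)
    {r : ℝ → ℝ} {r0 : ℝ} (hr0 : 0 < r0) (hr : ∀ t, r0 ≤ r t) (T : (ι → WT) → (ι → WT))
    (Q : (ι → WT) → Prop) (hQ0 : Q 0) (hQT : ∀ x, Q x → Q (T x))
    (hQcl : ∀ (x : ℕ → ι → WT) (y : ι → WT), (∀ n, Q (x n)) →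
      (∀ j ν t, Filter.Tendsto (fun n => (x n j).co ν t) Filter.atTop (nhds ((y j).co ν t))) → Q y)
    {s0 : ℝ} (hT0 : BdV k w r (T 0) s0)
    (hL : ∀ x y s, 0 ≤ s → BdV k w r (x - y) s → BdV k w r (T x - T y) (s / 2)) :
    ∃ x, T x = x ∧ Q x ∧ BdV k w r x (2 * s0) := by
  rcases isEmpty_or_nonempty ι with hι | ⟨⟨j0⟩⟩
  · exact ⟨0, Subsingleton.elim _ _, hQ0, fun j => hι.elim j⟩
  have hs0 : 0 ≤ s0 := by
    have h1 := (hT0 j0).nonneg
    by_contra hneg
    have := mul_neg_of_neg_of_pos (not_le.1 hneg) (hw j0)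
    linarith
  set xs : ℕ → ι → WT := fun n => T^[n] 0 with hxs
  have hsucc : ∀ n, xs (n + 1) = T (xs n) := fun n => Function.iterate_succ_apply' T n 0
  have hx0 : xs 0 = 0 := rfl
  have key : ∀ n, Q (xs n) ∧ BdV k w r (xs (n + 1) - xs n) ((1 / 2) ^ n * s0) := by
    intro n
    induction n with
    | zero =>
      refine ⟨hQ0, fun j => ?_⟩
      rw [hsucc, hx0]
      have := hT0 j
      simpa using this
    | succ n ih =>
      obtain ⟨h1, h3⟩ := ih
      refine ⟨by rw [hsucc]; exact hQT _ h1, ?_⟩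
      have h6 := hL (xs (n + 1)) (xs n) ((1 / 2) ^ n * s0) (by positivity) h3
      rw [hsucc (n + 1), hsucc n]
      rw [hsucc n] at h6
      intro j
      refine (h6 j).mono (le_of_eq ?_)
      rw [pow_succ]; ring
  obtain ⟨y, hy, hyt⟩ := pic_limV hr0 hr xs (fun n => (key n).2)
  have hQy : Q y := hQcl xs y (fun n => (key n).1) hyt
  have hy1 : BdV k w r y (2 * s0) := by
    have := hy 0
    rw [hx0] at this
    simpa using this
  refine ⟨y, ?_, hQy, hy1⟩
  have hz : T y - y = 0 := by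
    refine pic_zero_of_small (k := k) (w := w) (r := r) (s := 2 * s0) fun n => ?_
    have h1 := hL y (xs n) ((1 / 2) ^ n * (2 * s0)) (by positivity) (hy n)
    have h2 := hy (n + 1)
    intro j
    have e1 : (T y - y) j = (T y - T (xs n)) j - (y - xs (n + 1)) j := by
      rw [hsucc]
      simp only [Pi.sub_apply]; ring
    rw [e1]
    refine ((h1 j).sub (h2 j)).mono (le_of_eq ?_)
    rw [pow_succ]; ring
  exact sub_eq_zero.1 hz

end ES
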