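import Pool.Agent.ES.LPic
import Pool.Agent.ES.LAbs

/-!
ES-LSqrt: square roots of time independent elements close to one:
`s = 1 + u`, `u = (y - u²)/2` by `fixpt` on the ball `N0(u) ≤ 1/2`.
-/

open scoped BoundedContinuousFunction

namespace ES

private theorem LSqrt_frz_iff {f : WT} : (∀ t₀, frz t₀ f = f) ↔
    ∀ ν t₀ t, f.co ν t₀ = f.co ν t := by
  constructor
  · intro h ν t₀ t
    have h1 : (frz t₀ f).co ν t = f.co ν t := by rw [h t₀]
    rw [← h1, frz_co]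
  · intro h t₀
    apply WT.ext
    funext ν
    ext t
    rw [frz_co]
    exact h ν t₀ t

private theorem LSqrt_frz_mul (t₀ : ℝ) (f g : WT) : frz t₀ (f * g) = frz t₀ f * frz t₀ g := by
  apply WT.ext
  funext ν
  ext t
  rw [frz_co, WT.mul_co_apply, WT.mul_co_apply]
  exact tsum_congr fun μ => by rw [frz_co, frz_co]

theorem exists_sqrt {ρ : ℝ} (hρ : 0 < ρ) {y : WT} (hy : Bd 0 (cr ρ) y (1 / 2)) (ry : IsR y) {i : ℕ}
    (ly : Lev i y) (ty : ∀ t₀, frz t₀ y = y) :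
    ∃ s : WT, s * s = 1 + y ∧ Bd 0 (cr ρ) s (3 / 2) ∧ IsR s ∧ Lev i s ∧ ∀ t₀, frz t₀ s = s := by
  have hr0 : ∀ t, 0 ≤ cr ρ t := fun _ => hρ.le
  obtain ⟨x, hx, ⟨hxR, hxL, hxT⟩, hxb⟩ := fixpt (ι := Fin 1) (fun _ => 0) (fun _ => 1 / 2)
    (fun _ => by norm_num) (r := cr ρ) (r0 := ρ) hρ (fun _ => le_rfl)
    (fun u j => ((1 / 2 : ℝ) : ℂ) • (y - u j * u j)) 0
    (fun u => IsR (u 0) ∧ Lev i (u 0) ∧ ∀ t₀, frz t₀ (u 0) = u 0)
    ⟨IsR.zero, Lev.zero i, LSqrt_frz_iff.2 fun ν t₀ t => rfl⟩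
    (fun u _ ⟨h1, h2, h3⟩ => by
      refine ⟨(ry.sub (h1.mul h1)).smul, (ly.sub (h2.mul h2)).smul _, ?_⟩
      have h4 : ∀ t₀, frz t₀ (u 0 * u 0) = u 0 * u 0 := fun t₀ => by
        rw [LSqrt_frz_mul, h3 t₀]
      rw [LSqrt_frz_iff] at ty h4 ⊢
      intro ν t₀ t
      simp only [WT.co_smul, Pi.smul_apply, BoundedContinuousFunction.smul_apply, WT.co_sub,
        Pi.sub_apply, BoundedContinuousFunction.sub_apply]
      rw [ty ν t₀ t, h4 ν t₀ t])
    (fun xs z hQ hz => by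
      refine ⟨IsR_of_tendsto (fun n => (hQ n).1) (hz 0), Lev_of_tendsto (fun n => (hQ n).2.1) (hz 0),
        ?_⟩
      rw [LSqrt_frz_iff]
      intro ν t₀ t
      have h1 := hz 0 ν t₀
      have h2 := hz 0 ν t
      have h3 : (fun n => (xs n 0).co ν t₀) = fun n => (xs n 0).co ν t := by
        funext n
        exact LSqrt_frz_iff.1 (hQ n).2.2 ν t₀ t
      rw [h3] at h1
      exact tendsto_nhds_unique h1 h2)
    (fun j => by
      have h1 : ((fun (u : Fin 1 → WT) (j : Fin 1) => ((1 / 2 : ℝ) : ℂ) • (y - u j * u j)) 0 - 0) j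
          = ((1 / 2 : ℝ) : ℂ) • y := by simp
      rw [h1]
      refine (hy.smul _).mono (le_of_eq ?_)
      rw [Complex.norm_real, Real.norm_eq_abs, abs_of_pos (by norm_num)])
    (fun u v s _ _ hs hu hv huv j => by
      have hu' : Bd 0 (cr ρ) (u j) (1 * (1 / 2)) := by simpa using hu j
      have hv' : Bd 0 (cr ρ) (v j) (1 * (1 / 2)) := by simpa using hv j
      have h1 : ((fun j => ((1 / 2 : ℝ) : ℂ) • (y - u j * u j)) -
          (fun j => ((1 / 2 : ℝ) : ℂ) • (y - v j * v j)) : Fin 1 → WT) j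
          = ((1 / 2 : ℝ) : ℂ) • (-((u - v) j * (u j + v j))) := by
        simp only [Pi.sub_apply]
        rw [← smul_sub]
        congr 1
        ring
      change Bd 0 (cr ρ) (((fun j => ((1 / 2 : ℝ) : ℂ) • (y - u j * u j)) -
          (fun j => ((1 / 2 : ℝ) : ℂ) • (y - v j * v j)) : Fin 1 → WT) j) _
      rw [h1]
      refine (((huv j).mul hr0 (hu'.add hv')).neg.smul _).mono (le_of_eq ?_)
      rw [Complex.norm_real, Real.norm_eq_abs, abs_of_pos (by norm_num)]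
      ring)
  have hx0 : x 0 = ((1 / 2 : ℝ) : ℂ) • (y - x 0 * x 0) := (congrFun hx 0).symm
  have hx2 : (2 : ℂ) • x 0 = y - x 0 * x 0 := by
    conv_lhs => rw [hx0]
    rw [smul_smul]
    norm_num
  refine ⟨1 + x 0, ?_, ?_, IsR.one.add hxR, (Lev.one i).add hxL, ?_⟩
  · have h2 : (2 : ℂ) • x 0 = x 0 + x 0 := two_smul ℂ (x 0)
    rw [h2] at hx2
    linear_combination hx2
  · have h1 := hxb 0
    have h2 : Bd 0 (cr ρ) (x 0) (1 * (1 / 2)) := by simpa using h1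
    exact ((Bd.one 0 (cr ρ)).add h2).mono (by norm_num)
  · rw [LSqrt_frz_iff] at hxT ⊢
    have h1 : ∀ t₀, frz t₀ (1 : WT) = 1 := by
      rw [LSqrt_frz_iff]
      intro ν t₀ t
      rw [WT.co_one]
      by_cases h : ν = 0
      · subst h; simp
      · simp [h]
    rw [LSqrt_frz_iff] at h1
    intro ν t₀ t
    simp only [WT.co_add, Pi.add_apply, BoundedContinuousFunction.add_apply]
    rw [h1 ν t₀ t, hxT ν t₀ t]

end ES
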