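import Pool.Agent.ES.RWfD

/-!
Project ES, Part III: abstract sequences of stages (definitions).
-/

open MeasureTheory Set Filter Topology

namespace ES

/-- An abstract sequence of stages. -/
structure LSeq (T0 : ℝ) (V : ℕ → Fld) (τ : ℕ → PT) (e Λ ε : ℕ → ℝ) (v : ℝ) : Prop where
  pos : 0 < T0
  lo : ∀ k, (τ k).lo = 0
  hi : ∀ k, (τ k).hi = T0
  bads : ∀ k, (τ (k + 1)).bads ⊆ (τ k).bads
  ends : ∀ k, (τ (k + 1)).ends ⊆ (τ k).ends ∪ (τ k).bads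
  eq : ∀ k x t, t ∉ (τ k).obads → V (k + 1) x t = V k x t
  near : ∀ k x t a, |V (k + 1) x t a - V k x t a| ≤ e k
  esum : Summable e
  vbd : ∀ k x, ∀ t ∈ Icc 0 T0, ∀ a, |V k x t a| ≤ v
  lip0 : ∀ k, 0 ≤ Λ k
  lip : ∀ k, Lp (V k) 0 T0 (Λ k)
  per : ∀ k, ∀ t ∈ Icc 0 T0, PerF (V k) t
  df : ∀ k, ∀ t ∈ Icc 0 T0, DF (V k) t
  we : ∀ k, WE (V k) 0 T0 (ε k)
  elim : Tendsto ε atTop (𝓝 0)
  sm : ∀ k, (τ k).Valid
    (fun s t => ∀ n : ℕ, ContDiffOn ℝ n (uc (V k)) (univ ×ˢ Ioo s t)) (fun _ _ => True)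

/-- The limit. -/
noncomputable def Vlim (V : ℕ → Fld) : Fld := fun x t a =>
  V 0 x t a + ∑' k, (V (k + 1) x t a - V k x t a)

end ES
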