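import Pool.Agent.ES.RPCa

/-!
Project ES, Part III, module RPCb: the parameter conditions `mP`, `mP2`, `s2`.

`mP`: `8 m P ≤ 8·7n²/(200 n⁴) = 0.28/n² ≤ 1/(n(n+1))` (`ev_PN_le`).
`mP2`: `8 m P + 2 m ≤ 1`.
`s2`: `sigN n/sigN (n+1) = 2^(2β((n+2)³-(n+1)³)) ((n+2)/(n+1))⁴`, exponent
`2β(3n²+9n+7) ≤ 2n²+6n+5`, `((n+2)/(n+1))⁴ ≤ 16 = 2^4`, and `(1/2)^(nP) ≤ 2^(-n(2n+20))`.
-/

open Filter

namespace ES

private theorem RPCb_mP {n P : ℕ} (hn : 1 ≤ n) (hP : P ≤ 7 * n ^ 2) :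
    8 * mN n * P ≤ 28 / 100 / (n : ℝ) ^ 2 := by
  have hn0 : (0 : ℝ) < n := by exact_mod_cast hn
  have hP' : (P : ℝ) ≤ 7 * (n : ℝ) ^ 2 := by exact_mod_cast hP
  unfold mN
  have h1 : 8 * (1 / (200 * (n : ℝ) ^ 4)) * P ≤ 8 * (1 / (200 * (n : ℝ) ^ 4)) * (7 * (n : ℝ) ^ 2) :=
    mul_le_mul_of_nonneg_left hP' (by positivity)
  refine h1.trans (le_of_eq ?_)
  field_simp
  norm_num

theorem ev_mP {C0 : ℝ} (hC : 1 ≤ C0) (p : ℕ) {β : ℝ} (hβ0 : 0 ≤ β) (hβ : β < 1 / 3) :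
    ∀ᶠ n : ℕ in atTop, 8 * mN n * PN C0 p β n ≤ 1 / (n : ℝ) - 1 / ((n : ℝ) + 1) := by
  filter_upwards [ev_PN_le hC p hβ0 hβ, eventually_ge_atTop 1] with n hP hn
  have hn0 : (1 : ℝ) ≤ n := by exact_mod_cast hn
  refine (RPCb_mP hn hP).trans ?_
  have h1 : 1 / (n : ℝ) - 1 / ((n : ℝ) + 1) = 1 / ((n : ℝ) * (n + 1)) := by
    field_simp
    ring
  rw [h1, div_le_div_iff₀ (by positivity) (by positivity)]
  nlinarith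

theorem ev_mP2 {C0 : ℝ} (hC : 1 ≤ C0) (p : ℕ) {β : ℝ} (hβ0 : 0 ≤ β) (hβ : β < 1 / 3) :
    ∀ᶠ n : ℕ in atTop, 8 * mN n * PN C0 p β n + 2 * mN n ≤ 1 := by
  filter_upwards [ev_PN_le hC p hβ0 hβ, eventually_ge_atTop 1] with n hP hn
  have hn0 : (1 : ℝ) ≤ n := by exact_mod_cast hn
  have h1 := RPCb_mP hn hP
  have h2 : 28 / 100 / (n : ℝ) ^ 2 ≤ 28 / 100 := by
    apply div_le_self (by norm_num)
    nlinarith
  have h3 := mN_le hn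
  linarith

theorem ev_s2 {C0 : ℝ} (hC : 1 ≤ C0) (p : ℕ) {β : ℝ} (hβ0 : 0 ≤ β) (hβ : β < 1 / 3) :
    ∀ᶠ n : ℕ in atTop,
      sigN β n * ((1 / 2 : ℝ) ^ n) ^ PN C0 p β n ≤ sigN β (n + 1) := by
  filter_upwards [ev_le_PN hC p hβ0 hβ, eventually_ge_atTop 1] with n hP hn
  have hn0 : (1 : ℝ) ≤ n := by exact_mod_cast hn
  unfold sigN del
  have c1 : ((n + 1 : ℕ) : ℝ) = (n : ℝ) + 1 := by push_cast; ring
  have c2 : ((n + 1 + 1 : ℕ) : ℝ) = (n : ℝ) + 2 := by push_cast; ring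
  rw [c1, c2]
  set E1 : ℝ := (2 : ℝ) ^ (-(2 * β * ((n : ℝ) + 1) ^ 3)) with hE1
  have hE10 : 0 < E1 := Real.rpow_pos_of_pos (by norm_num) _
  -- the power of one half
  have h1 : ((1 / 2 : ℝ) ^ n) ^ PN C0 p β n ≤ (1 / 2 : ℝ) ^ (2 * n ^ 2 + 6 * n + 9) := by
    rw [← pow_mul]
    apply pow_le_pow_of_le_one (by norm_num) (by norm_num)
    have h2 : n * (2 * n + 20) ≤ n * PN C0 p β n := Nat.mul_le_mul_left _ hP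
    nlinarith
  -- the other exponential
  have h2 : E1 * (1 / 2 : ℝ) ^ (2 * n ^ 2 + 6 * n + 5) ≤ (2 : ℝ) ^ (-(2 * β * ((n : ℝ) + 2) ^ 3)) := by
    have h3 : (1 / 2 : ℝ) ^ (2 * n ^ 2 + 6 * n + 5)
        = (2 : ℝ) ^ (-(2 * (n : ℝ) ^ 2 + 6 * n + 5)) := by
      rw [Real.rpow_neg (by norm_num), one_div, inv_pow]
      congr 1
      rw [← Real.rpow_natCast]
      congr 1
      push_cast
      ring
    rw [h3, hE1, ← Real.rpow_add (by norm_num)]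
    apply Real.rpow_le_rpow_of_exponent_le (by norm_num)
    nlinarith [mul_nonneg hβ0 (by positivity : (0 : ℝ) ≤ 3 * (n : ℝ) ^ 2 + 9 * n + 7)]
  have h4 : 1 / ((n : ℝ) + 1) ^ 4 ≤ 16 / ((n : ℝ) + 2) ^ 4 := by
    rw [div_le_div_iff₀ (by positivity) (by positivity)]
    have h5 : ((n : ℝ) + 2) ^ 4 ≤ (2 * ((n : ℝ) + 1)) ^ 4 :=
      pow_le_pow_left₀ (by positivity) (by linarith) 4
    have h6 : (2 * ((n : ℝ) + 1)) ^ 4 = 16 * ((n : ℝ) + 1) ^ 4 := by ring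
    linarith
  have e1 : (1 / 2 : ℝ) ^ (2 * n ^ 2 + 6 * n + 9) = (1 / 2 : ℝ) ^ (2 * n ^ 2 + 6 * n + 5) / 16 := by
    rw [show 2 * n ^ 2 + 6 * n + 9 = (2 * n ^ 2 + 6 * n + 5) + 4 by ring, pow_add]
    norm_num
    ring
  calc E1 / ((n : ℝ) + 1) ^ 4 * ((1 / 2 : ℝ) ^ n) ^ PN C0 p β n
      ≤ E1 / ((n : ℝ) + 1) ^ 4 * (1 / 2 : ℝ) ^ (2 * n ^ 2 + 6 * n + 9) :=
        mul_le_mul_of_nonneg_left h1 (by positivity)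
    _ = (E1 * (1 / 2 : ℝ) ^ (2 * n ^ 2 + 6 * n + 5)) / 16 * (1 / ((n : ℝ) + 1) ^ 4) := by
        rw [e1]; ring
    _ ≤ (E1 * (1 / 2 : ℝ) ^ (2 * n ^ 2 + 6 * n + 5)) / 16 * (16 / ((n : ℝ) + 2) ^ 4) :=
        mul_le_mul_of_nonneg_left h4 (by positivity)
    _ = (E1 * (1 / 2 : ℝ) ^ (2 * n ^ 2 + 6 * n + 5)) / ((n : ℝ) + 2) ^ 4 := by ring
    _ ≤ _ := div_le_div_of_nonneg_right h2 (by positivity)

end ES
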