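import Pool.Agent.ES.RPar

/-!
Project ES, Part III, module RPCc: the parameter conditions `gw`, `kl`, `ex`, `w1`.

`gw`: `wN n ≤ √(C0 del n)` since `del` is decreasing (for `n ≥ 1`), and `2 ≤ 2 C0`.
`kl`: `2 KN n ≤ 2^((n+1)³-n³)` by `gauge` (exponent `3n²+3n+1 ≥ n`).
`ex`: `mN n · lamN(n+1)/(8 lamN n) = 2^(3n²+3n+1)/(1600 n⁴) ≥ 2^(n²)` eventually, and
`exp(-2^(n²)) ≤ 2^(-(n+1)³)` as `2^(n²) ≥ (n+1)³` eventually (`2 ≤ e`).
`w1`: `del` is decreasing.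
-/

open Filter

namespace ES

theorem del_anti {β : ℝ} (hβ0 : 0 ≤ β) {n : ℕ} (hn : 1 ≤ n) : del β (n + 1) ≤ del β n := by
  have hn1 : (1 : ℝ) ≤ n := by exact_mod_cast hn
  have hn0 : (0 : ℝ) < n := by linarith
  unfold del
  push_cast
  have h1 : (n : ℝ) ^ 3 ≤ ((n : ℝ) + 1) ^ 3 := pow_le_pow_left₀ hn0.le (by linarith) 3
  have h2 : (n : ℝ) ^ 4 ≤ ((n : ℝ) + 1) ^ 4 := pow_le_pow_left₀ hn0.le (by linarith) 4
  have h3 : (2 : ℝ) ^ (-(2 * β * ((n : ℝ) + 1) ^ 3)) ≤ (2 : ℝ) ^ (-(2 * β * (n : ℝ) ^ 3)) := by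
    apply Real.rpow_le_rpow_of_exponent_le one_le_two
    have := mul_le_mul_of_nonneg_left h1 (by positivity : 0 ≤ 2 * β)
    linarith
  exact div_le_div₀ (by positivity) h3 (by positivity) h2

theorem ev_gw {C0 : ℝ} (hC : 1 ≤ C0) {β : ℝ} (hβ0 : 0 ≤ β) {n : ℕ} (hn : 1 ≤ n) :
    2 * (lamN n : ℝ) * wN C0 β n ≤ gN C0 β n := by
  have hC0 : 0 ≤ C0 := by linarith
  have h1 : wN C0 β n ≤ Real.sqrt (C0 * del β n) :=
    Real.sqrt_le_sqrt (mul_le_mul_of_nonneg_left (del_anti hβ0 hn) hC0)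
  have hl := lamN_pos n
  have h0 : 0 ≤ Real.sqrt (C0 * del β n) := Real.sqrt_nonneg _
  have h2 : 2 * (lamN n : ℝ) * wN C0 β n ≤ 2 * (lamN n : ℝ) * Real.sqrt (C0 * del β n) :=
    mul_le_mul_of_nonneg_left h1 (by positivity)
  have h3 : 2 * (lamN n : ℝ) * Real.sqrt (C0 * del β n) ≤
      C0 * (2 * (lamN n : ℝ) * Real.sqrt (C0 * del β n)) :=
    le_mul_of_one_le_left (by positivity) hC
  have h4 : gN C0 β n = C0 * (2 * (lamN n : ℝ) * Real.sqrt (C0 * del β n)) := by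
    unfold gN; ring
  rw [h4]
  exact h2.trans h3

private theorem RPCc_lam (n : ℕ) :
    (lamN (n + 1) : ℝ) = lamN n * 2 ^ (3 * n ^ 2 + 3 * n + 1) := by
  have : lamN (n + 1) = lamN n * 2 ^ (3 * n ^ 2 + 3 * n + 1) := by
    unfold lamN
    rw [← pow_add]
    congr 1
    ring
  rw [this]
  push_cast
  ring

private theorem RPCc_KN {n : ℕ} (hn : 1 ≤ n) : KN n ≤ KN (n + 1) := by
  rw [KN_eq hn, KN_eq (by omega)]
  push_cast
  have h2 : (n : ℝ) ^ 4 ≤ ((n : ℝ) + 1) ^ 4 := pow_le_pow_left₀ (Nat.cast_nonneg n) (by linarith) 4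
  linarith

private theorem RPCc_two (n : ℕ) : (2 : ℝ) ^ n ≤ 2 ^ (3 * n ^ 2 + 3 * n + 1) :=
  pow_le_pow_right₀ one_le_two (by nlinarith)

theorem ev_kl : ∀ᶠ n : ℕ in atTop, KN n * (2 * (lamN n : ℝ)) ≤ lamN (n + 1) := by
  filter_upwards [gauge 2 1 0 one_pos, eventually_ge_atTop 1] with n h1 hn
  rw [one_mul, Real.rpow_natCast, pow_one, pow_zero, mul_one] at h1
  rw [RPCc_lam]
  have h2 := RPCc_KN hn
  have h3 := RPCc_two n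
  have h4 : 2 * KN n ≤ 2 ^ (3 * n ^ 2 + 3 * n + 1) := by linarith
  have h5 := mul_le_mul_of_nonneg_left h4 (lamN_pos n).le
  linarith

theorem ev_ex : ∀ᶠ n : ℕ in atTop,
    Real.exp (-(mN n * lamN (n + 1) / (8 * lamN n))) ≤ 1 / (lamN (n + 1) : ℝ) := by
  filter_upwards [gauge 1600 0 7 one_pos, eventually_ge_atTop 1] with n h1 hn
  rw [one_mul, Real.rpow_natCast, pow_zero, mul_one] at h1
  have hn1 : (1 : ℝ) ≤ n := by exact_mod_cast hn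
  have hn0 : (0 : ℝ) < n := by linarith
  have hl := lamN_pos n
  have hl1 := lamN_pos (n + 1)
  have h3 := RPCc_two n
  have e1 : mN n * lamN (n + 1) / (8 * lamN n) = 2 ^ (3 * n ^ 2 + 3 * n + 1) / (1600 * (n : ℝ) ^ 4) := by
    rw [RPCc_lam, mN]
    field_simp
    ring
  rw [e1, Real.exp_neg, one_div]
  apply inv_anti₀ hl1
  have h4 : ((n : ℝ) + 1) ^ 3 ≤ 2 ^ (3 * n ^ 2 + 3 * n + 1) / (1600 * (n : ℝ) ^ 4) := by
    rw [le_div_iff₀ (by positivity)]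
    have h5 : ((n : ℝ) + 1) ^ 3 ≤ ((n : ℝ) + 2) ^ 3 := pow_le_pow_left₀ (by positivity) (by linarith) 3
    have h6 : (n : ℝ) ^ 4 ≤ ((n : ℝ) + 2) ^ 4 := pow_le_pow_left₀ (by positivity) (by linarith) 4
    have h7 : ((n : ℝ) + 1) ^ 3 * (n : ℝ) ^ 4 ≤ ((n : ℝ) + 2) ^ 3 * ((n : ℝ) + 2) ^ 4 :=
      mul_le_mul h5 h6 (by positivity) (by positivity)
    calc ((n : ℝ) + 1) ^ 3 * (1600 * (n : ℝ) ^ 4) = 1600 * (((n : ℝ) + 1) ^ 3 * (n : ℝ) ^ 4) := by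
          ring
      _ ≤ 1600 * (((n : ℝ) + 2) ^ 3 * ((n : ℝ) + 2) ^ 4) := by linarith
      _ = 1600 * ((n : ℝ) + 2) ^ 7 := by ring
      _ ≤ 2 ^ n := h1
      _ ≤ _ := h3
  have h5 : (lamN (n + 1) : ℝ) ≤ Real.exp (((n : ℝ) + 1) ^ 3) := by
    have h6 : (lamN (n + 1) : ℝ) = 2 ^ ((n + 1) ^ 3) := by
      unfold lamN
      push_cast
      rfl
    have h7 : (((n : ℝ) + 1) ^ 3) = (((n + 1) ^ 3 : ℕ) : ℝ) * 1 := by push_cast; ring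
    rw [h6, h7, Real.exp_nat_mul]
    apply pow_le_pow_left₀ (by norm_num)
    linarith [Real.add_one_le_exp (1 : ℝ)]
  exact h5.trans (Real.exp_le_exp.2 h4)

theorem ev_w1 {C0 : ℝ} (hC : 1 ≤ C0) {β : ℝ} (hβ0 : 0 ≤ β) (n : ℕ) :
    wN C0 β (n + 1) ≤ wN C0 β n :=
  Real.sqrt_le_sqrt (mul_le_mul_of_nonneg_left (del_anti hβ0 (by omega : 1 ≤ n + 1)) (by linarith))

end ES
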