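import Pool.Agent.ES.RPar

/-!
Project ES, Part III, module RPCd: the parameter conditions `hg`, `nu`.

`hg`: `hN gN = 4^(-n)` (`hN_gN`) and `C0 KN^p ≤ (1/400) 2^n` eventually (`gauge`).
`nu`: `wN² = C0 sigN` (`wN_sq`), `hN gN = 4^(-n)`, `(2 lamN n/lamN(n+1))² = 4·2^(-2(3n²+3n+1)) ≤ 4^(-n)`,
so the left side is at most `C0² KN^p · 2 · 4^(-n) sigN n`, and `2 C0² KN^p ≤ 2^n` eventually.
-/

open Filter

namespace ES

private theorem RPCd_lam (n : ℕ) :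
    (lamN (n + 1) : ℝ) = lamN n * 2 ^ (3 * n ^ 2 + 3 * n + 1) := by
  have : lamN (n + 1) = lamN n * 2 ^ (3 * n ^ 2 + 3 * n + 1) := by
    unfold lamN
    rw [← pow_add]
    congr 1
    ring
  rw [this]
  push_cast
  ring

private theorem RPCd_KN {n : ℕ} (hn : 1 ≤ n) (p : ℕ) : KN n ^ p ≤ KN (n + 1) ^ p := by
  apply pow_le_pow_left₀ (by linarith [KN_pos hn])
  rw [KN_eq hn, KN_eq (by omega)]
  push_cast
  have h2 : (n : ℝ) ^ 4 ≤ ((n : ℝ) + 1) ^ 4 := pow_le_pow_left₀ (Nat.cast_nonneg n) (by linarith) 4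
  linarith

/-- `C KN^p (1/2)^n ≤ 1` eventually -/
private theorem RPCd_ev (C : ℝ) (hC : 0 ≤ C) (p : ℕ) :
    ∀ᶠ n : ℕ in atTop, C * KN n ^ p * (1 / 2) ^ n ≤ 1 := by
  filter_upwards [gauge C p 0 one_pos, eventually_ge_atTop 1] with n h1 hn
  rw [one_mul, Real.rpow_natCast, pow_zero, mul_one] at h1
  have h2 : C * KN n ^ p ≤ 2 ^ n := (mul_le_mul_of_nonneg_left (RPCd_KN hn p) hC).trans h1
  have h3 : C * KN n ^ p * (1 / 2) ^ n ≤ 2 ^ n * (1 / 2) ^ n :=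
    mul_le_mul_of_nonneg_right h2 (by positivity)
  have h4 : (2 : ℝ) ^ n * (1 / 2) ^ n = 1 := by
    rw [← mul_pow]
    norm_num
  linarith

private theorem RPCd_quarter (n : ℕ) : (1 / 4 : ℝ) ^ n = (1 / 2) ^ n * (1 / 2) ^ n := by
  rw [← mul_pow]
  norm_num

theorem ev_hg {C0 : ℝ} (hC : 1 ≤ C0) (p : ℕ) (β : ℝ) :
    ∀ᶠ n : ℕ in atTop,
      C0 * KN n ^ p * hN C0 β n * gN C0 β n ≤ 1 / 200 * (1 / 2) ^ (n + 1) := by
  filter_upwards [RPCd_ev (400 * C0) (by linarith) p, eventually_ge_atTop 1] with n h1 hn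
  have e1 : C0 * KN n ^ p * hN C0 β n * gN C0 β n = C0 * KN n ^ p * (hN C0 β n * gN C0 β n) := by ring
  rw [e1, hN_gN hC β hn, RPCd_quarter]
  have h2 : (0 : ℝ) < (1 / 2) ^ n := by positivity
  have h3 : (400 * C0 * KN n ^ p * (1 / 2) ^ n) * (1 / 2) ^ n ≤ 1 * (1 / 2) ^ n :=
    mul_le_mul_of_nonneg_right h1 h2.le
  rw [pow_succ]
  linarith

theorem ev_nu {C0 : ℝ} (hC : 1 ≤ C0) (p : ℕ) (β : ℝ) :
    ∀ᶠ n : ℕ in atTop, C0 * KN n ^ p * wN C0 β n ^ 2 *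
      (hN C0 β n * gN C0 β n + (2 * (lamN n : ℝ) / lamN (n + 1)) ^ 2) ≤
        (1 / 2) ^ n * sigN β n := by
  filter_upwards [RPCd_ev (2 * C0 ^ 2) (by positivity) p, eventually_ge_atTop 1] with n h1 hn
  have hs := sigN_pos β n
  have hl := lamN_pos n
  have hK : 0 < KN n := by linarith [KN_pos hn]
  have h2 : (0 : ℝ) < (1 / 2) ^ n := by positivity
  rw [wN_sq hC, hN_gN hC β hn]
  have e1 : 2 * (lamN n : ℝ) / lamN (n + 1) = 2 / 2 ^ (3 * n ^ 2 + 3 * n + 1) := by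
    rw [RPCd_lam]
    field_simp
  have e2 : 2 * (lamN n : ℝ) / lamN (n + 1) ≤ (1 / 2) ^ n := by
    rw [e1, div_le_iff₀ (by positivity)]
    have h3 : (2 : ℝ) ^ (n + 1) ≤ 2 ^ (3 * n ^ 2 + 3 * n + 1) :=
      pow_le_pow_right₀ one_le_two (by nlinarith)
    have h4 : (1 / 2 : ℝ) ^ n * 2 ^ (n + 1) = 2 := by
      rw [pow_succ, ← mul_assoc, ← mul_pow]
      norm_num
    have h5 := mul_le_mul_of_nonneg_left h3 h2.le
    linarith
  have e3 : (2 * (lamN n : ℝ) / lamN (n + 1)) ^ 2 ≤ (1 / 4) ^ n := by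
    rw [RPCd_quarter, ← sq]
    exact pow_le_pow_left₀ (by positivity) e2 2
  have h3 : C0 * KN n ^ p * (C0 * sigN β n) *
      ((1 / 4) ^ n + (2 * (lamN n : ℝ) / lamN (n + 1)) ^ 2) ≤
      C0 * KN n ^ p * (C0 * sigN β n) * ((1 / 4) ^ n + (1 / 4) ^ n) :=
    mul_le_mul_of_nonneg_left (by linarith) (by positivity)
  refine h3.trans ?_
  have e4 : C0 * KN n ^ p * (C0 * sigN β n) * ((1 / 4) ^ n + (1 / 4) ^ n) =
      (2 * C0 ^ 2 * KN n ^ p * (1 / 2) ^ n) * ((1 / 2) ^ n * sigN β n) := by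
    rw [RPCd_quarter]
    ring
  rw [e4]
  have := mul_le_mul_of_nonneg_right h1 (by positivity : 0 ≤ (1 / 2) ^ n * sigN β n)
  linarith

end ES
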