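import Pool.Agent.ES.RPar

/-!
Project ES, Part III, module RPCe: the parameter conditions `g1`, `g2`.

`gN (n+1) = 2 C0 lamN(n+1) wN n`.  `gN n/(lamN(n+1) wN n)
 = 2 C0 2^(-(1-β)((n+1)³-n³)) ((n+1)/n)²` (as `√(C0 del n)/√(C0 del (n+1)) = 2^(β((n+1)³-n³)) ((n+1)/n)²`),
and `(1-β)(3n²+3n+1) ≥ 2n²` for `β < 1/3`; with `gauge` this gives
`KN^p gN n ≤ lamN(n+1) wN n` (hence `g1`, as `C0 (1+1) = 2 C0`) and `2 gN n ≤ gN(n+1)`.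
-/

open Filter

namespace ES

theorem gN_succ (C0 β : ℝ) (n : ℕ) :
    gN C0 β (n + 1) = 2 * C0 * (lamN (n + 1) : ℝ) * wN C0 β n := rfl

private theorem RPCe_KN {n : ℕ} (hn : 1 ≤ n) (p : ℕ) : KN n ^ p ≤ KN (n + 1) ^ p := by
  apply pow_le_pow_left₀ (by linarith [KN_pos hn])
  rw [KN_eq hn, KN_eq (by omega)]
  push_cast
  have h2 : (n : ℝ) ^ 4 ≤ ((n : ℝ) + 1) ^ 4 := pow_le_pow_left₀ (Nat.cast_nonneg n) (by linarith) 4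
  linarith

theorem ev_KgN {C0 : ℝ} (hC : 1 ≤ C0) (p : ℕ) {β : ℝ} (hβ0 : 0 ≤ β) (hβ : β < 1 / 3) :
    ∀ᶠ n : ℕ in atTop, KN n ^ p * gN C0 β n ≤ (lamN (n + 1) : ℝ) * wN C0 β n := by
  filter_upwards [gauge (2 * C0) p 2 one_pos, eventually_ge_atTop 1] with n h1 hn
  have hC0 : 0 < C0 := by linarith
  have hn1 : (1 : ℝ) ≤ n := by exact_mod_cast hn
  have hn0 : (0 : ℝ) < n := by linarith
  have hK : 0 < KN n := by linarith [KN_pos hn]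
  have hK1 : 0 < KN (n + 1) := by linarith [KN_pos (by omega : 1 ≤ n + 1)]
  unfold gN wN
  rw [sqrt_del hC β hn, sqrt_del hC β (by omega : 1 ≤ n + 1), lamN_rpow, lamN_rpow]
  push_cast
  set s := Real.sqrt C0 with hs
  have hs0 : 0 < s := Real.sqrt_pos.2 hC0
  -- the left side
  have e1 : KN n ^ p * (2 * C0 * (2 : ℝ) ^ ((n : ℝ) ^ 3) *
      (s * (2 : ℝ) ^ (-(β * (n : ℝ) ^ 3)) / (n : ℝ) ^ 2)) =
      (2 * C0 * KN n ^ p / (n : ℝ) ^ 2) * (s * (2 : ℝ) ^ ((1 - β) * (n : ℝ) ^ 3)) := by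
    have : (2 : ℝ) ^ ((1 - β) * (n : ℝ) ^ 3) =
        (2 : ℝ) ^ ((n : ℝ) ^ 3) * (2 : ℝ) ^ (-(β * (n : ℝ) ^ 3)) := by
      rw [← Real.rpow_add (by norm_num)]
      congr 1
      ring
    rw [this]
    ring
  have e2 : (2 : ℝ) ^ (((n : ℝ) + 1) ^ 3) *
      (s * (2 : ℝ) ^ (-(β * ((n : ℝ) + 1) ^ 3)) / ((n : ℝ) + 1) ^ 2) =
      ((2 : ℝ) ^ ((1 - β) * (3 * (n : ℝ) ^ 2 + 3 * n + 1)) / ((n : ℝ) + 1) ^ 2) *
        (s * (2 : ℝ) ^ ((1 - β) * (n : ℝ) ^ 3)) := by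
    have : (2 : ℝ) ^ (((n : ℝ) + 1) ^ 3) * (2 : ℝ) ^ (-(β * ((n : ℝ) + 1) ^ 3)) =
        (2 : ℝ) ^ ((1 - β) * (3 * (n : ℝ) ^ 2 + 3 * n + 1)) * (2 : ℝ) ^ ((1 - β) * (n : ℝ) ^ 3) := by
      rw [← Real.rpow_add (by norm_num), ← Real.rpow_add (by norm_num)]
      congr 1
      ring
    calc _ = ((2 : ℝ) ^ (((n : ℝ) + 1) ^ 3) * (2 : ℝ) ^ (-(β * ((n : ℝ) + 1) ^ 3))) * s /
          ((n : ℝ) + 1) ^ 2 := by ring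
      _ = _ := by rw [this]; ring
  rw [e1, e2]
  refine mul_le_mul_of_nonneg_right ?_ (by positivity)
  -- `2 C0 KN^p / n² ≤ 2^(...)/(n+1)²`
  have h2 : (2 : ℝ) ^ ((1 : ℝ) * n) ≤ (2 : ℝ) ^ ((1 - β) * (3 * (n : ℝ) ^ 2 + 3 * n + 1)) := by
    apply Real.rpow_le_rpow_of_exponent_le one_le_two
    have h3 : (2 / 3 : ℝ) ≤ 1 - β := by linarith
    have h4 : 2 / 3 * (3 * (n : ℝ) ^ 2 + 3 * n + 1) ≤ (1 - β) * (3 * (n : ℝ) ^ 2 + 3 * n + 1) :=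
      mul_le_mul_of_nonneg_right h3 (by positivity)
    nlinarith
  have h3 : 2 * C0 * KN n ^ p * ((n : ℝ) + 1) ^ 2 ≤
      2 * C0 * KN (n + 1) ^ p * ((n : ℝ) + 2) ^ 2 := by
    have h4 : ((n : ℝ) + 1) ^ 2 ≤ ((n : ℝ) + 2) ^ 2 :=
      pow_le_pow_left₀ (by positivity) (by linarith) 2
    have h5 : 2 * C0 * KN n ^ p ≤ 2 * C0 * KN (n + 1) ^ p :=
      mul_le_mul_of_nonneg_left (RPCe_KN hn p) (by positivity)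
    exact mul_le_mul h5 h4 (by positivity) (by positivity)
  have h4 : 2 * C0 * KN n ^ p * ((n : ℝ) + 1) ^ 2 ≤
      (2 : ℝ) ^ ((1 - β) * (3 * (n : ℝ) ^ 2 + 3 * n + 1)) := by linarith
  rw [div_le_div_iff₀ (by positivity) (by positivity)]
  have h5 : (1 : ℝ) ≤ (n : ℝ) ^ 2 := one_le_pow₀ hn1
  have h6 : (2 : ℝ) ^ ((1 - β) * (3 * (n : ℝ) ^ 2 + 3 * n + 1)) * 1 ≤
      (2 : ℝ) ^ ((1 - β) * (3 * (n : ℝ) ^ 2 + 3 * n + 1)) * (n : ℝ) ^ 2 :=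
    mul_le_mul_of_nonneg_left h5 (by positivity)
  linarith

theorem ev_g1 {C0 : ℝ} (hC : 1 ≤ C0) (p : ℕ) {β : ℝ} (hβ0 : 0 ≤ β) (hβ : β < 1 / 3) :
    ∀ᶠ n : ℕ in atTop,
      C0 * ((lamN (n + 1) : ℝ) * wN C0 β n + KN n ^ p * gN C0 β n) ≤ gN C0 β (n + 1) := by
  filter_upwards [ev_KgN hC p hβ0 hβ] with n h1
  rw [gN_succ]
  have h2 := mul_le_mul_of_nonneg_left h1 (by linarith : 0 ≤ C0)
  linarith

theorem ev_g2 {C0 : ℝ} (hC : 1 ≤ C0) {β : ℝ} (hβ0 : 0 ≤ β) (hβ : β < 1 / 3) :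
    ∀ᶠ n : ℕ in atTop, 2 * gN C0 β n ≤ gN C0 β (n + 1) := by
  filter_upwards [ev_KgN hC 0 hβ0 hβ] with n h1
  rw [pow_zero, one_mul] at h1
  rw [gN_succ]
  have h0 : 0 ≤ (lamN (n + 1) : ℝ) * wN C0 β n :=
    mul_nonneg (lamN_pos _).le (wN_pos hC β n).le
  have h2 : (lamN (n + 1) : ℝ) * wN C0 β n ≤ C0 * ((lamN (n + 1) : ℝ) * wN C0 β n) :=
    le_mul_of_one_le_left h0 hC
  linarith

end ES
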