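import Pool.Agent.ES.RPCe

/-!
Project ES, Part III, module RPCf: the parameter conditions `s1`, `A1`.

`lN (n+1) = 2 C0 KN(n+1)^p wN n/(lamN(n+1) sigN(n+1))`, so
`C0 KN n^p/lamN(n+1) · wN n/lN(n+1) = (KN n/KN(n+1))^p sigN(n+1)/2 ≤ sigN(n+1)/2`.
Second half: `C0 KN n^p gN n wN n/lamN(n+1) ≤ sigN(n+1)/2` eventually:
`gN n wN n/(lamN(n+1) sigN(n+1)) = 2 C0² 2^(-e(n)) (n+2)⁴/(n²(n+1)²)`,
`e(n) = 3(1-3β)n² + (3-21β)n + (1-15β) ≥ 2n` eventually, `gauge`.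
`A1`: `C0 KN^p (gN wN + wN/lN(n+1)) ≤ lamN(n+1) sigN(n+1)` by `s1`; `sigN(n+1) ≤ wN n` eventually and
`gN n ≤ gN(n+1)/2`, `gN(n+1)/2 = C0 lamN(n+1) wN n ≥ lamN(n+1) wN n`.
-/

open Filter

namespace ES

theorem lN_succ (C0 : ℝ) (p : ℕ) (β : ℝ) (n : ℕ) :
    lN C0 p β (n + 1) =
      2 * C0 * KN (n + 1) ^ p * wN C0 β n / ((lamN (n + 1) : ℝ) * sigN β (n + 1)) := rfl

/-- the quadratic exponent is eventually at least `n` -/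
private theorem RPCf_exp {β : ℝ} (hβ : β < 1 / 3) :
    ∀ᶠ n : ℕ in atTop, (n : ℝ) ≤
      3 * (1 - 3 * β) * (n : ℝ) ^ 2 + (3 - 21 * β) * n + (1 - 15 * β) := by
  have h0 : 0 < 3 * (1 - 3 * β) := by linarith
  have h1 : ∀ᶠ n : ℕ in atTop, 10 / (3 * (1 - 3 * β)) ≤ (n : ℝ) :=
    tendsto_natCast_atTop_atTop.eventually_ge_atTop _
  filter_upwards [h1, eventually_ge_atTop 1] with n hn hn1
  have hn0 : (1 : ℝ) ≤ n := by exact_mod_cast hn1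
  rw [div_le_iff₀ h0] at hn
  have h2 : 10 * (n : ℝ) ≤ 3 * (1 - 3 * β) * (n : ℝ) ^ 2 := by nlinarith
  nlinarith

/-- the product of the gradient and the amplitude -/
private theorem RPCf_gw {C0 : ℝ} (hC : 1 ≤ C0) (β : ℝ) {n : ℕ} (hn : 1 ≤ n) :
    gN C0 β n * wN C0 β n / (lamN (n + 1) : ℝ)
      = 2 * C0 ^ 2 * (2 : ℝ) ^ (-(3 * (1 - 3 * β) * (n : ℝ) ^ 2 + (3 - 21 * β) * n + (1 - 15 * β)))
        * (((n : ℝ) + 2) ^ 4 / ((n : ℝ) ^ 2 * ((n : ℝ) + 1) ^ 2)) * sigN β (n + 1) := by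
  have hn0 : (0 : ℝ) < n := by exact_mod_cast hn
  have c1 : ((n + 1 : ℕ) : ℝ) = (n : ℝ) + 1 := by push_cast; ring
  have c2 : ((n + 1 + 1 : ℕ) : ℝ) = (n : ℝ) + 2 := by push_cast; ring
  have hs : Real.sqrt C0 * Real.sqrt C0 = C0 := Real.mul_self_sqrt (by linarith)
  have e1 : wN C0 β n = Real.sqrt C0 * (2 : ℝ) ^ (-(β * ((n : ℝ) + 1) ^ 3)) / ((n : ℝ) + 1) ^ 2 := by
    unfold wN
    rw [sqrt_del hC β (by omega : 1 ≤ n + 1), c1]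
  have e2 : gN C0 β n = 2 * C0 * (2 : ℝ) ^ ((n : ℝ) ^ 3)
      * (Real.sqrt C0 * (2 : ℝ) ^ (-(β * (n : ℝ) ^ 3)) / (n : ℝ) ^ 2) := by
    unfold gN
    rw [sqrt_del hC β hn, lamN_rpow]
  have e3 : (lamN (n + 1) : ℝ) = (2 : ℝ) ^ (((n : ℝ) + 1) ^ 3) := by rw [lamN_rpow, c1]
  have e4 : sigN β (n + 1) = (2 : ℝ) ^ (-(2 * β * ((n : ℝ) + 2) ^ 3)) / ((n : ℝ) + 2) ^ 4 := by
    unfold sigN del
    rw [c2]
  have key : (2 : ℝ) ^ ((n : ℝ) ^ 3) * (2 : ℝ) ^ (-(β * (n : ℝ) ^ 3))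
      * (2 : ℝ) ^ (-(β * ((n : ℝ) + 1) ^ 3))
      = (2 : ℝ) ^ (-(3 * (1 - 3 * β) * (n : ℝ) ^ 2 + (3 - 21 * β) * n + (1 - 15 * β)))
        * (2 : ℝ) ^ (-(2 * β * ((n : ℝ) + 2) ^ 3)) * (2 : ℝ) ^ (((n : ℝ) + 1) ^ 3) := by
    rw [← Real.rpow_add (by norm_num), ← Real.rpow_add (by norm_num),
      ← Real.rpow_add (by norm_num), ← Real.rpow_add (by norm_num)]
    congr 1
    ring
  rw [e1, e2, e3, e4]
  have hL : (0 : ℝ) < (2 : ℝ) ^ (((n : ℝ) + 1) ^ 3) := Real.rpow_pos_of_pos (by norm_num) _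
  generalize (2 : ℝ) ^ ((n : ℝ) ^ 3) = a1 at key ⊢
  generalize (2 : ℝ) ^ (-(β * (n : ℝ) ^ 3)) = a2 at key ⊢
  generalize (2 : ℝ) ^ (-(β * ((n : ℝ) + 1) ^ 3)) = a3 at key ⊢
  generalize (2 : ℝ) ^ (-(3 * (1 - 3 * β) * (n : ℝ) ^ 2 + (3 - 21 * β) * n + (1 - 15 * β))) = a4
    at key ⊢
  generalize (2 : ℝ) ^ (-(2 * β * ((n : ℝ) + 2) ^ 3)) = a5 at key ⊢
  generalize (2 : ℝ) ^ (((n : ℝ) + 1) ^ 3) = a6 at key hL ⊢
  have hn1 : (n : ℝ) + 1 ≠ 0 := by positivity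
  have hn2 : (n : ℝ) + 2 ≠ 0 := by positivity
  have e5 : 2 * C0 * a1 * (Real.sqrt C0 * a2 / (n : ℝ) ^ 2) * (Real.sqrt C0 * a3 / ((n : ℝ) + 1) ^ 2)
      / a6 = 2 * C0 * (Real.sqrt C0 * Real.sqrt C0) * (a1 * a2 * a3)
        / ((n : ℝ) ^ 2 * ((n : ℝ) + 1) ^ 2 * a6) := by
    field_simp
  rw [e5, key, hs]
  field_simp

private theorem RPCf_second {C0 : ℝ} (hC : 1 ≤ C0) (p : ℕ) {β : ℝ} (hβ : β < 1 / 3) : ∀ᶠ n : ℕ in atTop,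
      C0 * KN n ^ p / (lamN (n + 1) : ℝ) * (gN C0 β n * wN C0 β n) ≤ sigN β (n + 1) / 2 := by
  filter_upwards [RPCf_exp hβ, gauge (4 * C0 ^ 3) p 4 (a := 1) one_pos,
    eventually_ge_atTop 1] with n he hg hn
  have hn0 : (1 : ℝ) ≤ n := by exact_mod_cast hn
  have hσ := sigN_pos β (n + 1)
  have hK0 := KN_pos hn
  have hKK : KN n ≤ KN (n + 1) := by
    rw [KN_eq hn, KN_eq (by omega : 1 ≤ n + 1)]
    have : (n : ℝ) ^ 4 ≤ ((n + 1 : ℕ) : ℝ) ^ 4 :=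
      pow_le_pow_left₀ (by positivity) (by push_cast; linarith) 4
    linarith
  have e1 : C0 * KN n ^ p / (lamN (n + 1) : ℝ) * (gN C0 β n * wN C0 β n)
      = C0 * KN n ^ p * (gN C0 β n * wN C0 β n / (lamN (n + 1) : ℝ)) := by ring
  rw [e1, RPCf_gw hC β hn]
  set e : ℝ := 3 * (1 - 3 * β) * (n : ℝ) ^ 2 + (3 - 21 * β) * n + (1 - 15 * β) with hedef
  have h1 : (2 : ℝ) ^ (-e) ≤ (2 : ℝ) ^ (-(1 * (n : ℝ))) :=
    Real.rpow_le_rpow_of_exponent_le (by norm_num) (by linarith)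
  have h2 : ((n : ℝ) + 2) ^ 4 / ((n : ℝ) ^ 2 * ((n : ℝ) + 1) ^ 2) ≤ ((n : ℝ) + 2) ^ 4 := by
    apply div_le_self (by positivity)
    have : (1 : ℝ) ≤ (n : ℝ) ^ 2 := one_le_pow₀ hn0
    have h3 : (1 : ℝ) ≤ ((n : ℝ) + 1) ^ 2 := one_le_pow₀ (by linarith)
    exact one_le_mul_of_one_le_of_one_le this h3
  have h3 : KN n ^ p ≤ KN (n + 1) ^ p := pow_le_pow_left₀ (by linarith) hKK p
  have h4 : 4 * C0 ^ 3 * KN n ^ p * ((n : ℝ) + 2) ^ 4 ≤ (2 : ℝ) ^ (1 * (n : ℝ)) := by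
    refine le_trans ?_ hg
    exact mul_le_mul_of_nonneg_right (mul_le_mul_of_nonneg_left h3 (by positivity)) (by positivity)
  have h5 : (2 : ℝ) ^ (-(1 * (n : ℝ))) * (2 : ℝ) ^ (1 * (n : ℝ)) = 1 := by
    rw [← Real.rpow_add (by norm_num)]; simp
  have hp0 : (0 : ℝ) < (2 : ℝ) ^ (-(1 * (n : ℝ))) := Real.rpow_pos_of_pos (by norm_num) _
  have h6 : (2 : ℝ) ^ (-e) * (((n : ℝ) + 2) ^ 4 / ((n : ℝ) ^ 2 * ((n : ℝ) + 1) ^ 2))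
      ≤ (2 : ℝ) ^ (-(1 * (n : ℝ))) * ((n : ℝ) + 2) ^ 4 :=
    mul_le_mul h1 h2 (by positivity) hp0.le
  have h7 : 4 * C0 ^ 3 * KN n ^ p * ((2 : ℝ) ^ (-e)
      * (((n : ℝ) + 2) ^ 4 / ((n : ℝ) ^ 2 * ((n : ℝ) + 1) ^ 2))) ≤ 1 := by
    have h8 := mul_le_mul_of_nonneg_left h6 (by positivity : 0 ≤ 4 * C0 ^ 3 * KN n ^ p)
    have h9 := mul_le_mul_of_nonneg_left h4 hp0.le
    rw [h5] at h9
    refine h8.trans (le_trans (le_of_eq ?_) h9)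
    ring
  have h10 := mul_le_mul_of_nonneg_right h7 (by positivity : 0 ≤ sigN β (n + 1) / 2)
  refine le_trans (le_of_eq ?_) (h10.trans (le_of_eq (one_mul _)))
  ring

private theorem RPCf_first {C0 : ℝ} (hC : 1 ≤ C0) (p : ℕ) (β : ℝ) {n : ℕ} (hn : 1 ≤ n) :
    C0 * KN n ^ p / (lamN (n + 1) : ℝ) * (wN C0 β n / lN C0 p β (n + 1)) ≤ sigN β (n + 1) / 2 := by
  have hσ := sigN_pos β (n + 1)
  have hK0 := KN_pos hn
  have hK1 := KN_pos (by omega : 1 ≤ n + 1)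
  have hw := wN_pos hC β n
  have hl := lamN_pos (n + 1)
  have hKK : KN n ≤ KN (n + 1) := by
    rw [KN_eq hn, KN_eq (by omega : 1 ≤ n + 1)]
    have : (n : ℝ) ^ 4 ≤ ((n + 1 : ℕ) : ℝ) ^ 4 :=
      pow_le_pow_left₀ (by positivity) (by push_cast; linarith) 4
    linarith
  have h3 : KN n ^ p ≤ KN (n + 1) ^ p := pow_le_pow_left₀ (by linarith) hKK p
  have hKp : 0 < KN (n + 1) ^ p := by positivity
  have hC0 : 0 < C0 := by linarith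
  have e1 : C0 * KN n ^ p / (lamN (n + 1) : ℝ) * (wN C0 β n / lN C0 p β (n + 1))
      = KN n ^ p / KN (n + 1) ^ p * (sigN β (n + 1) / 2) := by
    have h4 : lN C0 p β (n + 1) =
      2 * C0 * KN (n + 1) ^ p * wN C0 β n / ((lamN (n + 1) : ℝ) * sigN β (n + 1)) := rfl
    rw [h4]
    field_simp
  rw [e1]
  have h5 : KN n ^ p / KN (n + 1) ^ p ≤ 1 := (div_le_one hKp).2 h3
  have := mul_le_mul_of_nonneg_right h5 (by positivity : 0 ≤ sigN β (n + 1) / 2)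
  linarith

theorem ev_s1 {C0 : ℝ} (hC : 1 ≤ C0) (p : ℕ) {β : ℝ} (hβ0 : 0 ≤ β) (hβ : β < 1 / 3) :
    ∀ᶠ n : ℕ in atTop, C0 * KN n ^ p / (lamN (n + 1) : ℝ) *
      (wN C0 β n / lN C0 p β (n + 1) + gN C0 β n * wN C0 β n) ≤ sigN β (n + 1) := by
  filter_upwards [RPCf_second hC p hβ, eventually_ge_atTop 1] with n h2 hn
  have h1 := RPCf_first hC p β hn
  rw [mul_add]
  linarith

theorem sigN_le_wN {C0 : ℝ} (hC : 1 ≤ C0) {β : ℝ} (hβ0 : 0 ≤ β) (n : ℕ) :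
    sigN β (n + 1) ≤ wN C0 β n := by
  have h1 : 0 < del β (n + 1) := del_pos β (by omega)
  have c1 : ((n + 1 : ℕ) : ℝ) = (n : ℝ) + 1 := by push_cast; ring
  have c2 : ((n + 1 + 1 : ℕ) : ℝ) = (n : ℝ) + 2 := by push_cast; ring
  have hn0 : (0 : ℝ) ≤ n := Nat.cast_nonneg _
  have h2 : del β (n + 1 + 1) ≤ del β (n + 1) := by
    unfold del
    rw [c1, c2]
    have h3 : (2 : ℝ) ^ (-(2 * β * ((n : ℝ) + 2) ^ 3)) ≤ (2 : ℝ) ^ (-(2 * β * ((n : ℝ) + 1) ^ 3)) := by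
      apply Real.rpow_le_rpow_of_exponent_le (by norm_num)
      have h4 : ((n : ℝ) + 1) ^ 3 ≤ ((n : ℝ) + 2) ^ 3 :=
        pow_le_pow_left₀ (by linarith) (by linarith) 3
      have := mul_le_mul_of_nonneg_left h4 (by linarith : 0 ≤ 2 * β)
      linarith
    have h5 : ((n : ℝ) + 1) ^ 4 ≤ ((n : ℝ) + 2) ^ 4 :=
      pow_le_pow_left₀ (by linarith) (by linarith) 4
    have h6 : (0 : ℝ) ≤ (2 : ℝ) ^ (-(2 * β * ((n : ℝ) + 1) ^ 3)) :=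
      (Real.rpow_pos_of_pos (by norm_num) _).le
    exact div_le_div₀ h6 h3 (by positivity) h5
  have h3 : del β (n + 1) ≤ 1 := by
    unfold del
    rw [c1, div_le_one (by positivity)]
    have h4 : (2 : ℝ) ^ (-(2 * β * ((n : ℝ) + 1) ^ 3)) ≤ 1 := by
      apply Real.rpow_le_one_of_one_le_of_nonpos (by norm_num)
      have : 0 ≤ β * ((n : ℝ) + 1) ^ 3 := by positivity
      linarith
    have h5 : (1 : ℝ) ≤ ((n : ℝ) + 1) ^ 4 := one_le_pow₀ (by linarith)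
    linarith
  have h4 : del β (n + 1) ≤ Real.sqrt (C0 * del β (n + 1)) := by
    apply Real.le_sqrt_of_sq_le
    nlinarith
  calc sigN β (n + 1) = del β (n + 1 + 1) := rfl
    _ ≤ del β (n + 1) := h2
    _ ≤ wN C0 β n := h4

theorem ev_A1 {C0 : ℝ} (hC : 1 ≤ C0) (p : ℕ) {β : ℝ} (hβ0 : 0 ≤ β) (hβ : β < 1 / 3) :
    ∀ᶠ n : ℕ in atTop, gN C0 β n + C0 * KN n ^ p *
      (gN C0 β n * wN C0 β n + wN C0 β n / lN C0 p β (n + 1)) ≤ gN C0 β (n + 1) := by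
  filter_upwards [ev_s1 hC p hβ0 hβ, ev_g2 hC hβ0 hβ] with n h1 h2
  have hl := lamN_pos (n + 1)
  have h3 : C0 * KN n ^ p * (gN C0 β n * wN C0 β n + wN C0 β n / lN C0 p β (n + 1))
      ≤ lamN (n + 1) * sigN β (n + 1) := by
    have h4 := mul_le_mul_of_nonneg_left h1 hl.le
    refine le_trans (le_of_eq ?_) h4
    field_simp
    ring
  have h5 := sigN_le_wN hC hβ0 n
  have h6 : (lamN (n + 1) : ℝ) * sigN β (n + 1) ≤ gN C0 β (n + 1) / 2 := by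
    rw [gN_succ]
    have h7 := mul_le_mul_of_nonneg_left h5 hl.le
    have h8 : 0 < wN C0 β n := wN_pos hC β n
    have h9 : (lamN (n + 1) : ℝ) * wN C0 β n ≤ C0 * ((lamN (n + 1) : ℝ) * wN C0 β n) :=
      le_mul_of_one_le_left (by positivity) hC
    linarith
  linarith

end ES
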