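import Pool.Agent.ES.RPCa

/-!
Project ES, Part III, module RPCg: the parameter conditions `hl`, `hl'`, `cnt`.

From `lN_div_hN`: `lN n/hN n ≥ 1` for `n ≥ 1` (all factors are at least `1`, `β ≥ 0`).
`cnt`: `2·4C0·lN/hN·(6P+1) = 2^(2β(..)) · [32 C0⁴ KN^p 4^n ((n+1)/n)⁴ (6P+1)]` and the bracket is at
most `2^(8n+4)` eventually (`ev_PN_le`, `gauge`).
-/

open Filter

namespace ES

private theorem RPCg_cube (n : ℕ) : 0 ≤ ((n : ℝ) + 1) ^ 3 - (n : ℝ) ^ 3 := by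
  have h : ((n : ℝ) + 1) ^ 3 - (n : ℝ) ^ 3 = 3 * (n : ℝ) ^ 2 + 3 * n + 1 := by ring
  rw [h]
  positivity

theorem hN_le_lN {C0 : ℝ} (hC : 1 ≤ C0) (p : ℕ) {β : ℝ} (hβ0 : 0 ≤ β) {n : ℕ} (hn : 1 ≤ n) :
    hN C0 β n ≤ lN C0 p β n := by
  rw [← one_le_div (hN_pos hC β hn), lN_div_hN hC p β hn]
  have h1 : (1 : ℝ) ≤ C0 ^ 3 := one_le_pow₀ hC
  have h2 : (1 : ℝ) ≤ KN n ^ p := one_le_pow₀ (KN_pos hn)
  have h3 : (1 : ℝ) ≤ 4 ^ n := one_le_pow₀ (by norm_num)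
  have h4 : (1 : ℝ) ≤ (2 : ℝ) ^ (2 * β * (((n : ℝ) + 1) ^ 3 - (n : ℝ) ^ 3)) :=
    Real.one_le_rpow (by norm_num) (mul_nonneg (by positivity) (RPCg_cube n))
  have hn0 : (0 : ℝ) < n := by exact_mod_cast hn
  have h5 : (1 : ℝ) ≤ (((n : ℝ) + 1) / n) ^ 4 := by
    refine one_le_pow₀ ?_
    rw [one_le_div hn0]
    linarith
  have h6 : (1 : ℝ) ≤ (2 : ℝ) ^ (2 * β * (((n : ℝ) + 1) ^ 3 - (n : ℝ) ^ 3)) *
      (((n : ℝ) + 1) / n) ^ 4 := one_le_mul_of_one_le_of_one_le h4 h5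
  have h7 : (1 : ℝ) ≤ 4 * C0 ^ 3 := by linarith
  exact one_le_mul_of_one_le_of_one_le
    (one_le_mul_of_one_le_of_one_le (one_le_mul_of_one_le_of_one_le h7 h2) h3) h6

theorem ev_cnt {C0 : ℝ} (hC : 1 ≤ C0) (p : ℕ) {β : ℝ} (hβ0 : 0 ≤ β) (hβ : β < 1 / 3) :
    ∀ᶠ n : ℕ in atTop,
      2 * (4 * C0 * lN C0 p β n) / hN C0 β n * (6 * (PN C0 p β n : ℝ) + 1) ≤
        (2 : ℝ) ^ (2 * β * (((n : ℝ) + 1) ^ 3 - (n : ℝ) ^ 3) + 4 * (2 * (n : ℝ) + 1)) := by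
  have hg := gauge (32 * C0 ^ 4 * 16 * 43) p 2 (a := 1) one_pos
  filter_upwards [hg, ev_PN_le hC p hβ0 hβ, eventually_ge_atTop 1] with n h1 h2 hn
  have hn0 : (0 : ℝ) < n := by exact_mod_cast hn
  have hn1 : (1 : ℝ) ≤ n := by exact_mod_cast hn
  have hC0 : 0 < C0 := by linarith
  have e1 : 2 * (4 * C0 * lN C0 p β n) / hN C0 β n = 8 * C0 * (lN C0 p β n / hN C0 β n) := by
    ring
  rw [e1, lN_div_hN hC p β hn, Real.rpow_add (by norm_num)]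
  set X : ℝ := (2 : ℝ) ^ (2 * β * (((n : ℝ) + 1) ^ 3 - (n : ℝ) ^ 3)) with hX
  have hX0 : 0 < X := by positivity
  have hK : KN n ≤ KN (n + 1) := by
    rw [KN_eq hn, KN_eq (by omega)]
    have : (n : ℝ) ^ 4 ≤ ((n + 1 : ℕ) : ℝ) ^ 4 := by
      gcongr
      linarith
    linarith
  have hK1 : 1 ≤ KN n := KN_pos hn
  have hKp : KN n ^ p ≤ KN (n + 1) ^ p := pow_le_pow_left₀ (by linarith) hK p
  have hKp0 : 0 < KN n ^ p := by positivity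
  have hKp1 : 0 ≤ KN (n + 1) ^ p := hKp0.le.trans hKp
  have hr : (((n : ℝ) + 1) / n) ^ 4 ≤ 16 := by
    have h3 : ((n : ℝ) + 1) / n ≤ 2 := by
      rw [div_le_iff₀ hn0]
      linarith
    calc (((n : ℝ) + 1) / n) ^ 4 ≤ 2 ^ 4 := pow_le_pow_left₀ (by positivity) h3 4
      _ = 16 := by norm_num
  have hP : 6 * (PN C0 p β n : ℝ) + 1 ≤ 43 * ((n : ℝ) + 2) ^ 2 := by
    have h3 : (PN C0 p β n : ℝ) ≤ 7 * (n : ℝ) ^ 2 := by exact_mod_cast h2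
    nlinarith
  have hP0 : 0 ≤ 6 * (PN C0 p β n : ℝ) + 1 := by positivity
  have key : 32 * C0 ^ 4 * KN n ^ p * (((n : ℝ) + 1) / n) ^ 4 * (6 * (PN C0 p β n : ℝ) + 1) ≤
      (2 : ℝ) ^ (1 * (n : ℝ)) := by
    refine le_trans ?_ h1
    calc 32 * C0 ^ 4 * KN n ^ p * (((n : ℝ) + 1) / n) ^ 4 * (6 * (PN C0 p β n : ℝ) + 1)
        ≤ 32 * C0 ^ 4 * KN (n + 1) ^ p * 16 * (43 * ((n : ℝ) + 2) ^ 2) := by
          have h5 : 0 ≤ 32 * C0 ^ 4 * KN (n + 1) ^ p := mul_nonneg (by positivity) hKp1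
          refine mul_le_mul (mul_le_mul ?_ hr (by positivity) h5) hP hP0 (by positivity)
          exact mul_le_mul_of_nonneg_left hKp (by positivity)
      _ = 32 * C0 ^ 4 * 16 * 43 * KN (n + 1) ^ p * ((n : ℝ) + 2) ^ 2 := by ring
  have h4n : (4 : ℝ) ^ n = (2 : ℝ) ^ (2 * (n : ℝ)) := by
    rw [Real.rpow_mul (by norm_num), Real.rpow_natCast]
    norm_num
  calc 8 * C0 * (4 * C0 ^ 3 * KN n ^ p * 4 ^ n * (X * (((n : ℝ) + 1) / n) ^ 4)) *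
        (6 * (PN C0 p β n : ℝ) + 1)
      = X * (4 ^ n * (32 * C0 ^ 4 * KN n ^ p * (((n : ℝ) + 1) / n) ^ 4 *
          (6 * (PN C0 p β n : ℝ) + 1))) := by ring
    _ ≤ X * ((2 : ℝ) ^ (2 * (n : ℝ)) * (2 : ℝ) ^ (1 * (n : ℝ))) := by
        rw [h4n]
        gcongr
    _ = X * (2 : ℝ) ^ (2 * (n : ℝ) + 1 * (n : ℝ)) := by rw [Real.rpow_add (by norm_num)]
    _ ≤ X * (2 : ℝ) ^ (4 * (2 * (n : ℝ) + 1)) := by
        refine mul_le_mul_of_nonneg_left ?_ hX0.le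
        exact Real.rpow_le_rpow_of_exponent_le (by norm_num) (by linarith)

end ES
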