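import Pool.Agent.ES.RPCe

/-!
Project ES, Part III, module RPCh: limits and summability of the parameters.

`wN n ≤ √C0/(n+1)²` (`sqrt_del`, `β ≥ 0`).  `gN (n+1)`, `lN`, `sigN` explicit.
Hoelder sum: `wN n^(1-β) (gN(n+1))^β ≤ 2 C0² /(n+1)²`: with `q = √C0 2^(-β(n+1)³)/(n+1)²`,
`wN n = q`, `gN(n+1) = 2 C0 2^((n+1)³) q`, so the product is `(2 C0)^β 2^(β(n+1)³) q
= (2C0)^β √C0/(n+1)²`.
`lN n ≤ 2^(-(1-3β)n³ + O(n²))`: exponent `-(n³) - β n³ + 2β(n+1)³`; tends to `0` since `β < 1/3 < 1`.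
-/

open Filter Topology

namespace ES

private theorem RPCh_sq : Summable fun n : ℕ => 1 / ((n : ℝ) + 1) ^ 2 := by
  have h := (summable_nat_add_iff 1).mpr (Real.summable_one_div_nat_pow.mpr (le_refl 2))
  refine h.congr fun n => ?_
  push_cast
  rfl

private theorem RPCh_wN {C0 : ℝ} (hC : 1 ≤ C0) (β : ℝ) (n : ℕ) :
    wN C0 β n = Real.sqrt C0 * (2 : ℝ) ^ (-(β * ((n : ℝ) + 1) ^ 3)) / ((n : ℝ) + 1) ^ 2 := by
  have h := sqrt_del hC β (n := n + 1) (by omega)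
  unfold wN
  rw [h]
  push_cast
  rfl

private theorem RPCh_pow_le (x : ℝ) (hx : 0 ≤ x) : (2 : ℝ) ^ (-x) ≤ 1 :=
  Real.rpow_le_one_of_one_le_of_nonpos (by norm_num) (by linarith)

theorem summable_wN {C0 : ℝ} (hC : 1 ≤ C0) {β : ℝ} (hβ0 : 0 ≤ β) :
    Summable fun n : ℕ => wN C0 β n := by
  refine Summable.of_nonneg_of_le (fun n => (wN_pos hC β n).le) (fun n => ?_)
    (RPCh_sq.mul_left (Real.sqrt C0))
  rw [RPCh_wN hC β n, mul_div_assoc]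
  refine mul_le_mul_of_nonneg_left ?_ (Real.sqrt_nonneg _)
  exact div_le_div_of_nonneg_right
    (RPCh_pow_le _ (mul_nonneg hβ0 (by positivity))) (by positivity)

theorem summable_hoelder {C0 : ℝ} (hC : 1 ≤ C0) {β : ℝ} (hβ0 : 0 ≤ β) (hβ : β < 1 / 3) :
    Summable fun n : ℕ => wN C0 β n ^ (1 - β) * gN C0 β (n + 1) ^ β := by
  refine (RPCh_sq.mul_left ((2 * C0) ^ β * Real.sqrt C0)).congr fun n => ?_
  have hw := wN_pos hC β n
  have hL : (0 : ℝ) < lamN (n + 1) := lamN_pos (n + 1)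
  have hC0 : 0 < 2 * C0 := by linarith
  rw [gN_succ, Real.mul_rpow (mul_pos hC0 hL).le hw.le, Real.mul_rpow hC0.le hL.le]
  have h1 : wN C0 β n ^ (1 - β) * wN C0 β n ^ β = wN C0 β n := by
    rw [← Real.rpow_add hw]
    rw [show 1 - β + β = 1 by ring, Real.rpow_one]
  have h2 : (lamN (n + 1) : ℝ) ^ β * (2 : ℝ) ^ (-(β * ((n : ℝ) + 1) ^ 3)) = 1 := by
    rw [lamN_rpow, ← Real.rpow_mul (by norm_num), ← Real.rpow_add (by norm_num)]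
    rw [show (((n + 1 : ℕ) : ℝ) ^ 3 * β + -(β * ((n : ℝ) + 1) ^ 3)) = 0 by push_cast; ring,
      Real.rpow_zero]
  calc (2 * C0) ^ β * Real.sqrt C0 * (1 / ((n : ℝ) + 1) ^ 2)
      = (2 * C0) ^ β * (Real.sqrt C0 * ((lamN (n + 1) : ℝ) ^ β *
        (2 : ℝ) ^ (-(β * ((n : ℝ) + 1) ^ 3))) / ((n : ℝ) + 1) ^ 2) := by rw [h2]; ring
    _ = (2 * C0) ^ β * ((lamN (n + 1) : ℝ) ^ β * wN C0 β n) := by
        rw [RPCh_wN hC β n]; ring
    _ = (2 * C0) ^ β * ((lamN (n + 1) : ℝ) ^ β * (wN C0 β n ^ (1 - β) * wN C0 β n ^ β)) := by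
        rw [h1]
    _ = wN C0 β n ^ (1 - β) * ((2 * C0) ^ β * (lamN (n + 1) : ℝ) ^ β * wN C0 β n ^ β) := by ring

theorem tendsto_gN {C0 : ℝ} (hC : 1 ≤ C0) {β : ℝ} (hβ0 : 0 ≤ β) (hβ : β < 1 / 3) :
    Tendsto (fun n : ℕ => gN C0 β n) atTop atTop := by
  obtain ⟨N, hN⟩ := eventually_atTop.mp ((ev_g2 hC hβ0 hβ).and (eventually_ge_atTop 1))
  have hN1 : 1 ≤ N := (hN N le_rfl).2
  have hpos := gN_pos hC β hN1
  have h : ∀ k : ℕ, gN C0 β N * 2 ^ k ≤ gN C0 β (k + N) := by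
    intro k
    induction k with
    | zero => simp
    | succ k ih =>
      have h1 := (hN (k + N) (Nat.le_add_left _ _)).1
      rw [show k + 1 + N = k + N + 1 by ring]
      calc gN C0 β N * 2 ^ (k + 1) = 2 * (gN C0 β N * 2 ^ k) := by ring
        _ ≤ 2 * gN C0 β (k + N) := by linarith
        _ ≤ _ := h1
  rw [← tendsto_add_atTop_iff_nat N]
  refine tendsto_atTop_mono h ?_
  exact (tendsto_pow_atTop_atTop_of_one_lt (by norm_num)).const_mul_atTop hpos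

theorem tendsto_sigN {β : ℝ} (hβ0 : 0 ≤ β) :
    Tendsto (fun n : ℕ => sigN β n) atTop (𝓝 0) := by
  refine squeeze_zero (fun n => (sigN_pos β n).le) (fun n => ?_)
    tendsto_one_div_add_atTop_nhds_zero_nat
  unfold sigN del
  have h1 : (1 : ℝ) ≤ ((n + 1 : ℕ) : ℝ) := by
    push_cast
    linarith [Nat.cast_nonneg (α := ℝ) n]
  have h2 : ((n + 1 : ℕ) : ℝ) ≤ ((n + 1 : ℕ) : ℝ) ^ 4 := le_self_pow₀ h1 (by norm_num)
  have h3 : ((n : ℝ) + 1) = ((n + 1 : ℕ) : ℝ) := by push_cast; rfl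
  rw [h3]
  exact div_le_div₀ (by norm_num) (RPCh_pow_le _ (by positivity)) (by linarith) h2

theorem tendsto_lN {C0 : ℝ} (hC : 1 ≤ C0) (p : ℕ) {β : ℝ} (hβ0 : 0 ≤ β) (hβ : β < 1 / 3) :
    Tendsto (fun n : ℕ => lN C0 p β n) atTop (𝓝 0) := by
  rw [← tendsto_add_atTop_iff_nat 1]
  have hlim : Tendsto (fun n : ℕ => (1 / 2 : ℝ) ^ n) atTop (𝓝 0) :=
    tendsto_pow_atTop_nhds_zero_of_lt_one (by norm_num) (by norm_num)
  refine squeeze_zero' (Eventually.of_forall fun n => (lN_pos hC p β (by omega)).le) ?_ hlim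
  filter_upwards [gauge (2 * C0 * Real.sqrt C0) p 4 (a := 1) one_pos, eventually_ge_atTop 6]
    with n hg hn
  have hn' : (6 : ℝ) ≤ n := by exact_mod_cast hn
  have hK : 0 < KN (n + 1) := lt_of_lt_of_le one_pos (KN_pos (by omega))
  have hs : 0 ≤ Real.sqrt C0 := Real.sqrt_nonneg _
  have hx : lN C0 p β (n + 1) = (2 * C0 * Real.sqrt C0 * KN (n + 1) ^ p * ((n : ℝ) + 2) ^ 4) *
      (1 / ((n : ℝ) + 1) ^ 2) *
      (2 : ℝ) ^ (-(β * ((n : ℝ) + 1) ^ 3) - ((n : ℝ) + 1) ^ 3 + 2 * β * ((n : ℝ) + 2) ^ 3) := by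
    unfold lN sigN
    rw [sqrt_del hC β (n := n + 1) (by omega), lamN_rpow]
    unfold del
    rw [Real.rpow_add (by norm_num), Real.rpow_sub (by norm_num)]
    push_cast
    rw [show (n : ℝ) + 1 + 1 = n + 2 by ring]
    rw [Real.rpow_neg (by norm_num : (0 : ℝ) ≤ 2) (2 * β * ((n : ℝ) + 2) ^ 3)]
    have e1 : (2 : ℝ) ^ (((n : ℝ) + 1) ^ 3) ≠ 0 := (Real.rpow_pos_of_pos (by norm_num) _).ne'
    have e2 : (2 : ℝ) ^ (2 * β * ((n : ℝ) + 2) ^ 3) ≠ 0 :=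
      (Real.rpow_pos_of_pos (by norm_num) _).ne'
    have e3 : ((n : ℝ) + 1) ≠ 0 := by positivity
    have e4 : ((n : ℝ) + 2) ≠ 0 := by positivity
    field_simp
  rw [hx]
  have hexp : (2 : ℝ) ^ (-(β * ((n : ℝ) + 1) ^ 3) - ((n : ℝ) + 1) ^ 3 +
      2 * β * ((n : ℝ) + 2) ^ 3) ≤ (2 : ℝ) ^ (-(2 * (n : ℝ))) := by
    refine Real.rpow_le_rpow_of_exponent_le (by norm_num) ?_
    have h1 : 0 ≤ 2 * ((n : ℝ) + 2) ^ 3 - ((n : ℝ) + 1) ^ 3 := by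
      nlinarith [pow_nonneg (by linarith : (0 : ℝ) ≤ n) 3, pow_nonneg (by linarith : (0 : ℝ) ≤ n) 2]
    have h2 : β * (2 * ((n : ℝ) + 2) ^ 3 - ((n : ℝ) + 1) ^ 3) ≤
        1 / 3 * (2 * ((n : ℝ) + 2) ^ 3 - ((n : ℝ) + 1) ^ 3) :=
      mul_le_mul_of_nonneg_right hβ.le h1
    have h3 : 6 * (n : ℝ) ^ 2 ≤ (n : ℝ) ^ 3 := by nlinarith [sq_nonneg (n : ℝ)]
    have h4 : 6 * (n : ℝ) ≤ (n : ℝ) ^ 2 := by nlinarith
    nlinarith
  have hg' : 2 * C0 * Real.sqrt C0 * KN (n + 1) ^ p * ((n : ℝ) + 2) ^ 4 ≤ (2 : ℝ) ^ (n : ℝ) := by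
    rw [one_mul] at hg
    exact hg
  have h5 : 1 / ((n : ℝ) + 1) ^ 2 ≤ 1 := by
    rw [div_le_one (by positivity)]
    nlinarith
  have h6 : 0 ≤ 2 * C0 * Real.sqrt C0 * KN (n + 1) ^ p * ((n : ℝ) + 2) ^ 4 := by positivity
  calc _ ≤ (2 : ℝ) ^ (n : ℝ) * 1 * (2 : ℝ) ^ (-(2 * (n : ℝ))) := by
        refine mul_le_mul (mul_le_mul hg' h5 (by positivity) (by positivity)) hexp
          (by positivity) (by positivity)
    _ = (1 / 2 : ℝ) ^ n := by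
        rw [mul_one, ← Real.rpow_add (by norm_num), one_div, inv_pow, ← Real.rpow_natCast,
          ← Real.rpow_neg (by norm_num)]
        congr 1
        ring

end ES
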