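import Pool.Agent.ES.RPar

/-!
Project ES, Part III, module RPCi: the exponent of the dimension.

For `d > 2β/(1-β)`: `2^(2β n³ + 4n²) (4 C0 lN n)^d ≤ 1` eventually:
`lN n = 2 C0 KN^p √C0 2^(-β n³) n^(-2) 2^(-n³) 2^(2β(n+1)³) (n+1)⁴`, hence
`lN n ≤ 2^(-(1-β) n³ + 9 n²)` eventually (`gauge`; `2β(3n²+3n+1) ≤ 2(3n²+3n+1)/3 ≤ 5n²`), and
`2β n³ + 4n² - d((1-β)n³ - 10 n²) → -∞`.
-/

open Filter

namespace ES

private theorem RPCi_lN {C0 : ℝ} (hC : 1 ≤ C0) (p : ℕ) (β : ℝ) {n : ℕ} (hn : 1 ≤ n) :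
    lN C0 p β n = 2 * C0 * Real.sqrt C0 * KN n ^ p * (((n : ℝ) + 1) ^ 4 / (n : ℝ) ^ 2)
      * (2 : ℝ) ^ (-((1 - β) * (n : ℝ) ^ 3) + 2 * β * (3 * (n : ℝ) ^ 2 + 3 * n + 1)) := by
  have hn0 : (0 : ℝ) < n := by exact_mod_cast hn
  have c1 : ((n + 1 : ℕ) : ℝ) = (n : ℝ) + 1 := by push_cast; ring
  have e4 : sigN β n = (2 : ℝ) ^ (-(2 * β * ((n : ℝ) + 1) ^ 3)) / ((n : ℝ) + 1) ^ 4 := by
    unfold sigN del
    rw [c1]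
  have key : (2 : ℝ) ^ (-(β * (n : ℝ) ^ 3))
      = (2 : ℝ) ^ (-((1 - β) * (n : ℝ) ^ 3) + 2 * β * (3 * (n : ℝ) ^ 2 + 3 * n + 1))
        * (2 : ℝ) ^ ((n : ℝ) ^ 3) * (2 : ℝ) ^ (-(2 * β * ((n : ℝ) + 1) ^ 3)) := by
    rw [← Real.rpow_add (by norm_num), ← Real.rpow_add (by norm_num)]
    congr 1
    ring
  unfold lN
  rw [sqrt_del hC β hn, lamN_rpow, e4, key]
  have h1 : (0 : ℝ) < (2 : ℝ) ^ ((n : ℝ) ^ 3) := Real.rpow_pos_of_pos (by norm_num) _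
  have h2 : (0 : ℝ) < (2 : ℝ) ^ (-(2 * β * ((n : ℝ) + 1) ^ 3)) :=
    Real.rpow_pos_of_pos (by norm_num) _
  generalize (2 : ℝ) ^ ((n : ℝ) ^ 3) = a1 at h1 ⊢
  generalize (2 : ℝ) ^ (-(2 * β * ((n : ℝ) + 1) ^ 3)) = a2 at h2 ⊢
  generalize (2 : ℝ) ^ (-((1 - β) * (n : ℝ) ^ 3) + 2 * β * (3 * (n : ℝ) ^ 2 + 3 * n + 1)) = a3
  have hn1 : (n : ℝ) + 1 ≠ 0 := by positivity
  field_simp

private theorem RPCi_le {C0 : ℝ} (hC : 1 ≤ C0) (p : ℕ) {β : ℝ} (hβ : β < 1 / 3) :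
    ∀ᶠ n : ℕ in atTop, 4 * C0 * lN C0 p β n
      ≤ (2 : ℝ) ^ (-((1 - β) * (n : ℝ) ^ 3) + 6 * (n : ℝ) ^ 2) := by
  filter_upwards [gauge (8 * C0 ^ 2 * Real.sqrt C0) p 4 (a := 1) one_pos,
    eventually_ge_atTop 1] with n hg hn
  have hn0 : (1 : ℝ) ≤ n := by exact_mod_cast hn
  have hK0 := KN_pos hn
  have hKK : KN n ≤ KN (n + 1) := by
    rw [KN_eq hn, KN_eq (by omega : 1 ≤ n + 1)]
    have : (n : ℝ) ^ 4 ≤ ((n + 1 : ℕ) : ℝ) ^ 4 :=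
      pow_le_pow_left₀ (by positivity) (by push_cast; linarith) 4
    linarith
  have h3 : KN n ^ p ≤ KN (n + 1) ^ p := pow_le_pow_left₀ (by linarith) hKK p
  have hs0 : 0 ≤ Real.sqrt C0 := Real.sqrt_nonneg _
  have h1 : ((n : ℝ) + 1) ^ 4 / (n : ℝ) ^ 2 ≤ ((n : ℝ) + 2) ^ 4 := by
    have h2 : ((n : ℝ) + 1) ^ 4 / (n : ℝ) ^ 2 ≤ ((n : ℝ) + 1) ^ 4 :=
      div_le_self (by positivity) (one_le_pow₀ hn0)
    exact h2.trans (pow_le_pow_left₀ (by positivity) (by linarith) 4)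
  have h4 : 8 * C0 ^ 2 * Real.sqrt C0 * KN n ^ p * (((n : ℝ) + 1) ^ 4 / (n : ℝ) ^ 2)
      ≤ (2 : ℝ) ^ (1 * (n : ℝ)) := by
    refine le_trans ?_ hg
    have hC0 : 0 < C0 := by linarith
    have hK1 : 0 < KN (n + 1) := by linarith
    exact mul_le_mul (mul_le_mul_of_nonneg_left h3 (by positivity)) h1 (by positivity)
      (by positivity)
  rw [RPCi_lN hC p β hn]
  have hp : (0 : ℝ) < (2 : ℝ) ^ (-((1 - β) * (n : ℝ) ^ 3) + 2 * β * (3 * (n : ℝ) ^ 2 + 3 * n + 1)) :=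
    Real.rpow_pos_of_pos (by norm_num) _
  have h5 := mul_le_mul_of_nonneg_right h4 hp.le
  refine le_trans (le_of_eq (by ring)) (h5.trans ?_)
  rw [← Real.rpow_add (by norm_num)]
  apply Real.rpow_le_rpow_of_exponent_le (by norm_num)
  nlinarith [mul_nonneg (by linarith : (0 : ℝ) ≤ 1 / 3 - β)
    (by positivity : (0 : ℝ) ≤ 3 * (n : ℝ) ^ 2 + 3 * n + 1)]

theorem ev_dim {C0 : ℝ} (hC : 1 ≤ C0) (p : ℕ) {β : ℝ} (hβ0 : 0 ≤ β) (hβ : β < 1 / 3) {d : ℝ}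
    (hd : 2 * β / (1 - β) < d) :
    ∀ᶠ n : ℕ in atTop,
      (2 : ℝ) ^ (2 * β * (n : ℝ) ^ 3 + 4 * (n : ℝ) ^ 2) * (4 * C0 * lN C0 p β n) ^ d ≤ 1 := by
  have h1β : 0 < 1 - β := by linarith
  have hd0 : 0 < d := lt_of_le_of_lt (div_nonneg (by linarith) h1β.le) hd
  rw [div_lt_iff₀ h1β] at hd
  set g : ℝ := d * (1 - β) - 2 * β with hg
  have hg0 : 0 < g := by linarith
  have hev : ∀ᶠ n : ℕ in atTop, (4 + 6 * d) / g ≤ (n : ℝ) :=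
    tendsto_natCast_atTop_atTop.eventually_ge_atTop _
  filter_upwards [RPCi_le hC p hβ, hev, eventually_ge_atTop 1] with n h1 h2 hn
  have hl : 0 < lN C0 p β n := lN_pos hC p β hn
  have hC0 : 0 < C0 := by linarith
  have h3 : (4 * C0 * lN C0 p β n) ^ d
      ≤ ((2 : ℝ) ^ (-((1 - β) * (n : ℝ) ^ 3) + 6 * (n : ℝ) ^ 2)) ^ d :=
    Real.rpow_le_rpow (by positivity) h1 hd0.le
  rw [← Real.rpow_mul (by norm_num)] at h3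
  have hp : (0 : ℝ) < (2 : ℝ) ^ (2 * β * (n : ℝ) ^ 3 + 4 * (n : ℝ) ^ 2) :=
    Real.rpow_pos_of_pos (by norm_num) _
  refine (mul_le_mul_of_nonneg_left h3 hp.le).trans ?_
  rw [← Real.rpow_add (by norm_num)]
  apply Real.rpow_le_one_of_one_le_of_nonpos (by norm_num)
  rw [div_le_iff₀ hg0] at h2
  have h4 := mul_le_mul_of_nonneg_right h2 (sq_nonneg (n : ℝ))
  have e : 2 * β * (n : ℝ) ^ 3 + 4 * (n : ℝ) ^ 2
      + (-((1 - β) * (n : ℝ) ^ 3) + 6 * (n : ℝ) ^ 2) * d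
      = (4 + 6 * d) * (n : ℝ) ^ 2 - (n : ℝ) * g * (n : ℝ) ^ 2 := by rw [hg]; ring
  rw [e]
  linarith

end ES
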