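import Pool.Agent.ES.RPCa
import Pool.Agent.ES.RPCb
import Pool.Agent.ES.RPCc
import Pool.Agent.ES.RPCd
import Pool.Agent.ES.RPCe
import Pool.Agent.ES.RPCf
import Pool.Agent.ES.RPCg
import Pool.Agent.ES.RPCh
import Pool.Agent.ES.RPCi

/-!
Project ES, Part III, module RPC: all parameter conditions hold for large `n` (assembly, complete).
-/

open Filter

namespace ES

theorem ev_PC {C0 : ℝ} (hC : 1 ≤ C0) (p : ℕ) {β : ℝ} (hβ0 : 0 ≤ β) (hβ : β < 1 / 3) :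
    ∀ᶠ n : ℕ in atTop, PC C0 p β n := by
  filter_upwards [ev_mP hC p hβ0 hβ, ev_mP2 hC p hβ0 hβ, ev_kl, ev_ex, ev_hg hC p β, ev_nu hC p β,
    ev_lr hC p hβ0 hβ, ev_lr2 hC p hβ0 hβ, ev_g1 hC p hβ0 hβ, ev_g2 hC hβ0 hβ, ev_s1 hC p hβ0 hβ,
    ev_s2 hC p hβ0 hβ, ev_A1 hC p hβ0 hβ, ev_cnt hC p hβ0 hβ, eventually_ge_atTop 4] with n
    h1 h2 h3 h4 h5 h6 h7 h8 h9 h10 h11 h12 h13 h14 h15
  exact
    { n4 := h15
      mP := h1
      mP2 := h2
      gw := ev_gw hC hβ0 (by omega)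
      kl := h3
      ex := h4
      hg := h5
      nu := h6
      lr := h7
      lr2 := h8
      g1 := h9
      g2 := h10
      s1 := h11
      s2 := h12
      A1 := h13
      hl := hN_le_lN hC p hβ0 (by omega)
      hl' := hN_le_lN hC p hβ0 (by omega)
      w1 := ev_w1 hC hβ0 n
      cnt := h14 }

end ES
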