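import Pool.Agent.ES.RWfA

/-!
Project ES, Part III, module RWfC: gluing of the weak formulation.

`WE.cat`: `∫_s^u + ∫_u^t = ∫_s^t` (`wf_cont` gives integrability) and `pr V φ t - pr V φ s` telescopes.
`PT.Valid.we`: induction on the tree (`Valid.lt`).
-/

open MeasureTheory Set Filter Topology

namespace ES

theorem WE.cat {V : Fld} {s u t ε : ℝ} (hsu : s ≤ u) (hut : u ≤ t)
    (hV : ContinuousOn (uc V) (univ ×ˢ Icc s t)) (h1 : WE V s u ε) (h2 : WE V u t ε) :
    WE V s t ε := by
  intro φ hφ Λ hΛ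
  have hc := wf_cont hV hφ
  have i1 : IntervalIntegrable (fun τ => wf V φ τ) volume s u := by
    apply ContinuousOn.intervalIntegrable
    rw [uIcc_of_le hsu]
    exact hc.mono (Icc_subset_Icc le_rfl hut)
  have i2 : IntervalIntegrable (fun τ => wf V φ τ) volume u t := by
    apply ContinuousOn.intervalIntegrable
    rw [uIcc_of_le hut]
    exact hc.mono (Icc_subset_Icc hsu le_rfl)
  have e := intervalIntegral.integral_add_adjacent_intervals i1 i2
  have a1 := h1 φ hφ Λ hΛ
  have a2 := h2 φ hφ Λ hΛ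
  rw [← e]
  have e2 : (∫ τ in s..u, wf V φ τ) + (∫ τ in u..t, wf V φ τ) - (pr V φ t - pr V φ s) =
      ((∫ τ in s..u, wf V φ τ) - (pr V φ u - pr V φ s)) +
        ((∫ τ in u..t, wf V φ τ) - (pr V φ t - pr V φ u)) := by ring
  rw [e2]
  refine (abs_add_le _ _).trans ((add_le_add a1 a2).trans (le_of_eq (by ring)))

/-- Gluing of the weak formulation over the leaves. -/
theorem PT.Valid.we {V : Fld} {ε : ℝ} {G B : ℝ → ℝ → Prop} {τ : PT} (h : τ.Valid G B)
    (hV : ContinuousOn (uc V) (univ ×ˢ Icc τ.lo τ.hi))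
    (hG : ∀ s t, G s t → WE V s t ε) (hB : ∀ s t, B s t → WE V s t ε) : WE V τ.lo τ.hi ε := by
  induction τ with
  | ex s t => exact hG s t h.2
  | bd s t => exact hB s t h.2
  | cat l r ihl ihr =>
    obtain ⟨hl, hr, he⟩ := h
    have l1 : l.lo < l.hi := hl.lt
    have l2 : r.lo < r.hi := hr.lt
    have hlo : (PT.cat l r).lo = l.lo := rfl
    have hhi : (PT.cat l r).hi = r.hi := rfl
    rw [hlo, hhi] at hV ⊢
    have h1 := ihl hl (hV.mono (prod_mono le_rfl (Icc_subset_Icc le_rfl (by rw [he]; exact l2.le))))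
    have h2 := ihr hr (hV.mono (prod_mono le_rfl (Icc_subset_Icc (by rw [← he]; exact l1.le) le_rfl)))
    rw [← he] at h2
    exact WE.cat l1.le (by rw [he]; exact l2.le) hV h1 h2

end ES
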