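import Pool.Agent.ES.RSeq
import Pool.Agent.ES.RPC
import Pool.Agent.ES.RLimD
import Pool.Agent.ES.RWfC

/-!
Project ES, Part III, module R2Da: the stages form an abstract sequence.

`e k = C0 wN (n0+k)`, `Λ k = gN (n0+k) (1 + 8 (1 + v))`, `v = 2 + ∑' C0 wN (n0+k)`,
`ε k = 4 (2π)² sigN (n0+k)`.  On every leaf of stage `k` the field `V k` is represented by good data
(`ExP`, `BdP`) with `g, A ≤ gN (n0+k)`, stress `0` or `sigN`, `0 < ρ`, `0 ≤ c ≤ 1/10`
(on bad leaves `ρ = rN > 0`, `0 ≤ cN ≤ 1/200`): use `BIFacts.lip`, `per`, `divf`, `weak`, `smooth` and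
`PT.Valid.lp`, `PT.Valid.we` (continuity by `Lp.cont_on`), `PT.Valid.leaf`, `PT.Valid.mono`.
-/

open MeasureTheory Set Filter Topology

namespace ES

private theorem R2Da_lp_mono {V : Fld} {s t Λ Λ' : ℝ} (h : Lp V s t Λ) (hΛ : Λ ≤ Λ') : Lp V s t Λ' := by
  intro τ hτ τ' hτ' x y a
  refine (h τ hτ τ' hτ' x y a).trans (mul_le_mul_of_nonneg_right hΛ ?_)
  positivity

private theorem R2Da_we_mono {V : Fld} {s t ε ε' : ℝ} (h : WE V s t ε) (hst : s ≤ t) (hε : ε ≤ ε') :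
    WE V s t ε' := by
  intro φ hφ Λ hΛ
  have hΛ0 : 0 ≤ Λ := (abs_nonneg _).trans (hΛ 0 0 0 0)
  refine (h φ hφ Λ hΛ).trans ?_
  exact mul_le_mul_of_nonneg_right (mul_le_mul_of_nonneg_right hε (sub_nonneg.2 hst)) hΛ0

/-- common form of the two kinds of pieces -/
private theorem R2Da_piece {C0 : ℝ} {β Lm : ℝ} {n : ℕ} (hn : 4 ≤ n) {V : Fld} {s t : ℝ}
    (h : ExP C0 β n V s t ∨ BdP C0 β Lm n V s t) :
    ∃ lam g σ ρ c A : ℝ, BI V s t lam g σ ρ c A ∧ 0 < ρ ∧ 0 ≤ c ∧ c ≤ 1 / 10 ∧ g ≤ gN C0 β n ∧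
      A ≤ gN C0 β n ∧ σ ≤ sigN β n := by
  rcases h with ⟨lam, g, ρ, c, A, h1, h2, h3, h4, h5, h6⟩ | ⟨_, _, lam, g, _, _, _, h1, h2⟩
  · exact ⟨lam, g, 0, ρ, c, A, h1, h2, h3, h4, h5, h6, (sigN_pos β n).le⟩
  · have h0 : (0 : ℝ) < n := by exact_mod_cast (by omega : 0 < n)
    have h3 : (0 : ℝ) ≤ (1 / 2) ^ n := by positivity
    have h4 : ((1 : ℝ) / 2) ^ n ≤ 1 := pow_le_one₀ (by norm_num) (by norm_num)
    refine ⟨lam, g, sigN β n, rN n, cN n, gN C0 β n, h2, ?_, ?_, ?_, h1, le_rfl, le_rfl⟩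
    · unfold rN
      positivity
    · unfold cN
      linarith
    · unfold cN
      linarith

theorem RSt.lseq (hF : BIFacts) {C0 : ℝ} (hC : 1 ≤ C0) {p : ℕ} {β : ℝ} (hβ0 : 0 ≤ β)
    (hβ : β < 1 / 3) {n0 : ℕ} (hP : ∀ n, n0 ≤ n → PC C0 p β n) {T0 : ℝ} (hT0 : 0 < T0)
    {V0 : Fld} (hV0 : ∀ x t a, |V0 x t a| ≤ 2) {V : ℕ → Fld} {τ : ℕ → PT}
    (h : RSt C0 p β n0 T0 V0 V τ) :
    ∃ v : ℝ, LSeq T0 V τ (fun k => C0 * wN C0 β (n0 + k))
      (fun k => gN C0 β (n0 + k) * (1 + 8 * (1 + v)))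
      (fun k => 4 * (2 * Real.pi) ^ 2 * sigN β (n0 + k)) v ∧ 0 ≤ v := by
  have hsum : Summable fun k : ℕ => C0 * wN C0 β (n0 + k) := by
    have h1 := (summable_nat_add_iff n0).2 (summable_wN hC hβ0)
    refine (h1.congr fun k => ?_).mul_left C0
    rw [add_comm]
  have he0 : ∀ k : ℕ, 0 ≤ C0 * wN C0 β (n0 + k) := fun k =>
    mul_nonneg (by linarith) (wN_pos hC β _).le
  have hn4 : ∀ k : ℕ, 4 ≤ n0 + k := fun k => (hP (n0 + k) (Nat.le_add_right _ _)).n4
  obtain ⟨v, hv⟩ : ∃ v, v = 2 + ∑' k, C0 * wN C0 β (n0 + k) := ⟨_, rfl⟩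
  have hv0 : 0 ≤ v := by
    have : 0 ≤ ∑' k, C0 * wN C0 β (n0 + k) := tsum_nonneg he0
    linarith
  have hbd : ∀ k x t a, |V k x t a| ≤ v := by
    intro k x t a
    have h1 : ∀ k, |V k x t a| ≤ 2 + ∑ j ∈ Finset.range k, C0 * wN C0 β (n0 + j) := by
      intro k
      induction k with
      | zero =>
        rw [h.V0]
        simpa using hV0 x t a
      | succ k ih =>
        rw [Finset.sum_range_succ]
        have h2 := h.near k x t a
        have h3 : |V (k + 1) x t a| ≤ |V k x t a| + |V (k + 1) x t a - V k x t a| := by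
          have h4 : V (k + 1) x t a = V k x t a + (V (k + 1) x t a - V k x t a) := by ring
          calc |V (k + 1) x t a| = |V k x t a + (V (k + 1) x t a - V k x t a)| := by rw [← h4]
            _ ≤ _ := abs_add_le _ _
        linarith
    have h2 : ∑ j ∈ Finset.range k, C0 * wN C0 β (n0 + j) ≤ ∑' k, C0 * wN C0 β (n0 + k) :=
      hsum.sum_le_tsum _ fun j _ => he0 j
    have h3 := h1 k
    linarith
  have hlip : ∀ k, Lp (V k) 0 T0 (gN C0 β (n0 + k) * (1 + 8 * (1 + v))) := by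
    intro k
    have key : ∀ s t, ExP C0 β (n0 + k) (V k) s t ∨ BdP C0 β (Lseq C0 p β n0 T0 k) (n0 + k) (V k) s t →
        Lp (V k) s t (gN C0 β (n0 + k) * (1 + 8 * (1 + v))) := by
      intro s t hs
      obtain ⟨lam, g, σ, ρ, c, A, h1, h2, h3, h4, h5, h6, _⟩ := R2Da_piece (hn4 k) hs
      refine R2Da_lp_mono (hF.lip (V k) s t lam g σ ρ c A v h1 h2 h3 h4 fun x t _ a => hbd k x t a) ?_
      have h7 : g * (1 + v) ≤ gN C0 β (n0 + k) * (1 + v) := mul_le_mul_of_nonneg_right h5 (by linarith)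
      nlinarith
    have h1 := (h.valid k).lp (fun s t hs => key s t (Or.inl hs)) fun s t hs => key s t (Or.inr hs)
    rw [h.lo, h.hi] at h1
    exact h1
  have hleaf : ∀ k, ∀ t ∈ Icc 0 T0, ∃ s u, (ExP C0 β (n0 + k) (V k) s u ∨
      BdP C0 β (Lseq C0 p β n0 T0 k) (n0 + k) (V k) s u) ∧ t ∈ Icc s u := by
    intro k t ht
    obtain ⟨s, u, h1, _, _, _, h2⟩ := (h.valid k).leaf (by rw [h.lo, h.hi]; exact ht)
    exact ⟨s, u, h1, h2⟩
  refine ⟨v, ?_, hv0⟩
  exact
    { pos := hT0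
      lo := h.lo
      hi := h.hi
      bads := h.bads
      ends := h.ends
      eq := h.eq
      near := h.near
      esum := hsum
      vbd := fun k x t _ a => hbd k x t a
      lip0 := fun k => mul_nonneg (gN_pos hC β (by have := hn4 k; omega)).le (by linarith)
      lip := hlip
      per := fun k t ht => by
        obtain ⟨s, u, h1, h2⟩ := hleaf k t ht
        obtain ⟨lam, g, σ, ρ, c, A, h3, _⟩ := R2Da_piece (hn4 k) h1
        exact hF.per (V k) s u lam g σ ρ c A h3 t h2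
      df := fun k t ht => by
        obtain ⟨s, u, h1, h2⟩ := hleaf k t ht
        obtain ⟨lam, g, σ, ρ, c, A, h3, h4, h5, h6, _⟩ := R2Da_piece (hn4 k) h1
        exact hF.divf (V k) s u lam g σ ρ c A h3 h4 h5 h6 t h2
      we := fun k => by
        have key : ∀ s t, ExP C0 β (n0 + k) (V k) s t ∨
            BdP C0 β (Lseq C0 p β n0 T0 k) (n0 + k) (V k) s t →
            WE (V k) s t (4 * (2 * Real.pi) ^ 2 * sigN β (n0 + k)) := by
          intro s t hs
          obtain ⟨lam, g, σ, ρ, c, A, h1, h2, h3, h4, _, _, h5⟩ := R2Da_piece (hn4 k) hs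
          have hst : s < t := by
            obtain ⟨d, hd, _⟩ := h1
            exact hd.ht
          refine R2Da_we_mono (hF.weak (V k) s t lam g σ ρ c A h1 h2 h3 h4) hst.le ?_
          exact mul_le_mul_of_nonneg_left h5 (by positivity)
        have h1 := PT.Valid.we (h.valid k) (by rw [h.lo, h.hi]; exact (hlip k).cont_on)
          (fun s t hs => key s t (Or.inl hs)) fun s t hs => key s t (Or.inr hs)
        rw [h.lo, h.hi] at h1
        exact h1
      elim := by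
        have h1 : Tendsto (fun k : ℕ => n0 + k) atTop atTop := tendsto_atTop_mono (fun k => Nat.le_add_left k n0) tendsto_id
        have h2 := ((tendsto_sigN hβ0).comp h1).const_mul (4 * (2 * Real.pi) ^ 2)
        rw [mul_zero] at h2
        exact h2
      sm := fun k => (h.valid k).mono
        (fun s t _ _ hs n => by
          obtain ⟨lam, g, ρ, c, A, h1, h2, h3, h4, _, _⟩ := hs
          exact hF.smooth (V k) s t lam g ρ c A h1 h2 h3 h4 n)
        fun _ _ _ _ _ => trivial }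

end ES
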