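import Pool.Agent.ES.RPC

/-!
Project ES, Part III, module R2Db: the Hoelder sum and the starting stage.

`hoelder_sum`: `gN (n0+k) ≤ gN (n0+k+1)` (`g2`), so the term is at most
`(C0 wN)^(1-β) (2 gN (n0+k+1) (1+8(1+v)))^β = const · wN^(1-β) gN(n+1)^β`; `summable_hoelder` shifted.
`exists_start`: `ev_PC` and `tendsto_gN`.
-/

open MeasureTheory Set Filter Topology

namespace ES

theorem hoelder_sum {C0 : ℝ} (hC : 1 ≤ C0) {p : ℕ} {β : ℝ} (hβ0 : 0 ≤ β) (hβ : β < 1 / 3)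
    {n0 : ℕ} (hP : ∀ n, n0 ≤ n → PC C0 p β n) {v : ℝ} (hv : 0 ≤ v) :
    Summable fun k => (C0 * wN C0 β (n0 + k)) ^ (1 - β) *
      (gN C0 β (n0 + k) * (1 + 8 * (1 + v)) + gN C0 β (n0 + (k + 1)) * (1 + 8 * (1 + v))) ^ β := by
  have hM : 0 < 1 + 8 * (1 + v) := by linarith
  have h1β : 0 ≤ 1 - β := by linarith
  have hs : Summable fun k => wN C0 β (n0 + k) ^ (1 - β) * gN C0 β (n0 + k + 1) ^ β :=
    (summable_hoelder hC hβ0 hβ).comp_injective (add_right_injective n0)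
  refine Summable.of_nonneg_of_le ?_ ?_ (hs.mul_left (C0 ^ (1 - β) * (2 * (1 + 8 * (1 + v))) ^ β))
  · intro k
    have hpc := hP (n0 + k) (by omega)
    have h4 := hpc.n4
    have hw := wN_pos hC β (n0 + k)
    have hg := gN_pos hC β (n := n0 + k) (by omega)
    have hg' := gN_pos hC β (n := n0 + (k + 1)) (by omega)
    positivity
  · intro k
    have hpc := hP (n0 + k) (by omega)
    have h4 := hpc.n4
    have hw := wN_pos hC β (n0 + k)
    have hg := gN_pos hC β (n := n0 + k) (by omega)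
    have hg' := gN_pos hC β (n := n0 + k + 1) (by omega)
    have hg2 := hpc.g2
    have hC0 : 0 ≤ C0 := by linarith
    rw [← add_assoc, Real.mul_rpow hC0 hw.le]
    have h5 : (gN C0 β (n0 + k) * (1 + 8 * (1 + v)) + gN C0 β (n0 + k + 1) * (1 + 8 * (1 + v))) ^ β ≤
        (2 * (1 + 8 * (1 + v))) ^ β * gN C0 β (n0 + k + 1) ^ β := by
      rw [← Real.mul_rpow (by positivity) hg'.le]
      apply Real.rpow_le_rpow (by positivity) _ hβ0
      have : gN C0 β (n0 + k) ≤ gN C0 β (n0 + k + 1) := by linarith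
      have := mul_le_mul_of_nonneg_right this hM.le
      linarith
    calc C0 ^ (1 - β) * wN C0 β (n0 + k) ^ (1 - β) *
        (gN C0 β (n0 + k) * (1 + 8 * (1 + v)) + gN C0 β (n0 + k + 1) * (1 + 8 * (1 + v))) ^ β
        ≤ C0 ^ (1 - β) * wN C0 β (n0 + k) ^ (1 - β) *
          ((2 * (1 + 8 * (1 + v))) ^ β * gN C0 β (n0 + k + 1) ^ β) :=
          mul_le_mul_of_nonneg_left h5 (by positivity)
      _ = _ := by ring

/-- Choice of the starting stage. -/
theorem exists_start {C0 : ℝ} (hC : 1 ≤ C0) (p : ℕ) {β : ℝ} (hβ0 : 0 ≤ β) (hβ : β < 1 / 3) :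
    ∃ n0 : ℕ, (∀ n, n0 ≤ n → PC C0 p β n) ∧ 100 ≤ gN C0 β n0 := by
  obtain ⟨N1, h1⟩ := eventually_atTop.1 (ev_PC hC p hβ0 hβ)
  obtain ⟨N2, h2⟩ := eventually_atTop.1 ((tendsto_gN hC hβ0 hβ).eventually (eventually_ge_atTop 100))
  exact ⟨max N1 N2, fun n hn => h1 n ((le_max_left _ _).trans hn), h2 _ (le_max_right _ _)⟩

end ES
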