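import Pool.Agent.ES.RParA

/-!
Project ES, Part III, module RParB: two exact formulas.

`lN/hN = 2 C0 K^p √(C0 δ_n) / (lamN δ_{n+1}) · gN 4^n`, `gN = 2 C0 lamN √(C0 δ_n)`, so the product is
`4 C0² K^p 4^n C0 δ_n/δ_{n+1}`.
`xN`: `hN/(2 C0 lN(n+1)) = 4^(-n)/gN n · lamN(n+1) δ_{n+2}/(4 C0² K(n+1)^p √(C0 δ_{n+1}))`; exponent of `2`:
`-n³ + β n³ + (n+1)³ + β (n+1)³ - 2β (n+2)³ = 3(1-3β)n² + (3-21β)n + (1-15β)`.  Use `sqrt_del`.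
-/

open Filter

namespace ES

private theorem RParB_alg1 {C0 S L σ K q : ℝ} (hC : 0 < C0) (hS : 0 < S) (hL : 0 < L)
    (hσ : 0 < σ) (hq : 0 < q) :
    (2 * C0 * K * S / (L * σ)) / ((1 / q) / (2 * C0 * L * S)) = 4 * C0 ^ 2 * K * q * (S ^ 2 / σ) := by
  field_simp
  ring

private theorem RParB_alg2 {a b x y : ℝ} (hb : 0 < b) (hx : 0 < x) (hy : 0 < y) :
    (a / x ^ 4) / (b / y ^ 4) = a / b * (y / x) ^ 4 := by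
  field_simp

private theorem RParB_alg3 {C0 c A B La Lb Q K q x : ℝ} (hc : c ^ 2 = C0) (hc0 : 0 < c)
    (hA : 0 < A) (hB : 0 < B) (hLa : 0 < La) (hLb : 0 < Lb) (hQ : 0 < Q) (hK : 0 < K)
    (hx : 0 < x) :
    (q / (2 * C0 * La * (c * A / x ^ 2))) /
      (2 * C0 * (2 * C0 * K * (c * B / (x + 1) ^ 2) / (Lb * (Q / (x + 2) ^ 4)))) =
      q * (Lb * Q / (La * A * B)) * (x ^ 2 * (x + 1) ^ 2 / (x + 2) ^ 4) / (8 * C0 ^ 4 * K) := by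
  subst hc
  have h1 : 0 < x + 1 := by linarith
  have h2 : 0 < x + 2 := by linarith
  field_simp
  ring

/-- Exact ratio: `lN n/hN n = 4 C0^3 KN^p 4^n δ_n/δ_{n+1}`. -/
theorem lN_div_hN {C0 : ℝ} (hC : 1 ≤ C0) (p : ℕ) (β : ℝ) {n : ℕ} (hn : 1 ≤ n) :
    lN C0 p β n / hN C0 β n = 4 * C0 ^ 3 * KN n ^ p * 4 ^ n *
      ((2 : ℝ) ^ (2 * β * (((n : ℝ) + 1) ^ 3 - (n : ℝ) ^ 3)) * (((n : ℝ) + 1) / n) ^ 4) := by
  have hC0 : 0 < C0 := by linarith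
  have hn0 : (0 : ℝ) < n := by exact_mod_cast hn
  have hd := del_pos β hn
  have hS : 0 < Real.sqrt (C0 * del β n) := Real.sqrt_pos.2 (mul_pos hC0 hd)
  have hS2 : Real.sqrt (C0 * del β n) ^ 2 = C0 * del β n := Real.sq_sqrt (mul_pos hC0 hd).le
  have hq : (0 : ℝ) < 4 ^ n := by positivity
  have e1 : lN C0 p β n / hN C0 β n =
      4 * C0 ^ 2 * KN n ^ p * 4 ^ n * (Real.sqrt (C0 * del β n) ^ 2 / sigN β n) := by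
    unfold lN hN gN
    rw [one_div_pow]
    exact RParB_alg1 hC0 hS (lamN_pos n) (sigN_pos β n) hq
  have hb : (0 : ℝ) < (2 : ℝ) ^ (-(2 * β * ((n + 1 : ℕ) : ℝ) ^ 3)) :=
    Real.rpow_pos_of_pos (by norm_num) _
  have hn1 : (0 : ℝ) < ((n + 1 : ℕ) : ℝ) := by positivity
  have e2 : del β n / sigN β n = (2 : ℝ) ^ (2 * β * (((n : ℝ) + 1) ^ 3 - (n : ℝ) ^ 3)) *
      (((n : ℝ) + 1) / n) ^ 4 := by
    unfold sigN del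
    rw [RParB_alg2 hb hn0 hn1, ← Real.rpow_sub (by norm_num), Nat.cast_add, Nat.cast_one]
    congr 2
    ring
  rw [e1, hS2, mul_div_assoc, e2]
  ring

/-- Exact value of the number whose logarithm is the number of passes. -/
theorem xN_eq {C0 : ℝ} (hC : 1 ≤ C0) (p : ℕ) (β : ℝ) {n : ℕ} (hn : 1 ≤ n) :
    hN C0 β n / (2 * C0 * lN C0 p β (n + 1)) =
      (1 / 4) ^ n * (2 : ℝ) ^ (3 * (1 - 3 * β) * (n : ℝ) ^ 2 + (3 - 21 * β) * n + (1 - 15 * β)) *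
        ((n : ℝ) ^ 2 * ((n : ℝ) + 1) ^ 2 / ((n : ℝ) + 2) ^ 4) / (8 * C0 ^ 4 * KN (n + 1) ^ p) := by
  have hC0 : 0 < C0 := by linarith
  have hn0 : (0 : ℝ) < n := by exact_mod_cast hn
  have h2 : ∀ x : ℝ, (0 : ℝ) < (2 : ℝ) ^ x := fun x => Real.rpow_pos_of_pos (by norm_num) x
  have hK : 0 < KN (n + 1) ^ p :=
    pow_pos (lt_of_lt_of_le one_pos (KN_pos (Nat.le_add_left 1 n))) p
  have e0 : ((n + 1 : ℕ) : ℝ) = (n : ℝ) + 1 := by push_cast; ring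
  have e00 : ((n + 1 + 1 : ℕ) : ℝ) = (n : ℝ) + 2 := by push_cast; ring
  have e1 : (2 : ℝ) ^ (3 * (1 - 3 * β) * (n : ℝ) ^ 2 + (3 - 21 * β) * n + (1 - 15 * β)) =
      (2 : ℝ) ^ (((n : ℝ) + 1) ^ 3) * (2 : ℝ) ^ (-(2 * β * ((n : ℝ) + 2) ^ 3)) /
        ((2 : ℝ) ^ ((n : ℝ) ^ 3) * (2 : ℝ) ^ (-(β * (n : ℝ) ^ 3)) *
          (2 : ℝ) ^ (-(β * ((n : ℝ) + 1) ^ 3))) := by
    rw [← Real.rpow_add (by norm_num), ← Real.rpow_add (by norm_num),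
      ← Real.rpow_add (by norm_num), ← Real.rpow_sub (by norm_num)]
    congr 1
    ring
  have e2 := RParB_alg3 (C0 := C0) (c := Real.sqrt C0) (A := (2 : ℝ) ^ (-(β * (n : ℝ) ^ 3)))
    (B := (2 : ℝ) ^ (-(β * ((n : ℝ) + 1) ^ 3))) (La := (2 : ℝ) ^ ((n : ℝ) ^ 3))
    (Lb := (2 : ℝ) ^ (((n : ℝ) + 1) ^ 3)) (Q := (2 : ℝ) ^ (-(2 * β * ((n : ℝ) + 2) ^ 3)))
    (K := KN (n + 1) ^ p) (q := (1 / 4 : ℝ) ^ n) (x := (n : ℝ)) (Real.sq_sqrt hC0.le)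
    (Real.sqrt_pos.2 hC0) (h2 _) (h2 _) (h2 _) (h2 _) (h2 _) hK hn0
  rw [e1, ← e2]
  unfold hN lN gN
  rw [sqrt_del hC β hn, sqrt_del hC β (Nat.le_add_left 1 n), lamN_rpow, lamN_rpow, e0]
  unfold sigN del
  rw [e00]

end ES
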