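import Pool.Agent.ES.RParA

/-!
Project ES, Part III, module RParC: the gauge (a polynomial in `n` is eventually smaller than
`2^(a n)`, `a > 0`): `KN (n+1) = 1 + 200 (n+1)^4 ≤ 201 (n+2)^4`;
`tendsto_pow_const_div_const_pow_of_one_lt` or `isLittleO_pow_exp_pos_mul_atTop`.
-/

open Filter

namespace ES

/-- The gauge: polynomial factors are smaller than any exponential. -/
theorem gauge (C : ℝ) (p q : ℕ) {a : ℝ} (ha : 0 < a) :
    ∀ᶠ n : ℕ in atTop, C * KN (n + 1) ^ p * ((n : ℝ) + 2) ^ q ≤ (2 : ℝ) ^ (a * n) := by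
  set r : ℝ := (2 : ℝ) ^ a with hr
  have hr1 : 1 < r := by
    rw [hr]
    exact Real.one_lt_rpow (by norm_num) ha
  have hr0 : 0 < r := by linarith
  have h1 : Tendsto (fun n : ℕ => ((n + 2 : ℕ) : ℝ) ^ (4 * p + q) / r ^ (n + 2)) atTop (nhds 0) :=
    (tendsto_pow_const_div_const_pow_of_one_lt (4 * p + q) hr1).comp (tendsto_add_atTop_nat 2)
  set D : ℝ := (|C| + 1) * 201 ^ p * r ^ 2 with hD
  have hD0 : 0 < D := by positivity
  have h2 : ∀ᶠ n : ℕ in atTop, ((n + 2 : ℕ) : ℝ) ^ (4 * p + q) / r ^ (n + 2) < 1 / D :=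
    h1.eventually_lt_const (by positivity)
  filter_upwards [h2] with n hn
  have h3 : KN (n + 1) ≤ 201 * ((n : ℝ) + 2) ^ 4 := by
    rw [KN_eq (by omega)]
    push_cast
    have h4 : ((n : ℝ) + 1) ^ 4 ≤ ((n : ℝ) + 2) ^ 4 :=
      pow_le_pow_left₀ (by positivity) (by linarith) 4
    have h5 : (1 : ℝ) ≤ ((n : ℝ) + 2) ^ 4 := one_le_pow₀ (by linarith [Nat.cast_nonneg (α := ℝ) n])
    linarith
  have h0 : 0 ≤ KN (n + 1) := le_trans zero_le_one (KN_pos (by omega))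
  have h4 : KN (n + 1) ^ p ≤ 201 ^ p * ((n : ℝ) + 2) ^ (4 * p) := by
    calc KN (n + 1) ^ p ≤ (201 * ((n : ℝ) + 2) ^ 4) ^ p := pow_le_pow_left₀ h0 h3 p
      _ = 201 ^ p * ((n : ℝ) + 2) ^ (4 * p) := by rw [mul_pow, ← pow_mul]
  have h5 : (2 : ℝ) ^ (a * n) = r ^ n := by
    rw [hr, ← Real.rpow_natCast, ← Real.rpow_mul (by norm_num)]
  rw [h5]
  have h6 : C * KN (n + 1) ^ p * ((n : ℝ) + 2) ^ q ≤
      (|C| + 1) * 201 ^ p * ((n : ℝ) + 2) ^ (4 * p + q) := by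
    calc C * KN (n + 1) ^ p * ((n : ℝ) + 2) ^ q
        ≤ (|C| + 1) * KN (n + 1) ^ p * ((n : ℝ) + 2) ^ q := by
          have h7 : C ≤ |C| + 1 := (le_abs_self C).trans (by linarith)
          have h8 : 0 ≤ KN (n + 1) ^ p := pow_nonneg h0 p
          exact mul_le_mul_of_nonneg_right (mul_le_mul_of_nonneg_right h7 h8) (by positivity)
      _ ≤ (|C| + 1) * (201 ^ p * ((n : ℝ) + 2) ^ (4 * p)) * ((n : ℝ) + 2) ^ q :=
          mul_le_mul_of_nonneg_right (mul_le_mul_of_nonneg_left h4 (by positivity)) (by positivity)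
      _ = (|C| + 1) * 201 ^ p * ((n : ℝ) + 2) ^ (4 * p + q) := by rw [pow_add]; ring
  refine h6.trans ?_
  rw [div_lt_div_iff₀ (by positivity) hD0] at hn
  push_cast at hn
  rw [hD, pow_add r n 2, one_mul] at hn
  have h9 : 0 < r ^ 2 := by positivity
  have h10 : (|C| + 1) * 201 ^ p * ((n : ℝ) + 2) ^ (4 * p + q) * r ^ 2 ≤ r ^ n * r ^ 2 := by
    calc _ = ((n : ℝ) + 2) ^ (4 * p + q) * ((|C| + 1) * 201 ^ p * r ^ 2) := by ring
      _ ≤ _ := hn.le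
  exact le_of_mul_le_mul_right h10 h9

end ES
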