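import Pool.Agent.ES.RGlue
import Pool.Agent.ES.RPar

/-!
Project ES, Part III, module RBlock: one bad interval of stage `n`.

`ExP n V s t`  : exact piece (stress `0`), with gradient and acceleration bounded by `gN n`.
`BdP Lm n V s t` : bad piece of stage `n`, of length between `hN n` and `Lm`.

`block_rf` : the block theorem `BlockStatement` applied with `lam`, `g` of the piece and
`σ = sigN n`, `ρ = rN n`, `c = cN n`, `A = gN n`, `m = mN n`, `w = wN n`, `ℓr = lN (n+1)`,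
`ν = √((1/2)^n)` (so `ν² = (1/2)^n`, `ν^(2P) = ((1/2)^n)^P`), `L = lamN (n+1)`, `P = PN n`,
on an interval of length between `hN n/2` and `hN n`.  The fast pieces have length `lN (n+1)`, the
tail has length `(t1-t0)/2^P ∈ [C0 lN(n+1), 4 C0 lN(n+1)]` (`lr`, `lr2`).  Use `BIFacts.mono` to pass to
the bounds of stage `n+1` (at equal `lam`; for fast pieces `g` is replaced by `gN (n+1)`, for tails
`g' = g (1 + C0 K^p (t1-t0) g) ≤ 2 g ≤ 2 gN n ≤ gN (n+1)` is kept), and `PT.of_Prt`.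
`piece_rf` : division of a bad piece of length `x ≥ hN n` into `⌈x/hN n⌉` blocks of equal length
(`Rf.iter`), which lies in `[hN n/2, hN n]`; restriction by `BIFacts.restrict`.
-/

namespace ES

/-- Exact piece of stage `n`. -/
def ExP (C0 β : ℝ) (n : ℕ) (V : Fld) (s t : ℝ) : Prop :=
  ∃ lam g ρ c A : ℝ, BI V s t lam g 0 ρ c A ∧ 0 < ρ ∧ 0 ≤ c ∧ c ≤ 1 / 10 ∧ g ≤ gN C0 β n ∧
    A ≤ gN C0 β n

/-- Bad piece of stage `n`. -/
def BdP (C0 β Lm : ℝ) (n : ℕ) (V : Fld) (s t : ℝ) : Prop :=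
  hN C0 β n ≤ t - s ∧ t - s ≤ Lm ∧
    ∃ lam g : ℝ, 1 ≤ lam ∧ lam ≤ 2 * (lamN n : ℝ) ∧ lam * wN C0 β n ≤ g ∧ g ≤ gN C0 β n ∧
      BI V s t lam g (sigN β n) (rN n) (cN n) (gN C0 β n)

theorem ExP.cg (hF : BIFacts) (C0 β : ℝ) (n : ℕ) : Cg (ExP C0 β n) := by
  intro V V' s t h hV
  obtain ⟨lam, g, ρ, c, A, h1, h2⟩ := h
  exact ⟨lam, g, ρ, c, A, hF.congr V V' s t lam g 0 ρ c A h1 hV, h2⟩

theorem BdP.cg (hF : BIFacts) (C0 β Lm : ℝ) (n : ℕ) : Cg (BdP C0 β Lm n) := by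
  intro V V' s t h hV
  obtain ⟨h1, h2, lam, g, h3, h4, h5, h6, h7⟩ := h
  exact ⟨h1, h2, lam, g, h3, h4, h5, h6, hF.congr V V' s t _ _ _ _ _ _ h7 hV⟩

theorem ExP.mono {C0 β : ℝ} {n n' : ℕ} {V : Fld} {s t : ℝ} (h : ExP C0 β n V s t)
    (hg : gN C0 β n ≤ gN C0 β n') : ExP C0 β n' V s t := by
  obtain ⟨lam, g, ρ, c, A, h1, h2, h3, h4, h5, h6⟩ := h
  exact ⟨lam, g, ρ, c, A, h1, h2, h3, h4, h5.trans hg, h6.trans hg⟩

private theorem RBlock_cN (n : ℕ) : 0 ≤ cN n ∧ cN n ≤ 1 / 200 := by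
  unfold cN
  have h1 : (0 : ℝ) ≤ (1 / 2) ^ n := by positivity
  have h2 : ((1 : ℝ) / 2) ^ n ≤ 1 := pow_le_one₀ (by norm_num) (by norm_num)
  constructor
  · nlinarith
  · nlinarith

private theorem RBlock_cN_succ (n : ℕ) : cN n + 1 / 200 * (1 / 2) ^ (n + 1) = cN (n + 1) := by
  unfold cN
  rw [pow_succ]
  ring

theorem block_rf (hF : BIFacts) {C0 : ℝ} (hC : 1 ≤ C0) {p : ℕ} (hB : BlockStatement C0 p) {β : ℝ}
    {n : ℕ} (hP : PC C0 p β n) {V : Fld} {s t lam g : ℝ}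
    (h1 : hN C0 β n / 2 ≤ t - s) (h2 : t - s ≤ hN C0 β n) (hl : 1 ≤ lam)
    (hl2 : lam ≤ 2 * (lamN n : ℝ)) (hlw : lam * wN C0 β n ≤ g) (hg : g ≤ gN C0 β n)
    (hV : BI V s t lam g (sigN β n) (rN n) (cN n) (gN C0 β n)) :
    Rf (ExP C0 β (n + 1)) (BdP C0 β (4 * C0 * lN C0 p β (n + 1)) (n + 1)) V s t
      (C0 * wN C0 β n) (6 * PN C0 p β n + 1) := by
  have hn4 := hP.n4
  have hn1 : 1 ≤ n := by omega
  have hC0 : 0 < C0 := by linarith
  have hnr : (4 : ℝ) ≤ n := by exact_mod_cast hn4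
  have hm0 := mN_pos hn1
  have hm1 := mN_le hn1
  have hw0 := wN_pos hC β n
  have hw0' := wN_pos hC β (n + 1)
  have hσ0 := sigN_pos β n
  have hl0 : 0 < lN C0 p β (n + 1) := lN_pos hC p β (by omega)
  have hh0 := hN_pos hC β hn1
  have hts : 0 < t - s := by linarith
  have hg0 : 0 < g := lt_of_lt_of_le (mul_pos (by linarith) hw0) hlw
  have hK1 := KN_pos hn1
  have hKp : 0 < KN n ^ p := pow_pos (by linarith) p
  have hL0 := lamN_pos n
  have hL1 := lamN_pos (n + 1)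
  have hCK : 0 < C0 * KN n ^ p := mul_pos hC0 hKp
  have hgN0 : 0 < gN C0 β n := gN_pos hC β hn1
  -- the quantity `C0 K^p (t-s) g`
  have hx : C0 * KN n ^ p * (t - s) * g ≤ 1 / 200 * (1 / 2) ^ (n + 1) := by
    refine le_trans ?_ hP.hg
    refine mul_le_mul ?_ hg hg0.le (by positivity)
    exact mul_le_mul_of_nonneg_left h2 hCK.le
  have hx0 : 0 ≤ C0 * KN n ^ p * (t - s) * g := by positivity
  have hhalf : ((1 : ℝ) / 2) ^ (n + 1) ≤ 1 := pow_le_one₀ (by norm_num) (by norm_num)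
  have hx1 : C0 * KN n ^ p * (t - s) * g ≤ 1 := by linarith
  obtain ⟨hc0, hc1⟩ := RBlock_cN n
  have hν0 : (0 : ℝ) < (1 / 2) ^ n := by positivity
  have hν2 : Real.sqrt ((1 / 2 : ℝ) ^ n) ^ 2 = (1 / 2) ^ n := Real.sq_sqrt hν0.le
  have hKdef : (1 + 1 / mN n) = KN n := rfl
  have key := hB V s t lam g (sigN β n) (rN n) (cN n) (gN C0 β n) (mN n) (wN C0 β n)
    (lN C0 p β (n + 1)) (Real.sqrt ((1 / 2 : ℝ) ^ n)) (lamN (n + 1)) (PN C0 p β n)
  rw [hKdef] at key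
  have hex : Real.exp (-(mN n * (lamN (n + 1) : ℝ) / (4 * lam))) ≤ 1 / (lamN (n + 1) : ℝ) := by
    refine le_trans (Real.exp_le_exp.mpr ?_) hP.ex
    refine neg_le_neg ?_
    refine div_le_div_of_nonneg_left (by positivity) (by linarith) ?_
    linarith
  have hnu : C0 * KN n ^ p * wN C0 β n ^ 2 * ((t - s) * g + (lam / (lamN (n + 1) : ℝ)) ^ 2) ≤
      Real.sqrt ((1 / 2 : ℝ) ^ n) ^ 2 * sigN β n := by
    rw [hν2]
    refine le_trans (mul_le_mul_of_nonneg_left (add_le_add ?_ ?_) (by positivity)) hP.nu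
    · exact mul_le_mul h2 hg hg0.le hh0.le
    · refine pow_le_pow_left₀ (by positivity) ?_ 2
      exact div_le_div_of_nonneg_right hl2 hL1.le
  have hr1 : rN n ≤ 2 := by
    unfold rN
    have : 1 / (n : ℝ) ≤ 1 := by
      rw [div_le_one (by linarith)]
      linarith
    linarith
  have hr2 : 8 * mN n * (PN C0 p β n : ℝ) + 2 * mN n ≤ rN n := by
    refine hP.mP2.trans ?_
    unfold rN
    have : 0 ≤ 1 / (n : ℝ) := by positivity
    linarith
  have hr3 : rN (n + 1) ≤ rN n - 8 * mN n * (PN C0 p β n : ℝ) := by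
    have := hP.mP
    unfold rN
    push_cast
    linarith
  have hr4 : 1 ≤ rN (n + 1) := by
    unfold rN
    have : 0 ≤ 1 / ((n + 1 : ℕ) : ℝ) := by positivity
    linarith
  have hKl : KN n * lam ≤ (lamN (n + 1) : ℝ) :=
    (mul_le_mul_of_nonneg_left hl2 (by linarith)).trans hP.kl
  have hsq : Real.sqrt ((1 / 2 : ℝ) ^ n) ≤ 1 / 4 := by
    rw [Real.sqrt_le_left (by norm_num)]
    calc ((1 : ℝ) / 2) ^ n ≤ (1 / 2) ^ 4 := pow_le_pow_of_le_one (by norm_num) (by norm_num) hn4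
      _ = (1 / 4) ^ 2 := by norm_num
  obtain ⟨V', hV1, hV2, hprt⟩ := key hV hm0 (by linarith) hr1 hr2 hl hw0 hσ0
    (wN_sq hC β n).symm.le hlw hc0 hc1 hKl hex hx1 (Real.sqrt_pos.mpr hν0) hsq hnu hl0
    (hP.lr.trans h1)
  obtain ⟨τ, hlo, hhi, hnb, hval⟩ := PT.of_Prt hprt
  refine ⟨V', τ, hlo, hhi, ?_, hnb.le, hV1, hV2⟩
  -- the bounds of stage `n + 1`
  have hgb : C0 * ((lamN (n + 1) : ℝ) * wN C0 β n + KN n ^ p * g) ≤ gN C0 β (n + 1) := by
    refine le_trans (mul_le_mul_of_nonneg_left (add_le_add le_rfl ?_) hC0.le) hP.g1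
    exact mul_le_mul_of_nonneg_left hg hKp.le
  have hAb : gN C0 β n + C0 * KN n ^ p * (g * wN C0 β n + wN C0 β n / lN C0 p β (n + 1)) ≤
      gN C0 β (n + 1) := by
    refine le_trans (add_le_add le_rfl (mul_le_mul_of_nonneg_left (add_le_add ?_ le_rfl) hCK.le)) hP.A1
    exact mul_le_mul_of_nonneg_right hg hw0.le
  have hcb : cN n + C0 * KN n ^ p * (t - s) * g ≤ cN (n + 1) := by
    rw [← RBlock_cN_succ]
    linarith
  have hcb0 : 0 ≤ cN n + C0 * KN n ^ p * (t - s) * g := by linarith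
  have hc10 := (RBlock_cN (n + 1)).2
  have hlen : ∀ x : ℝ, x = (t - s) / 2 ^ PN C0 p β n → lN C0 p β (n + 1) ≤ x ∧
      x ≤ 4 * C0 * lN C0 p β (n + 1) := by
    intro x hx'
    have h2P : (0 : ℝ) < 2 ^ PN C0 p β n := by positivity
    constructor
    · rw [hx', le_div_iff₀ h2P]
      refine le_trans ?_ (hP.lr.trans h1)
      refine mul_le_mul_of_nonneg_left ?_ hl0.le
      nlinarith only [mul_nonneg (sub_nonneg.2 hC) h2P.le]
    · rw [hx']
      exact (div_le_div_of_nonneg_right h2 h2P.le).trans hP.lr2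
  refine PT.Valid.mono hval ?_ ?_
  · intro a b _ _ hG
    exact ⟨_, _, _, _, _, hG, by linarith, hcb0, by linarith, hgb, hAb⟩
  · intro a b _ _ hG
    rcases hG with ⟨hab, hG⟩ | ⟨hab, hG⟩
    · refine ⟨by rw [hab]; exact hP.hl', ?_, 2 * (lamN (n + 1) : ℝ), gN C0 β (n + 1), ?_, le_rfl,
        ?_, le_rfl, ?_⟩
      · rw [hab]
        nlinarith only [mul_nonneg (sub_nonneg.2 hC) hl0.le, hl0]
      · have := one_le_lamN (n + 1)
        linarith
      · have h3 : gN C0 β (n + 1) = 2 * C0 * (lamN (n + 1) : ℝ) * wN C0 β n := rfl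
        rw [h3]
        calc 2 * (lamN (n + 1) : ℝ) * wN C0 β (n + 1) ≤ 2 * (lamN (n + 1) : ℝ) * wN C0 β n :=
              mul_le_mul_of_nonneg_left hP.w1 (by positivity)
          _ = 1 * (2 * (lamN (n + 1) : ℝ) * wN C0 β n) := (one_mul _).symm
          _ ≤ C0 * (2 * (lamN (n + 1) : ℝ) * wN C0 β n) :=
              mul_le_mul_of_nonneg_right hC (by positivity)
          _ = _ := by ring
      · refine hF.mono V' a b _ _ _ _ _ _ _ _ _ _ _ _ hG (by positivity) le_rfl hgb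
          (div_le_div_of_nonneg_right hgb (by positivity)) ?_ hr3 (by linarith) hcb hAb
        refine le_trans (mul_le_mul_of_nonneg_left (add_le_add le_rfl ?_) (by positivity)) hP.s1
        exact mul_le_mul_of_nonneg_right hg hw0.le
    · obtain ⟨hb1, hb2⟩ := hlen (b - a) hab
      have hg1 : g ≤ g * (1 + C0 * KN n ^ p * (t - s) * g) := by
        nlinarith only [mul_nonneg hg0.le hx0]
      refine ⟨hP.hl'.trans hb1, hb2, lam, g * (1 + C0 * KN n ^ p * (t - s) * g), hl, ?_, ?_, ?_, ?_⟩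
      · refine hl2.trans ?_
        have h3 : (lamN n : ℝ) ≤ lamN (n + 1) := by
          have h4 := hP.kl
          nlinarith only [h4, mul_nonneg (sub_nonneg.2 hK1) hL0.le, hL0]
        linarith
      · refine le_trans ?_ (hlw.trans hg1)
        exact mul_le_mul_of_nonneg_left hP.w1 (by linarith)
      · have h3 : g * (1 + C0 * KN n ^ p * (t - s) * g) ≤ 2 * g := by
          nlinarith only [mul_nonneg hg0.le (sub_nonneg.2 hx1)]
        have h4 := hP.g2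
        linarith
      · refine hF.mono V' a b _ _ _ _ _ _ _ _ _ _ _ _ hG (by linarith) le_rfl le_rfl le_rfl
          ?_ hr3 (by linarith) hcb hAb
        rw [pow_mul, hν2]
        exact hP.s2

theorem piece_rf (hF : BIFacts) {C0 : ℝ} (hC : 1 ≤ C0) {p : ℕ} (hB : BlockStatement C0 p) {β : ℝ}
    {n : ℕ} (hP : PC C0 p β n) {V : Fld} {s t Lm : ℝ} (hst : s < t)
    (hV : BdP C0 β Lm n V s t) :
    Rf (ExP C0 β (n + 1)) (BdP C0 β (4 * C0 * lN C0 p β (n + 1)) (n + 1)) V s t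
      (C0 * wN C0 β n) (⌈Lm / hN C0 β n⌉₊ * (6 * PN C0 p β n + 1)) := by
  have hn4 := hP.n4
  have hn1 : 1 ≤ n := by omega
  have hh0 := hN_pos hC β hn1
  obtain ⟨h1, h2, lam, g, h3, h4, h5, h6, h7⟩ := hV
  set x : ℝ := (t - s) / hN C0 β n with hx
  have hx1 : 1 ≤ x := by
    rw [hx, le_div_iff₀ hh0]
    linarith
  have hxe : t - s = x * hN C0 β n := by
    rw [hx, div_mul_cancel₀ _ hh0.ne']
  have hM1 : x ≤ (⌈x⌉₊ : ℝ) := Nat.le_ceil x
  have hM2 : (⌈x⌉₊ : ℝ) < x + 1 := Nat.ceil_lt_add_one (by linarith)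
  have hM0 : 1 ≤ ⌈x⌉₊ := by
    rw [Nat.one_le_ceil_iff]
    linarith
  have hMpos : (0 : ℝ) < (⌈x⌉₊ : ℝ) := by linarith
  have hmain := Rf.iter (ExP.cg hF C0 β (n + 1)) (BdP.cg hF C0 β (4 * C0 * lN C0 p β (n + 1)) (n + 1))
    (V := V) (e := C0 * wN C0 β n) (N := 6 * PN C0 p β n + 1) ⌈x⌉₊ hM0 hst (by
      intro a b ha hb hab
      have hl1 : hN C0 β n / 2 ≤ b - a := by
        rw [hab, hxe, le_div_iff₀ hMpos]
        nlinarith
      have hl2 : b - a ≤ hN C0 β n := by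
        rw [hab, hxe, div_le_iff₀ hMpos]
        nlinarith
      refine block_rf hF hC hB hP hl1 hl2 h3 h4 h5 h6 ?_
      exact hF.restrict V s t a b _ _ _ _ _ _ h7 ha (by linarith) hb)
  refine hmain.mono le_rfl (Nat.mul_le_mul_right _ ?_)
  exact Nat.ceil_mono (div_le_div_of_nonneg_right h2 hh0.le)

end ES
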