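import Pool.Agent.ES.RInitA
import Pool.Agent.ES.RBlock

/-!
Project ES, Part III, module R2Dc: the initial field is a bad piece of stage `n0`.

`T0 = max 1 (max (hN n0) (100/sigN n0))`, `lam = 1`, `g = gN n0` (`gw`: `2 lamN wN ≤ gN`, `lamN ≥ 1`),
`init_BI`.
-/

open MeasureTheory Set Filter Topology

namespace ES

theorem init_BdP {C0 : ℝ} (hC : 1 ≤ C0) {p : ℕ} {β : ℝ} {n0 : ℕ} (hP : PC C0 p β n0)
    (hg : 100 ≤ gN C0 β n0) :
    ∃ T0 : ℝ, 1 ≤ T0 ∧ BdP C0 β T0 n0 (Vin T0) 0 T0 := by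
  have hn4 := hP.n4
  have hn0 : (4 : ℝ) ≤ (n0 : ℝ) := by exact_mod_cast hn4
  have hσ : 0 < sigN β n0 := by
    unfold sigN del
    positivity
  have hlam : (1 : ℝ) ≤ (lamN n0 : ℝ) := by
    have : 1 ≤ lamN n0 := Nat.one_le_two_pow
    exact_mod_cast this
  have hw0 : 0 ≤ wN C0 β n0 := Real.sqrt_nonneg _
  have hwg : 1 * wN C0 β n0 ≤ gN C0 β n0 := by
    have h1 := hP.gw
    have h2 : 1 * wN C0 β n0 ≤ 2 * (lamN n0 : ℝ) * wN C0 β n0 :=
      mul_le_mul_of_nonneg_right (by linarith) hw0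
    linarith
  set T0 : ℝ := max 1 (max (hN C0 β n0) (100 / sigN β n0)) with hT0
  have h1 : 1 ≤ T0 := le_max_left _ _
  have h2 : hN C0 β n0 ≤ T0 := (le_max_left _ _).trans (le_max_right _ _)
  have h3 : 100 / sigN β n0 ≤ T0 := (le_max_right _ _).trans (le_max_right _ _)
  have h4 : 100 / T0 ≤ sigN β n0 := by
    rw [div_le_iff₀ hσ] at h3
    rw [div_le_iff₀ (by linarith)]
    linarith
  have hr0 : 0 ≤ rN n0 := by
    unfold rN
    positivity
  have hr2 : rN n0 ≤ 2 := by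
    unfold rN
    have : 1 / (n0 : ℝ) ≤ 1 := by
      rw [div_le_one (by linarith)]
      linarith
    linarith
  have hc0 : 0 ≤ cN n0 := by
    unfold cN
    have : (1 / 2 : ℝ) ^ n0 ≤ 1 := pow_le_one₀ (by norm_num) (by norm_num)
    have h5 : 0 ≤ 1 - (1 / 2 : ℝ) ^ n0 := by linarith
    positivity
  refine ⟨T0, h1, ?_, ?_, 1, gN C0 β n0, le_rfl, ?_, hwg, le_rfl,
    init_BI h1 h4 hr0 hr2 hc0 hg hg⟩
  · rw [sub_zero]
    exact h2
  · rw [sub_zero]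
  · linarith

end ES
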