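import Pool.Agent.ES.RInitD

/-!
Project ES, Part III, module RInitB: bound and energy of the initial field.
`∫_Bx sin²(x_1) > 0` (continuous, non-negative, not zero), at `t = 0` times `1`, at `t = T0` times `4`.
-/

open MeasureTheory Set

namespace ES

private theorem RInitB_clp {T0 : ℝ} (hT : 1 ≤ T0) (t : ℝ) :
    0 ≤ clp 0 T0 t / T0 ∧ clp 0 T0 t / T0 ≤ 1 := by
  have h0 : 0 < T0 := by linarith
  have h1 : 0 ≤ clp 0 T0 t := le_max_left _ _
  have h2 : clp 0 T0 t ≤ T0 := max_le h0.le (min_le_left _ _)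
  exact ⟨div_nonneg h1 h0.le, (div_le_one h0).2 h2⟩

theorem Vin_bdd {T0 : ℝ} (hT : 1 ≤ T0) (x : Fin 2 → ℝ) (t : ℝ) (a : Fin 2) :
    |Vin T0 x t a| ≤ 2 := by
  obtain ⟨h1, h2⟩ := RInitB_clp hT t
  unfold Vin
  split_ifs with h
  · rw [abs_mul, abs_of_nonneg (by linarith)]
    have h3 := Real.abs_sin_le_one (x 1)
    have h4 := abs_nonneg (Real.sin (x 1))
    nlinarith
  · rw [abs_zero]
    norm_num

private theorem RInitB_sin_pos : 0 < ∫ x in Bx, Real.sin (x 1) ^ 2 := by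
  have hc : Continuous fun x : Fin 2 → ℝ => Real.sin (x 1) ^ 2 := by fun_prop
  have hcomp : IsCompact Bx := isCompact_Icc
  have hint : IntegrableOn (fun x : Fin 2 → ℝ => Real.sin (x 1) ^ 2) Bx :=
    hc.continuousOn.integrableOn_compact hcomp
  rw [setIntegral_pos_iff_support_of_nonneg_ae
    (Filter.Eventually.of_forall fun x => sq_nonneg _) hint]
  have hU : IsOpen (Set.pi Set.univ (fun _ : Fin 2 => Set.Ioo (0 : ℝ) Real.pi)) :=
    isOpen_set_pi Set.finite_univ fun _ _ => isOpen_Ioo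
  have hne : (Set.pi Set.univ (fun _ : Fin 2 => Set.Ioo (0 : ℝ) Real.pi)).Nonempty :=
    ⟨fun _ => Real.pi / 2, fun _ _ => ⟨by positivity, by linarith [Real.pi_pos]⟩⟩
  refine lt_of_lt_of_le (hU.measure_pos volume hne) (measure_mono ?_)
  intro x hx
  refine ⟨?_, ?_, ?_⟩
  · have h := hx 1 (Set.mem_univ _)
    exact pow_ne_zero 2 (Real.sin_pos_of_mem_Ioo h).ne'
  · intro a
    exact (hx a (Set.mem_univ _)).1.le
  · intro a
    have h := (hx a (Set.mem_univ _)).2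
    show x a ≤ 2 * Real.pi
    linarith [Real.pi_pos]

theorem Vin_energy {T0 : ℝ} (hT : 1 ≤ T0) :
    ∫ x in Bx, ∑ a, Vin T0 x 0 a ^ 2 ≠ ∫ x in Bx, ∑ a, Vin T0 x T0 a ^ 2 := by
  have h0 : 0 < T0 := by linarith
  have e0 : clp 0 T0 0 = 0 := by
    unfold clp
    rw [min_eq_right h0.le, max_self]
  have e1 : clp 0 T0 T0 = T0 := by
    unfold clp
    rw [min_self, max_eq_right h0.le]
  have h1 : ∀ x : Fin 2 → ℝ, ∑ a, Vin T0 x 0 a ^ 2 = Real.sin (x 1) ^ 2 := by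
    intro x
    rw [Fin.sum_univ_two]
    simp [Vin, e0]
  have h2 : ∀ x : Fin 2 → ℝ, ∑ a, Vin T0 x T0 a ^ 2 = 4 * Real.sin (x 1) ^ 2 := by
    intro x
    rw [Fin.sum_univ_two]
    simp only [Vin, e1, if_true, div_self h0.ne', one_ne_zero, if_false]
    ring
  simp_rw [h1, h2]
  rw [integral_const_mul]
  have h3 := RInitB_sin_pos
  intro h4
  linarith

end ES
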