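import Pool.Agent.ES.RWfD

/-!
Project ES, Part III, module RWfA: continuity in time of the integrands.

`Lp.cont_on`: `Lp V s t Λ` implies joint continuity on `univ ×ˢ Icc s t`.
`wf_cont`, `pr_cont`: continuity on `Icc s t` of parametric integrals over the compact box `Bx`
(`φ` is `C²`, so `φ`, `∂_t φ`, `∇φ` are jointly continuous, hence bounded on `Bx ×ˢ Icc s t`;
`MeasureTheory.continuousOn_of_dominated`).
-/

open MeasureTheory Set Filter Topology

namespace ES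

theorem Lp.cont_on {V : Fld} {s t Λ : ℝ} (h : Lp V s t Λ) :
    ContinuousOn (uc V) (univ ×ˢ Icc s t) := by
  rw [continuousOn_pi]
  intro a
  have hL : LipschitzOnWith (Real.toNNReal (2 * |Λ|)) (fun x => uc V x a) (univ ×ˢ Icc s t) := by
    refine LipschitzOnWith.of_dist_le_mul ?_
    rintro ⟨x, τ⟩ hx ⟨y, τ'⟩ hy
    rw [Real.coe_toNNReal _ (by positivity)]
    have h1 := h τ hx.2 τ' hy.2 x y a
    have h2 : ‖x - y‖ ≤ dist (x, τ) (y, τ') := by
      rw [← dist_eq_norm, Prod.dist_eq]; exact le_max_left _ _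
    have h3 : |τ - τ'| ≤ dist (x, τ) (y, τ') := by
      rw [← Real.dist_eq, Prod.dist_eq]; exact le_max_right _ _
    have h4 : 0 ≤ ‖x - y‖ + |τ - τ'| := by positivity
    calc dist (uc V (x, τ) a) (uc V (y, τ') a) = |V x τ a - V y τ' a| := by
          rw [Real.dist_eq]; rfl
      _ ≤ Λ * (‖x - y‖ + |τ - τ'|) := h1
      _ ≤ |Λ| * (‖x - y‖ + |τ - τ'|) := mul_le_mul_of_nonneg_right (le_abs_self _) h4
      _ ≤ |Λ| * (2 * dist (x, τ) (y, τ')) :=
          mul_le_mul_of_nonneg_left (by linarith) (abs_nonneg _)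
      _ = 2 * |Λ| * dist (x, τ) (y, τ') := by ring
  exact hL.continuousOn

private theorem RWfA_param {F : (Fin 2 → ℝ) → ℝ → ℝ} {s t : ℝ}
    (hF : ContinuousOn (fun x : (Fin 2 → ℝ) × ℝ => F x.1 x.2) (univ ×ˢ Icc s t)) :
    ContinuousOn (fun τ => ∫ x in Bx, F x τ) (Icc s t) := by
  rcases le_or_gt s t with hst | hst
  · have hc : Continuous fun τ : ℝ => max s (min t τ) := by fun_prop
    have hm : ∀ τ : ℝ, max s (min t τ) ∈ Icc s t := fun τ =>
      ⟨le_max_left _ _, max_le hst (min_le_left _ _)⟩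
    have h1 : Continuous (Function.uncurry fun (τ : ℝ) (x : Fin 2 → ℝ) =>
        F x (max s (min t τ))) := by
      have h2 : Continuous fun q : ℝ × (Fin 2 → ℝ) => ((q.2, max s (min t q.1)) :
          (Fin 2 → ℝ) × ℝ) := by fun_prop
      have h3 := hF.comp_continuous h2 (fun q => ⟨mem_univ _, hm q.1⟩)
      exact h3
    have h4 : Continuous fun τ : ℝ => ∫ x in Bx, F x (max s (min t τ)) :=
      continuous_parametric_integral_of_continuous h1 isCompact_Icc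
    refine h4.continuousOn.congr fun τ hτ => ?_
    have h5 : max s (min t τ) = τ := by rw [min_eq_right hτ.2, max_eq_right hτ.1]
    simp only [h5]
  · rw [Icc_eq_empty (not_le.2 hst)]; exact continuousOn_empty _

private theorem RWfA_dt {φ : Fld} (hφ : Tst φ) (x : Fin 2 → ℝ) (τ : ℝ) (a : Fin 2) :
    deriv (fun r => φ x r a) τ
      = fderiv ℝ (fun p : (Fin 2 → ℝ) × ℝ => φ p.1 p.2) (x, τ) (0, 1) a := by
  have h1 : HasFDerivAt (fun p : (Fin 2 → ℝ) × ℝ => φ p.1 p.2)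
      (fderiv ℝ (fun p : (Fin 2 → ℝ) × ℝ => φ p.1 p.2) (x, τ)) (x, τ) :=
    (hφ.smooth.differentiable (by norm_num) _).hasFDerivAt
  have h2 : HasDerivAt (fun r : ℝ => ((x, r) : (Fin 2 → ℝ) × ℝ)) (0, 1) τ :=
    (hasDerivAt_const τ x).prodMk (hasDerivAt_id τ)
  have h3 : HasDerivAt (fun r : ℝ => φ x r)
      (fderiv ℝ (fun p : (Fin 2 → ℝ) × ℝ => φ p.1 p.2) (x, τ) (0, 1)) τ :=
    h1.comp_hasDerivAt τ h2
  exact ((hasDerivAt_pi.1 h3) a).deriv

private theorem RWfA_dx {φ : Fld} (hφ : Tst φ) (x : Fin 2 → ℝ) (τ : ℝ) (a b : Fin 2) :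
    fderiv ℝ (fun y => φ y τ a) x (Pi.single b 1)
      = fderiv ℝ (fun p : (Fin 2 → ℝ) × ℝ => φ p.1 p.2) (x, τ) (Pi.single b 1, 0) a := by
  have h1 : HasFDerivAt (fun p : (Fin 2 → ℝ) × ℝ => φ p.1 p.2)
      (fderiv ℝ (fun p : (Fin 2 → ℝ) × ℝ => φ p.1 p.2) (x, τ)) (x, τ) :=
    (hφ.smooth.differentiable (by norm_num) _).hasFDerivAt
  have h2 : HasFDerivAt (fun y : Fin 2 → ℝ => ((y, τ) : (Fin 2 → ℝ) × ℝ))
      ((ContinuousLinearMap.id ℝ (Fin 2 → ℝ)).prod 0) x :=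
    (hasFDerivAt_id x).prodMk (hasFDerivAt_const τ x)
  have h3 : HasFDerivAt (fun y : Fin 2 → ℝ => φ y τ)
      ((fderiv ℝ (fun p : (Fin 2 → ℝ) × ℝ => φ p.1 p.2) (x, τ)).comp
        ((ContinuousLinearMap.id ℝ (Fin 2 → ℝ)).prod 0)) x :=
    HasFDerivAt.comp (g := fun p : (Fin 2 → ℝ) × ℝ => φ p.1 p.2) x h1 h2
  have h4 := (hasFDerivAt_pi'.1 h3) a
  rw [h4.fderiv]
  rfl

private theorem RWfA_cf {φ : Fld} (hφ : Tst φ) (v : (Fin 2 → ℝ) × ℝ) (a : Fin 2) :
    Continuous fun p : (Fin 2 → ℝ) × ℝ =>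
      fderiv ℝ (fun p : (Fin 2 → ℝ) × ℝ => φ p.1 p.2) p v a := by
  have h1 : Continuous (fderiv ℝ (fun p : (Fin 2 → ℝ) × ℝ => φ p.1 p.2)) :=
    hφ.smooth.continuous_fderiv (by norm_num)
  have h2 : Continuous fun p : (Fin 2 → ℝ) × ℝ =>
      fderiv ℝ (fun p : (Fin 2 → ℝ) × ℝ => φ p.1 p.2) p v := h1.clm_apply continuous_const
  exact (continuous_apply a).comp h2

theorem wf_cont {V φ : Fld} {s t : ℝ} (hV : ContinuousOn (uc V) (univ ×ˢ Icc s t)) (hφ : Tst φ) :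
    ContinuousOn (fun τ => wf V φ τ) (Icc s t) := by
  unfold wf
  have hVa : ∀ a : Fin 2, ContinuousOn (fun x : (Fin 2 → ℝ) × ℝ => V x.1 x.2 a)
      (univ ×ˢ Icc s t) := fun a => continuousOn_pi.1 hV a
  refine RWfA_param (F := fun x τ => (∑ a, V x τ a * deriv (fun s => φ x s a) τ) +
    ∑ a, ∑ b, V x τ a * V x τ b * fderiv ℝ (fun y => φ y τ a) x (Pi.single b 1)) ?_
  refine ContinuousOn.add ?_ ?_
  · refine continuousOn_finsetSum _ fun a _ => (hVa a).mul ?_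
    refine (RWfA_cf hφ (0, 1) a).continuousOn.congr fun p _ => ?_
    exact RWfA_dt hφ p.1 p.2 a
  · refine continuousOn_finsetSum _ fun a _ => continuousOn_finsetSum _ fun b _ =>
      ((hVa a).mul (hVa b)).mul ?_
    refine (RWfA_cf hφ (Pi.single b 1, 0) a).continuousOn.congr fun p _ => ?_
    exact RWfA_dx hφ p.1 p.2 a b

theorem pr_cont {V φ : Fld} {s t : ℝ} (hV : ContinuousOn (uc V) (univ ×ˢ Icc s t)) (hφ : Tst φ) :
    ContinuousOn (fun τ => pr V φ τ) (Icc s t) := by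
  unfold pr
  have hVa : ∀ a : Fin 2, ContinuousOn (fun x : (Fin 2 → ℝ) × ℝ => V x.1 x.2 a)
      (univ ×ˢ Icc s t) := fun a => continuousOn_pi.1 hV a
  refine RWfA_param (F := fun x τ => ∑ a, V x τ a * φ x τ a) ?_
  refine continuousOn_finsetSum _ fun a _ => (hVa a).mul ?_
  exact ((continuous_apply a).comp hφ.smooth.continuous).continuousOn

end ES
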