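import Pool.Agent.ES.RLimA
import Pool.Agent.ES.RWfA

/-!
Project ES, Part III, module RLimB: continuity, periodicity and divergence of the limit
(uniform limits; for `DF` the convergence of the integrals over the compact box `Bx`).
-/

open MeasureTheory Set Filter Topology

namespace ES

variable {T0 : ℝ} {V : ℕ → Fld} {τ : ℕ → PT} {e Λ ε : ℕ → ℝ} {v : ℝ}

namespace LSeq

private theorem RLimB_unif (h : LSeq T0 V τ e Λ ε v) :
    TendstoUniformlyOn (fun k => uc (V k)) (uc (Vlim V)) atTop univ := by
  rw [Metric.tendstoUniformlyOn_iff]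
  intro δ hδ
  have h1 := tendsto_sum_nat_add e
  filter_upwards [h1.eventually (gt_mem_nhds hδ)] with k hk x _
  rw [dist_eq_norm, pi_norm_lt_iff hδ]
  intro a
  exact (h.tail k x.1 x.2 a).trans_lt hk

theorem cont (h : LSeq T0 V τ e Λ ε v) : ContinuousOn (uc (Vlim V)) (univ ×ˢ Icc 0 T0) := by
  refine ((RLimB_unif h).mono (subset_univ _)).continuousOn ?_
  exact (Eventually.of_forall fun k => (h.lip k).cont_on).frequently

theorem lim_per (h : LSeq T0 V τ e Λ ε v) {t : ℝ} (ht : t ∈ Icc 0 T0) : PerF (Vlim V) t := by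
  intro x n
  have hp : ∀ k, V k (fun a => x a + 2 * Real.pi * n a) t = V k x t := fun k =>
    h.per k t ht x n
  funext a
  simp only [Vlim, hp]

theorem lim_df (h : LSeq T0 V τ e Λ ε v) {t : ℝ} (ht : t ∈ Icc 0 T0) : DF (Vlim V) t := by
  intro ψ hψ hper
  have hD : ∀ a : Fin 2, Continuous fun x => fderiv ℝ ψ x (Pi.single a 1) := fun a =>
    (hψ.continuous_fderiv (by norm_num)).clm_apply continuous_const
  have hVc : ∀ k, Continuous fun x => V k x t := by
    intro k
    have h1 := (h.lip k).cont_on
    rw [← continuousOn_univ]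
    exact h1.comp (f := fun x : Fin 2 → ℝ => (x, t))
      (continuous_id.prodMk continuous_const).continuousOn (fun x _ => ⟨mem_univ _, ht⟩)
  have hBx : IsCompact Bx := isCompact_Icc
  have hlim : Tendsto (fun k => ∫ x in Bx, ∑ a, V k x t a * fderiv ℝ ψ x (Pi.single a 1)) atTop
      (𝓝 (∫ x in Bx, ∑ a, Vlim V x t a * fderiv ℝ ψ x (Pi.single a 1))) := by
    refine tendsto_integral_of_dominated_convergence
      (fun x => ∑ a, v * |fderiv ℝ ψ x (Pi.single a 1)|) ?_ ?_ ?_ ?_
    · intro k
      refine Continuous.aestronglyMeasurable ?_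
      exact continuous_finsetSum _ fun a _ =>
        ((continuous_apply a).comp (hVc k)).mul (hD a)
    · refine ContinuousOn.integrableOn_compact hBx ?_
      exact (continuous_finsetSum _ fun a _ => continuous_const.mul (hD a).abs).continuousOn
    · intro k
      refine Eventually.of_forall fun x => ?_
      refine (norm_sum_le _ _).trans (Finset.sum_le_sum fun a _ => ?_)
      rw [norm_mul, Real.norm_eq_abs, Real.norm_eq_abs]
      exact mul_le_mul_of_nonneg_right (h.vbd k x t ht a) (abs_nonneg _)
    · refine Eventually.of_forall fun x => ?_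
      refine tendsto_finsetSum _ fun a _ => Tendsto.mul_const _ ?_
      have h1 := (RLimB_unif h).tendsto_at (mem_univ (x, t))
      exact ((continuous_apply a).tendsto _).comp h1
  have h0 : ∀ k, ∫ x in Bx, ∑ a, V k x t a * fderiv ℝ ψ x (Pi.single a 1) = 0 := fun k =>
    h.df k t ht ψ hψ hper
  simp only [h0] at hlim
  exact (tendsto_nhds_unique hlim tendsto_const_nhds)

end LSeq

end ES
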