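import Pool.Agent.ES.RLimA

/-!
Project ES, Part III, module RLimC: Hoelder continuity of the limit.

Let `d = ‖x-y‖ + |s-t|`.  For `k ≥ 0`, `D_k = V (k+1) - V k` satisfies
`|D_k x s a - D_k y t a| ≤ 2 e k` and `≤ (Λ k + Λ (k+1)) d`, hence `≤ (2 e k)^(1-β) ((Λ k + Λ (k+1)) d)^β`
(`a ≤ A`, `a ≤ B` imply `a = a^(1-β) a^β ≤ A^(1-β) B^β`, also for `β = 0`).  The same for `V 0` with `2 v`
and `Λ 0`.  Sum over `k`.
-/

open MeasureTheory Set Filter Topology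

namespace ES

variable {T0 : ℝ} {V : ℕ → Fld} {τ : ℕ → PT} {e Λ ε : ℕ → ℝ} {v : ℝ}

namespace LSeq

private theorem RLimC_interp {z A B d β : ℝ} (hz : 0 ≤ z) (hA : z ≤ A) (hB : z ≤ B * d)
    (hB0 : 0 ≤ B) (hd : 0 ≤ d) (hβ0 : 0 ≤ β) (hβ : β < 1) :
    z ≤ A ^ (1 - β) * B ^ β * d ^ β := by
  have h1 : z = z ^ (1 - β) * z ^ β := by
    rw [← Real.rpow_add_of_nonneg hz (by linarith) hβ0]
    simp
  rw [h1, mul_assoc, ← Real.mul_rpow hB0 hd]
  exact mul_le_mul (Real.rpow_le_rpow hz hA (by linarith)) (Real.rpow_le_rpow hz hB hβ0)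
    (Real.rpow_nonneg hz _) (Real.rpow_nonneg (hz.trans hA) _)

/-- Hoelder continuity of the limit by interpolation:
`|a| ≤ A` and `|a| ≤ B d` imply `|a| ≤ A^(1-β) (B d)^β`. -/
theorem hoelder (h : LSeq T0 V τ e Λ ε v) {β : ℝ} (hβ0 : 0 ≤ β) (hβ : β < 1)
    (hs : Summable fun k => (e k) ^ (1 - β) * (Λ k + Λ (k + 1)) ^ β) :
    ∃ C : ℝ, ∀ x y, ∀ s ∈ Icc 0 T0, ∀ t ∈ Icc 0 T0, ∀ a,
      |Vlim V x s a - Vlim V y t a| ≤ C * (‖x - y‖ + |s - t|) ^ β := by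
  refine ⟨(2 * v) ^ (1 - β) * (Λ 0) ^ β +
    2 ^ (1 - β) * ∑' k, (e k) ^ (1 - β) * (Λ k + Λ (k + 1)) ^ β, ?_⟩
  intro x y s hs' t ht a
  have hd : 0 ≤ ‖x - y‖ + |s - t| := by positivity
  have h0 : |V 0 x s a - V 0 y t a| ≤ (2 * v) ^ (1 - β) * (Λ 0) ^ β *
      (‖x - y‖ + |s - t|) ^ β := by
    refine RLimC_interp (abs_nonneg _) ?_ (h.lip 0 s hs' t ht x y a) (h.lip0 0) hd hβ0 hβ
    have h1 := h.vbd 0 x s hs' a
    have h2 := h.vbd 0 y t ht a
    calc |V 0 x s a - V 0 y t a| ≤ |V 0 x s a| + |V 0 y t a| := abs_sub _ _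
      _ ≤ 2 * v := by linarith
  have hk : ∀ k, ‖(V (k + 1) x s a - V k x s a) - (V (k + 1) y t a - V k y t a)‖ ≤
      2 ^ (1 - β) * ((e k) ^ (1 - β) * (Λ k + Λ (k + 1)) ^ β) *
        (‖x - y‖ + |s - t|) ^ β := by
    intro k
    rw [Real.norm_eq_abs]
    have h1 : |(V (k + 1) x s a - V k x s a) - (V (k + 1) y t a - V k y t a)| ≤ 2 * e k := by
      have h1 := h.near k x s a
      have h2 := h.near k y t a
      calc _ ≤ |V (k + 1) x s a - V k x s a| + |V (k + 1) y t a - V k y t a| := abs_sub _ _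
        _ ≤ 2 * e k := by linarith
    have h2 : |(V (k + 1) x s a - V k x s a) - (V (k + 1) y t a - V k y t a)| ≤
        (Λ k + Λ (k + 1)) * (‖x - y‖ + |s - t|) := by
      have h1 := h.lip k s hs' t ht x y a
      have h2 := h.lip (k + 1) s hs' t ht x y a
      have e1 : (V (k + 1) x s a - V k x s a) - (V (k + 1) y t a - V k y t a)
          = (V (k + 1) x s a - V (k + 1) y t a) - (V k x s a - V k y t a) := by ring
      rw [e1]
      calc _ ≤ |V (k + 1) x s a - V (k + 1) y t a| + |V k x s a - V k y t a| := abs_sub _ _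
        _ ≤ (Λ k + Λ (k + 1)) * (‖x - y‖ + |s - t|) := by
          rw [add_mul]; linarith
    have h3 := RLimC_interp (abs_nonneg _) h1 h2 (add_nonneg (h.lip0 k) (h.lip0 (k + 1))) hd
      hβ0 hβ
    rw [Real.mul_rpow (by norm_num) (h.e_nonneg k)] at h3
    calc _ ≤ _ := h3
      _ = _ := by ring
  have hsum : Summable fun k => 2 ^ (1 - β) * ((e k) ^ (1 - β) * (Λ k + Λ (k + 1)) ^ β) *
        (‖x - y‖ + |s - t|) ^ β := (hs.mul_left _).mul_right _
  have hD : ∀ (x : Fin 2 → ℝ) (t : ℝ), Summable fun k => V (k + 1) x t a - V k x t a :=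
    fun x t => Summable.of_norm_bounded h.esum (fun k => by
      rw [Real.norm_eq_abs]; exact h.near k x t a)
  have h1 : Vlim V x s a - Vlim V y t a = (V 0 x s a - V 0 y t a) +
      ∑' k, ((V (k + 1) x s a - V k x s a) - (V (k + 1) y t a - V k y t a)) := by
    rw [(hD x s).tsum_sub (hD y t)]
    unfold Vlim
    ring
  have h2 : |∑' k, ((V (k + 1) x s a - V k x s a) - (V (k + 1) y t a - V k y t a))| ≤
      ∑' k, 2 ^ (1 - β) * ((e k) ^ (1 - β) * (Λ k + Λ (k + 1)) ^ β) *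
        (‖x - y‖ + |s - t|) ^ β := by
    rw [← Real.norm_eq_abs]
    exact tsum_of_norm_bounded hsum.hasSum hk
  rw [h1]
  refine (abs_add_le _ _).trans ?_
  rw [tsum_mul_right, tsum_mul_left] at h2
  calc _ ≤ _ := add_le_add h0 h2
    _ = _ := by ring

end LSeq

end ES
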