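import Pool.Agent.ES.RWfD

/-!
Project ES, Part III, module RWfB: bounds.

`Tst.bdd`: the functions `φ`, `∂_t φ`, `∂_b φ` are jointly continuous (`φ` is `C²`) and `2π`-periodic in
space, so they are bounded on `ℝ² ×ˢ [s,t]` (bounded on the compact `Bx ×ˢ [s,t]`, reduce mod `2π`).
`pr_sub_le`, `wf_sub_le`: uniform closeness of the fields gives closeness of the integrals; the
volume of `Bx` is `(2π)²`.
-/

open MeasureTheory Set Filter Topology

namespace ES

private theorem RWfB_dt {φ : Fld} (hφ : Tst φ) (x : Fin 2 → ℝ) (τ : ℝ) (a : Fin 2) :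
    deriv (fun r => φ x r a) τ
      = fderiv ℝ (fun p : (Fin 2 → ℝ) × ℝ => φ p.1 p.2) (x, τ) (0, 1) a := by
  have h1 : HasFDerivAt (fun p : (Fin 2 → ℝ) × ℝ => φ p.1 p.2)
      (fderiv ℝ (fun p : (Fin 2 → ℝ) × ℝ => φ p.1 p.2) (x, τ)) (x, τ) :=
    (hφ.smooth.differentiable (by norm_num) _).hasFDerivAt
  have h2 : HasDerivAt (fun r : ℝ => ((x, r) : (Fin 2 → ℝ) × ℝ)) (0, 1) τ :=
    (hasDerivAt_const τ x).prodMk (hasDerivAt_id τ)
  have h3 : HasDerivAt (fun r : ℝ => φ x r)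
      (fderiv ℝ (fun p : (Fin 2 → ℝ) × ℝ => φ p.1 p.2) (x, τ) (0, 1)) τ :=
    h1.comp_hasDerivAt τ h2
  exact ((hasDerivAt_pi.1 h3) a).deriv

private theorem RWfB_dx {φ : Fld} (hφ : Tst φ) (x : Fin 2 → ℝ) (τ : ℝ) (a b : Fin 2) :
    fderiv ℝ (fun y => φ y τ a) x (Pi.single b 1)
      = fderiv ℝ (fun p : (Fin 2 → ℝ) × ℝ => φ p.1 p.2) (x, τ) (Pi.single b 1, 0) a := by
  have h1 : HasFDerivAt (fun p : (Fin 2 → ℝ) × ℝ => φ p.1 p.2)
      (fderiv ℝ (fun p : (Fin 2 → ℝ) × ℝ => φ p.1 p.2) (x, τ)) (x, τ) :=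
    (hφ.smooth.differentiable (by norm_num) _).hasFDerivAt
  have h2 : HasFDerivAt (fun y : Fin 2 → ℝ => ((y, τ) : (Fin 2 → ℝ) × ℝ))
      ((ContinuousLinearMap.id ℝ (Fin 2 → ℝ)).prod 0) x :=
    (hasFDerivAt_id x).prodMk (hasFDerivAt_const τ x)
  have h3 : HasFDerivAt (fun y : Fin 2 → ℝ => φ y τ)
      ((fderiv ℝ (fun p : (Fin 2 → ℝ) × ℝ => φ p.1 p.2) (x, τ)).comp
        ((ContinuousLinearMap.id ℝ (Fin 2 → ℝ)).prod 0)) x :=
    HasFDerivAt.comp (g := fun p : (Fin 2 → ℝ) × ℝ => φ p.1 p.2) x h1 h2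
  have h4 := (hasFDerivAt_pi'.1 h3) a
  rw [h4.fderiv]
  rfl

private theorem RWfB_cf {φ : Fld} (hφ : Tst φ) (v : (Fin 2 → ℝ) × ℝ) (a : Fin 2) :
    Continuous fun p : (Fin 2 → ℝ) × ℝ =>
      fderiv ℝ (fun p : (Fin 2 → ℝ) × ℝ => φ p.1 p.2) p v a := by
  have h1 : Continuous (fderiv ℝ (fun p : (Fin 2 → ℝ) × ℝ => φ p.1 p.2)) :=
    hφ.smooth.continuous_fderiv (by norm_num)
  have h2 : Continuous fun p : (Fin 2 → ℝ) × ℝ =>
      fderiv ℝ (fun p : (Fin 2 → ℝ) × ℝ => φ p.1 p.2) p v := h1.clm_apply continuous_const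
  exact (continuous_apply a).comp h2

private theorem RWfB_red (x : Fin 2 → ℝ) :
    ∃ n : Fin 2 → ℤ, (fun a => x a + 2 * Real.pi * n a) ∈ Bx := by
  have hp : (0 : ℝ) < 2 * Real.pi := by positivity
  refine ⟨fun a => -⌊x a / (2 * Real.pi)⌋, ?_, ?_⟩
  · intro a
    have h1 : (⌊x a / (2 * Real.pi)⌋ : ℝ) ≤ x a / (2 * Real.pi) := Int.floor_le _
    rw [le_div_iff₀ hp] at h1
    simp only [Pi.zero_apply]
    push_cast
    linarith
  · intro a
    have h1 : x a / (2 * Real.pi) < (⌊x a / (2 * Real.pi)⌋ : ℝ) + 1 := Int.lt_floor_add_one _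
    rw [div_lt_iff₀ hp] at h1
    simp only
    push_cast
    linarith

/-- On a compact time interval a test function and its first derivatives are bounded. -/
theorem Tst.bdd {φ : Fld} (hφ : Tst φ) (s t : ℝ) : ∃ M : ℝ, 0 ≤ M ∧ ∀ x, ∀ τ ∈ Icc s t, ∀ a,
    |φ x τ a| ≤ M ∧ |deriv (fun r => φ x r a) τ| ≤ M ∧
      ∀ b, |fderiv ℝ (fun y => φ y τ a) x (Pi.single b 1)| ≤ M := by
  set Φ : (Fin 2 → ℝ) × ℝ → (Fin 2 → ℝ) := fun p => φ p.1 p.2 with hΦ
  have hc : Continuous Φ := hφ.smooth.continuous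
  have hc' : Continuous (fderiv ℝ Φ) := hφ.smooth.continuous_fderiv (by norm_num)
  have hK : IsCompact (Bx ×ˢ Icc s t) := isCompact_Icc.prod isCompact_Icc
  obtain ⟨M, hM⟩ := hK.exists_bound_of_continuousOn
    (f := fun p => ‖Φ p‖ + ‖fderiv ℝ Φ p‖) (hc.norm.add hc'.norm).continuousOn
  have key : ∀ y ∈ Bx, ∀ τ ∈ Icc s t, ∀ a,
    |φ y τ a| ≤ max M 0 ∧ |deriv (fun r => φ y r a) τ| ≤ max M 0 ∧
      ∀ b, |fderiv ℝ (fun y => φ y τ a) y (Pi.single b 1)| ≤ max M 0 := by
    intro y hy τ hτ a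
    have h1 : ‖Φ (y, τ)‖ + ‖fderiv ℝ Φ (y, τ)‖ ≤ max M 0 := by
      have := hM (y, τ) ⟨hy, hτ⟩
      rw [Real.norm_of_nonneg (by positivity)] at this
      exact this.trans (le_max_left _ _)
    have h2 : 0 ≤ ‖Φ (y, τ)‖ := norm_nonneg _
    have h3 : 0 ≤ ‖fderiv ℝ Φ (y, τ)‖ := norm_nonneg _
    have hv : ∀ v : (Fin 2 → ℝ) × ℝ, ‖v‖ ≤ 1 → |fderiv ℝ Φ (y, τ) v a| ≤ max M 0 := by
      intro v hv
      have h4 : |fderiv ℝ Φ (y, τ) v a| ≤ ‖fderiv ℝ Φ (y, τ) v‖ := by
        rw [← Real.norm_eq_abs]; exact norm_le_pi_norm _ a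
      have h5 : ‖fderiv ℝ Φ (y, τ) v‖ ≤ ‖fderiv ℝ Φ (y, τ)‖ * 1 :=
        (ContinuousLinearMap.le_opNorm _ _).trans (mul_le_mul_of_nonneg_left hv h3)
      linarith
    refine ⟨?_, ?_, fun b => ?_⟩
    · have h4 : |φ y τ a| ≤ ‖Φ (y, τ)‖ := by
        rw [← Real.norm_eq_abs]; exact norm_le_pi_norm (Φ (y, τ)) a
      linarith
    · rw [RWfB_dt hφ]
      refine hv _ ?_
      rw [Prod.norm_mk]; simp
    · rw [RWfB_dx hφ]
      refine hv _ ?_
      rw [Prod.norm_mk]
      simp only [norm_zero]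
      refine max_le ?_ zero_le_one
      rw [pi_norm_le_iff_of_nonneg zero_le_one]
      intro i
      by_cases h : i = b
      · subst h; simp
      · simp [Pi.single_eq_of_ne h]
  refine ⟨max M 0, le_max_right _ _, fun x τ hτ a => ?_⟩
  obtain ⟨n, hn⟩ := RWfB_red x
  have h := key _ hn τ hτ a
  have hp : ∀ r, φ (fun a => x a + 2 * Real.pi * n a) r = φ x r := fun r => hφ.per x n r
  refine ⟨?_, ?_, fun b => ?_⟩
  · have := h.1
    rwa [hp] at this
  · have := h.2.1
    simp only [hp] at this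
    exact this
  · have h1 := h.2.2 b
    have h2 : fderiv ℝ (fun y => φ y τ a) (fun a => x a + 2 * Real.pi * n a)
        = fderiv ℝ (fun y => φ y τ a) x := by
      have h3 : (fun y : Fin 2 → ℝ => φ (y + fun a => 2 * Real.pi * (n a : ℝ)) τ a)
          = fun y => φ y τ a := by
        funext y
        exact congrFun (hφ.per y n τ) a
      have h4 := fderiv_comp_add_right (𝕜 := ℝ) (f := fun y : Fin 2 → ℝ => φ y τ a) (x := x)
        (fun a => 2 * Real.pi * (n a : ℝ))
      rw [h3] at h4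
      exact h4.symm
    rwa [h2] at h1

private theorem RWfB_vol : (volume : Measure (Fin 2 → ℝ)).real Bx = (2 * Real.pi) ^ 2 := by
  have hp : (0 : ℝ) ≤ 2 * Real.pi := by positivity
  rw [measureReal_def, Bx, Real.volume_Icc_pi_toReal (by intro i; exact hp)]
  simp [sq]

private theorem RWfB_int {F : (Fin 2 → ℝ) → ℝ} (hF : Continuous F) :
    IntegrableOn F Bx := hF.continuousOn.integrableOn_compact isCompact_Icc

theorem pr_sub_le {V W φ : Fld} {t M e : ℝ} (hM : ∀ x ∈ Bx, ∀ a, |φ x t a| ≤ M)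
    (hV : Continuous fun x => V x t) (hW : Continuous fun x => W x t)
    (hφ : Continuous fun x => φ x t)
    (he : ∀ x ∈ Bx, ∀ a, |V x t a - W x t a| ≤ e) :
    |pr V φ t - pr W φ t| ≤ 2 * (2 * Real.pi) ^ 2 * M * e := by
  have hVa : ∀ a : Fin 2, Continuous fun x => V x t a := fun a => (continuous_apply a).comp hV
  have hWa : ∀ a : Fin 2, Continuous fun x => W x t a := fun a => (continuous_apply a).comp hW
  have hφa : ∀ a : Fin 2, Continuous fun x => φ x t a := fun a => (continuous_apply a).comp hφ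
  have h1 : pr V φ t - pr W φ t = ∫ x in Bx, ((∑ a, V x t a * φ x t a) -
      ∑ a, W x t a * φ x t a) := by
    unfold pr
    rw [integral_sub]
    · exact RWfB_int (continuous_finsetSum _ fun a _ => (hVa a).mul (hφa a))
    · exact RWfB_int (continuous_finsetSum _ fun a _ => (hWa a).mul (hφa a))
  have h2 : ∀ x ∈ Bx, ‖(∑ a, V x t a * φ x t a) - ∑ a, W x t a * φ x t a‖ ≤ 2 * (e * M) := by
    intro x hx
    rw [← Finset.sum_sub_distrib, Real.norm_eq_abs]
    refine (Finset.abs_sum_le_sum_abs _ _).trans ?_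
    have h3 : ∀ a ∈ (Finset.univ : Finset (Fin 2)), |V x t a * φ x t a - W x t a * φ x t a|
        ≤ e * M := by
      intro a _
      rw [← sub_mul, abs_mul]
      exact mul_le_mul (he x hx a) (hM x hx a) (abs_nonneg _) ((abs_nonneg _).trans (he x hx a))
    refine (Finset.sum_le_sum h3).trans ?_
    simp
  have h4 := norm_setIntegral_le_of_norm_le_const (μ := volume) (s := Bx)
    (isCompact_Icc.measure_lt_top) h2
  rw [RWfB_vol, Real.norm_eq_abs, ← h1] at h4
  linarith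

theorem wf_sub_le {V W φ : Fld} (hφ : Tst φ) {t M e v : ℝ}
    (hM : ∀ x ∈ Bx, ∀ a, |deriv (fun r => φ x r a) t| ≤ M ∧
      ∀ b, |fderiv ℝ (fun y => φ y t a) x (Pi.single b 1)| ≤ M)
    (hV : Continuous fun x => V x t) (hW : Continuous fun x => W x t)
    (hv : ∀ x ∈ Bx, ∀ a, |V x t a| ≤ v ∧ |W x t a| ≤ v)
    (he : ∀ x ∈ Bx, ∀ a, |V x t a - W x t a| ≤ e) :
    |wf V φ t - wf W φ t| ≤ (2 * Real.pi) ^ 2 * M * (2 * e + 8 * v * e) := by
  have hVa : ∀ a : Fin 2, Continuous fun x => V x t a := fun a => (continuous_apply a).comp hV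
  have hWa : ∀ a : Fin 2, Continuous fun x => W x t a := fun a => (continuous_apply a).comp hW
  have hx : Continuous fun x : Fin 2 → ℝ => ((x, t) : (Fin 2 → ℝ) × ℝ) := by fun_prop
  have hdt : ∀ a : Fin 2, Continuous fun x => deriv (fun r => φ x r a) t := by
    intro a
    simp only [RWfB_dt hφ]
    exact (RWfB_cf hφ (0, 1) a).comp hx
  have hdx : ∀ a b : Fin 2, Continuous fun x =>
      fderiv ℝ (fun y => φ y t a) x (Pi.single b 1) := by
    intro a b
    simp only [RWfB_dx hφ]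
    exact (RWfB_cf hφ (Pi.single b 1, 0) a).comp hx
  have hI : ∀ U : Fld, (∀ a : Fin 2, Continuous fun x => U x t a) → IntegrableOn (fun x =>
      ((∑ a, U x t a * deriv (fun s => φ x s a) t) +
    ∑ a, ∑ b, U x t a * U x t b * fderiv ℝ (fun y => φ y t a) x (Pi.single b 1))) Bx := by
    intro U hU
    refine RWfB_int (Continuous.add ?_ ?_)
    · exact continuous_finsetSum _ fun a _ => (hU a).mul (hdt a)
    · exact continuous_finsetSum _ fun a _ => continuous_finsetSum _ fun b _ =>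
        ((hU a).mul (hU b)).mul (hdx a b)
  have h1 : wf V φ t - wf W φ t = ∫ x in Bx, (((∑ a, V x t a * deriv (fun s => φ x s a) t) +
      ∑ a, ∑ b, V x t a * V x t b * fderiv ℝ (fun y => φ y t a) x (Pi.single b 1)) -
      ((∑ a, W x t a * deriv (fun s => φ x s a) t) +
      ∑ a, ∑ b, W x t a * W x t b * fderiv ℝ (fun y => φ y t a) x (Pi.single b 1))) := by
    unfold wf
    rw [integral_sub (hI V hVa) (hI W hWa)]
  have h2 : ∀ x ∈ Bx, ‖((∑ a, V x t a * deriv (fun s => φ x s a) t) +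
      ∑ a, ∑ b, V x t a * V x t b * fderiv ℝ (fun y => φ y t a) x (Pi.single b 1)) -
      ((∑ a, W x t a * deriv (fun s => φ x s a) t) +
      ∑ a, ∑ b, W x t a * W x t b * fderiv ℝ (fun y => φ y t a) x (Pi.single b 1))‖
      ≤ M * (2 * e + 8 * v * e) := by
    intro x hx
    have he0 : 0 ≤ e := (abs_nonneg _).trans (he x hx 0)
    have hv0 : 0 ≤ v := (abs_nonneg _).trans (hv x hx 0).1
    have hM0 : 0 ≤ M := (abs_nonneg _).trans (hM x hx 0).1
    rw [add_sub_add_comm, ← Finset.sum_sub_distrib, ← Finset.sum_sub_distrib, Real.norm_eq_abs]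
    refine (abs_add_le _ _).trans ?_
    have hA : |∑ a, (V x t a * deriv (fun s => φ x s a) t
        - W x t a * deriv (fun s => φ x s a) t)| ≤ 2 * (e * M) := by
      refine (Finset.abs_sum_le_sum_abs _ _).trans ?_
      have h3 : ∀ a ∈ (Finset.univ : Finset (Fin 2)), |V x t a * deriv (fun s => φ x s a) t
          - W x t a * deriv (fun s => φ x s a) t| ≤ e * M := by
        intro a _
        rw [← sub_mul, abs_mul]
        exact mul_le_mul (he x hx a) (hM x hx a).1 (abs_nonneg _) he0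
      refine (Finset.sum_le_sum h3).trans ?_
      simp
    have hB : |∑ a, ((∑ b, V x t a * V x t b * fderiv ℝ (fun y => φ y t a) x (Pi.single b 1))
        - ∑ b, W x t a * W x t b * fderiv ℝ (fun y => φ y t a) x (Pi.single b 1))|
        ≤ 4 * (2 * v * e * M) := by
      refine (Finset.abs_sum_le_sum_abs _ _).trans ?_
      have h3 : ∀ a ∈ (Finset.univ : Finset (Fin 2)),
          |(∑ b, V x t a * V x t b * fderiv ℝ (fun y => φ y t a) x (Pi.single b 1))
          - ∑ b, W x t a * W x t b * fderiv ℝ (fun y => φ y t a) x (Pi.single b 1)|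
          ≤ 2 * (2 * v * e * M) := by
        intro a _
        rw [← Finset.sum_sub_distrib]
        refine (Finset.abs_sum_le_sum_abs _ _).trans ?_
        have h4 : ∀ b ∈ (Finset.univ : Finset (Fin 2)),
            |V x t a * V x t b * fderiv ℝ (fun y => φ y t a) x (Pi.single b 1)
            - W x t a * W x t b * fderiv ℝ (fun y => φ y t a) x (Pi.single b 1)|
            ≤ 2 * v * e * M := by
          intro b _
          rw [← sub_mul, abs_mul]
          refine mul_le_mul ?_ ((hM x hx a).2 b) (abs_nonneg _) (by positivity)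
          have h5 : V x t a * V x t b - W x t a * W x t b
              = V x t a * (V x t b - W x t b) + (V x t a - W x t a) * W x t b := by ring
          rw [h5]
          refine (abs_add_le _ _).trans ?_
          rw [abs_mul, abs_mul]
          have h6 : |V x t a| * |V x t b - W x t b| ≤ v * e :=
            mul_le_mul (hv x hx a).1 (he x hx b) (abs_nonneg _) hv0
          have h7 : |V x t a - W x t a| * |W x t b| ≤ e * v :=
            mul_le_mul (he x hx a) (hv x hx b).2 (abs_nonneg _) he0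
          linarith
        refine (Finset.sum_le_sum h4).trans ?_
        simp
      refine (Finset.sum_le_sum h3).trans ?_
      simp only [Finset.sum_const, Finset.card_univ, Fintype.card_fin, nsmul_eq_mul]
      push_cast
      linarith
    linarith
  have h4 := norm_setIntegral_le_of_norm_le_const (μ := volume) (s := Bx)
    (isCompact_Icc.measure_lt_top) h2
  rw [RWfB_vol, Real.norm_eq_abs, ← h1] at h4
  linarith

end ES
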