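import Pool.Agent.ES.RLimB
import Pool.Agent.ES.RWfB

/-!
Project ES, Part III, module RLimE: the weak formulation of the limit.

`WE (V k) 0 T0 (ε k)` with the bound `Γ` of the gradient of `φ` gives
`|∫ wf (V k) φ - (pr (V k) φ T0 - pr (V k) φ 0)| ≤ ε k T0 Γ → 0`.
`Tst.bdd` on `[0,T0]` gives `M`; with `tail_k = ∑' j, e (j+k) → 0`,
`|∫ wf (V k) φ - ∫ wf (Vlim V) φ| ≤ T0 (2π)² M (2 + 8 v') tail_k` (`wf_sub_le`, `wf_cont` for
integrability, `v' = v + ∑ e`) and `pr_sub_le`; let `k → ∞`.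
-/

open MeasureTheory Set Filter Topology

namespace ES

variable {T0 : ℝ} {V : ℕ → Fld} {τ : ℕ → PT} {e Λ ε : ℕ → ℝ} {v : ℝ}

namespace LSeq

private theorem RLimE_slice {W : Fld} {s : Set ℝ} (h : ContinuousOn (uc W) (univ ×ˢ s)) {t : ℝ}
    (ht : t ∈ s) : Continuous fun x => W x t := by
  have h1 : Continuous fun x : Fin 2 → ℝ => ((x, t) : (Fin 2 → ℝ) × ℝ) := by fun_prop
  have h2 := h.comp_continuous h1 (fun x => ⟨mem_univ _, ht⟩)
  exact h2

theorem weak (h : LSeq T0 V τ e Λ ε v) {φ : Fld} (hφ : Tst φ) {Γ : ℝ}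
    (hΓ : ∀ x τ a b, |fderiv ℝ (fun y => φ y τ a) x (Pi.single b 1)| ≤ Γ) :
    ∫ t in (0)..T0, wf (Vlim V) φ t = pr (Vlim V) φ T0 - pr (Vlim V) φ 0 := by
  obtain ⟨M, hM0, hM⟩ := Tst.bdd hφ 0 T0
  have hT := h.pos
  have h0m : (0 : ℝ) ∈ Icc 0 T0 := ⟨le_refl _, hT.le⟩
  have hTm : T0 ∈ Icc 0 T0 := ⟨hT.le, le_refl _⟩
  set δ : ℕ → ℝ := fun k => ∑' j, e (j + k) with hδ
  have hδ0 : ∀ k, 0 ≤ δ k := fun k => tsum_nonneg fun j => h.e_nonneg _
  have hδl : Tendsto δ atTop (𝓝 0) := tendsto_sum_nat_add e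
  set v' : ℝ := v + δ 0 with hv'
  have hWv : ∀ x, ∀ t ∈ Icc 0 T0, ∀ a, |Vlim V x t a| ≤ v' := by
    intro x t ht a
    have h1 := h.tail 0 x t a
    have h2 := h.vbd 0 x t ht a
    rw [abs_le] at h1 h2 ⊢
    have h3 : ∑' j, e (j + 0) = δ 0 := rfl
    rw [h3] at h1
    constructor <;> linarith [h1.1, h1.2, h2.1, h2.2]
  have hVv : ∀ k x, ∀ t ∈ Icc 0 T0, ∀ a, |V k x t a| ≤ v' := by
    intro k x t ht a
    exact (h.vbd k x t ht a).trans (by linarith [hδ0 0])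
  have hv'0 : 0 ≤ v' := (abs_nonneg _).trans (hWv 0 0 h0m 0)
  have hWc := h.cont
  have hVc : ∀ k, ContinuousOn (uc (V k)) (univ ×ˢ Icc 0 T0) := fun k => (h.lip k).cont_on
  have hφc : ∀ t, Continuous fun x => φ x t := by
    intro t
    have h1 : Continuous fun x : Fin 2 → ℝ => ((x, t) : (Fin 2 → ℝ) × ℝ) := by fun_prop
    exact hφ.smooth.continuous.comp h1
  have hbound : ∀ k, |(∫ t in (0)..T0, wf (Vlim V) φ t) -
      (pr (Vlim V) φ T0 - pr (Vlim V) φ 0)| ≤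
      ε k * (T0 - 0) * Γ + ((2 * Real.pi) ^ 2 * M * (2 * δ k + 8 * v' * δ k)) * |T0 - 0| +
        2 * (2 * (2 * Real.pi) ^ 2 * M * δ k) := by
    intro k
    have h1 := h.we k φ hφ Γ hΓ
    have h2 : |pr (V k) φ T0 - pr (Vlim V) φ T0| ≤ 2 * (2 * Real.pi) ^ 2 * M * δ k := by
      apply pr_sub_le (fun x _ a => (hM x T0 hTm a).1) (RLimE_slice (hVc k) hTm)
        (RLimE_slice hWc hTm) (hφc T0)
      intro x _ a
      rw [abs_sub_comm]
      exact h.tail k x T0 a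
    have h3 : |pr (V k) φ 0 - pr (Vlim V) φ 0| ≤ 2 * (2 * Real.pi) ^ 2 * M * δ k := by
      apply pr_sub_le (fun x _ a => (hM x 0 h0m a).1) (RLimE_slice (hVc k) h0m)
        (RLimE_slice hWc h0m) (hφc 0)
      intro x _ a
      rw [abs_sub_comm]
      exact h.tail k x 0 a
    have hiW : IntervalIntegrable (fun t => wf (Vlim V) φ t) volume 0 T0 := by
      apply ContinuousOn.intervalIntegrable
      rw [uIcc_of_le hT.le]
      exact wf_cont hWc hφ
    have hiV : IntervalIntegrable (fun t => wf (V k) φ t) volume 0 T0 := by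
      apply ContinuousOn.intervalIntegrable
      rw [uIcc_of_le hT.le]
      exact wf_cont (hVc k) hφ
    have h4 : |(∫ t in (0)..T0, wf (Vlim V) φ t) - ∫ t in (0)..T0, wf (V k) φ t| ≤
        ((2 * Real.pi) ^ 2 * M * (2 * δ k + 8 * v' * δ k)) * |T0 - 0| := by
      rw [← intervalIntegral.integral_sub hiW hiV, ← Real.norm_eq_abs]
      apply intervalIntegral.norm_integral_le_of_norm_le_const
      intro t ht
      rw [uIoc_of_le hT.le] at ht
      have htm : t ∈ Icc 0 T0 := ⟨ht.1.le, ht.2⟩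
      rw [Real.norm_eq_abs]
      apply wf_sub_le hφ (fun x _ a => (hM x t htm a).2) (RLimE_slice hWc htm)
        (RLimE_slice (hVc k) htm) (fun x _ a => ⟨hWv x t htm a, hVv k x t htm a⟩)
      intro x _ a
      exact h.tail k x t a
    rw [abs_le] at h1 h2 h3 h4 ⊢
    constructor <;> linarith [h1.1, h1.2, h2.1, h2.2, h3.1, h3.2, h4.1, h4.2]
  have hlim : Tendsto (fun k => ε k * (T0 - 0) * Γ +
      ((2 * Real.pi) ^ 2 * M * (2 * δ k + 8 * v' * δ k)) * |T0 - 0| +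
        2 * (2 * (2 * Real.pi) ^ 2 * M * δ k)) atTop (𝓝 0) := by
    have e1 : Tendsto (fun k => ε k * (T0 - 0) * Γ) atTop (𝓝 (0 * (T0 - 0) * Γ)) :=
      (h.elim.mul_const _).mul_const _
    have e2 : Tendsto (fun k => ((2 * Real.pi) ^ 2 * M * (2 * δ k + 8 * v' * δ k)) * |T0 - 0|)
        atTop (𝓝 (((2 * Real.pi) ^ 2 * M * (2 * 0 + 8 * v' * 0)) * |T0 - 0|)) :=
      (((hδl.const_mul _).add (hδl.const_mul _)).const_mul _).mul_const _
    have e3 : Tendsto (fun k => 2 * (2 * (2 * Real.pi) ^ 2 * M * δ k)) atTop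
        (𝓝 (2 * (2 * (2 * Real.pi) ^ 2 * M * 0))) := (hδl.const_mul _).const_mul _
    have e4 := (e1.add e2).add e3
    have e5 : 0 * (T0 - 0) * Γ + ((2 * Real.pi) ^ 2 * M * (2 * 0 + 8 * v' * 0)) * |T0 - 0| +
        2 * (2 * (2 * Real.pi) ^ 2 * M * 0) = 0 := by ring
    rw [e5] at e4
    exact e4
  have hle := ge_of_tendsto' hlim hbound
  have h5 := abs_nonpos_iff.mp hle
  linarith

end LSeq

end ES
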