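import Pool.Agent.ES.RLimA

/-!
Project ES, Part III, module RLimF: smoothness off the set of bad times.

Let `t ∈ Ioo 0 T0`, `t ∉ bads (τ k) ∪ ends (τ k)`.  By `PT.Valid.cover` there is an exact leaf `(s,u) ∋ t` with
`V k` smooth on `univ ×ˢ Ioo s u` and `Vlim V = V k` there (`eq_of_not_bad`).  The set is open in
`univ ×ˢ Ioo 0 T0`; `ContDiffOn` is local.
-/

open MeasureTheory Set Filter Topology

namespace ES

variable {T0 : ℝ} {V : ℕ → Fld} {τ : ℕ → PT} {e Λ ε : ℕ → ℝ} {v : ℝ}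

namespace LSeq

/-- Smoothness off the set of bad times (`PT.Valid.cover`, `eq_of_not_bad`). -/
theorem smooth (h : LSeq T0 V τ e Λ ε v) (n : ℕ) :
    ContDiffOn ℝ n (uc (Vlim V)) (univ ×ˢ (Ioo 0 T0 \ ⋂ k, ((τ k).bads ∪ (τ k).ends))) := by
  rintro ⟨x, t⟩ ⟨-, ht, hnot⟩
  rw [mem_iInter] at hnot
  push Not at hnot
  obtain ⟨k, hk⟩ := hnot
  have hk1 : t ∉ (τ k).bads := fun hb => hk (Or.inl hb)
  have hk2 : t ∉ (τ k).ends := fun hb => hk (Or.inr hb)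
  have htI : t ∈ Icc (τ k).lo (τ k).hi := by
    rw [h.lo k, h.hi k]; exact ⟨ht.1.le, ht.2.le⟩
  obtain ⟨s, u, hG, -, -, htsu, hbad⟩ := (h.sm k).cover htI hk1 hk2
  have hopen : IsOpen ((univ : Set (Fin 2 → ℝ)) ×ˢ Ioo s u) := isOpen_univ.prod isOpen_Ioo
  have hmem : ((x, t) : (Fin 2 → ℝ) × ℝ) ∈ (univ : Set (Fin 2 → ℝ)) ×ˢ Ioo s u :=
    ⟨mem_univ _, htsu⟩
  have hat : ContDiffAt ℝ n (uc (V k)) (x, t) := (hG n).contDiffAt (hopen.mem_nhds hmem)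
  refine (hat.congr_of_eventuallyEq ?_).contDiffWithinAt
  filter_upwards [hopen.mem_nhds hmem] with p hp
  exact h.eq_of_not_bad (hbad p.2 hp.2) p.1

end LSeq

end ES
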