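import Pool.Agent.ES.RDimB
import Pool.Agent.ES.RLimB
import Pool.Agent.ES.RLimC
import Pool.Agent.ES.RLimE
import Pool.Agent.ES.RLimF
import Pool.Agent.ES.RInitB
import Pool.Agent.ES.R2Da
import Pool.Agent.ES.R2Db
import Pool.Agent.ES.R2Dc

/-!
Project ES, Part III, module R2D: the two-dimensional theorem (assembly, complete).
-/

open MeasureTheory Set Filter Topology

namespace ES

/-- The solution in two dimensions. -/
structure Sol2 (β T0 : ℝ) (V : Fld) (B : Set ℝ) : Prop where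
  pos : 0 < T0
  closed : IsClosed B
  sub : B ⊆ Icc 0 T0
  zero : (0 : ℝ) ∈ B
  last : T0 ∈ B
  dim : dimH B ≤ ENNReal.ofReal (2 * β / (1 - β))
  per : ∀ t ∈ Icc 0 T0, PerF V t
  df : ∀ t ∈ Icc 0 T0, DF V t
  cont : ContinuousOn (uc V) (univ ×ˢ Icc 0 T0)
  hold : ∃ C : ℝ, ∀ x y, ∀ s ∈ Icc 0 T0, ∀ t ∈ Icc 0 T0, ∀ a,
    |V x s a - V y t a| ≤ C * (‖x - y‖ + |s - t|) ^ β
  weak : ∀ φ : Fld, Tst φ →
    (∃ Γ : ℝ, ∀ x τ a b, |fderiv ℝ (fun y => φ y τ a) x (Pi.single b 1)| ≤ Γ) →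
    (∀ x, φ x 0 = 0) → (∀ x, φ x T0 = 0) → ∫ t in (0)..T0, wf V φ t = 0
  smooth : ∀ n : ℕ, ContDiffOn ℝ n (uc V) (univ ×ˢ (Ioo 0 T0 \ B))
  energy : ∫ x in Bx, ∑ a, V x 0 a ^ 2 ≠ ∫ x in Bx, ∑ a, V x T0 a ^ 2

theorem exists_sol2 (hF : BIFacts) {C0 : ℝ} (hC : 1 ≤ C0) {p : ℕ} (hB : BlockStatement C0 p)
    {β : ℝ} (hβ0 : 0 ≤ β) (hβ : β < 1 / 3) :
    ∃ (T0 : ℝ) (V : Fld) (B : Set ℝ), Sol2 β T0 V B := by
  obtain ⟨n0, hP, hg⟩ := exists_start hC p hβ0 hβ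
  obtain ⟨T0, hT0, h0⟩ := init_BdP hC (hP n0 le_rfl) hg
  have hT : 0 < T0 := by linarith
  obtain ⟨V, τ, hS⟩ := exists_stages hF hC hB hP hT h0
  obtain ⟨v, hL, hv⟩ := hS.lseq hF hC hβ0 hβ hP hT (fun x t a => Vin_bdd hT0 x t a)
  refine ⟨T0, Vlim V, Bset τ, ?_⟩
  exact
    { pos := hT
      closed := Bset_closed τ
      sub := hS.Bset_sub
      zero := hS.zero_mem
      last := hS.T0_mem
      dim := hS.dimH_le hC hβ0 hβ hP
      per := fun t ht => hL.lim_per ht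
      df := fun t ht => hL.lim_df ht
      cont := hL.cont
      hold := hL.hoelder hβ0 (by linarith) (hoelder_sum hC hβ0 hβ hP hv)
      weak := by
        rintro φ hφ ⟨Γ, hΓ⟩ h1 h2
        rw [hL.weak hφ hΓ]
        simp [pr, h1, h2]
      smooth := fun n => hL.smooth n
      energy := by
        have e0 : ∀ x, Vlim V x 0 = Vin T0 x 0 := fun x => by rw [hL.at_zero, hS.V0]
        have e1 : ∀ x, Vlim V x T0 = Vin T0 x T0 := fun x => by rw [hL.at_T0, hS.V0]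
        simp only [e0, e1]
        exact Vin_energy hT0 }

end ES
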