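import Pool.Agent.ES.RAvgB

/-!
Project ES, Part III, module RAvgC: the average of a test field is a test field.

Smoothness `contDiff_param`; periodic with period `2π`; divergence (`avg_fderiv`)
`(2π)⁻¹ ∫ (∂_0 φ_0 + ∂_1 φ_1) = -(2π)⁻¹ ∫_0^1 ∂_2 φ_2 dr = 0` by periodicity in the third variable
(`intervalIntegral.integral_deriv_eq_sub`).
`avg_zero`: `φ` vanishes at the times `0` and `T`.  `avg_bdd`: the gradient is bounded for all times
(periodic in space, zero for `s ∉ [a c, b c]`, continuous on a compact set).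
-/

open MeasureTheory Set EulerTimes

namespace ES

private theorem RAvgC_emb_smooth (n : ℕ) :
    ContDiff ℝ n (fun p : (Fin 2 → ℝ) × ℝ => emb p.1 p.2) := by
  rw [contDiff_euclidean]
  intro i
  fin_cases i
  · simp only [emb]
    exact ((contDiff_apply ℝ ℝ (0 : Fin 2)).comp contDiff_fst).div_const _
  · simp only [emb]
    exact ((contDiff_apply ℝ ℝ (1 : Fin 2)).comp contDiff_fst).div_const _
  · simp only [emb]
    exact contDiff_snd

private theorem RAvgC_smooth {c T : ℝ} {φ : R3 → ℝ → R3} (hφ : TestField T φ) (a : Fin 3)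
    (n : ℕ) : ContDiff ℝ n (fun p : ((Fin 2 → ℝ) × ℝ) × ℝ =>
      φ (emb p.1.1 p.2) (p.1.2 / c) a) := by
  have h1 : ContDiff ℝ n (fun p : R3 × ℝ => φ p.1 p.2 a) := by
    have := hφ.smooth n
    rw [contDiff_euclidean] at this
    exact this a
  have h2 : ContDiff ℝ n (fun p : ((Fin 2 → ℝ) × ℝ) × ℝ =>
      ((emb p.1.1 p.2, p.1.2 / c) : R3 × ℝ)) := by
    apply ContDiff.prodMk
    · exact (RAvgC_emb_smooth n).comp ((contDiff_fst.comp contDiff_fst).prodMk contDiff_snd)
    · exact (contDiff_snd.comp contDiff_fst).div_const _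
  exact h1.comp h2

private theorem RAvgC_avg_smooth {c T : ℝ} {φ : R3 → ℝ → R3} (hφ : TestField T φ) (n : ℕ) :
    ContDiff ℝ n (fun x : (Fin 2 → ℝ) × ℝ => avg c φ x.1 x.2) := by
  rw [contDiff_pi]
  intro a
  exact contDiff_param n _ (RAvgC_smooth hφ (Fin.castSucc a) n)

private theorem RAvgC_per {c T : ℝ} {φ : R3 → ℝ → R3} (hφ : TestField T φ)
    (x : Fin 2 → ℝ) (n : Fin 2 → ℤ) (t : ℝ) :
    avg c φ (fun a => x a + 2 * Real.pi * n a) t = avg c φ x t := by
  funext a
  unfold avg
  congr 1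
  funext r
  have h1 : emb (fun a => x a + 2 * Real.pi * n a) r =
      emb x r + WithLp.toLp 2 (fun i : Fin 3 => ((![n 0, n 1, 0] i : ℤ) : ℝ)) := by
    ext i
    have hpi : (2 * Real.pi) ≠ 0 := by positivity
    fin_cases i
    · simp only [emb]
      simp
      field_simp
    · simp only [emb]
      simp
      field_simp
    · simp only [emb]
      simp
  have h2 : φ (emb x r + WithLp.toLp 2 (fun i : Fin 3 => ((![n 0, n 1, 0] i : ℤ) : ℝ))) (t / c) =
      φ (emb x r) (t / c) := hφ.periodic (t / c) (emb x r) ![n 0, n 1, 0]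
  rw [h1, h2]

/-- Line derivative in the third variable. -/
private theorem RAvgC_line {T : ℝ} {φ : R3 → ℝ → R3} (hφ : TestField T φ) (x : Fin 2 → ℝ)
    (t r : ℝ) :
    HasDerivAt (fun r => φ (emb x r) t 2) (pd 2 (fun y => φ y t 2) (emb x r)) r := by
  have h1 : ContDiff ℝ (1 : ℕ) (fun p : R3 × ℝ => φ p.1 p.2 2) := by
    have := hφ.smooth 1
    rw [contDiff_euclidean] at this
    exact this 2
  have h2 : ContDiff ℝ (1 : ℕ) (fun y : R3 => φ y t 2) :=
    h1.comp (contDiff_id.prodMk contDiff_const)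
  have h3 : HasFDerivAt (fun y : R3 => φ y t 2) (fderiv ℝ (fun y => φ y t 2) (emb x r)) (emb x r) :=
    (h2.differentiable (by norm_num)).differentiableAt.hasFDerivAt
  have h4 : HasDerivAt (fun r => emb x r) (EuclideanSpace.single (2 : Fin 3) (1 : ℝ)) r := by
    have h5 : (fun r => emb x r) = fun r => emb x 0 + r • EuclideanSpace.single (2 : Fin 3) (1 : ℝ) := by
      funext r
      ext i
      fin_cases i <;> simp [emb]
    rw [h5]
    have h6 := ((hasDerivAt_id r).smul_const (EuclideanSpace.single (2 : Fin 3) (1 : ℝ))).const_add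
      (emb x 0)
    simpa using h6
  exact h3.comp_hasDerivAt r h4

private theorem RAvgC_pd_cont {T : ℝ} {φ : R3 → ℝ → R3} (hφ : TestField T φ) (i j : Fin 3) (t : ℝ)
    (x : Fin 2 → ℝ) : Continuous fun r => pd i (fun y => φ y t j) (emb x r) := by
  have h1 : ContDiff ℝ (1 : ℕ) (fun p : R3 × ℝ => φ p.1 p.2 j) := by
    have := hφ.smooth 1
    rw [contDiff_euclidean] at this
    exact this j
  have h2 : ContDiff ℝ (1 : ℕ) (fun y : R3 => φ y t j) :=
    h1.comp (contDiff_id.prodMk contDiff_const)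
  have h3 : Continuous fun y : R3 => fderiv ℝ (fun y => φ y t j) y :=
    h2.continuous_fderiv (by norm_num)
  have h4 : Continuous fun r => emb x r :=
    ((RAvgC_emb_smooth 0).continuous).comp (continuous_const.prodMk continuous_id)
  unfold pd
  exact (h3.comp h4).clm_apply continuous_const

theorem avg_tst {c T : ℝ} (hc : 0 < c) {φ : R3 → ℝ → R3} (hφ : TestField T φ) :
    Tst (avg c φ) := by
  refine ⟨RAvgC_avg_smooth hφ 2, fun x n t => RAvgC_per hφ x n t, fun x t => ?_⟩
  have h1 : ∀ a : Fin 2, fderiv ℝ (fun y => avg c φ y t a) x (Pi.single a 1) =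
      (2 * Real.pi)⁻¹ * ∫ r in (0 : ℝ)..1,
        pd (Fin.castSucc a) (fun y => φ y (t / c) (Fin.castSucc a)) (emb x r) :=
    fun a => avg_fderiv hc hφ x t a a
  rw [Finset.sum_congr rfl fun a _ => h1 a, ← Finset.mul_sum]
  have h2 : ∑ a : Fin 2, ∫ r in (0 : ℝ)..1,
        pd (Fin.castSucc a) (fun y => φ y (t / c) (Fin.castSucc a)) (emb x r) =
      ∫ r in (0 : ℝ)..1, ∑ a : Fin 2,
        pd (Fin.castSucc a) (fun y => φ y (t / c) (Fin.castSucc a)) (emb x r) := by
    rw [intervalIntegral.integral_finsetSum]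
    intro a _
    exact (RAvgC_pd_cont hφ _ _ _ _).intervalIntegrable _ _
  rw [h2]
  have h3 : ∀ r : ℝ, ∑ a : Fin 2,
        pd (Fin.castSucc a) (fun y => φ y (t / c) (Fin.castSucc a)) (emb x r) =
      -pd 2 (fun y => φ y (t / c) 2) (emb x r) := by
    intro r
    have h4 := hφ.divfree (emb x r) (t / c)
    rw [Fin.sum_univ_castSucc] at h4
    have h5 : (Fin.last 2 : Fin 3) = 2 := rfl
    rw [h5] at h4
    linarith
  simp only [h3]
  rw [intervalIntegral.integral_neg]
  have h6 : ∫ r in (0 : ℝ)..1, pd 2 (fun y => φ y (t / c) 2) (emb x r) =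
      φ (emb x 1) (t / c) 2 - φ (emb x 0) (t / c) 2 :=
    intervalIntegral.integral_eq_sub_of_hasDerivAt (fun r _ => RAvgC_line hφ x (t / c) r)
      ((RAvgC_pd_cont hφ _ _ _ _).intervalIntegrable _ _)
  have h7 : φ (emb x 1) (t / c) = φ (emb x 0) (t / c) := by
    have h8 : emb x 1 = emb x 0 + WithLp.toLp 2 (fun i : Fin 3 => ((![0, 0, 1] i : ℤ) : ℝ)) := by
      ext i
      fin_cases i <;> simp [emb]
    rw [h8]
    exact hφ.periodic (t / c) (emb x 0) ![0, 0, 1]
  rw [h6, h7]
  simp

theorem avg_zero {c T : ℝ} (hc : 0 < c) (hT : 0 < T) {φ : R3 → ℝ → R3} (hφ : TestField T φ)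
    (z : Fin 2 → ℝ) : avg c φ z 0 = 0 ∧ avg c φ z (c * T) = 0 := by
  obtain ⟨a, b, ha, hb, hs⟩ := hφ.support
  constructor
  · funext i
    have h : ∀ r, φ (emb z r) (0 / c) = 0 := fun r =>
      hs _ (by rw [zero_div]; intro h; exact absurd h.1 (not_le.2 ha)) _
    unfold avg
    simp only [h]
    simp
  · funext i
    have h : ∀ r, φ (emb z r) (c * T / c) = 0 := fun r =>
      hs _ (by rw [mul_div_cancel_left₀ _ hc.ne']; intro h; exact absurd h.2 (not_le.2 hb)) _
    unfold avg
    simp only [h]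
    simp

theorem avg_bdd {c T : ℝ} (hc : 0 < c) {φ : R3 → ℝ → R3} (hφ : TestField T φ) :
    ∃ Γ : ℝ, ∀ x τ a b, |fderiv ℝ (fun y => avg c φ y τ a) x (Pi.single b 1)| ≤ Γ := by
  obtain ⟨a0, b0, -, -, hs⟩ := hφ.support
  have hkey : ∀ a b : Fin 2, ∃ M : ℝ, ∀ x τ,
      |fderiv ℝ (fun y => avg c φ y τ a) x (Pi.single b 1)| ≤ M := by
    intro a b
    have hF : ContDiff ℝ (1 : ℕ) (fun p : (Fin 2 → ℝ) × ℝ => avg c φ p.1 p.2 a) := by
      have := RAvgC_avg_smooth (c := c) hφ 1
      rw [contDiff_pi] at this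
      exact this a
    have hH : ∀ x τ, fderiv ℝ (fun y => avg c φ y τ a) x (Pi.single b 1) =
        fderiv ℝ (fun p : (Fin 2 → ℝ) × ℝ => avg c φ p.1 p.2 a) (x, τ) (Pi.single b 1, 0) := by
      intro x τ
      have h1 : HasFDerivAt (fun p : (Fin 2 → ℝ) × ℝ => avg c φ p.1 p.2 a)
          (fderiv ℝ (fun p : (Fin 2 → ℝ) × ℝ => avg c φ p.1 p.2 a) (x, τ)) (x, τ) :=
        (hF.differentiable (by norm_num)).differentiableAt.hasFDerivAt
      have h2 : HasFDerivAt (fun y : Fin 2 → ℝ => ((y, τ) : (Fin 2 → ℝ) × ℝ))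
          (ContinuousLinearMap.inl ℝ (Fin 2 → ℝ) ℝ) x := hasFDerivAt_prodMk_left x τ
      have h3 := h1.comp x h2
      have h4 : (fun p : (Fin 2 → ℝ) × ℝ => avg c φ p.1 p.2 a) ∘
          (fun y : Fin 2 → ℝ => ((y, τ) : (Fin 2 → ℝ) × ℝ)) = fun y => avg c φ y τ a := rfl
      rw [h4] at h3
      rw [h3.fderiv]
      simp
    have hcont : Continuous fun p : (Fin 2 → ℝ) × ℝ =>
        fderiv ℝ (fun p : (Fin 2 → ℝ) × ℝ => avg c φ p.1 p.2 a) p (Pi.single b 1, 0) :=
      (hF.continuous_fderiv (by norm_num)).clm_apply continuous_const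
    have hK : IsCompact ((Set.Icc (0 : Fin 2 → ℝ) (fun _ => 2 * Real.pi)) ×ˢ
        (Set.Icc (c * a0) (c * b0))) := isCompact_Icc.prod isCompact_Icc
    obtain ⟨M, hM⟩ := (hK.image hcont.abs).bddAbove
    refine ⟨max M 0, fun x τ => ?_⟩
    by_cases hτ : τ ∈ Set.Icc (c * a0) (c * b0)
    · -- reduce to the box
      set n : Fin 2 → ℤ := fun i => -⌊x i / (2 * Real.pi)⌋ with hn
      have hpi : 0 < 2 * Real.pi := by positivity
      set y : Fin 2 → ℝ := fun i => x i + 2 * Real.pi * n i with hy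
      have hyK : y ∈ Set.Icc (0 : Fin 2 → ℝ) (fun _ => 2 * Real.pi) := by
        have hx : ∀ i, y i = 2 * Real.pi * Int.fract (x i / (2 * Real.pi)) := by
          intro i
          have h1 : x i = 2 * Real.pi * (x i / (2 * Real.pi)) := by field_simp
          simp only [hy, hn, Int.fract]
          push_cast
          rw [mul_sub, ← h1]
          ring
        constructor
        · intro i
          rw [hx i]
          exact mul_nonneg hpi.le (Int.fract_nonneg _)
        · intro i
          rw [hx i]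
          calc 2 * Real.pi * Int.fract (x i / (2 * Real.pi)) ≤ 2 * Real.pi * 1 :=
                mul_le_mul_of_nonneg_left (Int.fract_lt_one _).le hpi.le
            _ = 2 * Real.pi := mul_one _
      have hper : fderiv ℝ (fun y => avg c φ y τ a) x = fderiv ℝ (fun y => avg c φ y τ a) y := by
        have h1 : (fun z => avg c φ z τ a) =
            fun z => (fun y => avg c φ y τ a) (z + fun i => 2 * Real.pi * (n i : ℝ)) := by
          funext z
          exact (congrFun (RAvgC_per (c := c) hφ z n τ) a).symm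
        have h2 : y = x + fun i => 2 * Real.pi * (n i : ℝ) := rfl
        rw [h2]
        calc fderiv ℝ (fun y => avg c φ y τ a) x = fderiv ℝ (fun z => (fun y => avg c φ y τ a)
              (z + fun i => 2 * Real.pi * (n i : ℝ))) x := by rw [← h1]
          _ = _ := fderiv_comp_add_right (𝕜 := ℝ) (f := fun y => avg c φ y τ a)
              (fun i => 2 * Real.pi * (n i : ℝ))
      rw [hper, hH y τ]
      refine le_trans (hM ⟨(y, τ), ⟨hyK, hτ⟩, rfl⟩) (le_max_left _ _)
    · have h0 : (fun y => avg c φ y τ a) = fun _ => (0 : ℝ) := by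
        funext y
        have h : ∀ r, φ (emb y r) (τ / c) = 0 := fun r => hs _ (by
          intro h
          apply hτ
          constructor
          · have := (le_div_iff₀ hc).1 h.1
            linarith
          · have := (div_le_iff₀ hc).1 h.2
            linarith) _
        simp [avg, h]
      rw [h0]
      simp
  choose M hM using hkey
  refine ⟨∑ a, ∑ b, |M a b|, fun x τ a b => ?_⟩
  refine (hM a b x τ).trans ((le_abs_self _).trans ?_)
  refine le_trans ?_ (Finset.single_le_sum (f := fun a => ∑ b, |M a b|)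
    (fun i _ => Finset.sum_nonneg fun j _ => abs_nonneg _) (Finset.mem_univ a))
  exact Finset.single_le_sum (f := fun b => |M a b|) (fun j _ => abs_nonneg _) (Finset.mem_univ b)

end ES
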