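import Pool.Agent.ES.R3Dc
import Pool.Agent.ES.RAvgC

/-!
Project ES, Part III, module R3De: the weak formulation of `v3`
(`v3_weak_time`, substitution `s = (T0/T) t`, `Sol2.weak`, `avg_tst`, `avg_zero`, `avg_bdd`).
-/

open MeasureTheory Set EulerTimes

namespace ES

theorem v3_weak {β T0 : ℝ} {V : Fld} {B : Set ℝ} (h : Sol2 β T0 V B) {T : ℝ} (hT : 0 < T) :
    ∀ φ : R3 → ℝ → R3, TestField T φ →
    ∫ t in (0)..T, ∫ x in Cell, ((∑ i, v3 (T0 / T) V x t i * deriv (fun s => φ x s i) t) +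
      ∑ i, ∑ j, v3 (T0 / T) V x t i * v3 (T0 / T) V x t j * pd j (fun y => φ y t i) x) = 0 := by
  intro φ hφ
  have hT0 := h.pos
  have hc : 0 < T0 / T := div_pos hT0 hT
  have hcT : T0 / T * T = T0 := div_mul_cancel₀ T0 hT.ne'
  have h1 : ∫ t in (0)..T, ∫ x in Cell,
      ((∑ i, v3 (T0 / T) V x t i * deriv (fun s => φ x s i) t) +
      ∑ i, ∑ j, v3 (T0 / T) V x t i * v3 (T0 / T) V x t j * pd j (fun y => φ y t i) x) =
      ∫ t in (0)..T, (T0 / T) ^ 2 / (2 * Real.pi) ^ 3 * wf V (avg (T0 / T) φ) (T0 / T * t) := by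
    apply intervalIntegral.integral_congr
    intro t ht
    rw [uIcc_of_le hT.le] at ht
    exact v3_weak_time h hT hφ ht
  rw [h1, intervalIntegral.integral_const_mul,
    intervalIntegral.integral_comp_mul_left (fun s => wf V (avg (T0 / T) φ) s) hc.ne', mul_zero,
    hcT, h.weak (avg (T0 / T) φ) (avg_tst hc hφ) (avg_bdd hc hφ)
      (fun x => (avg_zero hc hT hφ x).1) (fun x => by
        have h2 := (avg_zero hc hT hφ x).2
        rwa [hcT] at h2), smul_zero, mul_zero]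

end ES
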