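import Pool.Agent.ES.RAvgD

/-!
Project ES, Part III, module RAvgE: integration over the cell in the coordinates `(z, r)`.

Transfer `EuclideanSpace ℝ (Fin 3)` to `Fin 3 → ℝ` (`EuclideanSpace.volume_preserving_symm_measurableEquiv_toLp` or the
current name) and to `(Fin 2 → ℝ) × ℝ` (`MeasureTheory.volume_preserving_piFinSuccAbove` at the last index),
Fubini, scaling by `2π` in the first two coordinates; half open and closed boxes agree a.e.
-/

open MeasureTheory Set EulerTimes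
open scoped Pointwise

namespace ES

private theorem RAvgE_ae : (Set.pi Set.univ (fun _ : Fin 2 => Ico (0 : ℝ) 1)) =ᵐ[volume]
    (Icc 0 (fun _ => 1) : Set (Fin 2 → ℝ)) := by
  have h := Measure.univ_pi_Ico_ae_eq_Icc (μ := fun _ : Fin 2 => (volume : Measure ℝ))
    (f := fun _ => (0 : ℝ)) (g := fun _ => (1 : ℝ))
  exact h

private theorem RAvgE_smul : (2 * Real.pi) • (Icc 0 (fun _ => 1) : Set (Fin 2 → ℝ)) = Bx := by
  have hp : (0 : ℝ) < 2 * Real.pi := by positivity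
  unfold Bx
  ext z
  rw [Set.mem_smul_set_iff_inv_smul_mem₀ hp.ne']
  simp only [mem_Icc, Pi.le_def, Pi.smul_apply, smul_eq_mul, Pi.zero_apply]
  have h1 : ∀ t : ℝ, (0 ≤ (2 * Real.pi)⁻¹ * t ↔ 0 ≤ t) := fun t => by
    rw [mul_nonneg_iff_of_pos_left (inv_pos.2 hp)]
  have h2 : ∀ t : ℝ, ((2 * Real.pi)⁻¹ * t ≤ 1 ↔ t ≤ 2 * Real.pi) := fun t => by
    rw [inv_mul_le_iff₀ hp, mul_one]
  simp only [h1, h2]

/-- From the cell to the plane times the line. -/
private theorem RAvgE_one {f : R3 → ℝ} (hf : Continuous f) :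
    ∫ x in Cell, f x = ∫ z in (Set.pi Set.univ (fun _ : Fin 2 => Ico (0 : ℝ) 1)),
      ∫ r in Ico (0 : ℝ) 1, f (WithLp.toLp 2 ![z 0, z 1, r]) := by
  -- the first step: to `Fin 3 → ℝ`
  set g : (Fin 3 → ℝ) → ℝ := fun y => f (WithLp.toLp 2 y) with hg
  have hgc : Continuous g := hf.comp (PiLp.continuous_toLp 2 _)
  have e1 : ∫ x in Cell, f x = ∫ y in Set.pi Set.univ (fun _ : Fin 3 => Ico (0 : ℝ) 1), g y := by
    have h1 := (PiLp.volume_preserving_toLp (Fin 3)).setIntegral_preimage_emb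
      (MeasurableEquiv.toLp 2 (Fin 3 → ℝ)).measurableEmbedding f Cell
    rw [← h1]
    have h2 : (WithLp.toLp 2 : (Fin 3 → ℝ) → R3) ⁻¹' Cell =
        Set.pi Set.univ (fun _ : Fin 3 => Ico (0 : ℝ) 1) := by
      ext y
      simp only [mem_preimage, Cell, mem_ofPred_eq, Set.mem_pi, Set.mem_univ, true_implies]
    rw [h2]
  rw [e1]
  -- the second step: to the product
  have hmp := (volume_preserving_piFinSuccAbove (fun _ : Fin 3 => ℝ) (Fin.last 2)).symm
  have h3 := hmp.setIntegral_preimage_emb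
    (MeasurableEquiv.piFinSuccAbove (fun _ : Fin 3 => ℝ) (Fin.last 2)).symm.measurableEmbedding g
    (Set.pi Set.univ (fun _ : Fin 3 => Ico (0 : ℝ) 1))
  rw [← h3]
  have h4 : ∀ p : ℝ × (Fin 2 → ℝ),
      (MeasurableEquiv.piFinSuccAbove (fun _ : Fin 3 => ℝ) (Fin.last 2)).symm p =
        ![p.2 0, p.2 1, p.1] := by
    intro p
    funext i
    fin_cases i <;> rfl
  have h5 : (MeasurableEquiv.piFinSuccAbove (fun _ : Fin 3 => ℝ) (Fin.last 2)).symm ⁻¹'
      (Set.pi Set.univ (fun _ : Fin 3 => Ico (0 : ℝ) 1)) =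
      (Ico (0 : ℝ) 1) ×ˢ (Set.pi Set.univ (fun _ : Fin 2 => Ico (0 : ℝ) 1)) := by
    ext p
    rw [mem_preimage, h4, mem_prod]
    constructor
    · intro h
      refine ⟨h 2 (Set.mem_univ _), fun i _ => ?_⟩
      fin_cases i
      · exact h 0 (Set.mem_univ _)
      · exact h 1 (Set.mem_univ _)
    · rintro ⟨c, d⟩ i _
      fin_cases i
      · exact d 0 (Set.mem_univ _)
      · exact d 1 (Set.mem_univ _)
      · exact c
  rw [h5]
  simp only [h4]
  -- Fubini
  set P : Set (Fin 2 → ℝ) := Set.pi Set.univ (fun _ : Fin 2 => Ico (0 : ℝ) 1) with hP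
  have hG : Continuous fun p : (Fin 2 → ℝ) × ℝ => g ![p.1 0, p.1 1, p.2] := by
    refine hgc.comp ?_
    refine continuous_pi fun i => ?_
    fin_cases i
    · change Continuous fun p : (Fin 2 → ℝ) × ℝ => p.1 0
      exact (continuous_apply 0).comp continuous_fst
    · change Continuous fun p : (Fin 2 → ℝ) × ℝ => p.1 1
      exact (continuous_apply 1).comp continuous_fst
    · change Continuous fun p : (Fin 2 → ℝ) × ℝ => p.2
      exact continuous_snd
  have h6 := setIntegral_prod_swap (μ := (volume : Measure (Fin 2 → ℝ)))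
    (ν := (volume : Measure ℝ)) P (Ico (0 : ℝ) 1)
    (fun p : (Fin 2 → ℝ) × ℝ => g ![p.1 0, p.1 1, p.2])
  simp only [Prod.fst_swap, Prod.snd_swap] at h6
  have h7 : ∫ p in (Ico (0 : ℝ) 1) ×ˢ P, g ![p.2 0, p.2 1, p.1] =
      ∫ p in P ×ˢ (Ico (0 : ℝ) 1), g ![p.1 0, p.1 1, p.2] := h6
  rw [h7]
  have hint : IntegrableOn (fun p : (Fin 2 → ℝ) × ℝ => g ![p.1 0, p.1 1, p.2])
      (P ×ˢ (Ico (0 : ℝ) 1)) (volume.prod volume) := by
    have hK : IsCompact ((Icc 0 (fun _ => 1) : Set (Fin 2 → ℝ)) ×ˢ (Icc (0 : ℝ) 1)) :=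
      isCompact_Icc.prod isCompact_Icc
    have h8 : IntegrableOn (fun p : (Fin 2 → ℝ) × ℝ => g ![p.1 0, p.1 1, p.2])
        ((Icc 0 (fun _ => 1) : Set (Fin 2 → ℝ)) ×ˢ (Icc (0 : ℝ) 1)) (volume.prod volume) :=
      hG.continuousOn.integrableOn_compact hK
    refine h8.mono_set (Set.prod_mono ?_ Ico_subset_Icc_self)
    intro z hz
    rw [hP] at hz
    exact ⟨fun i => (hz i (Set.mem_univ i)).1, fun i => (hz i (Set.mem_univ i)).2.le⟩
  exact setIntegral_prod _ hint

theorem cell_integral {f : R3 → ℝ} (hf : Continuous f) :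
    ∫ x in Cell, f x = ((2 * Real.pi) ^ 2)⁻¹ * ∫ z in Bx, ∫ r in (0 : ℝ)..1, f (emb z r) := by
  have hp : (0 : ℝ) < 2 * Real.pi := by positivity
  rw [RAvgE_one hf, setIntegral_congr_set RAvgE_ae]
  have h1 := Measure.setIntegral_comp_smul (volume : Measure (Fin 2 → ℝ))
    (fun z => ∫ r in (0 : ℝ)..1, f (emb z r)) (Icc 0 (fun _ => 1) : Set (Fin 2 → ℝ)) hp.ne'
  rw [RAvgE_smul, Module.finrank_fin_fun, smul_eq_mul, abs_of_pos (by positivity)] at h1
  rw [← h1]
  congr 1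
  funext z
  have h2 : ∀ r : ℝ, emb ((2 * Real.pi) • z) r = WithLp.toLp 2 ![z 0, z 1, r] := by
    intro r
    unfold emb
    have h3 : ∀ t : ℝ, 2 * Real.pi * t / (2 * Real.pi) = t := fun t =>
      mul_div_cancel_left₀ t hp.ne'
    simp only [Pi.smul_apply, smul_eq_mul, h3]
  simp only [h2]
  rw [intervalIntegral.integral_of_le zero_le_one, ← integral_Icc_eq_integral_Ioc,
    integral_Icc_eq_integral_Ico]

end ES
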