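import Pool.Agent.ES.R3Da
import Pool.Agent.ES.RAvgE

/-!
Project ES, Part III, module R3Df: Hoelder class and energy of `v3`.
Hoelder: `‖prj x - prj y‖ ≤ 2π ‖x - y‖`, the norm of `R3` of a vector with three entries bounded by `a` is at
most `2 a`, `(K d)^β = K^β d^β`.  Energy: `‖v3‖² = (c/2π)² ∑ V_a²`, `cell_integral`, times `0` and `T`.
-/

open MeasureTheory Set EulerTimes

namespace ES

private theorem R3Df_norm (u : R3) {A : ℝ} (hA : 0 ≤ A) (h0 : |u 0| ≤ A) (h1 : |u 1| ≤ A)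
    (h2 : u 2 = 0) : ‖u‖ ≤ 2 * A := by
  rw [EuclideanSpace.norm_eq, Fin.sum_univ_three, h2]
  simp only [Real.norm_eq_abs, sq_abs]
  rw [Real.sqrt_le_left (by linarith)]
  have h3 : u 0 ^ 2 ≤ A ^ 2 := by
    rw [← sq_abs]
    exact pow_le_pow_left₀ (abs_nonneg _) h0 2
  have h4 : u 1 ^ 2 ≤ A ^ 2 := by
    rw [← sq_abs]
    exact pow_le_pow_left₀ (abs_nonneg _) h1 2
  nlinarith [sq_nonneg A]

private theorem R3Df_prj (x y : R3) : ‖prj x - prj y‖ ≤ 2 * Real.pi * ‖x - y‖ := by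
  rw [pi_norm_le_iff_of_nonneg (by positivity)]
  intro a
  have h : (prj x - prj y) a = 2 * Real.pi * (x - y) (Fin.castSucc a) := by
    simp only [prj, Pi.sub_apply, PiLp.sub_apply]
    ring
  rw [h, norm_mul, Real.norm_of_nonneg (by positivity : (0 : ℝ) ≤ 2 * Real.pi)]
  exact mul_le_mul_of_nonneg_left (PiLp.norm_apply_le (x - y) _) (by positivity)

theorem v3_holder {β T0 : ℝ} (hβ : 0 ≤ β) {V : Fld} {B : Set ℝ} (h : Sol2 β T0 V B) {T : ℝ}
    (hT : 0 < T) : HolderClass β T (v3 (T0 / T) V) := by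
  refine ⟨v3_cont h hT, ?_⟩
  obtain ⟨C, hC⟩ := h.hold
  have hT0 : 0 < T0 := h.pos
  have hc : 0 < T0 / T := div_pos hT0 hT
  have hmem : ∀ s ∈ Icc 0 T, T0 / T * s ∈ Icc 0 T0 := by
    rintro s ⟨hs0, hs1⟩
    refine ⟨by positivity, ?_⟩
    calc T0 / T * s ≤ T0 / T * T := mul_le_mul_of_nonneg_left hs1 hc.le
      _ = T0 := by field_simp
  generalize T0 / T = c at *
  refine ⟨2 * (c / (2 * Real.pi) * (|C| * (2 * Real.pi + c) ^ β)), ?_⟩
  intro x y s hs t ht
  have hd0 : 0 ≤ ‖x - y‖ + |s - t| := by positivity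
  have hdist : ‖prj x - prj y‖ + |c * s - c * t| ≤ (2 * Real.pi + c) * (‖x - y‖ + |s - t|) := by
    have h1 := R3Df_prj x y
    have h2 : |c * s - c * t| = c * |s - t| := by
      rw [← mul_sub, abs_mul, abs_of_pos hc]
    have h3 : 0 ≤ 2 * Real.pi * |s - t| := by positivity
    have h4 : 0 ≤ c * ‖x - y‖ := by positivity
    rw [h2]
    nlinarith
  have hent : ∀ a, |V (prj x) (c * s) a - V (prj y) (c * t) a| ≤
      |C| * (2 * Real.pi + c) ^ β * (‖x - y‖ + |s - t|) ^ β := by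
    intro a
    calc |V (prj x) (c * s) a - V (prj y) (c * t) a|
        ≤ C * (‖prj x - prj y‖ + |c * s - c * t|) ^ β := hC _ _ _ (hmem s hs) _ (hmem t ht) a
      _ ≤ |C| * (‖prj x - prj y‖ + |c * s - c * t|) ^ β :=
          mul_le_mul_of_nonneg_right (le_abs_self C) (Real.rpow_nonneg (by positivity) _)
      _ ≤ |C| * ((2 * Real.pi + c) * (‖x - y‖ + |s - t|)) ^ β :=
          mul_le_mul_of_nonneg_left (Real.rpow_le_rpow (by positivity) hdist hβ) (abs_nonneg _)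
      _ = |C| * (2 * Real.pi + c) ^ β * (‖x - y‖ + |s - t|) ^ β := by
          rw [Real.mul_rpow (by positivity) hd0]
          ring
  have hk : 0 ≤ c / (2 * Real.pi) := by positivity
  have hA : 0 ≤ c / (2 * Real.pi) *
      (|C| * (2 * Real.pi + c) ^ β * (‖x - y‖ + |s - t|) ^ β) := by
    have h1 : 0 ≤ (2 * Real.pi + c) ^ β := Real.rpow_nonneg (by positivity) _
    have h2 : 0 ≤ (‖x - y‖ + |s - t|) ^ β := Real.rpow_nonneg hd0 _
    positivity
  have hn := R3Df_norm (v3 c V x s - v3 c V y t) hA (by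
      have h1 : (v3 c V x s - v3 c V y t) 0 =
          c / (2 * Real.pi) * (V (prj x) (c * s) 0 - V (prj y) (c * t) 0) := by
        simp [v3]
        ring
      rw [h1, abs_mul, abs_of_nonneg hk]
      exact mul_le_mul_of_nonneg_left (hent 0) hk) (by
      have h1 : (v3 c V x s - v3 c V y t) 1 =
          c / (2 * Real.pi) * (V (prj x) (c * s) 1 - V (prj y) (c * t) 1) := by
        simp [v3]
        ring
      rw [h1, abs_mul, abs_of_nonneg hk]
      exact mul_le_mul_of_nonneg_left (hent 1) hk) (by simp [v3])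
  refine hn.trans (le_of_eq ?_)
  ring

private theorem R3Df_sq (c : ℝ) (V : Fld) (x : R3) (t : ℝ) :
    ‖v3 c V x t‖ ^ 2 = (c / (2 * Real.pi)) ^ 2 * ∑ a, V (prj x) (c * t) a ^ 2 := by
  rw [EuclideanSpace.norm_eq, Real.sq_sqrt (by positivity), Fin.sum_univ_three, Fin.sum_univ_two]
  simp only [Real.norm_eq_abs, sq_abs]
  have h0 : (v3 c V x t) 0 = c / (2 * Real.pi) * V (prj x) (c * t) 0 := by simp [v3]
  have h1 : (v3 c V x t) 1 = c / (2 * Real.pi) * V (prj x) (c * t) 1 := by simp [v3]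
  have h2 : (v3 c V x t) 2 = 0 := by simp [v3]
  rw [h0, h1, h2]
  ring

private theorem R3Df_prj_emb (z : Fin 2 → ℝ) (r : ℝ) : prj (emb z r) = z := by
  have hpi : (2 * Real.pi) ≠ 0 := by positivity
  funext a
  fin_cases a
  · simp [prj, emb]
    field_simp
  · simp [prj, emb]
    field_simp

private theorem R3Df_energy {β T0 : ℝ} {V : Fld} {B : Set ℝ} (h : Sol2 β T0 V B) {T : ℝ}
    (hT : 0 < T) {t : ℝ} (ht : t ∈ Icc 0 T) :
    energy (v3 (T0 / T) V) t = 1 / 2 * (((2 * Real.pi) ^ 2)⁻¹ * ((T0 / T / (2 * Real.pi)) ^ 2 *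
      ∫ z in Bx, ∑ a, V z (T0 / T * t) a ^ 2)) := by
  have hcont : Continuous fun x => ‖v3 (T0 / T) V x t‖ ^ 2 := by
    have h1 : Continuous fun x => v3 (T0 / T) V x t := by
      rw [← continuousOn_univ]
      exact (v3_cont h hT).comp (continuous_id.prodMk continuous_const).continuousOn
        fun x _ => ⟨mem_univ _, ht⟩
    exact h1.norm.pow 2
  unfold energy
  rw [cell_integral hcont]
  congr 2
  rw [← integral_const_mul]
  congr 1
  funext z
  simp only [R3Df_sq, R3Df_prj_emb, intervalIntegral.integral_const, sub_zero, one_smul]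

theorem v3_energy {β T0 : ℝ} {V : Fld} {B : Set ℝ} (h : Sol2 β T0 V B) {T : ℝ} (hT : 0 < T) :
    NonConservative T (v3 (T0 / T) V) := by
  refine ⟨0, ⟨le_rfl, hT.le⟩, T, ⟨hT.le, le_rfl⟩, ?_⟩
  rw [R3Df_energy h hT ⟨le_rfl, hT.le⟩, R3Df_energy h hT ⟨hT.le, le_rfl⟩]
  have hT0 : 0 < T0 := h.pos
  have h1 : T0 / T * T = T0 := by field_simp
  rw [mul_zero, h1]
  intro he
  have hk1 : (1 / 2 : ℝ) ≠ 0 := by norm_num
  have hk2 : ((2 * Real.pi) ^ 2)⁻¹ ≠ 0 := by positivity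
  have hk3 : (T0 / T / (2 * Real.pi)) ^ 2 ≠ 0 := by positivity
  exact h.energy (mul_left_cancel₀ hk3 (mul_left_cancel₀ hk2 (mul_left_cancel₀ hk1 he)))

end ES
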