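import Pool.Agent.ES.R3Da

/-!
Project ES, Part III, module R3Dg: smoothness of `v3` off the bad times
(`Sol2.zero`, `Sol2.last`: the end points are bad times, so `T0/T*t ∈ Ioo 0 T0 ∖ B`).
-/

open MeasureTheory Set EulerTimes

namespace ES

theorem v3_smooth {β T0 : ℝ} {V : Fld} {B : Set ℝ} (h : Sol2 β T0 V B) {T : ℝ} (hT : 0 < T)
    {B' : Set ℝ} (hB' : ∀ t, T0 / T * t ∈ B → t ∈ B') :
    SmoothOff T B' (v3 (T0 / T) V) := by
  intro n
  have hg : ContDiff ℝ n (fun p : R3 × ℝ => (prj p.1, T0 / T * p.2)) := by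
    refine ContDiff.prodMk ?_ (contDiff_const.mul contDiff_snd)
    rw [contDiff_pi]
    intro a
    unfold prj
    have h1 : ContDiff ℝ n (fun x : R3 => x (Fin.castSucc a)) := by fun_prop
    exact contDiff_const.mul (h1.comp contDiff_fst)
  have hmaps : MapsTo (fun p : R3 × ℝ => (prj p.1, T0 / T * p.2)) (univ ×ˢ (Icc 0 T \ B'))
      (univ ×ˢ (Ioo 0 T0 \ B)) := by
    rintro ⟨x, t⟩ ⟨_, ⟨ht0, htT⟩, htB⟩
    have hnB : T0 / T * t ∉ B := fun hb => htB (hB' t hb)
    have hT0 := h.pos
    have e0 : 0 ≤ T0 / T * t := by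
      have : 0 ≤ t := ht0
      positivity
    have e1 : T0 / T * t ≤ T0 := by
      have h2 : T0 / T * t ≤ T0 / T * T := mul_le_mul_of_nonneg_left htT (by positivity)
      have h3 : T0 / T * T = T0 := by field_simp
      linarith
    refine ⟨mem_univ _, ⟨lt_of_le_of_ne e0 ?_, lt_of_le_of_ne e1 ?_⟩, hnB⟩
    · intro he
      have he' : 0 = T0 / T * t := he
      apply hnB
      rw [← he']
      exact h.zero
    · intro he
      have he' : T0 / T * t = T0 := he
      apply hnB
      rw [he']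
      exact h.last
  have hcomp := (h.smooth n).comp hg.contDiffOn hmaps
  have hc : ∀ a : Fin 2, ContDiffOn ℝ n (fun p : R3 × ℝ => V (prj p.1) (T0 / T * p.2) a)
      (univ ×ˢ (Icc 0 T \ B')) := by
    intro a
    exact (contDiffOn_pi.1 hcomp) a
  rw [contDiffOn_euclidean]
  intro i
  fin_cases i
  · exact contDiffOn_const.mul (hc 0)
  · exact contDiffOn_const.mul (hc 1)
  · exact contDiffOn_const

end ES
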