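import Pool.Agent.ES.RDimC

/-!
Project ES, Part III, module R3Dh: the set of bad times.
`B' = {t | T0/T*t ∈ B} ∪ {T r | r ∈ K}`, `K` from `exists_compact_dimH_eq` with `s = 2β/(1-β) < 1`;
`dimH_union`, images under `t ↦ c t` (`c > 0`) have the same dimension (`AntilipschitzWith`, `LipschitzWith`).
-/

open MeasureTheory Set Filter Topology

namespace ES

private theorem R3Dh_dimH_mul {c : ℝ} (hc : 0 < c) (A : Set ℝ) :
    dimH ((fun t => c * t) '' A) = dimH A := by
  apply le_antisymm
  · have h : LipschitzWith (Real.toNNReal c) (fun t : ℝ => c * t) := by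
      apply LipschitzWith.of_dist_le_mul
      intro x y
      rw [Real.coe_toNNReal _ hc.le, Real.dist_eq, Real.dist_eq, ← mul_sub, abs_mul,
        abs_of_pos hc]
    exact h.dimH_image_le A
  · have h : AntilipschitzWith (Real.toNNReal c⁻¹) (fun t : ℝ => c * t) := by
      apply AntilipschitzWith.of_le_mul_dist
      intro x y
      rw [Real.coe_toNNReal _ (inv_pos.mpr hc).le, Real.dist_eq, Real.dist_eq, ← mul_sub, abs_mul,
        abs_of_pos hc, ← mul_assoc, inv_mul_cancel₀ hc.ne', one_mul]
    exact h.le_dimH_image A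

theorem exists_badset {β : ℝ} (hβ0 : 0 ≤ β) (hβ : β < 1 / 3) {T0 : ℝ} {B : Set ℝ} (hT0 : 0 < T0)
    (hBc : IsClosed B) (hBs : B ⊆ Icc 0 T0) (hBd : dimH B ≤ ENNReal.ofReal (2 * β / (1 - β)))
    {T : ℝ} (hT : 0 < T) :
    ∃ B' : Set ℝ, IsClosed B' ∧ B' ⊆ Icc 0 T ∧ (∀ t, T0 / T * t ∈ B → t ∈ B') ∧
      dimH B' = ENNReal.ofReal (2 * β / (1 - β)) := by
  have h1 : 0 < 1 - β := by linarith
  have hs0 : 0 ≤ 2 * β / (1 - β) := div_nonneg (by linarith) h1.le
  have hs1 : 2 * β / (1 - β) < 1 := by
    rw [div_lt_one h1]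
    linarith
  obtain ⟨K, hKc, hKs, hKd⟩ := exists_compact_dimH_eq hs0 hs1
  have hc : 0 < T / T0 := div_pos hT hT0
  have hcc : Continuous fun t : ℝ => T * t := continuous_const.mul continuous_id
  have hKcomp : IsCompact K := isCompact_Icc.of_isClosed_subset hKc hKs
  refine ⟨(fun t => T0 / T * t) ⁻¹' B ∪ (fun t => T * t) '' K, ?_, ?_, ?_, ?_⟩
  · exact (hBc.preimage (continuous_const.mul continuous_id)).union
      (hKcomp.image hcc).isClosed
  · rintro t (ht | ⟨r, hr, rfl⟩)
    · have h2 := hBs ht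
      have h3 : t = T / T0 * (T0 / T * t) := by
        field_simp
      constructor
      · rw [h3]
        exact mul_nonneg hc.le h2.1
      · rw [h3]
        calc T / T0 * (T0 / T * t) ≤ T / T0 * T0 := mul_le_mul_of_nonneg_left h2.2 hc.le
          _ = T := by field_simp
    · have h2 := hKs hr
      constructor
      · exact mul_nonneg hT.le h2.1
      · calc T * r ≤ T * 1 := mul_le_mul_of_nonneg_left h2.2 hT.le
          _ = T := mul_one T
  · intro t ht
    exact Or.inl ht
  · have h2 : (fun t => T0 / T * t) ⁻¹' B = (fun t => T / T0 * t) '' B := by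
      ext t
      constructor
      · intro ht
        exact ⟨T0 / T * t, ht, by
          change T / T0 * (T0 / T * t) = t
          field_simp⟩
      · rintro ⟨r, hr, rfl⟩
        change T0 / T * (T / T0 * r) ∈ B
        have : T0 / T * (T / T0 * r) = r := by field_simp
        rw [this]
        exact hr
    rw [dimH_union, h2, R3Dh_dimH_mul hc, R3Dh_dimH_mul hT, hKd]
    exact max_eq_right hBd

end ES
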