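import Pool.Agent.ES.R3Db
import Pool.Agent.ES.R3De
import Pool.Agent.ES.R3Df
import Pool.Agent.ES.R3Dg
import Pool.Agent.ES.R3Dh

/-!
Project ES, Part III, module R3D: the three-dimensional theorem (assembly, complete).
-/

open MeasureTheory Set EulerTimes

namespace ES

theorem main3 (hF : BIFacts) {C0 : ℝ} (hC : 1 ≤ C0) {p : ℕ} (hB : BlockStatement C0 p)
    {β : ℝ} (hβ0 : 0 ≤ β) (hβ : β < 1 / 3) {T : ℝ} (hT : 0 < T) : SharpSolution β T := by
  obtain ⟨T0, V, B, h⟩ := exists_sol2 hF hC hB hβ0 hβ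
  obtain ⟨B', h1, h2, h3, h4⟩ := exists_badset hβ0 hβ h.pos h.closed h.sub h.dim hT
  exact ⟨v3 (T0 / T) V, B', ⟨v3_periodic h hT, v3_square h hT, v3_div h hT, v3_weak h hT⟩,
    v3_holder hβ0 h hT, v3_energy h hT, h1, h2, v3_smooth h hT h3, h4⟩

end ES
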