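import Pool.Agent.ES.R3Dd

/-!
Project ES, Part III, module R3Da: continuity, periodicity, square integrability of `v3`.
(`t ∈ Icc 0 T` implies `T0/T*t ∈ Icc 0 T0`; a continuous function is bounded on the compact closure of the
cell times `Icc 0 T`; measurability from `ContinuousOn.aestronglyMeasurable`.)
-/

open MeasureTheory Set EulerTimes

namespace ES

private theorem R3Da_map {T0 T t : ℝ} (hT0 : 0 < T0) (hT : 0 < T) (ht : t ∈ Icc 0 T) :
    T0 / T * t ∈ Icc 0 T0 := by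
  have h1 : 0 < T0 / T := div_pos hT0 hT
  refine ⟨mul_nonneg h1.le ht.1, ?_⟩
  calc T0 / T * t ≤ T0 / T * T := mul_le_mul_of_nonneg_left ht.2 h1.le
    _ = T0 := by field_simp

private theorem R3Da_prj : Continuous prj := by
  unfold prj
  fun_prop

theorem v3_cont {β T0 : ℝ} {V : Fld} {B : Set ℝ} (h : Sol2 β T0 V B) {T : ℝ} (hT : 0 < T) :
    ContinuousOn (fun p : R3 × ℝ => v3 (T0 / T) V p.1 p.2) (univ ×ˢ Icc 0 T) := by
  have hq : Continuous fun p : R3 × ℝ => (prj p.1, T0 / T * p.2) :=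
    (R3Da_prj.comp continuous_fst).prodMk (continuous_const.mul continuous_snd)
  have h1 : ContinuousOn (fun p : R3 × ℝ => uc V (prj p.1, T0 / T * p.2)) (univ ×ˢ Icc 0 T) := by
    refine h.cont.comp hq.continuousOn ?_
    intro p hp
    exact ⟨mem_univ _, R3Da_map h.pos hT hp.2⟩
  have h2 : ∀ a, ContinuousOn (fun p : R3 × ℝ => V (prj p.1) (T0 / T * p.2) a) (univ ×ˢ Icc 0 T) :=
    fun a => (continuousOn_pi.1 h1 a)
  unfold v3
  refine (PiLp.continuous_toLp 2 (fun _ : Fin 3 => ℝ)).comp_continuousOn (continuousOn_pi.2 ?_)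
  intro i
  fin_cases i
  · exact (continuousOn_const (c := T0 / T / (2 * Real.pi))).mul (h2 0)
  · exact (continuousOn_const (c := T0 / T / (2 * Real.pi))).mul (h2 1)
  · exact continuousOn_const

theorem v3_periodic {β T0 : ℝ} {V : Fld} {B : Set ℝ} (h : Sol2 β T0 V B) {T : ℝ} (hT : 0 < T) :
    ∀ t ∈ Icc 0 T, Periodic3 fun x => v3 (T0 / T) V x t := by
  intro t ht x n
  have h1 := h.per (T0 / T * t) (R3Da_map h.pos hT ht) (prj x) (fun a => n (Fin.castSucc a))
  have h2 : prj (x + WithLp.toLp 2 fun i => (n i : ℝ)) =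
      fun a => prj x a + 2 * Real.pi * n (Fin.castSucc a) := by
    funext a
    unfold prj
    simp
    ring
  simp only
  unfold v3
  rw [h2, h1]

theorem v3_square {β T0 : ℝ} {V : Fld} {B : Set ℝ} (h : Sol2 β T0 V B) {T : ℝ} (hT : 0 < T) :
    MemLp (fun p : R3 × ℝ => v3 (T0 / T) V p.1 p.2) 2 (volume.restrict (Cell ×ˢ Icc 0 T)) := by
  obtain ⟨K, hK⟩ : ∃ K : Set R3, K = (fun y : Fin 3 → ℝ => (WithLp.toLp 2 y : R3)) ''
      (Set.pi univ fun _ => Icc (0 : ℝ) 1) := ⟨_, rfl⟩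
  have hKc : IsCompact K := by
    rw [hK]
    exact (isCompact_univ_pi fun _ => isCompact_Icc).image (PiLp.continuous_toLp 2 (fun _ : Fin 3 => ℝ))
  have hsub : Cell ⊆ K := by
    intro x hx
    rw [hK]
    refine ⟨fun i => x i, fun i _ => ⟨(hx i).1, (hx i).2.le⟩, ?_⟩
    rfl
  have hKT : IsCompact (K ×ˢ Icc (0 : ℝ) T) := hKc.prod isCompact_Icc
  have hcont : ContinuousOn (fun p : R3 × ℝ => v3 (T0 / T) V p.1 p.2) (K ×ˢ Icc 0 T) :=
    (v3_cont h hT).mono (prod_mono (subset_univ _) le_rfl)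
  obtain ⟨C, hC⟩ := hKT.exists_bound_of_continuousOn hcont
  have : IsFiniteMeasure ((volume : Measure (R3 × ℝ)).restrict (K ×ˢ Icc (0 : ℝ) T)) :=
    ⟨by
      rw [Measure.restrict_apply_univ]
      exact hKT.measure_lt_top⟩
  have h1 : MemLp (fun p : R3 × ℝ => v3 (T0 / T) V p.1 p.2) 2
      ((volume : Measure (R3 × ℝ)).restrict (K ×ˢ Icc (0 : ℝ) T)) :=
    MemLp.of_bound (hcont.aestronglyMeasurable hKT.measurableSet) C
      ((ae_restrict_iff' hKT.measurableSet).2 (Filter.Eventually.of_forall hC))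
  exact h1.mono_measure (Measure.restrict_mono (prod_mono hsub le_rfl) le_rfl)

end ES
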