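import Mathlib

/-!
Project ES, Part III, module RAvgA: smoothness of parametric integrals over `[0,1]`.

Induction on `n` (for all `F`): `n = 0`:
`intervalIntegral.continuous_parametric_intervalIntegral_of_continuous`; step: the derivative is
`∫ r in 0..1, (fderiv ℝ f (x, r)).comp (inl)` (`intervalIntegral.hasFDerivAt_integral_of_dominated_of_fderiv_le`, bounds on
compact neighbourhoods, `E` finite dimensional), `contDiff_succ_iff_fderiv`.
-/

open MeasureTheory Set Filter Topology

namespace ES

private theorem RAvgA_deriv {E F : Type} [NormedAddCommGroup E] [NormedSpace ℝ E]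
    [FiniteDimensional ℝ E] [NormedAddCommGroup F] [NormedSpace ℝ F] [CompleteSpace F]
    (f : E × ℝ → F) (hf : ContDiff ℝ 1 f) (x : E) :
    HasFDerivAt (fun x => ∫ r in (0 : ℝ)..1, f (x, r))
      (∫ r in (0 : ℝ)..1, (fderiv ℝ f (x, r)).comp (ContinuousLinearMap.inl ℝ E ℝ)) x := by
  have : ProperSpace E := FiniteDimensional.proper_real E
  have hfd : Differentiable ℝ f := hf.differentiable (by norm_num)
  have hcont : Continuous (fderiv ℝ f) := hf.continuous_fderiv (by norm_num)
  have hc2 : Continuous fun z : E × ℝ =>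
      (fderiv ℝ f z).comp (ContinuousLinearMap.inl ℝ E ℝ) :=
    hcont.clm_comp continuous_const
  have hK : IsCompact (Metric.closedBall x 1 ×ˢ Icc (0 : ℝ) 1) :=
    (isCompact_closedBall x 1).prod isCompact_Icc
  obtain ⟨C, hC⟩ := hK.exists_bound_of_continuousOn hc2.continuousOn
  refine intervalIntegral.hasFDerivAt_integral_of_dominated_of_fderiv_le
    (F := fun x r => f (x, r))
    (F' := fun x r => (fderiv ℝ f (x, r)).comp (ContinuousLinearMap.inl ℝ E ℝ))
    (bound := fun _ => C) (s := Metric.closedBall x 1)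
    (Metric.closedBall_mem_nhds x one_pos) ?_ ?_ ?_ ?_ ?_ ?_
  · refine Filter.Eventually.of_forall fun y => ?_
    exact (hf.continuous.comp (by fun_prop : Continuous fun r : ℝ => (y, r))).aestronglyMeasurable
  · exact (hf.continuous.comp (by fun_prop : Continuous fun r : ℝ => (x, r))).intervalIntegrable
      0 1
  · exact (hc2.comp (by fun_prop : Continuous fun r : ℝ => (x, r))).aestronglyMeasurable
  · refine Filter.Eventually.of_forall fun t ht y hy => ?_
    apply hC (y, t)
    refine ⟨hy, ?_⟩
    rw [uIoc_of_le zero_le_one] at ht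
    exact ⟨ht.1.le, ht.2⟩
  · exact intervalIntegrable_const
  · refine Filter.Eventually.of_forall fun t _ y _ => ?_
    have h1 : HasFDerivAt f (fderiv ℝ f (y, t)) (y, t) := (hfd (y, t)).hasFDerivAt
    have h2 : HasFDerivAt (fun z : E => (z, t)) (ContinuousLinearMap.inl ℝ E ℝ) y :=
      hasFDerivAt_prodMk_left y t
    exact h1.comp y h2

theorem contDiff_param {E F : Type} [NormedAddCommGroup E] [NormedSpace ℝ E]
    [FiniteDimensional ℝ E] [NormedAddCommGroup F] [NormedSpace ℝ F] [CompleteSpace F] (n : ℕ)
    (f : E × ℝ → F) (hf : ContDiff ℝ n f) :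
    ContDiff ℝ n fun x => ∫ r in (0 : ℝ)..1, f (x, r) := by
  induction n generalizing F with
  | zero =>
    have h : ContDiff ℝ 0 f := by simpa using hf
    have : ContDiff ℝ 0 fun x => ∫ r in (0 : ℝ)..1, f (x, r) := by
      rw [contDiff_zero] at h ⊢
      have hu : Continuous (Function.uncurry fun (x : E) (r : ℝ) => f (x, r)) := h
      exact intervalIntegral.continuous_parametric_intervalIntegral_of_continuous hu
        continuous_const
    simpa using this
  | succ n ih =>
    have hf' : ContDiff ℝ ((n : WithTop ℕ∞) + 1) f := by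
      have := hf
      push_cast at this
      exact this
    have h1 : ContDiff ℝ 1 f := hf'.of_le le_add_self
    have hd := RAvgA_deriv f h1
    have hfd : fderiv ℝ (fun x => ∫ r in (0 : ℝ)..1, f (x, r)) =
        fun x => ∫ r in (0 : ℝ)..1, (fderiv ℝ f (x, r)).comp (ContinuousLinearMap.inl ℝ E ℝ) := by
      funext x
      exact (hd x).fderiv
    have h2 : ContDiff ℝ n fun z : E × ℝ =>
        (fderiv ℝ f z).comp (ContinuousLinearMap.inl ℝ E ℝ) :=
      (hf'.fderiv_right le_rfl).clm_comp contDiff_const
    have h3 := ih (F := E →L[ℝ] F) _ h2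
    have h4 : ContDiff ℝ ((n : WithTop ℕ∞) + 1) fun x => ∫ r in (0 : ℝ)..1, f (x, r) := by
      rw [contDiff_succ_iff_fderiv]
      refine ⟨fun x => (hd x).differentiableAt, ?_, ?_⟩
      · intro h
        exact absurd h (by simp)
      · rw [hfd]
        exact h3
    push_cast
    exact h4

/-- The derivative of the parametric integral. -/
theorem hasFDerivAt_param {E F : Type} [NormedAddCommGroup E] [NormedSpace ℝ E]
    [FiniteDimensional ℝ E] [NormedAddCommGroup F] [NormedSpace ℝ F] [CompleteSpace F]
    (f : E × ℝ → F) (hf : ContDiff ℝ 1 f) (x : E) :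
    HasFDerivAt (fun x => ∫ r in (0 : ℝ)..1, f (x, r))
      (∫ r in (0 : ℝ)..1, (fderiv ℝ f (x, r)).comp (ContinuousLinearMap.inl ℝ E ℝ)) x :=
  RAvgA_deriv f hf x

end ES
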