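import Pool.Agent.ES.RAvgD
import Pool.Agent.ES.RAvgA

/-!
Project ES, Part III, module RAvgB: derivatives of the averages
(`hasFDerivAt_param`, chain rule with the affine map `(z, r) ↦ emb z r` and `s ↦ s/c`).
-/

open MeasureTheory Set EulerTimes

namespace ES

private theorem RAvgB_emb_smooth (n : WithTop ℕ∞) :
    ContDiff ℝ n fun p : (Fin 2 → ℝ) × ℝ => emb p.1 p.2 := by
  rw [contDiff_euclidean]
  intro i
  have h0 : ContDiff ℝ n fun p : (Fin 2 → ℝ) × ℝ => p.1 0 :=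
    (contDiff_apply ℝ ℝ (0 : Fin 2)).comp contDiff_fst
  have h1 : ContDiff ℝ n fun p : (Fin 2 → ℝ) × ℝ => p.1 1 :=
    (contDiff_apply ℝ ℝ (1 : Fin 2)).comp contDiff_fst
  fin_cases i
  · exact h0.div_const _
  · exact h1.div_const _
  · exact contDiff_snd

private theorem RAvgB_key {E : Type} [NormedAddCommGroup E] [NormedSpace ℝ E]
    [FiniteDimensional ℝ E] (f : E × ℝ → ℝ) (hf : ContDiff ℝ 1 f) (x v : E) :
    fderiv ℝ (fun x => ∫ r in (0 : ℝ)..1, f (x, r)) x v =
      ∫ r in (0 : ℝ)..1, fderiv ℝ (fun y => f (y, r)) x v := by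
  rw [(hasFDerivAt_param f hf x).fderiv, ContinuousLinearMap.intervalIntegral_apply]
  · refine intervalIntegral.integral_congr fun r _ => ?_
    have h1 : HasFDerivAt f (fderiv ℝ f (x, r)) (x, r) :=
      (hf.differentiable (by norm_num) (x, r)).hasFDerivAt
    have h2 : HasFDerivAt (fun e : E => (e, r)) (ContinuousLinearMap.inl ℝ E ℝ) x :=
      hasFDerivAt_prodMk_left x r
    have h3 : fderiv ℝ (fun y => f (y, r)) x =
        (fderiv ℝ f (x, r)).comp (ContinuousLinearMap.inl ℝ E ℝ) :=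
      (HasFDerivAt.comp (g := f) x h1 h2).fderiv
    change _ = fderiv ℝ (fun y => f (y, r)) x v
    rw [h3]
  · have hc : Continuous fun r : ℝ => (fderiv ℝ f (x, r)).comp (ContinuousLinearMap.inl ℝ E ℝ) := by
      refine Continuous.clm_comp ?_ continuous_const
      exact (hf.continuous_fderiv (by norm_num)).comp (continuous_const.prodMk continuous_id)
    exact hc.intervalIntegrable _ _

/-- The linear part of `emb`. -/
private noncomputable def RAvgB_A : (Fin 2 → ℝ) →ₗ[ℝ] R3 where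
  toFun y := WithLp.toLp 2 ![y 0 / (2 * Real.pi), y 1 / (2 * Real.pi), 0]
  map_add' y z := by
    ext i
    fin_cases i <;> simp [add_div]
  map_smul' c y := by
    ext i
    fin_cases i <;> simp [mul_div_assoc]

private theorem RAvgB_emb (y : Fin 2 → ℝ) (r : ℝ) :
    emb y r = RAvgB_A.toContinuousLinearMap y + emb 0 r := by
  change emb y r = WithLp.toLp 2 ![y 0 / (2 * Real.pi), y 1 / (2 * Real.pi), 0] + emb 0 r
  unfold emb
  ext i
  fin_cases i <;> simp

private theorem RAvgB_single (b : Fin 2) :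
    RAvgB_A.toContinuousLinearMap (Pi.single b 1) =
      (2 * Real.pi)⁻¹ • EuclideanSpace.single (Fin.castSucc b) (1 : ℝ) := by
  change WithLp.toLp 2 ![(Pi.single b 1 : Fin 2 → ℝ) 0 / (2 * Real.pi),
    (Pi.single b 1 : Fin 2 → ℝ) 1 / (2 * Real.pi), 0] = _
  ext i
  fin_cases b <;> fin_cases i <;> simp

private theorem RAvgB_lin (G : R3 → ℝ) (hG : Differentiable ℝ G) (z : Fin 2 → ℝ) (r : ℝ)
    (b : Fin 2) : fderiv ℝ (fun y => G (emb y r)) z (Pi.single b 1) =
      (2 * Real.pi)⁻¹ * pd (Fin.castSucc b) G (emb z r) := by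
  have h1 : HasFDerivAt (fun y => emb y r) RAvgB_A.toContinuousLinearMap z := by
    have h2 := (RAvgB_A.toContinuousLinearMap.hasFDerivAt (x := z)).add_const (emb 0 r)
    refine h2.congr_of_eventuallyEq (Filter.Eventually.of_forall fun y => ?_)
    exact RAvgB_emb y r
  have h3 := ((hG (emb z r)).hasFDerivAt.comp z h1).fderiv
  have h4 : fderiv ℝ (fun y => G (emb y r)) z =
      (fderiv ℝ G (emb z r)).comp RAvgB_A.toContinuousLinearMap := h3
  rw [h4, ContinuousLinearMap.comp_apply, RAvgB_single, map_smul, smul_eq_mul]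
  rfl

private theorem RAvgB_coord (i : Fin 3) (n : WithTop ℕ∞) : ContDiff ℝ n fun x : R3 => x i :=
  (contDiff_euclidean.1 (contDiff_id (𝕜 := ℝ) (E := R3) (n := n))) i

/-- Derivatives of the average. -/
theorem avg_deriv {c T : ℝ} (hc : 0 < c) {φ : R3 → ℝ → R3} (hφ : TestField T φ)
    (z : Fin 2 → ℝ) (s : ℝ) (a : Fin 2) :
    deriv (fun s => avg c φ z s a) s =
      c⁻¹ * ∫ r in (0 : ℝ)..1, deriv (fun s => φ (emb z r) s (Fin.castSucc a)) (s / c) := by
  have hf : ContDiff ℝ 1 fun p : ℝ × ℝ => φ (emb z p.2) (p.1 / c) (Fin.castSucc a) := by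
    have h1 : ContDiff ℝ 1 fun p : R3 × ℝ => φ p.1 p.2 := by exact_mod_cast hφ.smooth 1
    have h2 : ContDiff ℝ 1 fun p : ℝ × ℝ => emb z p.2 :=
      (RAvgB_emb_smooth 1).comp (contDiff_const.prodMk contDiff_snd)
    exact (RAvgB_coord _ 1).comp (h1.comp (h2.prodMk (contDiff_fst.div_const c)))
  have h3 := RAvgB_key (fun p : ℝ × ℝ => φ (emb z p.2) (p.1 / c) (Fin.castSucc a)) hf s 1
  rw [fderiv_apply_one_eq_deriv] at h3
  change deriv (fun s => avg c φ z s a) s = _ at h3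
  rw [h3, ← intervalIntegral.integral_const_mul]
  refine intervalIntegral.integral_congr fun r _ => ?_
  change fderiv ℝ (fun y => φ (emb z r) (y / c) (Fin.castSucc a)) s 1 =
    c⁻¹ * deriv (fun s => φ (emb z r) s (Fin.castSucc a)) (s / c)
  rw [fderiv_apply_one_eq_deriv]
  have h4 := deriv_comp_mul_left c⁻¹ (fun s => φ (emb z r) s (Fin.castSucc a)) s
  simp only [div_eq_inv_mul]
  rw [h4, smul_eq_mul]

theorem avg_fderiv {c T : ℝ} (hc : 0 < c) {φ : R3 → ℝ → R3} (hφ : TestField T φ)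
    (z : Fin 2 → ℝ) (s : ℝ) (a b : Fin 2) :
    fderiv ℝ (fun y => avg c φ y s a) z (Pi.single b 1) =
      (2 * Real.pi)⁻¹ * ∫ r in (0 : ℝ)..1,
        pd (Fin.castSucc b) (fun y => φ y (s / c) (Fin.castSucc a)) (emb z r) := by
  have h1 : ContDiff ℝ 1 fun p : R3 × ℝ => φ p.1 p.2 := by exact_mod_cast hφ.smooth 1
  have hG : ContDiff ℝ 1 fun y : R3 => φ y (s / c) (Fin.castSucc a) :=
    (RAvgB_coord _ 1).comp (h1.comp (contDiff_id.prodMk contDiff_const))
  have hf : ContDiff ℝ 1 fun p : (Fin 2 → ℝ) × ℝ =>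
      φ (emb p.1 p.2) (s / c) (Fin.castSucc a) := hG.comp (RAvgB_emb_smooth 1)
  have h3 := RAvgB_key (fun p : (Fin 2 → ℝ) × ℝ => φ (emb p.1 p.2) (s / c) (Fin.castSucc a))
    hf z (Pi.single b 1)
  change fderiv ℝ (fun y => avg c φ y s a) z (Pi.single b 1) = _ at h3
  rw [h3, ← intervalIntegral.integral_const_mul]
  refine intervalIntegral.integral_congr fun r _ => ?_
  exact RAvgB_lin _ (hG.differentiable (by norm_num)) z r b

/-- The average of a scalar test function. -/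
theorem avs_smooth {ψ : R3 → ℝ} (hψ : ∀ n : ℕ, ContDiff ℝ n ψ) : ContDiff ℝ 2 (avs ψ) := by
  have h := contDiff_param 2 (fun p : (Fin 2 → ℝ) × ℝ => ψ (emb p.1 p.2))
    ((hψ 2).comp (RAvgB_emb_smooth _))
  exact_mod_cast h

theorem avs_fderiv {ψ : R3 → ℝ} (hψ : ∀ n : ℕ, ContDiff ℝ n ψ) (z : Fin 2 → ℝ) (b : Fin 2) :
    fderiv ℝ (avs ψ) z (Pi.single b 1) =
      (2 * Real.pi)⁻¹ * ∫ r in (0 : ℝ)..1, pd (Fin.castSucc b) ψ (emb z r) := by
  have h1 : ContDiff ℝ 1 ψ := by exact_mod_cast hψ 1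
  have h3 := RAvgB_key (fun p : (Fin 2 → ℝ) × ℝ => ψ (emb p.1 p.2))
    (h1.comp (RAvgB_emb_smooth 1)) z (Pi.single b 1)
  change fderiv ℝ (avs ψ) z (Pi.single b 1) = _ at h3
  rw [h3, ← intervalIntegral.integral_const_mul]
  refine intervalIntegral.integral_congr fun r _ => ?_
  exact RAvgB_lin _ (h1.differentiable (by norm_num)) z r b

theorem avs_periodic {ψ : R3 → ℝ} (hp : Periodic3 ψ) (z : Fin 2 → ℝ) (n : Fin 2 → ℤ) :
    avs ψ (fun a => z a + 2 * Real.pi * n a) = avs ψ z := by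
  unfold avs
  refine intervalIntegral.integral_congr fun r _ => ?_
  have h1 : emb (fun a => z a + 2 * Real.pi * n a) r =
      emb z r + WithLp.toLp 2 fun i => ((![n 0, n 1, 0] : Fin 3 → ℤ) i : ℝ) := by
    have hpi : (2 * Real.pi) ≠ 0 := by positivity
    unfold emb
    ext i
    fin_cases i
    · simp [add_div, mul_div_cancel_left₀ _ hpi]
    · simp [add_div, mul_div_cancel_left₀ _ hpi]
    · simp
  change ψ (emb (fun a => z a + 2 * Real.pi * n a) r) = ψ (emb z r)
  rw [h1]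
  exact hp (emb z r) ![n 0, n 1, 0]

end ES
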