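import Pool.Agent.ES.R3Da
import Pool.Agent.ES.RAvgB
import Pool.Agent.ES.RAvgE

/-!
Project ES, Part III, module R3Db: `v3` is weakly divergence free.
`cell_integral`, `avs ψ` is a two-dimensional test function, `Sol2.df` at the time `T0/T*t`.
-/

open MeasureTheory Set EulerTimes

namespace ES

private lemma R3Db_prj_emb (z : Fin 2 → ℝ) (r : ℝ) : prj (emb z r) = z := by
  have hpi : (2 * Real.pi) ≠ 0 := by positivity
  funext a
  fin_cases a
  · simp only [prj, emb]
    change 2 * Real.pi * (z 0 / (2 * Real.pi)) = z 0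
    field_simp
  · simp only [prj, emb]
    change 2 * Real.pi * (z 1 / (2 * Real.pi)) = z 1
    field_simp

private lemma R3Db_cont_prj : Continuous prj := by
  unfold prj
  fun_prop

private lemma R3Db_cont_emb (z : Fin 2 → ℝ) : Continuous (emb z) := by
  unfold emb
  refine (PiLp.continuous_toLp 2 _).comp ?_
  refine continuous_pi fun i => ?_
  fin_cases i
  · exact continuous_const
  · exact continuous_const
  · exact continuous_id

private lemma R3Db_cont_pd {ψ : R3 → ℝ} (hψ : ∀ n : ℕ, ContDiff ℝ n ψ) (i : Fin 3) :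
    Continuous (pd i ψ) := by
  have h1 : ContDiff ℝ 1 ψ := by exact_mod_cast hψ 1
  have h2 : Continuous (fderiv ℝ ψ) := h1.continuous_fderiv (by norm_num)
  exact h2.clm_apply continuous_const

private lemma R3Db_sum (c : ℝ) (V : Fld) (t : ℝ) (ψ : R3 → ℝ) (x : R3) :
    ∑ i, v3 c V x t i * pd i ψ x =
      ∑ a : Fin 2, c / (2 * Real.pi) * V (prj x) (c * t) a * pd (Fin.castSucc a) ψ x := by
  rw [Fin.sum_univ_three, Fin.sum_univ_two]
  have h0 : v3 c V x t 0 = c / (2 * Real.pi) * V (prj x) (c * t) 0 := rfl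
  have h1 : v3 c V x t 1 = c / (2 * Real.pi) * V (prj x) (c * t) 1 := rfl
  have h2 : v3 c V x t 2 = 0 := rfl
  rw [h0, h1, h2, zero_mul, add_zero]
  rfl

theorem v3_div {β T0 : ℝ} {V : Fld} {B : Set ℝ} (h : Sol2 β T0 V B) {T : ℝ} (hT : 0 < T) :
    ∀ t ∈ Icc 0 T, ∀ ψ : R3 → ℝ, (∀ n : ℕ, ContDiff ℝ n ψ) → Periodic3 ψ →
      ∫ x in Cell, ∑ i, v3 (T0 / T) V x t i * pd i ψ x = 0 := by
  intro t ht ψ hψ hp
  have hT0 := h.pos
  have hpi : (0 : ℝ) < 2 * Real.pi := by positivity
  set c : ℝ := T0 / T with hc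
  have hc0 : 0 < c := div_pos hT0 hT
  have hct : c * t ∈ Icc 0 T0 := by
    refine ⟨mul_nonneg hc0.le ht.1, ?_⟩
    calc c * t ≤ c * T := mul_le_mul_of_nonneg_left ht.2 hc0.le
      _ = T0 := by rw [hc]; field_simp
  have hVc : Continuous fun z : Fin 2 → ℝ => V z (c * t) := by
    have h1 : Continuous fun z : Fin 2 → ℝ => uc V (z, c * t) := by
      have := h.cont.comp_continuous (f := fun z : Fin 2 → ℝ => ((z, c * t) : (Fin 2 → ℝ) × ℝ))
        (by fun_prop) (fun z => ⟨mem_univ _, hct⟩)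
      exact this
    exact h1
  have hVa : ∀ a : Fin 2, Continuous fun x : R3 => V (prj x) (c * t) a := fun a =>
    (continuous_apply a).comp (hVc.comp R3Db_cont_prj)
  have hf : Continuous fun x : R3 =>
      ∑ a : Fin 2, c / (2 * Real.pi) * V (prj x) (c * t) a * pd (Fin.castSucc a) ψ x := by
    refine continuous_finsetSum _ fun a _ => ?_
    exact (continuous_const.mul (hVa a)).mul (R3Db_cont_pd hψ _)
  have e1 : ∫ x in Cell, ∑ i, v3 c V x t i * pd i ψ x =
      ∫ x in Cell, ∑ a : Fin 2, c / (2 * Real.pi) * V (prj x) (c * t) a *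
        pd (Fin.castSucc a) ψ x := by
    congr 1
    funext x
    exact R3Db_sum c V t ψ x
  rw [e1, cell_integral hf]
  have e2 : ∀ z : Fin 2 → ℝ, ∫ r in (0 : ℝ)..1, ∑ a : Fin 2, c / (2 * Real.pi) *
      V (prj (emb z r)) (c * t) a * pd (Fin.castSucc a) ψ (emb z r) =
      c * ∑ a : Fin 2, V z (c * t) a * fderiv ℝ (avs ψ) z (Pi.single a 1) := by
    intro z
    have hcont : ∀ a : Fin 2, Continuous fun r : ℝ => pd (Fin.castSucc a) ψ (emb z r) :=
      fun a => (R3Db_cont_pd hψ _).comp (R3Db_cont_emb z)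
    simp only [R3Db_prj_emb]
    rw [intervalIntegral.integral_finsetSum, Finset.mul_sum]
    · refine Finset.sum_congr rfl fun a _ => ?_
      rw [intervalIntegral.integral_const_mul, avs_fderiv hψ z a]
      field_simp
    · intro a _
      exact (continuous_const.mul (hcont a)).intervalIntegrable _ _
  simp only [e2]
  rw [integral_const_mul, h.df (c * t) hct (avs ψ) (avs_smooth hψ)
    (fun z n => avs_periodic hp z n), mul_zero, mul_zero]

end ES
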