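import Pool.Agent.ES.R3Da
import Pool.Agent.ES.RAvgB
import Pool.Agent.ES.RAvgE

/-!
Project ES, Part III, module R3Dc: at each time the three-dimensional integrand reduces to
`wf V (avg c φ)`, `c = T0/T`.

`cell_integral`; with `s = c t`: `∫ ∂_t φ_a dr = c ∂_s (avg)_a`, `∫ ∂_b φ_a dr = 2π ∂_b (avg)_a`
(`avg_deriv`, `avg_fderiv`); the left side is
`(2π)^(-2) ∫_Bx [(c/2π) c V_a ∂_s avg_a + (c/2π)² 2π V_a V_b ∂_b avg_a] = c²/(2π)³ wf V (avg c φ) (c t)`.
-/

open MeasureTheory Set EulerTimes

namespace ES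

private theorem R3Dc_prj_emb (z : Fin 2 → ℝ) (r : ℝ) : prj (emb z r) = z := by
  funext a
  have hpi : (2 * Real.pi) ≠ 0 := by positivity
  fin_cases a
  · show 2 * Real.pi * (emb z r) (Fin.castSucc (0 : Fin 2)) = z 0
    simp only [emb, Fin.castSucc_zero]
    simp
    field_simp
  · show 2 * Real.pi * (emb z r) (Fin.castSucc (1 : Fin 2)) = z 1
    simp only [emb]
    simp
    field_simp

private theorem R3Dc_v3_emb (c : ℝ) (V : Fld) (z : Fin 2 → ℝ) (r t : ℝ) (a : Fin 2) :
    v3 c V (emb z r) t (Fin.castSucc a) = c / (2 * Real.pi) * V z (c * t) a := by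
  unfold v3
  rw [R3Dc_prj_emb]
  fin_cases a <;> simp

private theorem R3Dc_v3_last (c : ℝ) (V : Fld) (x : R3) (t : ℝ) :
    v3 c V x t (Fin.last 2) = 0 := by
  unfold v3
  simp [Fin.last]

private theorem R3Dc_cont_deriv {T : ℝ} {φ : R3 → ℝ → R3} (hφ : TestField T φ) (t : ℝ)
    (i : Fin 3) : Continuous fun x => deriv (fun s => φ x s i) t := by
  have h1 : ContDiff ℝ 1 (fun p : R3 × ℝ => φ p.1 p.2 i) := by
    have h := hφ.smooth 1
    have h' : ContDiff ℝ 1 (fun p : R3 × ℝ => φ p.1 p.2) := by exact_mod_cast h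
    exact (EuclideanSpace.proj (𝕜 := ℝ) (ι := Fin 3) i).contDiff.comp h'
  have h2 : ∀ x, deriv (fun s => φ x s i) t =
      fderiv ℝ (fun p : R3 × ℝ => φ p.1 p.2 i) (x, t) (0, 1) := by
    intro x
    have hd : HasFDerivAt (fun p : R3 × ℝ => φ p.1 p.2 i)
        (fderiv ℝ (fun p : R3 × ℝ => φ p.1 p.2 i) (x, t)) (x, t) :=
      (h1.differentiable (by norm_num) (x, t)).hasFDerivAt
    have hc : HasDerivAt (fun s : ℝ => (x, s)) ((0 : R3), (1 : ℝ)) t :=
      (hasDerivAt_const t x).prodMk (hasDerivAt_id t)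
    exact (hd.comp_hasDerivAt t hc).deriv
  simp_rw [h2]
  have h3 : Continuous (fderiv ℝ (fun p : R3 × ℝ => φ p.1 p.2 i)) :=
    h1.continuous_fderiv (by norm_num)
  exact (h3.comp (by fun_prop : Continuous fun x : R3 => (x, t))).clm_apply continuous_const

private theorem R3Dc_cont_pd {T : ℝ} {φ : R3 → ℝ → R3} (hφ : TestField T φ) (t : ℝ)
    (i j : Fin 3) : Continuous fun x => pd j (fun y => φ y t i) x := by
  have h1 : ContDiff ℝ 1 (fun x : R3 => φ x t i) := by
    have h := hφ.smooth 1
    have h' : ContDiff ℝ 1 (fun p : R3 × ℝ => φ p.1 p.2) := by exact_mod_cast h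
    have h2 : ContDiff ℝ 1 (fun x : R3 => (x, t)) := contDiff_id.prodMk contDiff_const
    exact (EuclideanSpace.proj (𝕜 := ℝ) (ι := Fin 3) i).contDiff.comp (h'.comp h2)
  unfold pd
  exact (h1.continuous_fderiv (by norm_num)).clm_apply continuous_const

private theorem R3Dc_cont_emb (z : Fin 2 → ℝ) : Continuous fun r => emb z r := by
  unfold emb
  refine (PiLp.continuous_toLp 2 _).comp ?_
  refine continuous_pi fun i => ?_
  fin_cases i
  · exact continuous_const
  · exact continuous_const
  · exact continuous_id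

theorem v3_weak_time {β T0 : ℝ} {V : Fld} {B : Set ℝ} (h : Sol2 β T0 V B) {T : ℝ} (hT : 0 < T)
    {φ : R3 → ℝ → R3} (hφ : TestField T φ) {t : ℝ} (ht : t ∈ Icc 0 T) :
    ∫ x in Cell, ((∑ i, v3 (T0 / T) V x t i * deriv (fun s => φ x s i) t) +
      ∑ i, ∑ j, v3 (T0 / T) V x t i * v3 (T0 / T) V x t j * pd j (fun y => φ y t i) x) =
    (T0 / T) ^ 2 / (2 * Real.pi) ^ 3 * wf V (avg (T0 / T) φ) (T0 / T * t) := by
  have hpi : (2 * Real.pi) ≠ 0 := by positivity
  set c : ℝ := T0 / T with hc
  have hc0 : 0 < c := div_pos h.pos hT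
  have hv : Continuous fun x => v3 c V x t := by
    have h1 := v3_cont h hT
    have h2 : Continuous fun x : R3 => ((x, t) : R3 × ℝ) := by fun_prop
    have h3 : ContinuousOn (fun x : R3 => v3 c V x t) univ :=
      h1.comp h2.continuousOn (fun x _ => ⟨mem_univ _, ht⟩)
    exact continuousOn_univ.1 h3
  have hvi : ∀ i : Fin 3, Continuous fun x => v3 c V x t i := fun i =>
    (EuclideanSpace.proj (𝕜 := ℝ) (ι := Fin 3) i).continuous.comp hv
  have hf : Continuous fun x => ((∑ i, v3 c V x t i * deriv (fun s => φ x s i) t) +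
      ∑ i, ∑ j, v3 c V x t i * v3 c V x t j * pd j (fun y => φ y t i) x) := by
    refine (continuous_finsetSum _ fun i _ => (hvi i).mul (R3Dc_cont_deriv hφ t i)).add ?_
    exact continuous_finsetSum _ fun i _ => continuous_finsetSum _ fun j _ =>
      ((hvi i).mul (hvi j)).mul (R3Dc_cont_pd hφ t i j)
  rw [cell_integral hf]
  unfold wf
  rw [← integral_const_mul, ← integral_const_mul]
  refine setIntegral_congr_fun measurableSet_Icc fun z _ => ?_
  have hcd : ∀ a : Fin 2, Continuous
      (fun r => deriv (fun s => φ (emb z r) s (Fin.castSucc a)) t) := fun a =>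
    (R3Dc_cont_deriv hφ t (Fin.castSucc a)).comp (R3Dc_cont_emb z)
  have hcp : ∀ a b : Fin 2, Continuous
      (fun r => pd (Fin.castSucc b) (fun y => φ y t (Fin.castSucc a)) (emb z r)) :=
    fun a b => (R3Dc_cont_pd hφ t (Fin.castSucc a) (Fin.castSucc b)).comp (R3Dc_cont_emb z)
  have e1 : ∀ r, ((∑ i, v3 c V (emb z r) t i * deriv (fun s => φ (emb z r) s i) t) +
      ∑ i, ∑ j, v3 c V (emb z r) t i * v3 c V (emb z r) t j *
        pd j (fun y => φ y t i) (emb z r)) =
      (∑ a : Fin 2, c / (2 * Real.pi) * V z (c * t) a *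
        deriv (fun s => φ (emb z r) s (Fin.castSucc a)) t) +
      ∑ a : Fin 2, ∑ b : Fin 2, (c / (2 * Real.pi)) ^ 2 * (V z (c * t) a * V z (c * t) b) *
        pd (Fin.castSucc b) (fun y => φ y t (Fin.castSucc a)) (emb z r) := by
    intro r
    rw [Fin.sum_univ_castSucc, Fin.sum_univ_castSucc (n := 2)
      (f := fun i => ∑ j, v3 c V (emb z r) t i * v3 c V (emb z r) t j *
        pd j (fun y => φ y t i) (emb z r))]
    simp only [R3Dc_v3_last, zero_mul, add_zero, Finset.sum_const_zero]
    congr 1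
    · refine Finset.sum_congr rfl fun a _ => ?_
      rw [R3Dc_v3_emb]
    · refine Finset.sum_congr rfl fun a _ => ?_
      rw [Fin.sum_univ_castSucc]
      simp only [R3Dc_v3_last, mul_zero, zero_mul, add_zero]
      refine Finset.sum_congr rfl fun b _ => ?_
      rw [R3Dc_v3_emb, R3Dc_v3_emb]
      ring
  have e2 : (∫ r in (0 : ℝ)..1, ((∑ i, v3 c V (emb z r) t i *
      deriv (fun s => φ (emb z r) s i) t) +
      ∑ i, ∑ j, v3 c V (emb z r) t i * v3 c V (emb z r) t j *
        pd j (fun y => φ y t i) (emb z r))) =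
      (∑ a : Fin 2, c / (2 * Real.pi) * V z (c * t) a *
        ∫ r in (0 : ℝ)..1, deriv (fun s => φ (emb z r) s (Fin.castSucc a)) t) +
      ∑ a : Fin 2, ∑ b : Fin 2, (c / (2 * Real.pi)) ^ 2 * (V z (c * t) a * V z (c * t) b) *
        ∫ r in (0 : ℝ)..1,
          pd (Fin.castSucc b) (fun y => φ y t (Fin.castSucc a)) (emb z r) := by
    simp_rw [e1]
    rw [intervalIntegral.integral_add]
    · congr 1
      · rw [intervalIntegral.integral_finsetSum]
        · refine Finset.sum_congr rfl fun a _ => ?_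
          rw [intervalIntegral.integral_const_mul]
        · intro a _
          exact (continuous_const.mul (hcd a)).intervalIntegrable _ _
      · rw [intervalIntegral.integral_finsetSum]
        · refine Finset.sum_congr rfl fun a _ => ?_
          rw [intervalIntegral.integral_finsetSum]
          · refine Finset.sum_congr rfl fun b _ => ?_
            rw [intervalIntegral.integral_const_mul]
          · intro b _
            exact (continuous_const.mul (hcp a b)).intervalIntegrable _ _
        · intro a _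
          exact (continuous_finsetSum _ fun b _ =>
            continuous_const.mul (hcp a b)).intervalIntegrable _ _
    · exact (continuous_finsetSum _ fun a _ =>
        continuous_const.mul (hcd a)).intervalIntegrable _ _
    · exact (continuous_finsetSum _ fun a _ => continuous_finsetSum _ fun b _ =>
        continuous_const.mul (hcp a b)).intervalIntegrable _ _
  have e3 : ∀ a : Fin 2, (∫ r in (0 : ℝ)..1,
      deriv (fun s => φ (emb z r) s (Fin.castSucc a)) t) =
      c * deriv (fun s => avg c φ z s a) (c * t) := by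
    intro a
    rw [avg_deriv hc0 hφ z (c * t) a, mul_div_cancel_left₀ _ hc0.ne']
    field_simp
  have e4 : ∀ a b : Fin 2, (∫ r in (0 : ℝ)..1,
      pd (Fin.castSucc b) (fun y => φ y t (Fin.castSucc a)) (emb z r)) =
      (2 * Real.pi) * fderiv ℝ (fun y => avg c φ y (c * t) a) z (Pi.single b 1) := by
    intro a b
    rw [avg_fderiv hc0 hφ z (c * t) a b, mul_div_cancel_left₀ _ hc0.ne']
    field_simp
  simp only
  rw [e2]
  simp_rw [e3, e4]
  rw [mul_add, mul_add, Finset.mul_sum, Finset.mul_sum, Finset.mul_sum, Finset.mul_sum]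
  congr 1
  · refine Finset.sum_congr rfl fun a _ => ?_
    field_simp
  · refine Finset.sum_congr rfl fun a _ => ?_
    rw [Finset.mul_sum, Finset.mul_sum]
    refine Finset.sum_congr rfl fun b _ => ?_
    field_simp

end ES
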