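import Pool.Agent.ES.RWfD
import Pool.Agent.ES.Stmt

/-!
Project ES, Part III: averages over the third variable (definitions).
-/

open MeasureTheory Set EulerTimes

namespace ES

/-- The point of `ℝ³` over `z ∈ ℝ²` (coordinates divided by `2π`) with third coordinate `r`. -/
noncomputable def emb (z : Fin 2 → ℝ) (r : ℝ) : R3 :=
  WithLp.toLp 2 ![z 0 / (2 * Real.pi), z 1 / (2 * Real.pi), r]

/-- Average over the third variable of a test field, rescaled in time. -/
noncomputable def avg (c : ℝ) (φ : R3 → ℝ → R3) : Fld := fun z s a =>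
  ∫ r in (0 : ℝ)..1, φ (emb z r) (s / c) (Fin.castSucc a)

/-- Average over the third variable of a scalar function. -/
noncomputable def avs (ψ : R3 → ℝ) : (Fin 2 → ℝ) → ℝ := fun z => ∫ r in (0 : ℝ)..1, ψ (emb z r)

end ES
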