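import Pool.Agent.ES.R2D
import Pool.Agent.ES.RAvgD

/-!
Project ES, Part III: the three-dimensional field (definitions).

`v3 c V x t = (c/(2π)) (V (2π x_0, 2π x_1) (c t) 0, V (..) (c t) 1, 0)`, `c = T0/T`.
-/

open MeasureTheory Set EulerTimes

namespace ES

/-- Projection of `ℝ³` to the first two coordinates, multiplied by `2π`. -/
noncomputable def prj (x : R3) : Fin 2 → ℝ := fun a => 2 * Real.pi * x (Fin.castSucc a)

/-- The three-dimensional field. -/
noncomputable def v3 (c : ℝ) (V : Fld) : R3 → ℝ → R3 := fun x t =>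
  WithLp.toLp 2 ![c / (2 * Real.pi) * V (prj x) (c * t) 0,
    c / (2 * Real.pi) * V (prj x) (c * t) 1, 0]

end ES
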