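import Mathlib

/-!
Project ES, Part III, module RDimA: upper bound for the Hausdorff dimension from covers
(`Measure.hausdorffMeasure_le_liminf_sum`, `dimH_le_of_hausdorffMeasure_ne_top`).
-/

open MeasureTheory Set Filter Topology
open scoped ENNReal NNReal

namespace ES

theorem dimH_le_of_covers {B : Set ℝ} {d : ℝ≥0} (N : ℕ → ℕ) (L : ℕ → ℝ)
    (I : (q : ℕ) → Fin (N q) → Set ℝ) (hcov : ∀ q, B ⊆ ⋃ i, I q i) (hL0 : ∀ q, 0 ≤ L q)
    (hdiam : ∀ q i, Metric.ediam (I q i) ≤ ENNReal.ofReal (L q))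
    (hL : Tendsto L atTop (𝓝 0)) (C : ℝ)
    (hC : ∀ q, (N q : ℝ) * (L q) ^ (d : ℝ) ≤ C) : dimH B ≤ d := by
  have hr : Tendsto (fun q => ENNReal.ofReal (L q)) atTop (𝓝 0) := by
    have h := (ENNReal.continuous_ofReal.tendsto 0).comp hL
    rwa [ENNReal.ofReal_zero] at h
  have h1 := Measure.hausdorffMeasure_le_liminf_sum (d : ℝ) B (l := atTop)
    (fun q => ENNReal.ofReal (L q)) hr I (Eventually.of_forall fun q i => hdiam q i)
    (Eventually.of_forall hcov)
  have h2 : ∀ q, ∑ i, Metric.ediam (I q i) ^ (d : ℝ) ≤ ENNReal.ofReal C := by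
    intro q
    calc ∑ i, Metric.ediam (I q i) ^ (d : ℝ)
        ≤ ∑ _i : Fin (N q), ENNReal.ofReal (L q) ^ (d : ℝ) :=
          Finset.sum_le_sum fun i _ => ENNReal.rpow_le_rpow (hdiam q i) d.coe_nonneg
      _ = ENNReal.ofReal ((N q : ℝ) * (L q) ^ (d : ℝ)) := by
          rw [Finset.sum_const, Finset.card_univ, Fintype.card_fin, nsmul_eq_mul,
            ENNReal.ofReal_rpow_of_nonneg (hL0 q) d.coe_nonneg,
            ENNReal.ofReal_mul (Nat.cast_nonneg _), ENNReal.ofReal_natCast]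
      _ ≤ ENNReal.ofReal C := ENNReal.ofReal_le_ofReal (hC q)
  have h3 : liminf (fun q => ∑ i, Metric.ediam (I q i) ^ (d : ℝ)) atTop ≤ ENNReal.ofReal C := by
    refine liminf_le_of_le (by isBoundedDefault) ?_
    intro b hb
    obtain ⟨q, hq⟩ := hb.exists
    exact hq.trans (h2 q)
  exact dimH_le_of_hausdorffMeasure_ne_top
    (ne_top_of_le_ne_top ENNReal.ofReal_ne_top (h1.trans h3))

end ES
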