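import Pool.Agent.ES.RSeq
import Pool.Agent.ES.RPC
import Pool.Agent.ES.RDimA

/-!
Project ES, Part III, module RDimB: the dimension of the set of bad times.

`Bset τ = ⋂ k, (bads (τ k) ∪ ends (τ k))` is closed, contained in `[0,T0]`, contains `0` and `T0`, and
is contained in `(⋂ k, bads (τ k)) ∪ ⋃ k, ends (τ k)` (use `ends_sub`: if `t ∉ bads (τ k)` for some
`k` then `t ∈ ends (τ k)`).  The second set is countable (dimension `0`, `dimH_union`,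
`dimH_countable`); for the first use `dimH_le_of_covers` with the covers of stage `k ≥ k1`
(`Valid.bads_eq`, lengths `≤ Lseq k = 4 C0 lN`, `RSt.count`, `ev_dim`) for every real `d > 2β/(1-β)`.
-/

open Filter Topology

namespace ES

/-- The set of bad times. -/
def Bset (τ : ℕ → PT) : Set ℝ := ⋂ k, ((τ k).bads ∪ (τ k).ends)

theorem Bset_closed (τ : ℕ → PT) : IsClosed (Bset τ) :=
  isClosed_iInter fun k => (PT.bads_closed (τ k)).union (PT.ends_finite (τ k)).isClosed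

theorem RSt.Bset_sub {C0 : ℝ} {p : ℕ} {β : ℝ} {n0 : ℕ} {T0 : ℝ} {V0 : Fld} {V : ℕ → Fld}
    {τ : ℕ → PT} (h : RSt C0 p β n0 T0 V0 V τ) : Bset τ ⊆ Set.Icc 0 T0 := by
  intro t ht
  have h1 := Set.mem_iInter.mp ht 0
  rw [← h.lo 0, ← h.hi 0]
  rcases h1 with h2 | h2
  · exact (h.valid 0).bads_sub h2
  · exact (h.valid 0).ends_sub h2

theorem RSt.zero_mem {C0 : ℝ} {p : ℕ} {β : ℝ} {n0 : ℕ} {T0 : ℝ} {V0 : Fld} {V : ℕ → Fld}
    {τ : ℕ → PT} (h : RSt C0 p β n0 T0 V0 V τ) : (0 : ℝ) ∈ Bset τ := by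
  refine Set.mem_iInter.mpr fun k => Or.inr ?_
  have h1 := PT.lo_mem_ends (τ k)
  rwa [h.lo k] at h1

theorem RSt.T0_mem {C0 : ℝ} {p : ℕ} {β : ℝ} {n0 : ℕ} {T0 : ℝ} {V0 : Fld} {V : ℕ → Fld}
    {τ : ℕ → PT} (h : RSt C0 p β n0 T0 V0 V τ) : T0 ∈ Bset τ := by
  refine Set.mem_iInter.mpr fun k => Or.inr ?_
  have h1 := PT.hi_mem_ends (τ k)
  rwa [h.hi k] at h1

private theorem RDimB_lN_nonneg {C0 : ℝ} (hC : 1 ≤ C0) (p : ℕ) (β : ℝ) (n : ℕ) :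
    0 ≤ lN C0 p β n := by
  have hC0 : 0 ≤ C0 := by linarith
  have h1 : 0 ≤ KN n := by
    unfold KN mN
    positivity
  have h2 : 0 ≤ sigN β n := by
    unfold sigN del
    positivity
  unfold lN
  positivity

theorem RSt.dimH_le {C0 : ℝ} (hC : 1 ≤ C0) {p : ℕ} {β : ℝ} (hβ0 : 0 ≤ β) (hβ : β < 1 / 3)
    {n0 : ℕ} (hP : ∀ n, n0 ≤ n → PC C0 p β n) {T0 : ℝ} {V0 : Fld} {V : ℕ → Fld} {τ : ℕ → PT}
    (h : RSt C0 p β n0 T0 V0 V τ) :
    dimH (Bset τ) ≤ ENNReal.ofReal (2 * β / (1 - β)) := by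
  have hs0 : 0 ≤ 2 * β / (1 - β) := div_nonneg (by linarith) (by linarith)
  have hsub : Bset τ ⊆ (⋂ k, (τ k).bads) ∪ ⋃ k, (τ k).ends := by
    intro t ht
    by_cases h1 : ∀ k, t ∈ (τ k).bads
    · exact Or.inl (Set.mem_iInter.mpr h1)
    · push Not at h1
      obtain ⟨k, hk⟩ := h1
      rcases Set.mem_iInter.mp ht k with h2 | h2
      · exact absurd h2 hk
      · exact Or.inr (Set.mem_iUnion.mpr ⟨k, h2⟩)
  have hcount : (⋃ k, (τ k).ends).Countable :=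
    Set.countable_iUnion fun k => (PT.ends_finite (τ k)).countable
  refine (dimH_mono hsub).trans ?_
  rw [dimH_union, hcount.dimH_zero, max_eq_left (zero_le)]
  apply ENNReal.le_of_forall_pos_le_add
  intro ε hε _
  set d : NNReal := Real.toNNReal (2 * β / (1 - β)) + ε with hd
  have hdr : (d : ℝ) = 2 * β / (1 - β) + ε := by
    rw [hd, NNReal.coe_add, Real.coe_toNNReal _ hs0]
  have hd' : 2 * β / (1 - β) < (d : ℝ) := by
    rw [hdr]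
    have : (0 : ℝ) < ε := by exact_mod_cast hε
    linarith
  have hgoal : ENNReal.ofReal (2 * β / (1 - β)) + (ε : ENNReal) = (d : ENNReal) := by
    rw [hd, ENNReal.coe_add]
    rfl
  rw [hgoal]
  obtain ⟨n1, hn1⟩ := eventually_atTop.mp (ev_dim hC p hβ0 hβ hd')
  obtain ⟨Ns, hNs⟩ := h.count hC hP
  choose a b hab hbe using fun k => (h.valid k).bads_eq
  refine dimH_le_of_covers (fun q => (τ (q + (n1 + 1))).nb)
    (fun q => Lseq C0 p β n0 T0 (q + (n1 + 1)))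
    (fun q i => Set.Icc (a (q + (n1 + 1)) i) (b (q + (n1 + 1)) i)) ?_ ?_ ?_ ?_ |Ns| ?_
  · intro q t ht
    rw [← hbe]
    exact Set.mem_iInter.mp ht _
  · intro q
    have h1 := RDimB_lN_nonneg hC p β (n0 + (q + n1) + 1)
    change 0 ≤ 4 * C0 * lN C0 p β (n0 + (q + n1) + 1)
    have : 0 ≤ C0 := by linarith
    positivity
  · intro q i
    rw [Real.ediam_Icc]
    exact ENNReal.ofReal_le_ofReal (hab _ i).2.2.1
  · have h1 : Tendsto (fun q : ℕ => n0 + (q + n1) + 1) atTop atTop :=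
      tendsto_atTop_mono (fun q => by change q ≤ n0 + (q + n1) + 1; omega) tendsto_id
    have h2 := ((tendsto_lN hC p hβ0 hβ).comp h1).const_mul (4 * C0)
    rw [mul_zero] at h2
    exact h2
  · intro q
    have h1 := hn1 (n0 + (q + (n1 + 1))) (by omega)
    have h2 := hNs (q + (n1 + 1)) (by omega)
    have hL : 0 ≤ Lseq C0 p β n0 T0 (q + (n1 + 1)) := by
      have h1 := RDimB_lN_nonneg hC p β (n0 + (q + n1) + 1)
      change 0 ≤ 4 * C0 * lN C0 p β (n0 + (q + n1) + 1)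
      have : 0 ≤ C0 := by linarith
      positivity
    have h1' : (2 : ℝ) ^ (2 * β * ((n0 + (q + (n1 + 1)) : ℕ) : ℝ) ^ 3 +
        4 * ((n0 + (q + (n1 + 1)) : ℕ) : ℝ) ^ 2) *
        (Lseq C0 p β n0 T0 (q + (n1 + 1))) ^ (d : ℝ) ≤ 1 := h1
    have hLd : 0 ≤ (Lseq C0 p β n0 T0 (q + (n1 + 1))) ^ (d : ℝ) := Real.rpow_nonneg hL _
    have h2p : 0 ≤ (2 : ℝ) ^ (2 * β * ((n0 + (q + (n1 + 1)) : ℕ) : ℝ) ^ 3 +
        4 * ((n0 + (q + (n1 + 1)) : ℕ) : ℝ) ^ 2) := by positivity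
    calc ((τ (q + (n1 + 1))).nb : ℝ) * (Lseq C0 p β n0 T0 (q + (n1 + 1))) ^ (d : ℝ)
        ≤ Ns * (2 : ℝ) ^ (2 * β * ((n0 + (q + (n1 + 1)) : ℕ) : ℝ) ^ 3 +
            4 * ((n0 + (q + (n1 + 1)) : ℕ) : ℝ) ^ 2) *
            (Lseq C0 p β n0 T0 (q + (n1 + 1))) ^ (d : ℝ) := mul_le_mul_of_nonneg_right h2 hLd
      _ = Ns * ((2 : ℝ) ^ (2 * β * ((n0 + (q + (n1 + 1)) : ℕ) : ℝ) ^ 3 +
            4 * ((n0 + (q + (n1 + 1)) : ℕ) : ℝ) ^ 2) *
            (Lseq C0 p β n0 T0 (q + (n1 + 1))) ^ (d : ℝ)) := by rw [mul_assoc]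
      _ ≤ |Ns| * ((2 : ℝ) ^ (2 * β * ((n0 + (q + (n1 + 1)) : ℕ) : ℝ) ^ 3 +
            4 * ((n0 + (q + (n1 + 1)) : ℕ) : ℝ) ^ 2) *
            (Lseq C0 p β n0 T0 (q + (n1 + 1))) ^ (d : ℝ)) :=
          mul_le_mul_of_nonneg_right (le_abs_self _) (mul_nonneg h2p hLd)
      _ ≤ |Ns| * 1 := mul_le_mul_of_nonneg_left h1' (abs_nonneg _)
      _ = |Ns| := mul_one _

end ES
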