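import Pool.Agent.ES.RDimA

/-!
Project ES, Part III, module RDimC: for `0 ≤ s < 1` a closed subset of `[0,1]` of Hausdorff
dimension `s`.

`s = 0`: a point.  `0 < s < 1`: `r = 2^(-1/s) < 1/2`, `K` = the set of the sums
`c(a) = (1-r) ∑ a_n r^n`, `a : ℕ → Fin 2`; compact as a continuous image of `ℕ → Fin 2`.
Upper bound: `K` is covered by `2^N` sets of diameter at most `r^N` (fixed first `N` digits) and
`2^N (r^N)^s = 1` (`dimH_le_of_covers`).
Lower bound: if `a`, `b` differ first at `n`, then `|c(a)-c(b)| ≥ r^n (1-2r)` and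
`|ofDigits a - ofDigits b| ≤ 2^(-n) = (r^n)^s` (`Real.abs_ofDigits_sub_ofDigits_le`), so the map
`c(a) ↦ Real.ofDigits a` is well defined and Hoelder of exponent `s` on `K`, with image `⊇ [0,1)`
(`Real.ofDigits_digits`); `HolderOnWith.dimH_image_le` gives `1 ≤ dimH K / s`.
-/

open MeasureTheory Set Filter Topology
open scoped ENNReal NNReal

namespace ES

/-- The point with the digits `a`. -/
private noncomputable def RDimC_c (r : ℝ) (a : ℕ → Fin 2) : ℝ :=
  ∑' n, (1 - r) * r ^ n * ((a n : ℕ) : ℝ)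

private theorem RDimC_dig (x : Fin 2) : (0 : ℝ) ≤ ((x : ℕ) : ℝ) ∧ ((x : ℕ) : ℝ) ≤ 1 := by
  refine ⟨Nat.cast_nonneg _, ?_⟩
  have h := x.2
  have : (x : ℕ) ≤ 1 := by omega
  exact_mod_cast this

private theorem RDimC_bd {r : ℝ} (h0 : 0 < r) (h1 : r < 1) (a : ℕ → Fin 2) (n : ℕ) :
    ‖(1 - r) * r ^ n * ((a n : ℕ) : ℝ)‖ ≤ (1 - r) * r ^ n := by
  have h2 := RDimC_dig (a n)
  have h3 : 0 ≤ (1 - r) * r ^ n := mul_nonneg (by linarith) (pow_nonneg h0.le n)
  rw [Real.norm_eq_abs, abs_of_nonneg (mul_nonneg h3 h2.1)]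
  exact mul_le_of_le_one_right h3 h2.2

private theorem RDimC_geo {r : ℝ} (h0 : 0 < r) (h1 : r < 1) :
    Summable (fun n : ℕ => (1 - r) * r ^ n) :=
  (summable_geometric_of_lt_one h0.le h1).mul_left _

private theorem RDimC_sum {r : ℝ} (h0 : 0 < r) (h1 : r < 1) (a : ℕ → Fin 2) :
    Summable (fun n => (1 - r) * r ^ n * ((a n : ℕ) : ℝ)) :=
  Summable.of_norm_bounded (RDimC_geo h0 h1) (RDimC_bd h0 h1 a)

private theorem RDimC_nonneg {r : ℝ} (h0 : 0 < r) (h1 : r < 1) (a : ℕ → Fin 2) :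
    0 ≤ RDimC_c r a :=
  tsum_nonneg fun n => mul_nonneg (mul_nonneg (by linarith) (pow_nonneg h0.le n))
    (RDimC_dig _).1

private theorem RDimC_le_one {r : ℝ} (h0 : 0 < r) (h1 : r < 1) (a : ℕ → Fin 2) :
    RDimC_c r a ≤ 1 := by
  calc RDimC_c r a ≤ ∑' n : ℕ, (1 - r) * r ^ n := by
        refine (RDimC_sum h0 h1 a).tsum_le_tsum ?_ (RDimC_geo h0 h1)
        intro n
        exact (le_abs_self _).trans (RDimC_bd h0 h1 a n)
    _ = 1 := by
        rw [tsum_mul_left, tsum_geometric_of_lt_one h0.le h1]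
        exact mul_inv_cancel₀ (by linarith)

private theorem RDimC_step {r : ℝ} (h0 : 0 < r) (h1 : r < 1) (a : ℕ → Fin 2) :
    RDimC_c r a = (1 - r) * ((a 0 : ℕ) : ℝ) + r * RDimC_c r (fun n => a (n + 1)) := by
  unfold RDimC_c
  rw [(RDimC_sum h0 h1 a).tsum_eq_zero_add, ← tsum_mul_left]
  congr 1
  · simp
  · refine tsum_congr fun n => ?_
    rw [pow_succ]
    ring

private theorem RDimC_close {r : ℝ} (h0 : 0 < r) (h1 : r < 1) (N : ℕ) :
    ∀ a b : ℕ → Fin 2, (∀ i < N, a i = b i) → |RDimC_c r a - RDimC_c r b| ≤ r ^ N := by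
  induction N with
  | zero =>
    intro a b _
    rw [pow_zero, abs_le]
    have := RDimC_nonneg h0 h1 a
    have := RDimC_nonneg h0 h1 b
    have := RDimC_le_one h0 h1 a
    have := RDimC_le_one h0 h1 b
    constructor <;> linarith
  | succ N ih =>
    intro a b hab
    rw [RDimC_step h0 h1 a, RDimC_step h0 h1 b, hab 0 (by omega), add_sub_add_left_eq_sub,
      ← mul_sub, abs_mul, abs_of_pos h0, pow_succ, mul_comm _ r]
    exact mul_le_mul_of_nonneg_left (ih _ _ fun i hi => hab (i + 1) (by omega)) h0.le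

private theorem RDimC_far {r : ℝ} (h0 : 0 < r) (h1 : r < 1) (N : ℕ) :
    ∀ a b : ℕ → Fin 2, (∀ i < N, a i = b i) → a N ≠ b N →
      r ^ N * (1 - 2 * r) ≤ |RDimC_c r a - RDimC_c r b| := by
  induction N with
  | zero =>
    intro a b _ hab
    rw [pow_zero, one_mul, RDimC_step h0 h1 a, RDimC_step h0 h1 b]
    have e1 := RDimC_nonneg h0 h1 (fun n => a (n + 1))
    have e2 := RDimC_nonneg h0 h1 (fun n => b (n + 1))
    have e3 := RDimC_le_one h0 h1 (fun n => a (n + 1))
    have e4 := RDimC_le_one h0 h1 (fun n => b (n + 1))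
    have hcase : ((a 0 : ℕ) = 0 ∧ (b 0 : ℕ) = 1) ∨ ((a 0 : ℕ) = 1 ∧ (b 0 : ℕ) = 0) := by
      have ha := (a 0).2
      have hb := (b 0).2
      have hne : (a 0 : ℕ) ≠ (b 0 : ℕ) := fun h => hab (Fin.ext h)
      omega
    rcases hcase with ⟨ha, hb⟩ | ⟨ha, hb⟩
    · rw [ha, hb]
      refine le_trans ?_ (neg_le_abs _)
      push_cast
      nlinarith
    · rw [ha, hb]
      refine le_trans ?_ (le_abs_self _)
      push_cast
      nlinarith
  | succ N ih =>
    intro a b hab hN
    rw [RDimC_step h0 h1 a, RDimC_step h0 h1 b, hab 0 (by omega), add_sub_add_left_eq_sub,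
      ← mul_sub, abs_mul, abs_of_pos h0, pow_succ, mul_comm _ r, mul_assoc]
    exact mul_le_mul_of_nonneg_left
      (ih _ _ (fun i hi => hab (i + 1) (by omega)) hN) h0.le

private theorem RDimC_cont {r : ℝ} (h0 : 0 < r) (h1 : r < 1) :
    Continuous (RDimC_c r) := by
  refine continuous_tsum (u := fun n => (1 - r) * r ^ n) ?_ (RDimC_geo h0 h1) ?_
  · intro n
    refine continuous_const.mul ?_
    exact (continuous_of_discreteTopology (f := fun x : Fin 2 => ((x : ℕ) : ℝ))).comp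
      (continuous_apply n)
  · intro n a
    exact RDimC_bd h0 h1 a n

private theorem RDimC_diff {a b : ℕ → Fin 2} (h : a ≠ b) :
    ∃ n, (∀ i < n, a i = b i) ∧ a n ≠ b n := by
  classical
  have h1 : ∃ n, a n ≠ b n := by
    by_contra h2
    push Not at h2
    exact h (funext h2)
  refine ⟨Nat.find h1, ?_, Nat.find_spec h1⟩
  intro i hi
  by_contra h2
  exact Nat.find_min h1 hi h2

theorem exists_compact_dimH_eq {s : ℝ} (hs0 : 0 ≤ s) (hs1 : s < 1) :
    ∃ K : Set ℝ, IsClosed K ∧ K ⊆ Set.Icc 0 1 ∧ dimH K = ENNReal.ofReal s := by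
  rcases hs0.eq_or_lt with hs | hs
  · refine ⟨{0}, isClosed_singleton, ?_, ?_⟩
    · intro x hx
      rw [mem_singleton_iff] at hx
      rw [hx]
      exact ⟨le_rfl, zero_le_one⟩
    · rw [dimH_singleton, ← hs, ENNReal.ofReal_zero]
  set r : ℝ := (2 : ℝ) ^ (-(1 / s)) with hr
  have hr0 : 0 < r := Real.rpow_pos_of_pos two_pos _
  have hr2 : r < 1 / 2 := by
    have h1 : r < (2 : ℝ) ^ (-1 : ℝ) := by
      apply Real.rpow_lt_rpow_of_exponent_lt one_lt_two
      have : 1 < 1 / s := by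
        rw [lt_div_iff₀ hs]
        linarith
      linarith
    rwa [Real.rpow_neg_one, ← one_div] at h1
  have hr1 : r < 1 := by linarith
  have hrs : r ^ s = 1 / 2 := by
    rw [hr, ← Real.rpow_mul two_pos.le]
    have : -(1 / s) * s = -1 := by
      field_simp
    rw [this, Real.rpow_neg_one, one_div]
  have hrns : ∀ n : ℕ, (r ^ n) ^ s = (1 / 2) ^ n := by
    intro n
    rw [← Real.rpow_natCast r n, ← Real.rpow_mul hr0.le, mul_comm, Real.rpow_mul hr0.le,
      hrs, Real.rpow_natCast]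
  have hcont := RDimC_cont hr0 hr1
  refine ⟨range (RDimC_c r), (isCompact_range hcont).isClosed, ?_, ?_⟩
  · rintro _ ⟨a, rfl⟩
    exact ⟨RDimC_nonneg hr0 hr1 a, RDimC_le_one hr0 hr1 a⟩
  apply le_antisymm
  · -- the upper bound
    have h2 : dimH (range (RDimC_c r)) ≤ (s.toNNReal : ℝ≥0∞) := by
      refine dimH_le_of_covers (fun q => 2 ^ q) (fun q => r ^ q)
        (fun q i => RDimC_c r '' {a | ∀ j : Fin q, a j = finFunctionFinEquiv.symm i j})
        ?_ (fun q => pow_nonneg hr0.le q) ?_ (tendsto_pow_atTop_nhds_zero_of_lt_one hr0.le hr1)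
        1 ?_
      · rintro q _ ⟨a, rfl⟩
        rw [mem_iUnion]
        refine ⟨finFunctionFinEquiv (fun j : Fin q => a j), a, ?_, rfl⟩
        intro j
        rw [Equiv.symm_apply_apply]
      · intro q i
        refine Metric.ediam_le ?_
        rintro _ ⟨a, ha, rfl⟩ _ ⟨b, hb, rfl⟩
        rw [edist_dist, Real.dist_eq]
        refine ENNReal.ofReal_le_ofReal (RDimC_close hr0 hr1 q a b ?_)
        intro j hj
        exact (ha ⟨j, hj⟩).trans (hb ⟨j, hj⟩).symm
      · intro q
        rw [Real.coe_toNNReal s hs0, hrns]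
        push_cast
        rw [← mul_pow]
        norm_num
    exact h2
  · -- the lower bound
    classical
    have hinj : Function.Injective (RDimC_c r) := by
      intro a b hab
      by_contra hne
      obtain ⟨n, h1, h2⟩ := RDimC_diff hne
      have h3 := RDimC_far hr0 hr1 n a b h1 h2
      rw [hab, sub_self, abs_zero] at h3
      have h4 : 0 < r ^ n * (1 - 2 * r) := mul_pos (pow_pos hr0 n) (by linarith)
      linarith
    let g : ℝ → ℝ := fun x => Real.ofDigits (Function.invFun (RDimC_c r) x)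
    have hg : ∀ a, g (RDimC_c r a) = Real.ofDigits a := by
      intro a
      simp only [g]
      rw [Function.leftInverse_invFun hinj a]
    have h12 : 0 < 1 - 2 * r := by linarith
    have hhol : HolderOnWith (((1 - 2 * r) ^ s)⁻¹).toNNReal s.toNNReal g
        (range (RDimC_c r)) := by
      rintro _ ⟨a, rfl⟩ _ ⟨b, rfl⟩
      rw [hg, hg]
      by_cases hab : a = b
      · rw [hab, edist_self]
        exact bot_le
      obtain ⟨n, h1, h2⟩ := RDimC_diff hab
      have h3 := RDimC_far hr0 hr1 n a b h1 h2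
      have h4 := Real.abs_ofDigits_sub_ofDigits_le h1
      rw [edist_dist, edist_dist, Real.dist_eq, Real.dist_eq, Real.coe_toNNReal s hs0,
        ENNReal.ofReal_rpow_of_nonneg (abs_nonneg _) hs0]
      change _ ≤ ENNReal.ofReal _ * _
      rw [← ENNReal.ofReal_mul (inv_nonneg.2 (Real.rpow_nonneg h12.le s))]
      apply ENNReal.ofReal_le_ofReal
      refine h4.trans ?_
      have h5 : (r ^ n * (1 - 2 * r)) ^ s ≤ |RDimC_c r a - RDimC_c r b| ^ s :=
        Real.rpow_le_rpow (mul_nonneg (pow_nonneg hr0.le n) h12.le) h3 hs0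
      rw [Real.mul_rpow (pow_nonneg hr0.le n) h12.le, hrns] at h5
      have h6 : 0 < (1 - 2 * r) ^ s := Real.rpow_pos_of_pos h12 s
      rw [inv_mul_eq_div, le_div_iff₀ h6]
      refine le_trans (le_of_eq ?_) h5
      push_cast
      rw [one_div, inv_pow]
    have h5 : Icc (0 : ℝ) 1 ⊆ g '' range (RDimC_c r) := by
      intro y hy
      obtain ⟨a, -, ha⟩ := Real.ofDigits_SurjOn (b := 2) one_lt_two hy
      exact ⟨RDimC_c r a, ⟨a, rfl⟩, by rw [hg, ha]⟩
    have h6 : (1 : ℝ≥0∞) ≤ dimH (g '' range (RDimC_c r)) := by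
      have h7 : dimH (Icc (0 : ℝ) 1) = Module.finrank ℝ ℝ := by
        apply Real.dimH_of_nonempty_interior
        rw [interior_Icc]
        exact ⟨1 / 2, by norm_num, by norm_num⟩
      rw [Module.finrank_self, Nat.cast_one] at h7
      rw [← h7]
      exact dimH_mono h5
    have hs' : 0 < s.toNNReal := Real.toNNReal_pos.2 hs
    have h8 := h6.trans (hhol.dimH_image_le hs')
    rw [ENNReal.le_div_iff_mul_le (Or.inl (by exact_mod_cast hs'.ne'))
      (Or.inl ENNReal.coe_ne_top), one_mul] at h8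
    exact h8

end ES
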