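import Pool.Agent.ES.RTree

/-!
Project ES, Part III, module RGlue: modification of a field on consecutive intervals.

`Md V V' s t e`: `V' = V` at the times outside the open interval `(s,t)`, and `|V' - V| ≤ e`.
`Rf G B V s t e N`: there is a modification `V'` of `V` on `(s,t)` and a tree of `[s,t]`, valid for
`V'`, with at most `N` bad leaves.
Proof of `Rf.cat`: take `V' = glue u V1 V2`; on `[s,u]` it equals `V1` and on `[u,t]` it equals `V2`
(at the time `u` both are equal to `V`), then use `Cg` and `PT.Valid.mono`-like inductions.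
-/

namespace ES

/-- The predicate depends only on the field on the closed interval. -/
def Cg (G : Fld → ℝ → ℝ → Prop) : Prop :=
  ∀ (V V' : Fld) (s t : ℝ), G V s t → (∀ x, ∀ τ ∈ Set.Icc s t, V' x τ = V x τ) → G V' s t

/-- `V'` is a modification of `V` on `(s,t)` by at most `e`. -/
def Md (V V' : Fld) (s t e : ℝ) : Prop :=
  (∀ x τ, τ ∉ Set.Ioo s t → V' x τ = V x τ) ∧ ∀ x τ a, |V' x τ a - V x τ a| ≤ e

/-- Refinement of one interval. -/
def Rf (G B : Fld → ℝ → ℝ → Prop) (V : Fld) (s t e : ℝ) (N : ℕ) : Prop :=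
  ∃ (V' : Fld) (τ : PT), τ.lo = s ∧ τ.hi = t ∧ τ.Valid (G V') (B V') ∧ τ.nb ≤ N ∧ Md V V' s t e

/-- `V1` up to the time `u`, `V2` after it. -/
noncomputable def glue (u : ℝ) (V1 V2 : Fld) : Fld := fun x t => if t ≤ u then V1 x t else V2 x t

/-- Validity of a tree only depends on the field on the interval of the tree. -/
theorem PT.Valid.congr {G B : Fld → ℝ → ℝ → Prop} (hG : Cg G) (hB : Cg B) {V V' : Fld} {τ : PT}
    (h : τ.Valid (G V) (B V)) (hV : ∀ x, ∀ t ∈ Set.Icc τ.lo τ.hi, V' x t = V x t) :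
    τ.Valid (G V') (B V') := by
  induction τ with
  | ex s t => exact ⟨h.1, hG V V' s t h.2 hV⟩
  | bd s t => exact ⟨h.1, hB V V' s t h.2 hV⟩
  | cat l r ihl ihr =>
    obtain ⟨h1, h2, h3⟩ := h
    have l1 := PT.Valid.lt h1
    have l2 := PT.Valid.lt h2
    refine ⟨ihl h1 fun x t ht => ?_, ihr h2 fun x t ht => ?_, h3⟩
    · refine hV x t ⟨ht.1, ?_⟩
      show t ≤ r.hi
      exact ht.2.trans (h3.le.trans l2.le)
    · refine hV x t ⟨?_, ht.2⟩
      show l.lo ≤ t
      exact l1.le.trans (h3.le.trans ht.1)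

private theorem RGlue_le {u : ℝ} {V1 V2 : Fld} {x : Fin 2 → ℝ} {t : ℝ} (ht : t ≤ u) :
    glue u V1 V2 x t = V1 x t := by
  unfold glue
  rw [if_pos ht]

private theorem RGlue_gt {u : ℝ} {V1 V2 : Fld} {x : Fin 2 → ℝ} {t : ℝ} (ht : u < t) :
    glue u V1 V2 x t = V2 x t := by
  unfold glue
  rw [if_neg (not_le.2 ht)]

theorem Rf.mono {G B : Fld → ℝ → ℝ → Prop} {V : Fld} {s t e e' : ℝ} {N N' : ℕ}
    (h : Rf G B V s t e N) (he : e ≤ e') (hN : N ≤ N') : Rf G B V s t e' N' := by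
  obtain ⟨V', τ, h1, h2, h3, h4, h5, h6⟩ := h
  exact ⟨V', τ, h1, h2, h3, h4.trans hN, h5, fun x τ a => (h6 x τ a).trans he⟩

theorem Rf.cat {G B : Fld → ℝ → ℝ → Prop} (hG : Cg G) (hB : Cg B) {V : Fld} {s u t e : ℝ}
    {N1 N2 : ℕ} (h1 : Rf G B V s u e N1) (h2 : Rf G B V u t e N2) (hsu : s < u) (hut : u < t) :
    Rf G B V s t e (N1 + N2) := by
  obtain ⟨V1, τ1, a1, a2, a3, a4, a5, a6⟩ := h1
  obtain ⟨V2, τ2, b1, b2, b3, b4, b5, b6⟩ := h2
  refine ⟨glue u V1 V2, PT.cat τ1 τ2, a1, b2, ⟨?_, ?_, a2.trans b1.symm⟩, ?_, ?_, ?_⟩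
  · refine PT.Valid.congr hG hB a3 fun x t' ht' => ?_
    rw [a1, a2] at ht'
    exact RGlue_le ht'.2
  · refine PT.Valid.congr hG hB b3 fun x t' ht' => ?_
    rw [b1, b2] at ht'
    rcases ht'.1.eq_or_lt with h3 | h3
    · rw [← h3, RGlue_le le_rfl, a5 x u fun h4 => lt_irrefl _ h4.2,
        b5 x u fun h4 => lt_irrefl _ h4.1]
    · exact RGlue_gt h3
  · show τ1.nb + τ2.nb ≤ N1 + N2
    exact add_le_add a4 b4
  · intro x t' ht'
    rcases le_or_gt t' u with h3 | h3
    · rw [RGlue_le h3]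
      exact a5 x t' fun h4 => ht' ⟨h4.1, h4.2.trans hut⟩
    · rw [RGlue_gt h3]
      exact b5 x t' fun h4 => ht' ⟨hsu.trans h4.1, h4.2⟩
  · intro x t' a
    rcases le_or_gt t' u with h3 | h3
    · rw [RGlue_le h3]
      exact a6 x t' a
    · rw [RGlue_gt h3]
      exact b6 x t' a

/-- Subdivision into `M` blocks of equal length: by induction on `M`, cutting off the first block. -/
theorem Rf.iter {G B : Fld → ℝ → ℝ → Prop} (hG : Cg G) (hB : Cg B) {V : Fld} {s t e : ℝ} {N : ℕ}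
    (M : ℕ) (hM : 1 ≤ M) (hst : s < t)
    (h : ∀ a b, s ≤ a → b ≤ t → b - a = (t - s) / M → Rf G B V a b e N) :
    Rf G B V s t e (M * N) := by
  induction M, hM using Nat.le_induction generalizing s with
  | base =>
    rw [one_mul]
    exact h s t le_rfl le_rfl (by rw [Nat.cast_one, div_one])
  | succ M hM ih =>
    have hM0 : (0 : ℝ) < M := by exact_mod_cast hM
    have hd : 0 < (t - s) / (M + 1) := div_pos (sub_pos.2 hst) (by linarith)
    have hMd : (M : ℝ) * ((t - s) / (M + 1)) + (t - s) / (M + 1) = t - s := by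
      field_simp
    have hMd' : 0 < (M : ℝ) * ((t - s) / (M + 1)) := mul_pos hM0 hd
    have hu1 : s < s + (t - s) / (M + 1) := by linarith
    have hu2 : s + (t - s) / (M + 1) < t := by linarith
    have h1 : Rf G B V s (s + (t - s) / (M + 1)) e N := by
      refine h _ _ le_rfl hu2.le ?_
      rw [Nat.cast_add, Nat.cast_one]
      ring
    have h2 : Rf G B V (s + (t - s) / (M + 1)) t e (M * N) := by
      refine ih hu2 fun a b ha hb hab => ?_
      refine h a b (hu1.le.trans ha) hb ?_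
      rw [hab, Nat.cast_add, Nat.cast_one, div_eq_iff hM0.ne']
      linarith
    have h3 := Rf.cat hG hB h1 h2 hu1 hu2
    have e1 : (M + 1) * N = N + M * N := by ring
    rw [e1]
    exact h3

/-- One stage: all bad leaves of a valid tree are refined simultaneously. -/
theorem stage_step {G B G' B' : Fld → ℝ → ℝ → Prop} (hG' : Cg G') (hB' : Cg B')
    {e : ℝ} (he : 0 ≤ e) {N : ℕ} {V : Fld} {τ : PT} (h : τ.Valid (G V) (B V))
    (hGG : ∀ s t, G V s t → G' V s t)
    (hR : ∀ s t, s < t → B V s t → Rf G' B' V s t e N) :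
    ∃ (V' : Fld) (τ' : PT), τ'.lo = τ.lo ∧ τ'.hi = τ.hi ∧ τ'.Valid (G' V') (B' V') ∧
      τ'.nb ≤ N * τ.nb ∧ τ'.bads ⊆ τ.bads ∧ τ'.ends ⊆ τ.ends ∪ τ.bads ∧
      (∀ x t, t ∉ τ.obads → V' x t = V x t) ∧ ∀ x t a, |V' x t a - V x t a| ≤ e := by
  induction τ with
  | ex s t =>
    refine ⟨V, PT.ex s t, rfl, rfl, ⟨h.1, hGG s t h.2⟩, Nat.zero_le _, fun _ h1 => h1,
      fun _ h1 => Or.inl h1, fun _ _ _ => rfl, fun x t a => ?_⟩
    rw [sub_self, abs_zero]
    exact he
  | bd s t =>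
    obtain ⟨V', τ', a1, a2, a3, a4, a5, a6⟩ := hR s t h.1 h.2
    refine ⟨V', τ', a1, a2, a3, ?_, ?_, ?_, a5, a6⟩
    · show τ'.nb ≤ N * 1
      rw [mul_one]
      exact a4
    · have h1 := PT.Valid.bads_sub a3
      rw [a1, a2] at h1
      exact h1
    · have h1 := PT.Valid.ends_sub a3
      rw [a1, a2] at h1
      exact fun x hx => Or.inr (h1 hx)
  | cat l r ihl ihr =>
    obtain ⟨h1, h2, h3⟩ := h
    obtain ⟨V1, τ1, a1, a2, a3, a4, a5, a6, a7, a8⟩ := ihl h1
    obtain ⟨V2, τ2, b1, b2, b3, b4, b5, b6, b7, b8⟩ := ihr h2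
    have hl := PT.Valid.obads_sub h1
    have hr := PT.Valid.obads_sub h2
    refine ⟨glue l.hi V1 V2, PT.cat τ1 τ2, a1, b2,
      ⟨?_, ?_, a2.trans (h3.trans b1.symm)⟩, ?_, ?_, ?_, ?_, ?_⟩
    · refine PT.Valid.congr hG' hB' a3 fun x t' ht' => ?_
      rw [a1, a2] at ht'
      exact RGlue_le ht'.2
    · refine PT.Valid.congr hG' hB' b3 fun x t' ht' => ?_
      rw [b1, b2, ← h3] at ht'
      rcases ht'.1.eq_or_lt with h4 | h4
      · rw [← h4, RGlue_le le_rfl, a7 x l.hi fun h5 => lt_irrefl _ (hl h5).2,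
          b7 x l.hi fun h5 => lt_irrefl _ (h3.le.trans_lt (hr h5).1)]
      · exact RGlue_gt h4
    · show τ1.nb + τ2.nb ≤ N * (l.nb + r.nb)
      rw [mul_add]
      exact add_le_add a4 b4
    · show τ1.bads ∪ τ2.bads ⊆ l.bads ∪ r.bads
      exact Set.union_subset_union a5 b5
    · show τ1.ends ∪ τ2.ends ⊆ (l.ends ∪ r.ends) ∪ (l.bads ∪ r.bads)
      rintro t' (h4 | h4)
      · rcases a6 h4 with h5 | h5
        · exact Or.inl (Or.inl h5)
        · exact Or.inr (Or.inl h5)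
      · rcases b6 h4 with h5 | h5
        · exact Or.inl (Or.inr h5)
        · exact Or.inr (Or.inr h5)
    · intro x t' ht'
      rcases le_or_gt t' l.hi with h4 | h4
      · rw [RGlue_le h4]
        exact a7 x t' fun h5 => ht' (Or.inl h5)
      · rw [RGlue_gt h4]
        exact b7 x t' fun h5 => ht' (Or.inr h5)
    · intro x t' a
      rcases le_or_gt t' l.hi with h4 | h4
      · rw [RGlue_le h4]
        exact a8 x t' a
      · rw [RGlue_gt h4]
        exact b8 x t' a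

end ES
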