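import Pool.Agent.ES.RTree

/-!
Project ES, Part III: the initial field.
-/

namespace ES

/-- The initial field. -/
noncomputable def Vin (T0 : ℝ) : Fld := fun x t a =>
  if a = 0 then (1 + clp 0 T0 t / T0) * Real.sin (x 1) else 0

end ES
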