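import Pool.Agent.ES.RLimD

/-!
Project ES, Part III, module RLimA: the limit, first properties.

`tail`: the partial sums of the telescoping series.  `eq_of_not_bad`: if `t ∉ bads (τ k)` then
`t ∉ bads (τ j) ⊇ obads (τ j)` for `j ≥ k`, so `V (j+1) = V j` at the time `t` for `j ≥ k`.
`at_zero`, `at_T0`: `obads ⊆ Ioo lo hi` (`Valid.obads_sub`).
-/

open MeasureTheory Set Filter Topology

namespace ES

variable {T0 : ℝ} {V : ℕ → Fld} {τ : ℕ → PT} {e Λ ε : ℕ → ℝ} {v : ℝ}

namespace LSeq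

theorem e_nonneg (h : LSeq T0 V τ e Λ ε v) (k : ℕ) : 0 ≤ e k :=
  (abs_nonneg _).trans (h.near k 0 0 0)

private theorem RLimA_summable (h : LSeq T0 V τ e Λ ε v) (x : Fin 2 → ℝ) (t : ℝ) (a : Fin 2) :
    Summable fun k => V (k + 1) x t a - V k x t a :=
  Summable.of_norm_bounded h.esum (fun k => by
    rw [Real.norm_eq_abs]; exact h.near k x t a)

private theorem RLimA_sub (h : LSeq T0 V τ e Λ ε v) (k : ℕ) (x : Fin 2 → ℝ) (t : ℝ)
    (a : Fin 2) :
    Vlim V x t a - V k x t a = ∑' j, (V (j + k + 1) x t a - V (j + k) x t a) := by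
  have h1 := (RLimA_summable h x t a).sum_add_tsum_nat_add k
  have h2 : ∑ i ∈ Finset.range k, (V (i + 1) x t a - V i x t a) = V k x t a - V 0 x t a :=
    Finset.sum_range_sub (fun i => V i x t a) k
  have h3 : Vlim V x t a = V 0 x t a + ∑' k, (V (k + 1) x t a - V k x t a) := rfl
  rw [h3, ← h1, h2]
  ring

theorem tail (h : LSeq T0 V τ e Λ ε v) (k : ℕ) (x : Fin 2 → ℝ) (t : ℝ) (a : Fin 2) :
    |Vlim V x t a - V k x t a| ≤ ∑' j, e (j + k) := by
  rw [RLimA_sub h k x t a, ← Real.norm_eq_abs]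
  have hs : Summable fun j => e (j + k) := (summable_nat_add_iff k).2 h.esum
  refine tsum_of_norm_bounded hs.hasSum (fun j => ?_)
  rw [Real.norm_eq_abs]
  exact h.near (j + k) x t a

/-- Off the closed bad set of stage `k` the limit is `V k`. -/
theorem eq_of_not_bad (h : LSeq T0 V τ e Λ ε v) {k : ℕ} {t : ℝ} (ht : t ∉ (τ k).bads)
    (x : Fin 2 → ℝ) : Vlim V x t = V k x t := by
  have hb : ∀ j, t ∉ (τ (j + k)).bads := by
    intro j
    induction j with
    | zero => simpa using ht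
    | succ j ih =>
      intro hmem
      apply ih
      have e1 : j + 1 + k = j + k + 1 := by ring
      rw [e1] at hmem
      exact h.bads (j + k) hmem
  funext a
  have h1 := RLimA_sub h k x t a
  have h2 : ∀ j, V (j + k + 1) x t a - V (j + k) x t a = 0 := by
    intro j
    rw [h.eq (j + k) x t (fun hm => hb j ((τ (j + k)).obads_sub_bads hm)), sub_self]
  simp only [h2, tsum_zero] at h1
  linarith

private theorem RLimA_off (h : LSeq T0 V τ e Λ ε v) {t : ℝ} (ht : ∀ k, t ∉ (τ k).obads)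
    (x : Fin 2 → ℝ) : Vlim V x t = V 0 x t := by
  funext a
  have h1 := RLimA_sub h 0 x t a
  have h2 : ∀ j, V (j + 0 + 1) x t a - V (j + 0) x t a = 0 := by
    intro j
    rw [h.eq (j + 0) x t (ht _), sub_self]
  simp only [h2, tsum_zero] at h1
  linarith

theorem at_zero (h : LSeq T0 V τ e Λ ε v) (x : Fin 2 → ℝ) : Vlim V x 0 = V 0 x 0 := by
  refine RLimA_off h (fun k hk => ?_) x
  have h1 := (h.sm k).obads_sub hk
  rw [h.lo k] at h1
  exact lt_irrefl _ h1.1

theorem at_T0 (h : LSeq T0 V τ e Λ ε v) (x : Fin 2 → ℝ) : Vlim V x T0 = V 0 x T0 := by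
  refine RLimA_off h (fun k hk => ?_) x
  have h1 := (h.sm k).obads_sub hk
  rw [h.hi k] at h1
  exact lt_irrefl _ h1.2

end LSeq

end ES
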