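import Pool.Agent.ES.RPar

/-!
Project ES, Part III, module RPCa: bounds for the number of passes `PN`.

Let `x = hN n/(2 C0 lN (n+1))` (`xN_eq`).  Its exponent of `2` is
`e(n) - 2n`, `e(n) = 3(1-3β)n² + (3-21β)n + (1-15β)`, with `0 ≤ β < 1/3`.
Lower bound: `8 C0^4 KN(n+1)^p (n+2)^4/(n²(n+1)²) ≤ 2^n` eventually (`gauge`; `n²(n+1)² ≥ 1`), so
`x ≥ 2^(e(n) - 3n)` and `e(n) - 3n ≥ 2n + 21` eventually (the quadratic coefficient is positive).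
Upper bound: `x ≤ 2^(e(n))` (all other factors are at most `1`) and `e(n) ≤ 3n²+3n+1 ≤ 7 n²`.
`2^(Nat.log 2 k) ≤ k < 2^(Nat.log 2 k + 1)` for `k = ⌊x⌋₊ ≥ 1`, `⌊x⌋₊ ≤ x < ⌊x⌋₊ + 1`.
-/

open Filter

namespace ES

theorem ev_xN_ge {C0 : ℝ} (hC : 1 ≤ C0) (p : ℕ) {β : ℝ} (hβ0 : 0 ≤ β) (hβ : β < 1 / 3) :
    ∀ᶠ n : ℕ in atTop, (2 : ℝ) ^ (2 * (n : ℝ) + 21) ≤ hN C0 β n / (2 * C0 * lN C0 p β (n + 1)) := by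
  have ha : 0 < 3 * (1 - 3 * β) := by linarith
  filter_upwards [gauge (8 * C0 ^ 4) p 4 (a := 1) one_pos,
    eventually_ge_atTop (⌈34 / (3 * (1 - 3 * β))⌉₊ + 1)] with n hg hn
  have hn1 : 1 ≤ n := by omega
  have hnR : (1 : ℝ) ≤ n := by exact_mod_cast hn1
  rw [xN_eq hC p β hn1]
  have hK : 1 ≤ KN (n + 1) := KN_pos (by omega)
  have hKp : 1 ≤ KN (n + 1) ^ p := one_le_pow₀ hK
  have hC4 : 1 ≤ C0 ^ 4 := one_le_pow₀ hC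
  have hD : 0 < 8 * C0 ^ 4 * KN (n + 1) ^ p * ((n : ℝ) + 2) ^ 4 := by positivity
  set e : ℝ := 3 * (1 - 3 * β) * (n : ℝ) ^ 2 + (3 - 21 * β) * n + (1 - 15 * β) with he
  have hq : (1 : ℝ) ≤ (n : ℝ) ^ 2 * ((n : ℝ) + 1) ^ 2 := by
    have h1 : (1 : ℝ) ≤ (n : ℝ) ^ 2 := one_le_pow₀ hnR
    have h2 : (1 : ℝ) ≤ ((n : ℝ) + 1) ^ 2 := one_le_pow₀ (by linarith)
    nlinarith
  have h4 : ((1 : ℝ) / 4) ^ n = (2 : ℝ) ^ (-(2 * (n : ℝ))) := by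
    rw [Real.rpow_neg (by norm_num), Real.rpow_mul (by norm_num), Real.rpow_natCast]
    rw [one_div, inv_pow]
    norm_num
  have hmain : (2 : ℝ) ^ (e - 3 * n) ≤ (1 / 4) ^ n * (2 : ℝ) ^ e *
      ((n : ℝ) ^ 2 * ((n : ℝ) + 1) ^ 2 / ((n : ℝ) + 2) ^ 4) / (8 * C0 ^ 4 * KN (n + 1) ^ p) := by
    have hre : (1 / 4 : ℝ) ^ n * (2 : ℝ) ^ e *
      ((n : ℝ) ^ 2 * ((n : ℝ) + 1) ^ 2 / ((n : ℝ) + 2) ^ 4) / (8 * C0 ^ 4 * KN (n + 1) ^ p) =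
      ((1 / 4 : ℝ) ^ n * (2 : ℝ) ^ e * ((n : ℝ) ^ 2 * ((n : ℝ) + 1) ^ 2)) /
        (8 * C0 ^ 4 * KN (n + 1) ^ p * ((n : ℝ) + 2) ^ 4) := by
      have h8 : (8 * C0 ^ 4 * KN (n + 1) ^ p) ≠ 0 := by positivity
      have h9 : ((n : ℝ) + 2) ^ 4 ≠ 0 := by positivity
      field_simp
    rw [hre, le_div_iff₀ hD]
    rw [h4, ← Real.rpow_add (by norm_num)]
    have h5 : (2 : ℝ) ^ (e - 3 * n) * (8 * C0 ^ 4 * KN (n + 1) ^ p * ((n : ℝ) + 2) ^ 4) ≤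
        (2 : ℝ) ^ (e - 3 * n) * (2 : ℝ) ^ (1 * (n : ℝ)) :=
      mul_le_mul_of_nonneg_left hg (by positivity)
    rw [← Real.rpow_add (by norm_num)] at h5
    have h6 : e - 3 * n + 1 * (n : ℝ) = -(2 * (n : ℝ)) + e := by ring
    rw [h6] at h5
    refine h5.trans ?_
    have h7 : 0 < (2 : ℝ) ^ (-(2 * (n : ℝ)) + e) := by positivity
    nlinarith
  refine le_trans ?_ hmain
  apply Real.rpow_le_rpow_of_exponent_le (by norm_num)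
  have hnn : 34 / (3 * (1 - 3 * β)) ≤ (n : ℝ) := by
    refine (Nat.le_ceil _).trans ?_
    exact_mod_cast (by omega : ⌈34 / (3 * (1 - 3 * β))⌉₊ ≤ n)
  have hnn2 : 34 ≤ 3 * (1 - 3 * β) * n := by
    rw [div_le_iff₀ ha] at hnn
    linarith
  have hnn3 : 34 * (n : ℝ) ≤ 3 * (1 - 3 * β) * (n : ℝ) ^ 2 := by nlinarith
  have hb : β * n ≤ (1 / 3) * n := by nlinarith
  rw [he]
  nlinarith

theorem ev_xN_le {C0 : ℝ} (hC : 1 ≤ C0) (p : ℕ) {β : ℝ} (hβ0 : 0 ≤ β) (hβ : β < 1 / 3) :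
    ∀ᶠ n : ℕ in atTop, hN C0 β n / (2 * C0 * lN C0 p β (n + 1)) ≤ (2 : ℝ) ^ (7 * (n : ℝ) ^ 2) := by
  filter_upwards [eventually_ge_atTop 1] with n hn1
  have hnR : (1 : ℝ) ≤ n := by exact_mod_cast hn1
  rw [xN_eq hC p β hn1]
  have hK : 1 ≤ KN (n + 1) := KN_pos (by omega)
  have hKp : 1 ≤ KN (n + 1) ^ p := one_le_pow₀ hK
  have hC4 : 1 ≤ C0 ^ 4 := one_le_pow₀ hC
  set e : ℝ := 3 * (1 - 3 * β) * (n : ℝ) ^ 2 + (3 - 21 * β) * n + (1 - 15 * β) with he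
  have hD : 1 ≤ 8 * C0 ^ 4 * KN (n + 1) ^ p := by nlinarith
  have h1 : ((1 : ℝ) / 4) ^ n ≤ 1 := pow_le_one₀ (by norm_num) (by norm_num)
  have h2 : (n : ℝ) ^ 2 * ((n : ℝ) + 1) ^ 2 / ((n : ℝ) + 2) ^ 4 ≤ 1 := by
    rw [div_le_one (by positivity)]
    have h3 : (n : ℝ) ^ 2 ≤ ((n : ℝ) + 2) ^ 2 := by nlinarith
    have h4 : ((n : ℝ) + 1) ^ 2 ≤ ((n : ℝ) + 2) ^ 2 := by nlinarith
    calc (n : ℝ) ^ 2 * ((n : ℝ) + 1) ^ 2 ≤ ((n : ℝ) + 2) ^ 2 * ((n : ℝ) + 2) ^ 2 := by gcongr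
      _ = ((n : ℝ) + 2) ^ 4 := by ring
  have h2' : 0 ≤ (n : ℝ) ^ 2 * ((n : ℝ) + 1) ^ 2 / ((n : ℝ) + 2) ^ 4 := by positivity
  have he0 : 0 < (2 : ℝ) ^ e := by positivity
  have h10 : (0 : ℝ) ≤ (1 / 4) ^ n := by positivity
  have h5 : (1 / 4) ^ n * (2 : ℝ) ^ e *
      ((n : ℝ) ^ 2 * ((n : ℝ) + 1) ^ 2 / ((n : ℝ) + 2) ^ 4) / (8 * C0 ^ 4 * KN (n + 1) ^ p) ≤
      (2 : ℝ) ^ e := by
    have h6 : (1 / 4) ^ n * (2 : ℝ) ^ e *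
      ((n : ℝ) ^ 2 * ((n : ℝ) + 1) ^ 2 / ((n : ℝ) + 2) ^ 4) ≤ 1 * (2 : ℝ) ^ e * 1 := by gcongr
    have h6' : 0 ≤ (1 / 4) ^ n * (2 : ℝ) ^ e *
      ((n : ℝ) ^ 2 * ((n : ℝ) + 1) ^ 2 / ((n : ℝ) + 2) ^ 4) := by positivity
    calc _ ≤ (1 / 4) ^ n * (2 : ℝ) ^ e *
      ((n : ℝ) ^ 2 * ((n : ℝ) + 1) ^ 2 / ((n : ℝ) + 2) ^ 4) := div_le_self h6' hD
      _ ≤ 1 * (2 : ℝ) ^ e * 1 := h6
      _ = (2 : ℝ) ^ e := by ring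
  refine h5.trans ?_
  apply Real.rpow_le_rpow_of_exponent_le (by norm_num)
  rw [he]
  have hb : 0 ≤ β * (n : ℝ) ^ 2 := by positivity
  have hb1 : 0 ≤ β * (n : ℝ) := by positivity
  nlinarith

private theorem RPCa_rpow_nat (n k : ℕ) (hk : (k : ℝ) = 2 * (n : ℝ) + 21) :
    (2 : ℝ) ^ (2 * (n : ℝ) + 21) = ((2 ^ k : ℕ) : ℝ) := by
  rw [← hk, Real.rpow_natCast]
  push_cast
  rfl

theorem ev_le_PN {C0 : ℝ} (hC : 1 ≤ C0) (p : ℕ) {β : ℝ} (hβ0 : 0 ≤ β) (hβ : β < 1 / 3) :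
    ∀ᶠ n : ℕ in atTop, 2 * n + 20 ≤ PN C0 p β n := by
  filter_upwards [ev_xN_ge hC p hβ0 hβ] with n hx
  unfold PN
  rw [RPCa_rpow_nat n (2 * n + 21) (by push_cast; ring)] at hx
  have h1 : 2 ^ (2 * n + 21) ≤ ⌊hN C0 β n / (2 * C0 * lN C0 p β (n + 1))⌋₊ := Nat.le_floor hx
  have h2 : 2 * n + 21 ≤ Nat.log 2 ⌊hN C0 β n / (2 * C0 * lN C0 p β (n + 1))⌋₊ :=
    Nat.le_log_of_pow_le (by norm_num) h1
  omega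

theorem ev_PN_le {C0 : ℝ} (hC : 1 ≤ C0) (p : ℕ) {β : ℝ} (hβ0 : 0 ≤ β) (hβ : β < 1 / 3) :
    ∀ᶠ n : ℕ in atTop, PN C0 p β n ≤ 7 * n ^ 2 := by
  filter_upwards [ev_xN_le hC p hβ0 hβ] with n hx
  unfold PN
  have h0 : (2 : ℝ) ^ (7 * (n : ℝ) ^ 2) = ((2 ^ (7 * n ^ 2) : ℕ) : ℝ) := by
    have : (7 * (n : ℝ) ^ 2) = ((7 * n ^ 2 : ℕ) : ℝ) := by push_cast; ring
    rw [this, Real.rpow_natCast]
    push_cast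
    rfl
  rw [h0] at hx
  have h1 : ⌊hN C0 β n / (2 * C0 * lN C0 p β (n + 1))⌋₊ ≤ 2 ^ (7 * n ^ 2) := by
    have := Nat.floor_le_floor hx
    rwa [Nat.floor_natCast] at this
  calc Nat.log 2 ⌊hN C0 β n / (2 * C0 * lN C0 p β (n + 1))⌋₊ ≤ Nat.log 2 (2 ^ (7 * n ^ 2)) :=
        Nat.log_mono_right h1
    _ = 7 * n ^ 2 := Nat.log_pow (by norm_num) _

theorem ev_lr {C0 : ℝ} (hC : 1 ≤ C0) (p : ℕ) {β : ℝ} (hβ0 : 0 ≤ β) (hβ : β < 1 / 3) :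
    ∀ᶠ n : ℕ in atTop, lN C0 p β (n + 1) * (C0 * 2 ^ PN C0 p β n) ≤ hN C0 β n / 2 := by
  filter_upwards [ev_xN_ge hC p hβ0 hβ, eventually_ge_atTop 1] with n hx hn1
  have hl : 0 < lN C0 p β (n + 1) := lN_pos hC p β (by omega)
  have hC0 : 0 < C0 := by linarith
  have hx1 : 1 ≤ hN C0 β n / (2 * C0 * lN C0 p β (n + 1)) :=
    (Real.one_le_rpow (by norm_num) (by positivity)).trans hx
  have hf : ⌊hN C0 β n / (2 * C0 * lN C0 p β (n + 1))⌋₊ ≠ 0 := by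
    have : 1 ≤ ⌊hN C0 β n / (2 * C0 * lN C0 p β (n + 1))⌋₊ := Nat.le_floor (by simpa using hx1)
    omega
  have h1 : 2 ^ PN C0 p β n ≤ ⌊hN C0 β n / (2 * C0 * lN C0 p β (n + 1))⌋₊ :=
    Nat.pow_log_le_self 2 hf
  have h2 : ((2 : ℝ) ^ PN C0 p β n) ≤ hN C0 β n / (2 * C0 * lN C0 p β (n + 1)) := by
    have h3 : ((2 ^ PN C0 p β n : ℕ) : ℝ) ≤ (⌊hN C0 β n / (2 * C0 * lN C0 p β (n + 1))⌋₊ : ℝ) := by
      exact_mod_cast h1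
    have h4 := Nat.floor_le (by linarith : 0 ≤ hN C0 β n / (2 * C0 * lN C0 p β (n + 1)))
    push_cast at h3
    linarith
  rw [le_div_iff₀ (by positivity)] at h2
  nlinarith

theorem ev_lr2 {C0 : ℝ} (hC : 1 ≤ C0) (p : ℕ) {β : ℝ} (hβ0 : 0 ≤ β) (hβ : β < 1 / 3) :
    ∀ᶠ n : ℕ in atTop, hN C0 β n / 2 ^ PN C0 p β n ≤ 4 * C0 * lN C0 p β (n + 1) := by
  filter_upwards [eventually_ge_atTop 1] with n hn1
  have hl : 0 < lN C0 p β (n + 1) := lN_pos hC p β (by omega)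
  have hC0 : 0 < C0 := by linarith
  have h1 : ⌊hN C0 β n / (2 * C0 * lN C0 p β (n + 1))⌋₊ < 2 ^ (PN C0 p β n + 1) :=
    Nat.lt_pow_succ_log_self (by norm_num) _
  have h2 : hN C0 β n / (2 * C0 * lN C0 p β (n + 1)) ≤ 2 ^ (PN C0 p β n + 1) := by
    have h3 := Nat.lt_floor_add_one (hN C0 β n / (2 * C0 * lN C0 p β (n + 1)))
    have h4 : ((⌊hN C0 β n / (2 * C0 * lN C0 p β (n + 1))⌋₊ + 1 : ℕ) : ℝ) ≤
        ((2 ^ (PN C0 p β n + 1) : ℕ) : ℝ) := by exact_mod_cast h1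
    push_cast at h4
    linarith
  rw [div_le_iff₀ (by positivity)] at h2
  rw [div_le_iff₀ (by positivity)]
  rw [pow_succ] at h2
  nlinarith

end ES
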