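import Pool.Agent.ES.RParD

/-!
Project ES, Part III, module RParA: elementary facts on the parameters.
-/

open Filter

namespace ES

theorem lamN_pos (n : ℕ) : (0 : ℝ) < lamN n := by
  unfold lamN
  positivity

theorem one_le_lamN (n : ℕ) : (1 : ℝ) ≤ lamN n := by
  unfold lamN
  exact_mod_cast Nat.one_le_two_pow

theorem lamN_rpow (n : ℕ) : (lamN n : ℝ) = (2 : ℝ) ^ ((n : ℝ) ^ 3) := by
  unfold lamN
  rw [← Nat.cast_pow, Real.rpow_natCast]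
  push_cast
  rfl

theorem del_pos (β : ℝ) {n : ℕ} (hn : 1 ≤ n) : 0 < del β n := by
  have h : (0 : ℝ) < n := by exact_mod_cast hn
  unfold del
  positivity

theorem sqrt_del {C0 : ℝ} (hC : 1 ≤ C0) (β : ℝ) {n : ℕ} (hn : 1 ≤ n) :
    Real.sqrt (C0 * del β n) = Real.sqrt C0 * (2 : ℝ) ^ (-(β * (n : ℝ) ^ 3)) / (n : ℝ) ^ 2 := by
  have h : (0 : ℝ) < n := by exact_mod_cast hn
  have hC0 : (0 : ℝ) ≤ C0 := by linarith
  have e : del β n = ((2 : ℝ) ^ (-(β * (n : ℝ) ^ 3)) / (n : ℝ) ^ 2) ^ 2 := by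
    unfold del
    have e1 : (2 : ℝ) ^ (-(2 * β * (n : ℝ) ^ 3)) = ((2 : ℝ) ^ (-(β * (n : ℝ) ^ 3))) ^ 2 := by
      rw [← Real.rpow_natCast ((2 : ℝ) ^ (-(β * (n : ℝ) ^ 3))), ← Real.rpow_mul (by norm_num)]
      congr 1
      push_cast
      ring
    rw [e1, div_pow, ← pow_mul]
  rw [Real.sqrt_mul hC0, e, Real.sqrt_sq (by positivity)]
  ring

theorem sigN_pos (β : ℝ) (n : ℕ) : 0 < sigN β n := by
  unfold sigN
  exact del_pos β (by omega)

theorem wN_pos {C0 : ℝ} (hC : 1 ≤ C0) (β : ℝ) (n : ℕ) : 0 < wN C0 β n := by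
  unfold wN
  apply Real.sqrt_pos.2
  have := del_pos β (n := n + 1) (by omega)
  positivity

theorem wN_sq {C0 : ℝ} (hC : 1 ≤ C0) (β : ℝ) (n : ℕ) : wN C0 β n ^ 2 = C0 * sigN β n := by
  unfold wN sigN
  have := del_pos β (n := n + 1) (by omega)
  exact Real.sq_sqrt (by positivity)

theorem gN_pos {C0 : ℝ} (hC : 1 ≤ C0) (β : ℝ) {n : ℕ} (hn : 1 ≤ n) : 0 < gN C0 β n := by
  have h1 := lamN_pos n
  have h2 := del_pos β hn
  have h3 : 0 < Real.sqrt (C0 * del β n) := Real.sqrt_pos.2 (by positivity)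
  unfold gN
  positivity

theorem mN_pos {n : ℕ} (hn : 1 ≤ n) : 0 < mN n := by
  have h : (0 : ℝ) < n := by exact_mod_cast hn
  unfold mN
  positivity

theorem mN_le {n : ℕ} (hn : 1 ≤ n) : mN n ≤ 1 / 200 := by
  have h : (1 : ℝ) ≤ n := by exact_mod_cast hn
  have h4 : (1 : ℝ) ≤ (n : ℝ) ^ 4 := one_le_pow₀ h
  unfold mN
  exact one_div_le_one_div_of_le (by norm_num) (by linarith)

theorem KN_eq {n : ℕ} (hn : 1 ≤ n) : KN n = 1 + 200 * (n : ℝ) ^ 4 := by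
  have h : (0 : ℝ) < n := by exact_mod_cast hn
  unfold KN mN
  rw [one_div_one_div]

theorem KN_pos {n : ℕ} (hn : 1 ≤ n) : 1 ≤ KN n := by
  rw [KN_eq hn]
  have : (0 : ℝ) ≤ 200 * (n : ℝ) ^ 4 := by positivity
  linarith

theorem hN_pos {C0 : ℝ} (hC : 1 ≤ C0) (β : ℝ) {n : ℕ} (hn : 1 ≤ n) : 0 < hN C0 β n := by
  have h1 := gN_pos hC β hn
  unfold hN
  positivity

theorem lN_pos {C0 : ℝ} (hC : 1 ≤ C0) (p : ℕ) (β : ℝ) {n : ℕ} (hn : 1 ≤ n) :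
    0 < lN C0 p β n := by
  have h1 := lamN_pos n
  have h2 := del_pos β hn
  have h3 : 0 < Real.sqrt (C0 * del β n) := Real.sqrt_pos.2 (by positivity)
  have h4 := sigN_pos β n
  have h5 := KN_pos hn
  have h6 : 0 < KN n := by linarith
  unfold lN
  positivity

theorem hN_gN {C0 : ℝ} (hC : 1 ≤ C0) (β : ℝ) {n : ℕ} (hn : 1 ≤ n) :
    hN C0 β n * gN C0 β n = (1 / 4) ^ n := by
  have h1 := gN_pos hC β hn
  unfold hN
  field_simp

end ES
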