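import Mathlib

/-!
Project ES, Part III, module RParD: the parameters of the recursion.

`lamN n = 2^(n^3)` frequency, `del n = 2^(-2 β n^3)/n^4`, `sigN n = del (n+1)` stress,
`wN n = √(C0 del(n+1))` wave amplitude, `gN n = 2 C0 lamN n √(C0 del n)` gradient,
`mN n = 1/(200 n^4)` loss of radius per sub-block, `KN n = 1 + 1/mN n`, `hN n = 4^(-n)/gN n` length
of the blocks, `lN n = 2 C0 KN^p √(C0 del n)/(lamN n sigN n)` length of the bad intervals,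
`PN n = ⌊log₂ (hN n/(2 C0 lN (n+1)))⌋` number of passes.
-/

open Filter

namespace ES

/-- `δ_n`. -/
noncomputable def del (β : ℝ) (n : ℕ) : ℝ := (2 : ℝ) ^ (-(2 * β * (n : ℝ) ^ 3)) / (n : ℝ) ^ 4

/-- Frequencies. -/
def lamN (n : ℕ) : ℕ := 2 ^ (n ^ 3)

/-- Stress bound at stage `n`. -/
noncomputable def sigN (β : ℝ) (n : ℕ) : ℝ := del β (n + 1)

/-- Wave amplitude at stage `n`. -/
noncomputable def wN (C0 β : ℝ) (n : ℕ) : ℝ := Real.sqrt (C0 * del β (n + 1))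

/-- Gradient bound at stage `n`. -/
noncomputable def gN (C0 β : ℝ) (n : ℕ) : ℝ := 2 * C0 * (lamN n : ℝ) * Real.sqrt (C0 * del β n)

/-- Loss of radius. -/
noncomputable def mN (n : ℕ) : ℝ := 1 / (200 * (n : ℝ) ^ 4)

/-- `1 + 1/m`. -/
noncomputable def KN (n : ℕ) : ℝ := 1 + 1 / mN n

/-- Maximal length of the blocks. -/
noncomputable def hN (C0 β : ℝ) (n : ℕ) : ℝ := (1 / 4 : ℝ) ^ n / gN C0 β n

/-- Length of the bad intervals of stage `n` (between `lN n` and `4 C0 lN n`). -/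
noncomputable def lN (C0 : ℝ) (p : ℕ) (β : ℝ) (n : ℕ) : ℝ :=
  2 * C0 * KN n ^ p * Real.sqrt (C0 * del β n) / ((lamN n : ℝ) * sigN β n)

/-- Number of passes. -/
noncomputable def PN (C0 : ℝ) (p : ℕ) (β : ℝ) (n : ℕ) : ℕ :=
  Nat.log 2 ⌊hN C0 β n / (2 * C0 * lN C0 p β (n + 1))⌋₊

/-- Deformation bound. -/
noncomputable def cN (n : ℕ) : ℝ := 1 / 200 * (1 - (1 / 2) ^ n)

/-- Radius. -/
noncomputable def rN (n : ℕ) : ℝ := 1 + 1 / (n : ℝ)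

/-- The inequalities needed at stage `n`. -/
structure PC (C0 : ℝ) (p : ℕ) (β : ℝ) (n : ℕ) : Prop where
  n4 : 4 ≤ n
  mP : 8 * mN n * PN C0 p β n ≤ 1 / (n : ℝ) - 1 / ((n : ℝ) + 1)
  mP2 : 8 * mN n * PN C0 p β n + 2 * mN n ≤ 1
  gw : 2 * (lamN n : ℝ) * wN C0 β n ≤ gN C0 β n
  kl : KN n * (2 * (lamN n : ℝ)) ≤ lamN (n + 1)
  ex : Real.exp (-(mN n * lamN (n + 1) / (8 * lamN n))) ≤ 1 / (lamN (n + 1) : ℝ)
  hg : C0 * KN n ^ p * hN C0 β n * gN C0 β n ≤ 1 / 200 * (1 / 2) ^ (n + 1)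
  nu : C0 * KN n ^ p * wN C0 β n ^ 2 *
    (hN C0 β n * gN C0 β n + (2 * (lamN n : ℝ) / lamN (n + 1)) ^ 2) ≤ (1 / 2) ^ n * sigN β n
  lr : lN C0 p β (n + 1) * (C0 * 2 ^ PN C0 p β n) ≤ hN C0 β n / 2
  lr2 : hN C0 β n / 2 ^ PN C0 p β n ≤ 4 * C0 * lN C0 p β (n + 1)
  g1 : C0 * ((lamN (n + 1) : ℝ) * wN C0 β n + KN n ^ p * gN C0 β n) ≤ gN C0 β (n + 1)
  g2 : 2 * gN C0 β n ≤ gN C0 β (n + 1)
  s1 : C0 * KN n ^ p / (lamN (n + 1) : ℝ) *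
    (wN C0 β n / lN C0 p β (n + 1) + gN C0 β n * wN C0 β n) ≤ sigN β (n + 1)
  s2 : sigN β n * ((1 / 2 : ℝ) ^ n) ^ PN C0 p β n ≤ sigN β (n + 1)
  A1 : gN C0 β n + C0 * KN n ^ p * (gN C0 β n * wN C0 β n + wN C0 β n / lN C0 p β (n + 1)) ≤
    gN C0 β (n + 1)
  hl : hN C0 β n ≤ lN C0 p β n
  hl' : hN C0 β (n + 1) ≤ lN C0 p β (n + 1)
  w1 : wN C0 β (n + 1) ≤ wN C0 β n
  cnt : 2 * (4 * C0 * lN C0 p β n) / hN C0 β n * (6 * (PN C0 p β n : ℝ) + 1) ≤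
    (2 : ℝ) ^ (2 * β * (((n : ℝ) + 1) ^ 3 - (n : ℝ) ^ 3) + 4 * (2 * (n : ℝ) + 1))

end ES
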