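import Pool.Agent.ES.RBlock

/-!
Project ES, Part III, module RSeq: the sequence of stages.

Start at stage `n0` with the tree `bd 0 T0` and iterate `stage_step` with
`G = ExP C0 β n`, `B = BdP C0 β (Lseq k) n`, `n = n0 + k`, where `Lseq 0 = T0` and
`Lseq (k+1) = 4 C0 lN (n0+k+1)` (dependent choice, `Nat.rec` on a subtype / sigma type).
-/

namespace ES

/-- Maximal length of the bad intervals after `k` steps. -/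
noncomputable def Lseq (C0 : ℝ) (p : ℕ) (β : ℝ) (n0 : ℕ) (T0 : ℝ) : ℕ → ℝ
  | 0 => T0
  | k + 1 => 4 * C0 * lN C0 p β (n0 + k + 1)

/-- The stages. -/
structure RSt (C0 : ℝ) (p : ℕ) (β : ℝ) (n0 : ℕ) (T0 : ℝ) (V0 : Fld) (V : ℕ → Fld)
    (τ : ℕ → PT) : Prop where
  V0 : V 0 = V0
  lo : ∀ k, (τ k).lo = 0
  hi : ∀ k, (τ k).hi = T0
  nb0 : (τ 0).nb = 1
  valid : ∀ k, (τ k).Valid (ExP C0 β (n0 + k) (V k))
    (BdP C0 β (Lseq C0 p β n0 T0 k) (n0 + k) (V k))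
  nb : ∀ k, (τ (k + 1)).nb ≤
    (⌈Lseq C0 p β n0 T0 k / hN C0 β (n0 + k)⌉₊ * (6 * PN C0 p β (n0 + k) + 1)) * (τ k).nb
  bads : ∀ k, (τ (k + 1)).bads ⊆ (τ k).bads
  ends : ∀ k, (τ (k + 1)).ends ⊆ (τ k).ends ∪ (τ k).bads
  eq : ∀ k x t, t ∉ (τ k).obads → V (k + 1) x t = V k x t
  near : ∀ k x t a, |V (k + 1) x t a - V k x t a| ≤ C0 * wN C0 β (n0 + k)

theorem exists_stages (hF : BIFacts) {C0 : ℝ} (hC : 1 ≤ C0) {p : ℕ} (hB : BlockStatement C0 p)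
    {β : ℝ} {n0 : ℕ} (hP : ∀ n, n0 ≤ n → PC C0 p β n) {T0 : ℝ} (hT0 : 0 < T0) {V0 : Fld}
    (h0 : BdP C0 β T0 n0 V0 0 T0) :
    ∃ (V : ℕ → Fld) (τ : ℕ → PT), RSt C0 p β n0 T0 V0 V τ := by
  have hstep : ∀ (k : ℕ) (q : {q : Fld × PT // q.2.lo = 0 ∧ q.2.hi = T0 ∧
      q.2.Valid (ExP C0 β (n0 + k) q.1) (BdP C0 β (Lseq C0 p β n0 T0 k) (n0 + k) q.1)}),
      ∃ q' : {q : Fld × PT // q.2.lo = 0 ∧ q.2.hi = T0 ∧
        q.2.Valid (ExP C0 β (n0 + (k + 1)) q.1)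
          (BdP C0 β (Lseq C0 p β n0 T0 (k + 1)) (n0 + (k + 1)) q.1)},
        q'.1.2.nb ≤ (⌈Lseq C0 p β n0 T0 k / hN C0 β (n0 + k)⌉₊ *
          (6 * PN C0 p β (n0 + k) + 1)) * q.1.2.nb ∧
        q'.1.2.bads ⊆ q.1.2.bads ∧ q'.1.2.ends ⊆ q.1.2.ends ∪ q.1.2.bads ∧
        (∀ x t, t ∉ q.1.2.obads → q'.1.1 x t = q.1.1 x t) ∧
        ∀ x t a, |q'.1.1 x t a - q.1.1 x t a| ≤ C0 * wN C0 β (n0 + k) := by
    rintro k ⟨⟨V, τ⟩, hlo, hhi, hval⟩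
    have hPk := hP (n0 + k) (Nat.le_add_right _ _)
    have hg0 : 0 ≤ gN C0 β (n0 + k) := by
      unfold gN
      have hC0 : 0 ≤ C0 := by linarith
      positivity
    have hgg : gN C0 β (n0 + k) ≤ gN C0 β (n0 + k + 1) := by
      have := hPk.g2
      linarith
    have he : 0 ≤ C0 * wN C0 β (n0 + k) :=
      mul_nonneg (by linarith) (Real.sqrt_nonneg _)
    obtain ⟨V', τ', h1, h2, h3, h4, h5, h6, h7, h8⟩ :=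
      stage_step (G' := ExP C0 β (n0 + k + 1))
        (B' := BdP C0 β (4 * C0 * lN C0 p β (n0 + k + 1)) (n0 + k + 1))
        (ExP.cg hF C0 β (n0 + k + 1)) (BdP.cg hF C0 β _ (n0 + k + 1)) he
        (N := ⌈Lseq C0 p β n0 T0 k / hN C0 β (n0 + k)⌉₊ * (6 * PN C0 p β (n0 + k) + 1))
        hval (fun s t h => h.mono hgg) (fun s t hst h => piece_rf hF hC hB hPk hst h)
    exact ⟨⟨(V', τ'), h1.trans hlo, h2.trans hhi, h3⟩, h4, h5, h6, h7, h8⟩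
  choose f hf using hstep
  obtain ⟨seq, hs0, hs⟩ : ∃ seq : ∀ k : ℕ, {q : Fld × PT // q.2.lo = 0 ∧ q.2.hi = T0 ∧
      q.2.Valid (ExP C0 β (n0 + k) q.1) (BdP C0 β (Lseq C0 p β n0 T0 k) (n0 + k) q.1)},
      seq 0 = ⟨(V0, PT.bd 0 T0), rfl, rfl, hT0, h0⟩ ∧ ∀ k, seq (k + 1) = f k (seq k) :=
    ⟨fun k => Nat.rec ⟨(V0, PT.bd 0 T0), rfl, rfl, hT0, h0⟩ f k, rfl, fun k => rfl⟩
  refine ⟨fun k => (seq k).1.1, fun k => (seq k).1.2, ?_⟩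
  refine ⟨?_, fun k => (seq k).2.1, fun k => (seq k).2.2.1, ?_, fun k => (seq k).2.2.2,
    fun k => ?_, fun k => ?_, fun k => ?_, fun k => ?_, fun k => ?_⟩
  · show (seq 0).1.1 = V0
    rw [hs0]
  · show (seq 0).1.2.nb = 1
    rw [hs0]
    rfl
  · show (seq (k + 1)).1.2.nb ≤ _
    rw [hs]
    exact (hf k (seq k)).1
  · show (seq (k + 1)).1.2.bads ⊆ _
    rw [hs]
    exact (hf k (seq k)).2.1
  · show (seq (k + 1)).1.2.ends ⊆ _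
    rw [hs]
    exact (hf k (seq k)).2.2.1
  · intro x t ht
    show (seq (k + 1)).1.1 x t = _
    rw [hs]
    exact (hf k (seq k)).2.2.2.1 x t ht
  · intro x t a
    show |(seq (k + 1)).1.1 x t a - (seq k).1.1 x t a| ≤ _
    rw [hs]
    exact (hf k (seq k)).2.2.2.2 x t a

private theorem RSeq_gpos {C0 β : ℝ} (hC : 1 ≤ C0) {n : ℕ} (hn : 4 ≤ n) : 0 < gN C0 β n := by
  have hn' : (0 : ℝ) < n := by exact_mod_cast (by omega : 0 < n)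
  have hC0 : 0 < C0 := by linarith
  have hd : 0 < del β n := by
    unfold del
    exact div_pos (Real.rpow_pos_of_pos (by norm_num) _) (by positivity)
  have hl : (0 : ℝ) < lamN n := by
    unfold lamN
    positivity
  have hs : 0 < Real.sqrt (C0 * del β n) := Real.sqrt_pos.mpr (mul_pos hC0 hd)
  unfold gN
  positivity

private theorem RSeq_hpos {C0 β : ℝ} (hC : 1 ≤ C0) {n : ℕ} (hn : 4 ≤ n) : 0 < hN C0 β n :=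
  div_pos (by positivity) (RSeq_gpos hC hn)

private theorem RSeq_step {C0 : ℝ} (hC : 1 ≤ C0) {p : ℕ} {β : ℝ} {n0 : ℕ}
    (hP : ∀ n, n0 ≤ n → PC C0 p β n) {T0 : ℝ} {V0 : Fld} {V : ℕ → Fld} {τ : ℕ → PT}
    (h : RSt C0 p β n0 T0 V0 V τ) (k : ℕ) :
    ((τ (k + 1 + 1)).nb : ℝ) ≤
      (2 : ℝ) ^ (2 * β * ((((n0 + (k + 1) : ℕ) : ℝ) + 1) ^ 3 - ((n0 + (k + 1) : ℕ) : ℝ) ^ 3) +
        4 * (2 * ((n0 + (k + 1) : ℕ) : ℝ) + 1)) * (τ (k + 1)).nb := by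
  have hPk := hP (n0 + (k + 1)) (Nat.le_add_right _ _)
  have hh := RSeq_hpos (β := β) hC hPk.n4
  have h1 : ((τ (k + 1 + 1)).nb : ℝ) ≤
      ((⌈Lseq C0 p β n0 T0 (k + 1) / hN C0 β (n0 + (k + 1))⌉₊ : ℝ) *
        (6 * (PN C0 p β (n0 + (k + 1)) : ℝ) + 1)) * (τ (k + 1)).nb := by
    exact_mod_cast h.nb (k + 1)
  refine h1.trans (mul_le_mul_of_nonneg_right ?_ (Nat.cast_nonneg _))
  refine le_trans ?_ hPk.cnt
  refine mul_le_mul_of_nonneg_right ?_ (by positivity)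
  have hL : Lseq C0 p β n0 T0 (k + 1) = 4 * C0 * lN C0 p β (n0 + (k + 1)) := rfl
  rw [hL]
  have hx : 1 ≤ 4 * C0 * lN C0 p β (n0 + (k + 1)) / hN C0 β (n0 + (k + 1)) := by
    rw [le_div_iff₀ hh, one_mul]
    have h2 := hPk.hl
    have h3 : 0 < lN C0 p β (n0 + (k + 1)) := lt_of_lt_of_le hh h2
    nlinarith
  have h4 := (Nat.ceil_lt_add_one (by linarith :
    0 ≤ 4 * C0 * lN C0 p β (n0 + (k + 1)) / hN C0 β (n0 + (k + 1)))).le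
  have h5 : 2 * (4 * C0 * lN C0 p β (n0 + (k + 1))) / hN C0 β (n0 + (k + 1)) =
      2 * (4 * C0 * lN C0 p β (n0 + (k + 1)) / hN C0 β (n0 + (k + 1))) := by ring
  rw [h5]
  linarith

/-- Counting: `nb (τ k) ≤ N* 2^(2β n³ + 4n²)`, `n = n0 + k`, for `k ≥ 1`
(`cnt`, `⌈x⌉₊ ≤ 2x` for `x ≥ 1`, `hl`). -/
theorem RSt.count {C0 : ℝ} (hC : 1 ≤ C0) {p : ℕ} {β : ℝ} {n0 : ℕ}
    (hP : ∀ n, n0 ≤ n → PC C0 p β n) {T0 : ℝ} {V0 : Fld} {V : ℕ → Fld} {τ : ℕ → PT}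
    (h : RSt C0 p β n0 T0 V0 V τ) :
    ∃ Ns : ℝ, ∀ k, 1 ≤ k → ((τ k).nb : ℝ) ≤
      Ns * (2 : ℝ) ^ (2 * β * ((n0 + k : ℕ) : ℝ) ^ 3 + 4 * ((n0 + k : ℕ) : ℝ) ^ 2) := by
  refine ⟨((τ 1).nb : ℝ) /
    (2 : ℝ) ^ (2 * β * ((n0 + 1 : ℕ) : ℝ) ^ 3 + 4 * ((n0 + 1 : ℕ) : ℝ) ^ 2), ?_⟩
  intro k hk
  induction k, hk using Nat.le_induction with
  | base =>
    have h2 : (0 : ℝ) < (2 : ℝ) ^ (2 * β * ((n0 + 1 : ℕ) : ℝ) ^ 3 + 4 * ((n0 + 1 : ℕ) : ℝ) ^ 2) :=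
      Real.rpow_pos_of_pos (by norm_num) _
    rw [div_mul_cancel₀ _ h2.ne']
  | succ k hk ih =>
    obtain ⟨j, rfl⟩ : ∃ j, k = j + 1 := ⟨k - 1, by omega⟩
    have h1 := RSeq_step hC hP h j
    refine h1.trans ?_
    have h2 : (0 : ℝ) ≤ (2 : ℝ) ^ (2 * β * ((((n0 + (j + 1) : ℕ) : ℝ) + 1) ^ 3 -
        ((n0 + (j + 1) : ℕ) : ℝ) ^ 3) + 4 * (2 * ((n0 + (j + 1) : ℕ) : ℝ) + 1)) :=
      Real.rpow_nonneg (by norm_num) _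
    refine (mul_le_mul_of_nonneg_left ih h2).trans (le_of_eq ?_)
    have h3 : 2 * β * ((n0 + (j + 1 + 1) : ℕ) : ℝ) ^ 3 + 4 * ((n0 + (j + 1 + 1) : ℕ) : ℝ) ^ 2 =
        (2 * β * ((((n0 + (j + 1) : ℕ) : ℝ) + 1) ^ 3 -
        ((n0 + (j + 1) : ℕ) : ℝ) ^ 3) + 4 * (2 * ((n0 + (j + 1) : ℕ) : ℝ) + 1)) +
        (2 * β * ((n0 + (j + 1) : ℕ) : ℝ) ^ 3 + 4 * ((n0 + (j + 1) : ℕ) : ℝ) ^ 2) := by
      push_cast
      ring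
    rw [h3, Real.rpow_add (by norm_num : (0 : ℝ) < 2)
      (2 * β * ((((n0 + (j + 1) : ℕ) : ℝ) + 1) ^ 3 -
        ((n0 + (j + 1) : ℕ) : ℝ) ^ 3) + 4 * (2 * ((n0 + (j + 1) : ℕ) : ℝ) + 1))]
    ring

end ES
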