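import Pool.Agent.ES.Ifc

/-!
Project ES, Part III, module RTree: trees of consecutive intervals.

A tree `τ : PT` describes a partition of `[τ.lo, τ.hi]` into consecutive closed intervals, exact
leaves `ex s t` and bad leaves `bd s t`.  All proofs are short inductions on the tree.
-/

namespace ES

/-- Trees of consecutive intervals: exact leaves and bad leaves. -/
inductive PT : Type
  | ex (s t : ℝ) : PT
  | bd (s t : ℝ) : PT
  | cat (l r : PT) : PT

namespace PT

/-- Left end. -/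
def lo : PT → ℝ
  | ex s _ => s
  | bd s _ => s
  | cat l _ => l.lo

/-- Right end. -/
def hi : PT → ℝ
  | ex _ t => t
  | bd _ t => t
  | cat _ r => r.hi

/-- Number of bad leaves. -/
def nb : PT → ℕ
  | ex _ _ => 0
  | bd _ _ => 1
  | cat l r => l.nb + r.nb

/-- Union of the closed bad leaves. -/
def bads : PT → Set ℝ
  | ex _ _ => ∅
  | bd s t => Set.Icc s t
  | cat l r => l.bads ∪ r.bads

/-- Union of the open bad leaves. -/
def obads : PT → Set ℝ
  | ex _ _ => ∅
  | bd s t => Set.Ioo s t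
  | cat l r => l.obads ∪ r.obads

/-- All end points of leaves. -/
def ends : PT → Set ℝ
  | ex s t => {s, t}
  | bd s t => {s, t}
  | cat l r => l.ends ∪ r.ends

/-- Validity: exact leaves satisfy `G`, bad leaves satisfy `B`, consecutive leaves fit. -/
def Valid (G B : ℝ → ℝ → Prop) : PT → Prop
  | ex s t => s < t ∧ G s t
  | bd s t => s < t ∧ B s t
  | cat l r => l.Valid G B ∧ r.Valid G B ∧ l.hi = r.lo

theorem Valid.lt {G B : ℝ → ℝ → Prop} {τ : PT} (h : τ.Valid G B) : τ.lo < τ.hi := by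
  induction τ with
  | ex s t => exact h.1
  | bd s t => exact h.1
  | cat l r ihl ihr =>
    obtain ⟨h1, h2, h3⟩ := h
    have a1 := ihl h1
    have a2 := ihr h2
    show l.lo < r.hi
    linarith

theorem Valid.mono {G B G' B' : ℝ → ℝ → Prop} {τ : PT} (h : τ.Valid G B)
    (hG : ∀ s t, τ.lo ≤ s → t ≤ τ.hi → G s t → G' s t)
    (hB : ∀ s t, τ.lo ≤ s → t ≤ τ.hi → B s t → B' s t) : τ.Valid G' B' := by
  induction τ with
  | ex s t => exact ⟨h.1, hG s t le_rfl le_rfl h.2⟩
  | bd s t => exact ⟨h.1, hB s t le_rfl le_rfl h.2⟩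
  | cat l r ihl ihr =>
    obtain ⟨h1, h2, h3⟩ := h
    have a1 := h1.lt
    have a2 := h2.lt
    have e1 : (cat l r).lo = l.lo := rfl
    have e2 : (cat l r).hi = r.hi := rfl
    rw [e1, e2] at hG hB
    refine ⟨ihl h1 ?_ ?_, ihr h2 ?_ ?_, h3⟩
    · intro s t b1 b2
      exact hG s t b1 (by linarith)
    · intro s t b1 b2
      exact hB s t b1 (by linarith)
    · intro s t b1 b2
      exact hG s t (by linarith) b2
    · intro s t b1 b2
      exact hB s t (by linarith) b2

theorem bads_closed (τ : PT) : IsClosed τ.bads := by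
  induction τ with
  | ex s t => exact isClosed_empty
  | bd s t => exact isClosed_Icc
  | cat l r ihl ihr => exact ihl.union ihr

theorem ends_finite (τ : PT) : τ.ends.Finite := by
  induction τ with
  | ex s t => exact Set.toFinite ({s, t} : Set ℝ)
  | bd s t => exact Set.toFinite ({s, t} : Set ℝ)
  | cat l r ihl ihr => exact ihl.union ihr

theorem obads_sub_bads (τ : PT) : τ.obads ⊆ τ.bads := by
  induction τ with
  | ex s t => exact Set.Subset.refl _
  | bd s t => exact Set.Ioo_subset_Icc_self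
  | cat l r ihl ihr => exact Set.union_subset_union ihl ihr

theorem bads_sub_obads (τ : PT) : τ.bads ⊆ τ.obads ∪ τ.ends := by
  induction τ with
  | ex s t => exact Set.empty_subset _
  | bd s t =>
    intro x hx
    by_cases h1 : x = s
    · exact Or.inr (Or.inl h1)
    by_cases h2 : x = t
    · exact Or.inr (Or.inr h2)
    exact Or.inl ⟨lt_of_le_of_ne hx.1 (Ne.symm h1), lt_of_le_of_ne hx.2 h2⟩
  | cat l r ihl ihr =>
    intro x hx
    rcases hx with hx | hx
    · rcases ihl hx with h | h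
      · exact Or.inl (Or.inl h)
      · exact Or.inr (Or.inl h)
    · rcases ihr hx with h | h
      · exact Or.inl (Or.inr h)
      · exact Or.inr (Or.inr h)

theorem lo_mem_ends (τ : PT) : τ.lo ∈ τ.ends := by
  induction τ with
  | ex s t => exact Or.inl rfl
  | bd s t => exact Or.inl rfl
  | cat l r ihl ihr => exact Or.inl ihl

theorem hi_mem_ends (τ : PT) : τ.hi ∈ τ.ends := by
  induction τ with
  | ex s t => exact Or.inr rfl
  | bd s t => exact Or.inr rfl
  | cat l r ihl ihr => exact Or.inr ihr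

theorem Valid.bads_sub {G B : ℝ → ℝ → Prop} {τ : PT} (h : τ.Valid G B) :
    τ.bads ⊆ Set.Icc τ.lo τ.hi := by
  induction τ with
  | ex s t => exact Set.empty_subset _
  | bd s t => exact Set.Subset.refl _
  | cat l r ihl ihr =>
    obtain ⟨h1, h2, h3⟩ := h
    have a1 := h1.lt
    have a2 := h2.lt
    intro x hx
    show l.lo ≤ x ∧ x ≤ r.hi
    rcases hx with hx | hx
    · have := ihl h1 hx
      exact ⟨this.1, by linarith [this.2]⟩
    · have := ihr h2 hx
      exact ⟨by linarith [this.1], this.2⟩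

theorem Valid.ends_sub {G B : ℝ → ℝ → Prop} {τ : PT} (h : τ.Valid G B) :
    τ.ends ⊆ Set.Icc τ.lo τ.hi := by
  induction τ with
  | ex s t =>
    intro x hx
    have a1 : s < t := h.1
    show s ≤ x ∧ x ≤ t
    rcases hx with hx | hx
    · rw [hx]
      exact ⟨le_rfl, a1.le⟩
    · rw [Set.mem_singleton_iff.1 hx]
      exact ⟨a1.le, le_rfl⟩
  | bd s t =>
    intro x hx
    have a1 : s < t := h.1
    show s ≤ x ∧ x ≤ t
    rcases hx with hx | hx
    · rw [hx]
      exact ⟨le_rfl, a1.le⟩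
    · rw [Set.mem_singleton_iff.1 hx]
      exact ⟨a1.le, le_rfl⟩
  | cat l r ihl ihr =>
    obtain ⟨h1, h2, h3⟩ := h
    have a1 := h1.lt
    have a2 := h2.lt
    intro x hx
    show l.lo ≤ x ∧ x ≤ r.hi
    rcases hx with hx | hx
    · have := ihl h1 hx
      exact ⟨this.1, by linarith [this.2]⟩
    · have := ihr h2 hx
      exact ⟨by linarith [this.1], this.2⟩

theorem Valid.obads_sub {G B : ℝ → ℝ → Prop} {τ : PT} (h : τ.Valid G B) :
    τ.obads ⊆ Set.Ioo τ.lo τ.hi := by
  induction τ with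
  | ex s t => exact Set.empty_subset _
  | bd s t => exact Set.Subset.refl _
  | cat l r ihl ihr =>
    obtain ⟨h1, h2, h3⟩ := h
    have a1 := h1.lt
    have a2 := h2.lt
    intro x hx
    show l.lo < x ∧ x < r.hi
    rcases hx with hx | hx
    · have := ihl h1 hx
      exact ⟨this.1, by linarith [this.2]⟩
    · have := ihr h2 hx
      exact ⟨by linarith [this.1], this.2⟩

/-- A time which is not in a closed bad leaf and not an end point is inside an exact leaf, whose
interior does not meet the closed bad leaves. -/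
theorem Valid.cover {G B : ℝ → ℝ → Prop} {τ : PT} (h : τ.Valid G B) {t : ℝ}
    (ht : t ∈ Set.Icc τ.lo τ.hi) (h1 : t ∉ τ.bads) (h2 : t ∉ τ.ends) :
    ∃ s u, G s u ∧ τ.lo ≤ s ∧ u ≤ τ.hi ∧ t ∈ Set.Ioo s u ∧
      ∀ t' ∈ Set.Ioo s u, t' ∉ τ.bads := by
  induction τ with
  | ex s u =>
    refine ⟨s, u, h.2, le_rfl, le_rfl, ?_, fun t' _ h' => h'⟩
    have b1 : t ≠ s := fun e => h2 (Or.inl e)
    have b2 : t ≠ u := fun e => h2 (Or.inr e)
    exact ⟨lt_of_le_of_ne ht.1 (Ne.symm b1), lt_of_le_of_ne ht.2 b2⟩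
  | bd s u => exact absurd ht h1
  | cat l r ihl ihr =>
    obtain ⟨g1, g2, g3⟩ := h
    have a1 := g1.lt
    have a2 := g2.lt
    have b1 : t ∉ l.bads := fun e => h1 (Or.inl e)
    have b2 : t ∉ r.bads := fun e => h1 (Or.inr e)
    have c1 : t ∉ l.ends := fun e => h2 (Or.inl e)
    have c2 : t ∉ r.ends := fun e => h2 (Or.inr e)
    have htl : l.lo ≤ t := ht.1
    have htr : t ≤ r.hi := ht.2
    rcases le_total t l.hi with hle | hle
    · obtain ⟨s, u, d1, d2, d3, d4, d5⟩ := ihl g1 ⟨htl, hle⟩ b1 c1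
      refine ⟨s, u, d1, d2, ?_, d4, ?_⟩
      · show u ≤ r.hi
        linarith
      · rintro t' ht' (e | e)
        · exact d5 t' ht' e
        · have := (g2.bads_sub e).1
          linarith [ht'.2]
    · obtain ⟨s, u, d1, d2, d3, d4, d5⟩ := ihr g2 ⟨by linarith, htr⟩ b2 c2
      refine ⟨s, u, d1, ?_, d3, d4, ?_⟩
      · show l.lo ≤ s
        linarith
      · rintro t' ht' (e | e)
        · have := (g1.bads_sub e).2
          linarith [ht'.1]
        · exact d5 t' ht' e

/-- Every time is in a leaf. -/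
theorem Valid.leaf {G B : ℝ → ℝ → Prop} {τ : PT} (h : τ.Valid G B) {t : ℝ}
    (ht : t ∈ Set.Icc τ.lo τ.hi) :
    ∃ s u, (G s u ∨ B s u) ∧ s < u ∧ τ.lo ≤ s ∧ u ≤ τ.hi ∧ t ∈ Set.Icc s u := by
  induction τ with
  | ex s u => exact ⟨s, u, Or.inl h.2, h.1, le_rfl, le_rfl, ht⟩
  | bd s u => exact ⟨s, u, Or.inr h.2, h.1, le_rfl, le_rfl, ht⟩
  | cat l r ihl ihr =>
    obtain ⟨g1, g2, g3⟩ := h
    have a1 := g1.lt
    have a2 := g2.lt
    have htl : l.lo ≤ t := ht.1
    have htr : t ≤ r.hi := ht.2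
    rcases le_total t l.hi with hle | hle
    · obtain ⟨s, u, d1, d2, d3, d4, d5⟩ := ihl g1 ⟨htl, hle⟩
      refine ⟨s, u, d1, d2, d3, ?_, d5⟩
      show u ≤ r.hi
      linarith
    · obtain ⟨s, u, d1, d2, d3, d4, d5⟩ := ihr g2 ⟨by linarith, htr⟩
      refine ⟨s, u, d1, d2, ?_, d4, d5⟩
      show l.lo ≤ s
      linarith

/-- The closed bad set is a union of `nb` closed bad leaves. -/
theorem Valid.bads_eq {G B : ℝ → ℝ → Prop} {τ : PT} (h : τ.Valid G B) :
    ∃ a b : Fin τ.nb → ℝ, (∀ i, a i < b i ∧ B (a i) (b i)) ∧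
      τ.bads = ⋃ i, Set.Icc (a i) (b i) := by
  induction τ with
  | ex s t =>
    refine ⟨fun _ => 0, fun _ => 0, fun i => Fin.elim0 i, ?_⟩
    ext x
    constructor
    · intro hx
      exact absurd hx (Set.notMem_empty x)
    · intro hx
      obtain ⟨i, -⟩ := Set.mem_iUnion.1 hx
      exact Fin.elim0 i
  | bd s t =>
    refine ⟨fun _ => s, fun _ => t, fun _ => h, ?_⟩
    ext x
    constructor
    · intro hx
      exact Set.mem_iUnion.2 ⟨(0 : Fin 1), hx⟩
    · intro hx
      obtain ⟨i, hi⟩ := Set.mem_iUnion.1 hx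
      exact hi
  | cat l r ihl ihr =>
    obtain ⟨g1, g2, g3⟩ := h
    obtain ⟨a1, b1, c1, d1⟩ := ihl g1
    obtain ⟨a2, b2, c2, d2⟩ := ihr g2
    refine ⟨(Fin.append a1 a2 : Fin (l.nb + r.nb) → ℝ), (Fin.append b1 b2 : Fin (l.nb + r.nb) → ℝ),
      ?_, ?_⟩
    · intro i
      refine Fin.addCases (motive := fun i : Fin (l.nb + r.nb) =>
        Fin.append a1 a2 i < Fin.append b1 b2 i ∧ B (Fin.append a1 a2 i) (Fin.append b1 b2 i))
        (fun j => ?_) (fun j => ?_) i
      · rw [Fin.append_left, Fin.append_left]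
        exact c1 j
      · rw [Fin.append_right, Fin.append_right]
        exact c2 j
    · show l.bads ∪ r.bads = _
      rw [d1, d2]
      ext x
      constructor
      · rintro (hx | hx)
        · obtain ⟨j, hj⟩ := Set.mem_iUnion.1 hx
          refine Set.mem_iUnion.2 ⟨Fin.castAdd r.nb j, ?_⟩
          show x ∈ Set.Icc (Fin.append a1 a2 (Fin.castAdd r.nb j))
            (Fin.append b1 b2 (Fin.castAdd r.nb j))
          rw [Fin.append_left, Fin.append_left]
          exact hj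
        · obtain ⟨j, hj⟩ := Set.mem_iUnion.1 hx
          refine Set.mem_iUnion.2 ⟨Fin.natAdd l.nb j, ?_⟩
          show x ∈ Set.Icc (Fin.append a1 a2 (Fin.natAdd l.nb j))
            (Fin.append b1 b2 (Fin.natAdd l.nb j))
          rw [Fin.append_right, Fin.append_right]
          exact hj
      · intro hx
        obtain ⟨i, hi⟩ := Set.mem_iUnion.1 hx
        revert hi
        refine Fin.addCases (motive := fun i : Fin (l.nb + r.nb) =>
          x ∈ Set.Icc (Fin.append a1 a2 i) (Fin.append b1 b2 i) →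
            x ∈ (⋃ i, Set.Icc (a1 i) (b1 i)) ∪ ⋃ i, Set.Icc (a2 i) (b2 i))
          (fun j => ?_) (fun j => ?_) i
        · rw [Fin.append_left, Fin.append_left]
          exact fun hj => Or.inl (Set.mem_iUnion.2 ⟨j, hj⟩)
        · rw [Fin.append_right, Fin.append_right]
          exact fun hj => Or.inr (Set.mem_iUnion.2 ⟨j, hj⟩)

/-- Conversion of `Prt`. -/
theorem of_Prt {G B1 B2 : ℝ → ℝ → Prop} {s t : ℝ} {n m : ℕ} (h : Prt G B1 B2 s t n m) :
    ∃ τ : PT, τ.lo = s ∧ τ.hi = t ∧ τ.nb = n + m ∧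
      τ.Valid G (fun a b => B1 a b ∨ B2 a b) := by
  induction h with
  | good h1 h2 => exact ⟨PT.ex _ _, rfl, rfl, rfl, h1, h2⟩
  | fast h1 h2 => exact ⟨PT.bd _ _, rfl, rfl, rfl, h1, Or.inl h2⟩
  | tail h1 h2 => exact ⟨PT.bd _ _, rfl, rfl, rfl, h1, Or.inr h2⟩
  | cat _ _ ih1 ih2 =>
    obtain ⟨τ1, a1, a2, a3, a4⟩ := ih1
    obtain ⟨τ2, b1, b2, b3, b4⟩ := ih2
    refine ⟨PT.cat τ1 τ2, a1, b2, ?_, a4, b4, by rw [a2, b1]⟩
    show τ1.nb + τ2.nb = _
    omega

/-- Gluing of Lipschitz bounds. -/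
theorem Valid.lp {V : Fld} {Λ : ℝ} {G B : ℝ → ℝ → Prop} {τ : PT} (h : τ.Valid G B)
    (hG : ∀ s t, G s t → Lp V s t Λ) (hB : ∀ s t, B s t → Lp V s t Λ) : Lp V τ.lo τ.hi Λ := by
  induction τ with
  | ex s t => exact hG s t h.2
  | bd s t => exact hB s t h.2
  | cat l r ihl ihr =>
    obtain ⟨g1, g2, g3⟩ := h
    have a1 := g1.lt
    have a2 := g2.lt
    have L1 := ihl g1
    have L2 := ihr g2
    show Lp V l.lo r.hi Λ
    have hml : l.hi ∈ Set.Icc l.lo l.hi := ⟨a1.le, le_rfl⟩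
    have hmr : l.hi ∈ Set.Icc r.lo r.hi := ⟨g3.ge, by linarith⟩
    intro u hu u' hu' x y a
    rcases le_total u l.hi with h1 | h1 <;> rcases le_total u' l.hi with h2 | h2
    · exact L1 u ⟨hu.1, h1⟩ u' ⟨hu'.1, h2⟩ x y a
    · have c1 := L1 u ⟨hu.1, h1⟩ l.hi hml x y a
      have c2 := L2 l.hi hmr u' ⟨by linarith, hu'.2⟩ y y a
      have c3 := abs_sub_le (V x u a) (V y l.hi a) (V y u' a)
      rw [sub_self, norm_zero] at c2
      rw [abs_of_nonpos (by linarith : u - l.hi ≤ 0)] at c1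
      rw [abs_of_nonpos (by linarith : l.hi - u' ≤ 0)] at c2
      rw [abs_of_nonpos (by linarith : u - u' ≤ 0)]
      linarith
    · have c1 := L2 u ⟨by linarith, hu.2⟩ l.hi hmr x y a
      have c2 := L1 l.hi hml u' ⟨hu'.1, h2⟩ y y a
      have c3 := abs_sub_le (V x u a) (V y l.hi a) (V y u' a)
      rw [sub_self, norm_zero] at c2
      rw [abs_of_nonneg (by linarith : 0 ≤ u - l.hi)] at c1
      rw [abs_of_nonneg (by linarith : 0 ≤ l.hi - u')] at c2
      rw [abs_of_nonneg (by linarith : 0 ≤ u - u')]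
      linarith
    · exact L2 u ⟨by linarith, hu.2⟩ u' ⟨by linarith, hu'.2⟩ x y a

end PT

end ES
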