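import Pool.Agent.ES.RTree

/-!
Project ES, Part III: uncurried fields.
-/

namespace ES

/-- Uncurried field. -/
def uc (V : Fld) : (Fin 2 → ℝ) × ℝ → (Fin 2 → ℝ) := fun x => V x.1 x.2

end ES
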