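import Pool.Agent.ES.Sys

/-! ES-SDef: hypotheses structures for the estimates of the sub-block system. -/

open scoped BoundedContinuousFunction

namespace ES

/-- Data bounds at the radius `r + 2m`. -/
structure DH (d : Dat) (lam g σ c m r0 : ℝ) (r : ℝ → ℝ) : Prop where
  kb : KB d.κ lam
  hlam : 1 ≤ lam
  hm : 0 < m
  hm1 : m ≤ 1
  r00 : 0 < r0
  hr : ∀ t, r0 ≤ r t
  hr2 : ∀ t, r t ≤ 2
  hc0 : 0 ≤ c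
  hc : c ≤ 1 / 100
  hg : 0 ≤ g
  hσ : 0 ≤ σ
  bF : ∀ a b, Bd 0 (fun t => r t + 2 * m) (grad d.κ d.ξ a b) c
  bB : ∀ a, Bd 0 (fun t => r t + 2 * m) (d.B a) (g / lam)
  bG : ∀ a b, Bd 0 (fun t => r t + 2 * m) (d.G a b) g
  bR : ∀ a b, Bd 0 (fun t => r t + 2 * m) (d.R a b) σ

/-- Smallness of `ζ`. -/
def ZH (lam m : ℝ) (r : ℝ → ℝ) (ζ : Vec) : Prop :=
  ∀ j, Bd 2 r (ζ j) (1 / (256 * lam * (1 + 1 / m)))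

/-- Difference of two `ζ`. -/
def DZ (lam m : ℝ) (r : ℝ → ℝ) (ζ ζ' : Vec) (s : ℝ) : Prop :=
  ∀ j, Bd 2 r (ζ j - ζ' j) (s / (512 * lam * (1 + 1 / m)))

/-- Bounds of the unknowns `ζ, E, W` in the ball. -/
structure BH (lam m w : ℝ) (r : ℝ → ℝ) (ζ E W : Vec) : Prop where
  z : ZH lam m r ζ
  e : ∀ j, Bd 1 r (E j) (2 * w)
  w0 : ∀ j, Bd 0 r (W j) (33 * w)
  w1 : ∀ j, Bd 1 r (W j) (129 * (1 + 1 / m) * w)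

/-- Solutions of the sub-block system in the ball (output of the fixed point theorem). -/
structure SB0 (P : SB) (lam g ρ0 m w : ℝ) (ζ E W a q : Vec) : Prop where
  sol : P.Sol ζ E W a q
  lζ : ∀ j, Lev P.d.i (ζ j)
  lE : ∀ j, Lev P.d.i (E j)
  lW : ∀ j, Lev (P.d.i + 1) (W j)
  la : ∀ j, Lev (P.d.i + 1) (a j)
  lq : ∀ j, Lev (P.d.i + 1) (q j)
  mW : ∀ j, mean P.d.i (W j) = 0
  rζ : ∀ j, IsR (ζ j)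
  rE : ∀ j, IsR (E j)
  rW : ∀ j, IsR (W j)
  ra : ∀ j, IsR (a j)
  rq : ∀ j, IsR (q j)
  cζ : ∀ j, Cl P.ta P.tb (ζ j)
  cE : ∀ j, Cl P.ta P.tb (E j)
  cW : ∀ j, Cl P.ta P.tb (W j)
  ca : ∀ j, Cl P.ta P.tb (a j)
  cq : ∀ j, Cl P.ta P.tb (q j)
  b0 : P.b = 0 → ∀ j, W j = 0 ∧ osc P.d.i (a j) = 0 ∧ osc P.d.i (q j) = 0
  nζ : ∀ j, Bd 2 (P.r ρ0 m) (ζ j - P.ζa j) (1 / (512 * lam * (1 + 1 / m)))
  nE : ∀ j, Bd 1 (P.r ρ0 m) (E j - P.Ea j) w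
  nW : ∀ j, Bd 1 (P.r ρ0 m) (W j - cst P.χ * P.W0 j) w
  na : ∀ j, Bd 0 (P.r ρ0 m) (a j) (10 ^ 6 * (1 + 1 / m) ^ 2 * g * w)
  nq : ∀ j, Bd 0 (P.r ρ0 m) (q j) (10 ^ 6 * (1 + 1 / m) ^ 2 * g * w)

end ES
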