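import Pool.Agent.ES.SF
import Pool.Agent.ES.SW
import Pool.Agent.ES.LPic

/-!
ES-SEx: existence of the solution of the sub-block system (EW 2, Lemma 2.3) by `fixpt` with
`ι = Fin 5 × Fin 2` (components ζ, E, W, a, q), powers `k = 2,1,1,0,0`, weights
`1/(512 lam K)`, `w`, `w`, `G w`, `G w`, `G = 10^6 K² g`, radius `r = P.r ρ0 m`,
start `x0 = (ζa, Ea, χ W0, 0, 0)`.
 (S1) `N2(T ζ - ζa) ≤ h K N1(comp B + P E) ≤ h K (K g/lam + 3 w) ≤ 4 K² h g / lam` (`Bd.intg_gain`);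
      differences: `≤ h K s (K g/lam + 3w)`.
 (S2),(S3) `N1 ≤ h K N0(a) ≤ h K G w`;  differences `h K s G w`;  `|χ| ≤ 1`.
 (S4) `N0 ≤ 2 (10^5 K² g w + 0.048 G w) ≤ G w / 2`;
      differences `≤ 2 (10^5 s K² g w + 0.0525 s G w) ≤ s G w / 2`.
 The constraint `Q` is the conjunction of the closed conditions of `SB0` (levels, mean of W,
 reality, clamping, and: `b = 0 → W = 0, osc a = 0, osc q = 0`).
-/

open scoped BoundedContinuousFunction

namespace ES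

/-! admissible elements: level, reality, clamping -/

/-- Level, reality, clamping. -/
private structure ExOk (a b : ℝ) (n : ℕ) (f : WT) : Prop where
  l : Lev n f
  r : IsR f
  c : Cl a b f

section ok
variable {a b : ℝ} {n : ℕ} {f g : WT}

private theorem ExOk.zero : ExOk a b n 0 := ⟨Lev.zero n, IsR.zero, Cl.zero a b⟩

private theorem ExOk.one : ExOk a b n 1 := ⟨Lev.one n, IsR.one, Cl.one a b⟩

private theorem ExOk.add (hf : ExOk a b n f) (hg : ExOk a b n g) : ExOk a b n (f + g) :=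
  ⟨hf.l.add hg.l, hf.r.add hg.r, hf.c.add hg.c⟩

private theorem ExOk.sub (hf : ExOk a b n f) (hg : ExOk a b n g) : ExOk a b n (f - g) :=
  ⟨hf.l.sub hg.l, hf.r.sub hg.r, hf.c.sub hg.c⟩

private theorem ExOk.neg (hf : ExOk a b n f) : ExOk a b n (-f) := ⟨hf.l.neg, hf.r.neg, hf.c.neg⟩

private theorem ExOk.mul (hf : ExOk a b n f) (hg : ExOk a b n g) : ExOk a b n (f * g) :=
  ⟨hf.l.mul hg.l, hf.r.mul hg.r, hf.c.mul hg.c⟩

private theorem ExOk.two : ExOk a b n 2 := by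
  have h : ExOk a b n ((1 : WT) + 1) := ExOk.one.add ExOk.one
  rwa [one_add_one_eq_two] at h

private theorem ExOk.sum {ι : Type*} {s : Finset ι} {x : ι → WT} (h : ∀ j ∈ s, ExOk a b n (x j)) :
    ExOk a b n (∑ j ∈ s, x j) :=
  ⟨Lev.sum s fun j hj => (h j hj).l, IsR.sum s fun j hj => (h j hj).r,
    Cl.sum s fun j hj => (h j hj).c⟩

private theorem ExOk.mono {n' : ℕ} (hn : n ≤ n') (hf : ExOk a b n f) : ExOk a b n' f :=
  ⟨hf.l.mono hn, hf.r, hf.c⟩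

private theorem ExOk.D (κ : Kp) (j : Fin 2) (hf : ExOk a b n f) : ExOk a b n (ES.D κ j f) :=
  ⟨hf.l.D κ j, hf.r.D, hf.c.D κ j⟩

private theorem ExOk.dp (κ : Kp) (j : Fin 2) (hf : ExOk a b n f) : ExOk a b n (ES.dp κ j f) := by
  unfold ES.dp
  split_ifs
  · exact (hf.D κ 1).neg
  · exact hf.D κ 0

private theorem ExOk.rsmul (c : ℝ) (hf : ExOk a b n f) : ExOk a b n ((c : ℂ) • f) :=
  ⟨hf.l.smul _, hf.r.smul, hf.c.smul _⟩

private theorem ExOk.meanL (hf : ExOk a b (n + 1) f) : ExOk a b n (ES.mean n f) :=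
  ⟨hf.l.mean, hf.r.mean, hf.c.mlt (mean_pg n)⟩

private theorem ExOk.osc (i : ℕ) (hf : ExOk a b n f) : ExOk a b n (ES.osc i f) :=
  ⟨hf.l.mlt (osc_pg i), hf.r.osc, hf.c.mlt (osc_pg i)⟩

private theorem ExOk.dth (i : ℕ) (hf : ExOk a b n f) : ExOk a b n (ES.dth i f) :=
  ⟨hf.l.mlt (dth_pg i), hf.r.dth, hf.c.mlt (dth_pg i)⟩

private theorem ExOk.ith (i : ℕ) (hf : ExOk a b n f) : ExOk a b n (ES.ith i f) :=
  ⟨hf.l.mlt (ith_pg i), hf.r.ith, hf.c.mlt (ith_pg i)⟩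

private theorem ExOk.Pg (κ : Kp) (i j : Fin 2) (hf : ExOk a b n f) : ExOk a b n (ES.Pg κ i j f) :=
  ⟨hf.l.mlt (pg_of_bounded (norm_kk_div κ i j)), hf.r.Pg,
    hf.c.mlt (pg_of_bounded (norm_kk_div κ i j))⟩

private theorem ExOk.Pnz (κ : Kp) (hf : ExOk a b n f) : ExOk a b n (ES.Pnz κ f) :=
  ⟨hf.l.mlt _, hf.r.Pnz, hf.c.mlt _⟩

private theorem ExOk.Ps (κ : Kp) (i j : Fin 2) (hf : ExOk a b n f) : ExOk a b n (ES.Ps κ i j f) := by
  unfold ES.Ps
  split_ifs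
  · rw [LinearMap.sub_apply]
    exact (hf.Pnz κ).sub (hf.Pg κ i j)
  · rw [LinearMap.sub_apply, LinearMap.zero_apply]
    exact ExOk.zero.sub (hf.Pg κ i j)

private theorem ExOk.intg {s₁ s₂ : ℝ} (h1 : a ≤ s₁) (h2 : s₁ ≤ s₂) (h3 : s₂ ≤ b)
    (hf : ExOk a b n f) : ExOk a b n (ES.intg s₁ s₂ f) :=
  ⟨hf.l.intg s₁ s₂, hf.r.intg, Cl.intg_sub h1 h2 h3 f⟩

private theorem ExOk.comp {κ : Kp} {lam r0 z : ℝ} {r : ℝ → ℝ} {ζ : Vec} (H : CH κ lam r0 z r ζ)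
    (hζ : ∀ j, ExOk a b n (ζ j)) {c : ℝ} (hb : Bd 0 (fun t => r t + z) f c)
    (hf : ExOk a b n f) : ExOk a b n (ES.comp κ ζ f) :=
  ⟨Lev.comp H (fun j => (hζ j).l) hb hf.l, IsR.comp H (fun j => (hζ j).r) hb hf.r,
    Cl.comp H (fun j => (hζ j).c) hb hf.c⟩

private theorem ExOk.of_frz (hl : Lev n f) (hr : IsR f) (ht : ∀ t₀, frz t₀ f = f) :
    ExOk a b n f := by
  refine ⟨hl, hr, ?_⟩
  have h := Cl.frz a b a f
  rwa [ht a] at h

private theorem ExOk.idm (i j : Fin 2) : ExOk a b n (ES.idm i j) := by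
  unfold ES.idm
  split_ifs
  · exact ExOk.one
  · exact ExOk.zero

private theorem ExOk.grad (κ : Kp) {x : Vec} (hx : ∀ j, ExOk a b n (x j)) (i j : Fin 2) :
    ExOk a b n (ES.grad κ x i j) := (hx i).D κ j

private theorem ExOk.Fm (κ : Kp) {x : Vec} (hx : ∀ j, ExOk a b n (x j)) (i j : Fin 2) :
    ExOk a b n (ES.Fm κ x i j) := (ExOk.idm i j).add (ExOk.grad κ hx i j)

private theorem ExOk.adj {F : Mat} (hF : ∀ i j, ExOk a b n (F i j)) (i j : Fin 2) :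
    ExOk a b n (ES.adj F i j) := by
  unfold ES.adj
  split_ifs
  · exact hF 1 1
  · exact (hF 0 1).neg
  · exact (hF 1 0).neg
  · exact hF 0 0

private theorem ExOk.mulv {F : Mat} {x : Vec} (hF : ∀ i j, ExOk a b n (F i j))
    (hx : ∀ j, ExOk a b n (x j)) (i : Fin 2) : ExOk a b n (ES.mulv F x i) :=
  ExOk.sum fun j _ => (hF i j).mul (hx j)

private theorem ExOk.mulvT {F : Mat} {x : Vec} (hF : ∀ i j, ExOk a b n (F i j))
    (hx : ∀ j, ExOk a b n (x j)) (i : Fin 2) : ExOk a b n (ES.mulvT F x i) :=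
  ExOk.sum fun j _ => (hF j i).mul (hx j)

private theorem ExOk.mulT {F G : Mat} (hF : ∀ i j, ExOk a b n (F i j))
    (hG : ∀ i j, ExOk a b n (G i j)) (i j : Fin 2) : ExOk a b n (ES.mulT F G i j) :=
  ExOk.sum fun k _ => (hF i k).mul (hG j k)

private theorem ExOk.adv (κ : Kp) {x y : Vec} (hx : ∀ j, ExOk a b n (x j))
    (hy : ∀ j, ExOk a b n (y j)) (i : Fin 2) : ExOk a b n (ES.adv κ x y i) :=
  ExOk.sum fun j _ => (hx j).mul ((hy i).D κ j)

private theorem ExOk.dvm (κ : Kp) {F : Mat} (hF : ∀ i j, ExOk a b n (F i j)) (i : Fin 2) :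
    ExOk a b n (ES.dvm κ F i) :=
  ExOk.sum fun j _ => (hF i j).D κ j

private theorem ExOk.dvg (κ : Kp) {x : Vec} (hx : ∀ j, ExOk a b n (x j)) :
    ExOk a b n (ES.dvg κ x) :=
  ExOk.sum fun j _ => (hx j).D κ j

end ok

/-! the data are admissible -/

section data
variable {d : Dat} {t0 t1 lam g σ ρ c A : ℝ}

private theorem ex_F (G : Good d t0 t1 lam g σ ρ c A) (i j : Fin 2) :
    ExOk t0 t1 d.i (d.F i j) :=
  ExOk.Fm d.κ (fun j => ⟨G.levξ j, G.rξ j, G.cξ j⟩) i j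

private theorem ex_M (G : Good d t0 t1 lam g σ ρ c A) (i j : Fin 2) :
    ExOk t0 t1 d.i (d.M i j) :=
  ExOk.adj (ex_F G) i j

private theorem ex_B (G : Good d t0 t1 lam g σ ρ c A) (j : Fin 2) :
    ExOk t0 t1 d.i (d.B j) :=
  ExOk.mulv (ex_M G) (fun j => ExOk.sub ⟨G.levv j, G.rv j, G.cv j⟩ ⟨G.levU j, G.rU j, G.cU j⟩) j

private theorem ex_G (G : Good d t0 t1 lam g σ ρ c A) (i j : Fin 2) :
    ExOk t0 t1 d.i (d.G i j) :=
  ExOk.grad d.κ (fun j => ⟨G.levv j, G.rv j, G.cv j⟩) i j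

private theorem ex_R (G : Good d t0 t1 lam g σ ρ c A) (i j : Fin 2) :
    ExOk t0 t1 d.i (d.R i j) := ⟨G.levR i j, G.rR i j, G.cR i j⟩

variable {m r0 : ℝ} {r : ℝ → ℝ} {ζ : Vec}

private theorem ex_wk (H : DH d lam g σ c m r0 r) {f : WT} {e : ℝ}
    (hf : Bd 0 (fun t => r t + 2 * m) f e) : Bd 0 (fun t => r t + m) f e :=
  hf.weaken le_rfl fun t => by have := H.hm; show r t + m ≤ r t + 2 * m; linarith

private theorem ex_comp (H : DH d lam g σ c m r0 r) (hζ : ZH lam m r ζ)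
    (hz : ∀ j, ExOk t0 t1 d.i (ζ j)) {f : WT} {e : ℝ}
    (hf : Bd 0 (fun t => r t + 2 * m) f e) (hfo : ExOk t0 t1 d.i f) :
    ExOk t0 t1 d.i (comp d.κ ζ f) :=
  ExOk.comp (H.ch hζ) hz (ex_wk H hf) hfo

private theorem ex_bF (H : DH d lam g σ c m r0 r) (i j : Fin 2) :
    Bd 0 (fun t => r t + 2 * m) (d.F i j) (1 + c) := by
  have h1 : Bd 0 (fun t => r t + 2 * m) (idm i j) 1 := by
    unfold idm
    split_ifs
    · exact Bd.one _ _
    · exact Bd.zero _ _ zero_le_one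
  exact h1.add (H.bF i j)

private theorem ex_FF (G : Good d t0 t1 lam g σ ρ c A) (H : DH d lam g σ c m r0 r)
    (hζ : ZH lam m r ζ) (hz : ∀ j, ExOk t0 t1 d.i (ζ j)) (i j : Fin 2) :
    ExOk t0 t1 d.i (FF d ζ i j) :=
  ExOk.sum fun k _ => (ex_comp H hζ hz (ex_bF H i k) (ex_F G i k)).mul (ExOk.Fm d.κ hz k j)

private theorem ex_MM (G : Good d t0 t1 lam g σ ρ c A) (H : DH d lam g σ c m r0 r)
    (hζ : ZH lam m r ζ) (hz : ∀ j, ExOk t0 t1 d.i (ζ j)) (i j : Fin 2) :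
    ExOk t0 t1 d.i (MM d ζ i j) := ExOk.adj (ex_FF G H hζ hz) i j

private theorem ex_LL (G : Good d t0 t1 lam g σ ρ c A) (H : DH d lam g σ c m r0 r)
    (hζ : ZH lam m r ζ) (hz : ∀ j, ExOk t0 t1 d.i (ζ j)) (i j : Fin 2) :
    ExOk t0 t1 d.i (LL d ζ i j) :=
  ExOk.sum fun k _ => (ex_comp H hζ hz (H.bG i k) (ex_G G i k)).mul (ExOk.Fm d.κ hz k j)

private theorem ex_RR (G : Good d t0 t1 lam g σ ρ c A) (H : DH d lam g σ c m r0 r)
    (hζ : ZH lam m r ζ) (hz : ∀ j, ExOk t0 t1 d.i (ζ j)) (i j : Fin 2) :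
    ExOk t0 t1 d.i (RR d ζ i j) :=
  ex_comp H hζ hz (H.bR i j) (ex_R G i j)

end data

section rhs
variable {P : SB} {t0 t1 lam g σ ρ c A m r0 : ℝ} {r : ℝ → ℝ} {ζ E W a q : Vec} {n : ℕ}

private theorem ex_f (G : Good P.d t0 t1 lam g σ ρ c A) (H : DH P.d lam g σ c m r0 r)
    (hζ : ZH lam m r ζ) (hz : ∀ j, ExOk t0 t1 P.d.i (ζ j)) (hE : ∀ j, ExOk t0 t1 P.d.i (E j))
    (hn : P.d.i ≤ n) (hW : ∀ j, ExOk t0 t1 n (W j)) (j : Fin 2) :
    ExOk t0 t1 n (P.f ζ E W j) := by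
  have hFF : ∀ i j, ExOk t0 t1 n (FF P.d ζ i j) := fun i j => (ex_FF G H hζ hz i j).mono hn
  have hMM : ∀ i j, ExOk t0 t1 n (MM P.d ζ i j) := fun i j => (ex_MM G H hζ hz i j).mono hn
  have hLL : ∀ i j, ExOk t0 t1 n (LL P.d ζ i j) := fun i j => (ex_LL G H hζ hz i j).mono hn
  have hRR : ∀ i j, ExOk t0 t1 n (RR P.d ζ i j) := fun i j => (ex_RR G H hζ hz i j).mono hn
  have hE' : ∀ j, ExOk t0 t1 n (E j) := fun j => (hE j).mono hn
  have hEW : ∀ j, ExOk t0 t1 n ((E + W) j) := fun j => (hE' j).add (hW j)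
  have hbet : ExOk t0 t1 n (P.bet W) := ((ExOk.dvg P.d.κ hW).ith P.d.i).neg
  unfold SB.f
  refine (((ExOk.two.mul (ExOk.mulv hLL hEW j)).neg.sub
    (ExOk.adv P.d.κ hEW (ExOk.mulv hFF hE') j)).sub
    ((ExOk.adv P.d.κ hW (ExOk.mulv hFF hEW) j).add
      (hbet.mul (ExOk.mulv hFF (fun k => ((hE' k).add (hW k)).dth P.d.i) j)))).sub
    (ExOk.dvm P.d.κ (ExOk.mulT hRR hMM) j)

private theorem ex_g (G : Good P.d t0 t1 lam g σ ρ c A) (H : DH P.d lam g σ c m r0 r)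
    (hζ : ZH lam m r ζ) (hz : ∀ j, ExOk t0 t1 P.d.i (ζ j)) (hE : ∀ j, ExOk t0 t1 P.d.i (E j))
    (hn : P.d.i ≤ n) (hW : ∀ j, ExOk t0 t1 n (W j)) (ha : ∀ j, ExOk t0 t1 n (a j))
    (hq : ∀ j, ExOk t0 t1 n (q j)) (j : Fin 2) :
    ExOk t0 t1 n (P.g ζ E W a q j) := by
  have hFF : ∀ i j, ExOk t0 t1 n (FF P.d ζ i j) := fun i j => (ex_FF G H hζ hz i j).mono hn
  have hMM : ∀ i j, ExOk t0 t1 n (MM P.d ζ i j) := fun i j => (ex_MM G H hζ hz i j).mono hn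
  unfold SB.g
  exact ((ex_f G H hζ hz hE hn hW j).sub ((ExOk.mulv hFF ha j).sub (ha j))).sub
    ((ExOk.mulvT hMM hq j).sub (hq j))

end rhs


/-! cutoff and initial wave -/

private theorem ex_trap {ta s1 s2 tb : ℝ} (h1 : ta < s1) (h2 : s1 < s2) (h3 : s2 < tb) (t : ℝ) :
    trapR ta s1 s2 tb (clp ta tb t) = trapR ta s1 s2 tb t := by
  rcases le_total t ta with h | h
  · have e : clp ta tb t = ta := by
      unfold clp
      rw [min_eq_right (by linarith), max_eq_left h]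
    rw [e]
    unfold trapR
    have a1 : (ta - ta) / (s1 - ta) = 0 := by simp
    have a2 : (t - ta) / (s1 - ta) ≤ 0 :=
      div_nonpos_of_nonpos_of_nonneg (by linarith) (by linarith)
    rw [max_eq_left, max_eq_left]
    · exact (min_le_right _ _).trans ((min_le_left _ _).trans a2)
    · exact (min_le_right _ _).trans ((min_le_left _ _).trans a1.le)
  · rcases le_total t tb with h' | h'
    · rw [clp_of_mem ⟨h, h'⟩]
    · have e : clp ta tb t = tb := by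
        unfold clp
        rw [min_eq_left h', max_eq_right (by linarith)]
      rw [e]
      unfold trapR
      have a1 : (tb - tb) / (tb - s2) = 0 := by simp
      have a2 : (tb - t) / (tb - s2) ≤ 0 :=
        div_nonpos_of_nonpos_of_nonneg (by linarith) (by linarith)
      rw [max_eq_left, max_eq_left]
      · exact (min_le_right _ _).trans ((min_le_right _ _).trans a2)
      · exact (min_le_right _ _).trans ((min_le_right _ _).trans a1.le)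

private theorem ex_chi {P : SB} (h1 : P.ta < P.s1) (h2 : P.s1 < P.s2) (h3 : P.s2 < P.tb) (n : ℕ) :
    ExOk P.ta P.tb n (cst P.χ) := by
  refine ⟨Lev.cst n _, IsR.cst fun t => ?_, (Cl_iff _).2 fun ν t => ?_⟩
  · show (starRingEnd ℂ) ((trapR P.ta P.s1 P.s2 P.tb t : ℝ) : ℂ) = _
    rw [Complex.conj_ofReal]
    rfl
  · by_cases h : ν = 0
    · subst h
      show (Pi.single (0 : Gx) P.χ : Gx → Ct) 0 (clp P.ta P.tb t) =
        (Pi.single (0 : Gx) P.χ : Gx → Ct) 0 t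
      rw [Pi.single_eq_same]
      show ((trapR P.ta P.s1 P.s2 P.tb (clp P.ta P.tb t) : ℝ) : ℂ) =
        ((trapR P.ta P.s1 P.s2 P.tb t : ℝ) : ℂ)
      rw [ex_trap h1 h2 h3]
    · show (Pi.single (0 : Gx) P.χ : Gx → Ct) ν (clp P.ta P.tb t) =
        (Pi.single (0 : Gx) P.χ : Gx → Ct) ν t
      rw [Pi.single_eq_of_ne h]
      rfl

private theorem ex_chi_le (P : SB) (t : ℝ) : ‖P.χ t‖ ≤ 1 := by
  show ‖((trapR P.ta P.s1 P.s2 P.tb t : ℝ) : ℂ)‖ ≤ 1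
  rw [Complex.norm_real, Real.norm_eq_abs, abs_of_nonneg (trapR_nonneg _ _ _ _ _)]
  exact trapR_le_one _ _ _ _ _

private theorem ex_eb (a b : ℝ) (ν : Gx) : Cl a b (eb ν) := by
  refine (Cl_iff _).2 fun μ t => ?_
  show (Pi.single ν (1 : Ct) : Gx → Ct) μ (clp a b t) = (Pi.single ν (1 : Ct) : Gx → Ct) μ t
  by_cases h : μ = ν
  · subst h
    rw [Pi.single_eq_same]
    rfl
  · rw [Pi.single_eq_of_ne h]
    rfl

private theorem ex_sn (a b : ℝ) (i : ℕ) : ExOk a b (i + 1) (sn i) :=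
  ⟨sn_lev i, sn_real i, ((ex_eb a b _).sub (ex_eb a b _)).smul _⟩

private theorem ex_W0 {P : SB} {a b : ℝ} (hb : ExOk a b P.d.i P.b) (j : Fin 2) :
    ExOk a b (P.d.i + 1) (P.W0 j) := by
  have h1 : ExOk a b (P.d.i + 1) (P.b * sn P.d.i) := (hb.mono (Nat.le_succ _)).mul (ex_sn a b _)
  have h2 := ((h1.rsmul (Real.sqrt 2)).dp P.κ' j).rsmul ((P.L : ℝ)⁻¹)
  rw [Complex.ofReal_inv, Complex.ofReal_natCast] at h2
  exact h2

private theorem ex_mean_dp (i : ℕ) (κ : Kp) (a : Fin 2) (f : WT) :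
    mean i (dp κ a f) = dp κ a (mean i f) := by
  unfold dp
  split_ifs
  · rw [LinearMap.neg_apply, LinearMap.neg_apply, map_neg, mean_D]
  · exact mean_D i κ 0 f

private theorem ex_mean_W0 {P : SB} (hb : Lev P.d.i P.b) (j : Fin 2) : mean P.d.i (P.W0 j) = 0 := by
  unfold SB.W0
  rw [map_smul, ex_mean_dp, map_smul, mean_mul_left P.d.i (hb.osc le_rfl), sn_mean, mul_zero,
    smul_zero, map_zero, smul_zero]

private theorem ex_mean_cst (i : ℕ) (φ : Ct) (f : WT) :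
    mean i (cst φ * f) = cst φ * mean i f := mlt_cst_mul (mean_pg i) φ f

/-! the map -/

private noncomputable def exZ (P : SB) (ζ E : Vec) : Vec := fun j =>
  P.ζa j + intg P.ta P.tb (comp P.d.κ ζ (P.d.B j) + mulv (Pm P.d ζ) E j)

private noncomputable def exE (P : SB) (a : Vec) : Vec := fun j =>
  P.Ea j + intg P.ta P.tb (mean P.d.i (a j))

private noncomputable def exW (P : SB) (a : Vec) : Vec := fun j =>
  cst P.χ * (P.W0 j + intg P.s1 P.s2 (osc P.d.i (a j)))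

private noncomputable def exA (P : SB) (G : Vec) : Vec := fun j => ∑ b, Ps P.κ' j b (G b)

private noncomputable def exQ (P : SB) (G : Vec) : Vec := fun j => ∑ b, Pg P.κ' j b (G b)

/-- The closed constraint. -/
private structure ExCn (P : SB) (ζ E W a q : Vec) : Prop where
  oz : ∀ j, ExOk P.ta P.tb P.d.i (ζ j)
  oe : ∀ j, ExOk P.ta P.tb P.d.i (E j)
  ow : ∀ j, ExOk P.ta P.tb (P.d.i + 1) (W j)
  oa : ∀ j, ExOk P.ta P.tb (P.d.i + 1) (a j)
  oq : ∀ j, ExOk P.ta P.tb (P.d.i + 1) (q j)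
  om : ∀ j, mean P.d.i (W j) = 0
  b0 : P.b = 0 → ∀ j, W j = 0 ∧ Lev P.d.i (a j) ∧ Lev P.d.i (q j)

section cn
variable {P : SB} {lam g σ ρ c A ρ0 m w η : ℝ} {ζ E W a q : Vec}

private theorem ex_start (H : SBH P lam g σ ρ c A ρ0 m w η) :
    ExCn P P.ζa P.Ea (fun j => cst P.χ * P.W0 j) 0 0 := by
  have hb : ExOk P.ta P.tb P.d.i P.b := ExOk.of_frz H.bl H.br H.bt
  refine ⟨fun j => ExOk.of_frz (H.zl j) (H.zr j) (H.zt j),
    fun j => ExOk.of_frz (H.el j) (H.er j) (H.et j),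
    fun j => (ex_chi H.h1 H.h2 H.h3 _).mul (ex_W0 hb j), fun j => ExOk.zero, fun j => ExOk.zero,
    fun j => ?_, fun h0 j => ⟨?_, Lev.zero _, Lev.zero _⟩⟩
  · rw [ex_mean_cst, ex_mean_W0 H.bl, mul_zero]
  · show cst P.χ * P.W0 j = 0
    rw [W0_zero P h0 j, mul_zero]

private theorem ex_pres (H : SBH P lam g σ ρ c A ρ0 m w η) (C : ExCn P ζ E W a q)
    (hζ : ZH lam m (P.r ρ0 m) ζ) :
    ExCn P (exZ P ζ E) (exE P a) (exW P a) (exA P (P.g ζ E W a q)) (exQ P (P.g ζ E W a q)) := by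
  have hab : P.ta ≤ P.tb := (H.h1.trans (H.h2.trans H.h3)).le
  have hb : ExOk P.ta P.tb P.d.i P.b := ExOk.of_frz H.bl H.br H.bt
  have hg := ex_g H.good H.dh hζ C.oz C.oe (Nat.le_succ _) C.ow C.oa C.oq
  refine ⟨fun j => ?_, fun j => ?_, fun j => ?_, fun j => ?_, fun j => ?_, fun j => ?_,
    fun h0 j => ?_⟩
  · exact (ExOk.of_frz (H.zl j) (H.zr j) (H.zt j)).add
      (ExOk.intg le_rfl hab le_rfl ((ex_comp H.dh hζ C.oz (H.dh.bB j) (ex_B H.good j)).add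
        (ExOk.mulv (ExOk.Fm P.d.κ C.oz) C.oe j)))
  · exact (ExOk.of_frz (H.el j) (H.er j) (H.et j)).add (ExOk.intg le_rfl hab le_rfl (C.oa j).meanL)
  · exact (ex_chi H.h1 H.h2 H.h3 _).mul ((ex_W0 hb j).add
      (ExOk.intg H.h1.le H.h2.le H.h3.le ((C.oa j).osc _)))
  · exact ExOk.sum fun b _ => (hg b).Ps _ _ _
  · exact ExOk.sum fun b _ => (hg b).Pg _ _ _
  · show mean P.d.i (cst P.χ * (P.W0 j + intg P.s1 P.s2 (osc P.d.i (a j)))) = 0
    rw [ex_mean_cst, map_add, ex_mean_W0 H.bl, ← intg_mean, mean_osc, map_zero, add_zero, mul_zero]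
  · have hW : ∀ j, ExOk P.ta P.tb P.d.i (W j) := fun j => by
      rw [(C.b0 h0 j).1]
      exact ExOk.zero
    have ha : ∀ j, ExOk P.ta P.tb P.d.i (a j) := fun j =>
      ⟨(C.b0 h0 j).2.1, (C.oa j).r, (C.oa j).c⟩
    have hq : ∀ j, ExOk P.ta P.tb P.d.i (q j) := fun j =>
      ⟨(C.b0 h0 j).2.2, (C.oq j).r, (C.oq j).c⟩
    have hg0 := ex_g H.good H.dh hζ C.oz C.oe le_rfl hW ha hq
    refine ⟨?_, ?_, ?_⟩
    · show cst P.χ * (P.W0 j + intg P.s1 P.s2 (osc P.d.i (a j))) = 0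
      rw [W0_zero P h0 j, (ha j).l.osc le_rfl, map_zero, add_zero, mul_zero]
    · have : ExOk P.ta P.tb P.d.i (exA P (P.g ζ E W a q) j) :=
        ExOk.sum fun b _ => (hg0 b).Ps _ _ _
      exact this.l
    · have : ExOk P.ta P.tb P.d.i (exQ P (P.g ζ E W a q) j) :=
        ExOk.sum fun b _ => (hg0 b).Pg _ _ _
      exact this.l

end cn

/-! closedness -/

private theorem ex_ok_cl {a b : ℝ} {n : ℕ} {x : ℕ → WT} {y : WT} (hx : ∀ k, ExOk a b n (x k))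
    (h : ∀ ν t, Filter.Tendsto (fun k => (x k).co ν t) Filter.atTop (nhds (y.co ν t))) :
    ExOk a b n y :=
  ⟨Lev_of_tendsto (fun k => (hx k).l) h, IsR_of_tendsto (fun k => (hx k).r) h,
    Cl_of_tendsto (fun k => (hx k).c) h⟩

private theorem ex_eq_zero_cl {x : ℕ → WT} {y : WT} (hx : ∀ k, x k = 0)
    (h : ∀ ν t, Filter.Tendsto (fun k => (x k).co ν t) Filter.atTop (nhds (y.co ν t))) :
    y = 0 := by
  apply WT.ext
  funext ν
  ext t
  have h1 := h ν t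
  have h2 : (fun k => (x k).co ν t) = fun _ => (0 : ℂ) := by
    funext k
    rw [hx k]
    rfl
  rw [h2] at h1
  exact tendsto_nhds_unique h1 tendsto_const_nhds

private theorem ex_mean_cl {i : ℕ} {x : ℕ → WT} {y : WT} (hx : ∀ k, mean i (x k) = 0)
    (h : ∀ ν t, Filter.Tendsto (fun k => (x k).co ν t) Filter.atTop (nhds (y.co ν t))) :
    mean i y = 0 := by
  refine ex_eq_zero_cl (x := fun k => mean i (x k)) hx fun ν t => ?_
  exact (h ν t).const_smul (if ν i = 0 then (1 : ℂ) else 0)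

/-! indexing by `Fin 5 × Fin 2` -/

private noncomputable def exX (ζ E W a q : Vec) : Fin 5 × Fin 2 → WT := fun p =>
  (![ζ, E, W, a, q] : Fin 5 → Vec) p.1 p.2

private theorem ex_fin {Φ : Fin 5 × Fin 2 → Prop}
    (h : ∀ j, Φ (0, j) ∧ Φ (1, j) ∧ Φ (2, j) ∧ Φ (3, j) ∧ Φ (4, j)) : ∀ p, Φ p := by
  rintro ⟨i, j⟩
  obtain ⟨h0, h1, h2, h3, h4⟩ := h j
  fin_cases i
  · exact h0
  · exact h1
  · exact h2
  · exact h3
  · exact h4

private def exP : Fin 5 × Fin 2 → ℕ := fun p => (![2, 1, 1, 0, 0] : Fin 5 → ℕ) p.1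

private noncomputable def exV (u v w : ℝ) : Fin 5 × Fin 2 → ℝ := fun p =>
  (![u, v, v, w, w] : Fin 5 → ℝ) p.1

private noncomputable def exC (x : Fin 5 × Fin 2 → WT) (i : Fin 5) : Vec := fun j => x (i, j)


/-! numerical facts, `K = 1 + 1/m` -/

private theorem ex_num1 {lam g K h w : ℝ} (hlam : 1 ≤ lam) (hK : 2 ≤ K) (hh0 : 0 ≤ h) (hg : 0 < g)
    (hlw : lam * w ≤ g) (hh : 10 ^ 8 * K ^ 5 * h * g ≤ 1) :
    h * K * (K * (g / lam) + 2 * w) ≤ 1 / 2 * (1 / (512 * lam * K)) := by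
  have hl0 : 0 < lam := by linarith
  have hK0 : 0 < K := by linarith
  have h1 : w ≤ g / lam := by
    rw [le_div_iff₀ hl0]
    linarith
  have h0 : 0 ≤ g / lam := by positivity
  have h2 : K * (g / lam) + 2 * w ≤ 2 * K * (g / lam) := by nlinarith
  have h3 : h * K * (K * (g / lam) + 2 * w) ≤ h * K * (2 * K * (g / lam)) :=
    mul_le_mul_of_nonneg_left h2 (by positivity)
  refine h3.trans ?_
  have e1 : h * K * (2 * K * (g / lam)) = (2 * K ^ 3 * h * g) * (1 / (lam * K)) := by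
    field_simp
  have e2 : 1 / 2 * (1 / (512 * lam * K)) = (1 / 1024) * (1 / (lam * K)) := by
    field_simp
    norm_num
  rw [e1, e2]
  refine mul_le_mul_of_nonneg_right ?_ (by positivity)
  have h4 : K ^ 3 * (h * g) ≤ K ^ 5 * (h * g) :=
    mul_le_mul_of_nonneg_right (pow_le_pow_right₀ (by linarith) (by norm_num)) (by positivity)
  nlinarith

private theorem ex_num2 {g K h w : ℝ} (hK : 2 ≤ K) (hh0 : 0 ≤ h) (hg : 0 < g) (hw : 0 ≤ w)
    (hh : 10 ^ 8 * K ^ 5 * h * g ≤ 1) :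
    h * K * (10 ^ 6 * K ^ 2 * g * w) ≤ 1 / 2 * w := by
  have e1 : h * K * (10 ^ 6 * K ^ 2 * g * w) = (10 ^ 6 * K ^ 3 * h * g) * w := by ring
  rw [e1]
  refine mul_le_mul_of_nonneg_right ?_ hw
  have h4 : K ^ 3 * (h * g) ≤ K ^ 5 * (h * g) :=
    mul_le_mul_of_nonneg_right (pow_le_pow_right₀ (by linarith) (by norm_num)) (by positivity)
  nlinarith

/-- The ball. -/
private structure ExBl (P : SB) (lam g m w : ℝ) (r : ℝ → ℝ) (ζ E W a q : Vec) : Prop where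
  bz : ∀ j, Bd 2 r (ζ j - P.ζa j) (1 / (512 * lam * (1 + 1 / m)))
  be : ∀ j, Bd 1 r (E j - P.Ea j) w
  bw : ∀ j, Bd 1 r (W j - cst P.χ * P.W0 j) w
  ba : ∀ j, Bd 0 r (a j) (10 ^ 6 * (1 + 1 / m) ^ 2 * g * w)
  bq : ∀ j, Bd 0 r (q j) (10 ^ 6 * (1 + 1 / m) ^ 2 * g * w)

/-- Differences. -/
private structure ExDf (lam g m w s : ℝ) (r : ℝ → ℝ) (ζ E W a q ζ' E' W' a' q' : Vec) :
    Prop where
  dz : ∀ j, Bd 2 r (ζ j - ζ' j) (s * (1 / (512 * lam * (1 + 1 / m))))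
  de : ∀ j, Bd 1 r (E j - E' j) (s * w)
  dw : ∀ j, Bd 1 r (W j - W' j) (s * w)
  da : ∀ j, Bd 0 r (a j - a' j) (s * (10 ^ 6 * (1 + 1 / m) ^ 2 * g * w))
  dq : ∀ j, Bd 0 r (q j - q' j) (s * (10 ^ 6 * (1 + 1 / m) ^ 2 * g * w))

section est
variable {P : SB} {lam g σ ρ c A ρ0 m w η s : ℝ} {ζ E W a q ζ' E' W' a' q' : Vec}

private theorem ex_gpos (H : SBH P lam g σ ρ c A ρ0 m w η) : 0 < g :=
  (mul_pos (by linarith [H.hlam]) H.hw).trans_le H.hlw

private theorem ex_hab (H : SBH P lam g σ ρ c A ρ0 m w η) : P.ta < P.tb :=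
  H.h1.trans (H.h2.trans H.h3)

private theorem ex_rle (H : SBH P lam g σ ρ c A ρ0 m w η) (t : ℝ) : P.r ρ0 m t ≤ ρ0 :=
  rad_le (ex_hab H) H.hm.le t

private theorem ex_BH (H : SBH P lam g σ ρ c A ρ0 m w η)
    (B : ExBl P lam g m w (P.r ρ0 m) ζ E W a q) : BH lam m w (P.r ρ0 m) ζ E W := by
  have hl0 : 0 < lam := by linarith [H.hlam]
  have hm0 := H.hm
  have hK2 : 2 ≤ 1 + 1 / m := H.dh.K2
  have hK0 : 0 < 1 + 1 / m := by linarith
  have hw0 := H.hw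
  have hχ : ∀ (k : ℕ) (j : Fin 2) {e : ℝ}, Bd k (P.r ρ0 m) (P.W0 j) e →
      Bd k (P.r ρ0 m) (cst P.χ * P.W0 j) e := fun k j e h => by
    have := h.cst_mul (ex_chi_le P)
    rwa [one_mul] at this
  refine ⟨fun j => ?_, fun j => ?_, fun j => ?_, fun j => ?_⟩
  · have h1 := (B.bz j).add ((H.zb j).weaken le_rfl (ex_rle H))
    rw [sub_add_cancel] at h1
    refine h1.mono ?_
    have e1 : 1 / (512 * lam * (1 + 1 / m)) = (1 / 512) * (1 / (lam * (1 + 1 / m))) := by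
      rw [mul_assoc, one_div_mul_one_div]
    have e2 : 1 / (1024 * lam * (1 + 1 / m)) = (1 / 1024) * (1 / (lam * (1 + 1 / m))) := by
      rw [mul_assoc, one_div_mul_one_div]
    have e3 : 1 / (256 * lam * (1 + 1 / m)) = (1 / 256) * (1 / (lam * (1 + 1 / m))) := by
      rw [mul_assoc, one_div_mul_one_div]
    rw [e1, e2, e3]
    have : 0 ≤ 1 / (lam * (1 + 1 / m)) := by positivity
    linarith
  · have h1 := (B.be j).add ((H.eb' j).weaken le_rfl (ex_rle H))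
    rw [sub_add_cancel] at h1
    exact h1.mono (by linarith [H.hη])
  · have h1 := ((B.bw j).weaken (Nat.zero_le 1) (fun t => le_rfl)).add (hχ 0 j (W0_bd0 H j))
    rw [sub_add_cancel] at h1
    exact h1.mono (by linarith)
  · have h1 := (B.bw j).add (hχ 1 j (W0_bd1 H j))
    rw [sub_add_cancel] at h1
    exact h1.mono (by nlinarith)

private theorem ex_DZ (_ : SBH P lam g σ ρ c A ρ0 m w η)
    (D : ExDf lam g m w s (P.r ρ0 m) ζ E W a q ζ' E' W' a' q') :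
    DZ lam m (P.r ρ0 m) ζ ζ' s := fun j => (D.dz j).mono (le_of_eq (by ring))

/-- Gain by time integration. -/
private theorem ex_gain (H : SBH P lam g σ ρ c A ρ0 m w η) {k : ℕ} {f : WT} {e : ℝ}
    (hf : Bd k (P.r ρ0 m) f e) :
    Bd (k + 1) (P.r ρ0 m) (intg P.ta P.tb f) ((P.tb - P.ta) * (1 + 1 / m) * e) :=
  Bd.intg_gain le_rfl (ex_hab H).le le_rfl (ex_hab H) H.hm hf

private theorem ex_gain' (H : SBH P lam g σ ρ c A ρ0 m w η) {k : ℕ} {f : WT} {e : ℝ}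
    (hf : Bd k (P.r ρ0 m) f e) :
    Bd (k + 1) (P.r ρ0 m) (intg P.s1 P.s2 f) ((P.tb - P.ta) * (1 + 1 / m) * e) :=
  Bd.intg_gain H.h1.le H.h2.le H.h3.le (ex_hab H) H.hm hf

private theorem ex_dE (H : SBH P lam g σ ρ c A ρ0 m w η)
    (hh : 10 ^ 8 * (1 + 1 / m) ^ 5 * (P.tb - P.ta) * g ≤ 1) (hs : 0 ≤ s)
    (D : ∀ j, Bd 0 (P.r ρ0 m) (a j - a' j) (s * (10 ^ 6 * (1 + 1 / m) ^ 2 * g * w))) (j : Fin 2) :
    Bd 1 (P.r ρ0 m) (exE P a j - exE P a' j) (s / 2 * w) := by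
  have e : exE P a j - exE P a' j = intg P.ta P.tb (mean P.d.i (a j - a' j)) := by
    unfold exE
    rw [map_sub, map_sub]
    ring
  rw [e]
  have h1 := ex_gain H ((D j).mean P.d.i)
  refine h1.mono ?_
  have h2 := ex_num2 H.dh.K2 (by linarith [ex_hab H]) (ex_gpos H) H.hw.le hh
  have h3 := mul_le_mul_of_nonneg_left h2 hs
  calc (P.tb - P.ta) * (1 + 1 / m) * (s * (10 ^ 6 * (1 + 1 / m) ^ 2 * g * w))
      = s * ((P.tb - P.ta) * (1 + 1 / m) * (10 ^ 6 * (1 + 1 / m) ^ 2 * g * w)) := by ring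
    _ ≤ s * (1 / 2 * w) := h3
    _ = s / 2 * w := by ring

private theorem ex_dW (H : SBH P lam g σ ρ c A ρ0 m w η)
    (hh : 10 ^ 8 * (1 + 1 / m) ^ 5 * (P.tb - P.ta) * g ≤ 1) (hs : 0 ≤ s)
    (D : ∀ j, Bd 0 (P.r ρ0 m) (a j - a' j) (s * (10 ^ 6 * (1 + 1 / m) ^ 2 * g * w))) (j : Fin 2) :
    Bd 1 (P.r ρ0 m) (exW P a j - exW P a' j) (s / 2 * w) := by
  have e : exW P a j - exW P a' j = cst P.χ * intg P.s1 P.s2 (osc P.d.i (a j - a' j)) := by
    unfold exW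
    rw [map_sub, map_sub]
    ring
  rw [e]
  have h1 := (ex_gain' H ((D j).osc P.d.i)).cst_mul (ex_chi_le P)
  refine h1.mono ?_
  have h2 := ex_num2 H.dh.K2 (by linarith [ex_hab H]) (ex_gpos H) H.hw.le hh
  have h3 := mul_le_mul_of_nonneg_left h2 hs
  calc 1 * ((P.tb - P.ta) * (1 + 1 / m) * (s * (10 ^ 6 * (1 + 1 / m) ^ 2 * g * w)))
      = s * ((P.tb - P.ta) * (1 + 1 / m) * (10 ^ 6 * (1 + 1 / m) ^ 2 * g * w)) := by ring
    _ ≤ s * (1 / 2 * w) := h3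
    _ = s / 2 * w := by ring

private theorem ex_sumPs {κ : Kp} {k : ℕ} {r : ℝ → ℝ} {x y : Vec} {e : ℝ}
    (h : ∀ j, Bd k r (x j - y j) e) (j : Fin 2) :
    Bd k r ((∑ b, Ps κ j b (x b)) - ∑ b, Ps κ j b (y b)) (2 * e) := by
  have e1 : (∑ b, Ps κ j b (x b)) - ∑ b, Ps κ j b (y b) = ∑ b, Ps κ j b (x b - y b) := by
    rw [← Finset.sum_sub_distrib]
    exact Finset.sum_congr rfl fun b _ => by rw [map_sub]
  rw [e1]
  refine (Bd.sum Finset.univ (c := fun _ => e) fun b _ => (h b).Ps κ j b).mono (le_of_eq ?_)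
  simp

private theorem ex_sumPg {κ : Kp} {k : ℕ} {r : ℝ → ℝ} {x y : Vec} {e : ℝ}
    (h : ∀ j, Bd k r (x j - y j) e) (j : Fin 2) :
    Bd k r ((∑ b, Pg κ j b (x b)) - ∑ b, Pg κ j b (y b)) (2 * e) := by
  have e1 : (∑ b, Pg κ j b (x b)) - ∑ b, Pg κ j b (y b) = ∑ b, Pg κ j b (x b - y b) := by
    rw [← Finset.sum_sub_distrib]
    exact Finset.sum_congr rfl fun b _ => by rw [map_sub]
  rw [e1]
  refine (Bd.sum Finset.univ (c := fun _ => e) fun b _ => (h b).Pg κ j b).mono (le_of_eq ?_)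
  simp

private theorem ex_dG (H : SBH P lam g σ ρ c A ρ0 m w η) (hs : 0 ≤ s)
    (B : ExBl P lam g m w (P.r ρ0 m) ζ E W a q) (B' : ExBl P lam g m w (P.r ρ0 m) ζ' E' W' a' q')
    (D : ExDf lam g m w s (P.r ρ0 m) ζ E W a q ζ' E' W' a' q') (j : Fin 2) :
    Bd 0 (P.r ρ0 m) (P.g ζ E W a q j - P.g ζ' E' W' a' q' j)
      (s / 4 * (10 ^ 6 * (1 + 1 / m) ^ 2 * g * w)) := by
  have h := g_lip (q := q) (q' := q') H.dh H.hw.le H.hlw H.hσ (ex_BH H B) (ex_BH H B') hs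
    (ex_DZ H D) D.de D.dw B.ba B.bq D.da D.dq j
  refine h.mono ?_
  have hg0 := ex_gpos H
  have hw0 := H.hw
  have : 0 ≤ s * ((1 + 1 / m) ^ 2 * g * w) := by positivity
  nlinarith

/-- The bound at the start. -/
private theorem ex_G0 (H : SBH P lam g σ ρ c A ρ0 m w η)
    (B : ExBl P lam g m w (P.r ρ0 m) ζ E W 0 0) (j : Fin 2) :
    Bd 0 (P.r ρ0 m) (P.g ζ E W 0 0 j) (1 / 4 * (10 ^ 6 * (1 + 1 / m) ^ 2 * g * w)) := by
  have h := g_bd (a := 0) (q := 0) (α := 0) H.dh H.hw.le H.hlw H.hσ (ex_BH H B)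
    (fun _ => Bd.zero _ _ le_rfl) (fun _ => Bd.zero _ _ le_rfl) j
  refine h.mono ?_
  have hg0 := ex_gpos H
  have hw0 := H.hw
  have : 0 ≤ ((1 + 1 / m) ^ 2 * g * w) := by positivity
  nlinarith

private theorem ex_dZ0 (H : SBH P lam g σ ρ c A ρ0 m w η)
    (hh : 10 ^ 8 * (1 + 1 / m) ^ 5 * (P.tb - P.ta) * g ≤ 1)
    (hζ : ZH lam m (P.r ρ0 m) ζ) (hE : ∀ j, Bd 1 (P.r ρ0 m) (E j) w) (j : Fin 2) :
    Bd 2 (P.r ρ0 m) (exZ P ζ E j - P.ζa j) (1 / 2 * (1 / (512 * lam * (1 + 1 / m)))) := by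
  have e : exZ P ζ E j - P.ζa j =
      intg P.ta P.tb (comp P.d.κ ζ (P.d.B j) + mulv (Pm P.d ζ) E j) := by
    unfold exZ
    ring
  rw [e]
  have h1 := ex_gain H ((H.dh.bd_B1 hζ j).add (H.dh.mulv_P hζ hE j))
  refine h1.mono ?_
  have h2 := ex_num1 H.hlam H.dh.K2 (by linarith [ex_hab H]) (ex_gpos H) H.hlw hh
  refine le_trans ?_ h2
  have hK2 : 2 ≤ 1 + 1 / m := H.dh.K2
  refine mul_le_mul_of_nonneg_left ?_ (mul_nonneg (by linarith [ex_hab H]) (by linarith))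
  linarith [H.hw]

private theorem ex_dZ (H : SBH P lam g σ ρ c A ρ0 m w η)
    (hh : 10 ^ 8 * (1 + 1 / m) ^ 5 * (P.tb - P.ta) * g ≤ 1) (hs : 0 ≤ s)
    (B : ExBl P lam g m w (P.r ρ0 m) ζ E W a q) (B' : ExBl P lam g m w (P.r ρ0 m) ζ' E' W' a' q')
    (D : ExDf lam g m w s (P.r ρ0 m) ζ E W a q ζ' E' W' a' q') (j : Fin 2) :
    Bd 2 (P.r ρ0 m) (exZ P ζ E j - exZ P ζ' E' j) (s / 2 * (1 / (512 * lam * (1 + 1 / m)))) := by
  have e : exZ P ζ E j - exZ P ζ' E' j =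
      intg P.ta P.tb ((comp P.d.κ ζ (P.d.B j) - comp P.d.κ ζ' (P.d.B j)) +
        (mulv (Pm P.d ζ) (fun k => E k - E' k) j +
          ∑ b, (Pm P.d ζ j b - Pm P.d ζ' j b) * E' b)) := by
    have e2 : mulv (Pm P.d ζ) (fun k => E k - E' k) j +
          ∑ b, (Pm P.d ζ j b - Pm P.d ζ' j b) * E' b =
        mulv (Pm P.d ζ) E j - mulv (Pm P.d ζ') E' j := by
      unfold mulv
      rw [← Finset.sum_add_distrib, ← Finset.sum_sub_distrib]
      exact Finset.sum_congr rfl fun b _ => by ring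
    rw [e2]
    have e3 : (comp P.d.κ ζ (P.d.B j) - comp P.d.κ ζ' (P.d.B j)) +
        (mulv (Pm P.d ζ) E j - mulv (Pm P.d ζ') E' j) =
        (comp P.d.κ ζ (P.d.B j) + mulv (Pm P.d ζ) E j) -
          (comp P.d.κ ζ' (P.d.B j) + mulv (Pm P.d ζ') E' j) := by ring
    rw [e3, map_sub]
    unfold exZ
    ring
  rw [e]
  have hb := ex_BH H B
  have hb' := ex_BH H B'
  have hr0 : ∀ t, 0 ≤ P.r ρ0 m t := fun t => H.hm.le.trans (H.dh.hr t)
  have hK2 : 2 ≤ 1 + 1 / m := H.dh.K2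
  have h1 := H.dh.lip_B1 hb.z hb'.z (ex_DZ H D) j
  have h2 := H.dh.mulv_P hb.z (x := fun k => E k - E' k) D.de j
  have h3 : Bd 1 (P.r ρ0 m) (∑ b, (Pm P.d ζ j b - Pm P.d ζ' j b) * E' b)
      (∑ _b : Fin 2, s / (512 * (1 + 1 / m)) * (2 * w)) :=
    Bd.sum Finset.univ fun b _ => (H.dh.lip_P (ex_DZ H D) j b).mul hr0 (hb'.e b)
  have h4 := ex_gain H (h1.add (h2.add h3))
  refine h4.mono ?_
  have h5 := ex_num1 H.hlam H.dh.K2 (by linarith [ex_hab H]) (ex_gpos H) H.hlw hh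
  have h6 := mul_le_mul_of_nonneg_left h5 hs
  have hsw : 0 ≤ s * w := mul_nonneg hs H.hw.le
  have h7 : s / (512 * (1 + 1 / m)) * (2 * w) ≤ 1 / 512 * (s * w) := by
    have : s / (512 * (1 + 1 / m)) * (2 * w) = (2 / (1 + 1 / m)) * (1 / 512 * (s * w)) := by
      field_simp
    rw [this]
    have h8 : 2 / (1 + 1 / m) ≤ 1 := (div_le_one (by linarith)).2 hK2
    nlinarith
  calc (P.tb - P.ta) * (1 + 1 / m) * (s * (1 + 1 / m) * (g / lam) +
        (101 / 100 * (s * w) + ∑ _b : Fin 2, s / (512 * (1 + 1 / m)) * (2 * w)))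
      ≤ (P.tb - P.ta) * (1 + 1 / m) * (s * ((1 + 1 / m) * (g / lam) + 2 * w)) := by
        refine mul_le_mul_of_nonneg_left ?_ (mul_nonneg (by linarith [ex_hab H]) (by linarith))
        rw [Fin.sum_univ_two]
        nlinarith
    _ = s * ((P.tb - P.ta) * (1 + 1 / m) * ((1 + 1 / m) * (g / lam) + 2 * w)) := by ring
    _ ≤ s * (1 / 2 * (1 / (512 * lam * (1 + 1 / m)))) := h6
    _ = s / 2 * (1 / (512 * lam * (1 + 1 / m))) := by ring

end est

theorem sb_exists0 (P : SB) {lam g σ ρ c A ρ0 m w η : ℝ} (H : SBH P lam g σ ρ c A ρ0 m w η)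
    (hh : 10 ^ 8 * (1 + 1 / m) ^ 5 * (P.tb - P.ta) * g ≤ 1) :
    ∃ ζ E W a q : Vec, SB0 P lam g ρ0 m w ζ E W a q := by
  have hg0 := ex_gpos H
  have hw0 := H.hw
  have hl0 : 0 < lam := by linarith [H.hlam]
  have hK2 : 2 ≤ 1 + 1 / m := H.dh.K2
  have hK0 : 0 < 1 + 1 / m := by linarith
  have hu : 0 < 1 / (512 * lam * (1 + 1 / m)) := by positivity
  have hGw : 0 < 10 ^ 6 * (1 + 1 / m) ^ 2 * g * w := by positivity
  let wt : Fin 5 × Fin 2 → ℝ :=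
    exV (1 / (512 * lam * (1 + 1 / m))) w (10 ^ 6 * (1 + 1 / m) ^ 2 * g * w)
  let T : (Fin 5 × Fin 2 → WT) → (Fin 5 × Fin 2 → WT) := fun x =>
    exX (exZ P (exC x 0) (exC x 1)) (exE P (exC x 3)) (exW P (exC x 3))
      (exA P (P.g (exC x 0) (exC x 1) (exC x 2) (exC x 3) (exC x 4)))
      (exQ P (P.g (exC x 0) (exC x 1) (exC x 2) (exC x 3) (exC x 4)))
  let x0 : Fin 5 × Fin 2 → WT := exX P.ζa P.Ea (fun j => cst P.χ * P.W0 j) 0 0
  let Q : (Fin 5 × Fin 2 → WT) → Prop := fun x =>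
    ExCn P (exC x 0) (exC x 1) (exC x 2) (exC x 3) (exC x 4)
  have hwt : ∀ p, 0 < wt p := ex_fin fun j => ⟨hu, hw0, hw0, hGw, hGw⟩
  have toBl : ∀ x, BdV exP wt (P.r ρ0 m) (x - x0) 1 →
      ExBl P lam g m w (P.r ρ0 m) (exC x 0) (exC x 1) (exC x 2) (exC x 3) (exC x 4) := by
    intro x hx
    refine ⟨fun j => ?_, fun j => ?_, fun j => ?_, fun j => ?_, fun j => ?_⟩
    · have h : Bd 2 (P.r ρ0 m) (exC x 0 j - P.ζa j) (1 * (1 / (512 * lam * (1 + 1 / m)))) :=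
        hx (0, j)
      rwa [one_mul] at h
    · have h : Bd 1 (P.r ρ0 m) (exC x 1 j - P.Ea j) (1 * w) := hx (1, j)
      rwa [one_mul] at h
    · have h : Bd 1 (P.r ρ0 m) (exC x 2 j - cst P.χ * P.W0 j) (1 * w) := hx (2, j)
      rwa [one_mul] at h
    · have h : Bd 0 (P.r ρ0 m) (exC x 3 j - 0) (1 * (10 ^ 6 * (1 + 1 / m) ^ 2 * g * w)) :=
        hx (3, j)
      rwa [one_mul, sub_zero] at h
    · have h : Bd 0 (P.r ρ0 m) (exC x 4 j - 0) (1 * (10 ^ 6 * (1 + 1 / m) ^ 2 * g * w)) :=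
        hx (4, j)
      rwa [one_mul, sub_zero] at h
  have toDf : ∀ x y s, BdV exP wt (P.r ρ0 m) (x - y) s →
      ExDf lam g m w s (P.r ρ0 m) (exC x 0) (exC x 1) (exC x 2) (exC x 3) (exC x 4)
        (exC y 0) (exC y 1) (exC y 2) (exC y 3) (exC y 4) := by
    intro x y s h
    exact ⟨fun j => h (0, j), fun j => h (1, j), fun j => h (2, j), fun j => h (3, j),
      fun j => h (4, j)⟩
  have hQ0 : Q x0 := ex_start H
  have hQT : ∀ x, BdV exP wt (P.r ρ0 m) (x - x0) 1 → Q x → Q (T x) := fun x hx hQ =>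
    ex_pres H hQ (ex_BH H (toBl x hx)).z
  have hQcl : ∀ (x : ℕ → (Fin 5 × Fin 2) → WT) (y : (Fin 5 × Fin 2) → WT), (∀ n, Q (x n)) →
      (∀ j ν t, Filter.Tendsto (fun n => (x n j).co ν t) Filter.atTop (nhds ((y j).co ν t))) →
      Q y := by
    intro x y hx h
    refine ⟨fun j => ex_ok_cl (fun k => (hx k).oz j) (h (0, j)),
      fun j => ex_ok_cl (fun k => (hx k).oe j) (h (1, j)),
      fun j => ex_ok_cl (fun k => (hx k).ow j) (h (2, j)),
      fun j => ex_ok_cl (fun k => (hx k).oa j) (h (3, j)),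
      fun j => ex_ok_cl (fun k => (hx k).oq j) (h (4, j)),
      fun j => ex_mean_cl (fun k => (hx k).om j) (h (2, j)), fun h0 j => ⟨?_, ?_, ?_⟩⟩
    · exact ex_eq_zero_cl (fun k => ((hx k).b0 h0 j).1) (h (2, j))
    · exact Lev_of_tendsto (fun k => ((hx k).b0 h0 j).2.1) (h (3, j))
    · exact Lev_of_tendsto (fun k => ((hx k).b0 h0 j).2.2) (h (4, j))
  have hx00 : BdV exP wt (P.r ρ0 m) (x0 - x0) 1 := fun p => by
    rw [sub_self]
    exact Bd.zero _ _ (mul_nonneg zero_le_one (hwt p).le)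
  have hT0 : BdV exP wt (P.r ρ0 m) (T x0 - x0) (1 / 2) := by
    have hB0 := toBl x0 hx00
    have hG := ex_G0 H (ζ := P.ζa) (E := P.Ea) (W := fun j => cst P.χ * P.W0 j) hB0
    have hG' : ∀ j, Bd 0 (P.r ρ0 m)
        (P.g P.ζa P.Ea (fun j => cst P.χ * P.W0 j) 0 0 j - (0 : Vec) j)
        (1 / 4 * (10 ^ 6 * (1 + 1 / m) ^ 2 * g * w)) := fun j => by
      have : P.g P.ζa P.Ea (fun j => cst P.χ * P.W0 j) 0 0 j - (0 : Vec) j =
          P.g P.ζa P.Ea (fun j => cst P.χ * P.W0 j) 0 0 j := by simp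
      rw [this]
      exact hG j
    refine ex_fin fun j => ⟨?_, ?_, ?_, ?_, ?_⟩
    · exact ex_dZ0 H hh (ex_BH H hB0).z
        (fun j => ((H.eb' j).weaken le_rfl (ex_rle H)).mono H.hη) j
    · show Bd 1 (P.r ρ0 m) (exE P 0 j - P.Ea j) (1 / 2 * w)
      have : exE P 0 j - P.Ea j = 0 := by
        unfold exE
        simp
      rw [this]
      exact Bd.zero _ _ (by positivity)
    · show Bd 1 (P.r ρ0 m) (exW P 0 j - cst P.χ * P.W0 j) (1 / 2 * w)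
      have : exW P 0 j - cst P.χ * P.W0 j = 0 := by
        unfold exW
        simp
      rw [this]
      exact Bd.zero _ _ (by positivity)
    · have h := ex_sumPs (κ := P.κ') hG' j
      have h0 : (∑ b, Ps P.κ' j b ((0 : Vec) b)) = 0 := by simp
      rw [h0] at h
      exact h.mono (le_of_eq (by
        show _ = 1 / 2 * (10 ^ 6 * (1 + 1 / m) ^ 2 * g * w)
        ring))
    · have h := ex_sumPg (κ := P.κ') hG' j
      have h0 : (∑ b, Pg P.κ' j b ((0 : Vec) b)) = 0 := by simp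
      rw [h0] at h
      exact h.mono (le_of_eq (by
        show _ = 1 / 2 * (10 ^ 6 * (1 + 1 / m) ^ 2 * g * w)
        ring))
  have hL : ∀ x y s, Q x → Q y → 0 ≤ s → BdV exP wt (P.r ρ0 m) (x - x0) 1 →
      BdV exP wt (P.r ρ0 m) (y - x0) 1 → BdV exP wt (P.r ρ0 m) (x - y) s →
      BdV exP wt (P.r ρ0 m) (T x - T y) (s / 2) := by
    intro x y s _ _ hs hx hy hxy
    have hBx := toBl x hx
    have hBy := toBl y hy
    have hD := toDf x y s hxy
    have hG := ex_dG H hs hBx hBy hD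
    refine ex_fin fun j => ⟨?_, ?_, ?_, ?_, ?_⟩
    · exact ex_dZ H hh hs hBx hBy hD j
    · exact ex_dE H hh hs hD.da j
    · exact ex_dW H hh hs hD.da j
    · exact (ex_sumPs (κ := P.κ') hG j).mono (le_of_eq (by
        show _ = s / 2 * (10 ^ 6 * (1 + 1 / m) ^ 2 * g * w)
        ring))
    · exact (ex_sumPg (κ := P.κ') hG j).mono (le_of_eq (by
        show _ = s / 2 * (10 ^ 6 * (1 + 1 / m) ^ 2 * g * w)
        ring))
  obtain ⟨x, hTx, hQ, hB⟩ := fixpt exP wt hwt (r := P.r ρ0 m) H.hm H.dh.hr T x0 Q hQ0 hQT hQcl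
    hT0 hL
  have B := toBl x hB
  have hC : ExCn P (exC x 0) (exC x 1) (exC x 2) (exC x 3) (exC x 4) := hQ
  refine ⟨exC x 0, exC x 1, exC x 2, exC x 3, exC x 4, ?_⟩
  exact
    { sol :=
        { hζ := fun j => (congrFun hTx (0, j)).symm
          hE := fun j => (congrFun hTx (1, j)).symm
          hW := fun j => (congrFun hTx (2, j)).symm
          ha := fun j => (congrFun hTx (3, j)).symm
          hq := fun j => (congrFun hTx (4, j)).symm }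
      lζ := fun j => (hC.oz j).l
      lE := fun j => (hC.oe j).l
      lW := fun j => (hC.ow j).l
      la := fun j => (hC.oa j).l
      lq := fun j => (hC.oq j).l
      mW := hC.om
      rζ := fun j => (hC.oz j).r
      rE := fun j => (hC.oe j).r
      rW := fun j => (hC.ow j).r
      ra := fun j => (hC.oa j).r
      rq := fun j => (hC.oq j).r
      cζ := fun j => (hC.oz j).c
      cE := fun j => (hC.oe j).c
      cW := fun j => (hC.ow j).c
      ca := fun j => (hC.oa j).c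
      cq := fun j => (hC.oq j).c
      b0 := fun h0 j => ⟨(hC.b0 h0 j).1, (hC.b0 h0 j).2.1.osc le_rfl, (hC.b0 h0 j).2.2.osc le_rfl⟩
      nζ := B.bz
      nE := B.be
      nW := B.bw
      na := B.ba
      nq := B.bq }

end ES
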