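import Pool.Agent.ES.SLip

/-!
ES-SF: bounds and Lipschitz bounds of the right hand side `f` and of `g` of the sub-block system,
and of the initial wave `W0` (EW 2, Lemmas 2.1, 2.2).  `K = 1 + 1/m`, always `lam w ≤ g`,
`σ ≤ w²`.

`f = -2 LL (E+W) - ((E+W)·D)(F'E) - [ (W·D)(F'(E+W)) + bet W · F' dth (E+W) ] - D·(R M'ᵀ)`:
  `N0(2 LL (E+W)) ≤ 2·2·2g·35w`,  `N0(((E+W)·D)(F'E)) ≤ 2·35w·lam·6K·2w`,
  `N0((W·D)(F'(E+W))) ≤ 2·33w·lam·6K·131K w`,  `N0(bet) ≤ 2 lam·129K w`, `N0(F' dth(E+W)) ≤ 1.03·131K w`,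
  `N0(D·(R M'ᵀ)) ≤ 12 K² lam σ`;  the sum is `≤ 10^5 K² g w`.
-/

open scoped BoundedContinuousFunction

namespace ES

/-! private helpers -/

private theorem SF_sum2 {k : ℕ} {r : ℝ → ℝ} {f : Fin 2 → WT} {c c0 c1 : ℝ}
    (h0 : Bd k r (f 0) c0) (h1 : Bd k r (f 1) c1) (h : c0 + c1 ≤ c) :
    Bd k r (∑ j, f j) c := by
  rw [Fin.sum_univ_two]; exact (h0.add h1).mono h

private theorem SF_mulv {k : ℕ} {r : ℝ → ℝ} (hr0 : ∀ t, 0 ≤ r t) {X : Mat} {v : Vec} {x e : ℝ}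
    {a : Fin 2} (hX : ∀ c, Bd k r (X a c) x) (hv : ∀ c, Bd k r (v c) e) :
    Bd k r (mulv X v a) (2 * (x * e)) :=
  SF_sum2 ((hX 0).mul hr0 (hv 0)) ((hX 1).mul hr0 (hv 1)) (by linarith)

private theorem SF_mulvT {k : ℕ} {r : ℝ → ℝ} (hr0 : ∀ t, 0 ≤ r t) {X : Mat} {v : Vec} {x e : ℝ}
    {a : Fin 2} (hX : ∀ c, Bd k r (X c a) x) (hv : ∀ c, Bd k r (v c) e) :
    Bd k r (mulvT X v a) (2 * (x * e)) :=
  SF_sum2 ((hX 0).mul hr0 (hv 0)) ((hX 1).mul hr0 (hv 1)) (by linarith)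

private theorem SF_adv {r : ℝ → ℝ} (hr0 : ∀ t, 0 ≤ r t) {κ : Kp} {lam : ℝ} (hκ : KB κ lam)
    {x y : Vec} {p q : ℝ} {a : Fin 2} (hx : ∀ b, Bd 0 r (x b) p) (hy : Bd 1 r (y a) q) :
    Bd 0 r (adv κ x y a) (2 * (p * (lam * q))) :=
  SF_sum2 ((hx 0).mul hr0 (hy.D hκ 0)) ((hx 1).mul hr0 (hy.D hκ 1)) (by linarith)

private theorem SF_two {k : ℕ} {r : ℝ → ℝ} {f : WT} {c : ℝ} (h : Bd k r f c) :
    Bd k r (2 * f) (2 * c) := by
  have e : 2 * f = f + f := two_mul f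
  rw [e]; exact (h.add h).mono (by linarith)

private theorem SF_mulv_sub (X X' : Mat) (v v' : Vec) (a : Fin 2) :
    mulv X v a - mulv X' v' a = mulv X (v - v') a + mulv (fun a b => X a b - X' a b) v' a := by
  simp only [mulv, Fin.sum_univ_two, Pi.sub_apply]; ring

private theorem SF_mulvT_sub (X X' : Mat) (v v' : Vec) (a : Fin 2) :
    mulvT X v a - mulvT X' v' a =
      mulvT X (v - v') a + mulvT (fun a b => X a b - X' a b) v' a := by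
  simp only [mulvT, Fin.sum_univ_two, Pi.sub_apply]; ring

private theorem SF_adv_sub (κ : Kp) (x x' y y' : Vec) (a : Fin 2) :
    adv κ x y a - adv κ x' y' a = adv κ (x - x') y a + adv κ x' (y - y') a := by
  simp only [adv, Fin.sum_univ_two, Pi.sub_apply, map_sub]; ring

private theorem SF_bet_sub (P : SB) (W W' : Vec) : P.bet W - P.bet W' = P.bet (W - W') := by
  simp only [SB.bet, dvg, Fin.sum_univ_two, Pi.sub_apply, map_sub, map_add]; ring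

private theorem SF_bet {P : SB} {r : ℝ → ℝ} {lam e : ℝ} (hκ : KB P.d.κ lam) {W : Vec}
    (hW : ∀ j, Bd 1 r (W j) e) : Bd 0 r (P.bet W) (2 * lam * e) := by
  unfold SB.bet
  exact ((SF_sum2 ((hW 0).D hκ 0) ((hW 1).D hκ 1) (by linarith)).ith _).neg

section
variable {P : SB} {lam g σ c m r0 w s : ℝ} {r : ℝ → ℝ} {ζ ζ' E E' W W' a a' q q' : Vec}

private theorem SF_r0 {d : Dat} (H : DH d lam g σ c m r0 r) (t : ℝ) : 0 ≤ r t :=
  H.r00.le.trans (H.hr t)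

/-- `E + W` at order 0 -/
private theorem SF_EW0 (B : BH lam m w r ζ E W) (j : Fin 2) : Bd 0 r ((E + W) j) (35 * w) :=
  (((B.e j).weaken (Nat.zero_le _) fun _ => le_rfl).add (B.w0 j)).mono (by linarith)

private theorem SF_EW1 {d : Dat} (H : DH d lam g σ c m r0 r) (hw : 0 ≤ w)
    (B : BH lam m w r ζ E W) (j : Fin 2) : Bd 1 r ((E + W) j) (131 * (1 + 1 / m) * w) := by
  refine ((B.e j).add (B.w1 j)).mono ?_
  nlinarith [mul_le_mul_of_nonneg_right H.K2 hw]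

private theorem SF_dth {d : Dat} (H : DH d lam g σ c m r0 r) (hw : 0 ≤ w)
    (B : BH lam m w r ζ E W) (i : ℕ) (j : Fin 2) :
    Bd 0 r (ES.dth i (E j + W j)) (131 * (1 + 1 / m) * w) :=
  (SF_EW1 H hw B j).dth i

/-- the four terms of `f` -/
private theorem SF_T1 {d : Dat} (H : DH d lam g σ c m r0 r)
    (B : BH lam m w r ζ E W) (j : Fin 2) :
    Bd 0 r (2 * mulv (LL d ζ) (E + W) j) (280 * (g * w)) :=
  (SF_two (SF_mulv (SF_r0 H) (fun c => H.bd_LL0 B.z j c) (SF_EW0 B))).mono (by linarith)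

private theorem SF_FE {d : Dat} (H : DH d lam g σ c m r0 r)
    (B : BH lam m w r ζ E W) (j : Fin 2) :
    Bd 1 r (mulv (FF d ζ) E j) (12 * (1 + 1 / m) * w) :=
  (H.mulv_F1 B.z B.e j).mono (by linarith)

private theorem SF_FEW {d : Dat} (H : DH d lam g σ c m r0 r) (hw : 0 ≤ w)
    (B : BH lam m w r ζ E W) (j : Fin 2) :
    Bd 1 r (mulv (FF d ζ) (E + W) j) (786 * (1 + 1 / m) ^ 2 * w) :=
  (H.mulv_F1 B.z (SF_EW1 H hw B) j).mono (le_of_eq (by ring))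

private theorem SF_T2 {d : Dat} (H : DH d lam g σ c m r0 r)
    (B : BH lam m w r ζ E W) (j : Fin 2) :
    Bd 0 r (adv d.κ (E + W) (mulv (FF d ζ) E) j) (840 * (1 + 1 / m) * (lam * w * w)) :=
  (SF_adv (SF_r0 H) H.kb (SF_EW0 B) (SF_FE H B j)).mono (le_of_eq (by ring))

private theorem SF_T3 {d : Dat} (H : DH d lam g σ c m r0 r) (hw : 0 ≤ w)
    (B : BH lam m w r ζ E W) (j : Fin 2) :
    Bd 0 r (adv d.κ W (mulv (FF d ζ) (E + W)) j)
      (51876 * (1 + 1 / m) ^ 2 * (lam * w * w)) :=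
  (SF_adv (SF_r0 H) H.kb B.w0 (SF_FEW H hw B j)).mono (le_of_eq (by ring))

private theorem SF_Fdth {d : Dat} (H : DH d lam g σ c m r0 r) (hw : 0 ≤ w)
    (B : BH lam m w r ζ E W) (i : ℕ) (j : Fin 2) :
    Bd 0 r (mulv (FF d ζ) (fun c => ES.dth i (E c + W c)) j) (135 * (1 + 1 / m) * w) := by
  refine (H.mulv_F0 B.z (SF_dth H hw B i) j).mono ?_
  have : 0 ≤ (1 + 1 / m) * w := mul_nonneg (by linarith [H.K2]) hw
  linarith

private theorem SF_T4 (H : DH P.d lam g σ c m r0 r) (hw : 0 ≤ w)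
    (B : BH lam m w r ζ E W) (j : Fin 2) :
    Bd 0 r (P.bet W * mulv (FF P.d ζ) (fun c => ES.dth P.d.i (E c + W c)) j)
      (34830 * (1 + 1 / m) ^ 2 * (lam * w * w)) :=
  ((SF_bet H.kb B.w1).mul (SF_r0 H) (SF_Fdth H hw B P.d.i j)).mono (le_of_eq (by ring))

private theorem SF_T5 {d : Dat} (H : DH d lam g σ c m r0 r) (hσ : σ ≤ w ^ 2)
    (B : BH lam m w r ζ E W) (j : Fin 2) :
    Bd 0 r (dvm d.κ (mulT (RR d ζ) (MM d ζ)) j) (12 * (1 + 1 / m) ^ 2 * (lam * w * w)) := by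
  refine (H.bd_dvm B.z j).mono ?_
  have h1 : 0 ≤ 12 * (1 + 1 / m) ^ 2 * lam := by
    have := H.hlam
    positivity
  calc 12 * (1 + 1 / m) ^ 2 * lam * σ ≤ 12 * (1 + 1 / m) ^ 2 * lam * w ^ 2 :=
        mul_le_mul_of_nonneg_left hσ h1
    _ = _ := by ring

/-- numbers -/
private theorem SF_num {K X Y : ℝ} (hK : 2 ≤ K) (hX : 0 ≤ X) (hXY : X ≤ Y)
    {c0 c1 c2 C : ℝ} (h0 : 0 ≤ c0) (h1 : 0 ≤ c1) (h2 : 0 ≤ c2) (hC : c0 / 4 + c1 / 2 + c2 ≤ C) :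
    c0 * Y + c1 * K * X + c2 * K ^ 2 * X ≤ C * K ^ 2 * Y := by
  have hY : 0 ≤ Y := hX.trans hXY
  have hK0 : 0 ≤ K := by linarith
  have e1 : 4 ≤ K ^ 2 := by nlinarith
  have e2 : 2 * K ≤ K ^ 2 := by nlinarith
  have a0 : c0 * Y ≤ c0 / 4 * K ^ 2 * Y := by
    have := mul_le_mul_of_nonneg_left e1 (mul_nonneg h0 hY)
    nlinarith
  have a1 : c1 * K * X ≤ c1 / 2 * K ^ 2 * Y := by
    have b1 : c1 * K * X ≤ c1 * K * Y := mul_le_mul_of_nonneg_left hXY (mul_nonneg h1 hK0)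
    have b2 := mul_le_mul_of_nonneg_left e2 (mul_nonneg h1 hY)
    nlinarith
  have a2 : c2 * K ^ 2 * X ≤ c2 * K ^ 2 * Y :=
    mul_le_mul_of_nonneg_left hXY (mul_nonneg h2 (sq_nonneg K))
  have a3 := mul_le_mul_of_nonneg_right hC (mul_nonneg (sq_nonneg K) hY)
  nlinarith

theorem f_bd (H : DH P.d lam g σ c m r0 r) (hw : 0 ≤ w) (hlw : lam * w ≤ g) (hσ : σ ≤ w ^ 2)
    (B : BH lam m w r ζ E W) (j : Fin 2) :
    Bd 0 r (P.f ζ E W j) (10 ^ 5 * (1 + 1 / m) ^ 2 * g * w) := by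
  have h := (((SF_T1 H B j).neg.sub (SF_T2 H B j)).sub
    ((SF_T3 H hw B j).add (SF_T4 H hw B j))).sub (SF_T5 H hσ B j)
  refine Bd.mono h ?_
  have hl := H.hlam
  have h1 := SF_num (K := 1 + 1 / m) (X := lam * w * w) (Y := g * w) H.K2 (by positivity)
    (mul_le_mul_of_nonneg_right hlw hw) (c0 := 280) (c1 := 840) (c2 := 86718) (C := 10 ^ 5)
    (by norm_num) (by norm_num) (by norm_num) (by norm_num)
  linarith

/-- differences -/
private theorem SF_dFE {d : Dat} (H : DH d lam g σ c m r0 r)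
    (B : BH lam m w r ζ E W) (B' : BH lam m w r ζ' E' W')
    (hζ : DZ lam m r ζ ζ' s) (hE : ∀ j, Bd 1 r (E j - E' j) (s * w)) (j : Fin 2) :
    Bd 1 r (mulv (FF d ζ) E j - mulv (FF d ζ') E' j) (10 * (1 + 1 / m) * (s * w)) := by
  rw [SF_mulv_sub]
  exact ((H.mulv_F1 B.z (x := E - E') hE j).add
    (SF_mulv (SF_r0 H) (fun c => H.lip_FF1 B.z B'.z hζ j c) B'.e)).mono (le_of_eq (by ring))

private theorem SF_dEW1 (hE : ∀ j, Bd 1 r (E j - E' j) (s * w))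
    (hW : ∀ j, Bd 1 r (W j - W' j) (s * w)) (j : Fin 2) :
    Bd 1 r ((E + W - (E' + W')) j) (2 * (s * w)) := by
  have e : (E + W - (E' + W')) j = (E j - E' j) + (W j - W' j) := by
    simp only [Pi.sub_apply, Pi.add_apply]; ring
  rw [e]
  exact ((hE j).add (hW j)).mono (by linarith)

private theorem SF_dFEW {d : Dat} (H : DH d lam g σ c m r0 r) (hw : 0 ≤ w) (hs0 : 0 ≤ s)
    (B : BH lam m w r ζ E W) (B' : BH lam m w r ζ' E' W')
    (hζ : DZ lam m r ζ ζ' s) (hE : ∀ j, Bd 1 r (E j - E' j) (s * w))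
    (hW : ∀ j, Bd 1 r (W j - W' j) (s * w)) (j : Fin 2) :
    Bd 1 r (mulv (FF d ζ) (E + W) j - mulv (FF d ζ') (E' + W') j)
      (268 * (1 + 1 / m) ^ 2 * (s * w)) := by
  rw [SF_mulv_sub]
  refine ((H.mulv_F1 B.z (SF_dEW1 hE hW) j).add
    (SF_mulv (SF_r0 H) (fun c => H.lip_FF1 B.z B'.z hζ j c) (SF_EW1 H hw B'))).mono ?_
  have h1 : 0 ≤ (1 + 1 / m) * (s * w) :=
    mul_nonneg (by linarith [H.K2]) (mul_nonneg hs0 hw)
  have h2 := mul_le_mul_of_nonneg_right H.K2 h1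
  nlinarith

private theorem SF_dT1 {d : Dat} (H : DH d lam g σ c m r0 r)
    (B : BH lam m w r ζ E W) (B' : BH lam m w r ζ' E' W')
    (hζ : DZ lam m r ζ ζ' s) (hE : ∀ j, Bd 1 r (E j - E' j) (s * w))
    (hW : ∀ j, Bd 1 r (W j - W' j) (s * w)) (j : Fin 2) :
    Bd 0 r (2 * mulv (LL d ζ) (E + W) j - 2 * mulv (LL d ζ') (E' + W') j)
      (156 * (s * (g * w))) := by
  rw [← mul_sub, SF_mulv_sub]
  refine (SF_two ((SF_mulv (SF_r0 H) (fun c => H.bd_LL0 B.z j c)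
    (fun c => (SF_dEW1 hE hW c).weaken (Nat.zero_le _) fun _ => le_rfl)).add
    (SF_mulv (SF_r0 H) (fun c => H.lip_LL0 B.z B'.z hζ j c) (SF_EW0 B')))).mono ?_
  linarith

private theorem SF_dT2 {d : Dat} (H : DH d lam g σ c m r0 r)
    (B : BH lam m w r ζ E W) (B' : BH lam m w r ζ' E' W')
    (hζ : DZ lam m r ζ ζ' s) (hE : ∀ j, Bd 1 r (E j - E' j) (s * w))
    (hW : ∀ j, Bd 1 r (W j - W' j) (s * w)) (j : Fin 2) :
    Bd 0 r (adv d.κ (E + W) (mulv (FF d ζ) E) j - adv d.κ (E' + W') (mulv (FF d ζ') E') j)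
      (748 * (1 + 1 / m) * (s * (lam * w * w))) := by
  rw [SF_adv_sub]
  refine ((SF_adv (SF_r0 H) H.kb
      (fun c => (SF_dEW1 hE hW c).weaken (Nat.zero_le _) fun _ => le_rfl) (SF_FE H B j)).add
    (SF_adv (SF_r0 H) H.kb (SF_EW0 B') (SF_dFE H B B' hζ hE j))).mono ?_
  exact le_of_eq (by ring)

private theorem SF_dT3 {d : Dat} (H : DH d lam g σ c m r0 r) (hw : 0 ≤ w) (hs0 : 0 ≤ s)
    (B : BH lam m w r ζ E W) (B' : BH lam m w r ζ' E' W')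
    (hζ : DZ lam m r ζ ζ' s) (hE : ∀ j, Bd 1 r (E j - E' j) (s * w))
    (hW : ∀ j, Bd 1 r (W j - W' j) (s * w)) (j : Fin 2) :
    Bd 0 r (adv d.κ W (mulv (FF d ζ) (E + W)) j - adv d.κ W' (mulv (FF d ζ') (E' + W')) j)
      (19260 * (1 + 1 / m) ^ 2 * (s * (lam * w * w))) := by
  rw [SF_adv_sub]
  refine ((SF_adv (x := W - W') (SF_r0 H) H.kb
      (fun c => (hW c).weaken (Nat.zero_le _) fun _ => le_rfl) (SF_FEW H hw B j)).add
    (SF_adv (SF_r0 H) H.kb B'.w0 (SF_dFEW H hw hs0 B B' hζ hE hW j))).mono ?_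
  exact le_of_eq (by ring)

private theorem SF_dT4 (H : DH P.d lam g σ c m r0 r) (hw : 0 ≤ w) (hs0 : 0 ≤ s)
    (B : BH lam m w r ζ E W) (B' : BH lam m w r ζ' E' W')
    (hζ : DZ lam m r ζ ζ' s) (hE : ∀ j, Bd 1 r (E j - E' j) (s * w))
    (hW : ∀ j, Bd 1 r (W j - W' j) (s * w)) (j : Fin 2) :
    Bd 0 r (P.bet W * mulv (FF P.d ζ) (fun c => ES.dth P.d.i (E c + W c)) j -
        P.bet W' * mulv (FF P.d ζ') (fun c => ES.dth P.d.i (E' c + W' c)) j)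
      (479 * (1 + 1 / m) ^ 2 * (s * (lam * w * w))) := by
  have e : ∀ x x' y y' : WT, x * y - x' * y' = (x - x') * y + x' * (y - y') := by
    intro x x' y y'; ring
  rw [e, SF_bet_sub, SF_mulv_sub]
  have h1 : Bd 0 r (P.bet (W - W')) (2 * lam * (s * w)) := SF_bet H.kb hW
  have h2 : ∀ c, Bd 0 r (((fun c => ES.dth P.d.i (E c + W c)) -
      fun c => ES.dth P.d.i (E' c + W' c)) c) (2 * (s * w)) := by
    intro c
    have := (SF_dEW1 hE hW c).dth P.d.i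
    have e2 : ((fun c => ES.dth P.d.i (E c + W c)) -
      fun c => ES.dth P.d.i (E' c + W' c)) c = ES.dth P.d.i ((E + W - (E' + W')) c) := by
      simp only [Pi.sub_apply, Pi.add_apply, map_sub]
    rw [e2]; exact this
  refine ((h1.mul (SF_r0 H) (SF_Fdth H hw B P.d.i j)).add
    ((SF_bet H.kb B'.w1).mul (SF_r0 H) ((H.mulv_F0 B.z h2 j).add
      (SF_mulv (SF_r0 H) (fun c => H.lip_FF0 B.z B'.z hζ j c) (SF_dth H hw B' P.d.i))))).mono ?_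
  have hl := H.hlam
  have hK := H.K2
  have hX : 0 ≤ s * (lam * w * w) := by positivity
  have hKX : 0 ≤ (1 + 1 / m) * (s * (lam * w * w)) := mul_nonneg (by linarith) hX
  have h3 := mul_le_mul_of_nonneg_right hK hKX
  have h4 : 0 ≤ (1 + 1 / m) ^ 2 * (s * (lam * w * w)) := mul_nonneg (sq_nonneg _) hX
  nlinarith

private theorem SF_dT5 {d : Dat} (H : DH d lam g σ c m r0 r) (hσ : σ ≤ w ^ 2) (hs0 : 0 ≤ s)
    (B : BH lam m w r ζ E W) (B' : BH lam m w r ζ' E' W')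
    (hζ : DZ lam m r ζ ζ' s) (j : Fin 2) :
    Bd 0 r (dvm d.κ (mulT (RR d ζ) (MM d ζ)) j - dvm d.κ (mulT (RR d ζ') (MM d ζ')) j)
      (6 * (1 + 1 / m) ^ 2 * (s * (lam * w * w))) := by
  refine (H.lip_dvm B.z B'.z hζ j).mono ?_
  have h1 : 0 ≤ 6 * s * (1 + 1 / m) ^ 2 * lam := by
    have := H.hlam
    positivity
  calc 6 * s * (1 + 1 / m) ^ 2 * lam * σ ≤ 6 * s * (1 + 1 / m) ^ 2 * lam * w ^ 2 :=
        mul_le_mul_of_nonneg_left hσ h1
    _ = _ := by ring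

theorem f_lip (H : DH P.d lam g σ c m r0 r) (hw : 0 ≤ w) (hlw : lam * w ≤ g) (hσ : σ ≤ w ^ 2)
    (B : BH lam m w r ζ E W) (B' : BH lam m w r ζ' E' W') (hs0 : 0 ≤ s)
    (hζ : DZ lam m r ζ ζ' s) (hE : ∀ j, Bd 1 r (E j - E' j) (s * w))
    (hW : ∀ j, Bd 1 r (W j - W' j) (s * w)) (j : Fin 2) :
    Bd 0 r (P.f ζ E W j - P.f ζ' E' W' j) (10 ^ 5 * s * (1 + 1 / m) ^ 2 * g * w) := by
  have h := (((SF_dT1 H B B' hζ hE hW j).neg.sub (SF_dT2 H B B' hζ hE hW j)).sub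
    ((SF_dT3 H hw hs0 B B' hζ hE hW j).add (SF_dT4 H hw hs0 B B' hζ hE hW j))).sub
    (SF_dT5 H hσ hs0 B B' hζ j)
  have e : P.f ζ E W j - P.f ζ' E' W' j =
      -(2 * mulv (LL P.d ζ) (E + W) j - 2 * mulv (LL P.d ζ') (E' + W') j) -
      (adv P.d.κ (E + W) (mulv (FF P.d ζ) E) j - adv P.d.κ (E' + W') (mulv (FF P.d ζ') E') j) -
      (adv P.d.κ W (mulv (FF P.d ζ) (E + W)) j - adv P.d.κ W' (mulv (FF P.d ζ') (E' + W')) j +
      (P.bet W * mulv (FF P.d ζ) (fun c => ES.dth P.d.i (E c + W c)) j -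
        P.bet W' * mulv (FF P.d ζ') (fun c => ES.dth P.d.i (E' c + W' c)) j)) -
      (dvm P.d.κ (mulT (RR P.d ζ) (MM P.d ζ)) j -
        dvm P.d.κ (mulT (RR P.d ζ') (MM P.d ζ')) j) := by
    unfold SB.f; ring
  rw [e]
  refine Bd.mono h ?_
  have hl := H.hlam
  have h1 := SF_num (K := 1 + 1 / m) (X := s * (lam * w * w)) (Y := s * (g * w)) H.K2
    (by positivity) (mul_le_mul_of_nonneg_left (mul_le_mul_of_nonneg_right hlw hw) hs0)
    (c0 := 156) (c1 := 748) (c2 := 19745) (C := 10 ^ 5)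
    (by norm_num) (by norm_num) (by norm_num) (by norm_num)
  linarith

theorem g_bd (H : DH P.d lam g σ c m r0 r) (hw : 0 ≤ w) (hlw : lam * w ≤ g) (hσ : σ ≤ w ^ 2)
    (B : BH lam m w r ζ E W) {α : ℝ} (ha : ∀ j, Bd 0 r (a j) α) (hq : ∀ j, Bd 0 r (q j) α)
    (j : Fin 2) :
    Bd 0 r (P.g ζ E W a q j) (10 ^ 5 * (1 + 1 / m) ^ 2 * g * w + 12 / 250 * α) := by
  have h := ((f_bd H hw hlw hσ B j).sub (H.mulv_FI B.z ha j)).sub (H.mulvT_MI B.z hq j)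
  exact Bd.mono h (by linarith)

theorem g_lip (H : DH P.d lam g σ c m r0 r) (hw : 0 ≤ w) (hlw : lam * w ≤ g) (hσ : σ ≤ w ^ 2)
    (B : BH lam m w r ζ E W) (B' : BH lam m w r ζ' E' W') (hs0 : 0 ≤ s)
    (hζ : DZ lam m r ζ ζ' s) (hE : ∀ j, Bd 1 r (E j - E' j) (s * w))
    (hW : ∀ j, Bd 1 r (W j - W' j) (s * w)) {α : ℝ} (ha : ∀ j, Bd 0 r (a j) α)
    (hq : ∀ j, Bd 0 r (q j) α) (ha' : ∀ j, Bd 0 r (a j - a' j) (s * α))
    (hq' : ∀ j, Bd 0 r (q j - q' j) (s * α)) (j : Fin 2) :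
    Bd 0 r (P.g ζ E W a q j - P.g ζ' E' W' a' q' j)
      (10 ^ 5 * s * (1 + 1 / m) ^ 2 * g * w + 12 / 250 * (s * α) + 4 / 900 * (s * α)) := by
  have e : P.g ζ E W a q j - P.g ζ' E' W' a' q' j =
      (P.f ζ E W j - P.f ζ' E' W' j) -
      ((mulv (FF P.d ζ') (a - a') j - (a - a') j) +
        mulv (fun a b => FF P.d ζ a b - FF P.d ζ' a b) a j) -
      ((mulvT (MM P.d ζ') (q - q') j - (q - q') j) +
        mulvT (fun a b => MM P.d ζ a b - MM P.d ζ' a b) q j) := by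
    simp only [SB.g, mulv, mulvT, Fin.sum_univ_two, Pi.sub_apply]; ring
  rw [e]
  have h1 := f_lip H hw hlw hσ B B' hs0 hζ hE hW j
  have h2 := H.mulv_FI B'.z (x := a - a') ha' j
  have h3 := SF_mulv (a := j) (X := fun a b => FF P.d ζ a b - FF P.d ζ' a b) (SF_r0 H)
    (fun c => H.lip_FF0 B.z B'.z hζ j c) ha
  have h4 := H.mulvT_MI B'.z (x := q - q') hq' j
  have h5 := SF_mulvT (a := j) (X := fun a b => MM P.d ζ a b - MM P.d ζ' a b) (SF_r0 H)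
    (fun c => H.lip_MM0 B.z B'.z hζ c j) hq
  refine Bd.mono ((h1.sub (h2.add h3)).sub (h4.add h5)) ?_
  linarith

/-- Mean part of `f` (uses `Lev P.d.i` for `ζ`, `E` and the data, so that `F'`, `LL`, `M'`, `RR`
have no oscillating part, and `mean W = 0`). -/
theorem f_mean_bd (H : DH P.d lam g σ c m r0 r) (hw : 0 ≤ w) (hlw : lam * w ≤ g)
    (hσ : σ ≤ w ^ 2) (B : BH lam m w r ζ E W)
    (hlev : (∀ j, osc P.d.i (ζ j) = 0) ∧ (∀ j, osc P.d.i (E j) = 0) ∧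
      (∀ j, mean P.d.i (W j) = 0) ∧ (∀ a b, osc P.d.i (FF P.d ζ a b) = 0) ∧
      (∀ a b, osc P.d.i (LL P.d ζ a b) = 0) ∧ (∀ a b, osc P.d.i (RR P.d ζ a b) = 0))
    {e : ℝ} (he : ∀ j, Bd 1 r (E j) e) (j : Fin 2) :
    Bd 0 r (mean P.d.i (P.f ζ E W j))
      (8 * g * e + 12 * (1 + 1 / m) * lam * e ^ 2 + 10 ^ 5 * (1 + 1 / m) ^ 2 * lam * w ^ 2) := by
  obtain ⟨-, hoE, hmW, hoF, hoL, -⟩ := hlev
  have hmE : ∀ c, ES.mean P.d.i (E c) = E c := fun c => mean_of_osc (hoE c)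
  -- the mean of `X * W c` vanishes if `X` has no oscillating part
  have hz : ∀ (X : WT) (c : Fin 2), osc P.d.i X = 0 → ES.mean P.d.i (X * W c) = 0 := by
    intro X c hX
    rw [mean_mul_left _ hX, hmW c, mul_zero]
  have hFE : ∀ a, osc P.d.i (mulv (FF P.d ζ) E a) = 0 := by
    intro a
    simp only [mulv, Fin.sum_univ_two, map_add]
    rw [osc_mul_zero _ (hoF a 0) (hoE 0), osc_mul_zero _ (hoF a 1) (hoE 1), add_zero]
  have hDFE : ∀ a b, osc P.d.i (ES.D P.d.κ b (mulv (FF P.d ζ) E a)) = 0 := by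
    intro a b
    rw [osc_D, hFE, map_zero]
  -- first term
  have e1 : ES.mean P.d.i (2 * mulv (LL P.d ζ) (E + W) j) = 2 * mulv (LL P.d ζ) E j := by
    have : 2 * mulv (LL P.d ζ) (E + W) j = (2 * mulv (LL P.d ζ) E j) +
        (LL P.d ζ j 0 * W 0 + LL P.d ζ j 0 * W 0) + (LL P.d ζ j 1 * W 1 + LL P.d ζ j 1 * W 1) := by
      simp only [mulv, Fin.sum_univ_two, Pi.add_apply]; ring
    rw [this]
    simp only [map_add]
    rw [hz _ 0 (hoL j 0), hz _ 1 (hoL j 1)]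
    have h3 : ES.mean P.d.i (2 * mulv (LL P.d ζ) E j) = 2 * mulv (LL P.d ζ) E j := by
      apply mean_of_osc
      rw [two_mul, map_add]
      simp only [mulv, Fin.sum_univ_two, map_add]
      rw [osc_mul_zero _ (hoL j 0) (hoE 0), osc_mul_zero _ (hoL j 1) (hoE 1)]
      simp
    rw [h3]; ring
  -- second term
  have e2 : ES.mean P.d.i (adv P.d.κ (E + W) (mulv (FF P.d ζ) E) j) =
      adv P.d.κ E (mulv (FF P.d ζ) E) j := by
    have : adv P.d.κ (E + W) (mulv (FF P.d ζ) E) j = adv P.d.κ E (mulv (FF P.d ζ) E) j +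
        (ES.D P.d.κ 0 (mulv (FF P.d ζ) E j) * W 0 + ES.D P.d.κ 1 (mulv (FF P.d ζ) E j) * W 1) := by
      simp only [adv, Fin.sum_univ_two, Pi.add_apply]; ring
    rw [this]
    simp only [map_add]
    rw [hz _ 0 (hDFE j 0), hz _ 1 (hDFE j 1)]
    have h3 : ES.mean P.d.i (adv P.d.κ E (mulv (FF P.d ζ) E) j) =
        adv P.d.κ E (mulv (FF P.d ζ) E) j := by
      apply mean_of_osc
      simp only [adv, Fin.sum_univ_two]
      rw [map_add, osc_mul_zero _ (hoE 0) (hDFE j 0), osc_mul_zero _ (hoE 1) (hDFE j 1), add_zero]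
    rw [h3]; ring
  -- third term
  have e3 : ES.mean P.d.i (adv P.d.κ W (mulv (FF P.d ζ) (E + W)) j) =
      ES.mean P.d.i (adv P.d.κ W (mulv (FF P.d ζ) W) j) := by
    have h0 : mulv (FF P.d ζ) (E + W) = mulv (FF P.d ζ) E + mulv (FF P.d ζ) W := by
      funext a
      simp only [mulv, Fin.sum_univ_two, Pi.add_apply]; ring
    have : adv P.d.κ W (mulv (FF P.d ζ) (E + W)) j = adv P.d.κ W (mulv (FF P.d ζ) W) j +
        (ES.D P.d.κ 0 (mulv (FF P.d ζ) E j) * W 0 + ES.D P.d.κ 1 (mulv (FF P.d ζ) E j) * W 1) := by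
      rw [h0]
      simp only [adv, Fin.sum_univ_two, Pi.add_apply, map_add]; ring
    rw [this]
    simp only [map_add]
    rw [hz _ 0 (hDFE j 0), hz _ 1 (hDFE j 1)]
    ring
  have hf : ES.mean P.d.i (P.f ζ E W j) =
      -(2 * mulv (LL P.d ζ) E j) - adv P.d.κ E (mulv (FF P.d ζ) E) j -
      (ES.mean P.d.i (adv P.d.κ W (mulv (FF P.d ζ) W) j) +
      ES.mean P.d.i (P.bet W * mulv (FF P.d ζ) (fun c => ES.dth P.d.i (E c + W c)) j)) -
      ES.mean P.d.i (dvm P.d.κ (mulT (RR P.d ζ) (MM P.d ζ)) j) := by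
    rw [← e1, ← e2, ← e3]
    unfold SB.f
    simp only [map_sub, map_add, map_neg]
  rw [hf]
  have he0 : ∀ j, Bd 0 r (E j) e := fun j => (he j).weaken (Nat.zero_le _) fun _ => le_rfl
  have h1 := SF_two (SF_mulv (SF_r0 H) (fun c => H.bd_LL0 B.z j c) he0)
  have h2 := SF_adv (SF_r0 H) H.kb he0 (H.mulv_F1 B.z he j)
  have h3 := (SF_adv (SF_r0 H) H.kb B.w0 (H.mulv_F1 B.z B.w1 j)).mean P.d.i
  have h4 := (SF_T4 H hw B j).mean P.d.i
  have h5 := (SF_T5 H hσ B j).mean P.d.i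
  refine Bd.mono (((h1.neg.sub h2).sub (h3.add h4)).sub h5) ?_
  have hl := H.hlam
  have h6 : 0 ≤ (1 + 1 / m) ^ 2 * (lam * w * w) := by positivity
  nlinarith

end

end ES
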