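import Pool.Agent.ES.LAlg
import Pool.Agent.ES.LMul
import Pool.Agent.ES.LTime
import Pool.Agent.ES.LBd
import Pool.Agent.ES.LReal
import Pool.Agent.ES.LEv
import Pool.Agent.ES.LCompA
import Pool.Agent.ES.LCompB
import Pool.Agent.ES.LCompC
import Pool.Agent.ES.LPic

/-!
Project ES: data on a time interval, the sub-block system.

`Dat` : an Euler-Reynolds flow in moving (volume preserving) coordinates `X = id + ξ`,
   coordinate velocity `U = ∂_t ξ`, velocity `v`, pressure `p`, Reynolds stress `R`,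
   all seen as elements of `WT` (functions on a lifted torus, frequencies `κ`, variables `< i`).
   `F = I + Dξ`, `M = adj F = F⁻¹`, `B = M (v - U)`,
   equation  `∂_t v + (B·D) v + Mᵀ D p = D·(R Mᵀ)`.
-/

open scoped BoundedContinuousFunction

namespace ES

abbrev Vec := Fin 2 → WT
abbrev Mat := Fin 2 → Fin 2 → WT

/-- Identity matrix. -/
noncomputable def idm : Mat := fun a b => if a = b then 1 else 0

/-- Gradient of a vector field: `(grad ξ) a b = D_b ξ_a`. -/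
noncomputable def grad (κ : Kp) (ξ : Vec) : Mat := fun a b => D κ b (ξ a)

/-- Adjugate of a 2x2 matrix. -/
noncomputable def adj (F : Mat) : Mat := fun a b =>
  if a = 0 then (if b = 0 then F 1 1 else -F 0 1) else (if b = 0 then -F 1 0 else F 0 0)

/-- Determinant. -/
noncomputable def det2 (F : Mat) : WT := F 0 0 * F 1 1 - F 0 1 * F 1 0

/-- `F x`. -/
noncomputable def mulv (F : Mat) (x : Vec) : Vec := fun a => ∑ b, F a b * x b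

/-- `Mᵀ q`. -/
noncomputable def mulvT (M : Mat) (q : Vec) : Vec := fun a => ∑ j, M j a * q j

/-- Divergence. -/
noncomputable def dvg (κ : Kp) (x : Vec) : WT := ∑ a, D κ a (x a)

/-- `(x·D) y`. -/
noncomputable def adv (κ : Kp) (x y : Vec) : Vec := fun a => ∑ b, x b * D κ b (y a)

/-- `Mᵀ D p`. -/
noncomputable def gradT (κ : Kp) (M : Mat) (p : WT) : Vec := mulvT M fun j => D κ j p

/-- Row divergence of a matrix: `a ↦ ∑_j D_j X_{a j}`. -/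
noncomputable def dvm (κ : Kp) (X : Mat) : Vec := fun a => ∑ j, D κ j (X a j)

/-- `R Mᵀ`. -/
noncomputable def mulT (R M : Mat) : Mat := fun a j => ∑ k, R a k * M j k

/-- `I + Dξ`. -/
noncomputable def Fm (κ : Kp) (ξ : Vec) : Mat := fun a b => idm a b + grad κ ξ a b

/-- Data on a time interval. -/
structure Dat where
  κ : Kp
  i : ℕ
  ξ : Vec
  U : Vec
  v : Vec
  p : WT
  R : Mat

namespace Dat

noncomputable def F (d : Dat) : Mat := Fm d.κ d.ξ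
noncomputable def M (d : Dat) : Mat := adj d.F
noncomputable def B (d : Dat) : Vec := mulv d.M (d.v - d.U)
noncomputable def G (d : Dat) : Mat := grad d.κ d.v
/-- Material acceleration `-Mᵀ D p + D·(R Mᵀ)`. -/
noncomputable def acc (d : Dat) : Vec := fun a => -gradT d.κ d.M d.p a + dvm d.κ (mulT d.R d.M) a
/-- Right hand side of `∂_t v = ...`. -/
noncomputable def rhs (d : Dat) : Vec := fun a => d.acc a - adv d.κ d.B d.v a

/-- Restriction to a smaller time interval (clamping). -/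
noncomputable def tcl (d : Dat) (a b : ℝ) : Dat where
  κ := d.κ
  i := d.i
  ξ j := ES.tcl a b (d.ξ j)
  U j := ES.tcl a b (d.U j)
  v j := ES.tcl a b (d.v j)
  p := ES.tcl a b d.p
  R j k := ES.tcl a b (d.R j k)

end Dat

/-- Good data on `[t0,t1]` with frequency bound `lam`, gradient bound `g`, relative velocity bound
`g/lam`, stress bound `σ`, radius `ρ`, deformation bound `c`, acceleration bound `A`. -/
structure Good (d : Dat) (t0 t1 lam g σ ρ c A : ℝ) : Prop where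
  ht : t0 < t1
  kb : KB d.κ lam
  k0 : ∀ a j, d.i ≤ j → d.κ.k a j = 0
  levξ : ∀ a, Lev d.i (d.ξ a)
  levU : ∀ a, Lev d.i (d.U a)
  levv : ∀ a, Lev d.i (d.v a)
  levp : Lev d.i d.p
  levR : ∀ a b, Lev d.i (d.R a b)
  rξ : ∀ a, IsR (d.ξ a)
  rU : ∀ a, IsR (d.U a)
  rv : ∀ a, IsR (d.v a)
  rp : IsR d.p
  rR : ∀ a b, IsR (d.R a b)
  cξ : ∀ a, Cl t0 t1 (d.ξ a)
  cU : ∀ a, Cl t0 t1 (d.U a)
  cv : ∀ a, Cl t0 t1 (d.v a)
  cp : Cl t0 t1 d.p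
  cR : ∀ a b, Cl t0 t1 (d.R a b)
  fξ : ∀ a, Fin0 ρ (d.ξ a)
  fU : ∀ a, Fin0 ρ (d.U a)
  fv : ∀ a, Fin0 ρ (d.v a)
  fp : Fin0 ρ d.p
  symm : ∀ a b, d.R a b = d.R b a
  tdξ : ∀ a, TD t0 t1 (d.ξ a) (d.U a)
  tdv : ∀ a, TD t0 t1 (d.v a) (d.rhs a)
  det : det2 d.F = 1
  div : dvg d.κ d.B = 0
  bF : ∀ a b, Bd 0 (cr ρ) (grad d.κ d.ξ a b) c
  bB : ∀ a, Bd 0 (cr ρ) (d.B a) (g / lam)
  bG : ∀ a b, Bd 0 (cr ρ) (d.G a b) g
  bR : ∀ a b, Bd 0 (cr ρ) (d.R a b) σ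
  bA : ∀ a, Bd 0 (cr ρ) (d.acc a) A

/-! ### The sub-block system -/

/-- Parameters of a sub-block `[ta,tb]`, with ramps `[ta,s1]` and `[s2,tb]`, wave frequency `L`,
direction `k0`, amplitude `b`, initial values `ζa`, `Ea`. -/
structure SB where
  d : Dat
  ta : ℝ
  s1 : ℝ
  s2 : ℝ
  tb : ℝ
  L : ℕ
  k0 : Fin 2 → ℤ
  b : WT
  ζa : Vec
  Ea : Vec

/-- `sin θ_i`. -/
noncomputable def sn (i : ℕ) : WT :=
  (2 * Complex.I)⁻¹ • (eb (Finsupp.single i 1) - eb (Finsupp.single i (-1)))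

/-- `cos θ_i`. -/
noncomputable def cs (i : ℕ) : WT :=
  (2 : ℂ)⁻¹ • (eb (Finsupp.single i 1) + eb (Finsupp.single i (-1)))

/-- Trapezoidal cutoff: `0` outside `(ta,tb)`, `1` on `[s1,s2]`, linear in between. -/
noncomputable def trapR (ta s1 s2 tb t : ℝ) : ℝ :=
  max 0 (min 1 (min ((t - ta) / (s1 - ta)) ((tb - t) / (tb - s2))))

theorem trapR_nonneg (ta s1 s2 tb t : ℝ) : 0 ≤ trapR ta s1 s2 tb t := le_max_left _ _

theorem trapR_le_one (ta s1 s2 tb t : ℝ) : trapR ta s1 s2 tb t ≤ 1 :=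
  max_le zero_le_one (min_le_left _ _)

theorem trapR_continuous (ta s1 s2 tb : ℝ) : Continuous (trapR ta s1 s2 tb) := by
  unfold trapR; fun_prop

/-- The cutoff as a coefficient. -/
noncomputable def trap (ta s1 s2 tb : ℝ) : Ct :=
  BoundedContinuousFunction.ofNormedAddCommGroup (fun t => ((trapR ta s1 s2 tb t : ℝ) : ℂ))
    (Complex.continuous_ofReal.comp (trapR_continuous ta s1 s2 tb)) 1 (by
      intro t
      rw [Complex.norm_real, Real.norm_eq_abs, abs_of_nonneg (trapR_nonneg _ _ _ _ _)]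
      exact trapR_le_one _ _ _ _ _)

theorem trap_apply (ta s1 s2 tb t : ℝ) : trap ta s1 s2 tb t = ((trapR ta s1 s2 tb t : ℝ) : ℂ) := rfl

/-! Derived functions of the unknown `ζ`. -/

/-- `P = I + Dζ`. -/
noncomputable def Pm (d : Dat) (ζ : Vec) : Mat := Fm d.κ ζ

/-- `F` in the new coordinates: `F^ζ (I + Dζ)`. -/
noncomputable def FF (d : Dat) (ζ : Vec) : Mat := fun a b =>
  ∑ c, comp d.κ ζ (d.F a c) * Pm d ζ c b

/-- `M` in the new coordinates. -/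
noncomputable def MM (d : Dat) (ζ : Vec) : Mat := adj (FF d ζ)

/-- `D(v^ζ)`. -/
noncomputable def LL (d : Dat) (ζ : Vec) : Mat := fun a b =>
  ∑ c, comp d.κ ζ (d.G a c) * Pm d ζ c b

/-- `R^ζ`. -/
noncomputable def RR (d : Dat) (ζ : Vec) : Mat := fun a b => comp d.κ ζ (d.R a b)

/-- `v^ζ`. -/
noncomputable def vz (d : Dat) (ζ : Vec) : Vec := fun a => comp d.κ ζ (d.v a)

namespace SB

/-- New frequencies. -/
noncomputable def κ' (P : SB) : Kp := upd P.d.κ P.d.i fun a => (P.L : ℤ) * P.k0 a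

/-- Cutoff. -/
noncomputable def χ (P : SB) : Ct := trap P.ta P.s1 P.s2 P.tb

/-- Initial wave `D'^⊥ (L⁻¹ √2 b sin θ)`. -/
noncomputable def W0 (P : SB) : Vec := fun a =>
  ((P.L : ℂ)⁻¹) • dp P.κ' a (((Real.sqrt 2 : ℝ) : ℂ) • (P.b * sn P.d.i))

/-- `β = -∂_θ⁻¹ (D·W)`. -/
noncomputable def bet (P : SB) (W : Vec) : WT := -ith P.d.i (dvg P.d.κ W)

/-- The right hand side `f`. -/
noncomputable def f (P : SB) (ζ E W : Vec) : Vec := fun a =>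
  -(2 * mulv (LL P.d ζ) (E + W) a)
  - adv P.d.κ (E + W) (mulv (FF P.d ζ) E) a
  - (adv P.d.κ W (mulv (FF P.d ζ) (E + W)) a
      + P.bet W * mulv (FF P.d ζ) (fun c => dth P.d.i (E c + W c)) a)
  - dvm P.d.κ (mulT (RR P.d ζ) (MM P.d ζ)) a

/-- `g = f - (F - I) a - (Mᵀ - I) q`. -/
noncomputable def g (P : SB) (ζ E W a q : Vec) : Vec := fun j =>
  P.f ζ E W j - (mulv (FF P.d ζ) a j - a j) - (mulvT (MM P.d ζ) q j - q j)

/-- The sub-block system. -/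
structure Sol (P : SB) (ζ E W a q : Vec) : Prop where
  hζ : ∀ j, ζ j = P.ζa j + intg P.ta P.tb (comp P.d.κ ζ (P.d.B j) + mulv (Pm P.d ζ) E j)
  hE : ∀ j, E j = P.Ea j + intg P.ta P.tb (mean P.d.i (a j))
  hW : ∀ j, W j = cst P.χ * (P.W0 j + intg P.s1 P.s2 (osc P.d.i (a j)))
  ha : ∀ j, a j = ∑ b, Ps P.κ' j b (P.g ζ E W a q b)
  hq : ∀ j, q j = ∑ b, Pg P.κ' j b (P.g ζ E W a q b)

/-- The radius function of the sub-block. -/
noncomputable def r (P : SB) (ρ0 m : ℝ) : ℝ → ℝ := rad ρ0 m P.ta P.tb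

end SB

/-- Hypotheses for a sub-block.  `w` = bound for the wave amplitude, `m` = loss of radius,
`η` = bound for the initial mean perturbation. -/
structure SBH (P : SB) (lam g σ ρ c A ρ0 m w η : ℝ) : Prop where
  good : Good P.d P.ta P.tb lam g σ ρ c A
  h1 : P.ta < P.s1
  h2 : P.s1 < P.s2
  h3 : P.s2 < P.tb
  hm : 0 < m
  hm1 : m ≤ 1
  hρ : ρ ≤ 2
  hρ0 : 2 * m ≤ ρ0
  hρ1 : ρ0 + 2 * m ≤ ρ
  hlam : 1 ≤ lam
  hw : 0 < w
  hlw : lam * w ≤ g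
  hσ0 : 0 ≤ σ
  hσ : σ ≤ w ^ 2
  hc : c ≤ 1 / 100
  hL : lam * (1 + 1 / m) ≤ P.L
  hk : ∀ a, |P.k0 a| ≤ 2
  bb : Bd 0 (cr (ρ0 + m)) P.b w
  bl : Lev P.d.i P.b
  br : IsR P.b
  bt : ∀ t₀, frz t₀ P.b = P.b
  zb : ∀ j, Bd 2 (cr ρ0) (P.ζa j) (1 / (1024 * lam * (1 + 1 / m)))
  zl : ∀ j, Lev P.d.i (P.ζa j)
  zr : ∀ j, IsR (P.ζa j)
  zt : ∀ j t₀, frz t₀ (P.ζa j) = P.ζa j
  zd : det2 (Fm P.d.κ P.ζa) = 1
  hη0 : 0 ≤ η
  hη : η ≤ w
  eb' : ∀ j, Bd 1 (cr ρ0) (P.Ea j) η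
  el : ∀ j, Lev P.d.i (P.Ea j)
  er : ∀ j, IsR (P.Ea j)
  et : ∀ j t₀, frz t₀ (P.Ea j) = P.Ea j
  ed : dvg P.d.κ P.Ea = 0
  ez : ∀ j, Pnz P.d.κ (P.Ea j) = P.Ea j

/-- Regularity and bounds of a solution of the sub-block system, `K = 1 + 1/m`, `h = tb - ta`. -/
structure SBR (P : SB) (C0 lam g ρ0 m w η : ℝ) (ζ E W a q : Vec) : Prop where
  sol : P.Sol ζ E W a q
  lζ : ∀ j, Lev P.d.i (ζ j)
  lE : ∀ j, Lev P.d.i (E j)
  lW : ∀ j, Lev (P.d.i + 1) (W j)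
  la : ∀ j, Lev (P.d.i + 1) (a j)
  lq : ∀ j, Lev (P.d.i + 1) (q j)
  mW : ∀ j, mean P.d.i (W j) = 0
  rζ : ∀ j, IsR (ζ j)
  rE : ∀ j, IsR (E j)
  rW : ∀ j, IsR (W j)
  ra : ∀ j, IsR (a j)
  rq : ∀ j, IsR (q j)
  cζ : ∀ j, Cl P.ta P.tb (ζ j)
  cE : ∀ j, Cl P.ta P.tb (E j)
  cW : ∀ j, Cl P.ta P.tb (W j)
  ca : ∀ j, Cl P.ta P.tb (a j)
  cq : ∀ j, Cl P.ta P.tb (q j)
  b0 : P.b = 0 → ∀ j, W j = 0 ∧ osc P.d.i (a j) = 0 ∧ osc P.d.i (q j) = 0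
  nζ : ∀ j, Bd 2 (P.r ρ0 m) (ζ j - P.ζa j) (C0 * (1 + 1 / m) ^ 2 * (P.tb - P.ta) * g / lam)
  nζ' : ∀ j, Bd 2 (P.r ρ0 m) (ζ j) (1 / (256 * lam * (1 + 1 / m)))
  nE : ∀ j, Bd 1 (P.r ρ0 m) (E j)
    (2 * η + C0 * (1 + 1 / m) ^ 4 * (P.tb - P.ta) * lam * w ^ 2)
  nE' : ∀ j, Bd 1 (P.r ρ0 m) (E j) (2 * w)
  nW1 : ∀ j, Bd 1 (P.r ρ0 m) (W j) (C0 * (1 + 1 / m) * w)
  nW0 : ∀ j, Bd 0 (P.r ρ0 m) (W j) (C0 * w)
  nWW : ∀ j, Bd 1 (P.r ρ0 m) (W j - cst P.χ * P.W0 j)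
    (C0 * (1 + 1 / m) ^ 4 * (P.tb - P.ta) * g * w)
  nWt : ∀ j, Bd 0 (P.r ρ0 m) (dth P.d.i (W j)) (C0 * w)
  na : ∀ j, Bd 0 (P.r ρ0 m) (a j) (C0 * (1 + 1 / m) ^ 4 * g * w)
  nq : ∀ j, Bd 0 (P.r ρ0 m) (q j) (C0 * (1 + 1 / m) ^ 4 * g * w)
  nam : ∀ j, Bd 0 (P.r ρ0 m) (mean P.d.i (a j)) (C0 * (g * η + (1 + 1 / m) ^ 4 * lam * w ^ 2))
  nqm : ∀ j, Bd 0 (P.r ρ0 m) (mean P.d.i (q j)) (C0 * (g * η + (1 + 1 / m) ^ 4 * lam * w ^ 2))

end ES
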