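import Pool.Agent.ES.Ifc

/-!
ES-V01 (Part II, helper27): closure facts for the derived quantities of good data.
Everything follows from the closure lemmas `IsR.*` (LReal), `Cl.*` (LTime), unfolding
`Dat.F, Dat.M, Dat.B, Dat.G, Dat.acc, Dat.rhs` and the operations of `Sys`
(`fin_cases` on indices, `Finset` sums over `Fin 2`).
-/

namespace ES

theorem isR_idm (a b : Fin 2) : IsR (idm a b) := by
  unfold idm
  split_ifs
  · exact IsR.one
  · exact IsR.zero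

theorem isR_Fm {κ : Kp} {ξ : Vec} (h : ∀ a, IsR (ξ a)) (a b : Fin 2) : IsR (Fm κ ξ a b) := by
  unfold Fm grad
  exact (isR_idm a b).add (h a).D

theorem isR_adj {F : Mat} (h : ∀ a b, IsR (F a b)) (a b : Fin 2) : IsR (adj F a b) := by
  unfold adj
  split_ifs
  · exact h 1 1
  · exact (h 0 1).neg
  · exact (h 1 0).neg
  · exact h 0 0

theorem isR_mulv {F : Mat} {x : Vec} (h : ∀ a b, IsR (F a b)) (hx : ∀ a, IsR (x a)) (a : Fin 2) :
    IsR (mulv F x a) := by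
  unfold mulv
  exact IsR.sum _ fun b _ => (h a b).mul (hx b)

theorem isR_mulvT {F : Mat} {x : Vec} (h : ∀ a b, IsR (F a b)) (hx : ∀ a, IsR (x a)) (a : Fin 2) :
    IsR (mulvT F x a) := by
  unfold mulvT
  exact IsR.sum _ fun b _ => (h b a).mul (hx b)

theorem isR_dvg {κ : Kp} {x : Vec} (hx : ∀ a, IsR (x a)) : IsR (dvg κ x) := by
  unfold dvg
  exact IsR.sum _ fun b _ => (hx b).D

theorem isR_adv {κ : Kp} {x y : Vec} (hx : ∀ a, IsR (x a)) (hy : ∀ a, IsR (y a)) (a : Fin 2) :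
    IsR (adv κ x y a) := by
  unfold adv
  exact IsR.sum _ fun b _ => (hx b).mul (hy a).D

theorem isR_gradT {κ : Kp} {M : Mat} {p : WT} (h : ∀ a b, IsR (M a b)) (hp : IsR p) (a : Fin 2) :
    IsR (gradT κ M p a) := by
  unfold gradT
  exact isR_mulvT h (fun _ => hp.D) a

theorem isR_dvm {κ : Kp} {X : Mat} (h : ∀ a b, IsR (X a b)) (a : Fin 2) : IsR (dvm κ X a) := by
  unfold dvm
  exact IsR.sum _ fun b _ => (h a b).D

theorem isR_mulT {R M : Mat} (h : ∀ a b, IsR (R a b)) (h' : ∀ a b, IsR (M a b)) (a b : Fin 2) :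
    IsR (mulT R M a b) := by
  unfold mulT
  exact IsR.sum _ fun c _ => (h a c).mul (h' b c)

theorem cl_idm (s t : ℝ) (a b : Fin 2) : Cl s t (idm a b) := by
  unfold idm
  split_ifs
  · exact Cl.one s t
  · exact Cl.zero s t

theorem cl_Fm {s t : ℝ} {κ : Kp} {ξ : Vec} (h : ∀ a, Cl s t (ξ a)) (a b : Fin 2) :
    Cl s t (Fm κ ξ a b) := by
  unfold Fm grad
  exact (cl_idm s t a b).add ((h a).D κ b)

theorem cl_adj {s t : ℝ} {F : Mat} (h : ∀ a b, Cl s t (F a b)) (a b : Fin 2) :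
    Cl s t (adj F a b) := by
  unfold adj
  split_ifs
  · exact h 1 1
  · exact (h 0 1).neg
  · exact (h 1 0).neg
  · exact h 0 0

theorem cl_mulv {s t : ℝ} {F : Mat} {x : Vec} (h : ∀ a b, Cl s t (F a b))
    (hx : ∀ a, Cl s t (x a)) (a : Fin 2) : Cl s t (mulv F x a) := by
  unfold mulv
  exact Cl.sum _ fun b _ => (h a b).mul (hx b)

theorem cl_dvg {s t : ℝ} {κ : Kp} {x : Vec} (hx : ∀ a, Cl s t (x a)) : Cl s t (dvg κ x) := by
  unfold dvg
  exact Cl.sum _ fun b _ => (hx b).D κ b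

theorem cl_det2 {s t : ℝ} {F : Mat} (h : ∀ a b, Cl s t (F a b)) : Cl s t (det2 F) := by
  unfold det2
  exact ((h 0 0).mul (h 1 1)).sub ((h 0 1).mul (h 1 0))

namespace Good

variable {d : Dat} {t0 t1 lam g σ ρ c A : ℝ}

theorem isR_F (h : Good d t0 t1 lam g σ ρ c A) (a b : Fin 2) : IsR (d.F a b) := isR_Fm h.rξ a b

theorem isR_M (h : Good d t0 t1 lam g σ ρ c A) (a b : Fin 2) : IsR (d.M a b) :=
  isR_adj h.isR_F a b

theorem isR_B (h : Good d t0 t1 lam g σ ρ c A) (a : Fin 2) : IsR (d.B a) :=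
  isR_mulv h.isR_M (fun c => (h.rv c).sub (h.rU c)) a

theorem isR_G (h : Good d t0 t1 lam g σ ρ c A) (a b : Fin 2) : IsR (d.G a b) := by
  unfold Dat.G grad
  exact (h.rv a).D

theorem isR_acc (h : Good d t0 t1 lam g σ ρ c A) (a : Fin 2) : IsR (d.acc a) := by
  unfold Dat.acc
  exact (isR_gradT h.isR_M h.rp a).neg.add (isR_dvm (isR_mulT h.rR h.isR_M) a)

theorem isR_rhs (h : Good d t0 t1 lam g σ ρ c A) (a : Fin 2) : IsR (d.rhs a) := by
  unfold Dat.rhs
  exact (h.isR_acc a).sub (isR_adv h.isR_B h.rv a)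

theorem cl_F (h : Good d t0 t1 lam g σ ρ c A) (a b : Fin 2) : Cl t0 t1 (d.F a b) :=
  cl_Fm h.cξ a b

theorem cl_M (h : Good d t0 t1 lam g σ ρ c A) (a b : Fin 2) : Cl t0 t1 (d.M a b) :=
  cl_adj h.cl_F a b

end Good

end ES
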