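import Pool.Agent.ES.V01

/-!
ES-V02 (Part II, helper27): identities of good data in `WT`.

* `piolaM`: `M = adj (I + Dξ)`, so `∑_j D_j M_{j0} = D_0 F_11 - D_1 F_10 = D_0 D_1 ξ_1 - D_1 D_0 ξ_1 = 0`
  (`D_comm`), similarly for the second column.
* `FM`, `MF`: adjugate identities with `det2 F = 1`.
* `FB`: `B = M (v - U)` and `F M = 1`.
* `dvg_MU`: by `tdξ`, `TD.D`, `TD.mul`: `det2 F` has the time derivative
  `∑_{a,j} M_{ja} D_j U_a` (2x2 computation), which equals `dvg (M U)` by `piolaM` and `D_mul`.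
  As `det2 F = 1`, this derivative is zero on `(t0,t1)` (`TD.unique` with `TD.one`), all terms being
  clamped (`Good.cl_M`, `cU`, `cl_mulv`, `cl_dvg`).
* `dvg_Mv`: `M v = B + M U` and `h.div`.
-/

namespace ES

private theorem v02_F00 (d : Dat) : d.F 0 0 = 1 + D d.κ 0 (d.ξ 0) := by
  simp [Dat.F, Fm, idm, grad]

private theorem v02_F01 (d : Dat) : d.F 0 1 = D d.κ 1 (d.ξ 0) := by
  simp [Dat.F, Fm, idm, grad]

private theorem v02_F10 (d : Dat) : d.F 1 0 = D d.κ 0 (d.ξ 1) := by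
  simp [Dat.F, Fm, idm, grad]

private theorem v02_F11 (d : Dat) : d.F 1 1 = 1 + D d.κ 1 (d.ξ 1) := by
  simp [Dat.F, Fm, idm, grad]

private theorem v02_M00 (d : Dat) : d.M 0 0 = d.F 1 1 := by simp [Dat.M, adj]

private theorem v02_M01 (d : Dat) : d.M 0 1 = -d.F 0 1 := by simp [Dat.M, adj]

private theorem v02_M10 (d : Dat) : d.M 1 0 = -d.F 1 0 := by simp [Dat.M, adj]

private theorem v02_M11 (d : Dat) : d.M 1 1 = d.F 0 0 := by simp [Dat.M, adj]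

private theorem v02_p0 (d : Dat) : D d.κ 0 (d.F 1 1) - D d.κ 1 (d.F 1 0) = 0 := by
  rw [v02_F11, v02_F10, map_add, D_one, D_comm d.κ d.κ 0 1, zero_add, sub_self]

private theorem v02_p1 (d : Dat) : D d.κ 1 (d.F 0 0) - D d.κ 0 (d.F 0 1) = 0 := by
  rw [v02_F00, v02_F01, map_add, D_one, D_comm d.κ d.κ 0 1, zero_add, sub_self]

theorem piolaM (d : Dat) (a : Fin 2) : ∑ j, D d.κ j (d.M j a) = 0 := by
  rw [Fin.sum_univ_two]
  fin_cases a
  · show D d.κ 0 (d.M 0 0) + D d.κ 1 (d.M 1 0) = 0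
    rw [v02_M00, v02_M10, map_neg, ← sub_eq_add_neg]
    exact v02_p0 d
  · show D d.κ 0 (d.M 0 1) + D d.κ 1 (d.M 1 1) = 0
    rw [v02_M01, v02_M11, map_neg, neg_add_eq_sub]
    exact v02_p1 d

/-- Product rule for a divergence. -/
theorem dvg_smul (κ : Kp) (f : WT) (x : Vec) :
    dvg κ (fun a => f * x a) = f * dvg κ x + ∑ a, D κ a f * x a := by
  unfold dvg
  rw [Finset.mul_sum, ← Finset.sum_add_distrib]
  refine Finset.sum_congr rfl fun a _ => ?_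
  rw [D_mul]
  ring

namespace Good

variable {d : Dat} {t0 t1 lam g σ ρ c A : ℝ}

theorem FM (h : Good d t0 t1 lam g σ ρ c A) (a b : Fin 2) :
    ∑ j, d.F a j * d.M j b = if a = b then 1 else 0 := by
  have hd := h.det
  unfold det2 at hd
  rw [Fin.sum_univ_two]
  fin_cases a <;> fin_cases b
  · show d.F 0 0 * d.M 0 0 + d.F 0 1 * d.M 1 0 = if (0 : Fin 2) = 0 then 1 else 0
    rw [v02_M00, v02_M10, if_pos rfl, ← hd]
    ring
  · show d.F 0 0 * d.M 0 1 + d.F 0 1 * d.M 1 1 = if (0 : Fin 2) = 1 then 1 else 0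
    rw [v02_M01, v02_M11, if_neg (by decide)]
    ring
  · show d.F 1 0 * d.M 0 0 + d.F 1 1 * d.M 1 0 = if (1 : Fin 2) = 0 then 1 else 0
    rw [v02_M00, v02_M10, if_neg (by decide)]
    ring
  · show d.F 1 0 * d.M 0 1 + d.F 1 1 * d.M 1 1 = if (1 : Fin 2) = 1 then 1 else 0
    rw [v02_M01, v02_M11, if_pos rfl, ← hd]
    ring

theorem MF (h : Good d t0 t1 lam g σ ρ c A) (a b : Fin 2) :
    ∑ j, d.M a j * d.F j b = if a = b then 1 else 0 := by
  have hd := h.det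
  unfold det2 at hd
  rw [Fin.sum_univ_two]
  fin_cases a <;> fin_cases b
  · show d.M 0 0 * d.F 0 0 + d.M 0 1 * d.F 1 0 = if (0 : Fin 2) = 0 then 1 else 0
    rw [v02_M00, v02_M01, if_pos rfl, ← hd]
    ring
  · show d.M 0 0 * d.F 0 1 + d.M 0 1 * d.F 1 1 = if (0 : Fin 2) = 1 then 1 else 0
    rw [v02_M00, v02_M01, if_neg (by decide)]
    ring
  · show d.M 1 0 * d.F 0 0 + d.M 1 1 * d.F 1 0 = if (1 : Fin 2) = 0 then 1 else 0
    rw [v02_M10, v02_M11, if_neg (by decide)]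
    ring
  · show d.M 1 0 * d.F 0 1 + d.M 1 1 * d.F 1 1 = if (1 : Fin 2) = 1 then 1 else 0
    rw [v02_M10, v02_M11, if_pos rfl, ← hd]
    ring

theorem FB (h : Good d t0 t1 lam g σ ρ c A) (a : Fin 2) :
    ∑ j, d.F a j * d.B j = d.v a - d.U a := by
  have hB : ∀ j, d.B j = ∑ b, d.M j b * (d.v b - d.U b) := fun j => rfl
  simp_rw [hB, Finset.mul_sum]
  rw [Finset.sum_comm]
  have h1 : ∀ b, ∑ j, d.F a j * (d.M j b * (d.v b - d.U b)) =
      (if a = b then 1 else 0) * (d.v b - d.U b) := by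
    intro b
    rw [← h.FM a b, Finset.sum_mul]
    exact Finset.sum_congr rfl fun j _ => by ring
  simp_rw [h1]
  rw [Finset.sum_eq_single a]
  · rw [if_pos rfl, one_mul]
  · intro b _ hb
    rw [if_neg (Ne.symm hb), zero_mul]
  · intro h2
    exact absurd (Finset.mem_univ a) h2

theorem dvg_MU (h : Good d t0 t1 lam g σ ρ c A) : dvg d.κ (mulv d.M d.U) = 0 := by
  have e : dvg d.κ (mulv d.M d.U) =
      (D d.κ 0 (d.U 0) * d.F 1 1 + d.F 0 0 * D d.κ 1 (d.U 1)) -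
        (D d.κ 1 (d.U 0) * d.F 1 0 + d.F 0 1 * D d.κ 0 (d.U 1)) := by
    have e1 : dvg d.κ (mulv d.M d.U) = D d.κ 0 (d.M 0 0 * d.U 0 + d.M 0 1 * d.U 1) +
        D d.κ 1 (d.M 1 0 * d.U 0 + d.M 1 1 * d.U 1) := by
      simp only [dvg, mulv, Fin.sum_univ_two]
    rw [e1, v02_M00, v02_M01, v02_M10, v02_M11]
    simp only [map_add, D_mul, map_neg]
    have p0 := v02_p0 d
    have p1 := v02_p1 d
    linear_combination d.U 0 * p0 + d.U 1 * p1
  have hF00 : TD t0 t1 (d.F 0 0) (D d.κ 0 (d.U 0)) := by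
    rw [v02_F00]
    have := (TD.one t0 t1).add ((h.tdξ 0).D d.κ 0)
    rwa [zero_add] at this
  have hF11 : TD t0 t1 (d.F 1 1) (D d.κ 1 (d.U 1)) := by
    rw [v02_F11]
    have := (TD.one t0 t1).add ((h.tdξ 1).D d.κ 1)
    rwa [zero_add] at this
  have hF01 : TD t0 t1 (d.F 0 1) (D d.κ 1 (d.U 0)) := by
    rw [v02_F01]
    exact (h.tdξ 0).D d.κ 1
  have hF10 : TD t0 t1 (d.F 1 0) (D d.κ 0 (d.U 1)) := by
    rw [v02_F10]
    exact (h.tdξ 1).D d.κ 0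
  have hdet : TD t0 t1 (det2 d.F) (dvg d.κ (mulv d.M d.U)) := by
    have h1 := (hF00.mul hF11).sub (hF01.mul hF10)
    rw [e]
    exact h1
  rw [h.det] at hdet
  have hcl : Cl t0 t1 (dvg d.κ (mulv d.M d.U)) :=
    cl_dvg (fun a => cl_mulv (fun a b => h.cl_M a b) h.cU a)
  exact TD.unique h.ht hdet (TD.one t0 t1) hcl (Cl.zero t0 t1)

theorem dvg_Mv (h : Good d t0 t1 lam g σ ρ c A) : dvg d.κ (mulv d.M d.v) = 0 := by
  have e : dvg d.κ (mulv d.M d.v) = dvg d.κ d.B + dvg d.κ (mulv d.M d.U) := by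
    simp only [dvg, Dat.B, mulv, Fin.sum_univ_two, Pi.sub_apply]
    have e1 : d.M 0 0 * (d.v 0 - d.U 0) + d.M 0 1 * (d.v 1 - d.U 1) +
        (d.M 0 0 * d.U 0 + d.M 0 1 * d.U 1) = d.M 0 0 * d.v 0 + d.M 0 1 * d.v 1 := by ring
    have e2 : d.M 1 0 * (d.v 0 - d.U 0) + d.M 1 1 * (d.v 1 - d.U 1) +
        (d.M 1 0 * d.U 0 + d.M 1 1 * d.U 1) = d.M 1 0 * d.v 0 + d.M 1 1 * d.v 1 := by ring
    rw [← e1, ← e2]
    simp only [map_add]
    ring
  rw [e, h.div, h.dvg_MU, add_zero]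

end Good

end ES
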