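import Pool.Agent.ES.V02

/-!
ES-V03 (Part II, helper27): pointwise values of the matrices and the coordinate map `Xm`.

Use `LEv` (`ev_*`, `evR_add`, `evR_mul`, `abs_evR_le`, `hasFDerivAt_evR`, `continuous_evR`,
`evR_periodic`) and the `WT` identities of V02 evaluated at a point.
For the bounds: `abs_evR_le` needs `Bd 0 r f c` with `r ≥ 0`; here `r = cr ρ`, `ρ ≥ 0`.
`M - I`: `M_{00} - 1 = F_{11} - 1`, `M_{01} = -F_{01}` etc.
`det`: `ContinuousLinearMap.det`, `LinearMap.det_toLin'`/`LinearMap.det_pi`-style computation in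
dimension 2, value `F00 F11 - F01 F10 = 1` (evaluate `h.det`).
`hasStrictFDerivAt_Xm`: `hasStrictFDerivAt_of_hasFDerivAt_of_continuousAt` and `continuous_evR`.
-/

namespace ES

theorem evR_zero (κ : Kp) (z : Fin 2 → ℝ) (t : ℝ) : evR κ 0 z t = 0 := by
  unfold evR
  rw [ev_zero, Complex.zero_re]

theorem evR_one (κ : Kp) (z : Fin 2 → ℝ) (t : ℝ) : evR κ 1 z t = 1 := by
  unfold evR
  rw [ev_one, Complex.one_re]

theorem evR_neg (κ : Kp) (f : WT) (z : Fin 2 → ℝ) (t : ℝ) : evR κ (-f) z t = -evR κ f z t := by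
  unfold evR
  rw [ev_neg, Complex.neg_re]

theorem evR_sub (κ : Kp) (f g : WT) (z : Fin 2 → ℝ) (t : ℝ) :
    evR κ (f - g) z t = evR κ f z t - evR κ g z t := by
  unfold evR
  rw [ev_sub, Complex.sub_re]

theorem evR_sum (κ : Kp) {ι : Type*} (s : Finset ι) (f : ι → WT) (z : Fin 2 → ℝ) (t : ℝ) :
    evR κ (∑ j ∈ s, f j) z t = ∑ j ∈ s, evR κ (f j) z t := by
  unfold evR
  rw [ev_sum, Complex.re_sum]

theorem evR_tcomp (κ : Kp) (g : C(ℝ, ℝ)) (f : WT) (z : Fin 2 → ℝ) (t : ℝ) :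
    evR κ (tcomp g f) z t = evR κ f z (g t) := by
  unfold evR
  rw [ev_tcomp]

/-- The trivial bound by the sum of the norms of the coefficients. -/
theorem abs_evR_le_tsum (κ : Kp) (f : WT) (z : Fin 2 → ℝ) (t : ℝ) :
    |evR κ f z t| ≤ ∑' ν, ‖f.co ν‖ := by
  refine abs_evR_le (r := cr 0) (fun _ => le_refl _) ?_ z t
  refine ⟨fun ν => ‖f.co ν‖, fun _ => norm_nonneg _, rapid_norm f.rapid, le_refl _, ?_⟩
  intro ν t
  rw [pow_zero, one_mul, show cr 0 t = 0 from rfl, zero_mul, Real.exp_zero, one_mul]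
  exact (f.co ν).norm_coe_le_norm t

theorem Xm_apply (d : Dat) (t : ℝ) (z : Fin 2 → ℝ) (a : Fin 2) :
    Xm d t z a = z a + evR d.κ (d.ξ a) z t := rfl

theorem Xm_periodic (d : Dat) (t : ℝ) (z : Fin 2 → ℝ) (n : Fin 2 → ℤ) :
    Xm d t (fun a => z a + 2 * Real.pi * n a) = fun a => Xm d t z a + 2 * Real.pi * n a := by
  funext a
  rw [Xm_apply, Xm_apply, evR_periodic]
  ring

theorem continuous_Xm (d : Dat) : Continuous fun p : (Fin 2 → ℝ) × ℝ => Xm d p.2 p.1 := by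
  refine continuous_pi fun a => ?_
  exact ((continuous_apply a).comp continuous_fst).add (continuous_evR d.κ (d.ξ a))

/-- Derivative of `Xm`. -/
noncomputable def DX (d : Dat) (t : ℝ) (z : Fin 2 → ℝ) : (Fin 2 → ℝ) →L[ℝ] (Fin 2 → ℝ) :=
  ContinuousLinearMap.pi fun a =>
    ∑ b, evR d.κ (d.F a b) z t • (ContinuousLinearMap.proj b : (Fin 2 → ℝ) →L[ℝ] ℝ)

/-- Inverse of the derivative of `Xm`. -/
noncomputable def DY (d : Dat) (t : ℝ) (z : Fin 2 → ℝ) : (Fin 2 → ℝ) →L[ℝ] (Fin 2 → ℝ) :=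
  ContinuousLinearMap.pi fun a =>
    ∑ b, evR d.κ (d.M a b) z t • (ContinuousLinearMap.proj b : (Fin 2 → ℝ) →L[ℝ] ℝ)

theorem DX_apply (d : Dat) (t : ℝ) (z w : Fin 2 → ℝ) (a : Fin 2) :
    DX d t z w a = ∑ b, evR d.κ (d.F a b) z t * w b := by
  simp [DX]

theorem DY_apply (d : Dat) (t : ℝ) (z w : Fin 2 → ℝ) (a : Fin 2) :
    DY d t z w a = ∑ b, evR d.κ (d.M a b) z t * w b := by
  simp [DY]

private theorem v03_idm (κ : Kp) (a b : Fin 2) (z : Fin 2 → ℝ) (t : ℝ) :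
    evR κ (idm a b) z t = if a = b then 1 else 0 := by
  unfold idm
  split_ifs
  · exact evR_one _ _ _
  · exact evR_zero _ _ _

private theorem v03_F (d : Dat) (a b : Fin 2) (z : Fin 2 → ℝ) (t : ℝ) :
    evR d.κ (d.F a b) z t - (if a = b then 1 else 0) = evR d.κ (grad d.κ d.ξ a b) z t := by
  have h1 : d.F a b = idm a b + grad d.κ d.ξ a b := rfl
  rw [h1, evR_add, v03_idm]
  ring

namespace Good

variable {d : Dat} {t0 t1 lam g σ ρ c A : ℝ}

theorem evR_FM (h : Good d t0 t1 lam g σ ρ c A) (a b : Fin 2) (z : Fin 2 → ℝ) (t : ℝ) :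
    ∑ j, evR d.κ (d.F a j) z t * evR d.κ (d.M j b) z t = if a = b then 1 else 0 := by
  have h1 := congrArg (fun f => evR d.κ f z t) (h.FM a b)
  simp only [evR_sum] at h1
  simp only [evR_mul (h.isR_F a _) (h.isR_M _ b)] at h1
  rw [h1]
  split_ifs
  · exact evR_one _ _ _
  · exact evR_zero _ _ _

theorem evR_MF (h : Good d t0 t1 lam g σ ρ c A) (a b : Fin 2) (z : Fin 2 → ℝ) (t : ℝ) :
    ∑ j, evR d.κ (d.M a j) z t * evR d.κ (d.F j b) z t = if a = b then 1 else 0 := by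
  have h1 := congrArg (fun f => evR d.κ f z t) (h.MF a b)
  simp only [evR_sum] at h1
  simp only [evR_mul (h.isR_M a _) (h.isR_F _ b)] at h1
  rw [h1]
  split_ifs
  · exact evR_one _ _ _
  · exact evR_zero _ _ _

theorem evR_FB (h : Good d t0 t1 lam g σ ρ c A) (a : Fin 2) (z : Fin 2 → ℝ) (t : ℝ) :
    ∑ j, evR d.κ (d.F a j) z t * evR d.κ (d.B j) z t
      = evR d.κ (d.v a) z t - evR d.κ (d.U a) z t := by
  have h1 := congrArg (fun f => evR d.κ f z t) (h.FB a)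
  simp only [evR_sum, evR_sub] at h1
  simp only [evR_mul (h.isR_F a _) (h.isR_B _)] at h1
  exact h1

theorem abs_F_sub (h : Good d t0 t1 lam g σ ρ c A) (hρ : 0 ≤ ρ) (a b : Fin 2) (z : Fin 2 → ℝ)
    (t : ℝ) : |evR d.κ (d.F a b) z t - (if a = b then 1 else 0)| ≤ c := by
  rw [v03_F]
  exact abs_evR_le (r := cr ρ) (fun _ => hρ) (h.bF a b) z t

theorem abs_M_sub (h : Good d t0 t1 lam g σ ρ c A) (hρ : 0 ≤ ρ) (a b : Fin 2) (z : Fin 2 → ℝ)
    (t : ℝ) : |evR d.κ (d.M a b) z t - (if a = b then 1 else 0)| ≤ c := by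
  have h00 := h.abs_F_sub hρ 0 0 z t
  have h01 := h.abs_F_sub hρ 0 1 z t
  have h10 := h.abs_F_sub hρ 1 0 z t
  have h11 := h.abs_F_sub hρ 1 1 z t
  simp at h00 h01 h10 h11
  have m00 : d.M 0 0 = d.F 1 1 := by simp [Dat.M, adj]
  have m01 : d.M 0 1 = -d.F 0 1 := by simp [Dat.M, adj]
  have m10 : d.M 1 0 = -d.F 1 0 := by simp [Dat.M, adj]
  have m11 : d.M 1 1 = d.F 0 0 := by simp [Dat.M, adj]
  fin_cases a <;> fin_cases b
  · simp [m00]
    exact h11
  · simp [m01, evR_neg]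
    exact h01
  · simp [m10, evR_neg]
    exact h10
  · simp [m11]
    exact h00

theorem abs_B (h : Good d t0 t1 lam g σ ρ c A) (hρ : 0 ≤ ρ) (a : Fin 2) (z : Fin 2 → ℝ)
    (t : ℝ) : |evR d.κ (d.B a) z t| ≤ g / lam := by
  exact abs_evR_le (r := cr ρ) (fun _ => hρ) (h.bB a) z t

theorem abs_G (h : Good d t0 t1 lam g σ ρ c A) (hρ : 0 ≤ ρ) (a b : Fin 2) (z : Fin 2 → ℝ)
    (t : ℝ) : |evR d.κ (D d.κ b (d.v a)) z t| ≤ g := by
  exact abs_evR_le (r := cr ρ) (fun _ => hρ) (h.bG a b) z t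

theorem abs_R (h : Good d t0 t1 lam g σ ρ c A) (hρ : 0 ≤ ρ) (a b : Fin 2) (z : Fin 2 → ℝ)
    (t : ℝ) : |evR d.κ (d.R a b) z t| ≤ σ := by
  exact abs_evR_le (r := cr ρ) (fun _ => hρ) (h.bR a b) z t

theorem abs_acc (h : Good d t0 t1 lam g σ ρ c A) (hρ : 0 ≤ ρ) (a : Fin 2) (z : Fin 2 → ℝ)
    (t : ℝ) : |evR d.κ (d.acc a) z t| ≤ A := by
  exact abs_evR_le (r := cr ρ) (fun _ => hρ) (h.bA a) z t

theorem DX_DY (h : Good d t0 t1 lam g σ ρ c A) (t : ℝ) (z w : Fin 2 → ℝ) :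
    DX d t z (DY d t z w) = w := by
  funext a
  rw [DX_apply]
  simp only [DY_apply, Fin.sum_univ_two]
  have h0 := h.evR_FM a 0 z t
  have h1 := h.evR_FM a 1 z t
  rw [Fin.sum_univ_two] at h0 h1
  fin_cases a
  · simp at h0 h1 ⊢
    linear_combination w 0 * h0 + w 1 * h1
  · simp at h0 h1 ⊢
    linear_combination w 0 * h0 + w 1 * h1

theorem DY_DX (h : Good d t0 t1 lam g σ ρ c A) (t : ℝ) (z w : Fin 2 → ℝ) :
    DY d t z (DX d t z w) = w := by
  funext a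
  rw [DY_apply]
  simp only [DX_apply, Fin.sum_univ_two]
  have h0 := h.evR_MF a 0 z t
  have h1 := h.evR_MF a 1 z t
  rw [Fin.sum_univ_two] at h0 h1
  fin_cases a
  · simp at h0 h1 ⊢
    linear_combination w 0 * h0 + w 1 * h1
  · simp at h0 h1 ⊢
    linear_combination w 0 * h0 + w 1 * h1

theorem det_DX (h : Good d t0 t1 lam g σ ρ c A) (t : ℝ) (z : Fin 2 → ℝ) :
    (DX d t z).det = 1 := by
  have h1 : (DX d t z).toLinearMap =
      Matrix.toLin' (Matrix.of fun a b => evR d.κ (d.F a b) z t) := by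
    refine LinearMap.ext fun w => ?_
    funext a
    rw [Matrix.toLin'_apply]
    change DX d t z w a = _
    rw [DX_apply]
    rfl
  have h2 := congrArg (fun f => evR d.κ f z t) h.det
  simp only [det2, evR_sub, evR_one, evR_mul (h.isR_F _ _) (h.isR_F _ _)] at h2
  change LinearMap.det (DX d t z).toLinearMap = 1
  rw [h1, LinearMap.det_toLin', Matrix.det_fin_two]
  exact h2

end Good

theorem hasFDerivAt_Xm (d : Dat) (t : ℝ) (z : Fin 2 → ℝ) :
    HasFDerivAt (Xm d t) (DX d t z) z := by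
  rw [hasFDerivAt_pi']
  intro a
  have h1 : HasFDerivAt (fun z : Fin 2 → ℝ => z a)
      (ContinuousLinearMap.proj a : (Fin 2 → ℝ) →L[ℝ] ℝ) z :=
    (ContinuousLinearMap.proj a : (Fin 2 → ℝ) →L[ℝ] ℝ).hasFDerivAt
  have h2 := h1.add (hasFDerivAt_evR d.κ (d.ξ a) z t)
  have h3 : (ContinuousLinearMap.proj a : (Fin 2 → ℝ) →L[ℝ] ℝ).comp (DX d t z) =
      (ContinuousLinearMap.proj a : (Fin 2 → ℝ) →L[ℝ] ℝ) +
        ∑ b : Fin 2, evR d.κ (D d.κ b (d.ξ a)) z t •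
          (ContinuousLinearMap.proj b : (Fin 2 → ℝ) →L[ℝ] ℝ) := by
    refine ContinuousLinearMap.ext fun w => ?_
    change DX d t z w a = _
    have h4 : ∀ b, evR d.κ (d.F a b) z t =
        (if a = b then 1 else 0) + evR d.κ (D d.κ b (d.ξ a)) z t := by
      intro b
      have h5 := v03_F d a b z t
      change _ = evR d.κ (D d.κ b (d.ξ a)) z t at h5
      linarith
    rw [DX_apply]
    simp only [h4, Fin.sum_univ_two]
    fin_cases a
    · simp
      ring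
    · simp
      ring
  rw [h3]
  exact h2

theorem hasStrictFDerivAt_Xm (d : Dat) (t : ℝ) (z : Fin 2 → ℝ) :
    HasStrictFDerivAt (Xm d t) (DX d t z) z := by
  refine hasStrictFDerivAt_of_hasFDerivAt_of_continuousAt
    (Filter.Eventually.of_forall fun y => hasFDerivAt_Xm d t y) ?_
  have h1 : DX d t = fun y => ∑ a : Fin 2, ∑ b : Fin 2, evR d.κ (d.F a b) y t •
      ((ContinuousLinearMap.single ℝ (fun _ : Fin 2 => ℝ) a).comp
        (ContinuousLinearMap.proj b : (Fin 2 → ℝ) →L[ℝ] ℝ)) := by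
    funext y
    refine ContinuousLinearMap.ext fun w => ?_
    funext c
    rw [DX_apply]
    fin_cases c
    · simp [Fin.sum_univ_two]
    · simp [Fin.sum_univ_two]
  rw [h1]
  refine Continuous.continuousAt ?_
  refine continuous_finsetSum _ fun a _ => continuous_finsetSum _ fun b _ => ?_
  have hc : Continuous fun y : Fin 2 → ℝ => evR d.κ (d.F a b) y t :=
    (continuous_evR d.κ (d.F a b)).comp (continuous_id.prodMk continuous_const)
  exact hc.smul continuous_const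

end ES
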