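import Pool.Agent.ES.V04

/-!
ES-V05 (Part II, helper27): Eulerian derivatives at a fixed time.

`f` represents `G` at time `t` if `G ∘ X_t = evR f · t`.  Then `∂_b G` is represented by
`ED d b f = ∑_j M_{jb} D_j f`.
Proof: `G = (evR f · t) ∘ Y_t` with `Y_t = X_t⁻¹` continuous (`Good.exists_inv`), so
`HasFDerivAt.of_local_left_inverse` (with the equivalence built from `DX`, `DY`, `Good.DX_DY`,
`Good.DY_DX`) gives the derivative `DY d t z` of `Y_t` at `X_t z`; chain rule with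
`hasFDerivAt_evR`.  `contDiff`: induction on `n` with `contDiff_succ_iff_fderiv` (or
`contDiff_succ_iff_hasFDerivAt`); the derivative is a combination of the functions represented by
`ED d b f`; for `n = 0` continuity.
-/

namespace ES

/-- `f` represents the scalar function `G` at time `t`. -/
def RepT (d : Dat) (t : ℝ) (G : (Fin 2 → ℝ) → ℝ) (f : WT) : Prop :=
  ∀ z, G (Xm d t z) = evR d.κ f z t

/-- Eulerian derivative. -/
noncomputable def ED (d : Dat) (b : Fin 2) (f : WT) : WT := ∑ j, d.M j b * D d.κ j f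

theorem gradT_eq_ED (d : Dat) (p : WT) (a : Fin 2) : gradT d.κ d.M p a = ED d a p := rfl

private theorem v05_lin (L : (Fin 2 → ℝ) →L[ℝ] ℝ) (v : Fin 2 → ℝ) :
    L v = ∑ b, v b * L (Pi.single b 1) := by
  have h : v = v 0 • Pi.single (0 : Fin 2) (1 : ℝ) + v 1 • Pi.single (1 : Fin 2) (1 : ℝ) := by
    funext j
    fin_cases j <;> simp
  have h2 : L (v 0 • Pi.single (0 : Fin 2) (1 : ℝ) + v 1 • Pi.single (1 : Fin 2) (1 : ℝ))
      = v 0 * L (Pi.single 0 1) + v 1 * L (Pi.single 1 1) := by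
    rw [map_add, map_smul, map_smul, smul_eq_mul, smul_eq_mul]
  rw [← h] at h2
  rw [h2, Fin.sum_univ_two]

private theorem v05_sum_apply (c : Fin 2 → ℝ) (w : Fin 2 → ℝ) :
    (∑ b, c b • (ContinuousLinearMap.proj b : (Fin 2 → ℝ) →L[ℝ] ℝ)) w = ∑ b, c b * w b := by
  rw [Fin.sum_univ_two, Fin.sum_univ_two]
  rfl

section

variable {d : Dat} {t0 t1 lam g σ ρ c A : ℝ}

theorem Good.isR_ED (h : Good d t0 t1 lam g σ ρ c A) (b : Fin 2) {f : WT} (hf : IsR f) :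
    IsR (ED d b f) := IsR.sum _ fun j _ => (h.isR_M j b).mul hf.D

/-- Derivative of the inverse map. -/
private theorem v05_inv (h : Good d t0 t1 lam g σ ρ c A) {t : ℝ} {Y : (Fin 2 → ℝ) → (Fin 2 → ℝ)}
    (h1 : ∀ x, Xm d t (Y x) = x) (h2 : ∀ z, Y (Xm d t z) = z) (hY : Continuous Y)
    (z : Fin 2 → ℝ) : HasFDerivAt Y (DY d t z) (Xm d t z) := by
  have hX := hasFDerivAt_Xm d t z
  have e : HasFDerivAt Y (((ContinuousLinearEquiv.equivOfInverse (DX d t z) (DY d t z)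
      (h.DY_DX t z) (h.DX_DY t z)).symm : (Fin 2 → ℝ) ≃L[ℝ] (Fin 2 → ℝ)) :
      (Fin 2 → ℝ) →L[ℝ] (Fin 2 → ℝ)) (Xm d t z) := by
    refine HasFDerivAt.of_local_left_inverse hY.continuousAt (f := Xm d t) ?_
      (Filter.Eventually.of_forall h1)
    rw [h2]
    exact hX
  exact e

theorem RepT.hasFDerivAt (h : Good d t0 t1 lam g σ ρ c A) (hρ : 0 ≤ ρ) (hc : c ≤ 1 / 10) {t : ℝ}
    {G : (Fin 2 → ℝ) → ℝ} {f : WT} (hf : IsR f) (hG : RepT d t G f) (z : Fin 2 → ℝ) :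
    HasFDerivAt G (∑ b, evR d.κ (ED d b f) z t • (ContinuousLinearMap.proj b : (Fin 2 → ℝ) →L[ℝ] ℝ))
      (Xm d t z) := by
  obtain ⟨Y, h1, h2, h3⟩ := h.exists_inv hρ hc
  have hYc : Continuous (Y t) :=
    h3.comp (continuous_id.prodMk (continuous_const (y := t)))
  have hY := v05_inv h (h1 t) (h2 t) hYc z
  have hE : G = fun x => evR d.κ f (Y t x) t := by
    funext x
    rw [← hG (Y t x), h1]
  have hf1 : HasFDerivAt (fun z => evR d.κ f z t)
      (∑ a : Fin 2, evR d.κ (D d.κ a f) z t • (ContinuousLinearMap.proj a : (Fin 2 → ℝ) →L[ℝ] ℝ))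
      (Y t (Xm d t z)) := by
    rw [h2]
    exact hasFDerivAt_evR d.κ f z t
  have hc1 := hf1.comp (Xm d t z) hY
  rw [hE]
  refine HasFDerivAt.congr_fderiv hc1 ?_
  refine ContinuousLinearMap.ext fun w => ?_
  rw [ContinuousLinearMap.comp_apply, v05_sum_apply, v05_sum_apply]
  have h4 : ∀ b, evR d.κ (ED d b f) z t
      = ∑ j, evR d.κ (d.M j b) z t * evR d.κ (D d.κ j f) z t := by
    intro b
    unfold ED
    rw [evR_sum]
    exact Finset.sum_congr rfl fun j _ => evR_mul (h.isR_M j b) hf.D z t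
  have h5 : ∀ a, DY d t z w a = ∑ b, evR d.κ (d.M a b) z t * w b := fun a => DY_apply d t z w a
  simp only [h4, h5, Fin.sum_univ_two]
  ring

theorem RepT.fderiv (h : Good d t0 t1 lam g σ ρ c A) (hρ : 0 ≤ ρ) (hc : c ≤ 1 / 10) {t : ℝ}
    {G : (Fin 2 → ℝ) → ℝ} {f : WT} (hf : IsR f) (hG : RepT d t G f) (b : Fin 2) :
    RepT d t (fun x => _root_.fderiv ℝ G x (Pi.single b 1)) (ED d b f) := by
  intro z
  show _root_.fderiv ℝ G (Xm d t z) (Pi.single b 1) = _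
  rw [(RepT.hasFDerivAt h hρ hc hf hG z).fderiv, v05_sum_apply, Finset.sum_eq_single b]
  · rw [Pi.single_eq_same, mul_one]
  · intro j _ hj
    rw [Pi.single_eq_of_ne hj, mul_zero]
  · intro hb
    exact absurd (Finset.mem_univ b) hb

private theorem v05_diff (h : Good d t0 t1 lam g σ ρ c A) (hρ : 0 ≤ ρ) (hc : c ≤ 1 / 10) {t : ℝ}
    {G : (Fin 2 → ℝ) → ℝ} {f : WT} (hf : IsR f) (hG : RepT d t G f) : Differentiable ℝ G := by
  intro x
  obtain ⟨z, rfl⟩ := (h.bij hρ hc t).2 x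
  exact (RepT.hasFDerivAt h hρ hc hf hG z).differentiableAt

theorem RepT.contDiff (h : Good d t0 t1 lam g σ ρ c A) (hρ : 0 ≤ ρ) (hc : c ≤ 1 / 10) {t : ℝ}
    {G : (Fin 2 → ℝ) → ℝ} {f : WT} (hf : IsR f) (hG : RepT d t G f) (n : ℕ) :
    ContDiff ℝ n G := by
  induction n generalizing G f with
  | zero =>
    have h1 : Differentiable ℝ G := v05_diff h hρ hc hf hG
    exact contDiff_zero.2 h1.continuous
  | succ n ih =>
    have h1 : Differentiable ℝ G := v05_diff h hρ hc hf hG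
    have h2 : ContDiff ℝ n (_root_.fderiv ℝ G) := by
      have h3 : _root_.fderiv ℝ G = fun x => ∑ b : Fin 2, (_root_.fderiv ℝ G x (Pi.single b 1)) •
          (ContinuousLinearMap.proj b : (Fin 2 → ℝ) →L[ℝ] ℝ) := by
        funext x
        refine ContinuousLinearMap.ext fun w => ?_
        rw [v05_sum_apply, v05_lin (_root_.fderiv ℝ G x) w]
        exact Finset.sum_congr rfl fun b _ => mul_comm _ _
      rw [h3]
      refine ContDiff.sum fun b _ => ?_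
      exact (ih (h.isR_ED b hf) (RepT.fderiv h hρ hc hf hG b)).smul contDiff_const
    have h4 : ((n + 1 : ℕ) : WithTop ℕ∞) = (n : WithTop ℕ∞) + 1 := by norm_cast
    rw [h4]
    refine contDiff_succ_iff_fderiv.2 ⟨h1, fun h5 => ?_, h2⟩
    exact absurd h5 (by simp)

theorem RepT.periodic (h : Good d t0 t1 lam g σ ρ c A) (hρ : 0 ≤ ρ) (hc : c ≤ 1 / 10) {t : ℝ}
    {G : (Fin 2 → ℝ) → ℝ} {f : WT} (hG : RepT d t G f) (x : Fin 2 → ℝ) (n : Fin 2 → ℤ) :
    G (fun a => x a + 2 * Real.pi * n a) = G x := by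
  obtain ⟨z, rfl⟩ := (h.bij hρ hc t).2 x
  rw [← Xm_periodic, hG, hG, evR_periodic]

theorem RepT.abs_le (h : Good d t0 t1 lam g σ ρ c A) (hρ : 0 ≤ ρ) (hc : c ≤ 1 / 10) {t : ℝ}
    {G : (Fin 2 → ℝ) → ℝ} {f : WT} (hG : RepT d t G f) (x : Fin 2 → ℝ) :
    |G x| ≤ ∑' ν, ‖f.co ν‖ := by
  obtain ⟨z, rfl⟩ := (h.bij hρ hc t).2 x
  rw [hG]
  exact abs_evR_le_tsum d.κ f z t

/-- Chain rule for smooth functions composed with the coordinates:
`∂_j (ψ ∘ X) = ∑_b F_{bj} (∂_b ψ) ∘ X`. -/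
theorem fderiv_comp_Xm (d : Dat) (t : ℝ) {ψ : (Fin 2 → ℝ) → ℝ} {z : Fin 2 → ℝ}
    (hψ : DifferentiableAt ℝ ψ (Xm d t z)) (j : Fin 2) :
    _root_.fderiv ℝ (fun z => ψ (Xm d t z)) z (Pi.single j 1)
      = ∑ b, evR d.κ (d.F b j) z t * _root_.fderiv ℝ ψ (Xm d t z) (Pi.single b 1) := by
  have h1 : HasFDerivAt (fun z => ψ (Xm d t z))
      ((_root_.fderiv ℝ ψ (Xm d t z)).comp (DX d t z)) z :=
    HasFDerivAt.comp z hψ.hasFDerivAt (hasFDerivAt_Xm d t z)
  rw [h1.fderiv, ContinuousLinearMap.comp_apply,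
    v05_lin (_root_.fderiv ℝ ψ (Xm d t z)) (DX d t z (Pi.single j 1))]
  refine Finset.sum_congr rfl fun b _ => ?_
  rw [DX_apply, Finset.sum_eq_single j]
  · rw [Pi.single_eq_same, mul_one]
  · intro k _ hk
    rw [Pi.single_eq_of_ne hk, mul_zero]
  · intro hb
    exact absurd (Finset.mem_univ j) hb

/-- Inverse form: `(∂_a ψ) ∘ X = ∑_j M_{ja} ∂_j (ψ ∘ X)`. -/
theorem fderiv_comp_Xm' (h : Good d t0 t1 lam g σ ρ c A) (t : ℝ) {ψ : (Fin 2 → ℝ) → ℝ}
    {z : Fin 2 → ℝ} (hψ : DifferentiableAt ℝ ψ (Xm d t z)) (a : Fin 2) :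
    _root_.fderiv ℝ ψ (Xm d t z) (Pi.single a 1)
      = ∑ j, evR d.κ (d.M j a) z t * _root_.fderiv ℝ (fun z => ψ (Xm d t z)) z (Pi.single j 1) := by
  have h1 : ∀ j, evR d.κ (d.M j a) z t *
      _root_.fderiv ℝ (fun z => ψ (Xm d t z)) z (Pi.single j 1)
      = ∑ b, (evR d.κ (d.F b j) z t * evR d.κ (d.M j a) z t) *
        _root_.fderiv ℝ ψ (Xm d t z) (Pi.single b 1) := by
    intro j
    rw [fderiv_comp_Xm d t hψ j, Finset.mul_sum]
    exact Finset.sum_congr rfl fun b _ => by ring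
  rw [Finset.sum_congr rfl fun j _ => h1 j, Finset.sum_comm]
  have h2 : ∀ b, ∑ j, (evR d.κ (d.F b j) z t * evR d.κ (d.M j a) z t) *
        _root_.fderiv ℝ ψ (Xm d t z) (Pi.single b 1)
      = (if b = a then 1 else 0) * _root_.fderiv ℝ ψ (Xm d t z) (Pi.single b 1) := by
    intro b
    rw [← Finset.sum_mul, h.evR_FM b a z t]
  rw [Finset.sum_congr rfl fun b _ => h2 b, Finset.sum_eq_single a]
  · rw [if_pos rfl, one_mul]
  · intro b _ hb
    rw [if_neg hb, zero_mul]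
  · intro hb
    exact absurd (Finset.mem_univ a) hb

end

end ES
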