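import Pool.Agent.ES.Ifc

/-!
ES-V06 (Part II, helper27): change of variables on the periodic box.

`X` is a bijection of the plane, differentiable with determinant one, commuting with the
translations by `2π ℤ²`.  Then `∫_{Bx} g(X z) dz = ∫_{Bx} g` for continuous periodic `g`.

Proof.  Let `b` be the basis `2π e_i` of `Fin 2 → ℝ` and `Δ = ZSpan.fundamentalDomain b`
(`= {x | ∀ i, 0 ≤ x i < 2π}`, equal to `Bx` up to a null set: `Bx \ Δ` is contained in two
hyperplanes; e.g. `MeasureTheory.Measure.univ_pi_Ico_ae_eq_Icc` or `volume` of the difference).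
`ZSpan.isAddFundamentalDomain b volume`.  The set `X '' Δ` is a fundamental domain of the same
lattice: measurable (`MeasureTheory.measurable_image_of_fderivWithin`), and every `x` has exactly
one lattice translate in `X '' Δ` (apply `X⁻¹`, which commutes with the translations):
`MeasureTheory.IsAddFundamentalDomain.mk'`.  Hence `∫_{X''Δ} g = ∫_Δ g`
(`IsAddFundamentalDomain.setIntegral_eq`), and `∫_{X''Δ} g = ∫_Δ |det X'| g(X z) dz`
(`MeasureTheory.integral_image_eq_integral_abs_det_fderiv_smul`).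
(If you find another route, e.g. covering by boxes, it is welcome.)
-/

open MeasureTheory

namespace ES

/-- The homomorphism of the lattice. -/
private noncomputable def v06_hom : (Fin 2 → ℤ) →+ (Fin 2 → ℝ) where
  toFun n := fun a => 2 * Real.pi * n a
  map_zero' := by
    funext a
    simp
  map_add' m n := by
    funext a
    simp only [Pi.add_apply]
    push_cast
    ring

/-- The lattice. -/
private noncomputable def v06_L : AddSubgroup (Fin 2 → ℝ) := v06_hom.range

private instance : Countable v06_L := by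
  unfold v06_L
  exact Set.countable_coe_iff.2 (Set.countable_range v06_hom)

/-- The half open box. -/
private def v06_D : Set (Fin 2 → ℝ) :=
  Set.pi Set.univ (fun _ => Set.Ico (0 : ℝ) (2 * Real.pi))

private theorem v06_D_meas : MeasurableSet v06_D :=
  MeasurableSet.univ_pi (fun _ => measurableSet_Ico)

private theorem v06_D_ae : (v06_D : Set (Fin 2 → ℝ)) =ᵐ[volume] Bx := by
  have h := Measure.univ_pi_Ico_ae_eq_Icc (μ := fun _ : Fin 2 => (volume : Measure ℝ))
    (f := fun _ => (0 : ℝ)) (g := fun _ => 2 * Real.pi)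
  exact h

private theorem v06_exists (x : Fin 2 → ℝ) : ∃! g : v06_L, g +ᵥ x ∈ v06_D := by
  have hp : (0 : ℝ) < 2 * Real.pi := by positivity
  have hmem : ∀ n : Fin 2 → ℤ, v06_hom n ∈ v06_L := fun n => ⟨n, rfl⟩
  have h1 : ∀ a : Fin 2, ∃! m : ℤ, x a + m • (2 * Real.pi) ∈ Set.Ico (0 : ℝ) (0 + 2 * Real.pi) :=
    fun a => existsUnique_add_zsmul_mem_Ico hp (x a) 0
  choose n hn hu using h1
  refine ⟨⟨v06_hom n, hmem n⟩, ?_, ?_⟩
  · intro a _
    have h2 := hn a
    simp only [zero_add, zsmul_eq_mul] at h2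
    change 2 * Real.pi * (n a : ℝ) + x a ∈ Set.Ico (0 : ℝ) (2 * Real.pi)
    have e : 2 * Real.pi * (n a : ℝ) + x a = x a + n a * (2 * Real.pi) := by ring
    rw [e]
    exact h2
  · rintro ⟨y, ⟨m, rfl⟩⟩ hy
    apply Subtype.ext
    change v06_hom m = v06_hom n
    congr 1
    funext a
    refine hu a (m a) ?_
    have h3 := hy a (Set.mem_univ a)
    change 2 * Real.pi * (m a : ℝ) + x a ∈ Set.Ico (0 : ℝ) (2 * Real.pi) at h3
    simp only [zero_add, zsmul_eq_mul]
    have e : 2 * Real.pi * (m a : ℝ) + x a = x a + m a * (2 * Real.pi) := by ring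
    rw [e] at h3
    exact h3

theorem integral_comp_periodic {X : (Fin 2 → ℝ) → (Fin 2 → ℝ)}
    {X' : (Fin 2 → ℝ) → ((Fin 2 → ℝ) →L[ℝ] (Fin 2 → ℝ))}
    (hbij : Function.Bijective X) (hd : ∀ z, HasFDerivAt X (X' z) z) (hdet : ∀ z, (X' z).det = 1)
    (hper : ∀ z (n : Fin 2 → ℤ), X (fun a => z a + 2 * Real.pi * n a)
      = fun a => X z a + 2 * Real.pi * n a)
    {g : (Fin 2 → ℝ) → ℝ} (hg : Continuous g)
    (hgp : ∀ x (n : Fin 2 → ℤ), g (fun a => x a + 2 * Real.pi * n a) = g x) :
    ∫ z in Bx, g (X z) = ∫ x in Bx, g x := by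
  have hXg : ∀ (y : v06_L) (z : Fin 2 → ℝ), y +ᵥ X z = X (y +ᵥ z) := by
    rintro ⟨y, ⟨n, rfl⟩⟩ z
    have h1 := hper z n
    have e1 : (⟨v06_hom n, ⟨n, rfl⟩⟩ : v06_L) +ᵥ z = fun a => z a + 2 * Real.pi * n a := by
      funext a
      change 2 * Real.pi * (n a : ℝ) + z a = _
      ring
    have e2 : (⟨v06_hom n, ⟨n, rfl⟩⟩ : v06_L) +ᵥ X z = fun a => X z a + 2 * Real.pi * n a := by
      funext a
      change 2 * Real.pi * (n a : ℝ) + X z a = _
      ring
    rw [e1, e2, h1]
  have hgg : ∀ (y : v06_L) (z : Fin 2 → ℝ), g (y +ᵥ z) = g z := by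
    rintro ⟨y, ⟨n, rfl⟩⟩ z
    have e1 : (⟨v06_hom n, ⟨n, rfl⟩⟩ : v06_L) +ᵥ z = fun a => z a + 2 * Real.pi * n a := by
      funext a
      change 2 * Real.pi * (n a : ℝ) + z a = _
      ring
    rw [e1, hgp]
  have hD : IsAddFundamentalDomain v06_L v06_D (volume : Measure (Fin 2 → ℝ)) :=
    IsAddFundamentalDomain.mk' v06_D_meas.nullMeasurableSet v06_exists
  have himg : MeasurableSet (X '' v06_D) :=
    measurable_image_of_fderivWithin v06_D_meas (fun z _ => (hd z).hasFDerivWithinAt)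
      hbij.1.injOn
  have hXD : IsAddFundamentalDomain v06_L (X '' v06_D) (volume : Measure (Fin 2 → ℝ)) := by
    refine IsAddFundamentalDomain.mk' himg.nullMeasurableSet ?_
    intro x
    obtain ⟨z, rfl⟩ := hbij.2 x
    obtain ⟨y, hy, hyu⟩ := v06_exists z
    refine ⟨y, ?_, ?_⟩
    · change y +ᵥ X z ∈ X '' v06_D
      rw [hXg]
      exact ⟨_, hy, rfl⟩
    · intro y' hy'
      refine hyu y' ?_
      change y' +ᵥ X z ∈ X '' v06_D at hy'
      rw [hXg] at hy'
      obtain ⟨u, hu, hue⟩ := hy'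
      rw [hbij.1 hue] at hu
      exact hu
  calc ∫ z in Bx, g (X z) = ∫ z in v06_D, g (X z) := (setIntegral_congr_set v06_D_ae).symm
    _ = ∫ z in v06_D, |(X' z).det| • g (X z) := by
        refine setIntegral_congr_fun v06_D_meas (fun z _ => ?_)
        simp only [hdet, abs_one, one_smul]
    _ = ∫ x in X '' v06_D, g x :=
        (integral_image_eq_integral_abs_det_fderiv_smul volume v06_D_meas
          (fun z _ => (hd z).hasFDerivWithinAt) hbij.1.injOn g).symm
    _ = ∫ x in v06_D, g x := hXD.setIntegral_eq hD hgg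
    _ = ∫ x in Bx, g x := setIntegral_congr_set v06_D_ae

theorem volume_Bx : volume Bx = ENNReal.ofReal ((2 * Real.pi) ^ 2) := by
  unfold Bx
  rw [Real.volume_Icc_pi]
  simp only [Pi.zero_apply, sub_zero, Finset.prod_const, Finset.card_univ, Fintype.card_fin]
  rw [ENNReal.ofReal_pow (by positivity)]

theorem isCompact_Bx : IsCompact Bx := isCompact_Icc

theorem abs_integral_Bx_le {g : (Fin 2 → ℝ) → ℝ} {C : ℝ} (h : ∀ x, |g x| ≤ C) :
    |∫ x in Bx, g x| ≤ C * (2 * Real.pi) ^ 2 := by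
  have h1 : volume Bx < ⊤ := by
    rw [volume_Bx]
    exact ENNReal.ofReal_lt_top
  have h2 := norm_setIntegral_le_of_norm_le_const (μ := (volume : Measure (Fin 2 → ℝ))) (f := g)
    h1 (fun x _ => h x)
  have h3 : (volume : Measure (Fin 2 → ℝ)).real Bx = (2 * Real.pi) ^ 2 := by
    rw [Measure.real, volume_Bx, ENNReal.toReal_ofReal (by positivity)]
  rw [h3] at h2
  exact h2

end ES
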