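import Pool.Agent.ES.Ifc

/-!
ES-V07 (Part II, helper27): periodic integration by parts on the box.

`integral_partial_zero`: divergence theorem on the box `[0,2π]^2`
(`MeasureTheory.integral_divergence_of_hasFDerivAt_off_countable'` with `n = 1`,
`Fin (n+1) → ℝ`, the field having `G` as component `b` and `0` as the other one); the two face
integrals cancel by periodicity.  Alternatively Fubini and the fundamental theorem in one variable.
`integral_by_parts`: apply it to the product.
-/

open MeasureTheory

namespace ES

/-- Periodic with period `2π` in each variable. -/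
def Per {E : Type*} (G : (Fin 2 → ℝ) → E) : Prop :=
  ∀ x (n : Fin 2 → ℤ), G (fun a => x a + 2 * Real.pi * n a) = G x

theorem integral_partial_zero {G : (Fin 2 → ℝ) → ℝ} (hG : ContDiff ℝ 1 G) (hp : Per G)
    (b : Fin 2) : ∫ x in Bx, fderiv ℝ G x (Pi.single b 1) = 0 := by
  have hdiff : Differentiable ℝ G := hG.differentiable (by norm_num)
  have hcf : Continuous (fun x => fderiv ℝ G x) := hG.continuous_fderiv (by norm_num)
  have hle : (0 : Fin 2 → ℝ) ≤ (fun _ => 2 * Real.pi) := by
    intro i
    simp only [Pi.zero_apply]
    positivity
  have hsum : ∀ x : Fin 2 → ℝ,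
      ∑ i : Fin 2, (if i = b then fderiv ℝ G x else 0) (Pi.single i 1)
        = fderiv ℝ G x (Pi.single b 1) := by
    intro x
    rw [Finset.sum_eq_single b]
    · simp
    · intro i _ hi
      simp [hi]
    · intro h
      exact absurd (Finset.mem_univ b) h
  have key := integral_divergence_of_hasFDerivAt_off_countable' (n := 1) (E := ℝ)
    (0 : Fin 2 → ℝ) (fun _ => 2 * Real.pi) hle
    (fun i x => if i = b then G x else 0)
    (fun i x => if i = b then fderiv ℝ G x else 0) ∅ Set.countable_empty
    (by
      intro i
      by_cases h : i = b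
      · simp only [h, if_true]
        exact hdiff.continuous.continuousOn
      · simp only [h, if_false]
        exact continuousOn_const)
    (by
      intro x _ i
      by_cases h : i = b
      · simp only [h, if_true]
        exact (hdiff x).hasFDerivAt
      · simp only [h, if_false]
        exact hasFDerivAt_const _ _)
    (by
      simp only [hsum]
      exact ((hcf.clm_apply continuous_const).continuousOn).integrableOn_compact isCompact_Icc)
  simp only [hsum] at key
  unfold Bx
  rw [key]
  apply Finset.sum_eq_zero
  intro i _
  by_cases h : i = b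
  · simp only [h, if_true]
    rw [sub_eq_zero]
    apply integral_congr_ae
    filter_upwards with x
    have := hp (b.insertNth (0 : ℝ) x) (Pi.single b 1)
    rw [show ((0 : Fin 2 → ℝ) i) = 0 from rfl]
    rw [← this]
    congr 1
    funext a
    by_cases ha : a = b
    · subst ha
      simp
    · obtain ⟨c, hc⟩ := Fin.exists_succAbove_eq ha
      subst hc
      simp
  · simp only [h, if_false]
    simp

theorem integral_by_parts {G H : (Fin 2 → ℝ) → ℝ} (hG : ContDiff ℝ 1 G) (hp : Per G)
    (hH : ContDiff ℝ 1 H) (hq : Per H) (b : Fin 2) :
    ∫ x in Bx, fderiv ℝ G x (Pi.single b 1) * H x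
      = -∫ x in Bx, G x * fderiv ℝ H x (Pi.single b 1) := by
  have hGd : Differentiable ℝ G := hG.differentiable (by norm_num)
  have hHd : Differentiable ℝ H := hH.differentiable (by norm_num)
  have hGf : Continuous (fun x => fderiv ℝ G x) := hG.continuous_fderiv (by norm_num)
  have hHf : Continuous (fun x => fderiv ℝ H x) := hH.continuous_fderiv (by norm_num)
  have h0 := integral_partial_zero (G := fun x => G x * H x) (hG.mul hH)
    (by
      intro x n
      show G _ * H _ = G x * H x
      rw [hp x n, hq x n]) b
  have e1 : ∀ x : Fin 2 → ℝ, fderiv ℝ (fun x => G x * H x) x (Pi.single b 1)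
      = fderiv ℝ G x (Pi.single b 1) * H x + G x * fderiv ℝ H x (Pi.single b 1) := by
    intro x
    rw [fderiv_fun_mul (hGd x) (hHd x)]
    simp
    ring
  simp only [e1] at h0
  rw [integral_add] at h0
  · linarith
  · exact ((((hGf.clm_apply continuous_const).mul hHd.continuous)).continuousOn).integrableOn_compact
      isCompact_Icc
  · exact (((hGd.continuous.mul (hHf.clm_apply continuous_const))).continuousOn).integrableOn_compact
      isCompact_Icc

theorem Per.fderiv {E : Type*} [NormedAddCommGroup E] [NormedSpace ℝ E] {G : (Fin 2 → ℝ) → E}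
    (hp : Per G) (w : Fin 2 → ℝ) : Per (fun x => _root_.fderiv ℝ G x w) := by
  intro x n
  show _root_.fderiv ℝ G (fun a => x a + 2 * Real.pi * n a) w = _root_.fderiv ℝ G x w
  have h1 : (fun y : Fin 2 → ℝ => G (y + (fun a => 2 * Real.pi * n a))) = G := by
    funext y
    exact hp y n
  have h2 := fderiv_comp_add_right (𝕜 := ℝ) (f := G) (x := x) (fun a => 2 * Real.pi * (n a : ℝ))
  rw [h1] at h2
  rw [h2]
  rfl

end ES
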