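import Pool.Agent.ES.Ifc

/-!
ES-V08 (Part II, helper27): integrals over the box depending on the time.

`hasDerivAt_integral_Bx`: `hasDerivAt_integral_of_dominated_loc_of_deriv_le` on a small closed
interval around `t`, the bound of the derivative by compactness (`IsCompact` of
`Bx ×ˢ Icc (t-δ) (t+δ)`).  `continuous_integral_Bx`: `continuous_parametric_integral_of_continuous`
(`isCompact_Icc`), `continuousOn_integral_Bx`: compose with the clamp `clp a b` first.
-/

open MeasureTheory

namespace ES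

theorem continuous_integral_Bx {G : (Fin 2 → ℝ) → ℝ → ℝ}
    (h : Continuous fun p : (Fin 2 → ℝ) × ℝ => G p.1 p.2) :
    Continuous fun t => ∫ z in Bx, G z t := by
  have hf : Continuous (Function.uncurry fun (t : ℝ) (z : Fin 2 → ℝ) => G z t) :=
    h.comp (continuous_snd.prodMk continuous_fst)
  exact continuous_parametric_integral_of_continuous (μ := volume) hf (s := Bx) isCompact_Icc

private theorem v08_clp_mem {a b : ℝ} (hab : a ≤ b) (t : ℝ) : clp a b t ∈ Set.Icc a b := by
  unfold clp
  exact ⟨le_max_left _ _, max_le hab (min_le_left _ _)⟩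

private theorem v08_clp_eq {a b t : ℝ} (ht : t ∈ Set.Icc a b) : clp a b t = t := by
  unfold clp
  rw [min_eq_right ht.2, max_eq_right ht.1]

theorem continuousOn_integral_Bx {G : (Fin 2 → ℝ) → ℝ → ℝ} {a b : ℝ} (hab : a ≤ b)
    (h : ContinuousOn (fun p : (Fin 2 → ℝ) × ℝ => G p.1 p.2) (Set.univ ×ˢ Set.Icc a b)) :
    ContinuousOn (fun t => ∫ z in Bx, G z t) (Set.Icc a b) := by
  have hc : Continuous fun p : (Fin 2 → ℝ) × ℝ => G p.1 (clp a b p.2) := by
    have h1 : Continuous fun p : (Fin 2 → ℝ) × ℝ => ((p.1, clp a b p.2) : (Fin 2 → ℝ) × ℝ) :=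
      continuous_fst.prodMk ((clp_continuous a b).comp continuous_snd)
    exact h.comp_continuous h1 (fun p => ⟨Set.mem_univ _, v08_clp_mem hab _⟩)
  have h2 := continuous_integral_Bx (G := fun z t => G z (clp a b t)) hc
  refine h2.continuousOn.congr ?_
  intro t ht
  dsimp only
  rw [v08_clp_eq ht]

theorem hasDerivAt_integral_Bx {G G' : (Fin 2 → ℝ) → ℝ → ℝ} {a b : ℝ}
    (hG : Continuous fun p : (Fin 2 → ℝ) × ℝ => G p.1 p.2)
    (hG' : Continuous fun p : (Fin 2 → ℝ) × ℝ => G' p.1 p.2)
    (hd : ∀ z, ∀ t ∈ Set.Ioo a b, HasDerivAt (fun s => G z s) (G' z t) t) {t : ℝ}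
    (ht : t ∈ Set.Ioo a b) :
    HasDerivAt (fun s => ∫ z in Bx, G z s) (∫ z in Bx, G' z t) t := by
  have hcB : IsCompact Bx := isCompact_Icc
  have hGt : ∀ s, Continuous fun z => G z s := fun s =>
    hG.comp (continuous_id.prodMk continuous_const)
  have hG't : ∀ s, Continuous fun z => G' z s := fun s =>
    hG'.comp (continuous_id.prodMk continuous_const)
  have hcK : IsCompact (Bx ×ˢ Set.Icc ((a + t) / 2) ((t + b) / 2)) := hcB.prod isCompact_Icc
  obtain ⟨C, hC⟩ := hcK.exists_bound_of_continuousOn hG'.continuousOn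
  have hs : Set.Icc ((a + t) / 2) ((t + b) / 2) ∈ nhds t := by
    apply Icc_mem_nhds
    · linarith [ht.1]
    · linarith [ht.2]
  have hmeas : MeasurableSet Bx := measurableSet_Icc
  have hfin : volume Bx ≠ ⊤ := hcB.measure_lt_top.ne
  refine (hasDerivAt_integral_of_dominated_loc_of_deriv_le (μ := volume.restrict Bx) (F := fun s z => G z s)
    (F' := fun s z => G' z s) (bound := fun _ => C) hs ?_ ?_ ?_ ?_ ?_ ?_).2
  · exact Filter.Eventually.of_forall fun s => (hGt s).aestronglyMeasurable
  · exact (hGt t).continuousOn.integrableOn_compact hcB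
  · exact (hG't t).aestronglyMeasurable
  · rw [ae_restrict_iff' hmeas]
    exact Filter.Eventually.of_forall fun z hz s hs' => hC (z, s) ⟨hz, hs'⟩
  · exact (integrableOn_const hfin (C := C))
  · refine Filter.Eventually.of_forall fun z s hs' => hd z s ⟨?_, ?_⟩
    · linarith [ht.1, hs'.1]
    · linarith [ht.2, hs'.2]

end ES
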