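import Pool.Agent.ES.V05
import Pool.Agent.ES.V06
import Pool.Agent.ES.V07

/-!
ES-V09 (Part II, helper27): change of variables for represented functions; the facts `per` and
`divf`.

`integral_comp_Xm`: `integral_comp_periodic` with `X = Xm d t`, `X' = DX d t`.
`fact_divf`: by `integral_comp_Xm`,
`∫ ∑_a V_a ∂_a ψ = ∫ ∑_a v_a (∂_a ψ)(X) = ∫ ∑_j (M v)_j ∂_j (ψ ∘ X)` (`fderiv_comp_Xm'`)
`= -∫ D·(M v) ψ ∘ X = 0` (`integral_by_parts`, `hasFDerivAt_evR`, `Good.dvg_Mv`).
Here `ψ ∘ X` is `C¹` (`ψ` is `C²`, `Xm d t` is `C¹`: `contDiff_Xm`) and periodic.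
-/

open MeasureTheory

namespace ES

theorem contDiff_evR (κ : Kp) (f : WT) (t : ℝ) (n : ℕ) : ContDiff ℝ n fun z => evR κ f z t := by
  induction n generalizing f with
  | zero =>
    rw [Nat.cast_zero, contDiff_zero]
    exact (continuous_evR κ f).comp (continuous_id.prodMk continuous_const)
  | succ n ih =>
    rw [Nat.cast_succ]
    refine contDiff_succ_iff_hasFDerivAt.2 ⟨fun z => ∑ a : Fin 2, evR κ (D κ a f) z t •
      (ContinuousLinearMap.proj a : (Fin 2 → ℝ) →L[ℝ] ℝ), ?_, fun z => hasFDerivAt_evR κ f z t⟩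
    exact ContDiff.sum fun a _ => (ih (D κ a f)).smul contDiff_const

theorem contDiff_Xm (d : Dat) (t : ℝ) (n : ℕ) : ContDiff ℝ n (Xm d t) := by
  rw [contDiff_pi]
  intro a
  change ContDiff ℝ n fun z : Fin 2 → ℝ => z a + evR d.κ (d.ξ a) z t
  exact (contDiff_apply ℝ ℝ a).add (contDiff_evR d.κ (d.ξ a) t n)

theorem per_evR (κ : Kp) (f : WT) (t : ℝ) : Per fun z => evR κ f z t :=
  fun x n => evR_periodic κ f x n t

private theorem v09_fderiv_evR (κ : Kp) (f : WT) (t : ℝ) (z : Fin 2 → ℝ) (b : Fin 2) :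
    fderiv ℝ (fun z => evR κ f z t) z (Pi.single b 1) = evR κ (D κ b f) z t := by
  rw [(hasFDerivAt_evR κ f z t).fderiv]
  fin_cases b <;> simp

section

variable {d : Dat} {t0 t1 lam g σ ρ c A : ℝ}

theorem integral_comp_Xm (h : Good d t0 t1 lam g σ ρ c A) (hρ : 0 ≤ ρ) (hc : c ≤ 1 / 10) (t : ℝ)
    {G : (Fin 2 → ℝ) → ℝ} (hG : Continuous G) (hp : Per G) :
    ∫ z in Bx, G (Xm d t z) = ∫ x in Bx, G x :=
  integral_comp_periodic (h.bij hρ hc t) (hasFDerivAt_Xm d t) (h.det_DX t) (Xm_periodic d t) hG hp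

end

theorem fact_per (V : Fld) (t0 t1 lam g σ ρ c A : ℝ) (h : BI V t0 t1 lam g σ ρ c A) :
    ∀ t ∈ Set.Icc t0 t1, PerF V t := by
  obtain ⟨d, _, hR⟩ := h
  intro t ht x n
  obtain ⟨hb, hV⟩ := hR t ht
  obtain ⟨z, rfl⟩ := hb.2 x
  funext a
  rw [← Xm_periodic, hV, hV, evR_periodic]

theorem fact_divf (V : Fld) (t0 t1 lam g σ ρ c A : ℝ) (h : BI V t0 t1 lam g σ ρ c A) (hρ : 0 < ρ)
    (h0 : 0 ≤ c) (hc : c ≤ 1 / 10) : ∀ t ∈ Set.Icc t0 t1, DF V t := by
  have hPer := fact_per V t0 t1 lam g σ ρ c A h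
  obtain ⟨d, hg, hR⟩ := h
  intro t ht ψ hψ hψp
  obtain ⟨hb, hV⟩ := hR t ht
  have hPt := hPer t ht
  -- regularity of the field
  have hVa : ∀ a, Continuous fun x => V x t a := fun a => by
    have h1 : RepT d t (fun x => V x t a) (d.v a) := fun z => hV z a
    exact (h1.contDiff hg hρ.le hc (hg.rv a) 0).continuous
  have hdψ : ∀ a : Fin 2, Continuous fun x => fderiv ℝ ψ x (Pi.single a 1) := fun a =>
    (hψ.continuous_fderiv (by norm_num)).clm_apply continuous_const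
  have hψP : Per ψ := hψp
  have hGc : Continuous fun x => ∑ a, V x t a * fderiv ℝ ψ x (Pi.single a 1) :=
    continuous_finsetSum _ fun a _ => (hVa a).mul (hdψ a)
  have hGp : Per fun x => ∑ a, V x t a * fderiv ℝ ψ x (Pi.single a 1) := by
    intro x n
    refine Finset.sum_congr rfl fun a _ => ?_
    have h1 := hψP.fderiv (Pi.single a 1 : Fin 2 → ℝ) x n
    have h2 := congrFun (hPt x n) a
    simp only at h1
    rw [h1, h2]
  rw [← integral_comp_Xm hg hρ.le hc t hGc hGp]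
  -- the composed test function
  have hΨ : ContDiff ℝ 1 fun z => ψ (Xm d t z) :=
    (hψ.of_le (by norm_num)).comp (by exact_mod_cast contDiff_Xm d t 1)
  have hΨp : Per fun z => ψ (Xm d t z) := by
    intro z n
    change ψ (Xm d t fun a => z a + 2 * Real.pi * n a) = _
    rw [Xm_periodic, hψP (Xm d t z) n]
  have hH : ∀ j, ContDiff ℝ 1 fun z => evR d.κ (mulv d.M d.v j) z t := fun j => by
    exact_mod_cast contDiff_evR d.κ (mulv d.M d.v j) t 1
  -- the integrand in Lagrangian form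
  have hpt : ∀ z, ∑ a, V (Xm d t z) t a * fderiv ℝ ψ (Xm d t z) (Pi.single a 1)
      = ∑ j, fderiv ℝ (fun z => ψ (Xm d t z)) z (Pi.single j 1)
          * evR d.κ (mulv d.M d.v j) z t := by
    intro z
    have hd : DifferentiableAt ℝ ψ (Xm d t z) := (hψ.differentiable (by norm_num)).differentiableAt
    have h1 : ∀ j, evR d.κ (mulv d.M d.v j) z t
        = ∑ a, evR d.κ (d.M j a) z t * evR d.κ (d.v a) z t := fun j => by
      unfold mulv
      rw [evR_sum]
      exact Finset.sum_congr rfl fun a _ => evR_mul (hg.isR_M j a) (hg.rv a) z t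
    simp only [h1, hV, fderiv_comp_Xm' hg t hd, Finset.mul_sum]
    rw [Finset.sum_comm]
    refine Finset.sum_congr rfl fun j _ => Finset.sum_congr rfl fun a _ => ?_
    ring
  simp only [hpt]
  have hΨ' : ∀ j : Fin 2, Continuous fun z =>
      fderiv ℝ (fun z => ψ (Xm d t z)) z (Pi.single j 1) := fun j =>
    (hΨ.continuous_fderiv (by norm_num)).clm_apply continuous_const
  have hint : ∀ (F : (Fin 2 → ℝ) → ℝ), Continuous F → Integrable F (volume.restrict Bx) :=
    fun F hF => hF.continuousOn.integrableOn_compact isCompact_Bx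
  rw [integral_finsetSum _ fun j _ => hint (fun z => fderiv ℝ (fun z => ψ (Xm d t z)) z
    (Pi.single j 1) * evR d.κ (mulv d.M d.v j) z t) ((hΨ' j).mul (hH j).continuous)]
  have hj : ∀ j : Fin 2, ∫ z in Bx, fderiv ℝ (fun z => ψ (Xm d t z)) z (Pi.single j 1)
      * evR d.κ (mulv d.M d.v j) z t
      = -∫ z in Bx, ψ (Xm d t z) * evR d.κ (D d.κ j (mulv d.M d.v j)) z t := fun j => by
    rw [integral_by_parts hΨ hΨp (hH j) (per_evR d.κ _ t) j]
    simp only [v09_fderiv_evR]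
  simp only [hj]
  have hc2 : ∀ j : Fin 2, Continuous fun z => evR d.κ (D d.κ j (mulv d.M d.v j)) z t := fun j =>
    (continuous_evR d.κ _).comp (continuous_id.prodMk continuous_const)
  rw [Finset.sum_neg_distrib, ← integral_finsetSum _ fun j _ => hint (fun z => ψ (Xm d t z) *
    evR d.κ (D d.κ j (mulv d.M d.v j)) z t) (hΨ.continuous.mul (hc2 j))]
  have hz : ∀ z, ∑ j, ψ (Xm d t z) * evR d.κ (D d.κ j (mulv d.M d.v j)) z t = 0 := by
    intro z
    rw [← Finset.mul_sum, ← evR_sum]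
    have h1 : ∑ j, D d.κ j (mulv d.M d.v j) = 0 := hg.dvg_Mv
    rw [h1, evR_zero, mul_zero]
  simp [hz]

end ES
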