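import Pool.Agent.ES.V09
import Pool.Agent.ES.V08

/-!
ES-V11 (Part II, helper27): the pairing and the weak form in the moving coordinates.

For a test function `φ` (jointly `C²`): `pr V φ t = prL d φ t` and `wf V φ t = wfL d φ t` for
`t ∈ [t0,t1]` by `integral_comp_Xm` (the integrands are continuous and periodic in `x`:
`V · t a` is represented by `d.v a`, `RepT.contDiff`, `RepT.periodic`).
Time derivative of `prL`: `hasDerivAt_integral_Bx`; pointwise product rule with `hasDerivAt_evR`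
(`h.tdv`) and the chain rule for `s ↦ φ (Xm d s z) s a` (joint differentiability of `φ`,
`h.tdξ`): its derivative is `∂_t φ_a + ∑_b U_b ∂_b φ_a`.
-/

open MeasureTheory

namespace ES

/-- Spatial partial derivative of a component of a test function. -/
noncomputable def dφ (φ : Fld) (b a : Fin 2) (x : Fin 2 → ℝ) (t : ℝ) : ℝ :=
  fderiv ℝ (fun y => φ y t a) x (Pi.single b 1)

/-- Time derivative of a component of a test function. -/
noncomputable def dtφ (φ : Fld) (a : Fin 2) (x : Fin 2 → ℝ) (t : ℝ) : ℝ :=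
  deriv (fun s => φ x s a) t

noncomputable def prL (d : Dat) (φ : Fld) (t : ℝ) : ℝ :=
  ∫ z in Bx, ∑ a, evR d.κ (d.v a) z t * φ (Xm d t z) t a

noncomputable def prL' (d : Dat) (φ : Fld) (t : ℝ) : ℝ :=
  ∫ z in Bx, ∑ a, (evR d.κ (d.rhs a) z t * φ (Xm d t z) t a
    + evR d.κ (d.v a) z t * (dtφ φ a (Xm d t z) t
      + ∑ b, evR d.κ (d.U b) z t * dφ φ b a (Xm d t z) t))

noncomputable def wfL (d : Dat) (φ : Fld) (t : ℝ) : ℝ :=
  ∫ z in Bx, ((∑ a, evR d.κ (d.v a) z t * dtφ φ a (Xm d t z) t)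
    + ∑ a, ∑ b, evR d.κ (d.v a) z t * evR d.κ (d.v b) z t * dφ φ b a (Xm d t z) t)

/-- Components are jointly `C²`. -/
private theorem v11_cd {φ : Fld} (hφ : Tst φ) (a : Fin 2) :
    ContDiff ℝ 2 fun p : (Fin 2 → ℝ) × ℝ => φ p.1 p.2 a :=
  (contDiff_pi.1 hφ.smooth) a

private theorem v11_fd {φ : Fld} (hφ : Tst φ) (a : Fin 2) (p : (Fin 2 → ℝ) × ℝ) :
    HasFDerivAt (fun p : (Fin 2 → ℝ) × ℝ => φ p.1 p.2 a)
      (fderiv ℝ (fun p : (Fin 2 → ℝ) × ℝ => φ p.1 p.2 a) p) p :=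
  ((v11_cd hφ a).differentiable (by norm_num) p).hasFDerivAt

private theorem v11_dφ {φ : Fld} (hφ : Tst φ) (b a : Fin 2) (x : Fin 2 → ℝ) (t : ℝ) :
    dφ φ b a x t =
      fderiv ℝ (fun p : (Fin 2 → ℝ) × ℝ => φ p.1 p.2 a) (x, t) (Pi.single b 1, 0) := by
  have h1 : HasFDerivAt (fun y : Fin 2 → ℝ => (y, t))
      (ContinuousLinearMap.inl ℝ (Fin 2 → ℝ) ℝ) x := hasFDerivAt_prodMk_left x t
  have h2 := (v11_fd hφ a (x, t)).comp x h1
  have h3 : fderiv ℝ (fun y => φ y t a) x =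
      (fderiv ℝ (fun p : (Fin 2 → ℝ) × ℝ => φ p.1 p.2 a) (x, t)).comp
        (ContinuousLinearMap.inl ℝ (Fin 2 → ℝ) ℝ) := h2.fderiv
  unfold dφ
  rw [h3]
  rfl

private theorem v11_dtφ {φ : Fld} (hφ : Tst φ) (a : Fin 2) (x : Fin 2 → ℝ) (t : ℝ) :
    dtφ φ a x t =
      fderiv ℝ (fun p : (Fin 2 → ℝ) × ℝ => φ p.1 p.2 a) (x, t) (0, 1) := by
  have h1 : HasDerivAt (fun s : ℝ => (x, s)) ((0 : Fin 2 → ℝ), (1 : ℝ)) t :=
    (hasDerivAt_const t x).prodMk (hasDerivAt_id t)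
  have h2 := (v11_fd hφ a (x, t)).comp_hasDerivAt t h1
  exact h2.deriv

private theorem v11_cfd {φ : Fld} (hφ : Tst φ) (a : Fin 2) (w : (Fin 2 → ℝ) × ℝ) :
    Continuous fun p : (Fin 2 → ℝ) × ℝ =>
      fderiv ℝ (fun p : (Fin 2 → ℝ) × ℝ => φ p.1 p.2 a) p w :=
  ((v11_cd hφ a).continuous_fderiv (by norm_num)).clm_apply continuous_const

theorem Tst.continuous_dφ {φ : Fld} (hφ : Tst φ) (b a : Fin 2) :
    Continuous fun p : (Fin 2 → ℝ) × ℝ => dφ φ b a p.1 p.2 := by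
  have h : (fun p : (Fin 2 → ℝ) × ℝ => dφ φ b a p.1 p.2) = fun p =>
      fderiv ℝ (fun p : (Fin 2 → ℝ) × ℝ => φ p.1 p.2 a) p (Pi.single b 1, 0) := by
    funext p
    exact v11_dφ hφ b a p.1 p.2
  rw [h]
  exact v11_cfd hφ a _

theorem Tst.continuous_dtφ {φ : Fld} (hφ : Tst φ) (a : Fin 2) :
    Continuous fun p : (Fin 2 → ℝ) × ℝ => dtφ φ a p.1 p.2 := by
  have h : (fun p : (Fin 2 → ℝ) × ℝ => dtφ φ a p.1 p.2) = fun p =>
      fderiv ℝ (fun p : (Fin 2 → ℝ) × ℝ => φ p.1 p.2 a) p (0, 1) := by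
    funext p
    exact v11_dtφ hφ a p.1 p.2
  rw [h]
  exact v11_cfd hφ a _

theorem Tst.per_dφ {φ : Fld} (hφ : Tst φ) (b a : Fin 2) (t : ℝ) : Per fun x => dφ φ b a x t := by
  have h : Per fun y => φ y t a := fun x n => congrFun (hφ.per x n t) a
  exact Per.fderiv h (Pi.single b 1)

theorem Tst.per_dtφ {φ : Fld} (hφ : Tst φ) (a : Fin 2) (t : ℝ) : Per fun x => dtφ φ a x t := by
  intro x n
  show deriv (fun s => φ (fun b => x b + 2 * Real.pi * n b) s a) t = deriv (fun s => φ x s a) t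
  have h : (fun s => φ (fun b => x b + 2 * Real.pi * n b) s a) = fun s => φ x s a := by
    funext s
    exact congrFun (hφ.per x n s) a
  rw [h]

section

variable {d : Dat} {t0 t1 lam g σ ρ c A : ℝ} {V φ : Fld}

private theorem v11_rep (hV : Rep d V t0 t1) {t : ℝ} (ht : t ∈ Set.Icc t0 t1) (a : Fin 2) :
    RepT d t (fun x => V x t a) (d.v a) := fun z => (hV t ht).2 z a

private theorem v11_cV (h : Good d t0 t1 lam g σ ρ c A) (hρ : 0 ≤ ρ) (hc : c ≤ 1 / 10)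
    (hV : Rep d V t0 t1) {t : ℝ} (ht : t ∈ Set.Icc t0 t1) (a : Fin 2) :
    Continuous fun x => V x t a :=
  (RepT.contDiff h hρ hc (h.rv a) (v11_rep hV ht a) 0).continuous

private theorem v11_pV (h : Good d t0 t1 lam g σ ρ c A) (hρ : 0 ≤ ρ) (hc : c ≤ 1 / 10)
    (hV : Rep d V t0 t1) {t : ℝ} (ht : t ∈ Set.Icc t0 t1) (a : Fin 2) :
    Per fun x => V x t a := fun x n =>
  RepT.periodic h hρ hc (v11_rep hV ht a) x n

private theorem v11_cφ (hφ : Tst φ) (a : Fin 2) :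
    Continuous fun p : (Fin 2 → ℝ) × ℝ => φ p.1 p.2 a := (v11_cd hφ a).continuous

private theorem v11_slice {E : Type*} [TopologicalSpace E] {f : (Fin 2 → ℝ) × ℝ → E}
    (hf : Continuous f) (t : ℝ) : Continuous fun x => f (x, t) :=
  hf.comp (continuous_id.prodMk continuous_const)

private theorem v11_mv (d : Dat) {f : (Fin 2 → ℝ) × ℝ → ℝ} (hf : Continuous f) :
    Continuous fun p : (Fin 2 → ℝ) × ℝ => f (Xm d p.2 p.1, p.2) :=
  hf.comp ((continuous_Xm d).prodMk continuous_snd)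

theorem pr_eq (h : Good d t0 t1 lam g σ ρ c A) (hρ : 0 ≤ ρ) (hc : c ≤ 1 / 10)
    (hV : Rep d V t0 t1) (hφ : Tst φ) {t : ℝ} (ht : t ∈ Set.Icc t0 t1) :
    pr V φ t = prL d φ t := by
  have h1 := integral_comp_Xm h hρ hc t (G := fun x => ∑ a, V x t a * φ x t a)
    (continuous_finsetSum _ fun a _ => (v11_cV h hρ hc hV ht a).mul (v11_slice (v11_cφ hφ a) t))
    (fun x n => Finset.sum_congr rfl fun a _ => by
      have e : V (fun b => x b + 2 * Real.pi * n b) t a = V x t a := v11_pV h hρ hc hV ht a x n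
      rw [e, hφ.per x n t])
  unfold pr prL
  rw [← h1]
  refine integral_congr_ae (Filter.Eventually.of_forall fun z => ?_)
  exact Finset.sum_congr rfl fun a _ => by rw [(hV t ht).2 z a]

theorem wf_eq (h : Good d t0 t1 lam g σ ρ c A) (hρ : 0 ≤ ρ) (hc : c ≤ 1 / 10)
    (hV : Rep d V t0 t1) (hφ : Tst φ) {t : ℝ} (ht : t ∈ Set.Icc t0 t1) :
    wf V φ t = wfL d φ t := by
  have h1 := integral_comp_Xm h hρ hc t
    (G := fun x => (∑ a, V x t a * dtφ φ a x t) + ∑ a, ∑ b, V x t a * V x t b * dφ φ b a x t)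
    ((continuous_finsetSum _ fun a _ => (v11_cV h hρ hc hV ht a).mul
        (v11_slice (Tst.continuous_dtφ hφ a) t)).add
      (continuous_finsetSum _ fun a _ => continuous_finsetSum _ fun b _ =>
        ((v11_cV h hρ hc hV ht a).mul (v11_cV h hρ hc hV ht b)).mul
          (v11_slice (Tst.continuous_dφ hφ b a) t)))
    (fun x n => by
      have e1 : ∀ a, V (fun b => x b + 2 * Real.pi * n b) t a = V x t a := fun a =>
        v11_pV h hρ hc hV ht a x n
      have e2 : ∀ a, dtφ φ a (fun b => x b + 2 * Real.pi * n b) t = dtφ φ a x t := fun a =>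
        Tst.per_dtφ hφ a t x n
      have e3 : ∀ b a, dφ φ b a (fun b => x b + 2 * Real.pi * n b) t = dφ φ b a x t := fun b a =>
        Tst.per_dφ hφ b a t x n
      simp only [e1, e2, e3])
  unfold wf wfL
  have h2 : (∫ x in Bx, ((∑ a, V x t a * deriv (fun s => φ x s a) t) +
      ∑ a, ∑ b, V x t a * V x t b * fderiv ℝ (fun y => φ y t a) x (Pi.single b 1))) =
      ∫ x in Bx, ((∑ a, V x t a * dtφ φ a x t) +
        ∑ a, ∑ b, V x t a * V x t b * dφ φ b a x t) := rfl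
  rw [h2, ← h1]
  refine integral_congr_ae (Filter.Eventually.of_forall fun z => ?_)
  simp only [(hV t ht).2 z]

private theorem v11_c1 (d : Dat) (hφ : Tst φ) :
    Continuous fun p : (Fin 2 → ℝ) × ℝ =>
      ∑ a, evR d.κ (d.v a) p.1 p.2 * φ (Xm d p.2 p.1) p.2 a :=
  continuous_finsetSum _ fun a _ =>
    (continuous_evR d.κ (d.v a)).mul (v11_mv d (v11_cφ hφ a))

private theorem v11_c2 (d : Dat) (hφ : Tst φ) :
    Continuous fun p : (Fin 2 → ℝ) × ℝ =>
      ∑ a, (evR d.κ (d.rhs a) p.1 p.2 * φ (Xm d p.2 p.1) p.2 a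
        + evR d.κ (d.v a) p.1 p.2 * (dtφ φ a (Xm d p.2 p.1) p.2
          + ∑ b, evR d.κ (d.U b) p.1 p.2 * dφ φ b a (Xm d p.2 p.1) p.2)) :=
  continuous_finsetSum _ fun a _ =>
    ((continuous_evR d.κ (d.rhs a)).mul (v11_mv d (v11_cφ hφ a))).add
      ((continuous_evR d.κ (d.v a)).mul ((v11_mv d (Tst.continuous_dtφ hφ a)).add
        (continuous_finsetSum _ fun b _ =>
          (continuous_evR d.κ (d.U b)).mul (v11_mv d (Tst.continuous_dφ hφ b a)))))

theorem continuous_prL (d : Dat) (hφ : Tst φ) : Continuous (prL d φ) :=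
  continuous_integral_Bx (v11_c1 d hφ)

theorem continuous_prL' (d : Dat) (hφ : Tst φ) : Continuous (prL' d φ) :=
  continuous_integral_Bx (v11_c2 d hφ)

theorem continuous_wfL (d : Dat) (hφ : Tst φ) : Continuous (wfL d φ) := by
  refine continuous_integral_Bx ?_
  exact (continuous_finsetSum _ fun a _ =>
    (continuous_evR d.κ (d.v a)).mul (v11_mv d (Tst.continuous_dtφ hφ a))).add
    (continuous_finsetSum _ fun a _ => continuous_finsetSum _ fun b _ =>
      ((continuous_evR d.κ (d.v a)).mul (continuous_evR d.κ (d.v b))).mul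
        (v11_mv d (Tst.continuous_dφ hφ b a)))

/-- Derivative of `s ↦ φ (X_s z) s a`. -/
theorem hasDerivAt_φ_Xm (h : Good d t0 t1 lam g σ ρ c A) (hφ : Tst φ) (a : Fin 2)
    (z : Fin 2 → ℝ) {t : ℝ} (ht : t ∈ Set.Ioo t0 t1) :
    HasDerivAt (fun s => φ (Xm d s z) s a)
      (dtφ φ a (Xm d t z) t + ∑ b, evR d.κ (d.U b) z t * dφ φ b a (Xm d t z) t) t := by
  have h1 : HasDerivAt (fun s => Xm d s z) (fun b => evR d.κ (d.U b) z t) t := by
    refine hasDerivAt_pi.2 fun b => ?_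
    exact (hasDerivAt_evR d.κ (h.tdξ b) z ht).const_add (z b)
  have h2 : HasDerivAt (fun s => (Xm d s z, s)) ((fun b => evR d.κ (d.U b) z t), (1 : ℝ)) t :=
    h1.prodMk (hasDerivAt_id t)
  have h3 := HasFDerivAt.comp_hasDerivAt (f := fun s => (Xm d s z, s)) t
    (v11_fd hφ a (Xm d t z, t)) h2
  have h4 : (fderiv ℝ (fun p : (Fin 2 → ℝ) × ℝ => φ p.1 p.2 a) (Xm d t z, t))
      ((fun b => evR d.κ (d.U b) z t), (1 : ℝ)) =
      dtφ φ a (Xm d t z) t + ∑ b, evR d.κ (d.U b) z t * dφ φ b a (Xm d t z) t := by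
    have e : (((fun b => evR d.κ (d.U b) z t), (1 : ℝ)) : (Fin 2 → ℝ) × ℝ) =
        ((0 : Fin 2 → ℝ), (1 : ℝ)) +
          ∑ b, evR d.κ (d.U b) z t • ((Pi.single b 1 : Fin 2 → ℝ), (0 : ℝ)) := by
      rw [Fin.sum_univ_two]
      refine Prod.ext ?_ ?_
      · funext b
        fin_cases b <;> simp
      · simp
    rw [e, map_add, map_sum, v11_dtφ hφ a]
    congr 1
    refine Finset.sum_congr rfl fun b _ => ?_
    rw [map_smul, v11_dφ hφ b a, smul_eq_mul]
  rw [← h4]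
  exact h3

theorem hasDerivAt_prL (h : Good d t0 t1 lam g σ ρ c A) (hφ : Tst φ) {t : ℝ}
    (ht : t ∈ Set.Ioo t0 t1) : HasDerivAt (prL d φ) (prL' d φ t) t := by
  refine hasDerivAt_integral_Bx (a := t0) (b := t1)
    (G := fun z t => ∑ a, evR d.κ (d.v a) z t * φ (Xm d t z) t a)
    (G' := fun z t => ∑ a, (evR d.κ (d.rhs a) z t * φ (Xm d t z) t a
      + evR d.κ (d.v a) z t * (dtφ φ a (Xm d t z) t
        + ∑ b, evR d.κ (d.U b) z t * dφ φ b a (Xm d t z) t)))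
    (v11_c1 d hφ) (v11_c2 d hφ) (fun z s hs => ?_) ht
  refine HasDerivAt.fun_sum fun a _ => ?_
  exact (hasDerivAt_evR d.κ (h.tdv a) z hs).mul (hasDerivAt_φ_Xm h hφ a z hs)

end

end ES
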