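import Pool.Agent.ES.V11

/-!
ES-V12 (Part II, helper27): `wfL - prL'` is the pairing of the Reynolds stress with `Dφ`.

Fix `t`; all functions below are functions of `z`, periodic and `C¹`; `ψ_a = φ_a(X_t z, t)`,
`∂_j ψ_a = ∑_b F_{bj} (∂_b φ_a)(X)` (`fderiv_comp_Xm`).  The difference of the integrands is
`∑_a [ v_a ∑_b (v_b - U_b)(∂_b φ_a)(X) - rhs_a ψ_a ]`, and
`rhs_a = -(MᵀDp)_a + (D·(R Mᵀ))_a - (B·D) v_a`.
(1) `∑_b (v_b - U_b)(∂_b φ_a)(X) = ∑_j B_j ∂_j ψ_a` (`Good.evR_FB`).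
(2) `∫ ∑_a ∑_j [ v_a B_j ∂_j ψ_a + B_j ∂_j v_a ψ_a ] = -∫ ∑_a (D·B) v_a ψ_a = 0`
    (`integral_partial_zero` for `B_j v_a ψ_a`, `h.div`).
(3) `∫ ∑_a ∑_j M_{ja} D_j p ψ_a = -∫ p ∑_a ∑_j (D_j M_{ja} ψ_a + M_{ja} ∂_j ψ_a)
    = -∫ p ∑_a (∂_a φ_a)(X) = 0` (`piola`, `fderiv_comp_Xm'`, `hφ.div`).
(4) `-∫ ∑_a ∑_j D_j (R Mᵀ)_{aj} ψ_a = ∫ ∑_a ∑_j (R Mᵀ)_{aj} ∂_j ψ_a
    = ∫ ∑_{a,b} R_{ab} (∂_b φ_a)(X)` (`Good.evR_FM`).
The three identities are the lemmas below; the last theorem adds them.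
-/

open MeasureTheory

namespace ES

section

variable {d : Dat} {t0 t1 lam g σ ρ c A : ℝ} {φ : Fld}

private theorem v12_continuous_evR (κ : Kp) (f : WT) (t : ℝ) :
    Continuous fun z => evR κ f z t :=
  (continuous_evR κ f).comp (continuous_id.prodMk continuous_const)

private theorem v12_contDiff_evR (κ : Kp) (f : WT) (t : ℝ) :
    ContDiff ℝ 1 fun z => evR κ f z t := by
  rw [contDiff_one_iff_hasFDerivAt]
  refine ⟨fun z => ∑ a : Fin 2, evR κ (D κ a f) z t •
    (ContinuousLinearMap.proj a : (Fin 2 → ℝ) →L[ℝ] ℝ), ?_, fun z => hasFDerivAt_evR κ f z t⟩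
  refine continuous_finsetSum _ fun a _ => ?_
  exact (v12_continuous_evR κ _ t).smul continuous_const

private theorem v12_fderiv_evR (κ : Kp) (f : WT) (t : ℝ) (z : Fin 2 → ℝ) (j : Fin 2) :
    fderiv ℝ (fun z => evR κ f z t) z (Pi.single j 1) = evR κ (D κ j f) z t := by
  rw [(hasFDerivAt_evR κ f z t).fderiv]
  fin_cases j <;> simp

private theorem v12_per_evR (κ : Kp) (f : WT) (t : ℝ) : Per fun z => evR κ f z t :=
  fun z n => evR_periodic κ f z n t

private theorem v12_contDiff_phi {φ : Fld} (hφ : Tst φ) (t : ℝ) (a : Fin 2) :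
    ContDiff ℝ 1 fun y => φ y t a := by
  have h1 : ContDiff ℝ 2 (fun x : (Fin 2 → ℝ) × ℝ => φ x.1 x.2 a) :=
    (contDiff_pi.mp hφ.smooth) a
  exact (h1.comp (contDiff_id.prodMk contDiff_const)).of_le (by norm_num)

private theorem v12_contDiff_psi {φ : Fld} (hφ : Tst φ) (d : Dat) (t : ℝ) (a : Fin 2) :
    ContDiff ℝ 1 fun z => φ (Xm d t z) t a := by
  have h1 : ContDiff ℝ 1 (Xm d t) := by
    refine contDiff_pi.mpr fun b => ?_
    exact (contDiff_apply ℝ ℝ b).add (v12_contDiff_evR d.κ (d.ξ b) t)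
  exact (v12_contDiff_phi hφ t a).comp h1

private theorem v12_per_psi {φ : Fld} (hφ : Tst φ) (d : Dat) (t : ℝ) (a : Fin 2) :
    Per fun z => φ (Xm d t z) t a := by
  intro z n
  show φ (Xm d t fun a => z a + 2 * Real.pi * n a) t a = φ (Xm d t z) t a
  rw [Xm_periodic, hφ.per]

private theorem v12_per_mul {A B : (Fin 2 → ℝ) → ℝ} (hA : Per A) (hB : Per B) :
    Per fun z => A z * B z := by
  intro z n
  show A _ * B _ = A z * B z
  rw [hA, hB]

private theorem v12_diff {A : (Fin 2 → ℝ) → ℝ} (hA : ContDiff ℝ 1 A) (z : Fin 2 → ℝ) :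
    DifferentiableAt ℝ A z := (hA.differentiable (by norm_num)) z

private theorem v12_fderiv_mul {A B : (Fin 2 → ℝ) → ℝ} (hA : ContDiff ℝ 1 A)
    (hB : ContDiff ℝ 1 B) (z v : Fin 2 → ℝ) :
    fderiv ℝ (fun z => A z * B z) z v = fderiv ℝ A z v * B z + A z * fderiv ℝ B z v := by
  rw [fderiv_fun_mul (v12_diff hA z) (v12_diff hB z)]
  simp only [add_apply, smul_apply, smul_eq_mul]
  ring

private theorem v12_fderiv_psi {φ : Fld} (hφ : Tst φ) (d : Dat) (t : ℝ) (z : Fin 2 → ℝ)
    (a j : Fin 2) :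
    fderiv ℝ (fun z => φ (Xm d t z) t a) z (Pi.single j 1) =
      ∑ b, evR d.κ (d.F b j) z t * dφ φ b a (Xm d t z) t :=
  fderiv_comp_Xm d t (v12_diff (v12_contDiff_phi hφ t a) _) j

private theorem v12_continuous_dphi {φ : Fld} (hφ : Tst φ) (d : Dat) (t : ℝ) (b a : Fin 2) :
    Continuous fun z => dφ φ b a (Xm d t z) t := by
  have h1 : Continuous fun z => Xm d t z :=
    (continuous_Xm d).comp (continuous_id.prodMk continuous_const)
  exact (hφ.continuous_dφ b a).comp (h1.prodMk continuous_const)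

private theorem v12_continuous_dtphi {φ : Fld} (hφ : Tst φ) (d : Dat) (t : ℝ) (a : Fin 2) :
    Continuous fun z => dtφ φ a (Xm d t z) t := by
  have h1 : Continuous fun z => Xm d t z :=
    (continuous_Xm d).comp (continuous_id.prodMk continuous_const)
  exact (hφ.continuous_dtφ a).comp (h1.prodMk continuous_const)

private theorem v12_intg {A : (Fin 2 → ℝ) → ℝ} (hA : Continuous A) : IntegrableOn A Bx :=
  hA.integrableOn_Icc

private theorem v12_zero (G : Fin 2 → Fin 2 → (Fin 2 → ℝ) → ℝ)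
    (hG : ∀ a j, ContDiff ℝ 1 (G a j)) (hp : ∀ a j, Per (G a j)) :
    ∫ z in Bx, ∑ a, ∑ j, fderiv ℝ (G a j) z (Pi.single j 1) = 0 := by
  have hc : ∀ a j, Continuous fun z => fderiv ℝ (G a j) z (Pi.single j 1) := fun a j =>
    ((hG a j).continuous_fderiv (by norm_num)).clm_apply continuous_const
  rw [integral_finsetSum _ fun a _ => v12_intg (continuous_finsetSum _ fun j _ => hc a j)]
  refine Finset.sum_eq_zero fun a _ => ?_
  rw [integral_finsetSum _ fun j _ => v12_intg (hc a j)]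
  exact Finset.sum_eq_zero fun j _ => integral_partial_zero (hG a j) (hp a j) j

theorem V12_transport (h : Good d t0 t1 lam g σ ρ c A) (hφ : Tst φ) (t : ℝ) :
    ∫ z in Bx, ∑ a, (evR d.κ (d.v a) z t *
        (∑ b, (evR d.κ (d.v b) z t - evR d.κ (d.U b) z t) * dφ φ b a (Xm d t z) t)
      + evR d.κ (adv d.κ d.B d.v a) z t * φ (Xm d t z) t a) = 0 := by
  have key : ∀ z, ∑ a, (evR d.κ (d.v a) z t *
        (∑ b, (evR d.κ (d.v b) z t - evR d.κ (d.U b) z t) * dφ φ b a (Xm d t z) t)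
      + evR d.κ (adv d.κ d.B d.v a) z t * φ (Xm d t z) t a) =
      ∑ a, ∑ j, fderiv ℝ (fun z => evR d.κ (d.B j) z t *
        (evR d.κ (d.v a) z t * φ (Xm d t z) t a)) z (Pi.single j 1) := by
    intro z
    have hdiv : ∑ j, evR d.κ (D d.κ j (d.B j)) z t = 0 := by
      rw [← evR_sum]
      have := h.div
      unfold dvg at this
      rw [this, evR_zero]
    refine Finset.sum_congr rfl fun a _ => ?_
    have hadv : evR d.κ (adv d.κ d.B d.v a) z t =
        ∑ j, evR d.κ (d.B j) z t * evR d.κ (D d.κ j (d.v a)) z t := by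
      unfold adv
      rw [evR_sum]
      exact Finset.sum_congr rfl fun j _ => evR_mul (h.isR_B j) (h.rv a).D z t
    have hd : ∀ j : Fin 2, fderiv ℝ (fun z => evR d.κ (d.B j) z t *
        (evR d.κ (d.v a) z t * φ (Xm d t z) t a)) z (Pi.single j 1) =
        evR d.κ (D d.κ j (d.B j)) z t * (evR d.κ (d.v a) z t * φ (Xm d t z) t a) +
        (evR d.κ (d.B j) z t * evR d.κ (D d.κ j (d.v a)) z t * φ (Xm d t z) t a +
          evR d.κ (d.v a) z t * ∑ b, (evR d.κ (d.F b j) z t * evR d.κ (d.B j) z t) *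
            dφ φ b a (Xm d t z) t) := by
      intro j
      rw [v12_fderiv_mul (v12_contDiff_evR _ _ _)
        ((v12_contDiff_evR _ _ _).mul (v12_contDiff_psi hφ d t a)),
        v12_fderiv_mul (v12_contDiff_evR _ _ _) (v12_contDiff_psi hφ d t a),
        v12_fderiv_evR, v12_fderiv_evR, v12_fderiv_psi hφ]
      have e : ∑ b, (evR d.κ (d.F b j) z t * evR d.κ (d.B j) z t) * dφ φ b a (Xm d t z) t =
          evR d.κ (d.B j) z t * ∑ b, evR d.κ (d.F b j) z t * dφ φ b a (Xm d t z) t := by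
        rw [Finset.mul_sum]
        exact Finset.sum_congr rfl fun b _ => by ring
      rw [e]
      ring
    simp_rw [hd]
    rw [Finset.sum_add_distrib, ← Finset.sum_mul, hdiv, zero_mul, zero_add,
      Finset.sum_add_distrib, ← Finset.sum_mul, ← hadv, ← Finset.mul_sum, Finset.sum_comm]
    have e2 : ∀ b : Fin 2, ∑ j, (evR d.κ (d.F b j) z t * evR d.κ (d.B j) z t) *
        dφ φ b a (Xm d t z) t =
        (evR d.κ (d.v b) z t - evR d.κ (d.U b) z t) * dφ φ b a (Xm d t z) t := by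
      intro b
      rw [← Finset.sum_mul, h.evR_FB]
    simp_rw [e2]
    ring
  simp_rw [key]
  exact v12_zero _
    (fun a j => (v12_contDiff_evR _ _ _).mul
      ((v12_contDiff_evR _ _ _).mul (v12_contDiff_psi hφ d t a)))
    (fun a j => v12_per_mul (v12_per_evR _ _ _)
      (v12_per_mul (v12_per_evR _ _ _) (v12_per_psi hφ d t a)))

theorem V12_pressure (h : Good d t0 t1 lam g σ ρ c A) (hφ : Tst φ) (t : ℝ) :
    ∫ z in Bx, ∑ a, evR d.κ (gradT d.κ d.M d.p a) z t * φ (Xm d t z) t a = 0 := by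
  have key : ∀ z, ∑ a, evR d.κ (gradT d.κ d.M d.p a) z t * φ (Xm d t z) t a =
      ∑ a, ∑ j, fderiv ℝ (fun z => evR d.κ (d.M j a) z t *
        (evR d.κ d.p z t * φ (Xm d t z) t a)) z (Pi.single j 1) := by
    intro z
    have hpi : ∀ a : Fin 2, ∑ j, evR d.κ (D d.κ j (d.M j a)) z t = 0 := by
      intro a
      rw [← evR_sum, piolaM, evR_zero]
    have hdiv : ∑ a, dφ φ a a (Xm d t z) t = 0 := hφ.div (Xm d t z) t
    have hM : ∀ a : Fin 2, ∑ j, evR d.κ (d.M j a) z t *
        fderiv ℝ (fun z => φ (Xm d t z) t a) z (Pi.single j 1) = dφ φ a a (Xm d t z) t :=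
      fun a => (fderiv_comp_Xm' h t (v12_diff (v12_contDiff_phi hφ t a) _) a).symm
    have hg : ∀ a : Fin 2, evR d.κ (gradT d.κ d.M d.p a) z t =
        ∑ j, evR d.κ (d.M j a) z t * evR d.κ (D d.κ j d.p) z t := by
      intro a
      unfold gradT mulvT
      rw [evR_sum]
      exact Finset.sum_congr rfl fun j _ => evR_mul (h.isR_M j a) h.rp.D z t
    have hd : ∀ a j : Fin 2, fderiv ℝ (fun z => evR d.κ (d.M j a) z t *
        (evR d.κ d.p z t * φ (Xm d t z) t a)) z (Pi.single j 1) =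
        evR d.κ (D d.κ j (d.M j a)) z t * (evR d.κ d.p z t * φ (Xm d t z) t a) +
        (evR d.κ (d.M j a) z t * evR d.κ (D d.κ j d.p) z t * φ (Xm d t z) t a +
          evR d.κ d.p z t * (evR d.κ (d.M j a) z t *
            fderiv ℝ (fun z => φ (Xm d t z) t a) z (Pi.single j 1))) := by
      intro a j
      rw [v12_fderiv_mul (v12_contDiff_evR _ _ _)
        ((v12_contDiff_evR _ _ _).mul (v12_contDiff_psi hφ d t a)),
        v12_fderiv_mul (v12_contDiff_evR _ _ _) (v12_contDiff_psi hφ d t a),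
        v12_fderiv_evR, v12_fderiv_evR]
      ring
    have hs : ∀ a : Fin 2, ∑ j, fderiv ℝ (fun z => evR d.κ (d.M j a) z t *
        (evR d.κ d.p z t * φ (Xm d t z) t a)) z (Pi.single j 1) =
        evR d.κ (gradT d.κ d.M d.p a) z t * φ (Xm d t z) t a +
          evR d.κ d.p z t * dφ φ a a (Xm d t z) t := by
      intro a
      simp_rw [hd]
      rw [Finset.sum_add_distrib, ← Finset.sum_mul, hpi, zero_mul, zero_add,
        Finset.sum_add_distrib, ← Finset.sum_mul, ← hg, ← Finset.mul_sum, hM]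
    simp_rw [hs]
    rw [Finset.sum_add_distrib, ← Finset.mul_sum, hdiv, mul_zero, add_zero]
  simp_rw [key]
  exact v12_zero _
    (fun a j => (v12_contDiff_evR _ _ _).mul
      ((v12_contDiff_evR _ _ _).mul (v12_contDiff_psi hφ d t a)))
    (fun a j => v12_per_mul (v12_per_evR _ _ _)
      (v12_per_mul (v12_per_evR _ _ _) (v12_per_psi hφ d t a)))

theorem V12_stress (h : Good d t0 t1 lam g σ ρ c A) (hφ : Tst φ) (t : ℝ) :
    -∫ z in Bx, ∑ a, evR d.κ (dvm d.κ (mulT d.R d.M) a) z t * φ (Xm d t z) t a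
      = ∫ z in Bx, ∑ a, ∑ b, evR d.κ (d.R a b) z t * dφ φ b a (Xm d t z) t := by
  have key : ∀ z, ∑ a, evR d.κ (dvm d.κ (mulT d.R d.M) a) z t * φ (Xm d t z) t a +
      ∑ a, ∑ b, evR d.κ (d.R a b) z t * dφ φ b a (Xm d t z) t =
      ∑ a, ∑ j, fderiv ℝ (fun z => evR d.κ (mulT d.R d.M a j) z t * φ (Xm d t z) t a) z
        (Pi.single j 1) := by
    intro z
    rw [← Finset.sum_add_distrib]
    refine Finset.sum_congr rfl fun a _ => ?_
    have hX : ∀ j : Fin 2, evR d.κ (mulT d.R d.M a j) z t =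
        ∑ k, evR d.κ (d.R a k) z t * evR d.κ (d.M j k) z t := by
      intro j
      unfold mulT
      rw [evR_sum]
      exact Finset.sum_congr rfl fun k _ => evR_mul (h.rR a k) (h.isR_M j k) z t
    have hd : ∀ j : Fin 2, fderiv ℝ (fun z => evR d.κ (mulT d.R d.M a j) z t *
        φ (Xm d t z) t a) z (Pi.single j 1) =
        evR d.κ (D d.κ j (mulT d.R d.M a j)) z t * φ (Xm d t z) t a +
        ∑ k, ∑ b, evR d.κ (d.R a k) z t * dφ φ b a (Xm d t z) t *
          (evR d.κ (d.F b j) z t * evR d.κ (d.M j k) z t) := by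
      intro j
      rw [v12_fderiv_mul (v12_contDiff_evR _ _ _) (v12_contDiff_psi hφ d t a),
        v12_fderiv_evR, v12_fderiv_psi hφ, hX, Finset.sum_mul_sum]
      congr 1
      refine Finset.sum_congr rfl fun k _ => Finset.sum_congr rfl fun b _ => ?_
      ring
    simp_rw [hd]
    rw [Finset.sum_add_distrib, ← Finset.sum_mul]
    congr 1
    · unfold dvm
      rw [evR_sum]
    · rw [Finset.sum_comm]
      refine Finset.sum_congr rfl fun k _ => ?_
      rw [Finset.sum_comm]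
      have e : ∀ b : Fin 2, ∑ j, evR d.κ (d.R a k) z t * dφ φ b a (Xm d t z) t *
          (evR d.κ (d.F b j) z t * evR d.κ (d.M j k) z t) =
          evR d.κ (d.R a k) z t * dφ φ b a (Xm d t z) t * (if b = k then 1 else 0) := by
        intro b
        rw [← Finset.mul_sum, h.evR_FM]
      simp_rw [e]
      simp
  have hz := v12_zero (fun a j z => evR d.κ (mulT d.R d.M a j) z t * φ (Xm d t z) t a)
    (fun a j => (v12_contDiff_evR _ _ _).mul (v12_contDiff_psi hφ d t a))
    (fun a j => v12_per_mul (v12_per_evR _ _ _) (v12_per_psi hφ d t a))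
  simp_rw [← key] at hz
  rw [integral_add] at hz
  · linarith
  · exact v12_intg (continuous_finsetSum _ fun a _ =>
      (v12_continuous_evR _ _ _).mul (v12_contDiff_psi hφ d t a).continuous)
  · exact v12_intg (continuous_finsetSum _ fun a _ => continuous_finsetSum _ fun b _ =>
      (v12_continuous_evR _ _ _).mul (v12_continuous_dphi hφ d t b a))

theorem wfL_sub_prL' (h : Good d t0 t1 lam g σ ρ c A) (hφ : Tst φ) (t : ℝ) :
    wfL d φ t - prL' d φ t
      = ∫ z in Bx, ∑ a, ∑ b, evR d.κ (d.R a b) z t * dφ φ b a (Xm d t z) t := by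
  have hψ : ∀ a : Fin 2, Continuous fun z => φ (Xm d t z) t a := fun a =>
    (v12_contDiff_psi hφ d t a).continuous
  have he : ∀ f : WT, Continuous fun z => evR d.κ f z t := fun f => v12_continuous_evR _ _ _
  have hΦ : ∀ b a : Fin 2, Continuous fun z => dφ φ b a (Xm d t z) t := fun b a =>
    v12_continuous_dphi hφ d t b a
  have ht : ∀ a : Fin 2, Continuous fun z => dtφ φ a (Xm d t z) t := fun a =>
    v12_continuous_dtphi hφ d t a
  have h1 := V12_transport h hφ t
  have h2 := V12_pressure h hφ t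
  have h3 := V12_stress h hφ t
  rw [← h3]
  unfold wfL prL'
  rw [← integral_sub]
  · have e : ∀ z, ((∑ a, evR d.κ (d.v a) z t * dtφ φ a (Xm d t z) t)
        + ∑ a, ∑ b, evR d.κ (d.v a) z t * evR d.κ (d.v b) z t * dφ φ b a (Xm d t z) t) -
        (∑ a, (evR d.κ (d.rhs a) z t * φ (Xm d t z) t a
          + evR d.κ (d.v a) z t * (dtφ φ a (Xm d t z) t
            + ∑ b, evR d.κ (d.U b) z t * dφ φ b a (Xm d t z) t))) =
        ((∑ a, (evR d.κ (d.v a) z t *
            (∑ b, (evR d.κ (d.v b) z t - evR d.κ (d.U b) z t) * dφ φ b a (Xm d t z) t)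
          + evR d.κ (adv d.κ d.B d.v a) z t * φ (Xm d t z) t a)) +
        ∑ a, evR d.κ (gradT d.κ d.M d.p a) z t * φ (Xm d t z) t a) -
        ∑ a, evR d.κ (dvm d.κ (mulT d.R d.M) a) z t * φ (Xm d t z) t a := by
      intro z
      have hr : ∀ a : Fin 2, evR d.κ (d.rhs a) z t =
          -evR d.κ (gradT d.κ d.M d.p a) z t + evR d.κ (dvm d.κ (mulT d.R d.M) a) z t -
            evR d.κ (adv d.κ d.B d.v a) z t := by
        intro a
        unfold Dat.rhs Dat.acc
        rw [evR_sub, evR_add, evR_neg]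
      simp_rw [hr, Fin.sum_univ_two]
      ring
    simp_rw [e]
    rw [integral_sub, integral_add, h1, h2]
    · ring
    · exact v12_intg (continuous_finsetSum _ fun a _ => ((he _).mul
        (continuous_finsetSum _ fun b _ => ((he _).sub (he _)).mul (hΦ b a))).add
          ((he _).mul (hψ a)))
    · exact v12_intg (continuous_finsetSum _ fun a _ => (he _).mul (hψ a))
    · exact v12_intg ((continuous_finsetSum _ fun a _ => ((he _).mul
        (continuous_finsetSum _ fun b _ => ((he _).sub (he _)).mul (hΦ b a))).add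
          ((he _).mul (hψ a))).add (continuous_finsetSum _ fun a _ => (he _).mul (hψ a)))
    · exact v12_intg (continuous_finsetSum _ fun a _ => (he _).mul (hψ a))
  · exact v12_intg ((continuous_finsetSum _ fun a _ => (he _).mul (ht a)).add
      (continuous_finsetSum _ fun a _ => continuous_finsetSum _ fun b _ =>
        ((he _).mul (he _)).mul (hΦ b a)))
  · exact v12_intg (continuous_finsetSum _ fun a _ => ((he _).mul (hψ a)).add
      ((he _).mul ((ht a).add (continuous_finsetSum _ fun b _ => (he _).mul (hΦ b a)))))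

end

end ES
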