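import Pool.Agent.ES.V12

/-!
ES-V13 (Part II, helper27): the fact `weak`.

With data `d` of `h`: `∫_{t0}^{t1} wf V φ = ∫ wfL = ∫ prL' + ∫ (stress pairing)`, and
`∫_{t0}^{t1} prL' = prL(t1) - prL(t0)` (`intervalIntegral.integral_eq_sub_of_hasDerivAt_of_le`,
`hasDerivAt_prL`, continuity of `prL`, `prL'`).  The stress pairing at each time is at most
`4 σ Λ (2π)^2` (`wfL_sub_prL'`, `Good.abs_R`, `abs_integral_Bx_le`).
-/

open MeasureTheory

namespace ES

theorem fact_weak (V : Fld) (t0 t1 lam g σ ρ c A : ℝ) (h : BI V t0 t1 lam g σ ρ c A) (hρ : 0 < ρ)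
    (h0 : 0 ≤ c) (hc : c ≤ 1 / 10) : WE V t0 t1 (4 * (2 * Real.pi) ^ 2 * σ) := by
  obtain ⟨d, hd, hV⟩ := h
  intro φ hφ Λ hΛ
  have hlt := hd.ht
  have hle := hlt.le
  -- bound of the stress pairing
  have hb : ∀ t, |wfL d φ t - prL' d φ t| ≤ 4 * σ * Λ * (2 * Real.pi) ^ 2 := by
    intro t
    rw [wfL_sub_prL' hd hφ t]
    refine (abs_integral_Bx_le (C := 4 * σ * Λ) fun z => ?_).trans (le_refl _)
    have h1 : ∀ a b, |evR d.κ (d.R a b) z t * dφ φ b a (Xm d t z) t| ≤ σ * Λ := by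
      intro a b
      rw [abs_mul]
      exact mul_le_mul (hd.abs_R hρ.le a b z t) (hΛ _ _ _ _) (abs_nonneg _)
        ((abs_nonneg _).trans (hd.abs_R hρ.le a b z t))
    simp only [Fin.sum_univ_two]
    have e := fun a b => abs_le.1 (h1 a b)
    rw [abs_le]
    constructor <;> linarith [(e 0 0).1, (e 0 0).2, (e 0 1).1, (e 0 1).2, (e 1 0).1, (e 1 0).2,
      (e 1 1).1, (e 1 1).2]
  -- fundamental theorem for prL
  have hF : ∫ τ in t0..t1, prL' d φ τ = prL d φ t1 - prL d φ t0 :=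
    intervalIntegral.integral_eq_sub_of_hasDerivAt_of_le hle (continuous_prL d hφ).continuousOn
      (fun t ht => hasDerivAt_prL hd hφ ht) ((continuous_prL' d hφ).intervalIntegrable _ _)
  have hW : ∫ τ in t0..t1, wf V φ τ = ∫ τ in t0..t1, wfL d φ τ := by
    apply intervalIntegral.integral_congr
    intro τ hτ
    rw [Set.uIcc_of_le hle] at hτ
    exact wf_eq hd hρ.le hc hV hφ hτ
  have hS : (∫ τ in t0..t1, wfL d φ τ) - (∫ τ in t0..t1, prL' d φ τ)
      = ∫ τ in t0..t1, (wfL d φ τ - prL' d φ τ) :=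
    (intervalIntegral.integral_sub ((continuous_wfL d hφ).intervalIntegrable _ _)
      ((continuous_prL' d hφ).intervalIntegrable _ _)).symm
  rw [hW, pr_eq hd hρ.le hc hV hφ (Set.right_mem_Icc.2 hle),
    pr_eq hd hρ.le hc hV hφ (Set.left_mem_Icc.2 hle), ← hF, hS]
  have h2 := intervalIntegral.norm_integral_le_of_norm_le_const
    (a := t0) (b := t1) (f := fun τ => wfL d φ τ - prL' d φ τ)
    (C := 4 * σ * Λ * (2 * Real.pi) ^ 2) (fun x _ => by rw [Real.norm_eq_abs]; exact hb x)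
  rw [Real.norm_eq_abs, abs_of_nonneg (by linarith : (0:ℝ) ≤ t1 - t0)] at h2
  refine h2.trans (le_of_eq ?_)
  ring

end ES
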