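import Pool.Agent.ES.V05

/-!
ES-V14 (Part II, helper27): continuity and time derivative at fixed Eulerian points.

Let `Y` be the inverse of `X` (`Good.exists_inv`).  A field `G` represented by `f` on `[t0,t1]` is
`G(x,t) = evR f (Y(x,t)) t`: jointly continuous.
Time derivative of the inverse at `t ∈ (t0,t1)`, `z = Y(x,t)`: put `y(s) = Y(x,s)`, so
`X_s(y(s)) = x`.  The map `(z,s) ↦ X_s(z)` is strictly differentiable at `(z,t)`
(`hasStrictFDerivAt_evR` with `h.tdξ`), with derivative `(w,τ) ↦ DX w + τ U`.  Moreover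
`‖y(s) - z‖ ≤ 2 ‖X_s(y(s)) - X_s(z)‖ = 2 ‖X_t(z) - X_s(z)‖ = O(|s-t|)` (`Good.inv_lip`).
Hence `0 = X_s(y(s)) - X_t(z) = DX (y(s)-z) + (s-t) U + o(|s-t|)`; apply `DY`:
`y'(t) = -DY U`, component `j`: `-∑_b M_{jb} U_b`.
(Or use `HasStrictFDerivAt.to_localInverse` for `(z,s) ↦ (X_s z, s)`.)
Then by the chain rule (`hasStrictFDerivAt_evR`)
`∂_t G = f' - ∑_j (D_j f) ∑_b M_{jb} U_b = f' - ∑_b U_b ED_b f`.
-/

namespace ES

/-- `f` represents `G` on `[t0,t1]`. -/
def RepS (d : Dat) (t0 t1 : ℝ) (G : (Fin 2 → ℝ) → ℝ → ℝ) (f : WT) : Prop :=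
  ∀ t ∈ Set.Icc t0 t1, RepT d t (fun x => G x t) f

theorem Rep.repS {d : Dat} {V : Fld} {t0 t1 : ℝ} (h : Rep d V t0 t1) (a : Fin 2) :
    RepS d t0 t1 (fun x t => V x t a) (d.v a) :=
  fun t ht z => (h t ht).2 z a

section

variable {d : Dat} {t0 t1 lam g σ ρ c A : ℝ}

theorem RepS.continuousOn (h : Good d t0 t1 lam g σ ρ c A) (hρ : 0 ≤ ρ) (hc : c ≤ 1 / 10)
    {G : (Fin 2 → ℝ) → ℝ → ℝ} {f : WT} (hG : RepS d t0 t1 G f) :
    ContinuousOn (fun p : (Fin 2 → ℝ) × ℝ => G p.1 p.2) (Set.univ ×ˢ Set.Icc t0 t1) := by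
  obtain ⟨Y, hY1, -, hY3⟩ := h.exists_inv hρ hc
  have h1 : Continuous fun p : (Fin 2 → ℝ) × ℝ => evR d.κ f (Y p.2 p.1) p.2 :=
    (continuous_evR d.κ f).comp (hY3.prodMk continuous_snd)
  refine h1.continuousOn.congr fun p hp => ?_
  have h2 := hG p.2 hp.2 (Y p.2 p.1)
  rw [hY1] at h2
  exact h2

/-- Strict derivative of `(z,s) ↦ X_s z`. -/
private theorem v14_strict (h : Good d t0 t1 lam g σ ρ c A) (z : Fin 2 → ℝ) {t : ℝ}
    (ht : t ∈ Set.Ioo t0 t1) :
    HasStrictFDerivAt (fun p : (Fin 2 → ℝ) × ℝ => Xm d p.2 p.1)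
      ((DX d t z).comp (ContinuousLinearMap.fst ℝ (Fin 2 → ℝ) ℝ) +
        (ContinuousLinearMap.snd ℝ (Fin 2 → ℝ) ℝ).smulRight
          (fun a => evR d.κ (d.U a) z t)) (z, t) := by
  rw [hasStrictFDerivAt_pi']
  intro a
  have h1 := hasStrictFDerivAt_evR d.κ (h.tdξ a) z ht
  have h2 : HasStrictFDerivAt (fun p : (Fin 2 → ℝ) × ℝ => p.1 a)
      ((ContinuousLinearMap.proj a : (Fin 2 → ℝ) →L[ℝ] ℝ).comp
        (ContinuousLinearMap.fst ℝ (Fin 2 → ℝ) ℝ)) (z, t) :=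
    ((ContinuousLinearMap.proj a : (Fin 2 → ℝ) →L[ℝ] ℝ).comp
        (ContinuousLinearMap.fst ℝ (Fin 2 → ℝ) ℝ)).hasStrictFDerivAt
  refine (h2.add h1).congr_fderiv ?_
  ext1
  · ext w
    simp only [add_apply, ContinuousLinearMap.comp_apply,
      ContinuousLinearMap.inl_apply, ContinuousLinearMap.proj_apply,
      ContinuousLinearMap.coe_fst', ContinuousLinearMap.coe_snd', sum_apply,
      smul_apply, smul_eq_mul, mul_zero, add_zero,
      ContinuousLinearMap.smulRight_apply, zero_smul]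
    rw [DX_apply]
    have h3 : ∀ b, evR d.κ (d.F a b) z t = (if a = b then 1 else 0) +
        evR d.κ (D d.κ b (d.ξ a)) z t := by
      intro b
      have h4 : d.F a b = idm a b + D d.κ b (d.ξ a) := rfl
      rw [h4, evR_add]
      congr 1
      unfold idm
      split_ifs
      · exact evR_one _ _ _
      · exact evR_zero _ _ _
    simp only [h3, add_mul, Finset.sum_add_distrib]
    congr 1
    simp
  · ext
    simp

/-- Time derivative of the inverse map, as a vector. -/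
private theorem v14_inv (h : Good d t0 t1 lam g σ ρ c A) (hρ : 0 ≤ ρ) (hc : c ≤ 1 / 10)
    {Y : ℝ → (Fin 2 → ℝ)} {x : Fin 2 → ℝ} (hY : ∀ s, Xm d s (Y s) = x) {t : ℝ}
    (ht : t ∈ Set.Ioo t0 t1) :
    HasDerivAt Y (-(DY d t (Y t) (fun a => evR d.κ (d.U a) (Y t) t))) t := by
  set z := Y t with hz
  set U : Fin 2 → ℝ := fun a => evR d.κ (d.U a) z t with hU
  have hS := v14_strict h z ht
  have hF : HasFDerivAt (fun p : (Fin 2 → ℝ) × ℝ => Xm d p.2 p.1)
      ((DX d t z).comp (ContinuousLinearMap.fst ℝ (Fin 2 → ℝ) ℝ) +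
        (ContinuousLinearMap.snd ℝ (Fin 2 → ℝ) ℝ).smulRight U) (z, t) := hS.hasFDerivAt
  -- `s ↦ X_s z` is differentiable
  have h1 : HasDerivAt (fun s => Xm d s z) U t := by
    have h2 : HasDerivAt (fun s : ℝ => ((z, s) : (Fin 2 → ℝ) × ℝ)) (0, 1) t :=
      (hasDerivAt_const t z).prodMk (hasDerivAt_id t)
    have h3 := hF.comp_hasDerivAt t h2
    refine h3.congr_deriv ?_
    simp
  have hO : (fun s => Y s - z) =O[nhds t] fun s => s - t := by
    have h4 : (fun s => Xm d s z - Xm d t z) =O[nhds t] fun s => s - t := h1.isBigO_sub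
    refine (Asymptotics.IsBigO.of_bound 2 (Filter.Eventually.of_forall fun s => ?_)).trans h4
    have h5 := h.inv_lip hρ hc s (Y s) z
    rw [hY s, ← hY t, ← hz, norm_sub_rev (Xm d t z)] at h5
    exact h5
  have hT : Filter.Tendsto (fun s => ((Y s, s) : (Fin 2 → ℝ) × ℝ)) (nhds t) (nhds (z, t)) := by
    rw [nhds_prod_eq]
    refine Filter.Tendsto.prodMk ?_ Filter.tendsto_id
    have h6 : Filter.Tendsto (fun s => Y s - z) (nhds t) (nhds 0) := by
      refine hO.trans_tendsto ?_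
      have : Filter.Tendsto (fun s : ℝ => s - t) (nhds t) (nhds (t - t)) :=
        (continuous_id.sub continuous_const).tendsto t
      rwa [sub_self] at this
    have h7 := h6.add_const z
    simpa using h7
  have hO2 : (fun s => ((Y s, s) : (Fin 2 → ℝ) × ℝ) - (z, t)) =O[nhds t] fun s => s - t := by
    have e : (fun s => ((Y s, s) : (Fin 2 → ℝ) × ℝ) - (z, t)) = fun s => (Y s - z, s - t) := rfl
    rw [e]
    exact hO.prod_left (Asymptotics.isBigO_refl _ _)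
  have hlo := ((hasFDerivAt_iff_isLittleO.1 hF).comp_tendsto hT).trans_isBigO hO2
  have hlo2 : (fun s => DX d t z (Y s - z) + (s - t) • U) =o[nhds t] fun s => s - t := by
    refine (hlo.neg_left).congr_left fun s => ?_
    simp only [Function.comp_apply, hY, add_apply,
      ContinuousLinearMap.comp_apply, ContinuousLinearMap.coe_fst', ContinuousLinearMap.coe_snd',
      ContinuousLinearMap.smulRight_apply, Prod.fst_sub, Prod.snd_sub]
    rw [← hY t, ← hz]
    abel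
  have hlo3 : (fun s => DY d t z (DX d t z (Y s - z) + (s - t) • U)) =o[nhds t]
      fun s => s - t :=
    ((DY d t z).isBigO_comp _ _).trans_isLittleO hlo2
  rw [hasDerivAt_iff_isLittleO]
  refine hlo3.congr_left fun s => ?_
  rw [map_add, map_smul, h.DY_DX, smul_neg, sub_neg_eq_add]

/-- Time derivative of the inverse map. -/
theorem hasDerivAt_inv (h : Good d t0 t1 lam g σ ρ c A) (hρ : 0 ≤ ρ) (hc : c ≤ 1 / 10)
    {Y : ℝ → (Fin 2 → ℝ)} {x : Fin 2 → ℝ} (hY : ∀ s, Xm d s (Y s) = x) {t : ℝ}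
    (ht : t ∈ Set.Ioo t0 t1) (j : Fin 2) :
    HasDerivAt (fun s => Y s j)
      (-∑ b, evR d.κ (d.M j b) (Y t) t * evR d.κ (d.U b) (Y t) t) t := by
  have h1 := (hasDerivAt_pi.1 (v14_inv h hρ hc hY ht)) j
  refine h1.congr_deriv ?_
  rw [Pi.neg_apply, DY_apply]

theorem RepS.hasDerivAt (h : Good d t0 t1 lam g σ ρ c A) (hρ : 0 ≤ ρ) (hc : c ≤ 1 / 10)
    {G : (Fin 2 → ℝ) → ℝ → ℝ} {f f' : WT} (hf : IsR f) (hf' : TD t0 t1 f f')
    (hG : RepS d t0 t1 G f) {t : ℝ} (ht : t ∈ Set.Ioo t0 t1) (z : Fin 2 → ℝ) :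
    HasDerivAt (fun s => G (Xm d t z) s)
      (evR d.κ f' z t - ∑ b, evR d.κ (d.U b) z t * evR d.κ (ED d b f) z t) t := by
  obtain ⟨Y, hY1, hY2, -⟩ := h.exists_inv hρ hc
  set x := Xm d t z with hx
  have hYt : Y t x = z := hY2 t z
  have h1 := v14_inv h hρ hc (Y := fun s => Y s x) (fun s => hY1 s x) ht
  simp only [hYt] at h1
  have h2 : HasDerivAt (fun s => ((Y s x, s) : (Fin 2 → ℝ) × ℝ))
      (-(DY d t z (fun a => evR d.κ (d.U a) z t)), 1) t := h1.prodMk (hasDerivAt_id t)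
  have h3 := hasStrictFDerivAt_evR d.κ hf' z ht
  have h3' : HasFDerivAt (fun p : (Fin 2 → ℝ) × ℝ => evR d.κ f p.1 p.2)
      ((∑ a : Fin 2, evR d.κ (D d.κ a f) z t •
          ((ContinuousLinearMap.proj a : (Fin 2 → ℝ) →L[ℝ] ℝ).comp
            (ContinuousLinearMap.fst ℝ (Fin 2 → ℝ) ℝ))) +
        evR d.κ f' z t • ContinuousLinearMap.snd ℝ (Fin 2 → ℝ) ℝ) (Y t x, t) := by
    rw [hYt]; exact h3.hasFDerivAt
  have h4 := HasFDerivAt.comp_hasDerivAt (f := fun s => ((Y s x, s) : (Fin 2 → ℝ) × ℝ)) t h3' h2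
  have h5 : HasDerivAt (fun s => G x s)
      (((∑ a : Fin 2, evR d.κ (D d.κ a f) z t •
          ((ContinuousLinearMap.proj a : (Fin 2 → ℝ) →L[ℝ] ℝ).comp
            (ContinuousLinearMap.fst ℝ (Fin 2 → ℝ) ℝ))) +
        evR d.κ f' z t • ContinuousLinearMap.snd ℝ (Fin 2 → ℝ) ℝ)
        (-(DY d t z (fun a => evR d.κ (d.U a) z t)), 1)) t := by
    refine h4.congr_of_eventuallyEq ?_
    filter_upwards [Icc_mem_nhds ht.1 ht.2] with s hs
    have h6 := hG s hs (Y s x)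
    simp only [hY1] at h6
    exact h6
  refine h5.congr_deriv ?_
  have hED : ∀ b, evR d.κ (ED d b f) z t = ∑ j, evR d.κ (d.M j b) z t *
      evR d.κ (D d.κ j f) z t := by
    intro b
    unfold ED
    rw [evR_sum]
    exact Finset.sum_congr rfl fun j _ => evR_mul (h.isR_M j b) hf.D z t
  simp only [hED, add_apply,
    smul_apply, ContinuousLinearMap.comp_apply,
    ContinuousLinearMap.coe_fst', ContinuousLinearMap.coe_snd', ContinuousLinearMap.proj_apply,
    smul_eq_mul, Pi.neg_apply, DY_apply, Fin.sum_univ_two]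
  ring

end

end ES
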