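import Pool.Agent.ES.V14

/-!
ES-V15 (Part II, helper27): the fact `lip`.

Space: `∂_b V_a` is represented by `ED d b (v a) = ∑_j M_{jb} D_j v_a`, bounded by
`g (|M_{0b}| + |M_{1b}|) ≤ g (1 + 2 c) ≤ 2 g` (`Good.abs_G`, `Good.abs_M_sub`); hence
`|V(x,t,a) - V(y,t,a)| ≤ 4 g ‖x-y‖` (mean value inequality).
Time: at `x = X_t(z)`, `t ∈ (t0,t1)`:
`∂_t V_a = rhs_a - ∑_b U_b ED_b v_a = acc_a - (B·D) v_a - ∑_b U_b ED_b v_a = acc_a - ∑_b v_b ED_b v_a`
since `B_j = ∑_b M_{jb}(v_b - U_b)`; so `|∂_t V_a| ≤ A + 2 v0 · 2 g`.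
Mean value theorem on `[t0,t1]`, using the continuity of `t ↦ V x t a` on `[t0,t1]`
(`RepS.continuousOn`).  (`v0 ≥ 0`, as it bounds an absolute value.)
-/

namespace ES

section

variable {d : Dat} {t0 t1 lam g σ ρ c A v0 : ℝ} {V : Fld}

private theorem v15_ED (h : Good d t0 t1 lam g σ ρ c A) (f : WT) (hf : IsR f) (b : Fin 2)
    (z : Fin 2 → ℝ) (t : ℝ) :
    evR d.κ (ED d b f) z t = ∑ j, evR d.κ (d.M j b) z t * evR d.κ (D d.κ j f) z t := by
  unfold ED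
  rw [evR_sum]
  exact Finset.sum_congr rfl fun j _ => evR_mul (h.isR_M j b) hf.D z t

private theorem v15_ED_bound (h : Good d t0 t1 lam g σ ρ c A) (hρ : 0 ≤ ρ) (hc : c ≤ 1 / 10)
    (a b : Fin 2) (z : Fin 2 → ℝ) (t : ℝ) : |evR d.κ (ED d b (d.v a)) z t| ≤ 2 * g := by
  rw [v15_ED h _ (h.rv a)]
  have hg : 0 ≤ g := (abs_nonneg _).trans (h.abs_G hρ a 0 z t)
  have hM : ∀ j, |evR d.κ (d.M j b) z t| ≤ (if j = b then 1 else 0) + c := by
    intro j
    have h1 := h.abs_M_sub hρ j b z t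
    split_ifs at h1 ⊢ with hj
    · have := abs_sub_abs_le_abs_sub (evR d.κ (d.M j b) z t) 1
      rw [abs_one] at this; linarith
    · rw [sub_zero] at h1; linarith
  have hterm : ∀ j, |evR d.κ (d.M j b) z t * evR d.κ (D d.κ j (d.v a)) z t|
      ≤ ((if j = b then 1 else 0) + c) * g := by
    intro j
    rw [abs_mul]
    exact mul_le_mul (hM j) (h.abs_G hρ a j z t) (abs_nonneg _) ((abs_nonneg _).trans (hM j))
  refine (Finset.abs_sum_le_sum_abs _ _).trans ((Finset.sum_le_sum fun j _ => hterm j).trans ?_)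
  rw [Fin.sum_univ_two]
  have : ((if (0 : Fin 2) = b then (1:ℝ) else 0) + c) * g + ((if (1 : Fin 2) = b then (1:ℝ) else 0) + c) * g
      = (1 + 2 * c) * g := by
    fin_cases b
    · simp; ring
    · simp; ring
  rw [this]
  nlinarith

theorem V15_space (h : Good d t0 t1 lam g σ ρ c A) (hρ : 0 ≤ ρ) (hc0 : 0 ≤ c) (hc : c ≤ 1 / 10)
    (hV : Rep d V t0 t1) {t : ℝ} (ht : t ∈ Set.Icc t0 t1) (x y : Fin 2 → ℝ) (a : Fin 2) :
    |V x t a - V y t a| ≤ 4 * g * ‖x - y‖ := by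
  have hR : RepT d t (fun x => V x t a) (d.v a) := hV.repS a t ht
  have hbij := h.bij hρ hc t
  have hg : 0 ≤ g := (abs_nonneg _).trans (h.abs_G hρ a 0 x t)
  have hd : ∀ w : Fin 2 → ℝ, ∃ f' : (Fin 2 → ℝ) →L[ℝ] ℝ,
      HasFDerivAt (fun x => V x t a) f' w ∧ ‖f'‖ ≤ 4 * g := by
    intro w
    obtain ⟨z, rfl⟩ := hbij.2 w
    refine ⟨_, RepT.hasFDerivAt h hρ hc (h.rv a) hR z, ?_⟩
    refine ContinuousLinearMap.opNorm_le_bound _ (by positivity) fun u => ?_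
    rw [ContinuousLinearMap.sum_apply, Real.norm_eq_abs]
    refine (Finset.abs_sum_le_sum_abs _ _).trans ?_
    have h1 : ∀ b : Fin 2, |(evR d.κ (ED d b (d.v a)) z t •
        (ContinuousLinearMap.proj b : (Fin 2 → ℝ) →L[ℝ] ℝ)) u| ≤ 2 * g * ‖u‖ := by
      intro b
      rw [ContinuousLinearMap.smul_apply, ContinuousLinearMap.proj_apply, smul_eq_mul, abs_mul]
      have h2 : |u b| ≤ ‖u‖ := by
        have := norm_le_pi_norm u b
        rwa [Real.norm_eq_abs] at this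
      exact mul_le_mul (v15_ED_bound h hρ hc a b z t) h2 (abs_nonneg _) (by positivity)
    refine (Finset.sum_le_sum fun b _ => h1 b).trans (le_of_eq ?_)
    rw [Fin.sum_univ_two]; ring
  choose f' hf' hb using hd
  have := Convex.norm_image_sub_le_of_norm_hasFDerivWithin_le (s := Set.univ)
    (fun w _ => (hf' w).hasFDerivWithinAt) (fun w _ => hb w) convex_univ (Set.mem_univ y)
    (Set.mem_univ x)
  simpa [Real.norm_eq_abs] using this

theorem V15_time_deriv (h : Good d t0 t1 lam g σ ρ c A) (hρ : 0 ≤ ρ) (hc0 : 0 ≤ c)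
    (hc : c ≤ 1 / 10) (hV : Rep d V t0 t1)
    (hv : ∀ x, ∀ t ∈ Set.Icc t0 t1, ∀ a, |V x t a| ≤ v0) {t : ℝ} (ht : t ∈ Set.Ioo t0 t1)
    (x : Fin 2 → ℝ) (a : Fin 2) :
    ∃ y : ℝ, HasDerivAt (fun s => V x s a) y t ∧ |y| ≤ A + 4 * g * v0 := by
  have htc : t ∈ Set.Icc t0 t1 := Set.Ioo_subset_Icc_self ht
  obtain ⟨z, rfl⟩ := (h.bij hρ hc t).2 x
  refine ⟨_, RepS.hasDerivAt h hρ hc (h.rv a) (h.tdv a) (hV.repS a) ht z, ?_⟩
  -- the derivative equals acc - v·ED v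
  have hadv : evR d.κ (adv d.κ d.B d.v a) z t
      = ∑ j, evR d.κ (d.B j) z t * evR d.κ (D d.κ j (d.v a)) z t := by
    unfold adv
    rw [evR_sum]
    exact Finset.sum_congr rfl fun j _ => evR_mul (h.isR_B j) (h.rv a).D z t
  have hB : ∀ j, evR d.κ (d.B j) z t
      = ∑ b, evR d.κ (d.M j b) z t * (evR d.κ (d.v b) z t - evR d.κ (d.U b) z t) := by
    intro j
    have h1 : d.B j = ∑ b, d.M j b * (d.v - d.U) b := rfl
    rw [h1, evR_sum]
    refine Finset.sum_congr rfl fun b _ => ?_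
    rw [Pi.sub_apply, evR_mul (h.isR_M j b) ((h.rv b).sub (h.rU b)), evR_sub]
  have hrhs : evR d.κ (d.rhs a) z t = evR d.κ (d.acc a) z t - evR d.κ (adv d.κ d.B d.v a) z t := by
    unfold Dat.rhs
    rw [evR_sub]
  have hED := fun b => v15_ED h (d.v a) (h.rv a) b z t
  have key : evR d.κ (d.rhs a) z t - ∑ b, evR d.κ (d.U b) z t * evR d.κ (ED d b (d.v a)) z t
      = evR d.κ (d.acc a) z t - ∑ b, evR d.κ (d.v b) z t * evR d.κ (ED d b (d.v a)) z t := by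
    rw [hrhs, hadv]
    simp only [Fin.sum_univ_two, hED, hB]
    ring
  rw [key]
  have h1 := h.abs_acc hρ a z t
  have h2 : ∀ b, |evR d.κ (d.v b) z t * evR d.κ (ED d b (d.v a)) z t| ≤ v0 * (2 * g) := by
    intro b
    have h3 : |evR d.κ (d.v b) z t| ≤ v0 := by
      rw [← (hV t htc).2 z b]
      exact hv _ t htc b
    rw [abs_mul]
    exact mul_le_mul h3 (v15_ED_bound h hρ hc a b z t) (abs_nonneg _) ((abs_nonneg _).trans h3)
  have h4 : |∑ b, evR d.κ (d.v b) z t * evR d.κ (ED d b (d.v a)) z t| ≤ 4 * g * v0 := by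
    refine (Finset.abs_sum_le_sum_abs _ _).trans ((Finset.sum_le_sum fun b _ => h2 b).trans
      (le_of_eq ?_))
    rw [Fin.sum_univ_two]; ring
  exact (abs_sub _ _).trans (add_le_add h1 h4)

end

theorem fact_lip (V : Fld) (t0 t1 lam g σ ρ c A v0 : ℝ) (h : BI V t0 t1 lam g σ ρ c A)
    (hρ : 0 < ρ) (h0 : 0 ≤ c) (hc : c ≤ 1 / 10)
    (hv : ∀ x, ∀ t ∈ Set.Icc t0 t1, ∀ a, |V x t a| ≤ v0) :
    Lp V t0 t1 (A + 8 * g * (1 + v0)) := by
  obtain ⟨d, hd, hV⟩ := h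
  have hg : 0 ≤ g := (abs_nonneg _).trans (hd.abs_G hρ.le 0 0 0 t0)
  have hA : 0 ≤ A := (abs_nonneg _).trans (hd.abs_acc hρ.le 0 0 t0)
  have hv0 : 0 ≤ v0 := (abs_nonneg _).trans (hv 0 t0 (Set.left_mem_Icc.2 hd.ht.le) 0)
  intro τ hτ τ' hτ' x y a
  -- time part at fixed point
  have htime : |V y τ a - V y τ' a| ≤ (A + 4 * g * v0) * |τ - τ'| := by
    have hcont : ContinuousOn (fun s => V y s a) (Set.Icc t0 t1) := by
      have h1 := RepS.continuousOn hd hρ.le hc (hV.repS a)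
      exact h1.comp (f := fun s : ℝ => (y, s)) (by fun_prop) (fun s hs => ⟨Set.mem_univ _, hs⟩)
    have hgen : ∀ s ∈ Set.Icc t0 t1, ∀ s' ∈ Set.Icc t0 t1, s < s' →
        |V y s' a - V y s a| ≤ (A + 4 * g * v0) * |s' - s| := by
      intro s hs s' hs' hlt
      have hd' : ∀ u ∈ Set.Ioo s s', ∃ w : ℝ, HasDerivAt (fun r => V y r a) w u ∧
          |w| ≤ A + 4 * g * v0 := fun u hu =>
        V15_time_deriv hd hρ.le h0 hc hV hv ⟨hs.1.trans_lt hu.1, hu.2.trans_le hs'.2⟩ y a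
      have hderiv : ∀ u ∈ Set.Ioo s s', HasDerivAt (fun r => V y r a) (deriv (fun r => V y r a) u) u :=
        fun u hu => by
          obtain ⟨w, hw, _⟩ := hd' u hu
          rw [hw.deriv]; exact hw
      obtain ⟨u, hu, hu'⟩ := exists_hasDerivAt_eq_slope (fun r => V y r a)
        (fun u => deriv (fun r => V y r a) u) hlt
        (hcont.mono (Set.Icc_subset_Icc hs.1 hs'.2)) hderiv
      obtain ⟨w, hw, hwb⟩ := hd' u hu
      have h2 : (V y s' a - V y s a) / (s' - s) = w := by rw [← hu', hw.deriv]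
      have h3 : V y s' a - V y s a = w * (s' - s) := by
        rw [← h2, div_mul_cancel₀ _ (sub_pos.2 hlt).ne']
      rw [h3, abs_mul]
      exact mul_le_mul_of_nonneg_right hwb (abs_nonneg _)
    rcases lt_trichotomy τ τ' with hl | hl | hl
    · have := hgen τ hτ τ' hτ' hl
      rwa [abs_sub_comm, abs_sub_comm τ' τ] at this
    · subst hl; simp
    · exact hgen τ' hτ' τ hτ hl
  have hspace := V15_space hd hρ.le h0 hc hV hτ x y a
  have h5 : |V x τ a - V y τ' a| ≤ 4 * g * ‖x - y‖ + (A + 4 * g * v0) * |τ - τ'| :=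
    (abs_sub_le _ (V y τ a) _).trans (add_le_add hspace htime)
  refine h5.trans ?_
  have h6 : 0 ≤ ‖x - y‖ := norm_nonneg _
  have h7 : 0 ≤ |τ - τ'| := abs_nonneg _
  have h8 : 4 * g ≤ A + 8 * g * (1 + v0) := by nlinarith [mul_nonneg hg hv0]
  have h9 : A + 4 * g * v0 ≤ A + 8 * g * (1 + v0) := by nlinarith [mul_nonneg hg hv0]
  nlinarith [mul_le_mul_of_nonneg_right h8 h6, mul_le_mul_of_nonneg_right h9 h7]

end ES
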