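import Pool.Agent.ES.V07

/-!
ES-V16 (Part II, helper27): standard frequencies and Fourier coefficients of elements of `WT`.

`κs`: variable number 0 has frequency `(1,0)`, variable number 1 has frequency `(0,1)`, all others 0.
`ix m n`: the index `m e_0 + n e_1`.  `fc G m n`: Fourier coefficient on the box.
`fc_ev`: for `f` of level 2, `ev κs f x t = ∑_{m,n} f_{ix m n}(t) e^{i(m x_0 + n x_1)}` (all other
coefficients vanish, `eq_ix`), absolutely convergent; integrate term by term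
(`integral_tsum`/`hasSum_integral_of_summable_norm`) and use the orthogonality `integral_exp_Bx`
(Fubini, `∫_0^{2π} e^{i m x} dx = 2π δ_{m0}`).
-/

open MeasureTheory

namespace ES

/-- Standard frequencies. -/
def κs : Kp where
  k a j := if (a = 0 ∧ j = 0) ∨ (a = 1 ∧ j = 1) then 1 else 0
  bdd := ⟨1, fun a j => by split_ifs <;> simp⟩

noncomputable def ix (m n : ℤ) : Gx := Finsupp.single 0 m + Finsupp.single 1 n

theorem ix_zero_apply (m n : ℤ) : ix m n 0 = m := by
  simp [ix]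

theorem ix_one_apply (m n : ℤ) : ix m n 1 = n := by
  simp [ix]

theorem ix_injective {m n m' n' : ℤ} (h : ix m n = ix m' n') : m = m' ∧ n = n' := by
  constructor
  · rw [← ix_zero_apply m n, h, ix_zero_apply]
  · rw [← ix_one_apply m n, h, ix_one_apply]

private theorem v16_kap (a : Fin 2) (j0 : ℕ) (h : ∀ j : ℕ, κs.k a j = if j = j0 then 1 else 0)
    (ν : Gx) : kap κs a ν = ν j0 := by
  unfold kap Finsupp.sum
  simp only [h]
  rw [Finset.sum_eq_single j0]
  · simp
  · intro j _ hj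
    simp [hj]
  · intro hj
    simpa using hj

theorem kap_κs_zero (ν : Gx) : kap κs 0 ν = ν 0 := by
  apply v16_kap
  intro j
  simp [κs]

theorem kap_κs_one (ν : Gx) : kap κs 1 ν = ν 1 := by
  apply v16_kap
  intro j
  simp [κs]

theorem eq_ix {ν : Gx} (h : ¬ ∃ j, 2 ≤ j ∧ ν j ≠ 0) : ν = ix (ν 0) (ν 1) := by
  push Not at h
  ext j
  rcases j with _ | _ | j
  · rw [ix_zero_apply]
  · rw [zero_add, ix_one_apply]
  · rw [h (j + 1 + 1) (by omega)]
    simp [ix]

theorem len_ix (m n : ℤ) : len (ix m n) = m.natAbs + n.natAbs := by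
  classical
  unfold len
  have h : (ix m n).sum (fun _ n => n.natAbs) = ∑ j ∈ ({0, 1} : Finset ℕ), ((ix m n) j).natAbs := by
    refine Finsupp.sum_of_support_subset _ ?_ _ (by simp)
    intro j hj
    rw [Finsupp.mem_support_iff] at hj
    rcases j with _ | _ | j
    · simp
    · simp
    · exact absurd (by simp [ix]) hj
  rw [h, Finset.sum_pair (by norm_num), ix_zero_apply, ix_one_apply]

/-- The character. -/
noncomputable def chx (m n : ℤ) (x : Fin 2 → ℝ) : ℂ :=
  Complex.exp (Complex.I * ((m : ℂ) * (x 0 : ℂ) + (n : ℂ) * (x 1 : ℂ)))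

private theorem v16_one (m : ℤ) :
    ∫ x in Set.Icc (0 : ℝ) (2 * Real.pi), Complex.exp (Complex.I * ((m : ℂ) * (x : ℂ)))
      = if m = 0 then ((2 * Real.pi : ℝ) : ℂ) else 0 := by
  have hpi : (0 : ℝ) ≤ 2 * Real.pi := by positivity
  rw [integral_Icc_eq_integral_Ioc, ← intervalIntegral.integral_of_le hpi]
  split_ifs with h
  · subst h
    simp
  · have hc : Complex.I * (m : ℂ) ≠ 0 := by
      simp [h]
    have e : (fun x : ℝ => Complex.exp (Complex.I * ((m : ℂ) * (x : ℂ))))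
        = fun x : ℝ => Complex.exp ((Complex.I * (m : ℂ)) * (x : ℂ)) := by
      funext x; rw [mul_assoc]
    rw [e, integral_exp_mul_complex hc]
    have e1 : Complex.exp (Complex.I * (m : ℂ) * ((2 * Real.pi : ℝ) : ℂ)) = 1 := by
      rw [Complex.exp_eq_one_iff]
      exact ⟨m, by push_cast; ring⟩
    rw [e1]
    simp

private theorem v16_measurableSet : MeasurableSet Bx := measurableSet_Icc

theorem integral_chx (m n : ℤ) :
    ∫ x in Bx, chx m n x = if m = 0 ∧ n = 0 then ((2 * Real.pi : ℝ) : ℂ) ^ 2 else 0 := by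
  have hmp := (volume_preserving_finTwoArrow ℝ)
  have e1 : Bx = (MeasurableEquiv.finTwoArrow (α := ℝ)) ⁻¹'
      (Set.Icc (0 : ℝ) (2 * Real.pi) ×ˢ Set.Icc (0 : ℝ) (2 * Real.pi)) := by
    ext x
    simp only [Bx, Set.mem_Icc, Set.mem_preimage, Set.mem_prod, MeasurableEquiv.finTwoArrow,
      Pi.le_def, Fin.forall_fin_two]
    simp
    tauto
  have e2 : ∀ x : Fin 2 → ℝ, chx m n x = (fun p : ℝ × ℝ =>
      Complex.exp (Complex.I * ((m : ℂ) * (p.1 : ℂ))) *
        Complex.exp (Complex.I * ((n : ℂ) * (p.2 : ℂ)))) (MeasurableEquiv.finTwoArrow x) := by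
    intro x
    simp only [MeasurableEquiv.finTwoArrow]
    rw [chx, mul_add, Complex.exp_add]
    rfl
  have e3 := hmp.setIntegral_preimage_emb (MeasurableEquiv.measurableEmbedding _)
    (fun p : ℝ × ℝ => Complex.exp (Complex.I * ((m : ℂ) * (p.1 : ℂ))) *
        Complex.exp (Complex.I * ((n : ℂ) * (p.2 : ℂ))))
    (Set.Icc (0 : ℝ) (2 * Real.pi) ×ˢ Set.Icc (0 : ℝ) (2 * Real.pi))
  have e4 : ∫ x in Bx, chx m n x = ∫ x in (MeasurableEquiv.finTwoArrow (α := ℝ)) ⁻¹'
      (Set.Icc (0 : ℝ) (2 * Real.pi) ×ˢ Set.Icc (0 : ℝ) (2 * Real.pi)),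
      (fun p : ℝ × ℝ => Complex.exp (Complex.I * ((m : ℂ) * (p.1 : ℂ))) *
        Complex.exp (Complex.I * ((n : ℂ) * (p.2 : ℂ)))) (MeasurableEquiv.finTwoArrow x) := by
    rw [← e1]
    exact integral_congr_ae (Filter.Eventually.of_forall e2)
  have e5 := setIntegral_prod_mul (μ := (volume : Measure ℝ)) (ν := (volume : Measure ℝ))
    (fun x : ℝ => Complex.exp (Complex.I * ((m : ℂ) * (x : ℂ))))
    (fun x : ℝ => Complex.exp (Complex.I * ((n : ℂ) * (x : ℂ))))
    (Set.Icc (0 : ℝ) (2 * Real.pi)) (Set.Icc (0 : ℝ) (2 * Real.pi))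
  rw [e4, e3, Measure.volume_eq_prod]
  refine e5.trans ?_
  rw [v16_one, v16_one]
  by_cases hm : m = 0
  · by_cases hn : n = 0
    · rw [if_pos hm, if_pos hn, if_pos ⟨hm, hn⟩, sq]
    · rw [if_neg hn, if_neg (fun h : m = 0 ∧ n = 0 => hn h.2), mul_zero]
  · rw [if_neg hm, if_neg (fun h : m = 0 ∧ n = 0 => hm h.1), zero_mul]

/-- Fourier coefficients on the box. -/
noncomputable def fc (G : (Fin 2 → ℝ) → ℂ) (m n : ℤ) : ℂ :=
  (((2 * Real.pi : ℝ) : ℂ) ^ 2)⁻¹ * ∫ x in Bx, G x * chx (-m) (-n) x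

private theorem v16_norm_chx (m n : ℤ) (x : Fin 2 → ℝ) : ‖chx m n x‖ = 1 := by
  rw [chx, show Complex.I * ((m : ℂ) * (x 0 : ℂ) + (n : ℂ) * (x 1 : ℂ))
    = (((m : ℝ) * x 0 + (n : ℝ) * x 1 : ℝ) : ℂ) * Complex.I by push_cast; ring]
  exact Complex.norm_exp_ofReal_mul_I _

private theorem v16_continuous_chx (m n : ℤ) : Continuous (chx m n) := by
  unfold chx
  fun_prop

private theorem v16_vol : volume.real Bx = (2 * Real.pi) ^ 2 := by
  have h : volume Bx = ENNReal.ofReal ((2 * Real.pi) ^ 2) := by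
    unfold Bx
    rw [Real.volume_Icc_pi]
    simp only [Pi.zero_apply, sub_zero, Finset.prod_const, Finset.card_univ, Fintype.card_fin]
    rw [ENNReal.ofReal_pow (by positivity)]
  rw [measureReal_def, h, ENNReal.toReal_ofReal (by positivity)]

private theorem v16_vol_lt : volume Bx < ⊤ := by
  unfold Bx
  exact isCompact_Icc.measure_lt_top

private theorem v16_mul (m n m' n' : ℤ) (x : Fin 2 → ℝ) :
    chx m n x * chx m' n' x = chx (m + m') (n + n') x := by
  rw [chx, chx, chx, ← Complex.exp_add]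
  congr 1
  push_cast
  ring

theorem fc_ev {f : WT} (hf : Lev 2 f) (t : ℝ) (m n : ℤ) :
    fc (fun x => ev κs f x t) m n = f.co (ix m n) t := by
  have hint : ∀ ν : Gx, Integrable (fun x : Fin 2 → ℝ => f.co ν t *
      chx (ν 0 + -m) (ν 1 + -n) x) (volume.restrict Bx) := by
    intro ν
    have : IntegrableOn (fun x : Fin 2 → ℝ => f.co ν t * chx (ν 0 + -m) (ν 1 + -n) x) Bx :=
      (continuous_const.mul (v16_continuous_chx _ _)).continuousOn.integrableOn_compact
        (by unfold Bx; exact isCompact_Icc)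
    exact this
  have hnorm : ∀ ν : Gx, ∫ x in Bx, ‖f.co ν t * chx (ν 0 + -m) (ν 1 + -n) x‖
      = ‖f.co ν t‖ * (2 * Real.pi) ^ 2 := by
    intro ν
    simp only [norm_mul, v16_norm_chx, mul_one]
    rw [setIntegral_const, v16_vol, smul_eq_mul, mul_comm]
  have hsum : Summable fun ν : Gx => ∫ x in Bx, ‖f.co ν t * chx (ν 0 + -m) (ν 1 + -n) x‖ := by
    simp only [hnorm]
    refine Summable.mul_right _ ?_
    exact Summable.of_nonneg_of_le (fun _ => norm_nonneg _)
      (fun ν => (f.co ν).norm_coe_le_norm t) (rapid_norm f.rapid)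
  have h := (hasSum_integral_of_summable_integral_norm hint hsum).tsum_eq
  have e1 : ∀ x : Fin 2 → ℝ, ev κs f x t * chx (-m) (-n) x
      = ∑' ν : Gx, f.co ν t * chx (ν 0 + -m) (ν 1 + -n) x := by
    intro x
    unfold ev
    rw [← tsum_mul_right]
    refine tsum_congr fun ν => ?_
    rw [← v16_mul, kap_κs_zero, kap_κs_one, mul_assoc]
    rfl
  have hpi : ((2 * Real.pi : ℝ) : ℂ) ^ 2 ≠ 0 := by
    have : (2 * Real.pi : ℝ) ≠ 0 := by positivity
    exact pow_ne_zero _ (by exact_mod_cast this)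
  unfold fc
  simp only [e1]
  rw [← h, tsum_eq_single (ix m n)]
  · rw [integral_const_mul, integral_chx, ix_zero_apply, ix_one_apply]
    simp only [add_neg_cancel, and_self, if_true]
    field_simp
  · intro ν hν
    rw [integral_const_mul, integral_chx]
    by_cases hL : ∃ j, 2 ≤ j ∧ ν j ≠ 0
    · rw [hf ν hL]
      simp
    · have h2 : ¬ (ν 0 + -m = 0 ∧ ν 1 + -n = 0) := by
        rintro ⟨h3, h4⟩
        apply hν
        rw [eq_ix hL]
        congr 1 <;> omega
      rw [if_neg h2, mul_zero]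

theorem norm_fc_le {G : (Fin 2 → ℝ) → ℂ} {C : ℝ} (h : ∀ x, ‖G x‖ ≤ C) (m n : ℤ) :
    ‖fc G m n‖ ≤ C := by
  have h1 : ‖∫ x in Bx, G x * chx (-m) (-n) x‖ ≤ C * volume.real Bx := by
    refine norm_setIntegral_le_of_norm_le_const v16_vol_lt fun x _ => ?_
    rw [norm_mul, v16_norm_chx, mul_one]
    exact h x
  rw [v16_vol] at h1
  have hpi : (0 : ℝ) < (2 * Real.pi) ^ 2 := by positivity
  unfold fc
  rw [norm_mul, norm_inv, norm_pow, Complex.norm_real, Real.norm_eq_abs,
    abs_of_pos (by positivity : (0 : ℝ) < 2 * Real.pi)]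
  rw [inv_mul_le_iff₀ hpi, mul_comm]
  exact h1

theorem fc_congr {G H : (Fin 2 → ℝ) → ℂ} (h : ∀ x, G x = H x) (m n : ℤ) : fc G m n = fc H m n := by
  rw [show G = H from funext h]

end ES
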