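import Pool.Agent.ES.V16

/-!
ES-V17 (Part II, helper27): Fourier inversion on the box.

`G` continuous, `2π`-periodic in each variable, with absolutely summable coefficients `fc G m n`.
Then `G x = ∑_{m,n} fc G m n e^{i(m x_0 + n x_1)}`.
Route A: transfer to `UnitAddTorus (Fin 2)` (`x = 2π y`) and use
`UnitAddTorus.hasSum_mFourier_series_apply_of_summable`; the coefficient `mFourierCoeff` is the
integral over the unit square (`UnitAddTorus`/`AddCircle` measure is the volume of `Ioc 0 1`),
change of variables `x = 2π y` (`Measure.setIntegral_comp_smul`).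
Route B: the sum `S(x)` of the series is continuous with the same coefficients as `G`; the continuous
periodic function `G - S` is orthogonal to all characters, hence `0` (Stone-Weierstrass,
`UnitAddTorus.span_mFourier_closure_eq_top`), or iterate the one dimensional theorem
`has_pointwise_sum_fourier_series_of_summable`.
-/

open MeasureTheory
open scoped Pointwise

namespace ES

/-- Projection to the torus. -/
private def v17_pr (y : Fin 2 → ℝ) : UnitAddTorus (Fin 2) := fun i => (y i : UnitAddCircle)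

private theorem v17_quot : IsOpenQuotientMap v17_pr := by
  have h : IsOpenQuotientMap (Pi.map (fun (_ : Fin 2) (y : ℝ) => (y : UnitAddCircle))) :=
    IsOpenQuotientMap.piMap fun _ => QuotientAddGroup.isOpenQuotientMap_mk
  exact h

private theorem v17_lift {G : (Fin 2 → ℝ) → ℂ} (hG : Continuous G) (hp : Per G) :
    ∃ f : C(UnitAddTorus (Fin 2), ℂ), ∀ y : Fin 2 → ℝ, f (v17_pr y) = G (fun i => 2 * Real.pi * y i) := by
  have hs : Function.Surjective v17_pr := v17_quot.surjective
  let o : UnitAddTorus (Fin 2) → (Fin 2 → ℝ) := Function.surjInv hs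
  have ho : ∀ x, v17_pr (o x) = x := Function.surjInv_eq hs
  have key : ∀ y : Fin 2 → ℝ, G (fun i => 2 * Real.pi * o (v17_pr y) i) = G (fun i => 2 * Real.pi * y i) := by
    intro y
    have h1 : v17_pr (o (v17_pr y)) = v17_pr y := ho _
    have h2 : ∀ i, ∃ n : ℤ, o (v17_pr y) i = y i + n := by
      intro i
      have h3 : ((o (v17_pr y) i : ℝ) : UnitAddCircle) = ((y i : ℝ) : UnitAddCircle) := congrFun h1 i
      have h4 := QuotientAddGroup.eq_iff_sub_mem.1 h3
      obtain ⟨n, hn⟩ := AddSubgroup.mem_zmultiples_iff.1 h4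
      refine ⟨n, ?_⟩
      have : (n : ℝ) = o (v17_pr y) i - y i := by simpa using hn
      linarith
    choose n hn using h2
    have := hp (fun i => 2 * Real.pi * y i) n
    rw [← this]
    congr 1
    funext i
    rw [hn i]; ring
  refine ⟨⟨fun x => G (fun i => 2 * Real.pi * o x i), ?_⟩, key⟩
  rw [v17_quot.isQuotientMap.continuous_iff]
  have : ((fun x => G (fun i => 2 * Real.pi * o x i)) ∘ v17_pr)
      = fun y : Fin 2 → ℝ => G (fun i => 2 * Real.pi * y i) := funext key
  rw [this]
  exact hG.comp (by fun_prop)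

private theorem v17_mF (n : Fin 2 → ℤ) (y : Fin 2 → ℝ) :
    UnitAddTorus.mFourier n (v17_pr y) = chx (n 0) (n 1) (fun i => 2 * Real.pi * y i) := by
  unfold UnitAddTorus.mFourier v17_pr chx
  simp only [ContinuousMap.coe_mk, Fin.prod_univ_two, fourier_coe_apply]
  rw [← Complex.exp_add]
  congr 1
  push_cast
  ring

private theorem v17_coeff {G : (Fin 2 → ℝ) → ℂ} {f : C(UnitAddTorus (Fin 2), ℂ)}
    (hf : ∀ y : Fin 2 → ℝ, f (v17_pr y) = G (fun i => 2 * Real.pi * y i)) (n : Fin 2 → ℤ) :
    UnitAddTorus.mFourierCoeff f n = fc G (n 0) (n 1) := by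
  rw [UnitAddTorus.mFourierCoeff_eq_integral f n 0]
  have h1 : ∀ y : Fin 2 → ℝ,
      ((UnitAddTorus.mFourier (-n)) fun i => (y i : UnitAddCircle)) • f (fun i => (y i : UnitAddCircle))
        = (fun x : Fin 2 → ℝ => G x * chx (-(n 0)) (-(n 1)) x) ((2 * Real.pi) • y) := by
    intro y
    have h2 := v17_mF (-n) y
    have h3 := hf y
    unfold v17_pr at h2 h3
    rw [h2, h3]
    simp only [Pi.neg_apply, smul_eq_mul]
    have h4 : (fun i => 2 * Real.pi * y i) = (2 * Real.pi) • y := by
      funext i; simp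
    rw [h4]; ring
  simp only [h1]
  rw [Measure.setIntegral_comp_smul volume (fun x : Fin 2 → ℝ => G x * chx (-(n 0)) (-(n 1)) x) _
    (by positivity : (2 * Real.pi) ≠ 0)]
  have h5 : ((2 * Real.pi) • {x : Fin 2 → ℝ | ∀ i, x i ∈ Set.Ioc ((0 : Fin 2 → ℝ) i) ((0 : Fin 2 → ℝ) i + 1)})
      = Set.pi Set.univ (fun _ => Set.Ioc (0 : ℝ) (2 * Real.pi)) := by
    ext x
    have h2pi : (0:ℝ) < 2 * Real.pi := by positivity
    rw [Set.mem_smul_set_iff_inv_smul_mem₀ h2pi.ne']
    simp only [Set.mem_setOf_eq, Pi.smul_apply, smul_eq_mul, Pi.zero_apply, zero_add, Set.mem_Ioc,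
      Set.mem_pi, Set.mem_univ, true_implies]
    refine forall_congr' fun i => ?_
    constructor
    · rintro ⟨h1, h2⟩
      constructor
      · have := mul_pos h2pi h1
        rwa [mul_inv_cancel_left₀ h2pi.ne'] at this
      · have := mul_le_mul_of_nonneg_left h2 h2pi.le
        rwa [mul_inv_cancel_left₀ h2pi.ne', mul_one] at this
    · rintro ⟨h1, h2⟩
      constructor
      · positivity
      · rw [inv_mul_le_iff₀ h2pi]; linarith
  rw [h5]
  have h6 : ∫ x in Set.pi Set.univ (fun _ : Fin 2 => Set.Ioc (0 : ℝ) (2 * Real.pi)),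
      G x * chx (-(n 0)) (-(n 1)) x = ∫ x in Bx, G x * chx (-(n 0)) (-(n 1)) x := by
    apply setIntegral_congr_set
    have : Bx = Set.Icc (fun _ : Fin 2 => (0:ℝ)) (fun _ => 2 * Real.pi) := rfl
    rw [this]
    exact Measure.univ_pi_Ioc_ae_eq_Icc
  rw [h6]
  unfold fc
  rw [Complex.real_smul]
  congr 1
  rw [abs_of_pos (by positivity)]
  simp

theorem fourier_inversion {G : (Fin 2 → ℝ) → ℂ} (hG : Continuous G) (hp : Per G)
    (hs : Summable fun p : ℤ × ℤ => ‖fc G p.1 p.2‖) (x : Fin 2 → ℝ) :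
    HasSum (fun p : ℤ × ℤ => fc G p.1 p.2 * chx p.1 p.2 x) (G x) := by
  obtain ⟨f, hf⟩ := v17_lift hG hp
  let e : (Fin 2 → ℤ) ≃ ℤ × ℤ := finTwoArrowEquiv ℤ
  have hsum : Summable (UnitAddTorus.mFourierCoeff f) := by
    have h1 : Summable fun p : ℤ × ℤ => fc G p.1 p.2 := hs.of_norm
    have h2 := (e.summable_iff (f := fun p : ℤ × ℤ => fc G p.1 p.2)).2 h1
    refine h2.congr fun n => ?_
    rw [v17_coeff hf n]; rfl
  have h3 := UnitAddTorus.hasSum_mFourier_series_apply_of_summable hsum
    (v17_pr (fun i => (2 * Real.pi)⁻¹ * x i))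
  have hx : (fun i => 2 * Real.pi * ((2 * Real.pi)⁻¹ * x i)) = x := by
    funext i
    rw [mul_inv_cancel_left₀ (by positivity)]
  rw [hf, hx] at h3
  have h4 := (e.symm.hasSum_iff).2 h3
  refine h4.congr_fun ?_
  intro p
  simp only [Function.comp_apply]
  rw [v17_coeff hf, v17_mF, hx]
  rfl

end ES
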