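import Pool.Agent.ES.V16
import Pool.Agent.ES.V05
import Pool.Agent.ES.V09

/-!
ES-V18 (Part II, helper27): decay of the Fourier coefficients of represented functions.

`fc_partial`: `fc (∂_0 G) m n = i m fc G m n` (real valued `C¹` periodic `G`; integration by parts
against `cos`, `sin`: `integral_by_parts` with `H = cos(m x_0 + n x_1)` and `sin`, then combine).
`fc_decay`: induction on `k`: `|m|^(k+1) ‖fc G‖ = |m|^k ‖fc (∂_0 G)‖`, and `∂_0 G` is represented
by `ED d 0 f` (`RepT.fderiv`), real (`Good.isR_ED`); for `k = 0` use `norm_fc_le` and `RepT.abs_le`.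
-/

open MeasureTheory

namespace ES

/-- The phase. -/
private def v18_th (m n : ℤ) (x : Fin 2 → ℝ) : ℝ := m * x 0 + n * x 1

private theorem v18_th_hasFDerivAt (m n : ℤ) (x : Fin 2 → ℝ) :
    HasFDerivAt (v18_th m n) ((m : ℝ) • (ContinuousLinearMap.proj 0 : (Fin 2 → ℝ) →L[ℝ] ℝ) +
      (n : ℝ) • (ContinuousLinearMap.proj 1 : (Fin 2 → ℝ) →L[ℝ] ℝ)) x := by
  have h : v18_th m n = fun y => ((m : ℝ) • (ContinuousLinearMap.proj 0 : (Fin 2 → ℝ) →L[ℝ] ℝ) +
      (n : ℝ) • (ContinuousLinearMap.proj 1 : (Fin 2 → ℝ) →L[ℝ] ℝ)) y := by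
    funext y
    simp [v18_th]
  rw [h]
  exact ContinuousLinearMap.hasFDerivAt _

private theorem v18_th_contDiff (m n : ℤ) : ContDiff ℝ 1 (v18_th m n) := by
  unfold v18_th
  fun_prop

private theorem v18_cos_fderiv (m n : ℤ) (x : Fin 2 → ℝ) (b : Fin 2) :
    fderiv ℝ (fun y => Real.cos (v18_th m n y)) x (Pi.single b 1) =
      -(v18_th m n (Pi.single b 1) * Real.sin (v18_th m n x)) := by
  rw [((v18_th_hasFDerivAt m n x).cos).fderiv]
  simp [v18_th]
  ring

private theorem v18_sin_fderiv (m n : ℤ) (x : Fin 2 → ℝ) (b : Fin 2) :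
    fderiv ℝ (fun y => Real.sin (v18_th m n y)) x (Pi.single b 1) =
      v18_th m n (Pi.single b 1) * Real.cos (v18_th m n x) := by
  rw [((v18_th_hasFDerivAt m n x).sin).fderiv]
  simp [v18_th]
  ring

private theorem v18_th_add (m n : ℤ) (x : Fin 2 → ℝ) (p : Fin 2 → ℤ) :
    v18_th m n (fun a => x a + 2 * Real.pi * p a) =
      v18_th m n x + ((m * p 0 + n * p 1 : ℤ) : ℝ) * (2 * Real.pi) := by
  unfold v18_th
  push_cast
  ring

private theorem v18_cos_per (m n : ℤ) : Per (fun y => Real.cos (v18_th m n y)) := by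
  intro x p
  change Real.cos (v18_th m n (fun a => x a + 2 * Real.pi * p a)) = _
  rw [v18_th_add, Real.cos_add_int_mul_two_pi]

private theorem v18_sin_per (m n : ℤ) : Per (fun y => Real.sin (v18_th m n y)) := by
  intro x p
  change Real.sin (v18_th m n (fun a => x a + 2 * Real.pi * p a)) = _
  rw [v18_th_add, Real.sin_add_int_mul_two_pi]

private theorem v18_chx (m n : ℤ) (x : Fin 2 → ℝ) :
    chx (-m) (-n) x = ((Real.cos (v18_th m n x) : ℝ) : ℂ) -
      Complex.I * ((Real.sin (v18_th m n x) : ℝ) : ℂ) := by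
  unfold chx
  have h : Complex.I * (((-m : ℤ) : ℂ) * (x 0 : ℂ) + ((-n : ℤ) : ℂ) * (x 1 : ℂ)) =
      ((-(v18_th m n x) : ℝ) : ℂ) * Complex.I := by
    unfold v18_th
    push_cast
    ring
  rw [h, Complex.exp_mul_I, ← Complex.ofReal_cos, ← Complex.ofReal_sin, Real.cos_neg, Real.sin_neg]
  push_cast
  ring

private theorem v18_fc {G : (Fin 2 → ℝ) → ℝ} (hG : Continuous G) (m n : ℤ) :
    fc (fun x => (G x : ℂ)) m n = (((2 * Real.pi : ℝ) : ℂ) ^ 2)⁻¹ *
      (((∫ x in Bx, G x * Real.cos (v18_th m n x) : ℝ) : ℂ) -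
        Complex.I * ((∫ x in Bx, G x * Real.sin (v18_th m n x) : ℝ) : ℂ)) := by
  unfold fc
  congr 1
  have hth := (v18_th_contDiff m n).continuous
  have hK : IsCompact Bx := isCompact_Icc
  have i1 : IntegrableOn (fun x => G x * Real.cos (v18_th m n x)) Bx :=
    (hG.mul (Real.continuous_cos.comp hth)).continuousOn.integrableOn_compact hK
  have i2 : IntegrableOn (fun x => G x * Real.sin (v18_th m n x)) Bx :=
    (hG.mul (Real.continuous_sin.comp hth)).continuousOn.integrableOn_compact hK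
  have h : ∀ x, (G x : ℂ) * chx (-m) (-n) x = ((G x * Real.cos (v18_th m n x) : ℝ) : ℂ) -
      Complex.I * ((G x * Real.sin (v18_th m n x) : ℝ) : ℂ) := by
    intro x
    rw [v18_chx]
    push_cast
    ring
  simp_rw [h]
  rw [integral_sub i1.ofReal (i2.ofReal.const_mul _), integral_const_mul, integral_complex_ofReal,
    integral_complex_ofReal]

private theorem v18_partial {G : (Fin 2 → ℝ) → ℝ} (hG : ContDiff ℝ 1 G) (hp : Per G) (m n : ℤ)
    (b : Fin 2) :
    fc (fun x => (fderiv ℝ G x (Pi.single b 1) : ℂ)) m n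
      = Complex.I * ((v18_th m n (Pi.single b 1) : ℝ) : ℂ) * fc (fun x => (G x : ℂ)) m n := by
  have hc : Continuous fun x => fderiv ℝ G x (Pi.single b 1) :=
    (hG.continuous_fderiv (by norm_num)).clm_apply continuous_const
  rw [v18_fc hc, v18_fc hG.continuous]
  have h1 := integral_by_parts hG hp (Real.contDiff_cos.comp (v18_th_contDiff m n))
    (v18_cos_per m n) b
  have h2 := integral_by_parts hG hp (Real.contDiff_sin.comp (v18_th_contDiff m n))
    (v18_sin_per m n) b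
  have h1' : ∫ x in Bx, fderiv ℝ G x (Pi.single b 1) * Real.cos (v18_th m n x) =
      v18_th m n (Pi.single b 1) * ∫ x in Bx, G x * Real.sin (v18_th m n x) := by
    rw [← integral_const_mul, ← integral_neg] at *
    refine h1.trans ?_
    congr 1
    funext x
    have h3 := v18_cos_fderiv m n x b
    change -(G x * fderiv ℝ (fun y => Real.cos (v18_th m n y)) x (Pi.single b 1)) = _
    rw [h3]
    ring
  have h2' : ∫ x in Bx, fderiv ℝ G x (Pi.single b 1) * Real.sin (v18_th m n x) =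
      -(v18_th m n (Pi.single b 1) * ∫ x in Bx, G x * Real.cos (v18_th m n x)) := by
    rw [← integral_const_mul, ← integral_neg] at *
    refine h2.trans ?_
    congr 1
    funext x
    have h3 := v18_sin_fderiv m n x b
    change -(G x * fderiv ℝ (fun y => Real.sin (v18_th m n y)) x (Pi.single b 1)) = _
    rw [h3]
    ring
  rw [h1', h2']
  have hI : Complex.I * Complex.I = -1 := Complex.I_mul_I
  generalize (((2 * Real.pi : ℝ) : ℂ) ^ 2)⁻¹ = c0
  generalize v18_th m n (Pi.single b 1) = w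
  generalize ∫ x in Bx, G x * Real.sin (v18_th m n x) = S
  generalize ∫ x in Bx, G x * Real.cos (v18_th m n x) = C
  push_cast
  linear_combination (c0 * w * S) * hI

theorem fc_partial_zero {G : (Fin 2 → ℝ) → ℝ} (hG : ContDiff ℝ 1 G) (hp : Per G) (m n : ℤ) :
    fc (fun x => (fderiv ℝ G x (Pi.single 0 1) : ℂ)) m n
      = Complex.I * m * fc (fun x => (G x : ℂ)) m n := by
  rw [v18_partial hG hp m n 0]
  congr 2
  simp [v18_th]

theorem fc_partial_one {G : (Fin 2 → ℝ) → ℝ} (hG : ContDiff ℝ 1 G) (hp : Per G) (m n : ℤ) :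
    fc (fun x => (fderiv ℝ G x (Pi.single 1 1) : ℂ)) m n
      = Complex.I * n * fc (fun x => (G x : ℂ)) m n := by
  rw [v18_partial hG hp m n 1]
  congr 2
  simp [v18_th]

variable {d : Dat} {t0 t1 lam g σ ρ c A : ℝ}

private theorem v18_base (h : Good d t0 t1 lam g σ ρ c A) (hρ : 0 ≤ ρ) (hc : c ≤ 1 / 10) {t : ℝ}
    {G : (Fin 2 → ℝ) → ℝ} {f : WT} (hG : RepT d t G f) (m n : ℤ) :
    ‖fc (fun x => (G x : ℂ)) m n‖ ≤ ∑' ν, ‖f.co ν‖ := by
  apply norm_fc_le
  intro x
  rw [Complex.norm_real, Real.norm_eq_abs]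
  exact hG.abs_le h hρ hc x

private theorem v18_norm (m : ℤ) (z : ℂ) : ‖Complex.I * (m : ℂ) * z‖ = |(m : ℝ)| * ‖z‖ := by
  rw [norm_mul, norm_mul, Complex.norm_I, one_mul, Complex.norm_intCast]

theorem fc_decay_zero (h : Good d t0 t1 lam g σ ρ c A) (hρ : 0 ≤ ρ) (hc : c ≤ 1 / 10) {t : ℝ}
    (k : ℕ) {G : (Fin 2 → ℝ) → ℝ} {f : WT} (hf : IsR f) (hG : RepT d t G f) (m n : ℤ) :
    |(m : ℝ)| ^ k * ‖fc (fun x => (G x : ℂ)) m n‖ ≤ ∑' ν, ‖((ED d 0)^[k] f).co ν‖ := by
  induction k generalizing G f with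
  | zero =>
    rw [pow_zero, one_mul, Function.iterate_zero_apply]
    exact v18_base h hρ hc hG m n
  | succ k ih =>
    have h1 := ih (h.isR_ED 0 hf) (hG.fderiv h hρ hc hf 0)
    rw [fc_partial_zero (hG.contDiff h hρ hc hf 1) (hG.periodic h hρ hc) m n, v18_norm] at h1
    rw [Function.iterate_succ_apply, pow_succ, mul_assoc]
    exact h1

theorem fc_decay_one (h : Good d t0 t1 lam g σ ρ c A) (hρ : 0 ≤ ρ) (hc : c ≤ 1 / 10) {t : ℝ}
    (k : ℕ) {G : (Fin 2 → ℝ) → ℝ} {f : WT} (hf : IsR f) (hG : RepT d t G f) (m n : ℤ) :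
    |(n : ℝ)| ^ k * ‖fc (fun x => (G x : ℂ)) m n‖ ≤ ∑' ν, ‖((ED d 1)^[k] f).co ν‖ := by
  induction k generalizing G f with
  | zero =>
    rw [pow_zero, one_mul, Function.iterate_zero_apply]
    exact v18_base h hρ hc hG m n
  | succ k ih =>
    have h1 := ih (h.isR_ED 1 hf) (hG.fderiv h hρ hc hf 1)
    rw [fc_partial_one (hG.contDiff h hρ hc hf 1) (hG.periodic h hρ hc) m n, v18_norm] at h1
    rw [Function.iterate_succ_apply, pow_succ, mul_assoc]
    exact h1

end ES
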