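import Pool.Agent.ES.V17
import Pool.Agent.ES.V08

/-!
ES-V19 (Part II, helper27): a field with rapidly decreasing Fourier coefficients is the evaluation
of an element of `WT` with the standard frequencies.

Define `g.co ν t = fc (G · (clp t0 t1 t)) (ν 0) (ν 1)` if `ν` has level 2 (no entry `≥ 2`), `0`
otherwise.  Continuous in `t`: continuity of the parametric integral over the compact box
(`continuousOn_integral_Bx` for real and imaginary part, or directly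
`continuous_parametric_integral_of_continuous` after composing with the clamp).  Bounded by the decay
hypothesis with `k = 0`.
Rapid: for every `N`, `(1+|m|+|n|)^(N+4) ≤ C (1 + |m|^(N+4) + |n|^(N+4))`, so
`(1+len)^N ‖g_ν‖ ≤ C' (1+|m|)^{-2} (1+|n|)^{-2}`, summable over `ℤ × ℤ`; the sum over `Gx` is a sum
over the image of the injection `(m,n) ↦ ix m n` (`eq_ix`, `len_ix`).
Evaluation: `fourier_inversion` and `tsum` over `ix`.  `IsR`: `fc` of a real function is conjugation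
symmetric.
-/

open MeasureTheory

namespace ES

private theorem v19_summable_one : Summable fun m : ℤ => 1 / (1 + |(m : ℝ)|) ^ 2 := by
  have h : Summable fun n : ℕ => 1 / (1 + (n : ℝ)) ^ 2 := by
    have h1 := (summable_nat_add_iff 1).2 (Real.summable_one_div_nat_pow.2 one_lt_two)
    refine h1.congr fun n => ?_
    push_cast
    rw [add_comm]
  rw [summable_int_iff_summable_nat_and_neg]
  constructor
  · refine h.congr fun n => ?_
    simp
  · refine h.congr fun n => ?_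
    simp

private theorem v19_summable_two (K : ℝ) :
    Summable fun p : ℤ × ℤ => K * ((1 / (1 + |(p.1 : ℝ)|) ^ 2) * (1 / (1 + |(p.2 : ℝ)|) ^ 2)) := by
  refine Summable.mul_left K ?_
  exact v19_summable_one.mul_of_nonneg v19_summable_one (fun m => by positivity)
    (fun m => by positivity)

private theorem v19_pow (x y : ℝ) (hx : 0 ≤ x) (hy : 0 ≤ y) (k : ℕ) :
    (1 + x + y) ^ k * ((1 + x) ^ 2 * (1 + y) ^ 2) ≤
      3 ^ (k + 4) * (1 + x ^ (k + 4) + y ^ (k + 4)) := by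
  have h1 : (1 + x + y) ^ k * ((1 + x) ^ 2 * (1 + y) ^ 2) ≤ (1 + x + y) ^ (k + 4) := by
    have a1 : (1 + x) ^ 2 ≤ (1 + x + y) ^ 2 := pow_le_pow_left₀ (by positivity) (by linarith) 2
    have a2 : (1 + y) ^ 2 ≤ (1 + x + y) ^ 2 := pow_le_pow_left₀ (by positivity) (by linarith) 2
    calc (1 + x + y) ^ k * ((1 + x) ^ 2 * (1 + y) ^ 2)
        ≤ (1 + x + y) ^ k * ((1 + x + y) ^ 2 * (1 + x + y) ^ 2) :=
          mul_le_mul_of_nonneg_left (mul_le_mul a1 a2 (by positivity) (by positivity))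
            (by positivity)
      _ = _ := by rw [← pow_add, ← pow_add]
  refine h1.trans ?_
  set M := max 1 (max x y) with hM
  have hM0 : 0 ≤ M := zero_le_one.trans (le_max_left _ _)
  have h2 : 1 + x + y ≤ 3 * M := by
    have b1 : 1 ≤ M := le_max_left _ _
    have b2 : x ≤ M := (le_max_left x y).trans (le_max_right _ _)
    have b3 : y ≤ M := (le_max_right x y).trans (le_max_right _ _)
    linarith
  have h3 : M ^ (k + 4) ≤ 1 + x ^ (k + 4) + y ^ (k + 4) := by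
    have c1 : 0 ≤ x ^ (k + 4) := pow_nonneg hx _
    have c2 : 0 ≤ y ^ (k + 4) := pow_nonneg hy _
    rcases max_choice 1 (max x y) with h | h
    · rw [hM, h, one_pow]; linarith
    · rcases max_choice x y with h' | h'
      · rw [hM, h, h']; linarith
      · rw [hM, h, h']; linarith
  calc (1 + x + y) ^ (k + 4) ≤ (3 * M) ^ (k + 4) := pow_le_pow_left₀ (by positivity) h2 _
    _ = 3 ^ (k + 4) * M ^ (k + 4) := mul_pow _ _ _
    _ ≤ _ := mul_le_mul_of_nonneg_left h3 (by positivity)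

private theorem v19_bound {G : (Fin 2 → ℝ) → ℝ → ℝ} {t0 t1 : ℝ} 
    (hd : ∀ k : ℕ, ∃ C : ℝ, ∀ t ∈ Set.Icc t0 t1, ∀ m n : ℤ,
      |(m : ℝ)| ^ k * ‖fc (fun x => (G x t : ℂ)) m n‖ ≤ C ∧
      |(n : ℝ)| ^ k * ‖fc (fun x => (G x t : ℂ)) m n‖ ≤ C) (k : ℕ) :
    ∃ K : ℝ, ∀ t ∈ Set.Icc t0 t1, ∀ m n : ℤ,
      (1 + |(m : ℝ)| + |(n : ℝ)|) ^ k * ‖fc (fun x => (G x t : ℂ)) m n‖ ≤
        K * ((1 / (1 + |(m : ℝ)|) ^ 2) * (1 / (1 + |(n : ℝ)|) ^ 2)) := by
  obtain ⟨C0, hC0⟩ := hd 0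
  obtain ⟨C1, hC1⟩ := hd (k + 4)
  refine ⟨3 ^ (k + 4) * (C0 + C1 + C1), fun t ht m n => ?_⟩
  have h0 := (hC0 t ht m n).1
  have h1 := hC1 t ht m n
  rw [pow_zero, one_mul] at h0
  set N := ‖fc (fun x => (G x t : ℂ)) m n‖ with hN
  have hN0 : 0 ≤ N := norm_nonneg _
  have hp := mul_le_mul_of_nonneg_right
    (v19_pow |(m : ℝ)| |(n : ℝ)| (abs_nonneg _) (abs_nonneg _) k) hN0
  have hden : 0 < (1 + |(m : ℝ)|) ^ 2 * (1 + |(n : ℝ)|) ^ 2 := by positivity
  have e : 3 ^ (k + 4) * (C0 + C1 + C1) *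
      ((1 / (1 + |(m : ℝ)|) ^ 2) * (1 / (1 + |(n : ℝ)|) ^ 2)) =
      3 ^ (k + 4) * (C0 + C1 + C1) / ((1 + |(m : ℝ)|) ^ 2 * (1 + |(n : ℝ)|) ^ 2) := by
    rw [one_div_mul_one_div, mul_one_div]
  rw [e, le_div_iff₀ hden]
  have h2 : 3 ^ (k + 4) * (1 + |(m : ℝ)| ^ (k + 4) + |(n : ℝ)| ^ (k + 4)) * N ≤
      3 ^ (k + 4) * (C0 + C1 + C1) := by
    rw [mul_assoc]
    refine mul_le_mul_of_nonneg_left ?_ (by positivity)
    linarith [h1.1, h1.2]
  calc (1 + |(m : ℝ)| + |(n : ℝ)|) ^ k * N * ((1 + |(m : ℝ)|) ^ 2 * (1 + |(n : ℝ)|) ^ 2)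
      = (1 + |(m : ℝ)| + |(n : ℝ)|) ^ k * ((1 + |(m : ℝ)|) ^ 2 * (1 + |(n : ℝ)|) ^ 2) * N := by
        ring
    _ ≤ _ := hp.trans h2

private theorem v19_continuous_chx (m n : ℤ) : Continuous fun x => chx m n x := by
  unfold chx; fun_prop

private theorem v19_chx_conj (m n : ℤ) (x : Fin 2 → ℝ) :
    (starRingEnd ℂ) (chx m n x) = chx (-m) (-n) x := by
  unfold chx
  rw [← Complex.exp_conj]
  congr 1
  simp only [map_mul, map_add, Complex.conj_I, Complex.conj_ofReal, map_intCast]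
  push_cast
  ring

private theorem v19_fc_conj (u : (Fin 2 → ℝ) → ℝ) (m n : ℤ) :
    fc (fun x => (u x : ℂ)) (-m) (-n) = (starRingEnd ℂ) (fc (fun x => (u x : ℂ)) m n) := by
  unfold fc
  rw [map_mul, ← integral_conj, map_inv₀, map_pow, Complex.conj_ofReal]
  congr 1
  refine integral_congr_ae (Filter.Eventually.of_forall fun x => ?_)
  simp only [map_mul, Complex.conj_ofReal]
  rw [v19_chx_conj]

private theorem v19_cont {G : (Fin 2 → ℝ) → ℝ → ℝ} {t0 t1 : ℝ} (h01 : t0 ≤ t1)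
    (hG : ContinuousOn (fun p : (Fin 2 → ℝ) × ℝ => G p.1 p.2) (Set.univ ×ˢ Set.Icc t0 t1))
    (m n : ℤ) : Continuous fun t => fc (fun x => (G x (clp t0 t1 t) : ℂ)) m n := by
  unfold fc
  refine continuous_const.mul ?_
  have h1 : Continuous (fun q : ℝ × (Fin 2 → ℝ) => G q.2 (clp t0 t1 q.1)) := by
    have h2 : Continuous (fun q : ℝ × (Fin 2 → ℝ) => (q.2, clp t0 t1 q.1)) :=
      continuous_snd.prodMk ((clp_continuous t0 t1).comp continuous_fst)
    exact hG.comp_continuous h2 fun q => ⟨Set.mem_univ _, clp_mem h01 _⟩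
  have h3 : Continuous (Function.uncurry fun (t : ℝ) (x : Fin 2 → ℝ) =>
      (G x (clp t0 t1 t) : ℂ) * chx (-m) (-n) x) :=
    (Complex.continuous_ofReal.comp h1).mul ((v19_continuous_chx (-m) (-n)).comp continuous_snd)
  exact continuous_parametric_integral_of_continuous h3 (isCompact_Icc : IsCompact Bx)

private theorem v19_ix_apply {m n : ℤ} {j : ℕ} (hj : 2 ≤ j) : ix m n j = 0 := by
  have h0 : (0 : ℕ) ≠ j := by omega
  have h1 : (1 : ℕ) ≠ j := by omega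
  simp [ix, Finsupp.single_apply, h0, h1]

theorem exists_hat {G : (Fin 2 → ℝ) → ℝ → ℝ} {t0 t1 : ℝ} (h01 : t0 ≤ t1)
    (hG : ContinuousOn (fun p : (Fin 2 → ℝ) × ℝ => G p.1 p.2) (Set.univ ×ˢ Set.Icc t0 t1))
    (hp : ∀ t ∈ Set.Icc t0 t1, Per fun x => G x t)
    (hd : ∀ k : ℕ, ∃ C : ℝ, ∀ t ∈ Set.Icc t0 t1, ∀ m n : ℤ,
      |(m : ℝ)| ^ k * ‖fc (fun x => (G x t : ℂ)) m n‖ ≤ C ∧
      |(n : ℝ)| ^ k * ‖fc (fun x => (G x t : ℂ)) m n‖ ≤ C) :
    ∃ g : WT, Lev 2 g ∧ IsR g ∧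
      (∀ t ∈ Set.Icc t0 t1, ∀ m n, g.co (ix m n) t = fc (fun x => (G x t : ℂ)) m n) ∧
      ∀ t ∈ Set.Icc t0 t1, ∀ x, evR κs g x t = G x t := by
  classical
  obtain ⟨C0, hC0⟩ := hd 0
  have hb : ∀ m n : ℤ, ∀ t, ‖fc (fun x => (G x (clp t0 t1 t) : ℂ)) m n‖ ≤ C0 := by
    intro m n t
    have := (hC0 _ (clp_mem h01 t) m n).1
    rwa [pow_zero, one_mul] at this
  let φ : ℤ → ℤ → Ct := fun m n => BoundedContinuousFunction.ofNormedAddCommGroup
    (fun t => fc (fun x => (G x (clp t0 t1 t) : ℂ)) m n) (v19_cont h01 hG m n) C0 (hb m n)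
  have hφ : ∀ m n t, φ m n t = fc (fun x => (G x (clp t0 t1 t) : ℂ)) m n := fun m n t => rfl
  let co : Gx → Ct := fun ν => if ∃ j, 2 ≤ j ∧ ν j ≠ 0 then 0 else φ (ν 0) (ν 1)
  have hinj : Function.Injective fun p : ℤ × ℤ => ix p.1 p.2 := by
    rintro ⟨m, n⟩ ⟨m', n'⟩ h
    have := ix_injective h
    exact Prod.ext this.1 this.2
  have hco_ix : ∀ m n, co (ix m n) = φ m n := by
    intro m n
    have h : ¬ ∃ j, 2 ≤ j ∧ ix m n j ≠ 0 := by
      rintro ⟨j, hj, h⟩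
      exact h (v19_ix_apply hj)
    show (if ∃ j, 2 ≤ j ∧ ix m n j ≠ 0 then 0 else φ (ix m n 0) (ix m n 1)) = φ m n
    rw [if_neg h, ix_zero_apply, ix_one_apply]
  have hco_out : ∀ ν : Gx, ν ∉ Set.range (fun p : ℤ × ℤ => ix p.1 p.2) → co ν = 0 := by
    intro ν hν
    by_cases h : ∃ j, 2 ≤ j ∧ ν j ≠ 0
    · exact if_pos h
    · exact absurd ⟨(ν 0, ν 1), (eq_ix h).symm⟩ hν
  have hnorm : ∀ k : ℕ, ∃ K : ℝ, ∀ p : ℤ × ℤ,
      (1 + (len (ix p.1 p.2) : ℝ)) ^ k * ‖co (ix p.1 p.2)‖ ≤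
        K * ((1 / (1 + |(p.1 : ℝ)|) ^ 2) * (1 / (1 + |(p.2 : ℝ)|) ^ 2)) := by
    intro k
    obtain ⟨K, hK⟩ := v19_bound hd k
    refine ⟨K, fun p => ?_⟩
    rw [hco_ix]
    have hl : (1 + (len (ix p.1 p.2) : ℝ)) = 1 + |(p.1 : ℝ)| + |(p.2 : ℝ)| := by
      rw [len_ix]
      push_cast
      rw [Nat.cast_natAbs, Nat.cast_natAbs]
      push_cast
      ring
    rw [hl]
    have hpos : 0 < (1 + |(p.1 : ℝ)| + |(p.2 : ℝ)|) ^ k := by positivity
    rw [mul_comm, ← le_div_iff₀ hpos]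
    have hKt := hK _ (clp_mem h01 t0) p.1 p.2
    have hRHS : 0 ≤ K * ((1 / (1 + |(p.1 : ℝ)|) ^ 2) * (1 / (1 + |(p.2 : ℝ)|) ^ 2)) :=
      le_trans (by positivity) hKt
    rw [BoundedContinuousFunction.norm_le (div_nonneg hRHS hpos.le)]
    intro t
    rw [le_div_iff₀ hpos, mul_comm, hφ]
    exact hK _ (clp_mem h01 t) p.1 p.2
  have hrapid : Rapid co := by
    intro k
    obtain ⟨K, hK⟩ := hnorm k
    rw [← hinj.summable_iff]
    · exact Summable.of_nonneg_of_le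
        (fun p => mul_nonneg (pow_nonneg (by positivity) _) (norm_nonneg _)) hK
        (v19_summable_two K)
    · intro ν hν
      rw [hco_out ν hν, norm_zero, mul_zero]
  refine ⟨⟨co, hrapid⟩, fun ν hν => if_pos hν, ?_, ?_, ?_⟩
  · -- reality
    intro ν t
    show co (-ν) t = (starRingEnd ℂ) (co ν t)
    by_cases h : ∃ j, 2 ≤ j ∧ ν j ≠ 0
    · have h' : ∃ j, 2 ≤ j ∧ (-ν) j ≠ 0 := by
        obtain ⟨j, hj, hne⟩ := h
        exact ⟨j, hj, by simpa using hne⟩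
      have e1 : co ν = 0 := if_pos h
      have e2 : co (-ν) = 0 := if_pos h'
      rw [e1, e2]; simp
    · have h' : ¬ ∃ j, 2 ≤ j ∧ (-ν) j ≠ 0 := by
        rintro ⟨j, hj, hne⟩
        exact h ⟨j, hj, by simpa using hne⟩
      have e1 : co ν = φ (ν 0) (ν 1) := if_neg h
      have e2 : co (-ν) = φ ((-ν) 0) ((-ν) 1) := if_neg h'
      rw [e1, e2, hφ, hφ]
      exact v19_fc_conj (fun x => G x (clp t0 t1 t)) (ν 0) (ν 1)
  · -- coefficients
    intro t ht m n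
    show co (ix m n) t = _
    rw [hco_ix, hφ, clp_of_mem ht]
  · -- evaluation
    intro t ht x
    have hc : Continuous fun x => G x t := by
      have h : ContinuousOn (fun x : Fin 2 → ℝ => G x t) Set.univ :=
        hG.comp (f := fun x : Fin 2 → ℝ => (x, t)) (by fun_prop)
          (fun x _ => ⟨Set.mem_univ _, ht⟩)
      exact continuousOn_univ.1 h
    have hs : Summable fun p : ℤ × ℤ => ‖fc (fun x => (G x t : ℂ)) p.1 p.2‖ := by
      obtain ⟨K, hK⟩ := v19_bound hd 0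
      refine Summable.of_nonneg_of_le (fun p => norm_nonneg _) (fun p => ?_) (v19_summable_two K)
      have := hK t ht p.1 p.2
      rwa [pow_zero, one_mul] at this
    have hper : Per fun x => (G x t : ℂ) := fun x k =>
      congrArg (fun y : ℝ => (y : ℂ)) (hp t ht x k)
    have hF : HasSum (fun p : ℤ × ℤ => fc (fun x => (G x t : ℂ)) p.1 p.2 * chx p.1 p.2 x)
        (G x t : ℂ) := fourier_inversion (Complex.continuous_ofReal.comp hc) hper hs x
    have hev : ev κs ⟨co, hrapid⟩ x t = (G x t : ℂ) := by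
      unfold ev
      rw [← hF.tsum_eq]
      rw [← hinj.tsum_eq]
      · refine tsum_congr fun p => ?_
        show co (ix p.1 p.2) t * _ = _
        rw [hco_ix, hφ, clp_of_mem ht, kap_κs_zero, kap_κs_one, ix_zero_apply, ix_one_apply]
        rfl
      · intro ν hν
        by_contra h
        apply hν
        show co ν t * _ = 0
        rw [hco_out ν h]
        simp
    unfold evR
    rw [hev, Complex.ofReal_re]

end ES
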