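import Pool.Agent.ES.V16
import Pool.Agent.ES.V08
import Pool.Agent.ES.V09

/-!
ES-V20 (Part II, helper27): time derivative of the Fourier coefficients of an exact solution, tested
form.

`V` is continuous on `ℝ² × [t0,t1]`, and satisfies the weak form without error on every subinterval.
For a time independent test function `w` (smooth, periodic, divergence free), `φ x t = w x` is a
`Tst`, `wf V φ τ = ∫ ∑_a ∑_b V_a V_b ∂_b w_a =: Q(τ)` is continuous on `[t0,t1]`
(`continuousOn_integral_Bx`) and `P(t) - P(s) = ∫_s^t Q` with `P(t) = ∫ ∑_a V_a w_a`; so `P` has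
derivative `Q(t)` at every `t ∈ (t0,t1)`
(`intervalIntegral.integral_hasDerivAt_right` or `hasDerivAt_iff` from the integral formula).
`hasDerivAt_test` is this statement, `hasDerivAt_char` the special case (real and imaginary part)
`w_a = w0_a e^{-i(m x_0 + n x_1)}` with `m w0_0 + n w0_1 = 0`, in terms of `fc`:
`∂_b w_a = -i k_b w0_a e^{...}`, `k = (m,n)`.
`div_char`: `DF V t` with `ψ = cos(m x_0 + n x_1), sin(...)`.
-/

open MeasureTheory

namespace ES

/-! private helpers -/

/-- A continuous periodic function is bounded. -/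
private theorem v20_bdd {G : (Fin 2 → ℝ) → ℝ} (hG : Continuous G) (hp : Per G) :
    ∃ C : ℝ, ∀ x, |G x| ≤ C := by
  have hc : IsCompact Bx := isCompact_Icc
  obtain ⟨C, hC⟩ := hc.exists_bound_of_continuousOn hG.continuousOn
  refine ⟨C, fun x => ?_⟩
  have hpi : 0 < 2 * Real.pi := by positivity
  have h := hp x (fun a => -⌊x a / (2 * Real.pi)⌋)
  rw [← h]
  refine hC _ ?_
  constructor
  · intro a
    have h1 := Int.floor_le (x a / (2 * Real.pi))
    rw [le_div_iff₀ hpi] at h1
    simp only [Pi.zero_apply]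
    push_cast
    nlinarith
  · intro a
    have h1 := (Int.lt_floor_add_one (x a / (2 * Real.pi))).le
    rw [div_le_iff₀ hpi] at h1
    push_cast
    nlinarith

private theorem v20_cont_comp {w : (Fin 2 → ℝ) → (Fin 2 → ℝ)} (hw : ContDiff ℝ 2 w) (a : Fin 2) :
    ContDiff ℝ 2 fun y => w y a :=
  contDiff_pi.1 hw a

private theorem v20_cont_fderiv {w : (Fin 2 → ℝ) → (Fin 2 → ℝ)} (hw : ContDiff ℝ 2 w)
    (a b : Fin 2) :
    Continuous fun x => fderiv ℝ (fun y => w y a) x (Pi.single b 1) :=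
  ((v20_cont_comp hw a).continuous_fderiv (by norm_num)).clm_apply continuous_const

variable {V : Fld} {t0 t1 : ℝ}

theorem hasDerivAt_test
    (hc : ∀ a, ContinuousOn (fun p : (Fin 2 → ℝ) × ℝ => V p.1 p.2 a) (Set.univ ×ˢ Set.Icc t0 t1))
    (hW : ∀ s t, t0 ≤ s → s < t → t ≤ t1 → WE V s t 0)
    {w : (Fin 2 → ℝ) → (Fin 2 → ℝ)} (hw : ContDiff ℝ 2 w)
    (hp : Per w) (hdiv : ∀ x, ∑ a : Fin 2, fderiv ℝ (fun y => w y a) x (Pi.single a 1) = 0)
    {t : ℝ} (ht : t ∈ Set.Ioo t0 t1) :
    HasDerivAt (fun s => ∫ x in Bx, ∑ a, V x s a * w x a)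
      (∫ x in Bx, ∑ a, ∑ b, V x t a * V x t b * fderiv ℝ (fun y => w y a) x (Pi.single b 1)) t := by
  have h01 : t0 ≤ t1 := (ht.1.trans ht.2).le
  set Q : ℝ → ℝ := fun τ => ∫ x in Bx, ∑ a, ∑ b, V x τ a * V x τ b *
    fderiv ℝ (fun y => w y a) x (Pi.single b 1) with hQ
  set φ : Fld := fun x _ => w x with hφ
  have hT : Tst φ := by
    refine ⟨hw.comp contDiff_fst, fun x n _ => hp x n, fun x _ => hdiv x⟩
  -- bound of the gradient
  have hpc : ∀ a, Per fun x => w x a := fun a x n => by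
    have := hp x n
    exact congrFun this a
  obtain ⟨Λ, hΛ⟩ : ∃ Λ : ℝ, ∀ x (a b : Fin 2),
      |fderiv ℝ (fun y => w y a) x (Pi.single b 1)| ≤ Λ := by
    have h : ∀ a b : Fin 2, ∃ C : ℝ, ∀ x,
        |fderiv ℝ (fun y => w y a) x (Pi.single b 1)| ≤ C := fun a b =>
      v20_bdd (v20_cont_fderiv hw a b) ((hpc a).fderiv _)
    choose C hC using h
    refine ⟨∑ a, ∑ b, |C a b|, fun x a b => (hC a b x).trans ((le_abs_self _).trans ?_)⟩
    refine (Finset.single_le_sum (f := fun b => |C a b|) (fun _ _ => abs_nonneg _)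
      (Finset.mem_univ b)).trans ?_
    exact Finset.single_le_sum (f := fun a => ∑ b, |C a b|)
      (fun _ _ => Finset.sum_nonneg fun _ _ => abs_nonneg _) (Finset.mem_univ a)
  -- the integral formula
  have hwf : ∀ τ, wf V φ τ = Q τ := by
    intro τ
    simp only [wf, hQ, hφ]
    refine integral_congr_ae (Filter.Eventually.of_forall fun x => ?_)
    simp
  have hint : ∀ s u, t0 ≤ s → s < u → u ≤ t1 → ∫ τ in s..u, Q τ = pr V φ u - pr V φ s := by
    intro s u h1 h2 h3
    have h := hW s u h1 h2 h3 φ hT Λ fun x _ a b => hΛ x a b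
    rw [zero_mul, zero_mul] at h
    have h4 := abs_eq_zero.1 (le_antisymm h (abs_nonneg _))
    have h5 : (∫ τ in s..u, wf V φ τ) = ∫ τ in s..u, Q τ :=
      intervalIntegral.integral_congr fun τ _ => hwf τ
    rw [h5] at h4
    linarith
  -- continuity of `Q`
  have hQc : ContinuousOn Q (Set.Icc t0 t1) := by
    refine continuousOn_integral_Bx h01 ?_
    refine continuousOn_finset_sum _ fun a _ => continuousOn_finset_sum _ fun b _ => ?_
    refine ((hc a).mul (hc b)).mul ?_
    exact ((v20_cont_fderiv hw a b).comp continuous_fst).continuousOn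
  have hnh : Set.Icc t0 t1 ∈ nhds t := Icc_mem_nhds ht.1 ht.2
  have hP : (fun s => ∫ x in Bx, ∑ a, V x s a * w x a) =ᶠ[nhds t]
      fun u => pr V φ t0 + ∫ τ in t0..u, Q τ := by
    filter_upwards [Icc_mem_nhds ht.1 ht.2] with u hu
    have e : (∫ x in Bx, ∑ a, V x u a * w x a) = pr V φ u := rfl
    rw [e]
    rcases hu.1.eq_or_lt with h | h
    · rw [← h, intervalIntegral.integral_same, add_zero]
    · rw [hint t0 u le_rfl h hu.2]; ring
  have hI : IntervalIntegrable Q volume t0 t := by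
    refine (hQc.mono ?_).intervalIntegrable_of_Icc ht.1.le
    exact Set.Icc_subset_Icc_right ht.2.le
  have hm : StronglyMeasurableAtFilter Q (nhds t) volume :=
    hQc.stronglyMeasurableAtFilter_nhdsWithin measurableSet_Icc t |>.filter_mono
      (by rw [nhdsWithin_eq_nhds.2 hnh])
  have hca : ContinuousAt Q t := hQc.continuousAt hnh
  have hd := intervalIntegral.integral_hasDerivAt_right hI hm hca
  exact (hd.const_add (pr V φ t0)).congr_of_eventuallyEq hP

/-- Frequency vector. -/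
def kv (m n : ℤ) (a : Fin 2) : ℤ := if a = 0 then m else n

private noncomputable def v20_L (m n : ℤ) : (Fin 2 → ℝ) →L[ℝ] ℝ :=
  (m : ℝ) • (ContinuousLinearMap.proj 0 : (Fin 2 → ℝ) →L[ℝ] ℝ) +
    (n : ℝ) • (ContinuousLinearMap.proj 1 : (Fin 2 → ℝ) →L[ℝ] ℝ)

private theorem v20_L_apply (m n : ℤ) (x : Fin 2 → ℝ) :
    v20_L m n x = (m : ℝ) * x 0 + (n : ℝ) * x 1 := by
  simp [v20_L]

private theorem v20_L_single (m n : ℤ) (b : Fin 2) :
    v20_L m n (Pi.single b 1) = (kv m n b : ℝ) := by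
  rw [v20_L_apply]
  fin_cases b <;> simp [kv]

private theorem v20_L_per (m n : ℤ) (x : Fin 2 → ℝ) (k : Fin 2 → ℤ) :
    v20_L m n (fun a => x a + 2 * Real.pi * k a) =
      v20_L m n x + ((m * k 0 + n * k 1 : ℤ) : ℝ) * (2 * Real.pi) := by
  rw [v20_L_apply, v20_L_apply]; push_cast; ring

private theorem v20_chx (m n : ℤ) (x : Fin 2 → ℝ) :
    chx (-m) (-n) x = ((Real.cos (v20_L m n x) : ℝ) : ℂ) -
      Complex.I * ((Real.sin (v20_L m n x) : ℝ) : ℂ) := by
  unfold chx
  have e : Complex.I * (((-m : ℤ) : ℂ) * (x 0 : ℂ) + ((-n : ℤ) : ℂ) * (x 1 : ℂ)) =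
      ((-(v20_L m n x) : ℝ) : ℂ) * Complex.I := by
    rw [v20_L_apply]; push_cast; ring
  rw [e, Complex.exp_mul_I, ← Complex.ofReal_cos, ← Complex.ofReal_sin, Real.cos_neg,
    Real.sin_neg]
  push_cast; ring

private theorem v20_integrable {E : Type*} [NormedAddCommGroup E] {G : (Fin 2 → ℝ) → E}
    (hG : Continuous G) : IntegrableOn G Bx :=
  hG.continuousOn.integrableOn_compact (isCompact_Icc : IsCompact Bx)

/-- `fc` in terms of `cos`, `sin`. -/
private theorem v20_fc {u : (Fin 2 → ℝ) → ℝ} (hu : Continuous u) (m n : ℤ) :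
    fc (fun x => (u x : ℂ)) m n = (((2 * Real.pi : ℝ) : ℂ) ^ 2)⁻¹ *
      (((∫ x in Bx, u x * Real.cos (v20_L m n x) : ℝ) : ℂ) -
        Complex.I * ((∫ x in Bx, u x * Real.sin (v20_L m n x) : ℝ) : ℂ)) := by
  have hL : Continuous fun x => v20_L m n x := (v20_L m n).continuous
  unfold fc
  congr 1
  have e : (fun x => (u x : ℂ) * chx (-m) (-n) x) = fun x =>
      ((u x * Real.cos (v20_L m n x) : ℝ) : ℂ) -
        Complex.I * ((u x * Real.sin (v20_L m n x) : ℝ) : ℂ) := by
    funext x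
    rw [v20_chx]; push_cast; ring
  rw [e, integral_sub, integral_const_mul, integral_complex_ofReal, integral_complex_ofReal]
  · exact v20_integrable (Complex.continuous_ofReal.comp (hu.mul (Real.continuous_cos.comp hL)))
  · exact (v20_integrable (continuous_const.mul
      (Complex.continuous_ofReal.comp (hu.mul (Real.continuous_sin.comp hL)))))

private theorem v20_cos_fderiv (m n : ℤ) (x : Fin 2 → ℝ) :
    HasFDerivAt (fun y => Real.cos (v20_L m n y)) (-(Real.sin (v20_L m n x)) • v20_L m n) x :=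
  (v20_L m n).hasFDerivAt.cos

private theorem v20_sin_fderiv (m n : ℤ) (x : Fin 2 → ℝ) :
    HasFDerivAt (fun y => Real.sin (v20_L m n y)) ((Real.cos (v20_L m n x)) • v20_L m n) x :=
  (v20_L m n).hasFDerivAt.sin

private theorem v20_cos_apply (m n : ℤ) (c : ℝ) (x : Fin 2 → ℝ) (b : Fin 2) :
    fderiv ℝ (fun y => c * Real.cos (v20_L m n y)) x (Pi.single b 1) =
      -(c * (kv m n b : ℝ) * Real.sin (v20_L m n x)) := by
  rw [((v20_cos_fderiv m n x).const_mul c).fderiv]
  simp only [ContinuousLinearMap.smul_apply, smul_eq_mul, v20_L_single]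
  ring

private theorem v20_sin_apply (m n : ℤ) (c : ℝ) (x : Fin 2 → ℝ) (b : Fin 2) :
    fderiv ℝ (fun y => c * Real.sin (v20_L m n y)) x (Pi.single b 1) =
      c * (kv m n b : ℝ) * Real.cos (v20_L m n x) := by
  rw [((v20_sin_fderiv m n x).const_mul c).fderiv]
  simp only [ContinuousLinearMap.smul_apply, smul_eq_mul, v20_L_single]
  ring

private theorem v20_int_sum {ι : Type*} (s : Finset ι) (c : ι → ℝ) (u : ι → (Fin 2 → ℝ) → ℝ)
    (hu : ∀ i, Continuous (u i)) {h : (Fin 2 → ℝ) → ℝ} (hh : Continuous h) :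
    ∑ i ∈ s, c i * ∫ x in Bx, u i x * h x = ∫ x in Bx, ∑ i ∈ s, u i x * (c i * h x) := by
  rw [integral_finset_sum]
  · refine Finset.sum_congr rfl fun i _ => ?_
    rw [← integral_const_mul]
    refine integral_congr_ae (Filter.Eventually.of_forall fun x => ?_)
    simp only
    ring
  · intro i _
    exact v20_integrable ((hu i).mul (continuous_const.mul hh))

theorem hasDerivAt_char
    (hc : ∀ a, ContinuousOn (fun p : (Fin 2 → ℝ) × ℝ => V p.1 p.2 a) (Set.univ ×ˢ Set.Icc t0 t1))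
    (hW : ∀ s t, t0 ≤ s → s < t → t ≤ t1 → WE V s t 0) (m n : ℤ) (w0 : Fin 2 → ℝ)
    (hw : (m : ℝ) * w0 0 + (n : ℝ) * w0 1 = 0) {t : ℝ} (ht : t ∈ Set.Ioo t0 t1) :
    HasDerivAt (fun s => ∑ a, (w0 a : ℂ) * fc (fun x => (V x s a : ℂ)) m n)
      (∑ a, ∑ b, (w0 a : ℂ) * (-(Complex.I * (kv m n b : ℂ))) *
        fc (fun x => ((V x t a * V x t b : ℝ) : ℂ)) m n) t := by
  have hL : Continuous fun x => v20_L m n x := (v20_L m n).continuous
  have hcos : Continuous fun x => Real.cos (v20_L m n x) := Real.continuous_cos.comp hL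
  have hsin : Continuous fun x => Real.sin (v20_L m n x) := Real.continuous_sin.comp hL
  have hVc : ∀ s ∈ Set.Icc t0 t1, ∀ a, Continuous fun x => V x s a := by
    intro s hs a
    have h : ContinuousOn (fun x : Fin 2 → ℝ => V x s a) Set.univ :=
      (hc a).comp (f := fun x : Fin 2 → ℝ => (x, s)) (by fun_prop)
        (fun x _ => ⟨Set.mem_univ _, hs⟩)
    exact continuousOn_univ.1 h
  -- the two test functions
  have h1 := hasDerivAt_test hc hW (w := fun x a => w0 a * Real.cos (v20_L m n x))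
    (contDiff_pi.2 fun a => contDiff_const.mul (Real.contDiff_cos.comp (v20_L m n).contDiff))
    (fun x k => by
      funext a
      simp only
      rw [v20_L_per, Real.cos_add_int_mul_two_pi])
    (fun x => by
      simp only [v20_cos_apply, Fin.sum_univ_two]
      have e0 : (kv m n 0 : ℝ) = m := by simp [kv]
      have e1 : (kv m n 1 : ℝ) = n := by simp [kv]
      rw [e0, e1]
      linear_combination -(Real.sin (v20_L m n x)) * hw) ht
  have h2 := hasDerivAt_test hc hW (w := fun x a => w0 a * Real.sin (v20_L m n x))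
    (contDiff_pi.2 fun a => contDiff_const.mul (Real.contDiff_sin.comp (v20_L m n).contDiff))
    (fun x k => by
      funext a
      simp only
      rw [v20_L_per, Real.sin_add_int_mul_two_pi])
    (fun x => by
      simp only [v20_sin_apply, Fin.sum_univ_two]
      have e0 : (kv m n 0 : ℝ) = m := by simp [kv]
      have e1 : (kv m n 1 : ℝ) = n := by simp [kv]
      rw [e0, e1]
      linear_combination (Real.cos (v20_L m n x)) * hw) ht
  have h3 := (h1.ofReal_comp.sub (h2.ofReal_comp.const_mul Complex.I)).const_mul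
    ((((2 * Real.pi : ℝ) : ℂ) ^ 2)⁻¹)
  have hev : (fun s => ∑ a, (w0 a : ℂ) * fc (fun x => (V x s a : ℂ)) m n) =ᶠ[nhds t]
      fun s => (((2 * Real.pi : ℝ) : ℂ) ^ 2)⁻¹ *
        (((∫ x in Bx, ∑ a, V x s a * (w0 a * Real.cos (v20_L m n x)) : ℝ) : ℂ) -
          Complex.I * ((∫ x in Bx, ∑ a, V x s a * (w0 a * Real.sin (v20_L m n x)) : ℝ) : ℂ)) := by
    filter_upwards [Icc_mem_nhds ht.1 ht.2] with s hs
    rw [← v20_int_sum Finset.univ w0 (fun a x => V x s a) (hVc s hs) hcos,
      ← v20_int_sum Finset.univ w0 (fun a x => V x s a) (hVc s hs) hsin]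
    simp only [Fin.sum_univ_two]
    rw [v20_fc (hVc s hs 0), v20_fc (hVc s hs 1)]
    generalize (((2 * Real.pi : ℝ) : ℂ) ^ 2)⁻¹ = K
    push_cast
    ring
  refine HasDerivAt.congr_of_eventuallyEq ?_ hev
  refine h3.congr_deriv ?_
  have htI : t ∈ Set.Icc t0 t1 := ⟨ht.1.le, ht.2.le⟩
  have hVV : ∀ p : Fin 2 × Fin 2, Continuous fun x => V x t p.1 * V x t p.2 := fun p =>
    (hVc t htI p.1).mul (hVc t htI p.2)
  have e1 : (∫ x in Bx, ∑ a, ∑ b, V x t a * V x t b *
      fderiv ℝ (fun y => (fun x a => w0 a * Real.cos (v20_L m n x)) y a) x (Pi.single b 1)) =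
      ∑ p : Fin 2 × Fin 2, (-(w0 p.1 * kv m n p.2)) *
        ∫ x in Bx, (V x t p.1 * V x t p.2) * Real.sin (v20_L m n x) := by
    rw [v20_int_sum Finset.univ (fun p : Fin 2 × Fin 2 => -(w0 p.1 * kv m n p.2))
      (fun p x => V x t p.1 * V x t p.2) hVV hsin]
    refine integral_congr_ae (Filter.Eventually.of_forall fun x => ?_)
    simp only [v20_cos_apply]
    rw [← Finset.sum_product', Finset.univ_product_univ]
    refine Finset.sum_congr rfl fun p _ => ?_
    ring
  have e2 : (∫ x in Bx, ∑ a, ∑ b, V x t a * V x t b *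
      fderiv ℝ (fun y => (fun x a => w0 a * Real.sin (v20_L m n x)) y a) x (Pi.single b 1)) =
      ∑ p : Fin 2 × Fin 2, (w0 p.1 * kv m n p.2) *
        ∫ x in Bx, (V x t p.1 * V x t p.2) * Real.cos (v20_L m n x) := by
    rw [v20_int_sum Finset.univ (fun p : Fin 2 × Fin 2 => (w0 p.1 * kv m n p.2))
      (fun p x => V x t p.1 * V x t p.2) hVV hcos]
    refine integral_congr_ae (Filter.Eventually.of_forall fun x => ?_)
    simp only [v20_sin_apply]
    rw [← Finset.sum_product', Finset.univ_product_univ]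
  rw [e1, e2]
  rw [← Finset.sum_product', Finset.univ_product_univ]
  have e3 : ∀ p : Fin 2 × Fin 2, (w0 p.1 : ℂ) * (-(Complex.I * (kv m n p.2 : ℂ))) *
        fc (fun x => ((V x t p.1 * V x t p.2 : ℝ) : ℂ)) m n =
      (((2 * Real.pi : ℝ) : ℂ) ^ 2)⁻¹ *
        ((((-(w0 p.1 * kv m n p.2)) *
          ∫ x in Bx, (V x t p.1 * V x t p.2) * Real.sin (v20_L m n x) : ℝ) : ℂ) -
        Complex.I * (((w0 p.1 * kv m n p.2) *
          ∫ x in Bx, (V x t p.1 * V x t p.2) * Real.cos (v20_L m n x) : ℝ) : ℂ)) := by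
    intro p
    rw [v20_fc (hVV p)]
    generalize (((2 * Real.pi : ℝ) : ℂ) ^ 2)⁻¹ = K
    push_cast
    have hI : Complex.I * Complex.I = -1 := Complex.I_mul_I
    linear_combination K * (w0 p.1 : ℂ) * (kv m n p.2 : ℂ) *
      (((∫ x in Bx, (V x t p.1 * V x t p.2) * Real.sin (v20_L m n x) : ℝ)) : ℂ) * hI
  rw [Finset.sum_congr rfl fun p _ => e3 p, ← Finset.mul_sum, Finset.sum_sub_distrib,
    ← Finset.mul_sum]
  push_cast
  rfl

theorem div_char (hV : DF V t0)
    (hc : ∀ a, Continuous fun x => V x t0 a) (m n : ℤ) :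
    ∑ a, (kv m n a : ℂ) * fc (fun x => (V x t0 a : ℂ)) m n = 0 := by
  have hL : Continuous fun x => v20_L m n x := (v20_L m n).continuous
  have hcos : Continuous fun x => Real.cos (v20_L m n x) := Real.continuous_cos.comp hL
  have hsin : Continuous fun x => Real.sin (v20_L m n x) := Real.continuous_sin.comp hL
  have h1 := hV (fun x => 1 * Real.cos (v20_L m n x))
    (contDiff_const.mul (Real.contDiff_cos.comp (v20_L m n).contDiff))
    (fun x k => by rw [v20_L_per, Real.cos_add_int_mul_two_pi])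
  have h2 := hV (fun x => 1 * Real.sin (v20_L m n x))
    (contDiff_const.mul (Real.contDiff_sin.comp (v20_L m n).contDiff))
    (fun x k => by rw [v20_L_per, Real.sin_add_int_mul_two_pi])
  have e1 : (∫ x in Bx, ∑ a, V x t0 a *
      fderiv ℝ (fun x => 1 * Real.cos (v20_L m n x)) x (Pi.single a 1)) =
      -∑ a, (kv m n a : ℝ) * ∫ x in Bx, V x t0 a * Real.sin (v20_L m n x) := by
    rw [v20_int_sum Finset.univ (fun a => (kv m n a : ℝ)) (fun a x => V x t0 a) hc hsin,
      ← integral_neg]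
    refine integral_congr_ae (Filter.Eventually.of_forall fun x => ?_)
    simp only [v20_cos_apply]
    rw [← Finset.sum_neg_distrib]
    refine Finset.sum_congr rfl fun a _ => ?_
    ring
  have e2 : (∫ x in Bx, ∑ a, V x t0 a *
      fderiv ℝ (fun x => 1 * Real.sin (v20_L m n x)) x (Pi.single a 1)) =
      ∑ a, (kv m n a : ℝ) * ∫ x in Bx, V x t0 a * Real.cos (v20_L m n x) := by
    rw [v20_int_sum Finset.univ (fun a => (kv m n a : ℝ)) (fun a x => V x t0 a) hc hcos]
    refine integral_congr_ae (Filter.Eventually.of_forall fun x => ?_)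
    simp only [v20_sin_apply]
    refine Finset.sum_congr rfl fun a _ => ?_
    ring
  rw [e1, neg_eq_zero] at h1
  rw [e2] at h2
  have h1' := congrArg (fun y : ℝ => (y : ℂ)) h1
  have h2' := congrArg (fun y : ℝ => (y : ℂ)) h2
  simp only [Fin.sum_univ_two] at h1' h2' ⊢
  push_cast at h1' h2'
  rw [v20_fc (hc 0), v20_fc (hc 1)]
  generalize (((2 * Real.pi : ℝ) : ℂ) ^ 2)⁻¹ = K
  linear_combination K * h2' - K * Complex.I * h1'

end ES
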