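import Pool.Agent.ES.V19
import Pool.Agent.ES.V20

/-!
ES-V21 (Part II, helper27): the Euler equation for the Fourier coefficients, as a `TD` statement.

`g a` represents `V · · a` with the standard frequencies, level 2.  Claim: coefficientwise
`d/dt (g a) = - ∑_b ∑_c Ps κs a c (D κs b (g b * g c))`.
Coefficient at an index not of level 2: both sides zero (`Lev.mul`, `Lev.D`, `Lev.mlt`).
Coefficient at `ix m n`, `k = (m,n) ≠ 0`, `k^⊥ = (-n, m)`: by `div_char`, `k · ĝ = 0`, so
`ĝ_a = k^⊥_a (∑_c k^⊥_c ĝ_c) / |k|²` for all `t ∈ [t0,t1]`; `hasDerivAt_char` with `w0 = k^⊥` gives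
the derivative `k^⊥_a /|k|² ∑_{c,b} k^⊥_c (-i k_b) (V_c V_b)^`, and
`(V_c V_b)^ (m,n) = (g b * g c).co (ix m n) t` (`fc_ev` for `g b * g c`, `ev_mul`, `ev_real`), and the
symbol of `Ps κs a c` at `ix m n` is `k^⊥_a k^⊥_c / |k|²`.
`k = 0`: `hasDerivAt_char` with `w0` a unit vector gives derivative `0`; the symbol of `Ps` at `0` is 0.
(Only `t ∈ (t0,t1)` is needed; near such `t` the identities hold for all `s ∈ [t0,t1]`,
use `HasDerivAt.congr_of_eventuallyEq`.)
-/

open MeasureTheory

namespace ES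

variable {V : Fld} {t0 t1 : ℝ}

theorem fc_mul {g : Fin 2 → WT} (hL : ∀ a, Lev 2 (g a)) (hR : ∀ a, IsR (g a))
    (hg : ∀ a, ∀ t ∈ Set.Icc t0 t1, ∀ x, evR κs (g a) x t = V x t a) (a b : Fin 2) {t : ℝ}
    (ht : t ∈ Set.Icc t0 t1) (m n : ℤ) :
    fc (fun x => ((V x t a * V x t b : ℝ) : ℂ)) m n = (g a * g b).co (ix m n) t := by
  rw [← fc_ev (Lev.mul (hL a) (hL b)) t m n]
  refine fc_congr (fun x => ?_) m n
  rw [ev_mul, ev_real (hR a), ev_real (hR b), hg a t ht x, hg b t ht x, Complex.ofReal_mul]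

/-- symbol of `Ps` at the standard frequencies -/
private noncomputable def v21_ps (a c : Fin 2) (ν : Gx) : ℂ :=
  (if a = c then (if ksq κs ν = 0 then 0 else 1) else 0)
    - ((kap κs a ν : ℂ) * (kap κs c ν : ℂ)) / (ksq κs ν : ℂ)

private theorem v21_Ps (a c : Fin 2) (f : WT) (ν : Gx) (t : ℝ) :
    (Ps κs a c f).co ν t = v21_ps a c ν * f.co ν t := by
  have h1 : (Pg κs a c f).co ν t
      = ((kap κs a ν : ℂ) * (kap κs c ν : ℂ)) / (ksq κs ν : ℂ) * f.co ν t := rfl
  have h2 : (Pnz κs f).co ν t = (if ksq κs ν = 0 then 0 else 1) * f.co ν t := rfl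
  unfold Ps v21_ps
  by_cases hac : a = c
  · rw [if_pos hac, if_pos hac, LinearMap.sub_apply, WT.co_sub, Pi.sub_apply,
      BoundedContinuousFunction.coe_sub, Pi.sub_apply, h1, h2, sub_mul]
  · rw [if_neg hac, if_neg hac, LinearMap.sub_apply, WT.co_sub, Pi.sub_apply,
      BoundedContinuousFunction.coe_sub, Pi.sub_apply, h1, LinearMap.zero_apply, sub_mul]
    simp

/-- the coefficient of the right hand side -/
private theorem v21_rhs (g : Fin 2 → WT) (a : Fin 2) (ν : Gx) (t : ℝ) :
    (-∑ b, ∑ c, Ps κs a c (D κs b (g b * g c))).co ν t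
      = -∑ b, ∑ c, v21_ps a c ν * (Complex.I * (kap κs b ν : ℂ) * (g b * g c).co ν t) := by
  let L : WT →+ ℂ :=
    { toFun := fun f => f.co ν t
      map_zero' := rfl
      map_add' := fun _ _ => rfl }
  have h1 : (-∑ b, ∑ c, Ps κs a c (D κs b (g b * g c))).co ν t
      = L (-∑ b, ∑ c, Ps κs a c (D κs b (g b * g c))) := rfl
  rw [h1, map_neg, map_sum]
  congr 1
  refine Finset.sum_congr rfl fun b _ => ?_
  rw [map_sum]
  refine Finset.sum_congr rfl fun c _ => ?_
  have h2 : L (Ps κs a c (D κs b (g b * g c))) = (Ps κs a c (D κs b (g b * g c))).co ν t := rfl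
  rw [h2, v21_Ps]
  congr 1

/-- the orthogonal vector -/
private def v21_w (m n : ℤ) (a : Fin 2) : ℝ := if a = 0 then -(n : ℝ) else (m : ℝ)

private theorem v21_proj {m n : ℤ} (hk : (m : ℂ) ^ 2 + (n : ℂ) ^ 2 ≠ 0) {u : Fin 2 → ℂ}
    (hu : (m : ℂ) * u 0 + (n : ℂ) * u 1 = 0) (a : Fin 2) :
    u a = (v21_w m n a : ℂ) / ((m : ℂ) ^ 2 + (n : ℂ) ^ 2) * ∑ c, (v21_w m n c : ℂ) * u c := by
  rw [Fin.sum_univ_two]
  unfold v21_w
  fin_cases a
  · simp only [Fin.zero_eta, Fin.isValue, ↓reduceIte, one_ne_zero, Complex.ofReal_neg,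
      Complex.ofReal_intCast]
    field_simp
    linear_combination (m : ℂ) * hu
  · simp only [Fin.mk_one, Fin.isValue, ↓reduceIte, one_ne_zero, Complex.ofReal_neg,
      Complex.ofReal_intCast]
    field_simp
    linear_combination (n : ℂ) * hu

theorem TD_hat
    (hc : ∀ a, ContinuousOn (fun p : (Fin 2 → ℝ) × ℝ => V p.1 p.2 a) (Set.univ ×ˢ Set.Icc t0 t1))
    (hW : ∀ s t, t0 ≤ s → s < t → t ≤ t1 → WE V s t 0)
    (hdf : ∀ t ∈ Set.Icc t0 t1, DF V t) {g : Fin 2 → WT} (hL : ∀ a, Lev 2 (g a))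
    (hR : ∀ a, IsR (g a))
    (hg : ∀ a, ∀ t ∈ Set.Icc t0 t1, ∀ x, evR κs (g a) x t = V x t a) (a : Fin 2) :
    TD t0 t1 (g a) (-∑ b, ∑ c, Ps κs a c (D κs b (g b * g c))) := by
  intro ν t ht
  have htI : t ∈ Set.Icc t0 t1 := ⟨ht.1.le, ht.2.le⟩
  rw [v21_rhs]
  by_cases hν : ∃ j, 2 ≤ j ∧ ν j ≠ 0
  · -- not of level 2: both sides vanish
    have h1 : (g a).co ν = 0 := hL a ν hν
    have h2 : ∀ b c, (g b * g c).co ν = 0 := fun b c => Lev.mul (hL b) (hL c) ν hν
    have h3 : (fun s => (g a).co ν s) = fun _ => (0 : ℂ) := by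
      funext s
      rw [h1]; rfl
    rw [h3]
    have h4 : -∑ b, ∑ c, v21_ps a c ν * (Complex.I * (kap κs b ν : ℂ) * (g b * g c).co ν t) = 0 := by
      rw [neg_eq_zero]
      refine Finset.sum_eq_zero fun b _ => Finset.sum_eq_zero fun c _ => ?_
      rw [h2 b c]
      simp
    rw [h4]
    exact hasDerivAt_const t 0
  · obtain ⟨m, n, rfl⟩ : ∃ m n, ν = ix m n := ⟨ν 0, ν 1, eq_ix hν⟩
    have hcoef : ∀ c, ∀ s ∈ Set.Icc t0 t1,
        fc (fun x => (V x s c : ℂ)) m n = (g c).co (ix m n) s := by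
      intro c s hs
      rw [← fc_ev (hL c) s m n]
      refine fc_congr (fun x => ?_) m n
      rw [ev_real (hR c), hg c s hs x]
    have hmul : ∀ b c, fc (fun x => ((V x t b * V x t c : ℝ) : ℂ)) m n
        = (g b * g c).co (ix m n) t := fun b c => fc_mul hL hR hg b c htI m n
    have hk0 : kap κs 0 (ix m n) = m := by rw [kap_κs_zero, ix_zero_apply]
    have hk1 : kap κs 1 (ix m n) = n := by rw [kap_κs_one, ix_one_apply]
    have hksq : ksq κs (ix m n) = (m : ℝ) ^ 2 + (n : ℝ) ^ 2 := by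
      unfold ksq; rw [hk0, hk1]
    have hnhds : Set.Icc t0 t1 ∈ nhds t := Icc_mem_nhds ht.1 ht.2
    by_cases hmn : (m : ℝ) ^ 2 + (n : ℝ) ^ 2 = 0
    · -- zero frequency
      have hm : m = 0 := by
        have : (m : ℝ) ^ 2 = 0 := by nlinarith [sq_nonneg (m : ℝ), sq_nonneg (n : ℝ)]
        have h2 : (m : ℝ) = 0 := by simpa using this
        exact_mod_cast h2
      have hn : n = 0 := by
        have : (n : ℝ) ^ 2 = 0 := by nlinarith [sq_nonneg (m : ℝ), sq_nonneg (n : ℝ)]
        have h2 : (n : ℝ) = 0 := by simpa using this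
        exact_mod_cast h2
      have h1 := hasDerivAt_char hc hW m n (fun c => if c = a then 1 else 0)
        (by rw [hm, hn]; simp) ht
      have h2 : ∑ c, ∑ b, ((if c = a then (1 : ℝ) else 0 : ℝ) : ℂ) *
          (-(Complex.I * (kv m n b : ℂ))) *
          fc (fun x => ((V x t c * V x t b : ℝ) : ℂ)) m n = 0 := by
        refine Finset.sum_eq_zero fun c _ => Finset.sum_eq_zero fun b _ => ?_
        have : kv m n b = 0 := by unfold kv; rw [hm, hn]; simp
        rw [this]; simp
      rw [h2] at h1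
      have h3 : -∑ b, ∑ c, v21_ps a c (ix m n) *
          (Complex.I * (kap κs b (ix m n) : ℂ) * (g b * g c).co (ix m n) t) = 0 := by
        rw [neg_eq_zero]
        refine Finset.sum_eq_zero fun b _ => Finset.sum_eq_zero fun c _ => ?_
        have : kap κs b (ix m n) = 0 := by
          fin_cases b
          · exact hk0.trans hm
          · exact hk1.trans hn
        rw [this]; simp
      rw [h3]
      refine h1.congr_of_eventuallyEq ?_
      filter_upwards [hnhds] with s hs
      rw [Finset.sum_eq_single a]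
      · rw [if_pos rfl, hcoef a s hs]; simp
      · intro c _ hca
        rw [if_neg hca]; simp
      · intro h; exact absurd (Finset.mem_univ a) h
    · -- nonzero frequency
      have hmnC : (m : ℂ) ^ 2 + (n : ℂ) ^ 2 ≠ 0 := by
        intro h
        apply hmn
        exact_mod_cast h
      have h1 := hasDerivAt_char hc hW m n (v21_w m n)
        (by unfold v21_w; simp; ring) ht
      have h2 := h1.const_mul ((v21_w m n a : ℂ) / ((m : ℂ) ^ 2 + (n : ℂ) ^ 2))
      have h3 : HasDerivAt (fun s => (g a).co (ix m n) s)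
          ((v21_w m n a : ℂ) / ((m : ℂ) ^ 2 + (n : ℂ) ^ 2) *
            ∑ c, ∑ b, (v21_w m n c : ℂ) * (-(Complex.I * (kv m n b : ℂ))) *
              fc (fun x => ((V x t c * V x t b : ℝ) : ℂ)) m n) t := by
        refine h2.congr_of_eventuallyEq ?_
        filter_upwards [hnhds] with s hs
        have hcs : ∀ c, Continuous fun x => V x s c := by
          intro c
          have h4 : Continuous fun x : Fin 2 → ℝ => (x, s) := by fun_prop
          exact (hc c).comp_continuous h4 fun x => ⟨Set.mem_univ _, hs⟩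
        have h5 := div_char (hdf s hs) hcs m n
        rw [Fin.sum_univ_two, hcoef 0 s hs, hcoef 1 s hs] at h5
        have h6 : (m : ℂ) * (g 0).co (ix m n) s + (n : ℂ) * (g 1).co (ix m n) s = 0 := by
          simpa [kv] using h5
        have h7 := v21_proj hmnC (u := fun c => (g c).co (ix m n) s) h6 a
        have h8 : ∑ c, (v21_w m n c : ℂ) * fc (fun x => (V x s c : ℂ)) m n
            = ∑ c, (v21_w m n c : ℂ) * (g c).co (ix m n) s :=
          Finset.sum_congr rfl fun c _ => by rw [hcoef c s hs]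
        rw [h8]
        exact h7
      convert h3 using 1
      -- comparison of the two expressions
      have hsym : ∀ b c, (g b * g c).co (ix m n) t = (g c * g b).co (ix m n) t := fun b c => by
        rw [mul_comm]
      have hksqC : (ksq κs (ix m n) : ℂ) = (m : ℂ) ^ 2 + (n : ℂ) ^ 2 := by
        rw [hksq]; push_cast; ring
      have hps : ∀ c, v21_ps a c (ix m n)
          = (v21_w m n a : ℂ) * (v21_w m n c : ℂ) / ((m : ℂ) ^ 2 + (n : ℂ) ^ 2) := by
        intro c
        unfold v21_ps v21_w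
        rw [hksqC, hksq, if_neg hmn]
        fin_cases a <;> fin_cases c <;>
          simp only [Fin.zero_eta, Fin.mk_one, Fin.isValue, ↓reduceIte, one_ne_zero, zero_ne_one,
            hk0, hk1, Complex.ofReal_neg, Complex.ofReal_intCast] <;> field_simp <;> ring
      have hkv : ∀ b, (kap κs b (ix m n) : ℂ) = (kv m n b : ℂ) := by
        intro b
        unfold kv
        fin_cases b
        · simp [hk0]
        · simp [hk1]
      rw [Finset.sum_comm, Finset.mul_sum, ← Finset.sum_neg_distrib]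
      refine Finset.sum_congr rfl fun c _ => ?_
      rw [Finset.mul_sum, ← Finset.sum_neg_distrib]
      refine Finset.sum_congr rfl fun b _ => ?_
      rw [hmul c b, hsym b c, hps c, hkv b]
      ring

end ES
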