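import Pool.Agent.ES.V03

/-!
ES-V22 (Part II, helper27): several time derivatives, joint smoothness.

`TDn a b n f`: `f` has `n` successive time derivatives in `WT` on `(a,b)`.
Closure under the algebra operations by induction on `n` (`TD.add`, `TD.mul`, `TD.mlt`; for the
product: the derivative of `f * g` is `f' * g + f * g'`, and `TDn.of_succ`).
`TDn_all`: if `d/dt g_a = - ∑ ∑ Ps (D (g_b g_c))` then all `g_a` are `TDn n` for all `n`, by
induction on `n` (`TDn (n+1)` of `g_a` holds since the right hand side is `TDn n`).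
`contDiffOn`: induction on `n` for all `f`: `hasStrictFDerivAt_evR` gives the derivative
`∑_a evR (D_a f) dz_a + evR f' dt`, whose coefficient functions are `ContDiffOn n` by induction
(`TDn n` of `D_a f` and of `f'`); `contDiffOn_succ_iff_fderiv_of_isOpen` or
`contDiffOn_succ_iff_hasFDerivWithinAt`.
-/

namespace ES

/-- `n` time derivatives. -/
def TDn (a b : ℝ) : ℕ → WT → Prop
  | 0, _ => True
  | n + 1, f => ∃ g, TD a b f g ∧ TDn a b n g

theorem TDn.of_succ {a b : ℝ} {n : ℕ} {f : WT} (h : TDn a b (n + 1) f) : TDn a b n f := by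
  induction n generalizing f with
  | zero => trivial
  | succ n ih =>
    obtain ⟨g, h1, h2⟩ := h
    exact ⟨g, h1, ih h2⟩

theorem TDn.zero (a b : ℝ) (n : ℕ) : TDn a b n 0 := by
  induction n with
  | zero => trivial
  | succ n ih => exact ⟨0, TD.zero a b, ih⟩

theorem TDn.add {a b : ℝ} {n : ℕ} {f g : WT} (hf : TDn a b n f) (hg : TDn a b n g) :
    TDn a b n (f + g) := by
  induction n generalizing f g with
  | zero => trivial
  | succ n ih =>
    obtain ⟨f', h1, h2⟩ := hf
    obtain ⟨g', h3, h4⟩ := hg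
    exact ⟨f' + g', h1.add h3, ih h2 h4⟩

theorem TDn.neg {a b : ℝ} {n : ℕ} {f : WT} (hf : TDn a b n f) : TDn a b n (-f) := by
  induction n generalizing f with
  | zero => trivial
  | succ n ih =>
    obtain ⟨f', h1, h2⟩ := hf
    exact ⟨-f', h1.neg, ih h2⟩

theorem TDn.sum {a b : ℝ} {n : ℕ} {ι : Type*} (s : Finset ι) {f : ι → WT}
    (hf : ∀ j ∈ s, TDn a b n (f j)) : TDn a b n (∑ j ∈ s, f j) := by
  classical
  induction s using Finset.induction_on with
  | empty => simpa using TDn.zero a b n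
  | insert i s hi ih =>
    rw [Finset.sum_insert hi]
    exact (hf i (Finset.mem_insert_self i s)).add
      (ih fun j hj => hf j (Finset.mem_insert_of_mem hj))

theorem TDn.mul {a b : ℝ} {n : ℕ} {f g : WT} (hf : TDn a b n f) (hg : TDn a b n g) :
    TDn a b n (f * g) := by
  induction n generalizing f g with
  | zero => trivial
  | succ n ih =>
    have hf0 := hf.of_succ
    have hg0 := hg.of_succ
    obtain ⟨f', h1, h2⟩ := hf
    obtain ⟨g', h3, h4⟩ := hg
    exact ⟨f' * g + f * g', h1.mul h3, (ih h2 hg0).add (ih hf0 h4)⟩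

theorem TDn.mlt {a b : ℝ} {n : ℕ} {s : Gx → ℂ} (hs : PG s) {f : WT} (hf : TDn a b n f) :
    TDn a b n (ES.mlt s hs f) := by
  induction n generalizing f with
  | zero => trivial
  | succ n ih =>
    obtain ⟨f', h1, h2⟩ := hf
    exact ⟨ES.mlt s hs f', h1.mlt hs, ih h2⟩

theorem TDn.D {a b : ℝ} {n : ℕ} (κ : Kp) (i : Fin 2) {f : WT} (hf : TDn a b n f) :
    TDn a b n (ES.D κ i f) := hf.mlt _

theorem TDn.Ps {a b : ℝ} {n : ℕ} (κ : Kp) (i j : Fin 2) {f : WT} (hf : TDn a b n f) :
    TDn a b n (ES.Ps κ i j f) := by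
  have h1 : TDn a b n (ES.Pg κ i j f) := hf.mlt _
  have h2 : TDn a b n ((if i = j then ES.Pnz κ else 0) f) := by
    split_ifs
    · exact hf.mlt _
    · exact TDn.zero a b n
  have e : ES.Ps κ i j f = (if i = j then ES.Pnz κ else 0) f + -(ES.Pg κ i j f) := by
    unfold ES.Ps
    rw [LinearMap.sub_apply, sub_eq_add_neg]
  rw [e]
  exact h2.add h1.neg

theorem TDn_all {a b : ℝ} {κ : Kp} {g : Fin 2 → WT}
    (h : ∀ i, TD a b (g i) (-∑ j, ∑ l, ES.Ps κ i l (ES.D κ j (g j * g l)))) (n : ℕ) (i : Fin 2) :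
    TDn a b n (g i) := by
  induction n generalizing i with
  | zero => trivial
  | succ n ih =>
    exact ⟨_, h i, (TDn.sum _ fun j _ => TDn.sum _ fun l _ =>
      ((((ih j).mul (ih l)).D κ j).Ps κ i l)).neg⟩

theorem TDn.contDiffOn {a b : ℝ} (κ : Kp) (n : ℕ) {f : WT} (hf : TDn a b n f) :
    ContDiffOn ℝ n (fun p : (Fin 2 → ℝ) × ℝ => evR κ f p.1 p.2) (Set.univ ×ˢ Set.Ioo a b) := by
  induction n generalizing f with
  | zero =>
    exact contDiffOn_zero.2 (continuous_evR κ f).continuousOn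
  | succ n ih =>
    have hf0 := hf.of_succ
    obtain ⟨f', h1, h2⟩ := hf
    have hopen : IsOpen ((Set.univ : Set (Fin 2 → ℝ)) ×ˢ Set.Ioo a b) :=
      isOpen_univ.prod isOpen_Ioo
    have hd : ∀ p ∈ (Set.univ : Set (Fin 2 → ℝ)) ×ˢ Set.Ioo a b,
        HasFDerivAt (fun p : (Fin 2 → ℝ) × ℝ => evR κ f p.1 p.2)
          ((∑ a : Fin 2, evR κ (ES.D κ a f) p.1 p.2 •
            ((ContinuousLinearMap.proj a : (Fin 2 → ℝ) →L[ℝ] ℝ).comp
              (ContinuousLinearMap.fst ℝ (Fin 2 → ℝ) ℝ))) +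
          evR κ f' p.1 p.2 • ContinuousLinearMap.snd ℝ (Fin 2 → ℝ) ℝ) p := by
      rintro ⟨z, t⟩ ⟨-, ht⟩
      exact (hasStrictFDerivAt_evR κ h1 z ht).hasFDerivAt
    have hcast : ((n + 1 : ℕ) : WithTop ℕ∞) = (n : WithTop ℕ∞) + 1 := by push_cast; rfl
    rw [hcast, contDiffOn_succ_iff_fderiv_of_isOpen hopen]
    refine ⟨fun p hp => (hd p hp).differentiableAt.differentiableWithinAt, ?_, ?_⟩
    · intro h
      exact absurd h (by simp)
    · refine ContDiffOn.congr ?_ fun p hp => (hd p hp).fderiv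
      refine ContDiffOn.add (ContDiffOn.sum fun a _ => ?_) ?_
      · exact (ih (hf0.D κ a)).smul contDiffOn_const
      · exact (ih h2).smul contDiffOn_const

end ES
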