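import Pool.Agent.ES.V10
import Pool.Agent.ES.V13
import Pool.Agent.ES.V15
import Pool.Agent.ES.V18
import Pool.Agent.ES.V21
import Pool.Agent.ES.V22

/-!
ES-V23 (Part II, helper27): the fact `smooth`, and the list of facts.

Given `BI V t0 t1 lam g 0 ρ c A` with data `d`.  Each component `V · · a` is represented by `d.v a`,
continuous on `ℝ² × [t0,t1]` (`RepS.continuousOn`), periodic (`RepT.periodic`), with uniformly
decreasing Fourier coefficients (`fc_decay_zero/one`); `exists_hat` gives `g a`.  `WE V s t 0` on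
subintervals: `fact_restrict` and `fact_weak` with `σ = 0`; `fact_divf`.  `TD_hat`, `TDn_all`,
`TDn.contDiffOn` with `κs`; congruence on the open set (`ContDiffOn.congr`), components
(`contDiffOn_pi`).
-/

namespace ES

theorem fact_smooth (V : Fld) (t0 t1 lam g ρ c A : ℝ) (h : BI V t0 t1 lam g 0 ρ c A)
    (hρ : 0 < ρ) (h0 : 0 ≤ c) (hc : c ≤ 1 / 10) (n : ℕ) :
    ContDiffOn ℝ n (fun x : (Fin 2 → ℝ) × ℝ => V x.1 x.2) (Set.univ ×ˢ Set.Ioo t0 t1) := by
  have h' := h
  obtain ⟨d, hd, hV⟩ := h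
  have hle := hd.ht.le
  have hcont : ∀ a, ContinuousOn (fun p : (Fin 2 → ℝ) × ℝ => V p.1 p.2 a)
      (Set.univ ×ˢ Set.Icc t0 t1) := fun a => RepS.continuousOn hd hρ.le hc (hV.repS a)
  have hper : ∀ a, ∀ t ∈ Set.Icc t0 t1, Per fun x => V x t a := fun a t ht x n =>
    RepT.periodic hd hρ.le hc (hV.repS a t ht) x n
  have hdec : ∀ a, ∀ k : ℕ, ∃ C : ℝ, ∀ t ∈ Set.Icc t0 t1, ∀ m n : ℤ,
      |(m : ℝ)| ^ k * ‖fc (fun x => (V x t a : ℂ)) m n‖ ≤ C ∧
      |(n : ℝ)| ^ k * ‖fc (fun x => (V x t a : ℂ)) m n‖ ≤ C := by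
    intro a k
    refine ⟨max (∑' ν, ‖((ED d 0)^[k] (d.v a)).co ν‖) (∑' ν, ‖((ED d 1)^[k] (d.v a)).co ν‖),
      fun t ht m n => ⟨?_, ?_⟩⟩
    · exact (fc_decay_zero hd hρ.le hc k (hd.rv a) (hV.repS a t ht) m n).trans (le_max_left _ _)
    · exact (fc_decay_one hd hρ.le hc k (hd.rv a) (hV.repS a t ht) m n).trans (le_max_right _ _)
  have hex := fun a => exists_hat (G := fun x t => V x t a) hle (hcont a) (hper a) (hdec a)
  choose G hL hR _ hG using hex
  have hW : ∀ s t, t0 ≤ s → s < t → t ≤ t1 → WE V s t 0 := by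
    intro s t hs hst ht
    have h1 := fact_weak V s t lam g 0 ρ c A
      (fact_restrict V t0 t1 s t lam g 0 ρ c A h' hs hst ht) hρ h0 hc
    rwa [mul_zero] at h1
  have hdf := fact_divf V t0 t1 lam g 0 ρ c A h' hρ h0 hc
  have hTD := TD_hat hcont hW hdf hL hR hG
  have hn := TDn_all hTD
  rw [contDiffOn_pi]
  intro a
  refine (TDn.contDiffOn κs n (hn n a)).congr ?_
  rintro ⟨x, t⟩ ⟨_, ht⟩
  exact (hG a t (Set.Ioo_subset_Icc_self ht) x).symm

theorem bi_facts : BIFacts where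
  mono := fact_mono
  restrict := fact_restrict
  congr := fact_congr
  lip := fact_lip
  per := fact_per
  divf := fact_divf
  weak := fact_weak
  smooth := fact_smooth

end ES
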