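import Pool.Agent.ES.XAvg
import Pool.Agent.ES.LSqrt

/-!
ES-XAmp: choice of the three amplitudes (EW 4).
`rc = w²/16`, `σ ≤ w²/1600`, `S = M0 (rc I - Rav) M0ᵀ`, `γ_0 = S00/8 + S01/4`, `γ_1 = S00/8 - S01/4`,
`γ_2 = S11 - S00/4`, `b_j² = (H/ω) γ_j`, `H/ω ∈ [6,9]`.
`S/rc - I` has entries `≤ 0.031`, hence `γ_j = γ_j(rc I) (1 + y_j)` with `N0(y_j) ≤ 1/2`
(`γ(rc I) = rc/8, rc/8, 3rc/4`), `N0(b_j) ≤ √(9·(3/4)·rc)·(3/2) ≤ w`.
-/

open scoped BoundedContinuousFunction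

namespace ES

/-- The three directions. -/
def kdir (j : Fin 3) : Fin 2 → ℤ := fun a =>
  if j = 0 then (if a = 0 then 1 else -2) else if j = 1 then (if a = 0 then 1 else 2)
  else (if a = 0 then 1 else 0)

/-- Level `i`, real, time independent. -/
private structure XAmp_ok (i : ℕ) (f : WT) : Prop where
  l : Lev i f
  r : IsR f
  t : ∀ t₀, frz t₀ f = f

private theorem XAmp_ok.add {i : ℕ} {f g : WT} (hf : XAmp_ok i f) (hg : XAmp_ok i g) :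
    XAmp_ok i (f + g) :=
  ⟨hf.l.add hg.l, hf.r.add hg.r, fun t₀ => by
    have h1 := hf.t t₀
    have h2 := hg.t t₀
    unfold frz at *
    rw [tcomp_add, h1, h2]⟩

private theorem XAmp_ok.sub {i : ℕ} {f g : WT} (hf : XAmp_ok i f) (hg : XAmp_ok i g) :
    XAmp_ok i (f - g) :=
  ⟨hf.l.sub hg.l, hf.r.sub hg.r, fun t₀ => by
    have h1 := hf.t t₀
    have h2 := hg.t t₀
    unfold frz at *
    rw [tcomp_sub, h1, h2]⟩

private theorem XAmp_ok.neg {i : ℕ} {f : WT} (hf : XAmp_ok i f) : XAmp_ok i (-f) :=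
  ⟨hf.l.neg, hf.r.neg, fun t₀ => by
    have h1 := hf.t t₀
    unfold frz at *
    rw [tcomp_neg, h1]⟩

private theorem XAmp_ok.mul {i : ℕ} {f g : WT} (hf : XAmp_ok i f) (hg : XAmp_ok i g) :
    XAmp_ok i (f * g) :=
  ⟨hf.l.mul hg.l, hf.r.mul hg.r, fun t₀ => by
    have h1 := hf.t t₀
    have h2 := hg.t t₀
    unfold frz at *
    rw [tcomp_mul, h1, h2]⟩

private theorem XAmp_ok.smul {i : ℕ} (c : ℝ) {f : WT} (hf : XAmp_ok i f) :
    XAmp_ok i ((c : ℂ) • f) :=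
  ⟨hf.l.smul _, hf.r.smul, fun t₀ => by
    have h1 := hf.t t₀
    unfold frz at *
    rw [tcomp_smul, h1]⟩

private theorem XAmp_ok.D {i : ℕ} (κ : Kp) (a : Fin 2) {f : WT} (hf : XAmp_ok i f) :
    XAmp_ok i (ES.D κ a f) :=
  ⟨hf.l.D κ a, hf.r.D, fun t₀ => by
    have h1 := hf.t t₀
    unfold frz at *
    rw [tcomp_D, h1]⟩

private theorem XAmp_ok.one (i : ℕ) : XAmp_ok i 1 := ⟨Lev.one i, IsR.one, fun _ => tcomp_one _⟩

private theorem XAmp_ok.zero (i : ℕ) : XAmp_ok i 0 := ⟨Lev.zero i, IsR.zero, fun _ => tcomp_zero _⟩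

private theorem XAmp_ok.idm (i : ℕ) (a b : Fin 2) : XAmp_ok i (ES.idm a b) := by
  unfold ES.idm
  split_ifs
  · exact XAmp_ok.one i
  · exact XAmp_ok.zero i

private theorem XAmp_ok.Fm {i : ℕ} (κ : Kp) {ξ : Vec} (h : ∀ k, XAmp_ok i (ξ k)) (a b : Fin 2) :
    XAmp_ok i (ES.Fm κ ξ a b) := (XAmp_ok.idm i a b).add ((h a).D κ b)

private theorem XAmp_ok.adj {i : ℕ} {F : Mat} (h : ∀ a b, XAmp_ok i (F a b)) (a b : Fin 2) :
    XAmp_ok i (ES.adj F a b) := by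
  unfold ES.adj
  split_ifs
  · exact h 1 1
  · exact (h 0 1).neg
  · exact (h 1 0).neg
  · exact h 0 0

private theorem XAmp_adj_bd {r : ℝ → ℝ} {F : Mat} {c : ℝ} (h : ∀ k l, Bd 0 r (F k l - idm k l) c)
    (k l : Fin 2) : Bd 0 r (adj F k l - idm k l) c := by
  fin_cases k <;> fin_cases l
  · exact h 1 1
  · have := (h 0 1).neg
    have e : -(F 0 1 - idm 0 1) = adj F 0 1 - idm 0 1 := by
      simp [adj, idm]
    rwa [e] at this
  · have := (h 1 0).neg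
    have e : -(F 1 0 - idm 1 0) = adj F 1 0 - idm 1 0 := by
      simp [adj, idm]
    rwa [e] at this
  · exact h 0 0

/-- The normalized matrix `S`. -/
private noncomputable def XAmp_S (M Rh : Mat) : Mat := fun k l =>
  ∑ a, ∑ b, M k a * ((idm a b - Rh a b) * M l b)

private theorem XAmp_S_bd {ρ : ℝ} (hρ : 0 ≤ ρ) {M Rh : Mat}
    (hM : ∀ k l, Bd 0 (cr ρ) (M k l - idm k l) (1 / 100))
    (hR : ∀ k l, Bd 0 (cr ρ) (Rh k l) (1 / 100)) (k l : Fin 2) :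
    Bd 0 (cr ρ) (XAmp_S M Rh k l - idm k l) (31 / 1000) := by
  have hr : ∀ t, 0 ≤ cr ρ t := fun _ => hρ
  have mm : ∀ {f g : WT}, Bd 0 (cr ρ) f (1 / 100) → Bd 0 (cr ρ) g (1 / 100) →
      Bd 0 (cr ρ) (f * g) (1 / 10000) := fun hf hg => (Bd.mul hr hf hg).mono (by norm_num)
  have mm3 : ∀ {f g h : WT}, Bd 0 (cr ρ) f (1 / 100) → Bd 0 (cr ρ) g (1 / 100) →
      Bd 0 (cr ρ) h (1 / 100) → Bd 0 (cr ρ) (f * g * h) (1 / 1000000) :=
    fun hf hg hh => (Bd.mul hr (mm hf hg) hh).mono (by norm_num)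
  set m : Mat := fun k l => M k l - idm k l with hm
  have e : XAmp_S M Rh k l - idm k l = (m k l + m l k + (m k 0 * m l 0 + m k 1 * m l 1)) -
      (Rh k l + ((m k 0 * Rh 0 l + m k 1 * Rh 1 l) + (Rh k 0 * m l 0 + Rh k 1 * m l 1)) +
        ((m k 0 * Rh 0 0 * m l 0 + m k 0 * Rh 0 1 * m l 1) +
          (m k 1 * Rh 1 0 * m l 0 + m k 1 * Rh 1 1 * m l 1))) := by
    unfold XAmp_S
    have e1 : ∀ k l, M k l = idm k l + m k l := fun k l => by rw [hm]; ring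
    simp only [Fin.sum_univ_two, e1]
    fin_cases k <;> fin_cases l <;> simp [idm] <;> ring
  rw [e]
  have b1 := ((hM k l).add (hM l k)).add ((mm (hM k 0) (hM l 0)).add (mm (hM k 1) (hM l 1)))
  have b2 := (mm (hM k 0) (hR 0 l)).add (mm (hM k 1) (hR 1 l))
  have b3 := (mm (hR k 0) (hM l 0)).add (mm (hR k 1) (hM l 1))
  have b4 := ((mm3 (hM k 0) (hR 0 0) (hM l 0)).add (mm3 (hM k 0) (hR 0 1) (hM l 1))).add
    ((mm3 (hM k 1) (hR 1 0) (hM l 0)).add (mm3 (hM k 1) (hR 1 1) (hM l 1)))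
  exact (b1.sub (((hR k l).add (b2.add b3)).add b4)).mono (by norm_num)

private theorem XAmp_sqrt_bd {x w : ℝ} (hw : 0 < w) (hx : 9 * x ≤ 4 * w ^ 2) :
    Real.sqrt x * (3 / 2) ≤ w := by
  have h1 : Real.sqrt x ≤ 2 / 3 * w := by
    rw [Real.sqrt_le_left (by positivity)]
    nlinarith
  linarith

/-- The square root with its bound. -/
private theorem XAmp_root {ρ w : ℝ} (hρ : 0 < ρ) (hw : 0 < w) {i : ℕ} {y : WT}
    (hy : Bd 0 (cr ρ) y (1 / 2)) (oy : XAmp_ok i y) {x : ℝ} (hx0 : 0 ≤ x)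
    (hx : 9 * x ≤ 4 * w ^ 2) :
    ∃ b : WT, b * b = (x : ℂ) • (1 + y) ∧ Bd 0 (cr ρ) b w ∧ XAmp_ok i b := by
  obtain ⟨s, hs, hsb, hsr, hsl, hst⟩ := exists_sqrt hρ hy oy.r oy.l oy.t
  refine ⟨((Real.sqrt x : ℝ) : ℂ) • s, ?_, ?_, XAmp_ok.smul _ ⟨hsl, hsr, hst⟩⟩
  · rw [smul_mul_smul_comm, hs, ← Complex.ofReal_mul, Real.mul_self_sqrt hx0]
  · refine (Bd.smul _ hsb).mono ?_
    rw [Complex.norm_real, Real.norm_eq_abs, abs_of_nonneg (Real.sqrt_nonneg _)]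
    exact XAmp_sqrt_bd hw hx

theorem exists_amp {κ : Kp} {ρ w σ ω Hb : ℝ} (hρ : 0 < ρ) (hw : 0 < w) (hσ0 : 0 ≤ σ)
    (hσ : 1600 * σ ≤ w ^ 2) (hω : 0 < ω) (h6 : 6 * ω ≤ Hb) (h9 : Hb ≤ 9 * ω) {i : ℕ}
    {ξ0 : Vec} (hF0 : ∀ k l, Bd 0 (cr ρ) (Fm κ ξ0 k l - idm k l) (1 / 100))
    (hdet : det2 (Fm κ ξ0) = 1) (lF : ∀ k, Lev i (ξ0 k)) (rF : ∀ k, IsR (ξ0 k))
    (tF : ∀ k t₀, frz t₀ (ξ0 k) = ξ0 k)
    {Ri : Mat} (hR : ∀ k l, Bd 0 (cr ρ) (Ri k l) (Hb * σ)) (sR : ∀ k l, Ri k l = Ri l k)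
    (lR : ∀ k l, Lev i (Ri k l)) (rR : ∀ k l, IsR (Ri k l)) (tR : ∀ k l t₀, frz t₀ (Ri k l) = Ri k l) :
    ∃ b : Fin 3 → WT, (∀ j, Bd 0 (cr ρ) (b j) w) ∧ (∀ j, Lev i (b j)) ∧ (∀ j, IsR (b j)) ∧
      (∀ j t₀, frz t₀ (b j) = b j) ∧
      ∀ k l, ∑ j, ((ω : ℂ) * kp (kdir j) l) • (b j * b j * ∑ e, kp (kdir j) e • Fm κ ξ0 k e) =
        ((Hb * (w ^ 2 / 16) : ℝ) : ℂ) • adj (Fm κ ξ0) l k - mulT Ri (adj (Fm κ ξ0)) k l := by
  have hHb : 0 < Hb := by linarith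
  have okF : ∀ k l, XAmp_ok i (Fm κ ξ0 k l) := XAmp_ok.Fm κ fun k => ⟨lF k, rF k, tF k⟩
  have okM : ∀ k l, XAmp_ok i (adj (Fm κ ξ0) k l) := XAmp_ok.adj okF
  have bdM := XAmp_adj_bd hF0
  generalize hFF : Fm κ ξ0 = F at *
  set rc : ℝ := Hb * (w ^ 2 / 16) with hrc
  have hrc0 : 0 < rc := by positivity
  set Rh : Mat := fun k l => ((rc⁻¹ : ℝ) : ℂ) • Ri k l with hRh
  have okR : ∀ k l, XAmp_ok i (Rh k l) := fun k l => XAmp_ok.smul _ ⟨lR k l, rR k l, tR k l⟩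
  have bdR : ∀ k l, Bd 0 (cr ρ) (Rh k l) (1 / 100) := by
    intro k l
    refine (Bd.smul _ (hR k l)).mono ?_
    rw [Complex.norm_real, Real.norm_eq_abs, abs_of_pos (inv_pos.2 hrc0), inv_mul_le_iff₀ hrc0,
      hrc]
    nlinarith
  have hRi : ∀ k l, Ri k l = (rc : ℂ) • Rh k l := by
    intro k l
    rw [hRh]
    simp only
    rw [smul_smul, ← Complex.ofReal_mul, mul_inv_cancel₀ hrc0.ne', Complex.ofReal_one, one_smul]
  have sRh : Rh 1 0 = Rh 0 1 := by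
    rw [hRh]
    simp only
    rw [sR 1 0]
  have bdS := XAmp_S_bd hρ.le bdM bdR
  have okS : ∀ k l, XAmp_ok i (XAmp_S (adj F) Rh k l) := by
    intro k l
    unfold XAmp_S
    simp only [Fin.sum_univ_two]
    have h1 : ∀ a b, XAmp_ok i (adj F k a * ((idm a b - Rh a b) * adj F l b)) := fun a b =>
      (okM k a).mul (((XAmp_ok.idm i a b).sub (okR a b)).mul (okM l b))
    exact ((h1 0 0).add (h1 0 1)).add ((h1 1 0).add (h1 1 1))
  have hi00 : idm 0 0 = 1 := by simp [idm]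
  have hi11 : idm 1 1 = 1 := by simp [idm]
  have hi01 : idm 0 1 = 0 := by simp [idm]
  -- the three square roots
  have r0 := XAmp_root (x := rc / (8 * ω)) (y := (XAmp_S (adj F) Rh 0 0 - idm 0 0) +
      ((2 : ℝ) : ℂ) • (XAmp_S (adj F) Rh 0 1 - idm 0 1)) hρ hw
    (((bdS 0 0).add (Bd.smul _ (bdS 0 1))).mono (by
      rw [Complex.norm_real]; norm_num))
    (((okS 0 0).sub (XAmp_ok.idm i 0 0)).add (XAmp_ok.smul _ ((okS 0 1).sub (XAmp_ok.idm i 0 1))))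
    (by positivity) (by
      rw [mul_div_assoc', div_le_iff₀ (by positivity), hrc]
      have : 0 < w ^ 2 := by positivity
      nlinarith)
  have r1 := XAmp_root (x := rc / (8 * ω)) (y := (XAmp_S (adj F) Rh 0 0 - idm 0 0) -
      ((2 : ℝ) : ℂ) • (XAmp_S (adj F) Rh 0 1 - idm 0 1)) hρ hw
    (((bdS 0 0).sub (Bd.smul _ (bdS 0 1))).mono (by
      rw [Complex.norm_real]; norm_num))
    (((okS 0 0).sub (XAmp_ok.idm i 0 0)).sub (XAmp_ok.smul _ ((okS 0 1).sub (XAmp_ok.idm i 0 1))))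
    (by positivity) (by
      rw [mul_div_assoc', div_le_iff₀ (by positivity), hrc]
      have : 0 < w ^ 2 := by positivity
      nlinarith)
  have r2 := XAmp_root (x := 3 * rc / (4 * ω)) (y :=
      ((4 / 3 : ℝ) : ℂ) • (XAmp_S (adj F) Rh 1 1 - idm 1 1) -
      ((1 / 3 : ℝ) : ℂ) • (XAmp_S (adj F) Rh 0 0 - idm 0 0)) hρ hw
    (((Bd.smul _ (bdS 1 1)).sub (Bd.smul _ (bdS 0 0))).mono (by
      rw [Complex.norm_real, Complex.norm_real]; norm_num))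
    ((XAmp_ok.smul _ ((okS 1 1).sub (XAmp_ok.idm i 1 1))).sub
      (XAmp_ok.smul _ ((okS 0 0).sub (XAmp_ok.idm i 0 0))))
    (by positivity) (by
      rw [mul_div_assoc', div_le_iff₀ (by positivity), hrc]
      have : 0 < w ^ 2 := by positivity
      nlinarith)
  obtain ⟨b0, hb0, bb0, ob0⟩ := r0
  obtain ⟨b1, hb1, bb1, ob1⟩ := r1
  obtain ⟨b2, hb2, bb2, ob2⟩ := r2
  have ok : ∀ j : Fin 3, Bd 0 (cr ρ) ((![b0, b1, b2] : Fin 3 → WT) j) w ∧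
      XAmp_ok i ((![b0, b1, b2] : Fin 3 → WT) j) := by
    intro j
    fin_cases j
    · exact ⟨bb0, ob0⟩
    · exact ⟨bb1, ob1⟩
    · exact ⟨bb2, ob2⟩
  refine ⟨![b0, b1, b2], fun j => (ok j).1, fun j => (ok j).2.l, fun j => (ok j).2.r,
    fun j => (ok j).2.t, ?_⟩
  intro k l
  have hωc : (ω : ℂ) ≠ 0 := by exact_mod_cast hω.ne'
  -- constants
  have hG0 : (ω : ℂ) • (b0 * b0) = ((rc / 8 : ℝ) : ℂ) • (XAmp_S (adj F) Rh 0 0 +
      (2 : ℂ) • XAmp_S (adj F) Rh 0 1) := by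
    rw [hb0, smul_smul, hi00, hi01]
    congr 1
    · push_cast; field_simp
    · push_cast; rw [sub_zero]; ring
  have hG1 : (ω : ℂ) • (b1 * b1) = ((rc / 8 : ℝ) : ℂ) • (XAmp_S (adj F) Rh 0 0 -
      (2 : ℂ) • XAmp_S (adj F) Rh 0 1) := by
    rw [hb1, smul_smul, hi00, hi01]
    congr 1
    · push_cast; field_simp
    · push_cast; rw [sub_zero]; ring
  have hG2 : (ω : ℂ) • (b2 * b2) = ((rc / 8 : ℝ) : ℂ) • ((8 : ℂ) • XAmp_S (adj F) Rh 1 1 -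
      (2 : ℂ) • XAmp_S (adj F) Rh 0 0) := by
    rw [hb2, smul_smul, hi00, hi11]
    have e1 : (ω : ℂ) * ((3 * rc / (4 * ω) : ℝ) : ℂ) = ((rc / 8 : ℝ) : ℂ) * 6 := by
      push_cast; field_simp; ring
    rw [e1, mul_smul]
    congr 1
    have e2 : (1 : WT) + (((4 / 3 : ℝ) : ℂ) • (XAmp_S (adj F) Rh 1 1 - 1) -
        ((1 / 3 : ℝ) : ℂ) • (XAmp_S (adj F) Rh 0 0 - 1)) =
        ((4 / 3 : ℝ) : ℂ) • XAmp_S (adj F) Rh 1 1 - ((1 / 3 : ℝ) : ℂ) • XAmp_S (adj F) Rh 0 0 := by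
      have e3 : (1 : WT) = ((4 / 3 : ℝ) : ℂ) • (1 : WT) - ((1 / 3 : ℝ) : ℂ) • (1 : WT) := by
        rw [← sub_smul]
        push_cast
        norm_num
      rw [smul_sub, smul_sub]
      linear_combination e3
    rw [e2, smul_sub, smul_smul, smul_smul]
    congr 2 <;> push_cast <;> norm_num
  have key : ∀ (kk : ℂ) (B X : WT), ((ω : ℂ) * kk) • (B * X) = kk • (((ω : ℂ) • B) * X) := by
    intro kk B X
    rw [smul_mul_assoc, smul_smul, mul_comm]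
  have hdet' : F 0 0 * F 1 1 - F 0 1 * F 1 0 = 1 := hdet
  have hM00 : adj F 0 0 = F 1 1 := by simp [adj]
  have hM01 : adj F 0 1 = -F 0 1 := by simp [adj]
  have hM10 : adj F 1 0 = -F 1 0 := by simp [adj]
  have hM11 : adj F 1 1 = F 0 0 := by simp [adj]
  have hi10 : idm 1 0 = 0 := by simp [idm]
  rw [Fin.sum_univ_three]
  simp only [key, Matrix.cons_val_zero, Matrix.cons_val_one, Matrix.cons_val_two,
    Matrix.head_cons, Matrix.tail_cons, hG0, hG1, hG2, Fin.sum_univ_two]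
  unfold mulT
  simp only [Fin.sum_univ_two, hRi]
  have hrc8 : (rc : ℂ) = ((rc / 8 : ℝ) : ℂ) * 8 := by push_cast; ring
  rw [hrc8]
  generalize ((rc / 8 : ℝ) : ℂ) = G
  have h2 : (algebraMap ℂ WT) 2 = 2 := map_ofNat _ 2
  unfold XAmp_S
  simp only [Fin.sum_univ_two, Algebra.smul_def, map_mul, map_ofNat]
  fin_cases k <;> fin_cases l <;>
    simp [kp, kdir, hM00, hM01, hM10, hM11, hi00, hi01, hi10, hi11, sRh, h2]
  · linear_combination 8 * (algebraMap ℂ WT) G * (F 1 1 - Rh 0 0 * F 1 1 + Rh 0 1 * F 0 1) * hdet'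
  · linear_combination 8 * (algebraMap ℂ WT) G *
      (-F 1 0 + Rh 0 0 * F 1 0 - Rh 0 1 * F 0 0) * hdet'
  · linear_combination 8 * (algebraMap ℂ WT) G *
      (-F 0 1 - Rh 0 1 * F 1 1 + Rh 1 1 * F 0 1) * hdet'
  · linear_combination 8 * (algebraMap ℂ WT) G * (F 0 0 + Rh 0 1 * F 1 0 - Rh 1 1 * F 0 0) * hdet'

end ES
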