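import Pool.Agent.ES.XCal
import Pool.Agent.ES.LPic

/-!
ES-XAnti: symmetric antidivergence and the solution of `D·(Q Mᵀ) = h` (EW 3, Lemmas 3.1-3.3).
-/

open scoped BoundedContinuousFunction

namespace ES

/-- Symbol of the antidivergence. -/
noncomputable def adS (κ : Kp) (a b e : Fin 2) (ν : Gx) : ℂ :=
  -Complex.I * (((if b = e then (kap κ a ν : ℂ) else 0) + (if a = e then (kap κ b ν : ℂ) else 0)) /
      (ksq κ ν : ℂ) -
    (kap κ e ν : ℂ) * (kap κ a ν : ℂ) * (kap κ b ν : ℂ) / (ksq κ ν : ℂ) ^ 2)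

private theorem xanti_norm_int (n : ℤ) : ‖(n : ℂ)‖ = |(n : ℝ)| := by
  rw [← Complex.ofReal_intCast, Complex.norm_real, Real.norm_eq_abs]

private theorem xanti_norm_q (κ : Kp) (ν : Gx) : ‖(ksq κ ν : ℂ)‖ = ksq κ ν := by
  rw [Complex.norm_real, Real.norm_eq_abs, abs_of_nonneg (ksq_nonneg κ ν)]

private theorem xanti_le (κ : Kp) (a b e : Fin 2) (ν : Gx) :
    ‖adS κ a b e ν‖ ≤ |(kap κ a ν : ℝ)| / ksq κ ν + |(kap κ b ν : ℝ)| / ksq κ ν +
      |(kap κ e ν : ℝ)| / ksq κ ν := by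
  have hq := ksq_nonneg κ ν
  unfold adS
  rw [norm_mul, norm_neg, Complex.norm_I, one_mul]
  refine (norm_sub_le _ _).trans (add_le_add ?_ ?_)
  · rw [norm_div, xanti_norm_q, ← add_div]
    refine div_le_div_of_nonneg_right ((norm_add_le _ _).trans (add_le_add ?_ ?_)) hq
    · split_ifs
      · rw [xanti_norm_int]
      · rw [norm_zero]; exact abs_nonneg _
    · split_ifs
      · rw [xanti_norm_int]
      · rw [norm_zero]; exact abs_nonneg _
  · rw [norm_div, norm_pow, xanti_norm_q, norm_mul, norm_mul, xanti_norm_int, xanti_norm_int,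
      xanti_norm_int]
    by_cases h0 : ksq κ ν = 0
    · rw [h0]; simp
    · have h1 : 0 < ksq κ ν := lt_of_le_of_ne hq (Ne.symm h0)
      rw [sq, ← div_div]
      refine div_le_div_of_nonneg_right ?_ hq
      rw [div_le_iff₀ h1, mul_assoc, ← abs_mul (kap κ a ν : ℝ)]
      exact mul_le_mul_of_nonneg_left (kk_le κ a b ν) (abs_nonneg _)

private theorem xanti_gen (κ : Kp) (a b e : Fin 2) (ν : Gx) {x : ℝ} (hx : 0 < x)
    (h : ∀ c, |(kap κ c ν : ℝ)| * x ≤ ksq κ ν) : ‖adS κ a b e ν‖ ≤ 3 / x := by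
  have h1 : ∀ c, |(kap κ c ν : ℝ)| / ksq κ ν ≤ 1 / x := by
    intro c
    rcases (ksq_nonneg κ ν).eq_or_lt with h0 | h0
    · rw [← h0, div_zero]; positivity
    · rw [div_le_div_iff₀ h0 hx, one_mul]
      exact h c
  refine (xanti_le κ a b e ν).trans ?_
  have h2 := h1 a
  have h3 := h1 b
  have h4 := h1 e
  have h5 : 3 / x = 1 / x + 1 / x + 1 / x := by ring
  rw [h5]
  linarith

/-- `|symbol| ≤ 3 / |κ|`, in particular `≤ 3` (all terms vanish when `κ(ν) = 0`). -/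
theorem adS_le (κ : Kp) (a b e : Fin 2) (ν : Gx) : ‖adS κ a b e ν‖ ≤ 3 := by
  have h := xanti_gen κ a b e ν one_pos fun c => by
    rw [mul_one]
    refine le_trans ?_ (kap_sq_le κ c ν)
    by_cases h0 : kap κ c ν = 0
    · rw [h0]; simp
    · have h1 := one_le_abs_int h0
      rw [← sq_abs]
      nlinarith
  simpa using h

theorem adS_le' (κ : Kp) (a b e : Fin 2) (ν : Gx) {x : ℝ} (hx : 0 < x) (j : Fin 2)
    (h : x ≤ |(kap κ j ν : ℝ)|) : ‖adS κ a b e ν‖ ≤ 3 / x := by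
  refine xanti_gen κ a b e ν hx fun c => ?_
  refine le_trans (mul_le_mul_of_nonneg_left h (abs_nonneg _)) ?_
  rw [← abs_mul]
  exact kk_le κ c j ν

/-- The antidivergence. -/
noncomputable def AD (κ : Kp) (a b e : Fin 2) : WT →ₗ[ℂ] WT :=
  mlt (adS κ a b e) (pg_of_bounded (adS_le κ a b e))

/-- `Q = 𝓡 h`. -/
noncomputable def ADm (κ : Kp) (h : Vec) : Mat := fun a b => ∑ e, AD κ a b e (h e)

private theorem xanti_co (κ : Kp) (a b e : Fin 2) (f : WT) (ν : Gx) :
    (AD κ a b e f).co ν = adS κ a b e ν • f.co ν := rfl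

theorem ADm_symm (κ : Kp) (h : Vec) (a b : Fin 2) : ADm κ h a b = ADm κ h b a := by
  unfold ADm
  refine Finset.sum_congr rfl fun e _ => WT.ext (funext fun ν => ?_)
  rw [xanti_co, xanti_co]
  congr 1
  unfold adS
  ring

private theorem xanti_symbol (κ : Kp) (a e : Fin 2) (ν : Gx) :
    Complex.I * (kap κ 0 ν : ℂ) * adS κ a 0 e ν + Complex.I * (kap κ 1 ν : ℂ) * adS κ a 1 e ν =
      if a = e then (if ksq κ ν = 0 then 0 else 1) else 0 := by
  by_cases h0 : ksq κ ν = 0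
  · have h1 : kap κ 0 ν = 0 := by
      have h2 := kap_sq_le κ 0 ν
      rw [h0] at h2
      have h3 : (kap κ 0 ν : ℝ) = 0 := pow_eq_zero_iff two_ne_zero |>.1 (le_antisymm h2 (sq_nonneg _))
      exact_mod_cast h3
    have h1' : kap κ 1 ν = 0 := by
      have h2 := kap_sq_le κ 1 ν
      rw [h0] at h2
      have h3 : (kap κ 1 ν : ℝ) = 0 := pow_eq_zero_iff two_ne_zero |>.1 (le_antisymm h2 (sq_nonneg _))
      exact_mod_cast h3
    rw [h1, h1', if_pos h0]
    simp
  · rw [if_neg h0]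
    have hq : (ksq κ ν : ℂ) = (kap κ 0 ν : ℂ) ^ 2 + (kap κ 1 ν : ℂ) ^ 2 := by
      unfold ksq
      push_cast
      ring
    have hq0 : (ksq κ ν : ℂ) ≠ 0 := by exact_mod_cast h0
    have hI : Complex.I ^ 2 = -1 := Complex.I_sq
    have key : ∀ X0 X1 Z : ℂ,
        Complex.I * (kap κ 0 ν : ℂ) * (-Complex.I * (X0 / (ksq κ ν : ℂ) -
          Z * (kap κ 0 ν : ℂ) / (ksq κ ν : ℂ) ^ 2)) +
        Complex.I * (kap κ 1 ν : ℂ) * (-Complex.I * (X1 / (ksq κ ν : ℂ) -
          Z * (kap κ 1 ν : ℂ) / (ksq κ ν : ℂ) ^ 2)) =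
        ((kap κ 0 ν : ℂ) * X0 + (kap κ 1 ν : ℂ) * X1 - Z) / (ksq κ ν : ℂ) := by
      intro X0 X1 Z
      have h3 : Complex.I * (kap κ 0 ν : ℂ) * (-Complex.I * (X0 / (ksq κ ν : ℂ) -
          Z * (kap κ 0 ν : ℂ) / (ksq κ ν : ℂ) ^ 2)) +
        Complex.I * (kap κ 1 ν : ℂ) * (-Complex.I * (X1 / (ksq κ ν : ℂ) -
          Z * (kap κ 1 ν : ℂ) / (ksq κ ν : ℂ) ^ 2)) =
          -(Complex.I ^ 2) * (((kap κ 0 ν : ℂ) * X0 + (kap κ 1 ν : ℂ) * X1) / (ksq κ ν : ℂ) -
            Z * ((kap κ 0 ν : ℂ) ^ 2 + (kap κ 1 ν : ℂ) ^ 2) / (ksq κ ν : ℂ) ^ 2) := by ring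
      rw [h3, hI, ← hq]
      field_simp
    have h4 := key ((if (0 : Fin 2) = e then (kap κ a ν : ℂ) else 0) + (if a = e then (kap κ 0 ν : ℂ) else 0))
      ((if (1 : Fin 2) = e then (kap κ a ν : ℂ) else 0) + (if a = e then (kap κ 1 ν : ℂ) else 0))
      ((kap κ e ν : ℂ) * (kap κ a ν : ℂ))
    unfold adS
    rw [h4]
    have h5 : (kap κ 0 ν : ℂ) * (if (0 : Fin 2) = e then (kap κ a ν : ℂ) else 0) +
        (kap κ 1 ν : ℂ) * (if (1 : Fin 2) = e then (kap κ a ν : ℂ) else 0) =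
          (kap κ e ν : ℂ) * (kap κ a ν : ℂ) := by
      fin_cases e <;> simp
    by_cases hae : a = e
    · rw [if_pos hae, if_pos hae, if_pos hae]
      have h6 : (kap κ 0 ν : ℂ) * ((if (0 : Fin 2) = e then (kap κ a ν : ℂ) else 0) + (kap κ 0 ν : ℂ)) +
        (kap κ 1 ν : ℂ) * ((if (1 : Fin 2) = e then (kap κ a ν : ℂ) else 0) + (kap κ 1 ν : ℂ)) -
          (kap κ e ν : ℂ) * (kap κ a ν : ℂ) = (ksq κ ν : ℂ) := by
        rw [hq]
        linear_combination h5
      rw [h6, div_self hq0]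
    · rw [if_neg hae, if_neg hae, if_neg hae, add_zero, add_zero, h5, sub_self, zero_div]

theorem dvm_ADm (κ : Kp) (h : Vec) (a : Fin 2) : dvm κ (ADm κ h) a = Pnz κ (h a) := by
  refine WT.ext (funext fun ν => ?_)
  have h1 : (dvm κ (ADm κ h) a).co ν =
      (Complex.I * (kap κ 0 ν : ℂ)) • (adS κ a 0 0 ν • (h 0).co ν + adS κ a 0 1 ν • (h 1).co ν) +
      (Complex.I * (kap κ 1 ν : ℂ)) • (adS κ a 1 0 ν • (h 0).co ν + adS κ a 1 1 ν • (h 1).co ν) := by
    unfold dvm ADm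
    rw [Fin.sum_univ_two, Fin.sum_univ_two, Fin.sum_univ_two]
    rfl
  have h2 : (Complex.I * (kap κ 0 ν : ℂ)) • (adS κ a 0 0 ν • (h 0).co ν + adS κ a 0 1 ν • (h 1).co ν) +
      (Complex.I * (kap κ 1 ν : ℂ)) • (adS κ a 1 0 ν • (h 0).co ν + adS κ a 1 1 ν • (h 1).co ν) =
      (Complex.I * (kap κ 0 ν : ℂ) * adS κ a 0 0 ν + Complex.I * (kap κ 1 ν : ℂ) * adS κ a 1 0 ν) • (h 0).co ν +
      (Complex.I * (kap κ 0 ν : ℂ) * adS κ a 0 1 ν + Complex.I * (kap κ 1 ν : ℂ) * adS κ a 1 1 ν) • (h 1).co ν := by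
    module
  have h3 : (Pnz κ (h a)).co ν = (if ksq κ ν = 0 then (0 : ℂ) else 1) • (h a).co ν := rfl
  rw [h1, h2, xanti_symbol, xanti_symbol, h3]
  fin_cases a
  · simp
  · simp

theorem Bd.AD {k : ℕ} {r : ℝ → ℝ} {f : WT} {c : ℝ} (κ : Kp) (a b e : Fin 2) (hf : Bd k r f c) :
    Bd k r (ES.AD κ a b e f) (3 * c) :=
  Bd.mlt (k := k) (n := 0) (A := 3) _ (fun ν => by simpa using adS_le κ a b e ν) hf

/-- Order zero. -/
theorem Bd.AD_D {k : ℕ} {r : ℝ → ℝ} {f : WT} {c : ℝ} (κ : Kp) (a b e j : Fin 2)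
    (hf : Bd k r f c) : Bd k r (ES.AD κ a b e (ES.D κ j f)) (3 * c) := by
  have hb : ∀ ν, ‖adS κ a b e ν * (Complex.I * (kap κ j ν : ℂ))‖ ≤ 3 := by
    intro ν
    rw [norm_mul, norm_mul, Complex.norm_I, one_mul, xanti_norm_int]
    by_cases h0 : |(kap κ j ν : ℝ)| = 0
    · rw [h0, mul_zero]; norm_num
    · have h1 : 0 < |(kap κ j ν : ℝ)| := lt_of_le_of_ne (abs_nonneg _) (Ne.symm h0)
      have h2 := adS_le' κ a b e ν h1 j le_rfl
      calc ‖adS κ a b e ν‖ * |(kap κ j ν : ℝ)| ≤ 3 / |(kap κ j ν : ℝ)| * |(kap κ j ν : ℝ)| :=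
            mul_le_mul_of_nonneg_right h2 h1.le
        _ = 3 := div_mul_cancel₀ _ h0
  have h1 : ES.AD κ a b e (ES.D κ j f) =
      ES.mlt (fun ν => adS κ a b e ν * (Complex.I * (kap κ j ν : ℂ))) (pg_of_bounded hb) f := by
    refine WT.ext (funext fun ν => ?_)
    rw [xanti_co, D_co, mlt_co, smul_smul]
  rw [h1]
  exact Bd.mlt (k := k) (n := 0) (A := 3) _ (fun ν => by simpa using hb ν) hf

/-- `𝓡` of a divergence. -/
theorem Bd.ADm_dvm {k : ℕ} {r : ℝ → ℝ} {X : Mat} {c : ℝ} (κ : Kp)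
    (hX : ∀ a b, Bd k r (X a b) c) (a b : Fin 2) :
    Bd k r (ES.ADm κ (dvm κ X) a b) (12 * c) := by
  have h1 : ES.ADm κ (dvm κ X) a b = ∑ e, ∑ j, ES.AD κ a b e (ES.D κ j (X e j)) := by
    unfold ES.ADm dvm
    refine Finset.sum_congr rfl fun e _ => ?_
    rw [map_sum]
  rw [h1]
  have h2 : Bd k r (∑ e, ∑ j, ES.AD κ a b e (ES.D κ j (X e j))) (∑ _e : Fin 2, ∑ _j : Fin 2, 3 * c) :=
    Bd.sum _ fun e _ => Bd.sum _ fun j _ => Bd.AD_D κ a b e j (hX e j)
  refine h2.mono (le_of_eq ?_)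
  simp only [Finset.sum_const, Finset.card_univ, Fintype.card_fin, nsmul_eq_mul]
  push_cast
  ring

private theorem xanti_kap_real (κ : Kp) (a : Fin 2) (ν : Gx) :
    (starRingEnd ℂ) (kap κ a ν : ℂ) = (kap κ a ν : ℂ) := by
  rw [← Complex.ofReal_intCast, Complex.conj_ofReal]

theorem IsR.AD {κ : Kp} {a b e : Fin 2} {f : WT} (hf : IsR f) : IsR (ES.AD κ a b e f) := by
  refine IsR.mlt _ (fun ν => ?_) hf
  have hk : ksq κ (-ν) = ksq κ ν := by
    unfold ksq
    rw [kap_neg, kap_neg]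
    push_cast
    ring
  unfold adS
  rw [hk, kap_neg, kap_neg, kap_neg]
  simp only [map_mul, map_neg, map_sub, map_div₀, map_add, map_pow, Complex.conj_I, xanti_kap_real,
    Complex.conj_ofReal, apply_ite (starRingEnd ℂ), map_zero]
  push_cast
  split_ifs <;> ring

/-- Gain of `1/L` on functions oscillating in the variable `i`. -/
theorem Bd.AD_gain {r r₁ : ℝ → ℝ} {f : WT} {c m lam : ℝ} {L : ℕ} (κ : Kp) (i : ℕ)
    (k0 : Fin 2 → ℤ) (hκ : KB κ lam) (hκi : ∀ a, κ.k a i = 0) (hk0 : k0 0 ≠ 0 ∨ k0 1 ≠ 0)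
    (hlam : 1 ≤ lam) (hL : 0 < L) (hm : 0 < m)
    (hexp : Real.exp (-(m * L / (4 * lam))) ≤ 1 / L)
    (hr : ∀ t, r t + m ≤ r₁ t) (hf : Bd 0 r₁ f c) (hmean : ES.mean i f = 0) (a b e : Fin 2) :
    Bd 0 r (ES.AD (upd κ i fun j => (L : ℤ) * k0 j) a b e f) (6 / L * c) := by
  obtain ⟨M, hM0, hMs, hMc, hMb⟩ := hf
  have hL0 : (0 : ℝ) < L := by exact_mod_cast hL
  have hL1 : (1 : ℝ) ≤ L := by exact_mod_cast hL
  refine ⟨fun ν => 6 / L * M ν, fun ν => mul_nonneg (by positivity) (hM0 ν), hMs.mul_left _, ?_, fun ν t => ?_⟩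
  · rw [tsum_mul_left]
    exact mul_le_mul_of_nonneg_left hMc (by positivity)
  have hlen : (0 : ℝ) ≤ len ν := Nat.cast_nonneg _
  by_cases hν : ν i = 0
  · have h1 : f.co ν = 0 := by
      have h2 : (ES.mean i f).co ν = (if ν i = 0 then (1 : ℂ) else 0) • f.co ν := rfl
      rw [hmean, if_pos hν, one_smul] at h2
      exact h2.symm
    have h3 : (ES.AD (upd κ i fun j => (L : ℤ) * k0 j) a b e f).co ν t = 0 := by
      rw [xanti_co, h1, smul_zero]
      rfl
    rw [h3, norm_zero, mul_zero]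
    exact mul_nonneg (by positivity) (hM0 ν)
  · have h1 : ‖(ES.AD (upd κ i fun j => (L : ℤ) * k0 j) a b e f).co ν t‖ =
        ‖adS (upd κ i fun j => (L : ℤ) * k0 j) a b e ν‖ * ‖f.co ν t‖ := by
      rw [xanti_co, BoundedContinuousFunction.coe_smul, norm_smul]
    have hMb' := hMb ν t
    rw [pow_zero, one_mul] at hMb'
    have hrt : r t * len ν ≤ r₁ t * len ν - m * len ν := by
      have := mul_le_mul_of_nonneg_right (hr t) hlen
      linarith
    have hfn : 0 ≤ ‖f.co ν t‖ := norm_nonneg _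
    rw [pow_zero, one_mul, h1]
    by_cases hc : (len ν : ℝ) ≤ L / (2 * lam)
    · have h2 : ‖adS (upd κ i fun j => (L : ℤ) * k0 j) a b e ν‖ ≤ 3 / ((L : ℝ) / 2) := by
        obtain ⟨j, hj⟩ : ∃ j : Fin 2, k0 j ≠ 0 := hk0.elim (fun h => ⟨0, h⟩) fun h => ⟨1, h⟩
        refine adS_le' _ a b e ν (by positivity) j ?_
        rw [kap_upd κ i _ hκi]
        have h3 := kap_le hκ j ν
        have h4 : lam * len ν ≤ L / 2 := by
          calc lam * len ν ≤ lam * (L / (2 * lam)) := mul_le_mul_of_nonneg_left hc (by linarith)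
            _ = L / 2 := by field_simp
        have h5 : (L : ℝ) ≤ |(((L : ℤ) * k0 j * ν i : ℤ) : ℝ)| := by
          have h6 := one_le_abs_int hj
          have h7 := one_le_abs_int hν
          push_cast
          rw [abs_mul, abs_mul, abs_of_pos hL0]
          have h8 : 1 ≤ |(k0 j : ℝ)| * |((ν i : ℤ) : ℝ)| := by nlinarith
          rw [mul_assoc]
          nlinarith
        have h6 : |(((L : ℤ) * k0 j * ν i : ℤ) : ℝ)| ≤
            |((kap κ j ν + (L : ℤ) * k0 j * ν i : ℤ) : ℝ)| + |(kap κ j ν : ℝ)| := by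
          have h7 : (((L : ℤ) * k0 j * ν i : ℤ) : ℝ) =
              ((kap κ j ν + (L : ℤ) * k0 j * ν i : ℤ) : ℝ) - (kap κ j ν : ℝ) := by
            push_cast
            ring
          rw [h7]
          exact abs_sub _ _
        linarith
      have h3 : Real.exp (r t * len ν) ≤ Real.exp (r₁ t * len ν) := by
        refine Real.exp_le_exp.2 ?_
        have : 0 ≤ m * len ν := by positivity
        linarith
      calc Real.exp (r t * len ν) * (‖adS (upd κ i fun j => (L : ℤ) * k0 j) a b e ν‖ * ‖f.co ν t‖)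
          ≤ Real.exp (r₁ t * len ν) * (3 / ((L : ℝ) / 2) * ‖f.co ν t‖) :=
            mul_le_mul h3 (mul_le_mul_of_nonneg_right h2 hfn) (by positivity) (Real.exp_pos _).le
        _ = 6 / L * (Real.exp (r₁ t * len ν) * ‖f.co ν t‖) := by
            field_simp
            ring
        _ ≤ 6 / L * M ν := mul_le_mul_of_nonneg_left hMb' (by positivity)
    · rw [not_le] at hc
      have h2 := adS_le (upd κ i fun j => (L : ℤ) * k0 j) a b e ν
      have h3 : Real.exp (r t * len ν) ≤ Real.exp (r₁ t * len ν) * (1 / L) := by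
        have h4 : r t * len ν ≤ r₁ t * len ν + -(m * L / (4 * lam)) := by
          have h5 : m * (L / (2 * lam)) ≤ m * len ν := mul_le_mul_of_nonneg_left hc.le hm.le
          have h6 : m * L / (4 * lam) ≤ m * (L / (2 * lam)) := by
            have h7 : 0 ≤ m * L / (4 * lam) := by positivity
            have h8 : m * (L / (2 * lam)) = 2 * (m * L / (4 * lam)) := by
              field_simp
              ring
            rw [h8]
            linarith
          linarith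
        calc Real.exp (r t * len ν) ≤ Real.exp (r₁ t * len ν + -(m * L / (4 * lam))) := Real.exp_le_exp.2 h4
          _ = Real.exp (r₁ t * len ν) * Real.exp (-(m * L / (4 * lam))) := Real.exp_add _ _
          _ ≤ _ := mul_le_mul_of_nonneg_left hexp (Real.exp_pos _).le
      calc Real.exp (r t * len ν) * (‖adS (upd κ i fun j => (L : ℤ) * k0 j) a b e ν‖ * ‖f.co ν t‖)
          ≤ (Real.exp (r₁ t * len ν) * (1 / L)) * (3 * ‖f.co ν t‖) :=
            mul_le_mul h3 (mul_le_mul_of_nonneg_right h2 hfn) (by positivity) (by positivity)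
        _ = 3 / L * (Real.exp (r₁ t * len ν) * ‖f.co ν t‖) := by
            field_simp
        _ ≤ 6 / L * M ν := by
            refine mul_le_mul ?_ hMb' (by positivity) (by positivity)
            exact div_le_div_of_nonneg_right (by norm_num) hL0.le

private theorem xanti_mulT (X M : Mat) (a j : Fin 2) :
    mulT X M a j = X a j + mulT X (fun a b => M a b - idm a b) a j := by
  unfold mulT idm
  rw [Fin.sum_univ_two, Fin.sum_univ_two]
  fin_cases j
  · simp
    ring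
  · simp
    ring

private theorem xanti_mulT_sub (X Y N : Mat) (a j : Fin 2) :
    mulT X N a j - mulT Y N a j = mulT (fun a b => X a b - Y a b) N a j := by
  unfold mulT
  rw [← Finset.sum_sub_distrib]
  refine Finset.sum_congr rfl fun k _ => ?_
  ring

private theorem xanti_ADm_sub (κ : Kp) (h h' : Vec) (a b : Fin 2) :
    ADm κ (fun a => h a - h' a) a b = ADm κ h a b - ADm κ h' a b := by
  unfold ADm
  rw [← Finset.sum_sub_distrib]
  refine Finset.sum_congr rfl fun e _ => ?_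
  rw [map_sub]

private theorem xanti_dvm_congr (κ : Kp) {X Y : Mat} (h : ∀ a j, X a j = Y a j) (a : Fin 2) :
    dvm κ X a = dvm κ Y a := by
  have : X = Y := funext fun a => funext fun j => h a j
  rw [this]

/-- Solution of `D·(Q Mᵀ) = h` by `fixpt_global` (ι = Fin 2 × Fin 2):
`Q = 𝓡(h - D·(Q (M-I)ᵀ))`, contraction constant `8·3·0.012 < 1/2`. -/
theorem solveQ (κ : Kp) {r : ℝ → ℝ} {r0 : ℝ} (hr0 : 0 < r0) (hr : ∀ t, r0 ≤ r t) {M : Mat}
    (hM : ∀ a b, Bd 0 r (M a b - idm a b) (3 / 250)) {h : Vec} (hz : ∀ a, Pnz κ (h a) = h a)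
    {q0 : ℝ} (hq : ∀ a b, Bd 0 r (ADm κ h a b) q0) {i : ℕ} {s t : ℝ}
    (lM : ∀ a b, Lev i (M a b)) (lh : ∀ a, Lev i (h a)) (rM : ∀ a b, IsR (M a b))
    (rh : ∀ a, IsR (h a)) (cM : ∀ a b, Cl s t (M a b)) (ch : ∀ a, Cl s t (h a)) :
    ∃ Q : Mat, (∀ a b, Q a b = Q b a) ∧ (∀ a, dvm κ (mulT Q M) a = h a) ∧
      (∀ a b, Bd 0 r (Q a b) (2 * q0)) ∧ (∀ a b, Lev i (Q a b)) ∧ (∀ a b, IsR (Q a b)) ∧
      (∀ a b, Cl s t (Q a b)) := by
  have hr' : ∀ t, 0 ≤ r t := fun t => hr0.le.trans (hr t)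
  obtain ⟨N, hN⟩ : ∃ N : Mat, N = fun a b => M a b - idm a b := ⟨_, rfl⟩
  have hNb : ∀ a b, Bd 0 r (N a b) (3 / 250) := fun a b => by rw [hN]; exact hM a b
  have hNl : ∀ a b, Lev i (N a b) := fun a b => by
    rw [hN]
    refine (lM a b).sub ?_
    unfold idm
    split_ifs
    · exact Lev.one i
    · exact Lev.zero i
  have hNr : ∀ a b, IsR (N a b) := fun a b => by
    rw [hN]
    refine (rM a b).sub ?_
    unfold idm
    split_ifs
    · exact IsR.one
    · exact IsR.zero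
  have hNc : ∀ a b, Cl s t (N a b) := fun a b => by
    rw [hN]
    refine (cM a b).sub ?_
    unfold idm
    split_ifs
    · exact Cl.one s t
    · exact Cl.zero s t
  obtain ⟨T, hT⟩ : ∃ T : (Fin 2 × Fin 2 → WT) → (Fin 2 × Fin 2 → WT), T = fun x p =>
      ADm κ (fun a => h a - dvm κ (mulT (fun a b => x (a, b)) N) a) p.1 p.2 := ⟨_, rfl⟩
  have hTe : ∀ x p, T x p = ADm κ h p.1 p.2 -
      ADm κ (dvm κ (mulT (fun a b => x (a, b)) N)) p.1 p.2 := by
    intro x p
    rw [hT]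
    exact xanti_ADm_sub κ h _ p.1 p.2
  obtain ⟨x, hx1, hx2, hx3⟩ := fixpt_global (ι := Fin 2 × Fin 2) (fun _ => 0) (fun _ => 1)
    (fun _ => one_pos) hr0 hr T (fun x => (∀ p, Lev i (x p)) ∧ (∀ p, IsR (x p)) ∧ ∀ p, Cl s t (x p))
    ⟨fun _ => Lev.zero i, fun _ => IsR.zero, fun _ => Cl.zero s t⟩
    (by
      rintro x ⟨h1, h2, h3⟩
      have e1 : ∀ p, T x p = ∑ e, AD κ p.1 p.2 e (h e - ∑ j, D κ j (∑ k, x (e, k) * N j k)) := by
        intro p
        rw [hT]
        rfl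
      refine ⟨fun p => ?_, fun p => ?_, fun p => ?_⟩
      · rw [e1]
        exact Lev.sum _ fun e _ => Lev.mlt _ ((lh e).sub (Lev.sum _ fun j _ => Lev.D κ j
          (Lev.sum _ fun k _ => (h1 _).mul (hNl j k))))
      · rw [e1]
        exact IsR.sum _ fun e _ => IsR.AD ((rh e).sub (IsR.sum _ fun j _ => IsR.D
          (IsR.sum _ fun k _ => (h2 _).mul (hNr j k))))
      · rw [e1]
        exact Cl.sum _ fun e _ => Cl.mlt _ ((ch e).sub (Cl.sum _ fun j _ => Cl.D κ j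
          (Cl.sum _ fun k _ => (h3 _).mul (hNc j k)))))
    (by
      intro xs y h1 h2
      exact ⟨fun p => Lev_of_tendsto (fun n => (h1 n).1 p) (h2 p),
        fun p => IsR_of_tendsto (fun n => (h1 n).2.1 p) (h2 p),
        fun p => Cl_of_tendsto (fun n => (h1 n).2.2 p) (h2 p)⟩)
    (s0 := q0)
    (by
      intro p
      change Bd 0 r (T 0 p) (q0 * 1)
      rw [mul_one, hTe]
      have e1 : ADm κ (dvm κ (mulT (fun a b => (0 : Fin 2 × Fin 2 → WT) (a, b)) N)) p.1 p.2 = 0 := by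
        unfold ADm dvm mulT
        simp
      rw [e1, sub_zero]
      exact hq _ _)
    (by
      intro x y s' hs' hxy p
      change Bd 0 r (T x p - T y p) (s' / 2 * 1)
      have e1 : T x p - T y p = -(ADm κ (dvm κ (mulT (fun a b => x (a, b) - y (a, b)) N)) p.1 p.2) := by
        rw [hTe, hTe]
        have e2 : ADm κ (dvm κ (mulT (fun a b => x (a, b) - y (a, b)) N)) p.1 p.2 =
            ADm κ (dvm κ (mulT (fun a b => x (a, b)) N)) p.1 p.2 -
              ADm κ (dvm κ (mulT (fun a b => y (a, b)) N)) p.1 p.2 := by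
          rw [← xanti_ADm_sub]
          congr 1
          funext a
          rw [← dvm_sub]
          exact xanti_dvm_congr κ (fun a j => (xanti_mulT_sub _ _ N a j).symm) a
        rw [e2]
        ring
      rw [e1]
      have hX : ∀ a b, Bd 0 r (mulT (fun a b => x (a, b) - y (a, b)) N a b) (2 * (s' * (3 / 250))) := by
        intro a b
        have h4 : Bd 0 r (∑ k, (x (a, k) - y (a, k)) * N b k) (∑ _k : Fin 2, s' * (3 / 250)) :=
          Bd.sum _ fun k _ => by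
            have h5 : Bd 0 r (x (a, k) - y (a, k)) s' := by
              have h6 := hxy (a, k)
              change Bd 0 r (x (a, k) - y (a, k)) (s' * 1) at h6
              rwa [mul_one] at h6
            exact Bd.mul hr' h5 (hNb b k)
        refine h4.mono (le_of_eq ?_)
        simp only [Finset.sum_const, Finset.card_univ, Fintype.card_fin, nsmul_eq_mul]
        push_cast
        ring
      refine (Bd.ADm_dvm κ hX p.1 p.2).neg.mono ?_
      linarith)
  have hx4 : ∀ a b, x (a, b) = ADm κ (fun a => h a - dvm κ (mulT (fun a b => x (a, b)) N) a) a b := by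
    intro a b
    have h1 := congrFun hx1 (a, b)
    rw [hT] at h1
    exact h1.symm
  refine ⟨fun a b => x (a, b), fun a b => ?_, fun a => ?_, fun a b => ?_, fun a b => hx2.1 _,
    fun a b => hx2.2.1 _, fun a b => hx2.2.2 _⟩
  · change x (a, b) = x (b, a)
    rw [hx4 a b, hx4 b a]
    exact ADm_symm κ _ a b
  · have h1 : dvm κ (mulT (fun a b => x (a, b)) M) a =
        dvm κ (fun a b => x (a, b)) a + dvm κ (mulT (fun a b => x (a, b)) N) a := by
      rw [← dvm_add]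
      refine xanti_dvm_congr κ (fun a j => ?_) a
      rw [xanti_mulT, hN]
    have h2 : dvm κ (fun a b => x (a, b)) a = h a - dvm κ (mulT (fun a b => x (a, b)) N) a := by
      have h3 : dvm κ (fun a b => x (a, b)) a =
          dvm κ (ADm κ (fun a => h a - dvm κ (mulT (fun a b => x (a, b)) N) a)) a :=
        xanti_dvm_congr κ (fun a j => hx4 a j) a
      rw [h3, dvm_ADm, map_sub, hz, Pnz_dvm]
    rw [h1, h2]
    ring
  · have h1 := hx3 (a, b)
    change Bd 0 r (x (a, b)) (2 * q0 * 1) at h1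
    rwa [mul_one] at h1

end ES
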