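import Pool.Agent.ES.XPsi
import Pool.Agent.ES.SW

/-!
ES-XAvg: averaging over a sub-block (EW 4, Lemma 4.3).
-/

open scoped BoundedContinuousFunction

namespace ES

/-- Rotated direction `k^⊥ = (-k_1, k_0)`. -/
def kp (k0 : Fin 2 → ℤ) : Fin 2 → ℂ := fun a => if a = 0 then -(k0 1 : ℂ) else (k0 0 : ℂ)

/-- `∫ χ²`. -/
noncomputable def om (P : SB) : ℝ := ∫ t in P.ta..P.tb, (trapR P.ta P.s1 P.s2 P.tb t) ^ 2

theorem om_eq (P : SB) (h1 : P.ta < P.s1) (h2 : P.s1 < P.s2) (h3 : P.s2 < P.tb) :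
    om P = (P.s2 - P.s1) + (P.s1 - P.ta) / 3 + (P.tb - P.s2) / 3 := by
  have hc : Continuous fun t => (trapR P.ta P.s1 P.s2 P.tb t) ^ 2 :=
    (trapR_continuous _ _ _ _).pow 2
  have hi : ∀ a b : ℝ, IntervalIntegrable (fun t => (trapR P.ta P.s1 P.s2 P.tb t) ^ 2)
      MeasureTheory.volume a b := fun a b => hc.intervalIntegrable a b
  have h01 : (0 : ℝ) < P.s1 - P.ta := by linarith
  have h03 : (0 : ℝ) < P.tb - P.s2 := by linarith
  unfold om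
  rw [← intervalIntegral.integral_add_adjacent_intervals (hi P.ta P.s1) (hi P.s1 P.tb),
    ← intervalIntegral.integral_add_adjacent_intervals (hi P.s1 P.s2) (hi P.s2 P.tb)]
  have e1 : ∫ t in P.ta..P.s1, (trapR P.ta P.s1 P.s2 P.tb t) ^ 2 = (P.s1 - P.ta) / 3 := by
    have e : ∫ t in P.ta..P.s1, (trapR P.ta P.s1 P.s2 P.tb t) ^ 2 =
        ∫ t in P.ta..P.s1, ((t - P.ta) / (P.s1 - P.ta)) ^ 2 := by
      refine intervalIntegral.integral_congr fun t ht => ?_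
      rw [Set.uIcc_of_le h1.le] at ht
      have b1 : (t - P.ta) / (P.s1 - P.ta) ≤ 1 := by
        rw [div_le_one h01]; linarith [ht.2]
      have b2 : 0 ≤ (t - P.ta) / (P.s1 - P.ta) := div_nonneg (by linarith [ht.1]) h01.le
      have b3 : 1 ≤ (P.tb - t) / (P.tb - P.s2) := by
        rw [le_div_iff₀ h03]; linarith [ht.2]
      unfold trapR
      rw [min_eq_left (b1.trans b3), min_eq_right b1, max_eq_right b2]
    rw [e]
    have hd : ∀ t ∈ Set.uIcc P.ta P.s1,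
        HasDerivAt (fun t : ℝ => (t - P.ta) ^ 3 / (3 * (P.s1 - P.ta) ^ 2))
          (((t - P.ta) / (P.s1 - P.ta)) ^ 2) t := by
      intro t _
      have h := (((hasDerivAt_id t).sub_const P.ta).pow 3).div_const (3 * (P.s1 - P.ta) ^ 2)
      refine h.congr_deriv ?_
      simp only [id]
      field_simp
      ring
    rw [intervalIntegral.integral_eq_sub_of_hasDerivAt hd
      (Continuous.intervalIntegrable (by fun_prop) _ _)]
    field_simp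
    ring
  have e2 : ∫ t in P.s1..P.s2, (trapR P.ta P.s1 P.s2 P.tb t) ^ 2 = P.s2 - P.s1 := by
    have e : ∫ t in P.s1..P.s2, (trapR P.ta P.s1 P.s2 P.tb t) ^ 2 = ∫ _ in P.s1..P.s2, (1 : ℝ) := by
      refine intervalIntegral.integral_congr fun t ht => ?_
      rw [Set.uIcc_of_le h2.le] at ht
      have b1 : 1 ≤ (t - P.ta) / (P.s1 - P.ta) := by
        rw [le_div_iff₀ h01]; linarith [ht.1]
      have b3 : 1 ≤ (P.tb - t) / (P.tb - P.s2) := by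
        rw [le_div_iff₀ h03]; linarith [ht.2]
      unfold trapR
      rw [min_eq_left (le_min b1 b3), max_eq_right zero_le_one, one_pow]
    rw [e]
    simp
  have e3 : ∫ t in P.s2..P.tb, (trapR P.ta P.s1 P.s2 P.tb t) ^ 2 = (P.tb - P.s2) / 3 := by
    have e : ∫ t in P.s2..P.tb, (trapR P.ta P.s1 P.s2 P.tb t) ^ 2 =
        ∫ t in P.s2..P.tb, ((P.tb - t) / (P.tb - P.s2)) ^ 2 := by
      refine intervalIntegral.integral_congr fun t ht => ?_
      rw [Set.uIcc_of_le h3.le] at ht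
      have b1 : (P.tb - t) / (P.tb - P.s2) ≤ 1 := by
        rw [div_le_one h03]; linarith [ht.1]
      have b2 : 0 ≤ (P.tb - t) / (P.tb - P.s2) := div_nonneg (by linarith [ht.2]) h03.le
      have b3 : 1 ≤ (t - P.ta) / (P.s1 - P.ta) := by
        rw [le_div_iff₀ h01]; linarith [ht.1]
      unfold trapR
      rw [min_eq_right (b1.trans b3), min_eq_right b1, max_eq_right b2]
    rw [e]
    have hd : ∀ t ∈ Set.uIcc P.s2 P.tb,
        HasDerivAt (fun t : ℝ => -((P.tb - t) ^ 3 / (3 * (P.tb - P.s2) ^ 2)))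
          (((P.tb - t) / (P.tb - P.s2)) ^ 2) t := by
      intro t _
      have h := ((((hasDerivAt_id t).const_sub P.tb).pow 3).div_const
        (3 * (P.tb - P.s2) ^ 2)).neg
      refine h.congr_deriv ?_
      simp only [id]
      field_simp
      ring
    rw [intervalIntegral.integral_eq_sub_of_hasDerivAt hd
      (Continuous.intervalIntegrable (by fun_prop) _ _)]
    field_simp
    ring
  rw [e1, e2, e3]
  ring

/-- Main part of the mean stress integrated over the sub-block, `F0` frozen: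
`- ω b² (F0 k^⊥) ⊗ k^⊥ - (∫R) M0ᵀ`. -/
noncomputable def mainS (P : SB) (F0 : Mat) : Mat := fun a l =>
  -(((om P : ℂ) * kp P.k0 l) • (P.b * P.b * ∑ k, kp P.k0 k • F0 a k))
    - mulT (fun a k => frz P.tb (intg P.ta P.tb (P.d.R a k))) (adj F0) a l

section
variable {P : SB} {lam g σ ρ c A ρ0 m w η : ℝ} {ζ E W a q : Vec}

private theorem XAvg_dp_osc {i : ℕ} {κ : Kp} {f : WT} (hf : osc i f = 0) (a : Fin 2) :
    osc i (dp κ a f) = 0 := by
  unfold dp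
  split_ifs
  · rw [LinearMap.neg_apply, map_neg, osc_D, hf, map_zero, neg_zero]
  · rw [osc_D, hf, map_zero]

/-- The mean of `W0 ⊗ W0`. -/
theorem W0_W0 (H : SBH P lam g σ ρ c A ρ0 m w η) (k l : Fin 2) :
    mean P.d.i (P.W0 k * P.W0 l) = (kp P.k0 k * kp P.k0 l) • (P.b * P.b) +
      ((P.L : ℂ)⁻¹ ^ 2) • (dp P.d.κ k P.b * dp P.d.κ l P.b) := by
  have hm := H.hm
  have hL : 0 < P.L := by
    have h1 := H.hL
    have h2 := H.hlam
    have h3 : 0 < lam * (1 + 1 / m) := by positivity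
    have h4 : (0 : ℝ) < P.L := lt_of_lt_of_le h3 h1
    exact_mod_cast h4
  have hb : osc P.d.i P.b = 0 := Lev.osc le_rfl H.bl
  have hk : ∀ a, P.d.κ.k a P.d.i = 0 := fun a => H.good.k0 a P.d.i le_rfl
  have hW : ∀ j, P.W0 j = (((Real.sqrt 2 : ℝ) : ℂ) * kp P.k0 j) • (P.b * cs P.d.i) +
      ((P.L : ℂ)⁻¹ * ((Real.sqrt 2 : ℝ) : ℂ)) • (dp P.d.κ j P.b * sn P.d.i) := by
    intro j
    rw [W0_eq P hk hb hL j]
    rfl
  have hs2 : ((Real.sqrt 2 : ℝ) : ℂ) * ((Real.sqrt 2 : ℝ) : ℂ) = 2 := by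
    rw [← Complex.ofReal_mul, Real.mul_self_sqrt (by norm_num)]
    norm_num
  have hdk : ∀ j, osc P.d.i (dp P.d.κ j P.b) = 0 := XAvg_dp_osc hb
  have hprod : P.W0 k * P.W0 l =
      (2 * (kp P.k0 k * kp P.k0 l)) • (P.b * P.b * (cs P.d.i * cs P.d.i)) +
      (2 * (kp P.k0 k * (P.L : ℂ)⁻¹)) • (P.b * dp P.d.κ l P.b * (cs P.d.i * sn P.d.i)) +
      (2 * (kp P.k0 l * (P.L : ℂ)⁻¹)) • (P.b * dp P.d.κ k P.b * (cs P.d.i * sn P.d.i)) +
      (2 * ((P.L : ℂ)⁻¹ ^ 2)) • (dp P.d.κ k P.b * dp P.d.κ l P.b * (sn P.d.i * sn P.d.i)) := by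
    rw [hW k, hW l, ← hs2]
    simp only [Algebra.smul_def, map_mul, map_pow]
    ring
  rw [hprod, map_add, map_add, map_add, map_smul, map_smul, map_smul, map_smul,
    mean_mul_left _ (osc_mul_zero _ hb hb), mean_mul_left _ (osc_mul_zero _ hb (hdk l)),
    mean_mul_left _ (osc_mul_zero _ hb (hdk k)), mean_mul_left _ (osc_mul_zero _ (hdk k) (hdk l)),
    cs_sq_mean, sn_sq_mean, cs_sn_mean, mul_zero, mul_zero, smul_zero, smul_zero, add_zero,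
    add_zero, mul_smul_comm, mul_smul_comm, mul_one, mul_one, smul_smul, smul_smul]
  congr 2
  · ring
  · ring

/-! the averaging operator -/

private noncomputable def XAvg_J (a b : ℝ) (f : WT) : WT := frz b (intg a b f)

private theorem XAvg_J_add (a b : ℝ) (f h : WT) :
    XAvg_J a b (f + h) = XAvg_J a b f + XAvg_J a b h := by
  unfold XAvg_J frz
  rw [map_add, tcomp_add]

private theorem XAvg_J_sub (a b : ℝ) (f h : WT) :
    XAvg_J a b (f - h) = XAvg_J a b f - XAvg_J a b h := by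
  unfold XAvg_J frz
  rw [map_sub, tcomp_sub]

private theorem XAvg_J_neg (a b : ℝ) (f : WT) : XAvg_J a b (-f) = -XAvg_J a b f := by
  unfold XAvg_J frz
  rw [map_neg, tcomp_neg]

private theorem XAvg_J_smul (a b : ℝ) (z : ℂ) (f : WT) :
    XAvg_J a b (z • f) = z • XAvg_J a b f := by
  unfold XAvg_J frz
  rw [map_smul, tcomp_smul]

private theorem XAvg_J_sum (a b : ℝ) {ι : Type*} (s : Finset ι) (f : ι → WT) :
    XAvg_J a b (∑ j ∈ s, f j) = ∑ j ∈ s, XAvg_J a b (f j) := by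
  unfold XAvg_J frz
  rw [map_sum, tcomp_sum]

private theorem XAvg_J_D (a b : ℝ) (κ : Kp) (c : Fin 2) (f : WT) :
    XAvg_J a b (D κ c f) = D κ c (XAvg_J a b f) := by
  unfold XAvg_J frz
  rw [intg_D, tcomp_D]

private theorem XAvg_J_mul {f : WT} (hf : ∀ t₀, frz t₀ f = f) (a b : ℝ) (h : WT) :
    XAvg_J a b (f * h) = f * XAvg_J a b h := by
  have h1 : intg a b (f * h) = f * intg a b h := by
    have h2 := intg_frz_mul a b 0 f h
    rwa [hf] at h2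
  unfold XAvg_J
  rw [h1]
  have h3 : frz b (f * intg a b h) = frz b f * frz b (intg a b h) := by
    unfold frz
    rw [tcomp_mul]
  rw [h3, hf]

private theorem XAvg_J_bd {k : ℕ} {ρ : ℝ} {f : WT} {c a b : ℝ} (hab : a ≤ b)
    (hf : Bd k (cr ρ) f c) : Bd k (cr ρ) (XAvg_J a b f) ((b - a) * c) := by
  unfold XAvg_J
  exact Bd.frz b (Bd.intg hab (fun _ _ _ => le_rfl) hf)

private theorem XAvg_J_dvm (a b : ℝ) (κ : Kp) (X : Mat) (j : Fin 2) :
    XAvg_J a b (dvm κ X j) = dvm κ (fun k l => XAvg_J a b (X k l)) j := by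
  unfold dvm
  rw [XAvg_J_sum]
  refine Finset.sum_congr rfl fun l _ => ?_
  rw [XAvg_J_D]

private theorem XAvg_frz_Fm {κ : Kp} {ξ0 : Vec} (h : ∀ j t₀, frz t₀ (ξ0 j) = ξ0 j) (t₀ : ℝ)
    (a b : Fin 2) : frz t₀ (Fm κ ξ0 a b) = Fm κ ξ0 a b := by
  have h1 : frz t₀ (D κ b (ξ0 a)) = D κ b (ξ0 a) := by
    have h2 := tcomp_D ⟨fun _ => t₀, continuous_const⟩ κ b (ξ0 a)
    have h3 : tcomp ⟨fun _ => t₀, continuous_const⟩ (ξ0 a) = ξ0 a := h a t₀
    rw [h3] at h2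
    exact h2
  unfold Fm grad idm frz at *
  rw [tcomp_add, h1]
  split_ifs
  · rw [tcomp_one]
  · rw [tcomp_zero]

private theorem XAvg_frz_adj {F : Mat} (h : ∀ t₀ a b, frz t₀ (F a b) = F a b) (t₀ : ℝ)
    (a b : Fin 2) : frz t₀ (adj F a b) = adj F a b := by
  have hn : ∀ f : WT, frz t₀ f = f → frz t₀ (-f) = -f := by
    intro f hf
    unfold frz at *
    rw [tcomp_neg, hf]
  unfold adj
  split_ifs
  · exact h _ _ _
  · exact hn _ (h _ _ _)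
  · exact hn _ (h _ _ _)
  · exact h _ _ _

private theorem XAvg_adj_sub {F G : Mat} {r : ℝ → ℝ} {e : ℝ}
    (h : ∀ a b, Bd 0 r (F a b - G a b) e) (a b : Fin 2) :
    Bd 0 r (adj F a b - adj G a b) e := by
  unfold adj
  split_ifs
  · exact h _ _
  · have h1 := (h 0 1).neg
    have e1 : -F 0 1 - -G 0 1 = -(F 0 1 - G 0 1) := by ring
    rw [e1]
    exact h1
  · have h1 := (h 1 0).neg
    have e1 : -F 1 0 - -G 1 0 = -(F 1 0 - G 1 0) := by ring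
    rw [e1]
    exact h1
  · exact h _ _

private theorem XAvg_om (P : SB) (h : P.ta ≤ P.tb) :
    XAvg_J P.ta P.tb (cst P.χ * cst P.χ) = (om P : ℂ) • (1 : WT) := by
  rw [← cst_mul]
  refine WT.ext (funext fun ν => ?_)
  ext t
  unfold XAvg_J
  rw [frz_right_intg h]
  have h1 : ∀ s, (cst (P.χ * P.χ)).co ν s = if ν = 0 then ((trapR P.ta P.s1 P.s2 P.tb s ^ 2 : ℝ) : ℂ)
      else 0 := by
    intro s
    change (Pi.single 0 (P.χ * P.χ) : Gx → Ct) ν s = _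
    rw [Pi.single_apply]
    split_ifs
    · rw [BoundedContinuousFunction.mul_apply]
      unfold SB.χ
      rw [trap_apply, ← Complex.ofReal_mul, sq]
    · rfl
  simp only [h1]
  have h2 : ((om P : ℂ) • (1 : WT)).co ν t = (om P : ℂ) * (if ν = 0 then 1 else 0) := by
    rw [WT.co_smul, WT.co_one, Pi.smul_apply, Pi.single_apply]
    split_ifs
    · rfl
    · simp
  rw [h2]
  split_ifs
  · rw [intervalIntegral.integral_ofReal, mul_one]
    rfl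
  · simp

private theorem XAvg_chi (P : SB) (t : ℝ) : ‖P.χ t‖ ≤ 1 := by
  unfold SB.χ
  rw [trap_apply, Complex.norm_real, Real.norm_eq_abs, abs_of_nonneg (trapR_nonneg _ _ _ _ _)]
  exact trapR_le_one _ _ _ _ _

private theorem XAvg_TA {κ : Kp} {r : ℝ → ℝ} (hr : ∀ t, 0 ≤ r t) {Ψ : WT} {y : Vec} {ψ e : ℝ}
    (hΨ : Bd 0 r Ψ ψ) {a : Fin 2} (hy : ∀ b, Bd 0 r (D κ b (y a)) e) (j : Fin 2) :
    Bd 0 r (TA κ Ψ y a j) (ψ * e) := by
  unfold TA
  split_ifs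
  · exact Bd.mul hr hΨ (hy 1)
  · exact (Bd.mul hr hΨ (hy 0)).neg

private theorem XAvg_near {F : Mat} {r : ℝ → ℝ} (h : ∀ a b, Bd 0 r (F a b - idm a b) (3 / 250))
    (a b : Fin 2) : Bd 0 r (F a b) 2 := by
  have h1 : Bd 0 r (idm a b) 1 := by
    unfold idm
    split_ifs
    · exact Bd.one _ _
    · exact Bd.zero _ _ zero_le_one
  have h2 := (h a b).add h1
  rw [sub_add_cancel] at h2
  exact h2.mono (by norm_num)

private theorem XAvg_kp (H : SBH P lam g σ ρ c A ρ0 m w η) (a : Fin 2) : ‖kp P.k0 a‖ ≤ 2 := by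
  have h : ∀ n : ℤ, |n| ≤ 2 → ‖(n : ℂ)‖ ≤ 2 := by
    intro n hn
    rw [← Complex.ofReal_intCast, Complex.norm_real, Real.norm_eq_abs]
    exact_mod_cast hn
  unfold kp
  split_ifs
  · rw [norm_neg]; exact h _ (H.hk 1)
  · exact h _ (H.hk 0)

/-- The wave part of the stress. -/
private theorem XAvg_wave (H : SBH P lam g σ ρ c A ρ0 m w η)
    (S : SB0 P lam g ρ0 m w ζ E W a q) (hρ1 : 0 ≤ ρ0 - m) {F0 : Mat} {e1 d K : ℝ}
    (hK : K = 1 + 1 / m)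
    (hFF : ∀ k l, Bd 0 (cr (ρ0 - m)) (FF P.d ζ k l) 2)
    (hδ : ∀ k l, Bd 0 (cr (ρ0 - m)) (FF P.d ζ k l - F0 k l) e1)
    (hW : ∀ j, Bd 0 (cr (ρ0 - m)) (W j) (33 * w))
    (hW0 : ∀ j, Bd 0 (cr (ρ0 - m)) (P.W0 j) (32 * w))
    (hd : ∀ j, Bd 0 (cr (ρ0 - m)) (W j - cst P.χ * P.W0 j) d) (k l : Fin 2) :
    Bd 0 (cr (ρ0 - m)) (mean P.d.i (mulv (FF P.d ζ) W k * W l) -
      cst P.χ * cst P.χ * (kp P.k0 l • (P.b * P.b * ∑ b, kp P.k0 b • F0 k b)))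
      (2 * (e1 * (4 * w ^ 2) + 2 * ((lam / P.L) ^ 2 * (K * w) ^ 2) + 2 * (65 * w * d))) := by
  have hm := H.hm
  have hw := H.hw
  have he1 : 0 ≤ e1 := (hδ 0 0).nonneg
  have hr : ∀ t, 0 ≤ cr (ρ0 - m) t := fun t => hρ1
  have hoF : ∀ a b, osc P.d.i (FF P.d ζ a b) = 0 := fun a b =>
    Lev.osc le_rfl ((new_lev H S a).2.2.2.2.1 b).1
  have hb0 : Bd 0 (cr (ρ0 - m)) P.b w := H.bb.weaken le_rfl (fun _ => by simp [cr]; linarith)
  have hdp : ∀ a, Bd 0 (cr (ρ0 - m)) (dp P.d.κ a P.b) (lam * (K * w)) := by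
    intro a
    have h1 : Bd 1 (cr ρ0) P.b (K * w) := by
      rw [hK]
      exact Bd.margin hm (fun _ => le_rfl) H.bb
    exact (Bd.dp H.good.kb a h1).weaken le_rfl (fun _ => by simp [cr]; linarith)
  have hχ : ∀ {f : WT} {c : ℝ}, Bd 0 (cr (ρ0 - m)) f c → Bd 0 (cr (ρ0 - m)) (cst P.χ * f) c := by
    intro f c hf
    have h1 := Bd.cst_mul (XAvg_chi P) hf
    rwa [one_mul] at h1
  have hmean : ∀ a, mean P.d.i (W a * W l) =
      cst P.χ * (cst P.χ * ((kp P.k0 a * kp P.k0 l) • (P.b * P.b))) +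
      cst P.χ * (cst P.χ * (((P.L : ℂ)⁻¹ ^ 2) • (dp P.d.κ a P.b * dp P.d.κ l P.b))) +
      mean P.d.i (W a * (W l - cst P.χ * P.W0 l) + (W a - cst P.χ * P.W0 a) *
        (cst P.χ * P.W0 l)) := by
    intro a
    have e : W a * W l = cst P.χ * cst P.χ * (P.W0 a * P.W0 l) +
        (W a * (W l - cst P.χ * P.W0 l) + (W a - cst P.χ * P.W0 a) * (cst P.χ * P.W0 l)) := by
      ring
    have h1 : mean P.d.i (cst P.χ * cst P.χ * (P.W0 a * P.W0 l)) =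
        cst P.χ * cst P.χ * mean P.d.i (P.W0 a * P.W0 l) :=
      mean_mul_left _ (osc_mul_zero _ (osc_cst _ _) (osc_cst _ _)) _
    rw [e, map_add, h1, W0_W0 H a l]
    ring
  have hsum : mean P.d.i (mulv (FF P.d ζ) W k * W l) -
      cst P.χ * cst P.χ * (kp P.k0 l • (P.b * P.b * ∑ b, kp P.k0 b • F0 k b)) =
      ∑ b, ((FF P.d ζ k b - F0 k b) *
          (cst P.χ * (cst P.χ * ((kp P.k0 b * kp P.k0 l) • (P.b * P.b)))) +
        FF P.d ζ k b *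
          (cst P.χ * (cst P.χ * (((P.L : ℂ)⁻¹ ^ 2) • (dp P.d.κ b P.b * dp P.d.κ l P.b)))) +
        FF P.d ζ k b * mean P.d.i (W b * (W l - cst P.χ * P.W0 l) +
          (W b - cst P.χ * P.W0 b) * (cst P.χ * P.W0 l))) := by
    have h1 : mulv (FF P.d ζ) W k * W l = ∑ b, FF P.d ζ k b * (W b * W l) := by
      unfold mulv
      rw [Finset.sum_mul]
      exact Finset.sum_congr rfl fun b _ => by ring
    rw [h1, map_sum]
    have h2 : ∀ b, mean P.d.i (FF P.d ζ k b * (W b * W l)) =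
        FF P.d ζ k b * mean P.d.i (W b * W l) := fun b => mean_mul_left _ (hoF k b) _
    simp only [h2, hmean]
    rw [Fin.sum_univ_two, Fin.sum_univ_two, Fin.sum_univ_two]
    simp only [Algebra.smul_def, map_mul, map_pow]
    ring
  rw [hsum]
  have hterm : ∀ b ∈ (Finset.univ : Finset (Fin 2)), Bd 0 (cr (ρ0 - m)) ((FF P.d ζ k b - F0 k b) *
          (cst P.χ * (cst P.χ * ((kp P.k0 b * kp P.k0 l) • (P.b * P.b)))) +
        FF P.d ζ k b *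
          (cst P.χ * (cst P.χ * (((P.L : ℂ)⁻¹ ^ 2) • (dp P.d.κ b P.b * dp P.d.κ l P.b)))) +
        FF P.d ζ k b * mean P.d.i (W b * (W l - cst P.χ * P.W0 l) +
          (W b - cst P.χ * P.W0 b) * (cst P.χ * P.W0 l)))
      (e1 * (4 * w ^ 2) + 2 * ((lam / P.L) ^ 2 * (K * w) ^ 2) + 2 * (65 * w * d)) := by
    intro b _
    refine Bd.add (Bd.add ?_ ?_) ?_
    · refine Bd.mul hr (hδ k b) (hχ (hχ ?_))
      refine (Bd.smul _ (Bd.mul hr hb0 hb0)).mono ?_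
      rw [norm_mul]
      have h1 := XAvg_kp H b
      have h2 := XAvg_kp H l
      have h3 : ‖kp P.k0 b‖ * ‖kp P.k0 l‖ ≤ 2 * 2 :=
        mul_le_mul h1 h2 (norm_nonneg _) (by norm_num)
      nlinarith [sq_nonneg w]
    · refine Bd.mul hr (hFF k b) (hχ (hχ ?_))
      refine (Bd.smul _ (Bd.mul hr (hdp b) (hdp l))).mono (le_of_eq ?_)
      rw [norm_pow, norm_inv, Complex.norm_natCast, div_pow]
      ring
    · refine Bd.mul hr (hFF k b) (Bd.mean _ ?_)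
      refine (Bd.add (Bd.mul hr (hW b) (hd l)) (Bd.mul hr (hd b) (hχ (hW0 l)))).mono
        (le_of_eq ?_)
      ring
  refine (Bd.sum _ hterm).mono (le_of_eq ?_)
  rw [Fin.sum_univ_two]
  ring

/-- The old stress. -/
private theorem XAvg_stress (H : SBH P lam g σ ρ c A ρ0 m w η) (hρ1 : 0 ≤ ρ0 - m) {M0 : Mat}
    {e1 K y : ℝ} (hK : K = 1 + 1 / m) (hZ : ZH lam m (P.r ρ0 m) ζ)
    (hy : ∀ j, Bd 1 (P.r ρ0 m) (ζ j) y)
    (hMM : ∀ k l, Bd 0 (cr (ρ0 - m)) (MM P.d ζ k l) 2)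
    (hδ : ∀ k l, Bd 0 (cr (ρ0 - m)) (MM P.d ζ k l - M0 k l) e1) (k l : Fin 2) :
    Bd 0 (cr (ρ0 - m)) (mulT (RR P.d ζ) (MM P.d ζ) k l - ∑ b, P.d.R k b * M0 l b)
      (2 * (2 * lam * y * (K * σ) * 2 + σ * e1)) := by
  have hm := H.hm
  have DHH := H.dh
  have hrr : ∀ t, ρ0 - m ≤ P.r ρ0 m t := fun t =>
    le_rad (by linarith [H.h1, H.h2, H.h3]) hm.le t
  have hr : ∀ t, 0 ≤ cr (ρ0 - m) t := fun t => hρ1
  have hch := DHH.ch hZ
  have hch0 : CH P.d.κ lam m m (P.r ρ0 m) 0 :=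
    { kb := hch.kb, lam0 := hch.lam0, r00 := hch.r00, hr := hch.hr
      hζ := ⟨0, fun a => Bd.zero _ _ le_rfl, by simpa using hm.le⟩ }
  have hK1 : 0 < 1 + 1 / m := by positivity
  have hlam := H.hlam
  have hRd : ∀ b, Bd 0 (cr (ρ0 - m)) (RR P.d ζ k b - P.d.R k b) (2 * lam * y * (K * σ)) := by
    intro b
    have h1 : ∀ j, Bd 0 (P.r ρ0 m) (ζ j) (1 / (256 * lam * (1 + 1 / m))) := fun j =>
      (hZ j).weaken (by norm_num) (fun _ => le_rfl)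
    have h2 : Bd 1 (fun t => P.r ρ0 m t + m) (P.d.R k b) (K * σ) := by
      rw [hK]
      exact Bd.margin hm (fun t => by linarith) (DHH.bR k b)
    have h3 := comp_sub_bd (k := 0) (ζ' := 0) hch hch0 h1
      (fun a => Bd.zero _ _ (by positivity)) (by
        have e : 2 * lam * (1 / (256 * lam * (1 + 1 / m))) = 1 / (128 * (1 + 1 / m)) := by
          field_simp
          norm_num
        rw [e, div_le_iff₀ (by positivity)]
        have e2 : m * (128 * (1 + 1 / m)) = 128 * m + 128 := by field_simp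
        rw [e2]
        linarith)
      (e := y) (fun a => by
        have h4 := (hy a).weaken (k' := 0) (by norm_num) (fun _ => le_rfl)
        simpa using h4)
      (f := P.d.R k b) (c := K * σ) (by simpa using h2)
    rw [comp_id] at h3
    exact h3.to_cr hrr
  have hR0 : ∀ b, Bd 0 (cr (ρ0 - m)) (P.d.R k b) σ := fun b =>
    (DHH.bR k b).weaken le_rfl (fun t => by
      have := hrr t
      simp only [cr]
      linarith)
  have hsum : mulT (RR P.d ζ) (MM P.d ζ) k l - ∑ b, P.d.R k b * M0 l b =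
      ∑ b, ((RR P.d ζ k b - P.d.R k b) * MM P.d ζ l b +
        P.d.R k b * (MM P.d ζ l b - M0 l b)) := by
    unfold mulT
    rw [← Finset.sum_sub_distrib]
    exact Finset.sum_congr rfl fun b _ => by ring
  rw [hsum]
  have hterm : ∀ b ∈ (Finset.univ : Finset (Fin 2)), Bd 0 (cr (ρ0 - m))
      ((RR P.d ζ k b - P.d.R k b) * MM P.d ζ l b + P.d.R k b * (MM P.d ζ l b - M0 l b))
      (2 * lam * y * (K * σ) * 2 + σ * e1) := fun b _ =>
    Bd.add (Bd.mul hr (hRd b) (hMM l b)) (Bd.mul hr (hR0 b) (hδ l b))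
  refine (Bd.sum _ hterm).mono (le_of_eq ?_)
  rw [Fin.sum_univ_two]
  ring

/-- Averaged identity.  `Hb` is the length of the block containing the sub-block. -/
theorem avg_id (H : SBH P lam g σ ρ c A ρ0 m w η)
    (S : SB0 P lam g ρ0 m w ζ E W a q) (R : SBR P (10 ^ 7) lam g ρ0 m w η ζ E W a q)
    {Hb : ℝ} (hHb : P.tb - P.ta ≤ Hb) (hh : 10 ^ 12 * (1 + 1 / m) ^ 5 * Hb * g ≤ 1)
    {Ψa φ π : WT} {ψa y : ℝ}
    (hφ : Bd 0 (P.r ρ0 m) φ (256 * (1 + 1 / m) * g * ψa + 10 ^ 4 * w ^ 2))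
    (hπ : Bd 0 (P.r ρ0 m) π (256 * (1 + 1 / m) * g * ψa + 10 ^ 4 * w ^ 2))
    (hΨ : Bd 0 (P.r ρ0 m) (Ψa + intg P.ta P.tb φ) (2 * ψa + 18000 * (P.tb - P.ta) * w ^ 2))
    (hid : ∀ j, mulv (FF P.d ζ) (fun k => dp P.d.κ k φ) j + gradT P.d.κ (MM P.d ζ) π j =
        dvm P.d.κ (Sm P ζ E W (Ψa + intg P.ta P.tb φ)) j)
    (hψa : ψa ≤ 10 ^ 6 * Hb * w ^ 2) (hy : ∀ j, Bd 1 (P.r ρ0 m) (ζ j) y)
    (hy' : lam * y ≤ 10 ^ 9 * (1 + 1 / m) ^ 2 * Hb * g)
    {ξ0 : Vec} (tξ : ∀ j t₀, frz t₀ (ξ0 j) = ξ0 j)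
    (hF0 : ∀ k l, Bd 0 (cr (ρ0 - m)) (Fm P.d.κ ξ0 k l - idm k l) (1 / 50))
    (hδ : ∀ k l, Bd 0 (cr (ρ0 - m)) (FF P.d ζ k l - Fm P.d.κ ξ0 k l)
      (200 * (1 + 1 / m) * Hb * g)) :
    ∃ Er : Mat, (∀ k l, Bd 0 (cr (ρ0 - m)) (Er k l) ((P.tb - P.ta) * w ^ 2 *
        (10 ^ 11 * (1 + 1 / m) ^ 4 * Hb * g + 10 * (1 + 1 / m) ^ 2 * (lam / P.L) ^ 2))) ∧
      ∀ j, mulv (Fm P.d.κ ξ0) (fun k => dp P.d.κ k (frz P.tb (intg P.ta P.tb φ))) j +
          gradT P.d.κ (adj (Fm P.d.κ ξ0)) (frz P.tb (intg P.ta P.tb π)) j =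
        dvm P.d.κ (fun k l => mainS P (Fm P.d.κ ξ0) k l + Er k l) j := by
  have hm := H.hm
  have hm1 := H.hm1
  have hw := H.hw
  have DHH := H.dh
  have hZ : ZH lam m (P.r ρ0 m) ζ := R.nζ'
  have hab : P.ta < P.tb := by linarith [H.h1, H.h2, H.h3]
  obtain ⟨K, hK⟩ : ∃ K, K = 1 + 1 / m := ⟨_, rfl⟩
  have hK2 : 2 ≤ K := by rw [hK]; exact DHH.K2
  have hK1 : 1 ≤ K := by linarith
  obtain ⟨h, hh'⟩ : ∃ h, h = P.tb - P.ta := ⟨_, rfl⟩
  have hh0 : 0 < h := by rw [hh']; linarith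
  rw [← hh'] at hHb
  have hHb0 : 0 < Hb := by linarith
  have hg0 : 0 ≤ g := DHH.hg
  have hlam := H.hlam
  have hlam0 : 0 < lam := by linarith
  have hσ0 := H.hσ0
  have hσ := H.hσ
  have hlw := H.hlw
  have hρ1 : 0 ≤ ρ0 - m := by linarith [H.hρ0]
  have hrr : ∀ t, ρ0 - m ≤ P.r ρ0 m t := fun t => le_rad hab hm.le t
  have hr : ∀ t, 0 ≤ cr (ρ0 - m) t := fun t => hρ1
  have cv : ∀ {f : WT} {c : ℝ} {k : ℕ}, Bd k (P.r ρ0 m) f c → Bd 0 (cr (ρ0 - m)) f c :=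
    fun hf => (hf.weaken (Nat.zero_le _) (fun _ => le_rfl)).to_cr hrr
  have hL0 : (0 : ℝ) < P.L := lt_of_lt_of_le (by positivity) H.hL
  -- bounds
  have hFFi : ∀ a b, Bd 0 (cr (ρ0 - m)) (FF P.d ζ a b - idm a b) (3 / 250) := fun a b =>
    cv (DHH.bd_FF0 hZ a b)
  have hMMi : ∀ a b, Bd 0 (cr (ρ0 - m)) (MM P.d ζ a b - idm a b) (3 / 250) := fun a b =>
    cv (DHH.bd_MM0 hZ a b)
  have hFF2 := XAvg_near hFFi
  have hMM2 := XAvg_near hMMi
  have hy0 : 0 ≤ y := (hy 0).nonneg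
  set δF : ℝ := 200 * K * Hb * g with hδF
  have hδF0 : 0 ≤ δF := by positivity
  have hδ' : ∀ k l, Bd 0 (cr (ρ0 - m)) (FF P.d ζ k l - Fm P.d.κ ξ0 k l) δF := by
    rw [hδF, hK]; exact hδ
  have hδM : ∀ k l, Bd 0 (cr (ρ0 - m)) (MM P.d ζ k l - adj (Fm P.d.κ ξ0) k l) δF := fun k l =>
    XAvg_adj_sub hδ' k l
  obtain ⟨d, hd'⟩ : ∃ d, d = 10 ^ 7 * K ^ 4 * h * g * w := ⟨_, rfl⟩
  have hdW : ∀ j, Bd 0 (cr (ρ0 - m)) (W j - cst P.χ * P.W0 j) d := fun j => by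
    have h1 := cv (R.nWW j)
    rw [hd', hK, hh']
    exact h1
  have hW0 : ∀ j, Bd 0 (cr (ρ0 - m)) (P.W0 j) (32 * w) := fun j => cv (W0_bd0 H j)
  have hW : ∀ j, Bd 0 (cr (ρ0 - m)) (W j) (33 * w) := by
    intro j
    have h1 := cv (S.nW j)
    have h2 := Bd.cst_mul (XAvg_chi P) (hW0 j)
    have h3 := h1.add h2
    rw [sub_add_cancel] at h3
    exact h3.mono (by linarith)
  have hwave := XAvg_wave H S hρ1 hK hFF2 hδ' hW hW0 hdW
  have hstress := XAvg_stress H hρ1 hK hZ hy hMM2 hδM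
  -- size of the potentials
  obtain ⟨u, hu⟩ : ∃ u, u = Hb * g * w ^ 2 := ⟨_, rfl⟩
  have hu0 : 0 ≤ u := by rw [hu]; positivity
  have hKHg : 256 * K * g * ψa ≤ w ^ 2 := by
    have h1 : 10 ^ 12 * K ^ 5 * Hb * g ≤ 1 := by rw [hK]; exact hh
    have h2 : K ≤ K ^ 5 := by
      calc K = K ^ 1 := (pow_one K).symm
        _ ≤ K ^ 5 := pow_le_pow_right₀ hK1 (by norm_num)
    have h3 : K * (Hb * g) ≤ K ^ 5 * (Hb * g) := mul_le_mul_of_nonneg_right h2 (by positivity)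
    have h4 : 256 * K * g * ψa ≤ 256 * K * g * (10 ^ 6 * Hb * w ^ 2) :=
      mul_le_mul_of_nonneg_left hψa (by positivity)
    have h5 : 256 * K * g * (10 ^ 6 * Hb * w ^ 2) = 256 * 10 ^ 6 * (K * (Hb * g)) * w ^ 2 := by
      ring
    have h6 : 256 * 10 ^ 6 * (K * (Hb * g)) ≤ 1 := by nlinarith
    rw [h5] at h4
    nlinarith [sq_nonneg w]
  have bφ : Bd 0 (cr (ρ0 - m)) φ (20000 * w ^ 2) := by
    refine (cv hφ).mono ?_
    rw [← hK]
    nlinarith [sq_nonneg w]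
  have bπ : Bd 0 (cr (ρ0 - m)) π (20000 * w ^ 2) := by
    refine (cv hπ).mono ?_
    rw [← hK]
    nlinarith [sq_nonneg w]
  have bΨ : Bd 0 (cr (ρ0 - m)) (Ψa + intg P.ta P.tb φ) (3 * 10 ^ 6 * Hb * w ^ 2) := by
    refine (cv hΨ).mono ?_
    rw [← hh']
    have h1 : h * w ^ 2 ≤ Hb * w ^ 2 := mul_le_mul_of_nonneg_right hHb (sq_nonneg w)
    nlinarith
  obtain ⟨Ψ, hΨdef⟩ : ∃ Ψ, Ψ = Ψa + intg P.ta P.tb φ := ⟨_, rfl⟩
  rw [← hΨdef] at bΨ hid
  have hTA1 : ∀ k l, Bd 0 (cr (ρ0 - m)) (TA P.d.κ Ψ (vz P.d ζ) k l)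
      (3 * 10 ^ 6 * Hb * w ^ 2 * (2 * g)) := fun k l =>
    XAvg_TA hr bΨ (fun b => by rw [grad_vz H S k b]; exact cv (DHH.bd_LL0 hZ k b)) l
  have hTA2 : ∀ k l, Bd 0 (cr (ρ0 - m)) (TA P.d.κ Ψ (mulv (FF P.d ζ) E) k l)
      (3 * 10 ^ 6 * Hb * w ^ 2 * (lam * (6 * K * (2 * w)))) := fun k l =>
    XAvg_TA hr bΨ (fun b => by
      have h1 := DHH.mulv_F1 hZ (x := E) (e := 2 * w) (fun j => R.nE' j) k
      rw [← hK] at h1
      exact cv (Bd.D DHH.kb b h1)) l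
  have hTF : ∀ k l, Bd 0 (cr (ρ0 - m))
      (TF (fun a b => FF P.d ζ a b - Fm P.d.κ ξ0 a b) φ k l) (δF * (20000 * w ^ 2)) := by
    intro k l
    unfold TF
    split_ifs
    · exact Bd.mul hr (hδ' k 1) bφ
    · exact (Bd.mul hr (hδ' k 0) bφ).neg
  have hTM : ∀ k l, Bd 0 (cr (ρ0 - m))
      (TM (fun a b => MM P.d ζ a b - adj (Fm P.d.κ ξ0) a b) π k l) (δF * (20000 * w ^ 2)) := by
    intro k l
    unfold TM
    exact Bd.mul hr (hδM l k) bπ
  -- frozen objects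
  have fF : ∀ t₀ a b, frz t₀ (Fm P.d.κ ξ0 a b) = Fm P.d.κ ξ0 a b := fun t₀ a b =>
    XAvg_frz_Fm tξ t₀ a b
  have fM : ∀ t₀ a b, frz t₀ (adj (Fm P.d.κ ξ0) a b) = adj (Fm P.d.κ ξ0) a b := fun t₀ a b =>
    XAvg_frz_adj fF t₀ a b
  have fG : ∀ k l t₀, frz t₀ (kp P.k0 l • (P.b * P.b * ∑ b, kp P.k0 b • Fm P.d.κ ξ0 k b)) =
      kp P.k0 l • (P.b * P.b * ∑ b, kp P.k0 b • Fm P.d.κ ξ0 k b) := by
    intro k l t₀
    have h1 := H.bt t₀
    have h2 := fF t₀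
    unfold frz at h1 h2 ⊢
    rw [tcomp_smul, tcomp_mul, tcomp_mul, tcomp_sum, h1]
    congr 2
    refine Finset.sum_congr rfl fun b _ => ?_
    rw [tcomp_smul, h2]
  have hmain : ∀ k l, mainS P (Fm P.d.κ ξ0) k l = -XAvg_J P.ta P.tb (cst P.χ * cst P.χ *
      (kp P.k0 l • (P.b * P.b * ∑ b, kp P.k0 b • Fm P.d.κ ξ0 k b))) -
      XAvg_J P.ta P.tb (∑ b, P.d.R k b * adj (Fm P.d.κ ξ0) l b) := by
    intro k l
    unfold mainS mulT
    rw [mul_comm (cst P.χ * cst P.χ), XAvg_J_mul (fG k l), XAvg_om P hab.le, XAvg_J_sum]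
    have h1 : ∀ b, XAvg_J P.ta P.tb (P.d.R k b * adj (Fm P.d.κ ξ0) l b) =
        frz P.tb (intg P.ta P.tb (P.d.R k b)) * adj (Fm P.d.κ ξ0) l b := by
      intro b
      rw [mul_comm, XAvg_J_mul (fun t₀ => fM t₀ l b), mul_comm]
      rfl
    simp only [h1]
    rw [mul_smul_comm, mul_one, smul_smul]
  -- the error
  obtain ⟨X, hX⟩ : ∃ X : Mat, X = fun k l => Sm P ζ E W Ψ k l -
      TF (fun a b => FF P.d ζ a b - Fm P.d.κ ξ0 a b) φ k l -
      TM (fun a b => MM P.d ζ a b - adj (Fm P.d.κ ξ0) a b) π k l := ⟨_, rfl⟩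
  refine ⟨fun k l => XAvg_J P.ta P.tb (X k l) - mainS P (Fm P.d.κ ξ0) k l, fun k l => ?_,
    fun j => ?_⟩
  · have hEr : XAvg_J P.ta P.tb (X k l) - mainS P (Fm P.d.κ ξ0) k l = XAvg_J P.ta P.tb
        (-(TA P.d.κ Ψ (vz P.d ζ) k l + TA P.d.κ Ψ (vz P.d ζ) k l) -
          TA P.d.κ Ψ (mulv (FF P.d ζ) E) k l -
          (mean P.d.i (mulv (FF P.d ζ) W k * W l) - cst P.χ * cst P.χ *
            (kp P.k0 l • (P.b * P.b * ∑ b, kp P.k0 b • Fm P.d.κ ξ0 k b))) -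
          (mulT (RR P.d ζ) (MM P.d ζ) k l - ∑ b, P.d.R k b * adj (Fm P.d.κ ξ0) l b) -
          TF (fun a b => FF P.d ζ a b - Fm P.d.κ ξ0 a b) φ k l -
          TM (fun a b => MM P.d ζ a b - adj (Fm P.d.κ ξ0) a b) π k l) := by
      have e : -(TA P.d.κ Ψ (vz P.d ζ) k l + TA P.d.κ Ψ (vz P.d ζ) k l) -
          TA P.d.κ Ψ (mulv (FF P.d ζ) E) k l -
          (mean P.d.i (mulv (FF P.d ζ) W k * W l) - cst P.χ * cst P.χ *
            (kp P.k0 l • (P.b * P.b * ∑ b, kp P.k0 b • Fm P.d.κ ξ0 k b))) -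
          (mulT (RR P.d ζ) (MM P.d ζ) k l - ∑ b, P.d.R k b * adj (Fm P.d.κ ξ0) l b) -
          TF (fun a b => FF P.d ζ a b - Fm P.d.κ ξ0 a b) φ k l -
          TM (fun a b => MM P.d ζ a b - adj (Fm P.d.κ ξ0) a b) π k l =
          X k l + cst P.χ * cst P.χ *
            (kp P.k0 l • (P.b * P.b * ∑ b, kp P.k0 b • Fm P.d.κ ξ0 k b)) +
            ∑ b, P.d.R k b * adj (Fm P.d.κ ξ0) l b := by
        rw [hX]
        unfold Sm
        ring
      rw [e, XAvg_J_add, XAvg_J_add, hmain]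
      ring
    change Bd 0 (cr (ρ0 - m)) (XAvg_J P.ta P.tb (X k l) - mainS P (Fm P.d.κ ξ0) k l) _
    rw [hEr]
    have hb := ((((((hTA1 k l).add (hTA1 k l)).neg.sub (hTA2 k l)).sub (hwave k l)).sub
      (hstress k l)).sub (hTF k l)).sub (hTM k l)
    refine (XAvg_J_bd hab.le hb).mono ?_
    rw [mul_assoc (P.tb - P.ta)]
    refine mul_le_mul_of_nonneg_left ?_ (by linarith)
    rw [← hK]
    have p1 : K ≤ K ^ 4 := by
      calc K = K ^ 1 := (pow_one K).symm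
        _ ≤ K ^ 4 := pow_le_pow_right₀ hK1 (by norm_num)
    have p3 : K ^ 3 ≤ K ^ 4 := pow_le_pow_right₀ hK1 (by norm_num)
    have p0 : 1 ≤ K ^ 4 := one_le_pow₀ hK1
    have q1 : K * u ≤ K ^ 4 * u := mul_le_mul_of_nonneg_right p1 hu0
    have q0 : 1 * u ≤ K ^ 4 * u := mul_le_mul_of_nonneg_right p0 hu0
    have q3 : K ^ 3 * u ≤ K ^ 4 * u := mul_le_mul_of_nonneg_right p3 hu0
    have hHg : 0 ≤ Hb * g := by positivity
    -- the terms
    have t1 : 3 * 10 ^ 6 * Hb * w ^ 2 * (2 * g) = 6 * 10 ^ 6 * u := by rw [hu]; ring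
    have t2 : 3 * 10 ^ 6 * Hb * w ^ 2 * (lam * (6 * K * (2 * w))) ≤ 36 * 10 ^ 6 * (K * u) := by
      have h1 : lam * (6 * K * (2 * w)) = 12 * K * (lam * w) := by ring
      have h2 : 12 * K * (lam * w) ≤ 12 * K * g := mul_le_mul_of_nonneg_left hlw (by positivity)
      rw [h1]
      refine (mul_le_mul_of_nonneg_left h2 (by positivity)).trans (le_of_eq ?_)
      rw [hu]; ring
    have t3 : δF * (4 * w ^ 2) = 800 * (K * u) := by rw [hδF, hu]; ring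
    have t4 : 65 * w * d ≤ 65 * 10 ^ 7 * (K ^ 4 * u) := by
      have h1 : h * (g * w ^ 2) ≤ Hb * (g * w ^ 2) := mul_le_mul_of_nonneg_right hHb (by positivity)
      have h2 : 65 * w * d = 65 * 10 ^ 7 * (K ^ 4 * (h * (g * w ^ 2))) := by rw [hd']; ring
      have h3 : u = Hb * (g * w ^ 2) := by rw [hu]; ring
      rw [h2, h3]
      exact mul_le_mul_of_nonneg_left (mul_le_mul_of_nonneg_left h1 (by positivity))
        (by norm_num)
    have t5 : 2 * lam * y * (K * σ) * 2 ≤ 4 * 10 ^ 9 * (K ^ 3 * u) := by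
      have h1 : 2 * lam * y * (K * σ) * 2 = 4 * K * ((lam * y) * σ) := by ring
      have hy'' : lam * y ≤ 10 ^ 9 * K ^ 2 * Hb * g := by rw [hK]; exact hy'
      have h2 : (lam * y) * σ ≤ (10 ^ 9 * K ^ 2 * Hb * g) * w ^ 2 :=
        mul_le_mul hy'' hσ hσ0 (by positivity)
      rw [h1]
      refine (mul_le_mul_of_nonneg_left h2 (by positivity)).trans (le_of_eq ?_)
      rw [hu]; ring
    have t6 : σ * δF ≤ 200 * (K * u) := by
      have h1 : σ * δF ≤ w ^ 2 * δF := mul_le_mul_of_nonneg_right hσ hδF0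
      refine h1.trans (le_of_eq ?_)
      rw [hδF, hu]; ring
    have t7 : δF * (20000 * w ^ 2) = 4 * 10 ^ 6 * (K * u) := by rw [hδF, hu]; ring
    have t8 : 0 ≤ (lam / P.L) ^ 2 * (K * w) ^ 2 := by positivity
    have t9 : w ^ 2 * (10 ^ 11 * K ^ 4 * Hb * g + 10 * K ^ 2 * (lam / P.L) ^ 2) =
        10 ^ 11 * (K ^ 4 * u) + 10 * ((lam / P.L) ^ 2 * (K * w) ^ 2) := by rw [hu]; ring
    rw [t9, t1, t3, t7]
    linarith
  · have hR : dvm P.d.κ (fun k l => mainS P (Fm P.d.κ ξ0) k l +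
        (XAvg_J P.ta P.tb (X k l) - mainS P (Fm P.d.κ ξ0) k l)) j =
        XAvg_J P.ta P.tb (dvm P.d.κ X j) := by
      rw [XAvg_J_dvm]
      congr 1
      funext k l
      ring
    rw [hR]
    have hφJ : frz P.tb (intg P.ta P.tb φ) = XAvg_J P.ta P.tb φ := rfl
    have hπJ : frz P.tb (intg P.ta P.tb π) = XAvg_J P.ta P.tb π := rfl
    rw [hφJ, hπJ, mulv_dp, gradT_eq_dvm]
    have h1 : TF (Fm P.d.κ ξ0) (XAvg_J P.ta P.tb φ) =
        fun k l => XAvg_J P.ta P.tb (TF (Fm P.d.κ ξ0) φ k l) := by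
      funext k l
      unfold TF
      split_ifs
      · rw [XAvg_J_mul (fun t₀ => fF t₀ k 1)]
      · rw [XAvg_J_neg, XAvg_J_mul (fun t₀ => fF t₀ k 0)]
    have h2 : TM (adj (Fm P.d.κ ξ0)) (XAvg_J P.ta P.tb π) =
        fun k l => XAvg_J P.ta P.tb (TM (adj (Fm P.d.κ ξ0)) π k l) := by
      funext k l
      unfold TM
      rw [XAvg_J_mul (fun t₀ => fM t₀ l k)]
    rw [h1, h2, ← XAvg_J_dvm, ← XAvg_J_dvm, ← XAvg_J_add]
    congr 1
    have h3 := hid j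
    have h4 : MM P.d ζ = adj (FF P.d ζ) := rfl
    rw [h4, FF_eq H S, mulv_dp, gradT_eq_dvm, ← FF_eq H S, ← h4] at h3
    rw [hX, dvm_sub P.d.κ (fun k l => Sm P ζ E W Ψ k l -
        TF (fun a b => FF P.d ζ a b - Fm P.d.κ ξ0 a b) φ k l)
        (TM (fun a b => MM P.d ζ a b - adj (Fm P.d.κ ξ0) a b) π),
      dvm_sub P.d.κ (Sm P ζ E W Ψ) (TF (fun a b => FF P.d ζ a b - Fm P.d.κ ξ0 a b) φ),
      TF_sub, TM_sub, dvm_sub, dvm_sub, ← h3]
    ring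

end

end ES
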