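import Pool.Agent.ES.XCal
import Pool.Agent.ES.SDer
import Pool.Agent.ES.LCompB
import Pool.Agent.ES.LCompC

/-!
ES-XComp: identities under the change of coordinates `id + ζ` (EW 1, 1.3).  `CH` from `DH.ch`,
`DH` from `SBH.dh`; finite norms at the radius `ρ ≥ r + 2m` from `good` (`Fin0 ρ`), and
`Bd.margin_all` for powers.
-/

open scoped BoundedContinuousFunction

namespace ES

section
variable {P : SB} {lam g σ ρ c A ρ0 m w η : ℝ} {ζ E W a q : Vec}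

/-! ### finite norms -/

/-- finite norm at the radius `r + m` -/
private def XComp_Q (P : SB) (ρ0 m : ℝ) (f : WT) : Prop :=
  ∃ c, Bd 0 (fun t => P.r ρ0 m t + m) f c

private theorem XComp_r_le (H : SBH P lam g σ ρ c A ρ0 m w η) (t : ℝ) : P.r ρ0 m t ≤ ρ0 :=
  rad_le H.good.ht H.hm.le t

private theorem XComp_r_nonneg (H : SBH P lam g σ ρ c A ρ0 m w η) (t : ℝ) :
    0 ≤ P.r ρ0 m t + m := by
  have h1 : ρ0 - m ≤ P.r ρ0 m t := le_rad H.good.ht H.hm.le t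
  have h2 := H.hρ0
  have h3 := H.hm
  linarith

private theorem XComp_rho (H : SBH P lam g σ ρ c A ρ0 m w η) : ∀ t, 0 ≤ cr ρ t := by
  intro t
  show 0 ≤ ρ
  have h1 := H.hρ0
  have h2 := H.hρ1
  have h3 := H.hm
  linarith

private theorem XComp_ZH (H : SBH P lam g σ ρ c A ρ0 m w η)
    (S : SB0 P lam g ρ0 m w ζ E W a q) : ZH lam m (P.r ρ0 m) ζ := by
  intro j
  have h1 := S.nζ j
  have h2 : Bd 2 (P.r ρ0 m) (P.ζa j) (1 / (1024 * lam * (1 + 1 / m))) :=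
    (H.zb j).weaken le_rfl (fun t => XComp_r_le H t)
  have h3 := h1.add h2
  rw [sub_add_cancel] at h3
  refine h3.mono ?_
  have hm := H.hm
  have hl : 0 < lam := lt_of_lt_of_le one_pos H.hlam
  have hK : 0 < lam * (1 + 1 / m) := by positivity
  have e1 : 1 / (512 * lam * (1 + 1 / m)) = 1 / 512 * (1 / (lam * (1 + 1 / m))) := by
    field_simp
  have e2 : 1 / (1024 * lam * (1 + 1 / m)) = 1 / 1024 * (1 / (lam * (1 + 1 / m))) := by
    field_simp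
  have e3 : 1 / (256 * lam * (1 + 1 / m)) = 1 / 256 * (1 / (lam * (1 + 1 / m))) := by
    field_simp
  rw [e1, e2, e3]
  have h4 : 0 < 1 / (lam * (1 + 1 / m)) := by positivity
  linarith

private theorem XComp_CH (H : SBH P lam g σ ρ c A ρ0 m w η)
    (S : SB0 P lam g ρ0 m w ζ E W a q) : CH P.d.κ lam m m (P.r ρ0 m) ζ :=
  DH.ch H.dh (XComp_ZH H S)

/-- finite norms of all orders at the radius `r + m` -/
private theorem XComp_all (H : SBH P lam g σ ρ c A ρ0 m w η) {f : WT} (hf : Fin0 ρ f) (n : ℕ) :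
    ∃ c', Bd n (fun t => P.r ρ0 m t + m) f c' := by
  obtain ⟨e, he⟩ := hf
  refine Bd.margin_all (r₁ := cr ρ) H.hm (fun t => ?_) he
  have h1 := XComp_r_le H t
  have h2 := H.hρ1
  show P.r ρ0 m t + m + m ≤ ρ
  linarith

private theorem XComp_QF (H : SBH P lam g σ ρ c A ρ0 m w η) {f : WT} (hf : Fin0 ρ f) :
    XComp_Q P ρ0 m f := XComp_all H hf 0

private theorem XComp_QD (H : SBH P lam g σ ρ c A ρ0 m w η) {f : WT} (hf : Fin0 ρ f)
    (b : Fin 2) : XComp_Q P ρ0 m (D P.d.κ b f) := by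
  obtain ⟨e, he⟩ := XComp_all H hf 1
  exact ⟨_, Bd.D H.good.kb b he⟩

private theorem XComp_Qadd {f h : WT} (hf : XComp_Q P ρ0 m f) (hh : XComp_Q P ρ0 m h) :
    XComp_Q P ρ0 m (f + h) := by
  obtain ⟨e, he⟩ := hf
  obtain ⟨e', he'⟩ := hh
  exact ⟨_, he.add he'⟩

private theorem XComp_Qneg {f : WT} (hf : XComp_Q P ρ0 m f) : XComp_Q P ρ0 m (-f) := by
  obtain ⟨e, he⟩ := hf
  exact ⟨_, he.neg⟩

private theorem XComp_Qsub {f h : WT} (hf : XComp_Q P ρ0 m f) (hh : XComp_Q P ρ0 m h) :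
    XComp_Q P ρ0 m (f - h) := by
  obtain ⟨e, he⟩ := hf
  obtain ⟨e', he'⟩ := hh
  exact ⟨_, he.sub he'⟩

private theorem XComp_Qmul (H : SBH P lam g σ ρ c A ρ0 m w η) {f h : WT}
    (hf : XComp_Q P ρ0 m f) (hh : XComp_Q P ρ0 m h) : XComp_Q P ρ0 m (f * h) := by
  obtain ⟨e, he⟩ := hf
  obtain ⟨e', he'⟩ := hh
  exact ⟨_, he.mul (fun t => XComp_r_nonneg H t) he'⟩

private theorem XComp_add (H : SBH P lam g σ ρ c A ρ0 m w η)
    (S : SB0 P lam g ρ0 m w ζ E W a q) {f h : WT} (hf : XComp_Q P ρ0 m f)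
    (hh : XComp_Q P ρ0 m h) : comp P.d.κ ζ (f + h) = comp P.d.κ ζ f + comp P.d.κ ζ h := by
  obtain ⟨e, he⟩ := hf
  obtain ⟨e', he'⟩ := hh
  exact comp_add (XComp_CH H S) he he'

private theorem XComp_sub (H : SBH P lam g σ ρ c A ρ0 m w η)
    (S : SB0 P lam g ρ0 m w ζ E W a q) {f h : WT} (hf : XComp_Q P ρ0 m f)
    (hh : XComp_Q P ρ0 m h) : comp P.d.κ ζ (f - h) = comp P.d.κ ζ f - comp P.d.κ ζ h := by
  obtain ⟨e, he⟩ := hf
  obtain ⟨e', he'⟩ := hh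
  exact comp_sub (XComp_CH H S) he he'

private theorem XComp_neg (H : SBH P lam g σ ρ c A ρ0 m w η)
    (S : SB0 P lam g ρ0 m w ζ E W a q) {f : WT} (hf : XComp_Q P ρ0 m f) :
    comp P.d.κ ζ (-f) = -comp P.d.κ ζ f := by
  obtain ⟨e, he⟩ := hf
  exact comp_neg (XComp_CH H S) he

private theorem XComp_mul (H : SBH P lam g σ ρ c A ρ0 m w η)
    (S : SB0 P lam g ρ0 m w ζ E W a q) {f h : WT} (hf : XComp_Q P ρ0 m f)
    (hh : XComp_Q P ρ0 m h) : comp P.d.κ ζ (f * h) = comp P.d.κ ζ f * comp P.d.κ ζ h := by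
  obtain ⟨e, he⟩ := hf
  obtain ⟨e', he'⟩ := hh
  exact comp_mul (XComp_CH H S) he he'

private theorem XComp_finF (H : SBH P lam g σ ρ c A ρ0 m w η) (i j : Fin 2) :
    Fin0 ρ (P.d.F i j) := by
  have h1 : Bd 0 (cr ρ) (idm i j) 1 := by
    unfold idm
    split_ifs
    · exact Bd.one _ _
    · exact Bd.zero _ _ zero_le_one
  exact ⟨_, h1.add (H.good.bF i j)⟩

private theorem XComp_finM (H : SBH P lam g σ ρ c A ρ0 m w η) (i j : Fin 2) :
    Fin0 ρ (P.d.M i j) := by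
  have hF := fun i j => XComp_finF H i j
  have hn : ∀ i j, Fin0 ρ (-P.d.F i j) := fun i j => by
    obtain ⟨e, he⟩ := hF i j
    exact ⟨e, he.neg⟩
  unfold Dat.M adj
  split_ifs
  · exact hF 1 1
  · exact hn 0 1
  · exact hn 1 0
  · exact hF 0 0

/-- Chain rule in matrix form, for every `f` with finite norm at radius `ρ`. -/
theorem D_compF (H : SBH P lam g σ ρ c A ρ0 m w η) (S : SB0 P lam g ρ0 m w ζ E W a q) {f : WT}
    (hf : Fin0 ρ f) (b : Fin 2) :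
    D P.d.κ b (comp P.d.κ ζ f) = ∑ k, comp P.d.κ ζ (D P.d.κ k f) * Pm P.d ζ k b := by
  obtain ⟨e, he⟩ := XComp_all H hf 1
  rw [D_comp (XComp_CH H S) he b]
  have h1 : ∀ k, comp P.d.κ ζ (D P.d.κ k f) * Pm P.d ζ k b =
      comp P.d.κ ζ (D P.d.κ k f) * idm k b + comp P.d.κ ζ (D P.d.κ k f) * D P.d.κ b (ζ k) := by
    intro k
    unfold Pm Fm grad
    ring
  rw [Finset.sum_congr rfl (fun k _ => h1 k), Finset.sum_add_distrib]
  congr 1
  unfold idm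
  simp

theorem grad_vz (H : SBH P lam g σ ρ c A ρ0 m w η) (S : SB0 P lam g ρ0 m w ζ E W a q)
    (i b : Fin 2) : D P.d.κ b (vz P.d ζ i) = LL P.d ζ i b := by
  unfold vz LL
  rw [D_compF H S (H.good.fv i) b]
  rfl

private theorem XComp_compF (H : SBH P lam g σ ρ c A ρ0 m w η)
    (S : SB0 P lam g ρ0 m w ζ E W a q) (i j : Fin 2) :
    comp P.d.κ ζ (P.d.F i j) = idm i j + comp P.d.κ ζ (D P.d.κ j (P.d.ξ i)) := by
  have h := DH.comp_F H.dh (XComp_ZH H S) i j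
  have h2 : comp P.d.κ ζ (grad P.d.κ P.d.ξ i j) = comp P.d.κ ζ (D P.d.κ j (P.d.ξ i)) := rfl
  rw [← h2, ← h]
  ring

/-- `FF` is the deformation of the new coordinates. -/
theorem FF_eq (H : SBH P lam g σ ρ c A ρ0 m w η) (S : SB0 P lam g ρ0 m w ζ E W a q) :
    FF P.d ζ = Fm P.d.κ (nX P.d ζ) := by
  funext i b
  have h1 : FF P.d ζ i b = ∑ k, comp P.d.κ ζ (P.d.F i k) * Pm P.d ζ k b := rfl
  have h2 : Fm P.d.κ (nX P.d ζ) i b = idm i b + D P.d.κ b (ζ i + comp P.d.κ ζ (P.d.ξ i)) := rfl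
  rw [h1, h2, map_add, D_compF H S (H.good.fξ i) b]
  have h3 : ∀ k, comp P.d.κ ζ (P.d.F i k) * Pm P.d ζ k b =
      idm i k * Pm P.d ζ k b + comp P.d.κ ζ (D P.d.κ k (P.d.ξ i)) * Pm P.d ζ k b := by
    intro k
    rw [XComp_compF H S i k]
    ring
  rw [Finset.sum_congr rfl (fun k _ => h3 k), Finset.sum_add_distrib, ← add_assoc]
  congr 1
  have h4 : ∑ k, idm i k * Pm P.d ζ k b = Pm P.d ζ i b := by
    unfold idm
    simp
  rw [h4]
  rfl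

private theorem XComp_oscX (H : SBH P lam g σ ρ c A ρ0 m w η)
    (S : SB0 P lam g ρ0 m w ζ E W a q) (i : Fin 2) : osc P.d.i (nX P.d ζ i) = 0 := by
  refine Lev.osc le_rfl ?_
  unfold nX
  obtain ⟨e, he⟩ := XComp_QF H (H.good.fξ i)
  exact (S.lζ i).add (Lev.comp (XComp_CH H S) S.lζ he (H.good.levξ i))

/-- The same with the frequencies of the next level. -/
theorem FF_eq' (H : SBH P lam g σ ρ c A ρ0 m w η) (S : SB0 P lam g ρ0 m w ζ E W a q) :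
    FF P.d ζ = Fm P.κ' (nX P.d ζ) := by
  rw [FF_eq H S]
  funext i b
  show idm i b + D P.d.κ b (nX P.d ζ i) = idm i b + D P.κ' b (nX P.d ζ i)
  congr 1
  unfold SB.κ'
  exact (D_upd_of_osc P.d.κ P.d.i _ (fun a => H.good.k0 a P.d.i le_rfl) b
    (XComp_oscX H S i)).symm

private theorem XComp_FFmul :
    FF P.d ζ = mulM (fun i j => comp P.d.κ ζ (P.d.F i j)) (Pm P.d ζ) := rfl

theorem comp_det (H : SBH P lam g σ ρ c A ρ0 m w η) (S : SB0 P lam g ρ0 m w ζ E W a q)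
    (hP : det2 (Pm P.d ζ) = 1) : det2 (FF P.d ζ) = 1 := by
  rw [XComp_FFmul, det2_mulM, hP, mul_one]
  have hQ := fun i j => XComp_QF H (XComp_finF H i j)
  unfold det2
  rw [← XComp_mul H S (hQ 0 0) (hQ 1 1), ← XComp_mul H S (hQ 0 1) (hQ 1 0),
    ← XComp_sub H S (XComp_Qmul H (hQ 0 0) (hQ 1 1)) (XComp_Qmul H (hQ 0 1) (hQ 1 0))]
  have h1 : P.d.F 0 0 * P.d.F 1 1 - P.d.F 0 1 * P.d.F 1 0 = 1 := H.good.det
  rw [h1, comp_one (XComp_CH H S)]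

/-- `M' = adj P · M^ζ`. -/
theorem MM_eq (H : SBH P lam g σ ρ c A ρ0 m w η) (S : SB0 P lam g ρ0 m w ζ E W a q) :
    MM P.d ζ = mulM (adj (Pm P.d ζ)) (fun i j => comp P.d.κ ζ (P.d.M i j)) := by
  unfold MM
  rw [XComp_FFmul, adj_mulM]
  congr 1
  have hQ := fun i j => XComp_QF H (XComp_finF H i j)
  funext i j
  unfold Dat.M adj
  fin_cases i <;> fin_cases j
  · simp
  · simp [XComp_neg H S (hQ 0 1)]
  · simp [XComp_neg H S (hQ 1 0)]
  · simp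

/-- inversion of the matrix `P` -/
private theorem XComp_inv (hP : det2 (Pm P.d ζ) = 1) (x y : Vec) :
    ∑ k, (∑ i, adj (Pm P.d ζ) k i * x i) * (∑ l, y l * Pm P.d ζ l k) = ∑ i, x i * y i := by
  have h1 : Pm P.d ζ 0 0 * Pm P.d ζ 1 1 - Pm P.d ζ 0 1 * Pm P.d ζ 1 0 = 1 := hP
  simp only [Fin.sum_univ_two, adj, if_true, if_false, one_ne_zero, reduceIte]
  linear_combination (x 0 * y 0 + x 1 * y 1) * h1

/-- `(Mᵀ D p)^ζ = M'ᵀ D(p^ζ)`. -/
theorem comp_gradT (H : SBH P lam g σ ρ c A ρ0 m w η) (S : SB0 P lam g ρ0 m w ζ E W a q)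
    (hP : det2 (Pm P.d ζ) = 1) (j : Fin 2) :
    comp P.d.κ ζ (gradT P.d.κ P.d.M P.d.p j) =
      gradT P.d.κ (MM P.d ζ) (comp P.d.κ ζ P.d.p) j := by
  have hM := fun i j => XComp_QF H (XComp_finM H i j)
  have hp := fun k => XComp_QD H H.good.fp k
  have h1 : gradT P.d.κ P.d.M P.d.p j = ∑ k, P.d.M k j * D P.d.κ k P.d.p := rfl
  have h2 : gradT P.d.κ (MM P.d ζ) (comp P.d.κ ζ P.d.p) j =
      ∑ k, MM P.d ζ k j * D P.d.κ k (comp P.d.κ ζ P.d.p) := rfl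
  have h3 : comp P.d.κ ζ (∑ k, P.d.M k j * D P.d.κ k P.d.p) =
      ∑ k, comp P.d.κ ζ (P.d.M k j) * comp P.d.κ ζ (D P.d.κ k P.d.p) := by
    rw [Fin.sum_univ_two, Fin.sum_univ_two,
      XComp_add H S (XComp_Qmul H (hM 0 j) (hp 0)) (XComp_Qmul H (hM 1 j) (hp 1)),
      XComp_mul H S (hM 0 j) (hp 0), XComp_mul H S (hM 1 j) (hp 1)]
  rw [h1, h2, h3, ← XComp_inv hP (fun i => comp P.d.κ ζ (P.d.M i j))
    (fun l => comp P.d.κ ζ (D P.d.κ l P.d.p))]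
  refine Finset.sum_congr rfl fun k _ => ?_
  rw [D_compF H S H.good.fp k, MM_eq H S]
  rfl

private theorem XComp_finY (H : SBH P lam g σ ρ c A ρ0 m w η) (j l : Fin 2) :
    Fin0 ρ (mulT P.d.R P.d.M j l) := by
  have h1 : mulT P.d.R P.d.M j l = P.d.R j 0 * P.d.M l 0 + P.d.R j 1 * P.d.M l 1 := by
    unfold mulT
    rw [Fin.sum_univ_two]
  rw [h1]
  obtain ⟨e, he⟩ := XComp_finM H l 0
  obtain ⟨e', he'⟩ := XComp_finM H l 1
  exact ⟨_, ((H.good.bR j 0).mul (XComp_rho H) he).add ((H.good.bR j 1).mul (XComp_rho H) he')⟩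

/-- `(D·(R Mᵀ))^ζ = D·(R^ζ M'ᵀ)`. -/
theorem comp_dvm (H : SBH P lam g σ ρ c A ρ0 m w η) (S : SB0 P lam g ρ0 m w ζ E W a q)
    (hP : det2 (Pm P.d ζ) = 1) (j : Fin 2) :
    comp P.d.κ ζ (dvm P.d.κ (mulT P.d.R P.d.M) j) =
      dvm P.d.κ (mulT (RR P.d ζ) (MM P.d ζ)) j := by
  have hY := fun l => XComp_finY H j l
  have hQR : ∀ k, XComp_Q P ρ0 m (P.d.R j k) := fun k => XComp_QF H ⟨_, H.good.bR j k⟩
  have hQM := fun i j => XComp_QF H (XComp_finM H i j)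
  have h1 : comp P.d.κ ζ (dvm P.d.κ (mulT P.d.R P.d.M) j) =
      ∑ l, comp P.d.κ ζ (D P.d.κ l (mulT P.d.R P.d.M j l)) := by
    unfold dvm
    rw [Fin.sum_univ_two, Fin.sum_univ_two,
      XComp_add H S (XComp_QD H (hY 0) 0) (XComp_QD H (hY 1) 1)]
  have h2 : ∀ l, mulT (RR P.d ζ) (MM P.d ζ) j l =
      ∑ i, adj (Pm P.d ζ) l i * comp P.d.κ ζ (mulT P.d.R P.d.M j i) := by
    intro l
    have e1 : ∀ i, comp P.d.κ ζ (mulT P.d.R P.d.M j i) =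
        ∑ k, comp P.d.κ ζ (P.d.R j k) * comp P.d.κ ζ (P.d.M i k) := by
      intro i
      unfold mulT
      rw [Fin.sum_univ_two, Fin.sum_univ_two,
        XComp_add H S (XComp_Qmul H (hQR 0) (hQM i 0)) (XComp_Qmul H (hQR 1) (hQM i 1)),
        XComp_mul H S (hQR 0) (hQM i 0), XComp_mul H S (hQR 1) (hQM i 1)]
    have e2 : mulT (RR P.d ζ) (MM P.d ζ) j l = ∑ k, comp P.d.κ ζ (P.d.R j k) * MM P.d ζ l k := rfl
    have e3 : ∀ k, MM P.d ζ l k = ∑ i, adj (Pm P.d ζ) l i * comp P.d.κ ζ (P.d.M i k) := by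
      intro k
      rw [MM_eq H S]
      rfl
    rw [e2]
    simp only [e1, e3, Fin.sum_univ_two]
    ring
  have h3 : dvm P.d.κ (mulT (RR P.d ζ) (MM P.d ζ)) j =
      ∑ l, D P.d.κ l (∑ i, adj (Pm P.d ζ) l i * comp P.d.κ ζ (mulT P.d.R P.d.M j i)) := by
    unfold dvm
    exact Finset.sum_congr rfl fun l _ => by rw [h2 l]
  have hpi : ∀ i, ∑ l, D P.d.κ l (adj (Pm P.d ζ) l i) = 0 := fun i => piola P.d.κ ζ i
  rw [h1, h3]
  have h4 : ∀ l, D P.d.κ l (∑ i, adj (Pm P.d ζ) l i * comp P.d.κ ζ (mulT P.d.R P.d.M j i)) =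
      ∑ i, (D P.d.κ l (adj (Pm P.d ζ) l i) * comp P.d.κ ζ (mulT P.d.R P.d.M j i) +
        adj (Pm P.d ζ) l i *
          ∑ k, comp P.d.κ ζ (D P.d.κ k (mulT P.d.R P.d.M j i)) * Pm P.d ζ k l) := by
    intro l
    rw [map_sum]
    refine Finset.sum_congr rfl fun i _ => ?_
    rw [D_mul, D_compF H S (hY i) l]
  rw [Finset.sum_congr rfl (fun l _ => h4 l), Finset.sum_comm]
  have hdet : Pm P.d ζ 0 0 * Pm P.d ζ 1 1 - Pm P.d ζ 0 1 * Pm P.d ζ 1 0 = 1 := hP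
  have h5 : ∀ i, ∑ l, (D P.d.κ l (adj (Pm P.d ζ) l i) * comp P.d.κ ζ (mulT P.d.R P.d.M j i) +
        adj (Pm P.d ζ) l i *
          ∑ k, comp P.d.κ ζ (D P.d.κ k (mulT P.d.R P.d.M j i)) * Pm P.d ζ k l) =
      comp P.d.κ ζ (D P.d.κ i (mulT P.d.R P.d.M j i)) := by
    intro i
    rw [Finset.sum_add_distrib, ← Finset.sum_mul, hpi i, zero_mul, zero_add]
    fin_cases i
    · simp only [Fin.zero_eta, Fin.isValue, Fin.sum_univ_two, adj, if_true, if_false, one_ne_zero,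
        reduceIte]
      linear_combination (comp P.d.κ ζ (D P.d.κ 0 (mulT P.d.R P.d.M j 0))) * hdet
    · simp only [Fin.mk_one, Fin.isValue, Fin.sum_univ_two, adj, if_true, if_false, one_ne_zero,
        reduceIte]
      linear_combination (comp P.d.κ ζ (D P.d.κ 1 (mulT P.d.R P.d.M j 1))) * hdet
  rw [Finset.sum_congr rfl (fun i _ => h5 i)]

theorem comp_acc (H : SBH P lam g σ ρ c A ρ0 m w η) (S : SB0 P lam g ρ0 m w ζ E W a q)
    (hP : det2 (Pm P.d ζ) = 1) (j : Fin 2) :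
    comp P.d.κ ζ (P.d.acc j) = -gradT P.d.κ (MM P.d ζ) (comp P.d.κ ζ P.d.p) j +
      dvm P.d.κ (mulT (RR P.d ζ) (MM P.d ζ)) j := by
  have hQM := fun i j => XComp_QF H (XComp_finM H i j)
  have hp := fun k => XComp_QD H H.good.fp k
  have h1 : XComp_Q P ρ0 m (gradT P.d.κ P.d.M P.d.p j) := by
    have e : gradT P.d.κ P.d.M P.d.p j =
        P.d.M 0 j * D P.d.κ 0 P.d.p + P.d.M 1 j * D P.d.κ 1 P.d.p := by
      unfold gradT mulvT
      rw [Fin.sum_univ_two]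
    rw [e]
    exact XComp_Qadd (XComp_Qmul H (hQM 0 j) (hp 0)) (XComp_Qmul H (hQM 1 j) (hp 1))
  have h2 : XComp_Q P ρ0 m (dvm P.d.κ (mulT P.d.R P.d.M) j) := by
    unfold dvm
    rw [Fin.sum_univ_two]
    exact XComp_Qadd (XComp_QD H (XComp_finY H j 0) 0) (XComp_QD H (XComp_finY H j 1) 1)
  unfold Dat.acc
  rw [XComp_add H S (XComp_Qneg h1) h2, XComp_neg H S h1, comp_gradT H S hP, comp_dvm H S hP]

/-- `F^ζ B^ζ = v^ζ - U^ζ`. -/
theorem comp_FB (H : SBH P lam g σ ρ c A ρ0 m w η) (S : SB0 P lam g ρ0 m w ζ E W a q)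
    (j : Fin 2) :
    ∑ k, comp P.d.κ ζ (P.d.F j k) * comp P.d.κ ζ (P.d.B k) =
      comp P.d.κ ζ (P.d.v j) - comp P.d.κ ζ (P.d.U j) := by
  have hF := fun i j => XComp_QF H (XComp_finF H i j)
  have hB : ∀ k, XComp_Q P ρ0 m (P.d.B k) := fun k => XComp_QF H ⟨_, H.good.bB k⟩
  have h1 : mulv P.d.F P.d.B j = P.d.v j - P.d.U j := by
    have h := mulv_adj H.good.det (P.d.v - P.d.U) j
    exact h
  rw [Fin.sum_univ_two, ← XComp_mul H S (hF j 0) (hB 0), ← XComp_mul H S (hF j 1) (hB 1),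
    ← XComp_add H S (XComp_Qmul H (hF j 0) (hB 0)) (XComp_Qmul H (hF j 1) (hB 1)),
    ← XComp_sub H S (XComp_QF H (H.good.fv j)) (XComp_QF H (H.good.fU j)), ← h1]
  unfold mulv
  rw [Fin.sum_univ_two]

/-- `(∑ k, G_jk B_k)^ζ`. -/
theorem comp_adv (H : SBH P lam g σ ρ c A ρ0 m w η) (S : SB0 P lam g ρ0 m w ζ E W a q)
    (j : Fin 2) :
    comp P.d.κ ζ (adv P.d.κ P.d.B P.d.v j) =
      ∑ k, comp P.d.κ ζ (P.d.G j k) * comp P.d.κ ζ (P.d.B k) := by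
  have hB : ∀ k, XComp_Q P ρ0 m (P.d.B k) := fun k => XComp_QF H ⟨_, H.good.bB k⟩
  have hv := fun k => XComp_QD H (H.good.fv j) k
  have h1 : adv P.d.κ P.d.B P.d.v j = P.d.B 0 * D P.d.κ 0 (P.d.v j) +
      P.d.B 1 * D P.d.κ 1 (P.d.v j) := by
    unfold adv
    rw [Fin.sum_univ_two]
  have h2 : ∀ k, P.d.G j k = D P.d.κ k (P.d.v j) := fun _ => rfl
  rw [h1, XComp_add H S (XComp_Qmul H (hB 0) (hv 0)) (XComp_Qmul H (hB 1) (hv 1)),
    XComp_mul H S (hB 0) (hv 0), XComp_mul H S (hB 1) (hv 1), Fin.sum_univ_two, h2, h2]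
  ring

end

end ES
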