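import Pool.Agent.ES.XComp
import Pool.Agent.ES.SPost

/-!
ES-XDiv: divergence free properties and exactness of the algebraic relation (EW 2, Lemma 2.5).
-/

open scoped BoundedContinuousFunction

namespace ES

section
variable {P : SB} {lam g σ ρ c A ρ0 m w η : ℝ} {ζ E W a q : Vec}

private theorem XDiv_k0 (H : SBH P lam g σ ρ c A ρ0 m w η) : ∀ a, P.d.κ.k a P.d.i = 0 :=
  fun a => H.good.k0 a P.d.i le_rfl

private theorem XDiv_D' (H : SBH P lam g σ ρ c A ρ0 m w η) (b : Fin 2) {f : WT}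
    (hf : osc P.d.i f = 0) : D P.κ' b f = D P.d.κ b f :=
  D_upd_of_osc P.d.κ P.d.i _ (XDiv_k0 H) b hf

private theorem XDiv_mean_mulv {i : ℕ} {F : Mat} (hF : ∀ a b, osc i (F a b) = 0) (x : Vec)
    (j : Fin 2) : mean i (mulv F x j) = mulv F (fun k => mean i (x k)) j := by
  unfold mulv
  rw [map_sum]
  exact Finset.sum_congr rfl fun b _ => mean_mul_left i (hF j b) (x b)

private theorem XDiv_osc_mulv {i : ℕ} {F : Mat} (hF : ∀ a b, osc i (F a b) = 0) (x : Vec)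
    (j : Fin 2) : osc i (mulv F x j) = mulv F (fun k => osc i (x k)) j := by
  unfold mulv
  rw [map_sum]
  exact Finset.sum_congr rfl fun b _ => osc_mul_left i (hF j b) (x b)

private theorem XDiv_mean_mulvT {i : ℕ} {F : Mat} (hF : ∀ a b, osc i (F a b) = 0) (x : Vec)
    (j : Fin 2) : mean i (mulvT F x j) = mulvT F (fun k => mean i (x k)) j := by
  unfold mulvT
  rw [map_sum]
  exact Finset.sum_congr rfl fun b _ => mean_mul_left i (hF b j) (x b)

private theorem XDiv_osc_mulvT {i : ℕ} {F : Mat} (hF : ∀ a b, osc i (F a b) = 0) (x : Vec)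
    (j : Fin 2) : osc i (mulvT F x j) = mulvT F (fun k => osc i (x k)) j := by
  unfold mulvT
  rw [map_sum]
  exact Finset.sum_congr rfl fun b _ => osc_mul_left i (hF b j) (x b)

private theorem XDiv_osc_mulv0 {i : ℕ} {F : Mat} (hF : ∀ a b, osc i (F a b) = 0) {x : Vec}
    (hx : ∀ b, osc i (x b) = 0) (j : Fin 2) : osc i (mulv F x j) = 0 := by
  rw [XDiv_osc_mulv hF]
  simp [mulv, hx]

/-- transport with an osc-free second argument -/
private theorem XDiv_adv' (H : SBH P lam g σ ρ c A ρ0 m w η) (x : Vec) {y : Vec} (j : Fin 2)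
    (hy : osc P.d.i (y j) = 0) : adv P.κ' x y j = adv P.d.κ x y j := by
  unfold adv
  exact Finset.sum_congr rfl fun b _ => by rw [XDiv_D' H b hy]

private theorem XDiv_mean_adv {i : ℕ} (κ : Kp) (x : Vec) {y : Vec} (j : Fin 2)
    (hy : osc i (y j) = 0) : mean i (adv κ x y j) = adv κ (fun k => mean i (x k)) y j := by
  unfold adv
  rw [map_sum]
  refine Finset.sum_congr rfl fun b _ => ?_
  have h : osc i (D κ b (y j)) = 0 := by rw [osc_D, hy, map_zero]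
  rw [mul_comm, mean_mul_left i h, mul_comm]

private theorem XDiv_osc_adv {i : ℕ} (κ : Kp) (x : Vec) {y : Vec} (j : Fin 2)
    (hy : osc i (y j) = 0) : osc i (adv κ x y j) = adv κ (fun k => osc i (x k)) y j := by
  unfold adv
  rw [map_sum]
  refine Finset.sum_congr rfl fun b _ => ?_
  have h : osc i (D κ b (y j)) = 0 := by rw [osc_D, hy, map_zero]
  rw [mul_comm, osc_mul_left i h, mul_comm]

private theorem XDiv_adv_add_left (κ : Kp) (x x' y : Vec) (j : Fin 2) :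
    adv κ (fun k => x k + x' k) y j = adv κ x y j + adv κ x' y j := by
  unfold adv
  rw [← Finset.sum_add_distrib]
  exact Finset.sum_congr rfl fun b _ => add_mul _ _ _

private theorem XDiv_adv_add_right (κ : Kp) (x y y' : Vec) (j : Fin 2) :
    adv κ x (fun k => y k + y' k) j = adv κ x y j + adv κ x y' j := by
  unfold adv
  rw [← Finset.sum_add_distrib]
  exact Finset.sum_congr rfl fun b _ => by rw [map_add, mul_add]

private theorem XDiv_mulv_add (F : Mat) (x x' : Vec) (j : Fin 2) :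
    mulv F (fun k => x k + x' k) j = mulv F x j + mulv F x' j := by
  unfold mulv
  rw [← Finset.sum_add_distrib]
  exact Finset.sum_congr rfl fun b _ => mul_add _ _ _

private theorem XDiv_adv_zero (κ : Kp) {x : Vec} (y : Vec) (j : Fin 2) (hx : ∀ b, x b = 0) :
    adv κ x y j = 0 := by
  unfold adv
  exact Finset.sum_eq_zero fun b _ => by rw [hx b, zero_mul]

private theorem XDiv_Pnz_dp (κ : Kp) (a : Fin 2) (f : WT) : Pnz κ (dp κ a f) = dp κ a f := by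
  unfold dp
  by_cases h : a = 0
  · rw [if_pos h, LinearMap.neg_apply, map_neg, Pnz_D]
  · rw [if_neg h, Pnz_D]

private theorem XDiv_osc_of_mean {i : ℕ} {f : WT} (h : mean i f = 0) : osc i f = f := by
  have h1 := mean_add_osc i f
  rwa [h, zero_add] at h1

/-- `L'` is a transport term. -/
private theorem XDiv_LL (H : SBH P lam g σ ρ c A ρ0 m w η) (S : SB0 P lam g ρ0 m w ζ E W a q)
    (x : Vec) (j : Fin 2) : mulv (LL P.d ζ) x j = adv P.d.κ x (vz P.d ζ) j := by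
  unfold mulv adv
  exact Finset.sum_congr rfl fun b _ => by rw [grad_vz H S, mul_comm]

theorem div_a (S : SB0 P lam g ρ0 m w ζ E W a q) : dvg P.κ' a = 0 := by
  unfold dvg
  have h : ∀ j, D P.κ' j (a j) = ∑ b, D P.κ' j (Ps P.κ' j b (P.g ζ E W a q b)) := by
    intro j
    rw [← map_sum, ← S.sol.ha j]
  rw [Finset.sum_congr rfl fun j _ => h j, Finset.sum_comm]
  exact Finset.sum_eq_zero fun b _ => div_Ps P.κ' b _

theorem Pnz_a (S : SB0 P lam g ρ0 m w ζ E W a q) (j : Fin 2) : Pnz P.κ' (a j) = a j := by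
  have h : Pnz P.κ' (∑ b, Ps P.κ' j b (P.g ζ E W a q b)) =
      ∑ b, Ps P.κ' j b (P.g ζ E W a q b) := by
    rw [map_sum]
    exact Finset.sum_congr rfl fun b _ => Pnz_Ps _ _ _ _
  rwa [← S.sol.ha j] at h

theorem Pnz_q (S : SB0 P lam g ρ0 m w ζ E W a q) (j : Fin 2) : Pnz P.κ' (q j) = q j := by
  have h : Pnz P.κ' (∑ b, Pg P.κ' j b (P.g ζ E W a q b)) =
      ∑ b, Pg P.κ' j b (P.g ζ E W a q b) := by
    rw [map_sum]
    exact Finset.sum_congr rfl fun b _ => Pnz_Pg _ _ _ _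
  rwa [← S.sol.hq j] at h

/-- the mean of `a` is divergence free -/
private theorem XDiv_div_mean_a (H : SBH P lam g σ ρ c A ρ0 m w η)
    (S : SB0 P lam g ρ0 m w ζ E W a q) : dvg P.d.κ (fun j => mean P.d.i (a j)) = 0 := by
  have h1 : mean P.d.i (dvg P.κ' a) = 0 := by rw [div_a S, map_zero]
  unfold dvg at h1 ⊢
  rw [map_sum] at h1
  rw [← h1]
  refine Finset.sum_congr rfl fun j _ => ?_
  rw [mean_D, XDiv_D' H j (osc_mean _ _)]

private theorem XDiv_Pnz_mean_a (H : SBH P lam g σ ρ c A ρ0 m w η)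
    (S : SB0 P lam g ρ0 m w ζ E W a q) (j : Fin 2) :
    Pnz P.d.κ (mean P.d.i (a j)) = mean P.d.i (a j) := by
  have h1 : Pnz P.κ' (mean P.d.i (a j)) = mean P.d.i (a j) := by
    rw [← mean_Pnz, Pnz_a S]
  have h2 : Pnz P.κ' (mean P.d.i (a j)) = Pnz P.d.κ (mean P.d.i (a j)) :=
    Pnz_upd_of_osc P.d.κ P.d.i _ (XDiv_k0 H) (osc_mean _ _)
  exact h2.symm.trans h1

theorem div_E (H : SBH P lam g σ ρ c A ρ0 m w η) (S : SB0 P lam g ρ0 m w ζ E W a q) :
    dvg P.d.κ E = 0 := by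
  have h1 : dvg P.d.κ E = dvg P.d.κ P.Ea +
      intg P.ta P.tb (dvg P.d.κ (fun j => mean P.d.i (a j))) := by
    unfold dvg
    rw [map_sum, ← Finset.sum_add_distrib]
    refine Finset.sum_congr rfl fun j _ => ?_
    rw [intg_D, ← map_add, ← S.sol.hE j]
  rw [h1, H.ed, XDiv_div_mean_a H S, map_zero, add_zero]

theorem div_E' (H : SBH P lam g σ ρ c A ρ0 m w η) (S : SB0 P lam g ρ0 m w ζ E W a q) :
    dvg P.κ' E = 0 := by
  rw [← div_E H S]
  unfold dvg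
  exact Finset.sum_congr rfl fun j _ => XDiv_D' H j ((S.lE j).osc le_rfl)

theorem Pnz_E (H : SBH P lam g σ ρ c A ρ0 m w η) (S : SB0 P lam g ρ0 m w ζ E W a q) (j : Fin 2) :
    Pnz P.d.κ (E j) = E j := by
  have h1 : Pnz P.d.κ (intg P.ta P.tb (mean P.d.i (a j))) =
      intg P.ta P.tb (mean P.d.i (a j)) := by
    have h2 : intg P.ta P.tb (Pnz P.d.κ (mean P.d.i (a j))) =
        Pnz P.d.κ (intg P.ta P.tb (mean P.d.i (a j))) := intg_mlt _ _ _ _
    rw [← h2, XDiv_Pnz_mean_a H S]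
  rw [S.sol.hE j, map_add, H.ez j, h1]

theorem div_W (H : SBH P lam g σ ρ c A ρ0 m w η) (S : SB0 P lam g ρ0 m w ζ E W a q) :
    dvg P.κ' W = 0 := by
  have h1 : ∀ j, D P.κ' j (W j) = cst P.χ * (D P.κ' j (P.W0 j) +
      intg P.s1 P.s2 (osc P.d.i (D P.κ' j (a j)))) := by
    intro j
    have h2 : D P.κ' j (cst P.χ * (P.W0 j + intg P.s1 P.s2 (osc P.d.i (a j)))) =
        cst P.χ * D P.κ' j (P.W0 j + intg P.s1 P.s2 (osc P.d.i (a j))) := mlt_cst_mul _ _ _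
    rw [← S.sol.hW j] at h2
    rw [h2, map_add, osc_D, intg_D]
  have h3 : ∑ j, D P.κ' j (P.W0 j) = 0 := by
    have h4 : ∀ j, D P.κ' j (P.W0 j) = ((P.L : ℂ)⁻¹) • D P.κ' j (dp P.κ' j
        (((Real.sqrt 2 : ℝ) : ℂ) • (P.b * sn P.d.i))) := fun j => by
      unfold SB.W0
      rw [map_smul]
    rw [Finset.sum_congr rfl fun j _ => h4 j, ← Finset.smul_sum, div_dp, smul_zero]
  unfold dvg
  rw [Finset.sum_congr rfl fun j _ => h1 j, ← Finset.mul_sum, Finset.sum_add_distrib, h3, zero_add,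
    ← map_sum, ← map_sum]
  have h5 : ∑ j, D P.κ' j (a j) = 0 := div_a S
  rw [h5, map_zero, map_zero, mul_zero]

theorem Pnz_W (H : SBH P lam g σ ρ c A ρ0 m w η) (S : SB0 P lam g ρ0 m w ζ E W a q) (j : Fin 2) :
    Pnz P.κ' (W j) = W j := by
  have h2 : Pnz P.κ' (cst P.χ * (P.W0 j + intg P.s1 P.s2 (osc P.d.i (a j)))) =
      cst P.χ * Pnz P.κ' (P.W0 j + intg P.s1 P.s2 (osc P.d.i (a j))) := mlt_cst_mul _ _ _
  have h3 : Pnz P.κ' (P.W0 j) = P.W0 j := by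
    unfold SB.W0
    rw [map_smul, XDiv_Pnz_dp]
  have h4 : Pnz P.κ' (intg P.s1 P.s2 (osc P.d.i (a j))) = intg P.s1 P.s2 (osc P.d.i (a j)) := by
    have h5 : intg P.s1 P.s2 (Pnz P.κ' (osc P.d.i (a j))) =
        Pnz P.κ' (intg P.s1 P.s2 (osc P.d.i (a j))) := intg_mlt _ _ _ _
    rw [← h5, ← osc_Pnz, Pnz_a S]
  rw [map_add, h3, h4] at h2
  rwa [← S.sol.hW j] at h2

/-- `bet W = L k0·W`. -/
theorem bet_eq (H : SBH P lam g σ ρ c A ρ0 m w η) (S : SB0 P lam g ρ0 m w ζ E W a q) :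
    P.bet W = ∑ b, (((P.L : ℤ) * P.k0 b : ℤ) : ℂ) • W b := by
  have h1 : dvg P.d.κ W = -∑ b, (((P.L : ℤ) * P.k0 b : ℤ) : ℂ) • dth P.d.i (W b) := by
    have h2 := div_W H S
    unfold dvg at h2 ⊢
    have h3 : ∀ b, D P.κ' b (W b) = D P.d.κ b (W b) +
        (((P.L : ℤ) * P.k0 b : ℤ) : ℂ) • dth P.d.i (W b) := fun b =>
      D_upd P.d.κ P.d.i _ (XDiv_k0 H) b (W b)
    rw [Finset.sum_congr rfl fun b _ => h3 b, Finset.sum_add_distrib] at h2
    exact eq_neg_of_add_eq_zero_left h2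
  unfold SB.bet
  rw [h1, map_neg, neg_neg, map_sum]
  refine Finset.sum_congr rfl fun b _ => ?_
  rw [map_smul, ith_dth, XDiv_osc_of_mean (S.mW b)]

/-- The transport term with the full derivation. -/
theorem adv_W (H : SBH P lam g σ ρ c A ρ0 m w η) (S : SB0 P lam g ρ0 m w ζ E W a q) (y : Vec)
    (j : Fin 2) :
    adv P.κ' W y j = adv P.d.κ W y j + P.bet W * dth P.d.i (y j) := by
  rw [bet_eq H S, Finset.sum_mul]
  unfold adv
  rw [← Finset.sum_add_distrib]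
  refine Finset.sum_congr rfl fun b _ => ?_
  have h3 : D P.κ' b (y j) = D P.d.κ b (y j) +
      (((P.L : ℤ) * P.k0 b : ℤ) : ℂ) • dth P.d.i (y j) := D_upd P.d.κ P.d.i _ (XDiv_k0 H) b (y j)
  rw [h3, mul_add, smul_mul_assoc, mul_smul_comm]

/-- `f` with the full derivation. -/
theorem f_eq (H : SBH P lam g σ ρ c A ρ0 m w η) (S : SB0 P lam g ρ0 m w ζ E W a q) (j : Fin 2) :
    P.f ζ E W j = -(2 * mulv (LL P.d ζ) (fun k => E k + W k) j)
      - adv P.d.κ (fun k => E k + W k) (mulv (FF P.d ζ) E) j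
      - adv P.κ' W (mulv (FF P.d ζ) (fun k => E k + W k)) j
      - dvm P.d.κ (mulT (RR P.d ζ) (MM P.d ζ)) j := by
  rw [adv_W H S]
  have h1 : dth P.d.i (mulv (FF P.d ζ) (fun k => E k + W k) j) =
      mulv (FF P.d ζ) (fun c => dth P.d.i (E c + W c)) j := by
    unfold mulv
    rw [map_sum]
    refine Finset.sum_congr rfl fun b _ => ?_
    rw [dth_mul, dth_of_osc (((SB0.lev H S).1 j b).osc le_rfl), zero_mul, zero_add]
  rw [h1]
  rfl

private theorem XDiv_oscFF (H : SBH P lam g σ ρ c A ρ0 m w η)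
    (S : SB0 P lam g ρ0 m w ζ E W a q) : ∀ a b, osc P.d.i (FF P.d ζ a b) = 0 :=
  fun a b => ((SB0.lev H S).1 a b).osc le_rfl

private theorem XDiv_oscMM (H : SBH P lam g σ ρ c A ρ0 m w η)
    (S : SB0 P lam g ρ0 m w ζ E W a q) : ∀ a b, osc P.d.i (MM P.d ζ a b) = 0 :=
  fun a b => ((SB0.lev H S).2.1 a b).osc le_rfl

private theorem XDiv_oscvz (H : SBH P lam g σ ρ c A ρ0 m w η)
    (S : SB0 P lam g ρ0 m w ζ E W a q) : ∀ a, osc P.d.i (vz P.d ζ a) = 0 :=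
  fun a => ((SB0.lev H S).2.2.2.2 a).osc le_rfl

private theorem XDiv_oscRM (H : SBH P lam g σ ρ c A ρ0 m w η)
    (S : SB0 P lam g ρ0 m w ζ E W a q) : ∀ a b, osc P.d.i (mulT (RR P.d ζ) (MM P.d ζ) a b) = 0 := by
  intro a b
  unfold mulT
  rw [map_sum]
  exact Finset.sum_eq_zero fun k _ =>
    osc_mul_zero _ (((SB0.lev H S).2.2.2.1 a k).osc le_rfl) (XDiv_oscMM H S b k)

private theorem XDiv_oscE (S : SB0 P lam g ρ0 m w ζ E W a q) : ∀ a, osc P.d.i (E a) = 0 :=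
  fun a => (S.lE a).osc le_rfl

private theorem XDiv_oscFE (H : SBH P lam g σ ρ c A ρ0 m w η)
    (S : SB0 P lam g ρ0 m w ζ E W a q) : ∀ a, osc P.d.i (mulv (FF P.d ζ) E a) = 0 :=
  fun a => XDiv_osc_mulv0 (XDiv_oscFF H S) (XDiv_oscE S) a

private theorem XDiv_dvm' (H : SBH P lam g σ ρ c A ρ0 m w η) {X : Mat}
    (hX : ∀ a b, osc P.d.i (X a b) = 0) (j : Fin 2) : dvm P.κ' X j = dvm P.d.κ X j := by
  unfold dvm
  exact Finset.sum_congr rfl fun b _ => XDiv_D' H b (hX j b)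

private theorem XDiv_osc_dvm {X : Mat} {i : ℕ} (κ : Kp)
    (hX : ∀ a b, osc i (X a b) = 0) (j : Fin 2) : osc i (dvm κ X j) = 0 := by
  unfold dvm
  rw [map_sum]
  exact Finset.sum_eq_zero fun b _ => by rw [osc_D, hX j b, map_zero]

private theorem XDiv_div_EW (H : SBH P lam g σ ρ c A ρ0 m w η)
    (S : SB0 P lam g ρ0 m w ζ E W a q) : dvg P.κ' (fun k => E k + W k) = 0 := by
  have h1 := div_E' H S
  have h2 := div_W H S
  unfold dvg at h1 h2 ⊢
  simp only [map_add, Finset.sum_add_distrib, h1, h2, add_zero]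

theorem Pnz_f (H : SBH P lam g σ ρ c A ρ0 m w η) (S : SB0 P lam g ρ0 m w ζ E W a q) (j : Fin 2) :
    Pnz P.κ' (P.f ζ E W j) = P.f ζ E W j := by
  have hd := XDiv_div_EW H S
  have e1 : Pnz P.κ' (mulv (LL P.d ζ) (fun k => E k + W k) j) =
      mulv (LL P.d ζ) (fun k => E k + W k) j := by
    rw [XDiv_LL H S, ← XDiv_adv' H _ j (XDiv_oscvz H S j), Pnz_adv P.κ' hd]
  have e2 : Pnz P.κ' (adv P.d.κ (fun k => E k + W k) (mulv (FF P.d ζ) E) j) =
      adv P.d.κ (fun k => E k + W k) (mulv (FF P.d ζ) E) j := by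
    rw [← XDiv_adv' H _ j (XDiv_oscFE H S j), Pnz_adv P.κ' hd]
  have e3 : Pnz P.κ' (adv P.κ' W (mulv (FF P.d ζ) (fun k => E k + W k)) j) =
      adv P.κ' W (mulv (FF P.d ζ) (fun k => E k + W k)) j := Pnz_adv P.κ' (div_W H S) _ j
  have e4 : Pnz P.κ' (dvm P.d.κ (mulT (RR P.d ζ) (MM P.d ζ)) j) =
      dvm P.d.κ (mulT (RR P.d ζ) (MM P.d ζ)) j := by
    rw [← XDiv_dvm' H (XDiv_oscRM H S) j, Pnz_dvm]
  rw [f_eq H S j, two_mul]
  simp only [map_sub, map_neg, map_add, e1, e2, e3, e4]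

/-- `q` is the gradient of `pot q`. -/
theorem XDiv_q_eq_D_pot (S : SB0 P lam g ρ0 m w ζ E W a q) (j : Fin 2) :
    q j = D P.κ' j (pot P.κ' q) := by
  have h1 : ∀ j, q j = D P.κ' j (pot P.κ' (P.g ζ E W a q)) := by
    intro j
    rw [← Pg_eq_D_pot]
    exact S.sol.hq j
  have h2 : q = fun j => D P.κ' j (pot P.κ' (P.g ζ E W a q)) := funext h1
  have h3 : pot P.κ' q = Pnz P.κ' (pot P.κ' (P.g ζ E W a q)) := by
    rw [← pot_D, ← h2]
  rw [h3, D_Pnz]
  exact h1 j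

/-- The exact relation `F' a + M'ᵀ q = f`. -/
theorem F_a_M_q (H : SBH P lam g σ ρ c A ρ0 m w η) (S : SB0 P lam g ρ0 m w ζ E W a q)
    (j : Fin 2) : mulv (FF P.d ζ) a j + mulvT (MM P.d ζ) q j = P.f ζ E W j := by
  have h1 : a j + q j = Pnz P.κ' (P.g ζ E W a q j) := by
    rw [← Ps_add_Pg_vec, ← S.sol.ha j, ← S.sol.hq j]
  have h2 : Pnz P.κ' (mulv (FF P.d ζ) a j) = mulv (FF P.d ζ) a j := by
    rw [FF_eq' H S]
    exact Pnz_mulv P.κ' _ (div_a S) (Pnz_a S) j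
  have h3 : Pnz P.κ' (mulvT (MM P.d ζ) q j) = mulvT (MM P.d ζ) q j := by
    have h4 : mulvT (MM P.d ζ) q j = gradT P.κ' (adj (Fm P.κ' (nX P.d ζ))) (pot P.κ' q) j := by
      unfold gradT
      have h5 : (fun j => D P.κ' j (pot P.κ' q)) = q := funext fun j => (XDiv_q_eq_D_pot S j).symm
      rw [h5, ← FF_eq' H S]
      rfl
    rw [h4, gradT_eq_dvm, Pnz_dvm]
  have h6 : P.g ζ E W a q j =
      P.f ζ E W j - (mulv (FF P.d ζ) a j - a j) - (mulvT (MM P.d ζ) q j - q j) := rfl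
  rw [h6] at h1
  simp only [map_sub, Pnz_f H S, h2, h3, Pnz_a S, Pnz_q S] at h1
  linear_combination h1

theorem F_a_M_q_mean (H : SBH P lam g σ ρ c A ρ0 m w η) (S : SB0 P lam g ρ0 m w ζ E W a q)
    (j : Fin 2) :
    mulv (FF P.d ζ) (fun k => mean P.d.i (a k)) j + mulvT (MM P.d ζ) (fun k => mean P.d.i (q k)) j
      = mean P.d.i (P.f ζ E W j) := by
  rw [← F_a_M_q H S, map_add, XDiv_mean_mulv (XDiv_oscFF H S), XDiv_mean_mulvT (XDiv_oscMM H S)]

theorem F_a_M_q_osc (H : SBH P lam g σ ρ c A ρ0 m w η) (S : SB0 P lam g ρ0 m w ζ E W a q)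
    (j : Fin 2) :
    mulv (FF P.d ζ) (fun k => osc P.d.i (a k)) j + mulvT (MM P.d ζ) (fun k => osc P.d.i (q k)) j
      = osc P.d.i (P.f ζ E W j) := by
  rw [← F_a_M_q H S, map_add, XDiv_osc_mulv (XDiv_oscFF H S), XDiv_osc_mulvT (XDiv_oscMM H S)]

/-- `q` is the gradient of `pot q`. -/
theorem q_eq_D_pot (S : SB0 P lam g ρ0 m w ζ E W a q) (j : Fin 2) :
    q j = D P.κ' j (pot P.κ' q) := XDiv_q_eq_D_pot S j

theorem mean_q_eq (H : SBH P lam g σ ρ c A ρ0 m w η) (S : SB0 P lam g ρ0 m w ζ E W a q)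
    (j : Fin 2) :
    mean P.d.i (q j) = D P.d.κ j (pot P.d.κ (fun k => mean P.d.i (q k))) := by
  have h1 : ∀ k, mean P.d.i (q k) = D P.d.κ k (mean P.d.i (pot P.κ' q)) := by
    intro k
    rw [← XDiv_D' H k (osc_mean _ _), ← mean_D, ← XDiv_q_eq_D_pot S k]
  have h2 : (fun k => mean P.d.i (q k)) = fun k => D P.d.κ k (mean P.d.i (pot P.κ' q)) :=
    funext h1
  rw [h2, pot_D, D_Pnz]
  exact h1 j

theorem mean_a_eq (H : SBH P lam g σ ρ c A ρ0 m w η) (S : SB0 P lam g ρ0 m w ζ E W a q)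
    (j : Fin 2) :
    mean P.d.i (a j) = dp P.d.κ j (strm P.d.κ (fun k => mean P.d.i (a k))) :=
  eq_dp_strm P.d.κ (x := fun k => mean P.d.i (a k)) (XDiv_div_mean_a H S)
    (XDiv_Pnz_mean_a H S) j

/-- Oscillating part of `f` in terms of the new velocity: `-{f} = 2 (W·D) V + {(W·D')(F'W)}`. -/
theorem osc_f (H : SBH P lam g σ ρ c A ρ0 m w η) (S : SB0 P lam g ρ0 m w ζ E W a q) (j : Fin 2) :
    -osc P.d.i (P.f ζ E W j) = 2 * adv P.d.κ W (nV P.d ζ E) j +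
      osc P.d.i (adv P.κ' W (mulv (FF P.d ζ) W) j) := by
  have hEW : (fun k => osc P.d.i (E k + W k)) = W := by
    funext k
    rw [map_add, XDiv_oscE S k, XDiv_osc_of_mean (S.mW k), zero_add]
  have hWW : (fun k => osc P.d.i (W k)) = W := by
    funext k
    rw [XDiv_osc_of_mean (S.mW k)]
  have e1 : osc P.d.i (mulv (LL P.d ζ) (fun k => E k + W k) j) = adv P.d.κ W (vz P.d ζ) j := by
    rw [XDiv_LL H S, XDiv_osc_adv P.d.κ _ j (XDiv_oscvz H S j), hEW]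
  have e2 : osc P.d.i (adv P.d.κ (fun k => E k + W k) (mulv (FF P.d ζ) E) j) =
      adv P.d.κ W (mulv (FF P.d ζ) E) j := by
    rw [XDiv_osc_adv P.d.κ _ j (XDiv_oscFE H S j), hEW]
  have e3 : osc P.d.i (adv P.κ' W (mulv (FF P.d ζ) (fun k => E k + W k)) j) =
      adv P.d.κ W (mulv (FF P.d ζ) E) j + osc P.d.i (adv P.κ' W (mulv (FF P.d ζ) W) j) := by
    have h1 : mulv (FF P.d ζ) (fun k => E k + W k) =
        fun j => mulv (FF P.d ζ) E j + mulv (FF P.d ζ) W j :=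
      funext fun j => XDiv_mulv_add _ _ _ _
    rw [h1, XDiv_adv_add_right, map_add, XDiv_adv' H _ j (XDiv_oscFE H S j),
      XDiv_osc_adv P.d.κ _ j (XDiv_oscFE H S j), hWW]
  have e4 : osc P.d.i (dvm P.d.κ (mulT (RR P.d ζ) (MM P.d ζ)) j) = 0 :=
    XDiv_osc_dvm P.d.κ (XDiv_oscRM H S) j
  have e5 : adv P.d.κ W (nV P.d ζ E) j =
      adv P.d.κ W (vz P.d ζ) j + adv P.d.κ W (mulv (FF P.d ζ) E) j :=
    XDiv_adv_add_right _ _ _ _ _
  rw [f_eq H S j, e5, two_mul (mulv (LL P.d ζ) (fun k => E k + W k) j)]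
  simp only [map_sub, map_neg, map_add, e1, e2, e3, e4]
  ring

/-- Mean part of `f`: `⟨f⟩ = -2 (E·D) v^ζ - (E·D)(F'E) - D·⟨(F'W)⊗W⟩ - D·(R^ζ M'ᵀ)`. -/
theorem mean_f (H : SBH P lam g σ ρ c A ρ0 m w η) (S : SB0 P lam g ρ0 m w ζ E W a q) (j : Fin 2) :
    mean P.d.i (P.f ζ E W j) = -(2 * adv P.d.κ E (vz P.d ζ) j)
      - adv P.d.κ E (mulv (FF P.d ζ) E) j
      - dvm P.d.κ (fun k l => mean P.d.i (mulv (FF P.d ζ) W k * W l)) j
      - dvm P.d.κ (mulT (RR P.d ζ) (MM P.d ζ)) j := by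
  have hEW : (fun k => mean P.d.i (E k + W k)) = E := by
    funext k
    rw [map_add, mean_of_osc (XDiv_oscE S k), S.mW k, add_zero]
  have e1 : mean P.d.i (mulv (LL P.d ζ) (fun k => E k + W k) j) = adv P.d.κ E (vz P.d ζ) j := by
    rw [XDiv_LL H S, XDiv_mean_adv P.d.κ _ j (XDiv_oscvz H S j), hEW]
  have e2 : mean P.d.i (adv P.d.κ (fun k => E k + W k) (mulv (FF P.d ζ) E) j) =
      adv P.d.κ E (mulv (FF P.d ζ) E) j := by
    rw [XDiv_mean_adv P.d.κ _ j (XDiv_oscFE H S j), hEW]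
  have e3 : mean P.d.i (adv P.κ' W (mulv (FF P.d ζ) (fun k => E k + W k)) j) =
      dvm P.d.κ (fun k l => mean P.d.i (mulv (FF P.d ζ) W k * W l)) j := by
    have h1 : mulv (FF P.d ζ) (fun k => E k + W k) =
        fun j => mulv (FF P.d ζ) E j + mulv (FF P.d ζ) W j :=
      funext fun j => XDiv_mulv_add _ _ _ _
    have h2 : mean P.d.i (adv P.d.κ W (mulv (FF P.d ζ) E) j) = 0 := by
      rw [XDiv_mean_adv P.d.κ _ j (XDiv_oscFE H S j)]
      exact XDiv_adv_zero _ _ _ S.mW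
    rw [h1, XDiv_adv_add_right, map_add, XDiv_adv' H _ j (XDiv_oscFE H S j), h2, zero_add,
      adv_eq_dvm P.κ' (div_W H S)]
    unfold dvm
    rw [map_sum]
    refine Finset.sum_congr rfl fun b _ => ?_
    rw [mean_D, XDiv_D' H b (osc_mean _ _)]
    beta_reduce
    rw [mul_comm]
  have e4 : mean P.d.i (dvm P.d.κ (mulT (RR P.d ζ) (MM P.d ζ)) j) =
      dvm P.d.κ (mulT (RR P.d ζ) (MM P.d ζ)) j :=
    mean_of_osc (XDiv_osc_dvm P.d.κ (XDiv_oscRM H S) j)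
  rw [f_eq H S j, two_mul (mulv (LL P.d ζ) (fun k => E k + W k) j)]
  simp only [map_sub, map_neg, map_add, e1, e2, e3, e4]
  ring

end

end ES
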