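import Pool.Agent.ES.XDiv

/-!
ES-XEq: time derivatives and the momentum equation in the new coordinates (EW 2, Lemma 2.6).
-/

open scoped BoundedContinuousFunction

namespace ES

section
variable {P : SB} {lam g σ ρ c A ρ0 m w η : ℝ} {ζ E W a q : Vec}

private theorem XEq_lt (H : SBH P lam g σ ρ c A ρ0 m w η) : P.ta < P.tb :=
  H.h1.trans (H.h2.trans H.h3)

private theorem XEq_rm (H : SBH P lam g σ ρ c A ρ0 m w η) (t : ℝ) :
    P.r ρ0 m t + m + m ≤ ρ := by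
  have h := rad_le (ρ := ρ0) (XEq_lt H) H.hm.le t
  have h2 := H.hρ1
  unfold SB.r
  linarith

private theorem XEq_fin (H : SBH P lam g σ ρ c A ρ0 m w η) {f : WT} (hf : Fin0 ρ f) (n : ℕ) :
    ∃ c', Bd n (fun t => P.r ρ0 m t + m) f c' := by
  obtain ⟨c0, hc0⟩ := hf
  exact Bd.margin_all H.hm (XEq_rm H) hc0

private theorem XEq_const {s t : ℝ} {f : WT} (h : ∀ t₀, frz t₀ f = f) : TD s t f 0 := by
  have h1 := TD.frz s t 0 f
  rwa [h 0] at h1

private theorem XEq_id (x : Vec) (j : Fin 2) : ∑ k, idm j k * x k = x j := by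
  unfold idm
  simp only [ite_mul, one_mul, zero_mul, Finset.sum_ite_eq, Finset.mem_univ, if_true]

theorem td_ζ (S : SB0 P lam g ρ0 m w ζ E W a q) (H : SBH P lam g σ ρ c A ρ0 m w η) (j : Fin 2) :
    TD P.ta P.tb (ζ j) (dz P.d ζ E j) := by
  have h := (XEq_const (s := P.ta) (t := P.tb) (H.zt j)).add
    (TD.intg (a := P.ta) (b := P.tb) (comp P.d.κ ζ (P.d.B j) + mulv (Pm P.d ζ) E j))
  rw [zero_add, ← S.sol.hζ j] at h
  exact h

theorem td_E (S : SB0 P lam g ρ0 m w ζ E W a q) (H : SBH P lam g σ ρ c A ρ0 m w η) (j : Fin 2) :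
    TD P.ta P.tb (E j) (mean P.d.i (a j)) := by
  have h := (XEq_const (s := P.ta) (t := P.tb) (H.et j)).add
    (TD.intg (a := P.ta) (b := P.tb) (mean P.d.i (a j)))
  rw [zero_add, ← S.sol.hE j] at h
  exact h

/-- `∂_t ξ' = V`. -/
theorem td_nX (H : SBH P lam g σ ρ c A ρ0 m w η) (S : SB0 P lam g ρ0 m w ζ E W a q) (j : Fin 2) :
    TD P.ta P.tb (nX P.d ζ j) (nV P.d ζ E j) := by
  have hC := H.dh.ch (S.bh H).z
  obtain ⟨c1, h1⟩ := XEq_fin H (H.good.fξ j) 1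
  obtain ⟨c2, h2⟩ := XEq_fin H (H.good.fU j) 0
  have h3 := TD.comp hC h1 h2 (fun k => td_ζ S H k) (H.good.tdξ j)
  have h4 := (td_ζ S H j).add h3
  have hF : ∀ k, comp P.d.κ ζ (D P.d.κ k (P.d.ξ j)) = comp P.d.κ ζ (P.d.F j k) - idm j k :=
    fun k => (DH.comp_F H.dh (S.bh H).z j k).symm
  have hFB := comp_FB H S j
  have hid := XEq_id (dz P.d ζ E) j
  have e : dz P.d ζ E j + (comp P.d.κ ζ (P.d.U j) +
      ∑ k, comp P.d.κ ζ (D P.d.κ k (P.d.ξ j)) * dz P.d ζ E k) = nV P.d ζ E j := by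
    simp only [hF]
    have hn : nV P.d ζ E j = comp P.d.κ ζ (P.d.v j) +
        ∑ b, (∑ k, comp P.d.κ ζ (P.d.F j k) * Pm P.d ζ k b) * E b := rfl
    have hd : ∀ k, dz P.d ζ E k = comp P.d.κ ζ (P.d.B k) + ∑ b, Pm P.d ζ k b * E b := fun k => rfl
    rw [hn]
    simp only [sub_mul, Finset.sum_sub_distrib, hid]
    simp only [hd]
    simp only [Fin.sum_univ_two] at hFB ⊢
    linear_combination hFB
  rw [e] at h4
  exact h4

/-- `∂_t F' = D V`. -/
theorem td_FF (H : SBH P lam g σ ρ c A ρ0 m w η) (S : SB0 P lam g ρ0 m w ζ E W a q) (i j : Fin 2) :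
    TD P.ta P.tb (FF P.d ζ i j) (D P.d.κ j (nV P.d ζ E i)) := by
  have e := congrFun (congrFun (FF_eq H S) i) j
  rw [e]
  have h1 : TD P.ta P.tb (idm i j) 0 := by
    unfold idm
    split_ifs
    · exact TD.one _ _
    · exact TD.zero _ _
  have h2 := h1.add (TD.D P.d.κ j (td_nX H S i))
  rw [zero_add] at h2
  exact h2

/-- `∂_t v^ζ = acc^ζ + LL E`. -/
theorem td_vz (H : SBH P lam g σ ρ c A ρ0 m w η) (S : SB0 P lam g ρ0 m w ζ E W a q) (j : Fin 2) :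
    TD P.ta P.tb (vz P.d ζ j) (comp P.d.κ ζ (P.d.acc j) + mulv (LL P.d ζ) E j) := by
  have hC := H.dh.ch (S.bh H).z
  obtain ⟨c1, h1⟩ := XEq_fin H (H.good.fv j) 1
  obtain ⟨c3, h3⟩ := XEq_fin H ⟨A, H.good.bA j⟩ 0
  have hr0 : ∀ t, 0 ≤ P.r ρ0 m t + m := by
    intro t
    have h := H.dh.hr t
    have h2 := H.hm
    linarith
  obtain ⟨c4, h4⟩ : ∃ c', Bd 0 (fun t => P.r ρ0 m t + m) (adv P.d.κ P.d.B P.d.v j) c' := by
    have h5 : ∀ b, ∃ c', Bd 0 (fun t => P.r ρ0 m t + m)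
        (P.d.B b * D P.d.κ b (P.d.v j)) c' := by
      intro b
      obtain ⟨c5, h5⟩ := XEq_fin H ⟨g / lam, H.good.bB b⟩ 0
      obtain ⟨c6, h6⟩ := XEq_fin H ⟨g, H.good.bG j b⟩ 0
      exact ⟨_, Bd.mul hr0 h5 h6⟩
    choose cc hcc using h5
    exact ⟨_, Bd.sum Finset.univ (fun b _ => hcc b)⟩
  have h6 : Bd 0 (fun t => P.r ρ0 m t + m) (P.d.rhs j) (c3 + c4) := h3.sub h4
  have h7 := TD.comp hC h1 h6 (fun k => td_ζ S H k) (H.good.tdv j)
  have h8 : comp P.d.κ ζ (P.d.rhs j) = comp P.d.κ ζ (P.d.acc j) -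
      comp P.d.κ ζ (adv P.d.κ P.d.B P.d.v j) := comp_sub hC h3 h4
  have h9 := comp_adv H S j
  have e : comp P.d.κ ζ (P.d.rhs j) + ∑ k, comp P.d.κ ζ (D P.d.κ k (P.d.v j)) * dz P.d ζ E k =
      comp P.d.κ ζ (P.d.acc j) + mulv (LL P.d ζ) E j := by
    rw [h8, h9]
    have hG : ∀ k, comp P.d.κ ζ (D P.d.κ k (P.d.v j)) = comp P.d.κ ζ (P.d.G j k) := fun k => rfl
    have hL : mulv (LL P.d ζ) E j =
      ∑ b, (∑ k, comp P.d.κ ζ (P.d.G j k) * Pm P.d ζ k b) * E b := rfl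
    have hd : ∀ k, dz P.d ζ E k = comp P.d.κ ζ (P.d.B k) + ∑ b, Pm P.d ζ k b * E b := fun k => rfl
    rw [hL]
    simp only [hG, hd, Fin.sum_univ_two]
    ring
  rw [e] at h7
  exact h7

private theorem XEq_frz_mul (t : ℝ) (f h : WT) : frz t (f * h) = frz t f * frz t h :=
  tcomp_mul _ f h

private theorem XEq_frz_smul (t : ℝ) (c : ℂ) (f : WT) : frz t (c • f) = c • frz t f :=
  tcomp_smul _ c f

private theorem XEq_cst_co (φ : Ct) (f : WT) (ν : Gx) (t : ℝ) :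
    (cst φ * f).co ν t = φ t * f.co ν t := by
  rw [cst_mul_co]; rfl

private theorem XEq_W0 (H : SBH P lam g σ ρ c A ρ0 m w η) (j : Fin 2) (ν : Gx) (s t : ℝ) :
    (P.W0 j).co ν s = (P.W0 j).co ν t := by
  have hfr : frz t (P.W0 j) = P.W0 j := by
    have hdp : ∀ f : WT, frz t (dp P.κ' j f) = dp P.κ' j (frz t f) := by
      intro f
      unfold dp frz
      split_ifs
      · rw [LinearMap.neg_apply, LinearMap.neg_apply, tcomp_neg, tcomp_D]
      · rw [tcomp_D]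
    have heb : ∀ (g : C(ℝ, ℝ)) (ν' : Gx), tcomp g (eb ν') = eb ν' := by
      intro g ν'
      apply WT.ext
      funext μ
      ext s'
      rw [tcomp_co]
      have e : (eb ν').co μ = (Pi.single ν' (1 : Ct) : Gx → Ct) μ := rfl
      rw [e]
      by_cases hμ : μ = ν'
      · subst hμ
        rw [Pi.single_eq_same]
        rfl
      · rw [Pi.single_eq_of_ne hμ]
        rfl
    have hsn : frz t (sn P.d.i) = sn P.d.i := by
      unfold sn frz
      rw [tcomp_smul, tcomp_sub, heb, heb]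
    have hb := H.bt t
    unfold SB.W0
    have e1 : frz t (((P.L : ℂ)⁻¹) • dp P.κ' j (((Real.sqrt 2 : ℝ) : ℂ) • (P.b * sn P.d.i))) =
        ((P.L : ℂ)⁻¹) • dp P.κ' j (((Real.sqrt 2 : ℝ) : ℂ) • (frz t P.b * frz t (sn P.d.i))) := by
      rw [← XEq_frz_mul, ← XEq_frz_smul, ← hdp, ← XEq_frz_smul]
    rw [e1, hb, hsn]
  have h1 : (frz t (P.W0 j)).co ν s = (P.W0 j).co ν t := rfl
  rw [← h1, hfr]

private theorem XEq_trap_mid (H : SBH P lam g σ ρ c A ρ0 m w η) {s : ℝ}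
    (hs : s ∈ Set.Ioo P.s1 P.s2) : trapR P.ta P.s1 P.s2 P.tb s = 1 := by
  have h1 := H.h1
  have h2 := H.h2
  have h3 := H.h3
  have a1 : 1 ≤ (s - P.ta) / (P.s1 - P.ta) := by
    rw [le_div_iff₀ (by linarith)]; linarith [hs.1]
  have a2 : 1 ≤ (P.tb - s) / (P.tb - P.s2) := by
    rw [le_div_iff₀ (by linarith)]; linarith [hs.2]
  unfold trapR
  rw [min_eq_left (le_min a1 a2), max_eq_right zero_le_one]

private theorem XEq_trap_left (H : SBH P lam g σ ρ c A ρ0 m w η) {s : ℝ}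
    (hs : s ∈ Set.Ioo P.ta P.s1) :
    trapR P.ta P.s1 P.s2 P.tb s = (s - P.ta) / (P.s1 - P.ta) := by
  have h1 := H.h1
  have h2 := H.h2
  have h3 := H.h3
  have a0 : 0 ≤ (s - P.ta) / (P.s1 - P.ta) := div_nonneg (by linarith [hs.1]) (by linarith)
  have a1 : (s - P.ta) / (P.s1 - P.ta) ≤ 1 := by
    rw [div_le_one (by linarith)]; linarith [hs.2]
  have a2 : 1 ≤ (P.tb - s) / (P.tb - P.s2) := by
    rw [le_div_iff₀ (by linarith)]; linarith [hs.2]
  unfold trapR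
  rw [min_eq_left (a1.trans a2), min_eq_right a1, max_eq_right a0]

private theorem XEq_trap_right (H : SBH P lam g σ ρ c A ρ0 m w η) {s : ℝ}
    (hs : s ∈ Set.Ioo P.s2 P.tb) :
    trapR P.ta P.s1 P.s2 P.tb s = (P.tb - s) / (P.tb - P.s2) := by
  have h1 := H.h1
  have h2 := H.h2
  have h3 := H.h3
  have a0 : 0 ≤ (P.tb - s) / (P.tb - P.s2) := div_nonneg (by linarith [hs.2]) (by linarith)
  have a1 : 1 ≤ (s - P.ta) / (P.s1 - P.ta) := by
    rw [le_div_iff₀ (by linarith)]; linarith [hs.1]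
  have a2 : (P.tb - s) / (P.tb - P.s2) ≤ 1 := by
    rw [div_le_one (by linarith)]; linarith [hs.1]
  unfold trapR
  rw [min_eq_right (a2.trans a1), min_eq_right a2, max_eq_right a0]

/-- Derivative of `W` in the gap. -/
theorem td_W_gap (S : SB0 P lam g ρ0 m w ζ E W a q) (H : SBH P lam g σ ρ c A ρ0 m w η)
    (j : Fin 2) : TD P.s1 P.s2 (W j) (osc P.d.i (a j)) := by
  have h1 := TD.intg (a := P.s1) (b := P.s2) (osc P.d.i (a j))
  intro ν t ht
  have h2 := h1 ν t ht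
  have h3 : HasDerivAt (fun s => (P.W0 j).co ν t + (intg P.s1 P.s2 (osc P.d.i (a j))).co ν s)
      ((osc P.d.i (a j)).co ν t) t := by
    simpa using h2.const_add ((P.W0 j).co ν t)
  refine h3.congr_of_eventuallyEq ?_
  filter_upwards [Ioo_mem_nhds ht.1 ht.2] with s hs
  rw [S.sol.hW j, XEq_cst_co, WT.co_add, Pi.add_apply, BoundedContinuousFunction.coe_add,
    Pi.add_apply, XEq_W0 H j ν s t]
  have h4 : P.χ s = 1 := by
    have e : P.χ s = ((trapR P.ta P.s1 P.s2 P.tb s : ℝ) : ℂ) := rfl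
    rw [e]
    have h5 := XEq_trap_mid H hs
    rw [h5]; simp
  rw [h4, one_mul]

/-- Derivative of `W` on the first ramp. -/
theorem td_W_left (S : SB0 P lam g ρ0 m w ζ E W a q) (H : SBH P lam g σ ρ c A ρ0 m w η)
    (j : Fin 2) : TD P.ta P.s1 (W j) (((P.s1 - P.ta : ℝ) : ℂ)⁻¹ • P.W0 j) := by
  intro ν t ht
  have h0 : 0 < P.s1 - P.ta := by have := H.h1; linarith
  have h1 : HasDerivAt (fun s : ℝ => (((s - P.ta) / (P.s1 - P.ta) : ℝ) : ℂ))
      (((1 / (P.s1 - P.ta) : ℝ) : ℂ)) t :=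
    (((hasDerivAt_id t).sub_const P.ta).div_const (P.s1 - P.ta)).ofReal_comp
  have h3 := h1.mul_const ((P.W0 j).co ν t)
  have e1 : (((P.s1 - P.ta : ℝ) : ℂ)⁻¹ • P.W0 j).co ν t =
      (((1 / (P.s1 - P.ta) : ℝ) : ℂ)) * (P.W0 j).co ν t := by
    rw [WT.co_smul, Pi.smul_apply, BoundedContinuousFunction.coe_smul]
    change ((P.s1 - P.ta : ℝ) : ℂ)⁻¹ * (P.W0 j).co ν t = _
    push_cast
    rw [one_div]
  rw [e1]
  refine h3.congr_of_eventuallyEq ?_
  filter_upwards [Ioo_mem_nhds ht.1 ht.2] with s hs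
  rw [S.sol.hW j, XEq_cst_co, WT.co_add, Pi.add_apply, BoundedContinuousFunction.coe_add,
    Pi.add_apply, XEq_W0 H j ν s t]
  have h4 : P.χ s = (((s - P.ta) / (P.s1 - P.ta) : ℝ) : ℂ) := by
    have e : P.χ s = ((trapR P.ta P.s1 P.s2 P.tb s : ℝ) : ℂ) := rfl
    rw [e, XEq_trap_left H hs]
  have h5 : (intg P.s1 P.s2 (osc P.d.i (a j))).co ν s = 0 := by
    rw [intg_co]
    have h6 : clp P.s1 P.s2 s = P.s1 := by
      unfold clp
      rw [max_eq_left]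
      exact (min_le_right _ _).trans hs.2.le
    rw [h6, intervalIntegral.integral_same]
  rw [h4, h5, add_zero]

/-- Derivative of `W` on the last ramp. -/
theorem td_W_right (S : SB0 P lam g ρ0 m w ζ E W a q) (H : SBH P lam g σ ρ c A ρ0 m w η)
    (j : Fin 2) : TD P.s2 P.tb (W j)
      (-(((P.tb - P.s2 : ℝ) : ℂ)⁻¹ • (P.W0 j + frz P.s2 (intg P.s1 P.s2 (osc P.d.i (a j)))))) := by
  intro ν t ht
  have h0 : 0 < P.tb - P.s2 := by have := H.h3; linarith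
  have h1 : HasDerivAt (fun s : ℝ => (((P.tb - s) / (P.tb - P.s2) : ℝ) : ℂ))
      (((-1 / (P.tb - P.s2) : ℝ) : ℂ)) t :=
    (((hasDerivAt_id t).const_sub P.tb).div_const (P.tb - P.s2)).ofReal_comp
  have h3 := h1.mul_const ((P.W0 j).co ν t + (intg P.s1 P.s2 (osc P.d.i (a j))).co ν P.s2)
  have e1 : (-(((P.tb - P.s2 : ℝ) : ℂ)⁻¹ • (P.W0 j +
        frz P.s2 (intg P.s1 P.s2 (osc P.d.i (a j)))))).co ν t =
      (((-1 / (P.tb - P.s2) : ℝ) : ℂ)) *
        ((P.W0 j).co ν t + (intg P.s1 P.s2 (osc P.d.i (a j))).co ν P.s2) := by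
    rw [WT.co_neg, Pi.neg_apply, BoundedContinuousFunction.coe_neg, Pi.neg_apply, WT.co_smul,
      Pi.smul_apply, BoundedContinuousFunction.coe_smul]
    change -(((P.tb - P.s2 : ℝ) : ℂ)⁻¹ *
      (P.W0 j + frz P.s2 (intg P.s1 P.s2 (osc P.d.i (a j)))).co ν t) = _
    rw [WT.co_add, Pi.add_apply, BoundedContinuousFunction.coe_add, Pi.add_apply, frz_co]
    push_cast
    ring
  rw [e1]
  refine h3.congr_of_eventuallyEq ?_
  filter_upwards [Ioo_mem_nhds ht.1 ht.2] with s hs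
  rw [S.sol.hW j, XEq_cst_co, WT.co_add, Pi.add_apply, BoundedContinuousFunction.coe_add,
    Pi.add_apply, XEq_W0 H j ν s t]
  have h4 : P.χ s = (((P.tb - s) / (P.tb - P.s2) : ℝ) : ℂ) := by
    have e : P.χ s = ((trapR P.ta P.s1 P.s2 P.tb s : ℝ) : ℂ) := rfl
    rw [e, XEq_trap_right H hs]
  have h5 : (intg P.s1 P.s2 (osc P.d.i (a j))).co ν s =
      (intg P.s1 P.s2 (osc P.d.i (a j))).co ν P.s2 := by
    rw [intg_co, intg_co]
    have h6 : clp P.s1 P.s2 s = P.s2 := by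
      unfold clp
      rw [min_eq_left hs.1.le, max_eq_right H.h2.le]
    have h7 : clp P.s1 P.s2 P.s2 = P.s2 := by
      unfold clp
      rw [min_self, max_eq_right H.h2.le]
    rw [h6, h7]
  rw [h4, h5]

/-- Momentum equation on a piece `[s,t]` where `∂_t W = Wt`:
`∂_t u = -(W·D')u - M'ᵀ D p^ζ - f + F'(⟨a⟩ + Wt)`. -/
theorem td_u (H : SBH P lam g σ ρ c A ρ0 m w η) (S : SB0 P lam g ρ0 m w ζ E W a q)
    (hP : det2 (Pm P.d ζ) = 1) {s t : ℝ} (hs : P.ta ≤ s) (ht : t ≤ P.tb) {Wt : Vec}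
    (hW : ∀ j, TD s t (W j) (Wt j)) (j : Fin 2) :
    TD s t (nu' P.d ζ E W j)
      (-adv P.κ' W (nu' P.d ζ E W) j - gradT P.d.κ (MM P.d ζ) (comp P.d.κ ζ P.d.p) j
        - P.f ζ E W j + mulv (FF P.d ζ) (fun k => mean P.d.i (a k) + Wt k) j) := by
  have t1 := (td_vz H S j).mono hs ht
  have tF : ∀ b, TD s t (FF P.d ζ j b) (D P.d.κ b (nV P.d ζ E j)) :=
    fun b => (td_FF H S j b).mono hs ht
  have tE : ∀ b, TD s t (E b) (mean P.d.i (a b)) := fun b => (td_E S H b).mono hs ht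
  have t2 : TD s t (mulv (FF P.d ζ) E j)
      (∑ b, (D P.d.κ b (nV P.d ζ E j) * E b + FF P.d ζ j b * mean P.d.i (a b))) :=
    TD.sum Finset.univ (fun b _ => (tF b).mul (tE b))
  have t3 : TD s t (mulv (FF P.d ζ) W j)
      (∑ b, (D P.d.κ b (nV P.d ζ E j) * W b + FF P.d ζ j b * Wt b)) :=
    TD.sum Finset.univ (fun b _ => (tF b).mul (hW b))
  have t4 := (t1.add t2).add t3
  have hf := f_eq H S j
  have hacc := comp_acc H S hP j
  have hlev := (S.lev H).2.2.2.2 j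
  have hdth : dth P.d.i (vz P.d ζ j) = 0 := dth_of_osc (Lev.osc le_rfl hlev)
  have hadv := adv_W H S (vz P.d ζ) j
  rw [hdth, mul_zero, add_zero] at hadv
  have hgr : ∀ b, D P.d.κ b (vz P.d ζ j) = LL P.d ζ j b := fun b => grad_vz H S j b
  -- the derivative of `V`
  have hDV : ∀ b, D P.d.κ b (nV P.d ζ E j) =
      LL P.d ζ j b + D P.d.κ b (mulv (FF P.d ζ) E j) := by
    intro b
    have : nV P.d ζ E j = vz P.d ζ j + mulv (FF P.d ζ) E j := rfl
    rw [this, map_add, hgr]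
  have hnu : ∀ k, nu' P.d ζ E W k = vz P.d ζ k + mulv (FF P.d ζ) (fun l => E l + W l) k := by
    intro k
    have h1 : nu' P.d ζ E W k = vz P.d ζ k + mulv (FF P.d ζ) E k + mulv (FF P.d ζ) W k := rfl
    rw [h1]
    unfold mulv
    simp only [Fin.sum_univ_two]
    ring
  have hadv2 : adv P.κ' W (nu' P.d ζ E W) j = adv P.κ' W (vz P.d ζ) j +
      adv P.κ' W (mulv (FF P.d ζ) (fun l => E l + W l)) j := by
    unfold adv
    simp only [hnu, map_add, Fin.sum_univ_two]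
    ring
  have hadv3 : adv P.d.κ W (vz P.d ζ) j = mulv (LL P.d ζ) W j := by
    unfold adv mulv
    simp only [hgr, Fin.sum_univ_two]
    ring
  have hadv4 : adv P.d.κ (fun k => E k + W k) (mulv (FF P.d ζ) E) j =
      ∑ b, (E b + W b) * D P.d.κ b (mulv (FF P.d ζ) E j) := rfl
  have e : comp P.d.κ ζ (P.d.acc j) + mulv (LL P.d ζ) E j +
      ∑ b, (D P.d.κ b (nV P.d ζ E j) * E b + FF P.d ζ j b * mean P.d.i (a b)) +
      ∑ b, (D P.d.κ b (nV P.d ζ E j) * W b + FF P.d ζ j b * Wt b) =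
      -adv P.κ' W (nu' P.d ζ E W) j - gradT P.d.κ (MM P.d ζ) (comp P.d.κ ζ P.d.p) j
        - P.f ζ E W j + mulv (FF P.d ζ) (fun k => mean P.d.i (a k) + Wt k) j := by
    rw [hadv2, hadv, hadv3, hf, hacc, hadv4]
    have m1 : ∀ x : Vec, mulv (LL P.d ζ) x j = LL P.d ζ j 0 * x 0 + LL P.d ζ j 1 * x 1 :=
      fun x => Fin.sum_univ_two _
    have m2 : ∀ x : Vec, mulv (FF P.d ζ) x j = FF P.d ζ j 0 * x 0 + FF P.d ζ j 1 * x 1 :=
      fun x => Fin.sum_univ_two _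
    simp only [hDV, Fin.sum_univ_two]
    rw [m1 E, m1 W, m1 (fun k => E k + W k), m2 (fun k => mean P.d.i (a k) + Wt k)]
    ring
  rw [e] at t4
  exact t4

/-- The relative velocity in the new coordinates is `W`. -/
theorem rel_vel (H : SBH P lam g σ ρ c A ρ0 m w η) (S : SB0 P lam g ρ0 m w ζ E W a q)
    (hF : det2 (FF P.d ζ) = 1) (j : Fin 2) :
    mulv (adj (FF P.d ζ)) (nu' P.d ζ E W - nV P.d ζ E) j = W j := by
  have h1 : nu' P.d ζ E W - nV P.d ζ E = mulv (FF P.d ζ) W := by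
    funext k
    rw [Pi.sub_apply]
    unfold nu'
    ring
  rw [h1]
  exact mulv_adj' hF W j

end

end ES
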