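import Pool.Agent.ES.XNew
import Pool.Agent.ES.XAnti

/-!
ES-XFin: the final interval (EW 3, Prop. 3.6): `b = 0`, `W = 0`, `E1 = frz tb E = D^⊥ Ψ1`.
-/

open scoped BoundedContinuousFunction

namespace ES

section
variable {P : SB} {lam g σ ρ c A ρ0 m w η : ℝ} {ζ E W a q : Vec}

/-- Derivative of the linear cutoff. -/
theorem lin01_deriv {s t τ : ℝ} (hst : s < t) (hτ : τ ∈ Set.Ioo s t) :
    HasDerivAt (fun x => lin01 s t x) ((((t - s)⁻¹ : ℝ) : ℂ)) τ := by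
  have h1 : HasDerivAt (fun x : ℝ => (x - s) / (t - s)) ((t - s)⁻¹) τ := by
    simpa [one_div] using ((hasDerivAt_id τ).sub_const s).div_const (t - s)
  have h2 := h1.ofReal_comp
  refine h2.congr_of_eventuallyEq ?_
  filter_upwards [Ioo_mem_nhds hτ.1 hτ.2] with x hx
  show (((clp s t x - s) / (t - s) : ℝ) : ℂ) = (((x - s) / (t - s) : ℝ) : ℂ)
  rw [clp_of_mem ⟨hx.1.le, hx.2.le⟩]

theorem lin01_norm (s t τ : ℝ) : ‖lin01 s t τ‖ ≤ 1 := by
  show ‖(((clp s t τ - s) / (t - s) : ℝ) : ℂ)‖ ≤ 1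
  rw [Complex.norm_real, Real.norm_eq_abs, abs_div]
  refine div_le_one_of_le₀ ?_ (abs_nonneg _)
  unfold clp
  rcases le_total s (min t τ) with h | h
  · rw [max_eq_right h, abs_of_nonneg (by linarith)]
    exact (by linarith [min_le_left t τ] : min t τ - s ≤ t - s).trans (le_abs_self _)
  · rw [max_eq_left h]; simp

theorem lin01_left {s t : ℝ} (hst : s < t) : lin01 s t s = 0 := by
  show (((clp s t s - s) / (t - s) : ℝ) : ℂ) = 0
  rw [clp_of_mem ⟨le_rfl, hst.le⟩]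
  simp

theorem lin01_right {s t : ℝ} (hst : s < t) : lin01 s t t = 1 := by
  show (((clp s t t - s) / (t - s) : ℝ) : ℂ) = 1
  rw [clp_of_mem ⟨hst.le, le_rfl⟩, div_self (sub_pos.2 hst).ne']
  simp

/-- The stress matrix of the final interval: `D·S1` is the error. -/
noncomputable def finS (P : SB) (ζ E : Vec) (Ψ1 : WT) : Mat := fun a j =>
  -(((P.tb - P.ta : ℝ) : ℂ)⁻¹ • TF (FF P.d ζ) Ψ1 a j)
  - 2 * (cst (lin01 P.ta P.tb) * TA P.d.κ Ψ1 (nV P.d ζ E) a j)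
  + cst (lin01 P.ta P.tb) * cst (lin01 P.ta P.tb) *
      TA P.d.κ Ψ1 (mulv (FF P.d ζ) (fun k => frz P.tb (E k))) a j

/-- The divergence of the stress matrix. -/
private theorem fin_dvm (κ : Kp) (ξ : Vec) (V E1 : Vec) (X Ψ : WT) (cc : ℂ)
    (hX : ∀ a, D κ a X = 0) (hE : ∀ k, E1 k = dp κ k Ψ) (j : Fin 2) :
    dvm κ (fun a j => -(cc • TF (Fm κ ξ) Ψ a j) - 2 * (X * TA κ Ψ V a j)
        + X * X * TA κ Ψ (mulv (Fm κ ξ) E1) a j) j =
      -(cc • mulv (Fm κ ξ) E1 j) - 2 * (X * adv κ E1 V j)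
        + X * X * adv κ E1 (mulv (Fm κ ξ) E1) j := by
  have hE' : E1 = fun k => dp κ k Ψ := funext hE
  have e1 : mulv (Fm κ ξ) E1 j = dvm κ (TF (Fm κ ξ) Ψ) j := by rw [hE']; exact mulv_dp κ ξ Ψ j
  have e2 : adv κ E1 V j = dvm κ (TA κ Ψ V) j := by rw [hE']; exact adv_dp κ Ψ V j
  have e3 : ∀ y : Vec, adv κ E1 y j = dvm κ (TA κ Ψ y) j := by
    intro y; rw [hE']; exact adv_dp κ Ψ y j
  rw [e2, e3 (mulv (Fm κ ξ) E1), e1]
  generalize TA κ Ψ V = A1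
  generalize TA κ Ψ (mulv (Fm κ ξ) E1) = A2
  generalize TF (Fm κ ξ) Ψ = A3
  simp only [dvm, Fin.sum_univ_two, map_add, map_sub, map_neg, map_smul, two_mul, D_mul, hX,
    smul_add]
  ring

/-- The transport term. -/
private theorem fin_adv (κ : Kp) (V y E1 : Vec) (X : WT) (hX : ∀ a, D κ a X = 0) (j : Fin 2) :
    adv κ (fun k => -(X * E1 k)) (fun i => V i - X * y i) j =
      -(X * adv κ E1 V j) + X * X * adv κ E1 y j := by
  simp only [adv, Fin.sum_univ_two, map_sub, D_mul, hX]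
  ring

/-- Momentum equation of `v' = V - χ F' E1`:
`∂_t v' + (B'·D) v' + M'ᵀ D p' = D·S1`, `B' = -χ E1`. -/
theorem fin_eq (H : SBH P lam g σ ρ c A ρ0 m w η) (S : SB0 P lam g ρ0 m w ζ E W a q)
    (hb : P.b = 0) (hP : det2 (Pm P.d ζ) = 1) {Ψ1 : WT}
    (hΨ : ∀ j, frz P.tb (E j) = dp P.d.κ j Ψ1) (j : Fin 2) :
    TD P.ta P.tb (nV P.d ζ E j - cst (lin01 P.ta P.tb) *
        mulv (FF P.d ζ) (fun k => frz P.tb (E k)) j)
      (dvm P.d.κ (finS P ζ E Ψ1) j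
        - gradT P.d.κ (MM P.d ζ) (comp P.d.κ ζ P.d.p + pot P.d.κ q) j
        - adv P.d.κ (fun k => -(cst (lin01 P.ta P.tb) * frz P.tb (E k)))
            (fun i => nV P.d ζ E i - cst (lin01 P.ta P.tb) *
              mulv (FF P.d ζ) (fun k => frz P.tb (E k)) i) j) := by
  have hab : P.ta < P.tb := H.h1.trans (H.h2.trans H.h3)
  have hW : ∀ k, W k = 0 := fun k => (S.b0 hb k).1
  have hW0 : W = 0 := funext hW
  have hoa : ∀ k, osc P.d.i (a k) = 0 := fun k => (S.b0 hb k).2.1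
  have hoq : ∀ k, osc P.d.i (q k) = 0 := fun k => (S.b0 hb k).2.2
  have hma : ∀ k, mean P.d.i (a k) = a k := fun k => mean_of_osc (hoa k)
  have hmq : ∀ k, mean P.d.i (q k) = q k := fun k => mean_of_osc (hoq k)
  -- the equation for `V`
  have hV : TD P.ta P.tb (nV P.d ζ E j)
      (-gradT P.d.κ (MM P.d ζ) (comp P.d.κ ζ P.d.p + pot P.d.κ q) j) := by
    have h1 := td_u H S hP le_rfl le_rfl (Wt := 0) (fun k => by
      rw [hW k]; exact TD.zero _ _) j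
    have e1 : nu' P.d ζ E W j = nV P.d ζ E j := by
      simp only [nu', hW0, mulv, Pi.zero_apply, mul_zero, Finset.sum_const_zero, add_zero]
    have e2 : adv P.κ' W (nu' P.d ζ E W) j = 0 := by
      simp only [adv, hW0, Pi.zero_apply, zero_mul, Finset.sum_const_zero]
    have e3 : mulv (FF P.d ζ) (fun k => mean P.d.i (a k) + (0 : Vec) k) j =
        mulv (FF P.d ζ) a j := by
      simp only [mulv, hma, Pi.zero_apply, add_zero]
    have e4 := F_a_M_q H S j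
    have e5 : mulvT (MM P.d ζ) q j = gradT P.d.κ (MM P.d ζ) (pot P.d.κ q) j := by
      have h2 : ∀ k, q k = D P.d.κ k (pot P.d.κ q) := by
        intro k
        have h3 := mean_q_eq H S k
        have h4 : (fun k => mean P.d.i (q k)) = q := funext hmq
        rw [h4, hmq k] at h3
        exact h3
      have h5 : q = fun k => D P.d.κ k (pot P.d.κ q) := funext h2
      unfold gradT
      rw [← h5]
    have e6 : gradT P.d.κ (MM P.d ζ) (comp P.d.κ ζ P.d.p + pot P.d.κ q) j =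
        gradT P.d.κ (MM P.d ζ) (comp P.d.κ ζ P.d.p) j +
          gradT P.d.κ (MM P.d ζ) (pot P.d.κ q) j := by
      simp only [gradT, mulvT, map_add, mul_add, Finset.sum_add_distrib]
    rw [e1, e2, e3] at h1
    have e7 : -(0 : WT) - gradT P.d.κ (MM P.d ζ) (comp P.d.κ ζ P.d.p) j - P.f ζ E W j +
        mulv (FF P.d ζ) a j =
        -gradT P.d.κ (MM P.d ζ) (comp P.d.κ ζ P.d.p + pot P.d.κ q) j := by
      rw [e6, ← e5, ← e4]
      ring
    rw [e7] at h1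
    exact h1
  -- the equation for the cut off part
  have hcst : TD P.ta P.tb (cst (lin01 P.ta P.tb))
      ((((P.tb - P.ta : ℝ) : ℂ)⁻¹) • (1 : WT)) := by
    have h1 := TD.cst (a := P.ta) (b := P.tb) (φ := lin01 P.ta P.tb)
      (φ' := BoundedContinuousFunction.const ℝ (((P.tb - P.ta : ℝ) : ℂ)⁻¹)) (fun t ht => by
        have h2 := lin01_deriv hab ht
        rw [Complex.ofReal_inv] at h2
        exact h2)
    rwa [cst_const] at h1
  have hy : TD P.ta P.tb (mulv (FF P.d ζ) (fun k => frz P.tb (E k)) j)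
      (adv P.d.κ (fun k => frz P.tb (E k)) (nV P.d ζ E) j) := by
    have h1 : TD P.ta P.tb (∑ b, FF P.d ζ j b * frz P.tb (E b))
        (∑ b, (D P.d.κ b (nV P.d ζ E j) * frz P.tb (E b) + FF P.d ζ j b * 0)) :=
      TD.sum _ fun b _ => (td_FF H S j b).mul (TD.frz _ _ _ _)
    have e : (∑ b, (D P.d.κ b (nV P.d ζ E j) * frz P.tb (E b) + FF P.d ζ j b * 0)) =
        adv P.d.κ (fun k => frz P.tb (E k)) (nV P.d ζ E) j := by
      simp only [adv, mul_zero, add_zero]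
      exact Finset.sum_congr rfl fun b _ => mul_comm _ _
    rw [e] at h1
    exact h1
  have hall := hV.sub (hcst.mul hy)
  have hX : ∀ a, D P.d.κ a (cst (lin01 P.ta P.tb)) = 0 := fun a => D_cst _ _ _
  have hFF := FF_eq H S
  have d1 : dvm P.d.κ (finS P ζ E Ψ1) j =
      -(((P.tb - P.ta : ℝ) : ℂ)⁻¹ • mulv (FF P.d ζ) (fun k => frz P.tb (E k)) j)
        - 2 * (cst (lin01 P.ta P.tb) * adv P.d.κ (fun k => frz P.tb (E k)) (nV P.d ζ E) j)
        + cst (lin01 P.ta P.tb) * cst (lin01 P.ta P.tb) *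
          adv P.d.κ (fun k => frz P.tb (E k)) (mulv (FF P.d ζ) (fun k => frz P.tb (E k))) j := by
    unfold finS
    rw [hFF]
    exact fin_dvm P.d.κ (nX P.d ζ) (nV P.d ζ E) (fun k => frz P.tb (E k)) _ Ψ1 _ hX hΨ j
  rw [d1, fin_adv P.d.κ (nV P.d ζ E) (mulv (FF P.d ζ) (fun k => frz P.tb (E k)))
    (fun k => frz P.tb (E k)) _ hX j]
  have e8 : ((((P.tb - P.ta : ℝ) : ℂ)⁻¹) • (1 : WT)) *
      mulv (FF P.d ζ) (fun k => frz P.tb (E k)) j =
      ((P.tb - P.ta : ℝ) : ℂ)⁻¹ • mulv (FF P.d ζ) (fun k => frz P.tb (E k)) j := by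
    rw [smul_mul_assoc, one_mul]
  rw [e8] at hall
  convert hall using 1
  ring

/-! Bounds on the final interval, at the constant radius `ρ0 - m`. -/

private theorem fin_idm (k : ℕ) (r : ℝ → ℝ) (a b : Fin 2) : Bd k r (idm a b) 1 := by
  unfold idm
  split_ifs
  · exact Bd.one k r
  · exact Bd.zero k r zero_le_one

private theorem fin_mulv0 {r : ℝ → ℝ} (hr : ∀ t, 0 ≤ r t) {F : Mat} {x : Vec} {e δ : ℝ}
    (hF : ∀ a b, Bd 0 r (F a b - idm a b) δ) (hx : ∀ j, Bd 0 r (x j) e) (a : Fin 2) :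
    Bd 0 r (mulv F x a) (e + 2 * δ * e) := by
  have h1 : mulv F x a = x a + ((F a 0 - idm a 0) * x 0 + (F a 1 - idm a 1) * x 1) := by
    simp only [mulv, Fin.sum_univ_two, idm]
    fin_cases a
    · simp
      ring
    · simp
      ring
  rw [h1]
  refine ((hx a).add (((hF a 0).mul hr (hx 0)).add ((hF a 1).mul hr (hx 1)))).mono ?_
  linarith

private theorem fin_mulv1 {r : ℝ → ℝ} (hr : ∀ t, 0 ≤ r t) {F : Mat} {x : Vec} {e f : ℝ}
    (hF : ∀ a b, Bd 1 r (F a b) f) (hx : ∀ j, Bd 1 r (x j) e) (a : Fin 2) :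
    Bd 1 r (mulv F x a) (2 * f * e) := by
  have h1 : mulv F x a = F a 0 * x 0 + F a 1 * x 1 := by
    simp only [mulv, Fin.sum_univ_two]
  rw [h1]
  refine (((hF a 0).mul hr (hx 0)).add ((hF a 1).mul hr (hx 1))).mono ?_
  linarith

private theorem fin_adv0 {r : ℝ → ℝ} (hr : ∀ t, 0 ≤ r t) (κ : Kp) {x y : Vec} {e δ : ℝ}
    (hx : ∀ j, Bd 0 r (x j) e) (hy : ∀ i j, Bd 0 r (D κ j (y i)) δ) (a : Fin 2) :
    Bd 0 r (adv κ x y a) (2 * e * δ) := by
  have h1 : adv κ x y a = x 0 * D κ 0 (y a) + x 1 * D κ 1 (y a) := by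
    simp only [adv, Fin.sum_univ_two]
  rw [h1]
  refine (((hx 0).mul hr (hy a 0)).add ((hx 1).mul hr (hy a 1))).mono ?_
  linarith

private theorem fin_TF {r : ℝ → ℝ} (hr : ∀ t, 0 ≤ r t) {F : Mat} {Ψ : WT} {f ψ : ℝ}
    (hF : ∀ a b, Bd 0 r (F a b) f) (hΨ : Bd 0 r Ψ ψ) (a j : Fin 2) :
    Bd 0 r (TF F Ψ a j) (f * ψ) := by
  unfold TF
  split_ifs
  · exact (hF a 1).mul hr hΨ
  · exact ((hF a 0).mul hr hΨ).neg

private theorem fin_TA {r : ℝ → ℝ} (hr : ∀ t, 0 ≤ r t) (κ : Kp) {y : Vec} {Ψ : WT} {δ ψ : ℝ}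
    (hy : ∀ i j, Bd 0 r (D κ j (y i)) δ) (hΨ : Bd 0 r Ψ ψ) (a j : Fin 2) :
    Bd 0 r (TA κ Ψ y a j) (ψ * δ) := by
  unfold TA
  split_ifs
  · exact hΨ.mul hr (hy a 1)
  · exact (hΨ.mul hr (hy a 0)).neg

/-- A class of elements closed under the operations. -/
private theorem fin_TF_cl (C : WT → Prop) (hn : ∀ f, C f → C (-f))
    (hm : ∀ f g, C f → C g → C (f * g)) {F : Mat} {Ψ : WT} (hF : ∀ a b, C (F a b)) (hΨ : C Ψ)
    (a j : Fin 2) : C (TF F Ψ a j) := by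
  unfold TF
  split_ifs
  · exact hm _ _ (hF a 1) hΨ
  · exact hn _ (hm _ _ (hF a 0) hΨ)

private theorem fin_TA_cl (C : WT → Prop) (hn : ∀ f, C f → C (-f))
    (hm : ∀ f g, C f → C g → C (f * g)) (κ : Kp) (hD : ∀ j f, C f → C (D κ j f)) {y : Vec} {Ψ : WT}
    (hy : ∀ a, C (y a)) (hΨ : C Ψ) (a j : Fin 2) : C (TA κ Ψ y a j) := by
  unfold TA
  split_ifs
  · exact hm _ _ hΨ (hD 1 _ (hy a))
  · exact hn _ (hm _ _ hΨ (hD 0 _ (hy a)))

private theorem fin_mulv_cl (C : WT → Prop) (ha : ∀ f g, C f → C g → C (f + g))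
    (hm : ∀ f g, C f → C g → C (f * g)) {F : Mat} {x : Vec} (hF : ∀ a b, C (F a b))
    (hx : ∀ a, C (x a)) (a : Fin 2) : C (mulv F x a) := by
  have h1 : mulv F x a = F a 0 * x 0 + F a 1 * x 1 := by
    simp only [mulv, Fin.sum_univ_two]
  rw [h1]
  exact ha _ _ (hm _ _ (hF a 0) (hx 0)) (hm _ _ (hF a 1) (hx 1))

private theorem fin_dvm_cl (C : WT → Prop) (ha : ∀ f g, C f → C g → C (f + g)) (κ : Kp)
    (hD : ∀ j f, C f → C (D κ j f)) {X : Mat} (hX : ∀ a b, C (X a b)) (a : Fin 2) :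
    C (dvm κ X a) := by
  have h1 : dvm κ X a = D κ 0 (X a 0) + D κ 1 (X a 1) := by
    simp only [dvm, Fin.sum_univ_two]
  rw [h1]
  exact ha _ _ (hD 0 _ (hX a 0)) (hD 1 _ (hX a 1))

private theorem finS_cl (C : WT → Prop) (hn : ∀ f, C f → C (-f))
    (ha : ∀ f g, C f → C g → C (f + g)) (hm : ∀ f g, C f → C g → C (f * g))
    (hs : ∀ (x : ℝ) f, C f → C ((x : ℂ) • f)) (P : SB) (hD : ∀ j f, C f → C (D P.d.κ j f))
    (ζ E : Vec) (Ψ : WT) (hX : C (cst (lin01 P.ta P.tb))) (hF : ∀ a b, C (FF P.d ζ a b))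
    (hV : ∀ a, C (nV P.d ζ E a)) (hE : ∀ a, C (frz P.tb (E a))) (hΨ : C Ψ) (a j : Fin 2) :
    C (finS P ζ E Ψ a j) := by
  unfold finS
  have e1 : ((P.tb - P.ta : ℝ) : ℂ)⁻¹ = (((P.tb - P.ta)⁻¹ : ℝ) : ℂ) := by
    rw [Complex.ofReal_inv]
  rw [e1, two_mul, sub_eq_add_neg]
  have h1 := fin_TF_cl C hn hm hF hΨ a j
  have h2 := hm _ _ hX (fin_TA_cl C hn hm P.d.κ hD hV hΨ a j)
  have h3 := fin_TA_cl C hn hm P.d.κ hD
    (fin_mulv_cl C ha hm hF (x := fun k => frz P.tb (E k)) hE) hΨ a j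
  exact ha _ _ (ha _ _ (hn _ (hs _ _ h1)) (hn _ (ha _ _ h2 h2))) (hm _ _ (hm _ _ hX hX) h3)

private theorem fin_pot_cl (C : WT → Prop) (ha : ∀ f g, C f → C g → C (f + g)) (κ : Kp)
    (hD : ∀ j f, C f → C (D κ j f)) (hL : ∀ f, C f → C (Lin κ f)) {x : Vec} (hx : ∀ a, C (x a)) :
    C (pot κ x) := by
  have h1 : pot κ x = Lin κ (D κ 0 (x 0) + D κ 1 (x 1)) := by
    simp only [pot, dvg, Fin.sum_univ_two]
  rw [h1]
  exact hL _ (ha _ _ (hD 0 _ (hx 0)) (hD 1 _ (hx 1)))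

/-- Good data on the final interval.  `y`, `e` bounds of `ζ`, `E`; `ψ` bound of `Ψ1`. -/
theorem fin_good (H : SBH P lam g σ ρ c A ρ0 m w η)
    (hh : 10 ^ 8 * (1 + 1 / m) ^ 5 * (P.tb - P.ta) * g ≤ 1)
    (S : SB0 P lam g ρ0 m w ζ E W a q) (R : SBR P (10 ^ 7) lam g ρ0 m w η ζ E W a q)
    (hb : P.b = 0) {y e ψ : ℝ}
    (hy : ∀ j, Bd 1 (P.r ρ0 m) (ζ j) y) (he : ∀ j, Bd 1 (P.r ρ0 m) (E j) e) (he' : lam * e ≤ g)
    {Ψ1 : WT} (hΨ : ∀ j, frz P.tb (E j) = dp P.d.κ j Ψ1) (hψ : Bd 0 (cr (ρ0 - m)) Ψ1 ψ)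
    (lΨ : Lev P.d.i Ψ1) (rΨ : IsR Ψ1) (tΨ : frz P.tb Ψ1 = Ψ1) :
    ∃ Q : Mat, Good (P.finD ζ E q Q) P.ta P.tb lam
      (g * (1 + 2 * (lam * y)) + 12 * (1 + 1 / m) * lam * e)
      ((25 / (P.tb - P.ta) + 1000 * (1 + 1 / m) * g) * ψ)
      (ρ0 - 2 * m) (c + lam * y * (1 + 2 * c))
      (A + 10 ^ 8 * (1 + 1 / m) ^ 4 * g * w + 2 * e / (P.tb - P.ta)
        + 100 * (1 + 1 / m) * g * e) := by
  have hab : P.ta < P.tb := H.h1.trans (H.h2.trans H.h3)
  have hh0 : 0 < P.tb - P.ta := sub_pos.2 hab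
  have hlam0 : 0 < lam := by linarith [H.hlam]
  have hlw := H.hlw
  have hw0 := H.hw
  have hg0 : 0 ≤ g := H.dh.hg
  have hc0 : 0 ≤ c := H.dh.hc0
  have hy0 : 0 ≤ y := (hy 0).nonneg
  have he0 : 0 ≤ e := (he 0).nonneg
  have hψ0 : 0 ≤ ψ := hψ.nonneg
  have hm0 := H.hm
  have hK1 : (2 : ℝ) ≤ 1 + 1 / m := H.dh.K2
  have hE0 := div_E H S
  have hP := det_P H hh S hE0
  have hdet : det2 (FF P.d ζ) = 1 := comp_det H S hP
  have hoq : ∀ k, osc P.d.i (q k) = 0 := fun k => (S.b0 hb k).2.2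
  have hmq : ∀ k, mean P.d.i (q k) = q k := fun k => mean_of_osc (hoq k)
  have hρm : 0 < ρ0 - m := by linarith [H.hρ0]
  have hr0 : ∀ t, (0 : ℝ) ≤ cr (ρ0 - m) t := fun _ => hρm.le
  have hr1 : ∀ t, cr (ρ0 - m) t ≤ P.r ρ0 m t := fun t => le_rad hab hm0.le t
  have hr2 : ∀ t, cr (ρ0 - 2 * m) t ≤ cr (ρ0 - m) t := fun _ => by
    show ρ0 - 2 * m ≤ ρ0 - m
    linarith
  -- bounds
  have hE1 : ∀ j, Bd 1 (cr (ρ0 - m)) (frz P.tb (E j)) e := by
    intro j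
    have h1 := (he j).frz P.tb
    have h2 : P.r ρ0 m P.tb = ρ0 - m := rad_right hab
    rwa [h2] at h1
  have hE10 : ∀ j, Bd 0 (cr (ρ0 - m)) (frz P.tb (E j)) e := fun j =>
    (hE1 j).weaken (Nat.zero_le _) fun _ => le_rfl
  have hBH := SB0.bh H S
  have hFF1 : ∀ i j, Bd 1 (cr (ρ0 - m)) (FF P.d ζ i j) (3 * (1 + 1 / m)) := fun i j =>
    (H.dh.bd_FF1 hBH.z i j).weaken le_rfl hr1
  have hFFI : ∀ i j, Bd 0 (cr (ρ0 - m)) (FF P.d ζ i j - idm i j) (3 / 250) := fun i j =>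
    (H.dh.bd_FF0 hBH.z i j).weaken le_rfl hr1
  have hFF0 : ∀ i j, Bd 0 (cr (ρ0 - m)) (FF P.d ζ i j) (253 / 250) := fun i j => by
    have h1 := (hFFI i j).add (fin_idm 0 (cr (ρ0 - m)) i j)
    rw [sub_add_cancel] at h1
    exact h1.mono (by norm_num)
  have hMMI : ∀ i j, Bd 0 (cr (ρ0 - m)) (MM P.d ζ i j - idm i j) (3 / 250) := fun i j =>
    (H.dh.bd_MM0 hBH.z i j).weaken le_rfl hr1
  have hY1 : ∀ j, Bd 1 (cr (ρ0 - m)) (mulv (FF P.d ζ) (fun k => frz P.tb (E k)) j)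
      (2 * (3 * (1 + 1 / m)) * e) := fin_mulv1 hr0 hFF1 hE1
  have hY0 : ∀ j, Bd 0 (cr (ρ0 - m)) (mulv (FF P.d ζ) (fun k => frz P.tb (E k)) j)
      (e + 2 * (3 / 250) * e) := fin_mulv0 hr0 hFFI hE10
  have hDY : ∀ i j, Bd 0 (cr (ρ0 - m))
      (D P.d.κ j (mulv (FF P.d ζ) (fun k => frz P.tb (E k)) i))
      (lam * (2 * (3 * (1 + 1 / m)) * e)) := fun i j => Bd.D H.good.kb j (hY1 i)
  have hDV : ∀ i j, Bd 0 (cr (ρ0 - m)) (D P.d.κ j (nV P.d ζ E i)) (14 * (1 + 1 / m) * g) :=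
    fun i j => (new_DV' H S i j).weaken le_rfl hr1
  have hDV2 : ∀ i j, Bd 0 (cr (ρ0 - m)) (D P.d.κ j (nV P.d ζ E i))
      (g * (1 + 2 * (lam * y)) + 6 * (1 + 1 / m) * lam * e) :=
    fun i j => (new_DV H S hy he i j).weaken le_rfl hr1
  have hXn := fun t : ℝ => lin01_norm P.ta P.tb t
  have hsm : ‖((P.tb - P.ta : ℝ) : ℂ)⁻¹‖ = (P.tb - P.ta)⁻¹ := by
    rw [norm_inv, Complex.norm_real, Real.norm_eq_abs, abs_of_pos hh0]
  have hlamKe : lam * (2 * (3 * (1 + 1 / m)) * e) ≤ 6 * (1 + 1 / m) * g := by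
    have : lam * (2 * (3 * (1 + 1 / m)) * e) = 6 * (1 + 1 / m) * (lam * e) := by ring
    rw [this]
    exact mul_le_mul_of_nonneg_left he' (by positivity)
  -- the stress matrix
  have hS : ∀ i j, Bd 0 (cr (ρ0 - m)) (finS P ζ E Ψ1 i j)
      ((25 / (P.tb - P.ta) + 1000 * (1 + 1 / m) * g) * ψ / 24) := by
    intro i j
    have h1 := (fin_TF hr0 hFF0 hψ i j).smul (((P.tb - P.ta : ℝ) : ℂ)⁻¹)
    rw [hsm] at h1
    have h2 := Bd.cst_mul hXn (fin_TA hr0 P.d.κ hDV hψ i j)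
    have h3 := Bd.cst_mul hXn (Bd.cst_mul hXn (fin_TA hr0 P.d.κ hDY hψ i j))
    have h4 := (h1.neg.sub (h2.add h2)).add h3
    unfold finS
    rw [two_mul, mul_assoc (cst (lin01 P.ta P.tb)) (cst (lin01 P.ta P.tb))]
    refine h4.mono ?_
    have k1 : (P.tb - P.ta)⁻¹ * (253 / 250 * ψ) ≤ 25 / (P.tb - P.ta) * ψ / 24 := by
      rw [div_eq_mul_inv 25 (P.tb - P.ta)]
      have h5 : 0 ≤ (P.tb - P.ta)⁻¹ * ψ := by positivity
      nlinarith
    have k2 : ψ * (lam * (2 * (3 * (1 + 1 / m)) * e)) ≤ ψ * (6 * (1 + 1 / m) * g) :=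
      mul_le_mul_of_nonneg_left hlamKe hψ0
    have k3 : 0 ≤ (1 + 1 / m) * g * ψ := by positivity
    have k4 : (25 / (P.tb - P.ta) + 1000 * (1 + 1 / m) * g) * ψ / 24 =
        25 / (P.tb - P.ta) * ψ / 24 + 1000 / 24 * ((1 + 1 / m) * g * ψ) := by ring
    rw [k4]
    have k5 : ψ * (14 * (1 + 1 / m) * g) = 14 * ((1 + 1 / m) * g * ψ) := by ring
    have k6 : ψ * (6 * (1 + 1 / m) * g) = 6 * ((1 + 1 / m) * g * ψ) := by ring
    rw [k5]
    rw [k6] at k2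
    linarith
  have hzS : ∀ i, Pnz P.d.κ (dvm P.d.κ (finS P ζ E Ψ1) i) = dvm P.d.κ (finS P ζ E Ψ1) i :=
    fun i => Pnz_dvm _ _ _
  have hlev := fun j => new_lev H S j
  have hreal := fun j => new_real H S j
  have hcl := fun j => new_cl H S j
  have lS : ∀ i j, Lev P.d.i (finS P ζ E Ψ1 i j) := finS_cl (Lev P.d.i) (fun _ h => h.neg)
    (fun _ _ h h' => h.add h') (fun _ _ h h' => h.mul h') (fun _ _ h => h.smul _) P
    (fun j _ h => h.D _ j) ζ E Ψ1 (Lev.cst _ _) (fun i j => ((hlev i).2.2.2.2.1 j).1)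
    (fun j => (hlev j).2.1) (fun j => (S.lE j).tcomp _) lΨ
  have rX : IsR (cst (lin01 P.ta P.tb)) := IsR.cst fun t => Complex.conj_ofReal _
  have rS : ∀ i j, IsR (finS P ζ E Ψ1 i j) := finS_cl IsR (fun _ h => h.neg)
    (fun _ _ h h' => h.add h') (fun _ _ h h' => h.mul h') (fun _ _ h => h.smul) P
    (fun j _ h => h.D) ζ E Ψ1 rX (fun i j => ((hreal i).2.2.2.2.1 j).1)
    (fun j => (hreal j).2.1) (fun j => (S.rE j).frz) rΨ
  have cX : Cl P.ta P.tb (cst (lin01 P.ta P.tb)) := by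
    rw [Cl_iff]
    intro ν t
    have h1 : ∀ t, (cst (lin01 P.ta P.tb)).co ν t = if ν = 0 then lin01 P.ta P.tb t else 0 := by
      intro t
      show (Pi.single (0 : Gx) (lin01 P.ta P.tb) : Gx → Ct) ν t = _
      by_cases hν : ν = 0
      · rw [hν, Pi.single_eq_same, if_pos rfl]
      · rw [Pi.single_eq_of_ne hν, if_neg hν]
        rfl
    rw [h1, h1]
    have h2 : lin01 P.ta P.tb (clp P.ta P.tb t) = lin01 P.ta P.tb t := by
      show (((clp P.ta P.tb (clp P.ta P.tb t) - P.ta) / (P.tb - P.ta) : ℝ) : ℂ) =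
        (((clp P.ta P.tb t - P.ta) / (P.tb - P.ta) : ℝ) : ℂ)
      rw [clp_clp hab.le]
    rw [h2]
  have cS : ∀ i j, Cl P.ta P.tb (finS P ζ E Ψ1 i j) := finS_cl (Cl P.ta P.tb) (fun _ h => h.neg)
    (fun _ _ h h' => h.add h') (fun _ _ h h' => h.mul h') (fun _ _ h => h.smul _) P
    (fun j _ h => h.D _ j) ζ E Ψ1 cX (fun i j => ((hcl i).2.2.2.2.1 j).1)
    (fun j => (hcl j).2.1) (fun j => Cl.frz _ _ _ _) (by rw [← tΨ]; exact Cl.frz _ _ _ _)
  obtain ⟨Q, Qs, Qe, Qb, Ql, Qr, Qc⟩ := solveQ P.d.κ (r := cr (ρ0 - m)) hρm (fun _ => le_rfl)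
    (M := MM P.d ζ) hMMI (h := dvm P.d.κ (finS P ζ E Ψ1)) hzS
    (q0 := 12 * ((25 / (P.tb - P.ta) + 1000 * (1 + 1 / m) * g) * ψ / 24))
    (fun i j => Bd.ADm_dvm P.d.κ hS i j) (i := P.d.i) (s := P.ta) (t := P.tb)
    (fun i j => ((hlev i).2.2.2.2.1 j).2)
    (fun i => fin_dvm_cl (Lev P.d.i) (fun _ _ h h' => h.add h') P.d.κ (fun j _ h => h.D _ j) lS i)
    (fun i j => ((hreal i).2.2.2.2.1 j).2)
    (fun i => fin_dvm_cl IsR (fun _ _ h h' => h.add h') P.d.κ (fun j _ h => h.D) rS i)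
    (fun i j => ((hcl i).2.2.2.2.1 j).2)
    (fun i => fin_dvm_cl (Cl P.ta P.tb) (fun _ _ h h' => h.add h') P.d.κ
      (fun j _ h => h.D _ j) cS i)
  -- the data
  have hdF : (P.finD ζ E q Q).F = FF P.d ζ := (FF_eq H S).symm
  have hdM : (P.finD ζ E q Q).M = MM P.d ζ := by
    unfold Dat.M
    rw [hdF]
    rfl
  have hdB : ∀ j, (P.finD ζ E q Q).B j = -(cst (lin01 P.ta P.tb) * frz P.tb (E j)) := by
    intro j
    unfold Dat.B
    rw [hdM]
    have h1 : (P.finD ζ E q Q).v - (P.finD ζ E q Q).U =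
        mulv (FF P.d ζ) (fun k => -(cst (lin01 P.ta P.tb) * frz P.tb (E k))) := by
      funext i
      show nV P.d ζ E i - cst (lin01 P.ta P.tb) *
        mulv (FF P.d ζ) (fun k => frz P.tb (E k)) i - nV P.d ζ E i = _
      simp only [mulv, Fin.sum_univ_two]
      ring
    rw [h1]
    exact mulv_adj' hdet _ j
  have hdacc : ∀ j, (P.finD ζ E q Q).acc j =
      -gradT P.d.κ (MM P.d ζ) (comp P.d.κ ζ P.d.p + pot P.d.κ q) j +
        dvm P.d.κ (finS P ζ E Ψ1) j := by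
    intro j
    unfold Dat.acc
    rw [hdM]
    show -gradT P.d.κ (MM P.d ζ) (comp P.d.κ ζ P.d.p + pot P.d.κ q) j +
      dvm P.d.κ (mulT Q (MM P.d ζ)) j = _
    rw [Qe j]
  have hX0 : ∀ a, D P.d.κ a (cst (lin01 P.ta P.tb)) = 0 := fun a => D_cst _ _ _
  have hmqf : (fun k => mean P.d.i (q k)) = q := funext hmq
  have hYl : ∀ j, Lev P.d.i (mulv (FF P.d ζ) (fun k => frz P.tb (E k)) j) :=
    fin_mulv_cl (Lev P.d.i) (fun _ _ h h' => h.add h') (fun _ _ h h' => h.mul h')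
      (fun i j => ((hlev i).2.2.2.2.1 j).1) (fun j => (S.lE j).tcomp _)
  have hYr : ∀ j, IsR (mulv (FF P.d ζ) (fun k => frz P.tb (E k)) j) :=
    fin_mulv_cl IsR (fun _ _ h h' => h.add h') (fun _ _ h h' => h.mul h')
      (fun i j => ((hreal i).2.2.2.2.1 j).1) (fun j => (S.rE j).frz)
  have hYc : ∀ j, Cl P.ta P.tb (mulv (FF P.d ζ) (fun k => frz P.tb (E k)) j) :=
    fin_mulv_cl (Cl P.ta P.tb) (fun _ _ h h' => h.add h') (fun _ _ h h' => h.mul h')
      (fun i j => ((hcl i).2.2.2.2.1 j).1) (fun j => Cl.frz _ _ _ _)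
  have hql : ∀ j, Lev P.d.i (q j) := fun j => by
    rw [← hmq j]
    exact (S.lq j).mean
  refine ⟨Q, ?_⟩
  exact {
    ht := hab
    kb := H.good.kb
    k0 := H.good.k0
    levξ := fun j => (hlev j).1
    levU := fun j => (hlev j).2.1
    levv := fun j => ((hlev j).2.1).sub ((Lev.cst _ _).mul (hYl j))
    levp := ((hlev 0).2.2.2.1).add (fin_pot_cl (Lev P.d.i) (fun _ _ h h' => h.add h') P.d.κ
      (fun j _ h => h.D _ j) (fun _ h => h.mlt _) hql)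
    levR := Ql
    rξ := fun j => (hreal j).1
    rU := fun j => (hreal j).2.1
    rv := fun j => ((hreal j).2.1).sub (rX.mul (hYr j))
    rp := ((hreal 0).2.2.2.1).add (fin_pot_cl IsR (fun _ _ h h' => h.add h') P.d.κ
      (fun j _ h => h.D) (fun _ h => h.Lin) S.rq)
    rR := Qr
    cξ := fun j => (hcl j).1
    cU := fun j => (hcl j).2.1
    cv := fun j => ((hcl j).2.1).sub (cX.mul (hYc j))
    cp := ((hcl 0).2.2.2.1).add (fin_pot_cl (Cl P.ta P.tb) (fun _ _ h h' => h.add h') P.d.κ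
      (fun j _ h => h.D _ j) (fun _ h => h.mlt _) S.cq)
    cR := Qc
    fξ := fun j => by
      obtain ⟨x, hx⟩ := (new_fin H S j).1
      exact ⟨x, hx.weaken le_rfl hr2⟩
    fU := fun j => by
      obtain ⟨x, hx⟩ := (new_fin H S j).2.1
      exact ⟨x, hx.weaken le_rfl hr2⟩
    fv := fun j => by
      obtain ⟨x, hx⟩ := (new_fin H S j).2.1
      exact ⟨_, (hx.sub (Bd.cst_mul hXn (hY0 j))).weaken le_rfl hr2⟩
    fp := by
      obtain ⟨x, hx⟩ := (new_fin H S 0).2.2.2.1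
      obtain ⟨x', hx'⟩ := (new_fin H S 0).2.2.2.2.2
      rw [hmqf] at hx'
      exact ⟨_, (hx.add hx').weaken le_rfl hr2⟩
    symm := Qs
    tdξ := fun j => td_nX H S j
    tdv := fun j => by
      have h1 := fin_eq H S hb hP hΨ j
      have h2 : (P.finD ζ E q Q).rhs j = dvm P.d.κ (finS P ζ E Ψ1) j
        - gradT P.d.κ (MM P.d ζ) (comp P.d.κ ζ P.d.p + pot P.d.κ q) j
        - adv P.d.κ (fun k => -(cst (lin01 P.ta P.tb) * frz P.tb (E k)))
            (fun i => nV P.d ζ E i - cst (lin01 P.ta P.tb) *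
              mulv (FF P.d ζ) (fun k => frz P.tb (E k)) i) j := by
        unfold Dat.rhs
        rw [hdacc j, show (P.finD ζ E q Q).B =
          (fun k => -(cst (lin01 P.ta P.tb) * frz P.tb (E k))) from funext hdB]
        show _ - adv P.d.κ _ (fun i => nV P.d ζ E i - cst (lin01 P.ta P.tb) *
              mulv (FF P.d ζ) (fun k => frz P.tb (E k)) i) j = _
        ring
      rw [h2]
      exact h1
    det := by rw [hdF]; exact hdet
    div := by
      show dvg P.d.κ (P.finD ζ E q Q).B = 0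
      rw [show (P.finD ζ E q Q).B =
          (fun k => -(cst (lin01 P.ta P.tb) * dp P.d.κ k Ψ1)) from funext fun k => by
            rw [hdB k, hΨ k]]
      have h1 := div_dp P.d.κ Ψ1
      rw [Fin.sum_univ_two] at h1
      simp only [dvg, Fin.sum_univ_two, map_neg, D_mul, hX0]
      linear_combination (-(cst (lin01 P.ta P.tb))) * h1
    bF := fun i j => (new_bF H S hy i j).1.weaken le_rfl fun t => (hr2 t).trans (hr1 t)
    bB := fun j => by
      rw [hdB j]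
      have h1 := (Bd.cst_mul hXn (hE10 j)).neg.weaken le_rfl hr2
      refine h1.mono ?_
      rw [one_mul, le_div_iff₀ hlam0]
      have h3 : 0 ≤ g * (2 * (lam * y)) := by positivity
      have h4 : 0 ≤ 12 * (1 + 1 / m) * lam * e := by positivity
      nlinarith
    bG := fun i j => by
      show Bd 0 (cr (ρ0 - 2 * m)) (D P.d.κ j (nV P.d ζ E i - cst (lin01 P.ta P.tb) *
        mulv (FF P.d ζ) (fun k => frz P.tb (E k)) i)) _
      rw [map_sub, D_mul, hX0, zero_mul, zero_add]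
      have h1 := ((hDV2 i j).sub (Bd.cst_mul hXn (hDY i j))).weaken le_rfl hr2
      refine h1.mono (le_of_eq ?_)
      ring
    bR := fun i j => ((Qb i j).weaken le_rfl hr2).mono (le_of_eq (by ring))
    bA := fun j => by
      rw [hdacc j]
      have h1 := (new_acc H S hP R.nq j).weaken le_rfl hr1
      have e1 : mulvT (MM P.d ζ) q j = gradT P.d.κ (MM P.d ζ) (pot P.d.κ q) j := by
        have h2 : ∀ k, q k = D P.d.κ k (pot P.d.κ q) := by
          intro k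
          have h3 := mean_q_eq H S k
          rw [hmqf, hmq k] at h3
          exact h3
        have h5 : q = fun k => D P.d.κ k (pot P.d.κ q) := funext h2
        unfold gradT
        rw [← h5]
      have e2 : gradT P.d.κ (MM P.d ζ) (comp P.d.κ ζ P.d.p + pot P.d.κ q) j =
          gradT P.d.κ (MM P.d ζ) (comp P.d.κ ζ P.d.p) j +
            gradT P.d.κ (MM P.d ζ) (pot P.d.κ q) j := by
        simp only [gradT, mulvT, map_add, mul_add, Finset.sum_add_distrib]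
      have e3 : dvm P.d.κ (finS P ζ E Ψ1) j =
          -(((P.tb - P.ta : ℝ) : ℂ)⁻¹ • mulv (FF P.d ζ) (fun k => frz P.tb (E k)) j)
          - 2 * (cst (lin01 P.ta P.tb) * adv P.d.κ (fun k => frz P.tb (E k)) (nV P.d ζ E) j)
          + cst (lin01 P.ta P.tb) * cst (lin01 P.ta P.tb) *
            adv P.d.κ (fun k => frz P.tb (E k)) (mulv (FF P.d ζ) (fun k => frz P.tb (E k))) j := by
        unfold finS
        rw [FF_eq H S]
        exact fin_dvm P.d.κ (nX P.d ζ) (nV P.d ζ E) (fun k => frz P.tb (E k)) _ Ψ1 _ hX0 hΨ j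
      have h6 := (hY0 j).smul (((P.tb - P.ta : ℝ) : ℂ)⁻¹)
      rw [hsm] at h6
      have h7 := Bd.cst_mul hXn (fin_adv0 hr0 P.d.κ hE10 hDV j)
      have h8 := Bd.cst_mul hXn (Bd.cst_mul hXn (fin_adv0 hr0 P.d.κ hE10 hDY j))
      have h9 := (h1.add ((h6.neg.sub (h7.add h7)).add h8)).weaken le_rfl hr2
      have e5 : ∀ x : WT, 2 * x = x + x := fun x => two_mul x
      rw [e2, ← e1, e3, e5, mul_assoc (cst (lin01 P.ta P.tb)) (cst (lin01 P.ta P.tb))]
      have e4 : ∀ x y z : WT, -(x + y) + z = -x - y + z := fun x y z => by ring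
      rw [e4]
      refine h9.mono ?_
      have k1 : (P.tb - P.ta)⁻¹ * (e + 2 * (3 / 250) * e) ≤ 2 * e / (P.tb - P.ta) := by
        have h5 : 0 ≤ (P.tb - P.ta)⁻¹ * e := by positivity
        have h10 : 2 * e / (P.tb - P.ta) = 2 * ((P.tb - P.ta)⁻¹ * e) := by ring
        have h11 : (P.tb - P.ta)⁻¹ * (e + 2 * (3 / 250) * e) =
          256 / 250 * ((P.tb - P.ta)⁻¹ * e) := by ring
        rw [h10, h11]
        linarith
      have k2 : 2 * e * (lam * (2 * (3 * (1 + 1 / m)) * e)) ≤ 2 * e * (6 * (1 + 1 / m) * g) :=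
        mul_le_mul_of_nonneg_left hlamKe (by positivity)
      have k3 : 0 ≤ (1 + 1 / m) * g * e := by positivity
      have k4 : 12 * (1 + 1 / m) ^ 2 * lam * σ ≤ 12 * (1 + 1 / m) ^ 4 * g * w := by
        have q1 : lam * σ ≤ g * w := by
          calc lam * σ ≤ lam * w ^ 2 := mul_le_mul_of_nonneg_left H.hσ hlam0.le
            _ = (lam * w) * w := by ring
            _ ≤ g * w := mul_le_mul_of_nonneg_right hlw hw0.le
        have q2 : (1 + 1 / m) ^ 2 ≤ (1 + 1 / m) ^ 4 :=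
          pow_le_pow_right₀ (by linarith) (by norm_num)
        calc 12 * (1 + 1 / m) ^ 2 * lam * σ = 12 * ((1 + 1 / m) ^ 2 * (lam * σ)) := by ring
          _ ≤ 12 * ((1 + 1 / m) ^ 4 * (g * w)) := by
              refine mul_le_mul_of_nonneg_left ?_ (by norm_num)
              exact mul_le_mul q2 q1 (mul_nonneg hlam0.le H.hσ0) (by positivity)
          _ = _ := by ring
      have k5 : 0 ≤ (1 + 1 / m) ^ 4 * g * w := by positivity
      have k6 : 2 * e * (14 * (1 + 1 / m) * g) = 28 * ((1 + 1 / m) * g * e) := by ring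
      have k7 : 2 * e * (6 * (1 + 1 / m) * g) = 12 * ((1 + 1 / m) * g * e) := by ring
      rw [k6]
      rw [k7] at k2
      nlinarith }

end

end ES
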