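import Pool.Agent.ES.XNew
import Pool.Agent.ES.XAnti

/-!
ES-XGap: the new data on the gap and on the ramps are good (EW 3, Prop. 3.5).
Use `Good.of_big`; `F` of the new data is `FF` (`FF_eq'`), `B = W` (`rel_vel`), the equation is
`td_u` with `F_a_M_q` (gap), resp. `F_a_M_q_mean` and the definition of `SB.force` (ramps).
-/

open scoped BoundedContinuousFunction

namespace ES

section
variable {P : SB} {lam g σ ρ c A ρ0 m w η C0 : ℝ} {ζ E W a q : Vec}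

/-- the unclamped data -/
private noncomputable def XGap_D (P : SB) (ζ E W : Vec) (p : WT) (Q : Mat) : Dat where
  κ := P.κ'
  i := P.d.i + 1
  ξ := nX P.d ζ
  U := nV P.d ζ E
  v := nu' P.d ζ E W
  p := p
  R := Q

private theorem XGap_tab (H : SBH P lam g σ ρ c A ρ0 m w η) : P.ta < P.tb :=
  H.h1.trans (H.h2.trans H.h3)

private theorem XGap_k0 (H : SBH P lam g σ ρ c A ρ0 m w η) : ∀ a, P.d.κ.k a P.d.i = 0 :=
  fun a => H.good.k0 a P.d.i le_rfl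

private theorem XGap_D' (H : SBH P lam g σ ρ c A ρ0 m w η) (b : Fin 2) {f : WT}
    (hf : osc P.d.i f = 0) : D P.κ' b f = D P.d.κ b f :=
  D_upd_of_osc P.d.κ P.d.i _ (XGap_k0 H) b hf

private theorem XGap_r (H : SBH P lam g σ ρ c A ρ0 m w η) (t : ℝ) :
    ρ0 - m ≤ P.r ρ0 m t := le_rad (XGap_tab H) H.hm.le t

private theorem XGap_r2 (H : SBH P lam g σ ρ c A ρ0 m w η) (t : ℝ) :
    ρ0 - 2 * m ≤ P.r ρ0 m t := by
  have h1 := XGap_r H t
  have h2 := H.hm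
  linarith

private theorem XGap_g0 (H : SBH P lam g σ ρ c A ρ0 m w η) : 0 < g := by
  have h1 := H.hlw
  have h2 := H.hlam
  have h3 := H.hw
  nlinarith

private theorem XGap_K (H : SBH P lam g σ ρ c A ρ0 m w η) : 1 ≤ 1 + 1 / m := by
  have h1 : 0 < 1 / m := by
    have := H.hm
    positivity
  linarith

private theorem XGap_lamL (H : SBH P lam g σ ρ c A ρ0 m w η) : lam ≤ (P.L : ℝ) := by
  have h1 := H.hL
  have h2 := XGap_K H
  have h3 := H.hlam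
  nlinarith

private theorem XGap_L (H : SBH P lam g σ ρ c A ρ0 m w η) : 1 ≤ (P.L : ℝ) :=
  H.hlam.trans (XGap_lamL H)

private theorem XGap_kb (H : SBH P lam g σ ρ c A ρ0 m w η) : KB P.κ' (2 * P.L) := by
  have hL := XGap_L H
  refine KB_upd H.good.kb P.d.i _ ?_ ?_
  · have := XGap_lamL H
    linarith
  · intro a
    have h1 : |((P.k0 a : ℤ) : ℝ)| ≤ 2 := by exact_mod_cast H.hk a
    push_cast
    rw [abs_mul, abs_of_nonneg (by positivity : (0 : ℝ) ≤ (P.L : ℝ))]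
    nlinarith

private theorem XGap_kk (H : SBH P lam g σ ρ c A ρ0 m w η) :
    ∀ a j, P.d.i + 1 ≤ j → P.κ'.k a j = 0 := by
  intro a j hj
  have h1 : j ≠ P.d.i := by omega
  have h2 : P.κ'.k a j = P.d.κ.k a j := by
    unfold SB.κ' upd
    simp only
    rw [Function.update_of_ne h1]
  rw [h2]
  exact H.good.k0 a j (by omega)

private theorem XGap_Fin0 {ρ₁ ρ₂ : ℝ} {f : WT} (h : Fin0 ρ₁ f) (h12 : ρ₂ ≤ ρ₁) : Fin0 ρ₂ f := by
  obtain ⟨c, hc⟩ := h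
  exact ⟨c, hc.weaken le_rfl fun _ => h12⟩

private theorem XGap_pot_lev {κ : Kp} {i : ℕ} {q : Vec} (hq : ∀ j, Lev i (q j)) :
    Lev i (pot κ q) := by
  unfold pot dvg
  exact Lev.mlt _ (Lev.sum _ fun j _ => (hq j).D κ j)

private theorem XGap_pot_real {κ : Kp} {q : Vec} (hq : ∀ j, IsR (q j)) : IsR (pot κ q) := by
  unfold pot dvg
  exact (IsR.sum _ fun j _ => (hq j).D).Lin

private theorem XGap_main (H : SBH P lam g σ ρ c A ρ0 m w η)
    (hh : 10 ^ 8 * (1 + 1 / m) ^ 5 * (P.tb - P.ta) * g ≤ 1)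
    (S : SB0 P lam g ρ0 m w ζ E W a q) (R : SBR P (10 ^ 7) lam g ρ0 m w η ζ E W a q) {y : ℝ}
    (hy : ∀ j, Bd 1 (P.r ρ0 m) (ζ j) y) {s t : ℝ} (h1 : P.ta ≤ s) (h2 : s < t) (h3 : t ≤ P.tb)
    {p1 : WT} {q1 F1 : Vec} {Q : Mat} {α1 σ1 φ1 : ℝ}
    (lp : Lev (P.d.i + 1) p1) (rp : IsR p1) (fp : Fin0 (ρ0 - 2 * m) p1)
    (hq1 : ∀ j, D P.κ' j p1 = q1 j) (bq : ∀ j, Bd 0 (P.r ρ0 m) (q1 j) α1)
    (sQ : ∀ a b, Q a b = Q b a) (lQ : ∀ a b, Lev (P.d.i + 1) (Q a b)) (rQ : ∀ a b, IsR (Q a b))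
    (bQ : ∀ a b, Bd 0 (cr (ρ0 - 2 * m)) (Q a b) σ1)
    (hF : ∀ j, dvm P.κ' (mulT Q (MM P.d ζ)) j = F1 j)
    (bF1 : ∀ j, Bd 0 (cr (ρ0 - 2 * m)) (F1 j) φ1)
    (hTD : ∀ j, TD s t (nu' P.d ζ E W j) (-adv P.κ' W (nu' P.d ζ E W) j
      - gradT P.d.κ (MM P.d ζ) (comp P.d.κ ζ P.d.p) j - mulvT (MM P.d ζ) q1 j + F1 j)) :
    Good (Dat.tcl (XGap_D P ζ E W (comp P.d.κ ζ P.d.p + p1) Q) s t) s t (2 * P.L)
      (10 ^ 8 * (P.L * w + (1 + 1 / m) ^ 2 * g)) σ1 (ρ0 - 2 * m) (c + lam * y * (1 + 2 * c))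
      (A + 12 * (1 + 1 / m) ^ 2 * lam * σ + 103 / 100 * α1 + φ1) := by
  have hP : det2 (Pm P.d ζ) = 1 := det_P H hh S (div_E H S)
  have hdF : det2 (FF P.d ζ) = 1 := comp_det H S hP
  have hm := H.hm
  have hFF := FF_eq' H S
  have hB : (XGap_D P ζ E W (comp P.d.κ ζ P.d.p + p1) Q).B = W := by
    funext j
    change mulv (adj (Fm P.κ' (nX P.d ζ))) (nu' P.d ζ E W - nV P.d ζ E) j = W j
    rw [← hFF]
    exact rel_vel H S hdF j
  have hM : (XGap_D P ζ E W (comp P.d.κ ζ P.d.p + p1) Q).M = MM P.d ζ := by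
    change adj (Fm P.κ' (nX P.d ζ)) = adj (FF P.d ζ)
    rw [← hFF]
  have hosc : osc P.d.i (comp P.d.κ ζ P.d.p) = 0 := ((new_lev H S 0).2.2.2.1).osc le_rfl
  have hgrad : ∀ j, gradT P.κ' (MM P.d ζ) (comp P.d.κ ζ P.d.p + p1) j =
      gradT P.d.κ (MM P.d ζ) (comp P.d.κ ζ P.d.p) j + mulvT (MM P.d ζ) q1 j := by
    intro j
    unfold gradT mulvT
    rw [← Finset.sum_add_distrib]
    refine Finset.sum_congr rfl fun k _ => ?_
    beta_reduce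
    rw [map_add, hq1 k, XGap_D' H k hosc, mul_add]
  have hacc : ∀ j, (XGap_D P ζ E W (comp P.d.κ ζ P.d.p + p1) Q).acc j =
      -gradT P.d.κ (MM P.d ζ) (comp P.d.κ ζ P.d.p) j - mulvT (MM P.d ζ) q1 j + F1 j := by
    intro j
    have e1 : (XGap_D P ζ E W (comp P.d.κ ζ P.d.p + p1) Q).acc j =
        -gradT P.κ' (XGap_D P ζ E W (comp P.d.κ ζ P.d.p + p1) Q).M
          (comp P.d.κ ζ P.d.p + p1) j +
        dvm P.κ' (mulT Q (XGap_D P ζ E W (comp P.d.κ ζ P.d.p + p1) Q).M) j := rfl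
    rw [e1, hM, hgrad, hF]
    ring
  have hw := H.hw
  have hL := XGap_L H
  have hg := XGap_g0 H
  have hK := XGap_K H
  refine Good.of_big h2 (XGap_kb H) (XGap_kk H)
    (fun j => (new_lev H S j).1.mono (Nat.le_succ _))
    (fun j => (new_lev H S j).2.1.mono (Nat.le_succ _))
    (fun j => (new_lev H S j).2.2.1)
    (((new_lev H S 0).2.2.2.1.mono (Nat.le_succ _)).add lp) lQ
    (fun j => (new_real H S j).1) (fun j => (new_real H S j).2.1)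
    (fun j => (new_real H S j).2.2.1) (((new_real H S 0).2.2.2.1).add rp) rQ
    (fun j => XGap_Fin0 (new_fin H S j).1 (by linarith))
    (fun j => XGap_Fin0 (new_fin H S j).2.1 (by linarith))
    (fun j => XGap_Fin0 (new_fin H S j).2.2.1 (by linarith)) ?_ sQ
    (fun j => (td_nX H S j).mono h1 h3) ?_ ?_ ?_ ?_ ?_ ?_ bQ ?_
  · obtain ⟨c1, hc1⟩ := XGap_Fin0 (new_fin H S 0).2.2.2.1 (by linarith : ρ0 - 2 * m ≤ ρ0 - m)
    obtain ⟨c2, hc2⟩ := fp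
    exact ⟨c1 + c2, hc1.add hc2⟩
  · intro j
    have e1 : (XGap_D P ζ E W (comp P.d.κ ζ P.d.p + p1) Q).rhs j =
        (XGap_D P ζ E W (comp P.d.κ ζ P.d.p + p1) Q).acc j -
        adv P.κ' (XGap_D P ζ E W (comp P.d.κ ζ P.d.p + p1) Q).B (nu' P.d ζ E W) j := rfl
    rw [e1, hacc, hB]
    have e2 : -gradT P.d.κ (MM P.d ζ) (comp P.d.κ ζ P.d.p) j - mulvT (MM P.d ζ) q1 j + F1 j -
        adv P.κ' W (nu' P.d ζ E W) j = -adv P.κ' W (nu' P.d ζ E W) j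
      - gradT P.d.κ (MM P.d ζ) (comp P.d.κ ζ P.d.p) j - mulvT (MM P.d ζ) q1 j + F1 j := by ring
    rw [e2]
    exact hTD j
  · change det2 (Fm P.κ' (nX P.d ζ)) = 1
    rw [← hFF]
    exact hdF
  · rw [hB]
    exact div_W H S
  · intro i j
    exact ((new_bF H S hy i j).2).to_cr (XGap_r2 H)
  · intro j
    rw [hB]
    refine ((R.nW0 j).to_cr (XGap_r2 H)).mono ?_
    rw [le_div_iff₀ (by positivity)]
    have e3 : 0 ≤ (1 + 1 / m) ^ 2 * g := by positivity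
    nlinarith [mul_pos hw (by linarith : (0 : ℝ) < P.L)]
  · intro i j
    refine ((new_Du H S (by norm_num : (0 : ℝ) ≤ 10 ^ 7) R.nWt i j).to_cr (XGap_r2 H)).mono ?_
    have e3 : 0 ≤ (1 + 1 / m) ^ 2 * g := by positivity
    have e4 : 0 ≤ (P.L : ℝ) * w := by positivity
    nlinarith
  · intro j
    rw [hacc]
    exact ((new_acc H S hP bq j).to_cr (XGap_r2 H)).add (bF1 j)

private theorem XGap_Amono (H : SBH P lam g σ ρ c A ρ0 m w η) {x : ℝ}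
    (hx : x ≤ 2 * 10 ^ 6 * ((1 + 1 / m) ^ 2 * g * w)) :
    12 * (1 + 1 / m) ^ 2 * lam * σ + 103 / 100 * x ≤ 9 * 10 ^ 7 * (1 + 1 / m) ^ 4 * g * w := by
  have hw := H.hw
  have hg := XGap_g0 H
  have hK := XGap_K H
  have hlam := H.hlam
  have h1 : lam * σ ≤ g * w := by
    have e1 : lam * σ ≤ lam * w ^ 2 := mul_le_mul_of_nonneg_left H.hσ (by linarith)
    have e2 : lam * w ^ 2 = lam * w * w := by ring
    have e3 : lam * w * w ≤ g * w := mul_le_mul_of_nonneg_right H.hlw hw.le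
    linarith
  have h2 : (1 + 1 / m) ^ 2 * (lam * σ) ≤ (1 + 1 / m) ^ 2 * (g * w) :=
    mul_le_mul_of_nonneg_left h1 (by positivity)
  have h3 : (1 + 1 / m) ^ 2 ≤ (1 + 1 / m) ^ 4 := pow_le_pow_right₀ hK (by norm_num)
  have h4 : (1 + 1 / m) ^ 2 * (g * w) ≤ (1 + 1 / m) ^ 4 * (g * w) :=
    mul_le_mul_of_nonneg_right h3 (by positivity)
  have e1 : 12 * (1 + 1 / m) ^ 2 * lam * σ = 12 * ((1 + 1 / m) ^ 2 * (lam * σ)) := by ring
  have e2 : 9 * 10 ^ 7 * (1 + 1 / m) ^ 4 * g * w = 9 * 10 ^ 7 * ((1 + 1 / m) ^ 4 * (g * w)) := by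
    ring
  have e3 : (1 + 1 / m) ^ 2 * g * w = (1 + 1 / m) ^ 2 * (g * w) := by ring
  have e4 : 0 ≤ (1 + 1 / m) ^ 4 * (g * w) := by positivity
  rw [e1, e2]
  rw [e3] at hx
  linarith

/-- larger stress and acceleration bounds -/
private theorem XGap_mono {d : Dat} {t0 t1 lam g σ ρ c A σ' A' : ℝ}
    (h : Good d t0 t1 lam g σ ρ c A) (h1 : σ ≤ σ') (h2 : A ≤ A') :
    Good d t0 t1 lam g σ' ρ c A' :=
  { h with
    bR := fun a b => (h.bR a b).mono h1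
    bA := fun a => (h.bA a).mono h2 }

theorem gap_good (H : SBH P lam g σ ρ c A ρ0 m w η)
    (hh : 10 ^ 8 * (1 + 1 / m) ^ 5 * (P.tb - P.ta) * g ≤ 1)
    (S : SB0 P lam g ρ0 m w ζ E W a q) (R : SBR P (10 ^ 7) lam g ρ0 m w η ζ E W a q) {y : ℝ}
    (hy : ∀ j, Bd 1 (P.r ρ0 m) (ζ j) y) :
    Good (P.gapD ζ E W q) P.s1 P.s2 (2 * P.L) (10 ^ 8 * (P.L * w + (1 + 1 / m) ^ 2 * g)) 0
      (ρ0 - 2 * m) (c + lam * y * (1 + 2 * c)) (A + 10 ^ 8 * (1 + 1 / m) ^ 4 * g * w) := by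
  have hP : det2 (Pm P.d ζ) = 1 := det_P H hh S (div_E H S)
  have hm := H.hm
  have key := XGap_main H hh S R hy (s := P.s1) (t := P.s2) H.h1.le H.h2 H.h3.le
    (p1 := pot P.κ' q) (q1 := q) (F1 := fun _ => 0) (Q := fun _ _ => 0)
    (α1 := 10 ^ 6 * (1 + 1 / m) ^ 2 * g * w) (σ1 := 0) (φ1 := 0)
    (XGap_pot_lev S.lq) (XGap_pot_real S.rq)
    (XGap_Fin0 (new_fin H S 0).2.2.2.2.1 (by linarith))
    (fun j => (q_eq_D_pot S j).symm) S.nq (fun _ _ => rfl) (fun _ _ => Lev.zero _)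
    (fun _ _ => IsR.zero) (fun _ _ => Bd.zero _ _ le_rfl)
    (fun j => by
      unfold dvm mulT
      simp)
    (fun _ => Bd.zero _ _ le_rfl)
    (fun j => by
      have h1 := td_u H S hP H.h1.le H.h3.le (fun k => td_W_gap S H k) j
      have h2 : mulv (FF P.d ζ) (fun k => mean P.d.i (a k) + osc P.d.i (a k)) j =
          P.f ζ E W j - mulvT (MM P.d ζ) q j := by
        have h3 : (fun k => mean P.d.i (a k) + osc P.d.i (a k)) = a :=
          funext fun k => mean_add_osc _ _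
        rw [h3, ← F_a_M_q H S j]
        ring
      rw [h2] at h1
      have h4 : -adv P.κ' W (nu' P.d ζ E W) j -
          gradT P.d.κ (MM P.d ζ) (comp P.d.κ ζ P.d.p) j - P.f ζ E W j +
          (P.f ζ E W j - mulvT (MM P.d ζ) q j) = -adv P.κ' W (nu' P.d ζ E W) j
          - gradT P.d.κ (MM P.d ζ) (comp P.d.κ ζ P.d.p) j - mulvT (MM P.d ζ) q j + 0 := by ring
      rw [h4] at h1
      exact h1)
  refine XGap_mono key le_rfl ?_
  have hw := H.hw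
  have hg := XGap_g0 H
  have hK := XGap_K H
  have e0 : 0 ≤ (1 + 1 / m) ^ 2 * g * w := by positivity
  have e1 := XGap_Amono H (x := 10 ^ 6 * (1 + 1 / m) ^ 2 * g * w) (by nlinarith)
  have e2 : 0 ≤ (1 + 1 / m) ^ 4 * g * w := by positivity
  nlinarith

private theorem XGap_osc_mulv_lev {i : ℕ} {F : Mat} (hF : ∀ a b, Lev i (F a b)) {x : Vec}
    (hx : ∀ b, Lev i (x b)) (j : Fin 2) : Lev i (mulv F x j) := by
  unfold mulv
  exact Lev.sum _ fun b _ => (hF j b).mul (hx b)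

/-- Ramps: for a subinterval `[s,t]` of `[ta,tb]` with `∂_t W = Wt`, `Wt` of mean zero, divergence
free without zero frequency modes, `N0(Wt) ≤ α`. -/
theorem ramp_good (H : SBH P lam g σ ρ c A ρ0 m w η)
    (hh : 10 ^ 8 * (1 + 1 / m) ^ 5 * (P.tb - P.ta) * g ≤ 1)
    (h3m : 3 * m ≤ ρ0) (hk0 : P.k0 0 ≠ 0 ∨ P.k0 1 ≠ 0) (hexp : Real.exp (-(m * P.L / (4 * lam))) ≤ 1 / P.L)
    (S : SB0 P lam g ρ0 m w ζ E W a q) (R : SBR P (10 ^ 7) lam g ρ0 m w η ζ E W a q) {y : ℝ}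
    (hy : ∀ j, Bd 1 (P.r ρ0 m) (ζ j) y) {s t : ℝ} (h1 : P.ta ≤ s) (h2 : s < t) (h3 : t ≤ P.tb)
    {Wt : Vec} {α : ℝ} (hTD : ∀ j, TD s t (W j) (Wt j)) (hα : ∀ j, Bd 0 (cr (ρ0 - m)) (Wt j) α)
    (hm : ∀ j, mean P.d.i (Wt j) = 0) (hd : dvg P.κ' Wt = 0)
    (hz : ∀ j, Pnz P.κ' (Wt j) = Wt j) (hl : ∀ j, Lev (P.d.i + 1) (Wt j))
    (hr : ∀ j, IsR (Wt j)) (hc : ∀ j, Cl P.ta P.tb (Wt j)) :
    ∃ Q : Mat, Good (P.rampD ζ E W q Q s t) s t (2 * P.L)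
      (10 ^ 8 * (P.L * w + (1 + 1 / m) ^ 2 * g))
      (24 / P.L * (103 / 100 * α + 10 ^ 5 * (1 + 1 / m) ^ 2 * g * w))
      (ρ0 - 2 * m) (c + lam * y * (1 + 2 * c))
      (A + 10 ^ 8 * (1 + 1 / m) ^ 4 * g * w + 2 * α) := by
  have hP : det2 (Pm P.d ζ) = 1 := det_P H hh S (div_E H S)
  have hmm := H.hm
  have hL := XGap_L H
  have hw := H.hw
  have hg := XGap_g0 H
  have hK := XGap_K H
  have hLN : 0 < P.L := by
    rcases Nat.eq_zero_or_pos P.L with h0 | h0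
    · rw [h0] at hL
      norm_num at hL
    · exact h0
  have hα0 : 0 ≤ α := (hα 0).nonneg
  -- the force
  have bh : ∀ j, Bd 0 (cr (ρ0 - m)) (P.force ζ E W Wt j)
      (103 / 100 * α + 10 ^ 5 * (1 + 1 / m) ^ 2 * g * w) := fun j => force_bd H S hα j
  have lh : ∀ j, Lev (P.d.i + 1) (P.force ζ E W Wt j) := by
    intro j
    unfold SB.force
    refine Lev.sub ?_ (Lev.mlt _ (new_lev H S j).2.2.2.2.2)
    exact XGap_osc_mulv_lev
      (fun a b => ((new_lev H S a).2.2.2.2.1 b).1.mono (Nat.le_succ _)) hl j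
  have rh : ∀ j, IsR (P.force ζ E W Wt j) := by
    intro j
    unfold SB.force mulv
    exact IsR.sub (IsR.sum _ fun b _ => ((new_real H S j).2.2.2.2.1 b).1.mul (hr b))
      (new_real H S j).2.2.2.2.2.osc
  have ch : ∀ j, Cl P.ta P.tb (P.force ζ E W Wt j) := by
    intro j
    unfold SB.force mulv
    exact Cl.sub (Cl.sum _ fun b _ => ((new_cl H S j).2.2.2.2.1 b).1.mul (hc b))
      (Cl.mlt _ (new_cl H S j).2.2.2.2.2)
  have bQ0 : ∀ a b, Bd 0 (cr (ρ0 - 2 * m)) (ADm P.κ' (P.force ζ E W Wt) a b)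
      (12 / P.L * (103 / 100 * α + 10 ^ 5 * (1 + 1 / m) ^ 2 * g * w)) := by
    intro a b
    have h5 : ∀ e ∈ (Finset.univ : Finset (Fin 2)), Bd 0 (cr (ρ0 - 2 * m))
        (AD P.κ' a b e (P.force ζ E W Wt e))
        (6 / P.L * (103 / 100 * α + 10 ^ 5 * (1 + 1 / m) ^ 2 * g * w)) := fun e _ =>
      Bd.AD_gain P.d.κ P.d.i P.k0 H.good.kb (XGap_k0 H) hk0 H.hlam hLN hmm hexp
        (fun _ => by change ρ0 - 2 * m + m ≤ ρ0 - m; linarith) (bh e) (force_mean H S hm e) a b e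
    refine (Bd.sum Finset.univ h5).mono (le_of_eq ?_)
    rw [Finset.sum_const, Finset.card_univ, Fintype.card_fin, nsmul_eq_mul]
    push_cast
    ring
  have bMM : ∀ a b, Bd 0 (cr (ρ0 - 2 * m)) (MM P.d ζ a b - idm a b) (3 / 250) := fun a b =>
    (DH.bd_MM0 H.dh (SB0.bh H S).z a b).to_cr (XGap_r2 H)
  obtain ⟨Q, sQ, dQ, bQ, lQ, rQ, cQ⟩ := solveQ P.κ' (r := cr (ρ0 - 2 * m)) hmm
    (fun _ => by change m ≤ ρ0 - 2 * m; linarith) bMM (force_Pnz H S hd hz) bQ0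
    (fun a b => ((new_lev H S a).2.2.2.2.1 b).2.mono (Nat.le_succ _)) lh
    (fun a b => ((new_real H S a).2.2.2.2.1 b).2) rh
    (fun a b => ((new_cl H S a).2.2.2.2.1 b).2) ch
  refine ⟨Q, ?_⟩
  -- the pressure
  have lmq : ∀ j, Lev P.d.i (mean P.d.i (q j)) := fun j => (S.lq j).mean
  have hosc : osc P.d.i (pot P.d.κ (fun k => mean P.d.i (q k))) = 0 :=
    (XGap_pot_lev lmq).osc le_rfl
  have key := XGap_main H hh S R hy h1 h2 h3
    (p1 := pot P.d.κ (fun k => mean P.d.i (q k))) (q1 := fun k => mean P.d.i (q k))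
    (F1 := P.force ζ E W Wt) (Q := Q)
    (α1 := 10 ^ 6 * (1 + 1 / m) ^ 2 * g * w)
    (σ1 := 2 * (12 / P.L * (103 / 100 * α + 10 ^ 5 * (1 + 1 / m) ^ 2 * g * w)))
    (φ1 := 103 / 100 * α + 10 ^ 5 * (1 + 1 / m) ^ 2 * g * w)
    ((XGap_pot_lev lmq).mono (Nat.le_succ _)) (XGap_pot_real fun j => (S.rq j).mean)
    (XGap_Fin0 (new_fin H S 0).2.2.2.2.2 (by linarith))
    (fun j => by rw [XGap_D' H j hosc, ← mean_q_eq H S j])
    (fun j => (S.nq j).mean P.d.i) sQ lQ rQ bQ dQ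
    (fun j => (bh j).weaken le_rfl fun _ => by change ρ0 - 2 * m ≤ ρ0 - m; linarith)
    (fun j => by
      have e1 := td_u H S hP h1 h3 hTD j
      have e2 : mulv (FF P.d ζ) (fun k => mean P.d.i (a k) + Wt k) j =
          mulv (FF P.d ζ) (fun k => mean P.d.i (a k)) j + mulv (FF P.d ζ) Wt j := by
        unfold mulv
        rw [← Finset.sum_add_distrib]
        exact Finset.sum_congr rfl fun b _ => mul_add _ _ _
      have e3 := F_a_M_q_mean H S j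
      have e4 := mean_add_osc P.d.i (P.f ζ E W j)
      have e5 : P.force ζ E W Wt j = mulv (FF P.d ζ) Wt j - osc P.d.i (P.f ζ E W j) := rfl
      have e6 : -adv P.κ' W (nu' P.d ζ E W) j -
          gradT P.d.κ (MM P.d ζ) (comp P.d.κ ζ P.d.p) j - P.f ζ E W j +
          mulv (FF P.d ζ) (fun k => mean P.d.i (a k) + Wt k) j =
          -adv P.κ' W (nu' P.d ζ E W) j - gradT P.d.κ (MM P.d ζ) (comp P.d.κ ζ P.d.p) j -
          mulvT (MM P.d ζ) (fun k => mean P.d.i (q k)) j + P.force ζ E W Wt j := by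
        rw [e2, e5]
        linear_combination e3 + e4
      rw [e6] at e1
      exact e1)
  refine XGap_mono key (le_of_eq ?_) ?_
  · ring
  · have e0 : 0 ≤ (1 + 1 / m) ^ 2 * g * w := by positivity
    have e1 := XGap_Amono H (x := 10 ^ 6 * (1 + 1 / m) ^ 2 * g * w) (by nlinarith)
    have e2 : (1 + 1 / m) ^ 2 * g * w ≤ (1 + 1 / m) ^ 4 * g * w := by
      have h5 : (1 + 1 / m) ^ 2 ≤ (1 + 1 / m) ^ 4 := pow_le_pow_right₀ hK (by norm_num)
      have h6 : 0 ≤ g * w := by positivity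
      calc (1 + 1 / m) ^ 2 * g * w = (1 + 1 / m) ^ 2 * (g * w) := by ring
        _ ≤ (1 + 1 / m) ^ 4 * (g * w) := mul_le_mul_of_nonneg_right h5 h6
        _ = (1 + 1 / m) ^ 4 * g * w := by ring
    have e3 : 10 ^ 5 * (1 + 1 / m) ^ 2 * g * w = 10 ^ 5 * ((1 + 1 / m) ^ 2 * g * w) := by ring
    have e4 : 10 ^ 8 * (1 + 1 / m) ^ 4 * g * w = 10 ^ 8 * ((1 + 1 / m) ^ 4 * g * w) := by ring
    have e5 : 9 * 10 ^ 7 * (1 + 1 / m) ^ 4 * g * w = 9 * 10 ^ 7 * ((1 + 1 / m) ^ 4 * g * w) := by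
      ring
    rw [e5] at e1
    rw [e3, e4]
    linarith

/-! the initial wave -/

private theorem XGap_mean_dp {i : ℕ} (κ : Kp) (j : Fin 2) (f : WT) :
    mean i (dp κ j f) = dp κ j (mean i f) := by
  unfold dp
  by_cases h : j = 0
  · rw [if_pos h, LinearMap.neg_apply, LinearMap.neg_apply, map_neg, mean_D]
  · rw [if_neg h, mean_D]

private theorem XGap_Pnz_dp (κ : Kp) (a : Fin 2) (f : WT) : Pnz κ (dp κ a f) = dp κ a f := by
  unfold dp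
  by_cases h : a = 0
  · rw [if_pos h, LinearMap.neg_apply, map_neg, Pnz_D]
  · rw [if_neg h, Pnz_D]

private theorem XGap_lev_dp {i : ℕ} (κ : Kp) (a : Fin 2) {f : WT} (hf : Lev i f) :
    Lev i (dp κ a f) := by
  unfold dp
  by_cases h : a = 0
  · rw [if_pos h, LinearMap.neg_apply]
    exact (hf.D κ 1).neg
  · rw [if_neg h]
    exact hf.D κ 0

private theorem XGap_cl_dp {s t : ℝ} (κ : Kp) (a : Fin 2) {f : WT} (hf : Cl s t f) :
    Cl s t (dp κ a f) := by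
  unfold dp
  by_cases h : a = 0
  · rw [if_pos h, LinearMap.neg_apply]
    exact (Cl.D κ 1 hf).neg
  · rw [if_neg h]
    exact Cl.D κ 0 hf

private theorem XGap_cl_eb {s t : ℝ} (μ : Gx) : Cl s t (eb μ) := by
  classical
  rw [Cl_iff]
  intro ν x
  change (Pi.single μ (1 : Ct) : Gx → Ct) ν (clp s t x) = (Pi.single μ (1 : Ct) : Gx → Ct) ν x
  by_cases h : ν = μ
  · subst h
    rw [Pi.single_eq_same]
    rfl
  · rw [Pi.single_eq_of_ne h]
    rfl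

private theorem XGap_cl_sn {s t : ℝ} (i : ℕ) : Cl s t (sn i) := by
  unfold sn
  exact ((XGap_cl_eb _).sub (XGap_cl_eb _)).smul _

private theorem XGap_W0_mean (H : SBH P lam g σ ρ c A ρ0 m w η) (j : Fin 2) :
    mean P.d.i (P.W0 j) = 0 := by
  unfold SB.W0
  rw [map_smul, XGap_mean_dp, map_smul, mean_mul_left P.d.i (H.bl.osc le_rfl), sn_mean, mul_zero,
    smul_zero, map_zero, smul_zero]

private theorem XGap_W0_Pnz (P : SB) (j : Fin 2) : Pnz P.κ' (P.W0 j) = P.W0 j := by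
  unfold SB.W0
  rw [map_smul, XGap_Pnz_dp]

private theorem XGap_W0_lev (H : SBH P lam g σ ρ c A ρ0 m w η) (j : Fin 2) :
    Lev (P.d.i + 1) (P.W0 j) := by
  unfold SB.W0
  exact (XGap_lev_dp _ _ (((H.bl.mono (Nat.le_succ _)).mul (sn_lev _)).smul _)).smul _

private theorem XGap_W0_real (H : SBH P lam g σ ρ c A ρ0 m w η) (j : Fin 2) :
    IsR (P.W0 j) := by
  unfold SB.W0
  have h1 : ((P.L : ℂ)⁻¹) = (((P.L : ℝ)⁻¹ : ℝ) : ℂ) := by push_cast; rfl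
  rw [h1]
  exact ((H.br.mul (sn_real _)).smul).dp.smul

private theorem XGap_W0_cl (H : SBH P lam g σ ρ c A ρ0 m w η) (j : Fin 2) :
    Cl P.ta P.tb (P.W0 j) := by
  unfold SB.W0
  have hb : Cl P.ta P.tb P.b := by
    have h := Cl.frz P.ta P.tb 0 P.b
    rwa [H.bt 0] at h
  exact (XGap_cl_dp _ _ ((hb.mul (XGap_cl_sn _)).smul _)).smul _

private theorem XGap_dvg_smul (κ : Kp) (x : ℂ) (y : Vec) :
    dvg κ (fun j => x • y j) = x • dvg κ y := by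
  unfold dvg
  rw [Finset.smul_sum]
  exact Finset.sum_congr rfl fun j _ => map_smul _ _ _

/-- First ramp. -/
theorem ramp_left (H : SBH P lam g σ ρ c A ρ0 m w η)
    (hh : 10 ^ 8 * (1 + 1 / m) ^ 5 * (P.tb - P.ta) * g ≤ 1)
    (h3m : 3 * m ≤ ρ0) (hk0 : P.k0 0 ≠ 0 ∨ P.k0 1 ≠ 0) (hexp : Real.exp (-(m * P.L / (4 * lam))) ≤ 1 / P.L)
    (S : SB0 P lam g ρ0 m w ζ E W a q) (R : SBR P (10 ^ 7) lam g ρ0 m w η ζ E W a q) {y : ℝ}
    (hy : ∀ j, Bd 1 (P.r ρ0 m) (ζ j) y) :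
    ∃ Q : Mat, Good (P.rampD ζ E W q Q P.ta P.s1) P.ta P.s1 (2 * P.L)
      (10 ^ 8 * (P.L * w + (1 + 1 / m) ^ 2 * g))
      (10 ^ 8 / P.L * (w / (P.s1 - P.ta) + (1 + 1 / m) ^ 2 * g * w))
      (ρ0 - 2 * m) (c + lam * y * (1 + 2 * c))
      (A + 10 ^ 8 * (1 + 1 / m) ^ 4 * g * w + 100 * w / (P.s1 - P.ta)) := by
  have hl : 0 < P.s1 - P.ta := by linarith [H.h1]
  have hL := XGap_L H
  have hw := H.hw
  have hg := XGap_g0 H
  have hK := XGap_K H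
  have hcast : (((P.s1 - P.ta : ℝ) : ℂ)⁻¹) = (((P.s1 - P.ta)⁻¹ : ℝ) : ℂ) := by push_cast; rfl
  have hnorm : ‖(((P.s1 - P.ta : ℝ) : ℂ)⁻¹)‖ = (P.s1 - P.ta)⁻¹ := by
    rw [norm_inv, Complex.norm_real, Real.norm_eq_abs, abs_of_pos hl]
  obtain ⟨Q, hQ⟩ := ramp_good H hh h3m hk0 hexp S R hy (s := P.ta) (t := P.s1) le_rfl H.h1
    (H.h2.trans H.h3).le (Wt := fun j => (((P.s1 - P.ta : ℝ) : ℂ)⁻¹) • P.W0 j)
    (α := (P.s1 - P.ta)⁻¹ * (32 * w)) (fun j => td_W_left S H j)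
    (fun j => by
      have h1 := Bd.smul (((P.s1 - P.ta : ℝ) : ℂ)⁻¹) ((W0_bd0 H j).to_cr (XGap_r H))
      rwa [hnorm] at h1)
    (fun j => by rw [map_smul, XGap_W0_mean H, smul_zero])
    (by rw [XGap_dvg_smul, W0_div, smul_zero])
    (fun j => by rw [map_smul, XGap_W0_Pnz])
    (fun j => (XGap_W0_lev H j).smul _)
    (fun j => by
      rw [hcast]
      exact (XGap_W0_real H j).smul)
    (fun j => (XGap_W0_cl H j).smul _)
  refine ⟨Q, XGap_mono hQ ?_ ?_⟩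
  · have e1 : w / (P.s1 - P.ta) = (P.s1 - P.ta)⁻¹ * w := by rw [div_eq_inv_mul]
    have e2 : 0 ≤ (P.s1 - P.ta)⁻¹ * w := by positivity
    have e3 : 0 ≤ (1 + 1 / m) ^ 2 * g * w := by positivity
    have e4 : 0 ≤ (P.L : ℝ)⁻¹ := by positivity
    have e5 : 24 * (103 / 100 * ((P.s1 - P.ta)⁻¹ * (32 * w)) + 10 ^ 5 * (1 + 1 / m) ^ 2 * g * w) ≤
        10 ^ 8 * (w / (P.s1 - P.ta) + (1 + 1 / m) ^ 2 * g * w) := by
      rw [e1]
      nlinarith
    have e6 := mul_le_mul_of_nonneg_left e5 e4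
    calc _ = (P.L : ℝ)⁻¹ * (24 * (103 / 100 * ((P.s1 - P.ta)⁻¹ * (32 * w)) +
          10 ^ 5 * (1 + 1 / m) ^ 2 * g * w)) := by ring
      _ ≤ _ := e6
      _ = _ := by ring
  · have e1 : 100 * w / (P.s1 - P.ta) = 100 * ((P.s1 - P.ta)⁻¹ * w) := by
      rw [div_eq_inv_mul]
      ring
    have e2 : 0 ≤ (P.s1 - P.ta)⁻¹ * w := by positivity
    rw [e1]
    nlinarith

/-- Last ramp. -/
theorem ramp_right (H : SBH P lam g σ ρ c A ρ0 m w η)
    (hh : 10 ^ 8 * (1 + 1 / m) ^ 5 * (P.tb - P.ta) * g ≤ 1)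
    (h3m : 3 * m ≤ ρ0) (hk0 : P.k0 0 ≠ 0 ∨ P.k0 1 ≠ 0) (hexp : Real.exp (-(m * P.L / (4 * lam))) ≤ 1 / P.L)
    (S : SB0 P lam g ρ0 m w ζ E W a q) (R : SBR P (10 ^ 7) lam g ρ0 m w η ζ E W a q) {y : ℝ}
    (hy : ∀ j, Bd 1 (P.r ρ0 m) (ζ j) y) :
    ∃ Q : Mat, Good (P.rampD ζ E W q Q P.s2 P.tb) P.s2 P.tb (2 * P.L)
      (10 ^ 8 * (P.L * w + (1 + 1 / m) ^ 2 * g))
      (10 ^ 8 / P.L * (w / (P.tb - P.s2) + (1 + 1 / m) ^ 2 * g * w))
      (ρ0 - 2 * m) (c + lam * y * (1 + 2 * c))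
      (A + 10 ^ 8 * (1 + 1 / m) ^ 4 * g * w + 100 * w / (P.tb - P.s2)) := by
  have hl : 0 < P.tb - P.s2 := by linarith [H.h3]
  have hL := XGap_L H
  have hw := H.hw
  have hm := H.hm
  have hg := XGap_g0 H
  have hK := XGap_K H
  have hab := XGap_tab H
  have hcast : (((P.tb - P.s2 : ℝ) : ℂ)⁻¹) = (((P.tb - P.s2)⁻¹ : ℝ) : ℂ) := by push_cast; rfl
  have hnorm : ‖(((P.tb - P.s2 : ℝ) : ℂ)⁻¹)‖ = (P.tb - P.s2)⁻¹ := by
    rw [norm_inv, Complex.norm_real, Real.norm_eq_abs, abs_of_pos hl]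
  have bI : ∀ j, Bd 0 (cr (ρ0 - m)) (frz P.s2 (intg P.s1 P.s2 (osc P.d.i (a j)))) w := by
    intro j
    have e1 : Bd 0 (P.r ρ0 m) (osc P.d.i (a j)) (10 ^ 6 * (1 + 1 / m) ^ 2 * g * w) :=
      (S.na j).osc P.d.i
    have e2 := Bd.intg_gain H.h1.le H.h2.le H.h3.le hab hm e1
    have e3 := (e2.weaken (Nat.zero_le 1) (fun _ => le_rfl)).frz P.s2
    refine (e3.weaken le_rfl fun _ => XGap_r H P.s2).mono ?_
    have e4 : (P.tb - P.ta) * (1 + 1 / m) * (10 ^ 6 * (1 + 1 / m) ^ 2 * g * w) =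
        10 ^ 6 * ((1 + 1 / m) ^ 3 * (P.tb - P.ta) * g) * w := by ring
    rw [e4]
    have e5 : (1 + 1 / m) ^ 3 ≤ (1 + 1 / m) ^ 5 := pow_le_pow_right₀ hK (by norm_num)
    have e6 : 0 ≤ (P.tb - P.ta) * g := mul_nonneg (by linarith) hg.le
    have e7 : (1 + 1 / m) ^ 3 * ((P.tb - P.ta) * g) ≤ (1 + 1 / m) ^ 5 * ((P.tb - P.ta) * g) :=
      mul_le_mul_of_nonneg_right e5 e6
    have e8 : 10 ^ 6 * ((1 + 1 / m) ^ 3 * (P.tb - P.ta) * g) ≤ 1 := by nlinarith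
    calc 10 ^ 6 * ((1 + 1 / m) ^ 3 * (P.tb - P.ta) * g) * w ≤ 1 * w :=
          mul_le_mul_of_nonneg_right e8 hw.le
      _ = w := one_mul w
  obtain ⟨Q, hQ⟩ := ramp_good H hh h3m hk0 hexp S R hy (s := P.s2) (t := P.tb)
    (H.h1.trans H.h2).le H.h3 le_rfl
    (Wt := fun j => -((((P.tb - P.s2 : ℝ) : ℂ)⁻¹) •
      (P.W0 j + frz P.s2 (intg P.s1 P.s2 (osc P.d.i (a j))))))
    (α := (P.tb - P.s2)⁻¹ * (32 * w + w)) (fun j => td_W_right S H j)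
    (fun j => by
      have h1 := (Bd.smul (((P.tb - P.s2 : ℝ) : ℂ)⁻¹)
        (((W0_bd0 H j).to_cr (XGap_r H)).add (bI j))).neg
      rwa [hnorm] at h1)
    (fun j => by
      have h1 : mean P.d.i (frz P.s2 (intg P.s1 P.s2 (osc P.d.i (a j)))) = 0 := by
        have h2 : frz P.s2 (mean P.d.i (intg P.s1 P.s2 (osc P.d.i (a j)))) =
            mean P.d.i (frz P.s2 (intg P.s1 P.s2 (osc P.d.i (a j)))) := tcomp_mlt _ _ _
        rw [← h2, ← intg_mean, mean_osc, map_zero]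
        exact tcomp_zero _
      rw [map_neg, map_smul, map_add, XGap_W0_mean H, h1, add_zero, smul_zero, neg_zero])
    (by
      have h1 : dvg P.κ' (fun j => frz P.s2 (intg P.s1 P.s2 (osc P.d.i (a j)))) = 0 := by
        unfold dvg
        have h2 : ∀ j, D P.κ' j (frz P.s2 (intg P.s1 P.s2 (osc P.d.i (a j)))) =
            frz P.s2 (intg P.s1 P.s2 (osc P.d.i (D P.κ' j (a j)))) := by
          intro j
          rw [osc_D, intg_D]
          exact (tcomp_D _ _ _ _).symm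
        rw [Finset.sum_congr rfl fun j _ => h2 j]
        have h3 : ∑ j, frz P.s2 (intg P.s1 P.s2 (osc P.d.i (D P.κ' j (a j)))) =
            frz P.s2 (∑ j, intg P.s1 P.s2 (osc P.d.i (D P.κ' j (a j)))) :=
          (tcomp_sum _ _ _).symm
        have h5 : ∑ j, D P.κ' j (a j) = 0 := div_a S
        rw [h3, ← map_sum, ← map_sum, h5, map_zero, map_zero]
        exact tcomp_zero _
      have h6 : dvg P.κ' P.W0 = 0 := W0_div P
      unfold dvg at h1 h6 ⊢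
      simp only [map_neg, map_smul, map_add, Finset.sum_neg_distrib, ← Finset.smul_sum,
        Finset.sum_add_distrib, h1, h6, add_zero, smul_zero, neg_zero])
    (fun j => by
      have h1 : Pnz P.κ' (frz P.s2 (intg P.s1 P.s2 (osc P.d.i (a j)))) =
          frz P.s2 (intg P.s1 P.s2 (osc P.d.i (a j))) := by
        have h2 : frz P.s2 (Pnz P.κ' (intg P.s1 P.s2 (osc P.d.i (a j)))) =
            Pnz P.κ' (frz P.s2 (intg P.s1 P.s2 (osc P.d.i (a j)))) := tcomp_mlt _ _ _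
        have h3 : intg P.s1 P.s2 (Pnz P.κ' (osc P.d.i (a j))) =
            Pnz P.κ' (intg P.s1 P.s2 (osc P.d.i (a j))) := intg_mlt _ _ _ _
        rw [← h2, ← h3, ← osc_Pnz, Pnz_a S]
      rw [map_neg, map_smul, map_add, XGap_W0_Pnz, h1])
    (fun j => (((XGap_W0_lev H j).add
      (Lev.tcomp _ (Lev.intg _ _ (Lev.mlt _ (S.la j))))).smul _).neg)
    (fun j => by
      rw [hcast]
      exact (((XGap_W0_real H j).add ((S.ra j).osc.intg.frz)).smul).neg)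
    (fun j => (((XGap_W0_cl H j).add (Cl.frz _ _ _ _)).smul _).neg)
  refine ⟨Q, XGap_mono hQ ?_ ?_⟩
  · have e1 : w / (P.tb - P.s2) = (P.tb - P.s2)⁻¹ * w := by rw [div_eq_inv_mul]
    have e2 : 0 ≤ (P.tb - P.s2)⁻¹ * w := by positivity
    have e3 : 0 ≤ (1 + 1 / m) ^ 2 * g * w := by positivity
    have e4 : 0 ≤ (P.L : ℝ)⁻¹ := by positivity
    have e5 : 24 * (103 / 100 * ((P.tb - P.s2)⁻¹ * (32 * w + w)) +
        10 ^ 5 * (1 + 1 / m) ^ 2 * g * w) ≤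
        10 ^ 8 * (w / (P.tb - P.s2) + (1 + 1 / m) ^ 2 * g * w) := by
      rw [e1]
      nlinarith
    have e6 := mul_le_mul_of_nonneg_left e5 e4
    calc _ = (P.L : ℝ)⁻¹ * (24 * (103 / 100 * ((P.tb - P.s2)⁻¹ * (32 * w + w)) +
          10 ^ 5 * (1 + 1 / m) ^ 2 * g * w)) := by ring
      _ ≤ _ := e6
      _ = _ := by ring
  · have e1 : 100 * w / (P.tb - P.s2) = 100 * ((P.tb - P.s2)⁻¹ * w) := by
      rw [div_eq_inv_mul]
      ring
    have e2 : 0 ≤ (P.tb - P.s2)⁻¹ * w := by positivity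
    rw [e1]
    nlinarith

end

end ES
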