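import Pool.Agent.ES.XEq
import Pool.Agent.ES.XDet

/-!
ES-XNew: regularity and bounds of the new coordinates and velocities, common to gap, ramps and
final interval (EW 3, Prop. 3.5).  Constants are generous.  `K = 1 + 1/m`, radius `P.r ρ0 m`.
-/

open scoped BoundedContinuousFunction

namespace ES

/-- A class of elements closed under the operations used in the system. -/
private structure XNewC (X : WT → Prop) (κ : Kp) (i : ℕ) : Prop where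
  zero : X 0
  one : X 1
  add : ∀ {f g : WT}, X f → X g → X (f + g)
  neg : ∀ {f : WT}, X f → X (-f)
  mul : ∀ {f g : WT}, X f → X g → X (f * g)
  D : ∀ (a : Fin 2) {f : WT}, X f → X (ES.D κ a f)
  dth : ∀ {f : WT}, X f → X (ES.dth i f)
  ith : ∀ {f : WT}, X f → X (ES.ith i f)

private theorem XNewC.sub {X : WT → Prop} {κ : Kp} {i : ℕ} (C : XNewC X κ i) {f g : WT}
    (hf : X f) (hg : X g) : X (f - g) := by
  rw [sub_eq_add_neg]
  exact C.add hf (C.neg hg)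

private theorem XNewC.sum {X : WT → Prop} {κ : Kp} {i : ℕ} (C : XNewC X κ i) {f : Fin 2 → WT}
    (hf : ∀ j, X (f j)) : X (∑ j, f j) := by
  rw [Fin.sum_univ_two]
  exact C.add (hf 0) (hf 1)

private theorem XNewC.mulv {X : WT → Prop} {κ : Kp} {i : ℕ} (C : XNewC X κ i) {F : Mat} {x : Vec}
    (hF : ∀ a b, X (F a b)) (hx : ∀ a, X (x a)) (a : Fin 2) : X (ES.mulv F x a) :=
  C.sum fun b => C.mul (hF a b) (hx b)

private theorem XNewC.adv {X : WT → Prop} {κ : Kp} {i : ℕ} (C : XNewC X κ i) {x y : Vec}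
    (hx : ∀ a, X (x a)) (hy : ∀ a, X (y a)) (a : Fin 2) : X (ES.adv κ x y a) :=
  C.sum fun b => C.mul (hx b) (C.D b (hy a))

private theorem XNewC.mulT {X : WT → Prop} {κ : Kp} {i : ℕ} (C : XNewC X κ i) {R M : Mat}
    (hR : ∀ a b, X (R a b)) (hM : ∀ a b, X (M a b)) (a b : Fin 2) : X (ES.mulT R M a b) :=
  C.sum fun k => C.mul (hR a k) (hM b k)

private theorem XNewC.dvm {X : WT → Prop} {κ : Kp} {i : ℕ} (C : XNewC X κ i) {R : Mat}
    (hR : ∀ a b, X (R a b)) (a : Fin 2) : X (ES.dvm κ R a) :=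
  C.sum fun k => C.D k (hR a k)

private theorem XNewC.Fm {X : WT → Prop} {κ : Kp} {i : ℕ} (C : XNewC X κ i) {ξ : Vec}
    (h : ∀ a, X (ξ a)) (a b : Fin 2) : X (ES.Fm κ ξ a b) := by
  unfold ES.Fm idm grad
  refine C.add ?_ (C.D b (h a))
  split_ifs
  · exact C.one
  · exact C.zero

private theorem XNewC.adj {X : WT → Prop} {κ : Kp} {i : ℕ} (C : XNewC X κ i) {F : Mat}
    (hF : ∀ a b, X (F a b)) (a b : Fin 2) : X (ES.adj F a b) := by
  unfold ES.adj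
  split_ifs
  · exact hF 1 1
  · exact C.neg (hF 0 1)
  · exact C.neg (hF 1 0)
  · exact hF 0 0

private theorem XNewC.bet {X : WT → Prop} {P : SB} (C : XNewC X P.d.κ P.d.i) {W : Vec}
    (hW : ∀ a, X (W a)) : X (P.bet W) := by
  unfold SB.bet dvg
  exact C.neg (C.ith (C.sum fun b => C.D b (hW b)))

private theorem XNewC.f {X : WT → Prop} {P : SB} (C : XNewC X P.d.κ P.d.i) {ζ E W : Vec}
    (hF : ∀ a b, X (FF P.d ζ a b)) (hM : ∀ a b, X (MM P.d ζ a b)) (hL : ∀ a b, X (LL P.d ζ a b))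
    (hR : ∀ a b, X (RR P.d ζ a b)) (hE : ∀ a, X (E a)) (hW : ∀ a, X (W a)) (a : Fin 2) :
    X (P.f ζ E W a) := by
  have hEW : ∀ a, X ((E + W) a) := fun a => C.add (hE a) (hW a)
  have h2 : X 2 := by
    rw [← one_add_one_eq_two]
    exact C.add C.one C.one
  unfold SB.f
  refine C.sub (C.sub (C.sub (C.neg (C.mul h2 (C.mulv hL hEW a))) (C.adv hEW (C.mulv hF hE) a))
    (C.add (C.adv hW (C.mulv hF hEW) a) (C.mul (C.bet hW) (C.mulv hF ?_ a))))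
    (C.dvm (C.mulT hR hM) a)
  exact fun c => C.dth (C.add (hE c) (hW c))

private theorem XNew_lev (κ : Kp) (i j : ℕ) : XNewC (Lev j) κ i :=
  ⟨Lev.zero j, Lev.one j, Lev.add, Lev.neg, Lev.mul, fun a _ h => Lev.D κ a h,
    fun h => Lev.mlt _ h, fun h => Lev.mlt _ h⟩

private theorem XNew_real (κ : Kp) (i : ℕ) : XNewC IsR κ i :=
  ⟨IsR.zero, IsR.one, IsR.add, IsR.neg, IsR.mul, fun _ _ h => IsR.D h, IsR.dth, IsR.ith⟩

private theorem XNew_cl (κ : Kp) (i : ℕ) (a b : ℝ) : XNewC (Cl a b) κ i :=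
  ⟨Cl.zero a b, Cl.one a b, Cl.add, Cl.neg, Cl.mul, fun c _ h => Cl.D κ c h,
    fun h => Cl.mlt _ h, fun h => Cl.mlt _ h⟩

section
variable {P : SB} {lam g σ ρ c A ρ0 m w η : ℝ} {ζ E W a q : Vec}

private theorem XNew_ch (H : SBH P lam g σ ρ c A ρ0 m w η) (S : SB0 P lam g ρ0 m w ζ E W a q) :
    CH P.d.κ lam m m (P.r ρ0 m) ζ := H.dh.ch (SB0.bh H S).z

private theorem XNew_fin (H : SBH P lam g σ ρ c A ρ0 m w η) {f : WT} {e : ℝ}
    (hf : Bd 0 (cr ρ) f e) : Bd 0 (fun t => P.r ρ0 m t + m) f e := by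
  refine Bd.of_cr hf fun t => ?_
  have h1 : P.r ρ0 m t ≤ ρ0 := rad_le H.good.ht H.hm.le t
  linarith [H.hρ1, H.hm]

/-- everything about a class preserved by the composition -/
private theorem XNew_all {X : WT → Prop} (C : XNewC X P.d.κ P.d.i)
    (H : SBH P lam g σ ρ c A ρ0 m w η)
    (hcomp : ∀ {f : WT} {e : ℝ}, Bd 0 (cr ρ) f e → X f → X (comp P.d.κ ζ f))
    (hζ : ∀ j, X (ζ j)) (hE : ∀ j, X (E j)) (hξ : ∀ j, X (P.d.ξ j))
    (hv : ∀ j, X (P.d.v j)) (hp : X P.d.p) (hR : ∀ a b, X (P.d.R a b)) (j : Fin 2) :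
    X (nX P.d ζ j) ∧ X (nV P.d ζ E j) ∧ X (comp P.d.κ ζ P.d.p) ∧
      (∀ k, X (FF P.d ζ j k) ∧ X (MM P.d ζ j k)) ∧
      (∀ k, X (LL P.d ζ j k)) ∧ (∀ k, X (RR P.d ζ j k)) := by
  have hPm : ∀ a b, X (Pm P.d ζ a b) := C.Fm hζ
  have hF : ∀ a b, X (FF P.d ζ a b) := by
    intro a b
    unfold FF
    refine C.sum fun k => C.mul ?_ (hPm k b)
    have hb : Bd 0 (cr ρ) (P.d.F a k) (1 + c) := by
      unfold Dat.F ES.Fm idm
      refine Bd.add ?_ (H.good.bF a k)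
      split_ifs
      · exact Bd.one _ _
      · exact Bd.zero _ _ (by norm_num)
    exact hcomp hb (C.Fm hξ a k)
  have hM : ∀ a b, X (MM P.d ζ a b) := C.adj hF
  have hL : ∀ a b, X (LL P.d ζ a b) := by
    intro a b
    unfold LL
    refine C.sum fun k => C.mul ?_ (hPm k b)
    exact hcomp (H.good.bG a k) (C.D k (hv a))
  have hRR : ∀ a b, X (RR P.d ζ a b) := fun a b => hcomp (H.good.bR a b) (hR a b)
  obtain ⟨e1, he1⟩ := H.good.fξ j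
  obtain ⟨e2, he2⟩ := H.good.fv j
  obtain ⟨e3, he3⟩ := H.good.fp
  exact ⟨C.add (hζ j) (hcomp he1 (hξ j)), C.add (hcomp he2 (hv j)) (C.mulv hF hE j),
    hcomp he3 hp, fun k => ⟨hF j k, hM j k⟩, fun k => hL j k, fun k => hRR j k⟩

/-- Levels, reality, clamping of the new quantities. -/
theorem new_lev (H : SBH P lam g σ ρ c A ρ0 m w η) (S : SB0 P lam g ρ0 m w ζ E W a q)
    (j : Fin 2) : Lev P.d.i (nX P.d ζ j) ∧ Lev P.d.i (nV P.d ζ E j) ∧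
      Lev (P.d.i + 1) (nu' P.d ζ E W j) ∧ Lev P.d.i (comp P.d.κ ζ P.d.p) ∧
      (∀ k, Lev P.d.i (FF P.d ζ j k) ∧ Lev P.d.i (MM P.d ζ j k)) ∧
      Lev (P.d.i + 1) (P.f ζ E W j) := by
  have C := XNew_lev P.d.κ P.d.i P.d.i
  have C' := XNew_lev P.d.κ P.d.i (P.d.i + 1)
  have HA := fun j => XNew_all (E := E) C H
    (fun hf hX => Lev.comp (XNew_ch H S) S.lζ (XNew_fin H hf) hX) S.lζ S.lE H.good.levξ
    H.good.levv H.good.levp H.good.levR j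
  obtain ⟨h1, h2, h3, h4, h5, h6⟩ := HA j
  have up : ∀ {f : WT}, Lev P.d.i f → Lev (P.d.i + 1) f := fun h => h.mono (Nat.le_succ _)
  refine ⟨h1, h2, ?_, h3, h4, ?_⟩
  · exact C'.add (up h2) (C'.mulv (fun a b => up ((HA a).2.2.2.1 b).1) S.lW j)
  · exact C'.f (fun a b => up ((HA a).2.2.2.1 b).1) (fun a b => up ((HA a).2.2.2.1 b).2)
      (fun a b => up ((HA a).2.2.2.2.1 b)) (fun a b => up ((HA a).2.2.2.2.2 b))
      (fun a => up (S.lE a)) S.lW j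

theorem new_real (H : SBH P lam g σ ρ c A ρ0 m w η) (S : SB0 P lam g ρ0 m w ζ E W a q)
    (j : Fin 2) : IsR (nX P.d ζ j) ∧ IsR (nV P.d ζ E j) ∧ IsR (nu' P.d ζ E W j) ∧
      IsR (comp P.d.κ ζ P.d.p) ∧ (∀ k, IsR (FF P.d ζ j k) ∧ IsR (MM P.d ζ j k)) ∧
      IsR (P.f ζ E W j) := by
  have C := XNew_real P.d.κ P.d.i
  have HA := fun j => XNew_all (E := E) C H
    (fun hf hX => IsR.comp (XNew_ch H S) S.rζ (XNew_fin H hf) hX) S.rζ S.rE H.good.rξ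
    H.good.rv H.good.rp H.good.rR j
  obtain ⟨h1, h2, h3, h4, h5, h6⟩ := HA j
  refine ⟨h1, h2, ?_, h3, h4, ?_⟩
  · exact C.add h2 (C.mulv (fun a b => ((HA a).2.2.2.1 b).1) S.rW j)
  · exact C.f (fun a b => ((HA a).2.2.2.1 b).1) (fun a b => ((HA a).2.2.2.1 b).2)
      (fun a b => (HA a).2.2.2.2.1 b) (fun a b => (HA a).2.2.2.2.2 b) S.rE S.rW j

theorem new_cl (H : SBH P lam g σ ρ c A ρ0 m w η) (S : SB0 P lam g ρ0 m w ζ E W a q)
    (j : Fin 2) : Cl P.ta P.tb (nX P.d ζ j) ∧ Cl P.ta P.tb (nV P.d ζ E j) ∧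
      Cl P.ta P.tb (nu' P.d ζ E W j) ∧ Cl P.ta P.tb (comp P.d.κ ζ P.d.p) ∧
      (∀ k, Cl P.ta P.tb (FF P.d ζ j k) ∧ Cl P.ta P.tb (MM P.d ζ j k)) ∧
      Cl P.ta P.tb (P.f ζ E W j) := by
  have C := XNew_cl P.d.κ P.d.i P.ta P.tb
  have HA := fun j => XNew_all (E := E) C H
    (fun hf hX => Cl.comp (XNew_ch H S) S.cζ (XNew_fin H hf) hX) S.cζ S.cE H.good.cξ
    H.good.cv H.good.cp H.good.cR j
  obtain ⟨h1, h2, h3, h4, h5, h6⟩ := HA j
  refine ⟨h1, h2, ?_, h3, h4, ?_⟩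
  · exact C.add h2 (C.mulv (fun a b => ((HA a).2.2.2.1 b).1) S.cW j)
  · exact C.f (fun a b => ((HA a).2.2.2.1 b).1) (fun a b => ((HA a).2.2.2.1 b).2)
      (fun a b => (HA a).2.2.2.2.1 b) (fun a b => (HA a).2.2.2.2.2 b) S.cE S.cW j

private theorem XNew_tocr (H : SBH P lam g σ ρ c A ρ0 m w η) {k : ℕ} {f : WT} {e : ℝ}
    (hf : Bd k (P.r ρ0 m) f e) : Bd k (cr (ρ0 - m)) f e :=
  Bd.to_cr hf fun t => le_rad H.good.ht H.hm.le t

private theorem XNew_mulv_bd {k : ℕ} {r : ℝ → ℝ} (hr : ∀ t, 0 ≤ r t) {F : Mat} {x : Vec}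
    {e1 e2 : ℝ} (hF : ∀ a b, Bd k r (F a b) e1) (hx : ∀ a, Bd k r (x a) e2) (a : Fin 2) :
    Bd k r (mulv F x a) (2 * (e1 * e2)) := by
  unfold mulv
  rw [Fin.sum_univ_two, two_mul]
  exact (Bd.mul hr (hF a 0) (hx 0)).add (Bd.mul hr (hF a 1) (hx 1))

private theorem XNew_pot {κ : Kp} {r : ℝ → ℝ} {x : Vec} {e : ℝ} (hx : ∀ j, Bd 0 r (x j) e) :
    Bd 0 r (pot κ x) (e + e) := by
  have h : pot κ x = D κ 0 (Lin κ (x 0)) + D κ 1 (Lin κ (x 1)) := by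
    unfold pot dvg
    rw [Fin.sum_univ_two, map_add, Lin_D, Lin_D]
  rw [h]
  exact (Bd.D_Lin κ 0 (hx 0)).add (Bd.D_Lin κ 1 (hx 1))

private theorem XNew_comp (H : SBH P lam g σ ρ c A ρ0 m w η)
    (S : SB0 P lam g ρ0 m w ζ E W a q) {f : WT} {e : ℝ} (hf : Bd 0 (cr ρ) f e) :
    Bd 0 (P.r ρ0 m) (comp P.d.κ ζ f) e := by
  refine H.dh.comp0 (SB0.bh H S).z (Bd.of_cr hf fun t => ?_)
  have h1 : P.r ρ0 m t ≤ ρ0 := rad_le H.good.ht H.hm.le t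
  linarith [H.hρ1]

/-- Finite norms at the radius `ρ0 - m` (`≤ P.r ρ0 m`). -/
theorem new_fin (H : SBH P lam g σ ρ c A ρ0 m w η) (S : SB0 P lam g ρ0 m w ζ E W a q)
    (j : Fin 2) : Fin0 (ρ0 - m) (nX P.d ζ j) ∧ Fin0 (ρ0 - m) (nV P.d ζ E j) ∧
      Fin0 (ρ0 - m) (nu' P.d ζ E W j) ∧ Fin0 (ρ0 - m) (comp P.d.κ ζ P.d.p) ∧
      Fin0 (ρ0 - m) (pot P.κ' q) ∧ Fin0 (ρ0 - m) (pot P.d.κ (fun k => mean P.d.i (q k))) := by
  have HB := SB0.bh H S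
  obtain ⟨e1, he1⟩ := H.good.fξ j
  obtain ⟨e2, he2⟩ := H.good.fv j
  obtain ⟨e3, he3⟩ := H.good.fp
  have hX : Bd 0 (P.r ρ0 m) (nX P.d ζ j) _ :=
    ((HB.z j).weaken (Nat.zero_le 2) fun _ => le_rfl).add (XNew_comp H S he1)
  have hV : Bd 0 (P.r ρ0 m) (nV P.d ζ E j) _ :=
    (XNew_comp H S he2).add
      (H.dh.mulv_F0 HB.z (fun j => (HB.e j).weaken (Nat.zero_le 1) fun _ => le_rfl) j)
  have hU : Bd 0 (P.r ρ0 m) (nu' P.d ζ E W j) _ :=
    hV.add (H.dh.mulv_F0 HB.z HB.w0 j)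
  exact ⟨⟨_, XNew_tocr H hX⟩, ⟨_, XNew_tocr H hV⟩, ⟨_, XNew_tocr H hU⟩,
    ⟨_, XNew_tocr H (XNew_comp H S he3)⟩, ⟨_, XNew_tocr H (XNew_pot S.nq)⟩,
    ⟨_, XNew_tocr H (XNew_pot fun j => Bd.mean P.d.i (S.nq j))⟩⟩

/-- Deformation of the new coordinates. -/
theorem new_bF (H : SBH P lam g σ ρ c A ρ0 m w η) (S : SB0 P lam g ρ0 m w ζ E W a q) {y : ℝ}
    (hy : ∀ j, Bd 1 (P.r ρ0 m) (ζ j) y) (i j : Fin 2) :
    Bd 0 (P.r ρ0 m) (grad P.d.κ (nX P.d ζ) i j) (c + lam * y * (1 + 2 * c)) ∧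
    Bd 0 (P.r ρ0 m) (grad P.κ' (nX P.d ζ) i j) (c + lam * y * (1 + 2 * c)) := by
  have HB := SB0.bh H S
  have h1 := H.dh.bd_FF' HB.z hy i j
  constructor
  · have e : FF P.d ζ i j - idm i j = grad P.d.κ (nX P.d ζ) i j := by
      rw [FF_eq H S]
      unfold Fm
      ring
    rw [← e]
    exact h1
  · have e : FF P.d ζ i j - idm i j = grad P.κ' (nX P.d ζ) i j := by
      rw [FF_eq' H S]
      unfold Fm
      ring
    rw [← e]
    exact h1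

/-- `D V`: sharp form and crude form. -/
theorem new_DV (H : SBH P lam g σ ρ c A ρ0 m w η) (S : SB0 P lam g ρ0 m w ζ E W a q) {y e : ℝ}
    (hy : ∀ j, Bd 1 (P.r ρ0 m) (ζ j) y) (he : ∀ j, Bd 1 (P.r ρ0 m) (E j) e) (i j : Fin 2) :
    Bd 0 (P.r ρ0 m) (D P.d.κ j (nV P.d ζ E i))
      (g * (1 + 2 * (lam * y)) + 6 * (1 + 1 / m) * lam * e) := by
  have HB := SB0.bh H S
  have h1 : D P.d.κ j (nV P.d ζ E i) = LL P.d ζ i j + D P.d.κ j (mulv (FF P.d ζ) E i) := by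
    unfold nV
    rw [map_add, grad_vz H S]
  rw [h1]
  have h2 := Bd.D (k := 0) H.good.kb j (H.dh.mulv_F1 HB.z he i)
  refine ((H.dh.bd_LL' HB.z hy i j).add h2).mono (le_of_eq ?_)
  ring

theorem new_DV' (H : SBH P lam g σ ρ c A ρ0 m w η) (S : SB0 P lam g ρ0 m w ζ E W a q)
    (i j : Fin 2) : Bd 0 (P.r ρ0 m) (D P.d.κ j (nV P.d ζ E i)) (14 * (1 + 1 / m) * g) := by
  have HB := SB0.bh H S
  have hK2 := H.dh.K2
  have hg := H.dh.hg
  have hlam : 0 < lam := by linarith [H.hlam]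
  have h1 := new_DV H S (fun j => (HB.z j).weaken (by norm_num : 1 ≤ 2) fun _ => le_rfl) HB.e i j
  refine h1.mono ?_
  obtain ⟨K, hK⟩ : ∃ K, K = 1 + 1 / m := ⟨_, rfl⟩
  rw [← hK] at hK2 ⊢
  have e1 : lam * (1 / (256 * lam * K)) = 1 / (256 * K) := by field_simp
  have e2 : 1 / (256 * K) ≤ 1 / 512 := by
    apply one_div_le_one_div_of_le (by norm_num)
    linarith
  rw [e1]
  have e3 := mul_le_mul_of_nonneg_left e2 hg
  have e4 : K * (lam * w) ≤ K * g := mul_le_mul_of_nonneg_left H.hlw (by linarith)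
  have e5 : 2 * g ≤ K * g := mul_le_mul_of_nonneg_right hK2 hg
  linarith

/-- Gradient of the new velocity (needs `N0(dth W) ≤ C1 w`, from `SBR.nWt`). -/
theorem new_Du (H : SBH P lam g σ ρ c A ρ0 m w η) (S : SB0 P lam g ρ0 m w ζ E W a q) {C1 : ℝ}
    (hC : 0 ≤ C1) (hW : ∀ j, Bd 0 (P.r ρ0 m) (dth P.d.i (W j)) (C1 * w)) (i j : Fin 2) :
    Bd 0 (P.r ρ0 m) (D P.κ' j (nu' P.d ζ E W i))
      (10 ^ 3 * (1 + 1 / m) ^ 2 * g + 5 * C1 * P.L * w) := by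
  have HB := SB0.bh H S
  have hK2 := H.dh.K2
  have hg := H.dh.hg
  have hw := H.hw
  have hlam : 0 < lam := by linarith [H.hlam]
  have hk0 : ∀ a, P.d.κ.k a P.d.i = 0 := fun a => H.good.k0 a _ le_rfl
  obtain ⟨-, lV, -⟩ := new_lev H S i
  obtain ⟨lF, -⟩ := SB0.lev H S
  have oF : ∀ a b, osc P.d.i (FF P.d ζ a b) = 0 := fun a b => (lF a b).osc le_rfl
  have h1 : D P.κ' j (nV P.d ζ E i) = D P.d.κ j (nV P.d ζ E i) :=
    D_upd_of_osc _ _ _ hk0 j (lV.osc le_rfl)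
  have h2 : D P.κ' j (mulv (FF P.d ζ) W i) = D P.d.κ j (mulv (FF P.d ζ) W i) +
      (((P.L : ℤ) * P.k0 j : ℤ) : ℂ) • mulv (FF P.d ζ) (fun k => dth P.d.i (W k)) i := by
    have h3 : dth P.d.i (mulv (FF P.d ζ) W i) = mulv (FF P.d ζ) (fun k => dth P.d.i (W k)) i := by
      unfold mulv
      rw [map_sum]
      refine Finset.sum_congr rfl fun b _ => ?_
      rw [dth_mul, dth_of_osc (oF i b), zero_mul, zero_add]
    rw [← h3]
    exact D_upd _ _ _ hk0 j _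
  have h4 : D P.κ' j (nu' P.d ζ E W i) = D P.d.κ j (nV P.d ζ E i) +
      (D P.d.κ j (mulv (FF P.d ζ) W i) +
      (((P.L : ℤ) * P.k0 j : ℤ) : ℂ) • mulv (FF P.d ζ) (fun k => dth P.d.i (W k)) i) := by
    unfold nu'
    rw [map_add, h1, h2]
  rw [h4]
  have b1 := new_DV' H S i j
  have b2 := Bd.D (k := 0) H.good.kb j (H.dh.mulv_F1 HB.z HB.w1 i)
  have b3 := Bd.smul (((P.L : ℤ) * P.k0 j : ℤ) : ℂ) (H.dh.mulv_F0 HB.z hW i)
  refine (b1.add (b2.add b3)).mono ?_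
  have hn : ‖(((P.L : ℤ) * P.k0 j : ℤ) : ℂ)‖ ≤ 2 * P.L := by
    rw [← Complex.ofReal_intCast, Complex.norm_real, Real.norm_eq_abs]
    push_cast
    rw [abs_mul, abs_of_nonneg (Nat.cast_nonneg P.L : (0 : ℝ) ≤ P.L)]
    have h5 : |(P.k0 j : ℝ)| ≤ 2 := by exact_mod_cast H.hk j
    have h6 : (0 : ℝ) ≤ P.L := Nat.cast_nonneg _
    nlinarith
  obtain ⟨K, hK⟩ : ∃ K, K = 1 + 1 / m := ⟨_, rfl⟩
  rw [← hK] at hK2 ⊢
  have e1 : ‖(((P.L : ℤ) * P.k0 j : ℤ) : ℂ)‖ * (103 / 100 * (C1 * w)) ≤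
      2 * P.L * (103 / 100 * (C1 * w)) := mul_le_mul_of_nonneg_right hn (by positivity)
  have e2 : (0 : ℝ) ≤ P.L * (C1 * w) := by positivity
  have e3 : K ^ 2 * (lam * w) ≤ K ^ 2 * g := mul_le_mul_of_nonneg_left H.hlw (by positivity)
  have e4 : K * g ≤ K ^ 2 * g := mul_le_mul_of_nonneg_right (by nlinarith) hg
  have e5 : 0 ≤ K ^ 2 * g := by positivity
  linarith

/-- New acceleration without the stress: `acc^ζ - D·(R^ζ M'ᵀ) - M'ᵀ q`. -/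
theorem new_acc (H : SBH P lam g σ ρ c A ρ0 m w η) (S : SB0 P lam g ρ0 m w ζ E W a q)
    (hP : det2 (Pm P.d ζ) = 1) {q' : Vec} {α : ℝ} (hq : ∀ j, Bd 0 (P.r ρ0 m) (q' j) α)
    (j : Fin 2) :
    Bd 0 (P.r ρ0 m) (-gradT P.d.κ (MM P.d ζ) (comp P.d.κ ζ P.d.p) j - mulvT (MM P.d ζ) q' j)
      (A + 12 * (1 + 1 / m) ^ 2 * lam * σ + 103 / 100 * α) := by
  have HB := SB0.bh H S
  have hα : 0 ≤ α := (hq 0).nonneg
  have e1 : -gradT P.d.κ (MM P.d ζ) (comp P.d.κ ζ P.d.p) j - mulvT (MM P.d ζ) q' j =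
      comp P.d.κ ζ (P.d.acc j) - dvm P.d.κ (mulT (RR P.d ζ) (MM P.d ζ)) j -
        ((mulvT (MM P.d ζ) q' j - q' j) + q' j) := by
    rw [comp_acc H S hP j]
    ring
  rw [e1]
  refine (((XNew_comp H S (H.good.bA j)).sub (H.dh.bd_dvm HB.z j)).sub
    ((H.dh.mulvT_MI HB.z hq j).add (hq j))).mono ?_
  linarith

/-- Bound of the force on a ramp, `N0(Wt) ≤ α`, at the constant radius `ρ0 - m ≤ P.r ρ0 m`
(use `Bd.to_cr`). -/
theorem force_bd (H : SBH P lam g σ ρ c A ρ0 m w η) (S : SB0 P lam g ρ0 m w ζ E W a q)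
    {Wt : Vec} {α : ℝ} (hW : ∀ j, Bd 0 (cr (ρ0 - m)) (Wt j) α) (j : Fin 2) :
    Bd 0 (cr (ρ0 - m)) (P.force ζ E W Wt j)
      (103 / 100 * α + 10 ^ 5 * (1 + 1 / m) ^ 2 * g * w) := by
  have HB := SB0.bh H S
  have hα : 0 ≤ α := (hW 0).nonneg
  have hr : ∀ t : ℝ, 0 ≤ cr (ρ0 - m) t := fun t => by
    change 0 ≤ ρ0 - m
    linarith [H.hρ0, H.hm]
  have h1 : mulv (FF P.d ζ) Wt j = mulv (fun a b => FF P.d ζ a b - idm a b) Wt j + Wt j := by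
    unfold mulv idm
    rw [Fin.sum_univ_two, Fin.sum_univ_two]
    fin_cases j
    · simp; ring
    · simp; ring
  have h2 : Bd 0 (cr (ρ0 - m)) (mulv (fun a b => FF P.d ζ a b - idm a b) Wt j)
      (2 * (3 / 250 * α)) :=
    XNew_mulv_bd hr (fun a b => XNew_tocr H (H.dh.bd_FF0 HB.z a b)) hW j
  have h3 : Bd 0 (cr (ρ0 - m)) (osc P.d.i (P.f ζ E W j)) (10 ^ 5 * (1 + 1 / m) ^ 2 * g * w) :=
    Bd.osc _ (XNew_tocr H (f_bd H.dh H.hw.le H.hlw H.hσ HB j))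
  unfold SB.force
  rw [h1]
  refine ((h2.add (hW j)).sub h3).mono ?_
  linarith

/-- The force has zero mean in the new angle and no zero frequency modes. -/
theorem force_mean (H : SBH P lam g σ ρ c A ρ0 m w η) (S : SB0 P lam g ρ0 m w ζ E W a q)
    {Wt : Vec} (hm : ∀ j, mean P.d.i (Wt j) = 0) (j : Fin 2) :
    mean P.d.i (P.force ζ E W Wt j) = 0 := by
  obtain ⟨lF, -⟩ := SB0.lev H S
  have oF : ∀ a b, osc P.d.i (FF P.d ζ a b) = 0 := fun a b => (lF a b).osc le_rfl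
  unfold SB.force
  rw [map_sub, mean_osc, sub_zero]
  unfold mulv
  rw [map_sum]
  refine Finset.sum_eq_zero fun b _ => ?_
  rw [mean_mul_left _ (oF j b), hm b, mul_zero]

theorem force_Pnz (H : SBH P lam g σ ρ c A ρ0 m w η) (S : SB0 P lam g ρ0 m w ζ E W a q)
    {Wt : Vec} (hd : dvg P.κ' Wt = 0) (hz : ∀ j, Pnz P.κ' (Wt j) = Wt j) (j : Fin 2) :
    Pnz P.κ' (P.force ζ E W Wt j) = P.force ζ E W Wt j := by
  unfold SB.force
  rw [map_sub, ← osc_Pnz, Pnz_f H S j, FF_eq' H S, Pnz_mulv _ _ hd hz]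

end

/-! Clamping to a subinterval of data. -/

theorem tcl_nested {a b s t : ℝ} (h1 : a ≤ s) (h2 : s ≤ t) (h3 : t ≤ b) {f : WT} (hf : Cl a b f)
    (ν : Gx) {τ : ℝ} (hτ : τ ∈ Set.Icc s t) : (tcl s t f).co ν τ = f.co ν τ := by
  unfold tcl
  rw [tcomp_co]
  change f.co ν (clp s t τ) = f.co ν τ
  rw [clp_of_mem hτ]

private theorem XNew_tcl_co {s t : ℝ} (f : WT) (ν : Gx) {τ : ℝ} (hτ : τ ∈ Set.Ioo s t) :
    (ES.tcl s t f).co ν τ = f.co ν τ := by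
  unfold ES.tcl
  rw [tcomp_co]
  change f.co ν (clp s t τ) = f.co ν τ
  rw [clp_of_mem (Set.Ioo_subset_Icc_self hτ)]

private theorem XNew_tcl_add (s t : ℝ) (f g : WT) :
    ES.tcl s t (f + g) = ES.tcl s t f + ES.tcl s t g := tcomp_add _ f g

private theorem XNew_tcl_sub (s t : ℝ) (f g : WT) :
    ES.tcl s t (f - g) = ES.tcl s t f - ES.tcl s t g := tcomp_sub _ f g

private theorem XNew_tcl_neg (s t : ℝ) (f : WT) : ES.tcl s t (-f) = -ES.tcl s t f := tcomp_neg _ f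

private theorem XNew_tcl_mul (s t : ℝ) (f g : WT) :
    ES.tcl s t (f * g) = ES.tcl s t f * ES.tcl s t g := tcomp_mul _ f g

private theorem XNew_tcl_one (s t : ℝ) : ES.tcl s t 1 = 1 := tcomp_one _

private theorem XNew_tcl_zero (s t : ℝ) : ES.tcl s t 0 = 0 := tcomp_zero _

private theorem XNew_tcl_D (s t : ℝ) (κ : Kp) (a : Fin 2) (f : WT) :
    ES.tcl s t (D κ a f) = D κ a (ES.tcl s t f) := tcomp_D _ κ a f

private theorem XNew_tcl_grad (d : Dat) (s t : ℝ) (a b : Fin 2) :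
    grad (Dat.tcl d s t).κ (Dat.tcl d s t).ξ a b = ES.tcl s t (grad d.κ d.ξ a b) :=
  (XNew_tcl_D s t d.κ b (d.ξ a)).symm

private theorem XNew_tcl_F (d : Dat) (s t : ℝ) (a b : Fin 2) :
    (Dat.tcl d s t).F a b = ES.tcl s t (d.F a b) := by
  unfold Dat.F Fm
  rw [XNew_tcl_add, XNew_tcl_grad]
  congr 1
  unfold idm
  split_ifs
  · exact (XNew_tcl_one s t).symm
  · exact (XNew_tcl_zero s t).symm

private theorem XNew_tcl_M (d : Dat) (s t : ℝ) (a b : Fin 2) :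
    (Dat.tcl d s t).M a b = ES.tcl s t (d.M a b) := by
  unfold Dat.M adj
  split_ifs
  · exact XNew_tcl_F d s t 1 1
  · rw [XNew_tcl_neg, XNew_tcl_F]
  · rw [XNew_tcl_neg, XNew_tcl_F]
  · exact XNew_tcl_F d s t 0 0

private theorem XNew_tcl_B (d : Dat) (s t : ℝ) (a : Fin 2) :
    (Dat.tcl d s t).B a = ES.tcl s t (d.B a) := by
  unfold Dat.B mulv
  rw [Fin.sum_univ_two, Fin.sum_univ_two, XNew_tcl_add, XNew_tcl_mul, XNew_tcl_mul, XNew_tcl_M,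
    XNew_tcl_M]
  have h : ∀ b, ((Dat.tcl d s t).v - (Dat.tcl d s t).U) b = ES.tcl s t ((d.v - d.U) b) := by
    intro b
    exact (XNew_tcl_sub s t (d.v b) (d.U b)).symm
  rw [h, h]

private theorem XNew_tcl_G (d : Dat) (s t : ℝ) (a b : Fin 2) :
    (Dat.tcl d s t).G a b = ES.tcl s t (d.G a b) :=
  (XNew_tcl_D s t d.κ b (d.v a)).symm

private theorem XNew_tcl_acc (d : Dat) (s t : ℝ) (a : Fin 2) :
    (Dat.tcl d s t).acc a = ES.tcl s t (d.acc a) := by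
  have hp : ∀ j, D (Dat.tcl d s t).κ j (Dat.tcl d s t).p = ES.tcl s t (D d.κ j d.p) :=
    fun j => (XNew_tcl_D s t d.κ j d.p).symm
  have hRM : ∀ a b, mulT (Dat.tcl d s t).R (Dat.tcl d s t).M a b =
      ES.tcl s t (mulT d.R d.M a b) := by
    intro a b
    unfold mulT
    rw [Fin.sum_univ_two, Fin.sum_univ_two, XNew_tcl_add, XNew_tcl_mul, XNew_tcl_mul,
      XNew_tcl_M, XNew_tcl_M]
    rfl
  unfold Dat.acc gradT mulvT dvm
  rw [Fin.sum_univ_two, Fin.sum_univ_two, Fin.sum_univ_two, Fin.sum_univ_two, XNew_tcl_add,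
    XNew_tcl_neg, XNew_tcl_add, XNew_tcl_add, XNew_tcl_mul, XNew_tcl_mul, XNew_tcl_M,
    XNew_tcl_M]
  beta_reduce
  rw [hp, hp, hRM, hRM, XNew_tcl_D, XNew_tcl_D]
  rfl

private theorem XNew_tcl_rhs (d : Dat) (s t : ℝ) (a : Fin 2) :
    (Dat.tcl d s t).rhs a = ES.tcl s t (d.rhs a) := by
  unfold Dat.rhs
  rw [XNew_tcl_sub, XNew_tcl_acc]
  congr 1
  unfold adv
  rw [Fin.sum_univ_two, Fin.sum_univ_two, XNew_tcl_add, XNew_tcl_mul, XNew_tcl_mul,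
    XNew_tcl_B, XNew_tcl_B, XNew_tcl_D, XNew_tcl_D]
  rfl

private theorem XNew_TD {s t : ℝ} {f g : WT} (h : TD s t f g) :
    TD s t (ES.tcl s t f) (ES.tcl s t g) :=
  TD.congr h (fun ν _ hτ => XNew_tcl_co f ν hτ) (fun ν _ hτ => XNew_tcl_co g ν hτ)

/-- Good data from unclamped data (all conditions of `Good` except clamping), then `tcl`
(a ring homomorphism commuting with all multipliers). -/
private theorem XNew_of_big {d : Dat} {s t lam g σ ρ c A : ℝ} (h2 : s < t) (kb : KB d.κ lam) (k0 : ∀ a j, d.i ≤ j → d.κ.k a j = 0)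
    (levξ : ∀ a, Lev d.i (d.ξ a)) (levU : ∀ a, Lev d.i (d.U a)) (levv : ∀ a, Lev d.i (d.v a))
    (levp : Lev d.i d.p) (levR : ∀ a b, Lev d.i (d.R a b)) (rξ : ∀ a, IsR (d.ξ a))
    (rU : ∀ a, IsR (d.U a)) (rv : ∀ a, IsR (d.v a)) (rp : IsR d.p) (rR : ∀ a b, IsR (d.R a b))
    (fξ : ∀ a, Fin0 ρ (d.ξ a))
    (fU : ∀ a, Fin0 ρ (d.U a)) (fv : ∀ a, Fin0 ρ (d.v a)) (fp : Fin0 ρ d.p)
    (symm : ∀ a b, d.R a b = d.R b a) (tdξ : ∀ a, TD s t (d.ξ a) (d.U a))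
    (tdv : ∀ a, TD s t (d.v a) (d.rhs a)) (det : det2 d.F = 1) (div : dvg d.κ d.B = 0)
    (bF : ∀ a b, Bd 0 (cr ρ) (grad d.κ d.ξ a b) c) (bB : ∀ a, Bd 0 (cr ρ) (d.B a) (g / lam))
    (bG : ∀ a b, Bd 0 (cr ρ) (d.G a b) g) (bR : ∀ a b, Bd 0 (cr ρ) (d.R a b) σ)
    (bA : ∀ a, Bd 0 (cr ρ) (d.acc a) A) : Good (Dat.tcl d s t) s t lam g σ ρ c A := by
  have hF0 : ∀ {f : WT}, Fin0 ρ f → Fin0 ρ (ES.tcl s t f) := by
    rintro f ⟨e, he⟩
    exact ⟨e, Bd.tcomp _ he⟩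
  exact
    { ht := h2
      kb := kb
      k0 := k0
      levξ := fun a => Lev.tcomp _ (levξ a)
      levU := fun a => Lev.tcomp _ (levU a)
      levv := fun a => Lev.tcomp _ (levv a)
      levp := Lev.tcomp _ levp
      levR := fun a b => Lev.tcomp _ (levR a b)
      rξ := fun a => (rξ a).tcl
      rU := fun a => (rU a).tcl
      rv := fun a => (rv a).tcl
      rp := rp.tcl
      rR := fun a b => (rR a b).tcl
      cξ := fun a => Cl.tcl h2.le _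
      cU := fun a => Cl.tcl h2.le _
      cv := fun a => Cl.tcl h2.le _
      cp := Cl.tcl h2.le _
      cR := fun a b => Cl.tcl h2.le _
      fξ := fun a => hF0 (fξ a)
      fU := fun a => hF0 (fU a)
      fv := fun a => hF0 (fv a)
      fp := hF0 fp
      symm := fun a b => by
        change ES.tcl s t (d.R a b) = ES.tcl s t (d.R b a)
        rw [symm a b]
      tdξ := fun a => XNew_TD (tdξ a)
      tdv := fun a => by
        rw [XNew_tcl_rhs]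
        exact XNew_TD (tdv a)
      det := by
        have h : det2 (Dat.tcl d s t).F = ES.tcl s t (det2 d.F) := by
          unfold det2
          rw [XNew_tcl_sub, XNew_tcl_mul, XNew_tcl_mul, XNew_tcl_F, XNew_tcl_F, XNew_tcl_F,
            XNew_tcl_F]
        rw [h, det, XNew_tcl_one]
      div := by
        have h : dvg (Dat.tcl d s t).κ (Dat.tcl d s t).B = ES.tcl s t (dvg d.κ d.B) := by
          unfold dvg
          rw [Fin.sum_univ_two, Fin.sum_univ_two, XNew_tcl_add, XNew_tcl_B, XNew_tcl_B,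
            XNew_tcl_D, XNew_tcl_D]
          rfl
        rw [h, div, XNew_tcl_zero]
      bF := fun a b => by
        rw [XNew_tcl_grad]
        exact Bd.tcomp _ (bF a b)
      bB := fun a => by
        rw [XNew_tcl_B]
        exact Bd.tcomp _ (bB a)
      bG := fun a b => by
        rw [XNew_tcl_G]
        exact Bd.tcomp _ (bG a b)
      bR := fun a b => Bd.tcomp _ (bR a b)
      bA := fun a => by
        rw [XNew_tcl_acc]
        exact Bd.tcomp _ (bA a) }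

/-- Clamping of good data to a subinterval. -/
theorem Good.tclX {d : Dat} {t0 t1 s t lam g σ ρ c A : ℝ} (H : Good d t0 t1 lam g σ ρ c A)
    (h1 : t0 ≤ s) (h2 : s < t) (h3 : t ≤ t1) : Good (Dat.tcl d s t) s t lam g σ ρ c A :=
  XNew_of_big h2 H.kb H.k0 H.levξ H.levU H.levv H.levp H.levR H.rξ H.rU H.rv H.rp H.rR H.fξ H.fU
    H.fv H.fp H.symm (fun a => (H.tdξ a).mono h1 h3) (fun a => (H.tdv a).mono h1 h3) H.det H.div
    H.bF H.bB H.bG H.bR H.bA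

/-- Good data from unclamped data (all conditions of `Good` except clamping), then `tcl`
(a ring homomorphism commuting with all multipliers). -/
theorem Good.of_big {d : Dat} {s t lam g σ ρ c A : ℝ} (h2 : s < t) (kb : KB d.κ lam) (k0 : ∀ a j, d.i ≤ j → d.κ.k a j = 0)
    (levξ : ∀ a, Lev d.i (d.ξ a)) (levU : ∀ a, Lev d.i (d.U a)) (levv : ∀ a, Lev d.i (d.v a))
    (levp : Lev d.i d.p) (levR : ∀ a b, Lev d.i (d.R a b)) (rξ : ∀ a, IsR (d.ξ a))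
    (rU : ∀ a, IsR (d.U a)) (rv : ∀ a, IsR (d.v a)) (rp : IsR d.p) (rR : ∀ a b, IsR (d.R a b))
    (fξ : ∀ a, Fin0 ρ (d.ξ a))
    (fU : ∀ a, Fin0 ρ (d.U a)) (fv : ∀ a, Fin0 ρ (d.v a)) (fp : Fin0 ρ d.p)
    (symm : ∀ a b, d.R a b = d.R b a) (tdξ : ∀ a, TD s t (d.ξ a) (d.U a))
    (tdv : ∀ a, TD s t (d.v a) (d.rhs a)) (det : det2 d.F = 1) (div : dvg d.κ d.B = 0)
    (bF : ∀ a b, Bd 0 (cr ρ) (grad d.κ d.ξ a b) c) (bB : ∀ a, Bd 0 (cr ρ) (d.B a) (g / lam))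
    (bG : ∀ a b, Bd 0 (cr ρ) (d.G a b) g) (bR : ∀ a b, Bd 0 (cr ρ) (d.R a b) σ)
    (bA : ∀ a, Bd 0 (cr ρ) (d.acc a) A) : Good (Dat.tcl d s t) s t lam g σ ρ c A :=
  XNew_of_big h2 kb k0 levξ levU levv levp levR rξ rU rv rp rR fξ fU fv fp symm tdξ tdv det div bF
    bB bG bR bA

end ES
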