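import Pool.Agent.ES.XCal
import Pool.Agent.ES.LAbs

/-!
ES-XPot: the potential lemma (EW 4, Lemma 4.1).
`D^⊥φ + Dπ = D·(S - TF (F-I) φ - TM (M-I) π)` (`dp_eq_dvm`, `mulv_dp`, `gradT_eq_dvm`, `TF_sub`, ...),
apply `strm`/`pot`: `φ = strm(..)`, `π = pot(..)`; each is a sum of four order-zero multipliers
(symbols `κ_a κ_b / |κ|²`), `N ≤ 4 (s + 0.012 N(φ) + 0.012 N(π))`; absorption with
`Bd.absorbV` for the family `(φ, π)`.
-/

open scoped BoundedContinuousFunction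

namespace ES

private theorem XPot_strm (κ : Kp) (x : Vec) :
    ES.strm κ x = -(D κ 1 (Lin κ (x 0))) + D κ 0 (Lin κ (x 1)) := by
  unfold ES.strm
  rw [Fin.sum_univ_two]
  unfold dp
  rw [if_pos rfl, if_neg (by decide), LinearMap.neg_apply, map_add, map_neg, Lin_D, Lin_D]

private theorem XPot_pot (κ : Kp) (x : Vec) :
    ES.pot κ x = D κ 0 (Lin κ (x 0)) + D κ 1 (Lin κ (x 1)) := by
  unfold ES.pot dvg
  rw [Fin.sum_univ_two, map_add, Lin_D, Lin_D]

/-- `strm` and `pot` of a divergence are of order zero. -/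
theorem Bd.strm_dvm {k : ℕ} {r : ℝ → ℝ} {X : Mat} {c : ℝ} (κ : Kp)
    (hX : ∀ a b, Bd k r (X a b) c) : Bd k r (ES.strm κ (dvm κ X)) (4 * c) := by
  have e : ES.strm κ (dvm κ X) = -(ES.Pg κ 1 0 (X 0 0) + ES.Pg κ 1 1 (X 0 1)) +
      (ES.Pg κ 0 0 (X 1 0) + ES.Pg κ 0 1 (X 1 1)) := by
    rw [XPot_strm]
    unfold dvm
    simp only [Fin.sum_univ_two, map_add, Lin_D, Pg_eq]
  rw [e]
  have h := (((hX 0 0).Pg κ 1 0).add ((hX 0 1).Pg κ 1 1)).neg.add
    (((hX 1 0).Pg κ 0 0).add ((hX 1 1).Pg κ 0 1))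
  exact h.mono (le_of_eq (by ring))

theorem Bd.pot_dvm {k : ℕ} {r : ℝ → ℝ} {X : Mat} {c : ℝ} (κ : Kp)
    (hX : ∀ a b, Bd k r (X a b) c) : Bd k r (ES.pot κ (dvm κ X)) (4 * c) := by
  have e : ES.pot κ (dvm κ X) = (ES.Pg κ 0 0 (X 0 0) + ES.Pg κ 0 1 (X 0 1)) +
      (ES.Pg κ 1 0 (X 1 0) + ES.Pg κ 1 1 (X 1 1)) := by
    rw [XPot_pot]
    unfold dvm
    simp only [Fin.sum_univ_two, map_add, Lin_D, Pg_eq]
  rw [e]
  have h := (((hX 0 0).Pg κ 0 0).add ((hX 0 1).Pg κ 0 1)).add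
    (((hX 1 0).Pg κ 1 0).add ((hX 1 1).Pg κ 1 1))
  exact h.mono (le_of_eq (by ring))

theorem Bd.strm {k : ℕ} {r : ℝ → ℝ} {x : Vec} {c : ℝ} (κ : Kp)
    (hX : ∀ a, Bd k r (x a) c) : Bd k r (ES.strm κ x) (2 * c) := by
  rw [XPot_strm]
  have h := (Bd.D_Lin κ 1 (hX 0)).neg.add (Bd.D_Lin κ 0 (hX 1))
  exact h.mono (le_of_eq (by ring))

theorem Bd.pot {k : ℕ} {r : ℝ → ℝ} {x : Vec} {c : ℝ} (κ : Kp)
    (hX : ∀ a, Bd k r (x a) c) : Bd k r (ES.pot κ x) (2 * c) := by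
  rw [XPot_pot]
  have h := (Bd.D_Lin κ 0 (hX 0)).add (Bd.D_Lin κ 1 (hX 1))
  exact h.mono (le_of_eq (by ring))

private theorem XPot_strm_add (κ : Kp) (x y : Vec) :
    ES.strm κ (fun a => x a + y a) = ES.strm κ x + ES.strm κ y := by
  rw [XPot_strm, XPot_strm, XPot_strm, map_add, map_add, map_add, map_add]
  ring

private theorem XPot_pot_add (κ : Kp) (x y : Vec) :
    ES.pot κ (fun a => x a + y a) = ES.pot κ x + ES.pot κ y := by
  rw [XPot_pot, XPot_pot, XPot_pot, map_add, map_add, map_add, map_add]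
  ring

theorem pot_bd (κ : Kp) (ξ0 : Vec) {r : ℝ → ℝ} (hr : ∀ t, 0 ≤ r t)
    (hF : ∀ a b, Bd 0 r (Fm κ ξ0 a b - idm a b) (3 / 250)) {φ π : WT} (hφ : Pnz κ φ = φ)
    (hπ : Pnz κ π = π) {c0 : ℝ} (bφ : Bd 0 r φ c0) (bπ : Bd 0 r π c0) {S : Mat} {s : ℝ}
    (hS : ∀ a b, Bd 0 r (S a b) s)
    (h : ∀ a, mulv (Fm κ ξ0) (fun k => dp κ k φ) a + gradT κ (adj (Fm κ ξ0)) π a = dvm κ S a) :
    Bd 0 r φ (8 * s) ∧ Bd 0 r π (8 * s) := by
  set F : Mat := Fm κ ξ0 with hFdef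
  have hs0 : 0 ≤ s := (hS 0 0).nonneg
  -- the reduced matrix
  set Y : Mat := fun a j => (S a j - TF (fun a b => F a b - idm a b) φ a j) -
    TM (fun a b => adj F a b - idm a b) π a j with hY
  have hid : ∀ a, dp κ a φ + D κ a π = dvm κ Y a := by
    intro a
    have h1 := h a
    rw [hFdef, mulv_dp, gradT_eq_dvm, ← hFdef] at h1
    rw [hY, dvm_sub κ (fun a j => S a j - TF (fun a b => F a b - idm a b) φ a j)
      (TM (fun a b => adj F a b - idm a b) π), dvm_sub κ S (TF (fun a b => F a b - idm a b) φ),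
      TF_sub, TM_sub, dvm_sub, dvm_sub, ← h1, dp_eq_dvm κ φ a, D_eq_dvm κ π a]
    ring
  have hφY : φ = ES.strm κ (dvm κ Y) := by
    have e : dvm κ Y = fun a => dp κ a φ + D κ a π := funext fun a => (hid a).symm
    rw [e, XPot_strm_add κ (fun a => dp κ a φ) (fun a => D κ a π), strm_dp, strm_D, hφ, add_zero]
  have hπY : π = ES.pot κ (dvm κ Y) := by
    have e : dvm κ Y = fun a => dp κ a φ + D κ a π := funext fun a => (hid a).symm
    rw [e, XPot_pot_add κ (fun a => dp κ a φ) (fun a => D κ a π), pot_dp, pot_D, hπ, zero_add]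
  have hadj : ∀ a b, Bd 0 r (adj F a b - idm a b) (3 / 250) := by
    obtain ⟨e00, e01, e10, e11⟩ := adj_sub_idm F
    intro a b
    fin_cases a <;> fin_cases b
    · change Bd 0 r (adj F 0 0 - idm 0 0) (3 / 250)
      rw [e00]; exact hF 1 1
    · change Bd 0 r (adj F 0 1 - idm 0 1) (3 / 250)
      rw [e01]; exact (hF 0 1).neg
    · change Bd 0 r (adj F 1 0 - idm 1 0) (3 / 250)
      rw [e10]; exact (hF 1 0).neg
    · change Bd 0 r (adj F 1 1 - idm 1 1) (3 / 250)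
      rw [e11]; exact hF 0 0
  have hstep : ∀ c, 0 ≤ c → Bd 0 r φ c → Bd 0 r π c → ∀ a b, Bd 0 r (Y a b) (s + 3 / 250 * c +
      3 / 250 * c) := by
    intro c hc h1 h2 a b
    rw [hY]
    refine Bd.sub (Bd.sub (hS a b) ?_) ?_
    · unfold TF
      split_ifs
      · exact Bd.mul hr (hF a 1) h1
      · exact (Bd.mul hr (hF a 0) h1).neg
    · unfold TM
      exact Bd.mul hr (hadj b a) h2
  have key := Bd.absorbV (ι := Bool) (f := fun i => if i then φ else π) (k := 0) (r := r)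
    (c0 := c0) (a := 4 * s)
    (by
      intro j
      cases j
      · exact bπ
      · exact bφ)
    (by
      intro c hc hj j
      have h1 : Bd 0 r φ c := hj true
      have h2 : Bd 0 r π c := hj false
      have h3 := hstep c hc h1 h2
      cases j
      · change Bd 0 r π (4 * s + c / 2)
        rw [hπY]
        refine (Bd.pot_dvm κ h3).mono ?_
        linarith
      · change Bd 0 r φ (4 * s + c / 2)
        rw [hφY]
        refine (Bd.strm_dvm κ h3).mono ?_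
        linarith)
  have k1 : Bd 0 r φ (2 * (4 * s)) := key true
  have k2 : Bd 0 r π (2 * (4 * s)) := key false
  exact ⟨k1.mono (by linarith), k2.mono (by linarith)⟩

end ES
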