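import Pool.Agent.ES.XAmp
import Pool.Agent.ES.XGap
import Pool.Agent.ES.XFin
import Pool.Agent.ES.SEx
import Pool.Agent.ES.SPost

/-!
ES-XSta: states between the sub-blocks of a block `[t0,t1]` with data `d` (EW 4).
-/

open scoped BoundedContinuousFunction

namespace ES

/-- Data frozen at time `t`. -/
noncomputable def Dat.frz (d : Dat) (t : ℝ) : Dat where
  κ := d.κ
  i := d.i
  ξ j := ES.frz t (d.ξ j)
  U j := ES.frz t (d.U j)
  v j := ES.frz t (d.v j)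
  p := ES.frz t d.p
  R j k := ES.frz t (d.R j k)

/-- Initial deformation of the block, `F0 = I + D ξ(t0)`. -/
noncomputable def F0 (d : Dat) (t0 : ℝ) : Mat := Fm d.κ (fun j => frz t0 (d.ξ j))

/-- State at the time `t` (initial values of the next sub-block). -/
structure StA (d : Dat) (t0 ρ0 y e ψ δ t : ℝ) (ζa Ea : Vec) (Ψa : WT) : Prop where
  zb : ∀ j, Bd 2 (cr ρ0) (ζa j) y
  zl : ∀ j, Lev d.i (ζa j)
  zr : ∀ j, IsR (ζa j)
  zt : ∀ j t₀, ES.frz t₀ (ζa j) = ζa j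
  zd : det2 (Fm d.κ ζa) = 1
  eb : ∀ j, Bd 1 (cr ρ0) (Ea j) e
  el : ∀ j, Lev d.i (Ea j)
  er : ∀ j, IsR (Ea j)
  et : ∀ j t₀, ES.frz t₀ (Ea j) = Ea j
  eΨ : ∀ j, Ea j = dp d.κ j Ψa
  zΨ : Pnz d.κ Ψa = Ψa
  bΨ : Bd 0 (cr ρ0) Ψa ψ
  lΨ : Lev d.i Ψa
  rΨ : IsR Ψa
  tΨ : ∀ t₀, ES.frz t₀ Ψa = Ψa
  hδ : ∀ k l, Bd 0 (cr ρ0) (FF (d.frz t) ζa k l - F0 d t0 k l) δ

private theorem XSta_Fm_zero (κ : Kp) (a b : Fin 2) : Fm κ 0 a b = idm a b := by
  show idm a b + D κ b (0 : WT) = idm a b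
  rw [map_zero, add_zero]

private theorem XSta_det_zero (κ : Kp) : det2 (Fm κ 0) = 1 := by
  unfold det2
  rw [XSta_Fm_zero, XSta_Fm_zero, XSta_Fm_zero, XSta_Fm_zero]
  simp [idm]

private theorem XSta_FF_zero (d : Dat) (k l : Fin 2) : FF d 0 k l = d.F k l := by
  have h : ∀ c, comp d.κ 0 (d.F k c) * Pm d 0 c l = d.F k c * idm c l := by
    intro c
    rw [comp_id]
    show d.F k c * Fm d.κ 0 c l = _
    rw [XSta_Fm_zero]
  show ∑ c, comp d.κ 0 (d.F k c) * Pm d 0 c l = _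
  rw [Finset.sum_congr rfl fun c _ => h c, Fin.sum_univ_two]
  fin_cases l <;> simp [idm]

private theorem XSta_frz_zero (t : ℝ) : ES.frz t 0 = 0 := tcomp_zero _

/-- Start of the block. -/
theorem StA.start {d : Dat} {t0 t1 lam g σ ρ c A ρ0 : ℝ} (G : Good d t0 t1 lam g σ ρ c A)
    (h : ρ0 ≤ ρ) : StA d t0 ρ0 0 0 0 0 t0 0 0 0 := by
  have hz : ∀ j : Fin 2, (0 : Vec) j = 0 := fun j => rfl
  exact
    { zb := fun j => Bd.zero 2 _ le_rfl
      zl := fun j => Lev.zero _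
      zr := fun j => IsR.zero
      zt := fun j t₀ => XSta_frz_zero t₀
      zd := XSta_det_zero _
      eb := fun j => Bd.zero 1 _ le_rfl
      el := fun j => Lev.zero _
      er := fun j => IsR.zero
      et := fun j t₀ => XSta_frz_zero t₀
      eΨ := fun j => by rw [map_zero]; rfl
      zΨ := map_zero _
      bΨ := Bd.zero 0 _ le_rfl
      lΨ := Lev.zero _
      rΨ := IsR.zero
      tΨ := fun t₀ => XSta_frz_zero t₀
      hδ := fun k l => by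
        rw [XSta_FF_zero]
        have h1 : (d.frz t0).F k l - F0 d t0 k l = 0 := sub_self _
        rw [h1]
        exact Bd.zero 0 _ le_rfl }

/-- The sub-block parameters. -/
noncomputable def mkSB (d : Dat) (ta tb ℓr : ℝ) (L : ℕ) (k0 : Fin 2 → ℤ) (b : WT)
    (ζa Ea : Vec) : SB where
  d := d.tcl ta tb
  ta := ta
  s1 := ta + ℓr
  s2 := tb - ℓr
  tb := tb
  L := L
  k0 := k0
  b := b
  ζa := ζa
  Ea := Ea

private theorem XSta_frz_tcl {ta tb τ : ℝ} (hτ : clp ta tb τ = τ) (f : WT) :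
    ES.frz τ (ES.tcl ta tb f) = ES.frz τ f := by
  apply WT.ext
  funext ν
  ext t
  rw [frz_co, frz_co]
  change f.co ν (clp ta tb τ) = f.co ν τ
  rw [hτ]

private theorem XSta_frz_idm (t₀ : ℝ) (a b : Fin 2) : ES.frz t₀ (idm a b) = idm a b := by
  unfold idm ES.frz
  split_ifs
  · exact tcomp_one _
  · exact tcomp_zero _

private theorem XSta_frz_Fm (t₀ : ℝ) (κ : Kp) (ζ : Vec) (a b : Fin 2) :
    ES.frz t₀ (Fm κ ζ a b) = Fm κ (fun j => ES.frz t₀ (ζ j)) a b := by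
  show ES.frz t₀ (idm a b + D κ b (ζ a)) = idm a b + D κ b (ES.frz t₀ (ζ a))
  have h1 : ES.frz t₀ (idm a b + D κ b (ζ a)) = ES.frz t₀ (idm a b) + ES.frz t₀ (D κ b (ζ a)) :=
    tcomp_add _ _ _
  have h2 : ES.frz t₀ (D κ b (ζ a)) = D κ b (ES.frz t₀ (ζ a)) := tcomp_D _ _ _ _
  rw [h1, XSta_frz_idm, h2]

private theorem XSta_bd_idm (k : ℕ) (r : ℝ → ℝ) (a b : Fin 2) : Bd k r (idm a b) 1 := by
  unfold idm
  split_ifs
  · exact Bd.one k r
  · exact Bd.zero k r zero_le_one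

private theorem XSta_frz_FF {d : Dat} {lam g σ ρ c A : ℝ}
    {ta tb ℓr ρ0 m w η : ℝ} {L : ℕ} {k0 : Fin 2 → ℤ} {b : WT} {ζa Ea ζ E W a q : Vec}
    (H : SBH (mkSB d ta tb ℓr L k0 b ζa Ea) lam g σ ρ c A ρ0 m w η)
    (S : SB0 (mkSB d ta tb ℓr L k0 b ζa Ea) lam g ρ0 m w ζ E W a q) {τ : ℝ}
    (hτ : clp ta tb τ = τ) (k l : Fin 2) :
    ES.frz τ (FF (d.tcl ta tb) ζ k l) = FF (d.frz τ) (fun j => ES.frz τ (ζ j)) k l := by
  have hB := SB0.bh H S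
  have hD : DH (d.tcl ta tb) lam g σ c m m ((mkSB d ta tb ℓr L k0 b ζa Ea).r ρ0 m) := H.dh
  have hC : CH d.κ lam m m ((mkSB d ta tb ℓr L k0 b ζa Ea).r ρ0 m) ζ := hD.ch hB.z
  have hm := H.hm
  have hF : ∀ e, Bd 0 (fun t => (mkSB d ta tb ℓr L k0 b ζa Ea).r ρ0 m t + m)
      ((d.tcl ta tb).F k e) (1 + c) := by
    intro e
    exact (XSta_bd_idm 0 _ k e).add ((hD.bF k e).weaken le_rfl fun t => by linarith)
  have hFe : ∀ e, ES.frz τ ((d.tcl ta tb).F k e) = (d.frz τ).F k e := by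
    intro e
    show ES.frz τ (Fm d.κ (fun j => ES.tcl ta tb (d.ξ j)) k e) =
      Fm d.κ (fun j => ES.frz τ (d.ξ j)) k e
    rw [XSta_frz_Fm]
    congr 1
    funext j
    exact XSta_frz_tcl hτ _
  have h1 : ∀ e, ES.frz τ (comp d.κ ζ ((d.tcl ta tb).F k e) * Pm (d.tcl ta tb) ζ e l) =
      comp d.κ (fun j => ES.frz τ (ζ j)) ((d.frz τ).F k e) *
        Pm (d.frz τ) (fun j => ES.frz τ (ζ j)) e l := by
    intro e
    have e1 : ES.frz τ (comp d.κ ζ ((d.tcl ta tb).F k e) * Pm (d.tcl ta tb) ζ e l) =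
        ES.frz τ (comp d.κ ζ ((d.tcl ta tb).F k e)) * ES.frz τ (Pm (d.tcl ta tb) ζ e l) :=
      tcomp_mul _ _ _
    have e2 : ES.frz τ (comp d.κ ζ ((d.tcl ta tb).F k e)) =
        comp d.κ (fun j => ES.frz τ (ζ j)) (ES.frz τ ((d.tcl ta tb).F k e)) :=
      tcomp_comp hC (hF e) _
    have e3 : ES.frz τ (Pm (d.tcl ta tb) ζ e l) = Pm (d.frz τ) (fun j => ES.frz τ (ζ j)) e l :=
      XSta_frz_Fm τ d.κ ζ e l
    rw [e1, e2, e3, hFe]
  show ES.frz τ (∑ e, comp d.κ ζ ((d.tcl ta tb).F k e) * Pm (d.tcl ta tb) ζ e l) =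
    ∑ e, comp d.κ (fun j => ES.frz τ (ζ j)) ((d.frz τ).F k e) *
      Pm (d.frz τ) (fun j => ES.frz τ (ζ j)) e l
  have h2 : ES.frz τ (∑ e, comp d.κ ζ ((d.tcl ta tb).F k e) * Pm (d.tcl ta tb) ζ e l) =
      ∑ e, ES.frz τ (comp d.κ ζ ((d.tcl ta tb).F k e) * Pm (d.tcl ta tb) ζ e l) :=
    tcomp_sum _ _ _
  rw [h2]
  exact Finset.sum_congr rfl fun e _ => h1 e

/-- `F'` at the left end of the sub-block. -/
theorem frz_FF_left {d : Dat} {t0 t1 lam g σ ρ c A : ℝ} (G : Good d t0 t1 lam g σ ρ c A)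
    {ta tb ℓr ρ0 m w η : ℝ} {L : ℕ} {k0 : Fin 2 → ℤ} {b : WT} {ζa Ea ζ E W a q : Vec}
    (H : SBH (mkSB d ta tb ℓr L k0 b ζa Ea) lam g σ ρ c A ρ0 m w η)
    (S : SB0 (mkSB d ta tb ℓr L k0 b ζa Ea) lam g ρ0 m w ζ E W a q) (k l : Fin 2) :
    ES.frz ta (FF (d.tcl ta tb) ζ k l) = FF (d.frz ta) ζa k l := by
  have hab : ta < tb := H.good.ht
  have h1 : (fun j => ES.frz ta (ζ j)) = ζa := by
    funext j
    have h2 := S.sol.hζ j
    have h3 : ES.frz ta (ζ j) = ES.frz ta (ζa j) + ES.frz ta (intg ta tb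
        (comp d.κ ζ ((d.tcl ta tb).B j) + mulv (Pm (d.tcl ta tb) ζ) E j)) := by
      have h4 : ζ j = ζa j + intg ta tb
        (comp d.κ ζ ((d.tcl ta tb).B j) + mulv (Pm (d.tcl ta tb) ζ) E j) := h2
      conv_lhs => rw [h4]
      exact tcomp_add _ _ _
    rw [h3, intg_at_left hab.le, add_zero]
    exact H.zt j ta
  rw [XSta_frz_FF H S (clp_of_mem (Set.left_mem_Icc.2 hab.le)) k l, h1]

/-- `F'` at the right end of the sub-block. -/
theorem frz_FF_right {d : Dat} {t0 t1 lam g σ ρ c A : ℝ} (G : Good d t0 t1 lam g σ ρ c A)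
    {ta tb ℓr ρ0 m w η : ℝ} {L : ℕ} {k0 : Fin 2 → ℤ} {b : WT} {ζa Ea ζ E W a q : Vec}
    (H : SBH (mkSB d ta tb ℓr L k0 b ζa Ea) lam g σ ρ c A ρ0 m w η)
    (S : SB0 (mkSB d ta tb ℓr L k0 b ζa Ea) lam g ρ0 m w ζ E W a q) (k l : Fin 2) :
    ES.frz tb (FF (d.tcl ta tb) ζ k l) = FF (d.frz tb) (fun j => ES.frz tb (ζ j)) k l := by
  have hab : ta < tb := H.good.ht
  exact XSta_frz_FF H S (clp_of_mem (Set.right_mem_Icc.2 hab.le)) k l

/-- Hypotheses of the sub-block from the state. -/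
theorem mk_SBH {d : Dat} {t0 t1 lam g σ ρ c A : ℝ} (G : Good d t0 t1 lam g σ ρ c A)
    {ta tb ℓr ρ0 m w y e ψ δ : ℝ} {L : ℕ} {k0 : Fin 2 → ℤ} {b : WT} {ζa Ea : Vec} {Ψa : WT}
    (h0 : t0 ≤ ta) (h2 : tb ≤ t1) (hℓ : 0 < ℓr) (hℓ2 : 2 * ℓr < tb - ta)
    (hm : 0 < m) (hm1 : m ≤ 1) (hρ : ρ ≤ 2) (hρ0 : 3 * m ≤ ρ0) (hρ1 : ρ0 + 2 * m ≤ ρ)
    (hlam : 1 ≤ lam) (hw : 0 < w) (hlw : lam * w ≤ g) (hσ0 : 0 ≤ σ) (hσ : σ ≤ w ^ 2)
    (hc : c ≤ 1 / 100) (hL : lam * (1 + 1 / m) ≤ L) (hk : ∀ a, |k0 a| ≤ 2)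
    (bb : Bd 0 (cr (ρ0 + m)) b w) (bl : Lev d.i b) (br : IsR b) (bt : ∀ t₀, ES.frz t₀ b = b)
    (hh : 10 ^ 13 * (1 + 1 / m) ^ 5 * (t1 - t0) * g ≤ 1)
    (St : StA d t0 ρ0 y e ψ δ ta ζa Ea Ψa)
    (hy : y ≤ 10 ^ 8 * (1 + 1 / m) ^ 2 * (t1 - t0) * g / lam)
    (he0 : 0 ≤ e) (he : e ≤ 10 ^ 8 * (1 + 1 / m) ^ 4 * (t1 - t0) * lam * w ^ 2) :
    SBH (mkSB d ta tb ℓr L k0 b ζa Ea) lam g σ ρ c A ρ0 m w e := by
  have hab : ta < tb := by linarith
  have ht : 0 < t1 - t0 := by linarith [G.ht]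
  have hlam0 : 0 < lam := by linarith
  have hg : 0 < g := (mul_pos hlam0 hw).trans_le hlw
  obtain ⟨K, hK⟩ : ∃ K, K = 1 + 1 / m := ⟨_, rfl⟩
  have hK1 : 1 ≤ K := by
    have : 0 < 1 / m := by positivity
    rw [hK]
    linarith
  have hK0 : 0 < K := by linarith
  rw [← hK] at hh hy he
  have htg : 0 < (t1 - t0) * g := by positivity
  have p3 : K ^ 3 ≤ K ^ 5 := pow_le_pow_right₀ hK1 (by norm_num)
  have p4 : K ^ 4 ≤ K ^ 5 := pow_le_pow_right₀ hK1 (by norm_num)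
  have q3 : K ^ 3 * ((t1 - t0) * g) ≤ K ^ 5 * ((t1 - t0) * g) :=
    mul_le_mul_of_nonneg_right p3 htg.le
  have q4 : K ^ 4 * ((t1 - t0) * g) ≤ K ^ 5 * ((t1 - t0) * g) :=
    mul_le_mul_of_nonneg_right p4 htg.le
  have hh' : 10 ^ 13 * (K ^ 5 * ((t1 - t0) * g)) ≤ 1 := by
    have e1 : 10 ^ 13 * (K ^ 5 * ((t1 - t0) * g)) = 10 ^ 13 * K ^ 5 * (t1 - t0) * g := by ring
    rw [e1]
    exact hh
  exact
    { good := G.tclX h0 hab h2
      h1 := by show ta < ta + ℓr; linarith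
      h2 := by show ta + ℓr < tb - ℓr; linarith
      h3 := by show tb - ℓr < tb; linarith
      hm := hm
      hm1 := hm1
      hρ := hρ
      hρ0 := by linarith
      hρ1 := hρ1
      hlam := hlam
      hw := hw
      hlw := hlw
      hσ0 := hσ0
      hσ := hσ
      hc := hc
      hL := hL
      hk := hk
      bb := bb
      bl := bl
      br := br
      bt := bt
      zb := fun j => by
        refine (St.zb j).mono (hy.trans ?_)
        rw [← hK, div_le_div_iff₀ hlam0 (by positivity)]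
        have e1 : 10 ^ 8 * K ^ 2 * (t1 - t0) * g * (1024 * lam * K) =
          (1024 * 10 ^ 8 * (K ^ 3 * ((t1 - t0) * g))) * lam := by ring
        rw [e1]
        exact mul_le_mul_of_nonneg_right (by nlinarith [q3, hh']) hlam0.le
      zl := St.zl
      zr := St.zr
      zt := St.zt
      zd := St.zd
      hη0 := he0
      hη := by
        refine he.trans ?_
        have e1 : 10 ^ 8 * K ^ 4 * (t1 - t0) * lam * w ^ 2 =
          (10 ^ 8 * (K ^ 4 * (t1 - t0)) * (lam * w)) * w := by ring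
        rw [e1]
        have e2 : 10 ^ 8 * (K ^ 4 * (t1 - t0)) * (lam * w) ≤
            10 ^ 8 * (K ^ 4 * (t1 - t0)) * g := mul_le_mul_of_nonneg_left hlw (by positivity)
        have e3 : 10 ^ 8 * (K ^ 4 * (t1 - t0)) * g = 10 ^ 8 * (K ^ 4 * ((t1 - t0) * g)) := by ring
        have e4 : 10 ^ 8 * (K ^ 4 * (t1 - t0)) * (lam * w) ≤ 1 := by
          rw [e3] at e2
          have e5 : 0 ≤ K ^ 5 * ((t1 - t0) * g) := by positivity
          linarith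
        calc 10 ^ 8 * (K ^ 4 * (t1 - t0)) * (lam * w) * w ≤ 1 * w :=
              mul_le_mul_of_nonneg_right e4 hw.le
          _ = w := one_mul w
      eb' := St.eb
      el := St.el
      er := St.er
      et := St.et
      ed := by
        show ∑ j, D d.κ j (Ea j) = 0
        rw [Finset.sum_congr rfl fun j _ => by rw [St.eΨ j]]
        exact div_dp d.κ Ψa
      ez := fun j => by
        show Pnz d.κ (Ea j) = Ea j
        rw [St.eΨ j]
        unfold dp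
        split_ifs
        · rw [LinearMap.neg_apply, map_neg, Pnz_D]
        · rw [Pnz_D] }

end ES
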