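import Pool.Agent.ES.XSta

/-!
ES-XStep: one sub-block step inside a block `[t0,t1]` with data `d` (EW 4): `mk_SBH`, `sb_exists0`,
`sb_post`, `det_P`, `psi_exists`, `avg_id`; `Ψb = Ψa + frz tb (intg ta tb φ)`,
`πb = frz tb (intg ta tb π)`.  Bounds of `F'`: `Bd.sub_frz`, `td_FF`, `new_DV'`, `frz_FF_left/right`.
-/

open scoped BoundedContinuousFunction

namespace ES

private theorem XStep_frz_dp (t₀ : ℝ) (κ : Kp) (a : Fin 2) (f : WT) :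
    ES.frz t₀ (dp κ a f) = dp κ a (ES.frz t₀ f) := by
  unfold dp
  split_ifs
  · rw [LinearMap.neg_apply, LinearMap.neg_apply]
    unfold ES.frz
    rw [tcomp_neg, tcomp_D]
  · unfold ES.frz
    rw [tcomp_D]

private theorem XStep_frz_add (t₀ : ℝ) (f g : WT) :
    ES.frz t₀ (f + g) = ES.frz t₀ f + ES.frz t₀ g := tcomp_add _ f g

private theorem XStep_frz_sub (t₀ : ℝ) (f g : WT) :
    ES.frz t₀ (f - g) = ES.frz t₀ f - ES.frz t₀ g := tcomp_sub _ f g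

private theorem XStep_frz_Pnz (t₀ : ℝ) (κ : Kp) (f : WT) :
    ES.frz t₀ (Pnz κ f) = Pnz κ (ES.frz t₀ f) := tcomp_mlt _ _ f

private theorem XStep_intg_Pnz (a b : ℝ) (κ : Kp) (f : WT) :
    intg a b (Pnz κ f) = Pnz κ (intg a b f) := intg_mlt a b _ f

private theorem XStep_frz_idm (t₀ : ℝ) (a b : Fin 2) : ES.frz t₀ (idm a b) = idm a b := by
  unfold idm ES.frz
  split_ifs
  · exact tcomp_one _
  · exact tcomp_zero _

private theorem XStep_frz_Fm (t₀ : ℝ) (κ : Kp) (ξ : Vec) (a b : Fin 2) :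
    ES.frz t₀ (Fm κ ξ a b) = Fm κ (fun j => ES.frz t₀ (ξ j)) a b := by
  have h : ∀ x : Vec, Fm κ x a b = idm a b + D κ b (x a) := fun _ => rfl
  rw [h, h, XStep_frz_add, XStep_frz_idm]
  unfold ES.frz
  rw [tcomp_D]

private theorem XStep_frz_det (t₀ : ℝ) (κ : Kp) (ξ : Vec) :
    det2 (Fm κ (fun j => ES.frz t₀ (ξ j))) = ES.frz t₀ (det2 (Fm κ ξ)) := by
  unfold det2
  rw [XStep_frz_sub]
  have hm : ∀ f g : WT, ES.frz t₀ (f * g) = ES.frz t₀ f * ES.frz t₀ g := fun f g =>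
    tcomp_mul _ f g
  rw [hm, hm, XStep_frz_Fm, XStep_frz_Fm, XStep_frz_Fm, XStep_frz_Fm]

/-- The step. -/
theorem step {d : Dat} {t0 t1 lam g σ ρ c A : ℝ} (G : Good d t0 t1 lam g σ ρ c A)
    {ta tb ℓr ρ0 m w y e ψ δ : ℝ} {L : ℕ} {k0 : Fin 2 → ℤ} {b : WT} {ζa Ea : Vec} {Ψa : WT}
    (h0 : t0 ≤ ta) (h2 : tb ≤ t1) (hℓ : 0 < ℓr) (hℓ2 : 2 * ℓr < tb - ta)
    (hm : 0 < m) (hm1 : m ≤ 1) (hρ : ρ ≤ 2) (hρ0 : 3 * m ≤ ρ0) (hρ1 : ρ0 + 2 * m ≤ ρ)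
    (hlam : 1 ≤ lam) (hw : 0 < w) (hlw : lam * w ≤ g) (hσ0 : 0 ≤ σ) (hσ : σ ≤ w ^ 2)
    (hc : c ≤ 1 / 100) (hL : lam * (1 + 1 / m) ≤ L) (hk : ∀ a, |k0 a| ≤ 2)
    (bb : Bd 0 (cr (ρ0 + m)) b w) (bl : Lev d.i b) (br : IsR b) (bt : ∀ t₀, ES.frz t₀ b = b)
    (hh : 10 ^ 13 * (1 + 1 / m) ^ 5 * (t1 - t0) * g ≤ 1)
    (St : StA d t0 ρ0 y e ψ δ ta ζa Ea Ψa)
    (hy : y ≤ 10 ^ 8 * (1 + 1 / m) ^ 2 * (t1 - t0) * g / lam)
    (he0 : 0 ≤ e) (he : e ≤ 10 ^ 8 * (1 + 1 / m) ^ 4 * (t1 - t0) * lam * w ^ 2)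
    (hψ : ψ ≤ 10 ^ 6 * (t1 - t0) * w ^ 2) (hδ : δ ≤ 100 * (1 + 1 / m) * (t1 - t0) * g) :
    ∃ (ζ E W a q : Vec) (Ψb πb : WT) (Er : Mat),
      SBH (mkSB d ta tb ℓr L k0 b ζa Ea) lam g σ ρ c A ρ0 m w e ∧
      SB0 (mkSB d ta tb ℓr L k0 b ζa Ea) lam g ρ0 m w ζ E W a q ∧
      SBR (mkSB d ta tb ℓr L k0 b ζa Ea) (10 ^ 7) lam g ρ0 m w e ζ E W a q ∧
      det2 (Pm (d.tcl ta tb) ζ) = 1 ∧
      (∀ j, Bd 1 ((mkSB d ta tb ℓr L k0 b ζa Ea).r ρ0 m) (ζ j)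
        (y + 10 ^ 7 * (1 + 1 / m) ^ 2 * (tb - ta) * g / lam)) ∧
      (∀ j, Bd 1 ((mkSB d ta tb ℓr L k0 b ζa Ea).r ρ0 m) (E j)
        (2 * e + 10 ^ 7 * (1 + 1 / m) ^ 4 * (tb - ta) * lam * w ^ 2)) ∧
      StA d t0 (ρ0 - m) (y + 10 ^ 7 * (1 + 1 / m) ^ 2 * (tb - ta) * g / lam)
        (2 * e + 10 ^ 7 * (1 + 1 / m) ^ 4 * (tb - ta) * lam * w ^ 2)
        (2 * ψ + 18000 * (tb - ta) * w ^ 2) (δ + 14 * (1 + 1 / m) * (tb - ta) * g) tb
        (fun j => ES.frz tb (ζ j)) (fun j => ES.frz tb (E j)) Ψb ∧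
      (∀ k l, Bd 0 (cr (ρ0 - m)) (Er k l) ((tb - ta) * w ^ 2 *
        (10 ^ 11 * (1 + 1 / m) ^ 4 * (t1 - t0) * g + 10 * (1 + 1 / m) ^ 2 * (lam / L) ^ 2))) ∧
      Pnz d.κ πb = πb ∧ Fin0 (ρ0 - m) πb ∧
      ∀ j, mulv (F0 d t0) (fun k => dp d.κ k (Ψb - Ψa)) j + gradT d.κ (adj (F0 d t0)) πb j =
        dvm d.κ (fun k l => mainS (mkSB d ta tb ℓr L k0 b ζa Ea) (F0 d t0) k l + Er k l) j := by
  have hab : ta < tb := by linarith
  have hab' : tb - ta ≤ t1 - t0 := by linarith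
  have hg : 0 < g := lt_of_lt_of_le (by positivity) hlw
  have hK0 : 0 < 1 + 1 / m := by positivity
  have hl0 : 0 < lam := by linarith
  have hHb : 0 < t1 - t0 := by linarith
  have hh' : 10 ^ 8 * (1 + 1 / m) ^ 5 * (tb - ta) * g ≤ 1 := by
    have h1 : (1 + 1 / m) ^ 5 * (tb - ta) * g ≤ (1 + 1 / m) ^ 5 * (t1 - t0) * g := by gcongr
    have h3 : 0 < (1 + 1 / m) ^ 5 * (t1 - t0) * g := by positivity
    linarith
  have hh12 : 10 ^ 12 * (1 + 1 / m) ^ 5 * (t1 - t0) * g ≤ 1 := by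
    have h3 : 0 < (1 + 1 / m) ^ 5 * (t1 - t0) * g := by positivity
    linarith
  have H := mk_SBH G h0 h2 hℓ hℓ2 hm hm1 hρ hρ0 hρ1 hlam hw hlw hσ0 hσ hc hL hk bb bl br bt hh St
    hy he0 he
  set P := mkSB d ta tb ℓr L k0 b ζa Ea with hP
  have rle : ∀ t, P.r ρ0 m t ≤ ρ0 := fun t => rad_le hab hm.le t
  have ler : ∀ t, ρ0 - m ≤ P.r ρ0 m t := fun t => le_rad hab hm.le t
  have rtb : P.r ρ0 m tb = ρ0 - m := rad_right hab
  obtain ⟨ζ, E, W, a, q, S⟩ := sb_exists0 P H hh'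
  have R := sb_post P H hh' S
  have hdet := det_P H hh' S (div_E H S)
  obtain ⟨φ, π, ha, hq, hE, zφ, zπ, lφ, lπ, rφ, rπ, cφ, cπ, bΨ', bφ, bπ, hid⟩ :=
    psi_exists H hh' S R (Ψa := Ψa) (ψa := ψ) St.eΨ St.zΨ St.bΨ St.lΨ St.rΨ St.tΨ
  -- bounds of ζ and E
  have hz2 : ∀ j, Bd 2 (P.r ρ0 m) (ζ j)
      (y + 10 ^ 7 * (1 + 1 / m) ^ 2 * (tb - ta) * g / lam) := by
    intro j
    have h1 : Bd 2 (P.r ρ0 m) (ζa j) y := (St.zb j).weaken le_rfl rle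
    have h3 := h1.add (R.nζ j)
    have e1 : ζa j + (ζ j - P.ζa j) = ζ j := by
      have : P.ζa j = ζa j := rfl
      rw [this]; abel
    rw [e1] at h3
    exact h3
  have hz1 : ∀ j, Bd 1 (P.r ρ0 m) (ζ j)
      (y + 10 ^ 7 * (1 + 1 / m) ^ 2 * (tb - ta) * g / lam) := fun j =>
    (hz2 j).weaken (by norm_num) fun _ => le_rfl
  have hE1 : ∀ j, Bd 1 (P.r ρ0 m) (E j)
      (2 * e + 10 ^ 7 * (1 + 1 / m) ^ 4 * (tb - ta) * lam * w ^ 2) := fun j => R.nE j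
  -- the matrix FF
  have hFd : ∀ k l, Bd 0 (cr (ρ0 - m)) (FF P.d ζ k l - FF (d.frz ta) ζa k l)
      ((tb - ta) * (14 * (1 + 1 / m) * g)) := by
    intro k l
    have h1 := td_FF H S k l
    have h3 : Bd 0 (cr (ρ0 - m)) (D P.d.κ l (nV P.d ζ E k)) (14 * (1 + 1 / m) * g) :=
      (new_DV' H S k l).weaken le_rfl ler
    have h4 := Bd.sub_frz hab h1 (((new_cl H S k).2.2.2.2.1 l).1) h3 ta
    have h5 : ES.frz ta (FF P.d ζ k l) = FF (d.frz ta) ζa k l := frz_FF_left G H S k l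
    rw [h5] at h4
    exact h4
  have hδ0 : ∀ k l, Bd 0 (cr (ρ0 - m)) (FF (d.frz ta) ζa k l - F0 d t0 k l) δ := fun k l =>
    (St.hδ k l).weaken le_rfl fun _ => by simp only [cr]; linarith
  -- averaging
  have hδ0' : 0 ≤ δ := (hδ0 0 0).nonneg
  have hy0 : 0 ≤ y := (St.zb 0).nonneg
  have hψ0 : 0 ≤ ψ := St.bΨ.nonneg
  obtain ⟨Er, hEr, hid2⟩ := avg_id H S R (Hb := t1 - t0) hab' hh12 bφ bπ bΨ' hid hψ hz1
    (by
      have e1 : lam * (y + 10 ^ 7 * (1 + 1 / m) ^ 2 * (tb - ta) * g / lam) =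
          lam * y + 10 ^ 7 * (1 + 1 / m) ^ 2 * (tb - ta) * g := by
        field_simp
      have e2 : lam * y ≤ 10 ^ 8 * (1 + 1 / m) ^ 2 * (t1 - t0) * g := by
        rw [le_div_iff₀ hl0] at hy
        linarith
      have e3 : (1 + 1 / m) ^ 2 * (tb - ta) * g ≤ (1 + 1 / m) ^ 2 * (t1 - t0) * g := by gcongr
      have e4 : 0 < (1 + 1 / m) ^ 2 * (t1 - t0) * g := by positivity
      rw [e1]
      linarith)
    (ξ0 := fun j => ES.frz t0 (d.ξ j)) (fun j t₀ => frz_frz t₀ t0 (d.ξ j))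
    (by
      intro k l
      have h1 : Fm P.d.κ (fun j => ES.frz t0 (d.ξ j)) k l - idm k l =
          ES.frz t0 (grad d.κ d.ξ k l) := by
        have h : Fm P.d.κ (fun j => ES.frz t0 (d.ξ j)) k l =
            idm k l + D d.κ l (ES.frz t0 (d.ξ k)) := rfl
        rw [h, add_sub_cancel_left]
        unfold grad ES.frz
        rw [tcomp_D]
      rw [h1]
      have h3 : Bd 0 (cr ρ) (ES.frz t0 (grad d.κ d.ξ k l)) c := Bd.frz t0 (G.bF k l)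
      exact (h3.weaken le_rfl fun _ => by simp only [cr]; linarith).mono (by linarith))
    (by
      intro k l
      have h1 := (hFd k l).add (hδ0 k l)
      have e1 : FF P.d ζ k l - FF (d.frz ta) ζa k l + (FF (d.frz ta) ζa k l - F0 d t0 k l) =
          FF P.d ζ k l - Fm P.d.κ (fun j => ES.frz t0 (d.ξ j)) k l := by
        have : Fm P.d.κ (fun j => ES.frz t0 (d.ξ j)) k l = F0 d t0 k l := rfl
        rw [this]; abel
      rw [e1] at h1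
      refine h1.mono ?_
      have e3 : (1 + 1 / m) * (tb - ta) * g ≤ (1 + 1 / m) * (t1 - t0) * g := by gcongr
      have e4 : 0 < (1 + 1 / m) * (t1 - t0) * g := by positivity
      linarith)
  have hEf : ∀ j, ES.frz tb (E j) = dp d.κ j (Ψa + ES.frz tb (intg ta tb φ)) := by
    intro j
    have h1 : E j = dp d.κ j (Ψa + intg ta tb φ) := hE j
    rw [h1, XStep_frz_dp, XStep_frz_add, St.tΨ]
  have hPΨ : Pnz d.κ (Ψa + ES.frz tb (intg ta tb φ)) = Ψa + ES.frz tb (intg ta tb φ) := by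
    have h1 : Pnz d.κ φ = φ := zφ
    rw [map_add, St.zΨ, ← XStep_frz_Pnz, ← XStep_intg_Pnz, h1]
  have hΨb : ES.frz tb (Ψa + intg ta tb φ) = Ψa + ES.frz tb (intg ta tb φ) := by
    rw [XStep_frz_add, St.tΨ]
  refine ⟨ζ, E, W, a, q, Ψa + ES.frz tb (intg ta tb φ), ES.frz tb (intg ta tb π), Er, H, S, R,
    hdet, hz1, hE1, ?_, hEr, ?_, ?_, ?_⟩
  · refine ⟨?_, ?_, ?_, ?_, ?_, ?_, ?_, ?_, ?_, hEf, hPΨ, ?_, ?_, ?_, ?_, ?_⟩
    · intro j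
      have h1 := Bd.frz tb (hz2 j)
      rwa [rtb] at h1
    · intro j
      exact (S.lζ j).tcomp _
    · intro j
      exact (S.rζ j).frz
    · intro j t₀
      exact frz_frz t₀ tb (ζ j)
    · have h1 : det2 (Fm d.κ ζ) = 1 := hdet
      rw [XStep_frz_det, h1]
      exact tcomp_one _
    · intro j
      have h1 := Bd.frz tb (hE1 j)
      rwa [rtb] at h1
    · intro j
      exact (S.lE j).tcomp _
    · intro j
      exact (S.rE j).frz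
    · intro j t₀
      exact frz_frz t₀ tb (E j)
    · have h1 := Bd.frz tb bΨ'
      rw [rtb] at h1
      have h3 : ES.frz tb (Ψa + intg P.ta P.tb φ) = Ψa + ES.frz tb (intg ta tb φ) := hΨb
      rwa [h3] at h1
    · exact St.lΨ.add ((lφ.intg ta tb).tcomp _)
    · exact St.rΨ.add (rφ.intg).frz
    · intro t₀
      rw [XStep_frz_add, St.tΨ, frz_frz]
    · intro k l
      have h1 := Bd.frz tb (hFd k l)
      have h3 : ES.frz tb (FF P.d ζ k l) = FF (d.frz tb) (fun j => ES.frz tb (ζ j)) k l :=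
        frz_FF_right G H S k l
      have h4 : ES.frz tb (FF (d.frz ta) ζa k l) = FF (d.frz ta) ζa k l := by
        have h5 : ES.frz ta (FF P.d ζ k l) = FF (d.frz ta) ζa k l := frz_FF_left G H S k l
        rw [← h5, frz_frz]
      rw [XStep_frz_sub, h3, h4] at h1
      have h6 := h1.add (hδ0 k l)
      have e1 : FF (d.frz tb) (fun j => ES.frz tb (ζ j)) k l - FF (d.frz ta) ζa k l +
          (FF (d.frz ta) ζa k l - F0 d t0 k l) =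
          FF (d.frz tb) (fun j => ES.frz tb (ζ j)) k l - F0 d t0 k l := by abel
      rw [e1] at h6
      exact h6.mono (le_of_eq (by ring))
  · have h1 : Pnz d.κ π = π := zπ
    rw [← XStep_frz_Pnz, ← XStep_intg_Pnz, h1]
  · have h1 : Bd 0 (cr (ρ0 - m)) π (256 * (1 + 1 / m) * g * ψ + 10 ^ 4 * w ^ 2) :=
      bπ.weaken le_rfl ler
    have h3 := Bd.frz tb (Bd.intg hab.le (fun _ _ _ => le_rfl) h1)
    exact ⟨_, h3⟩
  · intro j
    have h1 := hid2 j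
    rw [add_sub_cancel_left]
    exact h1

end ES
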